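import Pool.Agent.CG2.Hecke

/-!
# Levels: the compact open subgroups `K_f = ∏ K_ℓ`
-/

noncomputable section

namespace Pool.Agent.CG2

open NumberField IsDedekindDomain Matrix

/-- The rational primes. -/
abbrev Pr := Nat.Primes

variable (F : Type) [Field F] [NumberField F]

/-- The group `GL₂(F ⊗ ℚ_ℓ)`, the product of the groups `GL₂(F_v)` over the places `v` above the
rational prime `ℓ`, with the product topology. -/
abbrev GL2 (ℓ : Pr) : Type := ∀ v : {v : Pl F // Above (ℓ : ℕ) v}, GQ v.1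

/-- The hyperspecial subgroup `GL₂(O_F ⊗ ℤ_ℓ)` of `GL₂(F ⊗ ℚ_ℓ)`. -/
def hyp (ℓ : Pr) : Subgroup (GL2 F ℓ) where
  carrier := {g | ∀ v, g v ∈ GZ v.1}
  mul_mem' ha hb v := (GZ v.1).mul_mem (ha v) (hb v)
  one_mem' v := (GZ v.1).one_mem
  inv_mem' ha v := (GZ v.1).inv_mem (ha v)

/-- A level: compact open subgroups `K_ℓ` of `GL₂(F ⊗ ℚ_ℓ)` for all rational primes `ℓ`, with
`K_ℓ = GL₂(O_F ⊗ ℤ_ℓ)` for `ℓ` outside a finite set `S` of primes which contains `p`.
The group `K_f` is the product of the `K_ℓ`. -/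
structure Level (p : Pr) (S : Finset Pr) where
  /-- the local groups -/
  K : ∀ ℓ : Pr, Subgroup (GL2 F ℓ)
  isOpen : ∀ ℓ, IsOpen (K ℓ : Set (GL2 F ℓ))
  isCompact : ∀ ℓ, IsCompact (K ℓ : Set (GL2 F ℓ))
  off : ∀ ℓ, ℓ ∉ S → K ℓ = hyp F ℓ
  mem : p ∈ S

/-- The set of the places of `F` above the primes in `S`. -/
def ab (S : Finset Pr) : Set (Pl F) := {v | ∃ ℓ ∈ S, Above (ℓ : ℕ) v}

variable {F}
variable {p : Pr} {S : Finset Pr}

/-- The component at the rational prime `ℓ` of an element of `GL₂(𝔸_f)`. -/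
def at_ (g : GA F) (ℓ : Pr) : GL2 F ℓ := fun v => g.1 v.1

/-- The group `K_f`, a subgroup of `GL₂(𝔸_f)`. -/
def Level.Kf (L : Level F p S) : Subgroup (GA F) where
  carrier := {k | ∀ ℓ, at_ k ℓ ∈ L.K ℓ}
  mul_mem' ha hb ℓ := (L.K ℓ).mul_mem (ha ℓ) (hb ℓ)
  one_mem' ℓ := (L.K ℓ).one_mem
  inv_mem' ha ℓ := (L.K ℓ).inv_mem (ha ℓ)

/-- The group `K_p`. -/
abbrev Level.Kp (L : Level F p S) : Type := L.K p

/-- The projection from `K_f` to `K_p`. -/
def Level.toKp (L : Level F p S) : L.Kf →* L.Kp where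
  toFun k := ⟨at_ k.1 p, k.2 p⟩
  map_one' := rfl
  map_mul' _ _ := rfl

variable {O : Type} [CommRing O] {W : Type} [AddCommGroup W] [Module O W]

/-- The `K_f`-module given by a `K_p`-module. -/
def Level.rep (L : Level F p S) (σ : Representation O L.Kp W) : Representation O L.Kf W :=
  σ.comp L.toKp

/-- Every finite place lies above exactly one rational prime. -/
theorem exists_above (v : Pl F) : ∃ ℓ : Pr, Above (ℓ : ℕ) v := by
  have hmem : ((Ideal.absNorm v.asIdeal : ℕ) : 𝓞 F) ∈ v.asIdeal := Ideal.absNorm_mem _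
  have key : ∀ n : ℕ, n ≠ 0 → (n : 𝓞 F) ∈ v.asIdeal → ∃ ℓ : ℕ, ℓ.Prime ∧ (ℓ : 𝓞 F) ∈ v.asIdeal := by
    intro n hn h
    induction n using Nat.recOnMul with
    | zero => exact absurd rfl hn
    | one => exact absurd ((Ideal.eq_top_iff_one _).2 (by simpa using h)) v.isPrime.ne_top
    | prime q hq => exact ⟨q, hq, h⟩
    | mul a b iha ihb =>
      rw [Nat.cast_mul] at h
      rcases v.isPrime.mem_or_mem h with h | h
      · exact iha (left_ne_zero_of_mul hn) h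
      · exact ihb (right_ne_zero_of_mul hn) h
  obtain ⟨ℓ, h1, h2⟩ := key _ (by rw [Ne, Ideal.absNorm_eq_zero_iff]; exact v.ne_bot) hmem
  exact ⟨⟨ℓ, h1⟩, h2⟩

theorem above_unique {v : Pl F} {ℓ q : Pr} (h : Above (ℓ : ℕ) v) (h' : Above (q : ℕ) v) :
    ℓ = q := by
  by_contra hne
  have hc : Nat.Coprime (ℓ : ℕ) (q : ℕ) :=
    (Nat.coprime_primes ℓ.2 q.2).2 fun h => hne (Subtype.ext h)
  have h1 : (1 : 𝓞 F) ∈ v.asIdeal := by
    have h2 := Nat.isCoprime_iff_coprime.2 hc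
    obtain ⟨a, b, hab⟩ := h2
    have h3 : (a : 𝓞 F) * ((ℓ : ℕ) : 𝓞 F) + (b : 𝓞 F) * ((q : ℕ) : 𝓞 F) = 1 := by
      have := congrArg (Int.cast : ℤ → 𝓞 F) hab
      simpa using this
    rw [← h3]
    exact v.asIdeal.add_mem (v.asIdeal.mul_mem_left _ h) (v.asIdeal.mul_mem_left _ h')
  exact v.isPrime.ne_top ((Ideal.eq_top_iff_one _).2 h1)

open Classical in
theorem at_single_same {v : Pl F} {ℓ : Pr} (h : Above (ℓ : ℕ) v) (k : GQ v) :
    at_ (single v k) ℓ = Pi.mulSingle (M := fun w : {v : Pl F // Above (ℓ : ℕ) v} => GQ w.1)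
      ⟨v, h⟩ k := by
  funext w
  by_cases hw : w = ⟨v, h⟩
  · subst hw
    rw [Pi.mulSingle_eq_same]
    exact single_same v k
  · rw [Pi.mulSingle_eq_of_ne hw]
    exact single_ne (fun h' => hw (Subtype.ext h')) k

theorem at_single_ne {v : Pl F} {ℓ : Pr} (h : ¬ Above (ℓ : ℕ) v) (k : GQ v) :
    at_ (single v k) ℓ = 1 := by
  funext w
  have h1 : w.1 ≠ v := by
    intro h'
    apply h
    rw [← h']
    exact w.2
  exact single_ne h1 k

theorem Level.unram (L : Level F p S) (σ : Representation O L.Kp W) :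
    UnramOff L.Kf (L.rep σ) (ab F S) := by
  intro v hv
  have hmem : ∀ k ∈ GZ v, single v k ∈ L.Kf := by
    intro k hk ℓ
    by_cases h : Above (ℓ : ℕ) v
    · have hℓ : ℓ ∉ S := fun h' => hv ⟨ℓ, h', h⟩
      rw [L.off ℓ hℓ]
      intro w
      change (single v k).1 w.1 ∈ GZ w.1
      by_cases hw : w.1 = v
      · obtain ⟨w, hw'⟩ := w
        simp only at hw
        subst hw
        rw [single_same]
        exact hk
      · rw [single_ne hw]
        exact (GZ w.1).one_mem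
    · rw [at_single_ne h]
      exact (L.K ℓ).one_mem
  refine ⟨?_, hmem, ?_⟩
  · intro k hk
    obtain ⟨ℓ, hℓ⟩ := exists_above v
    have h1 : ℓ ∉ S := fun h' => hv ⟨ℓ, h', hℓ⟩
    have h2 := hk ℓ
    rw [L.off ℓ h1] at h2
    exact h2 ⟨v, hℓ⟩
  · intro k hk
    have h0 : ¬ Above (p : ℕ) v := fun h => hv ⟨p, L.mem, h⟩
    have h1 : L.toKp ⟨single v k, hmem k hk⟩ = 1 := Subtype.ext (at_single_ne h0 k)
    change σ (L.toKp _) = 1
    rw [h1, map_one]

/-- The action of `K_p` on `W` is continuous for the `𝔪`-adic topology of `W`, `𝔪` the maximal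
ideal of `O`. -/
def IsContinuousRep [IsLocalRing O] (L : Level F p S) (σ : Representation O L.Kp W) : Prop :=
  ∀ n : ℕ, ∃ U : Set (GL2 F p), IsOpen U ∧ 1 ∈ U ∧ ∀ k : L.Kp, (k : GL2 F p) ∈ U →
    ∀ w : W, σ k w - w ∈ (IsLocalRing.maximalIdeal O ^ n • ⊤ : Submodule O W)

end Pool.Agent.CG2
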