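import Pool.Agent.CG2.HeckeComm
import Pool.Agent.CG2.Levels

/-!
# The Hecke algebra acting on the cohomology, its support, and the Galois representations
# attached to maximal ideals
-/

noncomputable section

namespace Pool.Agent.CG2

open CategoryTheory NumberField IsDedekindDomain Matrix
open scoped IsMulCommutative

variable {F : Type} [Field F] [NumberField F] {S : Set (Pl F)}
variable {O : Type} [CommRing O] {W : Type} [AddCommGroup W] [Module O W]

theorem heckeCoh_comm (K : Subgroup (GA F)) (τ : Representation O K W)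
    (hU : UnramOff K τ S) (i : ℕ) (s t : Idx S) :
    heckeCoh K τ hU i s * heckeCoh K τ hU i t = heckeCoh K τ hU i t * heckeCoh K τ hU i s := by
  have h1 : heckeHom K τ hU s ≫ heckeHom K τ hU t = heckeHom K τ hU t ≫ heckeHom K τ hU s := by
    apply Rep.hom_ext
    apply Representation.IntertwiningMap.ext
    apply LinearMap.ext
    intro f
    exact (LinearMap.congr_fun (heckeLin_comm K τ hU s t) f).symm
  have h2 := congrArg (fun a => ((groupCohomology.functor O (G F) i).map a).hom) h1
  simp only [CategoryTheory.Functor.map_comp, ModuleCat.hom_comp] at h2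
  exact h2.symm

/-- The Hecke algebra: the polynomial algebra over `O` on the Hecke operators `T_v`, `R_v`,
`R_v⁻¹`, `v ∉ S`. -/
abbrev HeckeAlg (S : Set (Pl F)) (O : Type) [CommRing O] := MvPolynomial (Idx S) O

/-- The commutative algebra of endomorphisms of `Hⁱ(Y(K), W)` generated by the Hecke
operators. -/
def heckeSub (K : Subgroup (GA F)) (τ : Representation O K W)
    (hU : UnramOff K τ S) (i : ℕ) :
    Subalgebra O (Module.End O (groupCohomology (coeff K τ) i)) :=
  Algebra.adjoin O (Set.range (heckeCoh K τ hU i))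

instance heckeSub_comm (K : Subgroup (GA F)) (τ : Representation O K W)
    (hU : UnramOff K τ S) (i : ℕ) :
    IsMulCommutative (heckeSub K τ hU i) :=
  Algebra.isMulCommutative_adjoin O (by
    rintro _ ⟨s, rfl⟩ _ ⟨t, rfl⟩
    exact heckeCoh_comm K τ hU i s t)

/-- The action of the Hecke algebra on `Hⁱ(Y(K), W)`. -/
def hact (K : Subgroup (GA F)) (τ : Representation O K W)
    (hU : UnramOff K τ S) (i : ℕ) :
    HeckeAlg S O →ₐ[O] Module.End O (groupCohomology (coeff K τ) i) :=
  (heckeSub K τ hU i).val.comp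
    (MvPolynomial.aeval (fun t => (⟨heckeCoh K τ hU i t, Algebra.subset_adjoin ⟨t, rfl⟩⟩ :
      heckeSub K τ hU i)))

theorem hact_X (K : Subgroup (GA F)) (τ : Representation O K W)
    (hU : UnramOff K τ S) (i : ℕ) (t : Idx S) :
    hact K τ hU i (MvPolynomial.X t) = heckeCoh K τ hU i t := by
  simp [hact]

/-- The localisation of `Hⁱ(Y(K), W)` at the prime ideal `m` of the Hecke algebra is not
zero. -/
def InSupport (K : Subgroup (GA F)) (τ : Representation O K W)
    (hU : UnramOff K τ S) (i : ℕ) (m : Ideal (HeckeAlg S O)) : Prop :=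
  ∃ h : groupCohomology (coeff K τ) i, ∀ t : HeckeAlg S O, t ∉ m → hact K τ hU i t h ≠ 0

/-- An algebraic closure of `F`. -/
abbrev Fbar (F : Type) [Field F] := AlgebraicClosure F

/-- The absolute Galois group of `F`, with its Krull topology. -/
abbrev GalF (F : Type) [Field F] := Fbar F ≃ₐ[F] Fbar F

/-- The ring of algebraic integers in `Fbar`. -/
abbrev Zbar (F : Type) [Field F] := integralClosure ℤ (Fbar F)

/-- The prime ideal `Q` of the ring of algebraic integers lies over the place `v`. -/
def Over (v : Pl F) (Q : Ideal (Zbar F)) : Prop :=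
  Q.IsPrime ∧ ∀ a ∈ v.asIdeal, ∀ x : Zbar F, (x : Fbar F) = algebraMap F (Fbar F) (a : F) → x ∈ Q

/-- `σ` acts trivially on the residue ring `Zbar / Q`. -/
def IsInertia (Q : Ideal (Zbar F)) (σ : GalF F) : Prop :=
  ∀ x y : Zbar F, (y : Fbar F) = σ (x : Fbar F) → y - x ∈ Q

/-- The norm of the finite place `v`, the number of elements of its residue field. -/
def Nm (v : Pl F) : ℕ := Ideal.absNorm v.asIdeal

/-- `σ` acts on the residue ring `Zbar / Q` by `x ↦ x ^ N v`: it is a Frobenius element at `Q`,
where `Q` lies over `v`. -/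
def IsFrob (v : Pl F) (Q : Ideal (Zbar F)) (σ : GalF F) : Prop :=
  ∀ x y : Zbar F, (y : Fbar F) = σ (x : Fbar F) → y - x ^ Nm v ∈ Q

/-- The image in `k` of the Hecke operator attached to `t`, where `k` is a field extension of the
residue field of the maximal ideal `m` of the Hecke algebra. -/
def eig (m : Ideal (HeckeAlg S O)) (k : Type) [Field k] [Algebra (HeckeAlg S O ⧸ m) k]
    (t : Idx S) : k :=
  algebraMap (HeckeAlg S O ⧸ m) k (Ideal.Quotient.mk m (MvPolynomial.X t))

/-- The representation `ρ` of the absolute Galois group of `F` is attached to the maximal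
ideal `m` of the Hecke algebra: it is continuous, unramified outside `S`, and the characteristic
polynomial of (arithmetic, `e = 1`, or geometric, `e = -1`) Frobenius elements at `v ∉ S` is
given by the Hecke eigenvalues through the Satake isomorphism, up to a twist by a power of the
cyclotomic character: `X² - c_v T_v X + (N v)^b R_v` with `c_v² N v = (N v)^b`. (The half
integral normalisation is `b = 0`.) -/
def Attached (m : Ideal (HeckeAlg S O)) (k : Type) [Field k] [Algebra (HeckeAlg S O ⧸ m) k]
    (ρ : GalF F →* GL (Fin 2) k) : Prop :=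
  IsOpen (ρ.ker : Set (GalF F)) ∧
  ∃ (b : ℤ) (e : ℤˣ) (c : Pl F → k),
    (∀ v, v ∉ S → c v ^ 2 * ((Nm v : ℕ) : k) = ((Nm v : ℕ) : k) ^ b) ∧
    ∀ (v : Pl F) (hv : v ∉ S) (Q : Ideal (Zbar F)), Over v Q →
      (∀ σ : GalF F, IsInertia Q σ → ρ σ = 1) ∧
      (∀ σ : GalF F, IsFrob v Q σ →
        (ρ (σ ^ (e : ℤ)) : Matrix (Fin 2) (Fin 2) k).charpoly =
          Polynomial.X ^ 2
            - Polynomial.C (c v * eig m k (⟨v, hv⟩, 0)) * Polynomial.X
            + Polynomial.C (((Nm v : ℕ) : k) ^ b * eig m k (⟨v, hv⟩, 1)))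

/-- `ρ` does not factor through a proper parabolic subgroup of `GL₂`, after any finite extension
of the field `k`: over no finite extension is there a stable subspace other than `0` and the
whole space. -/
def NonEisenstein {k : Type} [Field k] (ρ : GalF F →* GL (Fin 2) k) : Prop :=
  ∀ (k' : Type) [Field k'] [Algebra k k'], Module.Finite k k' →
    ∀ V : Submodule k' (Fin 2 → k'),
      (∀ (g : GalF F), ∀ v ∈ V,
        ((ρ g : Matrix (Fin 2) (Fin 2) k).map (algebraMap k k')).mulVec v ∈ V) →
      V = ⊥ ∨ V = ⊤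

/-- The number of real places of `F`. -/
def r1 (F : Type) [Field F] [NumberField F] : ℕ := InfinitePlace.nrRealPlaces F

/-- The number of complex places of `F`. -/
def r2 (F : Type) [Field F] [NumberField F] : ℕ := InfinitePlace.nrComplexPlaces F

/-- The real dimension of `GL₂(F ⊗ ℝ) = GL₂(ℝ)^r1 × GL₂(ℂ)^r2`, minus that of
`A_∞ K_∞ = ℝ_{>0} × SO(2)^r1 × U(2)^r2`: the dimension of `Y(K_f)`. -/
def dY (F : Type) [Field F] [NumberField F] : ℤ :=
  (4 * r1 F + 8 * r2 F : ℤ) - (1 + r1 F + 4 * r2 F)

/-- The difference of the ranks of `GL₂(F ⊗ ℝ)` and of `A_∞ K_∞`. -/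
def ell0 (F : Type) [Field F] [NumberField F] : ℤ :=
  (2 * r1 F + 4 * r2 F : ℤ) - (1 + r1 F + 2 * r2 F)

/-- `q₀ = (d_Y - ℓ₀) / 2`. -/
def q0 (F : Type) [Field F] [NumberField F] : ℤ := (dY F - ell0 F) / 2

end Pool.Agent.CG2
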