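import Pool.Agent.CG2.Iface

/-!
# The levels of the main theorem satisfy the hypotheses of the internal statements
-/

noncomputable section

namespace Pool.Agent.CG2

open NumberField IsDedekindDomain Matrix

variable {F : Type} [Field F] [NumberField F]

theorem LevelOC_fin (ℓ : Pr) : {v : Pl F | Above (ℓ : ℕ) v}.Finite := by
  have h1 := HeightOneSpectrum.Support.finite (R := 𝓞 F) (((ℓ : ℕ) : F)⁻¹)
  refine h1.subset ?_
  intro v hv
  change 1 < v.valuation F (((ℓ : ℕ) : F)⁻¹)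
  have h2 : v.valuation F (algebraMap (𝓞 F) F ((ℓ : ℕ) : 𝓞 F)) < 1 :=
    (v.valuation_lt_one_iff_mem _).2 hv
  rw [map_natCast] at h2
  have h3 : (((ℓ : ℕ) : F)) ≠ 0 := Nat.cast_ne_zero.2 ℓ.2.ne_zero
  rw [map_inv₀]
  exact (one_lt_inv₀ (zero_lt_iff.2 ((Valuation.ne_zero_iff _).2 h3))).2 h2

instance LevelOC_finite (ℓ : Pr) : Finite {v : Pl F // Above (ℓ : ℕ) v} :=
  (LevelOC_fin ℓ).to_subtype

open Classical in
/-- The local component of an open subgroup. -/
def LevelOC_U (ℓ : Pr) (H : Subgroup (GL2 F ℓ)) (v : {v : Pl F // Above (ℓ : ℕ) v}) :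
    Subgroup (GQ v.1) :=
  H.comap (MonoidHom.mulSingle (fun w : {v : Pl F // Above (ℓ : ℕ) v} => GQ w.1) v)

theorem LevelOC_U_open (ℓ : Pr) (H : Subgroup (GL2 F ℓ)) (hH : IsOpen (H : Set (GL2 F ℓ)))
    (v : {v : Pl F // Above (ℓ : ℕ) v}) : IsOpen (LevelOC_U ℓ H v : Set (GQ v.1)) := by
  classical
  exact hH.preimage (continuous_mulSingle v)

theorem LevelOC_U_mem (ℓ : Pr) (H : Subgroup (GL2 F ℓ)) (g : GL2 F ℓ)
    (hg : ∀ v, g v ∈ LevelOC_U ℓ H v) : g ∈ H := by
  classical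
  exact Subgroup.pi_mem_of_mulSingle_mem g fun v => hg v

/-- The rational prime below `v`. -/
def LevelOC_pr (v : Pl F) : Pr := (exists_above v).choose

theorem LevelOC_pr_spec (v : Pl F) : Above (LevelOC_pr v : ℕ) v := (exists_above v).choose_spec

/-- The level of the main theorem satisfies the hypotheses of the internal statements. -/
theorem Level.oc {p : Pr} {S : Finset Pr} (L : Level F p S) : OC L.Kf (ab F S) := by
  classical
  refine ⟨?_, ⟨fun v => LevelOC_U (LevelOC_pr v) (L.K _) ⟨v, LevelOC_pr_spec v⟩,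
    fun v => LevelOC_U_open _ _ (L.isOpen _) _, ?_, ?_⟩,
    ⟨fun v => (L.K (LevelOC_pr v)).map (Pi.evalMonoidHom
      (fun w : {w : Pl F // Above (LevelOC_pr v : ℕ) w} => GQ w.1) ⟨v, LevelOC_pr_spec v⟩),
      ?_, ?_, ?_⟩⟩
  · have : ab F S = ⋃ ℓ ∈ S, {v : Pl F | Above (ℓ : ℕ) v} := by
      ext v; simp [ab]
    rw [this]
    exact Set.Finite.biUnion S.finite_toSet fun ℓ _ => LevelOC_fin ℓ
  · intro v hv k hk
    have hℓ : LevelOC_pr v ∉ S := fun h => hv ⟨_, h, LevelOC_pr_spec v⟩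
    change Pi.mulSingle (M := fun w : {w : Pl F // Above (LevelOC_pr v : ℕ) w} => GQ w.1)
      ⟨v, LevelOC_pr_spec v⟩ k ∈ L.K (LevelOC_pr v)
    rw [L.off _ hℓ]
    intro w
    by_cases hw : w = ⟨v, LevelOC_pr_spec v⟩
    · subst hw
      rw [Pi.mulSingle_eq_same]
      exact hk
    · rw [Pi.mulSingle_eq_of_ne hw]
      exact (GZ w.1).one_mem
  · intro k hk ℓ
    apply LevelOC_U_mem
    rintro ⟨v, hv⟩
    have h1 : LevelOC_pr v = ℓ := above_unique (LevelOC_pr_spec v) hv
    subst h1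
    exact hk v
  · intro v
    rw [Subgroup.coe_map]
    exact (L.isCompact _).image (continuous_apply _)
  · rintro v hv _ ⟨g, hg, rfl⟩
    have hℓ : LevelOC_pr v ∉ S := fun h => hv ⟨_, h, LevelOC_pr_spec v⟩
    rw [SetLike.mem_coe, L.off _ hℓ] at hg
    exact hg ⟨v, LevelOC_pr_spec v⟩
  · intro k hk v
    exact ⟨at_ k (LevelOC_pr v), hk _, rfl⟩

/-- The subgroup acting trivially modulo a submodule. -/
def LevelOC_H {p : Pr} {S : Finset Pr} (L : Level F p S) {O : Type} [CommRing O]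
    {W : Type} [AddCommGroup W] [Module O W] (σ : Representation O L.Kp W) (I : Ideal O) :
    Subgroup L.Kp where
  carrier := {k | ∀ w : W, σ k w - w ∈ (I • ⊤ : Submodule O W)}
  one_mem' w := by
    rw [map_one]
    simp
  mul_mem' := by
    intro a b ha hb w
    have h1 : σ (a * b) w - w = σ a (σ b w - w) + (σ a w - w) := by
      rw [map_mul, Module.End.mul_apply, map_sub]; abel
    rw [h1]
    refine add_mem ?_ (ha w)
    have h2 : (I • ⊤ : Submodule O W) ≤ (I • ⊤ : Submodule O W).comap (σ a) := by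
      rw [Submodule.smul_le]
      intro r hr n _
      rw [Submodule.mem_comap, map_smul]
      exact Submodule.smul_mem_smul hr trivial
    exact h2 (hb w)
  inv_mem' := by
    intro a ha w
    have h2 : (I • ⊤ : Submodule O W) ≤ (I • ⊤ : Submodule O W).comap (σ a⁻¹) := by
      rw [Submodule.smul_le]
      intro r hr n _
      rw [Submodule.mem_comap, map_smul]
      exact Submodule.smul_mem_smul hr trivial
    have h3 := h2 (ha w)
    rw [Submodule.mem_comap, map_sub, ← Module.End.mul_apply, ← map_mul, inv_mul_cancel, map_one,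
      Module.End.one_apply] at h3
    rw [← neg_mem_iff, neg_sub]
    exact h3

theorem Level.cont {p : Pr} {S : Finset Pr} (L : Level F p S) {O : Type} [CommRing O]
    [IsLocalRing O] {W : Type} [AddCommGroup W] [Module O W] (σ : Representation O L.Kp W)
    (hσ : IsContinuousRep L σ) : Cont L.Kf (L.rep σ) (ab F S) := by
  classical
  intro n
  obtain ⟨N, hN, hN1, hNσ⟩ := hσ n
  set I := IsLocalRing.maximalIdeal O ^ n with hI
  let H : Subgroup (GL2 F p) := (LevelOC_H L σ I).map (L.K p).subtype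
  have hH : IsOpen (H : Set (GL2 F p)) := by
    apply Subgroup.isOpen_of_mem_nhds (g := 1)
    refine Filter.mem_of_superset ((hN.inter (L.isOpen p)).mem_nhds ⟨hN1, (L.K p).one_mem⟩) ?_
    rintro g ⟨hg1, hg2⟩
    exact ⟨⟨g, hg2⟩, hNσ ⟨g, hg2⟩ hg1, rfl⟩
  refine ⟨fun v => if h : Above (p : ℕ) v then LevelOC_U p H ⟨v, h⟩ else ⊤, ?_, ?_, ?_⟩
  · intro v
    by_cases h : Above (p : ℕ) v
    · simp only [dif_pos h]
      exact LevelOC_U_open _ _ hH _
    · simp only [dif_neg h]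
      exact isOpen_univ
  · intro v hv
    have h : ¬ Above (p : ℕ) v := fun h => hv ⟨p, L.mem, h⟩
    simp only [dif_neg h]
    exact le_top
  · intro k hk
    have h1 : at_ k.1 p ∈ H := by
      apply LevelOC_U_mem
      rintro ⟨v, hv⟩
      have := hk v
      simp only [dif_pos hv] at this
      exact this
    obtain ⟨g, hg, hgk⟩ := h1
    intro w
    have h2 : L.toKp k = g := Subtype.ext hgk.symm
    change σ (L.toKp k) w - w ∈ _
    rw [h2]
    exact hg w

/-- The norm of a place prime to `p` is not zero modulo `p`. -/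
theorem Nm_ne_zero {p : ℕ} [Fact p.Prime] (κ : Type) [Field κ] [CharP κ p] (v : Pl F)
    (hv : ¬ Above p v) : (Nm v : κ) ≠ 0 := by
  intro h0
  rw [CharP.cast_eq_zero_iff κ p] at h0
  obtain ⟨ℓ, hℓ⟩ := exists_above v
  have h1 : Ideal.span {((ℓ : ℕ) : 𝓞 F)} ≤ v.asIdeal := by
    rw [Ideal.span_singleton_le_iff_mem]; exact hℓ
  have h2 : Nm v ∣ Ideal.absNorm (Ideal.span {((ℓ : ℕ) : 𝓞 F)}) :=
    Ideal.absNorm_dvd_absNorm_of_le h1
  have h3 : Ideal.absNorm (Ideal.span {((ℓ : ℕ) : 𝓞 F)}) = (ℓ : ℕ) ^ Module.finrank ℤ (𝓞 F) := by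
    rw [Ideal.absNorm_span_singleton]
    have : ((ℓ : ℕ) : 𝓞 F) = algebraMap ℤ (𝓞 F) ((ℓ : ℕ) : ℤ) := by simp
    rw [this, Algebra.norm_algebraMap]
    simp
  rw [h3] at h2
  have hp : p.Prime := Fact.out
  have h4 := hp.dvd_of_dvd_pow (h0.trans h2)
  have h5 := (Nat.prime_dvd_prime_iff_eq hp ℓ.2).1 h4
  apply hv
  rw [h5]
  exact hℓ

end Pool.Agent.CG2
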