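import Pool.Agent.CG2.CellDefs

/-!
# Local facts on equivariant systems of cells
-/

noncomputable section

namespace Pool.Agent.CG2

open Pool.Agent.CG3 CategoryTheory

variable {k Γ B E Y W : Type} [CommRing k] [Group Γ] [MulAction Γ B] [MulAction Γ E]
  [DecidableEq E] [MulAction Γ Y] [AddCommGroup W] [Module k W]

variable (C : CellSys Γ B E) {pr : Y → B} {M : Submodule k (Y → W)}

omit [MulAction Γ B] [MulAction Γ E] [DecidableEq E] in
theorem CellTop_hom_zero {X₁ X₂ X₃ : Rep.{0} k Γ} (f : X₁ ⟶ X₂) (g : X₂ ⟶ X₃)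
    (hfg : ∀ a, g.hom (f.hom a) = 0) : f ≫ g = 0 := by
  apply Rep.hom_ext
  apply Representation.IntertwiningMap.ext
  apply LinearMap.ext
  intro a
  exact hfg a

theorem CellTop_ses {X₁ X₂ X₃ : Rep.{0} k Γ} (f : X₁ ⟶ X₂) (g : X₂ ⟶ X₃)
    (hf : Function.Injective f.hom) (hg : Function.Surjective g.hom)
    (h0 : f ≫ g = 0) (hex : ∀ b, g.hom b = 0 → ∃ a, f.hom a = b) :
    (ShortComplex.mk f g h0).ShortExact := by
  have hex' : (ShortComplex.mk f g h0).Exact := by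
    rw [← ShortComplex.exact_map_iff_of_faithful _ (forget₂ (Rep k Γ) (ModuleCat k)),
      ShortComplex.moduleCat_exact_iff]
    intro b hb
    exact hex b hb
  exact { exact := hex', mono_f := (Rep.mono_iff_injective _).2 hf,
          epi_g := (Rep.epi_iff_surjective _).2 hg }

/-- The cohomology in degree zero. -/
def CellTop_h0 (A : Rep.{0} k Γ) : groupCohomology A 0 ≃ₗ[k] A.ρ.invariants :=
  (groupCohomology.H0Iso A).toLinearEquiv

theorem CellTop_h0_nat {A A' : Rep.{0} k Γ} (f : A ⟶ A') (a : groupCohomology A 0) :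
    (CellTop_h0 A' (((groupCohomology.functor k Γ 0).map f).hom a)).1 =
      f.hom (CellTop_h0 A a).1 := by
  have h1 := groupCohomology.map_id_comp_H0Iso_hom f
  exact congrArg (fun g => (g.hom a).1) h1

theorem CellTop_inv_iff {Z : Type} [MulAction Γ Z] (S : Submodule k (Z → W))
    (hS : ∀ (γ : Γ), ∀ φ ∈ S, (fun z => φ (γ⁻¹ • z)) ∈ S) (x : S) :
    x ∈ (Rep.of (Sel.fRep S hS)).ρ.invariants ↔ ∀ (γ : Γ) z, x.1 (γ • z) = x.1 z := by
  constructor
  · intro h γ z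
    have h1 := h γ⁻¹
    have h2 := congrArg (fun a : S => a.1 z) h1
    change x.1 (γ⁻¹⁻¹ • z) = x.1 z at h2
    rwa [inv_inv] at h2
  · intro h γ
    apply Subtype.ext
    funext z
    exact h γ⁻¹ z

theorem CellTop_cell_smul (γ : Γ) (b : B) : (C.X (γ • b)).cell =
    fun R => (C.X b).cell (Sel.mp (MulAction.toPerm γ).symm R) := by
  funext R
  apply propext
  rw [← C.eqv γ b, Sel.mp_mp_symm]

theorem CellTop_dc_smul (γ : Γ) (b : B) {m : ℕ} (φ : (Fin (m + 1) → E) → W) (t : Fin m → E) :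
    Sel.dc (C.X (γ • b)).cell φ (γ • t) = Sel.dc (C.X b).cell (fun t' => φ (γ • t')) t := by
  rw [CellTop_cell_smul]
  exact Sel.dc_comp _ (MulAction.toPerm γ) φ t

omit [MulAction Γ E] [DecidableEq E] in
theorem CellTop_loc (hM : IsCoef (Γ := Γ) pr M) {f : Y → W}
    (h : ∀ b, ∃ g ∈ M, ∀ y, pr y = b → f y = g y) : f ∈ M := by
  rw [hM.loc]
  intro b
  obtain ⟨g, hg, hfg⟩ := h b
  have h1 : res pr b f = res pr b g := by
    funext y
    unfold res
    split_ifs with hy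
    · exact hfg y hy
    · rfl
  rw [h1]
  exact (hM.loc g).1 hg b

omit [DecidableEq E] in
/-- The sum of the values around `t` in the complex at `b`. -/
theorem CellTop_sum_mem {m : ℕ} {φ : Y × (Fin (m + 1) → E) → W}
    (hφ : ∀ t, (fun y => φ (y, t)) ∈ M) (S : Finset E) (t : Fin m → E) :
    (fun y => ∑ ρ ∈ S, φ (y, Fin.cons ρ t)) ∈ M := by
  have h1 : (fun y => ∑ ρ ∈ S, φ (y, Fin.cons ρ t)) =
      ∑ ρ ∈ S, fun y => φ (y, (Fin.cons ρ t : Fin (m + 1) → E)) := by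
    funext y
    rw [Finset.sum_apply]
  rw [h1]
  exact M.sum_mem fun ρ _ => hφ _

theorem CellTop_dn_mem (hM : IsCoef (Γ := Γ) pr M) {m : ℕ} {φ : Y × (Fin (m + 1) → E) → W}
    (hφ : ∀ t, (fun y => φ (y, t)) ∈ M) (t : Fin m → E) :
    (fun y => Sel.dc (C.X (pr y)).cell (fun t => φ (y, t)) t) ∈ M := by
  classical
  apply CellTop_loc hM
  intro b
  by_cases ht : Sel.ctc (C.X b).cell t
  · refine ⟨_, CellTop_sum_mem hφ (Sel.nb (C.X b).cell (Sel.im t)) t, ?_⟩
    intro y hy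
    rw [hy, Sel.dc, if_pos ht]
  · refine ⟨0, M.zero_mem, ?_⟩
    intro y hy
    rw [hy, Sel.dc, if_neg ht]
    rfl

theorem CellTop_dc_altc (b : B) {m : ℕ} {φ : (Fin (m + 1) → E) → W}
    (h : Sel.Altc (C.X b).cell φ) : Sel.Altc (C.X b).cell (Sel.dc (C.X b).cell φ) :=
  Sel.Cx.Alt.d (X := C.X b) h

theorem CellTop_dc_add (b : B) {m : ℕ} (φ ψ : (Fin (m + 1) → E) → W) (t : Fin m → E) :
    Sel.dc (C.X b).cell (fun t => φ t + ψ t) t =
      Sel.dc (C.X b).cell φ t + Sel.dc (C.X b).cell ψ t :=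
  congrFun (Sel.Cx.d_add (X := C.X b) φ ψ) t

end Pool.Agent.CG2
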