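import Mathlib

/-!
# Eigenfunctionals
-/

noncomputable section

namespace Pool.Agent.CG2

/-- A module with non-zero localisation at a maximal ideal has a non-zero eigenfunctional. -/
theorem exists_eigf {O A M : Type} [CommRing O] [CommRing A] [Algebra O A] [AddCommGroup M]
    [Module O M] [Module.Finite O M] (f : A →ₐ[O] Module.End O M) (m : Ideal A) [hm : m.IsMaximal]
    (h : ∃ z : M, ∀ t ∉ m, f t z ≠ 0) :
    ∃ φ : M →+ A ⧸ m, φ ≠ 0 ∧ ∀ (t : A) (z : M), φ (f t z) = Ideal.Quotient.mk m t * φ z := by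
  obtain ⟨z0, hz0⟩ := h
  let iM : Module A M := Module.compHom M f.toRingHom
  have hsmul : ∀ (t : A) (z : M), t • z = f t z := fun t z => rfl
  have : IsScalarTower O A M := by
    refine ⟨fun a t z => ?_⟩
    rw [hsmul, hsmul, map_smul]
    rfl
  have : Module.Finite A M := Module.Finite.of_restrictScalars_finite O A M
  let iF : Field (A ⧸ m) := Ideal.Quotient.field m
  have hne : (m • ⊤ : Submodule A M) ≠ ⊤ := by
    intro hmt
    obtain ⟨r, hr, hr0⟩ := Submodule.exists_sub_one_mem_and_smul_eq_zero_of_fg_of_le_smul m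
      (⊤ : Submodule A M) Module.Finite.fg_top hmt.ge
    refine hz0 r (fun hrm => ?_) (hr0 z0 trivial)
    have h1 : (1 : A) ∈ m := by
      have := m.sub_mem hrm hr
      simpa using this
    exact hm.ne_top ((Ideal.eq_top_iff_one m).2 h1)
  obtain ⟨z1, hz1⟩ : ∃ z : M, z ∉ (m • ⊤ : Submodule A M) := by
    by_contra hc
    push Not at hc
    exact hne (eq_top_iff.2 fun z _ => hc z)
  have hq : (Submodule.Quotient.mk z1 : M ⧸ (m • ⊤ : Submodule A M)) ≠ 0 := by
    rw [Ne, Submodule.Quotient.mk_eq_zero]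
    exact hz1
  obtain ⟨g, hg⟩ : ∃ g : Module.Dual (A ⧸ m) (M ⧸ (m • ⊤ : Submodule A M)),
      g (Submodule.Quotient.mk z1) ≠ 0 := by
    by_contra hc
    push Not at hc
    exact hq ((Module.forall_dual_apply_eq_zero_iff (A ⧸ m) _).1 hc)
  refine ⟨g.toAddMonoidHom.comp (Submodule.mkQ (m • ⊤ : Submodule A M)).toAddMonoidHom, ?_, ?_⟩
  · intro h0
    exact hg (DFunLike.congr_fun h0 z1)
  · intro t z
    change g (Submodule.Quotient.mk (t • z)) = _ * g (Submodule.Quotient.mk z)
    rw [← smul_eq_mul, ← map_smul]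
    rfl

end Pool.Agent.CG2
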