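import Mathlib

/-!
# Iterated connecting homomorphisms
-/

noncomputable section

namespace Pool.Agent.CG2

open CategoryTheory

/-- A tower of short exact sequences with acyclic middle terms. -/
structure CellTower (k G : Type) [CommRing k] [Group G] (N : ℕ) where
  /-- the outer terms -/
  R : ℕ → Rep.{0} k G
  /-- the middle terms -/
  I : ℕ → Rep.{0} k G
  /-- the inclusions -/
  i : ∀ j, R (j + 1) ⟶ I j
  /-- the projections -/
  p : ∀ j, I j ⟶ R j
  zero : ∀ j, i j ≫ p j = 0
  se : ∀ j, j < N → (ShortComplex.mk (i j) (p j) (zero j)).ShortExact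
  acyc : ∀ j n, Subsingleton (groupCohomology (I j) (n + 1))

namespace CellTower

variable {k G : Type} [CommRing k] [Group G] {N : ℕ}

theorem delta_surj {X : ShortComplex (Rep.{0} k G)} (hX : X.ShortExact) (n : ℕ)
    (h : Subsingleton (groupCohomology X.X₂ (n + 1))) :
    Function.Surjective (groupCohomology.δ hX n (n + 1) rfl).hom := by
  intro a
  have h4 := groupCohomology.mapShortComplex₁_exact hX (i := n) (j := n + 1) rfl
  rw [ShortComplex.moduleCat_exact_iff] at h4
  exact h4 a (Subsingleton.elim (α := groupCohomology X.X₂ (n + 1)) _ _)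

theorem delta_ker {X : ShortComplex (Rep.{0} k G)} (hX : X.ShortExact) (n : ℕ)
    (a : groupCohomology X.X₃ n) : (groupCohomology.δ hX n (n + 1) rfl).hom a = 0 ↔
      ∃ b, ((groupCohomology.functor k G n).map X.g).hom b = a := by
  have h4 := groupCohomology.mapShortComplex₃_exact hX (i := n) (j := n + 1) rfl
  constructor
  · intro h
    rw [ShortComplex.moduleCat_exact_iff] at h4
    exact h4 a h
  · rintro ⟨b, rfl⟩
    have h5 := (groupCohomology.mapShortComplex₃ hX (i := n) (j := n + 1) rfl).zero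
    exact congrArg (fun f => f.hom b) h5

/-- The composite of the connecting homomorphisms. -/
def D (T : CellTower k G N) (j : ℕ) : ∀ n : ℕ, j + n ≤ N →
    (groupCohomology (T.R j) 0 ⟶ groupCohomology (T.R (j + n)) n)
  | 0, _ => 𝟙 _
  | n + 1, h => T.D j n (Nat.le_of_succ_le h) ≫
      groupCohomology.δ (T.se (j + n) h) n (n + 1) rfl

theorem D_surj (T : CellTower k G N) (j : ℕ) : ∀ (n : ℕ) (h : j + n ≤ N),
    Function.Surjective (T.D j n h).hom
  | 0, _ => Function.surjective_id
  | n + 1, h => by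
    have h1 := T.D_surj j n (Nat.le_of_succ_le h)
    have h2 := delta_surj (T.se (j + n) h) n (T.acyc (j + n) n)
    exact h2.comp h1

theorem D_ker (T : CellTower k G N) (j : ℕ) : ∀ (n : ℕ) (h : j + (n + 1) ≤ N)
    (a : groupCohomology (T.R j) 0), (T.D j (n + 1) h).hom a = 0 ↔
      ∃ b, ((groupCohomology.functor k G 0).map (T.p j)).hom b = a
  | 0, h, a => delta_ker (T.se j h) 0 a
  | n + 1, h, a => by
    rw [← T.D_ker j n (Nat.le_of_succ_le h) a]
    have h1 := delta_ker (T.se (j + (n + 1)) h) (n + 1)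
      ((T.D j (n + 1) (Nat.le_of_succ_le h)).hom a)
    constructor
    · intro h2
      obtain ⟨b, hb⟩ := h1.1 h2
      rw [← hb]
      have h3 : b = 0 := (T.acyc (j + (n + 1)) n).elim b 0
      rw [h3]
      exact map_zero _
    · intro h2
      exact h1.2 ⟨0, by rw [h2]; exact map_zero _⟩

/-- Morphisms of towers. -/
structure Hom (T T' : CellTower k G N) where
  /-- the outer maps -/
  r : ∀ j, T.R j ⟶ T'.R j
  /-- the middle maps -/
  m : ∀ j, T.I j ⟶ T'.I j
  ci : ∀ j, T.i j ≫ m j = r (j + 1) ≫ T'.i j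
  cp : ∀ j, T.p j ≫ r j = m j ≫ T'.p j

theorem delta_nat {X1 X2 : ShortComplex (Rep.{0} k G)} (hX1 : X1.ShortExact)
    (hX2 : X2.ShortExact) (F : X1 ⟶ X2) (n : ℕ) (a : groupCohomology X1.X₃ n) :
    ((groupCohomology.functor k G (n + 1)).map F.τ₁).hom
      ((groupCohomology.δ hX1 n (n + 1) rfl).hom a) =
    (groupCohomology.δ hX2 n (n + 1) rfl).hom
      (((groupCohomology.functor k G n).map F.τ₃).hom a) := by
  have h1 := groupCohomology.δ_naturality hX1 hX2 F n (n + 1) rfl
  exact congrArg (fun f => f.hom a) h1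

theorem D_nat {T T' : CellTower k G N} (F : Hom T T') (j : ℕ) : ∀ (n : ℕ) (h : j + n ≤ N)
    (a : groupCohomology (T.R j) 0),
    ((groupCohomology.functor k G n).map (F.r (j + n))).hom ((T.D j n h).hom a) =
      (T'.D j n h).hom (((groupCohomology.functor k G 0).map (F.r j)).hom a)
  | 0, _, _ => rfl
  | n + 1, h, a => by
    have h1 := D_nat F j n (Nat.le_of_succ_le h) a
    have h2 := delta_nat (T.se (j + n) h) (T'.se (j + n) h)
      { τ₁ := F.r (j + n + 1)
        τ₂ := F.m (j + n)
        τ₃ := F.r (j + n)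
        comm₁₂ := (F.ci (j + n)).symm
        comm₂₃ := (F.cp (j + n)).symm } n ((T.D j n (Nat.le_of_succ_le h)).hom a)
    exact h2.trans (congrArg (groupCohomology.δ (T'.se (j + n) h) n (n + 1) rfl).hom h1)

end CellTower

end Pool.Agent.CG2
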