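import Pool.Agent.CG2.Defs

/-!
# The congruence subgroup argument: notation
-/

noncomputable section

namespace Pool.Agent.CG2

open NumberField IsDedekindDomain Matrix

variable {F : Type} [Field F] [NumberField F]

/-- `F` has at least two archimedean places. -/
def TwoPl (F : Type) [Field F] [NumberField F] : Prop := 2 ≤ Fintype.card (InfinitePlace F)

/-- `w(x) ≥ n`, where `w` is the additive valuation at the finite place `w`. -/
def Ge (w : Pl F) (n : ℤ) (x : F) : Prop := w.valuation F x ≤ WithZero.exp (-n)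

theorem Ge.mono {w : Pl F} {n n' : ℤ} {x : F} (h : Ge w n x) (hn : n' ≤ n) : Ge w n' x :=
  le_trans h (WithZero.exp_le_exp.2 (by omega))

theorem Ge.add {w : Pl F} {n : ℤ} {x y : F} (h : Ge w n x) (h' : Ge w n y) : Ge w n (x + y) :=
  (Valuation.map_add _ _ _).trans (max_le h h')

theorem Ge.neg {w : Pl F} {n : ℤ} {x : F} (h : Ge w n x) : Ge w n (-x) := by
  rw [Ge, Valuation.map_neg]
  exact h

theorem Ge.sub {w : Pl F} {n : ℤ} {x y : F} (h : Ge w n x) (h' : Ge w n y) : Ge w n (x - y) := by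
  rw [sub_eq_add_neg]
  exact h.add h'.neg

theorem Ge.mul {w : Pl F} {n m : ℤ} {x y : F} (h : Ge w n x) (h' : Ge w m y) :
    Ge w (n + m) (x * y) := by
  rw [Ge, map_mul, neg_add, WithZero.exp_add]
  exact mul_le_mul' h h'

theorem ge_zero (w : Pl F) (n : ℤ) : Ge w n (0 : F) := by
  rw [Ge, map_zero]
  exact zero_le

theorem ge_one (w : Pl F) : Ge w 0 (1 : F) := by
  rw [Ge, map_one, neg_zero, WithZero.exp_zero]

theorem ge_int (w : Pl F) (a : 𝓞 F) : Ge w 0 (a : F) := by
  rw [Ge, neg_zero, WithZero.exp_zero]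
  exact w.valuation_le_one a

theorem Ge.sum {w : Pl F} {n : ℤ} {ι : Type*} {s : Finset ι} {f : ι → F}
    (h : ∀ i ∈ s, Ge w n (f i)) : Ge w n (∑ i ∈ s, f i) := by
  classical
  induction s using Finset.induction_on with
  | empty => rw [Finset.sum_empty]; exact ge_zero w n
  | insert a s ha ih =>
    rw [Finset.sum_insert ha]
    exact (h a (Finset.mem_insert_self a s)).add (ih fun i hi => h i (Finset.mem_insert_of_mem hi))

/-- The set of all `x` in `F` with `w(x) ≥ e w` for all finite places `w`. -/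
def R (e : Pl F → ℤ) : AddSubgroup F where
  carrier := {x | ∀ w, Ge w (e w) x}
  add_mem' h h' w := (h w).add (h' w)
  zero_mem' w := ge_zero w _
  neg_mem' h w := (h w).neg

theorem mem_R {e : Pl F → ℤ} {x : F} : x ∈ R e ↔ ∀ w, Ge w (e w) x := Iff.rfl

/-- The moduli: functions on the finite places with values in `ℕ` and finite support. -/
abbrev Md (F : Type) [Field F] [NumberField F] := Pl F →₀ ℕ

/-- A modulus as a function with values in `ℤ`. -/
def Md.z (e : Md F) : Pl F → ℤ := fun w => (e w : ℤ)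

/-- The principal congruence subgroup of `GL₂(O_F)` attached to a modulus. -/
def Gam (e : Md F) : Subgroup (G F) where
  carrier := {g | (∀ i j, ((g : Matrix (Fin 2) (Fin 2) F) - 1) i j ∈ R e.z) ∧
    ∀ i j, (((g⁻¹ : G F) : Matrix (Fin 2) (Fin 2) F) - 1) i j ∈ R e.z}
  mul_mem' := by
    have key : ∀ A B : Matrix (Fin 2) (Fin 2) F, (∀ i j, (A - 1) i j ∈ R e.z) →
        (∀ i j, (B - 1) i j ∈ R e.z) → ∀ i j, (A * B - 1) i j ∈ R e.z := by
      intro A B hA hB i j
      have h1 : A * B - 1 = (A - 1) * (B - 1) + (A - 1) + (B - 1) := by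
        noncomm_ring
      rw [h1]
      refine (R e.z).add_mem ((R e.z).add_mem ?_ (hA i j)) (hB i j)
      rw [Matrix.mul_apply]
      refine (R e.z).sum_mem fun k _ w => ?_
      refine ((hA i k w).mul (hB k j w)).mono ?_
      have : (0 : ℤ) ≤ e.z w := Int.natCast_nonneg _
      omega
    rintro a b ⟨ha, ha'⟩ ⟨hb, hb'⟩
    refine ⟨?_, ?_⟩
    · rw [Units.val_mul]
      exact key _ _ ha hb
    · rw [_root_.mul_inv_rev, Units.val_mul]
      exact key _ _ hb' ha'
  one_mem' := by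
    refine ⟨?_, ?_⟩
    · intro i j
      rw [Units.val_one, sub_self]
      exact (R e.z).zero_mem
    · intro i j
      rw [inv_one, Units.val_one, sub_self]
      exact (R e.z).zero_mem
  inv_mem' := by
    rintro a ⟨ha, ha'⟩
    refine ⟨ha', ?_⟩
    rw [inv_inv]
    exact ha

theorem mem_Gam {e : Md F} {g : G F} : g ∈ Gam e ↔
    (∀ i j, ((g : Matrix (Fin 2) (Fin 2) F) - 1) i j ∈ R e.z) ∧
    ∀ i j, (((g⁻¹ : G F) : Matrix (Fin 2) (Fin 2) F) - 1) i j ∈ R e.z := Iff.rfl

theorem R_mono {e e' : Pl F → ℤ} (h : ∀ w, e w ≤ e' w) : R e' ≤ R e := fun _ hx w =>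
  (hx w).mono (h w)

theorem Gam_mono {e e' : Md F} (h : e ≤ e') : Gam e' ≤ Gam e := by
  have h1 : R e'.z ≤ R e.z := R_mono fun w => by
    have := h w
    change (e w : ℤ) ≤ (e' w : ℤ)
    exact_mod_cast this
  rintro g ⟨ha, hb⟩
  exact ⟨fun i j => h1 (ha i j), fun i j => h1 (hb i j)⟩

/-- The matrix `(1 x; 0 1)`. -/
def Ee (x : F) : G F := GeneralLinearGroup.mkOfDetNeZero !![1, x; 0, 1] (by
  simp [Matrix.det_fin_two])

/-- The matrix `(1 0; y 1)`. -/
def El (y : F) : G F := GeneralLinearGroup.mkOfDetNeZero !![1, 0; y, 1] (by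
  simp [Matrix.det_fin_two])

/-- The matrix `diag(u, u⁻¹)`. -/
def Hd (u : F) (hu : u ≠ 0) : G F := GeneralLinearGroup.mkOfDetNeZero !![u, 0; 0, u⁻¹] (by
  simp [Matrix.det_fin_two, hu])

@[simp] theorem Ee_val (x : F) : ((Ee x : G F) : Matrix (Fin 2) (Fin 2) F) = !![1, x; 0, 1] := rfl
@[simp] theorem El_val (x : F) : ((El x : G F) : Matrix (Fin 2) (Fin 2) F) = !![1, 0; x, 1] := rfl
@[simp] theorem Hd_val (u : F) (hu : u ≠ 0) :
    ((Hd u hu : G F) : Matrix (Fin 2) (Fin 2) F) = !![u, 0; 0, u⁻¹] := rfl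

theorem Ee_add (x y : F) : Ee (x + y) = Ee x * Ee y := by
  apply Units.ext
  simp [add_comm]

theorem El_add (x y : F) : El (x + y) = El x * El y := by
  apply Units.ext
  simp

theorem Ee_zero : (Ee 0 : G F) = 1 := by
  apply Units.ext
  rw [Ee_val, Units.val_one, Matrix.one_fin_two]

theorem El_zero : (El 0 : G F) = 1 := by
  apply Units.ext
  rw [El_val, Units.val_one, Matrix.one_fin_two]

theorem Ee_neg (x : F) : Ee (-x) = (Ee x)⁻¹ := by
  rw [eq_inv_iff_mul_eq_one, ← Ee_add, neg_add_cancel, Ee_zero]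

theorem El_neg (x : F) : El (-x) = (El x)⁻¹ := by
  rw [eq_inv_iff_mul_eq_one, ← El_add, neg_add_cancel, El_zero]

theorem det_Ee (x : F) : (Ee x : Matrix (Fin 2) (Fin 2) F).det = 1 := by
  simp [Matrix.det_fin_two]

theorem det_El (x : F) : (El x : Matrix (Fin 2) (Fin 2) F).det = 1 := by
  simp [Matrix.det_fin_two]

/-- `f` is additive on the subgroup `Γ`. -/
def AddOn {V : Type} [AddCommGroup V] (Γ : Subgroup (G F)) (f : G F → V) : Prop :=
  ∀ g ∈ Γ, ∀ h ∈ Γ, f (g * h) = f g + f h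

theorem AddOn.one {V : Type} [AddCommGroup V] {Γ : Subgroup (G F)} {f : G F → V}
    (h : AddOn Γ f) : f 1 = 0 := by
  have := h 1 Γ.one_mem 1 Γ.one_mem
  rw [mul_one] at this
  simpa using this

theorem AddOn.inv {V : Type} [AddCommGroup V] {Γ : Subgroup (G F)} {f : G F → V}
    (h : AddOn Γ f) {g : G F} (hg : g ∈ Γ) : f g⁻¹ = - f g := by
  have := h g hg g⁻¹ (Γ.inv_mem hg)
  rw [mul_inv_cancel, h.one] at this
  exact (neg_eq_of_add_eq_zero_right this.symm).symm

end Pool.Agent.CG2
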