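import Pool.Agent.CG2.AdFin

/-!
# Strong approximation
-/

noncomputable section

namespace Pool.Agent.CG2

open NumberField IsDedekindDomain Matrix

variable {F : Type} [Field F] [NumberField F]

/-- The determinant of an element of `GL₂(F_v)`. -/
abbrev dtv {v : Pl F} (g : GQ v) : Fv v := (g : Matrix (Fin 2) (Fin 2) (Fv v)).det

/-- The upper unipotent element of `GL₂(F_v)`. -/
def Ev (v : Pl F) (x : Fv v) : GQ v := GeneralLinearGroup.mkOfDetNeZero !![1, x; 0, 1] (by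
  simp [Matrix.det_fin_two])

/-- The lower unipotent element of `GL₂(F_v)`. -/
def StrAppL (v : Pl F) (x : Fv v) : GQ v := GeneralLinearGroup.mkOfDetNeZero !![1, 0; x, 1] (by
  simp [Matrix.det_fin_two])

theorem StrApp_Ev_val (v : Pl F) (x : Fv v) :
    ((Ev v x : GQ v) : Matrix (Fin 2) (Fin 2) (Fv v)) = !![1, x; 0, 1] := rfl

theorem StrApp_L_val (v : Pl F) (x : Fv v) :
    ((StrAppL v x : GQ v) : Matrix (Fin 2) (Fin 2) (Fv v)) = !![1, 0; x, 1] := rfl

theorem StrApp_Ev_add (v : Pl F) (x y : Fv v) : Ev v (x + y) = Ev v x * Ev v y := by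
  apply Units.ext
  rw [Units.val_mul, StrApp_Ev_val, StrApp_Ev_val, StrApp_Ev_val]
  simp [add_comm]

theorem StrApp_Ev_zero (v : Pl F) : Ev v (0 : Fv v) = 1 := by
  apply Units.ext
  rw [StrApp_Ev_val, Units.val_one, Matrix.one_fin_two]

theorem StrApp_L_zero (v : Pl F) : StrAppL v (0 : Fv v) = 1 := by
  apply Units.ext
  rw [StrApp_L_val, Units.val_one, Matrix.one_fin_two]

theorem StrApp_Ev_neg (v : Pl F) (x : Fv v) : Ev v (-x) = (Ev v x)⁻¹ := by
  rw [eq_inv_iff_mul_eq_one, ← StrApp_Ev_add, neg_add_cancel, StrApp_Ev_zero]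

theorem StrApp_loc_Ee (v : Pl F) (ξ : F) : loc v (Ee ξ) = Ev v ((ξ : F) : Fv v) := by
  apply Units.ext
  ext i j
  rw [loc_apply, Ee_val, StrApp_Ev_val]
  fin_cases i <;> fin_cases j <;> simp

theorem StrApp_Ev_mem {v : Pl F} {x : Fv v} : Ev v x ∈ GZ v ↔ Valued.v x ≤ 1 := by
  rw [mem_GZ_iff]
  constructor
  · intro h
    have := h.1 0 1
    rw [StrApp_Ev_val] at this
    simpa using this
  · intro h
    rw [← StrApp_Ev_neg]
    refine ⟨fun i j => ?_, fun i j => ?_⟩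
    · rw [StrApp_Ev_val]; fin_cases i <;> fin_cases j <;> simp [h]
    · rw [StrApp_Ev_val]; fin_cases i <;> fin_cases j <;> simp [h]

theorem StrApp_Ev_cont (v : Pl F) : Continuous (Ev v : Fv v → GQ v) := by
  refine Units.continuous_iff.2 ⟨?_, ?_⟩
  · refine continuous_matrix fun i j => ?_
    change Continuous fun x : Fv v => (!![1, x; 0, 1] : Matrix (Fin 2) (Fin 2) (Fv v)) i j
    fin_cases i <;> fin_cases j <;> simp <;> fun_prop
  · refine continuous_matrix fun i j => ?_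
    have : ∀ x : Fv v, (((Ev v x : GQ v)⁻¹ : GQ v) : Matrix (Fin 2) (Fin 2) (Fv v)) =
        !![1, -x; 0, 1] := by
      intro x
      rw [← StrApp_Ev_neg, StrApp_Ev_val]
    simp only [this]
    fin_cases i <;> fin_cases j <;> simp <;> fun_prop

/-- Small unipotent elements are in a given open subgroup. -/
theorem StrApp_small (v : Pl F) (U : Subgroup (GQ v)) (hU : IsOpen (U : Set (GQ v))) :
    ∃ γ : (WithZero (Multiplicative ℤ))ˣ, ∀ x : Fv v, Valued.v x < γ → Ev v x ∈ U := by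
  have h1 : (Ev v) ⁻¹' (U : Set (GQ v)) ∈ nhds (0 : Fv v) := by
    apply (hU.preimage (StrApp_Ev_cont v)).mem_nhds
    change Ev v 0 ∈ U
    rw [StrApp_Ev_zero]
    exact U.one_mem
  obtain ⟨γ, hγ⟩ := Valued.mem_nhds_zero.1 h1
  refine ⟨Units.mk0 (MonoidWithZeroHom.ValueGroup₀.embedding γ.1)
    (MonoidWithZeroHom.ValueGroup₀.embedding_unit_ne_zero _), fun x hx => ?_⟩
  exact hγ ((Valuation.restrict_lt_iff_lt_embedding _).2 hx)

/-- Approximation of finitely many local elements by an element of `F` which is integral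
elsewhere. -/
theorem StrApp_approx (T : Finset (Pl F)) (x : ∀ v : Pl F, Fv v)
    (γ : Pl F → (WithZero (Multiplicative ℤ))ˣ) :
    ∃ ξ : F, (∀ v ∈ T, Valued.v (x v - ((ξ : F) : Fv v)) < γ v) ∧
      ∀ v, v ∉ T → Valued.v ((ξ : F) : Fv v) ≤ 1 := by
  choose a ha using fun v : Pl F => exists_sub_lt v (x v) (γ v) (γ v).ne_zero
  obtain ⟨ξ, h1, h2⟩ := approx T a (fun v => -(WithZero.log (γ v : WithZero (Multiplicative ℤ))) + 1)
  refine ⟨ξ, fun v hv => ?_, fun v hv => ?_⟩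
  · have h3 := h1 v hv
    have e1 : x v - ((ξ : F) : Fv v) = (x v - ((a v : F) : Fv v)) + -(((ξ - a v : F) : F) : Fv v) := by
      have h4 : (((ξ - a v : F) : F) : Fv v) = ((ξ : F) : Fv v) - ((a v : F) : Fv v) :=
        map_sub (algebraMap F (Fv v)) ξ (a v)
      rw [h4]; ring
    rw [e1]
    refine (Valuation.map_add _ _ _).trans_lt (max_lt (ha v) ?_)
    rw [Valuation.map_neg, HeightOneSpectrum.adicCompletion.valued_coe]
    refine lt_of_le_of_lt h3 ?_
    rw [← WithZero.lt_log_iff_exp_lt (γ v).ne_zero]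
    omega
  · have h3 := h2 v hv
    rw [HeightOneSpectrum.adicCompletion.valued_coe]
    rw [Ge, neg_zero, WithZero.exp_zero] at h3
    exact h3

/-- Unipotent elements of `GL₂(𝔸_f)`. -/
theorem StrApp_unip {K : Subgroup (GA F)} {S : Set (Pl F)} (hK : OC K S) (u : GA F)
    (hu : ∀ v, ∃ x, u.1 v = Ev v x) : ∃ ξ : F, ∃ κ ∈ K, u = diag (Ee ξ) * κ := by
  classical
  obtain ⟨U, hU1, hU2, hU3⟩ := hK.op
  choose x hx using hu
  choose γ hγ using fun v => StrApp_small v (U v) (hU1 v)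
  have hT : (S ∪ {v | u.1 v ∉ GZ v}).Finite := hK.fin.union u.2
  obtain ⟨ξ, h1, h2⟩ := StrApp_approx hT.toFinset x γ
  refine ⟨ξ, (diag (Ee ξ))⁻¹ * u, hU3 _ fun v => ?_, by rw [mul_inv_cancel_left]⟩
  have e1 : ((diag (Ee ξ))⁻¹ * u).1 v = Ev v (x v - ((ξ : F) : Fv v)) := by
    rw [sub_eq_neg_add, StrApp_Ev_add, StrApp_Ev_neg, ← StrApp_loc_Ee, ← hx]
    rfl
  rw [e1]
  by_cases hv : v ∈ hT.toFinset
  · exact hγ v _ (h1 v hv)
  · have h3 := h2 v hv
    rw [Set.Finite.mem_toFinset, Set.mem_union, not_or] at hv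
    have h4 : Valued.v (x v) ≤ 1 := by
      rw [← StrApp_Ev_mem, ← hx]
      exact not_not.1 hv.2
    apply hU2 v hv.1
    rw [StrApp_Ev_mem]
    exact (Valuation.map_sub _ _ _).trans (max_le h4 h3)

/-- The elements for which strong approximation holds at every level. -/
def StrAppP (u : GA F) : Prop := ∀ (K : Subgroup (GA F)) (S : Set (Pl F)), OC K S →
  ∃ δ : G F, (δ : Matrix (Fin 2) (Fin 2) F).det = 1 ∧ ∃ κ ∈ K, u = diag δ * κ

theorem StrAppP.mul {u u' : GA F} (h : StrAppP u) (h' : StrAppP u') : StrAppP (u * u') := by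
  intro K S hK
  obtain ⟨δ', hδ', κ', hκ', rfl⟩ := h' K S hK
  obtain ⟨S1, hS1⟩ := hK.conj (diag δ')
  obtain ⟨δ, hδ, κ, hκ, rfl⟩ := h _ S1 hS1
  obtain ⟨k, hk, rfl⟩ := hκ
  refine ⟨δ * δ', ?_, k * κ', K.mul_mem hk hκ', ?_⟩
  · rw [Units.val_mul, Matrix.det_mul, hδ, hδ', one_mul]
  · rw [map_mul]
    change diag δ * (diag δ' * k * (diag δ')⁻¹) * (diag δ' * κ') = _
    group

theorem StrAppP_up {u : GA F} (hu : ∀ v, ∃ x, u.1 v = Ev v x) : StrAppP u := by
  intro K S hK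
  obtain ⟨ξ, κ, hκ, h⟩ := StrApp_unip hK u hu
  exact ⟨Ee ξ, det_Ee ξ, κ, hκ, h⟩

/-- The Weyl element. -/
def StrAppW (F : Type) [Field F] [NumberField F] : G F :=
  GeneralLinearGroup.mkOfDetNeZero !![0, 1; -1, 0] (by simp [Matrix.det_fin_two])

theorem StrAppW_val : ((StrAppW F : G F) : Matrix (Fin 2) (Fin 2) F) = !![0, 1; -1, 0] := rfl

theorem StrAppW_loc (v : Pl F) :
    ((loc v (StrAppW F) : GQ v) : Matrix (Fin 2) (Fin 2) (Fv v)) = !![0, 1; -1, 0] := by
  refine Matrix.ext fun i j => ?_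
  fin_cases i <;> fin_cases j
  · exact map_zero (algebraMap F (Fv v))
  · exact map_one (algebraMap F (Fv v))
  · exact (map_neg (algebraMap F (Fv v)) 1).trans (congrArg Neg.neg (map_one _))
  · exact map_zero (algebraMap F (Fv v))

theorem StrAppW_L (v : Pl F) (x : Fv v) :
    loc v (StrAppW F) * StrAppL v x = Ev v (-x) * loc v (StrAppW F) := by
  apply Units.ext
  rw [Units.val_mul, Units.val_mul, StrApp_Ev_val, StrApp_L_val, StrAppW_loc,
    Matrix.mul_fin_two, Matrix.mul_fin_two]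
  ext i j
  fin_cases i <;> fin_cases j <;> simp

theorem StrAppP_lo {u : GA F} (hu : ∀ v, ∃ x, u.1 v = StrAppL v x) : StrAppP u := by
  intro K S hK
  obtain ⟨S1, hS1⟩ := hK.conj (diag (StrAppW F))
  obtain ⟨ξ, κ, hκ, h⟩ := StrApp_unip hS1 (diag (StrAppW F) * u * (diag (StrAppW F))⁻¹) (by
    intro v
    obtain ⟨x, hx⟩ := hu v
    refine ⟨-x, ?_⟩
    change loc v (StrAppW F) * u.1 v * (loc v (StrAppW F))⁻¹ = _
    rw [hx, StrAppW_L, mul_inv_cancel_right])
  obtain ⟨k, hk, rfl⟩ := hκ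
  refine ⟨(StrAppW F)⁻¹ * Ee ξ * StrAppW F, ?_, k, hk, ?_⟩
  · have h1 := congrArg (fun g : G F => (g : Matrix (Fin 2) (Fin 2) F).det)
      (show StrAppW F * ((StrAppW F)⁻¹ * Ee ξ * StrAppW F) = Ee ξ * StrAppW F by group)
    simp only [Units.val_mul, Matrix.det_mul, det_Ee, one_mul, StrAppW_val] at h1
    have h2 : (!![0, 1; -1, 0] : Matrix (Fin 2) (Fin 2) F).det = 1 := by
      simp [Matrix.det_fin_two]
    rw [h2] at h1
    simp [Units.val_mul, Matrix.det_mul, StrAppW_val, h2] at h1 ⊢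
  · have h1 : u = (diag (StrAppW F))⁻¹ * (diag (Ee ξ) *
        (diag (StrAppW F) * k * (diag (StrAppW F))⁻¹)) * diag (StrAppW F) := by
      change u = (diag (StrAppW F))⁻¹ * (diag (Ee ξ) *
        (MulAut.conj (diag (StrAppW F))).toMonoidHom k) * diag (StrAppW F)
      rw [← h]; group
    conv_lhs => rw [h1]
    rw [map_mul, map_mul, map_inv]
    group

/-- Elementary matrices generate `SL₂`. -/
theorem StrApp_elem (v : Pl F) (g : GQ v) (hg : dtv g = 1) : ∃ a b c d : Fv v,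
    g = Ev v a * StrAppL v b * Ev v c * StrAppL v d := by
  have hg' : ((g : GQ v) : Matrix (Fin 2) (Fin 2) (Fv v)).det = 1 := hg
  rw [Matrix.det_fin_two] at hg'
  set p := (g : Matrix (Fin 2) (Fin 2) (Fv v)) 0 0 with hp
  set q := (g : Matrix (Fin 2) (Fin 2) (Fv v)) 0 1 with hq
  set r := (g : Matrix (Fin 2) (Fin 2) (Fv v)) 1 0 with hr
  set s := (g : Matrix (Fin 2) (Fin 2) (Fv v)) 1 1 with hs
  have key : ∀ a b c d : Fv v, p = (1 + a * b) + ((1 + a * b) * c + a) * d →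
      q = (1 + a * b) * c + a → r = b + (b * c + 1) * d → s = b * c + 1 →
      g = Ev v a * StrAppL v b * Ev v c * StrAppL v d := by
    intro a b c d h1 h2 h3 h4
    apply Units.ext
    have h5 : ((Ev v a * StrAppL v b * Ev v c * StrAppL v d : GQ v) :
        Matrix (Fin 2) (Fin 2) (Fv v)) = !![(1 + a * b) + ((1 + a * b) * c + a) * d,
          (1 + a * b) * c + a; b + (b * c + 1) * d, b * c + 1] := by
      rw [Units.val_mul, Units.val_mul, Units.val_mul, StrApp_Ev_val, StrApp_Ev_val,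
        StrApp_L_val, StrApp_L_val]
      simp only [Matrix.mul_fin_two]
      ext i j
      fin_cases i <;> fin_cases j <;> simp
    rw [h5, ← h1, ← h2, ← h3, ← h4]
    exact Matrix.eta_fin_two _
  by_cases hr0 : r = 0
  · have hs0 : s ≠ 0 := by
      intro h
      rw [h, hr0] at hg'
      simp at hg'
    have hps : p * s = 1 := by rw [hr0] at hg'; simpa using hg'
    refine ⟨(p + q - 1) / s, s, (s - 1) / s, -1, key _ _ _ _ ?_ ?_ ?_ ?_⟩
    · field_simp
      linear_combination hps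
    · field_simp
      linear_combination -hps
    · rw [hr0]; field_simp; ring
    · field_simp; ring
  · refine ⟨(p - 1) / r, r, (s - 1) / r, 0, key _ _ _ _ ?_ ?_ ?_ ?_⟩
    · field_simp; ring
    · field_simp
      linear_combination -hg'
    · ring
    · field_simp; ring

theorem StrAppP_det (u : GA F) (hu : ∀ v, dtv (u.1 v) = 1) : StrAppP u := by
  classical
  intro K S hK
  obtain ⟨U, hU1, hU2, hU3⟩ := hK.op
  have hT : (S ∪ {v | u.1 v ∉ GZ v}).Finite := hK.fin.union u.2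
  set T : Set (Pl F) := S ∪ {v | u.1 v ∉ GZ v} with hTdef
  choose a b c d h using fun v => StrApp_elem v (u.1 v) (hu v)
  let mk : (f : ∀ v : Pl F, GQ v) → GA F := fun f => ⟨fun v => if v ∈ T then f v else 1, by
    refine hT.subset fun v hv => ?_
    by_contra hvT
    apply hv
    change (if v ∈ T then f v else 1) ∈ GZ v
    rw [if_neg hvT]
    exact (GZ v).one_mem⟩
  have hmk : ∀ f v, (mk f).1 v = if v ∈ T then f v else 1 := fun _ _ => rfl
  have hmkmul : ∀ f f', mk (fun v => f v * f' v) = mk f * mk f' := by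
    intro f f'
    apply Subtype.ext
    funext v
    change (mk (fun v => f v * f' v)).1 v = (mk f).1 v * (mk f').1 v
    rw [hmk, hmk, hmk]
    split_ifs
    · rfl
    · rw [one_mul]
  have h1 : StrAppP (mk (fun v => Ev v (a v))) := StrAppP_up fun v => by
    by_cases hv : v ∈ T
    · exact ⟨a v, by rw [hmk, if_pos hv]⟩
    · exact ⟨0, by rw [hmk, if_neg hv, StrApp_Ev_zero]⟩
  have h2 : StrAppP (mk (fun v => StrAppL v (b v))) := StrAppP_lo fun v => by
    by_cases hv : v ∈ T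
    · exact ⟨b v, by rw [hmk, if_pos hv]⟩
    · exact ⟨0, by rw [hmk, if_neg hv, StrApp_L_zero]⟩
  have h3 : StrAppP (mk (fun v => Ev v (c v))) := StrAppP_up fun v => by
    by_cases hv : v ∈ T
    · exact ⟨c v, by rw [hmk, if_pos hv]⟩
    · exact ⟨0, by rw [hmk, if_neg hv, StrApp_Ev_zero]⟩
  have h4 : StrAppP (mk (fun v => StrAppL v (d v))) := StrAppP_lo fun v => by
    by_cases hv : v ∈ T
    · exact ⟨d v, by rw [hmk, if_pos hv]⟩
    · exact ⟨0, by rw [hmk, if_neg hv, StrApp_L_zero]⟩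
  have h5 := (((h1.mul h2).mul h3).mul h4)
  rw [← hmkmul, ← hmkmul, ← hmkmul] at h5
  have h6 : (fun v => Ev v (a v) * StrAppL v (b v) * Ev v (c v) * StrAppL v (d v)) = u.1 := by
    funext v
    exact (h v).symm
  rw [h6] at h5
  obtain ⟨δ, hδ, κ, hκ, e⟩ := h5 K S hK
  refine ⟨δ, hδ, κ * ((mk u.1)⁻¹ * u), K.mul_mem hκ ?_, ?_⟩
  · apply hU3
    intro v
    change ((mk u.1).1 v)⁻¹ * u.1 v ∈ U v
    rw [hmk]
    by_cases hv : v ∈ T
    · rw [if_pos hv, inv_mul_cancel]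
      exact (U v).one_mem
    · rw [if_neg hv, inv_one, one_mul]
      rw [hTdef, Set.mem_union, not_or] at hv
      exact hU2 v hv.1 (not_not.1 hv.2)
  · rw [← mul_assoc, ← e, mul_inv_cancel_left]

/-- Strong approximation for `SL₂`. -/
theorem strong_approx {K : Subgroup (GA F)} {S : Set (Pl F)} (hK : OC K S) (g u : GA F)
    (hu : ∀ v, dtv (u.1 v) = 1) : ∃ δ : G F, (δ : Matrix (Fin 2) (Fin 2) F).det = 1 ∧
    ∃ κ ∈ K, (∀ v, dtv (κ.1 v) = 1) ∧ g * u = diag δ * g * κ := by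
  obtain ⟨S1, hS1⟩ := hK.conj g
  obtain ⟨δ, hδ, κ, hκ, h⟩ := StrAppP_det (g * u * g⁻¹) (by
    intro v
    have h0 : ((u.1 v : GQ v) : Matrix (Fin 2) (Fin 2) (Fv v)).det = 1 := hu v
    change (((g.1 v * u.1 v * (g.1 v)⁻¹ : GQ v)) : Matrix (Fin 2) (Fin 2) (Fv v)).det = 1
    rw [Units.val_mul, Units.val_mul, Matrix.det_mul, Matrix.det_mul, h0, mul_one,
      ← Matrix.det_mul, ← Units.val_mul, mul_inv_cancel, Units.val_one, Matrix.det_one]) _ S1 hS1
  obtain ⟨k, hk, rfl⟩ := hκ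
  have e : g * u = diag δ * g * k := by
    have h2 : g * u = (g * u * g⁻¹) * g := by group
    rw [h2, h]
    change diag δ * (g * k * g⁻¹) * g = _
    group
  refine ⟨δ, hδ, k, hk, fun v => ?_, e⟩
  have h3 := congrArg (fun z : GA F => dtv (z.1 v)) e
  change (((g.1 v * u.1 v : GQ v)) : Matrix (Fin 2) (Fin 2) (Fv v)).det =
    (((loc v δ * g.1 v * k.1 v : GQ v)) : Matrix (Fin 2) (Fin 2) (Fv v)).det at h3
  have h0 : ((u.1 v : GQ v) : Matrix (Fin 2) (Fin 2) (Fv v)).det = 1 := hu v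
  rw [Units.val_mul, Units.val_mul, Units.val_mul, Matrix.det_mul, Matrix.det_mul,
    Matrix.det_mul, h0, mul_one] at h3
  have h4 : ((loc v δ : GQ v) : Matrix (Fin 2) (Fin 2) (Fv v)).det = 1 := by
    have h5 : ((loc v δ : GQ v) : Matrix (Fin 2) (Fin 2) (Fv v)) =
        (algebraMap F (Fv v)).mapMatrix (δ : Matrix (Fin 2) (Fin 2) F) := rfl
    rw [h5, ← RingHom.map_det, hδ, map_one]
  rw [h4, one_mul] at h3
  have h6 : ((g.1 v : GQ v) : Matrix (Fin 2) (Fin 2) (Fv v)).det ≠ 0 :=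
    ((g.1 v).isUnit.map (Matrix.detMonoidHom (R := Fv v) (n := Fin 2))).ne_zero
  exact mul_left_cancel₀ h6 (by rw [mul_one]; exact h3.symm)

/-- Strong approximation for the unipotent group. -/
theorem unip_approx {K : Subgroup (GA F)} {S : Set (Pl F)} (hK : OC K S) (g u : GA F)
    (hu : ∀ v, ∃ x, u.1 v = Ev v x) : ∃ ξ : F, ∃ κ ∈ K, u * g = diag (Ee ξ) * g * κ := by
  obtain ⟨S1, hS1⟩ := hK.conj g
  obtain ⟨ξ, κ, hκ, h⟩ := StrApp_unip hS1 u hu
  obtain ⟨k, hk, rfl⟩ := hκ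
  refine ⟨ξ, k, hk, ?_⟩
  conv_lhs => rw [h]
  change diag (Ee ξ) * (g * k * g⁻¹) * g = _
  group

/-- An element of `SL₂(F)` has signs `1`. -/
theorem sgn_of_det {γ : G F} (h : (γ : Matrix (Fin 2) (Fin 2) F).det = 1) : sgn γ = 1 := by
  funext w
  change (if 0 < rdet w γ then (1 : ℤˣ) else -1) = 1
  rw [if_pos]
  rw [rdet, h, map_one]
  exact one_pos

end Pool.Agent.CG2
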