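import Pool.Agent.CG2.StDefs
import Pool.Agent.CG2.StrApp
import Pool.Agent.CG2.CspBase

/-!
# Representatives of the cosets in the double cosets of the Hecke operators
-/

noncomputable section

namespace Pool.Agent.CG2

open NumberField IsDedekindDomain Matrix

variable {F : Type} [Field F] [NumberField F]

/-- The scalar `π` in `GL₂(F_v)`. -/
abbrev sc (v : Pl F) : GQ v := alpha v 1

/-! ### Membership in `GL₂(O_v)` -/

/-- A matrix with integral entries and unit determinant is in `GL₂(O_v)`. -/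
theorem heckeReps_mem (v : Pl F) (g : GQ v)
    (h1 : ∀ i j, Valued.v ((g : Matrix (Fin 2) (Fin 2) (Fv v)) i j) ≤ 1)
    (h2 : Valued.v (dtv g) = 1) : g ∈ GZ v := by
  rw [mem_GZ_iff]
  refine ⟨h1, ?_⟩
  have h3 : ((g⁻¹ : GQ v) : Matrix (Fin 2) (Fin 2) (Fv v)) =
      (dtv g)⁻¹ • (g : Matrix (Fin 2) (Fin 2) (Fv v)).adjugate := by
    rw [Matrix.coe_units_inv, Matrix.inv_def, Ring.inverse_eq_inv']
  intro i j
  rw [h3, Matrix.smul_apply, smul_eq_mul, map_mul, map_inv₀, h2, inv_one, one_mul,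
    Matrix.adjugate_fin_two]
  fin_cases i <;> fin_cases j
  · exact h1 1 1
  · change Valued.v (-((g : Matrix (Fin 2) (Fin 2) (Fv v)) 0 1)) ≤ 1
    rw [Valuation.map_neg]
    exact h1 0 1
  · change Valued.v (-((g : Matrix (Fin 2) (Fin 2) (Fv v)) 1 0)) ≤ 1
    rw [Valuation.map_neg]
    exact h1 1 0
  · exact h1 0 0

/-- The determinant of an element of `GL₂(O_v)` is a unit. -/
theorem heckeReps_det {v : Pl F} {g : GQ v} (h : g ∈ GZ v) : Valued.v (dtv g) = 1 := by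
  have key : ∀ k ∈ GZ v, Valued.v (dtv k) ≤ 1 := by
    intro k hk
    have hk1 := ((mem_GZ_iff v k).1 hk).1
    rw [dtv, Matrix.det_fin_two]
    refine (Valuation.map_sub _ _ _).trans (max_le ?_ ?_)
    · rw [map_mul]
      exact mul_le_one' (hk1 0 0) (hk1 1 1)
    · rw [map_mul]
      exact mul_le_one' (hk1 0 1) (hk1 1 0)
  refine le_antisymm (key g h) ?_
  have h3 := key g⁻¹ ((GZ v).inv_mem h)
  have h4 : dtv g⁻¹ * dtv g = 1 := by
    rw [dtv, dtv, ← Matrix.det_mul, ← Units.val_mul, inv_mul_cancel, Units.val_one, Matrix.det_one]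
  have h5 : Valued.v (dtv g⁻¹) * Valued.v (dtv g) = 1 := by
    rw [← map_mul, h4, map_one]
  calc (1 : WithZero (Multiplicative ℤ)) = Valued.v (dtv g⁻¹) * Valued.v (dtv g) := h5.symm
    _ ≤ 1 * Valued.v (dtv g) := mul_le_mul_left h3 _
    _ = _ := one_mul _

theorem heckeReps_pi (v : Pl F) : Valued.v ((pi v : F) : Fv v) = WithZero.exp (-1 : ℤ) := by
  rw [HeightOneSpectrum.adicCompletion.valued_coe]
  exact pi_spec v

theorem heckeReps_pi_ne (v : Pl F) : ((pi v : F) : Fv v) ≠ 0 := by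
  intro h
  have := heckeReps_pi v
  rw [h, map_zero] at this
  exact WithZero.exp_ne_zero this.symm

theorem heckeReps_lt {v : Pl F} {x : Fv v} (h : Valued.v x < 1) :
    Valued.v x ≤ WithZero.exp (-1 : ℤ) := by
  by_cases hx : Valued.v x = 0
  · rw [hx]
    exact zero_le
  · obtain ⟨n, hn⟩ : ∃ n : ℤ, Valued.v x = WithZero.exp n := ⟨WithZero.log (Valued.v x),
      (WithZero.exp_log hx).symm⟩
    rw [hn] at h ⊢
    rw [← WithZero.exp_zero, WithZero.exp_lt_exp] at h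
    exact WithZero.exp_le_exp.2 (by omega)

theorem heckeReps_div {v : Pl F} {x : Fv v} (h : Valued.v x < 1) :
    Valued.v (x / ((pi v : F) : Fv v)) ≤ 1 := by
  rw [map_div₀, heckeReps_pi]
  have h1 := heckeReps_lt h
  rw [div_le_one₀ (by exact WithZero.exp_pos)]
  exact h1

/-! ### Explicit matrices -/

theorem heckeReps_inv {v : Pl F} (g : GQ v) : ((g⁻¹ : GQ v) : Matrix (Fin 2) (Fin 2) (Fv v)) =
    !![(dtv g)⁻¹ * (g : Matrix (Fin 2) (Fin 2) (Fv v)) 1 1,
       -((dtv g)⁻¹ * (g : Matrix (Fin 2) (Fin 2) (Fv v)) 0 1);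
       -((dtv g)⁻¹ * (g : Matrix (Fin 2) (Fin 2) (Fv v)) 1 0),
       (dtv g)⁻¹ * (g : Matrix (Fin 2) (Fin 2) (Fv v)) 0 0] := by
  rw [Matrix.coe_units_inv, Matrix.inv_def, Ring.inverse_eq_inv', Matrix.adjugate_fin_two]
  ext i j
  fin_cases i <;> fin_cases j <;> simp [dtv]

/-- The matrix `(π b; 0 1)`. -/
def HRa (v : Pl F) (b : F) : GQ v := loc v (Ee b * dg (pi v) 1 (pi_ne v) one_ne_zero)

/-- The matrix `(1 0; 0 π)`. -/
def HRd (v : Pl F) : GQ v := loc v (dg 1 (pi v) one_ne_zero (pi_ne v))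

theorem HRa_val (v : Pl F) (b : F) : (HRa v b : Matrix (Fin 2) (Fin 2) (Fv v)) =
    !![((pi v : F) : Fv v), ((b : F) : Fv v); 0, 1] := by
  ext i j
  rw [HRa, loc_apply, Units.val_mul]
  fin_cases i <;> fin_cases j <;>
    simp [dg, Matrix.mul_apply, Matrix.diagonal]

theorem HRd_val (v : Pl F) : (HRd v : Matrix (Fin 2) (Fin 2) (Fv v)) =
    !![1, 0; 0, ((pi v : F) : Fv v)] := by
  ext i j
  rw [HRd, loc_apply]
  fin_cases i <;> fin_cases j <;> simp [dg, Matrix.diagonal]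

theorem HR_alpha_zero_val (v : Pl F) : (alpha v 0 : Matrix (Fin 2) (Fin 2) (Fv v)) =
    !![((pi v : F) : Fv v), 0; 0, 1] := by
  ext i j
  rw [alpha, loc_apply]
  fin_cases i <;> fin_cases j <;> simp [dg, Matrix.diagonal]

theorem HR_sc_val (v : Pl F) : (sc v : Matrix (Fin 2) (Fin 2) (Fv v)) =
    !![((pi v : F) : Fv v), 0; 0, ((pi v : F) : Fv v)] := by
  ext i j
  rw [sc, alpha, loc_apply]
  fin_cases i <;> fin_cases j <;> simp [dg, Matrix.diagonal]

theorem HR_sc_smul (v : Pl F) : (sc v : Matrix (Fin 2) (Fin 2) (Fv v)) =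
    ((pi v : F) : Fv v) • (1 : Matrix (Fin 2) (Fin 2) (Fv v)) := by
  rw [HR_sc_val]
  ext i j
  fin_cases i <;> fin_cases j <;> simp

theorem sc_comm (v : Pl F) (g : GQ v) : sc v * g = g * sc v := by
  apply Units.ext
  rw [Units.val_mul, Units.val_mul, HR_sc_smul, smul_mul_assoc, one_mul, mul_smul_comm, mul_one]

theorem HR_gen1 {E : Type*} [Field E] {p : E} (hp : p ≠ 0) (b : E)
    (K : Matrix (Fin 2) (Fin 2) E) :
    (!![p, b; 0, 1] : Matrix (Fin 2) (Fin 2) E)⁻¹ * (K * !![p, 0; 0, 1]) =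
      !![K 0 0 - b * K 1 0, (K 0 1 - b * K 1 1) / p; p * K 1 0, K 1 1] := by
  rw [Matrix.inv_def, Ring.inverse_eq_inv', Matrix.adjugate_fin_two]
  ext i j
  fin_cases i <;> fin_cases j <;>
    simp [Matrix.mul_apply, Fin.sum_univ_two, Matrix.det_fin_two] <;> field_simp
  all_goals ring

theorem HR_gen2 {E : Type*} [Field E] {p : E} (hp : p ≠ 0)
    (K : Matrix (Fin 2) (Fin 2) E) :
    (!![1, 0; 0, p] : Matrix (Fin 2) (Fin 2) E)⁻¹ * (K * !![p, 0; 0, 1]) =
      !![p * K 0 0, K 0 1; K 1 0, K 1 1 / p] := by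
  rw [Matrix.inv_def, Ring.inverse_eq_inv', Matrix.adjugate_fin_two]
  ext i j
  fin_cases i <;> fin_cases j <;>
    simp [Matrix.mul_apply, Fin.sum_univ_two, Matrix.det_fin_two] <;> field_simp

theorem HR_gen3 {E : Type*} [Field E] {p : E} (hp : p ≠ 0) (b b' : E) :
    (!![p, b; 0, 1] : Matrix (Fin 2) (Fin 2) E)⁻¹ * !![p, b'; 0, 1] =
      !![1, (b' - b) / p; 0, 1] := by
  rw [Matrix.inv_def, Ring.inverse_eq_inv', Matrix.adjugate_fin_two]
  ext i j
  fin_cases i <;> fin_cases j <;>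
    simp [Matrix.mul_apply, Fin.sum_univ_two, Matrix.det_fin_two] <;> field_simp
  all_goals ring

theorem HR_gen4 {E : Type*} [Field E] {p : E} (hp : p ≠ 0) (b : E) :
    (!![p, b; 0, 1] : Matrix (Fin 2) (Fin 2) E)⁻¹ * !![1, 0; 0, p] =
      !![1 / p, - b; 0, p] := by
  rw [Matrix.inv_def, Ring.inverse_eq_inv', Matrix.adjugate_fin_two]
  ext i j
  fin_cases i <;> fin_cases j <;>
    simp [Matrix.mul_apply, Fin.sum_univ_two, Matrix.det_fin_two]
  field_simp

/-! ### The cosets -/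

theorem HR_unit {v : Pl F} {k : GQ v} (hk : k ∈ GZ v)
    (h : Valued.v ((k : Matrix (Fin 2) (Fin 2) (Fv v)) 1 1) = 1) {b : F}
    (hb1 : Valued.v ((b : F) : Fv v) ≤ 1)
    (hb : Valued.v ((k : Matrix (Fin 2) (Fin 2) (Fv v)) 0 1 /
      (k : Matrix (Fin 2) (Fin 2) (Fv v)) 1 1 - ((b : F) : Fv v)) < 1) :
    (HRa v b)⁻¹ * (k * alpha v 0) ∈ GZ v := by
  have hp := heckeReps_pi_ne v
  have hk1 := ((mem_GZ_iff v k).1 hk).1
  have hd := heckeReps_det hk
  set K : Matrix (Fin 2) (Fin 2) (Fv v) := (k : Matrix (Fin 2) (Fin 2) (Fv v)) with hK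
  have hk11 : K 1 1 ≠ 0 := by
    intro h0
    rw [h0, map_zero] at h
    exact zero_ne_one h
  have hM : (((HRa v b)⁻¹ * (k * alpha v 0) : GQ v) : Matrix (Fin 2) (Fin 2) (Fv v)) =
      !![K 0 0 - ((b : F) : Fv v) * K 1 0, (K 0 1 - ((b : F) : Fv v) * K 1 1) / ((pi v : F) : Fv v);
         ((pi v : F) : Fv v) * K 1 0, K 1 1] := by
    rw [Units.val_mul, Units.val_mul, Matrix.coe_units_inv, HRa_val, HR_alpha_zero_val, ← hK]
    exact HR_gen1 hp _ _
  apply heckeReps_mem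
  · have hc : Valued.v (K 0 1 - ((b : F) : Fv v) * K 1 1) < 1 := by
      have h1 : K 0 1 - ((b : F) : Fv v) * K 1 1 =
          (K 0 1 / K 1 1 - ((b : F) : Fv v)) * K 1 1 := by
        field_simp
      rw [h1, map_mul, h, mul_one]
      exact hb
    intro i j
    rw [hM]
    fin_cases i <;> fin_cases j
    · refine (Valuation.map_sub _ _ _).trans (max_le (hk1 0 0) ?_)
      rw [map_mul]
      exact mul_le_one' hb1 (hk1 1 0)
    · exact heckeReps_div hc
    · change Valued.v (((pi v : F) : Fv v) * K 1 0) ≤ 1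
      rw [map_mul]
      refine mul_le_one' ?_ (hk1 1 0)
      rw [heckeReps_pi, ← WithZero.exp_zero]
      exact WithZero.exp_le_exp.2 (by norm_num)
    · exact hk1 1 1
  · rw [dtv, hM, Matrix.det_fin_two]
    have h2 : K 0 0 * K 1 1 - K 0 1 * K 1 0 = dtv k := by
      rw [dtv, Matrix.det_fin_two]
    rw [← h2] at hd
    rw [← hd]
    congr 1
    simp only [Matrix.of_apply, Matrix.cons_val', Matrix.cons_val_zero, Matrix.cons_val_one,
      Matrix.cons_val_fin_one]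
    field_simp
    ring

theorem HR_nonunit {v : Pl F} {k : GQ v} (hk : k ∈ GZ v)
    (h : Valued.v ((k : Matrix (Fin 2) (Fin 2) (Fv v)) 1 1) < 1) :
    (HRd v)⁻¹ * (k * alpha v 0) ∈ GZ v := by
  have hp := heckeReps_pi_ne v
  have hk1 := ((mem_GZ_iff v k).1 hk).1
  have hd := heckeReps_det hk
  set K : Matrix (Fin 2) (Fin 2) (Fv v) := (k : Matrix (Fin 2) (Fin 2) (Fv v)) with hK
  have hM : (((HRd v)⁻¹ * (k * alpha v 0) : GQ v) : Matrix (Fin 2) (Fin 2) (Fv v)) =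
      !![((pi v : F) : Fv v) * K 0 0, K 0 1; K 1 0, K 1 1 / ((pi v : F) : Fv v)] := by
    rw [Units.val_mul, Units.val_mul, Matrix.coe_units_inv, HRd_val, HR_alpha_zero_val, ← hK]
    exact HR_gen2 hp _
  apply heckeReps_mem
  · intro i j
    rw [hM]
    fin_cases i <;> fin_cases j
    · change Valued.v (((pi v : F) : Fv v) * K 0 0) ≤ 1
      rw [map_mul]
      refine mul_le_one' ?_ (hk1 0 0)
      rw [heckeReps_pi, ← WithZero.exp_zero]
      exact WithZero.exp_le_exp.2 (by norm_num)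
    · exact hk1 0 1
    · exact hk1 1 0
    · exact heckeReps_div h
  · rw [dtv, hM, Matrix.det_fin_two]
    have h2 : K 0 0 * K 1 1 - K 0 1 * K 1 0 = dtv k := by
      rw [dtv, Matrix.det_fin_two]
    rw [← h2] at hd
    rw [← hd]
    congr 1
    simp only [Matrix.of_apply, Matrix.cons_val', Matrix.cons_val_zero, Matrix.cons_val_one,
      Matrix.cons_val_fin_one]
    field_simp

/-- The Weyl element. -/
def HRw (v : Pl F) : GQ v := GeneralLinearGroup.mkOfDetNeZero !![0, 1; 1, 0] (by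
  simp [Matrix.det_fin_two])

theorem HRw_mem (v : Pl F) : HRw v ∈ GZ v := by
  apply heckeReps_mem
  · intro i j
    fin_cases i <;> fin_cases j <;> simp [HRw]
  · simp [dtv, HRw, Matrix.det_fin_two]

theorem HRd_eq (v : Pl F) : HRd v = HRw v * alpha v 0 * HRw v := by
  apply Units.ext
  rw [Units.val_mul, Units.val_mul, HRd_val, HR_alpha_zero_val]
  ext i j
  fin_cases i <;> fin_cases j <;> simp [HRw]

/-- The unipotent element of `GL₂(F_v)` attached to `b ∈ F`. -/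
theorem HRa_eq (v : Pl F) (b : F) : HRa v b = loc v (Ee b) * alpha v 0 := by
  rw [HRa, map_mul]
  rfl

theorem HR_loc_Ee_val (v : Pl F) (b : F) : (loc v (Ee b) : Matrix (Fin 2) (Fin 2) (Fv v)) =
    !![1, ((b : F) : Fv v); 0, 1] := by
  ext i j
  rw [loc_apply, Ee_val]
  fin_cases i <;> fin_cases j <;> simp

theorem HR_loc_Ee_mem {v : Pl F} {b : F} (hb : Valued.v ((b : F) : Fv v) ≤ 1) :
    loc v (Ee b) ∈ GZ v := by
  apply heckeReps_mem
  · intro i j
    rw [HR_loc_Ee_val]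
    fin_cases i <;> fin_cases j
    · exact (map_one _).le
    · exact hb
    · exact (map_zero _).trans_le zero_le
    · exact (map_one _).le
  · rw [dtv, HR_loc_Ee_val, Matrix.det_fin_two]
    change Valued.v ((1 : Fv v) * 1 - ((b : F) : Fv v) * 0) = 1
    rw [mul_zero, sub_zero, mul_one, map_one]

theorem HR_coe_sub (v : Pl F) (x y : F) :
    ((x : F) : Fv v) - ((y : F) : Fv v) = ((x - y : F) : Fv v) :=
  (map_sub (algebraMap F (Fv v)) x y).symm

theorem HR_lt_iff (v : Pl F) (a b : 𝓞 F) :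
    Valued.v (((a : F) : Fv v) - ((b : F) : Fv v)) < 1 ↔ a - b ∈ v.asIdeal := by
  rw [HR_coe_sub, HeightOneSpectrum.adicCompletion.valued_coe,
    ← HeightOneSpectrum.valuation_lt_one_iff_mem (K := F)]
  rfl

/-- Representatives in `O_F` of the residue field at `v`. -/
theorem HR_exists (v : Pl F) : ∃ B : Finset F, B.card = Ideal.absNorm v.asIdeal ∧
    (∀ b ∈ B, ∃ a : 𝓞 F, b = a) ∧
    (∀ x : Fv v, Valued.v x ≤ 1 → ∃ b ∈ B, Valued.v (x - ((b : F) : Fv v)) < 1) ∧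
    ∀ b ∈ B, ∀ b' ∈ B, Valued.v (((b' : F) : Fv v) - ((b : F) : Fv v)) < 1 → b = b' := by
  classical
  have hfin : Finite (𝓞 F ⧸ v.asIdeal) :=
    Ideal.finiteQuotientOfFreeOfNeBot v.asIdeal v.ne_bot
  have : Fintype (𝓞 F ⧸ v.asIdeal) := Fintype.ofFinite _
  let f : 𝓞 F ⧸ v.asIdeal → F := fun c => ((Quotient.out c : 𝓞 F) : F)
  have hout : ∀ c : 𝓞 F ⧸ v.asIdeal, Ideal.Quotient.mk v.asIdeal (Quotient.out c) = c :=
    fun c => Quotient.out_eq' c
  have hinj : ∀ c d : 𝓞 F ⧸ v.asIdeal,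
      Valued.v (((f d : F) : Fv v) - ((f c : F) : Fv v)) < 1 → c = d := by
    intro c d h
    have h1 := (HR_lt_iff v _ _).1 h
    rw [← hout c, ← hout d]
    exact ((Ideal.Quotient.eq).2 h1).symm
  have hinj' : Function.Injective f := by
    intro c d h
    apply hinj
    rw [h, sub_self, map_zero]
    exact zero_lt_one
  refine ⟨Finset.univ.image f, ?_, ?_, ?_, ?_⟩
  · rw [Finset.card_image_of_injective _ hinj', Finset.card_univ, ← Nat.card_eq_fintype_card]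
    rfl
  · intro b hb
    obtain ⟨c, -, rfl⟩ := Finset.mem_image.1 hb
    exact ⟨_, rfl⟩
  · intro x hx
    obtain ⟨a, ha⟩ := exists_int_sub_lt v x hx 1
    refine ⟨f (Ideal.Quotient.mk v.asIdeal a), Finset.mem_image_of_mem _ (Finset.mem_univ _), ?_⟩
    have h1 : a - Quotient.out (Ideal.Quotient.mk v.asIdeal a) ∈ v.asIdeal :=
      (Ideal.Quotient.eq).1 (hout _).symm
    have h2 := (HR_lt_iff v _ _).2 h1
    have h3 : x - ((f (Ideal.Quotient.mk v.asIdeal a) : F) : Fv v) =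
        (x - (((a : 𝓞 F) : F) : Fv v)) +
          ((((a : 𝓞 F) : F) : Fv v) - ((f (Ideal.Quotient.mk v.asIdeal a) : F) : Fv v)) := by
      ring
    rw [h3]
    exact (Valuation.map_add _ _ _).trans_lt (max_lt ha h2)
  · intro b hb b' hb' h
    obtain ⟨c, -, rfl⟩ := Finset.mem_image.1 hb
    obtain ⟨d, -, rfl⟩ := Finset.mem_image.1 hb'
    rw [hinj c d h]

theorem HR_int_le (v : Pl F) (a : 𝓞 F) : Valued.v (((a : F)) : Fv v) ≤ 1 := by
  rw [HeightOneSpectrum.adicCompletion.valued_coe]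
  exact v.valuation_le_one a

theorem HR_mk_a {v : Pl F} {b : F} (hb : Valued.v ((b : F) : Fv v) ≤ 1) :
    ((HRa v b : GQ v) : GQ v ⧸ GZ v) ∈ cosets v 0 :=
  ⟨loc v (Ee b), HR_loc_Ee_mem hb, by rw [HRa_eq]⟩

theorem HR_mk_d (v : Pl F) : ((HRd v : GQ v) : GQ v ⧸ GZ v) ∈ cosets v 0 := by
  refine ⟨HRw v, HRw_mem v, ?_⟩
  rw [HRd_eq, QuotientGroup.eq]
  have h : (HRw v * alpha v 0 * HRw v)⁻¹ * (HRw v * alpha v 0) = (HRw v)⁻¹ := by group
  rw [h]
  exact (GZ v).inv_mem (HRw_mem v)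

theorem HR_mem_cosets {v : Pl F} {B : Finset F} (hB0 : ∀ b ∈ B, Valued.v ((b : F) : Fv v) ≤ 1)
    (hB : ∀ x : Fv v, Valued.v x ≤ 1 → ∃ b ∈ B, Valued.v (x - ((b : F) : Fv v)) < 1)
    (c : GQ v ⧸ GZ v) : c ∈ cosets v 0 ↔
      (∃ b ∈ B, ((HRa v b : GQ v) : GQ v ⧸ GZ v) = c) ∨ ((HRd v : GQ v) : GQ v ⧸ GZ v) = c := by
  constructor
  · rintro ⟨k, hk, rfl⟩
    have hk1 := ((mem_GZ_iff v k).1 hk).1
    rcases (hk1 1 1).lt_or_eq with h | h
    · right
      rw [QuotientGroup.eq]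
      exact HR_nonunit hk h
    · left
      obtain ⟨b, hb, h1⟩ := hB ((k : Matrix (Fin 2) (Fin 2) (Fv v)) 0 1 /
        (k : Matrix (Fin 2) (Fin 2) (Fv v)) 1 1) (by
          rw [map_div₀, h, div_one]
          exact hk1 0 1)
      refine ⟨b, hb, ?_⟩
      rw [QuotientGroup.eq]
      exact HR_unit hk h (hB0 b hb) h1
  · rintro (⟨b, hb, rfl⟩ | rfl)
    · exact HR_mk_a (hB0 b hb)
    · exact HR_mk_d v

theorem HR_a_inj {v : Pl F} {b b' : F}
    (h : ((HRa v b : GQ v) : GQ v ⧸ GZ v) = ((HRa v b' : GQ v) : GQ v ⧸ GZ v)) :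
    Valued.v (((b' : F) : Fv v) - ((b : F) : Fv v)) < 1 := by
  have h1 := QuotientGroup.eq.1 h
  have h2 := ((mem_GZ_iff v _).1 h1).1 0 1
  rw [Units.val_mul, Matrix.coe_units_inv, HRa_val, HRa_val, HR_gen3 (heckeReps_pi_ne v)] at h2
  change Valued.v ((((b' : F) : Fv v) - ((b : F) : Fv v)) / ((pi v : F) : Fv v)) ≤ 1 at h2
  rw [map_div₀, div_le_one₀ (by rw [heckeReps_pi]; exact WithZero.exp_pos), heckeReps_pi] at h2
  refine h2.trans_lt ?_
  rw [← WithZero.exp_zero, WithZero.exp_lt_exp]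
  norm_num

theorem HR_a_ne_d (v : Pl F) (b : F) :
    ((HRa v b : GQ v) : GQ v ⧸ GZ v) ≠ ((HRd v : GQ v) : GQ v ⧸ GZ v) := by
  intro h
  have h1 := QuotientGroup.eq.1 h
  have h2 := ((mem_GZ_iff v _).1 h1).1 0 0
  rw [Units.val_mul, Matrix.coe_units_inv, HRa_val, HRd_val, HR_gen4 (heckeReps_pi_ne v)] at h2
  change Valued.v (1 / ((pi v : F) : Fv v)) ≤ 1 at h2
  rw [map_div₀, map_one, heckeReps_pi, one_div, ← WithZero.exp_neg, ← WithZero.exp_zero,
    WithZero.exp_le_exp] at h2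
  norm_num at h2

/-- The cosets in the double coset of `diag(π, 1)`. -/
theorem cosets_zero (v : Pl F) : ∃ B : Finset F, B.card = Ideal.absNorm v.asIdeal ∧
    (∀ b ∈ B, Ge v 0 b) ∧
    ∀ (A : Type) [AddCommMonoid A] (Φ : GQ v ⧸ GZ v → A),
      ∑ c ∈ (cosets_finite v 0).toFinset, Φ c =
        ∑ b ∈ B, Φ (loc v (Ee b * dg (pi v) 1 (pi_ne v) one_ne_zero) : GQ v) +
          Φ (loc v (dg 1 (pi v) one_ne_zero (pi_ne v)) : GQ v) := by
  classical
  obtain ⟨B, h1, h2, h3, h4⟩ := HR_exists v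
  have h2' : ∀ b ∈ B, Valued.v ((b : F) : Fv v) ≤ 1 := by
    intro b hb
    obtain ⟨a, rfl⟩ := h2 b hb
    exact HR_int_le v a
  refine ⟨B, h1, ?_, ?_⟩
  · intro b hb
    obtain ⟨a, rfl⟩ := h2 b hb
    exact ge_int v a
  · intro A _ Φ
    have hset : (cosets_finite v 0).toFinset =
        insert ((HRd v : GQ v) : GQ v ⧸ GZ v)
          (B.image fun b => ((HRa v b : GQ v) : GQ v ⧸ GZ v)) := by
      ext c
      rw [Set.Finite.mem_toFinset, HR_mem_cosets h2' h3, Finset.mem_insert, Finset.mem_image,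
        or_comm, eq_comm]
    rw [hset, Finset.sum_insert, Finset.sum_image, add_comm]
    · rfl
    · intro b hb b' hb' h
      exact h4 b hb b' hb' (HR_a_inj h)
    · intro h
      obtain ⟨b, -, hb⟩ := Finset.mem_image.1 h
      exact HR_a_ne_d v b hb

theorem dtv_HRa (v : Pl F) (b : F) : dtv (HRa v b) = ((pi v : F) : Fv v) := by
  rw [dtv, HRa_val, Matrix.det_fin_two]
  change ((pi v : F) : Fv v) * 1 - ((b : F) : Fv v) * 0 = _
  rw [mul_zero, sub_zero, mul_one]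

theorem dtv_HRd (v : Pl F) : dtv (HRd v) = ((pi v : F) : Fv v) := by
  rw [dtv, HRd_val, Matrix.det_fin_two]
  change (1 : Fv v) * ((pi v : F) : Fv v) - 0 * 0 = _
  rw [mul_zero, sub_zero, one_mul]

/-- The same in terms of a family of `N(v) + 1` representatives of determinant `π`. -/
theorem cosets_fam (v : Pl F) : ∃ a : Fin (Ideal.absNorm v.asIdeal + 1) → GQ v,
    (∀ i, dtv (a i) = ((pi v : F) : Fv v)) ∧
    (Function.Injective fun i => (a i : GQ v ⧸ GZ v)) ∧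
    (Set.range fun i => (a i : GQ v ⧸ GZ v)) = cosets v 0 := by
  classical
  obtain ⟨B, h1, h2, h3, h4⟩ := HR_exists v
  have h2' : ∀ b ∈ B, Valued.v ((b : F) : Fv v) ≤ 1 := by
    intro b hb
    obtain ⟨a, rfl⟩ := h2 b hb
    exact HR_int_le v a
  let e : B ≃ Fin (Ideal.absNorm v.asIdeal) := B.equivFinOfCardEq h1
  let a : Fin (Ideal.absNorm v.asIdeal + 1) → GQ v :=
    Fin.cons (HRd v) (fun i => HRa v (e.symm i).1)
  have ha0 : a 0 = HRd v := rfl
  have has : ∀ i : Fin (Ideal.absNorm v.asIdeal), a i.succ = HRa v (e.symm i).1 := fun i => rfl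
  refine ⟨a, ?_, ?_, ?_⟩
  · intro i
    refine Fin.cases ?_ (fun i => ?_) i
    · exact dtv_HRd v
    · exact dtv_HRa v _
  · intro i j hij
    revert hij
    refine Fin.cases ?_ (fun i => ?_) i
    · refine Fin.cases ?_ (fun j => ?_) j
      · intro _; rfl
      · intro h
        exact absurd h.symm (HR_a_ne_d v _)
    · refine Fin.cases ?_ (fun j => ?_) j
      · intro h
        exact absurd h (HR_a_ne_d v _)
      · intro h
        have h5 := h4 _ (e.symm i).2 _ (e.symm j).2 (HR_a_inj h)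
        have h6 : e.symm i = e.symm j := Subtype.ext h5
        rw [e.symm.injective h6]
  · ext c
    rw [HR_mem_cosets h2' h3, Set.mem_range]
    constructor
    · rintro ⟨i, rfl⟩
      refine Fin.cases ?_ (fun i => ?_) i
      · exact Or.inr rfl
      · exact Or.inl ⟨_, (e.symm i).2, rfl⟩
    · rintro (⟨b, hb, rfl⟩ | rfl)
      · refine ⟨(e ⟨b, hb⟩).succ, ?_⟩
        simp only [has, Equiv.symm_apply_apply]
      · exact ⟨0, rfl⟩

theorem HR_alpha_two (v : Pl F) : alpha v 2 = (sc v)⁻¹ := by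
  change loc v (dg (pi v) (pi v) (pi_ne v) (pi_ne v))⁻¹ =
    (loc v (dg (pi v) (pi v) (pi_ne v) (pi_ne v)))⁻¹
  exact map_inv _ _

theorem HR_alpha_comm (v : Pl F) (j : Fin 3) (hj : j ≠ 0) (g : GQ v) :
    alpha v j * g = g * alpha v j := by
  fin_cases j
  · exact absurd rfl hj
  · exact sc_comm v g
  · change alpha v 2 * g = g * alpha v 2
    rw [HR_alpha_two]
    have h : Commute (sc v) g := sc_comm v g
    exact h.inv_left

theorem cosets_scalar (v : Pl F) (j : Fin 3) (hj : j ≠ 0) : cosets v j =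
    {((alpha v j : GQ v) : GQ v ⧸ GZ v)} := by
  ext c
  rw [Set.mem_singleton_iff]
  constructor
  · rintro ⟨k, hk, rfl⟩
    rw [← HR_alpha_comm v j hj, QuotientGroup.eq]
    have h : (alpha v j * k)⁻¹ * alpha v j = k⁻¹ := by group
    rw [h]
    exact (GZ v).inv_mem hk
  · rintro rfl
    exact ⟨1, (GZ v).one_mem, by rw [one_mul]⟩

theorem cosetsInv_scalar (v : Pl F) (j : Fin 3) (hj : j ≠ 0) : cosetsInv v j =
    {(((alpha v j)⁻¹ : GQ v) : GQ v ⧸ GZ v)} := by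
  ext c
  rw [Set.mem_singleton_iff]
  constructor
  · rintro ⟨k, hk, rfl⟩
    have hc : Commute (alpha v j) k := HR_alpha_comm v j hj k
    rw [← hc.inv_left.eq, QuotientGroup.eq]
    have h : ((alpha v j)⁻¹ * k)⁻¹ * (alpha v j)⁻¹ = k⁻¹ := by group
    rw [h]
    exact (GZ v).inv_mem hk
  · rintro rfl
    exact ⟨1, (GZ v).one_mem, by rw [one_mul]⟩

theorem HR_gen5 {E : Type*} [Field E] {p : E} :
    (!![0, 1; 1, 0] : Matrix (Fin 2) (Fin 2) E) * !![p, 0; 0, 1] * !![0, 1; 1, 0] *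
      !![p, 0; 0, 1] = !![p, 0; 0, p] := by
  ext i j
  fin_cases i <;> fin_cases j <;> simp

theorem HR_inv_eq (v : Pl F) : (alpha v 0)⁻¹ = (sc v)⁻¹ * HRw v * alpha v 0 * HRw v := by
  have h : HRw v * alpha v 0 * HRw v * alpha v 0 = sc v := by
    apply Units.ext
    rw [Units.val_mul, Units.val_mul, Units.val_mul, HR_alpha_zero_val, HR_sc_val]
    exact HR_gen5
  rw [← h]
  group

theorem HR_smul_mem {v : Pl F} {c : GQ v ⧸ GZ v} (hc : c ∈ cosets v 0) :
    (sc v)⁻¹ • c ∈ cosetsInv v 0 := by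
  obtain ⟨k, hk, rfl⟩ := hc
  refine ⟨k * (HRw v)⁻¹, (GZ v).mul_mem hk ((GZ v).inv_mem (HRw_mem v)), ?_⟩
  rw [HR_inv_eq]
  change (((sc v)⁻¹ * (k * alpha v 0) : GQ v) : GQ v ⧸ GZ v) = _
  rw [QuotientGroup.eq]
  have hcm : ∀ g : GQ v, g * (sc v)⁻¹ = (sc v)⁻¹ * g := fun g =>
    ((show Commute (sc v) g from sc_comm v g).inv_left).eq.symm
  have h : ((sc v)⁻¹ * (k * alpha v 0))⁻¹ *
      (k * (HRw v)⁻¹ * ((sc v)⁻¹ * HRw v * alpha v 0 * HRw v)) = HRw v := by
    have h1 : k * (HRw v)⁻¹ * ((sc v)⁻¹ * HRw v * alpha v 0 * HRw v) =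
        (k * (HRw v)⁻¹ * (sc v)⁻¹) * (HRw v * alpha v 0 * HRw v) := by group
    rw [h1, hcm]
    group
  rw [h]
  exact HRw_mem v

theorem HR_smul_mem' {v : Pl F} {c : GQ v ⧸ GZ v} (hc : c ∈ cosetsInv v 0) :
    sc v • c ∈ cosets v 0 := by
  obtain ⟨k, hk, rfl⟩ := hc
  refine ⟨k * HRw v, (GZ v).mul_mem hk (HRw_mem v), ?_⟩
  rw [HR_inv_eq]
  change ((sc v * (k * ((sc v)⁻¹ * HRw v * alpha v 0 * HRw v)) : GQ v) : GQ v ⧸ GZ v) = _
  rw [QuotientGroup.eq]
  have hcm : ∀ g : GQ v, g * (sc v)⁻¹ = (sc v)⁻¹ * g := fun g =>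
    ((show Commute (sc v) g from sc_comm v g).inv_left).eq.symm
  have h : (sc v * (k * ((sc v)⁻¹ * HRw v * alpha v 0 * HRw v)))⁻¹ *
      (k * HRw v * alpha v 0) = (HRw v)⁻¹ := by
    have h1 : sc v * (k * ((sc v)⁻¹ * HRw v * alpha v 0 * HRw v)) =
        sc v * (k * (sc v)⁻¹) * (HRw v * alpha v 0 * HRw v) := by group
    rw [h1, hcm]
    group
  rw [h]
  exact (GZ v).inv_mem (HRw_mem v)

/-- The inverse double coset of `diag(π, 1)`. -/
theorem cosetsInv_zero (v : Pl F) (A : Type) [AddCommMonoid A] (Φ : GQ v → A)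
    (hΦ : ∀ g, ∀ k ∈ GZ v, Φ (g * k) = Φ g) :
    ∑ c ∈ (cosetsInv_finite v 0).toFinset, Φ (Quotient.out c) =
      ∑ c ∈ (cosets_finite v 0).toFinset, Φ (Quotient.out c * (sc v)⁻¹) := by
  symm
  refine Finset.sum_bij (fun c _ => (sc v)⁻¹ • c) ?_ ?_ ?_ ?_
  · intro c hc
    rw [Set.Finite.mem_toFinset] at hc ⊢
    exact HR_smul_mem hc
  · intro c _ c' _ h
    exact MulAction.injective _ h
  · intro c hc
    rw [Set.Finite.mem_toFinset] at hc
    refine ⟨sc v • c, ?_, by simp⟩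
    rw [Set.Finite.mem_toFinset]
    exact HR_smul_mem' hc
  · intro c _
    have h3 : ((Quotient.out ((sc v)⁻¹ • c) : GQ v) : GQ v ⧸ GZ v) = (sc v)⁻¹ • c :=
      Quotient.out_eq' _
    have h4 : ((Quotient.out c : GQ v) : GQ v ⧸ GZ v) = c := Quotient.out_eq' _
    have h5 : ((Quotient.out ((sc v)⁻¹ • c) : GQ v) : GQ v ⧸ GZ v) =
        ((Quotient.out c * (sc v)⁻¹ : GQ v) : GQ v ⧸ GZ v) := by
      have hcm : Quotient.out c * (sc v)⁻¹ = (sc v)⁻¹ * Quotient.out c :=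
        ((show Commute (sc v) (Quotient.out c) from sc_comm v _).inv_left).eq.symm
      rw [h3, hcm]
      conv_lhs => rw [← h4]
      rfl
    have h6 := QuotientGroup.eq.1 h5
    have h7 := hΦ (Quotient.out ((sc v)⁻¹ • c)) _ h6
    rw [mul_inv_cancel_left] at h7
    exact h7

end Pool.Agent.CG2
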