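import Pool.Agent.CG2.CompactOv

/-!
# The Hecke operators on the modules `Forms`
-/

noncomputable section

namespace Pool.Agent.CG2

open NumberField IsDedekindDomain Matrix

variable {F : Type} [Field F] [NumberField F]

/-- A uniformiser of `F_v` in `F`. -/
def pi (v : Pl F) : F := (v.valuation_exists_uniformizer F).choose

theorem pi_spec (v : Pl F) : v.valuation F (pi v) = WithZero.exp (-1 : ℤ) :=
  (v.valuation_exists_uniformizer F).choose_spec

theorem pi_ne (v : Pl F) : pi v ≠ 0 := by
  intro h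
  have := pi_spec v
  rw [h, map_zero] at this
  exact WithZero.exp_ne_zero this.symm

/-- The element `diag(a,b)` of `GL₂(F)`. -/
def dg (a b : F) (ha : a ≠ 0) (hb : b ≠ 0) : G F :=
  GeneralLinearGroup.mkOfDetNeZero (Matrix.diagonal ![a, b]) (by
    simp [Matrix.det_diagonal, ha, hb])

/-- The element `diag(π,1)`, `diag(π,π)`, `diag(π,π)⁻¹` of `GL₂(F_v)` for `j = 0, 1, 2`;
`π` is a uniformiser of `F_v`. -/
def alpha (v : Pl F) (j : Fin 3) : GQ v :=
  loc v ((![dg (pi v) 1 (pi_ne v) one_ne_zero, dg (pi v) (pi v) (pi_ne v) (pi_ne v),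
    (dg (pi v) (pi v) (pi_ne v) (pi_ne v))⁻¹] : Fin 3 → G F) j)

/-- The set of the cosets `h GL₂(O_v)` contained in the double coset
`GL₂(O_v) α GL₂(O_v)`, `α = alpha v j`. -/
def cosets (v : Pl F) (j : Fin 3) : Set (GQ v ⧸ GZ v) :=
  {c | ∃ k ∈ GZ v, c = ((k * alpha v j : GQ v) : GQ v ⧸ GZ v)}

theorem isOpen_GZ (v : Pl F) : IsOpen (GZ v : Set (GQ v)) := by
  have h : (GZ v : Set (GQ v)) =
      ⋂ i, ⋂ j, ({g : GQ v | Valued.v ((g : Matrix (Fin 2) (Fin 2) (Fv v)) i j) ≤ 1} ∩
        {g : GQ v | Valued.v (((g⁻¹ : GQ v) : Matrix (Fin 2) (Fin 2) (Fv v)) i j) ≤ 1}) := by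
    ext g
    simp only [SetLike.mem_coe, mem_GZ_iff, Set.mem_iInter, Set.mem_inter_iff,
      Set.mem_ofPred_eq]
    constructor
    · intro h i j
      exact ⟨h.1 i j, h.2 i j⟩
    · intro h
      exact ⟨fun i j => (h i j).1, fun i j => (h i j).2⟩
  rw [h]
  refine isOpen_iInter_of_finite fun i => isOpen_iInter_of_finite fun j => ?_
  have hb : IsOpen {x : Fv v | Valued.v x ≤ 1} := isOpen_val_le v 1 one_ne_zero
  refine IsOpen.inter ?_ ?_
  · exact hb.preimage ((Units.continuous_val.matrix_elem i j))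
  · exact hb.preimage ((Units.continuous_val.comp continuous_inv).matrix_elem i j)

theorem isCompact_GZ (v : Pl F) : IsCompact (GZ v : Set (GQ v)) := by
  have : (GZ v : Set (GQ v)) = Set.range
      (GeneralLinearGroup.map (n := Fin 2) (algebraMap (Ov v) (Fv v))) := rfl
  rw [this]
  have h0 : CompactSpace (Ov v) := inferInstance
  have hc : CompactSpace (Matrix (Fin 2) (Fin 2) (Ov v)) :=
    inferInstanceAs (CompactSpace (Fin 2 → Fin 2 → Ov v))
  have hc' : CompactSpace (GL (Fin 2) (Ov v)) :=
    inferInstanceAs (CompactSpace (Matrix (Fin 2) (Fin 2) (Ov v))ˣ)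
  apply isCompact_range
  have hcast : Continuous (fun x : Ov v => (x : Fv v)) := continuous_subtype_val
  refine Units.continuous_iff.2 ⟨?_, ?_⟩
  · refine continuous_matrix fun i j => ?_
    have h1 : Continuous (fun u : GL (Fin 2) (Ov v) =>
        (u : Matrix (Fin 2) (Fin 2) (Ov v)) i j) := Units.continuous_val.matrix_elem i j
    exact hcast.comp h1
  · refine continuous_matrix fun i j => ?_
    have h1 : Continuous (fun u : GL (Fin 2) (Ov v) =>
        ((u⁻¹ : GL (Fin 2) (Ov v)) : Matrix (Fin 2) (Fin 2) (Ov v)) i j) :=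
      (Units.continuous_val.comp continuous_inv).matrix_elem i j
    exact hcast.comp h1

theorem cosets_finite (v : Pl F) (j : Fin 3) : (cosets v j).Finite := by
  have h1 : cosets v j = (fun k : GQ v => ((k * alpha v j : GQ v) : GQ v ⧸ GZ v)) ''
      (GZ v : Set (GQ v)) := by
    ext c
    simp only [cosets, Set.mem_ofPred_eq, Set.mem_image, SetLike.mem_coe]
    constructor
    · rintro ⟨k, hk, rfl⟩
      exact ⟨k, hk, rfl⟩
    · rintro ⟨k, hk, rfl⟩
      exact ⟨k, hk, rfl⟩
  rw [h1]
  have : DiscreteTopology (GQ v ⧸ GZ v) :=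
    QuotientGroup.discreteTopology (isOpen_GZ v)
  apply IsCompact.finite_of_discrete
  apply (isCompact_GZ v).image
  exact (QuotientGroup.continuous_mk).comp (continuous_mul_const _)

variable {O : Type} [CommRing O] {W : Type} [AddCommGroup W] [Module O W]

/-- Elements of `GL₂(𝔸_f)` at different places commute. -/
theorem single_comm {v q : Pl F} (h : v ≠ q) (a : GQ v) (b : GQ q) :
    single v a * single q b = single q b * single v a := by
  classical
  apply Subtype.ext
  funext r
  simp only [Subgroup.coe_mul, single_apply, Pi.mul_apply]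
  by_cases h1 : r = v
  · subst h1
    rw [Pi.mulSingle_eq_of_ne (M := fun v => GQ v) h b, mul_one, one_mul]
  · rw [Pi.mulSingle_eq_of_ne (M := fun v => GQ v) h1 a, mul_one, one_mul]

theorem single_same (v : Pl F) (a : GQ v) : (single v a).1 v = a := by
  classical
  rw [single_apply, Pi.mulSingle_eq_same]

theorem single_ne {v q : Pl F} (h : q ≠ v) (a : GQ v) : (single v a).1 q = 1 := by
  classical
  rw [single_apply, Pi.mulSingle_eq_of_ne h]

/-- `single v a` commutes with the elements whose component at `v` is trivial. -/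
theorem single_comm' {v : Pl F} (a : GQ v) {k : GA F} (hk : k.1 v = 1) :
    k * single v a = single v a * k := by
  apply Subtype.ext
  funext q
  simp only [Subgroup.coe_mul, Pi.mul_apply]
  by_cases h : q = v
  · subst h
    rw [hk, mul_one, one_mul]
  · rw [single_ne h, mul_one, one_mul]

/-- The pair of a subgroup `K` of `GL₂(𝔸_f)` and a `K`-module is unramified at `v`:
`K = GL₂(O_v) × K^v` and `GL₂(O_v)` acts trivially. -/
structure Unram (K : Subgroup (GA F)) (τ : Representation O K W) (v : Pl F) : Prop where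
  le : ∀ k ∈ K, k.1 v ∈ GZ v
  mem : ∀ k ∈ GZ v, single v k ∈ K
  triv : ∀ (k : GQ v) (hk : k ∈ GZ v), τ ⟨single v k, mem k hk⟩ = 1

/-- Right translation by an element of `GL₂(O_v)` does nothing on `Forms`. -/
theorem forms_mul_single {K : Subgroup (GA F)} {τ : Representation O K W} (f : Forms K τ)
    {v : Pl F} (hU : Unram K τ v) (y : Pt F) (k : GQ v) (hk : k ∈ GZ v) :
    f.1 (rt y (single v k)) = f.1 y := by
  have := f.2 y ⟨_, hU.mem k hk⟩
  rw [this]
  have h1 : τ (⟨single v k, hU.mem k hk⟩ : K)⁻¹ = 1 := by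
    have h2 := hU.triv k⁻¹ ((GZ v).inv_mem hk)
    rw [← h2]
    congr 1
    apply Subtype.ext
    rw [Subgroup.coe_inv]
    exact (map_inv (single v) k).symm
  rw [h1]
  rfl

/-- The value of `f` at `y h` depends only on the coset `h GL₂(O_v)`. -/
theorem forms_congr_coset {K : Subgroup (GA F)} {τ : Representation O K W} (f : Forms K τ)
    {v : Pl F} (hU : Unram K τ v) (y : Pt F) {h h' : GQ v}
    (hh : (h : GQ v ⧸ GZ v) = (h' : GQ v ⧸ GZ v)) :
    f.1 (rt y (single v h)) = f.1 (rt y (single v h')) := by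
  have h1 : h⁻¹ * h' ∈ GZ v := QuotientGroup.eq.1 hh
  have h2 := forms_mul_single f hU (rt y (single v h)) _ h1
  rw [← rt_mul, ← map_mul, mul_inv_cancel_left] at h2
  exact h2.symm

/-- Left multiplication by an element of `GL₂(O_v)` permutes the cosets. -/
theorem smul_mem_cosets {v : Pl F} {j : Fin 3} {c : GQ v ⧸ GZ v} (hc : c ∈ cosets v j)
    {k : GQ v} (hk : k ∈ GZ v) : k • c ∈ cosets v j := by
  obtain ⟨u, hu, rfl⟩ := hc
  refine ⟨k * u, (GZ v).mul_mem hk hu, ?_⟩
  rw [mul_assoc]
  rfl

/-- The sum over the cosets in the definition of the Hecke operators. -/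
def heckeSum {v : Pl F} (j : Fin 3) (f : Pt F → W) (y : Pt F) : W :=
  ∑ c ∈ (cosets_finite v j).toFinset, f (rt y (single v (Quotient.out c)))

theorem heckeSum_mem {K : Subgroup (GA F)} {τ : Representation O K W} (f : Forms K τ)
    {v : Pl F} (hU : Unram K τ v) (j : Fin 3) : heckeSum (v := v) j f.1 ∈ Forms K τ := by
  intro y k
  -- the element `k` with its component at `v` removed
  set a : GQ v := k.1.1 v with ha
  have haZ : a ∈ GZ v := hU.le _ k.2
  let k' : GA F := (single v a)⁻¹ * k.1
  have hk' : k.1 = single v a * k' := by simp [k']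
  have hk'v : k'.1 v = 1 := by
    simp only [k', Subgroup.coe_mul, Pi.mul_apply, Subgroup.coe_inv, Pi.inv_apply, single_same]
    rw [ha, inv_mul_cancel]
  have hcomm : ∀ b : GQ v, k' * single v b = single v b * k' := fun b => single_comm' b hk'v
  have hk'mem : k' ∈ K := K.mul_mem (K.inv_mem (hU.mem a haZ)) k.2
  have hpe : τ (⟨k', hk'mem⟩ : K)⁻¹ = τ k⁻¹ := by
    have h1 : (k : K) = ⟨single v a, hU.mem a haZ⟩ * ⟨k', hk'mem⟩ := Subtype.ext hk'
    conv_rhs => rw [h1, _root_.mul_inv_rev, map_mul]
    have h2 : τ (⟨single v a, hU.mem a haZ⟩ : K)⁻¹ = 1 := by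
      have h3 := hU.triv a⁻¹ ((GZ v).inv_mem haZ)
      rw [← h3]
      congr 1
      apply Subtype.ext
      rw [Subgroup.coe_inv]
      exact (map_inv (single v) a).symm
    rw [h2, mul_one]
  unfold heckeSum
  rw [map_sum]
  refine Finset.sum_bij (fun c _ => a • c) ?_ ?_ ?_ ?_
  · intro c hc
    rw [Set.Finite.mem_toFinset] at hc ⊢
    exact smul_mem_cosets hc haZ
  · intro c _ c' _ h
    exact MulAction.injective a h
  · intro c hc
    rw [Set.Finite.mem_toFinset] at hc
    refine ⟨a⁻¹ • c, ?_, by simp⟩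
    rw [Set.Finite.mem_toFinset]
    exact smul_mem_cosets hc ((GZ v).inv_mem haZ)
  · intro c _
    have h1 : rt (rt y k.1) (single v (Quotient.out c)) =
        rt (rt y (single v (a * Quotient.out c))) k' := by
      rw [← rt_mul, ← rt_mul, hk', map_mul]
      congr 1
      simp only [mul_assoc]
      rw [hcomm]
    rw [h1]
    have h2 := f.2 (rt y (single v (a * Quotient.out c))) ⟨k', hk'mem⟩
    simp only at h2
    rw [h2, hpe]
    congr 1
    apply forms_congr_coset f hU
    have h3 : ((Quotient.out (a • c) : GQ v) : GQ v ⧸ GZ v) = a • c := Quotient.out_eq' _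
    have h4 : ((Quotient.out c : GQ v) : GQ v ⧸ GZ v) = c := Quotient.out_eq' _
    rw [h3]
    conv_rhs => rw [← h4]
    rfl

/-- The index set of the generators of the Hecke algebra: a place `v ∉ S` and `j ∈ {0,1,2}`:
`T_v`, `R_v`, `R_v⁻¹`. -/
abbrev Idx (S : Set (Pl F)) := {v : Pl F // v ∉ S} × Fin 3

/-- The pair `(K, τ)` is unramified outside `S`. -/
abbrev UnramOff (K : Subgroup (GA F)) (τ : Representation O K W) (S : Set (Pl F)) : Prop :=
  ∀ v, v ∉ S → Unram K τ v

/-- The Hecke operator attached to `t` as an endomorphism of the `O`-module `Forms`. -/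
def heckeLin {S : Set (Pl F)} (K : Subgroup (GA F)) (τ : Representation O K W)
    (hU : UnramOff K τ S) (t : Idx S) : Forms K τ →ₗ[O] Forms K τ where
  toFun f := ⟨heckeSum (v := t.1.1) t.2 f.1, heckeSum_mem f (hU _ t.1.2) t.2⟩
  map_add' f f' := by
    apply Subtype.ext
    funext y
    simp [heckeSum, Finset.sum_add_distrib]
  map_smul' c f := by
    apply Subtype.ext
    funext y
    simp [heckeSum, Finset.smul_sum]

/-- The Hecke operator as an endomorphism of the representation `coeff K τ`. -/
def heckeHom {S : Set (Pl F)} (K : Subgroup (GA F)) (τ : Representation O K W)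
    (hU : UnramOff K τ S) (t : Idx S) : coeff K τ ⟶ coeff K τ :=
  Rep.ofHom
    { toLinearMap := heckeLin K τ hU t
      isIntertwining' := by
        intro γ
        apply LinearMap.ext
        intro f
        apply Subtype.ext
        funext y
        simp [heckeLin, heckeSum, act_rt] }

/-- The Hecke operator on the cohomology group `Hⁱ(Y(K), W)`. -/
def heckeCoh {S : Set (Pl F)} (K : Subgroup (GA F)) (τ : Representation O K W)
    (hU : UnramOff K τ S) (i : ℕ) (t : Idx S) :
    Module.End O (groupCohomology (coeff K τ) i) :=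
  ((groupCohomology.functor O (G F) i).map (heckeHom K τ hU t)).hom

end Pool.Agent.CG2
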