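import Pool.Agent.CG2.KoeDefs
import Pool.Agent.CG2.Hecke

/-!
# The Steinberg module and the functions finitely supported on the cosets
-/

noncomputable section

namespace Pool.Agent.CG2

open NumberField IsDedekindDomain Matrix

variable {F : Type} [Field F] [NumberField F]

/-- The projective line over `F`. -/
def P1 (F : Type) : Type := OnePoint F

instance actP1 : MulAction (G F) (P1 F) :=
  @OnePoint.instGLAction F _ (Classical.decEq F)

instance decP1 : DecidableEq (P1 F) := Classical.decEq _

/-- The point at infinity. -/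
def infP (F : Type) : P1 F := OnePoint.infty

open Classical in
/-- The point of the projective line attached to a vector. -/
def ln (x : Vec F) : P1 F := if x 1 = 0 then OnePoint.infty else ((x 0 / x 1 : F) : OnePoint F)

theorem smul_inf_iff (γ : G F) : γ • infP F = infP F ↔
    (γ : Matrix (Fin 2) (Fin 2) F) 1 0 = 0 :=
  @OnePoint.smul_infty_eq_self_iff F _ (Classical.decEq F) γ

variable (F) in
/-- The Steinberg module: finitely supported functions on the projective line with values in
`k` and with sum `0`. -/
def St (O k : Type) [CommRing O] [AddCommGroup k] [Module O k] : Submodule O (P1 F →₀ k) where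
  carrier := {s | (s.sum fun _ c => c) = 0}
  add_mem' := by
    intro a b ha hb
    simp only [Set.mem_ofPred_eq] at ha hb ⊢
    rw [Finsupp.sum_add_index' (fun _ => rfl) (fun _ _ _ => rfl), ha, hb, add_zero]
  zero_mem' := by simp
  smul_mem' := by
    intro c a ha
    simp only [Set.mem_ofPred_eq] at ha ⊢
    rw [Finsupp.sum_smul_index' (fun _ => rfl), ← Finsupp.smul_sum, ha, smul_zero]

/-- The action of `GL₂(F)` on the Steinberg module. -/
def stAct (O k : Type) [CommRing O] [AddCommGroup k] [Module O k] (γ : G F) :
    St F O k →ₗ[O] St F O k :=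
  (Finsupp.lmapDomain k O (fun P : P1 F => γ • P)).restrict (by
    intro s hs
    change ((Finsupp.mapDomain (fun P : P1 F => γ • P) s).sum fun _ c => c) = 0
    rw [Finsupp.sum_mapDomain_index (fun _ => rfl) (fun _ _ _ => rfl)]
    exact hs)

/-- The element `c [P] - c [Q]` of the Steinberg module. -/
def stD (O : Type) {k : Type} [CommRing O] [AddCommGroup k] [Module O k] (c : k) (P Q : P1 F) :
    St F O k :=
  ⟨Finsupp.single P c - Finsupp.single Q c, by
    change ((Finsupp.single P c - Finsupp.single Q c).sum fun _ c => c) = 0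
    rw [Finsupp.sum_sub_index (fun _ _ _ => rfl), Finsupp.sum_single_index rfl,
      Finsupp.sum_single_index rfl, sub_self]⟩

theorem stAct_D (O : Type) {k : Type} [CommRing O] [AddCommGroup k] [Module O k] (γ : G F) (c : k)
    (P Q : P1 F) : stAct O k γ (stD O c P Q) = stD O c (γ • P) (γ • Q) := by
  apply Subtype.ext
  change Finsupp.mapDomain (fun P : P1 F => γ • P) (Finsupp.single P c - Finsupp.single Q c) = _
  rw [Finsupp.mapDomain_sub, Finsupp.mapDomain_single, Finsupp.mapDomain_single]
  rfl

/-- The functions on `GL₂(F)` which are finitely supported on the sets `{γ | γ y ∈ x K}`. -/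
def FF (K : Subgroup (GA F)) (O k : Type) [CommRing O] [AddCommGroup k] [Module O k] :
    Submodule O (G F → k) where
  carrier := {f | ∀ x y : Pt F, {γ : G F | mkK K (act γ y) = mkK K x ∧ f γ ≠ 0}.Finite}
  add_mem' := by
    intro a b ha hb x y
    refine ((ha x y).union (hb x y)).subset ?_
    rintro γ ⟨h1, h2⟩
    by_cases h : a γ = 0
    · right
      refine ⟨h1, fun h' => h2 ?_⟩
      rw [Pi.add_apply, h, h', add_zero]
    · left
      exact ⟨h1, h⟩
  zero_mem' := by
    intro x y
    simp
  smul_mem' := by
    intro c a ha x y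
    refine (ha x y).subset ?_
    rintro γ ⟨h1, h2⟩
    refine ⟨h1, fun h' => h2 ?_⟩
    rw [Pi.smul_apply, h', smul_zero]

/-- The double coset of the inverse of `alpha v j`. -/
def cosetsInv (v : Pl F) (j : Fin 3) : Set (GQ v ⧸ GZ v) :=
  {c | ∃ k ∈ GZ v, c = ((k * (alpha v j)⁻¹ : GQ v) : GQ v ⧸ GZ v)}

theorem cosetsInv_finite (v : Pl F) (j : Fin 3) : (cosetsInv v j).Finite := by
  have h1 : cosetsInv v j = (fun k : GQ v => ((k * (alpha v j)⁻¹ : GQ v) : GQ v ⧸ GZ v)) ''
      (GZ v : Set (GQ v)) := by
    ext c
    simp only [cosetsInv, Set.mem_ofPred_eq, Set.mem_image, SetLike.mem_coe]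
    constructor
    · rintro ⟨k, hk, rfl⟩
      exact ⟨k, hk, rfl⟩
    · rintro ⟨k, hk, rfl⟩
      exact ⟨k, hk, rfl⟩
  rw [h1]
  have : DiscreteTopology (GQ v ⧸ GZ v) :=
    QuotientGroup.discreteTopology (isOpen_GZ v)
  apply IsCompact.finite_of_discrete
  apply (isCompact_GZ v).image
  exact (QuotientGroup.continuous_mk).comp (continuous_mul_const _)

end Pool.Agent.CG2
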