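import Pool.Agent.CG2.GalDens

/-!
# The density of the places with given Frobenius division: finite extensions
-/

noncomputable section

set_option linter.unusedSectionVars false

namespace Pool.Agent.CG2

open NumberField IsDedekindDomain

variable {F L : Type} [Field F] [NumberField F] [Field L] [NumberField L] [Algebra F L]

/-- The place `P` of `L` lies over the place `v` of `F`. -/
def Lies (P : Pl L) (v : Pl F) : Prop := P.asIdeal.comap (algebraMap (𝓞 F) (𝓞 L)) = v.asIdeal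

/-- `σ` is a Frobenius element at `P` over `v`. -/
def FrobAt (v : Pl F) (P : Pl L) (σ : Gal(L/F)) : Prop :=
  Lies P v ∧ ∀ x : 𝓞 L, σ • x - x ^ (Ideal.absNorm v.asIdeal) ∈ P.asIdeal

/-- The Galois group acts without inertia at the places over `v`. -/
def UnramAt (L : Type) [Field L] [NumberField L] [Algebra F L] (v : Pl F) : Prop :=
  ∀ P : Pl L, Lies P v → ∀ σ : Gal(L/F), (∀ x : 𝓞 L, σ • x - x ∈ P.asIdeal) → σ = 1

namespace GalFinAux

open scoped Pointwise

theorem liesOver_of_lies {P : Pl L} {v : Pl F} (h : Lies P v) : P.asIdeal.LiesOver v.asIdeal :=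
  ⟨h.symm⟩

theorem lies_of_liesOver {P : Pl L} {v : Pl F} (h : P.asIdeal.LiesOver v.asIdeal) : Lies P v :=
  h.over.symm

/-- The place below. -/
def below (F : Type) [Field F] [NumberField F] {L : Type} [Field L] [NumberField L] [Algebra F L]
    (P : Pl L) : Pl F where
  asIdeal := P.asIdeal.under (𝓞 F)
  isPrime := by
    have := P.isPrime
    infer_instance
  ne_bot := by
    have := P.isPrime
    exact Ideal.under_ne_bot (𝓞 F) P.ne_bot

theorem lies_below (P : Pl L) : Lies P (below F P) := rfl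

theorem lies_iff {P : Pl L} {v : Pl F} : Lies P v ↔ below F P = v := by
  constructor
  · intro h
    exact HeightOneSpectrum.ext h
  · rintro rfl
    rfl

/-- The action of the Galois group on the places. -/
def actP (σ : Gal(L/F)) (P : Pl L) : Pl L where
  asIdeal := σ • P.asIdeal
  isPrime := by
    have := P.isPrime
    infer_instance
  ne_bot := by
    intro h
    apply P.ne_bot
    have h1 : σ⁻¹ • (σ • P.asIdeal) = σ⁻¹ • (⊥ : Ideal (𝓞 L)) := by rw [h]
    rw [inv_smul_smul] at h1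
    rw [h1]
    ext x
    rw [Ideal.mem_inv_pointwise_smul_iff, Ideal.mem_bot, Ideal.mem_bot]
    exact smul_eq_zero_iff_eq σ

theorem mem_actP (σ : Gal(L/F)) (P : Pl L) (x : 𝓞 L) :
    x ∈ (actP σ P).asIdeal ↔ σ⁻¹ • x ∈ P.asIdeal :=
  Ideal.mem_pointwise_smul_iff_inv_smul_mem

theorem smul_mem_actP (σ : Gal(L/F)) (P : Pl L) (x : 𝓞 L) :
    σ • x ∈ (actP σ P).asIdeal ↔ x ∈ P.asIdeal := by
  rw [mem_actP, inv_smul_smul]

theorem actP_one (P : Pl L) : actP (1 : Gal(L/F)) P = P := by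
  apply HeightOneSpectrum.ext
  exact one_smul _ _

theorem actP_mul (σ τ : Gal(L/F)) (P : Pl L) : actP (σ * τ) P = actP σ (actP τ P) := by
  apply HeightOneSpectrum.ext
  exact mul_smul _ _ _

theorem smul_alg (σ : Gal(L/F)) (x : 𝓞 F) :
    σ • algebraMap (𝓞 F) (𝓞 L) x = algebraMap (𝓞 F) (𝓞 L) x := by
  apply RingOfIntegers.ext
  exact σ.commutes (x : F)

theorem below_actP (σ : Gal(L/F)) (P : Pl L) : below F (actP σ P) = below F P := by
  apply HeightOneSpectrum.ext
  ext x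
  change algebraMap (𝓞 F) (𝓞 L) x ∈ (actP σ P).asIdeal ↔ algebraMap (𝓞 F) (𝓞 L) x ∈ P.asIdeal
  rw [mem_actP, smul_alg]

theorem exists_actP [IsGalois F L] {P P' : Pl L} (h : below F P = below F P') :
    ∃ τ : Gal(L/F), P' = actP τ P := by
  have hG : IsGaloisGroup Gal(L/F) (𝓞 F) (𝓞 L) :=
    IsGaloisGroup.of_isFractionRing Gal(L/F) (𝓞 F) (𝓞 L) F L
  have := hG.isInvariant
  have := P.isPrime
  have := P'.isPrime
  obtain ⟨τ, hτ⟩ := Algebra.IsInvariant.exists_smul_of_under_eq (𝓞 F) (𝓞 L) Gal(L/F)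
    P.asIdeal P'.asIdeal (congrArg (fun w => w.asIdeal) h)
  exact ⟨τ, HeightOneSpectrum.ext hτ⟩

theorem exists_above (v : Pl F) : ∃ P : Pl L, Lies P v := by
  have := v.isPrime
  obtain ⟨Q, hQ⟩ := (inferInstance : Nonempty (Ideal.primesOver v.asIdeal (𝓞 L)))
  have h1 := hQ.1
  have h2 := hQ.2
  exact ⟨⟨Q, h1, Ideal.ne_bot_of_liesOver_of_ne_bot v.ne_bot Q⟩, lies_of_liesOver h2⟩

/-- A Frobenius element at a given place. -/
theorem exists_frob_above [IsGalois F L] {v : Pl F} {P : Pl L} (h : Lies P v) :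
    ∃ σ : Gal(L/F), FrobAt v P σ := by
  have hG : IsGaloisGroup Gal(L/F) (𝓞 F) (𝓞 L) :=
    IsGaloisGroup.of_isFractionRing Gal(L/F) (𝓞 F) (𝓞 L) F L
  have := hG.isInvariant
  have := P.isPrime
  have := liesOver_of_lies h
  have hfin : Finite (𝓞 L ⧸ P.asIdeal) := Ideal.finiteQuotientOfFreeOfNeBot P.asIdeal P.ne_bot
  obtain ⟨t, ht⟩ := IsArithFrobAt.exists_of_isInvariant (𝓞 F) Gal(L/F) P.asIdeal
  have hcard : Nat.card (𝓞 F ⧸ P.asIdeal.under (𝓞 F)) = Ideal.absNorm v.asIdeal := by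
    rw [← Ideal.over_def P.asIdeal v.asIdeal, Ideal.absNorm_apply, Submodule.cardQuot_apply]
  refine ⟨t, h, fun x => ?_⟩
  have := ht x
  rw [hcard] at this
  exact this

/-- A Frobenius element preserves its place. -/
theorem frob_mem {v : Pl F} {P : Pl L} {σ : Gal(L/F)} (h : FrobAt v P σ) (x : 𝓞 L) :
    σ • x ∈ P.asIdeal ↔ x ∈ P.asIdeal := by
  have h1 := h.2 x
  have h0 : Ideal.absNorm v.asIdeal ≠ 0 := by
    rw [Ne, Ideal.absNorm_eq_zero_iff]; exact v.ne_bot
  constructor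
  · intro hx
    have h2 : x ^ (Ideal.absNorm v.asIdeal) ∈ P.asIdeal := by
      have := P.asIdeal.sub_mem hx h1
      rwa [sub_sub_cancel] at this
    exact P.isPrime.mem_of_pow_mem _ h2
  · intro hx
    have h2 : x ^ (Ideal.absNorm v.asIdeal) ∈ P.asIdeal := P.asIdeal.pow_mem_of_mem hx _
      (Nat.pos_of_ne_zero h0)
    have := P.asIdeal.add_mem h1 h2
    rwa [sub_add_cancel] at this

theorem frob_actP {v : Pl F} {P : Pl L} {σ : Gal(L/F)} (h : FrobAt v P σ) : actP σ P = P := by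
  apply HeightOneSpectrum.ext
  ext x
  rw [mem_actP, ← frob_mem h, smul_inv_smul]

theorem frob_conj {v : Pl F} {P : Pl L} {σ : Gal(L/F)} (h : FrobAt v P σ) (τ : Gal(L/F)) :
    FrobAt v (actP τ P) (τ * σ * τ⁻¹) := by
  refine ⟨?_, fun x => ?_⟩
  · rw [lies_iff, below_actP, ← lies_iff]
    exact h.1
  · rw [mem_actP, smul_sub, smul_pow', smul_smul, ← mul_assoc, ← mul_assoc, inv_mul_cancel, one_mul,
      mul_smul]
    exact h.2 (τ⁻¹ • x)

end GalFinAux

open GalFinAux

theorem exists_frobAt [IsGalois F L] (v : Pl F) : ∃ (P : Pl L) (σ : Gal(L/F)), FrobAt v P σ := by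
  obtain ⟨P, hP⟩ := exists_above (L := L) v
  obtain ⟨σ, hσ⟩ := exists_frob_above hP
  exact ⟨P, σ, hσ⟩

theorem frobAt_conj [IsGalois F L] {v : Pl F} (hv : UnramAt L v) {P P' : Pl L}
    {σ σ' : Gal(L/F)} (h : FrobAt v P σ) (h' : FrobAt v P' σ') :
    ∃ τ : Gal(L/F), σ' = τ * σ * τ⁻¹ := by
  obtain ⟨τ, rfl⟩ := exists_actP ((lies_iff.1 h.1).trans (lies_iff.1 h'.1).symm)
  refine ⟨τ, ?_⟩
  have h2 := frob_conj h τ
  have h3 : σ'⁻¹ * (τ * σ * τ⁻¹) = 1 := by
    apply hv (actP τ P) h'.1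
    intro x
    rw [← frob_mem h', smul_sub, mul_smul, smul_inv_smul]
    have h4 := (actP τ P).asIdeal.sub_mem (h2.2 x) (h'.2 x)
    rwa [sub_sub_sub_cancel_right] at h4
  exact (inv_mul_eq_one.1 h3)

namespace GalFinAux

open scoped Pointwise

theorem card_le_of_pow_eq (R : Type*) [CommRing R] [IsDomain R] [Finite R] (q : ℕ) (hq : 1 < q)
    (hpow : ∀ a : R, a ^ q = a) : Nat.card R ≤ q := by
  classical
  have := Fintype.ofFinite R
  let p : Polynomial R := Polynomial.X ^ q - Polynomial.X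
  have hdeg : p.natDegree = q := by
    rw [Polynomial.natDegree_sub_eq_left_of_natDegree_lt, Polynomial.natDegree_X_pow]
    rw [Polynomial.natDegree_X, Polynomial.natDegree_X_pow]
    exact hq
  have hp0 : p ≠ 0 := by
    intro h
    rw [h, Polynomial.natDegree_zero] at hdeg
    omega
  rw [Nat.card_eq_fintype_card, ← hdeg, ← Finset.card_univ]
  apply Polynomial.card_le_degree_of_subset_roots (p := p) (Z := Finset.univ)
  intro a _
  rw [Polynomial.mem_roots hp0]
  simp [p, hpow]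

theorem absNorm_eq_card {K : Type} [Field K] [NumberField K] (w : Pl K) :
    Ideal.absNorm w.asIdeal = Nat.card (𝓞 K ⧸ w.asIdeal) := by
  rw [Ideal.absNorm_apply, Submodule.cardQuot_apply]

section tower

variable {K : Type} [Field K] [NumberField K] [Algebra F K]

theorem finite_quot (w : Pl K) : Finite (𝓞 K ⧸ w.asIdeal) :=
  Ideal.finiteQuotientOfFreeOfNeBot w.asIdeal w.ne_bot

/-- The map between the residue fields. -/
def resMap {v : Pl F} {w : Pl K} (h : Lies w v) : (𝓞 F ⧸ v.asIdeal) →+* (𝓞 K ⧸ w.asIdeal) :=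
  Ideal.quotientMap w.asIdeal (algebraMap (𝓞 F) (𝓞 K)) h.ge

theorem resMap_injective {v : Pl F} {w : Pl K} (h : Lies w v) :
    Function.Injective (resMap h) :=
  Ideal.quotientMap_injective' h.le

theorem absNorm_le {v : Pl F} {w : Pl K} (h : Lies w v) :
    Ideal.absNorm v.asIdeal ≤ Ideal.absNorm w.asIdeal := by
  have := finite_quot w
  rw [absNorm_eq_card, absNorm_eq_card]
  exact Nat.card_le_card_of_injective _ (resMap_injective h)

theorem resMap_surjective {v : Pl F} {w : Pl K} (h : Lies w v)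
    (hN : Ideal.absNorm w.asIdeal = Ideal.absNorm v.asIdeal) :
    Function.Surjective (resMap h) := by
  have := finite_quot w
  have := finite_quot v
  rw [absNorm_eq_card, absNorm_eq_card] at hN
  exact ((Nat.bijective_iff_injective_and_card _).2 ⟨resMap_injective h, hN.symm⟩).2

theorem two_le_N (v : Pl F) : 1 < Ideal.absNorm v.asIdeal :=
  Pool.Agent.CG3.GalAux.two_le_absNorm F v

variable [Algebra K L] [IsScalarTower F K L]

theorem below_below (Q : Pl L) : below F (below K Q) = below F Q := by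
  apply HeightOneSpectrum.ext
  ext x
  change algebraMap (𝓞 K) (𝓞 L) (algebraMap (𝓞 F) (𝓞 K) x) ∈ Q.asIdeal ↔
    algebraMap (𝓞 F) (𝓞 L) x ∈ Q.asIdeal
  rw [← IsScalarTower.algebraMap_apply]

/-- If the Frobenius element acts trivially on `K`, the place of `K` has degree one. -/
theorem absNorm_eq_of_frob {v : Pl F} {Q : Pl L} {τ : Gal(L/F)} (h : FrobAt v Q τ)
    (hτ : ∀ y : 𝓞 K, τ • algebraMap (𝓞 K) (𝓞 L) y = algebraMap (𝓞 K) (𝓞 L) y) :
    Ideal.absNorm (below K Q).asIdeal = Ideal.absNorm v.asIdeal := by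
  have hl : Lies (below K Q) v := by
    rw [lies_iff, below_below, ← lies_iff]
    exact h.1
  refine le_antisymm ?_ (absNorm_le hl)
  have := finite_quot (below K Q)
  have := (below K Q).isPrime
  rw [absNorm_eq_card (below K Q)]
  refine card_le_of_pow_eq _ _ (two_le_N v) ?_
  intro a
  obtain ⟨y, rfl⟩ := Ideal.Quotient.mk_surjective a
  rw [← map_pow, Ideal.Quotient.eq]
  have h1 := h.2 (algebraMap (𝓞 K) (𝓞 L) y)
  rw [hτ, ← map_pow, ← map_sub] at h1
  have h2 : y - y ^ (Ideal.absNorm v.asIdeal) ∈ (below K Q).asIdeal := h1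
  have := (below K Q).asIdeal.neg_mem h2
  rwa [neg_sub] at this

/-- The decomposition group of a place whose place of `K` has degree one fixes `K`. -/
theorem decomp_mem [IsGalois F L] [IsGalois K L] {v : Pl F} (hv : UnramAt L v) {Q : Pl L}
    (hQ : Lies Q v) (hN : Ideal.absNorm (below K Q).asIdeal = Ideal.absNorm v.asIdeal)
    (g : Gal(L/F)) (hg : actP g Q = Q) : ∃ c : Gal(L/K), g = c.restrictScalars F := by
  have hG : IsGaloisGroup Gal(L/F) (𝓞 F) (𝓞 L) :=
    IsGaloisGroup.of_isFractionRing Gal(L/F) (𝓞 F) (𝓞 L) F L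
  have hGK : IsGaloisGroup Gal(L/K) (𝓞 K) (𝓞 L) :=
    IsGaloisGroup.of_isFractionRing Gal(L/K) (𝓞 K) (𝓞 L) K L
  have := hGK.isInvariant
  have := hGK.commutes
  have := hG.commutes
  have := Q.isPrime
  have : Q.asIdeal.LiesOver (below K Q).asIdeal := ⟨rfl⟩
  have hl : Lies (below K Q) v := by
    rw [lies_iff, below_below, ← lies_iff]
    exact hQ
  have hst : g • Q.asIdeal = Q.asIdeal := congrArg (fun w => w.asIdeal) hg
  -- the action on the residue field
  let φ : (𝓞 L ⧸ Q.asIdeal) ≃+* (𝓞 L ⧸ Q.asIdeal) :=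
    Ideal.quotientEquiv Q.asIdeal Q.asIdeal (MulSemiringAction.toRingEquiv Gal(L/F) (𝓞 L) g)
      hst.symm
  have hφ : ∀ y : 𝓞 L, φ (Ideal.Quotient.mk _ y) = Ideal.Quotient.mk _ (g • y) := fun y => rfl
  have hφ' : ∀ r : 𝓞 K ⧸ (below K Q).asIdeal, φ (algebraMap _ _ r) = algebraMap _ _ r := by
    intro r
    obtain ⟨a, ha⟩ := resMap_surjective hl hN r
    obtain ⟨a, rfl⟩ := Ideal.Quotient.mk_surjective a
    have h1 : algebraMap (𝓞 K ⧸ (below K Q).asIdeal) (𝓞 L ⧸ Q.asIdeal) r =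
        Ideal.Quotient.mk _ (algebraMap (𝓞 F) (𝓞 L) a) := by
      rw [← ha, IsScalarTower.algebraMap_apply (𝓞 F) (𝓞 K) (𝓞 L)]
      rfl
    rw [h1, hφ, smul_alg]
  let ψ : (𝓞 L ⧸ Q.asIdeal) ≃ₐ[𝓞 K ⧸ (below K Q).asIdeal] (𝓞 L ⧸ Q.asIdeal) :=
    AlgEquiv.ofRingEquiv (f := φ) hφ'
  obtain ⟨c, hc⟩ := Ideal.Quotient.stabilizerHom_surjective Gal(L/K) (below K Q).asIdeal
    Q.asIdeal ψ
  refine ⟨c.1, ?_⟩
  have h3 : (c.1.restrictScalars F)⁻¹ * g = 1 := by
    apply hv Q hQ
    intro y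
    have h4 : Ideal.Quotient.mk Q.asIdeal (c.1 • y) = Ideal.Quotient.mk Q.asIdeal (g • y) := by
      have h5 := congrArg (fun f => f (Ideal.Quotient.mk Q.asIdeal y)) hc
      exact h5
    rw [Ideal.Quotient.eq] at h4
    have hcm : ∀ z : 𝓞 L, z ∈ Q.asIdeal ↔ c.1 • z ∈ Q.asIdeal := by
      intro z
      have h6 : c.1 • Q.asIdeal = Q.asIdeal := c.2
      constructor
      · intro hz
        have := Ideal.smul_mem_pointwise_smul c.1 _ _ hz
        rwa [h6] at this
      · intro hz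
        have h8 : c.1 • z ∈ c.1 • Q.asIdeal := by rw [h6]; exact hz
        rw [Ideal.mem_pointwise_smul_iff_inv_smul_mem, inv_smul_smul] at h8
        exact h8
    rw [hcm]
    have h7 : c.1 • (((c.1.restrictScalars F)⁻¹ * g) • y - y) = g • y - c.1 • y := by
      rw [smul_sub, mul_smul]
      congr 1
      apply RingOfIntegers.ext
      change c.1 ((c.1.restrictScalars F)⁻¹ ((g • y : 𝓞 L) : L)) = ((g • y : 𝓞 L) : L)
      exact (c.1.restrictScalars F).apply_symm_apply _
    rw [h7]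
    have := Q.asIdeal.neg_mem h4
    rwa [neg_sub] at this
  exact (inv_mul_eq_one.1 h3).symm

end tower

end GalFinAux

/-- The number of the places `w` of the field fixed by `C` with the same norm as `v`, over an
unramified place `v`. -/
theorem count_fixed [IsGalois F L] {v : Pl F} (hv : UnramAt L v) {P : Pl L} {σ : Gal(L/F)}
    (h : FrobAt v P σ) (C : Subgroup Gal(L/F)) :
    Nat.card C * Nat.card {w : Pl (IntermediateField.fixedField C) //
      Lies w v ∧ Ideal.absNorm w.asIdeal = Ideal.absNorm v.asIdeal} =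
      Nat.card {x : Gal(L/F) // x⁻¹ * σ * x ∈ C} := by
  classical
  set K := IntermediateField.fixedField C with hK
  have hfix : K.fixingSubgroup = C := IntermediateField.fixingSubgroup_fixedField C
  have hmem : ∀ c : Gal(L/K), c.restrictScalars F ∈ C := by
    intro c
    rw [← hfix, IntermediateField.mem_fixingSubgroup_iff]
    intro x hx
    exact c.commutes ⟨x, hx⟩
  have hCfix : ∀ c ∈ C, ∀ y : 𝓞 K, c • algebraMap (𝓞 K) (𝓞 L) y = algebraMap (𝓞 K) (𝓞 L) y := by
    intro c hc y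
    apply RingOfIntegers.ext
    rw [← hfix, IntermediateField.mem_fixingSubgroup_iff] at hc
    exact hc _ (y : K).2
  have hbelow : ∀ c ∈ C, ∀ Q : Pl L, below K (actP c Q) = below K Q := by
    intro c hc Q
    apply HeightOneSpectrum.ext
    ext x
    change algebraMap (𝓞 K) (𝓞 L) x ∈ (actP c Q).asIdeal ↔
      algebraMap (𝓞 K) (𝓞 L) x ∈ Q.asIdeal
    rw [mem_actP, hCfix _ (C.inv_mem hc)]
  have hlies : ∀ x : Gal(L/F), Lies (actP x P) v := by
    intro x
    rw [lies_iff, below_actP, ← lies_iff]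
    exact h.1
  have hliesK : ∀ x : Gal(L/F), Lies (below K (actP x P)) v := by
    intro x
    rw [lies_iff, below_below, ← lies_iff]
    exact hlies x
  have hfrob : ∀ x : Gal(L/F), FrobAt v (actP x⁻¹ P) (x⁻¹ * σ * x) := by
    intro x
    have := frob_conj h x⁻¹
    rwa [inv_inv] at this
  -- the condition
  have hcond : ∀ x : Gal(L/F), x⁻¹ * σ * x ∈ C ↔
      Ideal.absNorm (below K (actP x⁻¹ P)).asIdeal = Ideal.absNorm v.asIdeal := by
    intro x
    constructor
    · intro hx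
      exact absNorm_eq_of_frob (hfrob x) (hCfix _ hx)
    · intro hx
      obtain ⟨c, hc⟩ := decomp_mem (K := K) hv (hlies x⁻¹) hx _ (frob_actP (hfrob x))
      rw [hc]
      exact hmem c
  let W := {w : Pl K // Lies w v ∧ Ideal.absNorm w.asIdeal = Ideal.absNorm v.asIdeal}
  let X := {x : Gal(L/F) // x⁻¹ * σ * x ∈ C}
  let Φ : X → W := fun x => ⟨below K (actP x.1⁻¹ P), hliesK _, (hcond x.1).1 x.2⟩
  have hΦ : Function.Surjective Φ := by
    rintro ⟨w, hw, hwN⟩
    obtain ⟨Q, hQ⟩ := exists_above (L := L) w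
    have h1 : below F P = below F Q := by
      rw [lies_iff.1 h.1, ← lies_iff.1 hw, ← lies_iff.1 hQ, below_below]
    obtain ⟨τ, hτ⟩ := exists_actP h1
    have h2 : below K (actP τ⁻¹⁻¹ P) = w := by
      rw [inv_inv, ← hτ]
      exact lies_iff.1 hQ
    refine ⟨⟨τ⁻¹, (hcond _).2 (by rw [h2]; exact hwN)⟩, ?_⟩
    apply Subtype.ext
    exact h2
  have hkey : ∀ x y : X, Φ x = Φ y → x.1⁻¹ * y.1 ∈ C := by
    intro x y hxy
    have h1 : below K (actP x.1⁻¹ P) = below K (actP y.1⁻¹ P) := congrArg Subtype.val hxy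
    obtain ⟨c, hc⟩ := exists_actP h1
    have hcC := hmem c
    set c' : Gal(L/F) := c.restrictScalars F with hc'
    have h2 : actP y.1⁻¹ P = actP c' (actP x.1⁻¹ P) := hc
    have h3 : actP (c'⁻¹ * (y.1⁻¹ * x.1)) (actP x.1⁻¹ P) = actP x.1⁻¹ P := by
      rw [actP_mul, ← actP_mul (y.1⁻¹ * x.1), mul_assoc, mul_inv_cancel, mul_one, h2, ← actP_mul,
        inv_mul_cancel, actP_one]
    obtain ⟨d, hd⟩ := decomp_mem (K := K) hv (hlies x.1⁻¹) ((hcond x.1).1 x.2) _ h3
    have h4 : c'⁻¹ * (y.1⁻¹ * x.1) ∈ C := by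
      rw [hd]
      exact hmem d
    have h5 : y.1⁻¹ * x.1 ∈ C := by
      have := C.mul_mem hcC h4
      rwa [mul_inv_cancel_left] at this
    have := C.inv_mem h5
    rwa [mul_inv_rev, inv_inv] at this
  have hkey2 : ∀ (x : X) (c : C), ∃ y : X, y.1 = x.1 * c.1 ∧ Φ y = Φ x := by
    intro x c
    have h1 : (x.1 * c.1)⁻¹ * σ * (x.1 * c.1) ∈ C := by
      have : (x.1 * c.1)⁻¹ * σ * (x.1 * c.1) = (c.1)⁻¹ * (x.1⁻¹ * σ * x.1) * c.1 := by
        group
      rw [this]
      exact C.mul_mem (C.mul_mem (C.inv_mem c.2) x.2) c.2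
    refine ⟨⟨_, h1⟩, rfl, ?_⟩
    apply Subtype.ext
    change below K (actP (x.1 * c.1)⁻¹ P) = below K (actP x.1⁻¹ P)
    rw [mul_inv_rev, actP_mul]
    exact hbelow _ (C.inv_mem c.2) _
  choose base hbase using hΦ
  let e : X ≃ C × W :=
    { toFun := fun x => ⟨⟨(base (Φ x)).1⁻¹ * x.1, hkey _ _ (hbase _)⟩, Φ x⟩
      invFun := fun y => (hkey2 (base y.2) y.1).choose
      left_inv := fun x => by
        apply Subtype.ext
        rw [(hkey2 _ _).choose_spec.1]
        exact mul_inv_cancel_left _ _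
      right_inv := fun y => by
        have h1 := (hkey2 (base y.2) y.1).choose_spec
        have h2 : Φ (hkey2 (base y.2) y.1).choose = y.2 := h1.2.trans (hbase _)
        refine Prod.ext ?_ h2
        apply Subtype.ext
        change (base (Φ (hkey2 (base y.2) y.1).choose)).1⁻¹ * (hkey2 (base y.2) y.1).choose.1 = y.1.1
        rw [h2, h1.1, inv_mul_cancel_left] }
  rw [Nat.card_congr e, Nat.card_prod]

end Pool.Agent.CG2
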