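import Pool.Agent.CG2.CellLoc
import Pool.Agent.CG3.SelR

/-!
# The vanishing theorem for equivariant systems of cells
-/

noncomputable section

namespace Pool.Agent.CG2

open Pool.Agent.CG3 CategoryTheory

variable {k Γ B E Y W : Type} [CommRing k] [Group Γ] [MulAction Γ B] [MulAction Γ E]
  [DecidableEq E] [MulAction Γ Y] [AddCommGroup W] [Module k W]

variable (C : CellSys Γ B E) {pr : Y → B} {M : Submodule k (Y → W)}

theorem En_stab (hM : IsCoef (Γ := Γ) pr M) (j : ℕ) (γ : Γ) :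
    ∀ φ ∈ C.En pr M j, (fun y : Y × (Fin j → E) => φ (γ⁻¹ • y)) ∈ C.En pr M j := by
  rintro φ ⟨h1, h2⟩
  refine ⟨fun y => ?_, fun t => ?_⟩
  · have h3 := Sel.altc_comp' (C.X (pr (γ⁻¹ • y))).cell (MulAction.toPerm γ) (h1 (γ⁻¹ • y))
    rw [← CellTop_cell_smul, hM.pr_eqv, smul_inv_smul] at h3
    exact h3
  · exact hM.stab γ _ (h2 (γ⁻¹ • t))

/-- The representation on `En`. -/
abbrev CellSys.RE (hM : IsCoef (Γ := Γ) pr M) (j : ℕ) : Rep.{0} k Γ :=
  Rep.of (Sel.fRep (C.En pr M j) (En_stab C hM j))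

/-- The elements of `En` with vanishing differential. -/
def CellSys.Zn (pr : Y → B) (M : Submodule k (Y → W)) (j : ℕ) :
    Submodule k (Y × (Fin (j + 1) → E) → W) where
  carrier := {φ | φ ∈ C.En pr M (j + 1) ∧ ∀ (y : Y) (t : Fin j → E),
    Sel.dc (C.X (pr y)).cell (fun t => φ (y, t)) t = 0}
  add_mem' := by
    rintro a b ⟨ha, ha'⟩ ⟨hb, hb'⟩
    refine ⟨(C.En pr M (j + 1)).add_mem ha hb, fun y t => ?_⟩
    have h1 := CellTop_dc_add C (pr y) (fun t => a (y, t)) (fun t => b (y, t)) t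
    rw [ha', hb', add_zero] at h1
    exact h1
  zero_mem' := by
    refine ⟨(C.En pr M (j + 1)).zero_mem, fun y t => ?_⟩
    have := Sel.dc_map (C.X (pr y)).cell (fun t : Fin (j + 1) → E => (0 : W)) (0 : W →+ W) t
    simpa using this
  smul_mem' := by
    rintro c a ⟨ha, ha'⟩
    refine ⟨(C.En pr M (j + 1)).smul_mem c ha, fun y t => ?_⟩
    have := Sel.dc_map (C.X (pr y)).cell (fun t => a (y, t)) (DistribSMul.toAddMonoidHom W c) t
    rw [ha', map_zero] at this
    exact this

theorem CellVan_dc_inv (hM : IsCoef (Γ := Γ) pr M) (γ : Γ) {m : ℕ}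
    (φ : Y × (Fin (m + 1) → E) → W) (y : Y) (t : Fin m → E) :
    Sel.dc (C.X (pr y)).cell (fun t => φ (γ⁻¹ • (y, t))) t =
      Sel.dc (C.X (pr (γ⁻¹ • y))).cell (fun t => φ (γ⁻¹ • y, t)) (γ⁻¹ • t) := by
  rw [hM.pr_eqv, CellTop_dc_smul]
  rfl

theorem Zn_stab (hM : IsCoef (Γ := Γ) pr M) (j : ℕ) (γ : Γ) :
    ∀ φ ∈ C.Zn pr M j, (fun y : Y × (Fin (j + 1) → E) => φ (γ⁻¹ • y)) ∈ C.Zn pr M j := by
  rintro φ ⟨h1, h2⟩
  refine ⟨En_stab C hM (j + 1) γ φ h1, fun y t => ?_⟩
  rw [CellVan_dc_inv C hM, h2]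

/-- The representation on `Zn`. -/
abbrev CellSys.RZ (hM : IsCoef (Γ := Γ) pr M) (j : ℕ) : Rep.{0} k Γ :=
  Rep.of (Sel.fRep (C.Zn pr M j) (Zn_stab C hM j))

/-! ### Acyclicity -/

theorem CellVan_sec : ∃ s : B × Finset E → Γ, ∀ (γ : Γ) (b : B) (R : Finset E),
    (C.X b).cell R → s (γ • b, Sel.mp (MulAction.toPerm γ) R) = γ * s (b, R) := by
  let act : MulAction Γ (B × Finset E) :=
    { smul := fun γ q => (γ • q.1, Sel.mp (MulAction.toPerm γ) q.2)
      one_smul := by
        rintro ⟨b, R⟩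
        refine Prod.ext (one_smul Γ b) ?_
        change Sel.mp (MulAction.toPerm (1 : Γ)) R = R
        ext x
        rw [Sel.mem_mp]
        change (1 : Γ)⁻¹ • x ∈ R ↔ _
        rw [inv_one, one_smul]
      mul_smul := by
        rintro γ δ ⟨b, R⟩
        refine Prod.ext (mul_smul γ δ b) ?_
        change Sel.mp (MulAction.toPerm (γ * δ)) R =
          Sel.mp (MulAction.toPerm γ) (Sel.mp (MulAction.toPerm δ) R)
        ext x
        rw [Sel.mem_mp, Sel.mem_mp, Sel.mem_mp]
        change (γ * δ)⁻¹ • x ∈ R ↔ δ⁻¹ • γ⁻¹ • x ∈ R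
        rw [mul_inv_rev, mul_smul] }
  obtain ⟨s, hs⟩ := @Sel.exists_sec Γ (B × Finset E) _ act {q | (C.X q.1).cell q.2}
    (fun γ q hq => (C.eqv γ q.1 q.2).2 hq)
    (fun γ q hq h => C.free γ q.1 q.2 hq (congrArg Prod.fst h) (congrArg Prod.snd h))
  exact ⟨s, fun γ b R h => hs γ (b, R) h⟩

omit [MulAction Γ B] [MulAction Γ Y] in
theorem CellVan_im_smul (γ : Γ) {m : ℕ} (t : Fin m → E) :
    Sel.im (γ • t) = Sel.mp (MulAction.toPerm γ) (Sel.im t) :=
  Sel.im_comp (MulAction.toPerm γ) t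

theorem RE_acyc (hM : IsCoef (Γ := Γ) pr M) (j n : ℕ) :
    Subsingleton (groupCohomology (C.RE hM j) (n + 1)) := by
  obtain ⟨s, hs⟩ := CellVan_sec C
  refine Sel.acyc (C.En pr M j) _ {y | Sel.ctc (C.X (pr y.1)).cell y.2} ?_
    (fun y => s (pr y.1, Sel.im y.2)) ?_ ?_ n
  · intro φ hφ y hy
    by_contra h
    exact hy ((hφ.1 y.1).1 y.2 h)
  · intro γ y hy
    change s (pr (γ • y.1), Sel.im (γ • y.2)) = γ * s (pr y.1, Sel.im y.2)
    rw [hM.pr_eqv, CellVan_im_smul]
    exact hs γ _ _ hy.2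
  · intro F hF
    refine ⟨fun y => ⟨fun t ht => ?_, fun t π => ?_⟩, fun t => ?_⟩
    · exact ((hF _).1 y).1 t ht
    · simp only [Sel.im_perm]
      exact ((hF _).1 y).2 t π
    · apply CellTop_loc hM
      intro b
      refine ⟨_, (hF (s (b, Sel.im t))).2 t, ?_⟩
      intro y hy
      change F (s (pr y, Sel.im t)) (y, t) = _
      rw [hy]

/-! ### The differentials -/

/-- The differential `En (j + 1) → En j`. -/
def CellTop_dE (hM : IsCoef (Γ := Γ) pr M) (j : ℕ) : C.RE hM (j + 1) ⟶ C.RE hM j :=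
  Rep.ofHom
    { toLinearMap :=
        { toFun := fun φ => ⟨fun y => Sel.dc (C.X (pr y.1)).cell (fun t => φ.1 (y.1, t)) y.2,
            fun y => CellTop_dc_altc C (pr y) (φ.2.1 y), fun t => CellTop_dn_mem C hM φ.2.2 t⟩
          map_add' := fun φ ψ => by
            apply Subtype.ext
            funext y
            exact CellTop_dc_add C (pr y.1) (fun t => φ.1 (y.1, t)) (fun t => ψ.1 (y.1, t)) y.2
          map_smul' := fun c φ => by
            apply Subtype.ext
            funext y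
            exact Sel.dc_map (C.X (pr y.1)).cell (fun t => φ.1 (y.1, t))
              (DistribSMul.toAddMonoidHom W c) y.2 }
      isIntertwining' := by
        intro γ
        apply LinearMap.ext
        intro φ
        apply Subtype.ext
        funext y
        change Sel.dc (C.X (pr y.1)).cell (fun t => φ.1 (γ⁻¹ • y.1, γ⁻¹ • t)) y.2 =
          Sel.dc (C.X (pr (γ⁻¹ • y.1))).cell (fun t => φ.1 (γ⁻¹ • y.1, t)) (γ⁻¹ • y.2)
        rw [hM.pr_eqv, CellTop_dc_smul] }

theorem CellTop_dE_apply (hM : IsCoef (Γ := Γ) pr M) (j : ℕ) (φ : C.En pr M (j + 1)) (y : Y)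
    (t : Fin j → E) :
    (((CellTop_dE C hM j).hom φ : C.En pr M j) : Y × (Fin j → E) → W) (y, t) =
      Sel.dc (C.X (pr y)).cell (fun t => φ.1 (y, t)) t := rfl

theorem CellTop_dE_surj (hM : IsCoef (Γ := Γ) pr M) :
    Function.Surjective (CellTop_dE C hM 0).hom := by
  classical
  intro φ
  obtain ⟨f, hf1, hf2⟩ : C.En pr M 0 := φ
  set s : B → E := fun b => (C.X b).s ((C.X b).top ∅) with hs
  have him0 : ∀ t : Fin 0 → E, Sel.im t = ∅ := fun t => by rw [Sel.im]; simp
  have hkey : ∀ b, (C.X b).cell ∅ → (C.X b).cell (insert (s b) ∅) ∧ s b ∉ (∅ : Finset E) := by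
    intro b hb
    have h1 : (C.X b).top ∅ ≠ (C.X b).base := by
      intro h
      have h2 := ((C.X b).top_base ∅ hb).1 h
      have h3 := C.base_card b
      rw [← h2] at h3
      simp at h3
    exact ⟨((C.X b).ins ∅ hb h1 (by simp)).1, by simp⟩
  let ψ : Y × (Fin 1 → E) → W := fun y => if y.2 0 = s (pr y.1) then f (y.1, Fin.elim0) else 0
  have hψ : ψ ∈ C.En pr M 1 := by
    refine ⟨fun y => ⟨fun t ht => ?_, fun t π => ?_⟩, fun t => ?_⟩
    · have h1 : t 0 = s (pr y) := by
        by_contra h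
        exact ht (if_neg h)
      have h2 : f (y, Fin.elim0) ≠ 0 := by
        intro h
        apply ht
        change (if t 0 = s (pr y) then f (y, Fin.elim0) else 0) = 0
        rw [h, ite_self]
      have h3 := (hf1 y).1 _ h2
      have h4 := h3.2
      rw [him0] at h4
      refine ⟨Function.injective_of_subsingleton t, ?_⟩
      have h5 : Sel.im t = insert (s (pr y)) ∅ := by
        ext x
        rw [Sel.mem_im]
        constructor
        · rintro ⟨i, rfl⟩
          rw [Subsingleton.elim i 0, h1]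
          simp
        · intro hx
          rw [Finset.mem_insert] at hx
          rcases hx with hx | hx
          · exact ⟨0, by rw [h1, hx]⟩
          · simp at hx
      rw [h5]
      exact (hkey _ h4).1
    · have h1 : π = 1 := Subsingleton.elim _ _
      subst h1
      simp
    · apply CellTop_loc hM
      intro b
      by_cases hb : t 0 = s b
      · refine ⟨_, hf2 Fin.elim0, ?_⟩
        intro y hy
        change (if t 0 = s (pr y) then f (y, Fin.elim0) else 0) = _
        rw [hy, if_pos hb]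
      · refine ⟨0, M.zero_mem, ?_⟩
        intro y hy
        change (if t 0 = s (pr y) then f (y, Fin.elim0) else 0) = _
        rw [hy, if_neg hb]
        rfl
  refine ⟨(⟨ψ, hψ⟩ : C.En pr M 1), ?_⟩
  apply Subtype.ext
  funext y
  obtain ⟨y, t⟩ := y
  change Sel.dc (C.X (pr y)).cell (fun t => ψ (y, t)) t = f (y, t)
  have ht : t = Fin.elim0 := Subsingleton.elim _ _
  subst ht
  by_cases hc : Sel.ctc (C.X (pr y)).cell (Fin.elim0 : Fin 0 → E)
  · have h4 := hc.2
    rw [him0] at h4
    rw [Sel.dc, if_pos hc, Finset.sum_eq_single (s (pr y))]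
    · change (if s (pr y) = s (pr y) then f (y, Fin.elim0) else 0) = _
      rw [if_pos rfl]
    · intro ρ _ hρ
      change (if ρ = s (pr y) then f (y, Fin.elim0) else 0) = _
      rw [if_neg hρ]
    · intro h
      exfalso
      apply h
      rw [him0, (C.X (pr y)).mem_nb h4]
      exact ⟨(hkey _ h4).2, (hkey _ h4).1⟩
  · rw [Sel.dc, if_neg hc]
    by_contra h
    exact hc ((hf1 y).1 _ (Ne.symm h))

theorem CellVan_dc_dc (b : B) {m : ℕ} {φ : (Fin (m + 2) → E) → W}
    (h : Sel.Altc (C.X b).cell φ) (t : Fin m → E) :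
    Sel.dc (C.X b).cell (Sel.dc (C.X b).cell φ) t = 0 :=
  congrFun (Sel.Cx.d_d (X := C.X b) h) t

/-- The differential `En (j + 2) → Zn j`. -/
def CellSys.Dn (hM : IsCoef (Γ := Γ) pr M) (j : ℕ) : C.RE hM (j + 2) ⟶ C.RZ hM j :=
  Rep.ofHom
    { toLinearMap :=
        { toFun := fun φ => ⟨fun y => Sel.dc (C.X (pr y.1)).cell (fun t => φ.1 (y.1, t)) y.2,
            ⟨fun y => CellTop_dc_altc C (pr y) (φ.2.1 y), fun t => CellTop_dn_mem C hM φ.2.2 t⟩,
            fun y t => CellVan_dc_dc C (pr y) (φ.2.1 y) t⟩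
          map_add' := fun φ ψ => by
            apply Subtype.ext
            funext y
            exact CellTop_dc_add C (pr y.1) (fun t => φ.1 (y.1, t)) (fun t => ψ.1 (y.1, t)) y.2
          map_smul' := fun c φ => by
            apply Subtype.ext
            funext y
            exact Sel.dc_map (C.X (pr y.1)).cell (fun t => φ.1 (y.1, t))
              (DistribSMul.toAddMonoidHom W c) y.2 }
      isIntertwining' := by
        intro γ
        apply LinearMap.ext
        intro φ
        apply Subtype.ext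
        funext y
        exact CellVan_dc_inv C hM γ (φ : C.En pr M (j + 2)).1 y.1 y.2 }

theorem Dn_apply (hM : IsCoef (Γ := Γ) pr M) (j : ℕ) (φ : C.En pr M (j + 2)) (y : Y)
    (t : Fin (j + 1) → E) :
    (((C.Dn hM j).hom φ : C.Zn pr M j) : Y × (Fin (j + 1) → E) → W) (y, t) =
      Sel.dc (C.X (pr y)).cell (fun t => φ.1 (y, t)) t := rfl

/-- Evaluation at a point. -/
def CellVan_ev (M : Submodule k (Y → W)) (y : Y) : M →+ W where
  toFun f := f.1 y
  map_zero' := rfl
  map_add' _ _ := rfl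

theorem Dn_surj (hM : IsCoef (Γ := Γ) pr M) (j : ℕ) (hj : j < C.n0) :
    Function.Surjective (C.Dn hM j).hom := by
  classical
  intro φ
  obtain ⟨f, ⟨hf1, hf2⟩, hf3⟩ : C.Zn pr M j := φ
  let Φ : B → (Fin (j + 1) → E) → M := fun b t =>
    ⟨res pr b fun y => f (y, t), (hM.loc _).1 (hf2 t) b⟩
  have hΦ : ∀ b t y, (Φ b t).1 y = if pr y = b then f (y, t) else 0 := fun b t y => rfl
  have ha : ∀ b, Sel.Altc (C.X b).cell (Φ b) := by
    intro b
    refine ⟨fun t ht => ?_, fun t π => ?_⟩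
    · by_contra hc
      apply ht
      apply Subtype.ext
      funext y
      rw [hΦ]
      split_ifs with hy
      · by_contra h1
        have h2 := (hf1 y).1 t h1
        rw [hy] at h2
        exact hc h2
      · rfl
    · apply Subtype.ext
      funext y
      change (Φ b (t ∘ π)).1 y = (Equiv.Perm.sign π : ℤ) • (Φ b t).1 y
      rw [hΦ, hΦ]
      split_ifs with hy
      · exact (hf1 y).2 t π
      · rw [smul_zero]
  have hd : ∀ b, (C.X b).d (Φ b) = 0 := by
    intro b
    funext t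
    apply Subtype.ext
    funext y
    have h1 := Sel.dc_map (C.X b).cell (Φ b) (CellVan_ev M y) t
    change CellVan_ev M y (Sel.dc (C.X b).cell (Φ b) t) = 0
    rw [← h1]
    by_cases hy : pr y = b
    · have h2 : (fun t => CellVan_ev M y (Φ b t)) = fun t => f (y, t) := by
        funext t
        change (Φ b t).1 y = _
        rw [hΦ, if_pos hy]
      rw [h2, ← hy]
      exact hf3 y t
    · have h2 : (fun t => CellVan_ev M y (Φ b t)) = fun t => (0 : W →+ W) ((fun _ => 0) t) := by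
        funext t
        change (Φ b t).1 y = _
        rw [hΦ, if_neg hy]
        rfl
      rw [h2, Sel.dc_map]
      rfl
  have hb : ∀ b, (C.X b).base.card ≠ j + 1 := by
    intro b
    rw [C.base_card]
    omega
  choose ψ h1 h2 h3 using fun b => Sel.Cx.exact (X := C.X b) (ha b) (hd b) (hb b)
  have hmem : (fun y : Y × (Fin (j + 2) → E) => (ψ (pr y.1) y.2).1 y.1) ∈ C.En pr M (j + 2) := by
    refine ⟨fun y => Sel.Altc.map (h1 (pr y)) (CellVan_ev M y), fun t => ?_⟩
    apply CellTop_loc hM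
    intro b
    refine ⟨(ψ b t).1, (ψ b t).2, ?_⟩
    intro y hy
    change (ψ (pr y) t).1 y = _
    rw [hy]
  refine ⟨(⟨_, hmem⟩ : C.En pr M (j + 2)), ?_⟩
  apply Subtype.ext
  funext y
  obtain ⟨y, t⟩ := y
  refine (Dn_apply C hM j _ y t).trans ?_
  have h4 := Sel.dc_map (C.X (pr y)).cell (ψ (pr y)) (CellVan_ev M y) t
  refine h4.trans ?_
  have h5 := congrFun (h3 (pr y)) t
  change Sel.dc (C.X (pr y)).cell (ψ (pr y)) t = _ at h5
  rw [h5]
  change (Φ (pr y) t).1 y = _
  rw [hΦ, if_pos rfl]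

/-- The inclusion `Zn j → En (j + 1)`. -/
def CellSys.In (hM : IsCoef (Γ := Γ) pr M) (j : ℕ) : C.RZ hM j ⟶ C.RE hM (j + 1) :=
  Rep.ofHom
    { toLinearMap :=
        { toFun := fun φ => ⟨φ.1, φ.2.1⟩
          map_add' := fun _ _ => rfl
          map_smul' := fun _ _ => rfl }
      isIntertwining' := by
        intro γ
        apply LinearMap.ext
        intro φ
        apply Subtype.ext
        rfl }

theorem In_apply (hM : IsCoef (Γ := Γ) pr M) (j : ℕ) (φ : C.Zn pr M j) :
    (((C.In hM j).hom φ : C.En pr M (j + 1)) : Y × (Fin (j + 1) → E) → W) = φ.1 := rfl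

/-! ### The augmentation -/

omit [MulAction Γ Y] in
theorem CellVan_o_altc (b : B) (w : W) :
    Sel.Altc (C.X b).cell fun t => C.o b t • w := by
  have h1 := Sel.Altc.map (C.o_alt b) (zmultiplesHom W w)
  exact h1

omit [MulAction Γ Y] in
theorem CellVan_o_cl (b : B) (w : W) (t : Fin C.n0 → E) :
    Sel.dc (C.X b).cell (fun t => C.o b t • w) t = 0 := by
  have h1 := Sel.dc_map (C.X b).cell (C.o b) (zmultiplesHom W w) t
  rw [C.o_cl, map_zero] at h1
  exact h1

/-- The augmentation `M → Zn n0`, which is an isomorphism. -/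
def CellSys.Au (hM : IsCoef (Γ := Γ) pr M) : hM.rep ⟶ C.RZ hM C.n0 :=
  Rep.ofHom
    { toLinearMap :=
        { toFun := fun f => ⟨fun y => C.o (pr y.1) y.2 • f.1 y.1,
            ⟨fun y => CellVan_o_altc C (pr y) (f.1 y), fun t => by
              apply CellTop_loc hM
              intro b
              refine ⟨C.o b t • f.1, zsmul_mem f.2 _, ?_⟩
              intro y hy
              change C.o (pr y) t • f.1 y = _
              rw [hy]
              rfl⟩,
            fun y t => CellVan_o_cl C (pr y) (f.1 y) t⟩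
          map_add' := fun f g => by
            apply Subtype.ext
            funext y
            exact smul_add (C.o (pr y.1) y.2) (f.1 y.1) (g.1 y.1)
          map_smul' := fun c f => by
            apply Subtype.ext
            funext y
            exact (smul_comm c (C.o (pr y.1) y.2) (f.1 y.1)).symm }
      isIntertwining' := by
        intro γ
        apply LinearMap.ext
        intro f
        apply Subtype.ext
        funext y
        change C.o (pr y.1) y.2 • (f : M).1 (γ⁻¹ • y.1) =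
          C.o (pr (γ⁻¹ • y.1)) (γ⁻¹ • y.2) • (f : M).1 (γ⁻¹ • y.1)
        have h1 := C.o_eqv γ⁻¹ (pr y.1) y.2
        rw [hM.pr_eqv]
        congr 1
        exact h1.symm }

theorem Au_apply (hM : IsCoef (Γ := Γ) pr M) (f : M) (y : Y) (t : Fin (C.n0 + 1) → E) :
    (((C.Au hM).hom f : C.Zn pr M C.n0) : Y × (Fin (C.n0 + 1) → E) → W) (y, t) =
      C.o (pr y) t • f.1 y := rfl

/-- An enumeration of the base cell. -/
theorem CellVan_tb (b : B) : ∃ t : Fin (C.n0 + 1) → E, Function.Injective t ∧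
    Sel.im t = (C.X b).base := by
  refine ⟨fun i => (((C.X b).base.equivFin.trans (finCongr (C.base_card b))).symm i).1, ?_, ?_⟩
  · intro i i' h
    exact (((C.X b).base.equivFin.trans (finCongr (C.base_card b))).symm).injective
      (Subtype.ext h)
  · ext x
    rw [Sel.mem_im]
    constructor
    · rintro ⟨i, rfl⟩
      exact (((C.X b).base.equivFin.trans (finCongr (C.base_card b))).symm i).2
    · intro hx
      refine ⟨((C.X b).base.equivFin.trans (finCongr (C.base_card b))) ⟨x, hx⟩, ?_⟩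
      rw [Equiv.symm_apply_apply]

omit [DecidableEq E] in
theorem CellVan_perm [DecidableEq E] {m : ℕ} {t t' : Fin m → E} (h : Function.Injective t)
    (him : Sel.im t = Sel.im t') : ∃ π : Equiv.Perm (Fin m), t = t' ∘ π := by
  have h1 : ∀ i, ∃ j, t' j = t i := fun i => Sel.mem_im.1 (him ▸ Sel.mem_im.2 ⟨i, rfl⟩)
  choose a ha using h1
  have hainj : Function.Injective a := by
    intro i j hij
    apply h
    rw [← ha, ← ha, hij]
  refine ⟨Equiv.ofBijective a hainj.bijective_of_finite, ?_⟩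
  funext i
  exact (ha i).symm

theorem CellVan_eq_o (b : B) {t₀ : Fin (C.n0 + 1) → E} (ht₀ : Function.Injective t₀)
    (him : Sel.im t₀ = (C.X b).base) {φ : (Fin (C.n0 + 1) → E) → W}
    (hφ : Sel.Altc (C.X b).cell φ) (hd : ∀ t, Sel.dc (C.X b).cell φ t = 0) :
    φ = fun t => C.o b t • C.o b t₀ • φ t₀ := by
  have hct : Sel.ctc (C.X b).cell t₀ := ⟨ht₀, by rw [him]; exact C.base_cell b⟩
  set w := C.o b t₀ • φ t₀ with hw
  have hb := CellVan_o_altc C b w
  have h4 : φ + -(fun t => C.o b t • w) = 0 := by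
    apply Sel.Cx.uniq (X := C.X b) (Sel.Cx.Alt.add (X := C.X b) hφ (Sel.Cx.Alt.neg (X := C.X b) hb))
    · intro t ht
      by_contra hne
      have h5 := (Sel.Cx.Alt.add (X := C.X b) hφ (Sel.Cx.Alt.neg (X := C.X b) hb)).1 t hne
      obtain ⟨π, hπ⟩ := CellVan_perm (t' := t₀) h5.1 (by rw [ht, him])
      apply hne
      have e1 : C.o b (t₀ ∘ π) • w = (Equiv.Perm.sign π : ℤ) • (C.o b t₀ • w) := hb.2 t₀ π
      rw [Pi.add_apply, Pi.neg_apply, hπ, hφ.2]
      change _ + -(C.o b (t₀ ∘ π) • w) = 0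
      rw [e1, hw, smul_smul (C.o b t₀) (C.o b t₀), C.o_unit b t₀ hct, one_smul, add_neg_cancel]
    · intro t ht hbs hs
      exfalso
      have h5 := (C.X b).ins _ ht.2 hbs hs
      have h6 := C.max b _ h5.1
      rw [Finset.card_insert_of_notMem hs, Sel.card_im ht.1] at h6
      omega
    · intro t _ _ _
      rw [Sel.Cx.d_add, Sel.Cx.d_neg, Sel.Cx.d_eq, Sel.Cx.d_eq, Pi.add_apply, Pi.neg_apply, hd,
        CellVan_o_cl, neg_zero, add_zero]
  rw [← sub_eq_add_neg, sub_eq_zero] at h4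
  exact h4

theorem Au_bij (hM : IsCoef (Γ := Γ) pr M) : Function.Bijective (C.Au hM).hom := by
  choose tb h1 h2 using CellVan_tb C
  have hct : ∀ b, Sel.ctc (C.X b).cell (tb b) := fun b =>
    ⟨h1 b, by rw [h2 b]; exact C.base_cell b⟩
  constructor
  · intro f g h
    apply Subtype.ext
    funext y
    have h3 := congrArg (fun a : C.Zn pr M C.n0 => a.1 (y, tb (pr y))) h
    change C.o (pr y) (tb (pr y)) • (f : M).1 y = C.o (pr y) (tb (pr y)) • (g : M).1 y at h3
    have h4 := congrArg (fun w => C.o (pr y) (tb (pr y)) • w) h3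
    simp only [smul_smul] at h4
    rw [C.o_unit _ _ (hct (pr y)), one_smul, one_smul] at h4
    exact h4
  · intro φ
    obtain ⟨f, ⟨hf1, hf2⟩, hf3⟩ : C.Zn pr M C.n0 := φ
    refine ⟨(⟨fun y => C.o (pr y) (tb (pr y)) • f (y, tb (pr y)), ?_⟩ : M), ?_⟩
    · apply CellTop_loc hM
      intro b
      refine ⟨C.o b (tb b) • fun y => f (y, tb b), zsmul_mem (hf2 (tb b)) _, ?_⟩
      intro y hy
      rw [hy]
      rfl
    · apply Subtype.ext
      funext y
      obtain ⟨y, t⟩ := y
      exact (congrFun (CellVan_eq_o C (pr y) (h1 (pr y)) (h2 (pr y)) (hf1 y) (hf3 y)) t).symm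

/-! ### The vanishing theorem -/

theorem CellVan_step (hM : IsCoef (Γ := Γ) pr M) (j n : ℕ) (hj : j < C.n0)
    (h : Subsingleton (groupCohomology (C.RZ hM j) n)) :
    Subsingleton (groupCohomology (C.RZ hM (j + 1)) (n + 1)) := by
  refine Sel.shift (C.In hM (j + 1)) (C.Dn hM j) ?_ ?_ ?_ ?_ n (RE_acyc C hM _ n) h
  · intro φ ψ hφ
    apply Subtype.ext
    exact congrArg (fun a : C.En pr M (j + 2) => a.1) hφ
  · exact Dn_surj C hM j hj
  · intro φ
    apply Subtype.ext
    funext y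
    exact (φ : C.Zn pr M (j + 1)).2.2 y.1 y.2
  · intro φ hφ
    refine ⟨(⟨(φ : C.En pr M (j + 2)).1, (φ : C.En pr M (j + 2)).2, fun y t => ?_⟩ :
      C.Zn pr M (j + 1)), rfl⟩
    exact congrArg (fun a : C.Zn pr M j => a.1 (y, t)) hφ

theorem CellVan_step0 (hM : IsCoef (Γ := Γ) pr M) (n : ℕ)
    (h : Subsingleton (groupCohomology (C.RE hM 0) n)) :
    Subsingleton (groupCohomology (C.RZ hM 0) (n + 1)) := by
  refine Sel.shift (C.In hM 0) (CellTop_dE C hM 0) ?_ ?_ ?_ ?_ n (RE_acyc C hM _ n) h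
  · intro φ ψ hφ
    apply Subtype.ext
    exact congrArg (fun a : C.En pr M 1 => a.1) hφ
  · exact CellTop_dE_surj C hM
  · intro φ
    apply Subtype.ext
    funext y
    exact (φ : C.Zn pr M 0).2.2 y.1 y.2
  · intro φ hφ
    refine ⟨(⟨(φ : C.En pr M 1).1, (φ : C.En pr M 1).2, fun y t => ?_⟩ :
      C.Zn pr M 0), rfl⟩
    exact congrArg (fun a : C.En pr M 0 => a.1 (y, t)) hφ

theorem CellVan_steps (hM : IsCoef (Γ := Γ) pr M) (j n : ℕ)
    (h : Subsingleton (groupCohomology (C.RZ hM j) n)) : ∀ m, j + m ≤ C.n0 →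
    Subsingleton (groupCohomology (C.RZ hM (j + m)) (n + m))
  | 0, _ => h
  | m + 1, hm => CellVan_step C hM (j + m) (n + m) hm (CellVan_steps hM j n h m (by omega))

/-- Without small cells all elements of `En` are closed. -/
theorem CellVan_small (hM : IsCoef (Γ := Γ) pr M) {c : ℕ} (hc : C.Min (c + 1)) (n : ℕ) :
    Subsingleton (groupCohomology (C.RZ hM c) (n + 1)) := by
  have h1 : Mono (C.In hM c) := (Rep.mono_iff_injective _).2 (by
    intro φ ψ hφ
    apply Subtype.ext
    exact congrArg (fun a : C.En pr M (c + 1) => a.1) hφ)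
  have h2 : Epi (C.In hM c) := (Rep.epi_iff_surjective _).2 (by
    intro φ
    refine ⟨(⟨(φ : C.En pr M (c + 1)).1, (φ : C.En pr M (c + 1)).2, fun y t => ?_⟩ :
      C.Zn pr M c), rfl⟩
    rw [Sel.dc, if_neg]
    intro h
    have h1 := hc _ _ h.2
    rw [Sel.card_im h.1] at h1
    omega)
  have h3 : IsIso (C.In hM c) := isIso_of_mono_of_epi _
  have h4 := RE_acyc C hM (c + 1) n
  exact (((groupCohomology.functor k Γ (n + 1)).mapIso
    (asIso (C.In hM c))).toLinearEquiv.toEquiv.subsingleton_congr).2 h4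

theorem CellVan_Au (hM : IsCoef (Γ := Γ) pr M) (i : ℕ)
    (h : Subsingleton (groupCohomology (C.RZ hM C.n0) i)) :
    Subsingleton (groupCohomology hM.rep i) := by
  have h1 : Mono (C.Au hM) := (Rep.mono_iff_injective _).2 (Au_bij C hM).1
  have h2 : Epi (C.Au hM) := (Rep.epi_iff_surjective _).2 (Au_bij C hM).2
  have h3 : IsIso (C.Au hM) := isIso_of_mono_of_epi _
  exact (((groupCohomology.functor k Γ i).mapIso
    (asIso (C.Au hM))).toLinearEquiv.toEquiv.subsingleton_congr).2 h

theorem CellVan_zero {A : Rep.{0} k Γ} (hA : Subsingleton A) (i : ℕ) :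
    Subsingleton (groupCohomology A i) := by
  cases i with
  | zero =>
    exact ((groupCohomology.H0Iso A).toLinearEquiv.toEquiv.subsingleton_congr).2
      (inferInstanceAs (Subsingleton A.ρ.invariants))
  | succ n =>
    apply Sel.van_of
    intro z _
    exact ⟨0, Subsingleton.elim _ _⟩

/-- **B3** -/
theorem CellSys.vanish (hM : IsCoef (Γ := Γ) pr M) {c0 : ℕ} (hc : C.Min c0) (i : ℕ)
    (hi : C.n0 + 1 < c0 + i) : Subsingleton (groupCohomology hM.rep i) := by
  by_cases hB : Nonempty B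
  · obtain ⟨b⟩ := hB
    have h1 := hc b _ (C.base_cell b)
    rw [C.base_card] at h1
    apply CellVan_Au C hM
    cases c0 with
    | zero =>
      obtain ⟨n, rfl⟩ : ∃ n, i = n + 2 + C.n0 := ⟨i - 2 - C.n0, by omega⟩
      have h2 := CellVan_steps C hM 0 (n + 2)
        (CellVan_step0 C hM (n + 1) (RE_acyc C hM 0 n)) C.n0 (by omega)
      rw [zero_add] at h2
      exact h2
    | succ c =>
      obtain ⟨m, hm⟩ : ∃ m, C.n0 = c + m := ⟨C.n0 - c, by omega⟩
      obtain ⟨n, rfl⟩ : ∃ n, i = n + 1 + m := ⟨i - 1 - m, by omega⟩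
      have h2 := CellVan_steps C hM c (n + 1) (CellVan_small C hM hc n) m (by omega)
      rw [← hm] at h2
      exact h2
  · have hY : IsEmpty Y := ⟨fun y => hB ⟨pr y⟩⟩
    apply CellVan_zero
    exact ⟨fun a b => Subtype.ext (Subsingleton.elim (α := Y → W) _ _)⟩

end Pool.Agent.CG2
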