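import Pool.Agent.CG2.CellVan
import Pool.Agent.CG2.CellTower

/-!
# The top degree cohomology in terms of the smallest cells, and finite generation
-/

noncomputable section

namespace Pool.Agent.CG2

open Pool.Agent.CG3 CategoryTheory

variable {k Γ B E Y W : Type} [CommRing k] [Group Γ] [MulAction Γ B] [MulAction Γ E]
  [DecidableEq E] [MulAction Γ Y] [AddCommGroup W] [Module k W]

variable (C : CellSys Γ B E) {pr : Y → B} {M : Submodule k (Y → W)}

/-! ### The tower -/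

/-- The outer terms of the tower. -/
def CellTop_R (hM : IsCoef (Γ := Γ) pr M) : ℕ → Rep.{0} k Γ
  | 0 => C.RE hM 0
  | j + 1 => C.RZ hM j

/-- The projections of the tower. -/
def CellTop_p (hM : IsCoef (Γ := Γ) pr M) : ∀ j, C.RE hM (j + 1) ⟶ CellTop_R C hM j
  | 0 => CellTop_dE C hM 0
  | j + 1 => C.Dn hM j

theorem CellTop_In_dE (hM : IsCoef (Γ := Γ) pr M) (φ : C.Zn pr M 0) :
    (CellTop_dE C hM 0).hom ((C.In hM 0).hom φ) = 0 := by
  apply Subtype.ext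
  funext y
  have h1 := CellTop_dE_apply C hM 0 ((C.In hM 0).hom φ : C.En pr M 1) y.1 y.2
  refine h1.trans ?_
  have h2 := In_apply C hM 0 φ
  rw [h2]
  exact φ.2.2 y.1 y.2

theorem CellTop_In_Dn (hM : IsCoef (Γ := Γ) pr M) (j : ℕ) (φ : C.Zn pr M (j + 1)) :
    (C.Dn hM j).hom ((C.In hM (j + 1)).hom φ) = 0 := by
  apply Subtype.ext
  funext y
  have h1 := Dn_apply C hM j ((C.In hM (j + 1)).hom φ : C.En pr M (j + 2)) y.1 y.2
  refine h1.trans ?_
  have h2 := In_apply C hM (j + 1) φ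
  rw [h2]
  exact φ.2.2 y.1 y.2

theorem CellTop_In_inj (hM : IsCoef (Γ := Γ) pr M) (j : ℕ) :
    Function.Injective (C.In hM j).hom := by
  intro φ ψ h
  apply Subtype.ext
  have h1 := In_apply C hM j φ
  have h2 := In_apply C hM j ψ
  rw [← h1, ← h2]
  exact congrArg (fun a : C.En pr M (j + 1) => a.1) h

theorem CellTop_zero (hM : IsCoef (Γ := Γ) pr M) : ∀ j,
    C.In hM j ≫ CellTop_p C hM j = 0
  | 0 => CellTop_hom_zero _ _ fun φ => CellTop_In_dE C hM φ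
  | j + 1 => CellTop_hom_zero _ _ fun φ => CellTop_In_Dn C hM j φ

theorem CellTop_se (hM : IsCoef (Γ := Γ) pr M) : ∀ j, j < C.n0 + 1 →
    (ShortComplex.mk (C.In hM j) (CellTop_p C hM j) (CellTop_zero C hM j)).ShortExact
  | 0, _ => by
    apply CellTop_ses
    · exact CellTop_In_inj C hM 0
    · exact CellTop_dE_surj C hM
    · intro φ hφ
      have hφ' : ∀ (y : Y) (t : Fin 0 → E),
          Sel.dc (C.X (pr y)).cell (fun t => (φ : C.En pr M 1).1 (y, t)) t = 0 := by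
        intro y t
        rw [← CellTop_dE_apply C hM 0 φ y t]
        exact congrArg (fun a : C.En pr M 0 => a.1 (y, t)) hφ
      refine ⟨(⟨(φ : C.En pr M 1).1, (φ : C.En pr M 1).2, hφ'⟩ : C.Zn pr M 0), ?_⟩
      apply Subtype.ext
      exact In_apply C hM 0 _
  | j + 1, hj => by
    apply CellTop_ses
    · exact CellTop_In_inj C hM (j + 1)
    · exact Dn_surj C hM j (by omega)
    · intro φ hφ
      have hφ' : ∀ (y : Y) (t : Fin (j + 1) → E),
          Sel.dc (C.X (pr y)).cell (fun t => (φ : C.En pr M (j + 2)).1 (y, t)) t = 0 := by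
        intro y t
        rw [← Dn_apply C hM j φ y t]
        exact congrArg (fun a : C.Zn pr M j => a.1 (y, t)) hφ
      refine ⟨(⟨(φ : C.En pr M (j + 2)).1, (φ : C.En pr M (j + 2)).2, hφ'⟩ :
        C.Zn pr M (j + 1)), ?_⟩
      apply Subtype.ext
      exact In_apply C hM (j + 1) _

/-- The tower. -/
def CellTop_tow (hM : IsCoef (Γ := Γ) pr M) : CellTower k Γ (C.n0 + 1) where
  R := CellTop_R C hM
  I := fun j => C.RE hM (j + 1)
  i := fun j => C.In hM j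
  p := CellTop_p C hM
  zero := CellTop_zero C hM
  se := CellTop_se C hM
  acyc := fun j n => RE_acyc C hM (j + 1) n

/-! ### The augmentation -/

/-- The augmentation into the last term of the tower. -/
def CellTop_Au (hM : IsCoef (Γ := Γ) pr M) (m : ℕ) (h : m = C.n0 + 1) :
    hM.rep ⟶ CellTop_R C hM m := C.Au hM ≫ eqToHom (by subst h; rfl)

theorem CellTop_Au_rfl (hM : IsCoef (Γ := Γ) pr M) :
    CellTop_Au C hM (C.n0 + 1) rfl = C.Au hM := Category.comp_id _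

theorem CellTop_Au_iso (hM : IsCoef (Γ := Γ) pr M) (m : ℕ) (h : m = C.n0 + 1) :
    IsIso (CellTop_Au C hM m h) := by
  have h1 : Mono (C.Au hM) := (Rep.mono_iff_injective _).2 (Au_bij C hM).1
  have h2 : Epi (C.Au hM) := (Rep.epi_iff_surjective _).2 (Au_bij C hM).2
  have h3 : IsIso (C.Au hM) := isIso_of_mono_of_epi _
  unfold CellTop_Au
  infer_instance

/-- The isomorphism of the cohomology induced by the augmentation. -/
def CellTop_auE (hM : IsCoef (Γ := Γ) pr M) (m : ℕ) (h : m = C.n0 + 1) (n : ℕ) :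
    groupCohomology hM.rep n ≃ₗ[k] groupCohomology (CellTop_R C hM m) n :=
  let _ := CellTop_Au_iso C hM m h
  (asIso ((groupCohomology.functor k Γ n).map (CellTop_Au C hM m h))).toLinearEquiv

theorem CellTop_auE_apply (hM : IsCoef (Γ := Γ) pr M) (m : ℕ) (h : m = C.n0 + 1) (n : ℕ)
    (a : groupCohomology hM.rep n) : CellTop_auE C hM m h n a =
      ((groupCohomology.functor k Γ n).map (CellTop_Au C hM m h)).hom a := rfl

/-! ### The smallest cells -/

omit [MulAction Γ Y] in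
theorem CellTop_mem_Zn {c : ℕ} (hc : C.Min (c + 1)) {φ : Y × (Fin (c + 1) → E) → W}
    (hφ : φ ∈ C.En pr M (c + 1)) : φ ∈ C.Zn pr M c := by
  refine ⟨hφ, fun y t => ?_⟩
  rw [Sel.dc, if_neg]
  intro h
  have h1 := hc _ _ h.2
  rw [Sel.card_im h.1] at h1
  omega

/-- The invariant functions on the smallest cells are the cohomology in degree zero. -/
def CellTop_z0 (hM : IsCoef (Γ := Γ) pr M) {c : ℕ} (hc : C.Min (c + 1)) :
    C.Inv pr M (c + 1) →ₗ[k] groupCohomology (C.RZ hM c) 0 :=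
  (CellTop_h0 (C.RZ hM c)).symm.toLinearMap ∘ₗ
    { toFun := fun u => ⟨⟨u.1, CellTop_mem_Zn C hc u.2.1⟩,
        (CellTop_inv_iff _ _ _).2 fun γ y => u.2.2 γ y.1 y.2⟩
      map_add' := fun _ _ => rfl
      map_smul' := fun _ _ => rfl }

theorem CellTop_z0_surj (hM : IsCoef (Γ := Γ) pr M) {c : ℕ} (hc : C.Min (c + 1)) :
    Function.Surjective (CellTop_z0 (pr := pr) (M := M) C hM hc) := by
  intro a
  obtain ⟨x, hx⟩ : ∃ x, x = CellTop_h0 (C.RZ hM c) a := ⟨_, rfl⟩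
  refine ⟨⟨(x.1 : C.Zn pr M c).1, (x.1 : C.Zn pr M c).2.1, fun γ y t =>
    (CellTop_inv_iff _ _ _).1 x.2 γ (y, t)⟩, ?_⟩
  refine (LinearEquiv.symm_apply_eq _).2 ?_
  rw [← hx]
  rfl

theorem CellTop_h0_z0 (hM : IsCoef (Γ := Γ) pr M) {c : ℕ} (hc : C.Min (c + 1))
    (u : C.Inv pr M (c + 1)) :
    ((CellTop_h0 (C.RZ hM c) (CellTop_z0 C hM hc u)).1 : C.Zn pr M c).1 = u.1 := by
  rw [CellTop_z0, LinearMap.comp_apply, LinearEquiv.coe_coe, LinearEquiv.apply_symm_apply]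
  rfl

/-- The composite of the connecting homomorphisms on the invariant functions. -/
def CellTop_aux (hM : IsCoef (Γ := Γ) pr M) {c n : ℕ} (hn : c + 1 + n = C.n0 + 1)
    (hc : C.Min (c + 1)) : C.Inv pr M (c + 1) →ₗ[k] groupCohomology hM.rep n :=
  (CellTop_auE C hM (c + 1 + n) hn n).symm.toLinearMap ∘ₗ
    ((CellTop_tow C hM).D (c + 1) n hn.le).hom ∘ₗ CellTop_z0 C hM hc

open Classical in
/-- The map from the invariant functions on the smallest cells to the cohomology in the top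
degree `n`: the composite of the connecting homomorphisms. -/
def CellSys.top (hM : IsCoef (Γ := Γ) pr M) {c0 n : ℕ} (hn : c0 + n = C.n0 + 1) :
    C.Inv pr M c0 →ₗ[k] groupCohomology hM.rep n :=
  match c0, hn with
  | 0, _ => 0
  | c + 1, hn => if hc : C.Min (c + 1) then CellTop_aux C hM (c := c) (n := n) hn hc else 0

theorem CellTop_top_eq (hM : IsCoef (Γ := Γ) pr M) {c n : ℕ} (hn : c + 1 + n = C.n0 + 1)
    (hc : C.Min (c + 1)) : C.top hM hn = CellTop_aux C hM hn hc := by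
  rw [CellSys.top]
  exact dif_pos hc

theorem CellTop_top_neg (hM : IsCoef (Γ := Γ) pr M) {c n : ℕ} (hn : c + 1 + n = C.n0 + 1)
    (hc : ¬ C.Min (c + 1)) : C.top hM hn = 0 := by
  rw [CellSys.top]
  exact dif_neg hc

theorem top_surj (hM : IsCoef (Γ := Γ) pr M) {c0 n : ℕ} (hn : c0 + n = C.n0 + 1) (h0 : 0 < n)
    (hc0 : 0 < c0) (hc : C.Min c0) : Function.Surjective (C.top hM hn) := by
  obtain ⟨c, rfl⟩ := Nat.exists_eq_add_of_lt hc0
  have e : 0 + c + 1 = c + 1 := by omega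
  revert hn hc
  rw [e]
  intro hn hc
  rw [CellTop_top_eq C hM hn hc]
  exact (CellTop_auE C hM (c + 1 + n) hn n).symm.surjective.comp
    (((CellTop_tow C hM).D_surj (c + 1) n hn.le).comp (CellTop_z0_surj C hM hc))

theorem CellTop_ker (hM : IsCoef (Γ := Γ) pr M) {c n : ℕ} (hn : c + 1 + (n + 1) = C.n0 + 1)
    (hc : C.Min (c + 1)) (u : C.Inv pr M (c + 1)) : CellTop_aux C hM hn hc u = 0 ↔
      ∃ w ∈ C.Inv pr M (c + 1 + 1), ∀ y t,
        u.1 (y, t) = Sel.dc (C.X (pr y)).cell (fun t => w (y, t)) t := by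
  have h1 : CellTop_aux C hM hn hc u = 0 ↔
      ((CellTop_tow C hM).D (c + 1) (n + 1) hn.le).hom (CellTop_z0 C hM hc u) = 0 :=
    (CellTop_auE C hM (c + 1 + (n + 1)) hn (n + 1)).symm.map_eq_zero_iff
  refine h1.trans (((CellTop_tow C hM).D_ker (c + 1) n hn.le _).trans ?_)
  constructor
  · rintro ⟨b, hb⟩
    obtain ⟨x, hx⟩ : ∃ x, x = CellTop_h0 (C.RE hM (c + 2)) b := ⟨_, rfl⟩
    refine ⟨(x.1 : C.En pr M (c + 2)).1, ⟨(x.1 : C.En pr M (c + 2)).2, fun γ y t =>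
      (CellTop_inv_iff _ _ _).1 x.2 γ (y, t)⟩, ?_⟩
    intro y t
    have h2 := CellTop_h0_nat (C.Dn hM c) b
    have h3 := CellTop_h0_z0 C hM hc u
    have h4 := Dn_apply C hM c x.1 y t
    rw [← hx] at h2
    rw [← h4, ← h3, ← h2]
    exact congrArg (fun a => ((CellTop_h0 (C.RZ hM c) a).1 : C.Zn pr M c).1 (y, t)) hb.symm
  · rintro ⟨w, hw, hw'⟩
    refine ⟨(CellTop_h0 (C.RE hM (c + 2))).symm ⟨⟨w, hw.1⟩,
      (CellTop_inv_iff _ _ _).2 fun γ y => hw.2 γ y.1 y.2⟩, ?_⟩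
    apply (CellTop_h0 (C.RZ hM c)).injective
    apply Subtype.ext
    apply Subtype.ext
    have h2 := CellTop_h0_nat (C.Dn hM c) ((CellTop_h0 (C.RE hM (c + 2))).symm ⟨⟨w, hw.1⟩,
      (CellTop_inv_iff _ _ _).2 fun γ y => hw.2 γ y.1 y.2⟩)
    rw [LinearEquiv.apply_symm_apply] at h2
    have h3 := CellTop_h0_z0 C hM hc u
    refine Eq.trans ?_ h3.symm
    refine (congrArg (fun a : C.Zn pr M c => a.1) h2).trans ?_
    funext y
    exact (Dn_apply C hM c ⟨w, hw.1⟩ y.1 y.2).trans (hw' y.1 y.2).symm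

theorem top_ker (hM : IsCoef (Γ := Γ) pr M) {c0 n : ℕ} (hn : c0 + n = C.n0 + 1) (h0 : 0 < n)
    (hc0 : 0 < c0) (hc : C.Min c0) (u : C.Inv pr M c0) : C.top hM hn u = 0 ↔
      ∃ w ∈ C.Inv pr M (c0 + 1), ∀ y t,
        u.1 (y, t) = Sel.dc (C.X (pr y)).cell (fun t => w (y, t)) t := by
  obtain ⟨c, rfl⟩ := Nat.exists_eq_add_of_lt hc0
  have e : 0 + c + 1 = c + 1 := by omega
  revert hn hc u
  rw [e]
  intro hn hc u
  obtain ⟨m, rfl⟩ := Nat.exists_eq_add_of_lt h0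
  have e : 0 + m + 1 = m + 1 := by omega
  revert hn
  rw [e]
  intro hn
  rw [CellTop_top_eq C hM hn hc]
  exact CellTop_ker C hM hn hc u

variable {Y' W' : Type} [MulAction Γ Y'] [AddCommGroup W'] [Module k W'] {pr' : Y' → B}
  {M' : Submodule k (Y' → W')}

/-- A linear map between coefficient modules is local and equivariant. -/
structure LocEq (pr : Y → B) (M : Submodule k (Y → W)) (pr' : Y' → B)
    (M' : Submodule k (Y' → W')) (Φ : M →ₗ[k] M') : Prop where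
  loc : ∀ (b : B) (f : M), (∀ y, pr y = b → f.1 y = 0) → ∀ y, pr' y = b → (Φ f).1 y = 0
  eqv : ∀ (γ : Γ) (f g : M), (∀ y, g.1 y = f.1 (γ⁻¹ • y)) → ∀ y, (Φ g).1 y = (Φ f).1 (γ⁻¹ • y)

/-- The map of representations attached to an equivariant map. -/
def locHom (hM : IsCoef (Γ := Γ) pr M) (hM' : IsCoef (Γ := Γ) pr' M') (Φ : M →ₗ[k] M')
    (h : LocEq (Γ := Γ) pr M pr' M' Φ) : hM.rep ⟶ hM'.rep :=
  Rep.ofHom
    { toLinearMap := Φ
      isIntertwining' := by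
        intro γ
        apply LinearMap.ext
        intro f
        apply Subtype.ext
        funext y
        exact h.eqv γ f (Sel.fRep M hM.stab γ f) (fun y => rfl) y }

open Classical in
/-- The map induced on the functions on the cells. -/
def mapC (M : Submodule k (Y → W)) (Φ : M →ₗ[k] M') {j : ℕ} (φ : Y × (Fin j → E) → W) :
    Y' × (Fin j → E) → W' :=
  fun y => if h : (fun x => φ (x, y.2)) ∈ M then (Φ ⟨_, h⟩).1 y.1 else 0

omit [DecidableEq E] in
theorem CellTop_mapC_eq {Φ : M →ₗ[k] M'} {j : ℕ} {φ : Y × (Fin j → E) → W}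
    (hφ : ∀ t, (fun y => φ (y, t)) ∈ M) (y : Y') (t : Fin j → E) :
    mapC M Φ φ (y, t) = (Φ ⟨_, hφ t⟩).1 y := by
  rw [mapC, dif_pos (hφ t)]

omit [MulAction Γ B] in
theorem CellTop_congr {Φ : M →ₗ[k] M'} (h : LocEq (Γ := Γ) pr M pr' M' Φ) (f g : M) (b : B)
    (hfg : ∀ y, pr y = b → f.1 y = g.1 y) (y : Y') (hy : pr' y = b) :
    (Φ f).1 y = (Φ g).1 y := by
  have h1 := h.loc b (f - g) (fun y hy => by
    change f.1 y - g.1 y = 0
    rw [hfg y hy, sub_self]) y hy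
  rw [map_sub] at h1
  exact sub_eq_zero.1 h1

theorem CellTop_mapC_altc {Φ : M →ₗ[k] M'} (h : LocEq (Γ := Γ) pr M pr' M' Φ) {j : ℕ}
    {φ : Y × (Fin j → E) → W} (hφ : φ ∈ C.En pr M j) (y : Y') :
    Sel.Altc (C.X (pr' y)).cell fun t => mapC M Φ φ (y, t) := by
  refine ⟨fun t ht => ?_, fun t π => ?_⟩
  · beta_reduce at ht
    rw [CellTop_mapC_eq hφ.2] at ht
    by_contra hc
    apply ht
    refine h.loc (pr' y) _ (fun x hx => ?_) y rfl
    change φ (x, t) = 0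
    by_contra h1
    have h2 := (hφ.1 x).1 t h1
    rw [hx] at h2
    exact hc h2
  · beta_reduce
    rw [CellTop_mapC_eq hφ.2, CellTop_mapC_eq hφ.2]
    have h1 : (⟨_, hφ.2 (t ∘ π)⟩ : M) = (Equiv.Perm.sign π : ℤ) • (⟨_, hφ.2 t⟩ : M) := by
      apply Subtype.ext
      funext x
      exact (hφ.1 x).2 t π
    rw [h1, map_zsmul]
    rfl

theorem CellTop_mapC_En {Φ : M →ₗ[k] M'} (h : LocEq (Γ := Γ) pr M pr' M' Φ) {j : ℕ}
    {φ : Y × (Fin j → E) → W} (hφ : φ ∈ C.En pr M j) : mapC M Φ φ ∈ C.En pr' M' j := by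
  refine ⟨CellTop_mapC_altc C h hφ, fun t => ?_⟩
  simp only [CellTop_mapC_eq hφ.2]
  exact (Φ ⟨_, hφ.2 t⟩).2

/-- The induced maps commute with the differentials. -/
theorem CellTop_mapC_dc (hM : IsCoef (Γ := Γ) pr M) {Φ : M →ₗ[k] M'}
    (h : LocEq (Γ := Γ) pr M pr' M' Φ) {j : ℕ}
    {φ : Y × (Fin (j + 1) → E) → W} (hφ : φ ∈ C.En pr M (j + 1)) (y : Y') (t : Fin j → E) :
    Sel.dc (C.X (pr' y)).cell (fun t => mapC M Φ φ (y, t)) t =
      mapC M Φ (fun y : Y × (Fin j → E) =>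
        Sel.dc (C.X (pr y.1)).cell (fun t => φ (y.1, t)) y.2) (y, t) := by
  classical
  rw [CellTop_mapC_eq (fun t => CellTop_dn_mem C hM hφ.2 t)]
  by_cases ht : Sel.ctc (C.X (pr' y)).cell t
  · rw [Sel.dc, if_pos ht]
    simp only [CellTop_mapC_eq hφ.2]
    have h1 : ∑ ρ ∈ Sel.nb (C.X (pr' y)).cell (Sel.im t),
        (Φ ⟨_, hφ.2 (Fin.cons ρ t)⟩).1 y =
        (Φ (∑ ρ ∈ Sel.nb (C.X (pr' y)).cell (Sel.im t), ⟨_, hφ.2 (Fin.cons ρ t)⟩)).1 y := by
      rw [map_sum, Submodule.coe_sum, Finset.sum_apply]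
    rw [h1]
    apply CellTop_congr h _ _ (pr' y) _ y rfl
    intro x hx
    rw [Submodule.coe_sum, Finset.sum_apply]
    change _ = Sel.dc (C.X (pr x)).cell (fun t => φ (x, t)) t
    rw [hx, Sel.dc, if_pos ht]
  · rw [Sel.dc, if_neg ht]
    symm
    refine h.loc (pr' y) _ (fun x hx => ?_) y rfl
    change Sel.dc (C.X (pr x)).cell (fun t => φ (x, t)) t = 0
    rw [hx, Sel.dc, if_neg ht]

omit [DecidableEq E] [MulAction Γ B] in
theorem CellTop_mapC_eqv {Φ : M →ₗ[k] M'} (h : LocEq (Γ := Γ) pr M pr' M' Φ) {j : ℕ}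
    {φ : Y × (Fin j → E) → W} (hφ : ∀ t, (fun y => φ (y, t)) ∈ M)
    (hφ' : ∀ γ : Γ, ∀ t, (fun y => φ (γ⁻¹ • y, γ⁻¹ • t)) ∈ M) (γ : Γ) (y : Y')
    (t : Fin j → E) :
    mapC M Φ (fun z : Y × (Fin j → E) => φ (γ⁻¹ • z)) (y, t) =
      mapC M Φ φ (γ⁻¹ • y, γ⁻¹ • t) := by
  rw [CellTop_mapC_eq hφ, CellTop_mapC_eq (φ := fun z : Y × (Fin j → E) => φ (γ⁻¹ • z))
    (fun t => hφ' γ t)]
  exact h.eqv γ _ _ (fun y => rfl) y

theorem mapC_inv (hM : IsCoef (Γ := Γ) pr M) (hM' : IsCoef (Γ := Γ) pr' M') (Φ : M →ₗ[k] M')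
    (h : LocEq (Γ := Γ) pr M pr' M' Φ) {j : ℕ} (φ : Y × (Fin j → E) → W)
    (hφ : φ ∈ C.Inv pr M j) : mapC M Φ φ ∈ C.Inv pr' M' j := by
  refine ⟨CellTop_mapC_En C h hφ.1, fun γ y t => ?_⟩
  rw [CellTop_mapC_eq hφ.1.2, CellTop_mapC_eq hφ.1.2]
  have h1 := h.eqv γ ⟨_, hφ.1.2 t⟩ ⟨_, hφ.1.2 (γ • t)⟩ (fun x => by
    change φ (x, γ • t) = φ (γ⁻¹ • x, t)
    have h2 := hφ.2 γ (γ⁻¹ • x) t
    rwa [smul_inv_smul] at h2) (γ • y)
  rwa [inv_smul_smul] at h1

/-- The map induced on `En`. -/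
def CellTop_REmap (hM : IsCoef (Γ := Γ) pr M) (hM' : IsCoef (Γ := Γ) pr' M') (Φ : M →ₗ[k] M')
    (h : LocEq (Γ := Γ) pr M pr' M' Φ) (j : ℕ) : C.RE hM j ⟶ C.RE hM' j :=
  Rep.ofHom
    { toLinearMap :=
        { toFun := fun φ => ⟨mapC M Φ φ.1, CellTop_mapC_En C h φ.2⟩
          map_add' := fun φ ψ => by
            apply Subtype.ext
            funext y
            change mapC M Φ (φ.1 + ψ.1) (y.1, y.2) =
              mapC M Φ φ.1 (y.1, y.2) + mapC M Φ ψ.1 (y.1, y.2)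
            rw [CellTop_mapC_eq φ.2.2, CellTop_mapC_eq ψ.2.2,
              CellTop_mapC_eq (φ := φ.1 + ψ.1) (φ + ψ).2.2]
            have h1 : (⟨_, (φ + ψ).2.2 y.2⟩ : M) =
              (⟨_, φ.2.2 y.2⟩ : M) + (⟨_, ψ.2.2 y.2⟩ : M) := rfl
            change (Φ (⟨_, (φ + ψ).2.2 y.2⟩ : M)).1 y.1 = _
            rw [h1, map_add]
            rfl
          map_smul' := fun c φ => by
            apply Subtype.ext
            funext y
            change mapC M Φ (c • φ.1) (y.1, y.2) = c • mapC M Φ φ.1 (y.1, y.2)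
            rw [CellTop_mapC_eq φ.2.2, CellTop_mapC_eq (φ := c • φ.1) (c • φ).2.2]
            have h1 : (⟨_, (c • φ).2.2 y.2⟩ : M) = c • (⟨_, φ.2.2 y.2⟩ : M) := rfl
            change (Φ (⟨_, (c • φ).2.2 y.2⟩ : M)).1 y.1 = _
            rw [h1, map_smul]
            rfl }
      isIntertwining' := by
        intro γ
        apply LinearMap.ext
        intro φ
        apply Subtype.ext
        funext y
        exact CellTop_mapC_eqv h (φ : C.En pr M j).2.2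
          (fun γ t => (En_stab C hM j γ _ (φ : C.En pr M j).2).2 t) γ y.1 y.2 }

theorem CellTop_REmap_apply (hM : IsCoef (Γ := Γ) pr M) (hM' : IsCoef (Γ := Γ) pr' M')
    (Φ : M →ₗ[k] M') (h : LocEq (Γ := Γ) pr M pr' M' Φ) (j : ℕ) (φ : C.En pr M j) :
    ((CellTop_REmap C hM hM' Φ h j).hom φ : C.En pr' M' j).1 = mapC M Φ φ.1 := rfl

theorem CellTop_mapC_Zn (hM : IsCoef (Γ := Γ) pr M)
    {Φ : M →ₗ[k] M'} (h : LocEq (Γ := Γ) pr M pr' M' Φ) {j : ℕ}
    {φ : Y × (Fin (j + 1) → E) → W} (hφ : φ ∈ C.Zn pr M j) : mapC M Φ φ ∈ C.Zn pr' M' j := by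
  refine ⟨CellTop_mapC_En C h hφ.1, fun y t => ?_⟩
  rw [CellTop_mapC_dc C hM h hφ.1, CellTop_mapC_eq (fun t => CellTop_dn_mem C hM hφ.1.2 t)]
  have h1 : (⟨_, CellTop_dn_mem C hM hφ.1.2 t⟩ : M) = 0 := by
    apply Subtype.ext
    funext x
    exact hφ.2 x t
  refine (congrArg (fun a : M => (Φ a).1 y) h1).trans ?_
  rw [map_zero]
  rfl

/-- The map induced on `Zn`. -/
def CellTop_RZmap (hM : IsCoef (Γ := Γ) pr M) (hM' : IsCoef (Γ := Γ) pr' M') (Φ : M →ₗ[k] M')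
    (h : LocEq (Γ := Γ) pr M pr' M' Φ) (j : ℕ) : C.RZ hM j ⟶ C.RZ hM' j :=
  Rep.ofHom
    { toLinearMap :=
        { toFun := fun φ => ⟨mapC M Φ φ.1, CellTop_mapC_Zn C hM h φ.2⟩
          map_add' := fun φ ψ => by
            apply Subtype.ext
            have h1 := (CellTop_REmap C hM hM' Φ h (j + 1)).hom.toLinearMap.map_add
              (⟨φ.1, φ.2.1⟩ : C.En pr M (j + 1)) (⟨ψ.1, ψ.2.1⟩ : C.En pr M (j + 1))
            exact congrArg (fun a : C.En pr' M' (j + 1) => a.1) h1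
          map_smul' := fun c φ => by
            apply Subtype.ext
            have h1 := (CellTop_REmap C hM hM' Φ h (j + 1)).hom.toLinearMap.map_smul c
              (⟨φ.1, φ.2.1⟩ : C.En pr M (j + 1))
            exact congrArg (fun a : C.En pr' M' (j + 1) => a.1) h1 }
      isIntertwining' := by
        intro γ
        apply LinearMap.ext
        intro φ
        apply Subtype.ext
        funext y
        exact CellTop_mapC_eqv h (φ : C.Zn pr M j).2.1.2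
          (fun γ t => (En_stab C hM (j + 1) γ _ (φ : C.Zn pr M j).2.1).2 t) γ y.1 y.2 }

theorem CellTop_RZmap_apply (hM : IsCoef (Γ := Γ) pr M) (hM' : IsCoef (Γ := Γ) pr' M')
    (Φ : M →ₗ[k] M') (h : LocEq (Γ := Γ) pr M pr' M' Φ) (j : ℕ) (φ : C.Zn pr M j) :
    ((CellTop_RZmap C hM hM' Φ h j).hom φ : C.Zn pr' M' j).1 = mapC M Φ φ.1 := rfl

theorem CellTop_hom_eq {X₁ X₂ X₃ X₄ : Rep.{0} k Γ} (f : X₁ ⟶ X₂) (g : X₂ ⟶ X₃)
    (f' : X₁ ⟶ X₄) (g' : X₄ ⟶ X₃)
    (hfg : ∀ a, g.hom (f.hom a) = g'.hom (f'.hom a)) : f ≫ g = f' ≫ g' := by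
  apply Rep.hom_ext
  apply Representation.IntertwiningMap.ext
  apply LinearMap.ext
  intro a
  exact hfg a

theorem CellTop_ci (hM : IsCoef (Γ := Γ) pr M) (hM' : IsCoef (Γ := Γ) pr' M')
    (Φ : M →ₗ[k] M') (h : LocEq (Γ := Γ) pr M pr' M' Φ) (j : ℕ) :
    C.In hM j ≫ CellTop_REmap C hM hM' Φ h (j + 1) =
      CellTop_RZmap C hM hM' Φ h j ≫ C.In hM' j := by
  apply CellTop_hom_eq
  intro φ
  apply Subtype.ext
  rw [In_apply C hM' j (((CellTop_RZmap C hM hM' Φ h j).hom φ : C.Zn pr' M' j))]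
  have h1 := CellTop_REmap_apply C hM hM' Φ h (j + 1) (((C.In hM j).hom φ : C.En pr M (j + 1)))
  rw [In_apply C hM j φ] at h1
  exact h1

theorem CellTop_cp0 (hM : IsCoef (Γ := Γ) pr M) (hM' : IsCoef (Γ := Γ) pr' M')
    (Φ : M →ₗ[k] M') (h : LocEq (Γ := Γ) pr M pr' M' Φ) :
    CellTop_dE C hM 0 ≫ CellTop_REmap C hM hM' Φ h 0 =
      CellTop_REmap C hM hM' Φ h 1 ≫ CellTop_dE C hM' 0 := by
  apply CellTop_hom_eq
  intro φ
  apply Subtype.ext
  funext y
  exact (CellTop_mapC_dc C hM h (φ : C.En pr M 1).2 y.1 y.2).symm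

theorem CellTop_cp1 (hM : IsCoef (Γ := Γ) pr M) (hM' : IsCoef (Γ := Γ) pr' M')
    (Φ : M →ₗ[k] M') (h : LocEq (Γ := Γ) pr M pr' M' Φ) (j : ℕ) :
    C.Dn hM j ≫ CellTop_RZmap C hM hM' Φ h j =
      CellTop_REmap C hM hM' Φ h (j + 2) ≫ C.Dn hM' j := by
  apply CellTop_hom_eq
  intro φ
  apply Subtype.ext
  funext y
  have h1 := Dn_apply C hM' j
    (((CellTop_REmap C hM hM' Φ h (j + 2)).hom φ : C.En pr' M' (j + 2))) y.1 y.2
  refine Eq.trans ?_ h1.symm
  have h2 : ((C.Dn hM j).hom φ : C.Zn pr M j).1 = fun y : Y × (Fin (j + 1) → E) =>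
      Sel.dc (C.X (pr y.1)).cell (fun t => (φ : C.En pr M (j + 2)).1 (y.1, t)) y.2 := by
    funext z
    exact Dn_apply C hM j φ z.1 z.2
  have h3 := CellTop_mapC_dc C hM h (φ : C.En pr M (j + 2)).2 y.1 y.2
  rw [← h2] at h3
  exact h3.symm

/-- The outer maps of the morphism of towers. -/
def CellTop_r (hM : IsCoef (Γ := Γ) pr M) (hM' : IsCoef (Γ := Γ) pr' M') (Φ : M →ₗ[k] M')
    (h : LocEq (Γ := Γ) pr M pr' M' Φ) : ∀ j, CellTop_R C hM j ⟶ CellTop_R C hM' j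
  | 0 => CellTop_REmap C hM hM' Φ h 0
  | j + 1 => CellTop_RZmap C hM hM' Φ h j

theorem CellTop_cp (hM : IsCoef (Γ := Γ) pr M) (hM' : IsCoef (Γ := Γ) pr' M')
    (Φ : M →ₗ[k] M') (h : LocEq (Γ := Γ) pr M pr' M' Φ) : ∀ j,
    CellTop_p C hM j ≫ CellTop_r C hM hM' Φ h j =
      CellTop_REmap C hM hM' Φ h (j + 1) ≫ CellTop_p C hM' j
  | 0 => CellTop_cp0 C hM hM' Φ h
  | j + 1 => CellTop_cp1 C hM hM' Φ h j

/-- The morphism of towers. -/
def CellTop_hom (hM : IsCoef (Γ := Γ) pr M) (hM' : IsCoef (Γ := Γ) pr' M') (Φ : M →ₗ[k] M')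
    (h : LocEq (Γ := Γ) pr M pr' M' Φ) : CellTower.Hom (CellTop_tow C hM) (CellTop_tow C hM') where
  r := CellTop_r C hM hM' Φ h
  m := fun j => CellTop_REmap C hM hM' Φ h (j + 1)
  ci := fun j => CellTop_ci C hM hM' Φ h j
  cp := CellTop_cp C hM hM' Φ h

theorem CellTop_Au_nat0 (hM : IsCoef (Γ := Γ) pr M) (hM' : IsCoef (Γ := Γ) pr' M')
    (Φ : M →ₗ[k] M') (h : LocEq (Γ := Γ) pr M pr' M' Φ) :
    locHom hM hM' Φ h ≫ C.Au hM' = C.Au hM ≫ CellTop_RZmap C hM hM' Φ h C.n0 := by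
  apply CellTop_hom_eq
  intro f
  apply Subtype.ext
  funext y
  have h1 := Au_apply C hM' (Φ f) y.1 y.2
  refine h1.trans ?_
  change _ = mapC M Φ ((C.Au hM).hom f : C.Zn pr M C.n0).1 (y.1, y.2)
  rw [CellTop_mapC_eq ((C.Au hM).hom f : C.Zn pr M C.n0).2.1.2]
  have h2 : C.o (pr' y.1) y.2 • (Φ f).1 y.1 = (Φ (C.o (pr' y.1) y.2 • (f : M))).1 y.1 := by
    rw [map_zsmul]
    rfl
  rw [h2]
  apply CellTop_congr h _ _ (pr' y.1) _ y.1 rfl
  intro x hx
  have h3 := Au_apply C hM f x y.2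
  refine Eq.trans ?_ h3.symm
  rw [hx]
  rfl

theorem CellTop_Au_nat (hM : IsCoef (Γ := Γ) pr M) (hM' : IsCoef (Γ := Γ) pr' M')
    (Φ : M →ₗ[k] M') (h : LocEq (Γ := Γ) pr M pr' M' Φ) (m : ℕ) (hm : m = C.n0 + 1) :
    locHom hM hM' Φ h ≫ CellTop_Au C hM' m hm =
      CellTop_Au C hM m hm ≫ CellTop_r C hM hM' Φ h m := by
  subst hm
  rw [CellTop_Au_rfl, CellTop_Au_rfl]
  exact CellTop_Au_nat0 C hM hM' Φ h

theorem CellTop_z0_nat (hM : IsCoef (Γ := Γ) pr M) (hM' : IsCoef (Γ := Γ) pr' M')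
    (Φ : M →ₗ[k] M') (h : LocEq (Γ := Γ) pr M pr' M' Φ) {c : ℕ} (hc : C.Min (c + 1))
    (u : C.Inv pr M (c + 1)) :
    CellTop_z0 C hM' hc ⟨_, mapC_inv C hM hM' Φ h u.1 u.2⟩ =
      ((groupCohomology.functor k Γ 0).map (CellTop_RZmap C hM hM' Φ h c)).hom
        (CellTop_z0 C hM hc u) := by
  apply (CellTop_h0 (C.RZ hM' c)).injective
  apply Subtype.ext
  apply Subtype.ext
  rw [CellTop_h0_z0, CellTop_h0_nat]
  have h1 := CellTop_h0_z0 C hM hc u
  have h2 := CellTop_RZmap_apply C hM hM' Φ h c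
    (CellTop_h0 (C.RZ hM c) (CellTop_z0 C hM hc u)).1
  rw [h1] at h2
  exact h2.symm

theorem CellTop_auE_nat (hM : IsCoef (Γ := Γ) pr M) (hM' : IsCoef (Γ := Γ) pr' M')
    (Φ : M →ₗ[k] M') (h : LocEq (Γ := Γ) pr M pr' M' Φ) (m : ℕ) (hm : m = C.n0 + 1) (n : ℕ)
    (a : groupCohomology hM.rep n) :
    CellTop_auE C hM' m hm n
      (((groupCohomology.functor k Γ n).map (locHom hM hM' Φ h)).hom a) =
    ((groupCohomology.functor k Γ n).map (CellTop_r C hM hM' Φ h m)).hom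
      (CellTop_auE C hM m hm n a) := by
  have h1 := congrArg (fun f => ((groupCohomology.functor k Γ n).map f).hom a)
    (CellTop_Au_nat C hM hM' Φ h m hm)
  simp only [Functor.map_comp, ModuleCat.hom_comp] at h1
  exact h1

/-- Naturality of `top`. -/
theorem top_nat (hM : IsCoef (Γ := Γ) pr M) (hM' : IsCoef (Γ := Γ) pr' M') (Φ : M →ₗ[k] M')
    (h : LocEq (Γ := Γ) pr M pr' M' Φ) {c0 n : ℕ} (hn : c0 + n = C.n0 + 1)
    (u : C.Inv pr M c0) :
    C.top hM' hn ⟨_, mapC_inv C hM hM' Φ h u.1 u.2⟩ =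
      ((groupCohomology.functor k Γ n).map (locHom hM hM' Φ h)).hom (C.top hM hn u) := by
  match c0, hn, u with
  | 0, hn, u =>
    change 0 = ((groupCohomology.functor k Γ n).map (locHom hM hM' Φ h)).hom 0
    exact (map_zero _).symm
  | c + 1, hn, u =>
    by_cases hc : C.Min (c + 1)
    · rw [CellTop_top_eq C hM hn hc, CellTop_top_eq C hM' hn hc]
      refine (LinearEquiv.symm_apply_eq _).2 ?_
      rw [CellTop_auE_nat]
      have h1 : CellTop_auE C hM (c + 1 + n) hn n (CellTop_aux C hM hn hc u) =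
          ((CellTop_tow C hM).D (c + 1) n hn.le).hom (CellTop_z0 C hM hc u) :=
        LinearEquiv.apply_symm_apply _ _
      rw [h1]
      have h2 := CellTower.D_nat (CellTop_hom C hM hM' Φ h) (c + 1) n hn.le
        (CellTop_z0 C hM hc u)
      refine Eq.trans ?_ h2.symm
      exact congrArg ((CellTop_tow C hM').D (c + 1) n hn.le).hom
        (CellTop_z0_nat C hM hM' Φ h hc u)
    · rw [CellTop_top_neg C hM hn hc, CellTop_top_neg C hM' hn hc]
      exact (map_zero _).symm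

/-! ### Finite generation -/

theorem CellTop_fg0 [IsNoetherianRing k] (hM : IsCoef (Γ := Γ) pr M)
    (hf : ∀ j, Module.Finite k (C.Inv pr M j)) : ∀ j,
    Module.Finite k (groupCohomology (CellTop_R C hM j) 0)
  | 0 => by
    let F : (C.RE hM 0).ρ.invariants →ₗ[k] C.Inv pr M 0 :=
      { toFun := fun x => ⟨(x.1 : C.En pr M 0).1, (x.1 : C.En pr M 0).2, fun γ y t =>
          (CellTop_inv_iff _ _ _).1 x.2 γ (y, t)⟩
        map_add' := fun _ _ => rfl
        map_smul' := fun _ _ => rfl }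
    have hF : Function.Injective F := by
      intro x y hxy
      apply Subtype.ext
      apply Subtype.ext
      exact congrArg (fun a : C.Inv pr M 0 => a.1) hxy
    have h0 := hf 0
    have h1 : Module.Finite k (C.RE hM 0).ρ.invariants := Module.Finite.of_injective F hF
    exact Module.Finite.equiv (CellTop_h0 (C.RE hM 0)).symm
  | j + 1 => by
    let F : (C.RZ hM j).ρ.invariants →ₗ[k] C.Inv pr M (j + 1) :=
      { toFun := fun x => ⟨(x.1 : C.Zn pr M j).1, (x.1 : C.Zn pr M j).2.1, fun γ y t =>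
          (CellTop_inv_iff _ _ _).1 x.2 γ (y, t)⟩
        map_add' := fun _ _ => rfl
        map_smul' := fun _ _ => rfl }
    have hF : Function.Injective F := by
      intro x y hxy
      apply Subtype.ext
      apply Subtype.ext
      exact congrArg (fun a : C.Inv pr M (j + 1) => a.1) hxy
    have h0 := hf (j + 1)
    have h1 : Module.Finite k (C.RZ hM j).ρ.invariants := Module.Finite.of_injective F hF
    exact Module.Finite.equiv (CellTop_h0 (C.RZ hM j)).symm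

/-- Finite generation of the cohomology. -/
theorem CellSys.fg [IsNoetherianRing k] (hM : IsCoef (Γ := Γ) pr M)
    (hf : ∀ j, Module.Finite k (C.Inv pr M j)) (i : ℕ) :
    Module.Finite k (groupCohomology hM.rep i) := by
  by_cases hi : i ≤ C.n0 + 1
  · obtain ⟨c, hc⟩ := Nat.exists_eq_add_of_le hi
    have hn : c + i = C.n0 + 1 := by omega
    have h1 : Module.Finite k (groupCohomology ((CellTop_tow C hM).R c) 0) :=
      CellTop_fg0 C hM hf c
    have h2 : Module.Finite k (groupCohomology (CellTop_R C hM (c + i)) i) :=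
      Module.Finite.of_surjective ((CellTop_tow C hM).D c i hn.le).hom
        ((CellTop_tow C hM).D_surj c i hn.le)
    exact Module.Finite.equiv (CellTop_auE C hM (c + i) hn i).symm
  · have h1 : Subsingleton (groupCohomology hM.rep i) :=
      C.vanish hM (c0 := 0) (fun _ _ _ => Nat.zero_le _) i (by omega)
    infer_instance

end Pool.Agent.CG2
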