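import Pool.Agent.CG2.PolyB

/-!
# The cells of a simple polyhedron form a complex with an acyclic matching
-/

noncomputable section

namespace Pool.Agent.CG2

open Pool.Agent.CG3

variable {E V : Type} [DecidableEq E] [NormedAddCommGroup V] [NormedSpace ℝ V]
  [FiniteDimensional ℝ V]

namespace PolySys

omit [DecidableEq E] in
theorem polyCx_face_sub {P : PolySys E V} {R R' : Finset E} (h : P.Face R') (hRR : R ⊆ R') :
    P.Face R :=
  ⟨fun e he => h.1 e (hRR he), h.2.mono fun _ hx => ⟨hx.1, fun e he => hx.2 e (hRR he)⟩⟩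

theorem polyCx_pos_sum {P : PolySys E V} (T : Finset E) (hT : ∀ e ∈ T, e ∈ P.A) :
    ∀ l ∈ P.Pos, ∑ e ∈ T, P.q e + l ∈ P.Pos := by
  induction T using Finset.induction_on with
  | empty =>
    intro l hl
    simpa using hl
  | insert a T ha ih =>
    intro l hl
    rw [Finset.sum_insert ha]
    have h1 := ih (fun e he => hT e (Finset.mem_insert_of_mem he)) l hl
    have h2 := P.pos_add _ h1 a (hT a (Finset.mem_insert_self _ _)) 1 zero_le_one
    rw [one_smul] at h2
    convert h2 using 1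
    abel

theorem polyCx_between {P : PolySys E V} {R R' R'' : Finset E} (h : P.Cell R) (h1 : R ⊆ R')
    (h2 : R' ⊆ R'') (h3 : P.Cell R'') : P.Cell R' := by
  refine ⟨polyCx_face_sub h3.1 h2, ?_⟩
  have h4 := polyCx_pos_sum (P := P) (R' \ R)
    (fun e he => h3.1.1 e (h2 (Finset.mem_sdiff.1 he).1)) _ h.2
  rwa [Finset.sum_sdiff h1] at h4

omit [DecidableEq E] in
theorem polyCx_sum_apply {P : PolySys E V} (R : Finset E) (x : V) :
    (∑ e ∈ R, P.q e) x = ∑ e ∈ R, P.q e x := by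
  simp

theorem polyCx_fin {P : PolySys E V} {R : Finset E} (h : P.Cell R) :
    {ρ | ρ ∉ R ∧ P.Cell (insert ρ R)}.Finite := by
  have hK := P.comp _ h.2 (∑ e ∈ R, P.c e)
  have hU : ∀ x ∈ {h : V | (∀ e ∈ P.A, P.c e ≤ P.q e h) ∧
      (∑ e ∈ R, P.q e) h ≤ ∑ e ∈ R, P.c e}, ∃ U ∈ nhds x,
      {e | e ∈ P.A ∧ ∃ h' ∈ U, P.q e h' ≤ P.c e}.Finite := fun x hx => P.locfin x hx.1
  choose! U hU1 hU2 using hU
  obtain ⟨s, hs, hcov⟩ := hK.elim_nhds_subcover U hU1
  refine (s.finite_toSet.biUnion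
    (t := fun x => {e | e ∈ P.A ∧ ∃ h' ∈ U x, P.q e h' ≤ P.c e})
    (fun x hx => hU2 x (hs x hx))).subset ?_
  rintro ρ ⟨-, hc⟩
  obtain ⟨y, hy1, hy2⟩ := hc.1.2
  have hy : y ∈ {h : V | (∀ e ∈ P.A, P.c e ≤ P.q e h) ∧
      (∑ e ∈ R, P.q e) h ≤ ∑ e ∈ R, P.c e} := by
    refine ⟨hy1, ?_⟩
    rw [polyCx_sum_apply]
    exact Finset.sum_le_sum fun e he => (hy2 e (Finset.mem_insert_of_mem he)).le
  obtain ⟨x, hx, hxy⟩ := Set.mem_iUnion₂.1 (hcov hy)
  exact Set.mem_iUnion₂.2 ⟨x, hx, hc.1.1 ρ (Finset.mem_insert_self _ _), y, hxy,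
    (hy2 ρ (Finset.mem_insert_self _ _)).le⟩

omit [DecidableEq E] in
/-- The maximum of a functional on a face is attained at one point only. -/
theorem polyCx_strict {P : PolySys E V} {l : V →L[ℝ] ℝ} {R S : Finset E} {h h' : V}
    (hv : P.Vx S h) (_ : R ⊆ S) (hneg : ∀ e ∈ S, e ∉ R → l (P.dv S e) < 0)
    (hh : h' ∈ P.Fc R) : h' = h ∨ l h' < l h := by
  by_cases hz : ∀ e ∈ S, P.q e (h' - h) = 0
  · left
    have h1 := hv.expand (h' - h)
    rw [Finset.sum_eq_zero (fun e he => by rw [hz e he, zero_smul])] at h1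
    exact sub_eq_zero.1 h1
  · right
    push Not at hz
    obtain ⟨e₀, he₀, hne⟩ := hz
    have h1 := congrArg l (hv.expand (h' - h))
    rw [map_sum] at h1
    have hterm : ∀ e ∈ S, 0 ≤ P.q e (h' - h) ∧ (e ∈ R → P.q e (h' - h) = 0) := by
      intro e he
      have h2 := (hv.tight e).1 he
      rw [map_sub, h2.2]
      exact ⟨sub_nonneg.2 (hh.1 e h2.1), fun heR => sub_eq_zero.2 (hh.2 e heR)⟩
    have h3 : ∑ e ∈ S, l (P.q e (h' - h) • P.dv S e) < ∑ e ∈ S, (0 : ℝ) := by
      apply Finset.sum_lt_sum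
      · intro e he
        rw [map_smul, smul_eq_mul]
        by_cases heR : e ∈ R
        · rw [(hterm e he).2 heR, zero_mul]
        · exact mul_nonpos_of_nonneg_of_nonpos (hterm e he).1 (hneg e he heR).le
      · refine ⟨e₀, he₀, ?_⟩
        have heR : e₀ ∉ R := fun heR => hne ((hterm e₀ he₀).2 heR)
        rw [map_smul, smul_eq_mul]
        exact mul_neg_of_pos_of_neg (lt_of_le_of_ne (hterm e₀ he₀).1 hne.symm)
          (hneg e₀ he₀ heR)
    rw [← h1, Finset.sum_const_zero, map_sub] at h3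
    linarith

omit [DecidableEq E] in
theorem polyCx_vx_eq {P : PolySys E V} {S S' : Finset E} {h : V} (hv : P.Vx S h)
    (hv' : P.Vx S' h) : S = S' := by
  ext e
  rw [hv.tight e, hv'.tight e]

/-- The number of vertices below the vertex `S`. -/
def polyCxRk (P : PolySys E V) (l : V →L[ℝ] ℝ) (S : Finset E) : ℕ :=
  {S' : Finset E | ∃ h' h, P.Vx S' h' ∧ P.Vx S h ∧ l h' < l h}.ncard

omit [DecidableEq E] in
theorem polyCx_rk_lt {P : PolySys E V} {l : V →L[ℝ] ℝ} (hl : l ∈ P.Pos) {S S' : Finset E}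
    {h h' : V} (hv : P.Vx S h) (hv' : P.Vx S' h') (hlt : l h' < l h) :
    P.polyCxRk l S' < P.polyCxRk l S := by
  apply Set.ncard_lt_ncard
  · refine ⟨?_, ?_⟩
    · rintro T ⟨x, y, hx, hy, hxy⟩
      have h1 : y = h' := hy.unique hv'
      exact ⟨x, h, hx, hv, by rw [h1] at hxy; exact hxy.trans hlt⟩
    · intro hsub
      have h1 : S' ∈ {S'' : Finset E | ∃ x y, P.Vx S'' x ∧ P.Vx S' y ∧ l x < l y} :=
        hsub ⟨h', h, hv', hv, hlt⟩
      obtain ⟨x, y, hx, hy, hxy⟩ := h1
      rw [hx.unique hv', hy.unique hv'] at hxy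
      exact lt_irrefl _ hxy
  · refine (finite_vx hl (l h)).subset ?_
    rintro T ⟨x, y, hx, hy, hxy⟩
    rw [hy.unique hv] at hxy
    exact ⟨x, hx, hxy.le⟩

theorem exists_cx (P : PolySys E V) : ∃ X : Sel.Cx E, X.cell = P.Cell ∧
    X.base.card = Module.finrank ℝ V ∧ X.cell X.base := by
  obtain ⟨l, hl⟩ := exists_gen P
  -- the base
  have hF0 : P.Face ∅ := ⟨by simp, by
    obtain ⟨x, hx⟩ := P.ne
    exact ⟨x, hx, by simp⟩⟩
  obtain ⟨B, hB, hvB, -, hBpos, -⟩ := min_vx hl hF0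
  have hBpos' : ∀ e ∈ B, 0 < l (P.dv B e) := fun e he => hBpos e he (by simp)
  -- tops
  have htop : ∀ R : Finset E, ∃ S : Finset E, P.Cell R → ∃ h, P.Vx S h ∧ R ⊆ S ∧
      (∀ e ∈ S, e ∉ R → l (P.dv S e) < 0) := by
    intro R
    by_cases hR : P.Cell R
    · obtain ⟨S, h, h1, h2, h3, -⟩ := max_vx hl hR
      exact ⟨S, fun _ => ⟨h, h1, h2, h3⟩⟩
    · exact ⟨∅, fun h => absurd h hR⟩
  choose top htop using htop
  have hs : ∀ S : Finset E, ∃ e : E, (∃ h, P.Vx S h) → S ≠ B → e ∈ S ∧ l (P.dv S e) < 0 := by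
    intro S
    by_cases hS : (∃ h, P.Vx S h) ∧ S ≠ B
    · obtain ⟨⟨h, hv⟩, hne⟩ := hS
      have : ∃ e ∈ S, l (P.dv S e) < 0 := by
        by_contra hcon
        push Not at hcon
        apply hne
        refine min_unique hl (R := ∅) hv hvB (by simp) (by simp) (fun e he _ => ?_)
          (fun e he _ => hBpos' e he)
        exact lt_of_le_of_ne (hcon e he) (hl.ne S h hv e he).symm
      obtain ⟨e, he, he'⟩ := this
      exact ⟨e, fun _ _ => ⟨he, he'⟩⟩
    · have hE : Nonempty E := by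
        by_contra hE
        rw [not_nonempty_iff] at hE
        obtain ⟨e, -⟩ := exists_pos_dir hl.pos hvB
        exact hE.false e
      obtain ⟨e⟩ := hE
      exact ⟨e, fun h1 h2 => absurd ⟨h1, h2⟩ hS⟩
  choose s hs using hs
  have hvcell : ∀ {S T : Finset E} {h : V}, P.Vx S h → T ⊆ S →
      (∀ e ∈ S, e ∉ T → l (P.dv S e) < 0) → P.Cell T ∧ top T = S := by
    intro S T h hv hTS hneg
    have hc : P.Cell T := cell_of_neg hl.pos hv hTS hneg
    obtain ⟨h', h1, h2, h3⟩ := htop T hc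
    exact ⟨hc, max_unique hl h1 hv h2 hTS h3 hneg⟩
  refine ⟨{ cell := P.Cell
            top := top
            s := s
            rk := P.polyCxRk l
            base := B
            between := fun R R' R'' h h1 h2 h3 => polyCx_between h h1 h2 h3
            fin := fun R hR => polyCx_fin hR
            top_base := ?_
            erase := ?_
            ins := ?_
            lower := ?_ }, rfl, hvB.card, ?_⟩
  · intro R hR
    obtain ⟨h, h1, h2, h3⟩ := htop R hR
    constructor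
    · intro ht
      rw [ht] at h2 h3
      refine Finset.Subset.antisymm h2 fun e he => ?_
      by_contra heR
      exact absurd (h3 e he heR) (not_lt.2 (hBpos' e he).le)
    · intro hRB
      refine (hvcell hvB (by rw [hRB]) fun e he heR => ?_).2
      rw [hRB] at heR
      exact absurd he heR
  · intro R hR hne hsR
    obtain ⟨h, h1, h2, h3⟩ := htop R hR
    have h4 := hs (top R) ⟨h, h1⟩ hne
    refine hvcell h1 ((Finset.erase_subset _ _).trans h2) fun e he heR => ?_
    by_cases hes : e = s (top R)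
    · rw [hes]; exact h4.2
    · exact h3 e he fun h5 => heR (Finset.mem_erase.2 ⟨hes, h5⟩)
  · intro R hR hne hsR
    obtain ⟨h, h1, h2, h3⟩ := htop R hR
    have h4 := hs (top R) ⟨h, h1⟩ hne
    refine hvcell h1 (Finset.insert_subset h4.1 h2) fun e he heR => ?_
    exact h3 e he fun h5 => heR (Finset.mem_insert_of_mem h5)
  · intro R ρ hR hρ hc
    obtain ⟨h, h1, h2, h3⟩ := htop R hR
    obtain ⟨h', h1', h2', h3'⟩ := htop (insert ρ R) hc
    have h5 : h' ∈ P.Fc R := ⟨h1'.mem, fun e he =>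
      ((h1'.tight e).1 (h2' (Finset.mem_insert_of_mem he))).2⟩
    rcases polyCx_strict h1 h2 h3 h5 with h6 | h6
    · left
      rw [h6] at h1'
      exact polyCx_vx_eq h1' h1
    · right
      exact polyCx_rk_lt hl.pos h1 h1' h6
  · exact (hvcell hvB (Finset.Subset.refl _) fun e he heR => absurd he heR).1

/-- The complex of the cells of a simple polyhedron. -/
def cx (P : PolySys E V) : Sel.Cx E := P.exists_cx.choose

theorem cx_cell (P : PolySys E V) : P.cx.cell = P.Cell := P.exists_cx.choose_spec.1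

theorem cx_base (P : PolySys E V) : P.cx.base.card = Module.finrank ℝ V :=
  P.exists_cx.choose_spec.2.1

theorem cx_base_cell (P : PolySys E V) : P.cx.cell P.cx.base :=
  P.exists_cx.choose_spec.2.2

end PolySys

end Pool.Agent.CG2
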