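import Pool.Agent.CG2.PolyB
import Pool.Agent.CG2.PolyCx

/-!
# Finitely supported alternating functions on the faces of a simple polyhedron
-/

noncomputable section

namespace Pool.Agent.CG2

open Pool.Agent.CG3

variable {E : Type} [DecidableEq E] {W : Type} [AddCommGroup W]

/-- Finitely supported alternating functions on the faces. -/
def AltF (face : Finset E → Prop) {m : ℕ} (φ : (Fin m → E) → W) : Prop :=
  Sel.Altc face φ ∧ (Function.support φ).Finite

/-- The differential of a finitely supported alternating function. -/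
def dF {m : ℕ} (φ : (Fin (m + 1) → E) → W) (t : Fin m → E) : W :=
  ∑ᶠ ρ : E, φ (Fin.cons ρ t)

/-- A family of finite sets, closed under subsets, with a matching which is acyclic upwards. -/
structure Asc (E : Type) [DecidableEq E] where
  /-- the faces -/
  face : Finset E → Prop
  /-- the bottom of a face -/
  bot : Finset E → Finset E
  /-- the marked element -/
  s : Finset E → E
  /-- the rank -/
  rk : Finset E → ℕ
  sub : ∀ R R' : Finset E, face R' → R ⊆ R' → face R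
  erase : ∀ R : Finset E, face R → s (bot R) ∈ R → bot (R.erase (s (bot R))) = bot R
  ins : ∀ R : Finset E, face R → s (bot R) ∉ R →
    face (insert (s (bot R)) R) ∧ bot (insert (s (bot R)) R) = bot R
  upper : ∀ (R : Finset E) (ρ : E), ρ ∉ R → face (insert ρ R) →
    bot (insert ρ R) = bot R ∨ rk (bot R) < rk (bot (insert ρ R))

/-! ### Elementary properties -/

omit [DecidableEq E] in
theorem polyAsc_exists_ne {f : E → W} (h : ∑ᶠ ρ : E, f ρ ≠ 0) : ∃ ρ, f ρ ≠ 0 := by
  by_contra hcon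
  push Not at hcon
  exact h (by simp [hcon])

omit [DecidableEq E] in
theorem polyAsc_fin {m : ℕ} {φ : (Fin (m + 1) → E) → W} (h : (Function.support φ).Finite)
    (t : Fin m → E) : (Function.support fun ρ => φ (Fin.cons ρ t)).Finite := by
  refine (h.image (fun t' => t' 0)).subset ?_
  intro ρ hρ
  exact ⟨Fin.cons ρ t, hρ, by simp⟩

omit [DecidableEq E] in
theorem polyAsc_dF_sub {m : ℕ} {φ ψ : (Fin (m + 1) → E) → W}
    (h : (Function.support φ).Finite) (h' : (Function.support ψ).Finite) :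
    dF (φ - ψ) = dF φ - dF ψ := by
  funext t
  exact finsum_sub_distrib (polyAsc_fin h t) (polyAsc_fin h' t)

omit [DecidableEq E] in
theorem polyAsc_dF_add {m : ℕ} {φ ψ : (Fin (m + 1) → E) → W}
    (h : (Function.support φ).Finite) (h' : (Function.support ψ).Finite) :
    dF (φ + ψ) = dF φ + dF ψ := by
  funext t
  exact finsum_add_distrib (polyAsc_fin h t) (polyAsc_fin h' t)

theorem AltF.add {face : Finset E → Prop} {m : ℕ} {φ ψ : (Fin m → E) → W} (h : AltF face φ)
    (h' : AltF face ψ) : AltF face (φ + ψ) :=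
  ⟨h.1.add h'.1, (h.2.union h'.2).subset (Function.support_add _ _)⟩

theorem AltF.neg {face : Finset E → Prop} {m : ℕ} {φ : (Fin m → E) → W} (h : AltF face φ) :
    AltF face (-φ) := by
  refine ⟨⟨fun t ht => h.1.1 t (by simpa using ht), fun t π => ?_⟩, ?_⟩
  · simp [h.1.2]
  · rw [Function.support_neg]
    exact h.2

theorem AltF.sub {face : Finset E → Prop} {m : ℕ} {φ ψ : (Fin m → E) → W} (h : AltF face φ)
    (h' : AltF face ψ) : AltF face (φ - ψ) := by
  rw [sub_eq_add_neg]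
  exact h.add h'.neg

theorem AltF.zero {face : Finset E → Prop} {m : ℕ} : AltF face (0 : (Fin m → E) → W) :=
  ⟨Sel.Altc.zero, by simp⟩

theorem polyAsc_ctc_perm {cell : Finset E → Prop} {m : ℕ} {t : Fin m → E}
    (π : Equiv.Perm (Fin m)) : Sel.ctc cell (t ∘ π) ↔ Sel.ctc cell t := by
  rw [Sel.ctc, Sel.ctc, Sel.inj_perm, Sel.im_perm]

theorem polyAsc_ctc_cons {cell : Finset E → Prop} {m : ℕ} {t : Fin m → E} {ρ : E} :
    Sel.ctc cell (Fin.cons ρ t : Fin (m + 1) → E) ↔
      Function.Injective t ∧ ρ ∉ Sel.im t ∧ cell (insert ρ (Sel.im t)) := by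
  rw [Sel.ctc, Sel.im_cons, Fin.cons_injective_iff, Set.mem_range, Sel.mem_im]
  tauto

theorem dF_alt {face : Finset E → Prop} (hs : ∀ R R' : Finset E, face R' → R ⊆ R' → face R)
    {m : ℕ} {φ : (Fin (m + 1) → E) → W} (hφ : AltF face φ) : AltF face (dF φ) := by
  refine ⟨⟨fun t ht => ?_, fun t π => ?_⟩, ?_⟩
  · obtain ⟨ρ, hρ⟩ := polyAsc_exists_ne ht
    have h1 := polyAsc_ctc_cons.1 (hφ.1.1 _ hρ)
    exact ⟨h1.1, hs _ _ h1.2.2 (Finset.subset_insert _ _)⟩
  · have h1 : ∀ ρ : E, φ (Fin.cons ρ (t ∘ π)) =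
        (Equiv.Perm.sign π : ℤ) • φ (Fin.cons ρ t) := by
      intro ρ
      rw [Sel.cons_perm, hφ.1.2, Sel.sign_up]
    unfold dF
    simp only [h1]
    rcases Int.units_eq_one_or (Equiv.Perm.sign π) with h | h
    · simp [h]
    · simp [h, finsum_neg_distrib]
  · refine (hφ.2.image Fin.tail).subset ?_
    intro t ht
    obtain ⟨ρ, hρ⟩ := polyAsc_exists_ne ht
    exact ⟨Fin.cons ρ t, hρ, Fin.tail_cons _ _⟩

theorem polyAsc_swap {face : Finset E → Prop} {m : ℕ} {φ : (Fin (m + 2) → E) → W}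
    (h : Sel.Altc face φ) (ρ ρ' : E)
    (t : Fin m → E) : φ (Fin.cons ρ' (Fin.cons ρ t : Fin (m + 1) → E)) =
      - φ (Fin.cons ρ (Fin.cons ρ' t : Fin (m + 1) → E)) := by
  have h1 := h.2 (Fin.cons ρ (Fin.cons ρ' t : Fin (m + 1) → E)) (Equiv.swap 0 1)
  rw [Equiv.Perm.sign_swap (by simp)] at h1
  simp only [Units.val_neg, Units.val_one, neg_smul, one_smul] at h1
  rw [← h1]
  congr 1
  funext i
  refine Fin.cases ?_ (fun i => ?_) i
  · simp [Function.comp]
  · refine Fin.cases ?_ (fun i => ?_) i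
    · have : (Fin.succ (0 : Fin (m + 1)) : Fin (m + 2)) = 1 := rfl
      simp [Function.comp, this]
    · have h2 : Equiv.swap (0 : Fin (m + 2)) 1 i.succ.succ = i.succ.succ := by
        apply Equiv.swap_apply_of_ne_of_ne
        · exact Fin.succ_ne_zero _
        · intro h3
          have := congrArg Fin.val h3
          simp at this
      simp [Function.comp, h2]

theorem polyAsc_bound {m : ℕ} {φ : (Fin m → E) → W} (h : (Function.support φ).Finite) :
    ∃ F : Finset E, ∀ t, φ t ≠ 0 → ∀ i, t i ∈ F := by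
  refine ⟨h.toFinset.biUnion Sel.im, fun t ht i => ?_⟩
  rw [Finset.mem_biUnion]
  exact ⟨t, by simpa using ht, Sel.mem_im.2 ⟨i, rfl⟩⟩

theorem dF_dF {face : Finset E → Prop} {m : ℕ} {φ : (Fin (m + 1 + 1) → E) → W}
    (hφ : AltF face φ) : dF (dF φ) = 0 := by
  obtain ⟨F, hF⟩ := polyAsc_bound hφ.2
  have h1 : ∀ t : Fin (m + 1) → E, dF φ t = ∑ ρ ∈ F, φ (Fin.cons ρ t) := by
    intro t
    apply finsum_eq_sum_of_support_subset
    intro ρ hρ
    have := hF _ hρ 0
    simpa using this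
  have h2 : ∀ t : Fin m → E, dF (dF φ) t = ∑ ρ ∈ F, dF φ (Fin.cons ρ t) := by
    intro t
    apply finsum_eq_sum_of_support_subset
    intro ρ hρ
    obtain ⟨ρ', hρ'⟩ := polyAsc_exists_ne hρ
    exact hF _ hρ' (Fin.succ 0)
  funext t
  rw [h2, Pi.zero_apply]
  simp only [h1]
  rw [← Finset.sum_product']
  refine Finset.sum_involution (fun a _ => (a.2, a.1)) ?_ ?_ ?_ ?_
  · rintro ⟨ρ, ρ'⟩ _
    simp only
    rw [polyAsc_swap hφ.1 ρ ρ' t, neg_add_cancel]
  · rintro ⟨ρ, ρ'⟩ _ hne h3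
    simp only [Prod.mk.injEq] at h3
    simp only at hne
    have h4 := (hφ.1.1 _ hne).1
    rw [h3.1, Fin.cons_injective_iff] at h4
    exact h4.1 ⟨0, by simp⟩
  · rintro ⟨ρ, ρ'⟩ ha
    simp only [Finset.mem_product] at ha ⊢
    exact ⟨ha.2, ha.1⟩
  · rintro ⟨ρ, ρ'⟩ _
    rfl

/-! ### Elimination -/

open Classical in
/-- Extension of a function on smaller tuples by the marked element, on the bottoms of rank
`n`. -/
def ascExt (X : Asc E) (n : ℕ) {m : ℕ} (g : (Fin m → E) → W) (t : Fin (m + 1) → E) : W :=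
  if Sel.ctc X.face t ∧ X.rk (X.bot (Sel.im t)) = n then
    ∑ i : Fin (m + 1), if t i = X.s (X.bot (Sel.im t)) then
      (Equiv.Perm.sign (Equiv.swap 0 i) : ℤ) • g (Fin.tail (t ∘ Equiv.swap 0 i)) else 0 else 0

theorem ascExt_ne {X : Asc E} {n m : ℕ} {g : (Fin m → E) → W} {t : Fin (m + 1) → E}
    (h : ascExt X n g t ≠ 0) :
    Sel.ctc X.face t ∧ X.rk (X.bot (Sel.im t)) = n ∧ X.s (X.bot (Sel.im t)) ∈ Sel.im t := by
  by_cases h1 : Sel.ctc X.face t ∧ X.rk (X.bot (Sel.im t)) = n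
  · refine ⟨h1.1, h1.2, ?_⟩
    by_contra h2
    apply h
    rw [ascExt, if_pos h1]
    apply Finset.sum_eq_zero
    intro i _
    rw [if_neg]
    intro h3
    exact h2 (Sel.mem_im.2 ⟨i, h3⟩)
  · exact absurd (by rw [ascExt, if_neg h1]) h

theorem ascExt_eq {X : Asc E} {n m : ℕ} (g : (Fin m → E) → W) {t : Fin (m + 1) → E}
    (h : Sel.ctc X.face t) (hn : X.rk (X.bot (Sel.im t)) = n) (i : Fin (m + 1))
    (hi : t i = X.s (X.bot (Sel.im t))) :
    ascExt X n g t =
      (Equiv.Perm.sign (Equiv.swap 0 i) : ℤ) • g (Fin.tail (t ∘ Equiv.swap 0 i)) := by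
  rw [ascExt, if_pos ⟨h, hn⟩, Finset.sum_eq_single i]
  · rw [if_pos hi]
  · intro j _ hj
    rw [if_neg]
    intro h2
    exact hj (h.1 (h2.trans hi.symm))
  · intro h2
    exact absurd (Finset.mem_univ i) h2

theorem ascExt_altc (X : Asc E) (n : ℕ) {m : ℕ} {g : (Fin m → E) → W}
    (hg : Sel.Altc X.face g) : Sel.Altc X.face (ascExt X n g) := by
  refine ⟨fun t ht => (ascExt_ne ht).1, fun t κ => ?_⟩
  by_cases h : Sel.ctc X.face t ∧ X.rk (X.bot (Sel.im t)) = n ∧
      X.s (X.bot (Sel.im t)) ∈ Sel.im t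
  swap
  · have h1 : ascExt X n g t = 0 := by
      by_contra h2
      exact h (ascExt_ne h2)
    have h3 : ascExt X n g (t ∘ κ) = 0 := by
      by_contra h2
      have := ascExt_ne h2
      rw [polyAsc_ctc_perm, Sel.im_perm] at this
      exact h this
    rw [h1, h3, smul_zero]
  obtain ⟨hct, hn, hs⟩ := h
  obtain ⟨i, hi⟩ := Sel.mem_im.1 hs
  rw [ascExt_eq g hct hn i hi,
    ascExt_eq (t := t ∘ κ) g ((polyAsc_ctc_perm κ).2 hct) (by rwa [Sel.im_perm])
      (κ.symm i) (by rw [Sel.im_perm]; simpa using hi)]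
  set σ : Equiv.Perm (Fin (m + 1)) := Equiv.swap 0 i * κ * Equiv.swap 0 (κ.symm i) with hσ
  have h0 : σ 0 = 0 := by
    simp [hσ]
  obtain ⟨π, hπ⟩ := Sel.exists_down σ h0
  have h1 : (t ∘ κ) ∘ Equiv.swap 0 (κ.symm i) = (t ∘ Equiv.swap 0 i) ∘ σ := by
    funext j
    simp [hσ]
  have h2 : Fin.tail ((t ∘ κ) ∘ Equiv.swap 0 (κ.symm i)) = Fin.tail (t ∘ Equiv.swap 0 i) ∘ π := by
    rw [h1, hπ]
    funext j
    simp only [Fin.tail, Function.comp]
    rw [Sel.up_succ]
  rw [h2, hg.2, ← Sel.sign_up π, ← hπ, hσ]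
  simp only [map_mul, Units.val_mul, smul_smul]
  congr 1
  have h3 : ((Equiv.Perm.sign (Equiv.swap 0 (κ.symm i)) : ℤˣ) : ℤ) *
      ((Equiv.Perm.sign (Equiv.swap 0 (κ.symm i)) : ℤˣ) : ℤ) = 1 := by
    rw [← Units.val_mul, Int.units_mul_self, Units.val_one]
  linear_combination (((Equiv.Perm.sign (Equiv.swap 0 i) : ℤˣ) : ℤ) *
    ((Equiv.Perm.sign κ : ℤˣ) : ℤ)) * h3

theorem ascExt_altF (X : Asc E) (n : ℕ) {m : ℕ} {g : (Fin m → E) → W}
    (hg : AltF X.face g) : AltF X.face (ascExt X n g) := by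
  refine ⟨ascExt_altc X n hg.1, ?_⟩
  refine (Set.finite_iUnion (f := fun i : Fin (m + 1) =>
    (fun t' : Fin m → E => (Fin.cons (X.s (X.bot (Sel.im t'))) t' : Fin (m + 1) → E) ∘
      Equiv.swap 0 i) '' Function.support g) (fun i => hg.2.image _)).subset ?_
  intro t ht
  obtain ⟨hct, hn, hs⟩ := ascExt_ne ht
  obtain ⟨i, hi⟩ := Sel.mem_im.1 hs
  rw [Set.mem_iUnion]
  refine ⟨i, Fin.tail (t ∘ Equiv.swap 0 i), ?_, ?_⟩
  · intro h0
    apply ht
    rw [ascExt_eq g hct hn i hi, h0, smul_zero]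
  · have h1 : Sel.im (Fin.tail (t ∘ Equiv.swap 0 i)) =
        (Sel.im t).erase (X.s (X.bot (Sel.im t))) := by
      rw [Sel.im_tail hct.1 i, hi]
    have h2 := X.erase _ hct.2 hs
    simp only
    rw [h1, h2, ← hi, ← Sel.swap_split]
    funext j
    simp

/-- The bottom has rank at least the rank of a smaller face. -/
theorem asc_rk_le (X : Asc E) {m : ℕ} {t : Fin m → E} {ρ : E}
    (h : Sel.ctc X.face (Fin.cons ρ t : Fin (m + 1) → E)) :
    X.rk (X.bot (Sel.im t)) ≤ X.rk (X.bot (insert ρ (Sel.im t))) := by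
  have h1 := polyAsc_ctc_cons.1 h
  rcases X.upper _ _ h1.2.1 h1.2.2 with h2 | h2
  · rw [h2]
  · exact h2.le

/-- On the faces of rank `n` without the marked element the extension is a primitive. -/
theorem ascExt_dF (X : Asc E) (n : ℕ) {m : ℕ} (g : (Fin m → E) → W) {t : Fin m → E}
    (ht : Sel.ctc X.face t) (hn : X.rk (X.bot (Sel.im t)) = n)
    (hs : X.s (X.bot (Sel.im t)) ∉ Sel.im t) : dF (ascExt X n g) t = g t := by
  have h1 := X.ins _ ht.2 hs
  have h2 : Sel.ctc X.face (Fin.cons (X.s (X.bot (Sel.im t))) t : Fin (m + 1) → E) :=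
    polyAsc_ctc_cons.2 ⟨ht.1, hs, h1.1⟩
  rw [dF, finsum_eq_single _ (X.s (X.bot (Sel.im t)))]
  · rw [ascExt_eq g h2 (by rw [Sel.im_cons, h1.2]; exact hn) 0
      (by rw [Sel.im_cons, h1.2]; rfl)]
    simp
  · intro ρ hρ
    by_contra hne
    obtain ⟨h3, h4, h5⟩ := ascExt_ne hne
    have h6 := polyAsc_ctc_cons.1 h3
    rw [Sel.im_cons] at h4 h5
    rcases X.upper _ _ h6.2.1 h6.2.2 with h7 | h7
    · rw [h7, Finset.mem_insert] at h5
      rcases h5 with h5 | h5
      · exact hρ h5.symm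
      · exact hs h5
    · omega

/-- The differential of the extension has rank at most `n`. -/
theorem ascExt_dF_rk (X : Asc E) (n : ℕ) {m : ℕ} (g : (Fin m → E) → W) {t : Fin m → E}
    (h : dF (ascExt X n g) t ≠ 0) : X.rk (X.bot (Sel.im t)) ≤ n := by
  obtain ⟨ρ, hρ⟩ := polyAsc_exists_ne h
  obtain ⟨h3, h4, -⟩ := ascExt_ne hρ
  have h5 := asc_rk_le X h3
  rw [Sel.im_cons] at h4
  omega

theorem asc_exact_aux (X : Asc E) {m : ℕ} (N : ℕ) : ∀ {φ : (Fin (m + 1) → E) → W},
    AltF X.face φ → dF φ = 0 → (∀ t, φ t ≠ 0 → X.rk (X.bot (Sel.im t)) < N) →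
    ∃ ψ : (Fin (m + 1 + 1) → E) → W, AltF X.face ψ ∧ dF ψ = φ := by
  induction N with
  | zero =>
    intro φ hφ _ hN
    refine ⟨0, AltF.zero, ?_⟩
    have h0 : φ = 0 := by
      funext t
      by_contra h
      exact absurd (hN t h) (by omega)
    rw [h0]
    funext t
    simp [dF]
  | succ n ih =>
    intro φ hφ hd hN
    set ψ := ascExt X n φ with hψ
    have hψF : AltF X.face ψ := ascExt_altF X n hφ
    set φ' := φ - dF ψ with hφ'
    have hφ'F : AltF X.face φ' := hφ.sub (dF_alt X.sub hψF)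
    have hd' : dF φ' = 0 := by
      rw [hφ', polyAsc_dF_sub hφ.2 (dF_alt X.sub hψF).2, hd, dF_dF hψF, sub_zero]
    have hN' : ∀ t, φ' t ≠ 0 → X.rk (X.bot (Sel.im t)) ≤ n := by
      intro t ht
      by_cases h1 : φ t = 0
      · have h2 : dF ψ t ≠ 0 := by
          intro h2
          apply ht
          rw [hφ', Pi.sub_apply, h1, h2, sub_zero]
        exact ascExt_dF_rk X n φ h2
      · have := hN t h1
        omega
    have h0 : ∀ t, Sel.ctc X.face t → X.rk (X.bot (Sel.im t)) = n →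
        X.s (X.bot (Sel.im t)) ∉ Sel.im t → φ' t = 0 := by
      intro t h1 h2 h3
      rw [hφ', Pi.sub_apply, ascExt_dF X n φ h1 h2 h3, sub_self]
    obtain ⟨ψ', h1, h2⟩ := ih hφ'F hd' (by
      intro t ht
      refine lt_of_le_of_ne (hN' t ht) fun hn => ?_
      have hct := hφ'F.1.1 t ht
      have hs : X.s (X.bot (Sel.im t)) ∈ Sel.im t := by
        by_contra hs
        exact ht (h0 t hct hn hs)
      obtain ⟨i, hi⟩ := Sel.mem_im.1 hs
      have e1 := Sel.im_tail hct.1 i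
      rw [hi] at e1
      have e3 := X.erase _ hct.2 hs
      set t' := Fin.tail (t ∘ Equiv.swap 0 i) with ht'
      have hct' : Sel.ctc X.face t' := by
        refine ⟨?_, by rw [e1]; exact X.sub _ _ hct.2 (Finset.erase_subset _ _)⟩
        have h3 : Function.Injective (t ∘ Equiv.swap 0 i) := (Sel.inj_perm _).2 hct.1
        rw [Sel.swap_split, Fin.cons_injective_iff] at h3
        exact h3.2
      have hbot : X.bot (Sel.im t') = X.bot (Sel.im t) := by rw [e1, e3]
      have hs' : X.s (X.bot (Sel.im t')) ∉ Sel.im t' := by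
        rw [hbot, e1]
        exact Finset.notMem_erase _ _
      have h3 : dF φ' t' = 0 := by rw [hd']; rfl
      rw [dF, finsum_eq_single _ (X.s (X.bot (Sel.im t)))] at h3
      · rw [← hi, ht', ← Sel.swap_split, hφ'F.1.2] at h3
        rcases Int.units_eq_one_or (Equiv.Perm.sign (Equiv.swap 0 i)) with h5 | h5
        · rw [h5] at h3; simp at h3; exact ht h3
        · rw [h5] at h3; simp at h3; exact ht h3
      · intro ρ hρ
        by_contra hne
        have h4 := hφ'F.1.1 _ hne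
        have h6 := polyAsc_ctc_cons.1 h4
        have h7 := hN' _ hne
        rw [Sel.im_cons] at h7
        rcases X.upper _ _ h6.2.1 h6.2.2 with h8 | h8
        · apply hne
          apply h0 _ h4
          · rw [Sel.im_cons, h8, hbot, hn]
          · rw [Sel.im_cons, h8, hbot, Finset.mem_insert]
            rintro (h9 | h9)
            · exact hρ h9.symm
            · rw [hbot] at hs'
              exact hs' h9
        · rw [hbot] at h8
          omega)
    refine ⟨ψ + ψ', hψF.add h1, ?_⟩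
    rw [polyAsc_dF_add hψF.2 h1.2, h2, hφ']
    abel

/-- Exactness in positive degrees. -/
theorem Asc.exact (X : Asc E) {m : ℕ} {φ : (Fin (m + 1) → E) → W} (hφ : AltF X.face φ)
    (hd : dF φ = 0) : ∃ ψ : (Fin (m + 1 + 1) → E) → W, AltF X.face ψ ∧ dF ψ = φ := by
  refine asc_exact_aux X
    ((hφ.2.toFinset.sup fun t => X.rk (X.bot (Sel.im t))) + 1) hφ hd fun t ht => ?_
  have h1 : t ∈ hφ.2.toFinset := by simpa using ht
  exact Nat.lt_succ_of_le (Finset.le_sup (f := fun t => X.rk (X.bot (Sel.im t))) h1)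

/-- Exactness in degree zero. -/
theorem Asc.exact_zero (X : Asc E) {φ : (Fin 0 → E) → W} (hφ : AltF X.face φ) :
    ∃ ψ : (Fin 1 → E) → W, AltF X.face ψ ∧ dF ψ = φ := by
  by_cases h0 : φ = 0
  · refine ⟨0, AltF.zero, ?_⟩
    rw [h0]
    funext t
    simp [dF]
  · refine ⟨ascExt X (X.rk (X.bot ∅)) φ, ascExt_altF X _ hφ, ?_⟩
    have him : ∀ t : Fin 0 → E, Sel.im t = ∅ := by
      intro t
      rw [Sel.im]
      simp
    obtain ⟨t₀, ht₀⟩ : ∃ t, φ t ≠ 0 := by
      by_contra h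
      push Not at h
      exact h0 (funext h)
    have hct : ∀ t : Fin 0 → E, Sel.ctc X.face t := by
      intro t
      rw [Subsingleton.elim t t₀]
      exact hφ.1.1 _ ht₀
    funext t
    exact ascExt_dF X _ φ (hct t) (by rw [him]) (by rw [him t]; simp)

variable {V : Type} [NormedAddCommGroup V] [NormedSpace ℝ V] [FiniteDimensional ℝ V]

/-- The faces of a simple polyhedron. -/
theorem PolySys.exists_asc (P : PolySys E V) : ∃ X : Asc E, X.face = P.Face := by
  obtain ⟨l, hl⟩ := PolySys.exists_gen P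
  have hbot : ∀ R : Finset E, ∃ S : Finset E, P.Face R → ∃ h, P.Vx S h ∧ R ⊆ S ∧
      (∀ e ∈ S, e ∉ R → 0 < l (P.dv S e)) := by
    intro R
    by_cases hR : P.Face R
    · obtain ⟨S, h, h1, h2, h3, -⟩ := PolySys.min_vx hl hR
      exact ⟨S, fun _ => ⟨h, h1, h2, h3⟩⟩
    · exact ⟨∅, fun h => absurd h hR⟩
  choose bot hbot using hbot
  have hE : Nonempty E := by
    have hF0 : P.Face ∅ := ⟨by simp, by
      obtain ⟨x, hx⟩ := P.ne
      exact ⟨x, hx, by simp⟩⟩
    obtain ⟨h, h1, -⟩ := hbot ∅ hF0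
    obtain ⟨e, -⟩ := PolySys.exists_pos_dir hl.pos h1
    exact ⟨e⟩
  have hs : ∀ S : Finset E, ∃ e : E, (∃ h, P.Vx S h) → e ∈ S ∧ 0 < l (P.dv S e) := by
    intro S
    by_cases hS : ∃ h, P.Vx S h
    · obtain ⟨h, hv⟩ := hS
      obtain ⟨e, he, h1⟩ := PolySys.exists_pos_dir hl.pos hv
      refine ⟨e, fun _ => ⟨he, ?_⟩⟩
      rcases h1 with h1 | h1
      · exact h1
      · exact absurd h1 (hl.ne S h hv e he)
    · obtain ⟨e⟩ := hE
      exact ⟨e, fun h1 => absurd h1 hS⟩
  choose s hs using hs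
  have hvface : ∀ {S T : Finset E} {h : V}, P.Vx S h → T ⊆ S →
      (∀ e ∈ S, e ∉ T → 0 < l (P.dv S e)) → P.Face T ∧ bot T = S := by
    intro S T h hv hTS hpos
    have hc : P.Face T := ⟨fun e he => ((hv.tight e).1 (hTS he)).1,
      h, hv.mem, fun e he => ((hv.tight e).1 (hTS he)).2⟩
    obtain ⟨h', h1, h2, h3⟩ := hbot T hc
    exact ⟨hc, PolySys.min_unique hl h1 hv h2 hTS h3 hpos⟩
  refine ⟨{ face := P.Face
            bot := bot
            s := s
            rk := P.polyCxRk l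
            sub := fun R R' h hRR => PolySys.polyCx_face_sub h hRR
            erase := ?_
            ins := ?_
            upper := ?_ }, rfl⟩
  · intro R hR hsR
    obtain ⟨h, h1, h2, h3⟩ := hbot R hR
    have h4 := hs (bot R) ⟨h, h1⟩
    refine (hvface h1 ((Finset.erase_subset _ _).trans h2) fun e he heR => ?_).2
    by_cases hes : e = s (bot R)
    · rw [hes]; exact h4.2
    · exact h3 e he fun h5 => heR (Finset.mem_erase.2 ⟨hes, h5⟩)
  · intro R hR hsR
    obtain ⟨h, h1, h2, h3⟩ := hbot R hR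
    have h4 := hs (bot R) ⟨h, h1⟩
    refine hvface h1 (Finset.insert_subset h4.1 h2) fun e he heR => ?_
    exact h3 e he fun h5 => heR (Finset.mem_insert_of_mem h5)
  · intro R ρ hρ hc
    have hR : P.Face R := PolySys.polyCx_face_sub hc (Finset.subset_insert _ _)
    obtain ⟨h, h1, h2, h3⟩ := hbot R hR
    obtain ⟨h', h1', h2', h3'⟩ := hbot (insert ρ R) hc
    have h5 : h' ∈ P.Fc R := ⟨h1'.mem, fun e he =>
      ((h1'.tight e).1 (h2' (Finset.mem_insert_of_mem he))).2⟩
    have hneg : ∀ e ∈ bot R, e ∉ R → (-l) (P.dv (bot R) e) < 0 := by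
      intro e he heR
      have := h3 e he heR
      simpa using this
    rcases PolySys.polyCx_strict h1 h2 hneg h5 with h6 | h6
    · left
      rw [h6] at h1'
      exact PolySys.polyCx_vx_eq h1' h1
    · right
      refine PolySys.polyCx_rk_lt hl.pos h1' h1 ?_
      simpa using h6

end Pool.Agent.CG2
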