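import Pool.Agent.CG2.CompactOv

/-!
# Open compact subgroups of `GL₂(𝔸_f)`
-/

noncomputable section

namespace Pool.Agent.CG2

open NumberField IsDedekindDomain Matrix

variable {F : Type} [Field F] [NumberField F]

/-- The subgroup `K` of `GL₂(𝔸_f)` is open and compact, and it is `GL₂(O_v) × K^v` for the places
`v` outside the finite set `S`. -/
structure OC (K : Subgroup (GA F)) (S : Set (Pl F)) : Prop where
  fin : S.Finite
  op : ∃ U : ∀ v : Pl F, Subgroup (GQ v), (∀ v, IsOpen (U v : Set (GQ v))) ∧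
    (∀ v, v ∉ S → GZ v ≤ U v) ∧ ∀ k : GA F, (∀ v, k.1 v ∈ U v) → k ∈ K
  cp : ∃ C : ∀ v : Pl F, Subgroup (GQ v), (∀ v, IsCompact (C v : Set (GQ v))) ∧
    (∀ v, v ∉ S → C v ≤ GZ v) ∧ ∀ k ∈ K, ∀ v, k.1 v ∈ C v

end Pool.Agent.CG2
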