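import Pool.Agent.CG2.CspBase

/-!
# Approximation and finiteness in `F`
-/

noncomputable section

namespace Pool.Agent.CG2

open NumberField IsDedekindDomain Matrix

variable {F : Type} [Field F] [NumberField F]

theorem CspApprox_ge_iff {w : Pl F} {a : 𝓞 F} {n : ℕ} :
    Ge w (n : ℤ) (a : F) ↔ a ∈ w.asIdeal ^ n := by
  rw [Ge]
  change w.valuation F (algebraMap (𝓞 F) F a) ≤ _ ↔ _
  rw [HeightOneSpectrum.valuation_of_algebraMap]
  exact w.intValuation_le_pow_iff_mem a n

/-- Every non-zero element has a finite order at every place, zero almost everywhere. -/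
theorem exists_ord (x : F) (hx : x ≠ 0) : ∃ o : Pl F →₀ ℤ, ∀ w, w.valuation F x =
    WithZero.exp (-(o w)) := by
  classical
  have h0 : ∀ w : Pl F, w.valuation F x ≠ 0 := fun w => (Valuation.ne_zero_iff _).2 hx
  have hfin : {w : Pl F | w.valuation F x ≠ 1}.Finite := by
    refine ((HeightOneSpectrum.Support.finite (R := 𝓞 F) x).union
      (HeightOneSpectrum.Support.finite (R := 𝓞 F) x⁻¹)).subset ?_
    intro w hw
    rcases lt_or_gt_of_ne hw with h | h
    · right
      change 1 < w.valuation F x⁻¹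
      rw [map_inv₀]
      exact (one_lt_inv₀ (zero_lt_iff.2 (h0 w))).2 h
    · left
      exact h
  refine ⟨Finsupp.onFinset hfin.toFinset (fun w => - WithZero.log (w.valuation F x)) ?_, ?_⟩
  · intro w hw
    rw [Set.Finite.mem_toFinset]
    intro h
    apply hw
    rw [h, WithZero.log_one, neg_zero]
  · intro w
    rw [Finsupp.onFinset_apply, neg_neg, WithZero.exp_log (h0 w)]

/-- A power of every prime ideal is principal. -/
theorem exists_pi (v : Pl F) : ∃ (h : ℕ) (ϖ : F), 0 < h ∧ ϖ ≠ 0 ∧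
    v.valuation F ϖ = WithZero.exp (-(h : ℤ)) ∧ ∀ w, w ≠ v → w.valuation F ϖ = 1 := by
  classical
  have hv0 : v.asIdeal ∈ nonZeroDivisors (Ideal (𝓞 F)) := mem_nonZeroDivisors_of_ne_zero v.ne_bot
  let c : ClassGroup (𝓞 F) := ClassGroup.mk0 ⟨v.asIdeal, hv0⟩
  let h : ℕ := Fintype.card (ClassGroup (𝓞 F))
  have hh : 0 < h := Fintype.card_pos
  have h1 : c ^ h = 1 := pow_card_eq_one
  have h2 : (v.asIdeal ^ h).IsPrincipal := by
    rw [← map_pow] at h1
    exact (ClassGroup.mk0_eq_one_iff (pow_mem hv0 h)).1 h1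
  obtain ⟨a, ha⟩ := h2
  rw [Ideal.submodule_span_eq] at ha
  have ha0 : a ≠ 0 := by
    rintro rfl
    rw [Ideal.span_singleton_zero] at ha
    exact pow_ne_zero h v.ne_bot ha
  have hval : ∀ w : Pl F, w.valuation F (a : F) ≠ 0 := fun w =>
    (Valuation.ne_zero_iff _).2 (by simpa using ha0)
  refine ⟨h, (a : F), hh, by simpa using ha0, ?_, ?_⟩
  · have h3 : Ge v (h : ℤ) (a : F) := CspApprox_ge_iff.2 (by rw [ha]; exact Ideal.mem_span_singleton_self a)
    have h4 : ¬ Ge v ((h + 1 : ℕ) : ℤ) (a : F) := by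
      intro h4
      have h5 := CspApprox_ge_iff.1 h4
      have h6 : v.asIdeal ^ h ≤ v.asIdeal ^ (h + 1) := by
        conv_lhs => rw [ha]
        rw [Ideal.span_singleton_le_iff_mem]
        exact h5
      have h7 := Ideal.dvd_iff_le.2 h6
      have h8 := (pow_dvd_pow_iff v.ne_bot (fun h => v.isPrime.ne_top (Ideal.isUnit_iff.1 h))).1 h7
      omega
    rw [Ge, ← WithZero.log_le_iff_le_exp (hval v)] at h3 h4
    have h5 : WithZero.log (v.valuation F (a : F)) = -(h : ℤ) := by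
      push_cast at h4
      omega
    rw [← h5, WithZero.exp_log (hval v)]
  · intro w hw
    rw [HeightOneSpectrum.valuation_eq_one_iff_notMem]
    intro haw
    apply hw
    have h3 : v.asIdeal ^ h ≤ w.asIdeal := by
      rw [ha, Ideal.span_singleton_le_iff_mem]; exact haw
    have h4 : v.asIdeal ≤ w.asIdeal := (w.isPrime.pow_le_iff hh.ne').1 h3
    exact HeightOneSpectrum.ext (v.isMaximal.eq_of_le w.isPrime.ne_top h4).symm

/-- Chinese remainder theorem. -/
theorem approx (T : Finset (Pl F)) (a : Pl F → F) (e : Pl F → ℤ) :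
    ∃ x : F, (∀ w ∈ T, Ge w (e w) (x - a w)) ∧ ∀ w, w ∉ T → Ge w 0 x := by
  classical
  obtain ⟨b, hb⟩ := IsLocalization.exist_integer_multiples_of_finset (nonZeroDivisors (𝓞 F))
    (T.image a)
  have hb0 : ((b : 𝓞 F) : F) ≠ 0 := by
    have := nonZeroDivisors.ne_zero b.2
    simp [this]
  obtain ⟨o, ho⟩ := exists_ord ((b : 𝓞 F) : F) hb0
  have ho' : ∀ w, 0 ≤ o w := by
    intro w
    have h1 := ge_int w (b : 𝓞 F)
    rw [Ge, ho, neg_zero, WithZero.exp_le_exp] at h1
    omega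
  -- numerators
  have hnum : ∀ w, ∃ c : 𝓞 F, w ∈ T → (c : F) = ((b : 𝓞 F) : F) * a w := by
    intro w
    by_cases hw : w ∈ T
    · obtain ⟨c, hc⟩ := hb (a w) (Finset.mem_image_of_mem a hw)
      refine ⟨c, fun _ => ?_⟩
      rw [Algebra.smul_def] at hc
      exact hc
    · exact ⟨0, fun h => absurd h hw⟩
  choose c hc using hnum
  let T' := T ∪ o.support
  obtain ⟨y, hy⟩ := IsDedekindDomain.exists_forall_sub_mem_ideal (s := T')
    (fun w : Pl F => w.asIdeal)
    (fun w => (max (e w) 0 + o w).toNat) (fun w _ => w.prime) (fun w _ w' _ h h' =>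
      h (HeightOneSpectrum.ext h')) (fun w => if w.1 ∈ T then c w.1 else 0)
  have hdiv : ∀ (w : Pl F) (n : ℤ) (z : F), Ge w (n + o w) (((b : 𝓞 F) : F) * z) → Ge w n z := by
    intro w n z hz
    have h1 : z = ((b : 𝓞 F) : F)⁻¹ * (((b : 𝓞 F) : F) * z) := by
      rw [inv_mul_cancel_left₀ hb0]
    have h2 : Ge w (-(o w)) (((b : 𝓞 F) : F)⁻¹) := by
      rw [Ge, map_inv₀, ho, neg_neg, ← WithZero.exp_neg, neg_neg]
    rw [h1]
    exact (h2.mul hz).mono (by omega)
  refine ⟨(y : F) / ((b : 𝓞 F) : F), ?_, ?_⟩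
  · intro w hw
    have hw' : w ∈ T' := Finset.mem_union_left _ hw
    have h1 := hy w hw'
    simp only [if_pos hw] at h1
    have h2 := CspApprox_ge_iff.2 h1
    apply hdiv
    have h3 : ((b : 𝓞 F) : F) * ((y : F) / ((b : 𝓞 F) : F) - a w) = ((y - c w : 𝓞 F) : F) := by
      have h4 : ((y - c w : 𝓞 F) : F) = (y : F) - (c w : F) := map_sub (algebraMap (𝓞 F) F) y (c w)
      rw [h4, hc w hw, mul_sub, mul_div_cancel₀ _ hb0]
    rw [h3]
    refine h2.mono ?_
    have := ho' w
    rw [Int.toNat_of_nonneg (by omega)]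
    omega
  · intro w hw
    apply hdiv
    rw [mul_div_cancel₀ _ hb0, zero_add]
    by_cases hw' : w ∈ T'
    · have h1 := hy w hw'
      simp only [if_neg hw, sub_zero] at h1
      have h2 := CspApprox_ge_iff.2 h1
      refine h2.mono ?_
      have := ho' w
      rw [Int.toNat_of_nonneg (by omega)]
      omega
    · have h1 : o w = 0 := by
        by_contra h
        exact hw' (Finset.mem_union_right _ (Finsupp.mem_support_iff.2 h))
      rw [h1]
      exact ge_int w y

/-- The local quotients are finite. -/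
theorem CspApprox_loc (w : Pl F) (e e' : ℤ) : ∃ Y : Set F, Y.Finite ∧
    ∀ x, Ge w e x → ∃ y ∈ Y, Ge w e' (x - y) := by
  obtain ⟨π, hπ⟩ := w.valuation_exists_uniformizer F
  have hπ0 : π ≠ 0 := by
    rintro rfl
    rw [map_zero] at hπ
    exact WithZero.exp_ne_zero hπ.symm
  have hfin : Finite (𝓞 F ⧸ w.asIdeal ^ (e' - e).toNat) :=
    Ideal.finiteQuotientOfFreeOfNeBot _ (pow_ne_zero _ w.ne_bot)
  let g : (𝓞 F ⧸ w.asIdeal ^ (e' - e).toNat) → F := fun c => π ^ e * ((Quotient.out c : 𝓞 F) : F)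
  refine ⟨Set.range g, Set.finite_range g, ?_⟩
  have hpow : ∀ k : ℤ, w.valuation F (π ^ k) = WithZero.exp (-k) := by
    intro k
    rw [map_zpow₀, hπ, ← WithZero.exp_zsmul]
    simp
  intro x hx
  have h1 : w.valuation F (π ^ (-e) * x) ≤ 1 := by
    have h2 : Ge w (-e) (π ^ (-e)) := by rw [Ge, hpow]
    have := h2.mul hx
    rw [Ge] at this
    simpa using this
  obtain ⟨a, ha⟩ := w.exists_valuation_sub_lt_of_integer h1
    (Units.mk0 (WithZero.exp (-((e' - e).toNat : ℤ))) WithZero.exp_ne_zero)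
  refine ⟨g (Ideal.Quotient.mk _ a), ⟨_, rfl⟩, ?_⟩
  have h3 : Ge w ((e' - e).toNat : ℤ) ((a : F) - π ^ (-e) * x) := ha.le
  have h4 : Ge w ((e' - e).toNat : ℤ) ((((Quotient.out (Ideal.Quotient.mk
      (w.asIdeal ^ (e' - e).toNat) a)) : 𝓞 F) : F) - (a : F)) := by
    have h5 : (Quotient.out (Ideal.Quotient.mk (w.asIdeal ^ (e' - e).toNat) a) - a : 𝓞 F) ∈
        w.asIdeal ^ (e' - e).toNat := by
      rw [← Ideal.Quotient.eq]
      exact Quotient.out_eq' _
    have := CspApprox_ge_iff.2 h5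
    convert this using 1
    push_cast
    rfl
  have h6 := (h3.add h4).neg
  have h7 : Ge w e (π ^ e) := by rw [Ge, hpow]
  have h8 := h7.mul h6
  have h9 : x - g (Ideal.Quotient.mk _ a) = π ^ e * -((a : F) - π ^ (-e) * x +
      ((((Quotient.out (Ideal.Quotient.mk (w.asIdeal ^ (e' - e).toNat) a)) : 𝓞 F) : F) -
        (a : F))) := by
    simp only [g]
    have : π ^ e * π ^ (-e) = 1 := by rw [← zpow_add₀ hπ0, add_neg_cancel, zpow_zero]
    linear_combination (-x) * this
  rw [h9]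
  refine h8.mono ?_
  have := Int.self_le_toNat (e' - e)
  omega

theorem fin_quot (e e' : Pl F → ℤ) (h : {w | e w < e' w}.Finite) :
    ∃ Y : Set F, Y.Finite ∧ (∀ y ∈ Y, y ∈ R e) ∧ ∀ y ∈ R e, ∃ y₀ ∈ Y, y - y₀ ∈ R e' := by
  classical
  choose Yw hYf hY using fun w : Pl F => CspApprox_loc w (e w) (e' w)
  have hfT : Finite ↥{w | e w < e' w} := h
  -- the tuple of representatives
  have hex : ∀ (x : R e) (w : ↥{w | e w < e' w}), ∃ y ∈ Yw w.1, Ge w.1 (e' w.1) ((x : F) - y) :=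
    fun x w => hY w.1 x (x.2 w.1)
  choose t ht1 ht2 using hex
  have himg : (t '' Set.univ).Finite := by
    refine (Set.Finite.pi fun w : ↥{w | e w < e' w} => hYf w.1).subset ?_
    rintro _ ⟨x, _, rfl⟩
    intro w _
    exact ht1 x w
  obtain ⟨s', -, hs'⟩ := Set.exists_subset_bijOn Set.univ t
  have hs'f : s'.Finite := by
    refine Set.Finite.of_finite_image ?_ hs'.injOn
    rw [hs'.image_eq]
    exact himg
  refine ⟨(fun x : R e => (x : F)) '' s', hs'f.image _, ?_, ?_⟩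
  · rintro _ ⟨x, _, rfl⟩
    exact x.2
  · intro y hy
    have h1 : t ⟨y, hy⟩ ∈ t '' Set.univ := ⟨_, trivial, rfl⟩
    rw [← hs'.image_eq] at h1
    obtain ⟨x, hx, hxt⟩ := h1
    refine ⟨x, ⟨x, hx, rfl⟩, fun w => ?_⟩
    by_cases hw : e w < e' w
    · have h2 := ht2 ⟨y, hy⟩ ⟨w, hw⟩
      have h3 := ht2 x ⟨w, hw⟩
      rw [hxt] at h3
      have := h2.sub h3
      convert this using 1
      ring
    · exact ((hy w).sub (x.2 w)).mono (not_lt.1 hw)

end Pool.Agent.CG2
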