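import Pool.Agent.CG2.PtK
import Pool.Agent.CG2.AdDefs
import Pool.Agent.CG2.CspApprox
import Pool.Agent.CG2.Hecke

/-!
# Open compact subgroups of `GL₂(𝔸_f)`: finiteness
-/

noncomputable section

namespace Pool.Agent.CG2

open NumberField IsDedekindDomain Matrix

variable {F : Type} [Field F] [NumberField F]

/-- The elements of `GL₂(𝔸_f)` with components in given finite sets, almost all `{1}`, form a
finite set. -/
theorem AdFin_finite (W : Set (Pl F)) (hW : W.Finite) (X : ∀ v : Pl F, Set (GQ v))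
    (hX : ∀ v, (X v).Finite) (h1 : ∀ v, v ∉ W → X v ⊆ {1}) :
    {g : GA F | ∀ v, g.1 v ∈ X v}.Finite := by
  have hWf : Finite ↥W := hW
  have hpi : (Set.pi Set.univ fun v : ↥W => X v.1).Finite := Set.Finite.pi fun v => hX v.1
  refine Set.Finite.of_finite_image (f := fun (g : GA F) (v : ↥W) => g.1 v.1)
    (hpi.subset ?_) ?_
  · rintro _ ⟨g, hg, rfl⟩ v _
    exact hg v.1
  · intro g hg g' hg' h
    apply Subtype.ext
    funext v
    by_cases hv : v ∈ W
    · exact congrFun h ⟨v, hv⟩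
    · rw [h1 v hv (hg v), h1 v hv (hg' v)]

/-- A compact subset of `GL₂(𝔸_f)` is covered by finitely many cosets of an open subgroup. -/
theorem fin_cover (D : ∀ v : Pl F, Set (GQ v)) (hD : ∀ v, IsCompact (D v))
    (hfin : {v | ¬ D v ⊆ (GZ v : Set (GQ v))}.Finite) {K : Subgroup (GA F)} {S : Set (Pl F)}
    (hK : OC K S) : ∃ Φ : Set (GA F), Φ.Finite ∧ ∀ g : GA F, (∀ v, g.1 v ∈ D v) →
      ∃ φ ∈ Φ, ∃ κ ∈ K, g = φ * κ := by
  classical
  obtain ⟨U, hU, hUS, hUK⟩ := hK.op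
  -- local covers
  have hloc : ∀ v, ∃ X : Set (GQ v), X.Finite ∧ ∀ g ∈ D v, ∃ x ∈ X, x⁻¹ * g ∈ U v := by
    intro v
    obtain ⟨t, ht⟩ := (hD v).elim_finite_subcover (fun x : GQ v => {g | x⁻¹ * g ∈ U v})
      (fun x => (hU v).preimage (continuous_const_mul x⁻¹))
      (fun g _ => Set.mem_iUnion.2 ⟨g, by
        rw [Set.mem_ofPred_eq, inv_mul_cancel]
        exact (U v).one_mem⟩)
    refine ⟨t, t.finite_toSet, fun g hg => ?_⟩
    have := ht hg
    simp only [Set.mem_iUnion, Set.mem_ofPred_eq] at this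
    obtain ⟨x, hx, h⟩ := this
    exact ⟨x, hx, h⟩
  choose X hXf hX using hloc
  set T : Set (Pl F) := {v | ¬ D v ⊆ (GZ v : Set (GQ v))} with hT
  let Y : ∀ v : Pl F, Set (GQ v) := fun v => if v ∈ S ∪ T then X v else {1}
  have hY1 : ∀ v, v ∉ S ∪ T → Y v = {1} := fun v hv => if_neg hv
  have hY2 : ∀ v, v ∈ S ∪ T → Y v = X v := fun v hv => if_pos hv
  have hYf : ∀ v, (Y v).Finite := by
    intro v
    by_cases hv : v ∈ S ∪ T
    · rw [hY2 v hv]; exact hXf v
    · rw [hY1 v hv]; exact Set.finite_singleton 1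
  have hYD : ∀ v, ∀ g ∈ D v, ∃ x ∈ Y v, x⁻¹ * g ∈ U v := by
    intro v g hg
    by_cases hv : v ∈ S ∪ T
    · rw [hY2 v hv]; exact hX v g hg
    · rw [hY1 v hv]
      have h1 : v ∉ S := fun h => hv (Or.inl h)
      have h2 : D v ⊆ (GZ v : Set (GQ v)) := by
        by_contra h
        exact hv (Or.inr h)
      exact ⟨1, rfl, by rw [inv_one, one_mul]; exact hUS v h1 (h2 hg)⟩
  refine ⟨{g : GA F | ∀ v, g.1 v ∈ Y v}, AdFin_finite (S ∪ T) (hK.fin.union hfin) Y hYf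
    (fun v hv => (hY1 v hv).subset), ?_⟩
  intro g hg
  choose x hx hxg using fun v => hYD v (g.1 v) (hg v)
  have hxfin : {v | x v ∉ GZ v}.Finite := by
    refine (hK.fin.union hfin).subset ?_
    intro v hv
    by_contra h
    have := hx v
    rw [hY1 v h] at this
    apply hv
    rw [this]
    exact (GZ v).one_mem
  refine ⟨⟨x, hxfin⟩, hx, (⟨x, hxfin⟩ : GA F)⁻¹ * g, hUK _ ?_, ?_⟩
  · exact hxg
  · rw [mul_inv_cancel_left]

theorem OC.cover {K K' : Subgroup (GA F)} {S S' : Set (Pl F)} (hK : OC K S) (hK' : OC K' S')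
    (a : GA F) : ∃ Φ : Set (GA F), Φ.Finite ∧ ∀ κ ∈ K, ∃ φ ∈ Φ, ∃ κ' ∈ K', κ * a = φ * κ' := by
  obtain ⟨C, hC, hCS, hCK⟩ := hK.cp
  obtain ⟨Φ, hΦ, h⟩ := fin_cover (fun v => (fun x => x * a.1 v) '' (C v : Set (GQ v)))
    (fun v => (hC v).image (continuous_mul_const (a.1 v))) (by
      refine (hK.fin.union a.2).subset ?_
      intro v hv
      by_contra h
      simp only [Set.mem_union, Set.mem_ofPred_eq, not_or, not_not] at h
      apply hv
      rintro _ ⟨x, hx, rfl⟩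
      exact (GZ v).mul_mem (hCS v h.1 hx) h.2) hK'
  refine ⟨Φ, hΦ, fun κ hκ => ?_⟩
  exact h (κ * a) fun v => ⟨κ.1 v, hCK κ hκ v, rfl⟩

theorem OC.inter {K K' : Subgroup (GA F)} {S S' : Set (Pl F)} (hK : OC K S) (hK' : OC K' S') :
    OC (K ⊓ K') (S ∪ S') := by
  obtain ⟨U, hU, hUS, hUK⟩ := hK.op
  obtain ⟨U', hU', hUS', hUK'⟩ := hK'.op
  obtain ⟨C, hC, hCS, hCK⟩ := hK.cp
  refine ⟨hK.fin.union hK'.fin, ⟨fun v => U v ⊓ U' v, fun v => ?_, fun v hv => ?_, fun k hk => ?_⟩,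
    ⟨C, hC, fun v hv => ?_, fun k hk => ?_⟩⟩
  · rw [Subgroup.coe_inf]
    exact (hU v).inter (hU' v)
  · exact le_inf (hUS v fun h => hv (Or.inl h)) (hUS' v fun h => hv (Or.inr h))
  · exact ⟨hUK k fun v => (hk v).1, hUK' k fun v => (hk v).2⟩
  · exact hCS v fun h => hv (Or.inl h)
  · exact hCK k hk.1

theorem OC.conj {K : Subgroup (GA F)} {S : Set (Pl F)} (hK : OC K S) (a : GA F) :
    ∃ S', OC (K.map (MulAut.conj a).toMonoidHom) S' := by
  obtain ⟨U, hU, hUS, hUK⟩ := hK.op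
  obtain ⟨C, hC, hCS, hCK⟩ := hK.cp
  refine ⟨S ∪ {v | a.1 v ∉ GZ v}, hK.fin.union a.2,
    ⟨fun v => (U v).map (MulAut.conj (a.1 v)).toMonoidHom, fun v => ?_, fun v hv => ?_,
      fun k hk => ?_⟩,
    ⟨fun v => (C v).map (MulAut.conj (a.1 v)).toMonoidHom, fun v => ?_, fun v hv => ?_,
      fun k hk => ?_⟩⟩
  · rw [Subgroup.coe_map]
    have h1 : IsOpenMap (fun x : GQ v => a.1 v * x * (a.1 v)⁻¹) :=
      (isOpenMap_mul_right _).comp (isOpenMap_mul_left _)
    exact h1 _ (hU v)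
  · simp only [Set.mem_union, Set.mem_ofPred_eq, not_or, not_not] at hv
    intro x hx
    refine ⟨(a.1 v)⁻¹ * x * a.1 v, hUS v hv.1
      ((GZ v).mul_mem ((GZ v).mul_mem ((GZ v).inv_mem hv.2) hx) hv.2), ?_⟩
    change a.1 v * ((a.1 v)⁻¹ * x * a.1 v) * (a.1 v)⁻¹ = x
    group
  · refine ⟨a⁻¹ * k * a, hUK _ fun v => ?_, ?_⟩
    · obtain ⟨u, hu, hu'⟩ := hk v
      change a.1 v * u * (a.1 v)⁻¹ = k.1 v at hu'
      change (a.1 v)⁻¹ * k.1 v * a.1 v ∈ U v
      rw [← hu']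
      have : (a.1 v)⁻¹ * (a.1 v * u * (a.1 v)⁻¹) * a.1 v = u := by group
      rw [this]
      exact hu
    · change a * (a⁻¹ * k * a) * a⁻¹ = k
      group
  · rw [Subgroup.coe_map]
    have h1 : Continuous (fun x : GQ v => a.1 v * x * (a.1 v)⁻¹) :=
      (continuous_mul_const _).comp (continuous_const_mul _)
    exact (hC v).image h1
  · simp only [Set.mem_union, Set.mem_ofPred_eq, not_or, not_not] at hv
    rintro _ ⟨x, hx, rfl⟩
    exact (GZ v).mul_mem ((GZ v).mul_mem hv.2 (hCS v hv.1 hx)) ((GZ v).inv_mem hv.2)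
  · obtain ⟨x, hx, rfl⟩ := hk
    intro v
    exact ⟨x.1 v, hCK x hx v, rfl⟩

theorem OC.finiteIndex {K K' : Subgroup (GA F)} {S S' : Set (Pl F)} (hK : OC K S)
    (hK' : OC K' S') : (K'.subgroupOf K).FiniteIndex := by
  obtain ⟨Φ, hΦ, h⟩ := hK.cover hK' 1
  choose f hf k hk hfk using h
  -- the map from the cosets to `Φ` is injective up to the choice of representatives
  have hfin : Finite ↥Φ := hΦ
  let q : K ⧸ K'.subgroupOf K → ↥Φ := fun c => ⟨f (Quotient.out c).1 (Quotient.out c).2,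
    hf (Quotient.out c).1 (Quotient.out c).2⟩
  have hq : Function.Injective q := by
    intro c c' hcc
    have h1 : f (Quotient.out c).1 (Quotient.out c).2 = f (Quotient.out c').1 (Quotient.out c').2 :=
      congrArg Subtype.val hcc
    rw [← Quotient.out_eq c, ← Quotient.out_eq c']
    refine QuotientGroup.eq.2 ?_
    change (((Quotient.out c)⁻¹ * Quotient.out c' : K) : GA F) ∈ K'
    have h2 := hfk (Quotient.out c).1 (Quotient.out c).2
    have h3 := hfk (Quotient.out c').1 (Quotient.out c').2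
    rw [mul_one] at h2 h3
    have h4 : (((Quotient.out c)⁻¹ * Quotient.out c' : K) : GA F) =
        (k (Quotient.out c).1 (Quotient.out c).2)⁻¹ * k (Quotient.out c').1 (Quotient.out c').2 := by
      change ((Quotient.out c).1)⁻¹ * (Quotient.out c').1 = _
      conv_lhs => rw [h2, h3, h1]
      group
    rw [h4]
    exact K'.mul_mem (K'.inv_mem (hk _ _)) (hk _ _)
  have : Finite (K ⧸ K'.subgroupOf K) := Finite.of_injective q hq
  exact Subgroup.finiteIndex_of_finite_quotient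

theorem AdFin_iInf {L : Subgroup (GA F)} {S : Set (Pl F)} (hL : OC L S) (Φ : Set (GA F))
    (hΦ : Φ.Finite) : ∃ (L' : Subgroup (GA F)) (S' : Set (Pl F)), OC L' S' ∧
      ∀ k, k ∈ L' ↔ k ∈ L ∧ ∀ φ ∈ Φ, φ⁻¹ * k * φ ∈ L := by
  induction Φ, hΦ using Set.Finite.induction_on with
  | empty => exact ⟨L, S, hL, fun k => by simp⟩
  | @insert φ s _ _ ih =>
    obtain ⟨L', S', h1, h2⟩ := ih
    obtain ⟨S'', h3⟩ := hL.conj φ
    refine ⟨_, _, h1.inter h3, fun k => ?_⟩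
    rw [Subgroup.mem_inf, h2]
    have h4 : k ∈ L.map (MulAut.conj φ).toMonoidHom ↔ φ⁻¹ * k * φ ∈ L := by
      constructor
      · rintro ⟨x, hx, rfl⟩
        have : φ⁻¹ * ((MulAut.conj φ).toMonoidHom x) * φ = x := by
          change φ⁻¹ * (φ * x * φ⁻¹) * φ = x
          group
        rw [this]
        exact hx
      · intro h
        refine ⟨_, h, ?_⟩
        change φ * (φ⁻¹ * k * φ) * φ⁻¹ = k
        group
    rw [h4]
    simp only [Set.mem_insert_iff, forall_eq_or_imp]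
    tauto

/-- A small open subgroup which is normalised by `K`. -/
theorem OC.core {K K' : Subgroup (GA F)} {S S' : Set (Pl F)} (hK : OC K S) (hK' : OC K' S') :
    ∃ (K'' : Subgroup (GA F)) (S'' : Set (Pl F)), OC K'' S'' ∧ K'' ≤ K ⊓ K' ∧
      ∀ κ ∈ K, ∀ k ∈ K'', κ * k * κ⁻¹ ∈ K'' := by
  have hL := hK.inter hK'
  set L := K ⊓ K' with hLdef
  obtain ⟨Φ, hΦ, h⟩ := hK.cover hL 1
  obtain ⟨K'', S'', h1, h2⟩ := AdFin_iInf hL (Φ ∩ K) (hΦ.subset Set.inter_subset_left)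
  have key : ∀ k, k ∈ K'' ↔ ∀ κ ∈ K, κ⁻¹ * k * κ ∈ L := by
    intro k
    rw [h2]
    constructor
    · rintro ⟨_, h3⟩ κ hκ
      obtain ⟨φ, hφ, l, hl, hκφ⟩ := h κ hκ
      rw [mul_one] at hκφ
      have hφK : φ ∈ K := by
        have : φ = κ * l⁻¹ := by rw [hκφ]; group
        rw [this]
        exact K.mul_mem hκ (K.inv_mem (by rw [hLdef] at hl; exact hl.1))
      have h4 := h3 φ ⟨hφ, hφK⟩
      have h5 : κ⁻¹ * k * κ = l⁻¹ * (φ⁻¹ * k * φ) * l := by rw [hκφ]; group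
      rw [h5]
      exact L.mul_mem (L.mul_mem (L.inv_mem hl) h4) hl
    · intro h3
      refine ⟨?_, fun φ hφ => h3 φ hφ.2⟩
      have := h3 1 K.one_mem
      rwa [inv_one, one_mul, mul_one] at this
  refine ⟨K'', S'', h1, ?_, ?_⟩
  · intro k hk
    exact ((h2 k).1 hk).1
  · intro κ hκ k hk
    rw [key] at hk ⊢
    intro κ' hκ'
    have h3 := hk (κ⁻¹ * κ') (K.mul_mem (K.inv_mem hκ) hκ')
    have h4 : κ'⁻¹ * (κ * k * κ⁻¹) * κ' = (κ⁻¹ * κ')⁻¹ * k * (κ⁻¹ * κ') := by group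
    rw [h4]
    exact h3

theorem OC.single {K : Subgroup (GA F)} {S : Set (Pl F)} (hK : OC K S) {v : Pl F} (hv : v ∉ S)
    {k : GQ v} (hk : k ∈ GZ v) : single v k ∈ K := by
  classical
  obtain ⟨U, hU, hUS, hUK⟩ := hK.op
  refine hUK _ fun w => ?_
  by_cases hw : w = v
  · subst hw
    rw [single_apply, Pi.mulSingle_eq_same]
    exact hUS w hv hk
  · rw [single_apply, Pi.mulSingle_eq_of_ne hw]
    exact (U w).one_mem

theorem OC.at {K : Subgroup (GA F)} {S : Set (Pl F)} (hK : OC K S) {v : Pl F} (hv : v ∉ S)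
    {k : GA F} (hk : k ∈ K) : k.1 v ∈ GZ v := by
  obtain ⟨C, hC, hCS, hCK⟩ := hK.cp
  exact hCS v hv (hCK k hk v)

theorem AdFin_val_ne (N : ℕ) (hN : N ≠ 0) (v : Pl F) : Valued.v ((N : ℕ) : Fv v) ≠ 0 := by
  rw [Valuation.ne_zero_iff]
  have h1 : ((N : ℕ) : Fv v) = (((N : ℕ) : F) : Fv v) := (map_natCast (algebraMap F (Fv v)) N).symm
  rw [h1]
  have h2 : ((N : ℕ) : F) ≠ 0 := Nat.cast_ne_zero.2 hN
  exact (map_ne_zero (algebraMap F (Fv v))).2 h2

theorem AdFin_val (N : ℕ) (v : Pl F) : Valued.v ((N : ℕ) : Fv v) = v.valuation F ((N : ℕ) : F) := by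
  have h1 : ((N : ℕ) : Fv v) = (((N : ℕ) : F) : Fv v) := (map_natCast (algebraMap F (Fv v)) N).symm
  rw [h1, HeightOneSpectrum.adicCompletion.valued_coe]

theorem oc_KN (N : ℕ) (hN : N ≠ 0) : OC (KN F N) {v | ((N : ℕ) : 𝓞 F) ∈ v.asIdeal} := by
  classical
  have hmem : ∀ (v : Pl F) (g : GQ v), g ∈ (KN F N).comap (Pool.Agent.CG2.single v) ↔
      g ∈ GZ v ∧ ∀ i j, Valued.v ((g : Matrix (Fin 2) (Fin 2) (Fv v)) i j -
        (1 : Matrix (Fin 2) (Fin 2) (Fv v)) i j) ≤ Valued.v ((N : ℕ) : Fv v) := by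
    intro v g
    constructor
    · intro h
      have := h v
      rw [single_apply, Pi.mulSingle_eq_same] at this
      exact this
    · intro h w
      by_cases hw : w = v
      · subst hw
        rw [single_apply, Pi.mulSingle_eq_same]
        exact h
      · rw [single_apply, Pi.mulSingle_eq_of_ne hw]
        refine ⟨(GZ w).one_mem, fun i j => ?_⟩
        rw [Units.val_one, sub_self, map_zero]
        exact zero_le
  refine ⟨?_, ⟨fun v => (KN F N).comap (Pool.Agent.CG2.single v), fun v => ?_, fun v hv => ?_,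
    fun k hk => ?_⟩, ⟨fun v => GZ v, fun v => isCompact_GZ v, fun v _ => le_rfl,
    fun k hk v => (hk v).1⟩⟩
  · have h1 := HeightOneSpectrum.Support.finite (R := 𝓞 F) (((N : ℕ) : F)⁻¹)
    refine h1.subset ?_
    intro v hv
    change 1 < v.valuation F (((N : ℕ) : F)⁻¹)
    have h2 : v.valuation F (algebraMap (𝓞 F) F ((N : ℕ) : 𝓞 F)) < 1 :=
      (v.valuation_lt_one_iff_mem _).2 hv
    rw [map_natCast] at h2
    have h3 : (((N : ℕ) : F)) ≠ 0 := Nat.cast_ne_zero.2 hN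
    rw [map_inv₀]
    exact (one_lt_inv₀ (zero_lt_iff.2 ((Valuation.ne_zero_iff _).2 h3))).2 h2
  · have h : ((KN F N).comap (Pool.Agent.CG2.single v) : Set (GQ v)) =
        (GZ v : Set (GQ v)) ∩ ⋂ i, ⋂ j, {g : GQ v | Valued.v ((g : Matrix (Fin 2) (Fin 2) (Fv v)) i j -
          (1 : Matrix (Fin 2) (Fin 2) (Fv v)) i j) ≤ Valued.v ((N : ℕ) : Fv v)} := by
      ext g
      rw [SetLike.mem_coe, hmem]
      simp only [Set.mem_inter_iff, SetLike.mem_coe, Set.mem_iInter, Set.mem_ofPred_eq]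
    rw [h]
    refine (isOpen_GZ v).inter (isOpen_iInter_of_finite fun i => isOpen_iInter_of_finite fun j => ?_)
    exact (isOpen_val_le v _ (AdFin_val_ne N hN v)).preimage
      ((Units.continuous_val.matrix_elem i j).sub continuous_const)
  · intro g hg
    rw [hmem]
    refine ⟨hg, fun i j => ?_⟩
    have h1 : Valued.v ((N : ℕ) : Fv v) = 1 := by
      rw [AdFin_val]
      have h2 : ((N : ℕ) : F) = algebraMap (𝓞 F) F ((N : ℕ) : 𝓞 F) := (map_natCast _ N).symm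
      rw [h2]
      exact (v.valuation_eq_one_iff_notMem).2 hv
    rw [h1]
    refine (Valuation.map_sub _ _ _).trans (max_le (((mem_GZ_iff v g).1 hg).1 i j) ?_)
    rw [Matrix.one_apply]
    split_ifs
    · rw [map_one]
    · rw [map_zero]
      exact zero_le
  · intro v
    exact (hmem v _).1 (hk v)

/-- Natural numbers divisible by a given modulus. -/
theorem AdFin_nat (e : Md F) : ∃ N : ℕ, N ≠ 0 ∧ ∀ v, v.valuation F ((N : ℕ) : F) ≤
    WithZero.exp (-(e v : ℤ)) := by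
  classical
  have hloc : ∀ v : Pl F, ∀ n : ℕ, v.valuation F (((Ideal.absNorm v.asIdeal ^ n : ℕ) : ℕ) : F) ≤
      WithZero.exp (-(n : ℤ)) := by
    intro v n
    have h1 : (((Ideal.absNorm v.asIdeal) : ℕ) : 𝓞 F) ∈ v.asIdeal := Ideal.absNorm_mem _
    have h2 : ((((Ideal.absNorm v.asIdeal) : ℕ) : 𝓞 F) ^ n) ∈ v.asIdeal ^ n :=
      Ideal.pow_mem_pow h1 n
    have h3 := CspApprox_ge_iff.2 h2
    rw [Ge] at h3
    push_cast at h3 ⊢
    exact h3
  have hint : ∀ (v : Pl F) (n : ℕ), v.valuation F ((n : ℕ) : F) ≤ 1 := by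
    intro v n
    have := v.valuation_le_one (K := F) ((n : ℕ) : 𝓞 F)
    refine le_of_eq_of_le ?_ this
    congr 1
  refine ⟨∏ v ∈ e.support, Ideal.absNorm v.asIdeal ^ e v, ?_, ?_⟩
  · refine Finset.prod_ne_zero_iff.2 fun v _ => pow_ne_zero _ ?_
    rw [Ne, Ideal.absNorm_eq_zero_iff]
    exact v.ne_bot
  · intro v
    by_cases hv : v ∈ e.support
    · rw [← Finset.mul_prod_erase _ _ hv, Nat.cast_mul, map_mul]
      calc _ ≤ WithZero.exp (-(e v : ℤ)) * 1 := mul_le_mul' (hloc v _) (hint v _)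
        _ = _ := mul_one _
    · have h0 : e v = 0 := Finsupp.notMem_support_iff.1 hv
      rw [h0, Nat.cast_zero, neg_zero, WithZero.exp_zero]
      exact hint v _

/-- `g⁻¹ γ g ∈ K` implies that `γ` is in a given congruence subgroup, for `K` small. -/
theorem oc_Gam (e : Md F) (g : GA F) : ∃ (K : Subgroup (GA F)) (S : Set (Pl F)), OC K S ∧
    ∀ γ : G F, g⁻¹ * diag γ * g ∈ K → γ ∈ Gam e := by
  obtain ⟨N, hN, hNe⟩ := AdFin_nat e
  obtain ⟨S', hS'⟩ := (oc_KN (F := F) N hN).conj g⁻¹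
  refine ⟨_, S', hS', fun γ hγ => ?_⟩
  obtain ⟨x, hx, hxγ⟩ := hγ
  have h1 : x = diag γ := by
    change g⁻¹ * x * (g⁻¹)⁻¹ = g⁻¹ * diag γ * g at hxγ
    have := congrArg (fun z => g * z * g⁻¹) hxγ
    simp only [inv_inv] at this
    group at this
    exact this
  subst h1
  have key : ∀ δ : G F, diag δ ∈ KN F N → ∀ i j, ((δ : Matrix (Fin 2) (Fin 2) F) - 1) i j ∈ R e.z := by
    intro δ hδ i j v
    have h2 := (hδ v).2 i j
    rw [diag_apply, loc_apply, AdFin_val] at h2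
    have h3 : (((δ : Matrix (Fin 2) (Fin 2) F) i j : F) : Fv v) -
        (1 : Matrix (Fin 2) (Fin 2) (Fv v)) i j =
        ((((δ : Matrix (Fin 2) (Fin 2) F) - 1) i j : F) : Fv v) := by
      have h4 : (1 : Matrix (Fin 2) (Fin 2) (Fv v)) i j =
          (((1 : Matrix (Fin 2) (Fin 2) F) i j : F) : Fv v) := by
        rw [Matrix.one_apply, Matrix.one_apply]
        split_ifs
        · exact (map_one (algebraMap F (Fv v))).symm
        · exact (map_zero (algebraMap F (Fv v))).symm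
      rw [h4, Matrix.sub_apply]
      exact (map_sub (algebraMap F (Fv v)) _ _).symm
    rw [h3, HeightOneSpectrum.adicCompletion.valued_coe] at h2
    exact h2.trans (hNe v)
  refine ⟨key γ hx, ?_⟩
  refine key γ⁻¹ ?_
  rw [map_inv]
  exact (KN F N).inv_mem hx

end Pool.Agent.CG2
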