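import Pool.Agent.CG2.StrApp
import Pool.Agent.CG2.Hecke

/-!
# Finiteness of class numbers
-/

noncomputable section

namespace Pool.Agent.CG2

open NumberField IsDedekindDomain Matrix

variable {F : Type} [Field F] [NumberField F]

/-- The element `diag(a, b)` of `GL₂(F_v)`. -/
def Dv (v : Pl F) (a b : (Fv v)ˣ) : GQ v := GeneralLinearGroup.mkOfDetNeZero !![(a : Fv v), 0; 0, b]
  (by simp [Matrix.det_fin_two])

/-- The diagonal elements of `GL₂(𝔸_f)`. -/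
def TA (F : Type) [Field F] [NumberField F] : Set (GA F) :=
  {t | ∀ v, ∃ a b, t.1 v = Dv v a b}

/-- The upper unipotent elements of `GL₂(𝔸_f)`. -/
def UA (F : Type) [Field F] [NumberField F] : Set (GA F) :=
  {u | ∀ v, ∃ x, u.1 v = Ev v x}

theorem ClassFin_Dv_val (v : Pl F) (a b : (Fv v)ˣ) :
    ((Dv v a b : GQ v) : Matrix (Fin 2) (Fin 2) (Fv v)) = !![(a : Fv v), 0; 0, b] := rfl

theorem ClassFin_Ev_val (v : Pl F) (x : Fv v) :
    ((Ev v x : GQ v) : Matrix (Fin 2) (Fin 2) (Fv v)) = !![1, x; 0, 1] := rfl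

theorem ClassFin_Dv_mul (v : Pl F) (a b c d : (Fv v)ˣ) :
    Dv v a b * Dv v c d = Dv v (a * c) (b * d) := by
  apply Units.ext
  rw [Units.val_mul]
  simp only [ClassFin_Dv_val]
  simp

theorem ClassFin_Dv_one (v : Pl F) : Dv v 1 1 = 1 := by
  apply Units.ext
  rw [ClassFin_Dv_val]
  ext i j
  fin_cases i <;> fin_cases j <;> simp

theorem ClassFin_Dv_inv (v : Pl F) (a b : (Fv v)ˣ) : (Dv v a b)⁻¹ = Dv v a⁻¹ b⁻¹ := by
  rw [inv_eq_iff_mul_eq_one, ClassFin_Dv_mul, mul_inv_cancel, mul_inv_cancel, ClassFin_Dv_one]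

theorem ClassFin_Ev_mul (v : Pl F) (x y : Fv v) : Ev v x * Ev v y = Ev v (x + y) := by
  apply Units.ext
  rw [Units.val_mul]
  simp only [ClassFin_Ev_val]
  simp [add_comm]

theorem ClassFin_Ev_zero (v : Pl F) : Ev v 0 = 1 := by
  apply Units.ext
  rw [ClassFin_Ev_val]
  ext i j
  fin_cases i <;> fin_cases j <;> simp

theorem ClassFin_Dv_mem {v : Pl F} {a b : (Fv v)ˣ} :
    Dv v a b ∈ GZ v ↔ Valued.v (a : Fv v) = 1 ∧ Valued.v (b : Fv v) = 1 := by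
  have key : ∀ a : (Fv v)ˣ, (Valued.v (a : Fv v) ≤ 1 ∧ Valued.v ((a⁻¹ : (Fv v)ˣ) : Fv v) ≤ 1) ↔
      Valued.v (a : Fv v) = 1 := by
    intro a
    have ha : Valued.v (a : Fv v) ≠ 0 := (Valuation.ne_zero_iff _).2 a.ne_zero
    rw [Units.val_inv_eq_inv_val, map_inv₀]
    constructor
    · rintro ⟨h1, h2⟩
      exact le_antisymm h1 ((inv_le_one₀ (zero_lt_iff.2 ha)).1 h2)
    · intro h
      rw [h]
      simp
  rw [← key a, ← key b, mem_GZ_iff, ClassFin_Dv_inv]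
  simp only [ClassFin_Dv_val]
  constructor
  · rintro ⟨h1, h2⟩
    have h3 := h1 0 0
    have h4 := h1 1 1
    have h5 := h2 0 0
    have h6 := h2 1 1
    simp only [Matrix.of_apply, Matrix.cons_val', Matrix.cons_val_zero, Matrix.cons_val_one,
      Matrix.cons_val_fin_one] at h3 h4 h5 h6
    exact ⟨⟨h3, h5⟩, ⟨h4, h6⟩⟩
  · rintro ⟨⟨h3, h5⟩, ⟨h4, h6⟩⟩
    constructor
    · intro i j
      fin_cases i <;> fin_cases j <;> simp <;> assumption
    · intro i j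
      fin_cases i <;> fin_cases j
      · exact h5
      · simp
      · simp
      · exact h6

theorem ClassFin_coe_ne (v : Pl F) {a : F} (ha : a ≠ 0) : ((a : F) : Fv v) ≠ 0 :=
  (map_ne_zero (algebraMap F (Fv v))).2 ha

theorem ClassFin_dg (v : Pl F) (a b : F) (ha : a ≠ 0) (hb : b ≠ 0) :
    loc v (dg a b ha hb) = Dv v (Units.mk0 ((a : F) : Fv v) (ClassFin_coe_ne v ha))
      (Units.mk0 ((b : F) : Fv v) (ClassFin_coe_ne v hb)) := by
  apply Units.ext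
  ext i j
  rw [loc_apply, ClassFin_Dv_val]
  have h : ((dg a b ha hb : G F) : Matrix (Fin 2) (Fin 2) F) = Matrix.diagonal ![a, b] := rfl
  rw [h]
  fin_cases i <;> fin_cases j <;> simp [Matrix.diagonal]

/-! ## Exponents and the class group -/

open scoped nonZeroDivisors in
theorem ClassFin_val_count (x : F) (hx : x ≠ 0) (v : Pl F) : v.valuation F x =
    WithZero.exp (-(FractionalIdeal.count F v (FractionalIdeal.spanSingleton (𝓞 F)⁰ x))) := by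
  classical
  obtain ⟨a, b, hb, rfl⟩ := IsFractionRing.div_surjective (A := 𝓞 F) x
  have hb0 : b ≠ 0 := nonZeroDivisors.ne_zero hb
  have ha0 : a ≠ 0 := by
    rintro rfl
    simp at hx
  have h1 : FractionalIdeal.spanSingleton (𝓞 F)⁰ (algebraMap (𝓞 F) F a / algebraMap (𝓞 F) F b) =
      FractionalIdeal.spanSingleton (𝓞 F)⁰ ((algebraMap (𝓞 F) F) b)⁻¹ *
        ((Ideal.span {a} : Ideal (𝓞 F)) : FractionalIdeal (𝓞 F)⁰ F) := by
    rw [FractionalIdeal.coeIdeal_span_singleton, FractionalIdeal.spanSingleton_mul_spanSingleton,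
      div_eq_inv_mul]
  have h2 : FractionalIdeal.spanSingleton (𝓞 F)⁰
      (algebraMap (𝓞 F) F a / algebraMap (𝓞 F) F b) ≠ 0 :=
    FractionalIdeal.spanSingleton_ne_zero_iff.2 hx
  rw [FractionalIdeal.count_well_defined F v h2 h1, map_div₀,
    HeightOneSpectrum.valuation_of_algebraMap, HeightOneSpectrum.valuation_of_algebraMap,
    HeightOneSpectrum.intValuation_if_neg _ ha0, HeightOneSpectrum.intValuation_if_neg _ hb0,
    div_eq_mul_inv, ← WithZero.exp_neg, ← WithZero.exp_add]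
  congr 1
  ring

open scoped nonZeroDivisors in
/-- The group of the exponents modulo the exponents of the elements of `F` is finite. -/
theorem ClassFin_expo : ∃ Ψ : Set (Pl F →₀ ℤ), Ψ.Finite ∧ ∀ m : Pl F →₀ ℤ, ∃ x : F, x ≠ 0 ∧
    ∃ ψ ∈ Ψ, ∀ v, v.valuation F x = WithZero.exp (-(m v - ψ v)) := by
  classical
  have hne : ∀ m : Pl F →₀ ℤ, (m.prod (fun v n => (v.asIdeal : FractionalIdeal (𝓞 F)⁰ F) ^ n)) ≠ 0 := by
    intro m
    rw [Finsupp.prod]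
    exact Finset.prod_ne_zero_iff.2 fun v _ => zpow_ne_zero _
      (FractionalIdeal.coeIdeal_ne_zero.mpr v.ne_bot)
  let I : (Pl F →₀ ℤ) → (FractionalIdeal (𝓞 F)⁰ F)ˣ := fun m => Units.mk0 _ (hne m)
  let c : (Pl F →₀ ℤ) → ClassGroup (𝓞 F) := fun m => ClassGroup.mk (K := F) (I m)
  obtain ⟨s', -, hs'⟩ := Set.exists_subset_bijOn Set.univ c
  have hs'f : s'.Finite := by
    refine Set.Finite.of_finite_image ?_ hs'.injOn
    exact Set.toFinite _
  refine ⟨s', hs'f, ?_⟩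
  intro m
  have h1 : c m ∈ c '' Set.univ := ⟨_, trivial, rfl⟩
  rw [← hs'.image_eq] at h1
  obtain ⟨ψ, hψ, hc⟩ := h1
  have h2 : ClassGroup.mk (K := F) (I m * (I ψ)⁻¹) = 1 := by
    rw [map_mul, map_inv, mul_inv_eq_one]
    exact hc.symm
  rw [ClassGroup.mk_eq_one_iff] at h2
  have h3 := (FractionalIdeal.isPrincipal_iff _).1 h2
  obtain ⟨x, hx⟩ := h3
  have hx0 : x ≠ 0 := by
    rintro rfl
    rw [FractionalIdeal.spanSingleton_zero] at hx
    exact (I m * (I ψ)⁻¹).ne_zero hx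
  refine ⟨x, hx0, ψ, hψ, fun v => ?_⟩
  rw [ClassFin_val_count x hx0, ← hx, Units.val_mul, Units.val_inv_eq_inv_val]
  change WithZero.exp (-(FractionalIdeal.count F v ((m.prod _) * (ψ.prod _)⁻¹))) = _
  rw [FractionalIdeal.count_mul F v (hne m) (inv_ne_zero (hne ψ)), FractionalIdeal.count_inv,
    FractionalIdeal.count_finsuppProd, FractionalIdeal.count_finsuppProd, sub_eq_add_neg]

/-- The uniformiser of `F_v`. -/
def ClassFin_pi (v : Pl F) : (Fv v)ˣ := Units.mk0 ((pi v : F) : Fv v) (ClassFin_coe_ne v (pi_ne v))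

theorem ClassFin_pi_val (v : Pl F) (n : ℤ) :
    Valued.v (((ClassFin_pi v ^ n : (Fv v)ˣ)) : Fv v) = WithZero.exp (-n) := by
  have h1 : Valued.v ((ClassFin_pi v : (Fv v)ˣ) : Fv v) = WithZero.exp (-1 : ℤ) := by
    rw [← pi_spec v, ← HeightOneSpectrum.adicCompletion.valued_coe]
    rfl
  rw [Units.val_zpow_eq_zpow_val, map_zpow₀, h1, ← WithZero.exp_zsmul]
  simp

/-- The idele attached to two exponents. -/
def ClassFin_be (m n : Pl F →₀ ℤ) : GA F :=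
  ⟨fun v => Dv v (ClassFin_pi v ^ (m v)) (ClassFin_pi v ^ (n v)), by
    classical
    refine ((m.support ∪ n.support).finite_toSet).subset ?_
    intro v hv
    by_contra h
    rw [Finset.mem_coe, Finset.mem_union, not_or, Finsupp.notMem_support_iff,
      Finsupp.notMem_support_iff] at h
    apply hv
    change Dv v (ClassFin_pi v ^ (m v)) (ClassFin_pi v ^ (n v)) ∈ GZ v
    rw [h.1, h.2, zpow_zero, ClassFin_Dv_one]
    exact (GZ v).one_mem⟩

theorem ClassFin_be_mem (m n : Pl F →₀ ℤ) : ClassFin_be m n ∈ TA F := fun _ => ⟨_, _, rfl⟩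

/-- The exponents of an idele. -/
theorem ClassFin_exists_expo (a : ∀ v : Pl F, (Fv v)ˣ)
    (ha : {v | Valued.v ((a v : (Fv v)ˣ) : Fv v) ≠ 1}.Finite) :
    ∃ m : Pl F →₀ ℤ, ∀ v, Valued.v ((a v : (Fv v)ˣ) : Fv v) = WithZero.exp (-(m v)) := by
  refine ⟨Finsupp.onFinset ha.toFinset
    (fun w => - WithZero.log (Valued.v ((a w : (Fv w)ˣ) : Fv w))) ?_, ?_⟩
  · intro w hw
    rw [Set.Finite.mem_toFinset]
    intro h
    apply hw
    rw [h, WithZero.log_one, neg_zero]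
  · intro w
    rw [Finsupp.onFinset_apply, neg_neg, WithZero.exp_log]
    exact (Valuation.ne_zero_iff _).2 (a w).ne_zero

theorem ClassFin_TA_mul {s t : GA F} (hs : s ∈ TA F) (ht : t ∈ TA F) : s * t ∈ TA F := by
  intro v
  obtain ⟨a, b, hab⟩ := hs v
  obtain ⟨c, d, hcd⟩ := ht v
  refine ⟨a * c, b * d, ?_⟩
  change s.1 v * t.1 v = _
  rw [hab, hcd, ClassFin_Dv_mul]

theorem ClassFin_TA_inv {s : GA F} (hs : s ∈ TA F) : s⁻¹ ∈ TA F := by
  intro v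
  obtain ⟨a, b, hab⟩ := hs v
  refine ⟨a⁻¹, b⁻¹, ?_⟩
  change (s.1 v)⁻¹ = _
  rw [hab, ClassFin_Dv_inv]

theorem ClassFin_TA_dg (a b : F) (ha : a ≠ 0) (hb : b ≠ 0) : diag (dg a b ha hb) ∈ TA F := by
  intro v
  exact ⟨_, _, ClassFin_dg v a b ha hb⟩

/-- Ideles modulo `F^*` and an open subgroup: finitely many classes of diagonal elements modulo
diagonal elements of `GL₂(F)`. -/
theorem fin_diag {K : Subgroup (GA F)} {S : Set (Pl F)} (hK : OC K S) :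
    ∃ Φ : Set (GA F), Φ.Finite ∧ Φ ⊆ TA F ∧ ∀ t ∈ TA F, ∃ (a b : F) (ha : a ≠ 0) (hb : b ≠ 0),
      ∃ φ ∈ Φ, ∃ κ ∈ K, κ ∈ TA F ∧ t = diag (dg a b ha hb) * φ * κ := by
  classical
  obtain ⟨Ψ, hΨf, hΨ⟩ := ClassFin_expo (F := F)
  obtain ⟨Φ₀, hΦ₀f, hΦ₀⟩ := fin_cover (fun v : Pl F => (GZ v : Set (GQ v)))
    (fun v => isCompact_GZ v) (by simp) hK
  -- representatives of the cosets in the torus
  let P : GA F → Prop := fun φ => ∃ ω ∈ TA F, ∃ κ ∈ K, ω = φ * κ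
  let r : GA F → GA F := fun φ => if h : P φ then h.choose else 1
  have hr : ∀ φ, r φ ∈ TA F := by
    intro φ
    by_cases h : P φ
    · have := h.choose_spec.1
      simp only [r, dif_pos h]
      exact this
    · simp only [r, dif_neg h]
      intro v
      exact ⟨1, 1, (ClassFin_Dv_one v).symm⟩
  have hr2 : ∀ φ, P φ → ∃ κ ∈ K, r φ = φ * κ := by
    intro φ h
    have := h.choose_spec.2
    simp only [r, dif_pos h]
    exact this
  refine ⟨Set.image2 (fun (ψ : (Pl F →₀ ℤ) × (Pl F →₀ ℤ)) φ => ClassFin_be ψ.1 ψ.2 * r φ)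
    (Ψ ×ˢ Ψ) Φ₀, (hΨf.prod hΨf).image2 _ hΦ₀f, ?_, ?_⟩
  · rintro _ ⟨ψ, -, φ, -, rfl⟩
    exact ClassFin_TA_mul (ClassFin_be_mem _ _) (hr φ)
  · intro t ht
    choose a b hab using ht
    have hfa : {v | Valued.v ((a v : (Fv v)ˣ) : Fv v) ≠ 1}.Finite := by
      refine Set.Finite.subset t.2 ?_
      intro v hv h
      rw [hab v, ClassFin_Dv_mem] at h
      exact hv h.1
    have hfb : {v | Valued.v ((b v : (Fv v)ˣ) : Fv v) ≠ 1}.Finite := by
      refine Set.Finite.subset t.2 ?_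
      intro v hv h
      rw [hab v, ClassFin_Dv_mem] at h
      exact hv h.2
    obtain ⟨m, hm⟩ := ClassFin_exists_expo a hfa
    obtain ⟨n, hn⟩ := ClassFin_exists_expo b hfb
    obtain ⟨x, hx0, ψ₁, hψ₁, hx⟩ := hΨ m
    obtain ⟨y, hy0, ψ₂, hψ₂, hy⟩ := hΨ n
    set ω : GA F := (ClassFin_be ψ₁ ψ₂)⁻¹ * (diag (dg x y hx0 hy0))⁻¹ * t with hω
    have ht' : t ∈ TA F := fun v => ⟨_, _, hab v⟩
    have hωT : ω ∈ TA F := ClassFin_TA_mul (ClassFin_TA_mul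
      (ClassFin_TA_inv (ClassFin_be_mem _ _)) (ClassFin_TA_inv (ClassFin_TA_dg _ _ _ _))) ht'
    have hval : ∀ (v : Pl F) (z : F) (hz : z ≠ 0) (p q : Pl F →₀ ℤ) (c : (Fv v)ˣ),
        v.valuation F z = WithZero.exp (-(p v - q v)) →
        Valued.v (c : Fv v) = WithZero.exp (-(p v)) →
        Valued.v ((((ClassFin_pi v ^ (q v))⁻¹ * (Units.mk0 ((z : F) : Fv v)
          (ClassFin_coe_ne v hz))⁻¹ * c : (Fv v)ˣ)) : Fv v) = 1 := by
      intro v z hz p q c h1 h2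
      rw [Units.val_mul, Units.val_mul, map_mul, map_mul, h2, ← _root_.zpow_neg, ClassFin_pi_val,
        Units.val_inv_eq_inv_val, map_inv₀, Units.val_mk0,
        HeightOneSpectrum.adicCompletion.valued_coe, h1, ← WithZero.exp_neg, ← WithZero.exp_add,
        ← WithZero.exp_add, ← WithZero.exp_zero]
      congr 1
      ring
    have hωZ : ∀ v, ω.1 v ∈ (GZ v : Set (GQ v)) := by
      intro v
      have h1 : ω.1 v = (Dv v (ClassFin_pi v ^ (ψ₁ v)) (ClassFin_pi v ^ (ψ₂ v)))⁻¹ *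
          (loc v (dg x y hx0 hy0))⁻¹ * t.1 v := rfl
      rw [h1, ClassFin_dg, hab v, ClassFin_Dv_inv, ClassFin_Dv_inv, ClassFin_Dv_mul,
        ClassFin_Dv_mul, SetLike.mem_coe, ClassFin_Dv_mem]
      exact ⟨hval v x hx0 m ψ₁ (a v) (hx v) (hm v), hval v y hy0 n ψ₂ (b v) (hy v) (hn v)⟩
    obtain ⟨φ, hφ, κ, hκ, hωφ⟩ := hΦ₀ ω hωZ
    have hP : P φ := ⟨ω, hωT, κ, hκ, hωφ⟩
    obtain ⟨κ₁, hκ₁, hrφ⟩ := hr2 φ hP
    refine ⟨x, y, hx0, hy0, _, ⟨(ψ₁, ψ₂), ⟨hψ₁, hψ₂⟩, φ, hφ, rfl⟩, (r φ)⁻¹ * ω, ?_, ?_, ?_⟩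
    · rw [hrφ, hωφ]
      have : (φ * κ₁)⁻¹ * (φ * κ) = κ₁⁻¹ * κ := by group
      rw [this]
      exact K.mul_mem (K.inv_mem hκ₁) hκ
    · exact ClassFin_TA_mul (ClassFin_TA_inv (hr φ)) hωT
    · rw [hω]
      group

theorem ClassFin_dtv_Dv (v : Pl F) (a b : (Fv v)ˣ) : dtv (Dv v a b) = a * b := by
  simp [dtv, ClassFin_Dv_val, Matrix.det_fin_two]

theorem ClassFin_dtv_mul {v : Pl F} (g h : GQ v) : dtv (g * h) = dtv g * dtv h := by
  simp [dtv]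

theorem ClassFin_dtv_ne {v : Pl F} (g : GQ v) : dtv g ≠ 0 :=
  (g.isUnit.map (Matrix.detMonoidHom (R := Fv v) (n := Fin 2))).ne_zero

theorem ClassFin_dtv_inv {v : Pl F} (g : GQ v) : dtv (g⁻¹) = (dtv g)⁻¹ := by
  have h := ClassFin_dtv_mul g g⁻¹
  rw [mul_inv_cancel] at h
  have h1 : dtv (1 : GQ v) = 1 := by simp [dtv]
  rw [h1] at h
  exact (DivisionMonoid.inv_eq_of_mul _ _ h.symm).symm

theorem ClassFin_dtv_GZ {v : Pl F} {g : GQ v} (hg : g ∈ GZ v) : Valued.v (dtv g) = 1 := by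
  have key : ∀ g ∈ GZ v, Valued.v (dtv g) ≤ 1 := by
    intro g hg
    rw [mem_GZ_iff] at hg
    rw [dtv, Matrix.det_fin_two]
    refine (Valuation.map_sub _ _ _).trans (max_le ?_ ?_)
    · rw [map_mul]
      exact mul_le_one' (hg.1 0 0) (hg.1 1 1)
    · rw [map_mul]
      exact mul_le_one' (hg.1 0 1) (hg.1 1 0)
  have h1 := key g hg
  have h2 := key g⁻¹ ((GZ v).inv_mem hg)
  rw [ClassFin_dtv_inv, map_inv₀] at h2
  have h3 : Valued.v (dtv g) ≠ 0 := (Valuation.ne_zero_iff _).2 (ClassFin_dtv_ne g)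
  exact le_antisymm h1 ((inv_le_one₀ (zero_lt_iff.2 h3)).1 h2)

/-- The double cosets `GL₂(F) \ Pt / K` are finite in number. -/
theorem fin_double {K : Subgroup (GA F)} {S : Set (Pl F)} (hK : OC K S) :
    ∃ Φ : Set (Pt F), Φ.Finite ∧ ∀ y : Pt F, ∃ (γ : G F), ∃ y₀ ∈ Φ, ∃ κ ∈ K,
      y = rt (act γ y₀) κ := by
  classical
  obtain ⟨Φ, hΦf, hΦT, hΦ⟩ := fin_diag hK
  refine ⟨Set.univ ×ˢ Φ, Set.Finite.prod (Set.toFinite _) hΦf, ?_⟩
  rintro ⟨s, g⟩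
  -- the determinant of g
  let t : GA F := ⟨fun v => Dv v (Units.mk0 (dtv (g.1 v)) (ClassFin_dtv_ne _)) 1, by
    refine Set.Finite.subset g.2 ?_
    intro v hv h
    apply hv
    change Dv v _ 1 ∈ GZ v
    rw [ClassFin_Dv_mem, Units.val_mk0, Units.val_one, map_one]
    exact ⟨ClassFin_dtv_GZ h, rfl⟩⟩
  obtain ⟨a, b, ha, hb, φ, hφ, κ, hκ, -, ht⟩ := hΦ t (fun v => ⟨_, _, rfl⟩)
  set δ₀ : G F := dg a b ha hb with hδ₀
  have hu : ∀ v, dtv ((φ⁻¹ * (diag δ₀)⁻¹ * g * κ⁻¹ : GA F).1 v) = 1 := by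
    intro v
    have h1 : (φ⁻¹ * (diag δ₀)⁻¹ * g * κ⁻¹ : GA F).1 v =
      (φ.1 v)⁻¹ * ((diag δ₀).1 v)⁻¹ * g.1 v * (κ.1 v)⁻¹ := rfl
    have h2 : dtv (t.1 v) = dtv (g.1 v) := by
      change dtv (Dv v _ 1) = _
      rw [ClassFin_dtv_Dv]
      simp
    have h3 : t.1 v = (diag δ₀).1 v * φ.1 v * κ.1 v := by rw [ht]; rfl
    rw [h3, ClassFin_dtv_mul, ClassFin_dtv_mul] at h2
    rw [h1, ClassFin_dtv_mul, ClassFin_dtv_mul, ClassFin_dtv_mul, ClassFin_dtv_inv,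
      ClassFin_dtv_inv, ClassFin_dtv_inv, ← h2]
    have h4 := ClassFin_dtv_ne (φ.1 v)
    have h5 := ClassFin_dtv_ne ((diag δ₀).1 v)
    have h6 := ClassFin_dtv_ne (κ.1 v)
    field_simp
  obtain ⟨δ, -, κ', hκ', -, h⟩ := strong_approx hK φ _ hu
  refine ⟨δ₀ * δ, ((sgn (δ₀ * δ))⁻¹ * s, φ), ⟨Set.mem_univ _, hφ⟩, κ' * κ, K.mul_mem hκ' hκ, ?_⟩
  apply Prod.ext
  · change s = sgn (δ₀ * δ) * ((sgn (δ₀ * δ))⁻¹ * s)
    rw [mul_inv_cancel_left]
  · change g = diag (δ₀ * δ) * φ * (κ' * κ)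
    rw [map_mul]
    have h1 : g = diag δ₀ * (φ * (φ⁻¹ * (diag δ₀)⁻¹ * g * κ⁻¹)) * κ := by group
    rw [h] at h1
    rw [h1]
    group

/-- The lower unipotent element with integral entry. -/
theorem ClassFin_low {v : Pl F} (z : Fv v) (hz : Valued.v z ≤ 1) :
    ∃ k ∈ GZ v, (k : Matrix (Fin 2) (Fin 2) (Fv v)) = !![1, 0; z, 1] := by
  refine ⟨⟨!![1, 0; z, 1], !![1, 0; -z, 1], ?_, ?_⟩, ?_, rfl⟩
  · ext i j
    fin_cases i <;> fin_cases j <;> simp [Matrix.mul_apply, Fin.sum_univ_two]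
  · ext i j
    fin_cases i <;> fin_cases j <;> simp [Matrix.mul_apply, Fin.sum_univ_two]
  · rw [mem_GZ_iff]
    constructor
    · intro i j
      fin_cases i <;> fin_cases j <;> simp [hz]
    · intro i j
      change Valued.v ((!![1, 0; -z, 1] : Matrix (Fin 2) (Fin 2) (Fv v)) i j) ≤ 1
      fin_cases i <;> fin_cases j <;> simp [hz]

/-- The exchange of the two columns with an integral entry. -/
theorem ClassFin_swap {v : Pl F} (z : Fv v) (hz : Valued.v z ≤ 1) :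
    ∃ k ∈ GZ v, (k : Matrix (Fin 2) (Fin 2) (Fv v)) = !![z, 1; 1, 0] := by
  refine ⟨⟨!![z, 1; 1, 0], !![0, 1; 1, -z], ?_, ?_⟩, ?_, rfl⟩
  · ext i j
    fin_cases i <;> fin_cases j <;> simp [Matrix.mul_apply, Fin.sum_univ_two]
  · ext i j
    fin_cases i <;> fin_cases j <;> simp [Matrix.mul_apply, Fin.sum_univ_two]
  · rw [mem_GZ_iff]
    constructor
    · intro i j
      fin_cases i <;> fin_cases j <;> simp [hz]
    · intro i j
      change Valued.v ((!![0, 1; 1, -z] : Matrix (Fin 2) (Fin 2) (Fv v)) i j) ≤ 1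
      fin_cases i <;> fin_cases j <;> simp [hz]

/-- Iwasawa decomposition: `GL₂(F_v) = B(F_v) GL₂(O_v)`. -/
theorem iwasawa (v : Pl F) (g : GQ v) : ∃ (a b : (Fv v)ˣ) (x : Fv v), ∃ k ∈ GZ v,
    g = Ev v x * Dv v a b * k := by
  -- it is enough to make the lower left entry zero
  have key : ∃ k ∈ GZ v, ((g * k : GQ v) : Matrix (Fin 2) (Fin 2) (Fv v)) 1 0 = 0 := by
    set c := (g : Matrix (Fin 2) (Fin 2) (Fv v)) 1 0 with hc
    set d := (g : Matrix (Fin 2) (Fin 2) (Fv v)) 1 1 with hd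
    have hcd : ¬ (c = 0 ∧ d = 0) := by
      rintro ⟨h1, h2⟩
      apply ClassFin_dtv_ne g
      rw [dtv, Matrix.det_fin_two, ← hc, ← hd, h1, h2]
      ring
    rcases le_or_gt (Valued.v c) (Valued.v d) with h | h
    · have hd0 : d ≠ 0 := by
        intro hd0
        rw [hd0, map_zero] at h
        have := (Valuation.zero_iff _).1 (le_antisymm h zero_le)
        exact hcd ⟨this, hd0⟩
      have hd1 : Valued.v d ≠ 0 := (Valuation.ne_zero_iff _).2 hd0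
      obtain ⟨k, hk, hkv⟩ := ClassFin_low (v := v) (-(c / d)) (by
        rw [Valuation.map_neg, map_div₀]
        exact div_le_one_of_le₀ h zero_le)
      refine ⟨k, hk, ?_⟩
      rw [Units.val_mul, hkv, Matrix.mul_apply, Fin.sum_univ_two, ← hc, ← hd]
      simp only [Matrix.of_apply, Matrix.cons_val', Matrix.cons_val_zero, Matrix.cons_val_one,
        Matrix.cons_val_fin_one]
      field_simp
      ring_nf
    · have hc0 : c ≠ 0 := by
        intro hc0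
        rw [hc0, map_zero] at h
        exact absurd h not_lt_zero
      have hc1 : Valued.v c ≠ 0 := (Valuation.ne_zero_iff _).2 hc0
      obtain ⟨k, hk, hkv⟩ := ClassFin_swap (v := v) (-(d / c)) (by
        rw [Valuation.map_neg, map_div₀]
        exact div_le_one_of_le₀ h.le zero_le)
      refine ⟨k, hk, ?_⟩
      rw [Units.val_mul, hkv, Matrix.mul_apply, Fin.sum_univ_two, ← hc, ← hd]
      simp only [Matrix.of_apply, Matrix.cons_val', Matrix.cons_val_zero, Matrix.cons_val_one,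
        Matrix.cons_val_fin_one]
      field_simp
      ring_nf
  obtain ⟨k, hk, h0⟩ := key
  set h : GQ v := g * k with hh
  have hdet : (h : Matrix (Fin 2) (Fin 2) (Fv v)) 0 0 * (h : Matrix (Fin 2) (Fin 2) (Fv v)) 1 1 ≠
      0 := by
    have := ClassFin_dtv_ne h
    rw [dtv, Matrix.det_fin_two, h0, mul_zero, sub_zero] at this
    exact this
  have hp : (h : Matrix (Fin 2) (Fin 2) (Fv v)) 0 0 ≠ 0 := left_ne_zero_of_mul hdet
  have hr : (h : Matrix (Fin 2) (Fin 2) (Fv v)) 1 1 ≠ 0 := right_ne_zero_of_mul hdet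
  refine ⟨Units.mk0 _ hp, Units.mk0 _ hr, (h : Matrix (Fin 2) (Fin 2) (Fv v)) 0 1 /
    (h : Matrix (Fin 2) (Fin 2) (Fv v)) 1 1, k⁻¹, (GZ v).inv_mem hk, ?_⟩
  rw [eq_mul_inv_iff_mul_eq, ← hh]
  apply Units.ext
  have hE : ∀ (X : Fv v) (A B : (Fv v)ˣ),
      ((Ev v X * Dv v A B : GQ v) : Matrix (Fin 2) (Fin 2) (Fv v)) =
        !![1, X; 0, 1] * !![(A : Fv v), 0; 0, (B : Fv v)] := fun _ _ _ => rfl
  rw [hE]
  ext i j
  fin_cases i <;> fin_cases j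
  · simp
  · simp [hr]
  · simp [h0]
  · simp

theorem ClassFin_Dv_Ev (v : Pl F) (a b : (Fv v)ˣ) (x : Fv v) :
    (Dv v a b)⁻¹ * Ev v x * Dv v a b = Ev v ((a : Fv v)⁻¹ * x * b) := by
  rw [mul_assoc, inv_mul_eq_iff_eq_mul]
  apply Units.ext
  rw [Units.val_mul, Units.val_mul, ClassFin_Ev_val, ClassFin_Dv_val, ClassFin_Ev_val]
  have ha : (a : Fv v) ≠ 0 := a.ne_zero
  ext i j
  rw [Matrix.mul_apply, Matrix.mul_apply, Fin.sum_univ_two, Fin.sum_univ_two]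
  fin_cases i <;> fin_cases j <;> simp only [Matrix.of_apply, Matrix.cons_val', Matrix.cons_val_zero,
    Matrix.cons_val_one, Matrix.cons_val_fin_one, Fin.zero_eta, Fin.mk_one]
  · ring
  · rw [mul_assoc, mul_inv_cancel_left₀ ha]
    ring
  · ring
  · ring

/-- The double cosets `B(F) U(𝔸_f) \ Pt / K` are finite in number. -/
theorem fin_borel {K : Subgroup (GA F)} {S : Set (Pl F)} (hK : OC K S) :
    ∃ Φ : Set (Pt F), Φ.Finite ∧ ∀ y : Pt F, ∃ (a b : F) (ha : a ≠ 0) (hb : b ≠ 0),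
      ∃ u ∈ UA F, ∃ y₀ ∈ Φ, ∃ κ ∈ K,
        y = rt (act (dg a b ha hb) (y₀.1, u * y₀.2)) κ := by
  classical
  have hK₀ := oc_KN (F := F) 1 one_ne_zero
  obtain ⟨Φ₀, hΦ₀f, hΦ₀T, hΦ₀⟩ := fin_diag hK₀
  obtain ⟨Φ₁, hΦ₁f, hΦ₁⟩ := fin_cover (fun v : Pl F => (GZ v : Set (GQ v)))
    (fun v => isCompact_GZ v) (by simp) hK
  refine ⟨Set.univ ×ˢ (Set.image2 (fun φ φ₁ => φ * φ₁) Φ₀ Φ₁),
    Set.Finite.prod (Set.toFinite _) (hΦ₀f.image2 _ hΦ₁f), ?_⟩
  rintro ⟨s, g⟩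
  have hloc : ∀ v : Pl F, ∃ (a b : (Fv v)ˣ) (x : Fv v) (k : GQ v), k ∈ GZ v ∧
      g.1 v = Ev v x * Dv v a b * k ∧ (g.1 v ∈ GZ v → a = 1 ∧ b = 1 ∧ x = 0) := by
    intro v
    by_cases hg : g.1 v ∈ GZ v
    · exact ⟨1, 1, 0, g.1 v, hg, by rw [ClassFin_Ev_zero, ClassFin_Dv_one, one_mul, one_mul],
        fun _ => ⟨rfl, rfl, rfl⟩⟩
    · obtain ⟨a, b, x, k, hk, h⟩ := iwasawa v (g.1 v)
      exact ⟨a, b, x, k, hk, h, fun h => absurd h hg⟩
  choose a b x k hk hg h1 using hloc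
  let u : GA F := ⟨fun v => Ev v (x v), by
    refine Set.Finite.subset g.2 ?_
    intro v hv h
    apply hv
    change Ev v (x v) ∈ GZ v
    rw [(h1 v h).2.2, ClassFin_Ev_zero]
    exact (GZ v).one_mem⟩
  let t : GA F := ⟨fun v => Dv v (a v) (b v), by
    refine Set.Finite.subset g.2 ?_
    intro v hv h
    apply hv
    change Dv v (a v) (b v) ∈ GZ v
    rw [(h1 v h).1, (h1 v h).2.1, ClassFin_Dv_one]
    exact (GZ v).one_mem⟩
  let kk : GA F := ⟨k, by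
    refine Set.Finite.subset Set.finite_empty ?_
    intro v hv
    exact hv (hk v)⟩
  have hgut : g = u * t * kk := by
    apply Subtype.ext
    funext v
    exact hg v
  obtain ⟨p, q, hp, hq, φ, hφ, κ₀, hκ₀, -, ht⟩ := hΦ₀ t (fun v => ⟨_, _, rfl⟩)
  have hκk : ∀ v, (κ₀ * kk : GA F).1 v ∈ (GZ v : Set (GQ v)) := fun v =>
    (GZ v).mul_mem (hκ₀ v).1 (hk v)
  obtain ⟨φ₁, hφ₁, κ, hκ, hc⟩ := hΦ₁ _ hκk
  set δ : G F := dg p q hp hq with hδ
  refine ⟨p, q, hp, hq, (diag δ)⁻¹ * u * diag δ, ?_, ((sgn δ)⁻¹ * s, φ * φ₁),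
    ⟨Set.mem_univ _, ⟨φ, hφ, φ₁, hφ₁, rfl⟩⟩, κ, hκ, ?_⟩
  · intro v
    change ∃ x, (loc v δ)⁻¹ * Ev v _ * loc v δ = Ev v x
    rw [hδ, ClassFin_dg, ClassFin_Dv_Ev]
    exact ⟨_, rfl⟩
  · apply Prod.ext
    · change s = sgn δ * ((sgn δ)⁻¹ * s)
      rw [mul_inv_cancel_left]
    · change g = diag δ * ((diag δ)⁻¹ * u * diag δ * (φ * φ₁)) * κ
      rw [hgut, ht]
      have : u * (diag δ * φ * κ₀) * kk = u * diag δ * φ * (κ₀ * kk) := by group
      rw [this, hc]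
      group

end Pool.Agent.CG2
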