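import Pool.Agent.CG2.CocDefs

/-!
# Functions invariant under `SL₂(F)` are killed by `T_v² - (1 + N v)² R_v`
-/

noncomputable section

namespace Pool.Agent.CG2

open NumberField IsDedekindDomain Matrix

variable {F : Type} [Field F] [NumberField F] {V : Type} [AddCommGroup V]

theorem inv_SL {K : Subgroup (GA F)} {S : Set (Pl F)} (hK : OC K S) {f : Pt F → V}
    (hf : RInv K f) (hS : ∀ γ : G F, (γ : Matrix (Fin 2) (Fin 2) F).det = 1 →
      ∀ y, f (act γ y) = f y) (y : Pt F) (u : GA F) (hu : ∀ v, dtv (u.1 v) = 1) :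
    f (rt y u) = f y := by
  obtain ⟨δ, hδ, κ, hκ, -, h⟩ := strong_approx hK y.2 u hu
  have h1 : rt y u = rt (act δ y) κ := by
    apply Prod.ext
    · change y.1 = sgn δ * y.1
      rw [sgn_of_det hδ, one_mul]
    · change y.2 * u = diag δ * y.2 * κ
      exact h
  rw [h1, hf _ κ hκ, hS δ hδ]

theorem Coc0_dtv_mul {v : Pl F} (a b : GQ v) : dtv (a * b) = dtv a * dtv b := by
  rw [dtv, Units.val_mul, Matrix.det_mul]

theorem Coc0_dtv_one (v : Pl F) : dtv (1 : GQ v) = 1 := by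
  rw [dtv, Units.val_one, Matrix.det_one]

theorem Coc0_dtv_ne {v : Pl F} (a : GQ v) : dtv a ≠ 0 := by
  have h := a.isUnit.map (Matrix.detMonoidHom (R := Fv v) (n := Fin 2))
  exact h.ne_zero

theorem Coc0_dtv_inv {v : Pl F} (a : GQ v) : dtv a⁻¹ = (dtv a)⁻¹ := by
  have h : dtv (a⁻¹ * a) = 1 := by rw [inv_mul_cancel, Coc0_dtv_one]
  rw [Coc0_dtv_mul] at h
  exact eq_inv_of_mul_eq_one_left h

theorem Coc0_dtv_loc (v : Pl F) (γ : G F) :
    dtv (loc v γ) = (((γ : Matrix (Fin 2) (Fin 2) F).det : F) : Fv v) := by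
  have h : (loc v γ : Matrix (Fin 2) (Fin 2) (Fv v)) =
      (algebraMap F (Fv v)).mapMatrix (γ : Matrix (Fin 2) (Fin 2) F) := rfl
  rw [dtv, h, ← RingHom.map_det]
  rfl

theorem Coc0_dtv_sc (v : Pl F) : dtv (sc v) = ((pi v : F) : Fv v) * ((pi v : F) : Fv v) := by
  have h : sc v = loc v (dg (pi v) (pi v) (pi_ne v) (pi_ne v)) := rfl
  rw [h, Coc0_dtv_loc]
  have h2 : ((dg (pi v) (pi v) (pi_ne v) (pi_ne v) : G F) : Matrix (Fin 2) (Fin 2) F).det =
      pi v * pi v := by
    change (Matrix.diagonal ![pi v, pi v]).det = _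
    simp [Matrix.det_diagonal]
  rw [h2]
  exact map_mul (algebraMap F (Fv v)) _ _

theorem Coc0_dtv_single {v : Pl F} {a : GQ v} (ha : dtv a = 1) (w : Pl F) :
    dtv ((single v a).1 w) = 1 := by
  by_cases hw : w = v
  · subst hw
    rw [single_same]
    exact ha
  · rw [single_ne hw, Coc0_dtv_one]

/-- **L0** for a family of representatives of determinant `π`, without invariance at `v`. -/
theorem PP_inv' {K : Subgroup (GA F)} {S : Set (Pl F)} (hK : OC K S) {f : Pt F → V}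
    (hf : RInv K f) (hS : ∀ γ : G F, (γ : Matrix (Fin 2) (Fin 2) F).det = 1 →
      ∀ y, f (act γ y) = f y) (v : Pl F) (a : Fin (Ideal.absNorm v.asIdeal + 1) → GQ v)
    (ha : ∀ i, dtv (a i) = ((pi v : F) : Fv v)) (y : Pt F) :
    ∑ i, ∑ j, f (rt y (single v (a i * a j))) = (1 + Nm v) ^ 2 • f (rt y (single v (sc v))) := by
  have key : ∀ i j, f (rt y (single v (a i * a j))) = f (rt y (single v (sc v))) := by
    intro i j
    have h0 : a i * a j = sc v * ((sc v)⁻¹ * (a i * a j)) := by group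
    have h1 : dtv ((sc v)⁻¹ * (a i * a j)) = 1 := by
      rw [Coc0_dtv_mul, Coc0_dtv_mul, Coc0_dtv_inv, ha, ha, Coc0_dtv_sc, inv_mul_cancel₀]
      rw [← Coc0_dtv_sc]
      exact Coc0_dtv_ne _
    rw [h0, map_mul, rt_mul]
    exact inv_SL hK hf hS _ _ (Coc0_dtv_single h1)
  simp only [key, Finset.sum_const, Finset.card_univ, Fintype.card_fin, smul_smul]
  congr 1
  rw [Nm]
  ring

/-- Trivial coefficients. -/
theorem Coc0_unram (v : Pl F) : Unram (O := ℤ) ((GZ v).map (single v))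
    (1 : Representation ℤ ((GZ v).map (single v)) V) v where
  le := by
    rintro _ ⟨k, hk, rfl⟩
    rw [single_same]
    exact hk
  mem := fun k hk => ⟨k, hk, rfl⟩
  triv := fun _ _ => rfl

theorem Coc0_mem {v : Pl F} {f : Pt F → V} (hf : ∀ y, ∀ k ∈ GZ v, f (rt y (single v k)) = f y) :
    f ∈ Forms ((GZ v).map (single v)) (1 : Representation ℤ ((GZ v).map (single v)) V) := by
  rintro y ⟨_, k, hk, rfl⟩
  exact hf y k hk

/-- The Hecke sum is right invariant under `GL₂(O_v)`. -/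
theorem Coc0_hecke {v : Pl F} {f : Pt F → V}
    (hf : ∀ y, ∀ k ∈ GZ v, f (rt y (single v k)) = f y) (j : Fin 3) (y : Pt F) (k : GQ v)
    (hk : k ∈ GZ v) : heckeSum (v := v) j f (rt y (single v k)) = heckeSum (v := v) j f y := by
  have h := heckeSum_mem (⟨f, Coc0_mem hf⟩ : Forms ((GZ v).map (single v))
    (1 : Representation ℤ ((GZ v).map (single v)) V)) (Coc0_unram v) j
  exact h y ⟨_, k, hk, rfl⟩

/-- The value at `y h` depends only on the coset `h GL₂(O_v)`. -/
theorem Coc0_coset {v : Pl F} {f : Pt F → V}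
    (hf : ∀ y, ∀ k ∈ GZ v, f (rt y (single v k)) = f y) (y : Pt F) {h h' : GQ v}
    (hh : (h : GQ v ⧸ GZ v) = (h' : GQ v ⧸ GZ v)) :
    f (rt y (single v h)) = f (rt y (single v h')) :=
  forms_congr_coset (⟨f, Coc0_mem hf⟩ : Forms ((GZ v).map (single v))
    (1 : Representation ℤ ((GZ v).map (single v)) V)) (Coc0_unram v) y hh

/-- The Hecke sum for `T_v` in terms of a family of representatives. -/
theorem Coc0_fam {v : Pl F} {f : Pt F → V}
    (hf : ∀ y, ∀ k ∈ GZ v, f (rt y (single v k)) = f y)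
    {a : Fin (Ideal.absNorm v.asIdeal + 1) → GQ v}
    (hinj : Function.Injective fun i => (a i : GQ v ⧸ GZ v))
    (hran : (Set.range fun i => (a i : GQ v ⧸ GZ v)) = cosets v 0) (y : Pt F) :
    heckeSum (v := v) 0 f y = ∑ i, f (rt y (single v (a i))) := by
  unfold heckeSum
  symm
  refine Finset.sum_bij (fun i _ => (a i : GQ v ⧸ GZ v)) ?_ ?_ ?_ ?_
  · intro i _
    rw [Set.Finite.mem_toFinset, ← hran]
    exact ⟨i, rfl⟩
  · intro i _ j _ h
    exact hinj h
  · intro c hc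
    rw [Set.Finite.mem_toFinset, ← hran] at hc
    obtain ⟨i, hi⟩ := hc
    exact ⟨i, Finset.mem_univ _, hi⟩
  · intro i _
    exact Coc0_coset hf y (Quotient.out_eq' (a i : GQ v ⧸ GZ v)).symm

/-- The Hecke operator of the scalar. -/
theorem Coc0_scalar {v : Pl F} {f : Pt F → V}
    (hf : ∀ y, ∀ k ∈ GZ v, f (rt y (single v k)) = f y) (y : Pt F) :
    heckeSum (v := v) 1 f y = f (rt y (single v (sc v))) := by
  unfold heckeSum
  have h1 : (cosets_finite v 1).toFinset = {((sc v : GQ v) : GQ v ⧸ GZ v)} := by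
    ext c
    rw [Set.Finite.mem_toFinset, cosets_scalar v 1 (by decide)]
    simp
  rw [h1, Finset.sum_singleton]
  exact Coc0_coset hf y (Quotient.out_eq' _)

/-- **L0** -/
theorem PP_inv {K : Subgroup (GA F)} {S : Set (Pl F)} (hK : OC K S) {f : Pt F → V}
    (hf : RInv K f) (hS : ∀ γ : G F, (γ : Matrix (Fin 2) (Fin 2) F).det = 1 →
      ∀ y, f (act γ y) = f y) (v : Pl F) (hv : ∀ k ∈ GZ v, single v k ∈ K) : PP v f = 0 := by
  have hf' : ∀ y, ∀ k ∈ GZ v, f (rt y (single v k)) = f y := fun y k hk => hf y _ (hv k hk)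
  obtain ⟨a, ha, hinj, hran⟩ := cosets_fam v
  funext y
  rw [PP, Pi.zero_apply, sub_eq_zero, Coc0_fam (Coc0_hecke hf' 0) hinj hran, Coc0_scalar hf',
    ← PP_inv' hK hf hS v a ha y]
  refine Finset.sum_congr rfl fun i _ => ?_
  rw [Coc0_fam hf' hinj hran]
  refine Finset.sum_congr rfl fun j _ => ?_
  rw [← rt_mul, ← map_mul]

end Pool.Agent.CG2
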