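import Pool.Agent.CG2.CocDefs
import Pool.Agent.CG2.ClassFin
import Pool.Agent.CG2.Coc0

/-!
# Eigenfunctions on `B(F) U(𝔸_f) \ Pt / K`
-/

noncomputable section

namespace Pool.Agent.CG2

open NumberField IsDedekindDomain Matrix

variable {F : Type} [Field F] [NumberField F]

/-- The functions `f` with `f (γ y) = χ(γ) f(y)` for all `γ` in `GL₂(F)`. -/
def GInv {κ : Type} [Field κ] (K : Subgroup (GA F)) (χ : G F →* κˣ) : Submodule κ (Pt F → κ) where
  carrier := {f | RInv K f ∧ ∀ γ y, f (act γ y) = (χ γ : κ) * f y}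
  add_mem' := by
    rintro a b ⟨ha, ha'⟩ ⟨hb, hb'⟩
    refine ⟨fun y k hk => ?_, fun γ y => ?_⟩
    · simp only [Pi.add_apply, ha y k hk, hb y k hk]
    · simp only [Pi.add_apply, ha' γ y, hb' γ y, mul_add]
  zero_mem' := ⟨fun y k hk => rfl, fun γ y => by simp⟩
  smul_mem' := by
    rintro c a ⟨ha, ha'⟩
    refine ⟨fun y k hk => ?_, fun γ y => ?_⟩
    · simp only [Pi.smul_apply, ha y k hk]
    · simp only [Pi.smul_apply, ha' γ y, smul_eq_mul]
      ring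

/-- The functions `f` with `f (b y) = χ(b) f(y)` for all `b` in `B(F)`. -/
def BInv {κ : Type} [Field κ] (K : Subgroup (GA F)) (χ : G F →* κˣ) : Submodule κ (Pt F → κ) where
  carrier := {f | RInv K f ∧ ∀ (b : G F), (b : Matrix (Fin 2) (Fin 2) F) 1 0 = 0 →
    ∀ y, f (act b y) = (χ b : κ) * f y}
  add_mem' := by
    rintro a b ⟨ha, ha'⟩ ⟨hb, hb'⟩
    refine ⟨fun y k hk => ?_, fun γ hγ y => ?_⟩
    · simp only [Pi.add_apply, ha y k hk, hb y k hk]
    · simp only [Pi.add_apply, ha' γ hγ y, hb' γ hγ y, mul_add]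
  zero_mem' := ⟨fun y k hk => rfl, fun γ _ y => by simp⟩
  smul_mem' := by
    rintro c a ⟨ha, ha'⟩
    refine ⟨fun y k hk => ?_, fun γ hγ y => ?_⟩
    · simp only [Pi.smul_apply, ha y k hk]
    · simp only [Pi.smul_apply, ha' γ hγ y, smul_eq_mul]
      ring

/-- Left translation by an element of `GL₂(𝔸_f)`. -/
def lt {V : Type} (t : GA F) (f : Pt F → V) : Pt F → V := fun y => f (y.1, t * y.2)

variable {κ : Type} [Field κ] {K : Subgroup (GA F)} {S : Set (Pl F)} {χ : G F →* κˣ}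

/-! ### Matrices -/

theorem Borel_Ev_add (v : Pl F) (x y : Fv v) : Ev v (x + y) = Ev v x * Ev v y := by
  apply Units.ext
  change !![1, x + y; 0, 1] = !![1, x; 0, 1] * !![1, y; 0, 1]
  simp [add_comm]

theorem Borel_Ev_zero (v : Pl F) : Ev v 0 = 1 := by
  apply Units.ext
  change !![1, 0; 0, 1] = (1 : Matrix (Fin 2) (Fin 2) (Fv v))
  rw [Matrix.one_fin_two]

theorem Borel_Ev_neg (v : Pl F) (x : Fv v) : Ev v (-x) = (Ev v x)⁻¹ := by
  rw [eq_inv_iff_mul_eq_one, ← Borel_Ev_add, neg_add_cancel, Borel_Ev_zero]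

theorem Borel_Dv_mul (v : Pl F) (a b c d : (Fv v)ˣ) :
    Dv v a b * Dv v c d = Dv v (a * c) (b * d) := by
  apply Units.ext
  change !![(a : Fv v), 0; 0, b] * !![(c : Fv v), 0; 0, d] =
    !![((a * c : (Fv v)ˣ) : Fv v), 0; 0, ((b * d : (Fv v)ˣ) : Fv v)]
  simp

theorem Borel_Dv_one (v : Pl F) : Dv v 1 1 = 1 := by
  apply Units.ext
  change !![((1 : (Fv v)ˣ) : Fv v), 0; 0, ((1 : (Fv v)ˣ) : Fv v)] =
    (1 : Matrix (Fin 2) (Fin 2) (Fv v))
  rw [Matrix.one_fin_two]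
  simp

theorem Borel_Dv_comm (v : Pl F) (a b c d : (Fv v)ˣ) :
    Dv v a b * Dv v c d = Dv v c d * Dv v a b := by
  rw [Borel_Dv_mul, Borel_Dv_mul, mul_comm a, mul_comm b]

theorem Borel_Dv_inv (v : Pl F) (a b : (Fv v)ˣ) : (Dv v a b)⁻¹ = Dv v a⁻¹ b⁻¹ := by
  symm
  rw [eq_inv_iff_mul_eq_one, Borel_Dv_mul, inv_mul_cancel, inv_mul_cancel, Borel_Dv_one]

theorem Borel_Dv_Ev (v : Pl F) (a b : (Fv v)ˣ) (x : Fv v) :
    Dv v a b * Ev v x = Ev v (a * x * (b⁻¹ : (Fv v)ˣ)) * Dv v a b := by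
  apply Units.ext
  change !![(a : Fv v), 0; 0, b] * !![1, x; 0, 1] =
    !![1, (a : Fv v) * x * ((b⁻¹ : (Fv v)ˣ) : Fv v); 0, 1] * !![(a : Fv v), 0; 0, b]
  simp

theorem Borel_loc_Ee (v : Pl F) (x : F) : loc v (Ee x) = Ev v ((x : F) : Fv v) := by
  apply Units.ext
  refine Matrix.ext fun i j => ?_
  rw [loc_apply]
  change _ = (!![1, ((x : F) : Fv v); 0, 1] : Matrix (Fin 2) (Fin 2) (Fv v)) i j
  rw [Ee_val]
  have h0 : (((0 : F) : F) : Fv v) = 0 := map_zero (algebraMap F (Fv v))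
  have h1 : (((1 : F) : F) : Fv v) = 1 := map_one (algebraMap F (Fv v))
  fin_cases i <;> fin_cases j
  · exact h1
  · rfl
  · exact h0
  · exact h1

/-- The image in `F_v` of a non-zero element of `F` as a unit. -/
def Borel_un (v : Pl F) (a : F) (ha : a ≠ 0) : (Fv v)ˣ :=
  Units.map (algebraMap F (Fv v)).toMonoidHom (Units.mk0 a ha)

theorem Borel_un_val (v : Pl F) (a : F) (ha : a ≠ 0) :
    ((Borel_un v a ha : (Fv v)ˣ) : Fv v) = ((a : F) : Fv v) := rfl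

theorem Borel_loc_dg (v : Pl F) (a b : F) (ha : a ≠ 0) (hb : b ≠ 0) :
    loc v (dg a b ha hb) = Dv v (Borel_un v a ha) (Borel_un v b hb) := by
  apply Units.ext
  refine Matrix.ext fun i j => ?_
  rw [loc_apply]
  change _ = (!![((a : F) : Fv v), 0; 0, ((b : F) : Fv v)] :
    Matrix (Fin 2) (Fin 2) (Fv v)) i j
  change ((((Matrix.diagonal ![a, b]) i j : F)) : Fv v) = _
  have h0 : (((0 : F) : F) : Fv v) = 0 := map_zero (algebraMap F (Fv v))
  fin_cases i <;> fin_cases j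
  · rfl
  · exact h0
  · exact h0
  · rfl

/-! ### Unipotent and diagonal ideles -/

theorem Borel_UA_mul {a b : GA F} (ha : a ∈ UA F) (hb : b ∈ UA F) : a * b ∈ UA F := by
  intro v
  obtain ⟨x, hx⟩ := ha v
  obtain ⟨y, hy⟩ := hb v
  refine ⟨x + y, ?_⟩
  rw [Borel_Ev_add, ← hx, ← hy]
  rfl

theorem Borel_UA_inv {a : GA F} (ha : a ∈ UA F) : a⁻¹ ∈ UA F := by
  intro v
  obtain ⟨x, hx⟩ := ha v
  refine ⟨-x, ?_⟩
  rw [Borel_Ev_neg, ← hx]
  rfl

theorem Borel_UA_diag (ξ : F) : diag (Ee ξ) ∈ UA F := fun v => ⟨_, Borel_loc_Ee v ξ⟩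

theorem Borel_TA_diag (a b : F) (ha : a ≠ 0) (hb : b ≠ 0) : diag (dg a b ha hb) ∈ TA F :=
  fun v => ⟨_, _, Borel_loc_dg v a b ha hb⟩

theorem Borel_TA_mul {a b : GA F} (ha : a ∈ TA F) (hb : b ∈ TA F) : a * b ∈ TA F := by
  intro v
  obtain ⟨x, x', hx⟩ := ha v
  obtain ⟨y, y', hy⟩ := hb v
  refine ⟨x * y, x' * y', ?_⟩
  rw [← Borel_Dv_mul, ← hx, ← hy]
  rfl

theorem Borel_TA_one : (1 : GA F) ∈ TA F := fun v => ⟨1, 1, (Borel_Dv_one v).symm⟩

theorem Borel_TA_inv {a : GA F} (ha : a ∈ TA F) : a⁻¹ ∈ TA F := by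
  intro v
  obtain ⟨x, x', hx⟩ := ha v
  refine ⟨x⁻¹, x'⁻¹, ?_⟩
  rw [← Borel_Dv_inv, ← hx]
  rfl

theorem Borel_TA_comm {a b : GA F} (ha : a ∈ TA F) (hb : b ∈ TA F) : a * b = b * a := by
  apply Subtype.ext
  funext v
  obtain ⟨x, x', hx⟩ := ha v
  obtain ⟨y, y', hy⟩ := hb v
  change a.1 v * b.1 v = b.1 v * a.1 v
  rw [hx, hy, Borel_Dv_comm]

/-- Diagonal elements normalise the unipotent ones. -/
theorem Borel_TU {t u : GA F} (ht : t ∈ TA F) (hu : u ∈ UA F) : t * u * t⁻¹ ∈ UA F := by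
  intro v
  obtain ⟨a, b, h1⟩ := ht v
  obtain ⟨x, h2⟩ := hu v
  refine ⟨a * x * (b⁻¹ : (Fv v)ˣ), ?_⟩
  change t.1 v * u.1 v * (t.1 v)⁻¹ = _
  rw [h1, h2, Borel_Dv_Ev, mul_inv_cancel_right]

open Classical in
theorem Borel_UA_single (v : Pl F) (x : Fv v) : single v (Ev v x) ∈ UA F := by
  intro w
  by_cases hw : w = v
  · subst hw
    exact ⟨x, single_same _ _⟩
  · refine ⟨0, ?_⟩
    rw [single_ne hw, Borel_Ev_zero]

open Classical in
theorem Borel_TA_single (v : Pl F) (a b : (Fv v)ˣ) : single v (Dv v a b) ∈ TA F := by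
  intro w
  by_cases hw : w = v
  · subst hw
    exact ⟨a, b, single_same _ _⟩
  · refine ⟨1, 1, ?_⟩
    rw [single_ne hw, Borel_Dv_one]

/-- An upper triangular matrix is a product. -/
theorem Borel_decomp {b : G F} (hb : (b : Matrix (Fin 2) (Fin 2) F) 1 0 = 0) :
    ∃ (a d : F) (ha : a ≠ 0) (hd : d ≠ 0) (ξ : F), b = dg a d ha hd * Ee ξ := by
  have hdet : (b : Matrix (Fin 2) (Fin 2) F).det ≠ 0 :=
    (b.isUnit.map (Matrix.detMonoidHom (R := F) (n := Fin 2))).ne_zero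
  rw [Matrix.det_fin_two, hb, mul_zero, sub_zero] at hdet
  have ha := left_ne_zero_of_mul hdet
  have hd := right_ne_zero_of_mul hdet
  refine ⟨_, _, ha, hd, (b : Matrix (Fin 2) (Fin 2) F) 0 1 / (b : Matrix (Fin 2) (Fin 2) F) 0 0, ?_⟩
  apply Units.ext
  change (b : Matrix (Fin 2) (Fin 2) F) = Matrix.diagonal _ * !![1, _; 0, 1]
  ext i j
  fin_cases i <;> fin_cases j <;> simp [hb, mul_div_cancel₀, ha]

theorem Borel_dg_10 (a b : F) (ha : a ≠ 0) (hb : b ≠ 0) :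
    ((dg a b ha hb : G F) : Matrix (Fin 2) (Fin 2) F) 1 0 = 0 := by
  change (Matrix.diagonal ![a, b] : Matrix (Fin 2) (Fin 2) F) 1 0 = 0
  simp

theorem Borel_Ee_10 (ξ : F) : ((Ee ξ : G F) : Matrix (Fin 2) (Fin 2) F) 1 0 = 0 := by
  simp

theorem Borel_sgn_Ee (ξ : F) : sgn (Ee ξ : G F) = 1 := sgn_of_det (det_Ee ξ)

/-! ### The functions -/

/-- Finitely many points determine the elements of `BInv`. -/
theorem Borel_ext (hK : OC K S) : ∃ Φ : Set (Pt F), Φ.Finite ∧ ∀ (f g : Pt F → κ),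
    f ∈ BInv K χ → g ∈ BInv K χ → (∀ y ∈ Φ, f y = g y) → f = g := by
  obtain ⟨Φ, hΦ, h⟩ := fin_borel hK
  refine ⟨Φ, hΦ, fun f g hf hg hfg => ?_⟩
  funext y
  obtain ⟨a, b, ha, hb, u, hu, y₀, hy₀, k, hk, rfl⟩ := h y
  obtain ⟨ξ, k', hk', h1⟩ := unip_approx hK y₀.2 u hu
  have h2 : ((y₀.1, u * y₀.2) : Pt F) = rt (act (Ee ξ) y₀) k' := by
    apply Prod.ext
    · change y₀.1 = sgn (Ee ξ) * y₀.1
      rw [Borel_sgn_Ee, one_mul]
    · exact h1
  have key : ∀ f ∈ BInv K χ, f (rt (act (dg a b ha hb) (y₀.1, u * y₀.2)) k) =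
      (χ (dg a b ha hb) : κ) * ((χ (Ee ξ) : κ) * f y₀) := by
    intro f hf
    rw [hf.1 _ k hk, hf.2 _ (Borel_dg_10 a b ha hb), h2, hf.1 _ k' hk', hf.2 _ (Borel_Ee_10 ξ)]
  rw [key f hf, key g hg, hfg y₀ hy₀]

theorem binv_finite (hK : OC K S) : Module.Finite κ (BInv K χ) := by
  obtain ⟨Φ, hΦ, h⟩ := Borel_ext (κ := κ) (χ := χ) hK
  have : Finite Φ := hΦ
  let L : BInv K χ →ₗ[κ] (Φ → κ) :=
    { toFun := fun f y => f.1 y.1
      map_add' := fun _ _ => rfl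
      map_smul' := fun _ _ => rfl }
  apply Module.Finite.of_injective L
  intro f g hfg
  apply Subtype.ext
  apply h f.1 g.1 f.2 g.2
  intro y hy
  exact congrFun hfg ⟨y, hy⟩

/-- Functions in `BInv` are left invariant under `U(𝔸_f)`. -/
theorem binv_U (hK : OC K S) (hχ : ∀ γ : G F, (γ : Matrix (Fin 2) (Fin 2) F).det = 1 → χ γ = 1)
    {f : Pt F → κ} (hf : f ∈ BInv K χ) (u : GA F) (hu : u ∈ UA F) : lt u f = f := by
  funext y
  obtain ⟨ξ, k', hk', h1⟩ := unip_approx hK y.2 u hu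
  have h2 : ((y.1, u * y.2) : Pt F) = rt (act (Ee ξ) y) k' := by
    apply Prod.ext
    · change y.1 = sgn (Ee ξ) * y.1
      rw [Borel_sgn_Ee, one_mul]
    · exact h1
  change f (y.1, u * y.2) = f y
  rw [h2, hf.1 _ k' hk', hf.2 _ (Borel_Ee_10 ξ), hχ _ (det_Ee ξ), Units.val_one, one_mul]

theorem Borel_U (hK : OC K S) (hχ : ∀ γ : G F, (γ : Matrix (Fin 2) (Fin 2) F).det = 1 → χ γ = 1)
    {f : Pt F → κ} (hf : f ∈ BInv K χ) {u : GA F} (hu : u ∈ UA F) (s : RPl F → ℤˣ) (g : GA F) :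
    f (s, u * g) = f (s, g) :=
  congrFun (binv_U hK hχ hf u hu) (s, g)

theorem Borel_lt_rinv {f : Pt F → κ} (hf : RInv K f) (t : GA F) : RInv K (lt t f) := by
  intro y k hk
  have h1 : ((y.1, t * (y.2 * k)) : Pt F) = rt (y.1, t * y.2) k := by
    apply Prod.ext
    · rfl
    · exact (mul_assoc _ _ _).symm
  change f (y.1, t * (y.2 * k)) = f (y.1, t * y.2)
  rw [h1, hf _ k hk]

theorem binv_lt (hK : OC K S) (hχ : ∀ γ : G F, (γ : Matrix (Fin 2) (Fin 2) F).det = 1 → χ γ = 1)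
    {f : Pt F → κ} (hf : f ∈ BInv K χ) (t : GA F) (ht : t ∈ TA F) : lt t f ∈ BInv K χ := by
  refine ⟨Borel_lt_rinv hf.1 t, ?_⟩
  intro b hb y
  obtain ⟨a, d, ha, hd, ξ, rfl⟩ := Borel_decomp hb
  change f (sgn (dg a d ha hd * Ee ξ) * y.1, t * (diag (dg a d ha hd * Ee ξ) * y.2)) =
    _ * f (y.1, t * y.2)
  have h1 : t * (diag (dg a d ha hd * Ee ξ) * y.2) =
      diag (dg a d ha hd * Ee ξ) *
        (((diag (Ee ξ))⁻¹ * (t * diag (Ee ξ) * t⁻¹)) * (t * y.2)) := by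
    have h2 := Borel_TA_comm ht (Borel_TA_diag a d ha hd)
    rw [map_mul]
    calc t * (diag (dg a d ha hd) * diag (Ee ξ) * y.2) =
          (t * diag (dg a d ha hd)) * diag (Ee ξ) * y.2 := by group
      _ = _ := by rw [h2]; group
  have h3 : (diag (Ee ξ))⁻¹ * (t * diag (Ee ξ) * t⁻¹) ∈ UA F :=
    Borel_UA_mul (Borel_UA_inv (Borel_UA_diag ξ)) (Borel_TU ht (Borel_UA_diag ξ))
  rw [h1]
  have h4 := hf.2 _ hb (y.1, ((diag (Ee ξ))⁻¹ * (t * diag (Ee ξ) * t⁻¹)) * (t * y.2))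
  change f (sgn (dg a d ha hd * Ee ξ) * y.1, _) = _ at h4
  rw [h4, Borel_U hK hχ hf h3]

theorem ginv_lt (hK : OC K S) (hχ : ∀ γ : G F, (γ : Matrix (Fin 2) (Fin 2) F).det = 1 → χ γ = 1)
    {f : Pt F → κ} (hf : f ∈ GInv K χ) (t : GA F) (ht : t ∈ TA F) : lt t f ∈ GInv K χ := by
  refine ⟨Borel_lt_rinv hf.1 t, ?_⟩
  intro γ y
  have hS : ∀ γ : G F, (γ : Matrix (Fin 2) (Fin 2) F).det = 1 → ∀ y, f (act γ y) = f y := by
    intro γ hγ y
    rw [hf.2, hχ γ hγ, Units.val_one, one_mul]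
  change f (sgn γ * y.1, t * (diag γ * y.2)) = _ * f (y.1, t * y.2)
  set u : GA F := (t * y.2)⁻¹ * ((diag γ)⁻¹ * t * diag γ * t⁻¹) * (t * y.2) with hu
  have h1 : t * (diag γ * y.2) = diag γ * (t * y.2 * u) := by
    rw [hu]
    group
  have h2 : ∀ v, dtv (u.1 v) = 1 := by
    intro v
    have h3 : u.1 v = (t.1 v * y.2.1 v)⁻¹ * (((diag γ).1 v)⁻¹ * t.1 v * (diag γ).1 v *
      (t.1 v)⁻¹) * (t.1 v * y.2.1 v) := rfl
    rw [h3]
    simp only [Coc0_dtv_mul, Coc0_dtv_inv]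
    have e1 := Coc0_dtv_ne (t.1 v)
    have e2 := Coc0_dtv_ne (y.2.1 v)
    have e3 := Coc0_dtv_ne ((diag γ).1 v)
    field_simp
  rw [h1]
  have h4 := hf.2 γ (rt (y.1, t * y.2) u)
  change f (sgn γ * y.1, diag γ * (t * y.2 * u)) = _ at h4
  rw [h4, inv_SL hK hf.1 hS _ u h2]

/-- Diagonal elements which are integral units outside `S` and close to `1` at `S` act
trivially. -/
theorem binv_unit (hK : OC K S)
    (hχ : ∀ γ : G F, (γ : Matrix (Fin 2) (Fin 2) F).det = 1 → χ γ = 1) :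
    ∃ U : ∀ v : Pl F, Subgroup (GQ v), (∀ v, IsOpen (U v : Set (GQ v))) ∧
      (∀ v, v ∉ S → GZ v ≤ U v) ∧ ∀ t ∈ TA F, (∀ v, t.1 v ∈ U v) → ∀ f ∈ BInv K χ, lt t f = f := by
  classical
  obtain ⟨Φ, hΦ, h⟩ := Borel_ext (κ := κ) (χ := χ) hK
  obtain ⟨U₀, hU₀, hU₀S, hU₀K⟩ := hK.op
  let U : ∀ v : Pl F, Subgroup (GQ v) := fun v =>
    if v ∈ S then ⨅ y : Φ, (U₀ v).comap (MulAut.conj ((y.1.2.1 v)⁻¹)).toMonoidHom else GZ v
  have hmem : ∀ v (y : Φ) (g : GQ v), g ∈ (U₀ v).comap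
      (MulAut.conj ((y.1.2.1 v)⁻¹)).toMonoidHom ↔ (y.1.2.1 v)⁻¹ * g * y.1.2.1 v ∈ U₀ v := by
    intro v y g
    rw [Subgroup.mem_comap]
    change (MulAut.conj ((y.1.2.1 v)⁻¹)) g ∈ U₀ v ↔ _
    rw [MulAut.conj_apply, inv_inv]
  refine ⟨U, ?_, ?_, ?_⟩
  · intro v
    by_cases hv : v ∈ S
    · have h1 : U v = ⨅ y : Φ, (U₀ v).comap (MulAut.conj ((y.1.2.1 v)⁻¹)).toMonoidHom :=
        if_pos hv
      rw [h1, Subgroup.coe_iInf]
      have : Finite Φ := hΦ
      refine isOpen_iInter_of_finite fun y => ?_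
      have h2 : (((U₀ v).comap (MulAut.conj ((y.1.2.1 v)⁻¹)).toMonoidHom : Subgroup (GQ v)) :
          Set (GQ v)) = (fun g : GQ v => (y.1.2.1 v)⁻¹ * g * y.1.2.1 v) ⁻¹' (U₀ v : Set (GQ v)) := by
        ext g
        exact hmem v y g
      rw [h2]
      refine (hU₀ v).preimage ?_
      exact (continuous_const.mul continuous_id).mul continuous_const
    · have h1 : U v = GZ v := if_neg hv
      rw [h1]
      exact isOpen_GZ v
  · intro v hv
    have h1 : U v = GZ v := if_neg hv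
    rw [h1]
  · intro t ht htU f hf
    refine h _ _ (binv_lt hK hχ hf t ht) hf fun y hy => ?_
    -- the Iwasawa decomposition outside `S`
    have hIw : ∀ v, ∃ (x : Fv v) (k : GQ v), (v ∉ S → k ∈ GZ v) ∧
        (v ∈ S ∨ y.2.1 v ∈ GZ v → x = 0) ∧
        (v ∈ S → k = y.2.1 v) ∧
        t.1 v * y.2.1 v = Ev v x * y.2.1 v * (k⁻¹ * t.1 v * k) := by
      intro v
      by_cases hv : v ∈ S ∨ y.2.1 v ∈ GZ v
      · refine ⟨0, y.2.1 v, ?_, fun _ => rfl, fun _ => rfl, ?_⟩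
        · intro h1
          rcases hv with hv | hv
          · exact absurd hv h1
          · exact hv
        · rw [Borel_Ev_zero]
          group
      · obtain ⟨a, b, x, k, hk, hg⟩ := iwasawa v (y.2.1 v)
        obtain ⟨c, d, hcd⟩ := ht v
        refine ⟨c * x * (d⁻¹ : (Fv v)ˣ) + -x, k, fun _ => hk, fun h1 => absurd h1 hv,
          fun h1 => absurd (Or.inl h1) hv, ?_⟩
        rw [hg, hcd, Borel_Ev_add, Borel_Ev_neg]
        have h1 := Borel_Dv_Ev v c d x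
        have h2 := Borel_Dv_comm v c d a b
        calc Dv v c d * (Ev v x * Dv v a b * k) = (Dv v c d * Ev v x) * Dv v a b * k := by group
          _ = Ev v (c * x * (d⁻¹ : (Fv v)ˣ)) * (Dv v c d * Dv v a b) * k := by rw [h1]; group
          _ = _ := by rw [h2]; group
    choose x k hk1 hk2 hk3 hk4 using hIw
    let u : GA F := ⟨fun v => Ev v (x v), by
      refine y.2.2.subset ?_
      intro v hv hv'
      apply hv
      have h1 : x v = 0 := hk2 v (Or.inr hv')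
      change Ev v (x v) ∈ GZ v
      rw [h1, Borel_Ev_zero]
      exact (GZ v).one_mem⟩
    have hu : u ∈ UA F := fun v => ⟨x v, rfl⟩
    let κ' : GA F := (u * y.2)⁻¹ * (t * y.2)
    have hκv : ∀ v, κ'.1 v = (k v)⁻¹ * t.1 v * k v := by
      intro v
      have h1 : κ'.1 v = (Ev v (x v) * y.2.1 v)⁻¹ * (t.1 v * y.2.1 v) := rfl
      rw [h1, hk4 v, inv_mul_cancel_left]
    have hκ : κ' ∈ K := by
      apply hU₀K
      intro v
      rw [hκv]
      have h1 := htU v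
      by_cases hv : v ∈ S
      · rw [hk3 v hv]
        have h2 : U v = ⨅ y : Φ, (U₀ v).comap (MulAut.conj ((y.1.2.1 v)⁻¹)).toMonoidHom :=
          if_pos hv
        rw [h2, Subgroup.mem_iInf] at h1
        exact (hmem v ⟨y, hy⟩ _).1 (h1 ⟨y, hy⟩)
      · have h2 : U v = GZ v := if_neg hv
        rw [h2] at h1
        apply hU₀S v hv
        exact (GZ v).mul_mem ((GZ v).mul_mem ((GZ v).inv_mem (hk1 v hv)) h1) (hk1 v hv)
    have h1 : t * y.2 = u * (y.2 * κ') := by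
      change t * y.2 = u * (y.2 * ((u * y.2)⁻¹ * (t * y.2)))
      group
    change f (y.1, t * y.2) = f y
    rw [h1, Borel_U hK hχ hf hu]
    exact hf.1 y κ' hκ

/-- The Hecke operators on `BInv`. -/
theorem binv_hecke (hK : OC K S)
    (hχ : ∀ γ : G F, (γ : Matrix (Fin 2) (Fin 2) F).det = 1 → χ γ = 1) {f : Pt F → κ}
    (hf : f ∈ BInv K χ) (v : Pl F) (hv : v ∉ S) (y : Pt F) :
    heckeSum (v := v) 0 f y =
      (Nm v : κ) * lt (single v (loc v (dg (pi v) 1 (pi_ne v) one_ne_zero))) f y +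
        lt (single v (loc v (dg 1 (pi v) one_ne_zero (pi_ne v)))) f y ∧
    heckeSum (v := v) 1 f y = lt (single v (sc v)) f y := by
  obtain ⟨U₀, hU₀, hU₀S, hU₀K⟩ := hK.op
  have hmemK : ∀ k ∈ GZ v, single v k ∈ K := by
    intro k hk
    apply hU₀K
    intro w
    by_cases hw : w = v
    · subst hw
      rw [single_same]
      exact hU₀S _ hv hk
    · rw [single_ne hw]
      exact (U₀ w).one_mem
  have hf' : ∀ y, ∀ k ∈ GZ v, f (rt y (single v k)) = f y := fun y k hk => hf.1 y _ (hmemK k hk)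
  constructor
  · obtain ⟨a, b, x, k, hk, hg⟩ := iwasawa v (y.2.1 v)
    set y' : Pt F := rt y (single v k⁻¹) with hy'
    have hyv : y'.2.1 v = Ev v x * Dv v a b := by
      have h1 : y'.2.1 v = y.2.1 v * (single v k⁻¹).1 v := rfl
      rw [h1, single_same, hg, mul_inv_cancel_right]
    have hT : heckeSum (v := v) 0 f y = heckeSum (v := v) 0 f y' :=
      (Coc0_hecke hf' 0 y k⁻¹ ((GZ v).inv_mem hk)).symm
    have hlt : ∀ t, lt t f y = lt t f y' := fun t =>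
      (Borel_lt_rinv hf.1 t y _ (hmemK _ ((GZ v).inv_mem hk))).symm
    rw [hT, hlt, hlt]
    -- the general step
    have key : ∀ (c d : (Fv v)ˣ) (z : Fv v),
        f (rt y' (single v (Ev v z * Dv v c d))) = lt (single v (Dv v c d)) f y' := by
      intro c d z
      have h1 : y'.2 * single v (Ev v z * Dv v c d) =
          single v (Ev v (x + a * z * (b⁻¹ : (Fv v)ˣ) + -(c * x * (d⁻¹ : (Fv v)ˣ)))) *
            (single v (Dv v c d) * y'.2) := by
        apply Subtype.ext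
        funext w
        change y'.2.1 w * (single v (Ev v z * Dv v c d)).1 w =
          (single v (Ev v (x + a * z * (b⁻¹ : (Fv v)ˣ) + -(c * x * (d⁻¹ : (Fv v)ˣ))))).1 w *
            ((single v (Dv v c d)).1 w * y'.2.1 w)
        by_cases hw : w = v
        · subst hw
          rw [single_same, single_same, single_same, hyv, Borel_Ev_add, Borel_Ev_add,
            Borel_Ev_neg]
          have e1 := Borel_Dv_Ev w a b z
          have e2 := Borel_Dv_Ev w c d x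
          have e3 := Borel_Dv_comm w a b c d
          calc Ev w x * Dv w a b * (Ev w z * Dv w c d) =
                Ev w x * (Dv w a b * Ev w z) * Dv w c d := by group
            _ = Ev w x * Ev w (a * z * (b⁻¹ : (Fv w)ˣ)) * (Dv w a b * Dv w c d) := by
              rw [e1]; group
            _ = Ev w x * Ev w (a * z * (b⁻¹ : (Fv w)ˣ)) * (Dv w c d * Dv w a b) := by rw [e3]
            _ = Ev w x * Ev w (a * z * (b⁻¹ : (Fv w)ˣ)) * (Ev w (c * x * (d⁻¹ : (Fv w)ˣ)))⁻¹ *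
                  ((Ev w (c * x * (d⁻¹ : (Fv w)ˣ)) * Dv w c d) * Dv w a b) := by group
            _ = _ := by rw [← e2]; group
        · rw [single_ne hw, single_ne hw, single_ne hw, mul_one, one_mul, one_mul]
      change f (y'.1, y'.2 * single v (Ev v z * Dv v c d)) = f (y'.1, _)
      rw [h1, Borel_U hK hχ hf (Borel_UA_single v _)]
    obtain ⟨B, hB, -, hsum⟩ := cosets_zero v
    have h2 := hsum κ (fun c => f (rt y' (single v (Quotient.out c))))
    unfold heckeSum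
    rw [h2]
    have h3 : ∀ g : GQ v, f (rt y' (single v (Quotient.out ((g : GQ v) : GQ v ⧸ GZ v)))) =
        f (rt y' (single v g)) := fun g => Coc0_coset hf' y' (Quotient.out_eq' _)
    simp only [h3]
    have h4 : ∀ b ∈ B, f (rt y' (single v (loc v (Ee b * dg (pi v) 1 (pi_ne v) one_ne_zero)))) =
        lt (single v (loc v (dg (pi v) 1 (pi_ne v) one_ne_zero))) f y' := by
      intro b _
      rw [map_mul, Borel_loc_Ee, Borel_loc_dg]
      exact key _ _ _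
    have h5 : f (rt y' (single v (loc v (dg 1 (pi v) one_ne_zero (pi_ne v))))) =
        lt (single v (loc v (dg 1 (pi v) one_ne_zero (pi_ne v)))) f y' := by
      rw [Borel_loc_dg]
      have h6 := key (Borel_un v 1 one_ne_zero) (Borel_un v (pi v) (pi_ne v)) 0
      rw [Borel_Ev_zero, one_mul] at h6
      exact h6
    rw [Finset.sum_congr rfl h4, h5, Finset.sum_const, hB, nsmul_eq_mul]
    rfl
  · rw [Coc0_scalar hf']
    change f (y.1, y.2 * single v (sc v)) = f (y.1, single v (sc v) * y.2)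
    have h1 : y.2 * single v (sc v) = single v (sc v) * y.2 := by
      apply Subtype.ext
      funext w
      change y.2.1 w * (single v (sc v)).1 w = (single v (sc v)).1 w * y.2.1 w
      by_cases hw : w = v
      · subst hw
        rw [single_same, sc_comm]
      · rw [single_ne hw, mul_one, one_mul]
    rw [h1]

end Pool.Agent.CG2
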