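import Pool.Agent.CG2.GalL

/-!
# Densities of the sets of places given by a ray class character
-/

noncomputable section

namespace Pool.Agent.CG2

open NumberField IsDedekindDomain

variable {F : Type} [Field F] [NumberField F]

namespace GalChar

theorem expo_mul (v : Pl F) {I J : Ideal (𝓞 F)} (hI : I ≠ ⊥) (hJ : J ≠ ⊥) :
    expo v (I * J) = expo v I + expo v J := by
  unfold expo
  rw [← Associates.mk_mul_mk, Associates.count_mul (Associates.mk_ne_zero.2 hI)
    (Associates.mk_ne_zero.2 hJ) v.associates_irreducible]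

theorem expo_fin {I : Ideal (𝓞 F)} (hI : I ≠ ⊥) : {v : Pl F | expo v I ≠ 0}.Finite := by
  have h := Associates.finite_factors (R := 𝓞 F) hI
  rw [Filter.eventually_cofinite] at h
  refine h.subset fun v hv => ?_
  intro h2
  apply hv
  exact_mod_cast h2

theorem le_of_expo {v : Pl F} {I : Ideal (𝓞 F)} (hI : I ≠ ⊥) (h : expo v I ≠ 0) :
    I ≤ v.asIdeal := by
  rw [← Ideal.dvd_iff_le]
  exact (Associates.count_ne_zero_iff_dvd hI v.irreducible).1 h

theorem not_le_of_expo {m₀ : Ideal (𝓞 F)} {v : Pl F} {I : Ideal (𝓞 F)} (hI : I ≠ ⊥)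
    (hc : IsCoprime I m₀) (h : expo v I ≠ 0) : ¬ m₀ ≤ v.asIdeal := by
  intro h2
  have h3 := le_of_expo hI h
  rw [Ideal.isCoprime_iff_sup_eq] at hc
  exact v.isPrime.ne_top (top_le_iff.1 (hc ▸ sup_le h3 h2))

theorem expo_top (v : Pl F) : expo v (⊤ : Ideal (𝓞 F)) = 0 := by
  by_contra h
  exact v.isPrime.ne_top (top_le_iff.1 (le_of_expo top_ne_bot h))

theorem expo_self (v : Pl F) : expo v v.asIdeal = 1 := by
  unfold expo
  exact Associates.count_self v.associates_irreducible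

theorem expo_ne {v w : Pl F} (h : v ≠ w) : expo v w.asIdeal = 0 := by
  by_contra h2
  have h3 := le_of_expo w.ne_bot h2
  have h4 : w.asIdeal = v.asIdeal := (w.isMaximal.eq_of_le v.isPrime.ne_top h3)
  exact h (HeightOneSpectrum.ext h4.symm)

/-- multiplicative extension -/
def ex {M : Type} [CommMonoid M] (u : Pl F → M) (I : Ideal (𝓞 F)) : M :=
  ∏ᶠ v : Pl F, u v ^ expo v I

theorem ex_supp {M : Type} [CommMonoid M] (u : Pl F → M) {I : Ideal (𝓞 F)} (hI : I ≠ ⊥) :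
    (Function.mulSupport fun v : Pl F => u v ^ expo v I).Finite := by
  refine (expo_fin hI).subset fun v hv => ?_
  intro h
  apply hv
  show u v ^ expo v I = 1
  rw [h, pow_zero]

theorem ex_mul {M : Type} [CommMonoid M] (u : Pl F → M) {I J : Ideal (𝓞 F)} (hI : I ≠ ⊥)
    (hJ : J ≠ ⊥) : ex u (I * J) = ex u I * ex u J := by
  unfold ex
  rw [← finprod_mul_distrib (ex_supp u hI) (ex_supp u hJ)]
  refine finprod_congr fun v => ?_
  rw [expo_mul v hI hJ, pow_add]

theorem ex_top {M : Type} [CommMonoid M] (u : Pl F → M) : ex u (⊤ : Ideal (𝓞 F)) = 1 := by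
  unfold ex
  refine (finprod_congr fun v => ?_).trans finprod_one
  rw [expo_top, pow_zero]

theorem ex_prime {M : Type} [CommMonoid M] (u : Pl F → M) (v : Pl F) : ex u v.asIdeal = u v := by
  unfold ex
  rw [finprod_eq_single _ v fun w hw => by rw [expo_ne hw, pow_zero]]
  rw [expo_self, pow_one]

theorem ex_congr {M : Type} [CommMonoid M] {u u' : Pl F → M} {I : Ideal (𝓞 F)}
    (h : ∀ v, expo v I ≠ 0 → u v = u' v) : ex u I = ex u' I := by
  unfold ex
  refine finprod_congr fun v => ?_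
  by_cases hv : expo v I = 0
  · rw [hv, pow_zero, pow_zero]
  · rw [h v hv]

theorem ex_map {M N : Type} [CommMonoid M] [CommMonoid N] (f : M →* N) (u : Pl F → M)
    {I : Ideal (𝓞 F)} (hI : I ≠ ⊥) : f (ex u I) = ex (fun v => f (u v)) I := by
  unfold ex
  rw [f.map_finprod (ex_supp u hI)]
  exact finprod_congr fun v => map_pow f _ _

/-! ### sums over the places -/

theorem summ_univ {s : ℝ} (hs : 1 < s) :
    Summable fun v : Pl F => (Ideal.absNorm v.asIdeal : ℝ) ^ (-s) := by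
  have h := Ds_summable (F := F) Set.univ hs
  have h2 := (summable_subtype_iff_indicator
    (f := fun v : Pl F => (Ideal.absNorm v.asIdeal : ℝ) ^ (-s))).1 h
  rwa [Set.indicator_univ] at h2

theorem Ds_univ (s : ℝ) : Ds (Set.univ : Set (Pl F)) s =
    ∑' v : Pl F, (Ideal.absNorm v.asIdeal : ℝ) ^ (-s) := by
  unfold Ds
  rw [tsum_subtype Set.univ fun v : Pl F => (Ideal.absNorm v.asIdeal : ℝ) ^ (-s),
    Set.indicator_univ]

theorem Nnn (v : Pl F) (s : ℝ) : 0 ≤ (Ideal.absNorm v.asIdeal : ℝ) ^ (-s) :=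
  Real.rpow_nonneg (Nat.cast_nonneg _) _

theorem summ_mul {s : ℝ} (hs : 1 < s) {f : Pl F → ℝ} (hf : ∀ v, |f v| ≤ 1) :
    Summable fun v : Pl F => f v * (Ideal.absNorm v.asIdeal : ℝ) ^ (-s) := by
  refine Summable.of_norm_bounded (summ_univ hs) fun v => ?_
  rw [norm_mul, Real.norm_eq_abs, Real.norm_of_nonneg (Nnn v s)]
  have := mul_le_mul_of_nonneg_right (hf v) (Nnn v s)
  linarith

theorem abs_sum_le {s : ℝ} (hs : 1 < s) {f : Pl F → ℝ} (hf : ∀ v, |f v| ≤ 1) :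
    |∑' v : Pl F, f v * (Ideal.absNorm v.asIdeal : ℝ) ^ (-s)| ≤ Ds (Set.univ : Set (Pl F)) s := by
  rw [Ds_univ, ← Real.norm_eq_abs]
  refine tsum_of_norm_bounded (summ_univ hs).hasSum fun v => ?_
  rw [norm_mul, Real.norm_eq_abs, Real.norm_of_nonneg (Nnn v s)]
  have := mul_le_mul_of_nonneg_right (hf v) (Nnn v s)
  linarith

/-- the sum over the places for a nontrivial character: either the `L`-function vanishes at `1`,
or the sum is bounded -/
theorem alt (m₀ : Ideal (𝓞 F)) (hm : m₀ ≠ ⊥) (χ : Pl F → ℂ) (hχ : RayChar m₀ χ)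
    (hne : ∃ v, ¬ m₀ ≤ v.asIdeal ∧ χ v ≠ 1) :
    (∃ C : ℝ, ∀ s ∈ Set.Ioc (1 : ℝ) 2,
      ∑' v : Pl F, (χ v).re * (Ideal.absNorm v.asIdeal : ℝ) ^ (-s) ≤ C - Real.log (1 / (s - 1))) ∨
    ∃ C : ℝ, ∀ s ∈ Set.Ioc (1 : ℝ) 2,
      |∑' v : Pl F, (χ v).re * (Ideal.absNorm v.asIdeal : ℝ) ^ (-s)| ≤ C := by
  obtain ⟨L, C, hC⟩ := L_lim m₀ hm χ hχ hne
  obtain ⟨C', hC'⟩ := L_log m₀ hm χ hχ
  set C1 := max C 1 with hC1
  have hC1p : 0 < C1 := lt_of_lt_of_le one_pos (le_max_right _ _)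
  have hC2 : ∀ s ∈ Set.Ioc (1 : ℝ) 2,
      ‖(∑' I : {I : Ideal (𝓞 F) // I ≠ ⊥}, ext χ I.1 * ((Ideal.absNorm I.1 : ℝ) ^ (-s) : ℝ)) - L‖
        ≤ C1 * (s - 1) := by
    intro s hs
    refine (hC s hs).trans ?_
    have h1 : 0 ≤ s - 1 := by linarith [hs.1]
    exact mul_le_mul_of_nonneg_right (le_max_left _ _) h1
  by_cases hL : L = 0
  · left
    refine ⟨Real.log C1 + C', fun s hs => ?_⟩
    have hs1 : 0 < s - 1 := by linarith [hs.1]
    obtain ⟨h1, h2⟩ := hC' s hs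
    have h3 := hC2 s hs
    rw [hL, sub_zero] at h3
    have h4 : 0 < ‖∑' I : {I : Ideal (𝓞 F) // I ≠ ⊥},
      ext χ I.1 * ((Ideal.absNorm I.1 : ℝ) ^ (-s) : ℝ)‖ := norm_pos_iff.2 h1
    have h5 := Real.log_le_log h4 h3
    rw [Real.log_mul hC1p.ne' hs1.ne'] at h5
    have h6 : Real.log (1 / (s - 1)) = - Real.log (s - 1) := by
      rw [one_div, Real.log_inv]
    rw [h6]
    have h7 := (abs_le.1 h2).1
    linarith
  · right
    have hLp : 0 < ‖L‖ := norm_pos_iff.2 hL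
    obtain ⟨C2, hC3⟩ := hasDen_univ F
    set ε := ‖L‖ / (2 * C1) with hε
    have hεp : 0 < ε := by positivity
    refine ⟨C' + |Real.log (‖L‖ / 2)| + |Real.log (3 * ‖L‖ / 2)| + |Real.log (1 / ε)| + |C2|,
      fun s hs => ?_⟩
    have hs1 : 0 < s - 1 := by linarith [hs.1]
    obtain ⟨h1, h2⟩ := hC' s hs
    have hC'0 : 0 ≤ C' := (abs_nonneg _).trans h2
    by_cases hse : s - 1 ≤ ε
    · have h3 := hC2 s hs
      have h4 : C1 * (s - 1) ≤ ‖L‖ / 2 := by
        have := mul_le_mul_of_nonneg_left hse hC1p.le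
        have h5 : C1 * ε = ‖L‖ / 2 := by
          rw [hε]
          field_simp
        linarith
      set LL := ∑' I : {I : Ideal (𝓞 F) // I ≠ ⊥}, ext χ I.1 * ((Ideal.absNorm I.1 : ℝ) ^ (-s) : ℝ)
        with hLL
      have h5 : |‖LL‖ - ‖L‖| ≤ ‖L‖ / 2 := (abs_norm_sub_norm_le _ _).trans (h3.trans h4)
      obtain ⟨h6, h7⟩ := abs_le.1 h5
      have h8 : Real.log (‖L‖ / 2) ≤ Real.log ‖LL‖ :=
        Real.log_le_log (by positivity) (by linarith)
      have h9 : Real.log ‖LL‖ ≤ Real.log (3 * ‖L‖ / 2) :=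
        Real.log_le_log (norm_pos_iff.2 h1) (by linarith)
      obtain ⟨h10, h11⟩ := abs_le.1 h2
      have h12 := neg_abs_le (Real.log (‖L‖ / 2))
      have h13 := le_abs_self (Real.log (3 * ‖L‖ / 2))
      have h14 := abs_nonneg (Real.log (‖L‖ / 2))
      have h15 := abs_nonneg (Real.log (3 * ‖L‖ / 2))
      have h16 := abs_nonneg (Real.log (1 / ε))
      have h17 := abs_nonneg C2
      rw [abs_le]
      constructor <;> linarith
    · push Not at hse
      have h3 : |∑' v : Pl F, (χ v).re * (Ideal.absNorm v.asIdeal : ℝ) ^ (-s)| ≤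
          Ds (Set.univ : Set (Pl F)) s := by
        refine abs_sum_le hs.1 fun v => ?_
        refine (Complex.abs_re_le_norm _).trans ?_
        by_cases hv : m₀ ≤ v.asIdeal
        · rw [hχ.zero v hv, norm_zero]
          exact zero_le_one
        · exact (hχ.abs v hv).le
      have h4 := (abs_le.1 (hC3 s hs)).2
      have h5 : Real.log (1 / (s - 1)) ≤ Real.log (1 / ε) :=
        Real.log_le_log (by positivity) (one_div_le_one_div_of_le hεp hse.le)
      have h12 := le_abs_self (Real.log (1 / ε))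
      have h13 := le_abs_self C2
      have h14 := abs_nonneg (Real.log (‖L‖ / 2))
      have h15 := abs_nonneg (Real.log (3 * ‖L‖ / 2))
      linarith

/-- averages of the powers of a root of unity -/
theorem geom {z : ℂ} {m : ℕ} (hz : z ^ m = 1) :
    ∑ j ∈ Finset.range m, z ^ j = if z = 1 then (m : ℂ) else 0 := by
  split_ifs with h
  · rw [h]
    simp
  · have h1 := geom_sum_eq h m
    rw [h1, hz, sub_self, zero_div]

end GalChar

open GalChar

/-- **G3** -/
theorem char_density {p : ℕ} [Fact p.Prime] {κ : Type} [Field κ] [CharP κ p] {S : Set (Pl F)}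
    (hS : S.Finite) (ψ : Pl F → κ) (hψ : IsRay S ψ) :
    ∃ (T : Set (Pl F)) (n : ℕ), T.Finite ∧ S ⊆ T ∧ 0 < n ∧ (∀ v, v ∉ T → ψ v ^ n = 1) ∧
      ((∀ d, 0 < d → ∃ c : ℝ, 0 < c ∧ HasDen {v | v ∉ T ∧ ψ v ^ d = 1} c) →
        ∀ d, d ∣ n → HasDen {v | v ∉ T ∧ ψ v ^ d = 1} ((d : ℝ) / n)) := by
  classical
  obtain ⟨h0, m₀, hm, hSm, hray⟩ := hψ
  let T : Set (Pl F) := {v | m₀ ≤ v.asIdeal}
  have hTfin : T.Finite := by
    refine (Ideal.finite_factors (R := 𝓞 F) hm).subset fun v hv => ?_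
    exact Ideal.dvd_iff_le.2 hv
  let U0 : Pl F → κˣ := fun v => Units.mk0 (ψ v) (h0 v)
  have hInRay : ∀ J : Ideal (𝓞 F), InRay m₀ J → J ≠ ⊥ ∧ IsCoprime J m₀ ∧ ex U0 J = 1 := by
    rintro J ⟨a, ha, ha1, hapos, rfl⟩
    have hbot : Ideal.span {a} ≠ ⊥ := by
      rw [Ne, Ideal.span_singleton_eq_bot]
      exact ha
    refine ⟨hbot, ?_, ?_⟩
    · rw [Ideal.isCoprime_iff_sup_eq, Ideal.eq_top_iff_one]
      have h1 : (1 : 𝓞 F) = a + -(a - 1) := by ring
      rw [h1]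
      exact Submodule.add_mem_sup (Ideal.mem_span_singleton_self a) (m₀.neg_mem ha1)
    · apply Units.ext
      have h1 := ex_map (Units.coeHom κ) U0 hbot
      have h2 : (fun v => (Units.coeHom κ) (U0 v)) = ψ := by
        funext v
        rfl
      rw [h2] at h1
      have h3 := hray a ha ha1 hapos
      change ((ex U0 (Ideal.span {a}) : κˣ) : κ) = 1
      exact h1.trans h3
  obtain ⟨reps, hr1, hr2, -⟩ := exists_reps m₀ hm
  have hinv : ∀ I : Ideal (𝓞 F), I ≠ ⊥ → IsCoprime I m₀ → ∃ b ∈ reps, ex U0 I * ex U0 b = 1 := by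
    intro I hI hc
    obtain ⟨b, hb, hIb⟩ := hr2 I hI hc
    refine ⟨b, hb, ?_⟩
    rw [← ex_mul U0 hI (hr1 b hb).1]
    exact (hInRay _ hIb).2.2
  let H : Subgroup κˣ :=
    { carrier := {x | ∃ I : Ideal (𝓞 F), I ≠ ⊥ ∧ IsCoprime I m₀ ∧ x = ex U0 I}
      mul_mem' := by
        rintro x y ⟨I, hI, hIc, rfl⟩ ⟨J, hJ, hJc, rfl⟩
        exact ⟨I * J, mul_ne_zero hI hJ, hIc.mul_left hJc, (ex_mul U0 hI hJ).symm⟩
      one_mem' := by
        refine ⟨⊤, top_ne_bot, ?_, (ex_top U0).symm⟩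
        rw [Ideal.isCoprime_iff_sup_eq, top_sup_eq]
      inv_mem' := by
        rintro x ⟨I, hI, hIc, rfl⟩
        obtain ⟨b, hb, hIb⟩ := hinv I hI hIc
        exact ⟨b, (hr1 b hb).1, (hr1 b hb).2, inv_eq_of_mul_eq_one_right hIb⟩ }
  have hHmem : ∀ x : κˣ, x ∈ H ↔ ∃ I : Ideal (𝓞 F), I ≠ ⊥ ∧ IsCoprime I m₀ ∧ x = ex U0 I :=
    fun x => Iff.rfl
  have hHfin : Finite H := by
    have hfin : (H : Set κˣ).Finite := by
      refine (reps.finite_toSet.image fun b => (ex U0 b)⁻¹).subset ?_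
      intro x hx
      obtain ⟨I, hI, hIc, rfl⟩ := (hHmem x).1 hx
      obtain ⟨b, hb, hIb⟩ := hinv I hI hIc
      exact ⟨b, hb, (eq_inv_of_mul_eq_one_left hIb).symm⟩
    exact hfin.to_subtype
  have hUmem : ∀ v : Pl F, ¬ m₀ ≤ v.asIdeal → U0 v ∈ H := by
    intro v hv
    refine (hHmem _).2 ⟨v.asIdeal, v.ne_bot, ?_, (ex_prime U0 v).symm⟩
    rw [Ideal.isCoprime_iff_sup_eq]
    by_contra h
    have h1 : v.asIdeal = v.asIdeal ⊔ m₀ := v.isMaximal.eq_of_le h le_sup_left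
    exact hv (h1 ▸ le_sup_right)
  let U : Pl F → H := fun v => if h : m₀ ≤ v.asIdeal then 1 else ⟨U0 v, hUmem v h⟩
  have hU : ∀ v : Pl F, ¬ m₀ ≤ v.asIdeal → ((U v : H) : κˣ) = U0 v := by
    intro v hv
    show ((if h : m₀ ≤ v.asIdeal then (1 : H) else ⟨U0 v, hUmem v h⟩ : H) : κˣ) = U0 v
    rw [dif_neg hv]
  have hexU : ∀ I : Ideal (𝓞 F), I ≠ ⊥ → IsCoprime I m₀ → ((ex U I : H) : κˣ) = ex U0 I := by
    intro I hI hIc
    have h1 := ex_map H.subtype U hI
    refine h1.trans (ex_congr fun v hv => ?_)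
    exact hU v (not_le_of_expo hI hIc hv)
  set n := Nat.card H with hn
  have hnpos : 0 < n := Nat.card_pos
  have : NeZero n := ⟨hnpos.ne'⟩
  have hcard : Nat.card H = Nat.card (rootsOfUnity n ℂ) := by
    rw [Complex.card_rootsOfUnity]
  let e : H ≃* rootsOfUnity n ℂ := mulEquivOfCyclicCardEq hcard
  let θ : H →* ℂ := (Units.coeHom ℂ).comp ((rootsOfUnity n ℂ).subtype.comp e.toMonoidHom)
  have hθ1 : ∀ x : H, θ x = 1 → x = 1 := by
    intro x hx
    have h1 : (((e x : rootsOfUnity n ℂ) : ℂˣ) : ℂ) = 1 := hx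
    have h2 : ((e x : rootsOfUnity n ℂ) : ℂˣ) = 1 := Units.ext h1
    have h3 : e x = 1 := Subtype.ext h2
    exact e.map_eq_one_iff.1 h3
  have hxn : ∀ x : H, x ^ n = 1 := fun x => pow_card_eq_one'
  have hθn : ∀ x : H, θ x ^ n = 1 := by
    intro x
    rw [← map_pow, hxn, map_one]
  have hθabs : ∀ x : H, ‖θ x‖ = 1 := fun x =>
    Complex.norm_eq_one_of_pow_eq_one (hθn x) hnpos.ne'
  let χ : ℕ → Pl F → ℂ := fun k v => if m₀ ≤ v.asIdeal then 0 else θ (U v) ^ k
  have hχpos : ∀ k v, ¬ m₀ ≤ v.asIdeal → χ k v = θ (U v) ^ k := fun k v hv => if_neg hv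
  have hχneg : ∀ k v, m₀ ≤ v.asIdeal → χ k v = 0 := fun k v hv => if_pos hv
  have hRC : ∀ k, RayChar m₀ (χ k) := by
    intro k
    refine ⟨fun v hv => hχneg k v hv, fun v hv => ?_, fun I hI => ?_⟩
    · rw [hχpos k v hv, norm_pow, hθabs, one_pow]
    · obtain ⟨hb, hc, h1⟩ := hInRay I hI
      have h2 : ext (χ k) I = ex (χ k) I := rfl
      rw [h2, ex_congr (u' := fun v => ((powMonoidHom k).comp θ) (U v)) fun v hv => by
        rw [hχpos k v (not_le_of_expo hb hc hv)]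
        rfl]
      rw [← ex_map ((powMonoidHom k).comp θ) U hb]
      have h3 : ex U I = 1 := by
        apply Subtype.ext
        rw [hexU I hb hc, h1]
        rfl
      rw [h3, map_one]
  have hnt : ∀ k, 0 < k → k < n → ∃ v, ¬ m₀ ≤ v.asIdeal ∧ χ k v ≠ 1 := by
    intro k hk hkn
    by_contra hcon
    push Not at hcon
    have h1 : ∀ v, (U v) ^ k = 1 := by
      intro v
      by_cases hv : m₀ ≤ v.asIdeal
      · have h2 : U v = 1 := dif_pos hv
        rw [h2, one_pow]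
      · have h2 := hcon v hv
        rw [hχpos k v hv, ← map_pow] at h2
        exact hθ1 _ h2
    have h2 : ∀ x : H, x ^ k = 1 := by
      intro x
      obtain ⟨I, hI, hIc, hx⟩ := (hHmem x.1).1 x.2
      have h3 : x = ex U I := by
        apply Subtype.ext
        rw [hexU I hI hIc]
        exact hx
      rw [h3]
      have h4 := ex_map (powMonoidHom k) U hI
      have h5 : (powMonoidHom k) (ex U I) = (ex U I) ^ k := rfl
      rw [← h5, h4]
      unfold ex
      refine (finprod_congr fun v => ?_).trans finprod_one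
      show ((U v) ^ k) ^ expo v I = 1
      rw [h1 v, one_pow]
    obtain ⟨g, hg⟩ := IsCyclic.exists_ofOrder_eq_natCard (α := H)
    have h3 := orderOf_dvd_of_pow_eq_one (h2 g)
    rw [hg] at h3
    exact absurd (Nat.le_of_dvd hk h3) (not_le.2 hkn)
  -- the sums
  let Sk : ℕ → ℝ → ℝ := fun k s =>
    ∑' v : Pl F, (χ k v).re * (Ideal.absNorm v.asIdeal : ℝ) ^ (-s)
  have hχabs : ∀ k v, |(χ k v).re| ≤ 1 := by
    intro k v
    refine (Complex.abs_re_le_norm _).trans ?_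
    by_cases hv : m₀ ≤ v.asIdeal
    · rw [hχneg k v hv, norm_zero]
      exact zero_le_one
    · exact ((hRC k).abs v hv).le
  have hψU : ∀ d v, ¬ m₀ ≤ v.asIdeal → (ψ v ^ d = 1 ↔ θ (U v) ^ d = 1) := by
    intro d v hv
    have h1 : ψ v ^ d = 1 ↔ (U0 v) ^ d = 1 := by
      rw [Units.ext_iff]
      exact Iff.rfl
    have h2 : (U0 v) ^ d = 1 ↔ (U v) ^ d = 1 := by
      rw [Subtype.ext_iff, ← hU v hv]
      exact Iff.rfl
    rw [h1, h2, ← map_pow]
    exact ⟨fun h => by rw [h, map_one], fun h => hθ1 _ h⟩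
  have hDs : ∀ d m, d * m = n → ∀ s, 1 < s → Ds {v | v ∉ T ∧ ψ v ^ d = 1} s =
      (m : ℝ)⁻¹ * ∑ j ∈ Finset.range m, Sk (d * j) s := by
    intro d m hdm s hs
    have hmpos : 0 < m := by
      rcases Nat.eq_zero_or_pos m with h | h
      · rw [h, mul_zero] at hdm
        exact absurd hdm.symm hnpos.ne'
      · exact h
    have hm0 : (m : ℝ) ≠ 0 := by positivity
    unfold Ds
    rw [tsum_subtype {v | v ∉ T ∧ ψ v ^ d = 1}
      fun v : Pl F => (Ideal.absNorm v.asIdeal : ℝ) ^ (-s)]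
    show _ = (m : ℝ)⁻¹ * ∑ j ∈ Finset.range m, ∑' v : Pl F,
      (χ (d * j) v).re * (Ideal.absNorm v.asIdeal : ℝ) ^ (-s)
    rw [← Summable.tsum_finsetSum fun j _ => summ_mul hs (hχabs (d * j)), ← tsum_mul_left]
    refine tsum_congr fun v => ?_
    rw [← Finset.sum_mul, ← mul_assoc]
    have key : ({v | v ∉ T ∧ ψ v ^ d = 1} : Set (Pl F)).indicator
        (fun v : Pl F => (Ideal.absNorm v.asIdeal : ℝ) ^ (-s)) v =
        (if v ∉ T ∧ ψ v ^ d = 1 then (1 : ℝ) else 0) * (Ideal.absNorm v.asIdeal : ℝ) ^ (-s) := by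
      rw [Set.indicator_apply]
      split_ifs with h1 h2 h2
      · rw [one_mul]
      · exact absurd h1 h2
      · exact absurd h2 h1
      · rw [zero_mul]
    rw [key]
    congr 1
    by_cases hv : m₀ ≤ v.asIdeal
    · have h1 : ¬ (v ∉ T ∧ ψ v ^ d = 1) := fun h => h.1 hv
      rw [if_neg h1]
      have h2 : ∀ j, (χ (d * j) v).re = 0 := fun j => by rw [hχneg _ v hv, Complex.zero_re]
      simp only [h2, Finset.sum_const_zero, mul_zero]
    · have h1 : (v ∉ T ∧ ψ v ^ d = 1) ↔ θ (U v) ^ d = 1 := by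
        rw [← hψU d v hv]
        exact ⟨fun h => h.2, fun h => ⟨hv, h⟩⟩
      have h2 : ∑ j ∈ Finset.range m, (χ (d * j) v).re =
          (∑ j ∈ Finset.range m, (θ (U v) ^ d) ^ j).re := by
        rw [Complex.re_sum]
        refine Finset.sum_congr rfl fun j _ => ?_
        rw [hχpos _ v hv, pow_mul]
      have h3 : (θ (U v) ^ d) ^ m = 1 := by rw [← pow_mul, hdm, hθn]
      rw [h2, geom h3]
      by_cases h4 : θ (U v) ^ d = 1
      · rw [if_pos (h1.2 h4), if_pos h4]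
        simp only [Complex.natCast_re]
        field_simp
      · rw [if_neg (fun h => h4 (h1.1 h)), if_neg h4]
        simp
  -- the trivial character
  have hS0 : ∃ C : ℝ, ∀ s ∈ Set.Ioc (1 : ℝ) 2, |Sk 0 s - Real.log (1 / (s - 1))| ≤ C := by
    have h1 : HasDen Tᶜ 1 := by
      refine (hasDen_univ F).congr (hTfin.subset ?_)
      rintro v ⟨h2 | h2, -⟩
      · by_contra h3
        exact h2.2 h3
      · exact absurd (Set.mem_univ v) h2.2
    obtain ⟨C, hC⟩ := h1
    refine ⟨C, fun s hs => ?_⟩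
    have h2 : Ds Tᶜ s = Sk 0 s := by
      unfold Ds
      rw [tsum_subtype Tᶜ fun v : Pl F => (Ideal.absNorm v.asIdeal : ℝ) ^ (-s)]
      refine tsum_congr fun v => ?_
      rw [Set.indicator_apply]
      by_cases hv : m₀ ≤ v.asIdeal
      · rw [if_neg (fun h : v ∈ Tᶜ => h hv), hχneg 0 v hv, Complex.zero_re, zero_mul]
      · rw [if_pos (show v ∈ Tᶜ from hv), hχpos 0 v hv, pow_zero, Complex.one_re, one_mul]
    have h3 := hC s hs
    rwa [h2, one_mul] at h3
  refine ⟨T, n, hTfin, fun v hv => hSm v hv, hnpos, ?_, ?_⟩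
  · intro v hv
    rw [hψU n v hv]
    exact hθn _
  intro hpos d hd
  -- no `L`-function vanishes
  have hlogpos : ∀ s ∈ Set.Ioc (1 : ℝ) 2, 0 ≤ Real.log (1 / (s - 1)) := by
    intro s hs
    refine Real.log_nonneg ?_
    rw [le_div_iff₀ (by linarith [hs.1])]
    linarith [hs.2]
  have halt := fun k (hk : 0 < k) (hkn : k < n) => alt m₀ hm (χ k) (hRC k) (hnt k hk hkn)
  have hupper : ∀ k, 0 < k → k < n → ∃ C : ℝ, ∀ s ∈ Set.Ioc (1 : ℝ) 2, Sk k s ≤ C := by
    intro k hk hkn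
    rcases halt k hk hkn with ⟨C, hC⟩ | ⟨C, hC⟩
    · refine ⟨C, fun s hs => ?_⟩
      have h1 := hC s hs
      have h2 := hlogpos s hs
      change Sk k s ≤ _ at h1
      linarith
    · exact ⟨C, fun s hs => (le_abs_self _).trans (hC s hs)⟩
  have hbdd : ∀ k, 0 < k → k < n → ∃ C : ℝ, ∀ s ∈ Set.Ioc (1 : ℝ) 2, |Sk k s| ≤ C := by
    intro k hk hkn
    rcases halt k hk hkn with ⟨C, hC⟩ | ⟨C, hC⟩
    swap
    · exact ⟨C, hC⟩
    exfalso
    obtain ⟨c, hc, C1, hC1⟩ := hpos 1 one_pos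
    obtain ⟨C0, hC0⟩ := hS0
    -- upper bounds of the other sums
    have hup : ∀ j, ∃ C : ℝ, ∀ s ∈ Set.Ioc (1 : ℝ) 2, j ∈ (Finset.range n).erase 0 → Sk j s ≤ C := by
      intro j
      by_cases hj : j ∈ (Finset.range n).erase 0
      · rw [Finset.mem_erase, Finset.mem_range] at hj
        obtain ⟨C, hC⟩ := hupper j (Nat.pos_of_ne_zero hj.1) hj.2
        exact ⟨C, fun s hs _ => hC s hs⟩
      · exact ⟨0, fun s _ h => absurd h hj⟩
    choose Cj hCj using hup
    have hbig : ∀ s ∈ Set.Ioc (1 : ℝ) 2, Ds {v | v ∉ T ∧ ψ v ^ 1 = 1} s ≤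
        (n : ℝ)⁻¹ * (C0 + C + ∑ j ∈ ((Finset.range n).erase 0).erase k, Cj j) := by
      intro s hs
      rw [hDs 1 n (one_mul n) s hs.1]
      refine mul_le_mul_of_nonneg_left ?_ (by positivity)
      simp only [one_mul]
      have h0mem : 0 ∈ Finset.range n := Finset.mem_range.2 hnpos
      have hkmem : k ∈ (Finset.range n).erase 0 :=
        Finset.mem_erase.2 ⟨hk.ne', Finset.mem_range.2 hkn⟩
      rw [← Finset.add_sum_erase _ _ h0mem, ← Finset.add_sum_erase _ _ hkmem]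
      have h1 := (abs_le.1 (hC0 s hs)).2
      have h2 := hC s hs
      change Sk k s ≤ _ at h2
      have h3 : ∑ j ∈ ((Finset.range n).erase 0).erase k, Sk j s ≤
          ∑ j ∈ ((Finset.range n).erase 0).erase k, Cj j :=
        Finset.sum_le_sum fun j hj => hCj j s hs (Finset.mem_of_mem_erase hj)
      linarith
    set B := (n : ℝ)⁻¹ * (C0 + C + ∑ j ∈ ((Finset.range n).erase 0).erase k, Cj j) with hB
    -- choose s close to 1
    obtain ⟨s, hs, hslog⟩ : ∃ s ∈ Set.Ioc (1 : ℝ) 2, (|B| + |C1| + 1) / c < Real.log (1 / (s - 1)) := by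
      set X := (|B| + |C1| + 1) / c with hX
      have hX0 : 0 < X := by positivity
      refine ⟨1 + Real.exp (-(X + 1)), ⟨by linarith [Real.exp_pos (-(X + 1))], ?_⟩, ?_⟩
      · have : Real.exp (-(X + 1)) ≤ 1 := Real.exp_le_one_iff.2 (by linarith)
        linarith
      · rw [show 1 + Real.exp (-(X + 1)) - 1 = Real.exp (-(X + 1)) by ring, one_div, Real.log_inv,
          Real.log_exp]
        linarith
    have h1 := hbig s hs
    have h2 := (abs_le.1 (hC1 s hs)).1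
    have h3 : |B| + |C1| + 1 < c * Real.log (1 / (s - 1)) := by
      rw [div_lt_iff₀ hc] at hslog
      linarith
    have h4 := le_abs_self B
    have h5 := le_abs_self C1
    linarith
  -- the result
  obtain ⟨m, hm2⟩ := hd
  have hdpos : 0 < d := by
    rcases Nat.eq_zero_or_pos d with h | h
    · rw [h, zero_mul] at hm2
      exact absurd hm2 hnpos.ne'
    · exact h
  have hmpos : 0 < m := by
    rcases Nat.eq_zero_or_pos m with h | h
    · rw [h, mul_zero] at hm2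
      exact absurd hm2 hnpos.ne'
    · exact h
  have hfrac : (d : ℝ) / n = (m : ℝ)⁻¹ := by
    rw [hm2]
    push_cast
    have hd0 : (d : ℝ) ≠ 0 := by positivity
    have hm0 : (m : ℝ) ≠ 0 := by positivity
    field_simp
  obtain ⟨C0, hC0⟩ := hS0
  have hbj : ∀ j, ∃ C : ℝ, ∀ s ∈ Set.Ioc (1 : ℝ) 2, j ∈ (Finset.range m).erase 0 →
      |Sk (d * j) s| ≤ C := by
    intro j
    by_cases hj : j ∈ (Finset.range m).erase 0
    · rw [Finset.mem_erase, Finset.mem_range] at hj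
      have h1 : 0 < d * j := Nat.mul_pos hdpos (Nat.pos_of_ne_zero hj.1)
      have h2 : d * j < n := by
        rw [hm2]
        exact Nat.mul_lt_mul_of_pos_left hj.2 hdpos
      obtain ⟨C, hC⟩ := hbdd (d * j) h1 h2
      exact ⟨C, fun s hs _ => hC s hs⟩
    · exact ⟨0, fun s _ h => absurd h hj⟩
  choose Cj hCj using hbj
  refine ⟨(m : ℝ)⁻¹ * (C0 + ∑ j ∈ (Finset.range m).erase 0, Cj j), fun s hs => ?_⟩
  rw [hDs d m hm2.symm s hs.1, hfrac, ← mul_sub, abs_mul, abs_of_nonneg (by positivity)]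
  refine mul_le_mul_of_nonneg_left ?_ (by positivity)
  have h0mem : 0 ∈ Finset.range m := Finset.mem_range.2 hmpos
  rw [← Finset.add_sum_erase _ _ h0mem, mul_zero]
  have h1 := hC0 s hs
  have h2 : |∑ j ∈ (Finset.range m).erase 0, Sk (d * j) s| ≤ ∑ j ∈ (Finset.range m).erase 0, Cj j :=
    (Finset.abs_sum_le_sum_abs _ _).trans (Finset.sum_le_sum fun j hj => hCj j s hs hj)
  have h3 : Sk 0 s + ∑ j ∈ (Finset.range m).erase 0, Sk (d * j) s - Real.log (1 / (s - 1)) =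
      (Sk 0 s - Real.log (1 / (s - 1))) + ∑ j ∈ (Finset.range m).erase 0, Sk (d * j) s := by ring
  rw [h3]
  exact (abs_add_le _ _).trans (add_le_add h1 h2)

end Pool.Agent.CG2
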