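import Mathlib

/-!
# Finite subgroups of `PGL₂` of an algebraically closed field with equidistributed ratios of
# eigenvalues
-/

noncomputable section

namespace Pool.Agent.CG2

open Matrix

/-- The `d`-th power of the ratio of the eigenvalues of `A` is `1`. -/
def Rt {κ : Type} [Field κ] (d : ℕ) (A : Matrix (Fin 2) (Fin 2) κ) : Prop :=
  ∃ r : κ, r ≠ 0 ∧ r ^ d = 1 ∧ A.trace ^ 2 = (r + 2 + r⁻¹) * A.det

section count

open Classical Finset

variable {Δ L : Type*} [Group Δ] [Fintype Δ] [MulAction Δ L]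

theorem galgroup_count (W : Finset Δ) (hW : ∀ g x : Δ, x ∈ W → g * x * g⁻¹ ∈ W)
    (huniq : ∀ x ∈ W, ∃ l : L, ∀ l' : L, x • l' = l' ↔ l' = l) (l₀ : L) :
    #{x ∈ W | ∃ g : Δ, x • (g • l₀) = g • l₀} * #{g : Δ | g • l₀ = l₀} =
      Fintype.card Δ * #{x ∈ W | x • l₀ = l₀} := by
  have h := Finset.sum_card_bipartiteAbove_eq_sum_card_bipartiteBelow (s := (univ : Finset Δ))
    (t := W) (fun (g x : Δ) => x • (g • l₀) = g • l₀)
  have h1 : ∀ g ∈ (univ : Finset Δ),
      #(bipartiteAbove (fun (g x : Δ) => x • (g • l₀) = g • l₀) W g) =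
        #{x ∈ W | x • l₀ = l₀} := by
    intro g _
    refine Finset.card_bij' (fun x _ => g⁻¹ * x * g) (fun x _ => g * x * g⁻¹) ?_ ?_ ?_ ?_
    · intro x hx
      rw [Finset.mem_bipartiteAbove] at hx
      rw [Finset.mem_filter]
      refine ⟨?_, ?_⟩
      · have := hW g⁻¹ x hx.1
        rwa [inv_inv] at this
      · rw [mul_smul, mul_smul, hx.2, inv_smul_smul]
    · intro x hx
      rw [Finset.mem_filter] at hx
      rw [Finset.mem_bipartiteAbove]
      refine ⟨hW g x hx.1, ?_⟩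
      rw [mul_smul, inv_smul_smul, mul_smul, hx.2]
    · intro x _
      group
    · intro x _
      group
  rw [Finset.sum_congr rfl h1, Finset.sum_const, Finset.card_univ, smul_eq_mul] at h
  rw [h]
  have h2 : ∀ x ∈ W, #(bipartiteBelow (fun (g x : Δ) => x • (g • l₀) = g • l₀) univ x) =
      if (∃ g : Δ, x • (g • l₀) = g • l₀) then #{g : Δ | g • l₀ = l₀} else 0 := by
    intro x hx
    split_ifs with hex
    · obtain ⟨g₁, hg₁⟩ := hex
      obtain ⟨l, hl⟩ := huniq x hx
      have hl1 : g₁ • l₀ = l := (hl _).1 hg₁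
      refine Finset.card_bij' (fun g _ => g₁⁻¹ * g) (fun g _ => g₁ * g) ?_ ?_ ?_ ?_
      · intro g hg
        rw [Finset.mem_bipartiteBelow] at hg
        rw [Finset.mem_filter]
        refine ⟨Finset.mem_univ _, ?_⟩
        rw [mul_smul, (hl _).1 hg.2, ← hl1, inv_smul_smul]
      · intro g hg
        rw [Finset.mem_filter] at hg
        rw [Finset.mem_bipartiteBelow]
        refine ⟨Finset.mem_univ _, ?_⟩
        rw [mul_smul, hg.2]
        exact hg₁
      · intro g _
        group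
      · intro g _
        group
    · rw [Finset.card_eq_zero, Finset.eq_empty_iff_forall_notMem]
      intro g hg
      rw [Finset.mem_bipartiteBelow] at hg
      exact hex ⟨g, hg.2⟩
  rw [Finset.sum_congr rfl h2, ← Finset.sum_filter, Finset.sum_const, smul_eq_mul]

theorem galgroup_abs (U : Finset Δ) (n : ℕ) (hn : 0 < n)
    (hNU : ∀ x : Δ, (∀ l : L, x • l = l) → x ∈ U)
    (hU : ∀ g x : Δ, x ∈ U → g * x * g⁻¹ ∈ U)
    (huniq : ∀ x ∈ U, (∃ l : L, x • l ≠ l) → ∃ l : L, ∀ l' : L, x • l' = l' ↔ l' = l)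
    (hcard : n * #U = Fintype.card Δ)
    (hst : ∀ x ∈ U, (∃ l : L, x • l ≠ l) → ∀ l : L, x • l = l →
      2 * #{g : Δ | ∀ l : L, g • l = l} ≤ #{g ∈ U | g • l = l} ∧
      ∃ k, 0 < k ∧ n * #{g ∈ U | g • l = l} = k * #{g : Δ | g • l = l})
    (hne : ∃ x ∈ U, ∃ l : L, x • l ≠ l) : ∃ l : L, ∀ g : Δ, g • l = l := by
  set N : Finset Δ := {g : Δ | ∀ l : L, g • l = l} with hN
  set W : Finset Δ := {x ∈ U | ∃ l : L, x • l ≠ l} with hW
  have hNsub : N ⊆ U := fun x hx => hNU x (Finset.mem_filter.1 hx).2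
  have hWN : W = U \ N := by
    ext x
    simp only [hW, hN, Finset.mem_filter, Finset.mem_sdiff, Finset.mem_univ, true_and, not_forall]
  have hWcard : #W + #N = #U := by
    rw [hWN, Finset.card_sdiff_add_card_eq_card hNsub]
  have hNpos : 0 < #N := Finset.card_pos.2 ⟨1, Finset.mem_filter.2 ⟨Finset.mem_univ _,
    fun l => one_smul _ l⟩⟩
  have hWc : ∀ g x : Δ, x ∈ W → g * x * g⁻¹ ∈ W := by
    intro g x hx
    obtain ⟨h1, l, hl⟩ := Finset.mem_filter.1 hx
    refine Finset.mem_filter.2 ⟨hU g x h1, g • l, ?_⟩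
    rw [mul_smul, inv_smul_smul, mul_smul]
    intro h
    exact hl (MulAction.injective g h)
  have hWu : ∀ x ∈ W, ∃ l : L, ∀ l' : L, x • l' = l' ↔ l' = l := fun x hx =>
    huniq x (Finset.mem_filter.1 hx).1 (Finset.mem_filter.1 hx).2
  -- the basic estimate
  have key : ∀ x ∈ W, ∀ l : L, x • l = l → ∃ k, 0 < k ∧
      #{x ∈ W | ∃ g : Δ, x • (g • l) = g • l} * #{g ∈ U | g • l = l} + k * #U * #N =
        k * #U * #{g ∈ U | g • l = l} ∧ 2 * #N ≤ #{g ∈ U | g • l = l} := by
    intro x hx l hl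
    obtain ⟨h1, k, hk, h2⟩ := hst x (Finset.mem_filter.1 hx).1 (Finset.mem_filter.1 hx).2 l hl
    refine ⟨k, hk, ?_, h1⟩
    have h3 := galgroup_count W hWc hWu l
    have h4 : #{x ∈ W | x • l = l} + #N = #{g ∈ U | g • l = l} := by
      have h5 : ({x ∈ W | x • l = l} : Finset Δ) = {g ∈ U | g • l = l} \ N := by
        ext y
        simp only [hWN, Finset.mem_filter, Finset.mem_sdiff]
        tauto
      rw [h5]
      refine Finset.card_sdiff_add_card_eq_card ?_
      intro y hy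
      exact Finset.mem_filter.2 ⟨hNsub hy, (Finset.mem_filter.1 hy).2 l⟩
    set a := #{x ∈ W | ∃ g : Δ, x • (g • l) = g • l}
    set b := #{g ∈ U | g • l = l}
    set c := #{g : Δ | g • l = l}
    set d := #{x ∈ W | x • l = l}
    have h6 : n * (a * b + k * #U * #N) = n * (k * #U * b) := by
      calc n * (a * b + k * #U * #N) = a * (n * b) + k * #N * (n * #U) := by ring
        _ = k * (a * c) + k * #N * (n * #U) := by rw [h2]; ring
        _ = k * (n * #U) * (d + #N) := by rw [h3, ← hcard]; ring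
        _ = _ := by rw [h4]; ring
    exact Nat.eq_of_mul_eq_mul_left hn h6
  have key2 : ∀ x ∈ W, ∀ l : L, x • l = l →
      #U ≤ 2 * #{x ∈ W | ∃ g : Δ, x • (g • l) = g • l} := by
    intro x hx l hl
    obtain ⟨k, hk, h1, h2⟩ := key x hx l hl
    set a := #{x ∈ W | ∃ g : Δ, x • (g • l) = g • l}
    set b := #{g ∈ U | g • l = l}
    have hb : 0 < b := by omega
    by_contra hcon
    have h3 : 2 * a < #U := by omega
    have h4 : 2 * (a * b) < #U * b := by nlinarith
    have h5 : k * #U * (2 * #N) ≤ k * #U * b := Nat.mul_le_mul_left _ h2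
    have h6 : #U * b ≤ k * #U * b := by
      have : 1 * (#U * b) ≤ k * (#U * b) := Nat.mul_le_mul_right _ hk
      nlinarith
    nlinarith
  obtain ⟨x₀, hx₀U, hx₀⟩ := hne
  have hx₀W : x₀ ∈ W := Finset.mem_filter.2 ⟨hx₀U, hx₀⟩
  obtain ⟨l₀, hl₀⟩ := hWu x₀ hx₀W
  have hx₀l : x₀ • l₀ = l₀ := (hl₀ l₀).2 rfl
  have hA : ({x ∈ W | ∃ g : Δ, x • (g • l₀) = g • l₀} : Finset Δ) = W := by
    refine Finset.filter_true_of_mem ?_
    intro x₁ hx₁
    by_contra hcon
    obtain ⟨l₁, hl₁⟩ := hWu x₁ hx₁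
    have hx₁l : x₁ • l₁ = l₁ := (hl₁ l₁).2 rfl
    have e1 := key2 x₀ hx₀W l₀ hx₀l
    have e2 := key2 x₁ hx₁ l₁ hx₁l
    have e3 : Disjoint ({x ∈ W | ∃ g : Δ, x • (g • l₀) = g • l₀} : Finset Δ)
        {x ∈ W | ∃ g : Δ, x • (g • l₁) = g • l₁} := by
      rw [Finset.disjoint_left]
      intro y hy hy'
      obtain ⟨hyW, g, hg⟩ := Finset.mem_filter.1 hy
      obtain ⟨_, g', hg'⟩ := Finset.mem_filter.1 hy'
      obtain ⟨l, hl⟩ := hWu y hyW
      have e4 : g • l₀ = g' • l₁ := by rw [(hl _).1 hg, (hl _).1 hg']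
      apply hcon
      refine ⟨g'⁻¹ * g, ?_⟩
      rw [mul_smul, e4, inv_smul_smul]
      exact hx₁l
    have e5 : #{x ∈ W | ∃ g : Δ, x • (g • l₀) = g • l₀} +
        #{x ∈ W | ∃ g : Δ, x • (g • l₁) = g • l₁} ≤ #W := by
      rw [← Finset.card_union_of_disjoint e3]
      exact Finset.card_le_card (Finset.union_subset (Finset.filter_subset _ _)
        (Finset.filter_subset _ _))
    omega
  obtain ⟨k, hk, h1, h2⟩ := key x₀ hx₀W l₀ hx₀l
  rw [hA] at h1
  have hb : #{g ∈ U | g • l₀ = l₀} ≤ #U := Finset.card_le_card (Finset.filter_subset _ _)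
  have hb2 : #{g ∈ U | g • l₀ = l₀} = #U := by
    set b := #{g ∈ U | g • l₀ = l₀}
    have hbpos : 0 < b := by omega
    -- `k = 1`
    have hk1 : k = 1 := by
      by_contra hk1
      have hk2 : 2 ≤ k := by omega
      have e1 : k * #U * (2 * #N) ≤ k * #U * b := Nat.mul_le_mul_left _ h2
      have e2 : 2 * (#U * b) ≤ k * (#U * b) := Nat.mul_le_mul_right _ hk2
      have e3 : #W * b + #N * b = #U * b := by rw [← add_mul, hWcard]
      have e4 : 0 < #N * b := Nat.mul_pos hNpos hbpos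
      nlinarith
    subst hk1
    have e3 : #W * b + #N * b = #U * b := by rw [← add_mul, hWcard]
    have e5 : #N * b = #N * #U := by nlinarith
    exact Nat.eq_of_mul_eq_mul_left hNpos e5
  have hall : ∀ x ∈ U, x • l₀ = l₀ := by
    have := Finset.eq_of_subset_of_card_le (Finset.filter_subset (fun g : Δ => g • l₀ = l₀) U)
      hb2.ge
    intro x hx
    rw [← this] at hx
    exact (Finset.mem_filter.1 hx).2
  refine ⟨l₀, fun g => ?_⟩
  have e1 : g⁻¹ * x₀ * g⁻¹⁻¹ ∈ U := hU g⁻¹ x₀ hx₀U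
  have e2 := hall _ e1
  rw [inv_inv, mul_smul, mul_smul, inv_smul_eq_iff] at e2
  exact (hl₀ _).1 e2

end count

section lin

open scoped LinearAlgebra.Projectivization

variable {κ : Type} [Field κ]

theorem galgroup_tr {A : Matrix (Fin 2) (Fin 2) κ} {v : Fin 2 → κ} (hv : v ≠ 0) {c : κ}
    (h : A.mulVec v = c • v) : c ^ 2 + A.det = c * A.trace := by
  have h1 : (A - c • (1 : Matrix (Fin 2) (Fin 2) κ)).det = 0 := by
    rw [← Matrix.exists_mulVec_eq_zero_iff]
    refine ⟨v, hv, ?_⟩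
    rw [Matrix.sub_mulVec, h, Matrix.smul_mulVec, Matrix.one_mulVec, sub_self]
  rw [Matrix.det_fin_two] at h1
  rw [Matrix.det_fin_two, Matrix.trace_fin_two]
  simp at h1
  linear_combination h1

theorem galgroup_ne {A : Matrix (Fin 2) (Fin 2) κ} (hA : A.det ≠ 0) {v : Fin 2 → κ} (hv : v ≠ 0)
    {c : κ} (h : A.mulVec v = c • v) : c ≠ 0 := by
  rintro rfl
  have := galgroup_tr hv h
  simp at this
  exact hA this

theorem galgroup_rt {A : Matrix (Fin 2) (Fin 2) κ} (hA : A.det ≠ 0) {v : Fin 2 → κ} (hv : v ≠ 0)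
    {c : κ} (h : A.mulVec v = c • v) (d : ℕ) : Rt d A ↔ (c ^ 2 / A.det) ^ d = 1 := by
  have hc := galgroup_ne hA hv h
  have h1 := galgroup_tr hv h
  have hT : A.trace = (c ^ 2 + A.det) / c := by
    rw [h1]; field_simp
  set D := A.det
  constructor
  · rintro ⟨r, hr0, hrd, hr⟩
    set χ := c ^ 2 / D with hχ
    have hχ0 : χ ≠ 0 := div_ne_zero (pow_ne_zero _ hc) hA
    have h2 : (χ - r) * (χ * r - 1) = 0 := by
      have h3 : A.trace ^ 2 = (χ + 2 + χ⁻¹) * D := by
        rw [hT, hχ]; field_simp; ring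
      have h4 : (χ + 2 + χ⁻¹) = (r + 2 + r⁻¹) := by
        have := h3.symm.trans hr
        exact mul_right_cancel₀ hA this
      have h5 : (χ - r) * (χ * r - 1) = χ * r * ((χ + 2 + χ⁻¹) - (r + 2 + r⁻¹)) := by
        field_simp; ring
      rw [h5, h4, sub_self, mul_zero]
    rcases mul_eq_zero.1 h2 with h3 | h3
    · rw [sub_eq_zero.1 h3, hrd]
    · have h4 : χ = r⁻¹ := eq_inv_of_mul_eq_one_left (sub_eq_zero.1 h3)
      rw [h4, inv_pow, hrd, inv_one]
  · intro h2
    refine ⟨c ^ 2 / D, div_ne_zero (pow_ne_zero _ hc) hA, h2, ?_⟩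
    rw [hT]; field_simp; ring

theorem galgroup_fix (A : GL (Fin 2) κ) {v : Fin 2 → κ} (hv : v ≠ 0) :
    A • Projectivization.mk κ v hv = Projectivization.mk κ v hv ↔
      ∃ c : κ, (A : Matrix (Fin 2) (Fin 2) κ).mulVec v = c • v := by
  rw [Projectivization.smul_mk, Projectivization.mk_eq_mk_iff']
  constructor
  · rintro ⟨a, ha⟩
    exact ⟨a, ha.symm⟩
  · rintro ⟨a, ha⟩
    exact ⟨a, ha.symm⟩

theorem galgroup_det_ne {v w : Fin 2 → κ} (hv : v ≠ 0) (hw : w ≠ 0)
    (h : Projectivization.mk κ v hv ≠ Projectivization.mk κ w hw) :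
    v 0 * w 1 - v 1 * w 0 ≠ 0 := by
  intro h0
  apply h
  rw [Projectivization.mk_eq_mk_iff']
  by_cases h1 : w 0 = 0
  · have h2 : w 1 ≠ 0 := by
      intro h2
      apply hw
      ext i
      fin_cases i
      · exact h1
      · exact h2
    refine ⟨v 1 / w 1, ?_⟩
    ext i
    fin_cases i
    · change v 1 / w 1 * w 0 = v 0
      rw [h1, mul_zero]
      rw [h1, mul_zero, sub_zero] at h0
      exact ((mul_eq_zero.1 h0).resolve_right h2).symm
    · change v 1 / w 1 * w 1 = v 1
      field_simp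
  · refine ⟨v 0 / w 0, ?_⟩
    ext i
    fin_cases i
    · change v 0 / w 0 * w 0 = v 0
      field_simp
    · change v 0 / w 0 * w 1 = v 1
      field_simp
      linear_combination h0

/-- Two different fixed lines and equal eigenvalues: a scalar. -/
theorem galgroup_two {A : GL (Fin 2) κ} (hA : Rt 1 (A : Matrix (Fin 2) (Fin 2) κ))
    {l l' : ℙ κ (Fin 2 → κ)} (h : A • l = l) (h' : A • l' = l') (hne : l ≠ l')
    (m : ℙ κ (Fin 2 → κ)) : A • m = m := by
  induction l using Projectivization.ind with | h v hv =>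
  induction l' using Projectivization.ind with | h w hw =>
  induction m using Projectivization.ind with | h u hu =>
  rw [galgroup_fix] at h h' ⊢
  obtain ⟨a, ha⟩ := h
  obtain ⟨b, hb⟩ := h'
  have hD := galgroup_det_ne hv hw hne
  have e1 := galgroup_tr hv ha
  have e2 := galgroup_tr hw hb
  have hAd : (A : Matrix (Fin 2) (Fin 2) κ).det ≠ 0 := by
    have := (Matrix.isUnit_iff_isUnit_det _).1 A.isUnit
    exact this.ne_zero
  have e3 : (A : Matrix (Fin 2) (Fin 2) κ).trace ^ 2 =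
      4 * (A : Matrix (Fin 2) (Fin 2) κ).det := by
    obtain ⟨r, _, hr, h3⟩ := hA
    rw [pow_one] at hr
    rw [h3, hr, inv_one]; ring
  set T := (A : Matrix (Fin 2) (Fin 2) κ).trace
  set D := (A : Matrix (Fin 2) (Fin 2) κ).det
  have hab : a = b := by
    by_contra hab
    have e4 : (a - b) * (a + b - T) = 0 := by linear_combination e1 - e2
    have e5 : a + b - T = 0 := (mul_eq_zero.1 e4).resolve_left (sub_ne_zero.2 hab)
    have e6 : (a - b) ^ 2 = 0 := by
      have hT : T = a + b := by linear_combination -e5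
      rw [hT] at e1 e3
      linear_combination e3 + 4 * e1
    exact sub_ne_zero.2 hab (pow_eq_zero_iff (by norm_num) |>.1 e6)
  subst hab
  refine ⟨a, ?_⟩
  set Δ₀ := v 0 * w 1 - v 1 * w 0
  have hu' : u = ((u 0 * w 1 - u 1 * w 0) / Δ₀) • v + ((v 0 * u 1 - v 1 * u 0) / Δ₀) • w := by
    ext i
    fin_cases i
    · change u 0 = (u 0 * w 1 - u 1 * w 0) / Δ₀ * v 0 + (v 0 * u 1 - v 1 * u 0) / Δ₀ * w 0
      field_simp
      ring
    · change u 1 = (u 0 * w 1 - u 1 * w 0) / Δ₀ * v 1 + (v 0 * u 1 - v 1 * u 0) / Δ₀ * w 1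
      field_simp
      ring
  rw [hu', Matrix.mulVec_add, Matrix.mulVec_smul, Matrix.mulVec_smul, ha, hb, smul_add,
    smul_comm, smul_comm a _ w]

/-- A matrix which fixes all lines is scalar. -/
theorem galgroup_all {A : GL (Fin 2) κ} (h : ∀ l : ℙ κ (Fin 2 → κ), A • l = l) :
    Rt 1 (A : Matrix (Fin 2) (Fin 2) κ) := by
  have n1 : (![1, 0] : Fin 2 → κ) ≠ 0 := by
    intro h; have := congr_fun h 0; simp at this
  have n2 : (![0, 1] : Fin 2 → κ) ≠ 0 := by
    intro h; have := congr_fun h 1; simp at this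
  have n3 : (![1, 1] : Fin 2 → κ) ≠ 0 := by
    intro h; have := congr_fun h 1; simp at this
  obtain ⟨a, ha⟩ := (galgroup_fix A n1).1 (h _)
  obtain ⟨b, hb⟩ := (galgroup_fix A n2).1 (h _)
  obtain ⟨c, hc⟩ := (galgroup_fix A n3).1 (h _)
  have a0 := congr_fun ha 0
  have a1 := congr_fun ha 1
  have b0 := congr_fun hb 0
  have b1 := congr_fun hb 1
  have c0 := congr_fun hc 0
  have c1 := congr_fun hc 1
  simp [Matrix.mulVec, dotProduct] at a0 a1 b0 b1 c0 c1
  refine ⟨1, one_ne_zero, one_pow _, ?_⟩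
  rw [Matrix.trace_fin_two, Matrix.det_fin_two]
  rw [a0, b1, a1, b0]
  rw [a0, b0, add_zero] at c0
  rw [a1, b1, zero_add] at c1
  rw [c0, c1, inv_one]
  ring

end lin

section stab

open scoped LinearAlgebra.Projectivization

variable {κ : Type} [Field κ] {Δ : Type} [Group Δ]

theorem galgroup_det (A : GL (Fin 2) κ) : (A : Matrix (Fin 2) (Fin 2) κ).det ≠ 0 :=
  ((Matrix.isUnit_iff_isUnit_det _).1 A.isUnit).ne_zero

/-- The ratio character of a group with a common eigenvector. -/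
theorem galgroup_char (ρ : Δ →* GL (Fin 2) κ) {v : Fin 2 → κ} (hv : v ≠ 0)
    (h : ∀ g, ∃ c : κ, (ρ g : Matrix (Fin 2) (Fin 2) κ).mulVec v = c • v) :
    ∃ χ : Δ →* κˣ, ∀ g d, Rt d (ρ g : Matrix (Fin 2) (Fin 2) κ) ↔ χ g ^ d = 1 := by
  choose c hc using h
  have hinj : ∀ a b : κ, a • v = b • v → a = b := by
    intro a b hab
    by_contra hne
    apply hv
    have : (a - b) • v = 0 := by rw [sub_smul, hab, sub_self]
    exact (smul_eq_zero.1 this).resolve_left (sub_ne_zero.2 hne)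
  have hone : c 1 = 1 := by
    apply hinj
    rw [← hc, map_one, Units.val_one, Matrix.one_mulVec, one_smul]
  have hmul : ∀ g h, c (g * h) = c g * c h := by
    intro g h
    apply hinj
    rw [← hc, map_mul, Units.val_mul, ← Matrix.mulVec_mulVec, hc, Matrix.mulVec_smul, hc,
      smul_smul, mul_comm]
  let χ : Δ →* κ :=
    { toFun := fun g => c g ^ 2 / (ρ g : Matrix (Fin 2) (Fin 2) κ).det
      map_one' := by rw [hone, map_one, Units.val_one, Matrix.det_one]; norm_num
      map_mul' := fun g h => by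
        rw [hmul, map_mul, Units.val_mul, Matrix.det_mul]
        rw [mul_pow, mul_div_mul_comm] }
  refine ⟨χ.toHomUnits, fun g d => ?_⟩
  rw [galgroup_rt (galgroup_det _) hv (hc g) d]
  constructor
  · intro h
    apply Units.ext
    rw [Units.val_pow_eq_pow_val, MonoidHom.coe_toHomUnits, Units.val_one]
    exact h
  · intro h
    have := congrArg (Units.val) h
    rw [Units.val_pow_eq_pow_val, MonoidHom.coe_toHomUnits, Units.val_one] at this
    exact this

theorem galgroup_index [Finite Δ] (χ : Δ →* κˣ) (n : ℕ) (hn : 0 < n) (h : ∀ g, χ g ^ n = 1) :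
    ∃ k, 0 < k ∧ n * Nat.card χ.ker = k * Nat.card Δ := by
  have : Finite χ.range := by
    have : Finite (Set.range χ) := Set.finite_range χ
    exact this
  have h1 : Nat.card χ.range ∣ n := by
    rw [← IsCyclic.exponent_eq_card]
    apply Monoid.exponent_dvd_of_forall_pow_eq_one
    rintro ⟨x, g, rfl⟩
    apply Subtype.ext
    exact h g
  obtain ⟨k, hk⟩ := h1
  have hk0 : 0 < k := by
    rcases Nat.eq_zero_or_pos k with h0 | h0
    · rw [h0, mul_zero] at hk; omega
    · exact h0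
  refine ⟨k, hk0, ?_⟩
  have h2 := Subgroup.card_mul_index χ.ker
  rw [Subgroup.index_ker] at h2
  rw [← h2, hk]
  ring

theorem galgroup_eig [IsAlgClosed κ] (A : GL (Fin 2) κ) : ∃ v : Fin 2 → κ, v ≠ 0 ∧
    ∃ c : κ, (A : Matrix (Fin 2) (Fin 2) κ).mulVec v = c • v := by
  obtain ⟨c, hc⟩ := Module.End.exists_eigenvalue (Matrix.toLin' (A : Matrix (Fin 2) (Fin 2) κ))
  obtain ⟨v, hv⟩ := hc.exists_hasEigenvector
  refine ⟨v, hv.2, c, ?_⟩
  have := hv.apply_eq_smul
  rwa [Matrix.toLin'_apply] at this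

theorem galgroup_pow [IsAlgClosed κ] (ρ : Δ →* GL (Fin 2) κ) (g : Δ) (d : ℕ) :
    Rt 1 (ρ (g ^ d) : Matrix (Fin 2) (Fin 2) κ) ↔ Rt d (ρ g : Matrix (Fin 2) (Fin 2) κ) := by
  obtain ⟨v, hv, c, hc⟩ := galgroup_eig (ρ g)
  have h1 : ∀ d : ℕ, (ρ (g ^ d) : Matrix (Fin 2) (Fin 2) κ).mulVec v = (c ^ d) • v := by
    intro d
    induction d with
    | zero => rw [pow_zero, map_one, Units.val_one, Matrix.one_mulVec, pow_zero, one_smul]
    | succ d ih =>
      rw [pow_succ, map_mul, Units.val_mul, ← Matrix.mulVec_mulVec, hc, Matrix.mulVec_smul, ih,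
        smul_smul, pow_succ, mul_comm]
  rw [galgroup_rt (galgroup_det _) hv (h1 d) 1, galgroup_rt (galgroup_det _) hv hc d, pow_one,
    map_pow, Units.val_pow_eq_pow_val, Matrix.det_pow, div_pow, ← pow_mul, ← pow_mul, mul_comm 2 d]

theorem galgroup_cardsub [Fintype Δ] (K : Subgroup Δ) (s : Finset Δ) (h : ∀ x, x ∈ s ↔ x ∈ K) :
    s.card = Nat.card K := by
  classical
  rw [Nat.card_eq_fintype_card]
  exact (Fintype.card_of_subtype s h).symm

end stab

section main

open scoped LinearAlgebra.Projectivization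
open Classical Finset

variable {κ : Type} [Field κ] {Δ : Type} [Group Δ]

/-- The cyclic case. -/
theorem galgroup_cyc [IsAlgClosed κ] [Finite Δ] (ρ : Δ →* GL (Fin 2) κ) (n : ℕ) (hn : 0 < n)
    (N : Subgroup Δ) [N.Normal] (hN : ∀ g, g ∈ N ↔ Rt 1 (ρ g : Matrix (Fin 2) (Fin 2) κ))
    (hcount : ∀ d, d ∣ n →
      n * Nat.card {g : Δ // Rt d (ρ g : Matrix (Fin 2) (Fin 2) κ)} = d * Nat.card Δ) :
    IsCyclic (Δ ⧸ N) := by
  have := Fintype.ofFinite (Δ ⧸ N)
  have hNpos : 0 < Nat.card N := Nat.card_pos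
  have h0 : n * Nat.card N = Nat.card Δ := by
    have h1 := hcount 1 (one_dvd _)
    rw [one_mul] at h1
    rw [← h1]
    congr 1
    exact Nat.card_congr (Equiv.subtypeEquivRight hN)
  have hQ : Nat.card (Δ ⧸ N) = n := by
    have h1 := Subgroup.card_eq_card_quotient_mul_card_subgroup N
    rw [← h0] at h1
    exact (Nat.eq_of_mul_eq_mul_right hNpos h1).symm
  have h2 : ∀ d, d ∣ n → #{x : Δ ⧸ N | x ^ d = 1} = d := by
    intro d hd
    have h3 := hcount d hd
    have h4 : Nat.card {g : Δ // Rt d (ρ g : Matrix (Fin 2) (Fin 2) κ)} =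
        Nat.card N * #{x : Δ ⧸ N | x ^ d = 1} := by
      have e1 := Nat.card_congr (QuotientGroup.preimageMkEquivSubgroupProdSet N
        {x : Δ ⧸ N | x ^ d = 1})
      rw [Nat.card_prod] at e1
      have e2 : Nat.card {x : Δ ⧸ N | x ^ d = 1} = #{x : Δ ⧸ N | x ^ d = 1} := by
        rw [Nat.card_eq_fintype_card]
        exact Fintype.card_of_subtype _ (fun x => by simp)
      rw [← e2, ← e1]
      refine Nat.card_congr (Equiv.subtypeEquivRight fun g => ?_)
      rw [← galgroup_pow, ← hN, Set.mem_preimage, Set.mem_ofPred_eq, ← QuotientGroup.mk_pow,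
        QuotientGroup.eq_one_iff]
    rw [h4, ← h0] at h3
    have h5 : (n * Nat.card N) * #{x : Δ ⧸ N | x ^ d = 1} = (n * Nat.card N) * d := by
      linarith
    exact Nat.eq_of_mul_eq_mul_left (Nat.mul_pos hn hNpos) h5
  apply isCyclic_of_card_pow_eq_one_le
  intro m hm
  have h3 : ({x : Δ ⧸ N | x ^ m = 1} : Finset (Δ ⧸ N)) ⊆
      ({x : Δ ⧸ N | x ^ (m.gcd n) = 1} : Finset (Δ ⧸ N)) := by
    intro x hx
    rw [Finset.mem_filter] at hx ⊢
    refine ⟨hx.1, ?_⟩
    rw [pow_gcd_eq_one]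
    refine ⟨hx.2, ?_⟩
    rw [← hQ]
    exact pow_card_eq_one'
  refine (Finset.card_le_card h3).trans ?_
  rw [h2 _ (Nat.gcd_dvd_right m n)]
  exact Nat.gcd_le_left _ hm

end main

open scoped LinearAlgebra.Projectivization in
open Classical Finset in
/-- **G4** -/
theorem group_side {κ : Type} [Field κ] [IsAlgClosed κ] (p : ℕ) [Fact p.Prime] [CharP κ p]
    {Δ : Type} [Group Δ] [Finite Δ] (ρ : Δ →* GL (Fin 2) κ) (n : ℕ) (hn : 0 < n)
    (hall : ∀ g, Rt n (ρ g : Matrix (Fin 2) (Fin 2) κ))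
    (hcount : ∀ d, d ∣ n →
      n * Nat.card {g : Δ // Rt d (ρ g : Matrix (Fin 2) (Fin 2) κ)} = d * Nat.card Δ) :
    ∃ v : Fin 2 → κ, v ≠ 0 ∧ ∀ g, ∃ c : κ,
      (ρ g : Matrix (Fin 2) (Fin 2) κ).mulVec v = c • v := by
  have := Fintype.ofFinite Δ
  let _ : MulAction Δ (ℙ κ (Fin 2 → κ)) := MulAction.compHom _ ρ
  have hsm : ∀ (g : Δ) (l : ℙ κ (Fin 2 → κ)), g • l = ρ g • l := fun _ _ => rfl
  set U : Finset Δ := {g : Δ | Rt 1 (ρ g : Matrix (Fin 2) (Fin 2) κ)} with hU
  have hmU : ∀ g, g ∈ U ↔ Rt 1 (ρ g : Matrix (Fin 2) (Fin 2) κ) := by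
    intro g; rw [hU, Finset.mem_filter]; simp
  set N : Subgroup Δ := (MulAction.toPermHom Δ (ℙ κ (Fin 2 → κ))).ker with hN
  have hmN : ∀ g, g ∈ N ↔ ∀ l : ℙ κ (Fin 2 → κ), g • l = l := by
    intro g
    rw [hN, MonoidHom.mem_ker, Equiv.ext_iff]
    rfl
  have hNU : ∀ x : Δ, (∀ l : ℙ κ (Fin 2 → κ), x • l = l) → x ∈ U := by
    intro x hx
    rw [hmU]
    exact galgroup_all hx
  by_cases hne : ∃ x ∈ U, ∃ l : ℙ κ (Fin 2 → κ), x • l ≠ l
  · have hmain : ∃ l : ℙ κ (Fin 2 → κ), ∀ g : Δ, g • l = l := by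
      refine galgroup_abs U n hn hNU ?_ ?_ ?_ ?_ hne
      · intro g x hx
        rw [hmU] at hx ⊢
        obtain ⟨r, h1, h2, h3⟩ := hx
        refine ⟨r, h1, h2, ?_⟩
        have e1 : (ρ (g * x * g⁻¹) : Matrix (Fin 2) (Fin 2) κ).trace =
            (ρ x : Matrix (Fin 2) (Fin 2) κ).trace := by
          rw [map_mul, map_mul, Units.val_mul, Matrix.trace_mul_comm, ← Units.val_mul, map_inv,
            ← mul_assoc, inv_mul_cancel, one_mul]
        have e2 : (ρ (g * x * g⁻¹) : Matrix (Fin 2) (Fin 2) κ).det =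
            (ρ x : Matrix (Fin 2) (Fin 2) κ).det := by
          rw [map_mul, map_mul, Units.val_mul, Matrix.det_mul_comm, ← Units.val_mul, map_inv,
            ← mul_assoc, inv_mul_cancel, one_mul]
        rw [e1, e2]
        exact h3
      · rintro x hx ⟨m, hm⟩
        rw [hmU] at hx
        obtain ⟨v, hv, hc⟩ := galgroup_eig (ρ x)
        have h1 : x • Projectivization.mk κ v hv = Projectivization.mk κ v hv :=
          (galgroup_fix _ hv).2 hc
        refine ⟨Projectivization.mk κ v hv, fun l' => ⟨fun h => ?_, fun h => ?_⟩⟩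
        · by_contra hcon
          exact hm (galgroup_two hx h h1 hcon m)
        · rw [h, h1]
      · have h1 := hcount 1 (one_dvd _)
        rw [one_mul] at h1
        rw [← Nat.card_eq_fintype_card, ← h1]
        congr 1
        rw [Nat.card_eq_fintype_card]
        exact (Fintype.card_of_subtype U hmU).symm
      · rintro x hx ⟨m, hm⟩ l hl
        induction l using Projectivization.ind with | h v hv =>
        set l := Projectivization.mk κ v hv with hld
        set S : Subgroup Δ := MulAction.stabilizer Δ l with hS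
        obtain ⟨χ, hχ⟩ := galgroup_char (ρ.comp S.subtype) hv
          (fun g => (galgroup_fix _ hv).1 g.2)
        obtain ⟨k, hk, hk2⟩ := galgroup_index χ n hn (fun g => (hχ g n).1 (hall g))
        set K : Subgroup Δ := χ.ker.map S.subtype with hK
        have hmK : ∀ g, g ∈ ({g ∈ U | g • l = l} : Finset Δ) ↔ g ∈ K := by
          intro g
          rw [Finset.mem_filter, hmU, hK, Subgroup.mem_map]
          constructor
          · rintro ⟨h1, h2⟩
            refine ⟨⟨g, h2⟩, ?_, rfl⟩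
            rw [MonoidHom.mem_ker]
            have := (hχ ⟨g, h2⟩ 1).1 h1
            rwa [pow_one] at this
          · rintro ⟨g', h1, rfl⟩
            rw [MonoidHom.mem_ker] at h1
            refine ⟨(hχ g' 1).2 (by rw [pow_one]; exact h1), g'.2⟩
        have hcK : #{g ∈ U | g • l = l} = Nat.card K := galgroup_cardsub K _ hmK
        have hcK2 : Nat.card χ.ker = Nat.card K :=
          Nat.card_congr (Subgroup.equivMapOfInjective χ.ker S.subtype
            S.subtype_injective).toEquiv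
        have hcS : #{g : Δ | g • l = l} = Nat.card S := galgroup_cardsub S _ (by
          intro g
          rw [Finset.mem_filter, hS, MulAction.mem_stabilizer_iff]
          simp)
        have hcN : #{g : Δ | ∀ l : ℙ κ (Fin 2 → κ), g • l = l} = Nat.card N :=
          galgroup_cardsub N _ (by
            intro g
            rw [Finset.mem_filter, hmN]
            simp)
        rw [hcK, hcS, hcN]
        refine ⟨?_, k, hk, ?_⟩
        · have hle : N ≤ K := by
            intro g hg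
            rw [← hmK, Finset.mem_filter]
            exact ⟨hNU g ((hmN g).1 hg), (hmN g).1 hg l⟩
          obtain ⟨t, ht⟩ := Subgroup.card_dvd_of_le hle
          have hKpos : 0 < Nat.card K := Nat.card_pos
          have ht0 : t ≠ 0 := by
            rintro rfl
            omega
          have ht1 : t ≠ 1 := by
            rintro rfl
            rw [mul_one] at ht
            have h5 := Subgroup.eq_of_le_of_card_ge hle ht.le
            have h6 : x ∈ K := by
              rw [← hmK, Finset.mem_filter]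
              exact ⟨hx, hl⟩
            rw [← h5, hmN] at h6
            exact hm (h6 m)
          rw [ht]
          have : 2 ≤ t := by omega
          nlinarith
        · rw [← hcK2]
          exact hk2
    obtain ⟨l, hl⟩ := hmain
    induction l using Projectivization.ind with | h v hv =>
    exact ⟨v, hv, fun g => (galgroup_fix _ hv).1 (hl g)⟩
  · have hNU2 : ∀ g, g ∈ N ↔ Rt 1 (ρ g : Matrix (Fin 2) (Fin 2) κ) := by
      intro g
      rw [← hmU]
      constructor
      · intro h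
        exact hNU g ((hmN g).1 h)
      · intro h
        rw [hmN]
        by_contra hcon
        rw [not_forall] at hcon
        exact hne ⟨g, h, hcon⟩
    have : N.Normal := by rw [hN]; infer_instance
    have hcyc := galgroup_cyc ρ n hn N hNU2 hcount
    obtain ⟨q, hq⟩ := hcyc.exists_generator
    obtain ⟨g₀, rfl⟩ := QuotientGroup.mk_surjective q
    obtain ⟨v, hv, hc⟩ := galgroup_eig (ρ g₀)
    have h1 : g₀ • Projectivization.mk κ v hv = Projectivization.mk κ v hv :=
      (galgroup_fix _ hv).2 hc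
    refine ⟨v, hv, fun g => (galgroup_fix _ hv).1 ?_⟩
    obtain ⟨k, hk⟩ := Subgroup.mem_zpowers_iff.1 (hq (g : Δ ⧸ N))
    have h2 : (g₀ ^ k)⁻¹ * g ∈ N := by
      rw [← QuotientGroup.eq, ← hk]
      rfl
    have h3 : g₀ ^ k ∈ MulAction.stabilizer Δ (Projectivization.mk κ v hv) :=
      Subgroup.zpow_mem _ h1 k
    have h4 := (hmN _).1 h2 (Projectivization.mk κ v hv)
    rw [mul_smul, inv_smul_eq_iff, MulAction.mem_stabilizer_iff.1 h3] at h4
    exact h4

end Pool.Agent.CG2
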