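import Pool.Agent.CG2.GalInf
import Pool.Agent.CG2.GalChar
import Pool.Agent.CG2.GalGroup

/-!
# The Galois side: assembly
-/

noncomputable section

namespace Pool.Agent.CG2

open NumberField IsDedekindDomain

variable {F : Type} [Field F] [NumberField F]

namespace GalMain

open Matrix

section Rt

variable {κ : Type} [Field κ]

theorem sq_fin_two (M : Matrix (Fin 2) (Fin 2) κ) :
    M * M = M.trace • M - M.det • (1 : Matrix (Fin 2) (Fin 2) κ) := by
  ext i j
  fin_cases i <;> fin_cases j <;>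
    simp [Matrix.mul_apply, Fin.sum_univ_two, Matrix.trace_fin_two, Matrix.det_fin_two] <;> ring

theorem trace_pow {M : Matrix (Fin 2) (Fin 2) κ} {α β : κ} (h1 : α + β = M.trace)
    (h2 : α * β = M.det) : ∀ i : ℕ, (M ^ i).trace = α ^ i + β ^ i := by
  intro i
  induction i using Nat.strong_induction_on with
  | _ i ih =>
    match i with
    | 0 =>
      simp
      norm_num
    | 1 => simp [h1]
    | i + 2 =>
      have e1 : M ^ (i + 2) = M.trace • M ^ (i + 1) - M.det • M ^ i := by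
        have e2 : M ^ (i + 2) = M ^ i * (M * M) := by
          rw [pow_add, pow_two]
        rw [e2, sq_fin_two, mul_sub, mul_smul_comm, mul_smul_comm, mul_one, ← pow_succ]
      rw [e1, trace_sub, trace_smul, trace_smul, ih (i + 1) (by omega), ih i (by omega), ← h1,
        ← h2]
      simp only [smul_eq_mul]
      ring

theorem Rt_pow [IsAlgClosed κ] {d : ℕ} {M : Matrix (Fin 2) (Fin 2) κ} (hM : M.det ≠ 0)
    (h : Rt d M) (i : ℕ) : Rt d (M ^ i) := by
  obtain ⟨r, hr, hrd, htr⟩ := h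
  obtain ⟨β, hβ⟩ := IsAlgClosed.exists_pow_nat_eq (M.det / r) (n := 2) (by norm_num)
  have hβ0 : β ≠ 0 := by
    rintro rfl
    rw [zero_pow (by norm_num)] at hβ
    exact (div_ne_zero hM hr) hβ.symm
  have hdet : r * β ^ 2 = M.det := by
    rw [hβ]
    field_simp
  obtain ⟨γ, hγ0, hγ1, hγ2⟩ : ∃ γ : κ, γ ≠ 0 ∧ r * γ + γ = M.trace ∧ r * γ * γ = M.det := by
    have h1 : (r * β + β) ^ 2 = M.trace ^ 2 := by
      rw [htr, ← hdet]
      field_simp
      ring
    rcases sq_eq_sq_iff_eq_or_eq_neg.1 h1 with h2 | h2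
    · exact ⟨β, hβ0, h2, by rw [← hdet]; ring⟩
    · exact ⟨-β, neg_ne_zero.2 hβ0, by rw [← neg_eq_iff_eq_neg.2 h2]; ring,
        by rw [← hdet]; ring⟩
  refine ⟨r ^ i, pow_ne_zero _ hr, by rw [← pow_mul, mul_comm, pow_mul, hrd, one_pow], ?_⟩
  have h3 := trace_pow (M := M) (α := r * γ) (β := γ) hγ1 hγ2 i
  rw [h3, det_pow, ← hγ2]
  have hri : r ^ i ≠ 0 := pow_ne_zero _ hr
  rw [mul_pow, mul_pow, mul_pow]
  field_simp
  ring

theorem trace_inv_sq (g : GL (Fin 2) κ) (x : κ) :
    (((g⁻¹ : GL (Fin 2) κ) : Matrix (Fin 2) (Fin 2) κ).trace ^ 2 =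
      x * ((g⁻¹ : GL (Fin 2) κ) : Matrix (Fin 2) (Fin 2) κ).det) ↔
    (g : Matrix (Fin 2) (Fin 2) κ).trace ^ 2 = x * (g : Matrix (Fin 2) (Fin 2) κ).det := by
  have hdet : (g : Matrix (Fin 2) (Fin 2) κ).det ≠ 0 := by
    have := (Matrix.isUnit_iff_isUnit_det _).1 g.isUnit
    exact this.ne_zero
  have h1 : ((g⁻¹ : GL (Fin 2) κ) : Matrix (Fin 2) (Fin 2) κ) =
      ((g : Matrix (Fin 2) (Fin 2) κ).det)⁻¹ • (g : Matrix (Fin 2) (Fin 2) κ).adjugate := by
    rw [Matrix.coe_units_inv, Matrix.inv_def, Ring.inverse_eq_inv']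
  have h2 : (g : Matrix (Fin 2) (Fin 2) κ).adjugate.trace = (g : Matrix (Fin 2) (Fin 2) κ).trace := by
    rw [Matrix.adjugate_fin_two, Matrix.trace_fin_two, Matrix.trace_fin_two]
    simp [add_comm]
  have h3 : ((g⁻¹ : GL (Fin 2) κ) : Matrix (Fin 2) (Fin 2) κ).det =
      ((g : Matrix (Fin 2) (Fin 2) κ).det)⁻¹ := by
    rw [Matrix.coe_units_inv, Matrix.det_nonsing_inv, Ring.inverse_eq_inv']
  rw [h3, h1, trace_smul, h2, smul_eq_mul]
  set D := (g : Matrix (Fin 2) (Fin 2) κ).det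
  set t := (g : Matrix (Fin 2) (Fin 2) κ).trace
  constructor
  · intro h
    have h4 : t ^ 2 = (D⁻¹ * t) ^ 2 * D ^ 2 := by
      field_simp
    rw [h4, h]
    field_simp
  · intro h
    rw [mul_pow, h]
    field_simp

theorem Rt_iff {d : ℕ} {M : Matrix (Fin 2) (Fin 2) κ} (hM : M.det ≠ 0) {x : κ} (hx : x ≠ 0)
    (h : M.trace ^ 2 = (x + 2 + x⁻¹) * M.det) : Rt d M ↔ x ^ d = 1 := by
  constructor
  · rintro ⟨r, hr, hrd, htr⟩
    have h1 : r + 2 + r⁻¹ = x + 2 + x⁻¹ := by
      have h2 : (r + 2 + r⁻¹) * M.det = (x + 2 + x⁻¹) * M.det := by rw [← htr, h]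
      exact mul_right_cancel₀ hM h2
    have h3 : (r - x) * (r * x - 1) = 0 := by
      have h4 : r + r⁻¹ = x + x⁻¹ := by linear_combination h1
      field_simp at h4
      linear_combination h4
    rcases mul_eq_zero.1 h3 with h5 | h5
    · have h6 : r = x := sub_eq_zero.1 h5
      rw [← h6]
      exact hrd
    · have h6 : r * x = 1 := sub_eq_zero.1 h5
      have h7 : (r * x) ^ d = 1 := by rw [h6, one_pow]
      rw [mul_pow, hrd, one_mul] at h7
      exact h7
  · intro hxd
    exact ⟨x, hx, hxd, h⟩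

end Rt

/-- densities are unique -/
theorem den_unique {A : Set (Pl F)} {c c' : ℝ} (h : HasDen A c) (h' : HasDen A c') : c = c' := by
  obtain ⟨C, hC⟩ := h
  obtain ⟨C', hC'⟩ := h'
  by_contra hne
  have hpos : 0 < |c - c'| := abs_pos.2 (sub_ne_zero.2 hne)
  have key : ∀ s ∈ Set.Ioc (1 : ℝ) 2, |c - c'| * Real.log (1 / (s - 1)) ≤ C + C' := by
    intro s hs
    have hlog : 0 ≤ Real.log (1 / (s - 1)) := by
      refine Real.log_nonneg ?_
      rw [le_div_iff₀ (by linarith [hs.1])]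
      linarith [hs.2]
    have h1 := hC s hs
    have h2 := hC' s hs
    have h3 : |c - c'| * Real.log (1 / (s - 1)) =
        |(Ds A s - c' * Real.log (1 / (s - 1))) - (Ds A s - c * Real.log (1 / (s - 1)))| := by
      rw [show (Ds A s - c' * Real.log (1 / (s - 1))) - (Ds A s - c * Real.log (1 / (s - 1))) =
        (c - c') * Real.log (1 / (s - 1)) by ring, abs_mul, abs_of_nonneg hlog]
    rw [h3]
    refine (abs_sub _ _).trans ?_
    linarith
  set X := (|C + C'| + 1) / |c - c'| with hX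
  have hX0 : 0 < X := by positivity
  have hs : (1 + Real.exp (-X) : ℝ) ∈ Set.Ioc (1 : ℝ) 2 := by
    refine ⟨by linarith [Real.exp_pos (-X)], ?_⟩
    have : Real.exp (-X) ≤ 1 := Real.exp_le_one_iff.2 (by linarith)
    linarith
  have h1 := key _ hs
  rw [show 1 + Real.exp (-X) - 1 = Real.exp (-X) by ring, one_div, Real.log_inv,
    Real.log_exp, neg_neg] at h1
  have h2 : |c - c'| * X = |C + C'| + 1 := by
    rw [hX]
    field_simp
  have h3 := le_abs_self (C + C')
  linarith

end GalMain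

open GalMain

/-- **G** the Galois side. -/
theorem galois_side {p : ℕ} [Fact p.Prime] {S : Set (Pl F)} (hSf : S.Finite)
    (k : Type) [Field k] [CharP k p] (ρ : GalF F →* GL (Fin 2) k)
    (hρ : IsOpen (ρ.ker : Set (GalF F))) (e : ℤˣ)
    (ψ : Pl F → AlgebraicClosure k) (hψ : IsRay S ψ)
    (hinert : ∀ v, v ∉ S → ∀ Q, Over v Q → ∀ σ : GalF F, IsInertia Q σ → ρ σ = 1)
    (hfrob : ∀ v, v ∉ S → ∀ Q, Over v Q → ∀ σ : GalF F, IsFrob v Q σ →
      (algebraMap k (AlgebraicClosure k) ((ρ (σ ^ (e : ℤ)) : Matrix (Fin 2) (Fin 2) k).trace)) ^ 2 =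
        (ψ v + 2 + (ψ v)⁻¹) *
          algebraMap k (AlgebraicClosure k) ((ρ (σ ^ (e : ℤ)) : Matrix (Fin 2) (Fin 2) k).det)) :
    ¬ NonEisenstein ρ := by
  intro hNE
  have hcharbar : CharP (AlgebraicClosure k) p :=
    charP_of_injective_algebraMap (algebraMap k (AlgebraicClosure k)).injective p
  obtain ⟨T, n, hTf, hST, hn, hψn, hdens⟩ := char_density (p := p) hSf ψ hψ
  -- the representation over the algebraic closure
  let φ : GL (Fin 2) k →* GL (Fin 2) (AlgebraicClosure k) :=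
    Matrix.GeneralLinearGroup.map (n := Fin 2) (algebraMap k (AlgebraicClosure k))
  let N : Subgroup (GalF F) := ρ.ker
  let ρΔ : (GalF F ⧸ N) →* GL (Fin 2) (AlgebraicClosure k) := φ.comp (QuotientGroup.kerLift ρ)
  have hmk : ∀ σ : GalF F, ρΔ (QuotientGroup.mk σ) = φ (ρ σ) := fun σ => rfl
  have hφ : ∀ (g : GL (Fin 2) k) i j, (φ g : Matrix (Fin 2) (Fin 2) (AlgebraicClosure k)) i j =
      algebraMap k (AlgebraicClosure k) ((g : Matrix (Fin 2) (Fin 2) k) i j) := fun g i j => rfl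
  have hφtr : ∀ g : GL (Fin 2) k, (φ g : Matrix (Fin 2) (Fin 2) (AlgebraicClosure k)).trace =
      algebraMap k (AlgebraicClosure k) ((g : Matrix (Fin 2) (Fin 2) k).trace) := by
    intro g
    rw [Matrix.trace_fin_two, Matrix.trace_fin_two, hφ, hφ, map_add]
  have hφdet : ∀ g : GL (Fin 2) k, (φ g : Matrix (Fin 2) (Fin 2) (AlgebraicClosure k)).det =
      algebraMap k (AlgebraicClosure k) ((g : Matrix (Fin 2) (Fin 2) k).det) := by
    intro g
    rw [Matrix.det_fin_two, Matrix.det_fin_two, hφ, hφ, hφ, hφ, map_sub, map_mul, map_mul]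
  have hdet0 : ∀ g : GL (Fin 2) (AlgebraicClosure k),
      (g : Matrix (Fin 2) (Fin 2) (AlgebraicClosure k)).det ≠ 0 := fun g =>
    ((Matrix.isUnit_iff_isUnit_det _).1 g.isUnit).ne_zero
  -- the sets
  let A : ℕ → Set (GalF F ⧸ N) := fun d =>
    {g | Rt d (ρΔ g : Matrix (Fin 2) (Fin 2) (AlgebraicClosure k))}
  have hun : ∀ v, v ∉ T → ∀ Q, Over v Q → ∀ σ : GalF F, IsInertia Q σ → σ ∈ N := by
    intro v hv Q hQ σ hσ
    exact hinert v (fun h => hv (hST h)) Q hQ σ hσ
  have hfin : Finite (GalF F ⧸ N) :=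
    (frob_density N hρ T hTf hun ∅ (fun g hg => absurd hg (Set.notMem_empty g))
      (fun g hg => absurd hg (Set.notMem_empty g))).1
  have hA1 : ∀ d, ∀ g ∈ A d, ∀ g' : GalF F ⧸ N,
      Subgroup.zpowers g' = Subgroup.zpowers g → g' ∈ A d := by
    intro d g hg g' hgg
    have h1 : g' ∈ Subgroup.zpowers g := hgg ▸ Subgroup.mem_zpowers g'
    obtain ⟨i, hi⟩ := mem_powers_iff_mem_zpowers.2 h1
    have h2 : g' = g ^ i := hi.symm
    show Rt d (ρΔ g' : Matrix (Fin 2) (Fin 2) (AlgebraicClosure k))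
    rw [h2, map_pow, Units.val_pow_eq_pow_val]
    exact Rt_pow (hdet0 _) hg i
  have hA2 : ∀ d, ∀ g ∈ A d, ∀ x : GalF F ⧸ N, x * g * x⁻¹ ∈ A d := by
    intro d g hg x
    obtain ⟨r, hr, hrd, htr⟩ := hg
    refine ⟨r, hr, hrd, ?_⟩
    rw [map_mul, map_mul, map_inv, Units.val_mul, Units.val_mul]
    have h1 : ((ρΔ x : Matrix (Fin 2) (Fin 2) (AlgebraicClosure k)) *
        (ρΔ g : Matrix (Fin 2) (Fin 2) (AlgebraicClosure k)) *
        (((ρΔ x)⁻¹ : GL (Fin 2) (AlgebraicClosure k)) :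
          Matrix (Fin 2) (Fin 2) (AlgebraicClosure k))).trace =
        (ρΔ g : Matrix (Fin 2) (Fin 2) (AlgebraicClosure k)).trace := by
      rw [Matrix.trace_mul_comm, ← mul_assoc, ← Units.val_mul, inv_mul_cancel, Units.val_one,
        one_mul]
    have h2 : ((ρΔ x : Matrix (Fin 2) (Fin 2) (AlgebraicClosure k)) *
        (ρΔ g : Matrix (Fin 2) (Fin 2) (AlgebraicClosure k)) *
        (((ρΔ x)⁻¹ : GL (Fin 2) (AlgebraicClosure k)) :
          Matrix (Fin 2) (Fin 2) (AlgebraicClosure k))).det =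
        (ρΔ g : Matrix (Fin 2) (Fin 2) (AlgebraicClosure k)).det := by
      have h4 : (ρΔ x : Matrix (Fin 2) (Fin 2) (AlgebraicClosure k)).det *
          (((ρΔ x)⁻¹ : GL (Fin 2) (AlgebraicClosure k)) :
            Matrix (Fin 2) (Fin 2) (AlgebraicClosure k)).det = 1 := by
        rw [← Matrix.det_mul, ← Units.val_mul, mul_inv_cancel, Units.val_one, Matrix.det_one]
      rw [Matrix.det_mul, Matrix.det_mul]
      linear_combination (ρΔ g : Matrix (Fin 2) (Fin 2) (AlgebraicClosure k)).det * h4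
    rw [h1, h2]
    exact htr
  -- the Frobenius elements
  have hfr : ∀ v, v ∉ S → ∀ Q, Over v Q → ∀ σ : GalF F, IsFrob v Q σ →
      (ρΔ (QuotientGroup.mk σ) : Matrix (Fin 2) (Fin 2) (AlgebraicClosure k)).trace ^ 2 =
        (ψ v + 2 + (ψ v)⁻¹) *
          (ρΔ (QuotientGroup.mk σ) : Matrix (Fin 2) (Fin 2) (AlgebraicClosure k)).det := by
    intro v hv Q hQ σ hσ
    have h1 := hfrob v hv Q hQ σ hσ
    rw [← hφtr, ← hφdet] at h1
    rw [hmk]
    rcases Int.units_eq_one_or e with he | he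
    · rw [he] at h1
      simpa using h1
    · rw [he] at h1
      have h2 : ρ (σ ^ (((-1 : ℤˣ) : ℤ))) = (ρ σ)⁻¹ := by
        rw [Units.val_neg, Units.val_one, zpow_neg, zpow_one, map_inv]
      rw [h2, map_inv] at h1
      exact (trace_inv_sq _ _).1 h1
  have hset : ∀ d, {v : Pl F | v ∉ T ∧ ∃ Q, Over v Q ∧ ∃ σ : GalF F, IsFrob v Q σ ∧
        (QuotientGroup.mk σ : GalF F ⧸ N) ∈ A d} = {v | v ∉ T ∧ ψ v ^ d = 1} := by
    intro d
    ext v
    constructor
    · rintro ⟨hv, Q, hQ, σ, hσ, hA⟩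
      exact ⟨hv, (Rt_iff (hdet0 _) (hψ.1 v) (hfr v (fun h => hv (hST h)) Q hQ σ hσ)).1 hA⟩
    · rintro ⟨hv, hd⟩
      obtain ⟨Q, hQ, σ, hσ⟩ := exists_frob v
      exact ⟨hv, Q, hQ, σ, hσ,
        (Rt_iff (hdet0 _) (hψ.1 v) (hfr v (fun h => hv (hST h)) Q hQ σ hσ)).2 hd⟩
  have hden : ∀ d, HasDen {v | v ∉ T ∧ ψ v ^ d = 1}
      ((Nat.card (A d) : ℝ) / Nat.card (GalF F ⧸ N)) := by
    intro d
    rw [← hset d]
    exact (frob_density N hρ T hTf hun (A d) (hA1 d) (hA2 d)).2
  have hcardpos : 0 < Nat.card (GalF F ⧸ N) := Nat.card_pos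
  have hone : ∀ d, (1 : GalF F ⧸ N) ∈ A d := by
    intro d
    refine ⟨1, one_ne_zero, one_pow d, ?_⟩
    rw [map_one, Units.val_one, Matrix.trace_one, Matrix.det_one, Fintype.card_fin, inv_one]
    push_cast
    ring
  have hpos : ∀ d, 0 < d → ∃ c : ℝ, 0 < c ∧ HasDen {v | v ∉ T ∧ ψ v ^ d = 1} c := by
    intro d _
    refine ⟨_, ?_, hden d⟩
    have h1 : 0 < Nat.card (A d) := by
      have : Nonempty (A d) := ⟨⟨1, hone d⟩⟩
      exact Nat.card_pos
    positivity
  have hcount : ∀ d, d ∣ n → n * Nat.card (A d) = d * Nat.card (GalF F ⧸ N) := by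
    intro d hd
    have h1 := den_unique (hden d) (hdens hpos d hd)
    rw [div_eq_div_iff (by positivity) (by positivity)] at h1
    have h2 : (Nat.card (A d)) * n = d * Nat.card (GalF F ⧸ N) := by exact_mod_cast h1
    rw [← h2, mul_comm]
  have hall : ∀ g : GalF F ⧸ N, Rt n (ρΔ g : Matrix (Fin 2) (Fin 2) (AlgebraicClosure k)) := by
    intro g
    have h1 := hcount n dvd_rfl
    have h2 : Nat.card (A n) = Nat.card (GalF F ⧸ N) := Nat.eq_of_mul_eq_mul_left hn h1
    have h3 : A n = Set.univ := by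
      have h4 : (A n).ncard = (Set.univ : Set (GalF F ⧸ N)).ncard := by
        rw [Set.ncard_univ, ← h2]
        rfl
      exact Set.eq_of_subset_of_ncard_le (Set.subset_univ _) h4.ge
    have h5 : g ∈ A n := h3 ▸ Set.mem_univ g
    exact h5
  obtain ⟨v, hv0, hv⟩ := group_side p ρΔ n hn hall hcount
  -- a finite extension over which the line is defined
  let k' : IntermediateField k (AlgebraicClosure k) :=
    IntermediateField.adjoin k (Set.range v)
  have hfd : Module.Finite k k' := by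
    refine IntermediateField.finiteDimensional_adjoin fun x _ => ?_
    exact (Algebra.IsAlgebraic.isAlgebraic (R := k) x).isIntegral
  have hvmem : ∀ i, v i ∈ k' := fun i =>
    IntermediateField.subset_adjoin k (Set.range v) ⟨i, rfl⟩
  let v' : Fin 2 → k' := fun i => ⟨v i, hvmem i⟩
  have hv'0 : v' ≠ 0 := by
    intro h
    apply hv0
    funext i
    have := congrFun h i
    exact congrArg Subtype.val this
  obtain ⟨i0, hi0⟩ : ∃ i, v i ≠ 0 := by
    by_contra hcon
    push Not at hcon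
    exact hv0 (funext hcon)
  have hstab : ∀ (g : GalF F), ∀ w ∈ Submodule.span k' {v'},
      ((ρ g : Matrix (Fin 2) (Fin 2) k).map (algebraMap k k')).mulVec w ∈
        Submodule.span k' {v'} := by
    intro g w hw
    obtain ⟨a, rfl⟩ := Submodule.mem_span_singleton.1 hw
    rw [Matrix.mulVec_smul]
    refine Submodule.smul_mem _ _ ?_
    obtain ⟨c, hc⟩ := hv (QuotientGroup.mk g)
    rw [hmk] at hc
    -- the image in the algebraic closure
    have h1 : ∀ i, ((((ρ g : Matrix (Fin 2) (Fin 2) k).map (algebraMap k k')).mulVec v' i : k') :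
        AlgebraicClosure k) = c * v i := by
      intro i
      have h2 := congrFun hc i
      rw [Pi.smul_apply, smul_eq_mul] at h2
      rw [← h2]
      simp only [Matrix.mulVec, dotProduct, Fin.sum_univ_two]
      rfl
    have hcmem : c ∈ k' := by
      have h3 : c = ((((ρ g : Matrix (Fin 2) (Fin 2) k).map (algebraMap k k')).mulVec v' i0 : k') :
          AlgebraicClosure k) / v i0 := by
        rw [h1 i0]
        field_simp
      rw [h3]
      exact k'.div_mem (Subtype.mem _) (hvmem i0)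
    refine Submodule.mem_span_singleton.2 ⟨⟨c, hcmem⟩, ?_⟩
    funext i
    apply Subtype.ext
    rw [h1 i]
    rfl
  rcases hNE k' hfd (Submodule.span k' {v'}) hstab with h | h
  · rw [Submodule.span_singleton_eq_bot] at h
    exact hv'0 h
  · have h1 := finrank_span_singleton (K := k') hv'0
    rw [h, finrank_top, Module.finrank_fintype_fun_eq_card, Fintype.card_fin] at h1
    norm_num at h1

namespace GalMain

open Classical in
theorem fib_real (w : InfinitePlace F) (hw : w.IsReal) (x : F) :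
    ∏ φ ∈ (Finset.univ.filter fun φ : F →+* ℂ => InfinitePlace.mk φ = w), φ x =
      (InfinitePlace.embedding_of_isReal hw x : ℂ) := by
  have h1 : (Finset.univ.filter fun φ : F →+* ℂ => InfinitePlace.mk φ = w) = {w.embedding} := by
    ext φ
    simp only [Finset.mem_filter, Finset.mem_univ, true_and, Finset.mem_singleton]
    constructor
    · intro h
      have h2 := h.trans (InfinitePlace.mk_embedding w).symm
      rcases InfinitePlace.mk_eq_iff.1 h2 with h3 | h3
      · exact h3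
      · have h4 : ComplexEmbedding.conjugate w.embedding = w.embedding :=
          ComplexEmbedding.isReal_iff.1 (InfinitePlace.isReal_iff.1 hw)
        have h5 : ComplexEmbedding.conjugate (ComplexEmbedding.conjugate φ) =
            ComplexEmbedding.conjugate w.embedding := congrArg _ h3
        rw [ComplexEmbedding.involutive_conjugate, h4] at h5
        exact h5
    · rintro rfl
      exact InfinitePlace.mk_embedding w
  rw [h1, Finset.prod_singleton, InfinitePlace.embedding_of_isReal_apply]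

open Classical in
theorem fib_complex (w : InfinitePlace F) (hw : ¬ w.IsReal) (x : F) :
    ∏ φ ∈ (Finset.univ.filter fun φ : F →+* ℂ => InfinitePlace.mk φ = w), φ x =
      (Complex.normSq (w.embedding x) : ℂ) := by
  have h0 : w.embedding ≠ ComplexEmbedding.conjugate w.embedding := by
    intro h
    exact hw (InfinitePlace.isReal_iff.2 (ComplexEmbedding.isReal_iff.2 h.symm))
  have h1 : (Finset.univ.filter fun φ : F →+* ℂ => InfinitePlace.mk φ = w) =
      {w.embedding, ComplexEmbedding.conjugate w.embedding} := by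
    ext φ
    simp only [Finset.mem_filter, Finset.mem_univ, true_and, Finset.mem_singleton,
      Finset.mem_insert]
    constructor
    · intro h
      have h2 := h.trans (InfinitePlace.mk_embedding w).symm
      rcases InfinitePlace.mk_eq_iff.1 h2 with h3 | h3
      · exact Or.inl h3
      · right
        rw [← h3, ComplexEmbedding.involutive_conjugate]
    · rintro (rfl | rfl)
      · exact InfinitePlace.mk_embedding w
      · rw [InfinitePlace.mk_conjugate_eq, InfinitePlace.mk_embedding]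
  rw [h1, Finset.prod_pair h0, ComplexEmbedding.conjugate_coe_eq, Complex.mul_conj]

theorem norm_pos {a : 𝓞 F} (ha : a ≠ 0) (ht : TotPos a) : 0 < Algebra.norm ℤ a := by
  classical
  have ha' : (a : F) ≠ 0 := by simpa using ha
  have h1 : ((Algebra.norm ℚ (a : F) : ℚ) : ℂ) = ∏ φ : F →+* ℂ, φ (a : F) := by
    have h2 := Algebra.norm_eq_prod_embeddings ℚ ℂ (a : F)
    rw [eq_ratCast] at h2
    rw [h2]
    exact (Fintype.prod_equiv (RingHom.equivRatAlgHom F ℂ) (fun f => f (a : F))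
      (fun φ => φ (a : F)) fun _ => by simp [RingHom.equivRatAlgHom_apply]).symm
  have h2 : ∀ w : InfinitePlace F, ∃ c : ℝ, 0 < c ∧
      ∏ φ ∈ (Finset.univ.filter fun φ : F →+* ℂ => InfinitePlace.mk φ = w), φ (a : F) = (c : ℂ) := by
    intro w
    by_cases hw : w.IsReal
    · exact ⟨_, ht ⟨w, hw⟩, fib_real w hw _⟩
    · refine ⟨_, ?_, fib_complex w hw _⟩
      exact Complex.normSq_pos.2 ((map_ne_zero _).2 ha')
  choose c hc hc' using h2
  have h3 : ((Algebra.norm ℚ (a : F) : ℚ) : ℂ) = ((∏ w : InfinitePlace F, c w : ℝ) : ℂ) := by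
    rw [h1, ← Finset.prod_fiberwise Finset.univ InfinitePlace.mk (fun φ : F →+* ℂ => φ (a : F)),
      Complex.ofReal_prod]
    exact Finset.prod_congr rfl fun w _ => hc' w
  have h4 : ((Algebra.norm ℚ (a : F) : ℚ) : ℝ) = ∏ w : InfinitePlace F, c w := by
    exact_mod_cast h3
  have h5 : (0 : ℝ) < ((Algebra.norm ℚ (a : F) : ℚ) : ℝ) := by
    rw [h4]
    exact Finset.prod_pos fun w _ => hc w
  have h6 : (0 : ℚ) < Algebra.norm ℚ (a : F) := by exact_mod_cast h5
  rw [← Algebra.coe_norm_int] at h6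
  exact_mod_cast h6

theorem norm_modEq {p : ℕ} [Fact p.Prime] {a : 𝓞 F}
    (ha : a - 1 ∈ Ideal.span {((p : ℕ) : 𝓞 F)}) : (p : ℤ) ∣ Algebra.norm ℤ a - 1 := by
  classical
  obtain ⟨c, hc⟩ := Ideal.mem_span_singleton'.1 ha
  have ha2 : a = 1 + c * (p : 𝓞 F) := by rw [hc]; ring
  let b := RingOfIntegers.basis F
  have h1 : (Int.castRingHom (ZMod p)) (Algebra.norm ℤ a) = 1 := by
    rw [Algebra.norm_eq_matrix_det b, RingHom.map_det]
    have h2 : (Int.castRingHom (ZMod p)).mapMatrix (Algebra.leftMulMatrix b a) = 1 := by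
      rw [ha2, map_add, map_add, map_one, map_one, map_mul, map_mul, map_natCast, map_natCast]
      have h3 : ((p : ℕ) : Matrix (Module.Free.ChooseBasisIndex ℤ (𝓞 F))
          (Module.Free.ChooseBasisIndex ℤ (𝓞 F)) (ZMod p)) = 0 := by
        ext i j
        rw [Matrix.natCast_apply]
        split_ifs <;> simp
      rw [h3, mul_zero, add_zero]
    rw [h2, Matrix.det_one]
  rw [← ZMod.intCast_zmod_eq_zero_iff_dvd]
  push_cast
  rw [eq_intCast] at h1
  rw [h1, sub_self]

theorem ex_norm {a : 𝓞 F} (ha : a ≠ 0) :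
    GalChar.ex (fun v : Pl F => Nm v) (Ideal.span {a}) = (Algebra.norm ℤ a).natAbs := by
  have hI : Ideal.span {a} ≠ (⊥ : Ideal (𝓞 F)) := by
    rw [Ne, Ideal.span_singleton_eq_bot]
    exact ha
  rw [← Ideal.absNorm_span_singleton]
  conv_rhs => rw [← Ideal.finprod_heightOneSpectrum_factorization (I := Ideal.span {a}) hI]
  rw [map_finprod]
  · unfold GalChar.ex
    refine finprod_congr fun v => ?_
    unfold HeightOneSpectrum.maxPowDividing Nm expo
    rw [map_pow]
  · exact Ideal.hasFiniteMulSupport hI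

theorem nm_ne {p : ℕ} [Fact p.Prime] {v : Pl F} (hv : ¬ Above p v) (κ : Type) [Field κ]
    [CharP κ p] : (Nm v : κ) ≠ 0 := by
  intro h
  rw [CharP.cast_eq_zero_iff κ p] at h
  apply hv
  have hfin : Finite (𝓞 F ⧸ v.asIdeal) := Ideal.finiteQuotientOfFreeOfNeBot _ v.ne_bot
  have h1 : Nm v = Nat.card (𝓞 F ⧸ v.asIdeal) := by
    unfold Nm
    rw [Ideal.absNorm_apply, Submodule.cardQuot_apply]
  rw [h1] at h
  obtain ⟨x, hx⟩ := exists_prime_addOrderOf_dvd_card' p h
  have h2 : p • x = 0 := hx ▸ addOrderOf_nsmul_eq_zero x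
  have h3 : x ≠ 0 := by
    rintro rfl
    rw [addOrderOf_zero] at hx
    exact (Fact.out : p.Prime).one_lt.ne hx
  have := v.isPrime
  rw [nsmul_eq_mul, mul_eq_zero, or_iff_left h3] at h2
  unfold Above
  rw [← Ideal.Quotient.eq_zero_iff_mem, map_natCast]
  exact h2

end GalMain

open Classical in
/-- The norm, modulo `p`, is a ray class character. -/
theorem isRay_norm {p : ℕ} [Fact p.Prime] {S : Set (Pl F)} (hSf : S.Finite)
    (hS : ∀ v : Pl F, Above p v → v ∈ S)
    (κ : Type) [Field κ] [CharP κ p] :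
    IsRay S (fun v : Pl F => if v ∈ S then (1 : κ) else (Nm v : κ)) := by
  refine ⟨fun v => ?_, Ideal.span {((p : ℕ) : 𝓞 F)} * ∏ v ∈ hSf.toFinset, v.asIdeal, ?_, ?_, ?_⟩
  · by_cases hv : v ∈ S
    · simp [hv]
    · simp only [hv, if_false]
      exact GalMain.nm_ne (p := p) (fun h => hv (hS v h)) κ
  · refine mul_ne_zero ?_ ?_
    · rw [Ne, Ideal.zero_eq_bot, Ideal.span_singleton_eq_bot]
      exact_mod_cast (Fact.out : p.Prime).ne_zero
    · exact Finset.prod_ne_zero_iff.2 fun v _ => v.ne_bot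
  · intro v hv
    refine Ideal.mul_le_right.trans ?_
    exact Ideal.le_of_dvd (Finset.dvd_prod_of_mem _ (hSf.mem_toFinset.2 hv))
  · intro a ha ha1 ht
    have hI : Ideal.span {a} ≠ (⊥ : Ideal (𝓞 F)) := by
      rw [Ne, Ideal.span_singleton_eq_bot]
      exact ha
    have h1 : ∀ v, expo v (Ideal.span {a}) ≠ 0 →
        (if v ∈ S then (1 : κ) else (Nm v : κ)) = (Nat.castRingHom κ) (Nm v) := by
      intro v hv
      have h2 : v ∉ S := by
        intro h
        have h3 := GalChar.le_of_expo hI hv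
        have h4 : a ∈ v.asIdeal := h3 (Ideal.mem_span_singleton_self a)
        have h5 : a - 1 ∈ v.asIdeal :=
          (Ideal.le_of_dvd (Finset.dvd_prod_of_mem _ (hSf.mem_toFinset.2 h)))
            (Ideal.mul_le_right ha1)
        have h6 : (1 : 𝓞 F) ∈ v.asIdeal := by
          have := v.asIdeal.sub_mem h4 h5
          rwa [sub_sub_cancel] at this
        exact v.isPrime.ne_top ((Ideal.eq_top_iff_one _).2 h6)
      simp [h2]
    have h2 := GalChar.ex_congr (I := Ideal.span {a}) h1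
    have h3 := GalChar.ex_map ((Nat.castRingHom κ : ℕ →+* κ) : ℕ →* κ) (fun v : Pl F => Nm v) hI
    have h4 : ∏ᶠ v : Pl F, (if v ∈ S then (1 : κ) else (Nm v : κ)) ^ expo v (Ideal.span {a}) =
        ((Algebra.norm ℤ a).natAbs : κ) := by
      have h5 := h2.trans h3.symm
      rw [GalMain.ex_norm ha] at h5
      exact h5
    rw [h4]
    have h5 : (((Algebra.norm ℤ a).natAbs : ℤ) : κ) = ((Algebra.norm ℤ a : ℤ) : κ) := by
      rw [Int.natAbs_of_nonneg (GalMain.norm_pos ha ht).le]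
    rw [Int.cast_natCast] at h5
    rw [h5]
    have h6 : (p : ℤ) ∣ Algebra.norm ℤ a - 1 := GalMain.norm_modEq (Ideal.mul_le_left ha1)
    rw [← CharP.intCast_eq_zero_iff κ p] at h6
    push_cast at h6
    exact sub_eq_zero.1 h6

end Pool.Agent.CG2
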