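import Pool.Agent.CG2.Borel
import Pool.Agent.CG2.GalMain

/-!
# Eigenvalues on `BInv / GInv`
-/

noncomputable section

namespace Pool.Agent.CG2

open NumberField IsDedekindDomain Matrix

variable {F : Type} [Field F] [NumberField F]

/-! ### Linear algebra -/

/-- Commuting endomorphisms have a common eigenvector in every non-zero stable subspace. -/
theorem BorelEig_common {κ Q : Type} {ι : Type*} [Field κ] [IsAlgClosed κ] [AddCommGroup Q]
    [Module κ Q] [FiniteDimensional κ Q] (A : ι → Module.End κ Q)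
    (hA : ∀ s t x, A s (A t x) = A t (A s x)) (E : Submodule κ Q) (hE : E ≠ ⊥)
    (hEA : ∀ t, ∀ x ∈ E, A t x ∈ E) :
    ∃ x ∈ E, x ≠ 0 ∧ ∀ t, ∃ c : κ, A t x = c • x := by
  obtain ⟨W, ⟨hW0, hWA, hWE⟩, hmin⟩ := IsArtinian.set_has_minimal (R := κ) (M := Q)
    {W : Submodule κ Q | W ≠ ⊥ ∧ (∀ t, ∀ x ∈ W, A t x ∈ W) ∧ W ≤ E} ⟨E, hE, hEA, le_refl E⟩
  obtain ⟨x, hx, hx0⟩ := (Submodule.ne_bot_iff W).1 hW0
  refine ⟨x, hWE hx, hx0, fun t => ?_⟩
  have hnt : Nontrivial W := (Submodule.nontrivial_iff_ne_bot).2 hW0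
  obtain ⟨c, hc⟩ := Module.End.exists_eigenvalue ((A t).restrict (hWA t) : Module.End κ W)
  obtain ⟨w, hw⟩ := hc.exists_hasEigenvector
  have hw1 : A t w.1 = c • w.1 := by
    have h1 := hw.apply_eq_smul
    exact congrArg Subtype.val h1
  have hw0 : w.1 ≠ 0 := fun h => hw.2 (Subtype.ext h)
  let W' : Submodule κ Q :=
    { carrier := {z | z ∈ W ∧ A t z = c • z}
      add_mem' := by
        rintro a b ⟨ha, ha'⟩ ⟨hb, hb'⟩
        exact ⟨W.add_mem ha hb, by rw [map_add, ha', hb', smul_add]⟩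
      zero_mem' := ⟨W.zero_mem, by simp⟩
      smul_mem' := by
        rintro d a ⟨ha, ha'⟩
        exact ⟨W.smul_mem d ha, by rw [map_smul, ha', smul_comm]⟩ }
  have hW' : W' ∈ {W : Submodule κ Q | W ≠ ⊥ ∧ (∀ t, ∀ x ∈ W, A t x ∈ W) ∧ W ≤ E} := by
    refine ⟨(Submodule.ne_bot_iff W').2 ⟨w.1, ⟨w.2, hw1⟩, hw0⟩, ?_, fun z hz => hWE hz.1⟩
    rintro s z ⟨hz, hz'⟩
    exact ⟨hWA s z hz, by rw [hA, hz', map_smul]⟩
  have h2 : W' ≤ W := fun z hz => hz.1
  have h3 : W' = W := by
    by_contra hne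
    exact hmin W' hW' (lt_of_le_of_ne h2 hne)
  have h4 : x ∈ W' := by
    rw [h3]
    exact hx
  exact ⟨c, h4.2⟩

/-! ### Local computations -/

theorem BorelEig_exp_lt (γ : WithZero (Multiplicative ℤ)) (hγ : γ ≠ 0) :
    ∃ n : ℕ, WithZero.exp (-(n : ℤ)) < γ := by
  obtain ⟨m, rfl⟩ : ∃ m : ℤ, γ = WithZero.exp m := ⟨WithZero.log γ, (WithZero.exp_log hγ).symm⟩
  refine ⟨(1 - m).toNat, WithZero.exp_lt_exp.2 ?_⟩
  have := Int.self_le_toNat (1 - m)
  omega

/-- The basis of the neighbourhoods of a point of `F_v`. -/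
theorem BorelEig_nhds (v : Pl F) (x : Fv v) {V : Set (Fv v)} (hV : V ∈ nhds x) :
    ∃ n : ℕ, ∀ y : Fv v, Valued.v (y - x) ≤ WithZero.exp (-(n : ℤ)) → y ∈ V := by
  obtain ⟨γ, hγ⟩ := Valued.mem_nhds.1 hV
  have h0 : MonoidWithZeroHom.ValueGroup₀.embedding γ.1 ≠ 0 := by
    rw [map_ne_zero_iff _ (MonoidWithZeroHom.ValueGroup₀.embedding_strictMono.injective)]
    exact γ.ne_zero
  obtain ⟨n, hn⟩ := BorelEig_exp_lt _ h0
  refine ⟨n, fun y hy => hγ ?_⟩
  change Valued.v.restrict (y - x) < γ.1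
  rw [Valuation.restrict_lt_iff_lt_embedding]
  exact lt_of_le_of_lt hy hn

/-- The two embeddings of `F_v^*` in `GL₂(F_v)`: `x ↦ diag(x,1)` and `x ↦ diag(1,x)`. -/
def BorelEig_D (i : Bool) (v : Pl F) : (Fv v)ˣ →* GQ v where
  toFun x := if i then Dv v x 1 else Dv v 1 x
  map_one' := by cases i <;> exact Borel_Dv_one v
  map_mul' x y := by
    cases i
    · change Dv v 1 (x * y) = Dv v 1 x * Dv v 1 y
      rw [Borel_Dv_mul, one_mul]
    · change Dv v (x * y) 1 = Dv v x 1 * Dv v y 1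
      rw [Borel_Dv_mul, one_mul]

theorem BorelEig_D_eq (i : Bool) (v : Pl F) (x : (Fv v)ˣ) :
    BorelEig_D i v x = Dv v (if i then x else 1) (if i then 1 else x) := by
  cases i <;> rfl

theorem BorelEig_D_cont (i : Bool) (v : Pl F) : Continuous (BorelEig_D (F := F) i v) := by
  have key : ∀ f g : (Fv v)ˣ → (Fv v)ˣ, Continuous f → Continuous g →
      Continuous fun x => Dv v (f x) (g x) := by
    intro f g hf hg
    have h : ∀ f g : (Fv v)ˣ → (Fv v)ˣ, Continuous f → Continuous g →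
        Continuous fun x => ((Dv v (f x) (g x) : GQ v) : Matrix (Fin 2) (Fin 2) (Fv v)) := by
      intro f g hf hg
      refine continuous_matrix fun i j => ?_
      change Continuous fun x => (!![((f x : (Fv v)ˣ) : Fv v), 0; 0, ((g x : (Fv v)ˣ) : Fv v)] :
        Matrix (Fin 2) (Fin 2) (Fv v)) i j
      fin_cases i <;> fin_cases j
      · exact Units.continuous_val.comp hf
      · exact continuous_const
      · exact continuous_const
      · exact Units.continuous_val.comp hg
    refine Units.continuous_iff.2 ⟨h f g hf hg, ?_⟩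
    have h1 : (fun x => ((((Dv v (f x) (g x) : GQ v))⁻¹ : GQ v) : Matrix (Fin 2) (Fin 2) (Fv v))) =
        fun x => ((Dv v ((f x)⁻¹) ((g x)⁻¹) : GQ v) : Matrix (Fin 2) (Fin 2) (Fv v)) := by
      funext x
      rw [Borel_Dv_inv]
    exact h1 ▸ h (fun x => (f x)⁻¹) (fun x => (g x)⁻¹) hf.inv hg.inv
  cases i
  · exact key (fun _ => 1) (fun x => x) continuous_const continuous_id
  · exact key (fun x => x) (fun _ => 1) continuous_id continuous_const

theorem BorelEig_open (i : Bool) (v : Pl F) (U : Subgroup (GQ v)) (hU : IsOpen (U : Set (GQ v))) :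
    ∃ n : ℕ, ∀ x : (Fv v)ˣ, Valued.v ((x : Fv v) - 1) ≤ WithZero.exp (-(n : ℤ)) →
      BorelEig_D i v x ∈ U := by
  have h1 : IsOpen (BorelEig_D i v ⁻¹' (U : Set (GQ v))) := hU.preimage (BorelEig_D_cont i v)
  obtain ⟨V, hV, hVU⟩ := (Units.isEmbedding_val₀ (G₀ := Fv v)).isOpen_iff.1 h1
  have h2 : (1 : Fv v) ∈ V := by
    have h3 : (1 : (Fv v)ˣ) ∈ BorelEig_D i v ⁻¹' (U : Set (GQ v)) := by
      change BorelEig_D i v 1 ∈ U
      rw [map_one]
      exact U.one_mem
    rw [← hVU] at h3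
    exact h3
  obtain ⟨n, hn⟩ := BorelEig_nhds v 1 (hV.mem_nhds h2)
  refine ⟨n, fun x hx => ?_⟩
  have h3 : x ∈ Units.val ⁻¹' V := hn x hx
  rw [hVU] at h3
  exact h3

theorem BorelEig_D_GZ (i : Bool) (v : Pl F) (x : (Fv v)ˣ) (hx : Valued.v (x : Fv v) = 1) :
    BorelEig_D i v x ∈ GZ v := by
  have hx' : Valued.v ((x⁻¹ : (Fv v)ˣ) : Fv v) = 1 := by
    rw [Units.val_inv_eq_inv_val, map_inv₀, hx, inv_one]
  have key : ∀ a b : (Fv v)ˣ, Valued.v (a : Fv v) = 1 → Valued.v (b : Fv v) = 1 →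
      ∀ i j, Valued.v (((Dv v a b : GQ v) : Matrix (Fin 2) (Fin 2) (Fv v)) i j) ≤ 1 := by
    intro a b ha hb i j
    change Valued.v ((!![(a : Fv v), 0; 0, (b : Fv v)] : Matrix (Fin 2) (Fin 2) (Fv v)) i j) ≤ 1
    fin_cases i <;> fin_cases j
    · exact ha.le
    · exact (map_zero _).trans_le zero_le_one
    · exact (map_zero _).trans_le zero_le_one
    · exact hb.le
  have h1 : Valued.v ((1 : (Fv v)ˣ) : Fv v) = 1 := map_one _
  rw [mem_GZ_iff]
  cases i
  · refine ⟨key 1 x h1 hx, ?_⟩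
    have h2 : (BorelEig_D false v x)⁻¹ = Dv v 1 x⁻¹ := by
      rw [← map_inv]
      rfl
    rw [h2]
    exact key 1 x⁻¹ h1 hx'
  · refine ⟨key x 1 hx h1, ?_⟩
    have h2 : (BorelEig_D true v x)⁻¹ = Dv v x⁻¹ 1 := by
      rw [← map_inv]
      rfl
    rw [h2]
    exact key x⁻¹ 1 hx' h1

/-- `diag(a,1)` and `diag(1,a)`. -/
def BorelEig_g (i : Bool) (a : F) (ha : a ≠ 0) : G F :=
  if i then dg a 1 ha one_ne_zero else dg 1 a one_ne_zero ha

theorem BorelEig_un_one (v : Pl F) : Borel_un v (1 : F) one_ne_zero = 1 := by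
  apply Units.ext
  rw [Borel_un_val, Units.val_one]
  exact map_one (algebraMap F (Fv v))

theorem BorelEig_loc (i : Bool) (v : Pl F) (a : F) (ha : a ≠ 0) :
    loc v (BorelEig_g i a ha) = BorelEig_D i v (Borel_un v a ha) := by
  cases i
  · change loc v (dg 1 a one_ne_zero ha) = Dv v 1 (Borel_un v a ha)
    rw [Borel_loc_dg, BorelEig_un_one]
  · change loc v (dg a 1 ha one_ne_zero) = Dv v (Borel_un v a ha) 1
    rw [Borel_loc_dg, BorelEig_un_one]

theorem BorelEig_val_expo (v : Pl F) {a : 𝓞 F} (ha : a ≠ 0) :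
    v.valuation F (a : F) = WithZero.exp (-(expo v (Ideal.span {a}) : ℤ)) := by
  have h := v.valuation_of_algebraMap (K := F) a
  change v.valuation F (algebraMap (𝓞 F) F a) = _
  rw [h, v.intValuation_if_neg ha]
  rfl

theorem BorelEig_expo_finite {a : 𝓞 F} (ha : a ≠ 0) :
    {v : Pl F | expo v (Ideal.span {a}) ≠ 0}.Finite := by
  refine (finite_val_gt ((a : F)⁻¹)).subset ?_
  intro v hv
  change ¬ Valued.v (((a : F)⁻¹ : F) : Fv v) ≤ 1
  rw [HeightOneSpectrum.adicCompletion.valued_coe, map_inv₀, BorelEig_val_expo v ha,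
    ← WithZero.exp_neg, neg_neg, ← WithZero.exp_zero, WithZero.exp_le_exp]
  have h1 : expo v (Ideal.span {a}) ≠ 0 := hv
  omega

theorem BorelEig_ray_mul {κ : Type} [Field κ] {S : Set (Pl F)} {ψ φ : Pl F → κ} (h : IsRay S ψ)
    (h' : IsRay S φ) : IsRay S (fun v => ψ v * φ v) := by
  obtain ⟨h0, m, hm, hmS, hma⟩ := h
  obtain ⟨h0', m', hm', hmS', hma'⟩ := h'
  have hle1 : m * m' ≤ m := Ideal.mul_le_inf.trans inf_le_left
  have hle2 : m * m' ≤ m' := Ideal.mul_le_inf.trans inf_le_right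
  have hbot : m * m' ≠ ⊥ := fun h => by
    rcases Ideal.mul_eq_bot.1 h with h | h
    · exact hm h
    · exact hm' h
  refine ⟨fun v => mul_ne_zero (h0 v) (h0' v), m * m', hbot,
    fun v hv => hle1.trans (hmS v hv), fun a ha h1 h2 => ?_⟩
  have hfin := BorelEig_expo_finite ha
  have hsub : ∀ χ : Pl F → κ, (Function.mulSupport fun v =>
      χ v ^ expo v (Ideal.span {a})).Finite := by
    intro χ
    refine hfin.subset fun v hv h3 => hv ?_
    simp only [h3, pow_zero]
  simp only [mul_pow]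
  rw [finprod_mul_distrib (hsub ψ) (hsub φ), hma a ha (hle1 h1) h2,
    hma' a ha (hle2 h1) h2, one_mul]

/-! ### The action of the diagonal elements -/

section

variable {κ : Type} [Field κ] {K : Subgroup (GA F)} {S : Set (Pl F)} {χ : G F →* κˣ}

/-- Left translation on `BInv`. -/
def BorelEig_LT (hK : OC K S)
    (hχ : ∀ γ : G F, (γ : Matrix (Fin 2) (Fin 2) F).det = 1 → χ γ = 1) (t : TA F) :
    BInv K χ →ₗ[κ] BInv K χ where
  toFun f := ⟨lt t.1 f.1, binv_lt hK hχ f.2 t.1 t.2⟩
  map_add' _ _ := rfl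
  map_smul' _ _ := rfl

variable (K χ) in
/-- The submodule `GInv` of `BInv`. -/
def BorelEig_GI : Submodule κ (BInv K χ) := (GInv K χ).comap (BInv K χ).subtype

/-- Left translation on `BInv / GInv`. -/
def BorelEig_A (hK : OC K S)
    (hχ : ∀ γ : G F, (γ : Matrix (Fin 2) (Fin 2) F).det = 1 → χ γ = 1) (t : TA F) :
    Module.End κ (BInv K χ ⧸ BorelEig_GI K χ) :=
  (BorelEig_GI K χ).mapQ (BorelEig_GI K χ) (BorelEig_LT hK hχ t)
    (fun _ hf => ginv_lt hK hχ hf t.1 t.2)

theorem BorelEig_A_mk (hK : OC K S)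
    (hχ : ∀ γ : G F, (γ : Matrix (Fin 2) (Fin 2) F).det = 1 → χ γ = 1) (t : TA F)
    (f : BInv K χ) : BorelEig_A hK hχ t (Submodule.Quotient.mk f) =
      Submodule.Quotient.mk (BorelEig_LT hK hχ t f) := rfl

theorem BorelEig_A_mul (hK : OC K S)
    (hχ : ∀ γ : G F, (γ : Matrix (Fin 2) (Fin 2) F).det = 1 → χ γ = 1) (s t : TA F)
    (x : BInv K χ ⧸ BorelEig_GI K χ) :
    BorelEig_A hK hχ ⟨s.1 * t.1, Borel_TA_mul s.2 t.2⟩ x =
      BorelEig_A hK hχ s (BorelEig_A hK hχ t x) := by
  obtain ⟨f, rfl⟩ := Submodule.Quotient.mk_surjective _ x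
  rw [BorelEig_A_mk, BorelEig_A_mk, BorelEig_A_mk]
  congr 1
  apply Subtype.ext
  funext y
  change f.1 (y.1, s.1 * t.1 * y.2) = f.1 (y.1, t.1 * (s.1 * y.2))
  rw [Borel_TA_comm s.2 t.2, mul_assoc]

theorem BorelEig_A_comm (hK : OC K S)
    (hχ : ∀ γ : G F, (γ : Matrix (Fin 2) (Fin 2) F).det = 1 → χ γ = 1) (s t : TA F)
    (x : BInv K χ ⧸ BorelEig_GI K χ) :
    BorelEig_A hK hχ s (BorelEig_A hK hχ t x) = BorelEig_A hK hχ t (BorelEig_A hK hχ s x) := by
  rw [← BorelEig_A_mul, ← BorelEig_A_mul]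
  have h1 : (⟨s.1 * t.1, Borel_TA_mul s.2 t.2⟩ : TA F) =
      ⟨t.1 * s.1, Borel_TA_mul t.2 s.2⟩ := Subtype.ext (Borel_TA_comm s.2 t.2)
  rw [h1]

theorem BorelEig_A_id (hK : OC K S)
    (hχ : ∀ γ : G F, (γ : Matrix (Fin 2) (Fin 2) F).det = 1 → χ γ = 1) (t : TA F)
    (ht : ∀ f ∈ BInv K χ, lt t.1 f = f) (x : BInv K χ ⧸ BorelEig_GI K χ) :
    BorelEig_A hK hχ t x = x := by
  obtain ⟨f, rfl⟩ := Submodule.Quotient.mk_surjective _ x
  rw [BorelEig_A_mk]
  congr 1
  apply Subtype.ext
  exact ht f.1 f.2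

/-- The principal elements. -/
theorem BorelEig_A_diag (hK : OC K S)
    (hχ : ∀ γ : G F, (γ : Matrix (Fin 2) (Fin 2) F).det = 1 → χ γ = 1) {γ : G F}
    (hγ : (γ : Matrix (Fin 2) (Fin 2) F) 1 0 = 0) (hs : sgn γ = 1) (ht : diag γ ∈ TA F)
    (x : BInv K χ ⧸ BorelEig_GI K χ) :
    BorelEig_A hK hχ ⟨diag γ, ht⟩ x = (χ γ : κ) • x := by
  obtain ⟨f, rfl⟩ := Submodule.Quotient.mk_surjective _ x
  rw [BorelEig_A_mk, ← Submodule.Quotient.mk_smul]
  congr 1
  apply Subtype.ext
  funext y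
  change f.1 (y.1, diag γ * y.2) = (χ γ : κ) * f.1 y
  have h1 := f.2.2 γ hγ y
  rw [← h1]
  change _ = f.1 (sgn γ * y.1, diag γ * y.2)
  rw [hs, one_mul]

end

theorem BorelEig_TA_g (i : Bool) (a : F) (ha : a ≠ 0) : diag (BorelEig_g i a ha) ∈ TA F := by
  cases i
  · exact Borel_TA_diag 1 a one_ne_zero ha
  · exact Borel_TA_diag a 1 ha one_ne_zero

theorem BorelEig_TA_D (i : Bool) (v : Pl F) (x : (Fv v)ˣ) :
    single v (BorelEig_D i v x) ∈ TA F := by
  rw [BorelEig_D_eq]
  exact Borel_TA_single v _ _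

theorem BorelEig_sgn (i : Bool) {a : 𝓞 F} (ha : (a : F) ≠ 0) (hpos : TotPos a) :
    sgn (BorelEig_g i (a : F) ha) = 1 := by
  funext w
  have h1 : rdet w (BorelEig_g i (a : F) ha) = InfinitePlace.embedding_of_isReal w.2 (a : F) := by
    rw [rdet]
    congr 1
    cases i
    · change (Matrix.diagonal ![1, (a : F)]).det = _
      simp [Matrix.det_diagonal]
    · change (Matrix.diagonal ![(a : F), 1]).det = _
      simp [Matrix.det_diagonal]
  change (if 0 < rdet w (BorelEig_g i (a : F) ha) then (1 : ℤˣ) else -1) = 1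
  rw [h1, if_pos (hpos w)]

theorem BorelEig_g_10 (i : Bool) (a : F) (ha : a ≠ 0) :
    ((BorelEig_g i a ha : G F) : Matrix (Fin 2) (Fin 2) F) 1 0 = 0 := by
  cases i
  · exact Borel_dg_10 1 a one_ne_zero ha
  · exact Borel_dg_10 a 1 ha one_ne_zero

theorem BorelEig_chi {κ : Type} [Field κ] {χ : G F →* κˣ}
    (hχ : ∀ γ : G F, (γ : Matrix (Fin 2) (Fin 2) F).det = 1 → χ γ = 1) (a : F) (ha : a ≠ 0) :
    χ (BorelEig_g true a ha) = χ (BorelEig_g false a ha) := by
  have h1 : BorelEig_g true a ha = BorelEig_g false a ha * dg a a⁻¹ ha (inv_ne_zero ha) := by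
    apply Units.ext
    change Matrix.diagonal ![a, 1] = Matrix.diagonal ![1, a] * Matrix.diagonal ![a, a⁻¹]
    rw [Matrix.diagonal_mul_diagonal]
    congr 1
    funext i
    fin_cases i
    · simp
    · simp [ha]
  have h2 : χ (dg a a⁻¹ ha (inv_ne_zero ha)) = 1 := by
    apply hχ
    change (Matrix.diagonal ![a, a⁻¹]).det = 1
    simp [Matrix.det_diagonal, ha]
  rw [h1, map_mul, h2, mul_one]

/-- The value of a character at an idele which is close to a product of uniformisers. -/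
theorem BorelEig_prod {κ : Type} [Field κ] (U : ∀ v : Pl F, Subgroup (GQ v)) (ω : TA F → κ)
    (hmul : ∀ s t : TA F, ω ⟨s.1 * t.1, Borel_TA_mul s.2 t.2⟩ = ω s * ω t)
    (hone : ω ⟨1, Borel_TA_one⟩ = 1)
    (hU : ∀ t : TA F, (∀ v, t.1.1 v ∈ U v) → ω t = 1) (i : Bool) (n : Pl F → ℕ)
    (ϖ : ∀ v : Pl F, (Fv v)ˣ) (T : Finset (Pl F)) :
    ∀ t : TA F, (∀ v ∈ T, (BorelEig_D i v (ϖ v) ^ n v)⁻¹ * t.1.1 v ∈ U v) →
      (∀ v, v ∉ T → t.1.1 v ∈ U v) →
      ω t = ∏ v ∈ T, ω ⟨single v (BorelEig_D i v (ϖ v)), BorelEig_TA_D i v _⟩ ^ n v := by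
  classical
  have hpow : ∀ (v : Pl F) (x : (Fv v)ˣ) (k : ℕ),
      ω ⟨single v (BorelEig_D i v (x ^ k)), BorelEig_TA_D i v _⟩ =
        ω ⟨single v (BorelEig_D i v x), BorelEig_TA_D i v _⟩ ^ k := by
    intro v x k
    induction k with
    | zero =>
      rw [pow_zero, pow_zero, ← hone]
      congr 1
      apply Subtype.ext
      simp
    | succ k ih =>
      rw [pow_succ (ω _), ← ih, ← hmul]
      congr 1
      apply Subtype.ext
      simp only [pow_succ, map_mul]
  induction T using Finset.induction_on with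
  | empty =>
    intro t _ h2
    rw [Finset.prod_empty]
    exact hU t fun v => h2 v (Finset.notMem_empty v)
  | insert w T hw ih =>
    intro t h1 h2
    set s : TA F := ⟨single w (BorelEig_D i w (ϖ w ^ n w)), BorelEig_TA_D i w _⟩ with hs
    set t' : TA F := ⟨s.1⁻¹ * t.1, Borel_TA_mul (Borel_TA_inv s.2) t.2⟩ with ht'
    have h3 : t = ⟨s.1 * t'.1, Borel_TA_mul s.2 t'.2⟩ := by
      apply Subtype.ext
      change t.1 = s.1 * (s.1⁻¹ * t.1)
      rw [mul_inv_cancel_left]
    have h4 : ∀ v, v ≠ w → t'.1.1 v = t.1.1 v := by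
      intro v hv
      change ((single w (BorelEig_D i w (ϖ w ^ n w))).1 v)⁻¹ * t.1.1 v = t.1.1 v
      rw [single_ne hv, inv_one, one_mul]
    have h5 : t'.1.1 w = (BorelEig_D i w (ϖ w) ^ n w)⁻¹ * t.1.1 w := by
      change ((single w (BorelEig_D i w (ϖ w ^ n w))).1 w)⁻¹ * t.1.1 w = _
      rw [single_same, map_pow]
    have h6 := ih t' (by
      intro v hv
      rw [h4 v (fun h => hw (h ▸ hv))]
      exact h1 v (Finset.mem_insert_of_mem hv)) (by
      intro v hv
      by_cases hvw : v = w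
      · subst hvw
        rw [h5]
        exact h1 v (Finset.mem_insert_self v T)
      · rw [h4 v hvw]
        exact h2 v (fun h => by
          rcases Finset.mem_insert.1 h with h | h
          · exact hvw h
          · exact hv h))
    rw [Finset.prod_insert hw, ← h6, ← hpow, ← hmul]
    exact congrArg ω h3

/-- **C7**, the boundary case. -/
theorem borel_eigen {p : ℕ} [Fact p.Prime] {κ : Type} [Field κ] [IsAlgClosed κ] [CharP κ p]
    {K : Subgroup (GA F)} {S : Set (Pl F)} {χ : G F →* κˣ}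
    (hpS : ∀ v : Pl F, Above p v → v ∈ S) (hK : OC K S)
    (hχ : ∀ γ : G F, (γ : Matrix (Fin 2) (Fin 2) F).det = 1 → χ γ = 1)
    (f : Pt F → κ) (hf : f ∈ BInv K χ) (hne : f ∉ GInv K χ) (t r : Pl F → κ)
    (hT : ∀ v, v ∉ S → (fun y => heckeSum (v := v) 0 f y - t v * f y) ∈ GInv K χ)
    (hR : ∀ v, v ∉ S → (fun y => heckeSum (v := v) 1 f y - r v * f y) ∈ GInv K χ) :
    ∃ ψ : Pl F → κ, IsRay S ψ ∧ ∀ v, v ∉ S → r v ≠ 0 ∧
      t v ^ 2 = (ψ v + 2 + (ψ v)⁻¹) * (Nm v : κ) * r v := by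
  classical
  have hfin : Module.Finite κ (BInv K χ) := binv_finite hK
  let A := BorelEig_A (χ := χ) hK hχ
  -- the diagonal elements at the places outside `S`
  let e : Bool → Pl F → TA F := fun i v =>
    ⟨single v (BorelEig_D i v (Borel_un v (pi v) (pi_ne v))), BorelEig_TA_D i v _⟩
  have hsc : ∀ v, single v (sc v) ∈ TA F := by
    intro v
    have h1 : sc v = loc v (dg (pi v) (pi v) (pi_ne v) (pi_ne v)) := rfl
    rw [h1, Borel_loc_dg]
    exact Borel_TA_single v _ _
  let E : Submodule κ (BInv K χ ⧸ BorelEig_GI K χ) :=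
    { carrier := {x | ∀ v, v ∉ S → (Nm v : κ) • A (e true v) x + A (e false v) x = t v • x ∧
        A ⟨single v (sc v), hsc v⟩ x = r v • x}
      add_mem' := by
        intro a b ha hb v hv
        obtain ⟨ha1, ha2⟩ := ha v hv
        obtain ⟨hb1, hb2⟩ := hb v hv
        refine ⟨?_, ?_⟩
        · rw [map_add, map_add, smul_add (t v), ← ha1, ← hb1, smul_add]
          abel
        · rw [map_add, ha2, hb2, smul_add]
      zero_mem' := by
        intro v _
        simp
      smul_mem' := by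
        intro c a ha v hv
        obtain ⟨ha1, ha2⟩ := ha v hv
        refine ⟨?_, ?_⟩
        · rw [map_smul, map_smul, smul_comm (t v), ← ha1, smul_add, smul_comm c (Nm v : κ)]
        · rw [map_smul, ha2, smul_comm] }
  have hEA : ∀ s, ∀ x ∈ E, A s x ∈ E := by
    intro s x hx v hv
    obtain ⟨h1, h2⟩ := hx v hv
    refine ⟨?_, ?_⟩
    · rw [← map_smul (A s), ← h1, map_add, map_smul]
      congr 1
      · congr 1
        exact BorelEig_A_comm hK hχ _ _ x
      · exact BorelEig_A_comm hK hχ _ _ x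
    · rw [← map_smul (A s), ← h2]
      exact BorelEig_A_comm hK hχ _ _ x
  have hE : E ≠ ⊥ := by
    rw [Submodule.ne_bot_iff]
    refine ⟨Submodule.Quotient.mk ⟨f, hf⟩, ?_, ?_⟩
    · intro v hv
      have hh := fun y => binv_hecke hK hχ hf v hv y
      have hd1 : loc v (dg (pi v) 1 (pi_ne v) one_ne_zero) =
          BorelEig_D true v (Borel_un v (pi v) (pi_ne v)) :=
        BorelEig_loc true v (pi v) (pi_ne v)
      have hd2 : loc v (dg 1 (pi v) one_ne_zero (pi_ne v)) =
          BorelEig_D false v (Borel_un v (pi v) (pi_ne v)) :=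
        BorelEig_loc false v (pi v) (pi_ne v)
      refine ⟨?_, ?_⟩
      · have h1 : (Nm v : κ) • A (e true v) (Submodule.Quotient.mk ⟨f, hf⟩) +
            A (e false v) (Submodule.Quotient.mk ⟨f, hf⟩) =
            (Submodule.Quotient.mk ((Nm v : κ) • BorelEig_LT hK hχ (e true v) ⟨f, hf⟩ +
              BorelEig_LT hK hχ (e false v) ⟨f, hf⟩) : BInv K χ ⧸ BorelEig_GI K χ) := rfl
        rw [h1, ← Submodule.Quotient.mk_smul, Submodule.Quotient.eq]
        change _ ∈ GInv K χ
        refine (congrArg (· ∈ GInv K χ) ?_).mp (hT v hv)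
        funext y
        rw [(hh y).1, hd1, hd2]
        rfl
      · have h1 : A ⟨single v (sc v), hsc v⟩ (Submodule.Quotient.mk ⟨f, hf⟩) =
            (Submodule.Quotient.mk (BorelEig_LT hK hχ ⟨single v (sc v), hsc v⟩ ⟨f, hf⟩) :
              BInv K χ ⧸ BorelEig_GI K χ) := rfl
        rw [h1, ← Submodule.Quotient.mk_smul, Submodule.Quotient.eq]
        change _ ∈ GInv K χ
        refine (congrArg (· ∈ GInv K χ) ?_).mp (hR v hv)
        funext y
        rw [(hh y).2]
        rfl
    · intro h0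
      rw [Submodule.Quotient.mk_eq_zero] at h0
      exact hne h0
  obtain ⟨x, hxE, hx0, hx⟩ := BorelEig_common A (BorelEig_A_comm hK hχ) E hE hEA
  choose ω hω using hx
  have hcan : ∀ a b : κ, a • x = b • x → a = b := fun a b h => smul_left_injective κ hx0 h
  have hmul : ∀ s t : TA F, ω ⟨s.1 * t.1, Borel_TA_mul s.2 t.2⟩ = ω s * ω t := by
    intro s t
    apply hcan
    rw [← hω, mul_smul]
    have h1 : A ⟨s.1 * t.1, Borel_TA_mul s.2 t.2⟩ x = A s (A t x) := BorelEig_A_mul hK hχ s t x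
    rw [h1, hω t, map_smul, hω s, smul_comm]
  have hone : ω ⟨1, Borel_TA_one⟩ = 1 := by
    apply hcan
    rw [← hω, one_smul]
    apply BorelEig_A_id hK hχ
    intro g _
    funext y
    change g (y.1, 1 * y.2) = g y
    rw [one_mul]
  have hne0 : ∀ s, ω s ≠ 0 := by
    intro s h0
    have h1 := hmul s ⟨s.1⁻¹, Borel_TA_inv s.2⟩
    have h2 : (⟨s.1 * s.1⁻¹, Borel_TA_mul s.2 (Borel_TA_inv s.2)⟩ : TA F) = ⟨1, Borel_TA_one⟩ :=
      Subtype.ext (mul_inv_cancel s.1)
    rw [h2, hone, h0, zero_mul] at h1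
    exact one_ne_zero h1
  obtain ⟨U, hUo, hUS, hUt⟩ := binv_unit (κ := κ) (χ := χ) hK hχ
  have hU : ∀ s : TA F, (∀ v, s.1.1 v ∈ U v) → ω s = 1 := by
    intro s hs
    apply hcan
    rw [← hω, one_smul]
    exact BorelEig_A_id hK hχ s (hUt s.1 s.2 hs) x
  choose n hn using fun (i : Bool) (v : Pl F) => BorelEig_open i v (U v) (hUo v)
  -- the ray class character
  set c : Bool → Pl F → κ := fun i v => ω (e i v) with hc
  have hray : IsRay S (fun v => if v ∈ S then (1 : κ) else c true v / c false v) := by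
    refine ⟨?_, ∏ v ∈ hK.fin.toFinset, v.asIdeal ^ (max (n true v) (n false v) + 1), ?_, ?_, ?_⟩
    · intro v
      change (if v ∈ S then (1 : κ) else c true v / c false v) ≠ 0
      by_cases hv : v ∈ S
      · rw [if_pos hv]
        exact one_ne_zero
      · rw [if_neg hv]
        exact div_ne_zero (hne0 _) (hne0 _)
    · exact Finset.prod_ne_zero_iff.2 fun v _ => pow_ne_zero _ v.ne_bot
    · intro v hv
      have h1 : v.asIdeal ^ (max (n true v) (n false v) + 1) ∣
          ∏ v ∈ hK.fin.toFinset, v.asIdeal ^ (max (n true v) (n false v) + 1) :=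
        Finset.dvd_prod_of_mem _ ((Set.Finite.mem_toFinset _).2 hv)
      exact (Ideal.le_of_dvd h1).trans (Ideal.pow_le_self (Nat.succ_ne_zero _))
    · intro a ha ham hpos
      have haF : (a : F) ≠ 0 := fun h => ha (by
        apply Subtype.ext
        exact h)
      have hTf : {v : Pl F | v ∉ S ∧ expo v (Ideal.span {a}) ≠ 0}.Finite :=
        (BorelEig_expo_finite ha).subset fun v hv => hv.2
      have key : ∀ i, ω ⟨diag (BorelEig_g i (a : F) haF), BorelEig_TA_g i _ haF⟩ =
          ∏ v ∈ hTf.toFinset, c i v ^ expo v (Ideal.span {a}) := by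
        intro i
        refine BorelEig_prod U ω hmul hone hU i (fun v => expo v (Ideal.span {a}))
          (fun v => Borel_un v (pi v) (pi_ne v)) hTf.toFinset _ ?_ ?_
        · intro v hv
          rw [Set.Finite.mem_toFinset] at hv
          change (BorelEig_D i v (Borel_un v (pi v) (pi_ne v)) ^ expo v (Ideal.span {a}))⁻¹ *
            loc v (BorelEig_g i (a : F) haF) ∈ U v
          rw [BorelEig_loc, ← map_pow, ← map_inv, ← map_mul]
          apply hUS v hv.1
          apply BorelEig_D_GZ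
          rw [Units.val_mul, Units.val_inv_eq_inv_val, Units.val_pow_eq_pow_val, Borel_un_val,
            Borel_un_val, map_mul, map_inv₀, map_pow,
            HeightOneSpectrum.adicCompletion.valued_coe,
            HeightOneSpectrum.adicCompletion.valued_coe, pi_spec, BorelEig_val_expo v ha,
            ← WithZero.exp_nsmul, ← WithZero.exp_neg, ← WithZero.exp_add, ← WithZero.exp_zero]
          congr 1
          simp
        · intro v hv
          change loc v (BorelEig_g i (a : F) haF) ∈ U v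
          rw [BorelEig_loc]
          by_cases hvS : v ∈ S
          · apply hn i v
            have h1 : a - 1 ∈ v.asIdeal ^ (max (n true v) (n false v) + 1) := by
              have h2 : v.asIdeal ^ (max (n true v) (n false v) + 1) ∣
                  ∏ v ∈ hK.fin.toFinset, v.asIdeal ^ (max (n true v) (n false v) + 1) :=
                Finset.dvd_prod_of_mem _ ((Set.Finite.mem_toFinset _).2 hvS)
              exact Ideal.le_of_dvd h2 ham
            have h3 := (v.intValuation_le_pow_iff_mem (a - 1) _).2 h1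
            have h4 : ((Borel_un v (a : F) haF : (Fv v)ˣ) : Fv v) - 1 =
                ((((a - 1 : 𝓞 F) : F) : F) : Fv v) := by
              rw [Borel_un_val]
              have h5 := map_sub (algebraMap F (Fv v)) (a : F) 1
              rw [map_one] at h5
              refine h5.symm.trans ?_
              congr 1
            rw [h4, HeightOneSpectrum.adicCompletion.valued_coe]
            have h6 := v.valuation_of_algebraMap (K := F) (a - 1)
            change v.valuation F (algebraMap (𝓞 F) F (a - 1)) ≤ _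
            rw [h6]
            refine h3.trans (WithZero.exp_le_exp.2 ?_)
            have h7 : n i v ≤ max (n true v) (n false v) := by
              cases i
              · exact le_max_right _ _
              · exact le_max_left _ _
            push_cast
            omega
          · apply hUS v hvS
            apply BorelEig_D_GZ
            have h1 : expo v (Ideal.span {a}) = 0 := by
              by_contra h2
              exact hv ((Set.Finite.mem_toFinset _).2 ⟨hvS, h2⟩)
            rw [Borel_un_val, HeightOneSpectrum.adicCompletion.valued_coe,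
              BorelEig_val_expo v ha, h1]
            simp
      have hval : ∀ i, ω ⟨diag (BorelEig_g i (a : F) haF), BorelEig_TA_g i _ haF⟩ =
          (χ (BorelEig_g i (a : F) haF) : κ) := by
        intro i
        apply hcan
        rw [← hω]
        exact BorelEig_A_diag hK hχ (BorelEig_g_10 i _ haF) (BorelEig_sgn i haF hpos) _ x
      have h1 : ∏ v ∈ hTf.toFinset, c true v ^ expo v (Ideal.span {a}) =
          ∏ v ∈ hTf.toFinset, c false v ^ expo v (Ideal.span {a}) := by
        rw [← key, ← key, hval, hval, BorelEig_chi hχ]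
      rw [finprod_eq_prod_of_mulSupport_subset (s := hTf.toFinset)]
      · have h2 : ∀ v ∈ hTf.toFinset, (if v ∈ S then (1 : κ) else c true v / c false v) ^
            expo v (Ideal.span {a}) = c true v ^ expo v (Ideal.span {a}) /
              c false v ^ expo v (Ideal.span {a}) := by
          intro v hv
          rw [Set.Finite.mem_toFinset] at hv
          rw [if_neg hv.1, div_pow]
        rw [Finset.prod_congr rfl h2, Finset.prod_div_distrib, h1, div_self]
        exact Finset.prod_ne_zero_iff.2 fun v _ => pow_ne_zero _ (hne0 _)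
      · intro v hv
        rw [Set.Finite.coe_toFinset]
        by_contra h3
        apply hv
        change (if v ∈ S then (1 : κ) else c true v / c false v) ^ expo v (Ideal.span {a}) = 1
        by_cases hvS : v ∈ S
        · rw [if_pos hvS, one_pow]
        · have h4 : expo v (Ideal.span {a}) = 0 := by
            by_contra h5
            exact h3 ⟨hvS, h5⟩
          rw [h4, pow_zero]
  have hnorm := isRay_norm hK.fin hpS κ
  refine ⟨_, BorelEig_ray_mul hnorm hray, ?_⟩
  intro v hv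
  obtain ⟨h1, h2⟩ := hxE v hv
  have hN : (Nm v : κ) ≠ 0 := by
    have h3 : (if v ∈ S then (1 : κ) else (Nm v : κ)) ≠ 0 := hnorm.1 v
    rwa [if_neg hv] at h3
  have ht : t v = (Nm v : κ) * c true v + c false v := by
    apply hcan
    rw [← h1, hω, hω, add_smul, mul_smul]
  have hr : r v = c true v * c false v := by
    apply hcan
    rw [← h2]
    have h3 : (⟨single v (sc v), hsc v⟩ : TA F) =
        ⟨(e true v).1 * (e false v).1, Borel_TA_mul (e true v).2 (e false v).2⟩ := by
      apply Subtype.ext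
      change single v (sc v) = single v _ * single v _
      rw [← map_mul]
      congr 1
      have h4 : sc v = loc v (dg (pi v) (pi v) (pi_ne v) (pi_ne v)) := rfl
      rw [h4, Borel_loc_dg]
      change _ = Dv v _ 1 * Dv v 1 _
      rw [Borel_Dv_mul, one_mul, mul_one]
    rw [h3, hω, hmul]
  have hc1 : c true v ≠ 0 := hne0 _
  have hc2 : c false v ≠ 0 := hne0 _
  refine ⟨?_, ?_⟩
  · rw [hr]
    exact mul_ne_zero hc1 hc2
  · simp only [if_neg hv]
    rw [ht, hr]
    field_simp
    ring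

end Pool.Agent.CG2
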