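import Pool.Agent.CG3.SelP
import Pool.Agent.CG3.SelH

/-!
# Equivariant systems of cells
-/

noncomputable section

namespace Pool.Agent.CG2

open Pool.Agent.CG3 CategoryTheory

/-- A family of complexes of cells, indexed by the points of a `Γ`-set `B`, on which the group
`Γ` acts freely, with an invariant orientation of the cells of maximal dimension. -/
structure CellSys (Γ B E : Type) [Group Γ] [MulAction Γ B] [MulAction Γ E] [DecidableEq E] where
  /-- the complex at a point -/
  X : B → Sel.Cx E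
  /-- one less than the size of the largest cells -/
  n0 : ℕ
  base_card : ∀ b, (X b).base.card = n0 + 1
  base_cell : ∀ b, (X b).cell (X b).base
  max : ∀ b R, (X b).cell R → R.card ≤ n0 + 1
  eqv : ∀ (γ : Γ) b R, (X (γ • b)).cell (Sel.mp (MulAction.toPerm γ) R) ↔ (X b).cell R
  free : ∀ (γ : Γ) b R, (X b).cell R → γ • b = b → Sel.mp (MulAction.toPerm γ) R = R → γ = 1
  /-- the orientation -/
  o : B → (Fin (n0 + 1) → E) → ℤ
  o_alt : ∀ b, Sel.Altc (X b).cell (o b)
  o_unit : ∀ b t, Sel.ctc (X b).cell t → o b t * o b t = 1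
  o_eqv : ∀ (γ : Γ) b t, o (γ • b) (fun i => γ • t i) = o b t
  o_cl : ∀ b t, Sel.dc (X b).cell (o b) t = 0

variable {k Γ B E Y W : Type} [CommRing k] [Group Γ] [MulAction Γ B] [MulAction Γ E]
  [DecidableEq E] [MulAction Γ Y] [AddCommGroup W] [Module k W]

open Classical in
/-- The restriction of a function to a fibre of the projection `pr`. -/
def res (pr : Y → B) (b : B) (f : Y → W) : Y → W := fun y => if pr y = b then f y else 0

/-- The module `M` of functions on `Y` is stable under `Γ` and given by a condition on the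
restrictions to the fibres of `pr : Y → B`. -/
structure IsCoef (pr : Y → B) (M : Submodule k (Y → W)) : Prop where
  pr_eqv : ∀ (γ : Γ) y, pr (γ • y) = γ • pr y
  stab : ∀ (γ : Γ), ∀ f ∈ M, (fun y => f (γ⁻¹ • y)) ∈ M
  loc : ∀ f : Y → W, f ∈ M ↔ ∀ b, res pr b f ∈ M

/-- The representation of `Γ` on `M`. -/
abbrev IsCoef.rep {pr : Y → B} {M : Submodule k (Y → W)} (hM : IsCoef (Γ := Γ) pr M) :
    Rep.{0} k Γ := Rep.of (Sel.fRep M hM.stab)

/-- The alternating functions on the cells of size `j` with coefficients in `M`. -/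
def CellSys.En (C : CellSys Γ B E) (pr : Y → B) (M : Submodule k (Y → W)) (j : ℕ) :
    Submodule k (Y × (Fin j → E) → W) where
  carrier := {φ | (∀ y, Sel.Altc (C.X (pr y)).cell fun t => φ (y, t)) ∧
    ∀ t, (fun y => φ (y, t)) ∈ M}
  add_mem' := by
    rintro a b ⟨ha, ha'⟩ ⟨hb, hb'⟩
    exact ⟨fun y => (ha y).add (hb y), fun t => M.add_mem (ha' t) (hb' t)⟩
  zero_mem' := ⟨fun y => Sel.Altc.zero, fun t => M.zero_mem⟩
  smul_mem' := by
    rintro c a ⟨ha, ha'⟩
    refine ⟨fun y => (ha y).map (DistribSMul.toAddMonoidHom W c), fun t => M.smul_mem c (ha' t)⟩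

/-- The `Γ`-invariant elements of `En`. -/
def CellSys.Inv (C : CellSys Γ B E) (pr : Y → B) (M : Submodule k (Y → W)) (j : ℕ) :
    Submodule k (Y × (Fin j → E) → W) where
  carrier := {φ | φ ∈ C.En pr M j ∧ ∀ (γ : Γ) y t, φ (γ • y, γ • t) = φ (y, t)}
  add_mem' := by
    rintro a b ⟨ha, ha'⟩ ⟨hb, hb'⟩
    exact ⟨Submodule.add_mem _ ha hb, fun γ y t => by simp only [Pi.add_apply, ha', hb']⟩
  zero_mem' := ⟨Submodule.zero_mem _, fun γ y t => rfl⟩
  smul_mem' := by
    rintro c a ⟨ha, ha'⟩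
    exact ⟨Submodule.smul_mem _ c ha, fun γ y t => by simp only [Pi.smul_apply, ha']⟩

/-- All cells have at least `c0` elements. -/
def CellSys.Min (C : CellSys Γ B E) (c0 : ℕ) : Prop := ∀ b R, (C.X b).cell R → c0 ≤ R.card

end Pool.Agent.CG2
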