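import Pool.Agent.CG2.Csp5

/-!
# The congruence subgroup argument: the end
-/

noncomputable section

namespace Pool.Agent.CG2

open NumberField IsDedekindDomain Matrix

variable {F : Type} [Field F] [NumberField F]

/-- The property of `csp_lite`. -/
def CspEnd_Good (n : Md F) (p : ℕ) (δ : G F) : Prop := ∃ e' : Md F,
    ∀ (V : Type) [AddCommGroup V], (∀ x : V, p • x = 0) → ∀ (Γ : Subgroup (G F)) (f : G F → V),
      Gam n ≤ Γ → AddOn Γ f → ∀ g ∈ Gam e',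
        g ∈ Γ ∧ δ * g * δ⁻¹ ∈ Γ ∧ f (δ * g * δ⁻¹) = f g

theorem CspEnd_Good.mul {n : Md F} {p : ℕ} {a b : G F} (ha : CspEnd_Good n p a)
    (hb : CspEnd_Good n p b) : CspEnd_Good n p (a * b) := by
  obtain ⟨e₁, h₁⟩ := ha
  obtain ⟨e₂, h₂⟩ := hb
  obtain ⟨e₃, h₃⟩ := Gam_conj b e₁
  refine ⟨e₂ + e₃, ?_⟩
  intro V _ hV Γ f hΓ hf g hg
  have hg2 : g ∈ Gam e₂ := Gam_mono (fun w => by simp) hg
  have hg3 : g ∈ Gam e₃ := Gam_mono (fun w => by simp) hg
  obtain ⟨h4, h5, h6⟩ := h₂ V hV Γ f hΓ hf g hg2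
  obtain ⟨h7, h8, h9⟩ := h₁ V hV Γ f hΓ hf _ (h₃ g hg3)
  have h10 : a * b * g * (a * b)⁻¹ = a * (b * g * b⁻¹) * a⁻¹ := by group
  rw [h10]
  exact ⟨h4, h8, h9.trans h6⟩

theorem CspEnd_Good.inv {n : Md F} {p : ℕ} {a : G F} (ha : CspEnd_Good n p a) :
    CspEnd_Good n p a⁻¹ := by
  obtain ⟨e₁, h₁⟩ := ha
  obtain ⟨e₃, h₃⟩ := Gam_conj a⁻¹ e₁
  refine ⟨e₃, ?_⟩
  intro V _ hV Γ f hΓ hf g hg
  obtain ⟨h7, h8, h9⟩ := h₁ V hV Γ f hΓ hf _ (h₃ g hg)
  have h10 : a * (a⁻¹ * g * a⁻¹⁻¹) * a⁻¹ = g := by group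
  rw [h10] at h8 h9
  exact ⟨h8, h7, h9.symm⟩

theorem CspEnd_Good.of_mem {n : Md F} {p : ℕ} {a : G F} (ha : a ∈ Gam n) :
    CspEnd_Good n p a := by
  refine ⟨n, ?_⟩
  intro V _ hV Γ f hΓ hf g hg
  have h1 := hΓ ha
  have h2 := hΓ hg
  refine ⟨h2, Γ.mul_mem (Γ.mul_mem h1 h2) (Γ.inv_mem h1), ?_⟩
  rw [hf _ (Γ.mul_mem h1 h2) _ (Γ.inv_mem h1), hf _ h1 _ h2, hf.inv h1]
  abel

theorem CspEnd_Ee_mem {n : Md F} {x : F} (hx : x ∈ R n.z) : Ee x ∈ Gam n := by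
  have key : ∀ y ∈ R n.z, ∀ i j, ((Ee y : Matrix (Fin 2) (Fin 2) F) - 1) i j ∈ R n.z := by
    intro y hy i j
    rw [Ee_val]
    fin_cases i <;> fin_cases j
    · simp
    · simpa using hy
    · simp
    · simp
  refine ⟨key x hx, ?_⟩
  rw [← Ee_neg]
  exact key _ ((R n.z).neg_mem hx)

/-- the Weyl element -/
def CspEnd_w : G F := GeneralLinearGroup.mkOfDetNeZero !![0, 1; -1, 0] (by
  simp [Matrix.det_fin_two])

theorem CspEnd_w_val : ((CspEnd_w : G F) : Matrix (Fin 2) (Fin 2) F) = !![0, 1; -1, 0] := rfl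

theorem CspEnd_w_inv : (((CspEnd_w : G F)⁻¹ : G F) : Matrix (Fin 2) (Fin 2) F) =
    !![0, -1; 1, 0] := by
  have h : (CspEnd_w : G F)⁻¹ = GeneralLinearGroup.mkOfDetNeZero !![0, -1; 1, 0] (by
      simp [Matrix.det_fin_two]) := by
    rw [inv_eq_iff_mul_eq_one]
    apply Units.ext
    rw [Units.val_mul, CspEnd_w_val, Units.val_one, Matrix.one_fin_two]
    change !![(0 : F), 1; -1, 0] * !![(0 : F), -1; 1, 0] = _
    simp
  rw [h]
  rfl

theorem CspEnd_w_conj {n : Md F} {g : G F} (hg : g ∈ Gam n) :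
    CspEnd_w⁻¹ * g * CspEnd_w ∈ Gam n := by
  have key : ∀ A : Matrix (Fin 2) (Fin 2) F, (∀ i j, (A - 1) i j ∈ R n.z) →
      ∀ i j, ((((CspEnd_w : G F)⁻¹ : G F) : Matrix (Fin 2) (Fin 2) F) * A *
        ((CspEnd_w : G F) : Matrix (Fin 2) (Fin 2) F) - 1) i j ∈ R n.z := by
    intro A hA i j
    have h1 : (((CspEnd_w : G F)⁻¹ : G F) : Matrix (Fin 2) (Fin 2) F) *
        ((CspEnd_w : G F) : Matrix (Fin 2) (Fin 2) F) = 1 :=
      congrArg Units.val (inv_mul_cancel (CspEnd_w : G F))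
    have h2 : (((CspEnd_w : G F)⁻¹ : G F) : Matrix (Fin 2) (Fin 2) F) * A *
        ((CspEnd_w : G F) : Matrix (Fin 2) (Fin 2) F) - 1 =
        (((CspEnd_w : G F)⁻¹ : G F) : Matrix (Fin 2) (Fin 2) F) * (A - 1) *
        ((CspEnd_w : G F) : Matrix (Fin 2) (Fin 2) F) := by
      rw [Matrix.mul_sub, Matrix.sub_mul, Matrix.mul_one, h1]
    rw [h2, CspEnd_w_inv, CspEnd_w_val]
    set B := A - 1 with hB
    have hB' : B = !![B 0 0, B 0 1; B 1 0, B 1 1] := Matrix.eta_fin_two B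
    rw [hB']
    fin_cases i <;> fin_cases j
    · simpa using hA 1 1
    · simpa using (R n.z).neg_mem (hA 1 0)
    · simpa using (R n.z).neg_mem (hA 0 1)
    · simpa using hA 0 0
  refine ⟨?_, ?_⟩
  · rw [Units.val_mul, Units.val_mul]
    exact key _ hg.1
  · have h3 : (CspEnd_w⁻¹ * g * CspEnd_w)⁻¹ = CspEnd_w⁻¹ * g⁻¹ * CspEnd_w := by group
    rw [h3, Units.val_mul, Units.val_mul]
    exact key _ hg.2

theorem CspEnd_w_conj' {n : Md F} {g : G F} (hg : g ∈ Gam n) :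
    CspEnd_w * g * CspEnd_w⁻¹ ∈ Gam n := by
  have h1 : (CspEnd_w : G F) * (CspEnd_w : G F) = (-1 : G F) := by
    apply Units.ext
    rw [Units.val_mul, CspEnd_w_val, Units.val_neg, Units.val_one, Matrix.one_fin_two]
    simp
  have h2 : (CspEnd_w : G F)⁻¹ = - (CspEnd_w : G F) := by
    rw [inv_eq_iff_mul_eq_one, mul_neg, h1, neg_neg]
  have h3 : (CspEnd_w : G F) * g * CspEnd_w⁻¹ = CspEnd_w⁻¹ * g * CspEnd_w := by
    rw [h2, mul_neg, neg_mul, neg_mul]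
  rw [h3]
  exact CspEnd_w_conj hg

theorem CspEnd_Good.weyl {n : Md F} {p : ℕ} {a : G F} (ha : CspEnd_Good n p a) :
    CspEnd_Good n p (CspEnd_w * a * CspEnd_w⁻¹) := by
  obtain ⟨e₁, h₁⟩ := ha
  refine ⟨e₁, ?_⟩
  intro V _ hV Γ f hΓ hf g hg
  let Γ' : Subgroup (G F) := Γ.comap (MulAut.conj (CspEnd_w : G F)).toMonoidHom
  have hmem : ∀ x, x ∈ Γ' ↔ CspEnd_w * x * CspEnd_w⁻¹ ∈ Γ := fun x => Iff.rfl
  have h2 := h₁ V hV Γ' (fun x => f (CspEnd_w * x * CspEnd_w⁻¹)) ?_ ?_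
    (CspEnd_w⁻¹ * g * CspEnd_w) (CspEnd_w_conj hg)
  · obtain ⟨h3, h4, h5⟩ := h2
    rw [hmem] at h3 h4
    have e1 : CspEnd_w * (CspEnd_w⁻¹ * g * CspEnd_w) * CspEnd_w⁻¹ = g := by group
    have e2 : CspEnd_w * (a * (CspEnd_w⁻¹ * g * CspEnd_w) * a⁻¹) * CspEnd_w⁻¹ =
        CspEnd_w * a * CspEnd_w⁻¹ * g * (CspEnd_w * a * CspEnd_w⁻¹)⁻¹ := by group
    rw [e1] at h3 h5
    rw [e2] at h4 h5
    exact ⟨h3, h4, h5⟩
  · intro x hx
    rw [hmem]
    exact hΓ (CspEnd_w_conj' hx)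
  · intro x hx y hy
    rw [hmem] at hx hy
    have e3 : CspEnd_w * (x * y) * CspEnd_w⁻¹ =
        (CspEnd_w * x * CspEnd_w⁻¹) * (CspEnd_w * y * CspEnd_w⁻¹) := by group
    change f (CspEnd_w * (x * y) * CspEnd_w⁻¹) = _
    rw [e3, hf _ hx _ hy]

/-- the matrix `diag(1, u)` -/
def CspEnd_D (u : F) (hu : u ≠ 0) : G F := GeneralLinearGroup.mkOfDetNeZero !![1, 0; 0, u] (by
  simp [Matrix.det_fin_two, hu])

theorem CspEnd_D_val (u : F) (hu : u ≠ 0) :
    ((CspEnd_D u hu : G F) : Matrix (Fin 2) (Fin 2) F) = !![1, 0; 0, u] := rfl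

theorem CspEnd_D_inv (u : F) (hu : u ≠ 0) :
    (CspEnd_D u hu)⁻¹ = CspEnd_D u⁻¹ (inv_ne_zero hu) := by
  rw [inv_eq_iff_mul_eq_one]
  apply Units.ext
  rw [Units.val_mul, CspEnd_D_val, CspEnd_D_val, Units.val_one, Matrix.one_fin_two]
  simp [hu]

theorem CspEnd_D_mem {n : Md F} {u : F} (hu : u ≠ 0) (h1 : u - 1 ∈ R n.z)
    (h2 : u⁻¹ - 1 ∈ R n.z) : CspEnd_D u hu ∈ Gam n := by
  have key : ∀ (y : F) (hy : y ≠ 0), y - 1 ∈ R n.z →
      ∀ i j, ((CspEnd_D y hy : Matrix (Fin 2) (Fin 2) F) - 1) i j ∈ R n.z := by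
    intro y hy0 hy i j
    rw [CspEnd_D_val]
    fin_cases i <;> fin_cases j
    · simp
    · simp
    · simp
    · simpa using hy
  refine ⟨key _ _ h1, ?_⟩
  rw [CspEnd_D_inv]
  exact key _ _ h2

theorem CspEnd_det {n : Md F} {A : Matrix (Fin 2) (Fin 2) F}
    (hA : ∀ i j, (A - 1) i j ∈ R n.z) : A.det - 1 ∈ R n.z := by
  have h00 := hA 0 0
  have h01 := hA 0 1
  have h10 := hA 1 0
  have h11 := hA 1 1
  simp only [Matrix.sub_apply, Matrix.one_apply_eq, Matrix.one_apply_ne, ne_eq,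
    Fin.isValue, zero_ne_one, not_false_eq_true, one_ne_zero, sub_zero] at h00 h01 h10 h11
  have h1 : A.det - 1 = (A 0 0 - 1) * (A 1 1 - 1) + (A 0 0 - 1) + (A 1 1 - 1) -
      A 0 1 * A 1 0 := by
    rw [Matrix.det_fin_two]; ring
  rw [h1]
  have hm : ∀ x ∈ R n.z, ∀ y ∈ R n.z, x * y ∈ R n.z := fun x hx y hy w =>
    ((hx w).mul (hy w)).mono (by
      have : (0 : ℤ) ≤ n.z w := Int.natCast_nonneg _
      omega)
  exact (R n.z).sub_mem ((R n.z).add_mem ((R n.z).add_mem (hm _ h00 _ h11) h00) h11)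
    (hm _ h01 _ h10)

/-- from determinant one to all determinants -/
theorem CspEnd_A0 (hF : TwoPl F) (n : Md F) (p : ℕ) (x : F) (e' : Md F)
    (h : ∀ (V : Type) [AddCommGroup V], (∀ x : V, p • x = 0) →
      ∀ (Γ : Subgroup (G F)) (f : G F → V),
      Gam n ≤ Γ → AddOn Γ f → ∀ g ∈ Gam e', (g : Matrix (Fin 2) (Fin 2) F).det = 1 →
        g ∈ Γ ∧ Ee x * g * Ee (-x) ∈ Γ ∧ f (Ee x * g * Ee (-x)) = f g) :
    CspEnd_Good n p (Ee x) := by
  obtain ⟨n'', hn'', hA1⟩ := csp_A1 hF n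
  obtain ⟨b, hb⟩ := CspUnit_bd x
  refine ⟨e' + n + n'' + b, ?_⟩
  intro V _ hV Γ f hΓ hf g hg
  have hz : ∀ w, (e' + n + n'' + b).z w = e'.z w + n.z w + n''.z w + b w := by
    intro w
    simp only [Md.z, Finsupp.add_apply]
    push_cast
    ring
  have hpos : ∀ (e : Md F) w, (0 : ℤ) ≤ e.z w := fun e w => Int.natCast_nonneg _
  have hle1 : e' ≤ e' + n + n'' + b := fun w => by
    simp only [Finsupp.add_apply]; omega
  have hle2 : n ≤ e' + n + n'' + b := fun w => by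
    simp only [Finsupp.add_apply]; omega
  set E : Md F := e' + n + n'' + b with hE
  -- the determinant
  set u : F := (g : Matrix (Fin 2) (Fin 2) F).det with hu
  have hdet1 : (g : Matrix (Fin 2) (Fin 2) F).det *
      ((g⁻¹ : G F) : Matrix (Fin 2) (Fin 2) F).det = 1 := by
    rw [← Matrix.det_mul]
    have : (g : Matrix (Fin 2) (Fin 2) F) * ((g⁻¹ : G F) : Matrix (Fin 2) (Fin 2) F) = 1 :=
      congrArg Units.val (mul_inv_cancel g)
    rw [this, Matrix.det_one]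
  have hu0 : u ≠ 0 := left_ne_zero_of_mul_eq_one hdet1
  have huinv : u⁻¹ = ((g⁻¹ : G F) : Matrix (Fin 2) (Fin 2) F).det :=
    (eq_inv_of_mul_eq_one_right hdet1).symm
  have hu1 : u - 1 ∈ R E.z := CspEnd_det hg.1
  have hu2 : u⁻¹ - 1 ∈ R E.z := by rw [huinv]; exact CspEnd_det hg.2
  have hd : CspEnd_D u hu0 ∈ Gam E := CspEnd_D_mem hu0 hu1 hu2
  set g₁ : G F := g * (CspEnd_D u hu0)⁻¹ with hg₁
  have hg₁E : g₁ ∈ Gam E := (Gam E).mul_mem hg ((Gam E).inv_mem hd)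
  have hg₁det : (g₁ : Matrix (Fin 2) (Fin 2) F).det = 1 := by
    rw [hg₁, Units.val_mul, Matrix.det_mul, CspEnd_D_inv, CspEnd_D_val, ← hu]
    simp [Matrix.det_fin_two, hu0]
  obtain ⟨h3, h4, h5⟩ := h V hV Γ f hΓ hf g₁ (Gam_mono hle1 hg₁E) hg₁det
  have hdΓ : CspEnd_D u hu0 ∈ Γ := hΓ (Gam_mono hle2 hd)
  -- the unipotent factor
  have hz1 : x * (1 - u⁻¹) ∈ R n''.z := by
    intro w
    have h6 := (hu2 w).neg
    have h7 := (hb w).mul h6
    have h8 : x * (1 - u⁻¹) = x * -(u⁻¹ - 1) := by ring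
    rw [h8]
    refine h7.mono ?_
    rw [hz]
    have := hpos e' w
    have := hpos n w
    omega
  obtain ⟨⟨h9, h10⟩, -⟩ := hA1 V Γ f hf 1 (fun g hg => by
    rw [one_mul, inv_one, mul_one]; exact hΓ hg) _ hz1
  rw [one_mul, inv_one, mul_one] at h9 h10
  have hfac : Ee x * g * Ee (-x) = (Ee x * g₁ * Ee (-x)) * Ee (x * (1 - u⁻¹)) *
      CspEnd_D u hu0 := by
    have h11 : Ee (-x) * Ee (x * (1 - u⁻¹)) * CspEnd_D u hu0 = CspEnd_D u hu0 * Ee (-x) := by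
      rw [← Ee_add]
      apply Units.ext
      rw [Units.val_mul, Units.val_mul, CspEnd_D_val, Ee_val, Ee_val]
      ext i j
      fin_cases i <;> fin_cases j
      · simp
      · simp
        field_simp
        ring
      · simp
      · simp
    calc Ee x * g * Ee (-x) = Ee x * g₁ * (CspEnd_D u hu0 * Ee (-x)) := by rw [hg₁]; group
      _ = _ := by rw [← h11]; group
  have hgg : g = g₁ * CspEnd_D u hu0 := by rw [hg₁]; group
  have hmem : Ee x * g * Ee (-x) ∈ Γ := by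
    rw [hfac]
    exact Γ.mul_mem (Γ.mul_mem h4 h9) hdΓ
  have hval : f (Ee x * g * Ee (-x)) = f g := by
    rw [hfac, hf _ (Γ.mul_mem h4 h9) _ hdΓ, hf _ h4 _ h9, h5, h10, add_zero]
    conv_rhs => rw [hgg, hf _ h3 _ hdΓ]
  rw [Ee_neg] at hmem hval
  exact ⟨hΓ (Gam_mono hle2 hg), hmem, hval⟩

/-- decomposition of an element of `F` into parts with poles at one place -/
theorem CspEnd_split (m : Md F) (x : F) : ∃ (T : Finset (Pl F)) (y : Pl F → F) (x₀ : F),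
    x₀ ∈ R m.z ∧ (∀ v ∈ T, ∀ w, w ≠ v → Ge w (m.z w) (y v)) ∧ x = x₀ + ∑ v ∈ T, y v := by
  classical
  obtain ⟨b, hb⟩ := CspUnit_bd x
  let T : Finset (Pl F) := b.support ∪ m.support
  have hT : ∀ w, w ∉ T → Ge w (m.z w) x ∧ m.z w = 0 := by
    intro w hw
    have h1 : b w = 0 := by
      by_contra h
      exact hw (Finset.mem_union_left _ (Finsupp.mem_support_iff.2 h))
    have h2 : m w = 0 := by
      by_contra h
      exact hw (Finset.mem_union_right _ (Finsupp.mem_support_iff.2 h))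
    have h3 : m.z w = 0 := by simp [Md.z, h2]
    refine ⟨?_, h3⟩
    rw [h3]
    have := hb w
    rw [h1] at this
    simpa using this
  have hex : ∀ v : Pl F, ∃ y : F, (∀ w ∈ T, Ge w (m.z w) (y - if w = v then x else 0)) ∧
      ∀ w, w ∉ T → Ge w 0 y := fun v =>
    approx T (fun w => if w = v then x else 0) (fun w => m.z w)
  choose y hy1 hy2 using hex
  have hy : ∀ v w, w ≠ v → Ge w (m.z w) (y v) := by
    intro v w hwv
    by_cases hw : w ∈ T
    · have := hy1 v w hw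
      rwa [if_neg hwv, sub_zero] at this
    · rw [(hT w hw).2]
      exact hy2 v w hw
  refine ⟨T, y, x - ∑ v ∈ T, y v, ?_, fun v _ w hw => hy v w hw, by ring⟩
  intro w
  by_cases hw : w ∈ T
  · rw [← Finset.add_sum_erase T y hw]
    have h1 := (hy1 w w hw).neg
    rw [if_pos rfl, neg_sub] at h1
    have h2 : Ge w (m.z w) (∑ v ∈ T.erase w, y v) :=
      Ge.sum fun v hv => hy v w (Ne.symm (Finset.ne_of_mem_erase hv))
    have := h1.sub h2
    convert this using 1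
    ring
  · refine (hT w hw).1.sub (Ge.sum fun v hv => hy v w ?_)
    rintro rfl
    exact hw hv

/-- all upper unipotent elements are good -/
theorem CspEnd_Ee (hF : TwoPl F) (n : Md F) (p : ℕ) (hp : 0 < p) (x : F) :
    CspEnd_Good n p (Ee x) := by
  classical
  obtain ⟨m₁, hm₁, h5⟩ := csp_A5 hF n p hp
  have hone : ∀ (v : Pl F) (x : F), (∀ w, w ≠ v → Ge w (m₁.z w) x) →
      CspEnd_Good n p (Ee x) := by
    intro v x hx
    obtain ⟨e', he'⟩ := h5 v x hx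
    exact CspEnd_A0 hF n p x e' he'
  obtain ⟨T, y, x₀, hx₀, hy, hx⟩ := CspEnd_split m₁ x
  have hx₀' : CspEnd_Good n p (Ee x₀) := by
    refine CspEnd_Good.of_mem (CspEnd_Ee_mem ?_)
    refine R_mono (fun w => ?_) hx₀
    exact Int.ofNat_le.2 (hm₁ w)
  have hsum : ∀ S : Finset (Pl F), S ⊆ T → CspEnd_Good n p (Ee (∑ v ∈ S, y v)) := by
    intro S
    induction S using Finset.induction_on with
    | empty =>
      intro _
      rw [Finset.sum_empty]
      exact CspEnd_Good.of_mem (CspEnd_Ee_mem (R n.z).zero_mem)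
    | insert a S ha ih =>
      intro hS
      rw [Finset.sum_insert ha, Ee_add]
      exact (hone a (y a) (hy a (hS (Finset.mem_insert_self a S)))).mul
        (ih ((Finset.subset_insert a S).trans hS))
  rw [hx, Ee_add]
  exact hx₀'.mul (hsum T (Finset.Subset.refl T))

theorem CspEnd_El (hF : TwoPl F) (n : Md F) (p : ℕ) (hp : 0 < p) (x : F) :
    CspEnd_Good n p (El x) := by
  have h1 : El x = CspEnd_w * Ee (-x) * CspEnd_w⁻¹ := by
    apply Units.ext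
    rw [Units.val_mul, Units.val_mul, CspEnd_w_inv, CspEnd_w_val, Ee_val, El_val]
    simp
  rw [h1]
  exact (CspEnd_Ee hF n p hp (-x)).weyl

/-- **A** Homomorphisms from arithmetic subgroups of `GL₂(F)` to groups killed by `p` are, on
small congruence subgroups, invariant under conjugation by `SL₂(F)`. -/
theorem csp_lite (hF : TwoPl F) (n : Md F) (p : ℕ) (hp : 0 < p) (δ : G F)
    (hδ : (δ : Matrix (Fin 2) (Fin 2) F).det = 1) : ∃ e' : Md F,
    ∀ (V : Type) [AddCommGroup V], (∀ x : V, p • x = 0) → ∀ (Γ : Subgroup (G F)) (f : G F → V),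
      Gam n ≤ Γ → AddOn Γ f → ∀ g ∈ Gam e',
        g ∈ Γ ∧ δ * g * δ⁻¹ ∈ Γ ∧ f (δ * g * δ⁻¹) = f g := by
  have key : ∀ δ : G F, (δ : Matrix (Fin 2) (Fin 2) F).det = 1 →
      (δ : Matrix (Fin 2) (Fin 2) F) 1 0 ≠ 0 → CspEnd_Good n p δ := by
    intro δ hδ hc
    set a := (δ : Matrix (Fin 2) (Fin 2) F) 0 0 with ha
    set b := (δ : Matrix (Fin 2) (Fin 2) F) 0 1 with hb
    set c := (δ : Matrix (Fin 2) (Fin 2) F) 1 0 with hc'
    set d := (δ : Matrix (Fin 2) (Fin 2) F) 1 1 with hd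
    have hdet : a * d - b * c = 1 := by
      rw [ha, hb, hc', hd, ← Matrix.det_fin_two, hδ]
    have h1 : δ = Ee ((a - 1) / c) * El c * Ee ((d - 1) / c) := by
      apply Units.ext
      rw [Units.val_mul, Units.val_mul, Ee_val, Ee_val, El_val, Matrix.eta_fin_two
        (δ : Matrix (Fin 2) (Fin 2) F), ← ha, ← hb, ← hc', ← hd]
      ext i j
      fin_cases i <;> fin_cases j
      · simp [hc]
      · simp
        field_simp
        linear_combination (-1 : F) * hdet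
      · simp
      · simp [hc]
        field_simp
        ring
    rw [h1]
    exact ((CspEnd_Ee hF n p hp _).mul (CspEnd_El hF n p hp _)).mul (CspEnd_Ee hF n p hp _)
  by_cases hc : (δ : Matrix (Fin 2) (Fin 2) F) 1 0 = 0
  · have hd : (δ : Matrix (Fin 2) (Fin 2) F) 1 1 ≠ 0 := by
      intro hd
      rw [Matrix.det_fin_two, hc, hd] at hδ
      simp at hδ
    have h2 : CspEnd_Good n p (δ * El 1) := by
      apply key
      · rw [Units.val_mul, Matrix.det_mul, hδ, det_El, one_mul]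
      · rw [Units.val_mul, El_val, Matrix.mul_apply, Fin.sum_univ_two, hc]
        simpa using hd
    have h3 : δ = δ * El 1 * El (-1) := by
      rw [mul_assoc, ← El_add, add_neg_cancel, El_zero, mul_one]
    have h4 : CspEnd_Good n p δ := by
      rw [h3]
      exact h2.mul (CspEnd_El hF n p hp _)
    exact h4
  · exact key δ hδ hc

end Pool.Agent.CG2
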