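import Pool.Agent.CG2.Defs

/-!
# The action of `GL₂(F)` on `Pt` and on the quotient by a subgroup of `GL₂(𝔸_f)`
-/

noncomputable section

namespace Pool.Agent.CG2

open NumberField IsDedekindDomain Matrix

variable {F : Type} [Field F] [NumberField F]

instance actPt : MulAction (G F) (Pt F) where
  smul γ y := act γ y
  one_smul y := act_one y
  mul_smul a b y := act_mul a b y

theorem smul_pt (γ : G F) (y : Pt F) : γ • y = act γ y := rfl

/-- Right cosets under `K`. -/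
def ptSetoid (K : Subgroup (GA F)) : Setoid (Pt F) where
  r y y' := ∃ κ ∈ K, y' = rt y κ
  iseqv :=
    { refl := fun y => ⟨1, K.one_mem, (rt_one y).symm⟩
      symm := by
        rintro y y' ⟨κ, hκ, rfl⟩
        refine ⟨κ⁻¹, K.inv_mem hκ, ?_⟩
        rw [← rt_mul, mul_inv_cancel, rt_one]
      trans := by
        rintro y y' y'' ⟨κ, hκ, rfl⟩ ⟨κ', hκ', rfl⟩
        exact ⟨κ * κ', K.mul_mem hκ hκ', (rt_mul y κ κ').symm⟩ }

/-- The set of the cosets `y K`. -/
def PtK (K : Subgroup (GA F)) : Type := Quotient (ptSetoid K)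

/-- The coset of `y`. -/
def mkK (K : Subgroup (GA F)) (y : Pt F) : PtK K := Quotient.mk (ptSetoid K) y

theorem mkK_eq {K : Subgroup (GA F)} {y y' : Pt F} :
    mkK K y = mkK K y' ↔ ∃ κ ∈ K, y' = rt y κ := Quotient.eq

theorem mkK_rt {K : Subgroup (GA F)} (y : Pt F) {κ : GA F} (hκ : κ ∈ K) :
    mkK K (rt y κ) = mkK K y := (mkK_eq.2 ⟨κ, hκ, rfl⟩).symm

theorem mkK_surj {K : Subgroup (GA F)} (b : PtK K) : ∃ y, mkK K y = b := Quotient.exists_rep b

instance actPtK (K : Subgroup (GA F)) : MulAction (G F) (PtK K) where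
  smul γ := Quotient.map (act γ) (by
    rintro y y' ⟨κ, hκ, rfl⟩
    exact ⟨κ, hκ, act_rt γ y κ⟩)
  one_smul b := by
    obtain ⟨y, rfl⟩ := mkK_surj b
    change mkK K (act 1 y) = _
    rw [act_one]
  mul_smul γ δ b := by
    obtain ⟨y, rfl⟩ := mkK_surj b
    change mkK K (act (γ * δ) y) = mkK K (act γ (act δ y))
    rw [act_mul]

theorem smul_mkK {K : Subgroup (GA F)} (γ : G F) (y : Pt F) : γ • mkK K y = mkK K (γ • y) := rfl

/-- A representative of a coset. -/
def outK {K : Subgroup (GA F)} (b : PtK K) : Pt F := Quotient.out b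

theorem mkK_outK {K : Subgroup (GA F)} (b : PtK K) : mkK K (outK b) = b := Quotient.out_eq b

/-- The principal congruence subgroup of level `N` of `GL₂(Ô)`. -/
def KN (F : Type) [Field F] [NumberField F] (N : ℕ) : Subgroup (GA F) where
  carrier := {g | ∀ v : Pl F, g.1 v ∈ GZ v ∧ ∀ i j,
    Valued.v (((g.1 v : GQ v) : Matrix (Fin 2) (Fin 2) (Fv v)) i j -
      (1 : Matrix (Fin 2) (Fin 2) (Fv v)) i j) ≤ Valued.v ((N : ℕ) : Fv v)}
  mul_mem' := by
    intro a b ha hb v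
    obtain ⟨ha1, ha2⟩ := ha v
    obtain ⟨hb1, hb2⟩ := hb v
    refine ⟨(GZ v).mul_mem ha1 hb1, fun i j => ?_⟩
    set A : Matrix (Fin 2) (Fin 2) (Fv v) := ((a.1 v : GQ v) : Matrix (Fin 2) (Fin 2) (Fv v))
    set B : Matrix (Fin 2) (Fin 2) (Fv v) := ((b.1 v : GQ v) : Matrix (Fin 2) (Fin 2) (Fv v))
    have h1 : (((a * b : GA F).1 v : GQ v) : Matrix (Fin 2) (Fin 2) (Fv v)) i j -
        (1 : Matrix (Fin 2) (Fin 2) (Fv v)) i j = (∑ k, (A i k - (1 : Matrix _ _ _) i k) * B k j) +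
          (B i j - (1 : Matrix (Fin 2) (Fin 2) (Fv v)) i j) := by
      have h2 : (((a * b : GA F).1 v : GQ v) : Matrix (Fin 2) (Fin 2) (Fv v)) = A * B := rfl
      rw [h2, Matrix.mul_apply]
      have h3 : ∑ k, (A i k - (1 : Matrix (Fin 2) (Fin 2) (Fv v)) i k) * B k j =
          ∑ k, A i k * B k j - B i j := by
        simp only [sub_mul, Finset.sum_sub_distrib]
        congr 1
        rw [← Matrix.mul_apply, Matrix.one_mul]
      rw [h3]
      ring
    rw [h1]
    refine (Valuation.map_add _ _ _).trans (max_le ?_ (hb2 i j))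
    refine Valuation.map_sum_le _ fun k _ => ?_
    rw [map_mul]
    calc _ ≤ Valued.v ((N : ℕ) : Fv v) * 1 :=
          mul_le_mul' (ha2 i k) (((mem_GZ_iff v _).1 hb1).1 k j)
      _ = _ := mul_one _
  one_mem' := by
    intro v
    refine ⟨(GZ v).one_mem, fun i j => ?_⟩
    have : (((1 : GA F).1 v : GQ v) : Matrix (Fin 2) (Fin 2) (Fv v)) i j -
        (1 : Matrix (Fin 2) (Fin 2) (Fv v)) i j = 0 := sub_self _
    rw [this, map_zero]
    exact zero_le
  inv_mem' := by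
    intro a ha v
    obtain ⟨ha1, ha2⟩ := ha v
    refine ⟨(GZ v).inv_mem ha1, fun i j => ?_⟩
    set A : Matrix (Fin 2) (Fin 2) (Fv v) := ((a.1 v : GQ v) : Matrix (Fin 2) (Fin 2) (Fv v))
    set B : Matrix (Fin 2) (Fin 2) (Fv v) := (((a.1 v)⁻¹ : GQ v) : Matrix (Fin 2) (Fin 2) (Fv v))
    have h1 : (((a⁻¹ : GA F).1 v : GQ v) : Matrix (Fin 2) (Fin 2) (Fv v)) i j -
        (1 : Matrix (Fin 2) (Fin 2) (Fv v)) i j =
          - ∑ k, B i k * (A k j - (1 : Matrix _ _ _) k j) := by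
      have h2 : (((a⁻¹ : GA F).1 v : GQ v) : Matrix (Fin 2) (Fin 2) (Fv v)) = B := rfl
      have h4 : B * A = 1 := congrArg Units.val (inv_mul_cancel (a.1 v))
      have h3 : ∑ k, B i k * (A k j - (1 : Matrix (Fin 2) (Fin 2) (Fv v)) k j) =
          (1 : Matrix (Fin 2) (Fin 2) (Fv v)) i j - B i j := by
        simp only [mul_sub, Finset.sum_sub_distrib]
        rw [← Matrix.mul_apply, ← Matrix.mul_apply, Matrix.mul_one, h4]
      rw [h2, h3]
      ring
    rw [h1, Valuation.map_neg]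
    refine Valuation.map_sum_le _ fun k _ => ?_
    rw [map_mul]
    calc _ ≤ 1 * Valued.v ((N : ℕ) : Fv v) :=
          mul_le_mul' (((mem_GZ_iff v _).1 ha1).2 i k) (ha2 k j)
      _ = _ := one_mul _

end Pool.Agent.CG2
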