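import Pool.Agent.CG2.CocDefs
import Pool.Agent.CG2.PtK

/-!
# Cocycles which vanish on the stabilisers are coboundaries
-/

noncomputable section

namespace Pool.Agent.CG2

open NumberField IsDedekindDomain Matrix

variable {F : Type} [Field F] [NumberField F] {V : Type} [AddCommGroup V]

theorem orbit_tw {K : Subgroup (GA F)} {η : G F →* AddMonoid.End V} {c : G F → Pt F → V}
    (hc : Coc η c) (hcK : ∀ γ, RInv K (c γ))
    (hs : ∀ (γ : G F) (y : Pt F), ∀ κ ∈ K, act γ y = rt y κ → c γ y = 0) :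
    ∃ f : Pt F → V, RInv K f ∧ ∀ γ y, c γ y = η γ (f (act γ⁻¹ y)) - f y := by
  classical
  let r : PtK K → PtK K := fun b =>
    (Quotient.mk (MulAction.orbitRel (G F) (PtK K)) b).out
  have hr : ∀ b, ∃ g : G F, g • r b = b := by
    intro b
    have h1 : (MulAction.orbitRel (G F) (PtK K)).r (r b) b :=
      Quotient.exact (Quotient.out_eq (Quotient.mk (MulAction.orbitRel (G F) (PtK K)) b))
    have h2 : r b ∈ MulAction.orbit (G F) b := h1
    obtain ⟨g, hg⟩ := h2
    refine ⟨g⁻¹, ?_⟩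
    rw [← hg]
    exact inv_smul_smul g b
  have hr' : ∀ (g : G F) b, r (g • b) = r b := by
    intro g b
    have h1 : Quotient.mk (MulAction.orbitRel (G F) (PtK K)) (g • b) =
        Quotient.mk (MulAction.orbitRel (G F) (PtK K)) b := Quotient.sound ⟨g, rfl⟩
    simp only [r, h1]
  choose g hg using hr
  have key : ∀ (h : G F) (y : Pt F), h • r (mkK K y) = mkK K y → c h y = c (g (mkK K y)) y := by
    intro h y hh
    set b := g (mkK K y) with hb
    have h1 : h = b * (b⁻¹ * h) := by group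
    have h2 : b • r (mkK K y) = mkK K y := hg _
    have h3 : mkK K (act b⁻¹ y) = r (mkK K y) := by
      have h4 : mkK K (act b⁻¹ y) = b⁻¹ • mkK K y := rfl
      rw [h4, inv_smul_eq_iff, h2]
    have h5 : mkK K (act b⁻¹ y) = mkK K (act (b⁻¹ * h) (act b⁻¹ y)) := by
      have h4 : mkK K (act (b⁻¹ * h) (act b⁻¹ y)) = (b⁻¹ * h) • mkK K (act b⁻¹ y) := rfl
      rw [h4, h3, mul_smul, hh]
      rw [eq_inv_smul_iff, h2]
    obtain ⟨κ, hκ, h6⟩ := mkK_eq.1 h5
    have h7 := hs (b⁻¹ * h) (act b⁻¹ y) κ hκ h6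
    rw [h1, hc, h7, map_zero, add_zero]
  refine ⟨fun y => - c (g (mkK K y)) y, ?_, ?_⟩
  · intro y κ hκ
    simp only [mkK_rt y hκ]
    rw [hcK _ y κ hκ]
  · intro γ y
    set b := g (mkK K y) with hb
    have h1 : b = γ * (γ⁻¹ * b) := by group
    have h2 : c b y = c γ y + η γ (c (γ⁻¹ * b) (act γ⁻¹ y)) := by
      conv_lhs => rw [h1]
      exact hc _ _ _
    have h3 : (γ⁻¹ * b) • r (mkK K (act γ⁻¹ y)) = mkK K (act γ⁻¹ y) := by
      have h4 : mkK K (act γ⁻¹ y) = γ⁻¹ • mkK K y := rfl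
      rw [h4, hr', mul_smul, hg]
    have h5 := key _ _ h3
    simp only [← h5, map_neg]
    rw [h2]
    abel

end Pool.Agent.CG2
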