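import Pool.Agent.CG2.CspBase

/-!
# Units of infinite order, and commensurability
-/

noncomputable section

namespace Pool.Agent.CG2

open NumberField IsDedekindDomain Matrix

variable {F : Type} [Field F] [NumberField F]

/-- The ideal of a modulus. -/
def CspUnit_ideal (n : Md F) : Ideal (𝓞 F) := n.prod fun v k => v.asIdeal ^ k

theorem CspUnit_ideal_ne (n : Md F) : CspUnit_ideal n ≠ ⊥ := by
  rw [CspUnit_ideal, Finsupp.prod]
  exact Finset.prod_ne_zero_iff.2 fun v _ => pow_ne_zero _ v.ne_bot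

theorem CspUnit_mem {n : Md F} {a : 𝓞 F} (h : a ∈ CspUnit_ideal n) (w : Pl F) :
    Ge w (n.z w) (a : F) := by
  have h1 : a ∈ w.asIdeal ^ (n w) := by
    by_cases hw : w ∈ n.support
    · have h2 : w.asIdeal ^ (n w) ∣ CspUnit_ideal n :=
        Finset.dvd_prod_of_mem (fun v => v.asIdeal ^ (n v)) hw
      exact Ideal.dvd_iff_le.1 h2 h
    · rw [Finsupp.notMem_support_iff.1 hw, pow_zero, Ideal.one_eq_top]
      trivial
  have h2 := (w.intValuation_le_pow_iff_mem a (n w)).2 h1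
  rw [Ge]
  change w.valuation F (algebraMap (𝓞 F) F a) ≤ _
  rw [HeightOneSpectrum.valuation_of_algebraMap]
  exact h2

/-- There are units of infinite order congruent to `1` modulo any modulus. -/
theorem exists_unit (hF : TwoPl F) (n : Md F) : ∃ u : (𝓞 F)ˣ, (∀ k : ℕ, 0 < k → u ^ k ≠ 1) ∧
    ∀ w, Ge w (n.z w) (((u : 𝓞 F) : F) - 1) := by
  have hr : 0 < NumberField.Units.rank F := by
    rw [NumberField.Units.rank]
    have : 2 ≤ Fintype.card (InfinitePlace F) := hF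
    omega
  let u₀ : (𝓞 F)ˣ := NumberField.Units.fundSystem F ⟨0, hr⟩
  have hu₀ : ∀ k : ℕ, 0 < k → u₀ ^ k ≠ 1 := by
    intro k hk h
    have h1 : u₀ ∈ NumberField.Units.torsion F :=
      (CommGroup.mem_torsion _).2 (isOfFinOrder_iff_pow_eq_one.2 ⟨k, hk, h⟩)
    have h2 := (NumberField.Units.exist_unique_eq_mul_prod F u₀).unique
      (y₁ := (⟨u₀, h1⟩, 0)) (y₂ := (1, Pi.single ⟨0, hr⟩ 1)) (by simp) (by
        rw [Finset.prod_eq_single ⟨0, hr⟩]
        · simp [u₀]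
        · intro b _ hb
          have h3 : (Pi.single ⟨0, hr⟩ 1 : Fin (NumberField.Units.rank F) → ℤ) b = 0 :=
            Pi.single_eq_of_ne hb _
          simp only [h3, zpow_zero]
        · intro h; exact absurd (Finset.mem_univ _) h)
    have h3 := congrFun (congrArg Prod.snd h2) ⟨0, hr⟩
    simp at h3
  let J := CspUnit_ideal n
  have hfin : Finite (𝓞 F ⧸ J) := Ideal.finiteQuotientOfFreeOfNeBot J (CspUnit_ideal_ne n)
  let U : (𝓞 F ⧸ J)ˣ := Units.map (Ideal.Quotient.mk J : 𝓞 F →* 𝓞 F ⧸ J) u₀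
  obtain ⟨N, hN, hN1⟩ := isOfFinOrder_iff_pow_eq_one.1 (isOfFinOrder_of_finite U)
  refine ⟨u₀ ^ N, ?_, ?_⟩
  · intro k hk h
    rw [← pow_mul] at h
    exact hu₀ _ (Nat.mul_pos hN hk) h
  · intro w
    have h1 : (((u₀ ^ N : (𝓞 F)ˣ) : 𝓞 F) - 1) ∈ J := by
      rw [← Ideal.Quotient.eq_zero_iff_mem, map_sub, map_one, sub_eq_zero]
      have := congrArg Units.val hN1
      rw [Units.val_pow_eq_pow_val] at this
      rw [Units.val_pow_eq_pow_val, map_pow]
      exact this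
    have h2 := CspUnit_mem h1 w
    convert h2 using 1
    push_cast
    rfl

/-- The poles of an element of `F` are bounded. -/
theorem CspUnit_bd (x : F) : ∃ b : Md F, ∀ w, Ge w (-(b w : ℤ)) x := by
  classical
  let s : Finset (Pl F) := (HeightOneSpectrum.Support.finite (R := 𝓞 F) x).toFinset
  have hs : ∀ w, w ∈ s ↔ 1 < w.valuation F x := by
    intro w
    rw [Set.Finite.mem_toFinset]
    rfl
  refine ⟨Finsupp.onFinset s (fun w => if w ∈ s then (WithZero.log (w.valuation F x)).toNat else 0)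
    (fun w hw => by
      by_contra h
      rw [if_neg h] at hw
      exact hw rfl), ?_⟩
  intro w
  rw [Ge, neg_neg, Finsupp.onFinset_apply]
  by_cases hw : w ∈ s
  · rw [if_pos hw]
    have h0 : w.valuation F x ≠ 0 := (zero_lt_one.trans ((hs w).1 hw)).ne'
    rw [← WithZero.log_le_iff_le_exp h0]
    exact Int.self_le_toNat _
  · rw [if_neg hw, Nat.cast_zero, WithZero.exp_zero]
    exact not_lt.1 fun h => hw ((hs w).2 h)

theorem CspUnit_bd_fin {ι : Type} [Finite ι] (x : ι → F) :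
    ∃ b : Md F, ∀ i w, Ge w (-(b w : ℤ)) (x i) := by
  classical
  have := Fintype.ofFinite ι
  choose b hb using fun i => CspUnit_bd (x i)
  refine ⟨∑ i, b i, fun i w => (hb i w).mono ?_⟩
  have h1 : b i w ≤ (∑ i, b i) w := by
    rw [Finsupp.finsetSum_apply]
    exact Finset.single_le_sum (f := fun i => b i w) (fun _ _ => Nat.zero_le _)
      (Finset.mem_univ i)
  omega

/-- The groups `Gam e` are commensurable with their conjugates. -/
theorem Gam_conj (δ : G F) (e : Md F) : ∃ e' : Md F, ∀ g ∈ Gam e', δ * g * δ⁻¹ ∈ Gam e := by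
  obtain ⟨b, hb⟩ := CspUnit_bd_fin
    (fun i : Fin 2 × Fin 2 => (δ : Matrix (Fin 2) (Fin 2) F) i.1 i.2)
  obtain ⟨b', hb'⟩ := CspUnit_bd_fin
    (fun i : Fin 2 × Fin 2 => ((δ⁻¹ : G F) : Matrix (Fin 2) (Fin 2) F) i.1 i.2)
  refine ⟨e + b + b', ?_⟩
  have key : ∀ A : Matrix (Fin 2) (Fin 2) F, (∀ i j, (A - 1) i j ∈ R (e + b + b').z) →
      ∀ i j, ((δ : Matrix (Fin 2) (Fin 2) F) * A * ((δ⁻¹ : G F) : Matrix (Fin 2) (Fin 2) F) - 1)
        i j ∈ R e.z := by
    intro A hA i j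
    have h1 : (δ : Matrix (Fin 2) (Fin 2) F) * ((δ⁻¹ : G F) : Matrix (Fin 2) (Fin 2) F) = 1 :=
      congrArg Units.val (mul_inv_cancel δ)
    have h2 : (δ : Matrix (Fin 2) (Fin 2) F) * A * ((δ⁻¹ : G F) : Matrix (Fin 2) (Fin 2) F) - 1 =
        (δ : Matrix (Fin 2) (Fin 2) F) * (A - 1) *
          ((δ⁻¹ : G F) : Matrix (Fin 2) (Fin 2) F) := by
      rw [Matrix.mul_sub, Matrix.sub_mul, Matrix.mul_one, h1]
    rw [h2, Matrix.mul_apply]
    refine (R e.z).sum_mem fun k _ => ?_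
    rw [Matrix.mul_apply, Finset.sum_mul]
    refine (R e.z).sum_mem fun l _ w => ?_
    refine (((hb (i, l) w).mul (hA l k w)).mul (hb' (k, j) w)).mono ?_
    simp only [Md.z, Finsupp.add_apply]
    push_cast
    omega
  rintro g ⟨hg, hg'⟩
  refine ⟨?_, ?_⟩
  · rw [Units.val_mul, Units.val_mul]
    exact key _ hg
  · have h3 : (δ * g * δ⁻¹)⁻¹ = δ * g⁻¹ * δ⁻¹ := by group
    rw [h3, Units.val_mul, Units.val_mul]
    exact key _ hg'

end Pool.Agent.CG2
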