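import Pool.Agent.CG2.GalFin

/-!
# The density of the places with given Frobenius division: finite extensions, the theorem
-/

noncomputable section

set_option linter.unusedSectionVars false

namespace Pool.Agent.CG2

open NumberField IsDedekindDomain

variable {F L : Type} [Field F] [NumberField F] [Field L] [NumberField L] [Algebra F L]

namespace GalFin2Aux

open GalDensAux GalFinAux Pool.Agent.CG3.GalAux

/-! ### The places above a finite set of places -/

theorem finite_above {K : Type} [Field K] [NumberField K] [Algebra F K] (v : Pl F) :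
    {w : Pl K | Lies w v}.Finite := by
  have := v.isMaximal
  refine Set.Finite.of_finite_image (f := fun w : Pl K => w.asIdeal) ?_ ?_
  · refine (IsDedekindDomain.primesOver_finite v.asIdeal (𝓞 K)).subset ?_
    rintro _ ⟨w, hw, rfl⟩
    exact ⟨w.isPrime, liesOver_of_lies hw⟩
  · intro w _ w' _ h
    exact HeightOneSpectrum.ext h

theorem absNorm_eq_of_prime {K : Type} [Field K] [NumberField K] [Algebra F K] {v : Pl F}
    {w : Pl K} (h : Lies w v) (hp : (Ideal.absNorm w.asIdeal).Prime) :
    Ideal.absNorm w.asIdeal = Ideal.absNorm v.asIdeal := by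
  obtain ⟨ℓ, hℓ, hm, f, hf1, hf⟩ := exists_char F v
  refine le_antisymm ?_ (absNorm_le h)
  have h1 : ((Ideal.absNorm w.asIdeal : ℕ) : 𝓞 K) ∈ w.asIdeal := Ideal.absNorm_mem _
  have h2 : (ℓ : 𝓞 K) ∈ w.asIdeal := by
    have h3 : (ℓ : 𝓞 F) ∈ w.asIdeal.comap (algebraMap (𝓞 F) (𝓞 K)) := by
      rw [h]
      exact hm
    simpa using h3
  have h4 : Ideal.absNorm w.asIdeal = ℓ := by
    by_contra hne
    have hcop : Nat.Coprime (Ideal.absNorm w.asIdeal) ℓ := (Nat.coprime_primes hp hℓ).2 hne
    have h5 : IsCoprime ((Ideal.absNorm w.asIdeal : ℕ) : 𝓞 K) (ℓ : 𝓞 K) := hcop.cast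
    obtain ⟨a, b, hab⟩ := h5
    apply w.isPrime.ne_top
    rw [Ideal.eq_top_iff_one, ← hab]
    exact w.asIdeal.add_mem (w.asIdeal.mul_mem_left _ h1) (w.asIdeal.mul_mem_left _ h2)
  rw [h4, hf]
  exact Nat.le_self_pow (by omega) _

/-- The degree one places of `K` over the complement of a finite set have density one. -/
theorem hasDen_deg_one {K : Type} [Field K] [NumberField K] [Algebra F K] {T : Set (Pl F)}
    (hT : T.Finite) :
    HasDen {w : Pl K | below F w ∉ T ∧
      Ideal.absNorm w.asIdeal = Ideal.absNorm (below F w).asIdeal} 1 := by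
  refine (hasDen_univ K).congr ?_
  refine (hT.biUnion (t := fun v => {w : Pl K | Lies w v}) fun v _ => finite_above v).subset ?_
  rintro w ⟨h1, h2⟩
  simp only [Set.mem_univ, true_and, Set.mem_ofPred_eq, not_true_eq_false, and_false,
    or_false, not_and] at h1
  have h3 := absNorm_eq_of_prime (lies_below (F := F) w) h2
  have h4 : below F w ∈ T := by
    by_contra h5
    exact h1 h5 h3
  simp only [Set.mem_iUnion, exists_prop]
  exact ⟨below F w, h4, lies_below w⟩

/-- The sum over the degree one places of `K`. -/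
theorem Ds_deg_one {K : Type} [Field K] [NumberField K] [Algebra F K] (T : Set (Pl F)) {s : ℝ}
    (hs : 1 < s) :
    Ds {w : Pl K | below F w ∉ T ∧
      Ideal.absNorm w.asIdeal = Ideal.absNorm (below F w).asIdeal} s =
      ∑' v : Pl F, (Tᶜ).indicator (fun v => (Nat.card {w : Pl K //
        Lies w v ∧ Ideal.absNorm w.asIdeal = Ideal.absNorm v.asIdeal} : ℝ) *
          (Ideal.absNorm v.asIdeal : ℝ) ^ (-s)) v := by
  classical
  set W : Set (Pl K) := {w : Pl K | below F w ∉ T ∧
      Ideal.absNorm w.asIdeal = Ideal.absNorm (below F w).asIdeal} with hW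
  let f : W → Pl F := fun w => below F w.1
  have hsum := Ds_summable W hs
  have h1 : Ds W s = ∑' x : (Σ v : Pl F, {w : W // f w = v}),
      (Ideal.absNorm ((Equiv.sigmaFiberEquiv f) x).1.asIdeal : ℝ) ^ (-s) := by
    unfold Ds
    exact ((Equiv.sigmaFiberEquiv f).tsum_eq
      (fun w : W => (Ideal.absNorm w.1.asIdeal : ℝ) ^ (-s))).symm
  have hsum2 : Summable fun x : (Σ v : Pl F, {w : W // f w = v}) =>
      (Ideal.absNorm ((Equiv.sigmaFiberEquiv f) x).1.asIdeal : ℝ) ^ (-s) :=
    (Equiv.sigmaFiberEquiv f).summable_iff.2 hsum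
  rw [h1, hsum2.tsum_sigma]
  refine tsum_congr fun v => ?_
  have h2 : ∀ w : {w : W // f w = v},
      (Ideal.absNorm ((Equiv.sigmaFiberEquiv f) ⟨v, w⟩).1.asIdeal : ℝ) ^ (-s) =
        (Ideal.absNorm v.asIdeal : ℝ) ^ (-s) := by
    rintro ⟨w, rfl⟩
    change (Ideal.absNorm w.1.asIdeal : ℝ) ^ (-s) = _
    rw [w.2.2]
  simp_rw [h2]
  by_cases hv : v ∈ T
  · have hemp : IsEmpty {w : W // f w = v} := by
      refine ⟨?_⟩
      rintro ⟨w, rfl⟩
      exact w.2.1 hv
    rw [tsum_empty, Set.indicator_of_notMem (by simpa using hv)]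
  · rw [Set.indicator_of_mem (by simpa using hv)]
    let e : {w : W // f w = v} ≃ {w : Pl K //
        Lies w v ∧ Ideal.absNorm w.asIdeal = Ideal.absNorm v.asIdeal} :=
      { toFun := fun w => ⟨w.1.1, lies_iff.2 w.2, by
          have := w.1.2.2
          rw [this]
          exact congrArg (fun u : Pl F => Ideal.absNorm u.asIdeal) w.2⟩
        invFun := fun w => ⟨⟨w.1, by
          have h3 := lies_iff.1 w.2.1
          refine ⟨?_, ?_⟩
          · rw [h3]; exact hv
          · rw [h3]; exact w.2.2⟩, lies_iff.1 w.2.1⟩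
        left_inv := fun w => rfl
        right_inv := fun w => rfl }
    have hfin : Finite {w : Pl K //
        Lies w v ∧ Ideal.absNorm w.asIdeal = Ideal.absNorm v.asIdeal} :=
      Set.Finite.to_subtype ((finite_above (K := K) v).subset fun w hw => hw.1)
    have hfin2 : Finite {w : W // f w = v} := Finite.of_equiv _ e.symm
    have := Fintype.ofFinite {w : W // f w = v}
    rw [tsum_fintype, Finset.sum_const, nsmul_eq_mul, Finset.card_univ, ← Nat.card_eq_fintype_card,
      Nat.card_congr e]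

/-! ### Averages -/

section avg

variable {G : Type} [Group G] [Fintype G]

open Classical in
/-- The number of the `x` with `x⁻¹ g x ∈ C`. -/
def cnt (C : Subgroup G) (g : G) : ℝ := ∑ x : G, if x⁻¹ * g * x ∈ C then (1 : ℝ) else 0

open Classical in
/-- The number of the `x` such that `x⁻¹ g x` generates `C`. -/
def gen (C : Subgroup G) (g : G) : ℝ :=
  ∑ x : G, if Subgroup.zpowers (x⁻¹ * g * x) = C then (1 : ℝ) else 0

/-- The average of a function. -/
def avg (φ : G → ℝ) : ℝ := (∑ g, φ g) / Fintype.card G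

theorem cnt_eq (C : Subgroup G) (g : G) : cnt C g = Nat.card {x : G // x⁻¹ * g * x ∈ C} := by
  classical
  unfold cnt
  rw [Finset.sum_boole, Nat.card_eq_fintype_card, Fintype.card_subtype]

theorem sum_cnt (C : Subgroup G) : ∑ g, cnt C g = Fintype.card G * Nat.card C := by
  classical
  unfold cnt
  rw [Finset.sum_comm]
  have h1 : ∀ x : G, ∑ g : G, (if x⁻¹ * g * x ∈ C then (1 : ℝ) else 0) = Nat.card C := by
    intro x
    let e : G ≃ G := (MulAut.conj x⁻¹).toEquiv
    have h2 : ∀ g : G, e g = x⁻¹ * g * x := by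
      intro g
      change x⁻¹ * g * x⁻¹⁻¹ = _
      rw [inv_inv]
    have h3 : ∑ g : G, (if x⁻¹ * g * x ∈ C then (1 : ℝ) else 0) =
        ∑ g : G, (if g ∈ C then (1 : ℝ) else 0) := by
      rw [← Equiv.sum_comp e (fun g : G => if g ∈ C then (1 : ℝ) else 0)]
      exact Finset.sum_congr rfl fun g _ => by rw [h2]
    rw [h3, Finset.sum_boole, Nat.card_eq_fintype_card, Fintype.card_subtype]
  rw [Finset.sum_congr rfl fun x _ => h1 x, Finset.sum_const, Finset.card_univ, nsmul_eq_mul]

open Classical in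
theorem cnt_eq_sum (C : Subgroup G) :
    cnt C = ∑ D : Subgroup G, if D ≤ C then gen D else 0 := by
  funext g
  rw [Finset.sum_apply]
  have h1 : ∀ D : Subgroup G, (if D ≤ C then gen D else 0) g =
      ∑ x : G, if (D ≤ C ∧ Subgroup.zpowers (x⁻¹ * g * x) = D) then (1 : ℝ) else 0 := by
    intro D
    by_cases h : D ≤ C
    · simp only [h, if_true, true_and]
      rfl
    · simp only [h, if_false, false_and]
      simp
  rw [Finset.sum_congr rfl fun D _ => h1 D, Finset.sum_comm]
  unfold cnt
  refine Finset.sum_congr rfl fun x _ => ?_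
  have h2 : ∀ D : Subgroup G, (D ≤ C ∧ Subgroup.zpowers (x⁻¹ * g * x) = D) ↔
      (D = Subgroup.zpowers (x⁻¹ * g * x) ∧ Subgroup.zpowers (x⁻¹ * g * x) ≤ C) := by
    intro D
    constructor
    · rintro ⟨h3, rfl⟩
      exact ⟨rfl, h3⟩
    · rintro ⟨rfl, h3⟩
      exact ⟨h3, rfl⟩
  simp_rw [h2]
  by_cases h4 : x⁻¹ * g * x ∈ C
  · have h5 : Subgroup.zpowers (x⁻¹ * g * x) ≤ C := by
      rw [Subgroup.zpowers_le]; exact h4
    simp [h4, h5]
  · have h5 : ¬ Subgroup.zpowers (x⁻¹ * g * x) ≤ C := by
      rw [Subgroup.zpowers_le]; exact h4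
    simp [h4, h5]

/-- A space of functions which contains the counting functions of all subgroups contains the
indicator functions of the unions of divisions. -/
theorem mem_of_cnt (M : Submodule ℝ (G → ℝ)) (h : ∀ C : Subgroup G, cnt C ∈ M) (A : Set G)
    (hA : ∀ g ∈ A, ∀ g' : G, Subgroup.zpowers g' = Subgroup.zpowers g → g' ∈ A)
    (hA' : ∀ g ∈ A, ∀ x : G, x * g * x⁻¹ ∈ A) :
    A.indicator (fun _ => (1 : ℝ)) ∈ M := by
  classical
  have hgen : ∀ (n : ℕ) (C : Subgroup G), Nat.card C ≤ n → gen C ∈ M := by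
    intro n
    induction n with
    | zero =>
      intro C hC
      have := Nat.card_pos (α := C)
      omega
    | succ n ih =>
      intro C hC
      have h1 := h C
      rw [cnt_eq_sum, ← Finset.add_sum_erase _ _ (Finset.mem_univ C)] at h1
      simp only [le_refl, if_true] at h1
      have h2 : ∑ D ∈ Finset.univ.erase C, (if D ≤ C then gen D else 0) ∈ M := by
        refine M.sum_mem fun D hD => ?_
        by_cases h3 : D ≤ C
        · rw [if_pos h3]
          apply ih
          have h4 : D < C := lt_of_le_of_ne h3 (Finset.ne_of_mem_erase hD)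
          have h5 : Nat.card D < Nat.card C := by
            have h6 : (D : Set G) ⊂ (C : Set G) := h4
            have := Set.ncard_lt_ncard h6 (Set.toFinite _)
            exact this
          omega
        · rw [if_neg h3]
          exact M.zero_mem
      have := M.sub_mem h1 h2
      rwa [add_sub_cancel_right] at this
  have h1 : ∑ C : Subgroup G, (if (∃ g ∈ A, Subgroup.zpowers g = C) then gen C else 0) =
      (Fintype.card G : ℝ) • A.indicator (fun _ => (1 : ℝ)) := by
    funext g
    rw [Finset.sum_apply, Pi.smul_apply]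
    have h2 : ∀ D : Subgroup G, (if (∃ g ∈ A, Subgroup.zpowers g = D) then gen D else 0) g =
        ∑ x : G, if (D = Subgroup.zpowers (x⁻¹ * g * x) ∧ x⁻¹ * g * x ∈ A) then (1 : ℝ)
          else 0 := by
      intro D
      by_cases h3 : ∃ g ∈ A, Subgroup.zpowers g = D
      · simp only [h3, if_true]
        refine Finset.sum_congr rfl fun x _ => ?_
        obtain ⟨g0, hg0, hD⟩ := h3
        by_cases h4 : Subgroup.zpowers (x⁻¹ * g * x) = D
        · have h5 : x⁻¹ * g * x ∈ A := hA g0 hg0 _ (h4.trans hD.symm)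
          simp [h4, h5]
        · have h5 : D ≠ Subgroup.zpowers (x⁻¹ * g * x) := fun h => h4 h.symm
          simp [h4, h5]
      · simp only [h3, if_false]
        symm
        rw [Pi.zero_apply]
        refine Finset.sum_eq_zero fun x _ => ?_
        rw [if_neg]
        rintro ⟨h4, h5⟩
        exact h3 ⟨_, h5, h4.symm⟩
    rw [Finset.sum_congr rfl fun D _ => h2 D, Finset.sum_comm]
    have h3 : ∀ x : G, ∑ D : Subgroup G,
        (if (D = Subgroup.zpowers (x⁻¹ * g * x) ∧ x⁻¹ * g * x ∈ A) then (1 : ℝ) else 0) =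
          A.indicator (fun _ => (1 : ℝ)) g := by
      intro x
      by_cases h4 : g ∈ A
      · have h5 : x⁻¹ * g * x ∈ A := by
          have := hA' g h4 x⁻¹
          rwa [inv_inv] at this
        simp [h4, h5]
      · have h5 : x⁻¹ * g * x ∉ A := by
          intro h6
          apply h4
          have := hA' _ h6 x
          have h7 : x * (x⁻¹ * g * x) * x⁻¹ = g := by group
          rwa [h7] at this
        simp [h4, h5]
    rw [Finset.sum_congr rfl fun x _ => h3 x, Finset.sum_const, Finset.card_univ, nsmul_eq_mul,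
      smul_eq_mul]
  have h2 : (Fintype.card G : ℝ) • A.indicator (fun _ => (1 : ℝ)) ∈ M := by
    rw [← h1]
    refine M.sum_mem fun C _ => ?_
    split_ifs
    · exact hgen _ C le_rfl
    · exact M.zero_mem
  have h3 : (Fintype.card G : ℝ) ≠ 0 := by exact_mod_cast Fintype.card_ne_zero
  exact (M.smul_mem_iff h3).1 h2

end avg

/-! ### Class functions with a density -/

section dens

variable (T : Set (Pl F)) (gf : Pl F → Gal(L/F))

/-- The Dirichlet series of the values of `φ` at the Frobenius elements. -/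
def DD (φ : Gal(L/F) → ℝ) (s : ℝ) : ℝ :=
  ∑' v : Pl F, (Tᶜ).indicator (fun v => φ (gf v) * (Ideal.absNorm v.asIdeal : ℝ) ^ (-s)) v

theorem DD_summable (φ : Gal(L/F) → ℝ) {s : ℝ} (hs : 1 < s) :
    Summable fun v : Pl F =>
      (Tᶜ).indicator (fun v => φ (gf v) * (Ideal.absNorm v.asIdeal : ℝ) ^ (-s)) v := by
  have hfin : Finite Gal(L/F) := inferInstance
  obtain ⟨B, hB⟩ : ∃ B : ℝ, ∀ g, |φ g| ≤ B := by
    obtain ⟨B, hB⟩ := (Set.finite_range fun g => |φ g|).bddAbove
    exact ⟨B, fun g => hB ⟨g, rfl⟩⟩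
  refine Summable.indicator ?_ _
  refine Summable.of_norm_bounded ((summable_all F hs).mul_left B) fun v => ?_
  rw [Real.norm_eq_abs, abs_mul, abs_of_nonneg (a := (Ideal.absNorm v.asIdeal : ℝ) ^ (-s))
    (by positivity)]
  exact mul_le_mul_of_nonneg_right (hB _) (by positivity)

/-- The functions whose Dirichlet series has the expected size. -/
def Mod [Fintype Gal(L/F)] : Submodule ℝ (Gal(L/F) → ℝ) where
  carrier := {φ | ∃ C : ℝ, ∀ s ∈ Set.Ioc (1 : ℝ) 2,
    |DD T gf φ s - avg φ * Real.log (1 / (s - 1))| ≤ C}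
  zero_mem' := by
    refine ⟨0, fun s _ => ?_⟩
    have h1 : DD T gf (0 : Gal(L/F) → ℝ) s = 0 := by
      unfold DD
      simp
    have h2 : avg (0 : Gal(L/F) → ℝ) = 0 := by
      unfold avg
      simp
    rw [h1, h2]
    simp
  add_mem' := by
    rintro φ ψ ⟨C, hC⟩ ⟨C', hC'⟩
    refine ⟨C + C', fun s hs => ?_⟩
    have h1 : DD T gf (φ + ψ) s = DD T gf φ s + DD T gf ψ s := by
      unfold DD
      rw [← (DD_summable T gf φ hs.1).tsum_add (DD_summable T gf ψ hs.1)]
      refine tsum_congr fun v => ?_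
      by_cases hv : v ∈ Tᶜ
      · rw [Set.indicator_of_mem hv, Set.indicator_of_mem hv, Set.indicator_of_mem hv,
          Pi.add_apply, add_mul]
      · rw [Set.indicator_of_notMem hv, Set.indicator_of_notMem hv, Set.indicator_of_notMem hv,
          add_zero]
    have h2 : avg (φ + ψ) = avg φ + avg ψ := by
      unfold avg
      simp only [Pi.add_apply]
      rw [Finset.sum_add_distrib, add_div]
    have h3 : DD T gf (φ + ψ) s - avg (φ + ψ) * Real.log (1 / (s - 1)) =
        (DD T gf φ s - avg φ * Real.log (1 / (s - 1))) +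
          (DD T gf ψ s - avg ψ * Real.log (1 / (s - 1))) := by
      rw [h1, h2]
      ring
    rw [h3]
    exact (abs_add_le _ _).trans (add_le_add (hC s hs) (hC' s hs))
  smul_mem' := by
    rintro c φ ⟨C, hC⟩
    refine ⟨|c| * C, fun s hs => ?_⟩
    have h1 : DD T gf (c • φ) s = c * DD T gf φ s := by
      unfold DD
      rw [← tsum_mul_left]
      refine tsum_congr fun v => ?_
      by_cases hv : v ∈ Tᶜ
      · rw [Set.indicator_of_mem hv, Set.indicator_of_mem hv, Pi.smul_apply, smul_eq_mul,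
          mul_assoc]
      · rw [Set.indicator_of_notMem hv, Set.indicator_of_notMem hv, mul_zero]
    have h2 : avg (c • φ) = c * avg φ := by
      unfold avg
      simp only [Pi.smul_apply, smul_eq_mul]
      rw [← Finset.mul_sum, mul_div_assoc]
    have h3 : DD T gf (c • φ) s - avg (c • φ) * Real.log (1 / (s - 1)) =
        c * (DD T gf φ s - avg φ * Real.log (1 / (s - 1))) := by
      rw [h1, h2]
      ring
    rw [h3, abs_mul]
    exact mul_le_mul_of_nonneg_left (hC s hs) (abs_nonneg _)

theorem cnt_mem [IsGalois F L] [Fintype Gal(L/F)] (hT : T.Finite)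
    (hun : ∀ v, v ∉ T → UnramAt L v) (hgf : ∀ v, ∃ P : Pl L, FrobAt v P (gf v))
    (C : Subgroup Gal(L/F)) : cnt C ∈ Mod T gf := by
  classical
  obtain ⟨B, hB⟩ := hasDen_deg_one (K := IntermediateField.fixedField C) hT
  refine ⟨Nat.card C * B, fun s hs => ?_⟩
  have h1 := hB s hs
  rw [Ds_deg_one T hs.1] at h1
  have hC0 : (0 : ℝ) < Nat.card C := by exact_mod_cast Nat.card_pos
  have h2 : DD T gf (cnt C) s = Nat.card C *
      ∑' v : Pl F, (Tᶜ).indicator (fun v => (Nat.card {w : Pl (IntermediateField.fixedField C) //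
        Lies w v ∧ Ideal.absNorm w.asIdeal = Ideal.absNorm v.asIdeal} : ℝ) *
          (Ideal.absNorm v.asIdeal : ℝ) ^ (-s)) v := by
    unfold DD
    rw [← tsum_mul_left]
    refine tsum_congr fun v => ?_
    by_cases hv : v ∈ Tᶜ
    · rw [Set.indicator_of_mem hv, Set.indicator_of_mem hv, ← mul_assoc]
      congr 1
      obtain ⟨P, hP⟩ := hgf v
      rw [cnt_eq, ← count_fixed (hun v hv) hP C]
      push_cast
      rfl
    · rw [Set.indicator_of_notMem hv, Set.indicator_of_notMem hv, mul_zero]
  have h3 : avg (cnt C) = Nat.card C := by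
    unfold avg
    rw [sum_cnt, mul_div_assoc, mul_comm, div_mul_cancel₀]
    exact_mod_cast Fintype.card_ne_zero
  rw [h2, h3, ← mul_sub, abs_mul, abs_of_pos hC0]
  rw [one_mul] at h1
  exact mul_le_mul_of_nonneg_left h1 hC0.le

end dens

end GalFin2Aux

open GalFin2Aux in
/-- Frobenius density theorem. -/
theorem frob_density_fin [IsGalois F L] (T : Set (Pl F)) (hT : T.Finite)
    (hun : ∀ v, v ∉ T → UnramAt L v) (A : Set Gal(L/F))
    (hA : ∀ g ∈ A, ∀ g' : Gal(L/F), Subgroup.zpowers g' = Subgroup.zpowers g → g' ∈ A)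
    (hA' : ∀ g ∈ A, ∀ x : Gal(L/F), x * g * x⁻¹ ∈ A) :
    HasDen {v : Pl F | v ∉ T ∧ ∃ P : Pl L, ∃ σ ∈ A, FrobAt v P σ}
      ((Nat.card A : ℝ) / Nat.card Gal(L/F)) := by
  classical
  have := Fintype.ofFinite Gal(L/F)
  choose Pf gf hf using fun v => exists_frobAt (F := F) (L := L) v
  obtain ⟨B, hB⟩ := mem_of_cnt (Mod T gf) (cnt_mem T gf hT hun fun v => ⟨Pf v, hf v⟩) A hA hA'
  refine ⟨B, fun s hs => ?_⟩
  have h1 := hB s hs
  have h2 : DD T gf (A.indicator fun _ => (1 : ℝ)) s =
      Ds {v : Pl F | v ∉ T ∧ ∃ P : Pl L, ∃ σ ∈ A, FrobAt v P σ} s := by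
    rw [GalDensAux.Ds_indicator]
    unfold DD
    refine tsum_congr fun v => ?_
    by_cases hv : v ∈ T
    · rw [Set.indicator_of_notMem (by simpa using hv), Set.indicator_of_notMem]
      exact fun h => h.1 hv
    · rw [Set.indicator_of_mem (by simpa using hv)]
      by_cases hg : gf v ∈ A
      · rw [Set.indicator_of_mem hg, one_mul, Set.indicator_of_mem]
        exact ⟨hv, Pf v, gf v, hg, hf v⟩
      · rw [Set.indicator_of_notMem hg, zero_mul, Set.indicator_of_notMem]
        rintro ⟨_, P, σ, hσ, hP⟩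
        obtain ⟨τ, hτ⟩ := frobAt_conj (hun v hv) hP (hf v)
        apply hg
        rw [hτ]
        exact hA' σ hσ τ
  have h3 : avg (A.indicator fun _ => (1 : ℝ)) = (Nat.card A : ℝ) / Nat.card Gal(L/F) := by
    unfold avg
    rw [Nat.card_eq_fintype_card (α := Gal(L/F))]
    congr 1
    rw [Finset.sum_indicator_eq_sum_filter, Finset.sum_const, nsmul_eq_mul, mul_one,
      Nat.card_eq_fintype_card, Fintype.card_subtype]
  rw [← h2, ← h3]
  exact h1

end Pool.Agent.CG2
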