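import Pool.Agent.CG2.AdFin
import Pool.Agent.CG2.CspUnit
import Pool.Agent.CG2.GalFin2

/-!
# Units congruent to `1` are totally positive, and stabilisers of points
-/

noncomputable section

namespace Pool.Agent.CG2

open NumberField IsDedekindDomain Matrix

variable {F : Type} [Field F] [NumberField F]

namespace UnitPosAux

open Polynomial

theorem nonempty_of_den {A : Set (Pl F)} {c : ℝ} (hc : 0 < c) (h : HasDen A c) : A.Nonempty := by
  by_contra hA
  rw [Set.not_nonempty_iff_eq_empty] at hA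
  subst hA
  obtain ⟨C, hC⟩ := h
  have h0 : ∀ s : ℝ, Ds (∅ : Set (Pl F)) s = 0 := by
    intro s
    unfold Ds
    exact tsum_empty
  set t : ℝ := (|C| + 1) / c with ht
  have htpos : 0 < t := by positivity
  have h1 := hC (1 + Real.exp (-t)) ⟨by
    have := Real.exp_pos (-t)
    linarith, by
    have : Real.exp (-t) ≤ 1 := Real.exp_le_one_iff.2 (by linarith)
    linarith⟩
  rw [h0, zero_sub, abs_neg, add_sub_cancel_left, one_div, ← Real.exp_neg, neg_neg,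
    Real.log_exp, ht, mul_div_cancel₀ _ hc.ne', abs_of_pos (by positivity)] at h1
  have := le_abs_self C
  linarith

/-- The set of the places above `2` is finite. -/
theorem finite_two (F : Type) [Field F] [NumberField F] :
    {v : Pl F | (2 : 𝓞 F) ∈ v.asIdeal}.Finite := by
  have h := Ideal.finite_factors (I := Ideal.span {(2 : 𝓞 F)}) (by
    rw [Ne, Ideal.zero_eq_bot, Ideal.span_singleton_eq_bot]
    exact two_ne_zero)
  refine h.subset ?_
  intro v hv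
  exact Ideal.dvd_iff_le.2 ((Ideal.span_singleton_le_iff_mem _).2 hv)

omit [NumberField F] in
theorem exists_root_int (u : (𝓞 F)ˣ) (t : F) (ht : t ^ 2 = ((u : 𝓞 F) : F)) :
    ∃ x : (𝓞 F)ˣ, u = x ^ 2 := by
  have h1 : IsIntegral ℤ t := by
    refine IsIntegral.of_pow (n := 2) (by norm_num) ?_
    rw [ht]
    exact (u : 𝓞 F).2
  let x : 𝓞 F := ⟨t, h1⟩
  have hx : x ^ 2 = (u : 𝓞 F) := by
    apply RingOfIntegers.ext
    exact ht
  have hu : IsUnit x := by
    refine isUnit_of_dvd_unit (Dvd.intro_left x ?_) u.isUnit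
    rw [← sq]
    exact hx
  refine ⟨hu.unit, ?_⟩
  apply Units.ext
  rw [Units.val_pow_eq_pow_val, IsUnit.unit_spec, hx]

theorem pow_absNorm_sub (v : Pl F) (z : 𝓞 F) :
    z ^ (Ideal.absNorm v.asIdeal) - z ∈ v.asIdeal := by
  have hmax := v.isMaximal
  let := Ideal.Quotient.field v.asIdeal
  have hfin : Finite (𝓞 F ⧸ v.asIdeal) :=
    Ideal.finiteQuotientOfFreeOfNeBot v.asIdeal v.ne_bot
  let := Fintype.ofFinite (𝓞 F ⧸ v.asIdeal)
  have h1 : Ideal.absNorm v.asIdeal = Fintype.card (𝓞 F ⧸ v.asIdeal) := by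
    rw [← Nat.card_eq_fintype_card]
    rfl
  rw [← Ideal.Quotient.eq, map_pow, h1]
  exact FiniteField.pow_card _

/-- For a unit which is not a square there is a place where it is not a square. -/
theorem exists_place (u : (𝓞 F)ˣ) (hu : ¬ ∃ x : (𝓞 F)ˣ, u = x ^ 2) :
    ∃ v : Pl F, ∀ y : 𝓞 F, (u : 𝓞 F) - y ^ 2 ∉ v.asIdeal := by
  classical
  let f : F[X] := X ^ 2 - C ((u : 𝓞 F) : F)
  have hdeg : f.degree ≠ 0 := by
    have : f.degree = 2 := degree_X_pow_sub_C (by norm_num) _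
    rw [this]
    norm_num
  let L := f.SplittingField
  have hcz : CharZero L := charZero_of_injective_algebraMap (algebraMap F L).injective
  have hnf : NumberField L := NumberField.of_module_finite F L
  have hnorm : Normal F L := Normal.of_isSplittingField f
  have hgal : IsGalois F L := {}
  have hsp : (f.map (algebraMap F L)).Splits := SplittingField.splits f
  obtain ⟨θ, hθ⟩ := hsp.exists_eval_eq_zero (by
    rw [degree_map]
    exact hdeg)
  have hθ2 : θ ^ 2 = algebraMap F L ((u : 𝓞 F) : F) := by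
    have : eval θ (f.map (algebraMap F L)) = θ ^ 2 - algebraMap F L ((u : 𝓞 F) : F) := by
      simp [f]
    rw [this] at hθ
    exact sub_eq_zero.1 hθ
  have hθF : θ ∉ Set.range (algebraMap F L) := by
    rintro ⟨t, rfl⟩
    apply hu
    refine exists_root_int u t ?_
    apply (algebraMap F L).injective
    rw [map_pow]
    exact hθ2
  have hneg : ∀ σ : Gal(L/F), σ θ = θ ∨ σ θ = -θ := by
    intro σ
    apply sq_eq_sq_iff_eq_or_eq_neg.1
    rw [← map_pow, hθ2, σ.commutes]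
  have hfix : ∀ σ : Gal(L/F), σ θ = θ → σ = 1 := by
    intro σ hσ
    have h1 : (σ : L →ₐ[F] L) = AlgHom.id F L := by
      refine AlgHom.ext_of_adjoin_eq_top (SplittingField.adjoin_rootSet f) ?_
      intro r hr
      have hr2 : r ^ 2 = θ ^ 2 := by
        have h2 := (mem_rootSet.1 hr).2
        have h3 : aeval r f = r ^ 2 - algebraMap F L ((u : 𝓞 F) : F) := by
          simp only [f, map_sub, map_pow, aeval_X, aeval_C]
          rfl
        rw [h3] at h2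
        rw [hθ2]
        exact sub_eq_zero.1 h2
      rcases sq_eq_sq_iff_eq_or_eq_neg.1 hr2 with rfl | rfl
      · exact hσ
      · change σ (-θ) = -θ
        rw [map_neg, hσ]
    ext x
    exact DFunLike.congr_fun h1 x
  obtain ⟨σ₀, hσ₀⟩ : ∃ σ : Gal(L/F), σ θ ≠ θ := by
    by_contra hcon
    push Not at hcon
    exact hθF ((IsGalois.mem_range_algebraMap_iff_fixed θ).2 hcon)
  have hθint : IsIntegral ℤ θ := by
    refine IsIntegral.of_pow (n := 2) (by norm_num) ?_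
    rw [hθ2]
    exact (u : 𝓞 F).2.algebraMap
  let Θ : 𝓞 L := ⟨θ, hθint⟩
  have hΘ2 : Θ ^ 2 = algebraMap (𝓞 F) (𝓞 L) (u : 𝓞 F) := by
    apply RingOfIntegers.ext
    exact hθ2
  -- the key point
  have hkey : ∀ (v : Pl F), (2 : 𝓞 F) ∉ v.asIdeal → ∀ P : Pl L, Lies P v →
      ∀ σ : Gal(L/F), σ • Θ - Θ ∈ P.asIdeal → σ = 1 := by
    intro v hv P hP σ hσ
    apply hfix
    rcases hneg σ with h | h
    · exact h
    · exfalso
      have h1 : σ • Θ = -Θ := by
        apply RingOfIntegers.ext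
        exact h
      rw [h1] at hσ
      have h2 : -Θ - Θ = -(2 * Θ) := by ring
      rw [h2, neg_mem_iff] at hσ
      rcases P.isPrime.mem_or_mem hσ with h3 | h3
      · apply hv
        rw [← hP, Ideal.mem_comap, map_ofNat]
        exact h3
      · have h4 : (u : 𝓞 F) ∈ v.asIdeal := by
          rw [← hP, Ideal.mem_comap, ← hΘ2]
          exact P.asIdeal.pow_mem_of_mem h3 2 (by norm_num)
        exact v.isPrime.ne_top (Ideal.eq_top_of_isUnit_mem _ h4 u.isUnit)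
  have hden := frob_density_fin (L := L) {v : Pl F | (2 : 𝓞 F) ∈ v.asIdeal} (finite_two F)
    (fun v hv P hP σ hσ => hkey v hv P hP σ (hσ Θ)) {σ : Gal(L/F) | σ ≠ 1} (by
      intro g hg g' h h1
      apply hg
      rw [Set.mem_ofPred_eq] at hg
      rw [h1, Subgroup.zpowers_one_eq_bot] at h
      exact Subgroup.zpowers_eq_bot.1 h.symm) (by
      intro g hg x h
      exact hg (conj_eq_one_iff.1 h))
  have hcard : 0 < ((Nat.card {σ : Gal(L/F) | σ ≠ 1} : ℝ) / Nat.card Gal(L/F)) := by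
    have h1 : 0 < Nat.card {σ : Gal(L/F) | σ ≠ 1} := by
      rw [Nat.card_pos_iff]
      refine ⟨⟨σ₀, ?_⟩, inferInstance⟩
      rintro rfl
      exact hσ₀ rfl
    have h2 : 0 < Nat.card Gal(L/F) := Nat.card_pos
    positivity
  obtain ⟨v, hv, P, σ, hσ, hP, hF⟩ := nonempty_of_den hcard hden
  refine ⟨v, fun y hy => ?_⟩
  have hz : ∃ z : 𝓞 F, Θ - algebraMap (𝓞 F) (𝓞 L) z ∈ P.asIdeal := by
    have h1 : (Θ - algebraMap (𝓞 F) (𝓞 L) y) * (Θ - algebraMap (𝓞 F) (𝓞 L) (-y)) ∈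
        P.asIdeal := by
      have h2 : (Θ - algebraMap (𝓞 F) (𝓞 L) y) * (Θ - algebraMap (𝓞 F) (𝓞 L) (-y)) =
          algebraMap (𝓞 F) (𝓞 L) ((u : 𝓞 F) - y ^ 2) := by
        rw [map_sub, ← hΘ2, map_neg, map_pow]
        ring
      rw [h2, ← Ideal.mem_comap, hP]
      exact hy
    rcases P.isPrime.mem_or_mem h1 with h | h
    · exact ⟨_, h⟩
    · exact ⟨_, h⟩
  obtain ⟨z, hz⟩ := hz
  apply hσ
  refine hkey v hv P hP σ ?_
  set N := Ideal.absNorm v.asIdeal with hN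
  have h1 : Θ ^ N - algebraMap (𝓞 F) (𝓞 L) z ^ N ∈ P.asIdeal :=
    P.asIdeal.mem_of_dvd (sub_dvd_pow_sub_pow _ _ N) hz
  have h2 : algebraMap (𝓞 F) (𝓞 L) z ^ N - algebraMap (𝓞 F) (𝓞 L) z ∈ P.asIdeal := by
    have h3 : z ^ N - z ∈ P.asIdeal.comap (algebraMap (𝓞 F) (𝓞 L)) := by
      rw [hP]
      exact pow_absNorm_sub v z
    rw [Ideal.mem_comap, map_sub, map_pow] at h3
    exact h3
  have h4 := hF Θ
  have h5 : σ • Θ - Θ = (σ • Θ - Θ ^ N) + (Θ ^ N - algebraMap (𝓞 F) (𝓞 L) z ^ N) +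
      (algebraMap (𝓞 F) (𝓞 L) z ^ N - algebraMap (𝓞 F) (𝓞 L) z) -
      (Θ - algebraMap (𝓞 F) (𝓞 L) z) := by ring
  rw [h5]
  exact P.asIdeal.sub_mem (P.asIdeal.add_mem (P.asIdeal.add_mem h4 h1) h2) hz

theorem finite_quot_sq (F : Type) [Field F] [NumberField F] :
    Finite ((𝓞 F)ˣ ⧸ (powMonoidHom 2 : (𝓞 F)ˣ →* (𝓞 F)ˣ).range) := by
  have hfg : Group.FG (𝓞 F)ˣ := Group.fg_iff_monoid_fg.2 inferInstance
  have h := Subgroup.finiteIndex_range_powMonoidHom_of_fg (𝓞 F)ˣ (n := 2) two_ne_zero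
  exact Subgroup.finite_quotient_of_finiteIndex

end UnitPosAux

open UnitPosAux

/-- Units which are congruent to `1` modulo a suitable modulus are squares. -/
theorem exists_sq_mod (F : Type) [Field F] [NumberField F] : ∃ e : Md F, ∀ u : (𝓞 F)ˣ,
    (∀ w, Ge w (e w) (((u : 𝓞 F) : F) - 1)) → ∃ x : (𝓞 F)ˣ, u = x ^ 2 := by
  classical
  have hfin := finite_quot_sq F
  let Q := (𝓞 F)ˣ ⧸ (powMonoidHom 2 : (𝓞 F)ˣ →* (𝓞 F)ˣ).range
  let : Fintype Q := Fintype.ofFinite Q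
  have hch : ∀ c : Q, ∃ e : Md F, (¬ ∃ x : (𝓞 F)ˣ, (Quotient.out c : (𝓞 F)ˣ) = x ^ 2) →
      ∃ v, 1 ≤ e v ∧ ∀ y : 𝓞 F, (((Quotient.out c : (𝓞 F)ˣ)) : 𝓞 F) - y ^ 2 ∉ v.asIdeal := by
    intro c
    by_cases h : ∃ x : (𝓞 F)ˣ, (Quotient.out c : (𝓞 F)ˣ) = x ^ 2
    · exact ⟨0, fun h' => absurd h h'⟩
    · obtain ⟨v, hv⟩ := exists_place _ h
      exact ⟨Finsupp.single v 1, fun _ => ⟨v, by simp, hv⟩⟩
  choose e he using hch
  refine ⟨∑ c : Q, e c, fun u hu => ?_⟩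
  set c : Q := ((u : (𝓞 F)ˣ) : Q) with hc
  obtain ⟨x, hx⟩ : ∃ x : (𝓞 F)ˣ, x ^ 2 = (Quotient.out c)⁻¹ * u := by
    have h1 : ((Quotient.out c : (𝓞 F)ˣ) : Q) = ((u : (𝓞 F)ˣ) : Q) := Quotient.out_eq' c
    obtain ⟨x, hx⟩ := QuotientGroup.eq.1 h1
    exact ⟨x, hx⟩
  have hu2 : u = Quotient.out c * x ^ 2 := by
    rw [hx, mul_inv_cancel_left]
  by_cases h : ∃ x : (𝓞 F)ˣ, (Quotient.out c : (𝓞 F)ˣ) = x ^ 2
  · obtain ⟨y, hy⟩ := h
    refine ⟨y * x, ?_⟩
    rw [mul_pow, ← hy]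
    exact hu2
  · exfalso
    obtain ⟨v, hv1, hv⟩ := he c h
    have h1 : (u : 𝓞 F) - 1 ∈ v.asIdeal := by
      have h2 := hu v
      have h3 : (1 : ℤ) ≤ (((∑ c : Q, e c) v : ℕ) : ℤ) := by
        rw [Finsupp.finsetSum_apply]
        have : e c v ≤ ∑ c : Q, e c v := Finset.single_le_sum
          (f := fun c => e c v) (fun _ _ => Nat.zero_le _) (Finset.mem_univ c)
        exact_mod_cast hv1.trans this
      have h4 : Ge v (1 : ℕ) (((u : 𝓞 F) - 1 : 𝓞 F) : F) := h2.mono (by exact_mod_cast h3)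
      have h5 := CspApprox_ge_iff.1 h4
      rwa [pow_one] at h5
    apply hv ((x⁻¹ : (𝓞 F)ˣ) : 𝓞 F)
    have h6 : ((Quotient.out c : (𝓞 F)ˣ) : 𝓞 F) = (u : 𝓞 F) * ((x⁻¹ : (𝓞 F)ˣ) : 𝓞 F) ^ 2 := by
      have h7 : (Quotient.out c : (𝓞 F)ˣ) = u * (x⁻¹) ^ 2 := by
        conv_rhs => rw [hu2]
        rw [inv_pow, mul_inv_cancel_right]
      calc ((Quotient.out c : (𝓞 F)ˣ) : 𝓞 F) = ((u * (x⁻¹) ^ 2 : (𝓞 F)ˣ) : 𝓞 F) := by rw [← h7]
        _ = _ := by rw [Units.val_mul, Units.val_pow_eq_pow_val]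
    rw [h6]
    have h8 : (u : 𝓞 F) * ((x⁻¹ : (𝓞 F)ˣ) : 𝓞 F) ^ 2 - ((x⁻¹ : (𝓞 F)ˣ) : 𝓞 F) ^ 2 =
        ((u : 𝓞 F) - 1) * ((x⁻¹ : (𝓞 F)ˣ) : 𝓞 F) ^ 2 := by ring
    rw [h8]
    exact v.asIdeal.mul_mem_right _ h1

theorem Gam_sgn (F : Type) [Field F] [NumberField F] : ∃ e : Md F, ∀ γ ∈ Gam e, sgn γ = 1 := by
  obtain ⟨e, he⟩ := exists_sq_mod F
  refine ⟨e, fun γ hγ => ?_⟩
  obtain ⟨h1, h2⟩ := mem_Gam.1 hγ
  -- determinants are congruent to `1`
  have key : ∀ A : Matrix (Fin 2) (Fin 2) F, (∀ i j, (A - 1) i j ∈ R e.z) →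
      ∀ w, Ge w (e.z w) (A.det - 1) := by
    intro A hA w
    have ha := hA 0 0 w
    have hb := hA 0 1 w
    have hc := hA 1 0 w
    have hd := hA 1 1 w
    have he0 : (0 : ℤ) ≤ e.z w := Int.natCast_nonneg _
    have h3 : A.det - 1 = (A - 1) 0 0 * (A - 1) 1 1 + (A - 1) 0 0 + (A - 1) 1 1 -
        (A - 1) 0 1 * (A - 1) 1 0 := by
      rw [Matrix.det_fin_two]
      simp only [Matrix.sub_apply, Matrix.one_apply_eq]
      rw [Matrix.one_apply_ne (by norm_num : (0 : Fin 2) ≠ 1),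
        Matrix.one_apply_ne (by norm_num : (1 : Fin 2) ≠ 0)]
      ring
    rw [h3]
    exact ((((ha.mul hd).mono (by omega)).add ha).add hd).sub ((hb.mul hc).mono (by omega))
  have hint : ∀ x : F, (∀ w, Ge w (e.z w) (x - 1)) → ∃ a : 𝓞 F, (a : F) = x := by
    intro x hx
    have h3 : ∀ w : Pl F, w.valuation F x ≤ 1 := by
      intro w
      have h4 : Ge w 0 x := by
        have h5 : x = (x - 1) + 1 := by ring
        rw [h5]
        exact ((hx w).mono (Int.natCast_nonneg _)).add (ge_one w)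
      rw [Ge, neg_zero, WithZero.exp_zero] at h4
      exact h4
    obtain ⟨a, ha⟩ := HeightOneSpectrum.mem_integers_of_valuation_le_one F x h3
    exact ⟨a, ha⟩
  obtain ⟨a, ha⟩ := hint _ (key _ h1)
  obtain ⟨b, hb⟩ := hint _ (key _ h2)
  have hab : a * b = 1 := by
    apply RingOfIntegers.ext
    change (a : F) * (b : F) = 1
    rw [ha, hb, ← Matrix.det_mul, ← Units.val_mul, mul_inv_cancel, Units.val_one, Matrix.det_one]
  let u : (𝓞 F)ˣ := ⟨a, b, hab, by rw [mul_comm]; exact hab⟩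
  obtain ⟨x, hx⟩ := he u (by
    intro w
    change Ge w (e.z w) ((a : F) - 1)
    rw [ha]
    exact key _ h1 w)
  have hdet : (γ : Matrix (Fin 2) (Fin 2) F).det = (((x : (𝓞 F)ˣ) : 𝓞 F) : F) ^ 2 := by
    rw [← ha]
    have h3 : a = ((x : (𝓞 F)ˣ) : 𝓞 F) ^ 2 := by
      have := congrArg Units.val hx
      rwa [Units.val_pow_eq_pow_val] at this
    rw [h3]
    rfl
  funext w
  have hpos : 0 < rdet w γ := by
    rw [rdet, hdet, map_pow]
    have hne : InfinitePlace.embedding_of_isReal w.2 (((x : (𝓞 F)ˣ) : 𝓞 F) : F) ≠ 0 := by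
      rw [map_ne_zero]
      intro h0
      have h4 : ((x : (𝓞 F)ˣ) : 𝓞 F) = 0 := RingOfIntegers.ext h0
      exact x.ne_zero h4
    positivity
  exact if_pos hpos

namespace UnitPosAux

open Filter Topology

theorem tendsto_of_val {v : Pl F} (a : ℕ → Fv v) (x : Fv v)
    (h : ∀ n : ℕ, Valued.v (a n - x) ≤ WithZero.exp (-(n : ℤ))) : Tendsto a atTop (𝓝 x) := by
  intro s hs
  obtain ⟨γ, hγ⟩ := Valued.mem_nhds.1 hs
  rw [Filter.mem_map, mem_atTop_sets]
  have hγ0 : MonoidWithZeroHom.ValueGroup₀.embedding γ.1 ≠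
      (0 : WithZero (Multiplicative ℤ)) := by
    intro h0
    exact γ.ne_zero ((map_eq_zero _).1 h0)
  obtain ⟨m, hm⟩ : ∃ m : ℤ, MonoidWithZeroHom.ValueGroup₀.embedding γ.1 = WithZero.exp m :=
    ⟨WithZero.log _, (WithZero.exp_log hγ0).symm⟩
  refine ⟨(1 - m).toNat, fun n hn => hγ ?_⟩
  rw [Set.mem_ofPred_eq, Valuation.restrict_lt_iff_lt_embedding]
  refine (h n).trans_lt ?_
  rw [hm, WithZero.exp_lt_exp]
  omega

/-- A neighbourhood of `1` in `GL₂(F_v)` contains a principal congruence subgroup. -/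
theorem exists_level (v : Pl F) (U : Set (GQ v)) (hU : IsOpen U) (h1 : 1 ∈ U) :
    ∃ n : ℕ, ∀ h : GQ v,
      (∀ i j, Valued.v (((h : Matrix (Fin 2) (Fin 2) (Fv v)) - 1) i j) ≤
        WithZero.exp (-(n : ℤ))) →
      (∀ i j, Valued.v ((((h⁻¹ : GQ v) : Matrix (Fin 2) (Fin 2) (Fv v)) - 1) i j) ≤
        WithZero.exp (-(n : ℤ))) → h ∈ U := by
  by_contra hcon
  push Not at hcon
  choose k hk1 hk2 hkU using hcon
  have hent : ∀ (a : ℕ → Matrix (Fin 2) (Fin 2) (Fv v)),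
      (∀ n i j, Valued.v ((a n - 1) i j) ≤ WithZero.exp (-(n : ℤ))) →
      Tendsto a atTop (𝓝 1) := by
    intro a ha
    refine tendsto_pi_nhds.2 fun i => tendsto_pi_nhds.2 fun j => ?_
    exact tendsto_of_val _ _ fun n => ha n i j
  have hk1' := hent _ hk1
  have hk2' := hent _ hk2
  have hk3 : Tendsto k atTop (𝓝 1) := by
    rw [Units.isEmbedding_embedProduct.isInducing.nhds_eq_comap, tendsto_comap_iff]
    have h3 : (𝓝 (Units.embedProduct _ (1 : GQ v))) =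
        𝓝 (1 : Matrix (Fin 2) (Fin 2) (Fv v)) ×ˢ
          𝓝 (1 : (Matrix (Fin 2) (Fin 2) (Fv v))ᵐᵒᵖ) := by
      rw [← nhds_prod_eq]
      rfl
    rw [h3]
    refine Tendsto.prodMk hk1' ?_
    exact (MulOpposite.continuous_op.tendsto _).comp hk2'
  obtain ⟨n, hn⟩ := (hk3.eventually (hU.mem_nhds h1)).exists
  exact hkU n hn

theorem loc_le {v : Pl F} {n : ℕ} {A : Matrix (Fin 2) (Fin 2) F}
    (h : ∀ i j, Ge v n ((A - 1) i j)) (i j : Fin 2) :
    Valued.v ((A.map (algebraMap F (Fv v)) - 1 : Matrix (Fin 2) (Fin 2) (Fv v)) i j) ≤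
      WithZero.exp (-(n : ℤ)) := by
  have h1 : (A.map (algebraMap F (Fv v)) - 1 : Matrix (Fin 2) (Fin 2) (Fv v)) i j =
      (((A - 1) i j : F) : Fv v) := by
    change _ = algebraMap F (Fv v) ((A - 1) i j)
    rw [Matrix.sub_apply, Matrix.map_apply, Matrix.sub_apply, map_sub]
    congr 1
    by_cases hij : i = j
    · subst hij
      rw [Matrix.one_apply_eq, Matrix.one_apply_eq, map_one]
    · rw [Matrix.one_apply_ne hij, Matrix.one_apply_ne hij, map_zero]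
  rw [h1, HeightOneSpectrum.adicCompletion.valued_coe]
  exact h i j

/-- Elements of `Gam e` are close to `1` at every place. -/
theorem loc_mem_of_level {v : Pl F} {U : Set (GQ v)} {n : ℕ} (hn : ∀ h : GQ v,
      (∀ i j, Valued.v (((h : Matrix (Fin 2) (Fin 2) (Fv v)) - 1) i j) ≤
        WithZero.exp (-(n : ℤ))) →
      (∀ i j, Valued.v ((((h⁻¹ : GQ v) : Matrix (Fin 2) (Fin 2) (Fv v)) - 1) i j) ≤
        WithZero.exp (-(n : ℤ))) → h ∈ U) {e : Md F} (he : n ≤ e v) {γ : G F}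
    (hγ : γ ∈ Gam e) : loc v γ ∈ U := by
  have hle : (n : ℤ) ≤ e.z v := by
    change (n : ℤ) ≤ ((e v : ℕ) : ℤ)
    exact_mod_cast he
  apply hn
  · exact loc_le fun i j => (hγ.1 i j v).mono hle
  · rw [← map_inv]
    exact loc_le fun i j => (hγ.2 i j v).mono hle

theorem loc_mem_GZ {v : Pl F} {e : Md F} {γ : G F} (hγ : γ ∈ Gam e) : loc v γ ∈ GZ v := by
  have key : ∀ A : Matrix (Fin 2) (Fin 2) F, (∀ i j, (A - 1) i j ∈ R e.z) → ∀ i j,
      Valued.v ((A i j : F) : Fv v) ≤ 1 := by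
    intro A hA i j
    rw [HeightOneSpectrum.adicCompletion.valued_coe]
    have h1 : Ge v 0 ((1 : Matrix (Fin 2) (Fin 2) F) i j) := by
      by_cases hij : i = j
      · subst hij
        rw [Matrix.one_apply_eq]
        exact ge_one v
      · rw [Matrix.one_apply_ne hij]
        exact ge_zero v 0
    have h2 : Ge v 0 (A i j) := by
      have h3 : A i j = (A - 1) i j + (1 : Matrix (Fin 2) (Fin 2) F) i j := by
        rw [Matrix.sub_apply, sub_add_cancel]
      rw [h3]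
      exact ((hA i j v).mono (Int.natCast_nonneg _)).add h1
    rw [Ge, neg_zero, WithZero.exp_zero] at h2
    exact h2
  rw [mem_GZ_iff]
  refine ⟨fun i j => ?_, fun i j => ?_⟩
  · rw [loc_apply]
    exact key _ hγ.1 i j
  · rw [loc_inv_apply]
    exact key _ hγ.2 i j

end UnitPosAux

/-- The stabiliser of a point contains a congruence subgroup. -/
theorem Gam_oc {K : Subgroup (GA F)} {S : Set (Pl F)} (hK : OC K S) (y : Pt F) :
    ∃ e : Md F, ∀ γ ∈ Gam e, ∃ κ ∈ K, act γ y = rt y κ := by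
  classical
  obtain ⟨e0, he0⟩ := Gam_sgn F
  obtain ⟨U, hUo, hUS, hUK⟩ := hK.op
  obtain ⟨s, g⟩ := y
  have hch : ∀ v : Pl F, ∃ n : ℕ, ∀ h : GQ v,
      (∀ i j, Valued.v (((h : Matrix (Fin 2) (Fin 2) (Fv v)) - 1) i j) ≤
        WithZero.exp (-(n : ℤ))) →
      (∀ i j, Valued.v ((((h⁻¹ : GQ v) : Matrix (Fin 2) (Fin 2) (Fv v)) - 1) i j) ≤
        WithZero.exp (-(n : ℤ))) → h ∈ {h : GQ v | (g.1 v)⁻¹ * h * g.1 v ∈ U v} := by
    intro v
    refine exists_level v _ ?_ ?_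
    · exact (hUo v).preimage ((continuous_const_mul _).mul_const _)
    · rw [Set.mem_ofPred_eq, mul_one, inv_mul_cancel]
      exact (U v).one_mem
  choose n hn using hch
  have hfin : ({v | g.1 v ∉ GZ v} ∪ S).Finite := Set.Finite.union g.2 hK.fin
  let e1 : Md F := Finsupp.onFinset hfin.toFinset
    (fun v => if v ∈ hfin.toFinset then n v else 0) (by
      intro v hv
      by_contra h
      exact hv (if_neg h))
  refine ⟨e0 + e1, fun γ hγ => ?_⟩
  have h0 : γ ∈ Gam e0 := Gam_mono le_self_add hγ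
  have h1 : γ ∈ Gam e1 := Gam_mono le_add_self hγ
  refine ⟨g⁻¹ * diag γ * g, hUK _ ?_, ?_⟩
  · intro v
    change (g.1 v)⁻¹ * loc v γ * g.1 v ∈ U v
    by_cases hv : v ∈ hfin.toFinset
    · have h2 : n v ≤ e1 v := by
        change n v ≤ (if v ∈ hfin.toFinset then n v else 0)
        rw [if_pos hv]
      exact loc_mem_of_level (hn v) h2 h1
    · rw [Set.Finite.mem_toFinset, Set.mem_union, Set.mem_ofPred_eq, not_or, not_not] at hv
      exact hUS v hv.2 ((GZ v).mul_mem ((GZ v).mul_mem ((GZ v).inv_mem hv.1) (loc_mem_GZ h1))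
        hv.1)
  · rw [act, rt, he0 γ h0, one_mul]
    congr 1
    group

end Pool.Agent.CG2
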