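import Pool.Agent.CG2.Coc0
import Pool.Agent.CG2.ClassFin
import Pool.Agent.CG2.CspEnd
import Pool.Agent.CG2.OrbTw
import Pool.Agent.CG2.UnitPos

/-!
# Translates of cocycles by `SL₂(F_v)`
-/

noncomputable section

namespace Pool.Agent.CG2

open NumberField IsDedekindDomain Matrix

variable {F : Type} [Field F] [NumberField F] {V : Type} [AddCommGroup V]

/-- The stabiliser of a coset `y K`. -/
def Coc1St (K : Subgroup (GA F)) (y : Pt F) : Subgroup (G F) where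
  carrier := {γ | ∃ κ ∈ K, act γ y = rt y κ}
  mul_mem' := by
    rintro a b ⟨κ, hκ, ha⟩ ⟨κ', hκ', hb⟩
    refine ⟨κ * κ', K.mul_mem hκ hκ', ?_⟩
    rw [act_mul, hb, act_rt, ha, rt_mul]
  one_mem' := ⟨1, K.one_mem, by rw [act_one, rt_one]⟩
  inv_mem' := by
    rintro a ⟨κ, hκ, ha⟩
    refine ⟨κ⁻¹, K.inv_mem hκ, ?_⟩
    have h1 : act a (rt y κ⁻¹) = y := by
      rw [act_rt, ha, ← rt_mul, mul_inv_cancel, rt_one]
    calc act a⁻¹ y = act a⁻¹ (act a (rt y κ⁻¹)) := by rw [h1]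
      _ = rt y κ⁻¹ := by rw [← act_mul, inv_mul_cancel, act_one]

theorem coc1_mem {K : Subgroup (GA F)} {y : Pt F} {γ : G F} :
    γ ∈ Coc1St K y ↔ ∃ κ ∈ K, act γ y = rt y κ := Iff.rfl

theorem coc1_inv {K : Subgroup (GA F)} {y : Pt F} {γ : G F} (h : γ ∈ Coc1St K y) :
    ∃ κ ∈ K, act γ⁻¹ y = rt y κ := (Coc1St K y).inv_mem h

/-- The conjugation rule for cocycles. -/
theorem coc1_conj {K : Subgroup (GA F)} {η : G F →* AddMonoid.End V} (hη : Tw K η)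
    {K' : Subgroup (GA F)} (hK' : K' ≤ K) {c : G F → Pt F → V} (hc : Coc η c)
    (hcK : ∀ γ, RInv K' (c γ)) {γ δ : G F} {y : Pt F} (h : γ ∈ Coc1St K' (act δ y)) :
    c γ (act δ y) = η δ (c (δ⁻¹ * γ * δ) y) := by
  have h1 := hc γ δ (act δ y)
  have h2 := hc δ (δ⁻¹ * γ * δ) (act δ y)
  have h3 : δ * (δ⁻¹ * γ * δ) = γ * δ := by group
  have h0 : act δ⁻¹ (act δ y) = y := by rw [← act_mul, inv_mul_cancel, act_one]
  rw [h3, h1, h0] at h2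
  obtain ⟨κ, hκ, hκ2⟩ := coc1_inv h
  obtain ⟨κ', hκ', hκ'2⟩ := h
  have h4 : η γ = 1 := hη.stab γ (act δ y) κ' (hK' hκ') hκ'2
  rw [h4, hκ2, hcK δ _ κ hκ] at h2
  have h5 : (1 : AddMonoid.End V) (c δ (act δ y)) = c δ (act δ y) := rfl
  rw [h5, add_comm] at h2
  exact add_left_cancel h2

theorem coc1_add {K : Subgroup (GA F)} {η : G F →* AddMonoid.End V} (hη : Tw K η)
    {c : G F → Pt F → V} (hc : Coc η c)
    (hcK : ∀ γ, RInv K (c γ)) (y : Pt F) : AddOn (Coc1St K y) fun γ => c γ y := by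
  intro g hg h hh
  change c (g * h) y = c g y + c h y
  rw [hc g h y]
  obtain ⟨κ, hκ, hκ2⟩ := coc1_inv hg
  obtain ⟨κ', hκ', hκ'2⟩ := hg
  rw [hη.stab g y κ' hκ' hκ'2, hκ2, hcK h _ κ hκ]
  rfl

/-- **L1**, pointwise. -/
theorem coc_point (hF : TwoPl F) {K : Subgroup (GA F)} {S : Set (Pl F)} (hK : OC K S) {p : ℕ}
    (hp : 0 < p) (hV : ∀ x : V, p • x = 0) {η : G F →* AddMonoid.End V} (hη : Tw K η)
    {c : G F → Pt F → V} (hc : Coc η c) (hcK : ∀ γ, RInv K (c γ)) (y : Pt F) (u : GA F)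
    (hu : ∀ v, dtv (u.1 v) = 1) : ∃ e : Md F, ∀ γ ∈ Gam e, (∃ κ ∈ K, act γ y = rt y κ) ∧
      c γ (rt y u) = c γ y := by
  obtain ⟨δ, hδ, κ₀, hκ₀, -, hyu⟩ := strong_approx hK y.2 u hu
  have hyu' : rt y u = rt (act δ y) κ₀ := by
    refine Prod.ext ?_ ?_
    · change y.1 = sgn δ * y.1
      rw [sgn_of_det hδ, one_mul]
    · exact hyu
  obtain ⟨n, hn⟩ := Gam_oc hK y
  obtain ⟨n', hn'⟩ := Gam_oc hK (act δ y)
  have hδi : ((δ⁻¹ : G F) : Matrix (Fin 2) (Fin 2) F).det = 1 := by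
    have h1 : (δ : Matrix (Fin 2) (Fin 2) F).det * ((δ⁻¹ : G F) : Matrix (Fin 2) (Fin 2) F).det
        = 1 := by
      rw [← Matrix.det_mul, ← Units.val_mul, mul_inv_cancel, Units.val_one, Matrix.det_one]
    rwa [hδ, one_mul] at h1
  obtain ⟨e', he'⟩ := csp_lite hF n p hp δ⁻¹ hδi
  refine ⟨e' + n', fun γ hγ => ?_⟩
  obtain ⟨h1, h2, h3⟩ := he' V hV (Coc1St K y) (fun γ => c γ y) (fun g hg => hn g hg)
    (coc1_add hη hc hcK y) γ (Gam_mono le_self_add hγ)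
  refine ⟨h1, ?_⟩
  have h4 : γ ∈ Coc1St K (act δ y) := hn' γ (Gam_mono le_add_self hγ)
  rw [hyu', hcK γ _ κ₀ hκ₀, coc1_conj hη le_rfl hc hcK h4, hη.sl δ hδ]
  rw [inv_inv] at h3
  exact h3

/-- **L1** -/
theorem coc_trans (hF : TwoPl F) {K : Subgroup (GA F)} {S : Set (Pl F)} (hK : OC K S) {p : ℕ}
    (hp : 0 < p) (hV : ∀ x : V, p • x = 0) {η : G F →* AddMonoid.End V} (hη : Tw K η)
    {c : G F → Pt F → V} (hc : Coc η c) (hcK : ∀ γ, RInv K (c γ)) (u : GA F)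
    (hu : ∀ v, dtv (u.1 v) = 1) :
    ∃ (K' : Subgroup (GA F)) (S' : Set (Pl F)) (f : Pt F → V), OC K' S' ∧ RInv K' f ∧
      ∀ γ y, c γ (rt y u) - c γ y = η γ (f (act γ⁻¹ y)) - f y := by
  -- the difference cocycle
  set c' : G F → Pt F → V := fun γ y => c γ (rt y u) - c γ y with hc'
  have hc'c : Coc η c' := by
    intro γ δ y
    simp only [hc']
    rw [hc γ δ (rt y u), hc γ δ y, act_rt, map_sub]
    abel
  -- the level of the difference cocycle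
  obtain ⟨S₀, hS₀⟩ := hK.conj u
  have hK₁ := hK.inter hS₀
  set K₁ : Subgroup (GA F) := K ⊓ K.map (MulAut.conj u).toMonoidHom with hK₁d
  have hc'K₁ : ∀ γ, RInv K₁ (c' γ) := by
    intro γ y κ hκ
    obtain ⟨h1, k, hk, h2⟩ := hκ
    have h3 : κ * u = u * k := by
      rw [← h2]
      change u * k * u⁻¹ * u = u * k
      group
    simp only [hc']
    rw [hcK γ y κ h1, ← rt_mul, h3, rt_mul, hcK γ _ k hk]
  obtain ⟨Φ, hΦ, hΦ2⟩ := fin_double hK₁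
  -- a small level
  have hK₂ : ∃ (K₂ : Subgroup (GA F)) (S₂ : Set (Pl F)), OC K₂ S₂ ∧ ∀ y₀ ∈ Φ, ∀ γ : G F,
      (y₀.2)⁻¹ * diag γ * y₀.2 ∈ K₂ → c' γ y₀ = 0 := by
    clear hΦ2
    induction Φ, hΦ using Set.Finite.induction_on with
    | empty => exact ⟨K, S, hK, fun y₀ h => absurd h (Set.notMem_empty y₀)⟩
    | insert _ _ ih =>
      rename_i a Φ' _ _
      obtain ⟨K₂, S₂, h1, h2⟩ := ih
      obtain ⟨e, he⟩ := coc_point hF hK hp hV hη hc hcK a u hu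
      obtain ⟨K₃, S₃, h3, h4⟩ := oc_Gam e a.2
      refine ⟨K₂ ⊓ K₃, S₂ ∪ S₃, h1.inter h3, ?_⟩
      intro y₀ hy₀ γ hγ
      rcases Set.mem_insert_iff.1 hy₀ with rfl | hy₀
      · have h5 := (he γ (h4 γ hγ.2)).2
        simp only [hc']
        rw [h5, sub_self]
      · exact h2 y₀ hy₀ γ hγ.1
  obtain ⟨K₂, S₂, hK₂, hK₂2⟩ := hK₂
  obtain ⟨K', S', hK', hle, hnorm⟩ := hK₁.core hK₂
  have hle₁ : K' ≤ K₁ := hle.trans inf_le_left
  have hle₂ : K' ≤ K₂ := hle.trans inf_le_right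
  have hleK : K' ≤ K := hle₁.trans inf_le_left
  have hc'K' : ∀ γ, RInv K' (c' γ) := fun γ y κ hκ => hc'K₁ γ y κ (hle₁ hκ)
  obtain ⟨f, hf, hf2⟩ := orbit_tw hc'c hc'K' (by
    intro γ y κ hκ hγy
    obtain ⟨γ₁, y₀, hy₀, κ₁, hκ₁, rfl⟩ := hΦ2 y
    rw [hc'K₁ γ _ κ₁ hκ₁]
    have h1 : act γ (act γ₁ y₀) = rt (act γ₁ y₀) (κ₁ * κ * κ₁⁻¹) := by
      have h2 : rt (act γ (act γ₁ y₀)) κ₁ = rt (rt (act γ₁ y₀) κ₁) κ := by
        rw [← act_rt]; exact hγy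
      calc act γ (act γ₁ y₀) = rt (rt (act γ (act γ₁ y₀)) κ₁) κ₁⁻¹ := by
            rw [← rt_mul, mul_inv_cancel, rt_one]
        _ = rt (act γ₁ y₀) (κ₁ * κ * κ₁⁻¹) := by
            rw [h2, ← rt_mul, ← rt_mul, mul_assoc]
    have h3 : γ ∈ Coc1St K' (act γ₁ y₀) := ⟨_, hnorm κ₁ hκ₁ κ hκ, h1⟩
    rw [coc1_conj hη hleK hc'c hc'K' h3]
    have h4 : (y₀.2)⁻¹ * diag (γ₁⁻¹ * γ * γ₁) * y₀.2 = κ₁ * κ * κ₁⁻¹ := by
      have h5 : diag γ * (diag γ₁ * y₀.2) = (diag γ₁ * y₀.2) * (κ₁ * κ * κ₁⁻¹) :=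
        congrArg Prod.snd h1
      rw [map_mul, map_mul, map_inv]
      calc (y₀.2)⁻¹ * ((diag γ₁)⁻¹ * diag γ * diag γ₁) * y₀.2 =
            (y₀.2)⁻¹ * (diag γ₁)⁻¹ * (diag γ * (diag γ₁ * y₀.2)) := by
              simp only [mul_assoc]
        _ = _ := by rw [h5]; group
    rw [hK₂2 y₀ hy₀ _ (by rw [h4]; exact hle₂ (hnorm κ₁ hκ₁ κ hκ)), map_zero])
  exact ⟨K', S', f, hK', hf, hf2⟩

end Pool.Agent.CG2
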