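import Pool.Agent.CG2.Coc1

/-!
# `T_v² - (1 + N v)² R_v` is nilpotent on one-cocycles
-/

noncomputable section

namespace Pool.Agent.CG2

open NumberField IsDedekindDomain Matrix

variable {F : Type} [Field F] [NumberField F] {V : Type} [AddCommGroup V]

theorem Coc2_unram {K : Subgroup (GA F)} {S : Set (Pl F)} (hK : OC K S) {v : Pl F}
    (hv : v ∉ S) : Unram K (1 : Representation ℤ K V) v where
  le := fun _ hk => hK.at hv hk
  mem := fun _ hk => hK.single hv hk
  triv := fun _ _ => rfl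

theorem Coc2_forms {K : Subgroup (GA F)} (f : Pt F → V) :
    RInv K f ↔ f ∈ Forms K (1 : Representation ℤ K V) :=
  ⟨fun h y k => h y k.1 k.2, fun h y κ hκ => h y ⟨κ, hκ⟩⟩

theorem Coc2_hecke_inv {K : Subgroup (GA F)} {S : Set (Pl F)} (hK : OC K S) {v : Pl F}
    (hv : v ∉ S) {f : Pt F → V} (hf : RInv K f) (j : Fin 3) :
    RInv K (heckeSum (v := v) j f) :=
  (Coc2_forms _).2 (heckeSum_mem (⟨f, (Coc2_forms f).1 hf⟩ : Forms K (1 : Representation ℤ K V))
    (Coc2_unram hK hv) j)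

theorem Coc2_congr {K : Subgroup (GA F)} {S : Set (Pl F)} (hK : OC K S) {v : Pl F}
    (hv : v ∉ S) {f : Pt F → V} (hf : RInv K f) (y : Pt F) {h h' : GQ v}
    (hh : (h : GQ v ⧸ GZ v) = (h' : GQ v ⧸ GZ v)) :
    f (rt y (single v h)) = f (rt y (single v h')) :=
  forms_congr_coset (⟨f, (Coc2_forms f).1 hf⟩ : Forms K (1 : Representation ℤ K V))
    (Coc2_unram hK hv) y hh

theorem Coc2_T {K : Subgroup (GA F)} {S : Set (Pl F)} (hK : OC K S) {v : Pl F}
    (hv : v ∉ S) {f : Pt F → V} (hf : RInv K f) {n : ℕ} (a : Fin n → GQ v)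
    (ha : Function.Injective fun i => (a i : GQ v ⧸ GZ v))
    (ha' : (Set.range fun i => (a i : GQ v ⧸ GZ v)) = cosets v 0) (y : Pt F) :
    heckeSum (v := v) 0 f y = ∑ i, f (rt y (single v (a i))) := by
  classical
  unfold heckeSum
  have h1 : (cosets_finite v 0).toFinset =
      Finset.univ.image (fun i => (a i : GQ v ⧸ GZ v)) := by
    ext c
    rw [Set.Finite.mem_toFinset, ← ha']
    simp
  rw [h1, Finset.sum_image (fun i _ j _ h => ha h)]
  exact Finset.sum_congr rfl fun i _ => Coc2_congr hK hv hf y (Quotient.out_eq' _)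

theorem Coc2_R {K : Subgroup (GA F)} {S : Set (Pl F)} (hK : OC K S) {v : Pl F}
    (hv : v ∉ S) {f : Pt F → V} (hf : RInv K f) (y : Pt F) :
    heckeSum (v := v) 1 f y = f (rt y (single v (sc v))) := by
  classical
  unfold heckeSum
  have h1 : (cosets_finite v 1).toFinset = {((sc v : GQ v) : GQ v ⧸ GZ v)} := by
    ext c
    rw [Set.Finite.mem_toFinset, cosets_scalar v 1 (by decide)]
    simp
  rw [h1, Finset.sum_singleton]
  exact Coc2_congr hK hv hf y (Quotient.out_eq' _)

theorem Coc2_PP_inv {K : Subgroup (GA F)} {S : Set (Pl F)} (hK : OC K S) {v : Pl F}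
    (hv : v ∉ S) {f : Pt F → V} (hf : RInv K f) : RInv K (PP v f) := by
  intro y κ hκ
  unfold PP
  rw [Coc2_hecke_inv hK hv (Coc2_hecke_inv hK hv hf 0) 0 y κ hκ,
    Coc2_hecke_inv hK hv hf 1 y κ hκ]

theorem Coc2_PP {K : Subgroup (GA F)} {S : Set (Pl F)} (hK : OC K S) {v : Pl F}
    (hv : v ∉ S) {f : Pt F → V} (hf : RInv K f) {n : ℕ} (a : Fin n → GQ v)
    (ha : Function.Injective fun i => (a i : GQ v ⧸ GZ v))
    (ha' : (Set.range fun i => (a i : GQ v ⧸ GZ v)) = cosets v 0) (y : Pt F) :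
    PP v f y = ∑ i, ∑ j, f (rt y (single v (a i * a j))) -
      (1 + Nm v) ^ 2 • f (rt y (single v (sc v))) := by
  unfold PP
  rw [Coc2_T hK hv (Coc2_hecke_inv hK hv hf 0) a ha ha', Coc2_R hK hv hf]
  congr 1
  refine Finset.sum_congr rfl fun i _ => ?_
  rw [Coc2_T hK hv hf a ha ha']
  refine Finset.sum_congr rfl fun j _ => ?_
  rw [map_mul, rt_mul]

theorem Coc2_elem (v : Pl F) (g : GQ v) (hZ : g ∈ GZ v) (hg : dtv g = 1) :
    ∃ a b c d : Fv v, Valued.v a ≤ 1 ∧ Valued.v b ≤ 1 ∧ Valued.v c ≤ 1 ∧ Valued.v d ≤ 1 ∧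
      g = Ev v a * StrAppL v b * Ev v c * StrAppL v d := by
  have hg' : ((g : GQ v) : Matrix (Fin 2) (Fin 2) (Fv v)).det = 1 := hg
  rw [Matrix.det_fin_two] at hg'
  have hZ' := ((mem_GZ_iff v g).1 hZ).1
  have hp1 := hZ' 0 0
  have hq1 := hZ' 0 1
  have hr1 := hZ' 1 0
  have hs1 := hZ' 1 1
  set p := (g : Matrix (Fin 2) (Fin 2) (Fv v)) 0 0 with hp
  set q := (g : Matrix (Fin 2) (Fin 2) (Fv v)) 0 1 with hq
  set r := (g : Matrix (Fin 2) (Fin 2) (Fv v)) 1 0 with hr
  set s := (g : Matrix (Fin 2) (Fin 2) (Fv v)) 1 1 with hs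
  have key : ∀ a b c d : Fv v, p = (1 + a * b) + ((1 + a * b) * c + a) * d →
      q = (1 + a * b) * c + a → r = b + (b * c + 1) * d → s = b * c + 1 →
      g = Ev v a * StrAppL v b * Ev v c * StrAppL v d := by
    intro a b c d h1 h2 h3 h4
    apply Units.ext
    have h5 : ((Ev v a * StrAppL v b * Ev v c * StrAppL v d : GQ v) :
        Matrix (Fin 2) (Fin 2) (Fv v)) = !![(1 + a * b) + ((1 + a * b) * c + a) * d,
          (1 + a * b) * c + a; b + (b * c + 1) * d, b * c + 1] := by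
      rw [Units.val_mul, Units.val_mul, Units.val_mul, StrApp_Ev_val, StrApp_Ev_val,
        StrApp_L_val, StrApp_L_val]
      simp only [Matrix.mul_fin_two]
      ext i j
      fin_cases i <;> fin_cases j <;> simp
    rw [h5, ← h1, ← h2, ← h3, ← h4]
    exact Matrix.eta_fin_two _
  have hsub : ∀ x y : Fv v, Valued.v x ≤ 1 → Valued.v y ≤ 1 → Valued.v (x - y) ≤ 1 :=
    fun x y hx hy => (Valuation.map_sub _ _ _).trans (max_le hx hy)
  have hadd : ∀ x y : Fv v, Valued.v x ≤ 1 → Valued.v y ≤ 1 → Valued.v (x + y) ≤ 1 :=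
    fun x y hx hy => (Valuation.map_add _ _ _).trans (max_le hx hy)
  have hone : Valued.v (1 : Fv v) ≤ 1 := (map_one _).le
  have hdiv : ∀ x y : Fv v, Valued.v x ≤ 1 → Valued.v y = 1 → Valued.v (x / y) ≤ 1 := by
    intro x y hx hy
    rw [map_div₀, hy, div_one]
    exact hx
  rcases eq_or_lt_of_le hr1 with h1 | h1
  · have hr0 : r ≠ 0 := by
      intro h
      rw [h, map_zero] at h1
      exact zero_ne_one h1
    refine ⟨(p - 1) / r, r, (s - 1) / r, 0, hdiv _ _ (hsub _ _ hp1 hone) h1, hr1,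
      hdiv _ _ (hsub _ _ hs1 hone) h1, by simp, key _ _ _ _ ?_ ?_ ?_ ?_⟩
    · field_simp; ring
    · field_simp
      linear_combination -hg'
    · ring
    · field_simp; ring
  · have h2 : Valued.v s = 1 := by
      by_contra hne
      have h3 : Valued.v s < 1 := lt_of_le_of_ne hs1 hne
      have h4 : Valued.v (p * s - q * r) < 1 := by
        refine (Valuation.map_sub _ _ _).trans_lt (max_lt ?_ ?_)
        · rw [map_mul]
          exact (mul_le_mul' hp1 le_rfl).trans_lt (by rw [one_mul]; exact h3)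
        · rw [map_mul]
          exact (mul_le_mul' hq1 le_rfl).trans_lt (by rw [one_mul]; exact h1)
      rw [hg', map_one] at h4
      exact lt_irrefl _ h4
    have h3 : Valued.v (r + s) = 1 := by
      rw [Valuation.map_add_eq_of_lt_right _ (by rw [h2]; exact h1), h2]
    have hrs0 : r + s ≠ 0 := by
      intro h
      rw [h, map_zero] at h3
      exact zero_ne_one h3
    refine ⟨(p + q - 1) / (r + s), r + s, (s - 1) / (r + s), -1,
      hdiv _ _ (hsub _ _ (hadd _ _ hp1 hq1) hone) h3, h3.le, hdiv _ _ (hsub _ _ hs1 hone) h3,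
      by rw [Valuation.map_neg]; exact hone, key _ _ _ _ ?_ ?_ ?_ ?_⟩
    · field_simp
      linear_combination hg'
    · field_simp
      linear_combination -hg'
    · field_simp; ring
    · field_simp; ring

/-- A common level. -/
theorem Coc2_level {K : Subgroup (GA F)} {S : Set (Pl F)} (hK : OC K S) {ι : Type}
    (s : Finset ι) (K1 : ι → Subgroup (GA F)) (S1 : ι → Set (Pl F))
    (h : ∀ i, OC (K1 i) (S1 i)) : ∃ (K' : Subgroup (GA F)) (S' : Set (Pl F)), OC K' S' ∧
      ∀ i ∈ s, K' ≤ K1 i := by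
  classical
  induction s using Finset.induction_on with
  | empty => exact ⟨K, S, hK, fun i hi => absurd hi (Finset.notMem_empty i)⟩
  | insert a s _ ih =>
    obtain ⟨K', S', h1, h2⟩ := ih
    refine ⟨K' ⊓ K1 a, S' ∪ S1 a, h1.inter (h a), fun i hi => ?_⟩
    rcases Finset.mem_insert.1 hi with rfl | hi
    · exact inf_le_right
    · exact inf_le_left.trans (h2 i hi)

theorem Coc2_L_add (v : Pl F) (x y : Fv v) :
    StrAppL v (x + y) = StrAppL v x * StrAppL v y := by
  apply Units.ext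
  rw [Units.val_mul, StrApp_L_val, StrApp_L_val, StrApp_L_val]
  simp

theorem Coc2_L_mem {v : Pl F} {x : Fv v} (h : Valued.v x ≤ 1) : StrAppL v x ∈ GZ v := by
  have hneg : (StrAppL v x)⁻¹ = StrAppL v (-x) := by
    rw [eq_comm, eq_inv_iff_mul_eq_one, ← Coc2_L_add, neg_add_cancel, StrApp_L_zero]
  rw [mem_GZ_iff, hneg]
  refine ⟨fun i j => ?_, fun i j => ?_⟩
  · rw [StrApp_L_val]; fin_cases i <;> fin_cases j <;> simp [h]
  · rw [StrApp_L_val]; fin_cases i <;> fin_cases j <;> simp [h]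

/-- **L2** -/
theorem coc_PP (hF : TwoPl F) {K : Subgroup (GA F)} {S : Set (Pl F)} (hK : OC K S) {p : ℕ}
    [Fact p.Prime] (hpS : ∀ v : Pl F, Above p v → v ∈ S)
    (hV : ∀ x : V, p • x = 0) {η : G F →* AddMonoid.End V} (hη : Tw K η)
    {c : G F → Pt F → V} (hc : Coc η c) (hcK : ∀ γ, RInv K (c γ)) (v : Pl F) (hv : v ∉ S) :
    ∃ f : Pt F → V, RInv K f ∧ ∀ γ y, PP v (PP v (c γ)) y = η γ (f (act γ⁻¹ y)) - f y := by
  classical
  have hp0 : 0 < p := (Fact.out : p.Prime).pos
  obtain ⟨a, ha1, ha2, ha3⟩ := cosets_fam v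
  have hdsc : dtv (sc v) = ((pi v : F) : Fv v) * ((pi v : F) : Fv v) := by
    have h5 : ((sc v : GQ v) : Matrix (Fin 2) (Fin 2) (Fv v)) = (algebraMap F (Fv v)).mapMatrix
        ((dg (pi v) (pi v) (pi_ne v) (pi_ne v) : G F) : Matrix (Fin 2) (Fin 2) F) := rfl
    change ((sc v : GQ v) : Matrix (Fin 2) (Fin 2) (Fv v)).det = _
    rw [h5, ← RingHom.map_det]
    have h6 : ((dg (pi v) (pi v) (pi_ne v) (pi_ne v) : G F) :
        Matrix (Fin 2) (Fin 2) F).det = pi v * pi v := by
      change (Matrix.diagonal ![pi v, pi v]).det = _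
      simp [Matrix.det_diagonal]
    rw [h6]
    exact map_mul (algebraMap F (Fv v)) _ _
  have hpi0 : ((pi v : F) : Fv v) ≠ 0 := (map_ne_zero (algebraMap F (Fv v))).2 (pi_ne v)
  have hsc0 : dtv (sc v) ≠ 0 := by
    rw [hdsc]; exact mul_ne_zero hpi0 hpi0
  have hdinv : ∀ g : GQ v, dtv g * dtv g⁻¹ = 1 := by
    intro g
    change ((g : GQ v) : Matrix (Fin 2) (Fin 2) (Fv v)).det * ((g⁻¹ : GQ v) :
      Matrix (Fin 2) (Fin 2) (Fv v)).det = 1
    rw [← Matrix.det_mul, ← Units.val_mul, mul_inv_cancel, Units.val_one, Matrix.det_one]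
  have hdmul : ∀ g g' : GQ v, dtv (g * g') = dtv g * dtv g' := by
    intro g g'
    change ((g * g' : GQ v) : Matrix (Fin 2) (Fin 2) (Fv v)).det = _
    rw [Units.val_mul, Matrix.det_mul]
  let U : Fin (Ideal.absNorm v.asIdeal + 1) → Fin (Ideal.absNorm v.asIdeal + 1) → GQ v :=
    fun i j => a i * a j * (sc v)⁻¹
  have hU : ∀ i j, dtv (U i j) = 1 := by
    intro i j
    change dtv (a i * a j * (sc v)⁻¹) = 1
    rw [hdmul, hdmul, ha1, ha1, ← hdsc, hdinv]
  have hUs : ∀ i j, a i * a j = sc v * U i j := by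
    intro i j
    rw [sc_comm]
    change a i * a j = a i * a j * (sc v)⁻¹ * sc v
    rw [inv_mul_cancel_right]
  have hdsingle : ∀ (g : GQ v), dtv g = 1 → ∀ w, dtv ((single v g).1 w) = 1 := by
    intro g hg w
    by_cases hw : w = v
    · subst hw
      rw [single_same]; exact hg
    · rw [single_ne hw]
      change ((1 : GQ w) : Matrix (Fin 2) (Fin 2) (Fv w)).det = 1
      rw [Units.val_one, Matrix.det_one]
  -- step 1
  have hstep := fun i j => coc_trans hF hK hp0 hV hη hc hcK (single v (U i j))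
    (hdsingle _ (hU i j))
  choose K1 S1 f1 hK1 hf1 h1 using hstep
  let F0 : Pt F → V := fun y => ∑ i, ∑ j, f1 i j (rt y (single v (sc v)))
  have hF0 : ∀ γ y, PP v (c γ) y = η γ (F0 (act γ⁻¹ y)) - F0 y := by
    intro γ y
    rw [Coc2_PP hK hv (hcK γ) a ha2 ha3]
    have e1 : ∀ i j, c γ (rt y (single v (a i * a j))) =
        (c γ (rt (rt y (single v (sc v))) (single v (U i j))) -
          c γ (rt y (single v (sc v)))) + c γ (rt y (single v (sc v))) := by
      intro i j
      rw [sub_add_cancel, ← rt_mul, ← map_mul, ← hUs]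
    simp only [e1, h1]
    have e2 : (1 + Nm v) ^ 2 • c γ (rt y (single v (sc v))) =
        ∑ _i : Fin (Ideal.absNorm v.asIdeal + 1), ∑ _j : Fin (Ideal.absNorm v.asIdeal + 1),
          c γ (rt y (single v (sc v))) := by
      rw [Finset.sum_const, Finset.sum_const, Finset.card_univ, Fintype.card_fin, ← mul_smul,
        pow_two, add_comm 1 (Nm v)]
      rfl
    rw [e2]
    simp only [F0, map_sum, act_rt, Finset.sum_add_distrib, Finset.sum_sub_distrib]
    abel
  have hF0inv : ∃ (K2 : Subgroup (GA F)) (S2 : Set (Pl F)), OC K2 S2 ∧ RInv K2 F0 := by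
    choose S2 hS2 using fun i j => (hK1 i j).conj (single v (sc v))
    obtain ⟨K', S', h2, h3⟩ := Coc2_level hK
      (Finset.univ : Finset (Fin (Ideal.absNorm v.asIdeal + 1) ×
        Fin (Ideal.absNorm v.asIdeal + 1)))
      (fun x => (K1 x.1 x.2).map (MulAut.conj (single v (sc v))).toMonoidHom)
      (fun x => S2 x.1 x.2) (fun x => hS2 x.1 x.2)
    refine ⟨K', S', h2, fun y κ hκ => ?_⟩
    refine Finset.sum_congr rfl fun i _ => Finset.sum_congr rfl fun j _ => ?_
    obtain ⟨k, hk, e⟩ := h3 (i, j) (Finset.mem_univ _) hκ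
    have e3 : κ * single v (sc v) = single v (sc v) * k := by
      rw [← e]
      change single v (sc v) * k * (single v (sc v))⁻¹ * single v (sc v) = _
      rw [inv_mul_cancel_right]
    rw [← rt_mul, e3, rt_mul]
    exact hf1 i j _ k hk
  obtain ⟨K2, S2, hK2, hF0K2⟩ := hF0inv
  obtain ⟨K3, S3, hK3, hle, hnorm⟩ := hK.core hK2
  -- nu
  let nu : GA F → Pt F → V := fun κ y => F0 (rt y κ) - F0 y
  have hnu : ∀ κ y, F0 (rt y κ) = F0 y + nu κ y := fun κ y => by simp [nu]
  have hnuSL : ∀ κ ∈ K, ∀ γ : G F, (γ : Matrix (Fin 2) (Fin 2) F).det = 1 →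
      ∀ y, nu κ (act γ y) = nu κ y := by
    intro κ hκ γ hγ y
    have hγ' : (((γ⁻¹ : G F)) : Matrix (Fin 2) (Fin 2) F).det = 1 := by
      have h2 := congrArg (fun g : G F => (g : Matrix (Fin 2) (Fin 2) F).det) (mul_inv_cancel γ)
      simp only [Units.val_mul, Matrix.det_mul, hγ, one_mul, Units.val_one, Matrix.det_one] at h2
      exact h2
    have h2 := Coc2_PP_inv hK hv (hcK γ⁻¹) y κ hκ
    rw [hF0, hF0, hη.sl _ hγ', inv_inv, act_rt] at h2
    change F0 (rt (act γ y) κ) - F0 (rt y κ) = F0 (act γ y) - F0 y at h2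
    change F0 (rt (act γ y) κ) - F0 (act γ y) = F0 (rt y κ) - F0 y
    rw [sub_eq_sub_iff_add_eq_add] at h2 ⊢
    rw [h2, add_comm]
  have hnuK : ∀ κ ∈ K, RInv K3 (nu κ) := by
    intro κ hκ y k hk
    have h2 : κ⁻¹ * k * κ ∈ K3 := by
      have := hnorm κ⁻¹ (K.inv_mem hκ) k hk
      rwa [inv_inv] at this
    have h3 : k * κ = κ * (κ⁻¹ * k * κ) := by group
    change F0 (rt (rt y k) κ) - F0 (rt y k) = F0 (rt y κ) - F0 y
    rw [← rt_mul, h3, rt_mul, hF0K2 _ _ ((hle.trans inf_le_right) h2),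
      hF0K2 _ _ ((hle.trans inf_le_right) hk)]
  have hnuA : ∀ κ ∈ K, ∀ y (u : GA F), (∀ w, dtv (u.1 w) = 1) → nu κ (rt y u) = nu κ y :=
    fun κ hκ y u hu => inv_SL hK3 (hnuK κ hκ) (hnuSL κ hκ) y u hu
  have hnumul : ∀ κ κ' y, nu (κ * κ') y = nu κ' (rt y κ) + nu κ y := by
    intro κ κ' y
    simp only [nu, rt_mul]
    abel
  -- the elementary matrices
  have hnat : ∀ n : ℕ, Valued.v ((n : ℕ) : Fv v) ≤ 1 := by
    intro n
    induction n with
    | zero => simp
    | succ n ih =>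
      rw [Nat.cast_succ]
      exact (Valuation.map_add _ _ _).trans (max_le ih (map_one _).le)
  have hpv : Valued.v ((p : ℕ) : Fv v) = 1 := by
    have h1 : ¬ Above p v := fun h => hv (hpS v h)
    have h2 : v.valuation F (((p : ℕ) : 𝓞 F) : F) = 1 := by
      rw [HeightOneSpectrum.valuation_eq_one_iff_notMem]
      exact h1
    have h3 : Valued.v (((((p : ℕ) : 𝓞 F) : F)) : Fv v) = 1 := by
      rw [HeightOneSpectrum.adicCompletion.valued_coe]
      exact h2
    have h4 : (((((p : ℕ) : 𝓞 F) : F)) : Fv v) = ((p : ℕ) : Fv v) := by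
      have h5 : ((((p : ℕ) : 𝓞 F) : F)) = ((p : ℕ) : F) := map_natCast (algebraMap (𝓞 F) F) p
      rw [h5]
      exact map_natCast (algebraMap F (Fv v)) p
    rw [← h4]
    exact h3
  have helem : ∀ (E : Fv v → GQ v), (∀ x x', E (x + x') = E x * E x') →
      (∀ x, Valued.v x ≤ 1 → E x ∈ GZ v) → (∀ x, dtv (E x) = 1) →
      ∀ x, Valued.v x ≤ 1 → ∀ y, nu (single v (E x)) y = 0 := by
    intro E hE1 hE2 hE3 x hx y
    have hadd : ∀ z z' : Fv v, Valued.v z ≤ 1 → Valued.v z' ≤ 1 →
        nu (single v (E (z + z'))) y = nu (single v (E z)) y + nu (single v (E z')) y := by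
      intro z z' hz hz'
      rw [hE1, map_mul, hnumul, hnuA _ (hK.single hv (hE2 z' hz')) y _ (hdsingle _ (hE3 z)),
        add_comm]
    have hz : Valued.v (x / (p : Fv v)) ≤ 1 := by
      rw [map_div₀, hpv, div_one]; exact hx
    have hint : ∀ n : ℕ, Valued.v ((n : Fv v) * (x / (p : Fv v))) ≤ 1 := by
      intro n
      rw [map_mul]
      exact (mul_le_mul' (hnat n) hz).trans (one_mul _).le
    have hn : ∀ n : ℕ, nu (single v (E ((n : Fv v) * (x / (p : Fv v))))) y =
        n • nu (single v (E (x / (p : Fv v)))) y := by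
      intro n
      induction n with
      | zero =>
        rw [Nat.cast_zero, zero_mul, zero_smul]
        have h3 := hadd 0 0 (by simp) (by simp)
        rw [add_zero] at h3
        exact left_eq_add.1 h3
      | succ n ih =>
        rw [Nat.cast_succ, add_mul, one_mul, hadd _ _ (hint n) hz, ih, succ_nsmul]
    have h4 := hn p
    have hp0' : (p : Fv v) ≠ 0 := by
      intro h
      rw [h, map_zero] at hpv
      exact zero_ne_one hpv
    rw [mul_div_cancel₀ _ hp0', hV] at h4
    exact h4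
  have hSLO : ∀ g ∈ GZ v, dtv g = 1 → ∀ y, nu (single v g) y = 0 := by
    intro g hg hd y
    obtain ⟨x1, x2, x3, x4, h1, h2, h3, h4, rfl⟩ := Coc2_elem v g hg hd
    have hEd : ∀ x, dtv (Ev v x) = 1 := by
      intro x
      change ((Ev v x : GQ v) : Matrix (Fin 2) (Fin 2) (Fv v)).det = 1
      rw [StrApp_Ev_val]; simp [Matrix.det_fin_two]
    have hLd : ∀ x, dtv (StrAppL v x) = 1 := by
      intro x
      change ((StrAppL v x : GQ v) : Matrix (Fin 2) (Fin 2) (Fv v)).det = 1
      rw [StrApp_L_val]; simp [Matrix.det_fin_two]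
    have hE := helem (Ev v) (StrApp_Ev_add v) (fun x hx => StrApp_Ev_mem.2 hx) hEd
    have hL := helem (StrAppL v) (Coc2_L_add v) (fun x hx => Coc2_L_mem hx) hLd
    rw [map_mul, map_mul, map_mul, hnumul, hnumul, hnumul, hL _ h4, hE _ h3, hL _ h2, hE _ h1]
    simp
  -- permutation of the cosets
  have hperm : ∀ k ∈ GZ v, ∀ A B : GQ v → V,
      (∀ i, ∀ k' ∈ GZ v, dtv k' = dtv k → A (a i * k') = B (a i)) →
      ∑ i, A (k * a i) = ∑ i, B (a i) := by
    intro k hk A B hAB
    have hex : ∀ i, ∃ i', ∃ k' ∈ GZ v, k * a i = a i' * k' := by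
      intro i
      have h2 : ((a i : GQ v) : GQ v ⧸ GZ v) ∈ cosets v 0 := by
        rw [← ha3]; exact ⟨i, rfl⟩
      have h3 := smul_mem_cosets h2 hk
      rw [← ha3] at h3
      obtain ⟨i', hi'⟩ := h3
      have h4 : ((a i' : GQ v) : GQ v ⧸ GZ v) = ((k * a i : GQ v) : GQ v ⧸ GZ v) := hi'
      refine ⟨i', (a i')⁻¹ * (k * a i), QuotientGroup.eq.1 h4, ?_⟩
      rw [mul_inv_cancel_left]
    choose s k' hk' hs using hex
    have hinj : Function.Injective s := by
      intro i j hij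
      apply ha2
      have h2 := hs i
      have h3 := hs j
      rw [← hij] at h3
      have h4 : a j = a i * ((k' i)⁻¹ * k' j) := by
        have h5 : a i = k⁻¹ * (a (s i) * k' i) := by rw [← h2, inv_mul_cancel_left]
        have h6 : a j = k⁻¹ * (a (s i) * k' j) := by rw [← h3, inv_mul_cancel_left]
        rw [h6]
        conv_rhs => rw [h5]
        group
      change ((a i : GQ v) : GQ v ⧸ GZ v) = ((a j : GQ v) : GQ v ⧸ GZ v)
      rw [QuotientGroup.eq, h4, inv_mul_cancel_left]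
      exact (GZ v).mul_mem ((GZ v).inv_mem (hk' i)) (hk' j)
    have hbij : Function.Bijective s := Finite.injective_iff_bijective.1 hinj
    have hd : ∀ i, dtv (k' i) = dtv k := by
      intro i
      have h2 := congrArg dtv (hs i)
      rw [hdmul, hdmul, ha1, ha1, mul_comm] at h2
      exact (mul_left_cancel₀ hpi0 h2).symm
    calc ∑ i, A (k * a i) = ∑ i, B (a (s i)) := by
          refine Finset.sum_congr rfl fun i _ => ?_
          rw [hs i, hAB _ _ (hk' i) (hd i)]
      _ = ∑ i, B (a i) := hbij.sum_comp (fun i => B (a i))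
  let F1 : Pt F → V := fun y => ∑ i, ∑ j, F0 (rt y (single v (a i * a j))) -
    (1 + Nm v) ^ 2 • F0 (rt y (single v (sc v)))
  refine ⟨F1, fun y κ hκ => ?_, fun γ y => ?_⟩
  · -- invariance
    set κv : GQ v := κ.1 v with hκv
    have hκvZ : κv ∈ GZ v := hK.at hv hκ
    obtain ⟨κ', hκ'⟩ : ∃ κ' : GA F, κ = single v κv * κ' :=
      ⟨(single v κv)⁻¹ * κ, by rw [mul_inv_cancel_left]⟩
    have hκ'v : κ'.1 v = 1 := by
      have h2 : κ.1 v = (single v κv).1 v * κ'.1 v := congrArg (fun z : GA F => z.1 v) hκ'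
      rw [single_same, ← hκv] at h2
      exact left_eq_mul.1 h2
    have hcomm : ∀ b : GQ v, κ' * single v b = single v b * κ' := fun b => single_comm' b hκ'v
    have hcore : ∀ (Y : Pt F) (k' : GQ v), k' ∈ GZ v → dtv k' = dtv κv →
        F0 (rt Y (single v k' * κ')) = F0 Y + nu κ Y := by
      intro Y k' hk' hdk
      have e1 : single v k' * κ' = κ * single v (κv⁻¹ * k') := by
        rw [hκ', mul_assoc, hcomm, ← mul_assoc, ← map_mul (single v), mul_inv_cancel_left]
      rw [e1, rt_mul, hnu, hSLO, add_zero, hnu]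
      · exact (GZ v).mul_mem ((GZ v).inv_mem hκvZ) hk'
      · have h2 := hdinv κv
        rw [hdmul, hdk, mul_comm]
        exact h2
    have hmain : ∑ i, ∑ j, F0 (rt (rt y κ) (single v (a i * a j))) =
        ∑ i, ∑ j, (F0 (rt y (single v (a i * a j))) + nu κ (rt y (single v (a i * a j)))) := by
      have e1 : ∀ i j, rt (rt y κ) (single v (a i * a j)) =
          rt y (single v (κv * a i * a j) * κ') := by
        intro i j
        rw [← rt_mul, hκ', mul_assoc, hcomm, ← mul_assoc, ← map_mul, mul_assoc κv]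
      simp only [e1]
      refine hperm κv hκvZ (fun g => ∑ j, F0 (rt y (single v (g * a j) * κ')))
        (fun g => ∑ j, (F0 (rt y (single v (g * a j))) + nu κ (rt y (single v (g * a j))))) ?_
      intro i k' hk' hdk
      have e2 : ∀ j, a i * k' * a j = a i * (k' * a j) := fun j => mul_assoc _ _ _
      simp only [e2]
      refine hperm k' hk' (fun g => F0 (rt y (single v (a i * g) * κ')))
        (fun g => F0 (rt y (single v (a i * g))) + nu κ (rt y (single v (a i * g)))) ?_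
      intro j k'' hk'' hdk'
      have e3 : single v (a i * (a j * k'')) * κ' = single v (a i * a j) * (single v k'' * κ') := by
        rw [← mul_assoc (single v (a i * a j)), ← map_mul (single v), mul_assoc (a i)]
      change F0 (rt y (single v (a i * (a j * k'')) * κ')) = _
      rw [e3, rt_mul]
      exact hcore _ k'' hk'' (hdk'.trans hdk)
    have hsc : rt (rt y κ) (single v (sc v)) = rt (rt y (single v (sc v))) κ := by
      rw [← rt_mul, ← rt_mul]
      congr 1
      rw [hκ', mul_assoc, hcomm, ← mul_assoc, ← map_mul, ← sc_comm, map_mul, mul_assoc]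
    have hPP := PP_inv' hK3 (hnuK κ hκ) (hnuSL κ hκ) v a ha1 y
    change ∑ i, ∑ j, F0 (rt (rt y κ) (single v (a i * a j))) -
      (1 + Nm v) ^ 2 • F0 (rt (rt y κ) (single v (sc v))) = F1 y
    rw [hmain, hsc, hnu]
    simp only [Finset.sum_add_distrib, hPP, smul_add, F1]
    abel
  · -- coboundary
    rw [Coc2_PP hK hv (Coc2_PP_inv hK hv (hcK γ)) a ha2 ha3]
    simp only [hF0, F1, map_sub, map_sum, map_nsmul, act_rt, Finset.sum_sub_distrib, smul_sub]
    abel

end Pool.Agent.CG2
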