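import Pool.Agent.CG2.Defs

/-!
# Ray class characters
-/

noncomputable section

namespace Pool.Agent.CG2

open NumberField IsDedekindDomain

variable {F : Type} [Field F] [NumberField F]

/-- The exponent of the prime ideal `v` in the ideal `I`. -/
def expo (v : Pl F) (I : Ideal (𝓞 F)) : ℕ :=
  (Associates.mk v.asIdeal).count (Associates.mk I).factors

/-- The integer `a` of `F` is positive at all real places. -/
def TotPos (a : 𝓞 F) : Prop := ∀ w : RPl F, 0 < InfinitePlace.embedding_of_isReal w.2 (a : F)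

/-- The function `ψ` on the finite places is a ray class character outside `S`: its
multiplicative extension to the ideals is trivial on the principal ideals `(a)` with `a` totally
positive and congruent to `1` modulo a fixed ideal `m₀`, which is divisible by all `v ∈ S`. -/
def IsRay {κ : Type} [Field κ] (S : Set (Pl F)) (ψ : Pl F → κ) : Prop :=
  (∀ v, ψ v ≠ 0) ∧ ∃ m₀ : Ideal (𝓞 F), m₀ ≠ ⊥ ∧ (∀ v ∈ S, m₀ ≤ v.asIdeal) ∧
    ∀ a : 𝓞 F, a ≠ 0 → a - 1 ∈ m₀ → TotPos a →
      ∏ᶠ v : Pl F, ψ v ^ expo v (Ideal.span {a}) = 1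

/-- The principal ideals generated by totally positive elements congruent to `1` modulo `m₀`. -/
def InRay (m₀ : Ideal (𝓞 F)) (I : Ideal (𝓞 F)) : Prop :=
  ∃ a : 𝓞 F, a ≠ 0 ∧ a - 1 ∈ m₀ ∧ TotPos a ∧ I = Ideal.span {a}

/-- The zeta function of the ray class inverse to the class of `b`. -/
def Zc (m₀ b : Ideal (𝓞 F)) (s : ℝ) : ℝ :=
  ∑' I : {I : Ideal (𝓞 F) // InRay m₀ (I * b)}, (Ideal.absNorm I.1 : ℝ) ^ (-s)

end Pool.Agent.CG2
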