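import Pool.Agent.CG2.Statement
import Pool.Agent.CG2.CspBase
import Pool.Agent.CG2.RayDefs
import Pool.Agent.CG2.AdDefs

/-!
# Auxiliary definitions
-/

noncomputable section

namespace Pool.Agent.CG2

open CategoryTheory NumberField IsDedekindDomain Matrix

variable {F : Type} [Field F] [NumberField F]
variable {O : Type} [CommRing O] {W : Type} [AddCommGroup W] [Module O W]

/-- `W` is, modulo the ideal `I`, a trivial `K ∩ U`-module for an open subgroup `U` which contains
`GL₂(O_v)` for `v` outside `S`. -/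
def ContMod (K : Subgroup (GA F)) (τ : Representation O K W) (S : Set (Pl F)) (I : Ideal O) :
    Prop :=
  ∃ U : ∀ v : Pl F, Subgroup (GQ v), (∀ v, IsOpen (U v : Set (GQ v))) ∧
    (∀ v, v ∉ S → GZ v ≤ U v) ∧ ∀ k : K, (∀ v, k.1.1 v ∈ U v) →
      ∀ w : W, τ k w - w ∈ (I • ⊤ : Submodule O W)

/-- The `K`-module `W` is continuous. -/
def Cont [IsLocalRing O] (K : Subgroup (GA F)) (τ : Representation O K W) (S : Set (Pl F)) :
    Prop := ∀ n : ℕ, ContMod K τ S (IsLocalRing.maximalIdeal O ^ n)

/-- `K` acts on `W` through the quotient by an open subgroup. -/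
def Smooth (K : Subgroup (GA F)) (τ : Representation O K W) (S : Set (Pl F)) : Prop :=
  ContMod K τ S ⊥

/-- The cohomological dimension `d_Y - 1` of the groups `GL₂(F) ∩ g K_f g⁻¹`. -/
def nU (F : Type) [Field F] [NumberField F] : ℕ := 3 * r1 F + 4 * r2 F - 2

theorem card_pl (F : Type) [Field F] [NumberField F] :
    Fintype.card (InfinitePlace F) = r1 F + r2 F := by
  rw [r1, r2, InfinitePlace.card_eq_nrRealPlaces_add_nrComplexPlaces]

end Pool.Agent.CG2
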