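import Pool.Agent.CG2.HeckeReps
import Pool.Agent.CG2.Iface

/-!
# Cocycles with values in functions: the notation
-/

noncomputable section

namespace Pool.Agent.CG2

open NumberField IsDedekindDomain Matrix

variable {F : Type} [Field F] [NumberField F] {V : Type} [AddCommGroup V]

/-- Right invariant functions. -/
def RInv (K : Subgroup (GA F)) (f : Pt F → V) : Prop := ∀ y, ∀ κ ∈ K, f (rt y κ) = f y

/-- One-cocycles with values in the functions on `Pt`, with a twisted action. -/
def Coc (η : G F →* AddMonoid.End V) (c : G F → Pt F → V) : Prop :=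
  ∀ γ δ y, c (γ * δ) y = c γ y + η γ (c δ (act γ⁻¹ y))

/-- The twists: trivial on `SL₂(F)` and on the stabilisers of the points. -/
structure Tw (K : Subgroup (GA F)) (η : G F →* AddMonoid.End V) : Prop where
  sl : ∀ γ : G F, (γ : Matrix (Fin 2) (Fin 2) F).det = 1 → η γ = 1
  stab : ∀ (γ : G F) (y : Pt F), ∀ κ ∈ K, act γ y = rt y κ → η γ = 1

/-- The operator `T_v² - (1 + N v)² R_v`. -/
def PP (v : Pl F) (f : Pt F → V) : Pt F → V := fun y =>
  heckeSum (v := v) 0 (heckeSum (v := v) 0 f) y - (1 + Nm v) ^ 2 • heckeSum (v := v) 1 f y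

end Pool.Agent.CG2
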