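import Pool.Agent.CG2.Defs

/-!
# Compactness of the rings of integers of the completions
-/

noncomputable section

namespace Pool.Agent.CG2

open NumberField IsDedekindDomain Matrix

variable {F : Type} [Field F] [NumberField F]

theorem isOpen_val_lt (v : Pl F) (γ : WithZero (Multiplicative ℤ)) (hγ : γ ≠ 0) :
    IsOpen {z : Fv v | Valued.v z < γ} := by
  obtain ⟨x, hx⟩ := HeightOneSpectrum.valuedAdicCompletion_surjective F v γ
  have h1 := Valued.isOpen_ball (Fv v) (Valued.v.restrict x)
  have h2 : {z : Fv v | Valued.v z < γ} = {z | Valued.v.restrict z < Valued.v.restrict x} := by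
    ext z
    simp only [Set.mem_ofPred_eq, Valuation.restrict_lt_iff, hx]
  rw [h2]
  exact h1

theorem isOpen_val_le (v : Pl F) (γ : WithZero (Multiplicative ℤ)) (hγ : γ ≠ 0) :
    IsOpen {z : Fv v | Valued.v z ≤ γ} := by
  have h0 : 0 < γ := zero_lt_iff.2 hγ
  rw [isOpen_iff_mem_nhds]
  intro x hx
  have h1 : IsOpen {z : Fv v | Valued.v (x - z) < γ} :=
    (isOpen_val_lt v γ hγ).preimage (continuous_const.sub continuous_id)
  refine Filter.mem_of_superset (h1.mem_nhds (by simp [h0])) ?_
  intro z hz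
  have : z = x - (x - z) := by ring
  rw [Set.mem_ofPred_eq, this]
  exact (Valuation.map_sub _ _ _).trans (max_le hx hz.le)

/-- Density of `F` in `F_v`. -/
theorem exists_sub_lt (v : Pl F) (x : Fv v) (γ : WithZero (Multiplicative ℤ)) (hγ : γ ≠ 0) :
    ∃ y : F, Valued.v (x - ((y : F) : Fv v)) < γ := by
  have hd := HeightOneSpectrum.denseRange_algebraMap (R := 𝓞 F) F v
  have hopen : IsOpen {z : Fv v | Valued.v (x - z) < γ} :=
    (isOpen_val_lt v γ hγ).preimage (continuous_const.sub continuous_id)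
  obtain ⟨z, hz, ⟨y, hy⟩⟩ := hd.inter_open_nonempty _ hopen ⟨x, by simp [zero_lt_iff, hγ]⟩
  refine ⟨y, ?_⟩
  rw [← hy] at hz
  exact hz

/-- Density: an integral element of `F_v` is close to an integer of `F`. -/
theorem exists_int_sub_lt (v : Pl F) (x : Fv v) (hx : Valued.v x ≤ 1)
    (γ : (WithZero (Multiplicative ℤ))ˣ) :
    ∃ a : 𝓞 F, Valued.v (x - (((a : 𝓞 F) : F) : Fv v)) < γ := by
  set δ : WithZero (Multiplicative ℤ) := min γ.1 1 with hδ
  have hδ0 : δ ≠ 0 := by
    rw [hδ]
    rcases min_choice γ.1 1 with h | h <;> rw [h]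
    · exact γ.ne_zero
    · exact one_ne_zero
  obtain ⟨y, hy⟩ := exists_sub_lt v x δ hδ0
  have hy1 : v.valuation F y ≤ 1 := by
    have h1 : Valued.v ((y : F) : Fv v) ≤ 1 := by
      have : ((y : F) : Fv v) = x - (x - ((y : F) : Fv v)) := by ring
      rw [this]
      exact (Valuation.map_sub _ _ _).trans (max_le hx (hy.le.trans (min_le_right _ _)))
    rwa [HeightOneSpectrum.adicCompletion.valued_coe] at h1
  obtain ⟨a, ha⟩ := v.exists_valuation_sub_lt_of_integer hy1 γ
  refine ⟨a, ?_⟩
  have h2 : Valued.v ((((a : 𝓞 F) : F) : Fv v) - ((y : F) : Fv v)) < γ := by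
    have h3 : (((a : 𝓞 F) : F) : Fv v) - ((y : F) : Fv v) = (((a : F) - y : F) : Fv v) := by
      have h4 := map_sub (algebraMap F (Fv v)) (a : F) y
      exact h4.symm
    rw [h3, HeightOneSpectrum.adicCompletion.valued_coe]
    exact ha
  have h5 : x - (((a : 𝓞 F) : F) : Fv v) =
      (x - ((y : F) : Fv v)) - ((((a : 𝓞 F) : F) : Fv v) - ((y : F) : Fv v)) := by ring
  rw [h5]
  exact (Valuation.map_sub _ _ _).trans_lt (max_lt (hy.trans_le (min_le_left _ _)) h2)

/-- The residue field of `O_v` is finite. -/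
instance finite_residue (v : Pl F) : Finite (IsLocalRing.ResidueField (Ov v)) := by
  have hfin : Finite (𝓞 F ⧸ v.asIdeal) :=
    Ideal.finiteQuotientOfFreeOfNeBot v.asIdeal v.ne_bot
  let f : 𝓞 F →+* IsLocalRing.ResidueField (Ov v) :=
    (IsLocalRing.residue (Ov v)).comp (algebraMap (𝓞 F) (Ov v))
  have hsurj : Function.Surjective f := by
    intro z
    obtain ⟨x, rfl⟩ := IsLocalRing.residue_surjective z
    obtain ⟨a, ha⟩ := exists_int_sub_lt v x.1 x.2 1
    refine ⟨a, ?_⟩
    change IsLocalRing.residue (Ov v) (algebraMap (𝓞 F) (Ov v) a) = _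
    rw [← sub_eq_zero, ← map_sub, IsLocalRing.residue_eq_zero_iff, IsLocalRing.mem_maximalIdeal,
      mem_nonunits_iff, HeightOneSpectrum.adicCompletionIntegers.isUnit_iff_valued_eq_one]
    intro h
    have h1 : Valued.v ((algebraMap (𝓞 F) (Ov v) a - x : Ov v) : Fv v) < 1 := by
      rw [← Valuation.map_neg]
      have : -((algebraMap (𝓞 F) (Ov v) a - x : Ov v) : Fv v) = x.1 - (((a : 𝓞 F) : F) : Fv v) := by
        rw [AddSubgroupClass.coe_sub, neg_sub]
        rfl
      rw [this]
      exact ha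
    exact absurd h h1.ne
  have hker : ∀ a ∈ v.asIdeal, f a = 0 := by
    intro a ha
    change IsLocalRing.residue (Ov v) (algebraMap (𝓞 F) (Ov v) a) = _
    rw [IsLocalRing.residue_eq_zero_iff, IsLocalRing.mem_maximalIdeal,
      mem_nonunits_iff, HeightOneSpectrum.adicCompletionIntegers.isUnit_iff_valued_eq_one]
    intro h
    have h1 : Valued.v ((((a : 𝓞 F) : F) : Fv v)) = 1 := h
    rw [HeightOneSpectrum.adicCompletion.valued_coe] at h1
    exact absurd h1 ((v.valuation_lt_one_iff_mem a).2 ha).ne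
  exact Finite.of_surjective (Ideal.Quotient.lift v.asIdeal f hker) (by
    intro z
    obtain ⟨a, ha⟩ := hsurj z
    exact ⟨Ideal.Quotient.mk _ a, by simpa using ha⟩)

instance compactSpace_Ov (v : Pl F) : CompactSpace (Ov v) := by
  have h1 : CompleteSpace (Ov v) := by
    have : IsClosed ((Ov v : Set (Fv v))) := Valued.isClosed_integer (Fv v)
    exact this.completeSpace_coe
  have h2 : IsDiscreteValuationRing (Ov v) := inferInstance
  exact Valued.integer.compactSpace_iff_completeSpace_and_isDiscreteValuationRing_and_finite_residueField.2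
    ⟨h1, h2, finite_residue v⟩

end Pool.Agent.CG2
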