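import Pool.Agent.CG2.CspUnit
import Pool.Agent.CG2.CspApprox

/-!
# The congruence subgroup argument, steps A1 and A3
-/

noncomputable section

namespace Pool.Agent.CG2

open NumberField IsDedekindDomain Matrix

variable {F : Type} [Field F] [NumberField F]

theorem csp1_unit_val (w : Pl F) (u : (𝓞 F)ˣ) : w.valuation F ((u : 𝓞 F) : F) = 1 := by
  have h1 := w.valuation_le_one (K := F) (u : 𝓞 F)
  have h2 := w.valuation_le_one (K := F) ((u⁻¹ : (𝓞 F)ˣ) : 𝓞 F)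
  have h3 : w.valuation F ((u : 𝓞 F) : F) * w.valuation F (((u⁻¹ : (𝓞 F)ˣ) : 𝓞 F) : F) = 1 := by
    rw [← map_mul, ← map_mul (algebraMap (𝓞 F) F), ← Units.val_mul, mul_inv_cancel,
      Units.val_one, map_one, map_one]
  refine le_antisymm h1 ?_
  calc (1 : WithZero (Multiplicative ℤ)) = w.valuation F ((u : 𝓞 F) : F) *
        w.valuation F (((u⁻¹ : (𝓞 F)ˣ) : 𝓞 F) : F) := h3.symm
    _ ≤ w.valuation F ((u : 𝓞 F) : F) * 1 := mul_le_mul_right h2 _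
    _ = _ := mul_one _

theorem csp1_unit_ne (u : (𝓞 F)ˣ) : ((u : 𝓞 F) : F) ≠ 0 := by
  intro h
  have : (u : 𝓞 F) = 0 := by
    apply (FaithfulSMul.algebraMap_injective (𝓞 F) F)
    rw [map_zero]; exact h
  exact u.ne_zero this

theorem csp1_ge_unit {w : Pl F} {u : (𝓞 F)ˣ} {n : ℤ} {x : F} :
    Ge w n (((u : 𝓞 F) : F) * x) ↔ Ge w n x := by
  rw [Ge, Ge, map_mul, csp1_unit_val, one_mul]

/-- Division by an element of known order. -/
theorem csp1_ge_div {w : Pl F} {c x : F} {o n : ℤ} (hc : w.valuation F c = WithZero.exp (-o))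
    (h : Ge w (n + o) x) : Ge w n (x / c) := by
  rw [Ge, map_div₀, hc, div_le_iff₀ (by exact WithZero.exp_pos), ← WithZero.exp_add]
  rw [Ge] at h
  convert h using 2
  ring

theorem csp1_Ee_mem {n : Md F} {z : F} (hz : z ∈ R n.z) : Ee z ∈ Gam n := by
  have h0 : (0 : F) ∈ R n.z := (R n.z).zero_mem
  refine ⟨?_, ?_⟩
  · intro i j
    rw [Ee_val, Matrix.one_fin_two, Matrix.of_sub_of]
    fin_cases i <;> fin_cases j <;> simp [h0, hz]
  · intro i j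
    rw [← Ee_neg, Ee_val, Matrix.one_fin_two, Matrix.of_sub_of]
    fin_cases i <;> fin_cases j <;> simp [h0, hz]

theorem csp1_El_mem {n : Md F} {z : F} (hz : z ∈ R n.z) : El z ∈ Gam n := by
  have h0 : (0 : F) ∈ R n.z := (R n.z).zero_mem
  refine ⟨?_, ?_⟩
  · intro i j
    rw [El_val, Matrix.one_fin_two, Matrix.of_sub_of]
    fin_cases i <;> fin_cases j <;> simp [h0, hz]
  · intro i j
    rw [← El_neg, El_val, Matrix.one_fin_two, Matrix.of_sub_of]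
    fin_cases i <;> fin_cases j <;> simp [h0, hz]

theorem csp1_Hd_inv (u : F) (hu : u ≠ 0) : (Hd u hu)⁻¹ = Hd u⁻¹ (inv_ne_zero hu) := by
  rw [inv_eq_iff_mul_eq_one]
  apply Units.ext
  rw [Units.val_mul, Hd_val, Hd_val, Units.val_one, Matrix.one_fin_two]
  simp [hu]

theorem csp1_Hd_mem {n : Md F} (u : (𝓞 F)ˣ) (hu : (((u : 𝓞 F) : F) - 1) ∈ R n.z) :
    Hd ((u : 𝓞 F) : F) (csp1_unit_ne u) ∈ Gam n := by
  have h0 : (0 : F) ∈ R n.z := (R n.z).zero_mem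
  have h1 : ((((u : 𝓞 F) : F))⁻¹ - 1) ∈ R n.z := by
    intro w
    rw [← csp1_ge_unit (u := u), mul_sub, mul_inv_cancel₀ (csp1_unit_ne u), mul_one]
    have := (hu w).neg
    rwa [neg_sub] at this
  refine ⟨?_, ?_⟩
  · intro i j
    rw [Hd_val, Matrix.one_fin_two, Matrix.of_sub_of]
    fin_cases i <;> fin_cases j <;> simp [h0, h1, hu]
  · intro i j
    rw [csp1_Hd_inv, Hd_val, Matrix.one_fin_two, Matrix.of_sub_of]
    fin_cases i <;> fin_cases j <;> simp [h0, h1, hu]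

theorem csp1_Hd_Ee (u z : F) (hu : u ≠ 0) :
    Hd u hu * Ee z * (Hd u hu)⁻¹ = Ee (u ^ 2 * z) := by
  rw [mul_inv_eq_iff_eq_mul]
  apply Units.ext
  rw [Units.val_mul, Units.val_mul, Hd_val, Ee_val, Ee_val]
  simp only [Matrix.mul_fin_two]
  congr 1
  field_simp
  simp

theorem csp1_Hd_El (u z : F) (hu : u ≠ 0) :
    (Hd u hu)⁻¹ * El z * Hd u hu = El (u ^ 2 * z) := by
  rw [mul_assoc, inv_mul_eq_iff_eq_mul]
  apply Units.ext
  rw [Units.val_mul, Units.val_mul, Hd_val, El_val, El_val]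
  simp only [Matrix.mul_fin_two]
  congr 1
  field_simp
  simp

/-- `f` vanishes on commutators. -/
theorem csp1_comm {V : Type} [AddCommGroup V] {Γ : Subgroup (G F)} {f : G F → V}
    (hf : AddOn Γ f) {a b : G F} (ha : a ∈ Γ) (hb : b ∈ Γ) :
    a * b * a⁻¹ * b⁻¹ ∈ Γ ∧ f (a * b * a⁻¹ * b⁻¹) = 0 := by
  have h1 := Γ.mul_mem ha hb
  have h2 := Γ.mul_mem h1 (Γ.inv_mem ha)
  refine ⟨Γ.mul_mem h2 (Γ.inv_mem hb), ?_⟩
  rw [hf _ h2 _ (Γ.inv_mem hb), hf _ h1 _ (Γ.inv_mem ha), hf _ ha _ hb, hf.inv ha, hf.inv hb]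
  abel

/-- **A1** -/
theorem csp_A1 (hF : TwoPl F) (n' : Md F) : ∃ n'' : Md F, n' ≤ n'' ∧
    ∀ (V : Type) [AddCommGroup V] (Γ : Subgroup (G F)) (f : G F → V), AddOn Γ f →
      ∀ δ : G F, (∀ g ∈ Gam n', δ * g * δ⁻¹ ∈ Γ) → ∀ z ∈ R n''.z,
        (δ * Ee z * δ⁻¹ ∈ Γ ∧ f (δ * Ee z * δ⁻¹) = 0) ∧
        (δ * El z * δ⁻¹ ∈ Γ ∧ f (δ * El z * δ⁻¹) = 0) := by
  obtain ⟨u, hu, hu1⟩ := exists_unit hF n'
  set U : F := ((u : 𝓞 F) : F) with hU
  have hU0 : U ≠ 0 := csp1_unit_ne u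
  set c : F := U ^ 2 - 1 with hc
  have hc0 : c ≠ 0 := by
    intro h
    apply hu 2 (by norm_num)
    apply Units.ext
    apply (FaithfulSMul.algebraMap_injective (𝓞 F) F)
    rw [Units.val_pow_eq_pow_val, map_pow, Units.val_one, map_one]
    exact sub_eq_zero.1 h
  obtain ⟨o, ho⟩ := exists_ord c hc0
  have hcint : ∀ w, 0 ≤ o w := by
    intro w
    have h1 : Ge w 0 c := ge_int w (((u : 𝓞 F)) ^ 2 - 1) |>.mono le_rfl |> fun h => by
      simpa [hc, hU] using h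
    rw [Ge, ho w, WithZero.exp_le_exp] at h1
    omega
  refine ⟨n' + o.mapRange Int.toNat (by simp), le_self_add, ?_⟩
  intro V _ Γ f hf δ hδ z hz
  set z' : F := z / c with hz'
  have hzz : z = c * z' := by rw [hz']; field_simp
  have hz'R : z' ∈ R n'.z := by
    intro w
    refine csp1_ge_div (ho w) ?_
    have h1 := hz w
    have h2 : Md.z (n' + o.mapRange Int.toNat (by simp)) w = Md.z n' w + o w := by
      simp only [Md.z, Finsupp.add_apply, Finsupp.mapRange_apply, Nat.cast_add]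
      rw [Int.toNat_of_nonneg (hcint w)]
    rw [h2] at h1
    exact h1
  have hH : Hd U hU0 ∈ Gam n' := csp1_Hd_mem u hu1
  have hE : Ee z' ∈ Gam n' := csp1_Ee_mem hz'R
  have hL : El z' ∈ Gam n' := csp1_El_mem hz'R
  have e1 : Ee z = Hd U hU0 * Ee z' * (Hd U hU0)⁻¹ * (Ee z')⁻¹ := by
    rw [csp1_Hd_Ee, ← Ee_neg, ← Ee_add, hzz]
    congr 1
    rw [hc]; ring
  have e2 : El z = (Hd U hU0)⁻¹ * El z' * (Hd U hU0)⁻¹⁻¹ * (El z')⁻¹ := by
    rw [inv_inv, csp1_Hd_El, ← El_neg, ← El_add, hzz]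
    congr 1
    rw [hc]; ring
  constructor
  · have := csp1_comm hf (hδ _ hH) (hδ _ hE)
    have h3 : δ * Hd U hU0 * δ⁻¹ * (δ * Ee z' * δ⁻¹) * (δ * Hd U hU0 * δ⁻¹)⁻¹ *
        (δ * Ee z' * δ⁻¹)⁻¹ = δ * Ee z * δ⁻¹ := by
      rw [e1]; group
    rwa [h3] at this
  · have := csp1_comm hf (hδ _ ((Gam n').inv_mem hH)) (hδ _ hL)
    have h3 : δ * (Hd U hU0)⁻¹ * δ⁻¹ * (δ * El z' * δ⁻¹) * (δ * (Hd U hU0)⁻¹ * δ⁻¹)⁻¹ *
        (δ * El z' * δ⁻¹)⁻¹ = δ * El z * δ⁻¹ := by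
      rw [e2]; group
    rwa [h3] at this

theorem csp1_fin {Y : Set F} (hY : Y.Finite) (P : F → Md F → Prop)
    (hm : ∀ y m m', m ≤ m' → P y m → P y m') (h : ∀ y ∈ Y, ∃ m, P y m) (m₀ : Md F) :
    ∃ m, m₀ ≤ m ∧ ∀ y ∈ Y, P y m := by
  induction Y, hY using Set.Finite.induction_on with
  | empty => exact ⟨m₀, le_rfl, fun y hy => absurd hy (Set.notMem_empty y)⟩
  | insert _ _ ih =>
    rename_i a Y _ _
    obtain ⟨m, h1, h2⟩ := ih fun y hy => h y (Set.mem_insert_of_mem _ hy)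
    obtain ⟨m', h3⟩ := h a (Set.mem_insert _ _)
    refine ⟨m + m', h1.trans le_self_add, ?_⟩
    intro y hy
    rcases Set.mem_insert_iff.1 hy with rfl | hy
    · exact hm _ _ _ (le_add_self) h3
    · exact hm _ _ _ le_self_add (h2 y hy)

theorem csp1_Rmono {m m' : Md F} (h : m ≤ m') : R m'.z ≤ R m.z := R_mono fun w => by
  have := h w
  change (m w : ℤ) ≤ (m' w : ℤ)
  exact_mod_cast this

open Classical in
/-- **A3** -/
theorem csp_A3 (hF : TwoPl F) (n : Md F) (v : Pl F) (B : ℕ) : ∃ m₂ : Md F, n ≤ m₂ ∧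
    ∀ (V : Type) [AddCommGroup V] (Γ : Subgroup (G F)) (f : G F → V), Gam n ≤ Γ → AddOn Γ f →
      ∀ y : F, Ge v (-(B : ℤ)) y → (∀ w, w ≠ v → Ge w (n.z w) y) → ∀ s ∈ R m₂.z,
        Ee y * El s * Ee (-y) * El (-s) ∈ Γ ∧ f (Ee y * El s * Ee (-y) * El (-s)) = 0 := by
  obtain ⟨m₁, hm₁, hA1⟩ := csp_A1 hF n
  obtain ⟨Y, hY, hYe, hYq⟩ := fin_quot (F := F) (fun w => if w = v then (-(B : ℤ)) else n.z w)
    m₁.z (by
      refine ((m₁.support.finite_toSet).union (Set.finite_singleton v)).subset ?_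
      intro w hw
      by_contra hcon
      rw [Set.mem_union, not_or] at hcon
      obtain ⟨h1, h2⟩ := hcon
      have h3 : w ≠ v := h2
      have h4 : m₁ w = 0 := Finsupp.notMem_support_iff.1 h1
      simp only [Set.mem_ofPred_eq, h3, if_false, Md.z, h4, Nat.cast_zero] at hw
      omega)
  obtain ⟨m₂, hm₂, hP⟩ := csp1_fin hY (fun y m => ∀ (V : Type) [AddCommGroup V]
    (Γ : Subgroup (G F)) (f : G F → V), Gam n ≤ Γ → AddOn Γ f → ∀ s ∈ R m.z,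
      Ee y * El s * (Ee y)⁻¹ ∈ Γ ∧ f (Ee y * El s * (Ee y)⁻¹) = 0)
    (fun y m m' hmm h V _ Γ f h1 h2 s hs => h V Γ f h1 h2 s (csp1_Rmono hmm hs))
    (fun y _ => by
      obtain ⟨e, he⟩ := Gam_conj (Ee y) n
      obtain ⟨e', _, he'⟩ := csp_A1 hF e
      exact ⟨e', fun V _ Γ f h1 h2 s hs =>
        (he' V Γ f h2 (Ee y) (fun g hg => h1 (he g hg)) s hs).2⟩) m₁
  refine ⟨m₂, hm₁.trans hm₂, ?_⟩
  intro V _ Γ f hΓ hf y hyv hyw s hs
  obtain ⟨y₀, hy₀, hyy⟩ := hYq y (by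
    intro w
    by_cases hw : w = v
    · subst hw
      simpa using hyv
    · simpa [hw] using hyw w hw)
  set z : F := y - y₀ with hz
  have hy : y = z + y₀ := by rw [hz]; ring
  have h1 := hA1 V Γ f hf 1 (fun g hg => by simpa using hΓ hg)
  simp only [one_mul, inv_one, mul_one] at h1
  obtain ⟨a1, a2⟩ := (h1 z hyy).1
  obtain ⟨b1, b2⟩ := (h1 (-z) ((R m₁.z).neg_mem hyy)).1
  obtain ⟨c1, c2⟩ := (h1 (-s) ((R m₁.z).neg_mem (csp1_Rmono hm₂ hs))).2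
  obtain ⟨d1, d2⟩ := hP y₀ hy₀ V Γ f hΓ hf s hs
  have key : Ee y * El s * Ee (-y) * El (-s) =
      Ee z * (Ee y₀ * El s * (Ee y₀)⁻¹) * Ee (-z) * El (-s) := by
    rw [hy, Ee_add, neg_add_rev, Ee_add (-y₀), Ee_neg y₀]
    simp only [mul_assoc]
  rw [key]
  have e1 := Γ.mul_mem a1 d1
  have e2 := Γ.mul_mem e1 b1
  refine ⟨Γ.mul_mem e2 c1, ?_⟩
  rw [hf _ e2 _ c1, hf _ e1 _ b1, hf _ a1 _ d1, a2, b2, c2, d2]
  simp

end Pool.Agent.CG2
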