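import Pool.Agent.CG2.Csp1

/-!
# The congruence subgroup argument, step A4, first part
-/

noncomputable section

namespace Pool.Agent.CG2

open NumberField IsDedekindDomain Matrix

variable {F : Type} [Field F] [NumberField F]

/-- The conditions on `(y, s)` in step A4. -/
structure Co (v : Pl F) (B M : ℕ) (d m₃ : Md F) (y s : F) : Prop where
  yv : Ge v (-(B : ℤ)) y
  yw : ∀ w, w ≠ v → Ge w (m₃.z w) y
  sv : Ge v (M : ℤ) s
  sw : ∀ w, w ≠ v → Ge w (-(d.z w)) s

/-- Elements with bounded denominators conjugate small congruence subgroups into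
congruence subgroups. -/
theorem csp4a_conj {n e n' : Md F} {D : G F}
    (h1 : ∀ w i j, Ge w (-(e.z w)) ((D : Matrix (Fin 2) (Fin 2) F) i j))
    (h2 : ∀ w i j, Ge w (-(e.z w)) (((D⁻¹ : G F) : Matrix (Fin 2) (Fin 2) F) i j))
    (hn : ∀ w, n.z w + 2 * e.z w ≤ n'.z w) :
    ∀ g ∈ Gam n', D * g * D⁻¹ ∈ Gam n := by
  have key : ∀ A : G F, (∀ i j, ((A : Matrix (Fin 2) (Fin 2) F) - 1) i j ∈ R n'.z) →
      ∀ i j, (((D * A * D⁻¹ : G F) : Matrix (Fin 2) (Fin 2) F) - 1) i j ∈ R n.z := by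
    intro A hA i j
    have e1 : ((D * A * D⁻¹ : G F) : Matrix (Fin 2) (Fin 2) F) - 1 =
        (D : Matrix (Fin 2) (Fin 2) F) * ((A : Matrix (Fin 2) (Fin 2) F) - 1) *
          ((D⁻¹ : G F) : Matrix (Fin 2) (Fin 2) F) := by
      rw [mul_sub, sub_mul, mul_one, ← Units.val_mul, ← Units.val_mul, ← Units.val_mul,
        mul_inv_cancel, Units.val_one]
    rw [e1, Matrix.mul_apply]
    refine (R n.z).sum_mem fun k _ w => ?_
    have e2 : Ge w (-(e.z w) + n'.z w) (((D : Matrix (Fin 2) (Fin 2) F) *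
        ((A : Matrix (Fin 2) (Fin 2) F) - 1)) i k) := by
      rw [Matrix.mul_apply]
      exact Ge.sum fun l _ => (h1 w i l).mul (hA l k w)
    refine (e2.mul (h2 w k j)).mono ?_
    have := hn w
    omega
  intro g hg
  refine ⟨key g hg.1, ?_⟩
  have h3 : (D * g * D⁻¹)⁻¹ = D * g⁻¹ * D⁻¹ := by group
  rw [h3]
  exact key g⁻¹ hg.2

/-- The modulus which is `B` at `v` and `d` elsewhere. -/
def csp4a_e (v : Pl F) (B : ℕ) (d : Md F) : Md F := d + Finsupp.single v B

theorem csp4a_e_v {v : Pl F} {B : ℕ} {d : Md F} (hd : d v = 0) :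
    (csp4a_e v B d).z v = B := by
  simp [csp4a_e, Md.z, hd]

theorem csp4a_e_w {v : Pl F} {B : ℕ} {d : Md F} {w : Pl F} (hw : w ≠ v) :
    (csp4a_e v B d).z w = d.z w := by
  simp [csp4a_e, Md.z, hw.symm]

theorem csp4a_e_nonneg (e : Md F) (w : Pl F) : 0 ≤ e.z w := Int.natCast_nonneg _

/-- The commutator. -/
theorem csp4a_comm_val (y s : F) :
    ((Ee y * El s * Ee (-y) * El (-s) : G F) : Matrix (Fin 2) (Fin 2) F) - 1 =
      !![y * s + y ^ 2 * s ^ 2, -(y ^ 2 * s); y * s ^ 2, -(y * s)] := by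
  rw [Units.val_mul, Units.val_mul, Units.val_mul, Ee_val, El_val, Ee_val, El_val]
  rw [Matrix.one_fin_two]
  simp only [Matrix.mul_fin_two, Matrix.of_sub_of]
  ext i j
  fin_cases i <;> fin_cases j <;> simp <;> ring

theorem csp4a_comm_inv (y s : F) :
    (((Ee y * El s * Ee (-y) * El (-s))⁻¹ : G F) : Matrix (Fin 2) (Fin 2) F) - 1 =
      !![-(y * s), y ^ 2 * s; -(y * s ^ 2), y * s + y ^ 2 * s ^ 2] := by
  have h1 : (Ee y * El s * Ee (-y) * El (-s))⁻¹ = El s * Ee y * El (-s) * Ee (-y) := by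
    rw [_root_.mul_inv_rev, _root_.mul_inv_rev, _root_.mul_inv_rev, ← El_neg, ← El_neg, ← Ee_neg,
      ← Ee_neg, neg_neg, neg_neg]
    simp only [mul_assoc]
  rw [h1, Units.val_mul, Units.val_mul, Units.val_mul, Ee_val, El_val, Ee_val, El_val]
  rw [Matrix.one_fin_two]
  simp only [Matrix.mul_fin_two, Matrix.of_sub_of]
  ext i j
  fin_cases i <;> fin_cases j <;> simp <;> ring

theorem csp4a_bd {w : Pl F} {a : ℤ} (ha : 0 ≤ a) {y s : F} (hy : Ge w (-a) y) (hs : Ge w (-a) s)
    (hys : Ge w 0 (y * s)) :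
    (∀ i j, Ge w (-a) (((Ee y * El s : G F) : Matrix (Fin 2) (Fin 2) F) i j)) ∧
    (∀ i j, Ge w (-a) ((((Ee y * El s)⁻¹ : G F) : Matrix (Fin 2) (Fin 2) F) i j)) ∧
    (∀ i j, Ge w (-a) (((El s * Ee y : G F) : Matrix (Fin 2) (Fin 2) F) i j)) ∧
    (∀ i j, Ge w (-a) ((((El s * Ee y)⁻¹ : G F) : Matrix (Fin 2) (Fin 2) F) i j)) := by
  have h1 : Ge w (-a) (1 : F) := (ge_one w).mono (by omega)
  have h2 : Ge w (-a) (1 + y * s) := h1.add (hys.mono (by omega))
  have h3 : Ge w (-a) (y * s + 1) := by rw [add_comm]; exact h2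
  have h4 : Ge w (-a) (1 + s * y) := by rw [mul_comm]; exact h2
  have h5 : Ge w (-a) (s * y + 1) := by rw [add_comm]; exact h4
  refine ⟨?_, ?_, ?_, ?_⟩
  · intro i j
    rw [Units.val_mul, Ee_val, El_val]
    simp only [Matrix.mul_fin_two]
    fin_cases i <;> fin_cases j <;> simp [h1, h2, hy, hs]
  · intro i j
    rw [_root_.mul_inv_rev, ← Ee_neg, ← El_neg, Units.val_mul, Ee_val, El_val]
    simp only [Matrix.mul_fin_two]
    fin_cases i <;> fin_cases j <;> simp [h1, h5, hy.neg, hs.neg]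
  · intro i j
    rw [Units.val_mul, Ee_val, El_val]
    simp only [Matrix.mul_fin_two]
    fin_cases i <;> fin_cases j <;> simp [h1, h5, hy, hs]
  · intro i j
    rw [_root_.mul_inv_rev, ← Ee_neg, ← El_neg, Units.val_mul, Ee_val, El_val]
    simp only [Matrix.mul_fin_two]
    fin_cases i <;> fin_cases j <;> simp [h1, h2, hy.neg, hs.neg]

theorem csp4a_pow {V : Type} [AddCommGroup V] {Γ : Subgroup (G F)} {f : G F → V}
    (hf : AddOn Γ f) {g : G F} (hg : g ∈ Γ) (k : ℕ) : f (g ^ k) = k • f g := by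
  induction k with
  | zero => rw [pow_zero, zero_smul, hf.one]
  | succ k ih => rw [pow_succ, hf _ (Γ.pow_mem hg k) _ hg, ih, succ_nsmul]

theorem csp4a_Hd_pow (u : F) (hu : u ≠ 0) (k : ℕ) :
    (Hd u hu) ^ k = Hd (u ^ k) (pow_ne_zero k hu) := by
  induction k with
  | zero =>
    apply Units.ext
    rw [pow_zero, Units.val_one, Hd_val, Matrix.one_fin_two]
    simp
  | succ k ih =>
    rw [pow_succ, ih]
    apply Units.ext
    rw [Units.val_mul, Hd_val, Hd_val, Hd_val]
    simp only [Matrix.mul_fin_two]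
    simp [pow_succ, mul_comm]

theorem csp4a_id1 {A : Type*} [Group A] {a b c : A} (h : a * b = b * a) :
    a * b * c * (a * b)⁻¹ * c⁻¹ =
      a * ((b * c) * a⁻¹ * (b * c)⁻¹) * (b * c * b⁻¹ * c⁻¹) := by
  rw [show (a * b)⁻¹ = a⁻¹ * b⁻¹ by rw [h, _root_.mul_inv_rev]]
  group

theorem csp4a_id2 {A : Type*} [Group A] {b c t : A} (h : c * t = t * c) :
    b * (c * t) * b⁻¹ * (c * t)⁻¹ =
      (b * c * b⁻¹ * c⁻¹) * ((c * b) * t * (c * b)⁻¹) * t⁻¹ := by
  rw [show (c * t)⁻¹ = c⁻¹ * t⁻¹ by rw [h, _root_.mul_inv_rev]]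
  group

/-- **A4**, (i) and (iii) -/
theorem csp_A4a (hF : TwoPl F) (n : Md F) (v : Pl F) (B : ℕ) (d : Md F) (hd : d v = 0) (p : ℕ)
    (hp : 0 < p) : ∃ (M : ℕ) (m₃ m₄ : Md F), n ≤ m₃ ∧ m₃ v + 2 * B ≤ M ∧
    ∀ (V : Type) [AddCommGroup V], (∀ x : V, p • x = 0) → ∀ (Γ : Subgroup (G F)) (f : G F → V),
      Gam n ≤ Γ → AddOn Γ f →
      (∀ y s : F, Co v B M d m₃ y s → Ee y * El s * Ee (-y) * El (-s) ∈ Γ) ∧
      (∀ y s y' s' : F, Co v B M d m₃ y s → Co v B M d m₃ y' s' → y - y' ∈ R m₃.z →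
        s - s' ∈ R m₃.z →
        f (Ee y * El s * Ee (-y) * El (-s)) = f (Ee y' * El s' * Ee (-y') * El (-s'))) ∧
      (∀ (y s : F) (u₀ : (𝓞 F)ˣ), Co v B M d m₃ y s →
        (∀ w, Ge w (m₄.z w) (((u₀ : 𝓞 F) : F) - 1)) → 1 + y * s = ((u₀ : 𝓞 F) : F) ^ p →
        f (Ee y * El s * Ee (-y) * El (-s)) = 0) := by
  set e : Md F := csp4a_e v B d with he
  have hev : e.z v = B := csp4a_e_v hd
  have hew : ∀ w, w ≠ v → e.z w = d.z w := fun w hw => csp4a_e_w hw
  set n' : Md F := n + e + e with hn'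
  have hn'z : ∀ w, n'.z w = n.z w + 2 * e.z w := by
    intro w
    simp only [hn', Md.z, Finsupp.add_apply, Nat.cast_add]
    ring
  obtain ⟨m₃, hm₃, hA1⟩ := csp_A1 hF n'
  have hm₃z : ∀ w, n.z w + 2 * e.z w ≤ m₃.z w := by
    intro w
    rw [← hn'z w]
    have := hm₃ w
    change (n' w : ℤ) ≤ (m₃ w : ℤ)
    exact_mod_cast this
  have hn0 : ∀ w, 0 ≤ n.z w := csp4a_e_nonneg n
  have he0 : ∀ w, 0 ≤ e.z w := csp4a_e_nonneg e
  have hmv : (m₃ v : ℤ) = m₃.z v := rfl
  have hnv : (n v : ℤ) = n.z v := rfl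
  have hnm : n ≤ m₃ := le_trans (by
    rw [hn', add_assoc]; exact le_self_add) hm₃
  refine ⟨m₃ v + 2 * B + n v, m₃, m₃ + e, hnm, by omega, ?_⟩
  set M : ℕ := m₃ v + 2 * B + n v with hM
  have hMz : (M : ℤ) = m₃.z v + 2 * B + n.z v := by
    rw [hM]; push_cast; rfl
  intro V _ hV Γ f hΓ hf
  -- consequences of the conditions
  have hmem : ∀ y s : F, Co v B M d m₃ y s → Ee y * El s * Ee (-y) * El (-s) ∈ Γ := by
    intro y s h
    have h1 : y * s ∈ R n.z := by
      intro w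
      by_cases hw : w = v
      · rw [hw]
        refine (h.yv.mul h.sv).mono ?_
        have := hm₃z v; have := hn0 v; have := he0 v
        omega
      · refine ((h.yw w hw).mul (h.sw w hw)).mono ?_
        have := hm₃z w; have := hn0 w; have := he0 w; have := hew w hw
        omega
    have h2 : y ^ 2 * s ∈ R n.z := by
      intro w
      rw [pow_two]
      by_cases hw : w = v
      · rw [hw]
        refine ((h.yv.mul h.yv).mul h.sv).mono ?_
        have := hm₃z v; have := hn0 v; have := he0 v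
        omega
      · refine (((h.yw w hw).mul (h.yw w hw)).mul (h.sw w hw)).mono ?_
        have := hm₃z w; have := hn0 w; have := he0 w; have := hew w hw
        omega
    have h3 : y * s ^ 2 ∈ R n.z := by
      intro w
      rw [pow_two]
      by_cases hw : w = v
      · rw [hw]
        refine (h.yv.mul (h.sv.mul h.sv)).mono ?_
        have := hm₃z v; have := hn0 v; have := he0 v
        omega
      · refine ((h.yw w hw).mul ((h.sw w hw).mul (h.sw w hw))).mono ?_
        have := hm₃z w; have := hn0 w; have := he0 w; have := hew w hw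
        omega
    have h4 : y ^ 2 * s ^ 2 ∈ R n.z := by
      intro w
      have : y ^ 2 * s ^ 2 = (y * s) * (y * s) := by ring
      rw [this]
      refine ((h1 w).mul (h1 w)).mono ?_
      have := hn0 w
      omega
    apply hΓ
    refine ⟨?_, ?_⟩
    · intro i j
      rw [csp4a_comm_val]
      fin_cases i <;> fin_cases j
      · exact (R n.z).add_mem h1 h4
      · exact (R n.z).neg_mem h2
      · exact h3
      · exact (R n.z).neg_mem h1
    · intro i j
      rw [csp4a_comm_inv]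
      fin_cases i <;> fin_cases j
      · exact (R n.z).neg_mem h1
      · exact h2
      · exact (R n.z).neg_mem h3
      · exact (R n.z).add_mem h1 h4
  have hconj : ∀ y s : F, Co v B M d m₃ y s →
      (∀ g ∈ Gam n', (Ee y * El s) * g * (Ee y * El s)⁻¹ ∈ Γ) ∧
      (∀ g ∈ Gam n', (El s * Ee y) * g * (El s * Ee y)⁻¹ ∈ Γ) := by
    intro y s h
    have key : ∀ w, Ge w (-(e.z w)) y ∧ Ge w (-(e.z w)) s ∧ Ge w 0 (y * s) := by
      intro w
      by_cases hw : w = v
      · rw [hw]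
        have := hm₃z v; have := hn0 v; have := he0 v
        refine ⟨h.yv.mono (by omega), h.sv.mono (by omega), (h.yv.mul h.sv).mono (by omega)⟩
      · have := hm₃z w; have := hn0 w; have := he0 w; have := hew w hw
        refine ⟨(h.yw w hw).mono (by omega), (h.sw w hw).mono (by omega),
          ((h.yw w hw).mul (h.sw w hw)).mono (by omega)⟩
    have hb := fun w => csp4a_bd (he0 w) (key w).1 (key w).2.1 (key w).2.2
    refine ⟨fun g hg => hΓ (csp4a_conj (e := e) (fun w => (hb w).1) (fun w => (hb w).2.1)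
      (fun w => (hn'z w).ge) g hg),
      fun g hg => hΓ (csp4a_conj (e := e) (fun w => (hb w).2.2.1) (fun w => (hb w).2.2.2)
      (fun w => (hn'z w).ge) g hg)⟩
  have hone : ∀ g ∈ Gam n', (1 : G F) * g * 1⁻¹ ∈ Γ := by
    intro g hg
    rw [one_mul, inv_one, mul_one]
    refine hΓ (Gam_mono ?_ hg)
    rw [hn', add_assoc]; exact le_self_add
  have hA0 := hA1 V Γ f hf 1 hone
  simp only [one_mul, inv_one, mul_one] at hA0
  -- change of y
  have hy' : ∀ y s y' : F, Co v B M d m₃ y s → Co v B M d m₃ y' s → y - y' ∈ R m₃.z →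
      f (Ee y * El s * Ee (-y) * El (-s)) = f (Ee y' * El s * Ee (-y') * El (-s)) := by
    intro y s y' h h' hz
    set z : F := y - y' with hzd
    have hyz : y = z + y' := by rw [hzd]; ring
    obtain ⟨a1, a2⟩ := (hA0 z hz).1
    obtain ⟨b1, b2⟩ := (hA1 V Γ f hf _ (hconj y' s h').1 (-z) ((R m₃.z).neg_mem hz)).1
    have c1 := hmem y' s h'
    have key : Ee y * El s * Ee (-y) * El (-s) =
        Ee z * ((Ee y' * El s) * Ee (-z) * (Ee y' * El s)⁻¹) *
          (Ee y' * El s * Ee (-y') * El (-s)) := by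
      rw [hyz, Ee_neg (z + y'), Ee_add, Ee_neg z, Ee_neg y', El_neg]
      exact csp4a_id1 (by rw [← Ee_add, ← Ee_add, add_comm])
    rw [key, hf _ (Γ.mul_mem a1 b1) _ c1, hf _ a1 _ b1, a2, b2]
    simp
  have hs' : ∀ y s s' : F, Co v B M d m₃ y s → Co v B M d m₃ y s' → s - s' ∈ R m₃.z →
      f (Ee y * El s * Ee (-y) * El (-s)) = f (Ee y * El s' * Ee (-y) * El (-s')) := by
    intro y s s' h h' hz
    set t : F := s - s' with htd
    have hst : s = s' + t := by rw [htd]; ring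
    obtain ⟨a1, a2⟩ := (hA0 (-t) ((R m₃.z).neg_mem hz)).2
    obtain ⟨b1, b2⟩ := (hA1 V Γ f hf _ (hconj y s' h').2 t hz).2
    have c1 := hmem y s' h'
    have key : Ee y * El s * Ee (-y) * El (-s) =
        (Ee y * El s' * Ee (-y) * El (-s')) * ((El s' * Ee y) * El t * (El s' * Ee y)⁻¹) *
          El (-t) := by
      rw [hst, El_neg (s' + t), El_add, Ee_neg, El_neg, El_neg]
      exact csp4a_id2 (by rw [← El_add, ← El_add, add_comm])
    rw [key, hf _ (Γ.mul_mem c1 b1) _ a1, hf _ c1 _ b1, a2, b2]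
    simp
  refine ⟨hmem, ?_, ?_⟩
  · intro y s y' s' h h' hy hs
    have h'' : Co v B M d m₃ y' s := ⟨h'.yv, h'.yw, h.sv, h.sw⟩
    rw [hy' y s y' h h'' hy, hs' y' s s' h'' h' hs]
  · intro y s u₀ h hu₀ hu
    set u : (𝓞 F)ˣ := u₀ ^ p with hud
    set U : F := ((u : 𝓞 F) : F) with hUd
    have hU0 : U ≠ 0 := csp1_unit_ne u
    have hUp : U = ((u₀ : 𝓞 F) : F) ^ p := by
      rw [hUd, hud, Units.val_pow_eq_pow_val]
      exact map_pow (algebraMap (𝓞 F) F) _ _
    rw [← hUp] at hu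
    have hU1 : ∀ w, Ge w (m₃.z w + e.z w) (U - 1) := by
      intro w
      obtain ⟨k, hk⟩ := sub_dvd_pow_sub_pow (u₀ : 𝓞 F) 1 p
      rw [one_pow] at hk
      have h1 : U - 1 = (((u₀ : 𝓞 F) : F) - 1) * (k : F) := by
        rw [hUp, ← map_pow, ← map_one (algebraMap (𝓞 F) F), ← map_sub, ← map_sub, hk, map_mul]
      rw [h1]
      refine ((hu₀ w).mul (ge_int w k)).mono ?_
      simp only [Md.z, Finsupp.add_apply, Nat.cast_add]
      omega
    have hUi : ∀ w, Ge w 0 U := fun w => ge_int w _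
    -- the valuations
    have hα : s / U - s ∈ R m₃.z := by
      intro w
      rw [← csp1_ge_unit (u := u), ← hUd,
        show U * (s / U - s) = -(s * (U - 1)) by field_simp; ring]
      refine Ge.neg ?_
      by_cases hw : w = v
      · rw [hw]
        refine (h.sv.mul (hU1 v)).mono ?_
        have := he0 v
        omega
      · refine ((h.sw w hw).mul (hU1 w)).mono ?_
        have := hew w hw
        omega
    have hβ : y / U - y ∈ R m₃.z := by
      intro w
      rw [← csp1_ge_unit (u := u), ← hUd,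
        show U * (y / U - y) = -(y * (U - 1)) by field_simp; ring]
      refine Ge.neg ?_
      by_cases hw : w = v
      · rw [hw]
        refine (h.yv.mul (hU1 v)).mono ?_
        omega
      · refine ((h.yw w hw).mul (hU1 w)).mono ?_
        have := he0 w; have := hm₃z w; have := hn0 w
        omega
    have hγ : U ^ 2 * s - s ∈ R m₃.z := by
      intro w
      rw [show U ^ 2 * s - s = s * (U - 1) * (U + 1) by ring]
      have h1 : Ge w 0 (U + 1) := (hUi w).add (ge_one w)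
      by_cases hw : w = v
      · rw [hw] at h1 ⊢
        refine ((h.sv.mul (hU1 v)).mul h1).mono ?_
        have := he0 v
        omega
      · refine (((h.sw w hw).mul (hU1 w)).mul h1).mono ?_
        have := hew w hw
        omega
    -- the factor of the torus
    have hu₀n : ∀ w, Ge w (n.z w) (((u₀ : 𝓞 F) : F) - 1) := by
      intro w
      refine (hu₀ w).mono ?_
      simp only [Md.z, Finsupp.add_apply, Nat.cast_add]
      have := hm₃z w; have := he0 w
      simp only [Md.z] at this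
      have h2 : (n w : ℤ) = n.z w := rfl
      have h3 : (m₃ w : ℤ) = m₃.z w := rfl
      have h4 : (e w : ℤ) = e.z w := rfl
      have := hm₃z w; have := he0 w
      omega
    have hT : Hd U hU0 ∈ Γ ∧ f (Hd U hU0) = 0 := by
      have h1 : Hd ((u₀ : 𝓞 F) : F) (csp1_unit_ne u₀) ∈ Γ := hΓ (csp1_Hd_mem u₀ hu₀n)
      have h2 : Hd U hU0 = (Hd ((u₀ : 𝓞 F) : F) (csp1_unit_ne u₀)) ^ p := by
        rw [csp4a_Hd_pow]
        congr 1
      rw [h2]
      refine ⟨Γ.pow_mem h1 p, ?_⟩
      rw [csp4a_pow hf h1, hV]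
    have hco : Co v B M d m₃ 0 s := ⟨ge_zero _ _, fun w _ => ge_zero _ _, h.sv, h.sw⟩
    have hδ := (hconj 0 s hco).2
    rw [Ee_zero, mul_one] at hδ
    obtain ⟨a1, a2⟩ := (hA0 _ hα).2
    obtain ⟨b1, b2⟩ := (hA0 _ hγ).2
    obtain ⟨c1, c2⟩ := (hA1 V Γ f hf _ hδ _ hβ).1
    have key : Ee y * El s * Ee (-y) * El (-s) =
        El (s / U - s) * (Hd U hU0 * El (U ^ 2 * s - s)) * (El s * Ee (y / U - y) * (El s)⁻¹) := by
      have e1 : Ee y * El s = El (s / U) * Hd U hU0 * Ee (y / U) := by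
        apply Units.ext
        rw [Units.val_mul, Units.val_mul, Units.val_mul, Ee_val, El_val, El_val, Ee_val, Hd_val]
        simp only [Matrix.mul_fin_two]
        have e2 : s / U * U = s := by field_simp
        have e3 : U * (y / U) = y := by field_simp
        have e4 : s * (y / U) + U⁻¹ = 1 := by
          field_simp
          rw [← hu]; ring
        simp [e2, e3, e4, hu]
      have e5 : Hd U hU0 * El (U ^ 2 * s) = El s * Hd U hU0 := by
        rw [← csp1_Hd_El U s hU0]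
        group
      rw [e1, sub_eq_add_neg (s / U), El_add, sub_eq_add_neg (U ^ 2 * s), El_add,
        sub_eq_add_neg (y / U), Ee_add, ← mul_assoc (Hd U hU0), e5, El_neg, Ee_neg]
      group
    rw [key]
    have d1 := Γ.mul_mem hT.1 b1
    rw [hf _ (Γ.mul_mem a1 d1) _ c1, hf _ a1 _ d1, hf _ hT.1 _ b1, a2, b2, c2, hT.2]
    simp

end Pool.Agent.CG2
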