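import Pool.Agent.CG2.Csp4a

/-!
# The congruence subgroup argument, step A4, second part
-/

noncomputable section

namespace Pool.Agent.CG2

open NumberField IsDedekindDomain Matrix

variable {F : Type} [Field F] [NumberField F]

/-- `w(x) = n`. -/
def Csp4bE (w : Pl F) (n : ℤ) (x : F) : Prop := w.valuation F x = WithZero.exp (-n)

theorem Csp4bE.ne {w : Pl F} {n : ℤ} {x : F} (h : Csp4bE w n x) : x ≠ 0 := by
  rintro rfl
  rw [Csp4bE, map_zero] at h
  exact WithZero.exp_ne_zero h.symm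

theorem Csp4bE.ge {w : Pl F} {n k : ℤ} {x : F} (h : Csp4bE w n x) : Ge w k x ↔ k ≤ n := by
  rw [Ge, h, WithZero.exp_le_exp]
  constructor <;> intro h <;> omega

theorem Csp4bE.mul {w : Pl F} {n m : ℤ} {x y : F} (h : Csp4bE w n x) (h' : Csp4bE w m y) :
    Csp4bE w (n + m) (x * y) := by
  rw [Csp4bE, map_mul, neg_add, WithZero.exp_add, h, h']

theorem Csp4bE.inv {w : Pl F} {n : ℤ} {x : F} (h : Csp4bE w n x) : Csp4bE w (-n) x⁻¹ := by
  rw [Csp4bE, map_inv₀, WithZero.exp_neg, h]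

theorem Csp4bE.div {w : Pl F} {n m : ℤ} {x y : F} (h : Csp4bE w n x) (h' : Csp4bE w m y) :
    Csp4bE w (n - m) (x / y) := by
  rw [div_eq_mul_inv, sub_eq_add_neg]
  exact h.mul h'.inv

theorem Csp4bE.zpow {w : Pl F} {n : ℤ} {x : F} (h : Csp4bE w n x) (q : ℤ) :
    Csp4bE w (q * n) (x ^ q) := by
  rw [Csp4bE, map_zpow₀, h, ← WithZero.exp_zsmul]
  congr 1
  simp

theorem Csp4bE.of_sub_one {w : Pl F} {x : F} (h : Ge w 1 (x - 1)) : Csp4bE w 0 x := by
  have h1 : w.valuation F (x - 1) < 1 := by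
    refine lt_of_le_of_lt h ?_
    rw [← WithZero.exp_zero, WithZero.exp_lt_exp]
    norm_num
  have h2 := (w.valuation F).map_one_add_of_lt h1
  rw [add_sub_cancel] at h2
  rw [Csp4bE, h2, neg_zero, WithZero.exp_zero]

theorem csp4b_exists (x : F) (hx : x ≠ 0) : ∃ o : Pl F →₀ ℤ, ∀ w, Csp4bE w (o w) x :=
  exists_ord x hx

theorem csp4b_fin (C : Finset F) : ∃ m : Md F, ∀ c ∈ C, c ≠ 0 → ∀ w n, Csp4bE w n c → n ≤ m.z w := by
  classical
  induction C using Finset.induction_on with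
  | empty => exact ⟨0, fun c hc => absurd hc (Finset.notMem_empty c)⟩
  | insert a C _ ih =>
    obtain ⟨m, hm⟩ := ih
    by_cases ha : a = 0
    · refine ⟨m, fun c hc h0 => ?_⟩
      rcases Finset.mem_insert.1 hc with rfl | hc
      · exact absurd ha h0
      · exact hm c hc h0
    · obtain ⟨o, ho⟩ := csp4b_exists a ha
      refine ⟨m + o.mapRange Int.toNat (by simp), fun c hc h0 w n hn => ?_⟩
      have h2 : Md.z (m + o.mapRange Int.toNat (by simp)) w = Md.z m w + (Int.toNat (o w) : ℤ) := by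
        simp only [Md.z, Finsupp.add_apply, Finsupp.mapRange_apply, Nat.cast_add]
      have hm0 : 0 ≤ m.z w := Int.natCast_nonneg _
      rcases Finset.mem_insert.1 hc with rfl | hc
      · have h1 : n = o w := by
          have := (hn.symm.trans (ho w))
          have h3 := WithZero.exp_injective this
          omega
        omega
      · have := hm c hc h0 w n hn
        omega

open Classical in
/-- **A4**, (ii): the finite set `C` -/
theorem csp_C (v : Pl F) (h M' : ℕ) (d m₃ : Md F) : ∃ C : Finset F, ∀ z t : F, z ≠ 0 →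
    Ge v 0 z → ¬ Ge v (h : ℤ) z → (∀ w, w ≠ v → Ge w (-(d.z w)) t) →
    ∃ c ∈ C, c ≠ 0 ∧ Ge v (M' : ℤ) (c / z - 1) ∧ ∀ w, w ≠ v → Ge w (m₃.z w) (c - t) := by
  set e : Pl F → ℤ := fun w => if w = v then 0 else -(d.z w) with he
  set e' : Pl F → ℤ := fun w => if w = v then (h : ℤ) + M' else m₃.z w with he'
  have hm0 : ∀ w, 0 ≤ m₃.z w := fun w => Int.natCast_nonneg _
  have hd0 : ∀ w, 0 ≤ d.z w := fun w => Int.natCast_nonneg _
  obtain ⟨Y, hY, hYe, hYq⟩ := fin_quot (F := F) e e' (by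
    refine (((m₃.support.finite_toSet).union (d.support.finite_toSet)).union
      (Set.finite_singleton v)).subset ?_
    intro w hw
    by_contra hcon
    rw [Set.mem_union, Set.mem_union, not_or, not_or] at hcon
    obtain ⟨⟨h1, h2⟩, h3⟩ := hcon
    have h3 : w ≠ v := h3
    have h4 : m₃ w = 0 := Finsupp.notMem_support_iff.1 h1
    have h5 : d w = 0 := Finsupp.notMem_support_iff.1 h2
    simp only [he, he', Set.mem_ofPred_eq, h3, if_false, Md.z, h4, h5, Nat.cast_zero] at hw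
    omega)
  refine ⟨hY.toFinset, fun z t hz hz0 hzh ht => ?_⟩
  obtain ⟨x, hx1, hx2⟩ := approx (m₃.support ∪ d.support ∪ {v})
    (fun w => if w = v then z else t) e'
  have hxv : Ge v ((h : ℤ) + M') (x - z) := by
    have := hx1 v (by simp)
    simpa [he'] using this
  have hxw : ∀ w, w ≠ v → Ge w (m₃.z w) (x - t) := by
    intro w hw
    by_cases hwT : w ∈ m₃.support ∪ d.support ∪ {v}
    · have := hx1 w hwT
      simpa [he', hw] using this
    · have h1 := hx2 w hwT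
      have h2 := ht w hw
      rw [Finset.mem_union, Finset.mem_union, not_or, not_or] at hwT
      obtain ⟨⟨h3, h4⟩, h5⟩ := hwT
      have h6 : m₃ w = 0 := Finsupp.notMem_support_iff.1 h3
      have h7 : d w = 0 := Finsupp.notMem_support_iff.1 h4
      simp only [Md.z, h6, h7, Nat.cast_zero, neg_zero] at h2 ⊢
      exact h1.sub h2
  obtain ⟨c, hcY, hcx⟩ := hYq x (by
    intro w
    by_cases hw : w = v
    · rw [hw]
      have h1 : x = (x - z) + z := by ring
      rw [h1]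
      refine (hxv.mono ?_).add (hz0.mono ?_)
      · simp only [he, if_true]; omega
      · simp only [he, if_true]; omega
    · have h1 : x = (x - t) + t := by ring
      rw [h1]
      refine ((hxw w hw).mono ?_).add ((ht w hw).mono ?_)
      · simp only [he, hw, if_false]; have := hm0 w; have := hd0 w; omega
      · simp only [he, hw, if_false]; omega)
  have hcv : Ge v ((h : ℤ) + M') (c - z) := by
    have h1 : c - z = (x - z) - (x - c) := by ring
    rw [h1]
    refine hxv.sub ?_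
    have := hcx v
    simpa [he'] using this
  refine ⟨c, hY.mem_toFinset.2 hcY, ?_, ?_, ?_⟩
  · rintro rfl
    apply hzh
    rw [zero_sub] at hcv
    have := hcv.neg
    rw [neg_neg] at this
    exact this.mono (by omega)
  · obtain ⟨o, ho⟩ := csp4b_exists z hz
    have h1 : o v < h := by
      by_contra hcon
      exact hzh ((ho v).ge.2 (by omega))
    have h2 : c / z - 1 = (c - z) / z := by field_simp
    rw [h2]
    refine csp1_ge_div (ho v) (hcv.mono (by omega))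
  · intro w hw
    have h1 : c - t = (x - t) - (x - c) := by ring
    rw [h1]
    refine (hxw w hw).sub ?_
    have := hcx w
    simpa [he', hw] using this

/-- **A4**, (ii) -/
theorem csp_A4b (hF : TwoPl F) (v : Pl F) (B M : ℕ) (d m₃ m₄ : Md F) (hd : d v = 0) (p : ℕ)
    (hp : 0 < p) (hM : m₃ v + 2 * B ≤ M) (y s : F) (h : Co v B M d m₃ y s)
    (hy : ¬ Ge v (m₃.z v) y) : ∃ (y₁ s₁ : F) (u₀ : (𝓞 F)ˣ), Co v B M d m₃ y₁ s₁ ∧
    y - y₁ ∈ R m₃.z ∧ s - s₁ ∈ R m₃.z ∧ (∀ w, Ge w (m₄.z w) (((u₀ : 𝓞 F) : F) - 1)) ∧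
    1 + y₁ * s₁ = ((u₀ : 𝓞 F) : F) ^ p := by
  have hm0 : ∀ w, 0 ≤ m₃.z w := fun w => Int.natCast_nonneg _
  have hd0 : ∀ w, 0 ≤ d.z w := fun w => Int.natCast_nonneg _
  have hMz : m₃.z v + 2 * B ≤ M := by
    have : ((m₃ v + 2 * B : ℕ) : ℤ) ≤ M := by exact_mod_cast hM
    push_cast at this
    exact this
  obtain ⟨k, ϖ, hk, hϖ0, hϖv, hϖw⟩ := exists_pi v
  have hϖv : Csp4bE v (k : ℤ) ϖ := hϖv
  have hϖw : ∀ w, w ≠ v → Csp4bE w 0 ϖ := by
    intro w hw
    rw [Csp4bE, hϖw w hw, neg_zero, WithZero.exp_zero]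
  set M' : ℕ := m₃ v + B + 1 with hM'
  have hM'z : (M' : ℤ) = m₃.z v + B + 1 := by
    rw [hM']; push_cast; rfl
  obtain ⟨C, hC⟩ := csp_C v k M' d m₃
  obtain ⟨m₅, hm₅⟩ := csp4b_fin C
  have hm50 : ∀ w, 0 ≤ m₅.z w := fun w => Int.natCast_nonneg _
  have hm40 : ∀ w, 0 ≤ m₄.z w := fun w => Int.natCast_nonneg _
  set N : Md F := m₄ + m₃ + m₅ + Finsupp.single v M with hN
  have hNw : ∀ w, m₄.z w + m₃.z w + m₅.z w ≤ N.z w := by
    intro w
    simp only [hN, Md.z, Finsupp.add_apply, Nat.cast_add]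
    omega
  have hNv : m₄.z v + m₃.z v + m₅.z v + M ≤ N.z v := by
    simp only [hN, Md.z, Finsupp.add_apply, Nat.cast_add, Finsupp.single_eq_same]
    omega
  obtain ⟨u₀, hu₀, hu₀N⟩ := exists_unit hF N
  set U : F := ((u₀ : 𝓞 F) : F) ^ p with hU
  have hU1 : ∀ w, Ge w (N.z w) (U - 1) := by
    intro w
    obtain ⟨k, hk⟩ := sub_dvd_pow_sub_pow (u₀ : 𝓞 F) 1 p
    rw [one_pow] at hk
    have h1 : U - 1 = (((u₀ : 𝓞 F) : F) - 1) * (k : F) := by
      rw [hU, ← map_pow, ← map_one (algebraMap (𝓞 F) F), ← map_sub, ← map_sub, hk, map_mul]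
    rw [h1]
    exact ((hu₀N w).mul (ge_int w k)).mono (by omega)
  have hUne : U - 1 ≠ 0 := by
    intro h0
    apply hu₀ p hp
    apply Units.ext
    apply (FaithfulSMul.algebraMap_injective (𝓞 F) F)
    rw [Units.val_pow_eq_pow_val, map_pow, Units.val_one, map_one]
    exact sub_eq_zero.1 h0
  have hy0 : y ≠ 0 := by
    rintro rfl
    exact hy (ge_zero _ _)
  obtain ⟨a, ha⟩ := csp4b_exists (U - 1) hUne
  obtain ⟨b, hb⟩ := csp4b_exists y hy0
  have haN : ∀ w, N.z w ≤ a w := fun w => (ha w).ge.1 (hU1 w)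
  have hb1 : b v < m₃.z v := by
    by_contra hcon
    exact hy ((hb v).ge.2 (by omega))
  have hb2 : -(B : ℤ) ≤ b v := (hb v).ge.1 h.yv
  set q : ℤ := (a v - b v) / k with hq
  have hk0 : (0 : ℤ) < k := by exact_mod_cast hk
  have hq1 : 0 ≤ (a v - b v) % k := Int.emod_nonneg _ hk0.ne'
  have hq2 : (a v - b v) % k < k := Int.emod_lt_of_pos _ hk0
  have hq3 : k * q + (a v - b v) % k = a v - b v := Int.mul_ediv_add_emod _ _
  set r : ℤ := (a v - b v) % k with hr
  set z : F := (U - 1) / (ϖ ^ q * y) with hz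
  have hϖq : ϖ ^ q ≠ 0 := zpow_ne_zero _ hϖ0
  have hz0 : z ≠ 0 := div_ne_zero hUne (mul_ne_zero hϖq hy0)
  have hzv : Csp4bE v r z := by
    have := (ha v).div (((hϖv).zpow q).mul (hb v))
    rw [← hz] at this
    convert this using 1
    rw [mul_comm q]
    omega
  set t : F := s / ϖ ^ q with ht
  have htw : ∀ w, w ≠ v → Ge w (-(d.z w)) t := by
    intro w hw
    refine csp1_ge_div (o := 0) ?_ ?_
    · have := ((hϖw w hw).zpow q)
      rw [mul_zero] at this
      exact this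
    · rw [add_zero]
      exact h.sw w hw
  obtain ⟨c, hcC, hc0, hcv, hcw⟩ := hC z t hz0 (hzv.ge.2 hq1) (fun hh => by
    have := hzv.ge.1 hh
    omega) htw
  have hcz : Csp4bE v 0 (c / z) := Csp4bE.of_sub_one (hcv.mono (by omega))
  have hcE : Csp4bE v r c := by
    have h1 := hcz.mul hzv
    rw [div_mul_cancel₀ _ hz0, zero_add] at h1
    exact h1
  set s₁ : F := ϖ ^ q * c with hs₁
  set y₁ : F := (U - 1) / s₁ with hy₁
  have hs₁0 : s₁ ≠ 0 := mul_ne_zero hϖq hc0
  have hs₁v : Csp4bE v (a v - b v) s₁ := by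
    have := ((hϖv).zpow q).mul hcE
    rw [← hs₁] at this
    convert this using 1
    rw [mul_comm q]
    omega
  have hs₁M : Ge v (M : ℤ) s₁ := hs₁v.ge.2 (by
    have := haN v; have := hm50 v; have := hm40 v
    omega)
  have hsw : ∀ w, w ≠ v → Ge w (m₃.z w) (s₁ - s) := by
    intro w hw
    have h1 : s₁ - s = ϖ ^ q * (c - t) := by
      rw [hs₁, ht]; field_simp
    rw [h1]
    have h2 : Ge w 0 (ϖ ^ q) := ((hϖw w hw).zpow q).ge.2 (by omega)
    exact (h2.mul (hcw w hw)).mono (by omega)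
  have hyz : y₁ = y * (z / c) := by
    rw [hy₁, hs₁, hz]
    field_simp
  have hzc1 : Ge v (M' : ℤ) (z / c - 1) := by
    have h1 : z / c - 1 = -((c / z - 1) / (c / z)) := by
      field_simp
      ring
    rw [h1]
    refine (csp1_ge_div hcz ?_).neg
    rw [add_zero]
    exact hcv
  have hzc : Csp4bE v 0 (z / c) := Csp4bE.of_sub_one (hzc1.mono (by omega))
  have hy₁w : ∀ w, w ≠ v → Ge w (m₃.z w) y₁ := by
    intro w hw
    obtain ⟨o, ho⟩ := csp4b_exists s₁ hs₁0
    have h2 : Csp4bE w (o w) c := by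
      have h3 := (ho w).div ((hϖw w hw).zpow q)
      rw [hs₁, mul_div_cancel_left₀ _ hϖq] at h3
      convert h3 using 1
      ring
    have h4 := hm₅ c hcC hc0 w _ h2
    refine csp1_ge_div (ho w) ((hU1 w).mono ?_)
    have := hNw w; have := hm40 w
    omega
  refine ⟨y₁, s₁, u₀, ⟨?_, hy₁w, hs₁M, ?_⟩, ?_, ?_, ?_, ?_⟩
  · rw [hyz]
    have h1 : Ge v 0 (z / c) := hzc.ge.2 le_rfl
    exact (h.yv.mul h1).mono (by omega)
  · intro w hw
    have h1 : s₁ = (s₁ - s) + s := by ring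
    rw [h1]
    refine ((hsw w hw).mono ?_).add (h.sw w hw)
    have := hm0 w; have := hd0 w
    omega
  · intro w
    by_cases hw : w = v
    · rw [hw]
      have h1 : y - y₁ = -(y * (z / c - 1)) := by rw [hyz]; ring
      rw [h1]
      exact ((h.yv.mul hzc1).mono (by omega)).neg
    · exact (h.yw w hw).sub (hy₁w w hw)
  · intro w
    by_cases hw : w = v
    · rw [hw]
      exact (h.sv.mono (by omega)).sub (hs₁M.mono (by omega))
    · have := (hsw w hw).neg
      rwa [neg_sub] at this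
  · intro w
    refine (hu₀N w).mono ?_
    have := hNw w; have := hm50 w; have := hm0 w
    omega
  · rw [hy₁, div_mul_cancel₀ _ hs₁0, hU]
    ring

/-- **A4** -/
theorem csp_A4 (hF : TwoPl F) (n : Md F) (v : Pl F) (B : ℕ) (d : Md F) (hd : d v = 0) (p : ℕ)
    (hp : 0 < p) : ∃ (M : ℕ) (m₃ : Md F), n ≤ m₃ ∧
    ∀ (V : Type) [AddCommGroup V], (∀ x : V, p • x = 0) → ∀ (Γ : Subgroup (G F)) (f : G F → V),
      Gam n ≤ Γ → AddOn Γ f → ∀ y s : F, Co v B M d m₃ y s →
        Ee y * El s * Ee (-y) * El (-s) ∈ Γ ∧ f (Ee y * El s * Ee (-y) * El (-s)) = 0 := by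
  obtain ⟨M, m₃, m₄, h1, h2, h3⟩ := csp_A4a hF n v B d hd p hp
  refine ⟨M, m₃, h1, ?_⟩
  intro V _ hV Γ f hΓ hf y s hys
  obtain ⟨h4, h5, h6⟩ := h3 V hV Γ f hΓ hf
  refine ⟨h4 y s hys, ?_⟩
  by_cases hy : Ge v (m₃.z v) y
  · have h7 : Co v B M d m₃ 0 s := ⟨ge_zero _ _, fun w _ => ge_zero _ _, hys.sv, hys.sw⟩
    rw [h5 y s 0 s hys h7 (fun w => ?_) (by rw [sub_self]; exact (R m₃.z).zero_mem)]
    · rw [neg_zero, Ee_zero, one_mul, mul_one, El_neg, mul_inv_cancel]
      exact hf.one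
    · rw [sub_zero]
      by_cases hw : w = v
      · rw [hw]; exact hy
      · exact hys.yw w hw
  · obtain ⟨y₁, s₁, u₀, h7, h8, h9, h10, h11⟩ := csp_A4b hF v B M d m₃ m₄ hd p hp h2 y s hys hy
    rw [h5 y s y₁ s₁ hys h7 h8 h9]
    exact h6 y₁ s₁ u₀ h7 h10 h11

end Pool.Agent.CG2
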