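import Pool.Agent.CG2.Csp4b

/-!
# The congruence subgroup argument, step A5
-/

noncomputable section

namespace Pool.Agent.CG2

open NumberField IsDedekindDomain Matrix

variable {F : Type} [Field F] [NumberField F]

theorem csp5_id {A : Type*} [Group A] {y s t : A} (h : s * t = t * s) :
    y * (s * t) * y⁻¹ * (s * t)⁻¹ =
      (y * s * y⁻¹ * s⁻¹) * ((y * s * y⁻¹ * s⁻¹)⁻¹ * (y * t * y⁻¹) * (y * s * y⁻¹ * s⁻¹) * t⁻¹) := by
  have h1 : (s * t)⁻¹ = s⁻¹ * t⁻¹ := by rw [h, _root_.mul_inv_rev]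
  have h2 : s⁻¹ * t⁻¹ = t⁻¹ * s⁻¹ := by rw [← _root_.mul_inv_rev, ← _root_.mul_inv_rev, h]
  have h3 : s⁻¹ * t = t * s⁻¹ := by
    rw [inv_mul_eq_iff_eq_mul, ← mul_assoc, h, mul_assoc, mul_inv_cancel, mul_one]
  calc y * (s * t) * y⁻¹ * (s * t)⁻¹ = y * t * y⁻¹ * (y * s * y⁻¹ * s⁻¹) * t⁻¹ := by
        rw [h1, h]; group
    _ = _ := by group

theorem csp5_mul_comm {V : Type} [AddCommGroup V] {Γ : Subgroup (G F)} {f : G F → V}
    (hf : AddOn Γ f) {a b : G F} (ha : a ∈ Γ) (hb : b ∈ Γ) : f (a * b * a⁻¹) = f b := by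
  rw [hf _ (Γ.mul_mem ha hb) _ (Γ.inv_mem ha), hf _ ha _ hb, hf.inv ha]
  abel

theorem csp5_fact (g : G F) (hdet : (g : Matrix (Fin 2) (Fin 2) F).det = 1)
    (ha : (g : Matrix (Fin 2) (Fin 2) F) 0 0 ≠ 0) :
    g = El ((g : Matrix (Fin 2) (Fin 2) F) 1 0 / (g : Matrix (Fin 2) (Fin 2) F) 0 0) *
      Hd ((g : Matrix (Fin 2) (Fin 2) F) 0 0) ha *
      Ee ((g : Matrix (Fin 2) (Fin 2) F) 0 1 / (g : Matrix (Fin 2) (Fin 2) F) 0 0) := by
  apply Units.ext
  rw [Units.val_mul, Units.val_mul, Ee_val, El_val, Hd_val]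
  simp only [Matrix.mul_fin_two]
  rw [Matrix.det_fin_two] at hdet
  set a := (g : Matrix (Fin 2) (Fin 2) F) 0 0 with had
  set b := (g : Matrix (Fin 2) (Fin 2) F) 0 1 with hbd
  set c := (g : Matrix (Fin 2) (Fin 2) F) 1 0 with hcd
  set d := (g : Matrix (Fin 2) (Fin 2) F) 1 1 with hdd
  ext i j
  fin_cases i <;> fin_cases j
  · simp [← had]
  · simp [← hbd]
    field_simp
  · simp [← hcd]
    field_simp
  · simp [← hdd]
    field_simp
    linear_combination hdet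

theorem csp5_comm (g : G F) (hdet : (g : Matrix (Fin 2) (Fin 2) F).det = 1)
    (ha : (g : Matrix (Fin 2) (Fin 2) F) 0 0 ≠ 0) (x : F) :
    Ee x * g * Ee (-x) * g⁻¹ =
      Ee (x - (g : Matrix (Fin 2) (Fin 2) F) 0 0 ^ 2 * x) *
      (Ee ((g : Matrix (Fin 2) (Fin 2) F) 0 0 ^ 2 * x) *
        El ((g : Matrix (Fin 2) (Fin 2) F) 1 0 / (g : Matrix (Fin 2) (Fin 2) F) 0 0) *
        Ee (-((g : Matrix (Fin 2) (Fin 2) F) 0 0 ^ 2 * x)) *
        El (-((g : Matrix (Fin 2) (Fin 2) F) 1 0 / (g : Matrix (Fin 2) (Fin 2) F) 0 0))) := by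
  have h1' := csp5_fact g hdet ha
  set a := (g : Matrix (Fin 2) (Fin 2) F) 0 0 with had
  set s := (g : Matrix (Fin 2) (Fin 2) F) 1 0 / a with hsd
  set r := (g : Matrix (Fin 2) (Fin 2) F) 0 1 / a with hrd
  have h1 : g = El s * Hd a ha * Ee r := h1'
  clear h1'
  have h2 : Hd a ha * Ee (-x) * (Hd a ha)⁻¹ = Ee (a ^ 2 * (-x)) := csp1_Hd_Ee a (-x) ha
  have h3 : Ee r * Ee (-x) * (Ee r)⁻¹ = Ee (-x) := by
    rw [← Ee_neg, ← Ee_add, ← Ee_add]
    congr 1
    ring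
  calc Ee x * g * Ee (-x) * g⁻¹ = Ee x * El s * (Hd a ha * (Ee r * Ee (-x) * (Ee r)⁻¹) *
        (Hd a ha)⁻¹) * (El s)⁻¹ := by
        rw [h1]; group
    _ = Ee x * El s * Ee (a ^ 2 * (-x)) * (El s)⁻¹ := by rw [h3, h2]
    _ = _ := by
      rw [sub_eq_add_neg, Ee_add, El_neg, mul_neg, Ee_neg]
      group

open Classical in
/-- **A5** -/
theorem csp_A5 (hF : TwoPl F) (n : Md F) (p : ℕ) (hp : 0 < p) : ∃ m₁ : Md F, n ≤ m₁ ∧
    ∀ (v : Pl F) (x : F), (∀ w, w ≠ v → Ge w (m₁.z w) x) → ∃ e' : Md F,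
    ∀ (V : Type) [AddCommGroup V], (∀ x : V, p • x = 0) → ∀ (Γ : Subgroup (G F)) (f : G F → V),
      Gam n ≤ Γ → AddOn Γ f → ∀ g ∈ Gam e', (g : Matrix (Fin 2) (Fin 2) F).det = 1 →
        g ∈ Γ ∧ Ee x * g * Ee (-x) ∈ Γ ∧ f (Ee x * g * Ee (-x)) = f g := by
  obtain ⟨m₁, hm₁, hA1⟩ := csp_A1 hF n
  refine ⟨m₁, hm₁, ?_⟩
  intro v x hx
  obtain ⟨B, hB⟩ : ∃ B : ℕ, Ge v (-(B : ℤ)) x := by
    by_cases h0 : x = 0
    · exact ⟨0, by rw [h0]; exact ge_zero _ _⟩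
    · obtain ⟨o, ho⟩ := csp4b_exists x h0
      exact ⟨(o v).natAbs, (ho v).ge.2 (by omega)⟩
  obtain ⟨m₂, hm₂, hA3⟩ := csp_A3 hF n v B
  refine ⟨n + Finsupp.single v (m₁ v + B + m₂ v + 1), ?_⟩
  set e' : Md F := n + Finsupp.single v (m₁ v + B + m₂ v + 1) with he'
  have he'w : ∀ w, n.z w ≤ e'.z w := by
    intro w
    simp only [he', Md.z, Finsupp.add_apply, Nat.cast_add]
    omega
  have he'v : e'.z v = n.z v + (m₁.z v + B + m₂.z v + 1) := by
    simp only [he', Md.z, Finsupp.add_apply, Nat.cast_add, Finsupp.single_eq_same, Nat.cast_one]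
  have hn0 : ∀ w, 0 ≤ n.z w := fun w => Int.natCast_nonneg _
  have hm10 : ∀ w, 0 ≤ m₁.z w := fun w => Int.natCast_nonneg _
  have hm20 : ∀ w, 0 ≤ m₂.z w := fun w => Int.natCast_nonneg _
  have hm1n : ∀ w, n.z w ≤ m₁.z w := by
    intro w
    have := hm₁ w
    change (n w : ℤ) ≤ (m₁ w : ℤ)
    exact_mod_cast this
  have hm2n : ∀ w, n.z w ≤ m₂.z w := by
    intro w
    have := hm₂ w
    change (n w : ℤ) ≤ (m₂ w : ℤ)
    exact_mod_cast this
  intro V _ hV Γ f hΓ hf g hg hdet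
  have hgΓ : g ∈ Γ := hΓ (Gam_mono le_self_add hg)
  refine ⟨hgΓ, ?_⟩
  -- the entries
  set a := (g : Matrix (Fin 2) (Fin 2) F) 0 0 with had
  set c := (g : Matrix (Fin 2) (Fin 2) F) 1 0 with hcd
  have ha1 : ∀ w, Ge w (e'.z w) (a - 1) := by
    intro w
    have := hg.1 0 0 w
    rw [Matrix.sub_apply, Matrix.one_apply_eq] at this
    exact this
  have hc1 : ∀ w, Ge w (e'.z w) c := by
    intro w
    have := hg.1 1 0 w
    rw [Matrix.sub_apply, Matrix.one_apply_ne (by decide), sub_zero] at this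
    exact this
  have hav : Csp4bE v 0 a := Csp4bE.of_sub_one ((ha1 v).mono (by
    have := hn0 v; have := hm10 v; have := hm20 v
    omega))
  have ha0 : a ≠ 0 := hav.ne
  have hai : ∀ w, Ge w 0 a := by
    intro w
    have h1 : a = (a - 1) + 1 := by ring
    rw [h1]
    exact ((ha1 w).mono (by have := he'w w; have := hn0 w; omega)).add (ge_one w)
  obtain ⟨o, ho⟩ := csp4b_exists a ha0
  have ho0 : ∀ w, 0 ≤ o w := fun w => (ho w).ge.1 (hai w)
  have hov : o v = 0 := by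
    have := WithZero.exp_injective ((ho v).symm.trans hav)
    omega
  set d : Md F := o.mapRange Int.toNat (by simp) with hd
  have hdz : ∀ w, d.z w = o w := by
    intro w
    simp only [hd, Md.z, Finsupp.mapRange_apply]
    exact Int.toNat_of_nonneg (ho0 w)
  have hdv : d v = 0 := by
    simp [hd, hov]
  obtain ⟨M, μ, hμ, hA4⟩ := csp_A4 hF n v B d hdv p hp
  have hμ0 : ∀ w, 0 ≤ μ.z w := fun w => Int.natCast_nonneg _
  set m₃ : Md F := μ + m₁ + m₂ with hm₃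
  have hm₃w : ∀ w, m₃.z w = μ.z w + m₁.z w + m₂.z w := by
    intro w
    simp only [hm₃, Md.z, Finsupp.add_apply, Nat.cast_add]
  -- `x'`
  obtain ⟨x', hx'1, hx'2⟩ := approx (m₃.support ∪ {v}) (fun w => if w = v then x else 0) m₃.z
  have hx'v : Ge v (m₃.z v) (x' - x) := by
    have := hx'1 v (by simp)
    simpa using this
  have hx'w : ∀ w, w ≠ v → Ge w (m₃.z w) x' := by
    intro w hw
    by_cases hwT : w ∈ m₃.support ∪ {v}
    · have := hx'1 w hwT
      simpa [hw] using this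
    · have h1 := hx'2 w hwT
      rw [Finset.mem_union, not_or] at hwT
      have h3 : m₃ w = 0 := Finsupp.notMem_support_iff.1 hwT.1
      simp only [Md.z, h3, Nat.cast_zero]
      exact h1
  have hz : x' - x ∈ R m₁.z := by
    intro w
    by_cases hw : w = v
    · rw [hw]
      refine hx'v.mono ?_
      have := hm₃w v; have := hμ0 v; have := hm20 v
      omega
    · refine ((hx'w w hw).mono ?_).sub (hx w hw)
      have := hm₃w w; have := hμ0 w; have := hm20 w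
      omega
  have hx'B : Ge v (-(B : ℤ)) x' := by
    have h1 : x' = (x' - x) + x := by ring
    rw [h1]
    refine (hx'v.mono ?_).add hB
    have := hm₃w v; have := hμ0 v; have := hm20 v; have := hm10 v
    omega
  -- `s`
  set s : F := c / a with hs
  have hsv : Ge v (e'.z v) s := csp1_ge_div hav (by rw [add_zero]; exact hc1 v)
  have hsw : ∀ w, Ge w (-(o w)) s := by
    intro w
    refine csp1_ge_div (ho w) ((hc1 w).mono ?_)
    have := he'w w; have := hn0 w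
    omega
  obtain ⟨s₁, hs₁1, hs₁2⟩ := approx (m₃.support ∪ d.support ∪ {v})
    (fun w => if w = v then 0 else s) (fun w => if w = v then (M : ℤ) + m₂.z v else m₃.z w)
  have hs₁v : Ge v ((M : ℤ) + m₂.z v) s₁ := by
    have := hs₁1 v (by simp)
    simpa using this
  have hs₁w : ∀ w, w ≠ v → Ge w (m₃.z w) (s₁ - s) := by
    intro w hw
    by_cases hwT : w ∈ m₃.support ∪ d.support ∪ {v}
    · have := hs₁1 w hwT
      simpa [hw] using this
    · have h1 := hs₁2 w hwT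
      rw [Finset.mem_union, Finset.mem_union, not_or, not_or] at hwT
      have h3 : m₃ w = 0 := Finsupp.notMem_support_iff.1 hwT.1.1
      have h4 : d w = 0 := Finsupp.notMem_support_iff.1 hwT.1.2
      have h5 : o w = 0 := by
        rw [← hdz w]
        change (d w : ℤ) = 0
        rw [h4, Nat.cast_zero]
      have h2 := hsw w
      rw [h5, neg_zero] at h2
      simp only [Md.z, h3, Nat.cast_zero]
      exact h1.sub h2
  set s₂ : F := s - s₁ with hs₂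
  have hss : s = s₁ + s₂ := by rw [hs₂]; ring
  have hs₂R : s₂ ∈ R m₂.z := by
    intro w
    by_cases hw : w = v
    · rw [hw]
      refine (hsv.mono ?_).sub (hs₁v.mono ?_)
      · have := hn0 v; have := hm10 v
        omega
      · omega
    · have h1 : s₂ = -(s₁ - s) := by rw [hs₂]; ring
      rw [h1]
      refine ((hs₁w w hw).mono ?_).neg
      have := hm₃w w; have := hμ0 w; have := hm10 w
      omega
  have hs₁d : ∀ w, w ≠ v → Ge w (-(d.z w)) s₁ := by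
    intro w hw
    have h1 : s₁ = (s₁ - s) + s := by ring
    rw [h1]
    refine ((hs₁w w hw).mono ?_).add ((hsw w).mono ?_)
    · have := hm₃w w; have := hμ0 w; have := hm10 w; have := hm20 w; have := hdz w
      have := ho0 w
      omega
    · have := hdz w
      omega
  -- `y`
  set y : F := a ^ 2 * x' with hy
  have ha2 : ∀ w, Ge w 0 (a ^ 2) := by
    intro w
    rw [pow_two]
    exact ((hai w).mul (hai w)).mono (by omega)
  have hyv : Ge v (-(B : ℤ)) y := ((ha2 v).mul hx'B).mono (by omega)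
  have hyw : ∀ w, w ≠ v → Ge w (m₃.z w) y := fun w hw =>
    ((ha2 w).mul (hx'w w hw)).mono (by omega)
  have hCo : Co v B M d μ y s₁ := by
    refine ⟨hyv, fun w hw => (hyw w hw).mono ?_, hs₁v.mono ?_, hs₁d⟩
    · have := hm₃w w; have := hm10 w; have := hm20 w
      omega
    · have := hm20 v
      omega
  obtain ⟨k1, k2⟩ := hA4 V hV Γ f hΓ hf y s₁ hCo
  obtain ⟨l1, l2⟩ := hA3 V Γ f hΓ hf y hyv (fun w hw => (hyw w hw).mono (by
    have := hm₃w w; have := hμ0 w; have := hm10 w; have := hm2n w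
    omega)) s₂ hs₂R
  have hone : ∀ g ∈ Gam n, (1 : G F) * g * 1⁻¹ ∈ Γ := by
    intro g hg
    rw [one_mul, inv_one, mul_one]
    exact hΓ hg
  have hA0 := hA1 V Γ f hf 1 hone
  simp only [one_mul, inv_one, mul_one] at hA0
  obtain ⟨r1, r2⟩ := (hA0 (x' - x) hz).1
  have hu : x' - a ^ 2 * x' ∈ R m₁.z := by
    intro w
    by_cases hw : w = v
    · rw [hw]
      have h1 : x' - a ^ 2 * x' = -(x' * ((a - 1) * (a + 1))) := by ring
      rw [h1]
      have h2 : Ge v 0 (a + 1) := (hai v).add (ge_one v)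
      refine ((hx'B.mul ((ha1 v).mul h2)).mono ?_).neg
      have := hn0 v; have := hm20 v
      omega
    · refine ((hx'w w hw).mono ?_).sub ((hyw w hw).mono ?_)
      · have := hm₃w w; have := hμ0 w; have := hm20 w
        omega
      · have := hm₃w w; have := hμ0 w; have := hm20 w
        omega
  obtain ⟨t1, t2⟩ := (hA0 _ hu).1
  have hs₂Γ : El s₂ ∈ Γ := hΓ (csp1_El_mem (csp1_Rmono hm₂ hs₂R))
  -- the commutator of `Ee y` and `El s`
  have hL : Ee y * El s₂ * (Ee y)⁻¹ ∈ Γ ∧ f (Ee y * El s₂ * (Ee y)⁻¹) = f (El s₂) := by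
    have h1 : Ee y * El s₂ * (Ee y)⁻¹ = (Ee y * El s₂ * Ee (-y) * El (-s₂)) * El s₂ := by
      rw [Ee_neg, El_neg]; group
    rw [h1]
    exact ⟨Γ.mul_mem l1 hs₂Γ, by rw [hf _ l1 _ hs₂Γ, l2, zero_add]⟩
  have hcomm : Ee y * El s * Ee (-y) * El (-s) ∈ Γ ∧
      f (Ee y * El s * Ee (-y) * El (-s)) = 0 := by
    have key : Ee y * El s * Ee (-y) * El (-s) =
        (Ee y * El s₁ * Ee (-y) * El (-s₁)) * ((Ee y * El s₁ * Ee (-y) * El (-s₁))⁻¹ *
          (Ee y * El s₂ * (Ee y)⁻¹) * (Ee y * El s₁ * Ee (-y) * El (-s₁)) * (El s₂)⁻¹) := by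
      rw [hss, El_neg (s₁ + s₂), El_add, Ee_neg, El_neg]
      exact csp5_id (by rw [← El_add, ← El_add, add_comm])
    rw [key]
    have i1 := Γ.inv_mem k1
    have i2 := Γ.mul_mem (Γ.mul_mem i1 hL.1) k1
    have i3 := Γ.mul_mem i2 (Γ.inv_mem hs₂Γ)
    refine ⟨Γ.mul_mem k1 i3, ?_⟩
    rw [hf _ k1 _ i3, hf _ i2 _ (Γ.inv_mem hs₂Γ), hf _ (Γ.mul_mem i1 hL.1) _ k1, hf _ i1 _ hL.1,
      hf.inv k1, k2, hf.inv hs₂Γ, hL.2]
    simp
  -- conclusion
  have hx'g : Ee x' * g * Ee (-x') * g⁻¹ ∈ Γ ∧ f (Ee x' * g * Ee (-x') * g⁻¹) = 0 := by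
    rw [csp5_comm g hdet ha0 x']
    refine ⟨Γ.mul_mem t1 hcomm.1, ?_⟩
    rw [hf _ t1 _ hcomm.1, t2, hcomm.2, add_zero]
  have hx'g2 : Ee x' * g * Ee (-x') ∈ Γ ∧ f (Ee x' * g * Ee (-x')) = f g := by
    have h1 : Ee x' * g * Ee (-x') = (Ee x' * g * Ee (-x') * g⁻¹) * g := by group
    rw [h1]
    exact ⟨Γ.mul_mem hx'g.1 hgΓ, by rw [hf _ hx'g.1 _ hgΓ, hx'g.2, zero_add]⟩
  have hfin : Ee x * g * Ee (-x) = (Ee (x' - x))⁻¹ * (Ee x' * g * Ee (-x')) *
      (Ee (x' - x))⁻¹⁻¹ := by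
    have h1 : (Ee (x' - x))⁻¹ = Ee x * Ee (-x') := by
      rw [← Ee_neg, ← Ee_add]
      congr 1
      ring
    rw [h1, Ee_neg, Ee_neg]
    group
  rw [hfin]
  refine ⟨Γ.mul_mem (Γ.mul_mem (Γ.inv_mem r1) hx'g2.1) (Γ.inv_mem (Γ.inv_mem r1)), ?_⟩
  rw [csp5_mul_comm hf (Γ.inv_mem r1) hx'g2.1]
  exact hx'g2.2

end Pool.Agent.CG2
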