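import Mathlib

/-!
# Cohomology of the locally symmetric spaces of GL₂ over a number field: the adelic group and
# the coefficient modules
-/

noncomputable section

namespace Pool.Agent.CG2

open NumberField IsDedekindDomain Matrix

/-- The finite places of the number field `F`. -/
abbrev Pl (F : Type) [Field F] [NumberField F] := HeightOneSpectrum (𝓞 F)

/-- The group `GL₂(F)`. -/
abbrev G (F : Type) [Field F] [NumberField F] := GL (Fin 2) F

variable {F : Type} [Field F] [NumberField F]

/-- The completion of `F` at the finite place `v`. -/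
abbrev Fv (v : Pl F) := v.adicCompletion F

/-- The ring of integers of the completion of `F` at `v`. -/
abbrev Ov (v : Pl F) := v.adicCompletionIntegers F

/-- The group `GL₂(F_v)` (a topological group). -/
abbrev GQ (v : Pl F) := GL (Fin 2) (Fv v)

/-- The subgroup `GL₂(O_v)` of `GL₂(F_v)`. -/
def GZ (v : Pl F) : Subgroup (GQ v) :=
  (GeneralLinearGroup.map (n := Fin 2) (algebraMap (Ov v) (Fv v))).range

theorem mem_GZ_iff (v : Pl F) (g : GQ v) :
    g ∈ GZ v ↔ (∀ i j, Valued.v ((g : Matrix (Fin 2) (Fin 2) (Fv v)) i j) ≤ 1) ∧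
      (∀ i j, Valued.v (((g⁻¹ : GQ v) : Matrix (Fin 2) (Fin 2) (Fv v)) i j) ≤ 1) := by
  constructor
  · rintro ⟨u, rfl⟩
    constructor
    · intro i j
      exact ((u : Matrix (Fin 2) (Fin 2) (Ov v)) i j).2
    · intro i j
      rw [← map_inv]
      exact (((u⁻¹ : GL (Fin 2) (Ov v)) : Matrix (Fin 2) (Fin 2) (Ov v)) i j).2
  · rintro ⟨h1, h2⟩
    let A : Matrix (Fin 2) (Fin 2) (Ov v) := fun i j => ⟨_, h1 i j⟩
    let B : Matrix (Fin 2) (Fin 2) (Ov v) := fun i j => ⟨_, h2 i j⟩
    have hA : A.map (algebraMap (Ov v) (Fv v)) = (g : Matrix (Fin 2) (Fin 2) _) := by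
      ext i j; rfl
    have hB : B.map (algebraMap (Ov v) (Fv v))
        = ((g⁻¹ : GQ v) : Matrix (Fin 2) (Fin 2) _) := by
      ext i j; rfl
    have hinj : ∀ M N : Matrix (Fin 2) (Fin 2) (Ov v),
        M.map (algebraMap (Ov v) (Fv v)) = N.map (algebraMap (Ov v) (Fv v)) → M = N := by
      intro M N h
      ext i j
      have := congrFun (congrFun h i) j
      exact congrArg _ this
    have hAB : A * B = 1 := by
      apply hinj
      rw [Matrix.map_mul, hA, hB, Matrix.map_one _ (map_zero _) (map_one _)]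
      exact congrArg Units.val (mul_inv_cancel g)
    have hBA : B * A = 1 := by
      apply hinj
      rw [Matrix.map_mul, hA, hB, Matrix.map_one _ (map_zero _) (map_one _)]
      exact congrArg Units.val (inv_mul_cancel g)
    refine ⟨⟨A, B, hAB, hBA⟩, ?_⟩
    apply Units.ext
    exact hA

/-- The group `GL₂(𝔸_f)` : the restricted product of the groups `GL₂(F_v)` with respect to the
subgroups `GL₂(O_v)`. -/
def GA (F : Type) [Field F] [NumberField F] : Subgroup (∀ v : Pl F, GQ v) where
  carrier := {g | {v | g v ∉ GZ v}.Finite}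
  mul_mem' := by
    intro a b ha hb
    refine (ha.union hb).subset ?_
    intro v hv
    by_contra h
    simp only [Set.mem_union, Set.mem_ofPred_eq, not_or, not_not] at h
    exact hv ((GZ v).mul_mem h.1 h.2)
  one_mem' := by
    refine Set.finite_empty.subset ?_
    intro v hv
    exact (hv ((GZ v).one_mem)).elim
  inv_mem' := by
    intro a ha
    refine ha.subset ?_
    intro v hv h
    exact hv ((GZ v).inv_mem h)

/-- The image of a matrix with entries in `F` in `GL₂(F_v)`. -/
def loc (v : Pl F) : G F →* GQ v := GeneralLinearGroup.map (algebraMap F (Fv v))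

theorem loc_apply (v : Pl F) (γ : G F) (i j : Fin 2) :
    (loc v γ : Matrix (Fin 2) (Fin 2) (Fv v)) i j
      = (((γ : Matrix (Fin 2) (Fin 2) F) i j : F) : Fv v) := rfl

theorem loc_inv_apply (v : Pl F) (γ : G F) (i j : Fin 2) :
    (((loc v γ)⁻¹ : GQ v) : Matrix (Fin 2) (Fin 2) (Fv v)) i j
      = ((((γ⁻¹ : G F) : Matrix (Fin 2) (Fin 2) F) i j : F) : Fv v) := by
  rw [← map_inv, loc_apply]

theorem finite_val_gt (x : F) : {v : Pl F | ¬ Valued.v ((x : F) : Fv v) ≤ 1}.Finite := by
  refine (HeightOneSpectrum.Support.finite (R := 𝓞 F) x).subset ?_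
  intro v hv
  simp only [Set.mem_ofPred_eq, not_le] at hv
  rw [HeightOneSpectrum.adicCompletion.valued_coe] at hv
  exact hv

/-- The diagonal embedding `GL₂(F) → GL₂(𝔸_f)`. -/
def diag : G F →* GA F where
  toFun γ := ⟨fun v => loc v γ, by
    have h1 : ({v : Pl F | ∃ i j, ¬ Valued.v (((γ : Matrix (Fin 2) (Fin 2) F) i j : F) : Fv v) ≤ 1} ∪
        {v : Pl F | ∃ i j, ¬ Valued.v ((((γ⁻¹ : G F) : Matrix (Fin 2) (Fin 2) F) i j : F) :
          Fv v) ≤ 1}).Finite := by
      refine Set.Finite.union ?_ ?_
      · have : {v : Pl F | ∃ i j, ¬ Valued.v (((γ : Matrix (Fin 2) (Fin 2) F) i j : F) : Fv v) ≤ 1}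
          = ⋃ i, ⋃ j, {v : Pl F | ¬ Valued.v (((γ : Matrix (Fin 2) (Fin 2) F) i j : F) :
              Fv v) ≤ 1} := by
          ext v; simp
        rw [this]
        exact Set.finite_iUnion fun i => Set.finite_iUnion fun j => finite_val_gt _
      · have : {v : Pl F | ∃ i j, ¬ Valued.v ((((γ⁻¹ : G F) : Matrix (Fin 2) (Fin 2) F) i j : F) :
            Fv v) ≤ 1}
          = ⋃ i, ⋃ j, {v : Pl F | ¬ Valued.v ((((γ⁻¹ : G F) : Matrix (Fin 2) (Fin 2) F) i j : F) :
              Fv v) ≤ 1} := by
          ext v; simp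
        rw [this]
        exact Set.finite_iUnion fun i => Set.finite_iUnion fun j => finite_val_gt _
    refine h1.subset ?_
    intro v hv
    by_contra h
    simp only [Set.mem_union, Set.mem_ofPred_eq, not_or, not_exists, not_not] at h
    apply hv
    rw [mem_GZ_iff]
    refine ⟨fun i j => by rw [loc_apply]; exact h.1 i j, fun i j => ?_⟩
    rw [loc_inv_apply]
    exact h.2 i j⟩
  map_one' := by
    apply Subtype.ext
    funext v
    exact map_one _
  map_mul' a b := by
    apply Subtype.ext
    funext v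
    exact map_mul _ _ _

@[simp] theorem diag_apply (γ : G F) (v : Pl F) : (diag γ).1 v = loc v γ := rfl

open Classical in
/-- The embedding `GL₂(F_v) → GL₂(𝔸_f)`. -/
def single (v : Pl F) : GQ v →* GA F where
  toFun h := ⟨Pi.mulSingle v h, by
    refine (Set.finite_singleton v).subset ?_
    intro q hq
    by_contra hne
    apply hq
    rw [Pi.mulSingle_eq_of_ne (fun h => hne h)]
    exact (GZ q).one_mem⟩
  map_one' := by
    apply Subtype.ext
    exact Pi.mulSingle_one v
  map_mul' a b := by
    apply Subtype.ext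
    exact Pi.mulSingle_mul v a b

open Classical in
@[simp] theorem single_apply (v : Pl F) (h : GQ v) : (single v h).1 = Pi.mulSingle v h := rfl

/-- The real places of `F`. -/
abbrev RPl (F : Type) [Field F] [NumberField F] := {w : InfinitePlace F // w.IsReal}

/-- The determinant of an element of `GL₂(F)` at a real place. -/
def rdet (w : RPl F) (γ : G F) : ℝ :=
  InfinitePlace.embedding_of_isReal w.2 (γ : Matrix (Fin 2) (Fin 2) F).det

theorem rdet_ne (w : RPl F) (γ : G F) : rdet w γ ≠ 0 := by
  have h := γ.isUnit.map (Matrix.detMonoidHom (R := F) (n := Fin 2))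
  have h2 : (γ : Matrix (Fin 2) (Fin 2) F).det ≠ 0 := h.ne_zero
  exact (map_ne_zero (InfinitePlace.embedding_of_isReal w.2)).2 h2

theorem rdet_mul (w : RPl F) (a b : G F) : rdet w (a * b) = rdet w a * rdet w b := by
  rw [rdet, Units.val_mul, Matrix.det_mul, map_mul]
  rfl

open Classical in
/-- The action of `GL₂(F)` on the set of the connected components of
`GL₂(F ⊗ ℝ) / ℝ_{>0} ∏ SO(2) ∏ U(2)`, a torsor under `{1,-1}^(real places)`: the signs of the
determinant at the real places. -/
def sgn : G F →* (RPl F → ℤˣ) where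
  toFun γ w := if 0 < rdet w γ then 1 else -1
  map_one' := by
    funext w
    simp [rdet]
  map_mul' a b := by
    funext w
    have ha := rdet_ne w a
    have hb := rdet_ne w b
    simp only [rdet_mul, Pi.mul_apply]
    rcases lt_or_gt_of_ne ha with ha | ha <;> rcases lt_or_gt_of_ne hb with hb | hb
    · rw [if_pos (mul_pos_of_neg_of_neg ha hb), if_neg ha.not_gt, if_neg hb.not_gt]; rfl
    · rw [if_neg (mul_neg_of_neg_of_pos ha hb).not_gt, if_neg ha.not_gt, if_pos hb]; rfl
    · rw [if_neg (mul_neg_of_pos_of_neg ha hb).not_gt, if_pos ha, if_neg hb.not_gt]; rfl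
    · rw [if_pos (mul_pos ha hb), if_pos ha, if_pos hb]; rfl

/-- The set `{1,-1}^(real places) × GL₂(𝔸_f)`, on which `GL₂(F)` acts on the left and
`GL₂(𝔸_f)` on the right. -/
abbrev Pt (F : Type) [Field F] [NumberField F] := (RPl F → ℤˣ) × GA F

/-- The left action of `GL₂(F)` on `Pt`. -/
def act (γ : G F) (y : Pt F) : Pt F := (sgn γ * y.1, diag γ * y.2)

/-- The right action of `GL₂(𝔸_f)` on `Pt`. -/
def rt (y : Pt F) (k : GA F) : Pt F := (y.1, y.2 * k)

@[simp] theorem act_one (y : Pt F) : act 1 y = y := by simp [act]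

theorem act_mul (a b : G F) (y : Pt F) : act (a * b) y = act a (act b y) := by
  simp [act, mul_assoc]

@[simp] theorem rt_one (y : Pt F) : rt y 1 = y := by simp [rt]

theorem rt_mul (y : Pt F) (a b : GA F) : rt y (a * b) = rt (rt y a) b := by
  simp [rt, mul_assoc]

theorem act_rt (γ : G F) (y : Pt F) (k : GA F) : act γ (rt y k) = rt (act γ y) k := by
  simp [act, rt, mul_assoc]

/-- A rational prime `p` and a finite place `v` above it. -/
def Above (p : ℕ) (v : Pl F) : Prop := ((p : ℕ) : 𝓞 F) ∈ v.asIdeal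

/-- The groups `GL₂(F) ∩ g K g⁻¹` are torsion free, for all `g` in `GL₂(𝔸_f)`. This holds when
`K` is neat. -/
def TorsionFree (K : Subgroup (GA F)) : Prop :=
  ∀ (g : GA F) (γ : G F) (n : ℕ), 0 < n → g⁻¹ * diag γ * g ∈ K → γ ^ n = 1 → γ = 1

variable {O : Type} [CommRing O] {W : Type} [AddCommGroup W] [Module O W]

/-- The module of all functions `f` on `{1,-1}^(real places) × GL₂(𝔸_f)` with values in `W` such
that `f (y k) = k⁻¹ f (y)` for all `k` in `K`; here `τ` is the action of `K` on `W`. -/
def Forms (K : Subgroup (GA F)) (τ : Representation O K W) : Submodule O (Pt F → W) where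
  carrier := {f | ∀ (y : Pt F) (k : K), f (rt y k) = τ k⁻¹ (f y)}
  add_mem' := by
    intro a b ha hb y k
    simp only [Pi.add_apply, map_add, ha y k, hb y k]
  zero_mem' := by
    intro y k
    simp
  smul_mem' := by
    intro c a ha y k
    simp only [Pi.smul_apply, map_smul, ha y k]

/-- The action of `GL₂(F)` on `Forms`: `(γ f)(y) = f (γ⁻¹ y)`. -/
def formsRep (K : Subgroup (GA F)) (τ : Representation O K W) :
    Representation O (G F) (Forms K τ) where
  toFun γ :=
    { toFun := fun f => ⟨fun y => f.1 (act γ⁻¹ y), by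
        intro y k
        change f.1 (act γ⁻¹ (rt y k)) = _
        rw [act_rt]
        exact f.2 _ k⟩
      map_add' := fun _ _ => rfl
      map_smul' := fun _ _ => rfl }
  map_one' := by
    apply LinearMap.ext
    intro f
    apply Subtype.ext
    funext y
    simp
  map_mul' a b := by
    apply LinearMap.ext
    intro f
    apply Subtype.ext
    funext y
    simp [act_mul]

@[simp] theorem formsRep_apply (K : Subgroup (GA F)) (τ : Representation O K W) (γ : G F)
    (f : Forms K τ) (y : Pt F) : (formsRep K τ γ f).1 y = f.1 (act γ⁻¹ y) := rfl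

/-- The `GL₂(F)`-module whose cohomology is the cohomology of `Y(K)` with coefficients in the
local system attached to `W`. -/
def coeff (K : Subgroup (GA F)) (τ : Representation O K W) : Rep O (G F) := Rep.of (formsRep K τ)

end Pool.Agent.CG2
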