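import Pool.Agent.CG2.StLem
import Pool.Agent.CG2.CspUnit

/-!
# Endomorphisms of the Steinberg module
-/

set_option linter.unusedSectionVars false

noncomputable section

namespace Pool.Agent.CG2

open NumberField IsDedekindDomain Matrix

variable {F : Type} [Field F] [NumberField F]

/-- The matrix `diag(u, 1)`. -/
def StEnd_D (u : F) (hu : u ≠ 0) : G F := GeneralLinearGroup.mkOfDetNeZero !![u, 0; 0, 1] (by
  simp [Matrix.det_fin_two, hu])

theorem StEnd_D_val (u : F) (hu : u ≠ 0) :
    ((StEnd_D u hu : G F) : Matrix (Fin 2) (Fin 2) F) = !![u, 0; 0, 1] := rfl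

theorem StEnd_D_inv (u : F) (hu : u ≠ 0) : (StEnd_D u hu)⁻¹ = StEnd_D u⁻¹ (inv_ne_zero hu) := by
  rw [inv_eq_iff_mul_eq_one]
  apply Units.ext
  rw [Units.val_mul, StEnd_D_val, StEnd_D_val, Units.val_one]
  ext i j
  fin_cases i <;> fin_cases j <;> simp [Matrix.mul_apply, Fin.sum_univ_two, hu]

theorem StEnd_D_gam {e : Md F} {u : (𝓞 F)ˣ} (hu : ∀ w, Ge w (e.z w) (((u : 𝓞 F) : F) - 1)) :
    StEnd_D (((u : 𝓞 F) : F)) (by simp) ∈ Gam e := by
  have key : ∀ (x : F) (hx : x ≠ 0), (∀ w, Ge w (e.z w) (x - 1)) →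
      ∀ i j, ((StEnd_D x hx : Matrix (Fin 2) (Fin 2) F) - 1) i j ∈ R e.z := by
    intro x hx h i j
    rw [StEnd_D_val]
    fin_cases i <;> fin_cases j
    · simpa [mem_R] using h
    · simp
    · simp
    · simp
  rw [mem_Gam]
  refine ⟨key _ _ hu, ?_⟩
  rw [StEnd_D_inv]
  apply key
  intro w
  have h1 : (((u : 𝓞 F) : F))⁻¹ - 1 = -(((((u⁻¹ : (𝓞 F)ˣ) : 𝓞 F) : F)) * (((u : 𝓞 F) : F) - 1)) := by
    have h2 : ((((u⁻¹ : (𝓞 F)ˣ) : 𝓞 F) : F)) = (((u : 𝓞 F) : F))⁻¹ := by
      apply eq_inv_of_mul_eq_one_left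
      simp
    rw [h2]
    have : ((u : 𝓞 F) : F) ≠ 0 := by simp
    field_simp
    ring
  rw [h1]
  have h3 := (ge_int w ((u⁻¹ : (𝓞 F)ˣ) : 𝓞 F)).mul (hu w)
  rw [zero_add] at h3
  exact h3.neg

theorem StEnd_D_inf (u : F) (hu : u ≠ 0) : StEnd_D u hu • infP F = infP F :=
  StLem_inf_zero rfl

theorem StEnd_D_pt (u : F) (hu : u ≠ 0) (r : F) :
    StEnd_D u hu • StLem_pt r = StLem_pt (u * r) := by
  have h1 : (StEnd_D u hu : Matrix (Fin 2) (Fin 2) F) 1 0 * r +
      (StEnd_D u hu : Matrix (Fin 2) (Fin 2) F) 1 1 = 1 := by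
    rw [StEnd_D_val]; simp
  rw [StLem_pt_smul (by rw [h1]; exact one_ne_zero), h1, StLem_pt_inj, StEnd_D_val]
  simp

theorem StEnd_D_pow (u : F) (hu : u ≠ 0) (n : ℕ) (r : F) :
    (StEnd_D u hu) ^ n • StLem_pt r = StLem_pt (u ^ n * r) := by
  induction n with
  | zero => simp
  | succ n ih => rw [pow_succ', mul_smul, ih, StEnd_D_pt, pow_succ', mul_assoc]

/-- The vector with coordinates `a`, `b`. -/
def StEnd_vec (a b : F) : Vec F := fun i => if i = 0 then a else b

/-- Two different points are the images of `∞` and `0`. -/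
theorem StEnd_two {P Q : P1 F} (h : P ≠ Q) : ∃ γ : G F, γ • infP F = P ∧
    γ • StLem_pt (0 : F) = Q := by
  obtain ⟨x, hx, rfl⟩ := ln_surj P
  obtain ⟨y, hy, rfl⟩ := ln_surj Q
  have hd : x 0 * y 1 - x 1 * y 0 ≠ 0 := fun h0 => h ((ln_eq_iff hx hy).2 h0)
  have hd' : (!![x 0, y 0; x 1, y 1] : Matrix (Fin 2) (Fin 2) F).det ≠ 0 := by
    rw [Matrix.det_fin_two_of]
    intro h0
    apply hd
    rw [← h0]; ring
  let γ : G F := GeneralLinearGroup.mkOfDetNeZero !![x 0, y 0; x 1, y 1] hd'
  have hγ : (γ : Matrix (Fin 2) (Fin 2) F) = !![x 0, y 0; x 1, y 1] := rfl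
  refine ⟨γ, ?_, ?_⟩
  · have h1 : infP F = ln (StEnd_vec (1 : F) 0) := (StLem_ln_zero rfl).symm
    have hne : StEnd_vec (1 : F) 0 ≠ 0 := fun h0 => one_ne_zero (congrFun h0 0)
    rw [h1, ← ln_smul γ hne]
    congr 1
    funext i
    rw [StLem_vec, hγ]
    fin_cases i <;> simp [StEnd_vec]
  · have h1 : StLem_pt (0 : F) = ln (StEnd_vec (0 : F) 1) := by
      have h2 := StLem_ln_ne (x := StEnd_vec (0 : F) 1) one_ne_zero
      rw [h2]
      congr 1
      change (0 : F) = 0 / 1
      rw [zero_div]
    have hne : StEnd_vec (0 : F) 1 ≠ 0 := fun h0 => one_ne_zero (congrFun h0 1)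
    rw [h1, ← ln_smul γ hne]
    congr 1
    funext i
    rw [StLem_vec, hγ]
    fin_cases i <;> simp [StEnd_vec]

/-- A finitely supported function fixed by a hyperbolic element is supported at the two fixed
points. -/
theorem StEnd_supp (hF : TwoPl F) (e : Md F) {P Q : P1 F} (h : P ≠ Q) :
    ∃ g ∈ Gam e, g • P = P ∧ g • Q = Q ∧ ∀ (O k : Type) [CommRing O] [AddCommGroup k] [Module O k]
      (s : St F O k), stAct O k g s = s → ∀ R : P1 F, R ≠ P → R ≠ Q → s.1 R = 0 := by
  obtain ⟨γ, rfl, rfl⟩ := StEnd_two h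
  obtain ⟨e', he'⟩ := Gam_conj γ e
  obtain ⟨u, hu, hu'⟩ := exists_unit hF e'
  have hu0 : ((u : 𝓞 F) : F) ≠ 0 := by simp
  set D := StEnd_D (((u : 𝓞 F) : F)) hu0 with hD
  refine ⟨γ * D * γ⁻¹, he' _ (StEnd_D_gam hu'), ?_, ?_, ?_⟩
  · rw [mul_smul, mul_smul, inv_smul_smul, hD, StEnd_D_inf]
  · rw [mul_smul, mul_smul, inv_smul_smul, hD, StEnd_D_pt, mul_zero]
  · intro O k _ _ _ s hs R hR1 hR2
    by_contra hne
    set g := γ * D * γ⁻¹ with hg
    have hstep : ∀ T : P1 F, s.1 (g • T) = s.1 T := by
      intro T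
      have h1 := congrArg (fun t : St F O k => t.1 (g • T)) hs
      rw [← h1]
      change Finsupp.mapDomain (fun P : P1 F => g • P) s.1 (g • T) = s.1 T
      exact Finsupp.mapDomain_apply (MulAction.injective g) s.1 T
    have hpow : ∀ n : ℕ, s.1 (g ^ n • R) = s.1 R := by
      intro n
      induction n with
      | zero => simp
      | succ n ih => rw [pow_succ', mul_smul, hstep, ih]
    have hmem : ∀ n : ℕ, g ^ n • R ∈ (s.1.support : Set (P1 F)) := by
      intro n
      rw [Finset.mem_coe, Finsupp.mem_support_iff, hpow n]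
      exact hne
    obtain ⟨m, n, hmn, heq⟩ : ∃ m n : ℕ, m < n ∧ g ^ m • R = g ^ n • R := by
      by_contra hc
      push Not at hc
      have hinj : Function.Injective fun n : ℕ => g ^ n • R := by
        intro m n hmn'
        rcases lt_trichotomy m n with h1 | h1 | h1
        · exact absurd hmn' (hc m n h1)
        · exact h1
        · exact absurd hmn'.symm (hc n m h1)
      have hinf : (Set.range fun n : ℕ => g ^ n • R).Infinite := Set.infinite_range_of_injective hinj
      exact hinf (s.1.support.finite_toSet.subset (by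
        rintro _ ⟨n, rfl⟩
        exact hmem n))
    have h2 : g ^ (n - m) • R = R := by
      have h3 : g ^ n = g ^ m * g ^ (n - m) := by rw [← pow_add]; congr 1; omega
      rw [h3, mul_smul] at heq
      exact (MulAction.injective (g ^ m) heq).symm
    have h4 : g ^ (n - m) = γ * D ^ (n - m) * γ⁻¹ := conj_pow
    rw [h4, mul_smul, mul_smul] at h2
    have h5 : D ^ (n - m) • (γ⁻¹ • R) = γ⁻¹ • R := eq_inv_smul_iff.2 h2
    rcases StLem_cases (γ⁻¹ • R) with h6 | ⟨r, hr⟩
    · exact hR1 (by rw [← h6, smul_inv_smul])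
    · by_cases hr0 : r = 0
      · rw [hr0] at hr
        exact hR2 (by rw [← hr, smul_inv_smul])
      · rw [hr, hD, StEnd_D_pow, StLem_pt_inj] at h5
        have h7 : ((u : 𝓞 F) : F) ^ (n - m) = 1 := by
          have := mul_right_cancel₀ hr0 (h5.trans (one_mul r).symm)
          exact this
        apply hu (n - m) (by omega)
        apply Units.ext
        apply RingOfIntegers.ext
        simpa using h7

theorem StEnd_apply {O k : Type} [CommRing O] [AddCommGroup k] [Module O k] (c : k)
    (P Q R : P1 F) : (stD O c P Q).1 R = (if P = R then c else 0) - (if Q = R then c else 0) := by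
  change (Finsupp.single P c - Finsupp.single Q c) R = _
  rw [Finsupp.sub_apply, Finsupp.single_apply, Finsupp.single_apply]

/-- **C6** The endomorphisms of the Steinberg module which commute with a congruence subgroup are
the scalars. -/
theorem st_end (hF : TwoPl F) (O k : Type) [CommRing O] [Field k] [Algebra O k]
    (hs : Function.Surjective (algebraMap O k)) (e : Md F) (θ : St F O k →ₗ[O] St F O k)
    (hθ : ∀ γ ∈ Gam e, ∀ s, θ (stAct O k γ s) = stAct O k γ (θ s)) :
    ∃ c : O, ∀ s, θ s = c • s := by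
  classical
  have key : ∀ (P Q : P1 F) (c : k), P ≠ Q → ∀ R : P1 F, R ≠ P → R ≠ Q →
      (θ (stD O c P Q)).1 R = 0 := by
    intro P Q c hPQ R hRP hRQ
    obtain ⟨g, hg, hgP, hgQ, hsupp⟩ := StEnd_supp hF e hPQ
    apply hsupp O k _ _ R hRP hRQ
    rw [← hθ g hg, stAct_D, hgP, hgQ]
  have hsmul : ∀ (r : O) (c : k) (P Q : P1 F), stD O (r • c) P Q = r • stD O c P Q := by
    intro r c P Q
    apply Subtype.ext
    change Finsupp.single P (r • c) - Finsupp.single Q (r • c) =
      r • (Finsupp.single P c - Finsupp.single Q c)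
    rw [smul_sub, Finsupp.smul_single, Finsupp.smul_single]
  let lam : P1 F → k := fun P => (θ (stD O (1 : k) P (infP F))).1 P
  have hval : ∀ (P : P1 F) (c : k), P ≠ infP F →
      θ (stD O c P (infP F)) = stD O (c * lam P) P (infP F) := by
    intro P c hP
    obtain ⟨r, hr⟩ := hs c
    have hc : c = r • (1 : k) := by rw [Algebra.smul_def, mul_one, hr]
    have h1 : θ (stD O (1 : k) P (infP F)) = stD O (lam P) P (infP F) := by
      apply Subtype.ext
      ext R
      rw [StEnd_apply]
      by_cases hRP : R = P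
      · subst hRP
        rw [if_pos rfl, if_neg (Ne.symm hP), sub_zero]
      · by_cases hRi : R = infP F
        · subst hRi
          rw [if_neg hP, if_pos rfl, zero_sub]
          have h2 : ((θ (stD O (1 : k) P (infP F))).1.sum fun _ c => c) = 0 :=
            (θ (stD O (1 : k) P (infP F))).2
          have h3 : ((θ (stD O (1 : k) P (infP F))).1.sum fun _ c => c) =
              (θ (stD O (1 : k) P (infP F))).1 P + (θ (stD O (1 : k) P (infP F))).1 (infP F) := by
            rw [Finsupp.sum_of_support_subset (s := {P, infP F}) _ _ _ (fun _ _ => rfl),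
              Finset.sum_pair hP]
            intro R hR
            rw [Finset.mem_insert, Finset.mem_singleton]
            by_contra hc'
            push Not at hc'
            rw [Finsupp.mem_support_iff] at hR
            exact hR (key P (infP F) 1 hP R hc'.1 hc'.2)
          rw [h3] at h2
          exact eq_neg_of_add_eq_zero_right h2
        · rw [key P (infP F) 1 hP R hRP hRi, if_neg (Ne.symm hRP), if_neg (Ne.symm hRi), sub_zero]
    have h2 : c * lam P = r • lam P := by rw [Algebra.smul_def, hr]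
    rw [h2, hsmul, ← h1, ← map_smul, ← hsmul, ← hc]
  have hconst : ∀ P Q : P1 F, P ≠ infP F → Q ≠ infP F → lam P = lam Q := by
    intro P Q hP hQ
    by_cases hPQ : P = Q
    · rw [hPQ]
    · have h1 : stD O (1 : k) P Q = stD O (1 : k) P (infP F) - stD O (1 : k) Q (infP F) := by
        apply Subtype.ext
        change Finsupp.single P (1 : k) - Finsupp.single Q 1 =
          (Finsupp.single P 1 - Finsupp.single (infP F) 1) -
            (Finsupp.single Q 1 - Finsupp.single (infP F) 1)
        abel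
      have h2 := key P Q 1 hPQ (infP F) (Ne.symm hP) (Ne.symm hQ)
      rw [h1, map_sub, hval P 1 hP, hval Q 1 hQ] at h2
      change (stD O (1 * lam P) P (infP F)).1 (infP F) -
        (stD O (1 * lam Q) Q (infP F)).1 (infP F) = 0 at h2
      rw [StEnd_apply, StEnd_apply, if_neg hP, if_neg hQ, if_pos rfl, if_pos rfl] at h2
      rw [one_mul, one_mul, zero_sub, zero_sub, sub_neg_eq_add, neg_add_eq_zero] at h2
      exact h2
  obtain ⟨r, hr⟩ := hs (lam (StLem_pt 0))
  refine ⟨r, fun s => ?_⟩
  let T : AddSubgroup (St F O k) :=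
    { carrier := {s | θ s = r • s}
      add_mem' := by
        intro a b ha hb
        change θ (a + b) = r • (a + b)
        rw [map_add, smul_add, ha, hb]
      zero_mem' := by
        change θ 0 = r • (0 : St F O k)
        rw [map_zero, smul_zero]
      neg_mem' := by
        intro a ha
        change θ (-a) = r • (-a)
        rw [map_neg, smul_neg, ha] }
  have hT : T = ⊤ := by
    apply st_span O k T
    intro c P
    change θ (stD O c P (infP F)) = r • stD O c P (infP F)
    by_cases hP : P = infP F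
    · rw [hP]
      have h0 : stD O c (infP F) (infP F) = 0 := by
        apply Subtype.ext
        change Finsupp.single (infP F) c - Finsupp.single (infP F) c = 0
        rw [sub_self]
      rw [h0, map_zero, smul_zero]
    · rw [hval P c hP, ← hsmul, hconst P (StLem_pt 0) hP (StLem_pt_ne 0), ← hr, Algebra.smul_def,
        mul_comm]
  have : s ∈ T := by rw [hT]; trivial
  exact this

end Pool.Agent.CG2
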