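import Pool.Agent.CG2.StDefs

/-!
# The projective line
-/

set_option linter.unusedSectionVars false

noncomputable section

namespace Pool.Agent.CG2

open NumberField IsDedekindDomain Matrix

variable {F : Type} [Field F] [NumberField F]

/-- The finite points of the projective line. -/
def StLem_pt (k : F) : P1 F := (k : OnePoint F)

theorem StLem_pt_inj {a b : F} : StLem_pt a = StLem_pt b ↔ a = b := by
  change ((a : OnePoint F) = (b : OnePoint F)) ↔ a = b
  exact OnePoint.coe_eq_coe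

theorem StLem_pt_ne (a : F) : StLem_pt a ≠ infP F := OnePoint.coe_ne_infty a

theorem StLem_cases (P : P1 F) : P = infP F ∨ ∃ k : F, P = StLem_pt k := by
  induction P using OnePoint.rec with
  | infty => exact Or.inl rfl
  | coe x => exact Or.inr ⟨x, rfl⟩

theorem StLem_ln_zero {x : Vec F} (h : x 1 = 0) : ln x = infP F := if_pos h

theorem StLem_ln_ne {x : Vec F} (h : x 1 ≠ 0) : ln x = StLem_pt (x 0 / x 1) := if_neg h

theorem StLem_inf_zero {γ : G F} (h : (γ : Matrix (Fin 2) (Fin 2) F) 1 0 = 0) :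
    γ • infP F = infP F := (smul_inf_iff γ).2 h

theorem StLem_inf_ne {γ : G F} (h : (γ : Matrix (Fin 2) (Fin 2) F) 1 0 ≠ 0) :
    γ • infP F = StLem_pt ((γ : Matrix (Fin 2) (Fin 2) F) 0 0 /
      (γ : Matrix (Fin 2) (Fin 2) F) 1 0) := by
  have h1 := @OnePoint.smul_infty_eq_ite F _ (Classical.decEq F) γ
  rw [if_neg h] at h1
  exact h1

theorem StLem_pt_zero {γ : G F} {k : F} (h : (γ : Matrix (Fin 2) (Fin 2) F) 1 0 * k +
    (γ : Matrix (Fin 2) (Fin 2) F) 1 1 = 0) : γ • StLem_pt k = infP F := by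
  have h1 := @OnePoint.smul_some_eq_ite F _ (Classical.decEq F) γ k
  rw [if_pos h] at h1
  exact h1

theorem StLem_pt_smul {γ : G F} {k : F} (h : (γ : Matrix (Fin 2) (Fin 2) F) 1 0 * k +
    (γ : Matrix (Fin 2) (Fin 2) F) 1 1 ≠ 0) : γ • StLem_pt k =
      StLem_pt (((γ : Matrix (Fin 2) (Fin 2) F) 0 0 * k + (γ : Matrix (Fin 2) (Fin 2) F) 0 1) /
        ((γ : Matrix (Fin 2) (Fin 2) F) 1 0 * k + (γ : Matrix (Fin 2) (Fin 2) F) 1 1)) := by
  have h1 := @OnePoint.smul_some_eq_ite F _ (Classical.decEq F) γ k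
  rw [if_neg h] at h1
  exact h1

theorem StLem_vec (γ : G F) (x : Vec F) (i : Fin 2) : (γ • x) i =
    (γ : Matrix (Fin 2) (Fin 2) F) i 0 * x 0 + (γ : Matrix (Fin 2) (Fin 2) F) i 1 * x 1 := by
  change ((γ : Matrix (Fin 2) (Fin 2) F).mulVec x) i = _
  simp [Matrix.mulVec, dotProduct, Fin.sum_univ_two]

theorem ln_smul (γ : G F) {x : Vec F} (hx : x ≠ 0) : ln (γ • x) = γ • ln x := by
  by_cases h : x 1 = 0
  · have hx0 : x 0 ≠ 0 := by
      intro h0
      apply hx
      funext i
      fin_cases i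
      · exact h0
      · exact h
    rw [StLem_ln_zero h]
    by_cases hc : (γ : Matrix (Fin 2) (Fin 2) F) 1 0 = 0
    · rw [StLem_inf_zero hc, StLem_ln_zero]
      rw [StLem_vec, hc, h]; ring
    · have h1 : (γ • x) 1 = (γ : Matrix (Fin 2) (Fin 2) F) 1 0 * x 0 := by
        rw [StLem_vec, h]; ring
      have h0 : (γ • x) 0 = (γ : Matrix (Fin 2) (Fin 2) F) 0 0 * x 0 := by
        rw [StLem_vec, h]; ring
      rw [StLem_inf_ne hc, StLem_ln_ne (by rw [h1]; exact mul_ne_zero hc hx0), h0, h1,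
        mul_div_mul_right _ _ hx0]
  · rw [StLem_ln_ne h]
    have h1 : (γ • x) 1 = x 1 * ((γ : Matrix (Fin 2) (Fin 2) F) 1 0 * (x 0 / x 1) +
        (γ : Matrix (Fin 2) (Fin 2) F) 1 1) := by
      rw [StLem_vec]; field_simp
    have h0 : (γ • x) 0 = x 1 * ((γ : Matrix (Fin 2) (Fin 2) F) 0 0 * (x 0 / x 1) +
        (γ : Matrix (Fin 2) (Fin 2) F) 0 1) := by
      rw [StLem_vec]; field_simp
    by_cases hc : (γ : Matrix (Fin 2) (Fin 2) F) 1 0 * (x 0 / x 1) +
        (γ : Matrix (Fin 2) (Fin 2) F) 1 1 = 0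
    · rw [StLem_pt_zero hc, StLem_ln_zero]
      rw [h1, hc, mul_zero]
    · rw [StLem_pt_smul hc, StLem_ln_ne (by rw [h1]; exact mul_ne_zero h hc), h0, h1,
        mul_div_mul_left _ _ h]

theorem ln_eq_iff {x y : Vec F} (hx : x ≠ 0) (hy : y ≠ 0) :
    ln x = ln y ↔ x 0 * y 1 - x 1 * y 0 = 0 := by
  have key : ∀ z : Vec F, z ≠ 0 → z 1 = 0 → z 0 ≠ 0 := by
    intro z hz h1 h0
    apply hz
    funext i
    fin_cases i
    · exact h0
    · exact h1
  by_cases h : x 1 = 0
  · by_cases h' : y 1 = 0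
    · rw [StLem_ln_zero h, StLem_ln_zero h', h, h']
      simp
    · rw [StLem_ln_zero h, StLem_ln_ne h', h]
      constructor
      · intro h2
        exact absurd h2.symm (StLem_pt_ne _)
      · intro h2
        simp only [zero_mul, sub_zero] at h2
        exact absurd h2 (mul_ne_zero (key x hx h) h')
  · by_cases h' : y 1 = 0
    · rw [StLem_ln_zero h', StLem_ln_ne h, h']
      constructor
      · intro h2
        exact absurd h2 (StLem_pt_ne _)
      · intro h2
        simp only [mul_zero, zero_sub, neg_eq_zero] at h2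
        exact absurd h2 (mul_ne_zero h (key y hy h'))
    · rw [StLem_ln_ne h', StLem_ln_ne h, StLem_pt_inj, div_eq_div_iff h h', sub_eq_zero,
        mul_comm (y 0)]

theorem ln_surj (P : P1 F) : ∃ x : Vec F, x ≠ 0 ∧ ln x = P := by
  rcases StLem_cases P with rfl | ⟨k, rfl⟩
  · refine ⟨(![1, 0] : Fin 2 → F), ?_, StLem_ln_zero rfl⟩
    intro h
    have := congrFun h 0
    exact one_ne_zero this
  · refine ⟨(![k, 1] : Fin 2 → F), ?_, ?_⟩
    · intro h
      have := congrFun h 1
      exact one_ne_zero this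
    · have h1 : (![k, 1] : Fin 2 → F) 1 ≠ 0 := one_ne_zero
      have h2 := StLem_ln_ne (x := (![k, 1] : Fin 2 → F)) h1
      rw [h2, StLem_pt_inj]
      change k / 1 = k
      exact div_one k

/-- The Steinberg module is generated by the differences of two points. -/
theorem st_span (O k : Type) [CommRing O] [AddCommGroup k] [Module O k]
    (T : AddSubgroup (St F O k)) (hT : ∀ (c : k) (P : P1 F), stD O c P (infP F) ∈ T) : T = ⊤ := by
  rw [eq_top_iff]
  intro s _
  have h0 : (s.1.sum fun _ c => c) = 0 := s.2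
  have h1 : s = ∑ P ∈ s.1.support, stD O (s.1 P) P (infP F) := by
    apply Subtype.ext
    rw [AddSubmonoidClass.coe_finsetSum]
    change s.1 = ∑ P ∈ s.1.support, (Finsupp.single P (s.1 P) - Finsupp.single (infP F) (s.1 P))
    have h4 : ∑ P ∈ s.1.support, Finsupp.single (infP F) (s.1 P) =
        Finsupp.single (infP F) (∑ P ∈ s.1.support, s.1 P) :=
      (map_sum (Finsupp.singleAddHom (infP F)) _ _).symm
    rw [Finset.sum_sub_distrib, h4]
    have h2 : ∑ P ∈ s.1.support, Finsupp.single P (s.1 P) = s.1 := Finsupp.sum_single s.1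
    have h3 : ∑ P ∈ s.1.support, s.1 P = 0 := h0
    rw [h2, h3, Finsupp.single_zero, sub_zero]
  rw [h1]
  exact T.sum_mem fun P _ => hT _ _

/-- `GL₂(F)` acts transitively on the projective line. -/
theorem p1_trans (P : P1 F) : ∃ γ : G F, (γ : Matrix (Fin 2) (Fin 2) F).det = 1 ∧
    γ • infP F = P := by
  rcases StLem_cases P with rfl | ⟨k, rfl⟩
  · exact ⟨1, by simp, one_smul _ _⟩
  · have hd : (!![k, -1; 1, 0] : Matrix (Fin 2) (Fin 2) F).det = 1 := by
      simp [Matrix.det_fin_two]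
    refine ⟨GeneralLinearGroup.mkOfDetNeZero !![k, -1; 1, 0] (by rw [hd]; exact one_ne_zero),
      hd, ?_⟩
    rw [StLem_inf_ne]
    · rw [StLem_pt_inj]
      change k / 1 = k
      exact div_one k
    · exact one_ne_zero

end Pool.Agent.CG2
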