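import Pool.Agent.CG2.FFmod
import Pool.Agent.CG2.StLem

/-!
# The cohomology in the top degree and the Steinberg module: the data
-/

noncomputable section

namespace Pool.Agent.CG2

open NumberField IsDedekindDomain Matrix Pool.Agent.CG3 CategoryTheory

variable {F : Type} [Field F] [NumberField F]

/-- The description of the cohomology of `Pt/K` in the top degree through a module `D` which is
isomorphic to the Steinberg module. -/
structure TopSt (K : Subgroup (GA F)) (S : Set (Pl F)) (hK : OC K S) (O k : Type) [CommRing O]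
    [AddCommGroup k] [Module O k] where
  /-- the module -/
  D : Type
  [acg : AddCommGroup D]
  [mod : Module O D]
  /-- the action of `GL₂(F)` -/
  ρ : G F → D →ₗ[O] D
  ρ_one : ρ 1 = LinearMap.id
  ρ_mul : ∀ a b, ρ (a * b) = ρ a ∘ₗ ρ b
  /-- the isomorphisms with the Steinberg module -/
  Ψ : Pt F → D ≃ₗ[O] St F O k
  Ψ_act : ∀ h y d, Ψ (act h y) (ρ h d) = stAct O k h (Ψ y d)
  Ψ_rt : ∀ y, ∀ κ ∈ K, ∀ d, Ψ (rt y κ) d = Ψ y d
  /-- the maps to the cohomology -/
  π : Pt F → D →ₗ[O] groupCohomology (coeff K (triv K O k)) (nU F)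
  π_act : ∀ h y d, π (act h y) (ρ h d) = π y d
  π_rt : ∀ y, ∀ κ ∈ K, ∀ d, π (rt y κ) d = π y d
  π_hecke : ∀ (t : Idx S) y d, heckeCoh K (triv K O k) (unram_triv hK) (nU F) t (π y d) =
    ∑ c ∈ (cosetsInv_finite t.1.1 t.2).toFinset, π (rt y (single t.1.1 (Quotient.out c))) d
  span : ⨆ y, LinearMap.range (π y) = ⊤

attribute [instance] TopSt.acg TopSt.mod

end Pool.Agent.CG2
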