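import Pool.Agent.CG2.BorelEig
import Pool.Agent.CG2.Coc2
import Pool.Agent.CG2.StEnd
import Pool.Agent.CG2.TopDefs
import Pool.Agent.CG2.GalMain
import Pool.Agent.CG2.UnitPos

/-!
# The eigenvalues of the Hecke operators in the top degree, constant coefficients
-/

noncomputable section

namespace Pool.Agent.CG2

open NumberField IsDedekindDomain Matrix

variable {F : Type} [Field F] [NumberField F]

/-! ### Characters of `GL₂(F)` are trivial on `SL₂(F)` -/

theorem EigMain_Ee {A : Type*} [CommGroup A] (η : G F →* A) (x : F) : η (Ee x) = 1 := by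
  have h2 : (2 : F) ≠ 0 := two_ne_zero
  have h1 : dg (2 : F) 1 h2 one_ne_zero * Ee x = Ee x * Ee x * dg (2 : F) 1 h2 one_ne_zero := by
    rw [← Ee_add]
    apply Units.ext
    change Matrix.diagonal ![(2 : F), 1] * !![1, x; 0, 1] =
      !![1, x + x; 0, 1] * Matrix.diagonal ![(2 : F), 1]
    ext i j
    fin_cases i <;> fin_cases j <;> simp [two_mul]
  have h3 := congrArg η h1
  rw [map_mul, map_mul, map_mul, mul_comm (η (dg (2 : F) 1 h2 one_ne_zero))] at h3
  have h4 := mul_right_cancel h3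
  exact (left_eq_mul.1 h4)

theorem EigMain_El {A : Type*} [CommGroup A] (η : G F →* A) (x : F) : η (El x) = 1 := by
  have h2 : (2 : F) ≠ 0 := two_ne_zero
  have h1 : dg 1 (2 : F) one_ne_zero h2 * El x = El x * El x * dg 1 (2 : F) one_ne_zero h2 := by
    rw [← El_add]
    apply Units.ext
    change Matrix.diagonal ![1, (2 : F)] * !![1, 0; x, 1] =
      !![1, 0; x + x, 1] * Matrix.diagonal ![1, (2 : F)]
    ext i j
    fin_cases i <;> fin_cases j <;> simp [two_mul]
  have h3 := congrArg η h1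
  rw [map_mul, map_mul, map_mul, mul_comm (η (dg 1 (2 : F) one_ne_zero h2))] at h3
  have h4 := mul_right_cancel h3
  exact (left_eq_mul.1 h4)

theorem EigMain_SL {A : Type*} [CommGroup A] (η : G F →* A) (γ : G F)
    (hγ : (γ : Matrix (Fin 2) (Fin 2) F).det = 1) : η γ = 1 := by
  -- the case of a non-zero lower left entry
  have key : ∀ γ : G F, (γ : Matrix (Fin 2) (Fin 2) F).det = 1 →
      (γ : Matrix (Fin 2) (Fin 2) F) 1 0 ≠ 0 → η γ = 1 := by
    intro γ hγ hc
    set a := (γ : Matrix (Fin 2) (Fin 2) F) 0 0 with ha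
    set b := (γ : Matrix (Fin 2) (Fin 2) F) 0 1 with hb
    set c := (γ : Matrix (Fin 2) (Fin 2) F) 1 0 with hc'
    set d := (γ : Matrix (Fin 2) (Fin 2) F) 1 1 with hd
    have hdet : a * d - b * c = 1 := by rw [← hγ, Matrix.det_fin_two]
    have h1 : γ = Ee ((a - 1) / c) * El c * Ee ((d - 1) / c) := by
      apply Units.ext
      change (γ : Matrix (Fin 2) (Fin 2) F) =
        !![1, (a - 1) / c; 0, 1] * !![1, 0; c, 1] * !![1, (d - 1) / c; 0, 1]
      have h2 : (γ : Matrix (Fin 2) (Fin 2) F) = !![a, b; c, d] := by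
        ext i j
        fin_cases i <;> fin_cases j <;> rfl
      rw [h2]
      have h3 : b = (a * d - 1) / c := by
        field_simp
        linear_combination -hdet
      ext i j
      fin_cases i <;> fin_cases j
      · simp [div_mul_cancel₀ _ hc]
      · simp only [Matrix.mul_apply, Fin.sum_univ_two]
        simp
        rw [h3]
        field_simp
        ring
      · simp
      · simp [mul_div_cancel₀ _ hc]
    rw [h1, map_mul, map_mul, EigMain_Ee, EigMain_Ee, EigMain_El, one_mul, one_mul]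
  by_cases hc : (γ : Matrix (Fin 2) (Fin 2) F) 1 0 = 0
  · have hd : (γ : Matrix (Fin 2) (Fin 2) F) 1 1 ≠ 0 := by
      intro h
      rw [Matrix.det_fin_two, hc, h] at hγ
      simp at hγ
    have h1 : η (γ * El 1) = 1 := by
      apply key
      · rw [Units.val_mul, Matrix.det_mul, hγ, det_El, one_mul]
      · rw [Units.val_mul, El_val, Matrix.mul_apply, Fin.sum_univ_two]
        simpa [hc] using hd
    rwa [map_mul, EigMain_El, mul_one] at h1
  · exact key γ hγ hc

/-! ### The twist -/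

/-- A second point of the projective line. -/
def EigMain_P (F : Type) [Field F] : P1 F := ((0 : F) : OnePoint F)

theorem EigMain_P_ne (F : Type) [Field F] : EigMain_P F ≠ infP F := OnePoint.coe_ne_infty _

theorem EigMain_stD_val (O : Type) {k : Type} [CommRing O] [AddCommGroup k] [Module O k] (c : k)
    {P Q : P1 F} (h : P ≠ Q) : (stD O c P Q).1 P = c := by
  change (Finsupp.single P c - Finsupp.single Q c) P = c
  rw [Finsupp.sub_apply, Finsupp.single_eq_same, Finsupp.single_eq_of_ne h, sub_zero]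

theorem EigMain_stAct_val (O k : Type) [CommRing O] [AddCommGroup k] [Module O k] (γ : G F)
    (s : St F O k) (P : P1 F) : (stAct O k γ s).1 (γ • P) = s.1 P := by
  change Finsupp.mapDomain (fun P : P1 F => γ • P) s.1 (γ • P) = s.1 P
  exact Finsupp.mapDomain_apply (MulAction.injective γ) _ _

/-- The action of `GL₂(F)` on `D` is the action on the Steinberg module twisted by a character
which is trivial on `SL₂(F)` and on the stabilisers. -/
theorem top_twist (hF : TwoPl F) {O k : Type} [CommRing O] [Field k] [Algebra O k]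
    (hs : Function.Surjective (algebraMap O k)) {K : Subgroup (GA F)} {S : Set (Pl F)}
    (hK : OC K S) (T : TopSt K S hK O k) (y : Pt F) : ∃ η : G F →* kˣ,
    (∀ γ : G F, (γ : Matrix (Fin 2) (Fin 2) F).det = 1 → η γ = 1) ∧
    (∀ (γ : G F) (x : Pt F), ∀ κ ∈ K, act γ x = rt x κ → η γ = 1) ∧
    ∀ (γ : G F) (d : T.D) (c : O), algebraMap O k c = (η γ : k) →
      T.Ψ y (T.ρ γ d) = c • stAct O k γ (T.Ψ y d) := by
  -- the isomorphisms agree up to scalars
  have hsc : ∀ y y' : Pt F, ∃ b : k, ∀ (d : T.D) (P : P1 F),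
      (T.Ψ y' d).1 P = b * (T.Ψ y d).1 P := by
    intro y y'
    obtain ⟨e1, he1⟩ := Gam_oc hK y
    obtain ⟨e2, he2⟩ := Gam_oc hK y'
    have hst : ∀ (y : Pt F) (e : Md F), (∀ γ ∈ Gam e, ∃ κ ∈ K, act γ y = rt y κ) →
        ∀ γ ∈ Gam e, ∀ d, T.Ψ y (T.ρ γ d) = stAct O k γ (T.Ψ y d) := by
      intro y e he γ hγ d
      obtain ⟨κ, hκ, h1⟩ := he γ hγ
      have h2 := T.Ψ_act γ y d
      rw [h1, T.Ψ_rt y κ hκ] at h2
      exact h2
    obtain ⟨c, hc⟩ := st_end hF O k hs (e1 ⊔ e2)
      ((T.Ψ y').toLinearMap ∘ₗ (T.Ψ y).symm.toLinearMap) (by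
        intro γ hγ s
        obtain ⟨d, rfl⟩ := (T.Ψ y).surjective s
        have hγ1 : γ ∈ Gam e1 := Gam_mono le_sup_left hγ
        have hγ2 : γ ∈ Gam e2 := Gam_mono le_sup_right hγ
        rw [← hst y e1 he1 γ hγ1 d]
        change T.Ψ y' ((T.Ψ y).symm (T.Ψ y (T.ρ γ d))) =
          stAct O k γ (T.Ψ y' ((T.Ψ y).symm (T.Ψ y d)))
        rw [LinearEquiv.symm_apply_apply, LinearEquiv.symm_apply_apply]
        exact hst y' e2 he2 γ hγ2 d)
    refine ⟨algebraMap O k c, fun d P => ?_⟩
    have h1 := hc (T.Ψ y d)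
    change T.Ψ y' ((T.Ψ y).symm (T.Ψ y d)) = c • T.Ψ y d at h1
    rw [LinearEquiv.symm_apply_apply] at h1
    rw [h1, ← Algebra.smul_def]
    rfl
  choose b hb using hsc
  set P₀ : P1 F := EigMain_P F
  let s₀ : St F O k := stD O (1 : k) P₀ (infP F)
  have hs₀ : s₀.1 P₀ = 1 := EigMain_stD_val O (1 : k) (EigMain_P_ne F)
  have hval : ∀ y y' : Pt F, b y y' = (T.Ψ y' ((T.Ψ y).symm s₀)).1 P₀ := by
    intro y y'
    rw [hb y y', LinearEquiv.apply_symm_apply, hs₀, mul_one]
  have htr : ∀ y y' y'' : Pt F, b y y'' = b y y' * b y' y'' := by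
    intro y y' y''
    rw [hval y y'', hb y' y'', hb y y', LinearEquiv.apply_symm_apply, hs₀, mul_one, mul_comm]
  have hyy : ∀ y : Pt F, b y y = 1 := by
    intro y
    rw [hval, LinearEquiv.apply_symm_apply, hs₀]
  have hrt : ∀ (y : Pt F), ∀ κ ∈ K, b y (rt y κ) = 1 := by
    intro y κ hκ
    rw [hval, T.Ψ_rt y κ hκ, LinearEquiv.apply_symm_apply, hs₀]
  have hact : ∀ (γ : G F) (y y' : Pt F), b (act γ y) (act γ y') = b y y' := by
    intro γ y y'
    have h1 := hb (act γ y) (act γ y') (T.ρ γ ((T.Ψ y).symm s₀)) (γ • P₀)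
    rw [T.Ψ_act, T.Ψ_act, EigMain_stAct_val, EigMain_stAct_val, LinearEquiv.apply_symm_apply,
      hs₀, mul_one] at h1
    rw [hval y y', h1]
  let B : G F →* k :=
    { toFun := fun γ => b y (act γ y)
      map_one' := by
        rw [act_one]
        exact hyy y
      map_mul' := by
        intro γ δ
        rw [htr y (act γ y), act_mul, hact] }
  have hBne : ∀ γ, B γ ≠ 0 := by
    intro γ h0
    have h1 := htr y (act γ y) y
    have h2 : b y (act γ y) = 0 := h0
    rw [hyy, h2, zero_mul] at h1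
    exact one_ne_zero h1
  refine ⟨(B.toHomUnits)⁻¹, ?_, ?_, ?_⟩
  · intro γ hγ
    exact EigMain_SL _ γ hγ
  · intro γ x κ hκ hx
    have h1 : B γ = 1 := by
      change b y (act γ y) = 1
      rw [htr y x, htr x (act γ x), hact, hx, hrt x κ hκ, one_mul, ← htr, hyy]
    have h2 : B.toHomUnits γ = 1 := Units.ext h1
    rw [MonoidHom.inv_apply, h2, inv_one]
  · intro γ d c hc
    have h1 : algebraMap O k c = (B γ)⁻¹ := by
      rw [hc, MonoidHom.inv_apply, Units.val_inv_eq_inv_val]
      rfl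
    apply Subtype.ext
    apply Finsupp.ext
    intro P
    have h2 := hb y (act γ y) (T.ρ γ d) P
    rw [T.Ψ_act] at h2
    have h3 : (c • stAct O k γ (T.Ψ y d)).1 P = algebraMap O k c * (stAct O k γ (T.Ψ y d)).1 P := by
      rw [← Algebra.smul_def]
      rfl
    rw [h3, h1, h2]
    change _ = (B γ)⁻¹ * (B γ * _)
    rw [inv_mul_cancel_left₀ (hBne γ)]

/-! ### The eigenvalues -/

theorem EigMain_stD_add (O : Type) {k : Type} [CommRing O] [AddCommGroup k] [Module O k] (c : k)
    (P Q R : P1 F) : stD O c P R = stD O c Q R + stD O c P Q := by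
  apply Subtype.ext
  change Finsupp.single P c - Finsupp.single R c =
    (Finsupp.single Q c - Finsupp.single R c) + (Finsupp.single P c - Finsupp.single Q c)
  abel

theorem EigMain_stD_smul (O : Type) {k : Type} [CommRing O] [Field k] [Algebra O k] (a : O)
    (P Q : P1 F) : stD O (algebraMap O k a) P Q = a • stD O (1 : k) P Q := by
  apply Subtype.ext
  change Finsupp.single P (algebraMap O k a) - Finsupp.single Q (algebraMap O k a) =
    a • (Finsupp.single P (1 : k) - Finsupp.single Q (1 : k))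
  rw [smul_sub, Finsupp.smul_single, Finsupp.smul_single, Algebra.algebraMap_eq_smul_one]

theorem EigMain_stD_self (O : Type) {k : Type} [CommRing O] [AddCommGroup k] [Module O k] (c : k)
    (P : P1 F) : stD O c P P = 0 := by
  apply Subtype.ext
  change Finsupp.single P c - Finsupp.single P c = 0
  rw [sub_self]

theorem EigMain_rinv {κ : Type} [Field κ] {K : Subgroup (GA F)} {S : Set (Pl F)} (hK : OC K S)
    {f : Pt F → κ} (hf : RInv K f) {v : Pl F} (hv : v ∉ S) (j : Fin 3) :
    RInv K (heckeSum (v := v) j f) := by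
  have hmem : f ∈ Forms K (triv K κ κ) := by
    intro y k
    exact hf y k.1 k.2
  have h := heckeSum_mem (⟨f, hmem⟩ : Forms K (triv K κ κ)) (unram_triv hK v hv) j
  intro y k hk
  exact h y ⟨k, hk⟩

/-- **C7** -/
theorem top_eigen {p : ℕ} [Fact p.Prime] (hF : TwoPl F) {O k : Type} [CommRing O] [Field k]
    [Algebra O k] (hs : Function.Surjective (algebraMap O k)) [CharP k p]
    {K : Subgroup (GA F)} {S : Set (Pl F)} (hpS : ∀ v : Pl F, Above p v → v ∈ S)
    (hK : OC K S) (T : TopSt K S hK O k) {κ : Type} [Field κ] [IsAlgClosed κ] (ι : k →+* κ)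
    (φ : groupCohomology (coeff K (triv K O k)) (nU F) →+ κ) (hφ : φ ≠ 0)
    (hφO : ∀ (a : O) z, φ (a • z) = ι (algebraMap O k a) * φ z) (t : Idx S → κ)
    (ht : ∀ (s : Idx S) z, φ (heckeCoh K (triv K O k) (unram_triv hK) (nU F) s z) = t s * φ z) :
    ∃ ψ : Pl F → κ, IsRay S ψ ∧ ∀ (v : Pl F) (hv : v ∉ S),
      t (⟨v, hv⟩, 0) ^ 2 = (ψ v + 2 + (ψ v)⁻¹) * (Nm v : κ) * t (⟨v, hv⟩, 1) := by
  classical
  have hchar : CharP κ p := (RingHom.charP_iff ι ι.injective p).1 inferInstance
  set y₀ : Pt F := (1, 1) with hy₀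
  obtain ⟨η, hη1, hη2, hη3⟩ := top_twist hF hs hK T y₀
  let χ : G F →* κˣ := ((Units.map ι.toMonoidHom).comp η)⁻¹
  have hχ : ∀ γ : G F, (χ γ : κ) = (ι (η γ : k))⁻¹ := by
    intro γ
    change ((((Units.map ι.toMonoidHom) (η γ))⁻¹ : κˣ) : κ) = _
    rw [Units.val_inv_eq_inv_val]
    rfl
  have hχ1 : ∀ γ : G F, (γ : Matrix (Fin 2) (Fin 2) F).det = 1 → χ γ = 1 := fun γ hγ =>
    EigMain_SL χ γ hγ
  have hχ2 : ∀ (γ : G F) (x : Pt F), ∀ κ' ∈ K, act γ x = rt x κ' → χ γ = 1 := by
    intro γ x κ' hκ' hx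
    apply Units.ext
    rw [hχ, hη2 γ x κ' hκ' hx, Units.val_one, map_one, inv_one]
    rfl
  -- the functionals on the Steinberg module
  let P : Pt F → St F O k → κ := fun x s => φ (T.π x ((T.Ψ y₀).symm s))
  have P_add : ∀ x s s', P x (s + s') = P x s + P x s' := by
    intro x s s'
    change φ (T.π x ((T.Ψ y₀).symm (s + s'))) = _
    rw [map_add, map_add, map_add]
  have P_smul : ∀ x (a : O) s, P x (a • s) = ι (algebraMap O k a) * P x s := by
    intro x a s
    change φ (T.π x ((T.Ψ y₀).symm (a • s))) = _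
    rw [map_smul, map_smul, hφO]
  have P_act : ∀ h x s, P (act h x) (stAct O k h s) = (χ h : κ) * P x s := by
    intro h x s
    obtain ⟨c, hc⟩ := hs (η h : k)
    have h1 := hη3 h ((T.Ψ y₀).symm s) c hc
    rw [LinearEquiv.apply_symm_apply] at h1
    have h2 : T.ρ h ((T.Ψ y₀).symm s) = c • (T.Ψ y₀).symm (stAct O k h s) := by
      rw [← map_smul, LinearEquiv.eq_symm_apply]
      exact h1
    have h3 := T.π_act h x ((T.Ψ y₀).symm s)
    rw [h2, map_smul] at h3
    have h4 : ι (η h : k) * P (act h x) (stAct O k h s) = P x s := by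
      rw [← hc, ← hφO, h3]
    rw [hχ, ← h4, inv_mul_cancel_left₀]
    exact (map_ne_zero ι).2 (η h).ne_zero
  have P_rt : ∀ x, ∀ κ' ∈ K, ∀ s, P (rt x κ') s = P x s := by
    intro x κ' hκ' s
    change φ (T.π (rt x κ') _) = _
    rw [T.π_rt x κ' hκ']
  have P_hecke : ∀ (s : Idx S) x w, t s * P x w =
      ∑ c ∈ (cosetsInv_finite s.1.1 s.2).toFinset, P (rt x (single s.1.1 (Quotient.out c))) w := by
    intro s x w
    change t s * φ (T.π x ((T.Ψ y₀).symm w)) = _
    rw [← ht, T.π_hecke, map_sum]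
  -- `φ` does not vanish on everything
  have hnz : ∃ x s, P x s ≠ 0 := by
    by_contra hcon
    push Not at hcon
    apply hφ
    let N : Submodule O (groupCohomology (coeff K (triv K O k)) (nU F)) :=
      { carrier := {z | φ z = 0}
        add_mem' := by
          intro a b ha hb
          change φ (a + b) = 0
          have ha' : φ a = 0 := ha
          have hb' : φ b = 0 := hb
          rw [map_add, ha', hb', add_zero]
        zero_mem' := map_zero φ
        smul_mem' := by
          intro c a ha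
          change φ (c • a) = 0
          have ha' : φ a = 0 := ha
          rw [hφO, ha', mul_zero] }
    have h1 : (⊤ : Submodule O (groupCohomology (coeff K (triv K O k)) (nU F))) ≤ N := by
      rw [← T.span]
      refine iSup_le fun x => ?_
      rintro _ ⟨d, rfl⟩
      have h2 := hcon x (T.Ψ y₀ d)
      change φ (T.π x ((T.Ψ y₀).symm (T.Ψ y₀ d))) = 0 at h2
      rwa [LinearEquiv.symm_apply_apply] at h2
    ext z
    exact h1 (Submodule.mem_top : z ∈ _)
  -- the values of the functionals as functions on `Pt`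
  have hGZK : ∀ v, v ∉ S → ∀ k' ∈ GZ v, single v k' ∈ K := by
    intro v hv k' hk'
    exact (unram_triv (O := O) (k := k) hK v hv).mem k' hk'
  have hinv : ∀ v, v ∉ S → ∀ w y, ∀ k' ∈ GZ v, P (rt y (single v k')) w = P y w :=
    fun v hv w y k' hk' => P_rt y _ (hGZK v hv k' hk') w
  have P_sc1 : ∀ v (hv : v ∉ S) x w, t (⟨v, hv⟩, 1) * P x w = P (rt x (single v (sc v)⁻¹)) w := by
    intro v hv x w
    rw [P_hecke (⟨v, hv⟩, 1)]
    have h1 : (cosetsInv_finite v 1).toFinset = {(((sc v)⁻¹ : GQ v) : GQ v ⧸ GZ v)} := by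
      ext c
      rw [Set.Finite.mem_toFinset, cosetsInv_scalar v 1 (by decide)]
      simp
    rw [h1, Finset.sum_singleton]
    exact Coc0_coset (f := fun x => P x w) (hinv v hv w) x (Quotient.out_eq' _)
  have P_sc2 : ∀ v (hv : v ∉ S) x w, t (⟨v, hv⟩, 2) * P x w = P (rt x (single v (sc v))) w := by
    intro v hv x w
    rw [P_hecke (⟨v, hv⟩, 2)]
    have h0 : (alpha v 2)⁻¹ = sc v := by
      change (loc v ((dg (pi v) (pi v) (pi_ne v) (pi_ne v))⁻¹))⁻¹ = loc v _
      rw [map_inv, inv_inv]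
      rfl
    have h1 : (cosetsInv_finite v 2).toFinset = {((sc v : GQ v) : GQ v ⧸ GZ v)} := by
      ext c
      rw [Set.Finite.mem_toFinset, cosetsInv_scalar v 2 (by decide), h0]
      simp
    rw [h1, Finset.sum_singleton]
    exact Coc0_coset (f := fun x => P x w) (hinv v hv w) x (Quotient.out_eq' _)
  have ht12 : ∀ v (hv : v ∉ S), t (⟨v, hv⟩, 1) * t (⟨v, hv⟩, 2) = 1 := by
    intro v hv
    obtain ⟨x, s, hxs⟩ := hnz
    have h1 := P_sc2 v hv x s
    have h2 := P_sc1 v hv (rt x (single v (sc v))) s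
    rw [← rt_mul, ← map_mul, mul_inv_cancel, map_one, rt_one, ← h1, ← mul_assoc] at h2
    exact mul_right_cancel₀ hxs (by rw [h2, one_mul])
  have P_T : ∀ v (hv : v ∉ S) x w, heckeSum (v := v) 0 (fun x => P x w) x =
      t (⟨v, hv⟩, 0) * t (⟨v, hv⟩, 2) * P x w := by
    intro v hv x w
    have h1 := P_hecke (⟨v, hv⟩, 0) (rt x (single v (sc v))) w
    have h2 := cosetsInv_zero v κ (fun g => P (rt (rt x (single v (sc v))) (single v g)) w) (by
      intro g k' hk'
      change P (rt (rt x (single v (sc v))) (single v (g * k'))) w = _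
      rw [map_mul, rt_mul]
      exact hinv v hv w _ k' hk')
    rw [← P_sc2 v hv x w] at h1
    change t (⟨v, hv⟩, 0) * (t (⟨v, hv⟩, 2) * P x w) = _ at h1
    rw [mul_assoc, h1]
    refine Eq.trans ?_ h2.symm
    unfold heckeSum
    refine Finset.sum_congr rfl fun c _ => ?_
    change P (rt x (single v (Quotient.out c))) w = _
    rw [← rt_mul, ← map_mul]
    have h3 : sc v * (Quotient.out c * (sc v)⁻¹) = Quotient.out c := by
      rw [← mul_assoc, sc_comm, mul_inv_cancel_right]
    rw [h3]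
  have P_R : ∀ v (hv : v ∉ S) x w, heckeSum (v := v) 1 (fun x => P x w) x =
      t (⟨v, hv⟩, 2) * P x w := by
    intro v hv x w
    rw [Coc0_scalar (f := fun x => P x w) (hinv v hv w), P_sc2 v hv]
  let t' : Pl F → κ := fun v => if hv : v ∉ S then t (⟨v, hv⟩, 0) * t (⟨v, hv⟩, 2) else 0
  let r' : Pl F → κ := fun v => if hv : v ∉ S then t (⟨v, hv⟩, 2) else 0
  have ht' : ∀ v (hv : v ∉ S), t' v = t (⟨v, hv⟩, 0) * t (⟨v, hv⟩, 2) := fun v hv => dif_pos hv
  have hr' : ∀ v (hv : v ∉ S), r' v = t (⟨v, hv⟩, 2) := fun v hv => dif_pos hv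
  -- it is enough to find the eigenvalues `t'`, `r'`
  suffices hmain : ∃ ψ : Pl F → κ, IsRay S ψ ∧ ∀ v, v ∉ S →
      t' v ^ 2 = (ψ v + 2 + (ψ v)⁻¹) * (Nm v : κ) * r' v by
    obtain ⟨ψ, hψ, h⟩ := hmain
    refine ⟨ψ, hψ, fun v hv => ?_⟩
    have h1 := h v hv
    rw [ht' v hv, hr' v hv] at h1
    have h2 := ht12 v hv
    have h3 : t (⟨v, hv⟩, 0) ^ 2 = (t (⟨v, hv⟩, 0) * t (⟨v, hv⟩, 2)) ^ 2 *
        t (⟨v, hv⟩, 1) ^ 2 := by
      calc t (⟨v, hv⟩, 0) ^ 2 = t (⟨v, hv⟩, 0) ^ 2 * (t (⟨v, hv⟩, 1) * t (⟨v, hv⟩, 2)) ^ 2 := by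
            rw [h2]; ring
        _ = _ := by ring
    rw [h3, h1]
    calc (ψ v + 2 + (ψ v)⁻¹) * (Nm v : κ) * t (⟨v, hv⟩, 2) * t (⟨v, hv⟩, 1) ^ 2 =
          (ψ v + 2 + (ψ v)⁻¹) * (Nm v : κ) * t (⟨v, hv⟩, 1) *
            (t (⟨v, hv⟩, 1) * t (⟨v, hv⟩, 2)) := by ring
      _ = _ := by rw [h2, mul_one]
  -- the cocycle
  let c : G F → Pt F → κ := fun γ x => P x (stD O (1 : k) (γ • infP F) (infP F))
  let η' : G F →* AddMonoid.End κ :=
    { toFun := fun γ => AddMonoidHom.mulLeft (χ γ : κ)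
      map_one' := by
        ext x
        change ((χ 1 : κˣ) : κ) * x = x
        rw [map_one, Units.val_one, one_mul]
      map_mul' := by
        intro a b
        ext x
        change ((χ (a * b) : κˣ) : κ) * x = (χ a : κ) * ((χ b : κ) * x)
        rw [map_mul, Units.val_mul, mul_assoc] }
  have hη' : ∀ γ (x : κ), η' γ x = (χ γ : κ) * x := fun _ _ => rfl
  have hc : Coc η' c := by
    intro γ δ y
    change P y (stD O (1 : k) ((γ * δ) • infP F) (infP F)) = P y (stD O (1 : k) (γ • infP F) (infP F)) +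
      (χ γ : κ) * P (act γ⁻¹ y) (stD O (1 : k) (δ • infP F) (infP F))
    have h1 : act γ (act γ⁻¹ y) = y := by
      rw [← act_mul, mul_inv_cancel, act_one]
    rw [← P_act, stAct_D, h1, ← P_add, ← EigMain_stD_add, mul_smul]
  have hcK : ∀ γ, RInv K (c γ) := fun γ y κ' hκ' => P_rt y κ' hκ' _
  have hTw : Tw K η' := by
    refine ⟨fun γ hγ => ?_, fun γ y κ' hκ' hy => ?_⟩
    · ext x
      change (χ γ : κ) * x = x
      rw [hχ1 γ hγ, Units.val_one, one_mul]
    · ext x
      change (χ γ : κ) * x = x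
      rw [hχ2 γ y κ' hκ' hy, Units.val_one, one_mul]
  have hpV : ∀ x : κ, p • x = 0 := by
    intro x
    rw [nsmul_eq_mul, CharP.cast_eq_zero, zero_mul]
  let lam : Pl F → κ := fun v => t' v ^ 2 - (1 + Nm v : ℕ) ^ 2 * r' v
  have hPP : ∀ v, v ∉ S → ∀ γ, PP v (c γ) = fun y => lam v * c γ y := by
    intro v hv γ
    funext y
    have h1 : heckeSum (v := v) 0 (c γ) = fun y => t' v * c γ y := by
      funext y
      rw [ht' v hv]
      exact P_T v hv y _
    have h2 : heckeSum (v := v) 0 (fun y => t' v * c γ y) = fun y => t' v * (t' v * c γ y) := by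
      funext y
      have h3 : heckeSum (v := v) 0 (fun y => t' v * c γ y) y =
          t' v * heckeSum (v := v) 0 (c γ) y := by
        unfold heckeSum
        rw [Finset.mul_sum]
      rw [h3, h1]
    have h3 : heckeSum (v := v) 1 (c γ) y = r' v * c γ y := by
      rw [hr' v hv]
      exact P_R v hv y _
    rw [PP, h1, h2, h3, nsmul_eq_mul]
    change t' v * (t' v * c γ y) - (((1 + Nm v) ^ 2 : ℕ) : κ) * (r' v * c γ y) =
      (t' v ^ 2 - ((1 + Nm v : ℕ) : κ) ^ 2 * r' v) * c γ y
    push_cast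
    ring
  by_cases hlam : ∀ v, v ∉ S → lam v = 0
  · -- the character `N v`
    refine ⟨_, isRay_norm hK.fin hpS κ, fun v hv => ?_⟩
    have h1 := hlam v hv
    have h2 : (Nm v : κ) ≠ 0 := by
      have h3 : (if v ∈ S then (1 : κ) else (Nm v : κ)) ≠ 0 := (isRay_norm hK.fin hpS κ).1 v
      rwa [if_neg hv] at h3
    simp only [if_neg hv]
    change t' v ^ 2 - ((1 + Nm v : ℕ) : κ) ^ 2 * r' v = 0 at h1
    rw [sub_eq_zero] at h1
    rw [h1]
    push_cast
    field_simp
    ring
  · push Not at hlam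
    obtain ⟨v₀, hv₀, hl₀⟩ := hlam
    obtain ⟨f₀, hf₀, hcf₀⟩ := coc_PP hF hK hpS hpV hTw hc hcK v₀ hv₀
    let f : Pt F → κ := fun y => (lam v₀ ^ 2)⁻¹ * f₀ y
    have hfK : RInv K f := fun y κ' hκ' => by
      change (lam v₀ ^ 2)⁻¹ * f₀ (rt y κ') = (lam v₀ ^ 2)⁻¹ * f₀ y
      rw [hf₀ y κ' hκ']
    have hcf : ∀ γ y, c γ y = (χ γ : κ) * f (act γ⁻¹ y) - f y := by
      intro γ y
      have h1 := hcf₀ γ y
      rw [hPP v₀ hv₀ γ] at h1
      have h2 : PP v₀ (fun y => lam v₀ * c γ y) y = lam v₀ * (lam v₀ * c γ y) := by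
        have h3 : PP v₀ (fun y => lam v₀ * c γ y) y = lam v₀ * PP v₀ (c γ) y := by
          unfold PP heckeSum
          simp only [← Finset.mul_sum, mul_sub, mul_smul_comm]
        rw [h3, hPP v₀ hv₀ γ]
      rw [h2, hη'] at h1
      change c γ y = (χ γ : κ) * ((lam v₀ ^ 2)⁻¹ * f₀ (act γ⁻¹ y)) - (lam v₀ ^ 2)⁻¹ * f₀ y
      have h4 : c γ y = (lam v₀ ^ 2)⁻¹ * (lam v₀ * (lam v₀ * c γ y)) := by
        field_simp
      rw [h4, h1]
      ring
    have hfB : f ∈ BInv K χ := by
      refine ⟨hfK, fun b hb y => ?_⟩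
      have h1 := hcf b (act b y)
      have h2 : c b (act b y) = 0 := by
        change P (act b y) (stD O (1 : k) (b • infP F) (infP F)) = 0
        rw [(smul_inf_iff b).2 hb, EigMain_stD_self]
        change φ (T.π (act b y) ((T.Ψ y₀).symm 0)) = 0
        rw [map_zero, map_zero, map_zero]
      rw [h2, ← act_mul, inv_mul_cancel, act_one] at h1
      exact (sub_eq_zero.1 h1.symm).symm
    have hfG : f ∉ GInv K χ := by
      intro hG
      obtain ⟨x, s, hxs⟩ := hnz
      apply hxs
      have hc0 : ∀ γ y, c γ y = 0 := by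
        intro γ y
        have h1 := hG.2 γ (act γ⁻¹ y)
        rw [← act_mul, mul_inv_cancel, act_one] at h1
        rw [hcf, ← h1, sub_self]
      let Tsub : AddSubgroup (St F O k) :=
        { carrier := {s | P x s = 0}
          add_mem' := by
            intro a b ha hb
            change P x (a + b) = 0
            have ha' : P x a = 0 := ha
            have hb' : P x b = 0 := hb
            rw [P_add, ha', hb', add_zero]
          zero_mem' := by
            change φ (T.π x ((T.Ψ y₀).symm 0)) = 0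
            rw [map_zero, map_zero, map_zero]
          neg_mem' := by
            intro a ha
            have ha' : φ (T.π x ((T.Ψ y₀).symm a)) = 0 := ha
            change φ (T.π x ((T.Ψ y₀).symm (-a))) = 0
            rw [map_neg, map_neg, map_neg, ha', neg_zero] }
      have h1 : Tsub = ⊤ := by
        apply st_span
        intro a Q
        obtain ⟨a', rfl⟩ := hs a
        obtain ⟨γ, -, rfl⟩ := p1_trans Q
        change P x (stD O (algebraMap O k a') (γ • infP F) (infP F)) = 0
        rw [EigMain_stD_smul, P_smul]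
        have h2 : P x (stD O (1 : k) (γ • infP F) (infP F)) = 0 := hc0 γ x
        rw [h2, mul_zero]
      have h2 : s ∈ Tsub := by
        rw [h1]
        exact AddSubgroup.mem_top s
      exact h2
    -- the Hecke operators commute with the coboundary
    have hH : ∀ v, v ∉ S → ∀ (j : Fin 3) (a : κ),
        (∀ γ y, heckeSum (v := v) j (c γ) y = a * c γ y) →
        (fun y => heckeSum (v := v) j f y - a * f y) ∈ GInv K χ := by
      intro v hv j a ha
      refine ⟨fun y κ' hκ' => ?_, fun γ y => ?_⟩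
      · change heckeSum (v := v) j f (rt y κ') - a * f (rt y κ') = _
        rw [EigMain_rinv hK hfK hv j y κ' hκ', hfK y κ' hκ']
      · have h1 := ha γ (act γ y)
        have h2 : heckeSum (v := v) j (c γ) (act γ y) =
            (χ γ : κ) * heckeSum (v := v) j f y - heckeSum (v := v) j f (act γ y) := by
          unfold heckeSum
          rw [Finset.mul_sum, ← Finset.sum_sub_distrib]
          refine Finset.sum_congr rfl fun q _ => ?_
          rw [hcf, ← act_rt, ← act_mul, inv_mul_cancel, act_one]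
        rw [h2, hcf, ← act_mul, inv_mul_cancel, act_one] at h1
        change heckeSum (v := v) j f (act γ y) - a * f (act γ y) =
          (χ γ : κ) * (heckeSum (v := v) j f y - a * f y)
        linear_combination -h1
    obtain ⟨ψ, hψ, h⟩ := borel_eigen hpS hK hχ1 f hfB hfG t' r'
      (fun v hv => hH v hv 0 (t' v) fun γ y => by
        rw [ht' v hv]
        exact P_T v hv y _)
      (fun v hv => hH v hv 1 (r' v) fun γ y => by
        rw [hr' v hv]
        exact P_R v hv y _)
    exact ⟨ψ, hψ, fun v hv => (h v hv).2⟩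

end Pool.Agent.CG2
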