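import Pool.Agent.CG2.UpperTF

/-!
# Finite generation of the cohomology in the degrees `0`, `1` and in the top degree
-/

noncomputable section

namespace Pool.Agent.CG2

open NumberField IsDedekindDomain Matrix Pool.Agent.CG3 CategoryTheory

variable {F : Type} [Field F] [NumberField F] {K : Subgroup (GA F)} {S : Set (Pl F)}
variable {O : Type} [CommRing O] [IsNoetherianRing O] {W : Type} [AddCommGroup W] [Module O W]
  [Module.Finite O W]

theorem oc_Kin (hK : OC K S) : OC (Kin K 3) (S ∪ {v | ((3 : ℕ) : 𝓞 F) ∈ v.asIdeal}) :=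
  hK.inter (oc_KN 3 (by norm_num))

theorem fin_ind (hK : OC K S) (τ : Representation O K W) (i : ℕ) :
    Module.Finite O (groupCohomology (coeff K (indRep (Kin K 3) τ)) i) := by
  have h1 : Module.Finite O (groupCohomology (coeff (Kin K 3)
      (resRep (inf_le_left : Kin K 3 ≤ K) τ)) i) :=
    fg_small (N := 3) le_rfl inf_le_right (oc_Kin hK) _ i
  refine Module.Finite.of_surjective
    (mapCoh (toInd (inf_le_left : Kin K 3 ≤ K) τ) i) (fun z => ⟨mapCoh (ofInd inf_le_left τ) i z, ?_⟩)
  rw [← mapCoh_comp, ofInd_toInd, mapCoh_id]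

/-- The map to the constant functions. -/
def constMap (K K' : Subgroup (GA F)) (O W : Type) [CommRing O] [AddCommGroup W] [Module O W] :
    W →ₗ[O] (Qt K K' → W) where
  toFun w _ := w
  map_add' _ _ := rfl
  map_smul' _ _ := rfl

theorem constMap_eqv (K' : Subgroup (GA F)) (τ : Representation O K W) (k : K) (w : W) :
    constMap K K' O W (τ k w) = indRep K' τ k (constMap K K' O W w) := rfl

theorem constMap_inj (K K' : Subgroup (GA F)) (O W : Type) [CommRing O] [AddCommGroup W]
    [Module O W] : Function.Injective (constMap K K' O W) := by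
  intro a b h
  exact congrFun h ((1 : K) : Qt K K')

theorem mapCoh_inj {A B : Rep.{0} O (G F)} (f : A ⟶ B) (hf : Function.Injective f.hom) :
    Function.Injective (mapCoh f 0) := by
  have h1 : Mono f := (Rep.mono_iff_injective _).2 hf
  have h2 : Mono (groupCohomology.map (MonoidHom.id (G F)) f 0) := inferInstance
  exact (ModuleCat.mono_iff_injective _).1 h2

theorem fin_coh0 (hK : OC K S) (τ : Representation O K W) :
    Module.Finite O (groupCohomology (coeff K τ) 0) := by
  have h1 := fin_ind hK τ 0
  have h2 : IsNoetherian O (groupCohomology (coeff K (indRep (Kin K 3) τ)) 0) :=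
    isNoetherian_of_isNoetherianRing_of_finite _ _
  refine Module.Finite.of_injective (cohMap τ (indRep (Kin K 3) τ) (constMap K (Kin K 3) O W)
    (constMap_eqv (Kin K 3) τ) 0) ?_
  apply mapCoh_inj
  intro f f' hff
  apply Subtype.ext
  funext y
  apply constMap_inj K (Kin K 3) O W
  exact congrArg (fun a : Forms K (indRep (Kin K 3) τ) => a.1 y) hff

theorem fin_coh1 (hK : OC K S) (τ : Representation O K W) :
    Module.Finite O (groupCohomology (coeff K τ) 1) := by
  have hfin : Finite (Qt K (Kin K 3)) := finite_Qt hK (oc_Kin hK)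
  have hWI : Module.Finite O (Qt K (Kin K 3) → W) := Module.Finite.pi
  let T : Submodule O (Qt K (Kin K 3) → W) := LinearMap.range (constMap K (Kin K 3) O W)
  have hT : ∀ k, ∀ w ∈ T, indRep (Kin K 3) τ k w ∈ T := by
    rintro k _ ⟨w, rfl⟩
    exact ⟨τ k w, rfl⟩
  obtain ⟨h0, hS⟩ := formsMap_shortExact τ (indRep (Kin K 3) τ) (quoRep _ T hT)
    (constMap K (Kin K 3) O W) (constMap_eqv (Kin K 3) τ) (constMap_inj K (Kin K 3) O W)
    T.mkQ (fun k w => rfl) T.mkQ_surjective (by rw [Submodule.ker_mkQ])
  have h1 := fin_ind hK τ 1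
  have h2 : IsNoetherian O (groupCohomology (coeff K (indRep (Kin K 3) τ)) 1) :=
    isNoetherian_of_isNoetherianRing_of_finite _ _
  have h3 := fin_coh0 hK (quoRep (indRep (Kin K 3) τ) T hT)
  have h4 : IsNoetherian O (groupCohomology (coeff K (quoRep (indRep (Kin K 3) τ) T hT)) 0) :=
    isNoetherian_of_isNoetherianRing_of_finite _ _
  have h5 := groupCohomology.mapShortComplex₁_exact hS (i := 0) (j := 1) rfl
  rw [ShortComplex.moduleCat_exact_iff_range_eq_ker] at h5
  have h6 : IsNoetherian O (groupCohomology (coeff K τ) 1) :=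
    @isNoetherian_of_range_eq_ker O _ _ _ _ _ _ _ _ _ _ h4 h2 _ _ h5
  exact Module.IsNoetherian.finite _ _

/-- Finite generation in the degrees `0` and `1`. -/
theorem fin_coh01 (hK : OC K S) (τ : Representation O K W) (i : ℕ) (hi : i < 2) :
    Module.Finite O (groupCohomology (coeff K τ) i) := by
  rcases (by omega : i = 0 ∨ i = 1) with rfl | rfl
  · exact fin_coh0 hK τ
  · exact fin_coh1 hK τ

/-- Finite generation in the top degree. -/
theorem fin_top (hK : OC K S) (hTF : TorsionFree K) (τ : Representation O K W) :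
    Module.Finite O (groupCohomology (coeff K τ) (nU F)) := by
  have hfin : Finite (Qt K (Kin K 3)) := finite_Qt hK (oc_Kin hK)
  have hft : Fintype (Qt K (Kin K 3)) := Fintype.ofFinite _
  have h1 : Module.Finite O (groupCohomology (coeff (Kin K 3)
      (resRep (inf_le_left : Kin K 3 ≤ K) τ)) (nU F)) :=
    fg_small (N := 3) le_rfl inf_le_right (oc_Kin hK) _ _
  exact Module.Finite.of_surjective _ (tr_surj (inf_le_left : Kin K 3 ≤ K) τ (nU F)
    fun W₁ _ _ τ₁ => upper K hK hTF O W₁ τ₁ _ (Nat.lt_succ_self _))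

end Pool.Agent.CG2
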