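import Pool.Agent.CG2.RayDefs
import Pool.Agent.CG3.GalZeta4

/-!
# Densities of sets of finite places
-/

noncomputable section

namespace Pool.Agent.CG2

open NumberField IsDedekindDomain

variable {F : Type} [Field F] [NumberField F]

/-- The sum of the `N(v) ^ (-s)` over the places in `A`. -/
def Ds (A : Set (Pl F)) (s : ℝ) : ℝ := ∑' v : A, (Ideal.absNorm v.1.asIdeal : ℝ) ^ (-s)

namespace GalDensAux

open scoped ENNReal
open Filter Topology
open Pool.Agent.CG3.GalAux

theorem summable_all (F : Type) [Field F] [NumberField F] {s : ℝ} (hs : 1 < s) :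
    Summable fun v : Pl F => (Ideal.absNorm v.asIdeal : ℝ) ^ (-s) := by
  classical
  let c : Pl F → ℕ := fun v => (Ideal.absNorm v.asIdeal).minFac
  let h : ℕ → ℝ := fun n => (n : ℝ) ^ (-s)
  have hc : ∀ v : Pl F, (c v).Prime ∧ ((c v : ℕ) : 𝓞 F) ∈ v.asIdeal ∧ ∃ f : ℕ, 1 ≤ f ∧
      Ideal.absNorm v.asIdeal = (c v) ^ f := by
    intro v
    obtain ⟨ℓ, hℓ, hm, f, hf1, hf⟩ := exists_char F v
    have : c v = ℓ := by
      simp only [c]
      rw [hf]
      exact hℓ.pow_minFac (by omega)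
    rw [this]
    exact ⟨hℓ, hm, f, hf1, hf⟩
  have hh0 : ∀ n, 0 ≤ h n := by
    intro n
    simp only [h]
    positivity
  have hsum : Summable h := by
    simp only [h]
    exact Real.summable_nat_rpow.2 (by linarith)
  have hle : ∀ v : Pl F, (Ideal.absNorm v.asIdeal : ℝ) ^ (-s) ≤ h (c v) := by
    intro v
    obtain ⟨hℓ, hm, f, hf1, hf⟩ := hc v
    have hℓ1 : 1 ≤ c v := hℓ.one_lt.le
    have h1 : c v ≤ Ideal.absNorm v.asIdeal := by
      rw [hf]
      exact Nat.le_self_pow (by omega) _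
    simp only [h]
    rw [Real.rpow_neg (by positivity), Real.rpow_neg (by positivity)]
    refine inv_anti₀ (Real.rpow_pos_of_pos (by exact_mod_cast hℓ.pos) _) ?_
    exact Real.rpow_le_rpow (by positivity) (by exact_mod_cast h1) (by linarith)
  refine summable_of_sum_le (c := (Module.finrank ℚ F : ℝ) * ∑' n, h n)
    (fun v => by positivity) (fun u => ?_)
  calc ∑ v ∈ u, (Ideal.absNorm v.asIdeal : ℝ) ^ (-s) ≤ ∑ v ∈ u, h (c v) :=
        Finset.sum_le_sum fun v _ => hle v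
    _ = ∑ n ∈ u.image c, (u.filter (fun v => c v = n)).card • h n := Finset.sum_comp h c
    _ ≤ ∑ n ∈ u.image c, (Module.finrank ℚ F : ℝ) * h n := by
        refine Finset.sum_le_sum fun n hn => ?_
        rw [nsmul_eq_mul]
        refine mul_le_mul_of_nonneg_right ?_ (hh0 n)
        obtain ⟨v0, _, hv0⟩ := Finset.mem_image.1 hn
        have h6 := card_above F n (hv0 ▸ (hc v0).1)
          (u.filter (fun v => c v = n)) (by
            intro v hv
            have := (Finset.mem_filter.1 hv).2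
            rw [← this]
            exact (hc v).2.1)
        exact_mod_cast h6
    _ = (Module.finrank ℚ F : ℝ) * ∑ n ∈ u.image c, h n := by rw [Finset.mul_sum]
    _ ≤ _ := mul_le_mul_of_nonneg_left (hsum.sum_le_tsum _ (fun n _ => hh0 n)) (by positivity)

end GalDensAux

theorem Ds_summable (A : Set (Pl F)) {s : ℝ} (hs : 1 < s) :
    Summable fun v : A => (Ideal.absNorm v.1.asIdeal : ℝ) ^ (-s) :=
  (GalDensAux.summable_all F hs).subtype A

/-- The set `A` of finite places has (logarithmic) density `c`. -/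
def HasDen (A : Set (Pl F)) (c : ℝ) : Prop := ∃ C : ℝ, ∀ s ∈ Set.Ioc (1 : ℝ) 2,
  |Ds A s - c * Real.log (1 / (s - 1))| ≤ C

namespace GalDensAux

open scoped ENNReal
open Filter Topology
open Pool.Agent.CG3.GalAux

theorem Ds_nonneg (A : Set (Pl F)) (s : ℝ) : 0 ≤ Ds A s :=
  tsum_nonneg fun _ => by positivity

/-- The formal Euler product over a finite type is the product of the geometric series. -/
theorem Zf_unique (w : Fin 1 → ℝ≥0∞) : Zf w = ∑' m : ℕ, w 0 ^ m := by
  unfold Zf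
  let e : ℕ ≃ (Fin 1 →₀ ℕ) :=
    { toFun := fun m => Finsupp.single 0 m
      invFun := fun f => f 0
      left_inv := fun m => by simp
      right_inv := fun f => by
        refine Finsupp.ext fun i => ?_
        rw [Subsingleton.elim i 0]
        simp }
  rw [← e.tsum_eq]
  refine tsum_congr fun m => ?_
  have : e m = Finsupp.single 0 m := rfl
  rw [this, Finsupp.prod_single_index (by simp)]

theorem Zf_fin (n : ℕ) (w : Fin n → ℝ≥0∞) : Zf w = ∏ j, ∑' m : ℕ, w j ^ m := by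
  induction n with
  | zero =>
    unfold Zf
    rw [tsum_eq_single 0]
    · simp
    · intro f hf
      exact absurd (Subsingleton.elim f 0) hf
  | succ n ih =>
    have h1 : Zf w = Zf (Sum.elim (fun j : Fin n => w j.castSucc) (fun _ : Fin 1 => w (Fin.last n))) := by
      rw [← Zf_equiv (finSumFinEquiv (m := n) (n := 1)) w]
      congr 1
      funext x
      rcases x with x | x
      · simp only [Sum.elim_inl, finSumFinEquiv_apply_left]
        rfl
      · simp only [Sum.elim_inr, finSumFinEquiv_apply_right]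
        congr 1
        ext
        simp
    rw [h1, Zf_sum, ih, Zf_unique, Fin.prod_univ_castSucc]

theorem prod_le_Zf {α : Type*} (w : α → ℝ≥0∞) (S : Finset α) :
    ∏ a ∈ S, ∑' m : ℕ, w a ^ m ≤ Zf w := by
  classical
  let e := S.equivFin
  have h1 : ∏ a ∈ S, ∑' m : ℕ, w a ^ m = ∏ j : Fin S.card, ∑' m : ℕ, w (e.symm j) ^ m := by
    rw [← Finset.prod_coe_sort S]
    exact (Equiv.prod_comp e.symm (fun a : S => ∑' m : ℕ, w a ^ m)).symm
  rw [h1, ← Zf_fin]
  exact Zf_comp_le (fun j : Fin S.card => ((e.symm j : S) : α))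
    (fun a b h => e.symm.injective (Subtype.ext h)) w

theorem geom_lower (x : ℝ) (h0 : 0 ≤ x) (h1 : x ≤ 1 / 2) :
    ENNReal.ofReal (Real.exp x) ≤ ∑' n : ℕ, ENNReal.ofReal x ^ n := by
  have h2 : ∀ n : ℕ, ENNReal.ofReal x ^ n = ENNReal.ofReal (x ^ n) := fun n =>
    (ENNReal.ofReal_pow h0 n).symm
  simp_rw [h2]
  rw [← ENNReal.ofReal_tsum_of_nonneg (fun n => pow_nonneg h0 n)
    (summable_geometric_of_lt_one h0 (by linarith)),
    tsum_geometric_of_lt_one h0 (by linarith)]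
  refine ENNReal.ofReal_le_ofReal ?_
  have h3 : 1 - x ≤ Real.exp (-x) := by
    have := Real.add_one_le_exp (-x)
    linarith
  rw [Real.exp_neg] at h3
  have h4 : 0 < 1 - x := by linarith
  exact (le_inv_comm₀ h4 (Real.exp_pos x)).1 h3

theorem geom_upper (x : ℝ) (h0 : 0 ≤ x) (h1 : x ≤ 1 / 2) :
    ∑' n : ℕ, ENNReal.ofReal x ^ n ≤ ENNReal.ofReal (Real.exp (x + 2 * x ^ 2)) := by
  have h2 : ∀ n : ℕ, ENNReal.ofReal x ^ n = ENNReal.ofReal (x ^ n) := fun n =>
    (ENNReal.ofReal_pow h0 n).symm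
  simp_rw [h2]
  rw [← ENNReal.ofReal_tsum_of_nonneg (fun n => pow_nonneg h0 n)
    (summable_geometric_of_lt_one h0 (by linarith)),
    tsum_geometric_of_lt_one h0 (by linarith)]
  refine ENNReal.ofReal_le_ofReal ?_
  have h3 : (1 - x)⁻¹ ≤ (x + 2 * x ^ 2) + 1 := by
    rw [inv_le_iff_one_le_mul₀ (by linarith)]
    nlinarith [mul_nonneg h0 h0, mul_nonneg (mul_nonneg h0 h0) (sub_nonneg.2 h1)]
  exact le_trans h3 (Real.add_one_le_exp _)

/-- The zeta function is between the exponentials of the sum over the places. -/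
theorem ZK_exp (F : Type) [Field F] [NumberField F] {s : ℝ} (hs : 1 < s) :
    ENNReal.ofReal (Real.exp (Ds (Set.univ : Set (Pl F)) s)) ≤ ZK F s ∧
      ZK F s ≤ ENNReal.ofReal (Real.exp (Ds (Set.univ : Set (Pl F)) s +
        2 * ∑' v : Pl F, ((Ideal.absNorm v.asIdeal : ℝ) ^ (-s)) ^ 2)) := by
  classical
  set x : Pl F → ℝ := fun v => (Ideal.absNorm v.asIdeal : ℝ) ^ (-s) with hx
  have h0 : ∀ v, 0 ≤ x v := fun v => by simp only [hx]; positivity
  have h1 : ∀ v, x v ≤ 1 / 2 := by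
    intro v
    have h2 : (2 : ℝ) ≤ (Ideal.absNorm v.asIdeal : ℝ) := by
      exact_mod_cast two_le_absNorm F v
    simp only [hx]
    calc (Ideal.absNorm v.asIdeal : ℝ) ^ (-s) ≤ (Ideal.absNorm v.asIdeal : ℝ) ^ (-1 : ℝ) :=
          Real.rpow_le_rpow_of_exponent_le (by linarith) (by linarith)
      _ = ((Ideal.absNorm v.asIdeal : ℝ))⁻¹ := Real.rpow_neg_one _
      _ ≤ 1 / 2 := by
          rw [one_div]
          exact inv_anti₀ (by norm_num) h2
  have hs1 : Summable x := summable_all F hs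
  have hs2 : Summable fun v => (x v) ^ 2 := by
    refine Summable.of_nonneg_of_le (fun v => sq_nonneg _) (fun v => ?_) hs1
    have := h0 v
    have := h1 v
    nlinarith
  have hDs : Ds (Set.univ : Set (Pl F)) s = ∑' v, x v := by
    unfold Ds
    exact tsum_univ x
  have hZ : ZK F s = Zf (fun v => ENNReal.ofReal (x v)) := rfl
  constructor
  · rw [hDs, hZ]
    have hlim : Tendsto (fun S : Finset (Pl F) => ENNReal.ofReal (Real.exp (∑ v ∈ S, x v))) atTop
        (𝓝 (ENNReal.ofReal (Real.exp (∑' v, x v)))) := by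
      refine ENNReal.tendsto_ofReal ?_
      exact (Real.continuous_exp.tendsto _).comp hs1.hasSum
    refine le_of_tendsto' hlim fun S => ?_
    refine le_trans ?_ (prod_le_Zf _ S)
    rw [Real.exp_sum, ENNReal.ofReal_prod_of_nonneg (fun _ _ => (Real.exp_pos _).le)]
    exact Finset.prod_le_prod' fun v _ => geom_lower _ (h0 v) (h1 v)
  · rw [hDs, hZ]
    unfold Zf
    rw [ENNReal.tsum_eq_iSup_sum]
    refine iSup_le fun Φ => ?_
    obtain ⟨S, hS⟩ := sum_le_prod (fun a => ENNReal.ofReal (x a)) Φ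
    refine hS.trans ?_
    calc ∏ a ∈ S, ∑' n : ℕ, ENNReal.ofReal (x a) ^ n
        ≤ ∏ a ∈ S, ENNReal.ofReal (Real.exp (x a + 2 * x a ^ 2)) :=
          Finset.prod_le_prod' fun a _ => geom_upper _ (h0 a) (h1 a)
      _ = ENNReal.ofReal (Real.exp (∑ a ∈ S, x a + 2 * ∑ a ∈ S, x a ^ 2)) := by
          rw [← ENNReal.ofReal_prod_of_nonneg (fun _ _ => (Real.exp_pos _).le), ← Real.exp_sum,
            Finset.sum_add_distrib, ← Finset.mul_sum]
      _ ≤ _ := by
          refine ENNReal.ofReal_le_ofReal (Real.exp_le_exp.2 ?_)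
          have h3 := hs1.sum_le_tsum S (fun a _ => h0 a)
          have h4 := hs2.sum_le_tsum S (fun a _ => sq_nonneg _)
          linarith

theorem summable_sq (F : Type) [Field F] [NumberField F] :
    Summable fun v : Pl F => (Ideal.absNorm v.asIdeal : ℝ) ^ (-2 : ℝ) :=
  summable_all F (by norm_num)

theorem sq_le (F : Type) [Field F] [NumberField F] {s : ℝ} (hs : 1 < s) :
    ∑' v : Pl F, ((Ideal.absNorm v.asIdeal : ℝ) ^ (-s)) ^ 2 ≤
      ∑' v : Pl F, (Ideal.absNorm v.asIdeal : ℝ) ^ (-2 : ℝ) := by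
  have h1 : ∀ v : Pl F, ((Ideal.absNorm v.asIdeal : ℝ) ^ (-s)) ^ 2 ≤
      (Ideal.absNorm v.asIdeal : ℝ) ^ (-2 : ℝ) := by
    intro v
    have h2 : (1 : ℝ) ≤ (Ideal.absNorm v.asIdeal : ℝ) := by
      exact_mod_cast le_trans (by norm_num) (two_le_absNorm F v)
    rw [← Real.rpow_natCast, ← Real.rpow_mul (by positivity)]
    refine Real.rpow_le_rpow_of_exponent_le h2 ?_
    push_cast
    linarith
  refine Summable.tsum_le_tsum h1 ?_ (summable_sq F)
  exact Summable.of_nonneg_of_le (fun v => sq_nonneg _) h1 (summable_sq F)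

theorem Ds_anti (A : Set (Pl F)) {s t : ℝ} (hs : 1 < s) (hst : s ≤ t) : Ds A t ≤ Ds A s := by
  unfold Ds
  refine Summable.tsum_le_tsum (fun v => ?_) (Ds_summable A (hs.trans_le hst)) (Ds_summable A hs)
  have h2 : (1 : ℝ) ≤ (Ideal.absNorm v.1.asIdeal : ℝ) := by
    exact_mod_cast le_trans (by norm_num) (two_le_absNorm F v.1)
  exact Real.rpow_le_rpow_of_exponent_le h2 (by linarith)

theorem Ds_indicator (A : Set (Pl F)) (s : ℝ) :
    Ds A s = ∑' v : Pl F, A.indicator (fun v => (Ideal.absNorm v.asIdeal : ℝ) ^ (-s)) v := by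
  unfold Ds
  exact tsum_subtype A (fun v => (Ideal.absNorm v.asIdeal : ℝ) ^ (-s))

theorem Ds_union {A B : Set (Pl F)} (h : Disjoint A B) {s : ℝ} (hs : 1 < s) :
    Ds (A ∪ B) s = Ds A s + Ds B s := by
  rw [Ds_indicator, Ds_indicator, Ds_indicator,
    ← ((summable_all F hs).indicator A).tsum_add ((summable_all F hs).indicator B)]
  refine tsum_congr fun v => ?_
  rw [Set.indicator_union_of_disjoint h]

theorem Ds_mono {A B : Set (Pl F)} (h : A ⊆ B) {s : ℝ} (hs : 1 < s) : Ds A s ≤ Ds B s := by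
  rw [Ds_indicator, Ds_indicator]
  refine Summable.tsum_le_tsum (fun v => ?_) ((summable_all F hs).indicator A)
    ((summable_all F hs).indicator B)
  exact Set.indicator_le_indicator_of_subset h (fun v => by positivity) v

theorem Ds_finite (A : Set (Pl F)) (hA : A.Finite) :
    ∃ C : ℝ, ∀ s ∈ Set.Ioc (1 : ℝ) 2, |Ds A s| ≤ C := by
  refine ⟨Nat.card A, fun s hs => ?_⟩
  have := hA.fintype
  rw [abs_of_nonneg (Ds_nonneg A s)]
  unfold Ds
  rw [tsum_fintype]
  refine (Finset.sum_le_sum (g := fun _ => (1 : ℝ)) fun v _ => ?_).trans ?_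
  · have h2 : (1 : ℝ) ≤ (Ideal.absNorm v.1.asIdeal : ℝ) := by
      exact_mod_cast le_trans (by norm_num) (two_le_absNorm F v.1)
    exact Real.rpow_le_one_of_one_le_of_nonpos h2 (by linarith [hs.1])
  · simp

end GalDensAux

open GalDensAux Pool.Agent.CG3.GalAux Filter Topology in
/-- The set of all places has density `1`. -/
theorem hasDen_univ (F : Type) [Field F] [NumberField F] :
    HasDen (Set.univ : Set (Pl F)) 1 := by
  obtain ⟨c, C, hc, hC, hb⟩ := ZK_bounds F
  rw [eventually_nhdsWithin_iff, Metric.eventually_nhds_iff] at hb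
  obtain ⟨ε, hε, hb⟩ := hb
  set Q : ℝ := ∑' v : Pl F, (Ideal.absNorm v.asIdeal : ℝ) ^ (-2 : ℝ) with hQ
  set δ : ℝ := min (ε / 2) (1 / 2) with hδ
  have hδ0 : 0 < δ := lt_min (by linarith) (by norm_num)
  have hδ1 : δ ≤ 1 / 2 := min_le_right _ _
  have hδε : δ < ε := lt_of_le_of_lt (min_le_left _ _) (by linarith)
  refine ⟨|Real.log c| + |Real.log C| + 2 * |Q| + (Ds (Set.univ : Set (Pl F)) (1 + δ) +
    Real.log (1 / δ)), fun s hs => ?_⟩
  have hs1 : 1 < s := hs.1
  have hs2 : s ≤ 2 := hs.2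
  have hs0 : 0 < s - 1 := by linarith
  have hDδ : 0 ≤ Ds (Set.univ : Set (Pl F)) (1 + δ) := Ds_nonneg _ _
  have hlogδ : 0 ≤ Real.log (1 / δ) := by
    apply Real.log_nonneg
    rw [le_div_iff₀ hδ0]
    linarith
  rw [one_mul]
  rcases lt_or_ge s (1 + δ) with h | h
  · -- near the pole
    have hd : dist s 1 < ε := by
      rw [Real.dist_eq, abs_of_pos hs0]
      linarith
    obtain ⟨h1, h2⟩ := hb hd hs1
    obtain ⟨h3, h4⟩ := ZK_exp F hs1
    have hq := sq_le F hs1
    have h5 := h3.trans h2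
    have h6 := h1.trans h4
    rw [ENNReal.ofReal_le_ofReal_iff (by positivity)] at h5
    rw [ENNReal.ofReal_le_ofReal_iff (by positivity)] at h6
    have h7 := Real.log_le_log (Real.exp_pos _) h5
    have h8 := Real.log_le_log (by positivity) h6
    rw [Real.log_exp, Real.log_div hC.ne' hs0.ne'] at h7
    rw [Real.log_exp, Real.log_div hc.ne' hs0.ne'] at h8
    rw [one_div, Real.log_inv]
    have h9 := le_abs_self (Real.log C)
    have h10 := neg_abs_le (Real.log c)
    have h11 := abs_nonneg (Real.log c)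
    have h12 := abs_nonneg (Real.log C)
    have h13 := le_abs_self Q
    have h14 := abs_nonneg Q
    rw [abs_le]
    constructor <;> linarith
  · -- away from the pole
    have h1 : Ds (Set.univ : Set (Pl F)) s ≤ Ds (Set.univ : Set (Pl F)) (1 + δ) :=
      Ds_anti _ (by linarith) h
    have h2 : 0 ≤ Ds (Set.univ : Set (Pl F)) s := Ds_nonneg _ _
    have h3 : 0 ≤ Real.log (1 / (s - 1)) := by
      apply Real.log_nonneg
      rw [le_div_iff₀ hs0]
      linarith
    have h4 : Real.log (1 / (s - 1)) ≤ Real.log (1 / δ) := by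
      apply Real.log_le_log (by positivity)
      exact one_div_le_one_div_of_le hδ0 (by linarith)
    have h11 := abs_nonneg (Real.log c)
    have h12 := abs_nonneg (Real.log C)
    have h13 := abs_nonneg Q
    rw [abs_le]
    constructor <;> linarith

open GalDensAux Pool.Agent.CG3.GalAux in
/-- The places with `N(v)` not a prime number do not matter. -/
theorem Ds_bad (A : Set (Pl F)) (hA : ∀ v ∈ A, ¬ (Ideal.absNorm v.asIdeal).Prime) :
    ∃ C : ℝ, ∀ s ∈ Set.Ioc (1 : ℝ) 2, |Ds A s| ≤ C := by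
  have hsub : A ⊆ Bad F ∅ := by
    intro v hv h
    exact hA v hv h.1
  refine ⟨∑' v : Bad F ∅, (Ideal.absNorm v.1.asIdeal : ℝ) ^ (-1 : ℝ), fun s hs => ?_⟩
  rw [abs_of_nonneg (Ds_nonneg A s)]
  refine (Ds_mono hsub hs.1).trans ?_
  unfold Ds
  refine Summable.tsum_le_tsum (fun v => ?_) (Ds_summable _ hs.1) (summable_bad F ∅)
  have h2 : (1 : ℝ) ≤ (Ideal.absNorm v.1.asIdeal : ℝ) := by
    exact_mod_cast le_trans (by norm_num) (two_le_absNorm F v.1)
  exact Real.rpow_le_rpow_of_exponent_le h2 (by linarith [hs.1])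

namespace GalDensAux

theorem Ds_small (A : Set (Pl F)) (hA : {v | v ∈ A ∧ (Ideal.absNorm v.asIdeal).Prime}.Finite) :
    ∃ C : ℝ, ∀ s ∈ Set.Ioc (1 : ℝ) 2, |Ds A s| ≤ C := by
  obtain ⟨C₁, h₁⟩ := Ds_finite _ hA
  obtain ⟨C₂, h₂⟩ := Ds_bad {v | v ∈ A ∧ ¬ (Ideal.absNorm v.asIdeal).Prime} (fun v hv => hv.2)
  refine ⟨C₁ + C₂, fun s hs => ?_⟩
  have hU : A = {v | v ∈ A ∧ (Ideal.absNorm v.asIdeal).Prime} ∪
      {v | v ∈ A ∧ ¬ (Ideal.absNorm v.asIdeal).Prime} := by
    ext v
    simp only [Set.mem_union, Set.mem_ofPred_eq]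
    tauto
  have hD : Disjoint {v | v ∈ A ∧ (Ideal.absNorm v.asIdeal).Prime}
      {v | v ∈ A ∧ ¬ (Ideal.absNorm v.asIdeal).Prime} := by
    rw [Set.disjoint_left]
    intro v h1 h2
    exact h2.2 h1.2
  have h3 : Ds A s = Ds {v | v ∈ A ∧ (Ideal.absNorm v.asIdeal).Prime} s +
      Ds {v | v ∈ A ∧ ¬ (Ideal.absNorm v.asIdeal).Prime} s := by
    rw [← Ds_union hD hs.1, ← hU]
  rw [h3]
  exact (abs_add_le _ _).trans (add_le_add (h₁ s hs) (h₂ s hs))

end GalDensAux

open GalDensAux in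
theorem HasDen.congr {A B : Set (Pl F)} {c : ℝ} (h : HasDen A c)
    (hAB : {v | (v ∈ A ∧ v ∉ B ∨ v ∈ B ∧ v ∉ A) ∧ (Ideal.absNorm v.asIdeal).Prime}.Finite) :
    HasDen B c := by
  obtain ⟨C, hC⟩ := h
  obtain ⟨C₁, h₁⟩ := Ds_small (A \ B) (hAB.subset (by
    rintro v ⟨⟨h1, h2⟩, h3⟩
    exact ⟨Or.inl ⟨h1, h2⟩, h3⟩))
  obtain ⟨C₂, h₂⟩ := Ds_small (B \ A) (hAB.subset (by
    rintro v ⟨⟨h1, h2⟩, h3⟩
    exact ⟨Or.inr ⟨h1, h2⟩, h3⟩))
  refine ⟨C + C₁ + C₂, fun s hs => ?_⟩
  have hA : Ds A s = Ds (A ∩ B) s + Ds (A \ B) s := by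
    rw [← Ds_union (Set.disjoint_sdiff_right.mono_left Set.inter_subset_right) hs.1,
      Set.inter_union_sdiff]
  have hB : Ds B s = Ds (A ∩ B) s + Ds (B \ A) s := by
    rw [← Ds_union (Set.disjoint_sdiff_right.mono_left Set.inter_subset_left) hs.1,
      Set.inter_comm, Set.inter_union_sdiff]
  have h3 := hC s hs
  have h4 := h₁ s hs
  have h5 := h₂ s hs
  rw [abs_le] at h3 h4 h5 ⊢
  constructor <;> linarith [h3.1, h3.2, h4.1, h4.2, h5.1, h5.2]

end Pool.Agent.CG2
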