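import Pool.Agent.CG2.GalOmega
import Pool.Agent.CG2.RayDefs
import Pool.Agent.CG2.GalDens

/-!
# Zeta functions of narrow ray classes
-/

noncomputable section

namespace Pool.Agent.CG2

open NumberField IsDedekindDomain NumberField.mixedEmbedding
open scoped Classical

variable {F : Type} [Field F] [NumberField F]

theorem GalClass_summable_all {s : ℝ} (hs : 1 < s) :
    Summable fun I : Ideal (𝓞 F) => (Ideal.absNorm I : ℝ) ^ (-s) := by
  have h1 : Pool.Agent.CG3.GalAux.ZK F s ≠ ⊤ := by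
    have h2 := Pool.Agent.CG3.GalAux.Zf_ne_top
      (fun v : Pl F => (Ideal.absNorm v.asIdeal : ℝ) ^ (-s)) (fun v => by positivity) ?_
      (GalDensAux.summable_all F hs)
    · exact h2
    · intro v
      have h2 : (2 : ℝ) ≤ (Ideal.absNorm v.asIdeal : ℝ) := by
        exact_mod_cast Pool.Agent.CG3.GalAux.two_le_absNorm F v
      calc (Ideal.absNorm v.asIdeal : ℝ) ^ (-s) ≤ (Ideal.absNorm v.asIdeal : ℝ) ^ (-1 : ℝ) :=
            Real.rpow_le_rpow_of_exponent_le (by linarith) (by linarith)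
        _ ≤ 1 / 2 := by
            rw [Real.rpow_neg_one, one_div]
            exact inv_anti₀ (by norm_num) h2
  rw [Pool.Agent.CG3.GalAux.ZK_eq F s (by linarith)] at h1
  unfold Pool.Agent.CG3.GalAux.wt at h1
  have h3 := ENNReal.summable_toReal h1
  refine h3.congr fun I => ?_
  rw [ENNReal.toReal_ofReal (by positivity)]

theorem Zc_summable (m₀ b : Ideal (𝓞 F)) (s : ℝ) (hs : 1 < s) :
    Summable fun I : {I : Ideal (𝓞 F) // InRay m₀ (I * b)} => (Ideal.absNorm I.1 : ℝ) ^ (-s) :=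
  (GalClass_summable_all hs).comp_injective Subtype.val_injective

/-- The homomorphism whose kernel is the group of totally positive units congruent to `1`. -/
def GalClass_hom (m₀ : Ideal (𝓞 F)) :
    (𝓞 F)ˣ →* (𝓞 F ⧸ m₀)ˣ × (RPl F → SignTypeˣ) where
  toFun u := (Units.map (Ideal.Quotient.mk m₀ : 𝓞 F →* 𝓞 F ⧸ m₀) u, fun w =>
    Units.map (signHom : ℝ →*₀ SignType).toMonoidHom
      (Units.map ((InfinitePlace.embedding_of_isReal w.2).comp (algebraMap (𝓞 F) F) :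
        𝓞 F →* ℝ) u))
  map_one' := by
    refine Prod.ext (map_one _) ?_
    funext w
    simp
  map_mul' a b := by
    refine Prod.ext (map_mul _ _ _) ?_
    funext w
    simp

/-- The units which are totally positive and congruent to `1` modulo `m₀`. -/
def GalClass_U (m₀ : Ideal (𝓞 F)) : Subgroup (𝓞 F)ˣ := (GalClass_hom m₀).ker

theorem GalClass_mem_U (m₀ : Ideal (𝓞 F)) (u : (𝓞 F)ˣ) :
    u ∈ GalClass_U m₀ ↔ ((u : 𝓞 F) - 1 ∈ m₀ ∧ TotPos (u : 𝓞 F)) := by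
  rw [GalClass_U, MonoidHom.mem_ker, Prod.ext_iff]
  apply and_congr
  · change Units.map (Ideal.Quotient.mk m₀ : 𝓞 F →* 𝓞 F ⧸ m₀) u = 1 ↔ _
    rw [Units.ext_iff]
    change Ideal.Quotient.mk m₀ (u : 𝓞 F) = 1 ↔ _
    rw [← map_one (Ideal.Quotient.mk m₀), Ideal.Quotient.eq]
  · rw [funext_iff]
    apply forall_congr'
    intro w
    change Units.map (signHom : ℝ →*₀ SignType).toMonoidHom
      (Units.map ((InfinitePlace.embedding_of_isReal w.2).comp (algebraMap (𝓞 F) F) :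
        𝓞 F →* ℝ) u) = 1 ↔ _
    rw [Units.ext_iff]
    change SignType.sign (InfinitePlace.embedding_of_isReal w.2 (((u : 𝓞 F) : F))) = 1 ↔ _
    exact sign_eq_one_iff

theorem GalClass_U_index {m₀ : Ideal (𝓞 F)} (hm : m₀ ≠ ⊥) : (GalClass_U m₀).FiniteIndex := by
  have h1 : Finite (𝓞 F ⧸ m₀) := Ideal.finiteQuotientOfFreeOfNeBot m₀ hm
  have h2 : Finite ((𝓞 F ⧸ m₀)ˣ × (RPl F → SignTypeˣ)) := inferInstance
  exact Subgroup.finiteIndex_ker _

/-- The lattice of an ideal. -/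
def GalClass_lat (J : Ideal (𝓞 F)) (hJ : J ≠ ⊥) : AddSubgroup (mixedSpace F) :=
  (mixedEmbedding.idealLattice F (FractionalIdeal.mk0 F
    ⟨J, mem_nonZeroDivisors_iff_ne_zero.2 hJ⟩)).toAddSubgroup

theorem GalClass_mem_lat {J : Ideal (𝓞 F)} (hJ : J ≠ ⊥) (x : mixedSpace F) :
    x ∈ GalClass_lat J hJ ↔ ∃ a ∈ J, x = mixedEmbedding F (a : F) := by
  rw [GalClass_lat, Submodule.mem_toAddSubgroup, mem_idealLattice]
  constructor
  · rintro ⟨y, hy, rfl⟩
    have h1 : y ∈ ((J : FractionalIdeal (nonZeroDivisors (𝓞 F)) F)) := hy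
    rw [FractionalIdeal.mem_coeIdeal] at h1
    obtain ⟨a, ha, rfl⟩ := h1
    exact ⟨a, ha, rfl⟩
  · rintro ⟨a, ha, rfl⟩
    refine ⟨(a : F), ?_, rfl⟩
    change ((a : F)) ∈ ((J : FractionalIdeal (nonZeroDivisors (𝓞 F)) F))
    rw [FractionalIdeal.mem_coeIdeal]
    exact ⟨a, ha, rfl⟩

theorem GalClass_full {J : Ideal (𝓞 F)} (hJ : J ≠ ⊥) : FullLat (GalClass_lat J hJ) := by
  constructor
  · exact (inferInstance : DiscreteTopology (mixedEmbedding.idealLattice F (FractionalIdeal.mk0 F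
      ⟨J, mem_nonZeroDivisors_iff_ne_zero.2 hJ⟩)))
  · exact (inferInstance : IsZLattice ℝ (mixedEmbedding.idealLattice F (FractionalIdeal.mk0 F
      ⟨J, mem_nonZeroDivisors_iff_ne_zero.2 hJ⟩))).span_top

theorem GalClass_norm {a : 𝓞 F} : mixedEmbedding.norm (mixedEmbedding F (a : F)) =
    (Ideal.absNorm (Ideal.span {a}) : ℝ) := by
  rw [norm_eq_norm, Ideal.absNorm_span_singleton, ← Algebra.coe_norm_int, Nat.cast_natAbs]
  push_cast
  rfl

theorem GalClass_orth {a : 𝓞 F} (ha : a ≠ 0) : mixedEmbedding F (a : F) ∈ Orth F ↔ TotPos a := by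
  constructor
  · intro h w
    exact h.1 w
  · intro h
    refine ⟨fun w => h w, fun w => ?_⟩
    have h1 : w.1.embedding (a : F) ≠ 0 := by simpa using ha
    exact h1

theorem GalClass_eq {m₀ : Ideal (𝓞 F)} {H : ℝ → mixedSpace F → ℝ}
    (hH : Hom (mixedSpace F) H) (hsupp : ∀ s x, H s x ≠ 0 → x ∈ Orth F)
    (hsum : ∀ s ∈ Set.Ioc (1 : ℝ) 2, ∀ x ∈ Orth F,
        Summable (fun u : GalClass_U m₀ => H s (mixedEmbedding F (((u : (𝓞 F)ˣ) : 𝓞 F) : F) * x)) ∧
        ∑' u : GalClass_U m₀, H s (mixedEmbedding F (((u : (𝓞 F)ˣ) : 𝓞 F) : F) * x) =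
          mixedEmbedding.norm x ^ (-s)) {b : Ideal (𝓞 F)} (hb : b ≠ ⊥) (hbm : b * m₀ ≠ ⊥)
    (hc : IsCoprime b m₀) {a₀ : 𝓞 F} (ha₀ : a₀ ∈ b) (ha₀' : a₀ - 1 ∈ m₀) {s : ℝ}
    (hs : s ∈ Set.Ioc (1 : ℝ) 2) :
    Zc m₀ b s = (Ideal.absNorm b : ℝ) ^ s *
      Zs H (GalClass_lat (b * m₀) hbm) (mixedEmbedding F (a₀ : F)) s := by
  have hinf : b ⊓ m₀ = b * m₀ := (Ideal.mul_eq_inf_of_isCoprime hc).symm
  let J := {I : Ideal (𝓞 F) // InRay m₀ (I * b)}
  let g : J → 𝓞 F := fun I => I.2.choose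
  have hg0 : ∀ I, g I ≠ 0 := fun I => I.2.choose_spec.1
  have hg1 : ∀ I, g I - 1 ∈ m₀ := fun I => I.2.choose_spec.2.1
  have hgp : ∀ I, TotPos (g I) := fun I => I.2.choose_spec.2.2.1
  have hgs : ∀ I : J, I.1 * b = Ideal.span {g I} := fun I => I.2.choose_spec.2.2.2
  have hgb : ∀ I : J, g I ∈ b := by
    intro I
    have h1 : g I ∈ I.1 * b := by rw [hgs I]; exact Ideal.mem_span_singleton_self _
    exact Ideal.mul_le_right h1
  let a : J × GalClass_U m₀ → 𝓞 F := fun p => ((p.2 : (𝓞 F)ˣ) : 𝓞 F) * g p.1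
  have haB : ∀ p, a p - a₀ ∈ b * m₀ := by
    intro p
    rw [← hinf]
    refine ⟨b.sub_mem (b.mul_mem_left _ (hgb p.1)) ha₀, ?_⟩
    have h1 : a p - a₀ = ((p.2 : (𝓞 F)ˣ) : 𝓞 F) * (g p.1 - 1) + (((p.2 : (𝓞 F)ˣ) : 𝓞 F) - 1)
        - (a₀ - 1) := by
      change ((p.2 : (𝓞 F)ˣ) : 𝓞 F) * g p.1 - a₀ = _
      ring
    rw [h1]
    exact m₀.sub_mem (m₀.add_mem (m₀.mul_mem_left _ (hg1 _))
      ((GalClass_mem_U m₀ _).1 p.2.2).1) ha₀'
  let i : J × GalClass_U m₀ → GalClass_lat (b * m₀) hbm := fun p =>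
    ⟨mixedEmbedding F ((a p - a₀ : 𝓞 F) : F), (GalClass_mem_lat hbm _).2 ⟨_, haB p, rfl⟩⟩
  have hval : ∀ p, mixedEmbedding F (a₀ : F) + (i p : mixedSpace F) =
      mixedEmbedding F ((a p : 𝓞 F) : F) := by
    intro p
    change mixedEmbedding F (a₀ : F) + mixedEmbedding F ((a p - a₀ : 𝓞 F) : F) = _
    rw [← map_add]
    congr 1
    push_cast
    ring
  have hainj : Function.Injective a := by
    rintro ⟨I, u⟩ ⟨I', u'⟩ h
    have h1 : Ideal.span {g I} = Ideal.span {g I'} := by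
      have h2 : Ideal.span {a (I, u)} = Ideal.span {g I} :=
        Ideal.span_singleton_mul_left_unit (u : (𝓞 F)ˣ).isUnit _
      have h3 : Ideal.span {a (I', u')} = Ideal.span {g I'} :=
        Ideal.span_singleton_mul_left_unit (u' : (𝓞 F)ˣ).isUnit _
      rw [← h2, ← h3, h]
    rw [← hgs, ← hgs] at h1
    have h2 : I = I' := Subtype.ext (mul_right_cancel₀ hb h1)
    subst h2
    have h3 : ((u : (𝓞 F)ˣ) : 𝓞 F) = ((u' : (𝓞 F)ˣ) : 𝓞 F) := mul_right_cancel₀ (hg0 I) h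
    have h4 : u = u' := Subtype.ext (Units.ext h3)
    rw [h4]
  have hiinj : Function.Injective i := by
    intro p q h
    apply hainj
    have h1 := congrArg (fun x : GalClass_lat (b * m₀) hbm =>
      mixedEmbedding F (a₀ : F) + (x : mixedSpace F)) h
    simp only [hval] at h1
    exact RingOfIntegers.ext (mixedEmbedding_injective F h1)
  have hrange : ∀ x : GalClass_lat (b * m₀) hbm, x ∉ Set.range i →
      H s (mixedEmbedding F (a₀ : F) + (x : mixedSpace F)) = 0 := by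
    intro x hx
    by_contra hne
    apply hx
    have horth := hsupp s _ hne
    obtain ⟨c, hc1, hc2⟩ := (GalClass_mem_lat hbm _).1 x.2
    have h1 : mixedEmbedding F (a₀ : F) + (x : mixedSpace F) =
        mixedEmbedding F ((a₀ + c : 𝓞 F) : F) := by
      rw [hc2, ← map_add]
      congr 1
    rw [h1] at horth
    have hd0 : a₀ + c ≠ 0 := by
      intro h0
      apply hne
      rw [h1, h0]
      have h00 : mixedEmbedding F ((0 : 𝓞 F) : F) = 0 := by simp
      rw [h00]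
      exact hH.zero s
    rw [GalClass_orth hd0] at horth
    rw [← hinf] at hc1
    have hdb : a₀ + c ∈ b := b.add_mem ha₀ hc1.1
    have hdm : a₀ + c - 1 ∈ m₀ := by
      have : a₀ + c - 1 = (a₀ - 1) + c := by ring
      rw [this]
      exact m₀.add_mem ha₀' hc1.2
    obtain ⟨I, hI⟩ := Ideal.dvd_iff_le.2 ((Ideal.span_singleton_le_iff_mem b).2 hdb)
    have hray : InRay m₀ (I * b) := ⟨a₀ + c, hd0, hdm, horth, by rw [mul_comm, hI]⟩
    let I' : J := ⟨I, hray⟩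
    have hsp : Ideal.span {a₀ + c} = Ideal.span {g I'} := by
      rw [← hgs I', hI, mul_comm]
    obtain ⟨u, hu⟩ := (Ideal.span_singleton_eq_span_singleton.1 hsp.symm)
    have huU : u ∈ GalClass_U m₀ := by
      rw [GalClass_mem_U]
      constructor
      · have h2 : (u : 𝓞 F) - 1 = (g I' * u - 1) - (g I' - 1) * u := by ring
        rw [h2, hu]
        exact m₀.sub_mem hdm (m₀.mul_mem_right _ (hg1 I'))
      · intro w
        have h2 := horth w
        have h3 := hgp I' w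
        rw [← hu] at h2
        push_cast at h2
        rw [map_mul] at h2
        exact (pos_iff_pos_of_mul_pos h2).1 h3
    refine ⟨(I', ⟨u, huU⟩), ?_⟩
    apply Subtype.ext
    have h4 := hval (I', ⟨u, huU⟩)
    have h5 : a (I', ⟨u, huU⟩) = a₀ + c := by
      rw [← hu]
      exact mul_comm _ _
    rw [h5, ← h1] at h4
    exact add_left_cancel h4
  have hZs := Zs_summable hH (GalClass_full hbm) (mixedEmbedding F (a₀ : F)) hs
  have hS1 : Summable (fun p : J × GalClass_U m₀ => H s (mixedEmbedding F ((a p : 𝓞 F) : F))) := by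
    have h1 := hZs.comp_injective hiinj
    refine h1.congr fun p => ?_
    simp only [Function.comp, hval]
  have hfun : ∀ p : J × GalClass_U m₀, H s (mixedEmbedding F ((a p : 𝓞 F) : F)) =
      H s (mixedEmbedding F (((p.2 : (𝓞 F)ˣ) : 𝓞 F) : F) * mixedEmbedding F (g p.1 : F)) := by
    intro p
    rw [← map_mul]
    rfl
  have horthg : ∀ I : J, mixedEmbedding F (g I : F) ∈ Orth F := fun I =>
    (GalClass_orth (hg0 I)).2 (hgp I)
  have h1 : Zs H (GalClass_lat (b * m₀) hbm) (mixedEmbedding F (a₀ : F)) s =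
      ∑' p : J × GalClass_U m₀, H s (mixedEmbedding F ((a p : 𝓞 F) : F)) := by
    rw [Zs, ← hiinj.tsum_eq (f := fun x : GalClass_lat (b * m₀) hbm =>
      H s (mixedEmbedding F (a₀ : F) + (x : mixedSpace F)))]
    · exact tsum_congr fun p => by rw [hval]
    · intro x hx
      by_contra h
      exact hx (hrange x h)
  have hNb : (0 : ℝ) < (Ideal.absNorm b : ℝ) := by
    exact_mod_cast Nat.pos_of_ne_zero (by rw [ne_eq, Ideal.absNorm_eq_zero_iff]; exact hb)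
  have h2 : ∀ I : J, ∑' u : GalClass_U m₀, H s (mixedEmbedding F ((a (I, u) : 𝓞 F) : F)) =
      (Ideal.absNorm I.1 : ℝ) ^ (-s) * (Ideal.absNorm b : ℝ) ^ (-s) := by
    intro I
    simp only [hfun]
    rw [(hsum s hs _ (horthg I)).2, GalClass_norm, ← hgs I, map_mul, Nat.cast_mul,
      Real.mul_rpow (by positivity) (by positivity)]
  rw [h1, hS1.tsum_prod' fun I => by
    simp only [hfun]
    exact (hsum s hs _ (horthg I)).1]
  simp only [h2]
  rw [tsum_mul_right, Real.rpow_neg hNb.le, Zc]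
  have h3 : (Ideal.absNorm b : ℝ) ^ s ≠ 0 := (Real.rpow_pos_of_pos hNb s).ne'
  field_simp
  rfl

theorem GalClass_exists (m₀ : Ideal (𝓞 F)) (hm : m₀ ≠ ⊥) : ∃ H : ℝ → mixedSpace F → ℝ,
    Hom (mixedSpace F) H ∧ ∀ b : Ideal (𝓞 F), b ≠ ⊥ → IsCoprime b m₀ → ∀ hbm : b * m₀ ≠ ⊥,
    ∃ a₀ : mixedSpace F, ∀ s ∈ Set.Ioc (1 : ℝ) 2,
      Zc m₀ b s = (Ideal.absNorm b : ℝ) ^ s * Zs H (GalClass_lat (b * m₀) hbm) a₀ s := by
  obtain ⟨H, hH, hsupp, hsum⟩ := exists_omega F (GalClass_U m₀) (GalClass_U_index hm)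
    (fun u hu w => ((GalClass_mem_U m₀ u).1 hu).2 w)
  refine ⟨H, hH, fun b hb hc hbm => ?_⟩
  obtain ⟨x, hx, y, hy, hxy⟩ := Ideal.isCoprime_iff_exists.1 hc
  refine ⟨mixedEmbedding F (x : F), fun s hs => ?_⟩
  refine GalClass_eq hH hsupp hsum hb hbm hc hx ?_ hs
  have : x - 1 = -y := by rw [← hxy]; ring
  rw [this]
  exact m₀.neg_mem hy

/-- The zeta function of a ray class as a lattice sum. -/
theorem Zc_eq (m₀ : Ideal (𝓞 F)) (hm : m₀ ≠ ⊥) : ∃ H : ℝ → mixedSpace F → ℝ,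
    Hom (mixedSpace F) H ∧ ∀ b : Ideal (𝓞 F), b ≠ ⊥ → IsCoprime b m₀ →
    ∃ (Λ : AddSubgroup (mixedSpace F)) (a₀ : mixedSpace F), FullLat Λ ∧
      (Λ : Set (mixedSpace F)) = {x | ∃ a ∈ b * m₀, x = mixedEmbedding F (a : F)} ∧
      ∀ s ∈ Set.Ioc (1 : ℝ) 2, Zc m₀ b s = (Ideal.absNorm b : ℝ) ^ s * Zs H Λ a₀ s := by
  obtain ⟨H, hH, h⟩ := GalClass_exists m₀ hm
  refine ⟨H, hH, fun b hb hc => ?_⟩
  have hbm : b * m₀ ≠ ⊥ := mul_ne_zero hb hm
  obtain ⟨a₀, ha₀⟩ := h b hb hc hbm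
  refine ⟨GalClass_lat (b * m₀) hbm, a₀, GalClass_full hbm, ?_, ha₀⟩
  ext x
  exact GalClass_mem_lat hbm x

theorem GalClass_relIndex {J J' : Ideal (𝓞 F)} (hJ : J ≠ ⊥) (hJ' : J' ≠ ⊥) (h : J' ≤ J) :
    ((GalClass_lat J' hJ').relIndex (GalClass_lat J hJ) : ℝ) * (Ideal.absNorm J : ℝ) =
      (Ideal.absNorm J' : ℝ) := by
  have hmap : ∀ (I : Ideal (𝓞 F)) (hI : I ≠ ⊥), GalClass_lat I hI =
      (Submodule.toAddSubgroup I).map
        (((mixedEmbedding F).comp (algebraMap (𝓞 F) F) : 𝓞 F →+* mixedSpace F) :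
          𝓞 F →+ mixedSpace F) := by
    intro I hI
    ext x
    rw [GalClass_mem_lat hI, AddSubgroup.mem_map]
    constructor
    · rintro ⟨a, ha, rfl⟩
      exact ⟨a, ha, rfl⟩
    · rintro ⟨a, ha, rfl⟩
      exact ⟨a, ha, rfl⟩
  have hinj : Function.Injective (((mixedEmbedding F).comp (algebraMap (𝓞 F) F) :
      𝓞 F →+* mixedSpace F) : 𝓞 F →+ mixedSpace F) :=
    (mixedEmbedding_injective F).comp RingOfIntegers.coe_injective
  rw [hmap J hJ, hmap J' hJ', AddSubgroup.relIndex_map_map_of_injective _ _ hinj]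
  have h1 : ∀ I : Ideal (𝓞 F), (Submodule.toAddSubgroup I).index = Ideal.absNorm I := by
    intro I
    rw [Ideal.absNorm_apply, Submodule.cardQuot_apply]
    rfl
  rw [← h1, ← h1, ← Nat.cast_mul]
  congr 1
  apply AddSubgroup.relIndex_mul_index
  exact h

/-- The zeta functions of two ray classes differ by a Lipschitz function. -/
theorem Zc_diff (m₀ : Ideal (𝓞 F)) (hm : m₀ ≠ ⊥) (b b' : Ideal (𝓞 F)) (hb : b ≠ ⊥)
    (hb' : b' ≠ ⊥) (hc : IsCoprime b m₀) (hc' : IsCoprime b' m₀) :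
    Lip fun s => Zc m₀ b s - Zc m₀ b' s := by
  obtain ⟨H, hH, h⟩ := GalClass_exists m₀ hm
  have hbm : b * m₀ ≠ ⊥ := mul_ne_zero hb hm
  have hbm' : b' * m₀ ≠ ⊥ := mul_ne_zero hb' hm
  have hbb : b * b' * m₀ ≠ ⊥ := mul_ne_zero (mul_ne_zero hb hb') hm
  have hle : b * b' * m₀ ≤ b * m₀ := by
    have : b * b' * m₀ = b' * (b * m₀) := by ring
    rw [this]
    exact Ideal.mul_le_right
  have hle' : b * b' * m₀ ≤ b' * m₀ := by
    rw [mul_assoc]
    exact Ideal.mul_le_right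
  have hN : ∀ c : Ideal (𝓞 F), c ≠ ⊥ → (0 : ℝ) < (Ideal.absNorm c : ℝ) := by
    intro c hc0
    exact_mod_cast Nat.pos_of_ne_zero (by rw [ne_eq, Ideal.absNorm_eq_zero_iff]; exact hc0)
  have hNb := hN b hb
  have hNb' := hN b' hb'
  have hNm := hN m₀ hm
  obtain ⟨a₀, ha₀⟩ := h b hb hc hbm
  obtain ⟨a₀', ha₀'⟩ := h b' hb' hc' hbm'
  set L := GalClass_lat (b * m₀) hbm with hL
  set L' := GalClass_lat (b' * m₀) hbm' with hL'
  set L'' := GalClass_lat (b * b' * m₀) hbb with hL''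
  have hlat : L'' ≤ L := by
    intro x hx
    obtain ⟨a, ha, rfl⟩ := (GalClass_mem_lat hbb _).1 hx
    exact (GalClass_mem_lat hbm _).2 ⟨a, hle ha, rfl⟩
  have hlat' : L'' ≤ L' := by
    intro x hx
    obtain ⟨a, ha, rfl⟩ := (GalClass_mem_lat hbb _).1 hx
    exact (GalClass_mem_lat hbm' _).2 ⟨a, hle' ha, rfl⟩
  have hidx : (L''.relIndex L : ℝ) = (Ideal.absNorm b' : ℝ) := by
    have h1 := GalClass_relIndex hbm hbb hle
    simp only [map_mul, Nat.cast_mul] at h1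
    have h2 : (L''.relIndex L : ℝ) * ((Ideal.absNorm b : ℝ) * (Ideal.absNorm m₀ : ℝ)) =
        (Ideal.absNorm b' : ℝ) * ((Ideal.absNorm b : ℝ) * (Ideal.absNorm m₀ : ℝ)) := by
      rw [h1]; ring
    exact mul_right_cancel₀ (mul_pos hNb hNm).ne' h2
  have hidx' : (L''.relIndex L' : ℝ) = (Ideal.absNorm b : ℝ) := by
    have h1 := GalClass_relIndex hbm' hbb hle'
    simp only [map_mul, Nat.cast_mul] at h1
    have h2 : (L''.relIndex L' : ℝ) * ((Ideal.absNorm b' : ℝ) * (Ideal.absNorm m₀ : ℝ)) =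
        (Ideal.absNorm b : ℝ) * ((Ideal.absNorm b' : ℝ) * (Ideal.absNorm m₀ : ℝ)) := by
      rw [h1]; ring
    exact mul_right_cancel₀ (mul_pos hNb' hNm).ne' h2
  have hfin : 0 < Module.finrank ℝ (mixedSpace F) := by
    rw [mixedEmbedding.finrank]
    exact Module.finrank_pos
  have k1 := (Zs_coset hH (GalClass_full hbm) a₀ 0).mul (Lip.rpow hNb)
  have k2 := (Zs_coset hH (GalClass_full hbm') a₀' 0).mul (Lip.rpow hNb')
  have k3 := (Zs_index hH (GalClass_full hbm) (GalClass_full hbb) hlat).mul (Lip.rpow hNb)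
  have k4 := (Zs_index hH (GalClass_full hbm') (GalClass_full hbb) hlat').mul (Lip.rpow hNb')
  have k5 := (Lip.quot hNb hNb').mul (Zs_pole hH (GalClass_full hbb) hfin)
  refine (((k1.add k3).sub (k2.add k4)).add k5).congr' ?_
  intro s hs
  have h1 : s - 1 ≠ 0 := by linarith [hs.1]
  rw [ha₀ s hs, ha₀' s hs, hidx, hidx']
  field_simp
  ring

end Pool.Agent.CG2
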