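import Pool.Agent.CG2.GalFin2
import Pool.Agent.CG2.Iface

/-!
# The density of the places with given Frobenius division: quotients of the absolute Galois group
-/

noncomputable section

namespace Pool.Agent.CG2

open NumberField IsDedekindDomain

variable {F : Type} [Field F] [NumberField F]

namespace GalInfAux

open scoped Pointwise

instance algFbar : Algebra.IsAlgebraic F (Fbar F) := AlgebraicClosure.isAlgebraic F

instance galFbar : IsGalois F (Fbar F) := IsAlgClosure.isGalois F (Fbar F)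

theorem coe_smul_Zbar (g : GalF F) (x : Zbar F) : ((g • x : Zbar F) : Fbar F) = g (x : Fbar F) :=
  rfl

theorem isFrob_iff (v : Pl F) (Q : Ideal (Zbar F)) (σ : GalF F) :
    IsFrob v Q σ ↔ ∀ x : Zbar F, σ • x - x ^ Nm v ∈ Q := by
  constructor
  · intro h x
    exact h x (σ • x) rfl
  · intro h x y hy
    have : y = σ • x := Subtype.ext hy
    rw [this]
    exact h x

theorem isInertia_iff (Q : Ideal (Zbar F)) (σ : GalF F) :
    IsInertia Q σ ↔ ∀ x : Zbar F, σ • x - x ∈ Q := by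
  constructor
  · intro h x
    exact h x (σ • x) rfl
  · intro h x y hy
    have : y = σ • x := Subtype.ext hy
    rw [this]
    exact h x

section K

variable (F) (K : Type) [Field K] [NumberField K] [Algebra K (Fbar F)]

/-- The integers of `K` as algebraic integers. -/
def inc : 𝓞 K →+* Zbar F where
  toFun x := ⟨algebraMap K (Fbar F) (x : K), by
    have h : IsIntegral ℤ (x : K) := x.2
    exact h.algebraMap⟩
  map_one' := by apply Subtype.ext; simp
  map_mul' x y := by apply Subtype.ext; simp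
  map_zero' := by apply Subtype.ext; simp
  map_add' x y := by apply Subtype.ext; simp

theorem coe_inc (x : 𝓞 K) : ((inc F K x : Zbar F) : Fbar F) = algebraMap K (Fbar F) (x : K) := rfl

theorem inc_injective : Function.Injective (inc F K) := by
  intro x y h
  have h1 := congrArg (Subtype.val) h
  rw [coe_inc, coe_inc] at h1
  exact RingOfIntegers.ext ((algebraMap K (Fbar F)).injective h1)

theorem exists_over (P : Ideal (𝓞 K)) [P.IsPrime] :
    ∃ Q : Ideal (Zbar F), Q.IsPrime ∧ Q.comap (inc F K) = P := by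
  letI := (inc F K).toAlgebra
  have hint : Algebra.IsIntegral (𝓞 K) (Zbar F) := by
    constructor
    intro x
    have h1 : IsIntegral ℤ x := by
      have := x.2
      exact (isIntegral_algebraMap_iff
        (Subtype.val_injective : Function.Injective (algebraMap (Zbar F) (Fbar F)))).1 this
    exact h1.tower_top
  obtain ⟨Q, _, h1, h2⟩ := Ideal.exists_ideal_over_prime_of_isIntegral P (⊥ : Ideal (Zbar F)) (by
    intro x hx
    have : inc F K x = 0 := hx
    have : x = 0 := inc_injective F K (by rw [this, map_zero])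
    rw [this]
    exact P.zero_mem)
  exact ⟨Q, h1, h2⟩

variable {F K}

/-- `K` is the fixed field of `H`. -/
def Fix (H : Subgroup (GalF F)) (K : Type) [Field K] [Algebra K (Fbar F)] : Prop :=
  ∀ x : Fbar F, (∀ h ∈ H, h x = x) ↔ x ∈ Set.range (algebraMap K (Fbar F))

variable {H : Subgroup (GalF F)}

theorem fix_inc (hH : Fix H K) (h : H) (x : 𝓞 K) : h • inc F K x = inc F K x := by
  apply Subtype.ext
  exact (hH _).2 ⟨_, rfl⟩ h.1 h.2

theorem invariant (hH : Fix H K) (x : Zbar F) (hx : ∀ h : H, h • x = x) :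
    ∃ y : 𝓞 K, inc F K y = x := by
  have h1 : (x : Fbar F) ∈ Set.range (algebraMap K (Fbar F)) := by
    rw [← hH]
    intro h hh
    exact congrArg Subtype.val (hx ⟨h, hh⟩)
  obtain ⟨y, hy⟩ := h1
  have h2 : IsIntegral ℤ (x : Fbar F) := x.2
  rw [← hy, isIntegral_algebraMap_iff (algebraMap K (Fbar F)).injective] at h2
  refine ⟨⟨y, h2⟩, ?_⟩
  apply Subtype.ext
  rw [coe_inc]
  exact hy

theorem contSMul (F : Type) [Field F] [NumberField F] :
    @ContinuousSMul (GalF F) (Zbar F) _ _ ⊥ := by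
  letI : TopologicalSpace (Zbar F) := ⊥
  have : DiscreteTopology (Zbar F) := ⟨rfl⟩
  rw [continuousSMul_iff_stabilizer_isOpen]
  intro x
  have h1 : (MulAction.stabilizer (GalF F) x : Set (GalF F)) =
      MulAction.stabilizer (GalF F) (x : Fbar F) := by
    ext g
    simp only [SetLike.mem_coe, MulAction.mem_stabilizer_iff]
    constructor
    · intro h
      exact congrArg Subtype.val h
    · intro h
      exact Subtype.ext h
  rw [h1]
  exact stabilizer_isOpen_of_isIntegral (x : Fbar F)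

theorem trans_H (hc : IsClosed (H : Set (GalF F))) (hH : Fix H K) (Q Q' : Ideal (Zbar F))
    [Q.IsPrime] [Q'.IsPrime] (h : Q.comap (inc F K) = Q'.comap (inc F K)) :
    ∃ g ∈ H, Q' = g • Q := by
  letI := (inc F K).toAlgebra
  letI : TopologicalSpace (Zbar F) := ⊥
  have : DiscreteTopology (Zbar F) := ⟨rfl⟩
  have hcs : ContinuousSMul (GalF F) (Zbar F) := contSMul F
  have hcomp : CompactSpace H := isCompact_iff_compactSpace.1 hc.isCompact
  have hcomm : SMulCommClass H (𝓞 K) (Zbar F) := by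
    constructor
    intro g a x
    rw [Algebra.smul_def, Algebra.smul_def, smul_mul']
    congr 1
    exact fix_inc hH g a
  have hinv : Algebra.IsInvariant (𝓞 K) (Zbar F) H := ⟨invariant hH⟩
  obtain ⟨g, hg⟩ := Algebra.IsInvariant.exists_smul_of_under_eq_of_profinite
    (A := 𝓞 K) (G := H) Q Q' h
  exact ⟨g.1, g.2, hg⟩

theorem surj_H (hc : IsClosed (H : Set (GalF F))) (hH : Fix H K) (Q : Ideal (Zbar F))
    [Q.IsPrime] (φ : (Zbar F ⧸ Q) ≃+* (Zbar F ⧸ Q))
    (hφ : ∀ a : 𝓞 K, φ (Ideal.Quotient.mk Q (inc F K a)) = Ideal.Quotient.mk Q (inc F K a)) :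
    ∃ g ∈ H, ∀ x : Zbar F, Ideal.Quotient.mk Q (g • x) = φ (Ideal.Quotient.mk Q x) := by
  letI := (inc F K).toAlgebra
  letI : TopologicalSpace (Zbar F) := ⊥
  have : DiscreteTopology (Zbar F) := ⟨rfl⟩
  have hcs : ContinuousSMul (GalF F) (Zbar F) := contSMul F
  have hcomp : CompactSpace H := isCompact_iff_compactSpace.1 hc.isCompact
  have hcomm : SMulCommClass H (𝓞 K) (Zbar F) := by
    constructor
    intro g a x
    rw [Algebra.smul_def, Algebra.smul_def, smul_mul']
    congr 1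
    exact fix_inc hH g a
  have hinv : Algebra.IsInvariant (𝓞 K) (Zbar F) H := ⟨invariant hH⟩
  let P : Ideal (𝓞 K) := Q.under (𝓞 K)
  let ψ : (Zbar F ⧸ Q) ≃ₐ[𝓞 K ⧸ P] (Zbar F ⧸ Q) :=
    AlgEquiv.ofRingEquiv (f := φ) (by
      intro r
      obtain ⟨n, rfl⟩ := Ideal.Quotient.mk_surjective r
      exact hφ n)
  obtain ⟨s, hs⟩ := Ideal.Quotient.stabilizerHom_surjective_of_profinite (G := H) P Q ψ
  refine ⟨s.1.1, s.1.2, fun x => ?_⟩
  exact DFunLike.congr_fun hs (Ideal.Quotient.mk Q x)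

theorem comap_prime_eq {v : Pl F} {Q : Ideal (Zbar F)} (h : Over v Q) :
    Q.comap (inc F F) = v.asIdeal := by
  have hQ := h.1
  have h1 : v.asIdeal ≤ Q.comap (inc F F) := fun a ha => h.2 a ha _ rfl
  exact (v.isMaximal.eq_of_le (Ideal.IsPrime.ne_top inferInstance) h1).symm

theorem over_of_comap {v : Pl F} {Q : Ideal (Zbar F)} (hQ : Q.IsPrime)
    (h : Q.comap (inc F F) = v.asIdeal) : Over v Q := by
  refine ⟨hQ, fun a ha x hx => ?_⟩
  have h1 : x = inc F F a := Subtype.ext hx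
  rw [h1]
  rw [← h] at ha
  exact ha

theorem fix_top (F : Type) [Field F] [NumberField F] : Fix (⊤ : Subgroup (GalF F)) F := by
  intro x
  have h := InfiniteGalois.mem_range_algebraMap_iff_fixed (k := F) (K := Fbar F) x
  constructor
  · intro h1
    exact h.2 fun g => h1 g trivial
  · intro h1 g _
    exact h.1 h1 g

/-- The Frobenius automorphism of the residue ring. -/
theorem exists_frob_quot (P : Pl K) (Q : Ideal (Zbar F)) [Q.IsPrime]
    (h : Q.comap (inc F K) = P.asIdeal) :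
    ∃ φ : (Zbar F ⧸ Q) ≃+* (Zbar F ⧸ Q),
      (∀ x, φ x = x ^ (Ideal.absNorm P.asIdeal)) ∧
      ∀ a : 𝓞 K, φ (Ideal.Quotient.mk Q (inc F K a)) = Ideal.Quotient.mk Q (inc F K a) := by
  obtain ⟨p, hp, hpP, f, hf1, hf⟩ := Pool.Agent.CG3.GalAux.exists_char K P
  have hm : ((p : ℕ) : Zbar F) ∈ Q := by
    have h2 : ((p : ℕ) : 𝓞 K) ∈ Q.comap (inc F K) := by rw [h]; exact hpP
    rw [Ideal.mem_comap, map_natCast] at h2
    exact h2
  have hchar : CharP (Zbar F ⧸ Q) p := by
    obtain ⟨q, hq⟩ := CharP.exists (Zbar F ⧸ Q)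
    have h0 : ((p : ℕ) : Zbar F ⧸ Q) = 0 := by
      rw [← map_natCast (Ideal.Quotient.mk Q)]
      exact Ideal.Quotient.eq_zero_iff_mem.2 hm
    have h2 : q ∣ p := (CharP.cast_eq_zero_iff (Zbar F ⧸ Q) q p).1 h0
    rcases (Nat.dvd_prime hp).1 h2 with h3 | h3
    · subst h3
      have h4 : ((1 : ℕ) : Zbar F ⧸ Q) = 0 := CharP.cast_eq_zero _ 1
      rw [Nat.cast_one] at h4
      exact absurd h4 one_ne_zero
    · exact h3 ▸ hq
  have hExp : ExpChar (Zbar F ⧸ Q) p := .prime hp
  have hq0 : Ideal.absNorm P.asIdeal ≠ 0 := by rw [hf]; exact pow_ne_zero _ hp.ne_zero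
  have hpw : ∀ x : Zbar F ⧸ Q, iterateFrobenius (Zbar F ⧸ Q) p f x =
      x ^ (Ideal.absNorm P.asIdeal) := by
    intro x
    rw [iterateFrobenius_def, hf]
  have hinj : Function.Injective (iterateFrobenius (Zbar F ⧸ Q) p f) := by
    rw [injective_iff_map_eq_zero]
    intro x hx
    rw [hpw] at hx
    exact pow_eq_zero_iff hq0 |>.1 hx
  have hsurj : Function.Surjective (iterateFrobenius (Zbar F ⧸ Q) p f) := by
    intro a
    obtain ⟨x, rfl⟩ := Ideal.Quotient.mk_surjective a
    obtain ⟨z, hz⟩ := IsAlgClosed.exists_pow_nat_eq (x : Fbar F) (Nat.pos_of_ne_zero hq0)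
    have hz' : IsIntegral ℤ z := by
      apply IsIntegral.of_pow (Nat.pos_of_ne_zero hq0)
      rw [hz]
      exact x.2
    refine ⟨Ideal.Quotient.mk Q ⟨z, hz'⟩, ?_⟩
    rw [hpw, ← map_pow]
    congr 1
    exact Subtype.ext hz
  refine ⟨RingEquiv.ofBijective _ ⟨hinj, hsurj⟩, hpw, fun a => ?_⟩
  change iterateFrobenius (Zbar F ⧸ Q) p f _ = _
  rw [hpw, ← map_pow, ← map_pow, Ideal.Quotient.eq, ← map_sub, ← Ideal.mem_comap, h,
    ← Ideal.Quotient.eq, map_pow]
  have hmax := P.isMaximal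
  have hfin : Finite (𝓞 K ⧸ P.asIdeal) := GalFinAux.finite_quot P
  letI := Ideal.Quotient.field P.asIdeal
  letI := Fintype.ofFinite (𝓞 K ⧸ P.asIdeal)
  rw [GalFinAux.absNorm_eq_card, Nat.card_eq_fintype_card]
  exact FiniteField.pow_card _

theorem exists_frob_above (v : Pl F) (Q : Ideal (Zbar F)) (h : Over v Q) :
    ∃ σ : GalF F, ∀ x : Zbar F, σ • x - x ^ Nm v ∈ Q := by
  have hQ := h.1
  obtain ⟨φ, h1, h2⟩ := exists_frob_quot v Q (comap_prime_eq h)
  obtain ⟨g, _, hg⟩ := surj_H (H := ⊤) isClosed_univ (fix_top F) Q φ h2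
  refine ⟨g, fun x => ?_⟩
  rw [← Ideal.Quotient.eq, hg, h1, map_pow]
  rfl

/-- A Frobenius element at `Q` stabilises `Q`. -/
theorem mem_iff_of_frob {Q : Ideal (Zbar F)} [hQ : Q.IsPrime] {σ : GalF F} {n : ℕ}
    (h : ∀ x : Zbar F, σ • x - x ^ n ∈ Q) (hn : n ≠ 0) (x : Zbar F) : σ • x ∈ Q ↔ x ∈ Q := by
  constructor
  · intro h1
    have h2 := Q.sub_mem h1 (h x)
    rw [sub_sub_cancel] at h2
    exact hQ.mem_of_pow_mem _ h2
  · intro h1
    have h2 := Q.add_mem (h x) (Q.pow_mem_of_mem h1 n (Nat.pos_of_ne_zero hn))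
    rwa [sub_add_cancel] at h2

theorem Nm_ne (v : Pl F) : Nm v ≠ 0 := by
  have := GalFinAux.two_le_N v
  unfold Nm
  omega

end K

section L

variable (L : IntermediateField F (Fbar F)) [NumberField L]

theorem fix_L : Fix L.fixingSubgroup L := by
  intro x
  constructor
  · intro h
    have h1 : x ∈ IntermediateField.fixedField L.fixingSubgroup := by
      rw [IntermediateField.mem_fixedField_iff]
      intro g hg
      exact h g hg
    rw [InfiniteGalois.fixedField_fixingSubgroup] at h1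
    exact ⟨⟨x, h1⟩, rfl⟩
  · rintro ⟨y, rfl⟩ g hg
    exact hg y

theorem inc_inc (a : 𝓞 F) : inc F L (algebraMap (𝓞 F) (𝓞 L) a) = inc F F a := by
  apply Subtype.ext
  rw [coe_inc, coe_inc]
  have : ((algebraMap (𝓞 F) (𝓞 L) a : 𝓞 L) : L) = algebraMap F L (a : F) := rfl
  rw [this]
  exact (IsScalarTower.algebraMap_apply F L (Fbar F) _).symm

theorem lies_iff (P : Pl L) (v : Pl F) (Q : Ideal (Zbar F)) (hQ : Q.IsPrime)
    (h : Q.comap (inc F L) = P.asIdeal) : Lies P v ↔ Over v Q := by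
  have h1 : Q.comap (inc F F) = P.asIdeal.comap (algebraMap (𝓞 F) (𝓞 L)) := by
    rw [← h, Ideal.comap_comap]
    ext a
    rw [Ideal.mem_comap, Ideal.mem_comap, RingHom.comp_apply, inc_inc]
  constructor
  · intro h2
    exact over_of_comap hQ (h1.trans h2)
  · intro h2
    exact h1.symm.trans (comap_prime_eq h2)

variable [Normal F L]

theorem inc_smul (s : GalF F) (x : 𝓞 L) :
    inc F L ((AlgEquiv.restrictNormalHom L s) • x) = s • inc F L x := by
  apply Subtype.ext
  rw [coe_smul_Zbar, coe_inc, coe_inc]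
  have h1 : (((AlgEquiv.restrictNormalHom L s) • x : 𝓞 L) : L) =
      (AlgEquiv.restrictNormalHom L s) (x : L) := by
    have := algebraMap.coe_smul' (B := 𝓞 L) (C := L) (AlgEquiv.restrictNormalHom L s) x
    exact this
  rw [h1]
  exact AlgEquiv.restrictNormal_commutes s L (x : L)

theorem ker_restrict (s : GalF F) :
    AlgEquiv.restrictNormalHom L s = 1 ↔ s ∈ L.fixingSubgroup := by
  rw [← IntermediateField.restrictNormalHom_ker L]
  rfl

/-- An inertia element of `L` lifts to an inertia element of `Fbar`. -/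
theorem lift_inertia (P : Pl L) (Q : Ideal (Zbar F)) [hQ : Q.IsPrime]
    (h : Q.comap (inc F L) = P.asIdeal) (τ : Gal(L/F)) (hτ : ∀ x : 𝓞 L, τ • x - x ∈ P.asIdeal) :
    ∃ σ : GalF F, (∀ x : Zbar F, σ • x - x ∈ Q) ∧ AlgEquiv.restrictNormalHom L σ = τ := by
  have hc : IsClosed (L.fixingSubgroup : Set (GalF F)) := InfiniteGalois.fixingSubgroup_isClosed L
  obtain ⟨σ₀, hσ₀⟩ := AlgEquiv.restrictNormalHom_surjective (F := F) (K₁ := L) (Fbar F) τ
  have hτ' : ∀ x : 𝓞 L, τ • x ∈ P.asIdeal ↔ x ∈ P.asIdeal := by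
    intro x
    constructor
    · intro h1
      have := P.asIdeal.sub_mem h1 (hτ x)
      rwa [sub_sub_cancel] at this
    · intro h1
      have := P.asIdeal.add_mem (hτ x) h1
      rwa [sub_add_cancel] at this
  have hpr : (σ₀ • Q).IsPrime := inferInstance
  have h1 : (σ₀ • Q).comap (inc F L) = Q.comap (inc F L) := by
    ext x
    obtain ⟨y, rfl⟩ : ∃ y, τ • y = x := ⟨τ⁻¹ • x, smul_inv_smul _ _⟩
    rw [Ideal.mem_comap, ← hσ₀, inc_smul, Ideal.smul_mem_pointwise_smul_iff, hσ₀, h, hτ', ← h]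
    rfl
  obtain ⟨δ, hδ, hδQ⟩ := trans_H hc (fix_L L) (σ₀ • Q) Q h1
  set σ₁ := δ * σ₀ with hσ₁
  have h2 : σ₁ • Q = Q := by rw [hσ₁, mul_smul, ← hδQ]
  have h3 : AlgEquiv.restrictNormalHom L σ₁ = τ := by
    rw [hσ₁, map_mul, (ker_restrict L δ).2 hδ, one_mul, hσ₀]
  have h4 : ∀ x : Zbar F, σ₁ • x ∈ Q ↔ x ∈ Q := by
    intro x
    conv_lhs => rw [← h2]
    exact Ideal.smul_mem_pointwise_smul_iff
  let φ : (Zbar F ⧸ Q) ≃+* (Zbar F ⧸ Q) :=
    Ideal.quotientEquiv Q Q (MulSemiringAction.toRingEquiv (GalF F) (Zbar F) σ₁) (by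
      conv_lhs => rw [← h2]
      rfl)
  have hφ : ∀ x : Zbar F, φ (Ideal.Quotient.mk Q x) = Ideal.Quotient.mk Q (σ₁ • x) := fun x => rfl
  obtain ⟨g, hg, hgx⟩ := surj_H hc (fix_L L) Q φ (by
    intro a
    rw [hφ, ← inc_smul, h3, Ideal.Quotient.eq, ← map_sub, ← Ideal.mem_comap, h]
    exact hτ a)
  have h5 : ∀ x : Zbar F, g • x - σ₁ • x ∈ Q := by
    intro x
    rw [← Ideal.Quotient.eq, hgx, hφ]
  have h6 : ∀ x : Zbar F, g • x ∈ Q ↔ x ∈ Q := by
    intro x
    rw [← h4 x]
    constructor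
    · intro h7
      have := Q.sub_mem h7 (h5 x)
      rwa [sub_sub_cancel] at this
    · intro h7
      have := Q.add_mem (h5 x) h7
      rwa [sub_add_cancel] at this
  refine ⟨g⁻¹ * σ₁, fun x => ?_, ?_⟩
  · rw [← h6, smul_sub, mul_smul, smul_inv_smul, ← neg_mem_iff, neg_sub]
    exact h5 x
  · rw [map_mul, map_inv, (ker_restrict L g).2 hg, inv_one, one_mul, h3]

end L

end GalInfAux

open GalInfAux in
theorem exists_frob (v : Pl F) : ∃ Q : Ideal (Zbar F), Over v Q ∧ ∃ σ : GalF F, IsFrob v Q σ := by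
  obtain ⟨Q, hQ, h⟩ := exists_over F F v.asIdeal
  have hov := over_of_comap hQ h
  obtain ⟨σ, hσ⟩ := exists_frob_above v Q hov
  exact ⟨Q, hov, σ, (isFrob_iff v Q σ).2 hσ⟩

open GalInfAux in
open scoped Pointwise in
/-- Two Frobenius elements at the same unramified place are conjugate modulo `N`. -/
theorem frob_conj (N : Subgroup (GalF F)) [N.Normal] (hN : IsOpen (N : Set (GalF F)))
    (v : Pl F) (hun : ∀ Q, Over v Q → ∀ σ : GalF F, IsInertia Q σ → σ ∈ N)
    {Q Q' : Ideal (Zbar F)} (hQ : Over v Q) (hQ' : Over v Q') {σ σ' : GalF F}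
    (hσ : IsFrob v Q σ) (hσ' : IsFrob v Q' σ') :
    ∃ x : GalF F ⧸ N, (QuotientGroup.mk σ' : GalF F ⧸ N) = x * QuotientGroup.mk σ * x⁻¹ := by
  have h1 := hQ.1
  have h2 := hQ'.1
  rw [isFrob_iff] at hσ hσ'
  obtain ⟨g, _, hg⟩ := trans_H (H := ⊤) isClosed_univ (fix_top F) Q Q'
    (by rw [comap_prime_eq hQ, comap_prime_eq hQ'])
  refine ⟨QuotientGroup.mk g, ?_⟩
  have h3 : σ'⁻¹ * (g * σ * g⁻¹) ∈ N := by
    apply hun Q' hQ'
    rw [isInertia_iff]
    intro x
    rw [← mem_iff_of_frob hσ' (Nm_ne v), smul_sub, mul_smul, smul_inv_smul]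
    have h4 : (g * σ * g⁻¹) • x - x ^ Nm v ∈ Q' := by
      rw [hg, Ideal.mem_pointwise_smul_iff_inv_smul_mem, smul_sub, mul_smul, mul_smul,
        inv_smul_smul, smul_pow']
      exact hσ _
    have h5 := Q'.sub_mem h4 (hσ' x)
    rwa [sub_sub_sub_cancel_right] at h5
  rw [← QuotientGroup.mk_mul, ← QuotientGroup.mk_inv, ← QuotientGroup.mk_mul]
  exact QuotientGroup.eq.2 h3

open GalInfAux in
open scoped Pointwise in
/-- Frobenius density theorem. -/
theorem frob_density (N : Subgroup (GalF F)) [N.Normal] (hN : IsOpen (N : Set (GalF F)))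
    (T : Set (Pl F)) (hT : T.Finite)
    (hun : ∀ v, v ∉ T → ∀ Q, Over v Q → ∀ σ : GalF F, IsInertia Q σ → σ ∈ N)
    (A : Set (GalF F ⧸ N))
    (hA : ∀ g ∈ A, ∀ g' : GalF F ⧸ N, Subgroup.zpowers g' = Subgroup.zpowers g → g' ∈ A)
    (hA' : ∀ g ∈ A, ∀ x : GalF F ⧸ N, x * g * x⁻¹ ∈ A) :
    Finite (GalF F ⧸ N) ∧
    HasDen {v : Pl F | v ∉ T ∧ ∃ Q, Over v Q ∧ ∃ σ : GalF F, IsFrob v Q σ ∧
        (QuotientGroup.mk σ : GalF F ⧸ N) ∈ A}
      ((Nat.card A : ℝ) / Nat.card (GalF F ⧸ N)) := by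
  classical
  let L : IntermediateField F (Fbar F) := IntermediateField.fixedField N
  have hNc : IsClosed (N : Set (GalF F)) := N.isClosed_of_isOpen hN
  have hfix : L.fixingSubgroup = N := InfiniteGalois.fixingSubgroup_fixedField ⟨N, hNc⟩
  have hfin : FiniteDimensional F L := by
    rw [← InfiniteGalois.isOpen_iff_finite, hfix]
    exact hN
  have hgal : IsGalois F L :=
    (InfiniteGalois.normal_iff_isGalois L).1 (by rw [hfix]; infer_instance)
  have hNF : NumberField L :=
    { to_charZero := inferInstance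
      to_finiteDimensional := FiniteDimensional.trans ℚ F L }
  have hnorm : Normal F L := inferInstance
  let Nc : ClosedSubgroup (GalF F) := ⟨N, hNc⟩
  have hNn : Nc.1.Normal := inferInstanceAs N.Normal
  let e : GalF F ⧸ N ≃* Gal(L/F) := InfiniteGalois.normalAutEquivQuotient Nc
  have he : ∀ σ : GalF F, e (QuotientGroup.mk σ) = AlgEquiv.restrictNormalHom L σ := fun _ => rfl
  have hfinQ : Finite (GalF F ⧸ N) := Finite.of_equiv _ e.symm.toEquiv
  refine ⟨hfinQ, ?_⟩
  have hker : ∀ s : GalF F, AlgEquiv.restrictNormalHom L s = 1 ↔ s ∈ N := by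
    intro s
    rw [ker_restrict, hfix]
  have hunL : ∀ v, v ∉ T → UnramAt L v := by
    intro v hv P hP τ hτ
    obtain ⟨Q, hQ, hQP⟩ := exists_over F L P.asIdeal
    obtain ⟨σ, h1, h2⟩ := lift_inertia L P Q hQP τ hτ
    rw [← h2, hker]
    exact hun v hv Q ((lies_iff L P v Q hQ hQP).1 hP) σ ((isInertia_iff Q σ).2 h1)
  have key := frob_density_fin (L := L) T hT hunL (e '' A) (by
    rintro _ ⟨a, ha, rfl⟩ g' hg'
    obtain ⟨a', rfl⟩ := e.surjective g'
    refine ⟨a', hA a ha a' ?_, rfl⟩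
    have h1 : (Subgroup.zpowers a').map e.toMonoidHom = (Subgroup.zpowers a).map e.toMonoidHom := by
      rw [MonoidHom.map_zpowers, MonoidHom.map_zpowers]
      exact hg'
    exact Subgroup.map_injective e.injective h1) (by
    rintro _ ⟨a, ha, rfl⟩ x
    obtain ⟨y, rfl⟩ := e.surjective x
    exact ⟨y * a * y⁻¹, hA' a ha y, by simp⟩)
  rw [Nat.card_image_of_injective e.injective, ← Nat.card_congr e.toEquiv] at key
  have hset : {v : Pl F | v ∉ T ∧ ∃ P : Pl L, ∃ σ ∈ e '' A, FrobAt v P σ} =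
      {v : Pl F | v ∉ T ∧ ∃ Q, Over v Q ∧ ∃ σ : GalF F, IsFrob v Q σ ∧
        (QuotientGroup.mk σ : GalF F ⧸ N) ∈ A} := by
    ext v
    constructor
    · rintro ⟨hv, P, t, ⟨a, ha, hat⟩, hl, hF⟩
      refine ⟨hv, ?_⟩
      obtain ⟨Q, hQ, hQP⟩ := exists_over F L P.asIdeal
      have hov := (lies_iff L P v Q hQ hQP).1 hl
      obtain ⟨s, hs⟩ := exists_frob_above v Q hov
      refine ⟨Q, hov, s, (isFrob_iff v Q s).2 hs, ?_⟩
      have h1 : ∀ x : 𝓞 L, (AlgEquiv.restrictNormalHom L s) • x - x ^ Nm v ∈ P.asIdeal := by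
        intro x
        rw [← hQP, Ideal.mem_comap, map_sub, map_pow, inc_smul]
        exact hs _
      have h2 : t⁻¹ * AlgEquiv.restrictNormalHom L s = 1 := by
        apply hunL v hv P hl
        intro x
        set y := (t⁻¹ * AlgEquiv.restrictNormalHom L s) • x - x with hy
        have h3 : t • y ∈ P.asIdeal := by
          rw [hy, smul_sub, mul_smul, smul_inv_smul]
          have hF' : t • x - x ^ Nm v ∈ P.asIdeal := hF x
          have := P.asIdeal.sub_mem (h1 x) hF'
          rwa [sub_sub_sub_cancel_right] at this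
        have h4 : y ^ Nm v ∈ P.asIdeal := by
          have hF' : t • y - y ^ Nm v ∈ P.asIdeal := hF y
          have := P.asIdeal.sub_mem h3 hF'
          rwa [sub_sub_cancel] at this
        exact P.isPrime.mem_of_pow_mem _ h4
      have h5 : e (QuotientGroup.mk s) = e a := by
        rw [he, hat]
        exact (inv_mul_eq_one.1 h2).symm
      rw [e.injective h5]
      exact ha
    · rintro ⟨hv, Q, hov, s, hs, hsA⟩
      refine ⟨hv, ?_⟩
      rw [isFrob_iff] at hs
      have hQ := hov.1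
      have hcF := comap_prime_eq hov
      let P : Pl L :=
        { asIdeal := Q.comap (inc F L)
          isPrime := inferInstance
          ne_bot := by
            intro h0
            apply v.ne_bot
            rw [← hcF, eq_bot_iff]
            intro a ha
            have h1 : algebraMap (𝓞 F) (𝓞 L) a ∈ Q.comap (inc F L) := by
              rw [Ideal.mem_comap, inc_inc]
              exact ha
            rw [h0, Ideal.mem_bot] at h1
            have h2 : inc F F a = 0 := by rw [← inc_inc L, h1, map_zero]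
            rw [Ideal.mem_bot]
            exact inc_injective F F (by rw [h2, map_zero]) }
      refine ⟨P, e (QuotientGroup.mk s), ⟨_, hsA, rfl⟩, (lies_iff L P v Q hQ rfl).2 hov, ?_⟩
      intro x
      rw [he]
      change _ ∈ Q.comap (inc F L)
      rw [Ideal.mem_comap, map_sub, map_pow, inc_smul]
      exact hs _
  rw [hset] at key
  exact key

end Pool.Agent.CG2
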