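import Pool.Agent.CG2.GalClass
import Pool.Agent.CG2.GalDens

/-!
# `L`-functions of narrow ray class characters near `s = 1`
-/

noncomputable section

namespace Pool.Agent.CG2

open NumberField IsDedekindDomain

variable {F : Type} [Field F] [NumberField F]

/-- The multiplicative extension of a function on the finite places to the ideals. -/
def ext (χ : Pl F → ℂ) (I : Ideal (𝓞 F)) : ℂ := ∏ᶠ v : Pl F, χ v ^ expo v I

/-- Complex narrow ray class characters modulo `m₀`. -/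
structure RayChar (m₀ : Ideal (𝓞 F)) (χ : Pl F → ℂ) : Prop where
  zero : ∀ v, m₀ ≤ v.asIdeal → χ v = 0
  abs : ∀ v, ¬ m₀ ≤ v.asIdeal → ‖χ v‖ = 1
  ray : ∀ I : Ideal (𝓞 F), InRay m₀ I → ext χ I = 1

/-! ### Exponents and the multiplicative extension -/

theorem GalL_expo_mul (v : Pl F) {I J : Ideal (𝓞 F)} (hI : I ≠ ⊥) (hJ : J ≠ ⊥) :
    expo v (I * J) = expo v I + expo v J := by
  classical
  unfold expo
  rw [← Associates.mk_mul_mk]
  exact Associates.count_mul (Associates.mk_ne_zero.2 hI) (Associates.mk_ne_zero.2 hJ)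
    v.associates_irreducible

theorem GalL_expo_top (v : Pl F) : expo v (⊤ : Ideal (𝓞 F)) = 0 := by
  classical
  unfold expo
  rw [← Ideal.one_eq_top, Associates.mk_one, Associates.factors_one,
    Associates.count_zero v.associates_irreducible]

theorem GalL_expo_ne_zero (v : Pl F) {I : Ideal (𝓞 F)} (hI : I ≠ ⊥) :
    expo v I ≠ 0 ↔ v.asIdeal ∣ I := by
  classical
  unfold expo
  exact Associates.count_ne_zero_iff_dvd hI v.irreducible

theorem GalL_expo_self (v : Pl F) : expo v v.asIdeal = 1 := by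
  classical
  unfold expo
  exact Associates.count_self v.associates_irreducible

theorem GalL_expo_other {v w : Pl F} (h : v ≠ w) : expo v w.asIdeal = 0 := by
  by_contra hcon
  have h1 := (GalL_expo_ne_zero v w.ne_bot).1 hcon
  have h2 : w.asIdeal ≤ v.asIdeal := Ideal.le_of_dvd h1
  have h3 := (w.isMaximal.eq_of_le v.isPrime.ne_top h2)
  exact h (HeightOneSpectrum.ext h3.symm)

theorem GalL_finite (χ : Pl F → ℂ) {I : Ideal (𝓞 F)} (hI : I ≠ ⊥) :
    (Function.mulSupport fun v : Pl F => χ v ^ expo v I).Finite := by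
  refine (Ideal.finite_factors hI).subset ?_
  intro v hv
  by_contra hcon
  have h1 : expo v I = 0 := by
    by_contra h2
    exact hcon ((GalL_expo_ne_zero v hI).1 h2)
  apply hv
  simp only [h1, pow_zero]

theorem GalL_ext_mul (χ : Pl F → ℂ) {I J : Ideal (𝓞 F)} (hI : I ≠ ⊥) (hJ : J ≠ ⊥) :
    ext χ (I * J) = ext χ I * ext χ J := by
  unfold ext
  rw [← finprod_mul_distrib (GalL_finite χ hI) (GalL_finite χ hJ)]
  refine finprod_congr fun v => ?_
  rw [GalL_expo_mul v hI hJ, pow_add]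

theorem GalL_ext_top (χ : Pl F → ℂ) : ext χ (⊤ : Ideal (𝓞 F)) = 1 := by
  unfold ext
  rw [← finprod_one (α := Pl F)]
  refine finprod_congr fun v => ?_
  rw [GalL_expo_top, pow_zero]

theorem GalL_ext_prime (χ : Pl F → ℂ) (v : Pl F) : ext χ v.asIdeal = χ v := by
  unfold ext
  rw [finprod_eq_single _ v]
  · rw [GalL_expo_self, pow_one]
  · intro w hw
    rw [GalL_expo_other hw, pow_zero]

theorem GalL_ext_pow (χ : Pl F → ℂ) {I : Ideal (𝓞 F)} (hI : I ≠ ⊥) (n : ℕ) :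
    ext χ (I ^ n) = ext χ I ^ n := by
  induction n with
  | zero => rw [pow_zero, pow_zero, Ideal.one_eq_top, GalL_ext_top]
  | succ n ih => rw [pow_succ, pow_succ, GalL_ext_mul χ (pow_ne_zero n hI) hI, ih]

theorem GalL_ext_prod (χ : Pl F → ℂ) {ι : Type*} (S : Finset ι) (I : ι → Ideal (𝓞 F))
    (hI : ∀ i ∈ S, I i ≠ ⊥) : ext χ (∏ i ∈ S, I i) = ∏ i ∈ S, ext χ (I i) := by
  classical
  induction S using Finset.induction_on with
  | empty => rw [Finset.prod_empty, Finset.prod_empty, Ideal.one_eq_top, GalL_ext_top]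
  | insert a S ha ih =>
    rw [Finset.prod_insert ha, Finset.prod_insert ha, GalL_ext_mul χ, ih]
    · exact fun i hi => hI i (Finset.mem_insert_of_mem hi)
    · exact hI a (Finset.mem_insert_self _ _)
    · rw [← Ideal.zero_eq_bot, Finset.prod_ne_zero_iff]
      exact fun i hi => hI i (Finset.mem_insert_of_mem hi)

theorem GalL_ext_idl (χ : Pl F → ℂ) (f : Pl F →₀ ℕ) :
    ext χ (Pool.Agent.CG3.GalAux.idl F f) = f.prod fun v n => χ v ^ n := by
  rw [Pool.Agent.CG3.GalAux.idl, Finsupp.prod, Finsupp.prod, GalL_ext_prod]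
  · refine Finset.prod_congr rfl fun v _ => ?_
    rw [GalL_ext_pow χ v.ne_bot, GalL_ext_prime]
  · exact fun v _ => pow_ne_zero _ v.ne_bot

/-! ### The Euler product -/

/-- The term of the formal Euler product. -/
def GalL_term {V : Type*} (x : V → ℂ) (f : V →₀ ℕ) : ℂ := f.prod fun v n => x v ^ n

theorem GalL_term_single {V : Type*} (x : V → ℂ) (f : V →₀ ℕ) (a : V) :
    GalL_term x (f + Finsupp.single a 1) = x a * GalL_term x f := by
  classical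
  unfold GalL_term
  rw [Finsupp.prod_add_index' (fun v => pow_zero _) (fun v m n => pow_add _ _ _), mul_comm]
  congr 1
  rw [Finsupp.prod_single_index (h := fun v n => x v ^ n) (pow_zero _), pow_one]

theorem GalL_term_zero {V : Type*} (x : V → ℂ) : GalL_term x 0 = 1 := by
  unfold GalL_term
  exact Finsupp.prod_zero_index

theorem GalL_term_norm {V : Type*} (x : V → ℂ) (f : V →₀ ℕ) :
    ‖GalL_term x f‖ = f.prod fun v n => ‖x v‖ ^ n := by
  unfold GalL_term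
  rw [Finsupp.prod, Finsupp.prod, norm_prod]
  exact Finset.prod_congr rfl fun v _ => norm_pow _ _

theorem GalL_term_summable {V : Type*} (x : V → ℂ) (h1 : ∀ v, ‖x v‖ ≤ 1 / 2)
    (hs : Summable fun v => ‖x v‖) : Summable fun f : V →₀ ℕ => ‖GalL_term x f‖ := by
  have h2 := Pool.Agent.CG3.GalAux.Zf_ne_top (fun v => ‖x v‖) (fun v => norm_nonneg _) h1 hs
  have h3 : ∀ f : V →₀ ℕ, (f.prod fun a n => ENNReal.ofReal ‖x a‖ ^ n) =
      ENNReal.ofReal ‖GalL_term x f‖ := by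
    intro f
    rw [GalL_term_norm, Finsupp.prod, Finsupp.prod, ENNReal.ofReal_prod_of_nonneg
      (fun _ _ => pow_nonneg (norm_nonneg _) _)]
    exact Finset.prod_congr rfl fun v _ => (ENNReal.ofReal_pow (norm_nonneg _) _).symm
  unfold Pool.Agent.CG3.GalAux.Zf at h2
  simp_rw [h3] at h2
  have h4 := ENNReal.summable_toReal h2
  refine h4.congr fun f => ?_
  rw [ENNReal.toReal_ofReal (norm_nonneg _)]

/-- The partial sum over the exponents vanishing on `S`. -/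
theorem GalL_partial {V : Type*} (x : V → ℂ) (hs : Summable fun f : V →₀ ℕ => ‖GalL_term x f‖)
    (S : Finset V) :
    (∏ v ∈ S, (1 - x v)) * ∑' f : V →₀ ℕ, GalL_term x f =
      ∑' f : V →₀ ℕ, Set.indicator {f : V →₀ ℕ | ∀ v ∈ S, f v = 0} (GalL_term x) f := by
  classical
  induction S using Finset.induction_on with
  | empty => simp
  | insert a S ha ih =>
    rw [Finset.prod_insert ha, mul_assoc, ih, sub_mul, one_mul]
    have hsum : ∀ A : Set (V →₀ ℕ), Summable (Set.indicator A (GalL_term x)) :=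
      fun A => Summable.indicator (Summable.of_norm hs) A
    have h1 : x a * ∑' f : V →₀ ℕ, Set.indicator {f : V →₀ ℕ | ∀ v ∈ S, f v = 0} (GalL_term x) f =
        ∑' f : V →₀ ℕ, Set.indicator {f : V →₀ ℕ | (∀ v ∈ S, f v = 0) ∧ f a ≠ 0}
          (GalL_term x) f := by
      rw [← tsum_mul_left]
      have hinj : Function.Injective (fun f : V →₀ ℕ => f + Finsupp.single a 1) :=
        add_left_injective _
      rw [← hinj.tsum_eq (f := Set.indicator {f : V →₀ ℕ | (∀ v ∈ S, f v = 0) ∧ f a ≠ 0}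
          (GalL_term x))]
      · refine tsum_congr fun f => ?_
        have h2 : (f + Finsupp.single a 1 ∈ {f : V →₀ ℕ | (∀ v ∈ S, f v = 0) ∧ f a ≠ 0}) ↔
            f ∈ {f : V →₀ ℕ | ∀ v ∈ S, f v = 0} := by
          constructor
          · rintro ⟨h3, -⟩ v hv
            have := h3 v hv
            rw [Finsupp.add_apply] at this
            omega
          · intro h3
            refine ⟨fun v hv => ?_, ?_⟩
            · have hne : a ≠ v := fun h => ha (h ▸ hv)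
              rw [Finsupp.add_apply, h3 v hv, Finsupp.single_apply, if_neg hne, add_zero]
            · rw [Finsupp.add_apply, Finsupp.single_eq_same]
              omega
        by_cases h4 : f ∈ {f : V →₀ ℕ | ∀ v ∈ S, f v = 0}
        · rw [Set.indicator_of_mem h4, Set.indicator_of_mem (h2.2 h4), GalL_term_single]
        · rw [Set.indicator_of_notMem h4, Set.indicator_of_notMem (fun h => h4 (h2.1 h)),
            mul_zero]
      · intro f hf
        have h3 : f ∈ {f : V →₀ ℕ | (∀ v ∈ S, f v = 0) ∧ f a ≠ 0} := by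
          by_contra h4
          exact hf (Set.indicator_of_notMem h4 _)
        refine ⟨f - Finsupp.single a 1, ?_⟩
        have h5 : Finsupp.single a 1 ≤ f := by
          rw [Finsupp.single_le_iff]
          have := h3.2
          omega
        exact tsub_add_cancel_of_le h5
    rw [h1, ← (hsum _).tsum_sub (hsum _)]
    refine tsum_congr fun f => ?_
    by_cases h4 : ∀ v ∈ S, f v = 0
    · by_cases h5 : f a = 0
      · rw [Set.indicator_of_mem (show f ∈ {f : V →₀ ℕ | ∀ v ∈ S, f v = 0} from h4),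
          Set.indicator_of_notMem (fun h => h.2 h5), sub_zero, Set.indicator_of_mem]
        intro v hv
        rcases Finset.mem_insert.1 hv with rfl | hv
        · exact h5
        · exact h4 v hv
      · rw [Set.indicator_of_mem (show f ∈ {f : V →₀ ℕ | ∀ v ∈ S, f v = 0} from h4),
          Set.indicator_of_mem (show f ∈ {f : V →₀ ℕ | (∀ v ∈ S, f v = 0) ∧ f a ≠ 0} from ⟨h4, h5⟩),
          sub_self, Set.indicator_of_notMem]
        intro h6
        exact h5 (h6 a (Finset.mem_insert_self _ _))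
    · rw [Set.indicator_of_notMem (show f ∉ {f : V →₀ ℕ | ∀ v ∈ S, f v = 0} from h4),
        Set.indicator_of_notMem (fun h => h4 h.1), sub_zero, Set.indicator_of_notMem]
      intro h6
      exact h4 fun v hv => h6 v (Finset.mem_insert_of_mem hv)

theorem GalL_log_bound (z : ℂ) (hz : ‖z‖ ≤ 1 / 2) :
    |-Real.log ‖1 - z‖ - z.re| ≤ ‖z‖ ^ 2 := by
  have h1 := Complex.norm_log_one_add_sub_self_le (z := -z) (by rw [norm_neg]; linarith)
  rw [norm_neg, ← sub_eq_add_neg, sub_neg_eq_add] at h1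
  have h2 : Real.log ‖1 - z‖ + z.re = (Complex.log (1 - z) + z).re := by
    rw [Complex.add_re, Complex.log_re]
  have h3 : |Real.log ‖1 - z‖ + z.re| ≤ ‖Complex.log (1 - z) + z‖ := by
    rw [h2]; exact Complex.abs_re_le_norm _
  have h4 : |-Real.log ‖1 - z‖ - z.re| = |Real.log ‖1 - z‖ + z.re| := by
    rw [← abs_neg]; congr 1; ring
  rw [h4]
  refine h3.trans (h1.trans ?_)
  have h5 : (1 - ‖z‖)⁻¹ ≤ 2 := by
    rw [inv_le_iff_one_le_mul₀ (by linarith)]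
    linarith
  have h6 : 0 ≤ ‖z‖ ^ 2 := by positivity
  nlinarith

theorem GalL_norm {V : Type*} (x : V → ℂ) (h1 : ∀ v, ‖x v‖ ≤ 1 / 2)
    (hs : Summable fun v => ‖x v‖) :
    ‖∑' f : V →₀ ℕ, GalL_term x f‖ = Real.exp (∑' v, -Real.log ‖1 - x v‖) := by
  classical
  have hts := GalL_term_summable x h1 hs
  have hlim : Filter.Tendsto (fun S : Finset V =>
      ∑' f : V →₀ ℕ, Set.indicator {f : V →₀ ℕ | ∀ v ∈ S, f v = 0} (GalL_term x) f)
      Filter.atTop (nhds (∑' f : V →₀ ℕ, if f = 0 then (1 : ℂ) else 0)) := by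
    refine tendsto_tsum_of_dominated_convergence (bound := fun f => ‖GalL_term x f‖) hts ?_ ?_
    · intro f
      refine tendsto_const_nhds.congr' ?_
      by_cases hf : f = 0
      · subst hf
        refine Filter.Eventually.of_forall fun S => ?_
        change (if (0 : V →₀ ℕ) = 0 then (1 : ℂ) else 0) =
          Set.indicator {f : V →₀ ℕ | ∀ v ∈ S, f v = 0} (GalL_term x) 0
        rw [if_pos rfl]
        rw [Set.indicator_of_mem (show (0 : V →₀ ℕ) ∈ {f : V →₀ ℕ | ∀ v ∈ S, f v = 0} from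
          fun v _ => rfl), GalL_term_zero]
      · obtain ⟨v, hv⟩ := Finsupp.ne_iff.1 hf
        filter_upwards [Filter.eventually_ge_atTop ({v} : Finset V)] with S hS
        rw [if_neg hf, Set.indicator_of_notMem]
        intro h
        exact hv (h v (hS (Finset.mem_singleton_self v)))
    · refine Filter.Eventually.of_forall fun S f => ?_
      exact norm_indicator_le_norm_self _ _
  rw [tsum_ite_eq] at hlim
  have hlim2 := hlim.norm
  rw [norm_one] at hlim2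
  have hsl : Summable fun v => Real.log ‖1 - x v‖ := by
    refine Summable.of_norm_bounded (g := fun v => ‖x v‖ + ‖x v‖) (hs.add hs) fun v => ?_
    have h2 := GalL_log_bound (x v) (h1 v)
    have h3 := Complex.abs_re_le_norm (x v)
    have h4 := h1 v
    have h5 := norm_nonneg (x v)
    rw [Real.norm_eq_abs]
    have h6 : ‖x v‖ ^ 2 ≤ ‖x v‖ := by nlinarith
    rw [abs_le] at *
    constructor <;> linarith [h2.1, h2.2, h3.1, h3.2]
  have hpos : ∀ v, 0 < ‖1 - x v‖ := by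
    intro v
    have h3 : ‖(1 : ℂ)‖ - ‖x v‖ ≤ ‖1 - x v‖ := norm_sub_norm_le _ _
    rw [norm_one] at h3
    linarith [h1 v]
  have hprod : ∀ S : Finset V, ‖∑' f : V →₀ ℕ,
      Set.indicator {f : V →₀ ℕ | ∀ v ∈ S, f v = 0} (GalL_term x) f‖ =
      Real.exp (∑ v ∈ S, Real.log ‖1 - x v‖) * ‖∑' f : V →₀ ℕ, GalL_term x f‖ := by
    intro S
    rw [← GalL_partial x hts S, norm_mul, norm_prod, Real.exp_sum]
    congr 1
    exact Finset.prod_congr rfl fun v _ => (Real.exp_log (hpos v)).symm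
  simp_rw [hprod] at hlim2
  have hlim3 : Filter.Tendsto (fun S : Finset V =>
      Real.exp (∑ v ∈ S, Real.log ‖1 - x v‖) * ‖∑' f : V →₀ ℕ, GalL_term x f‖) Filter.atTop
      (nhds (Real.exp (∑' v, Real.log ‖1 - x v‖) * ‖∑' f : V →₀ ℕ, GalL_term x f‖)) :=
    ((Real.continuous_exp.tendsto _).comp hsl.hasSum).mul_const _
  have heq := tendsto_nhds_unique hlim3 hlim2
  rw [tsum_neg, Real.exp_neg]
  exact eq_inv_of_mul_eq_one_right heq

theorem GalL_summable_norm {s : ℝ} (hs : 1 < s) :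
    Summable fun v : Pl F => (Ideal.absNorm v.asIdeal : ℝ) ^ (-s) := by
  have h := Ds_summable (Set.univ : Set (Pl F)) hs
  exact (Equiv.Set.univ (Pl F)).summable_iff.1 (h.congr fun v => rfl)

theorem GalL_char_le {m₀ : Ideal (𝓞 F)} {χ : Pl F → ℂ} (hχ : RayChar m₀ χ) (v : Pl F) :
    ‖χ v‖ ≤ 1 := by
  by_cases h : m₀ ≤ v.asIdeal
  · rw [hχ.zero v h, norm_zero]; exact zero_le_one
  · exact (hχ.abs v h).le

/-- The terms of the Euler product. -/
def GalL_x (χ : Pl F → ℂ) (s : ℝ) (v : Pl F) : ℂ :=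
  χ v * (((Ideal.absNorm v.asIdeal : ℝ) ^ (-s) : ℝ) : ℂ)

theorem GalL_x_norm_le {m₀ : Ideal (𝓞 F)} {χ : Pl F → ℂ} (hχ : RayChar m₀ χ) (s : ℝ)
    (v : Pl F) : ‖GalL_x χ s v‖ ≤ (Ideal.absNorm v.asIdeal : ℝ) ^ (-s) := by
  unfold GalL_x
  rw [norm_mul, Complex.norm_real, Real.norm_of_nonneg (by positivity)]
  have h1 := GalL_char_le hχ v
  have h2 : 0 ≤ (Ideal.absNorm v.asIdeal : ℝ) ^ (-s) := by positivity
  nlinarith

theorem GalL_norm_half {s : ℝ} (hs : 1 < s) (v : Pl F) :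
    (Ideal.absNorm v.asIdeal : ℝ) ^ (-s) ≤ 1 / 2 := by
  have h2 : (2 : ℝ) ≤ (Ideal.absNorm v.asIdeal : ℝ) := by
    exact_mod_cast Pool.Agent.CG3.GalAux.two_le_absNorm F v
  calc (Ideal.absNorm v.asIdeal : ℝ) ^ (-s) ≤ (Ideal.absNorm v.asIdeal : ℝ) ^ (-1 : ℝ) :=
        Real.rpow_le_rpow_of_exponent_le (by linarith) (by linarith)
    _ ≤ 1 / 2 := by
        rw [Real.rpow_neg_one, one_div]
        exact inv_anti₀ (by norm_num) h2

theorem GalL_tsum_idl (χ : Pl F → ℂ) (s : ℝ) :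
    (∑' I : {I : Ideal (𝓞 F) // I ≠ ⊥}, ext χ I.1 * ((Ideal.absNorm I.1 : ℝ) ^ (-s) : ℝ)) =
      ∑' f : Pl F →₀ ℕ, GalL_term (GalL_x χ s) f := by
  let e : (Pl F →₀ ℕ) ≃ {I : Ideal (𝓞 F) // I ≠ ⊥} :=
    Equiv.ofBijective (fun f => ⟨Pool.Agent.CG3.GalAux.idl F f,
      Pool.Agent.CG3.GalAux.idl_ne_bot F f⟩) ⟨fun f g h =>
        Pool.Agent.CG3.GalAux.idl_injective F (Subtype.ext_iff.1 h), fun I => by
        obtain ⟨f, hf⟩ := Pool.Agent.CG3.GalAux.idl_surj F I.1 I.2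
        exact ⟨f, Subtype.ext hf⟩⟩
  rw [← e.tsum_eq]
  refine tsum_congr fun f => ?_
  change ext χ (Pool.Agent.CG3.GalAux.idl F f) *
    ((Ideal.absNorm (Pool.Agent.CG3.GalAux.idl F f) : ℝ) ^ (-s) : ℝ) = _
  rw [GalL_ext_idl, Pool.Agent.CG3.GalAux.absNorm_idl]
  unfold GalL_term GalL_x
  rw [Finsupp.prod, Finsupp.prod, Finsupp.prod]
  simp_rw [mul_pow]
  rw [Finset.prod_mul_distrib]
  congr 1
  push_cast
  rw [← Real.finsetProd_rpow _ _ (fun _ _ => by positivity)]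
  push_cast
  refine Finset.prod_congr rfl fun v _ => ?_
  rw [← Complex.ofReal_pow]
  congr 1
  rw [← Real.rpow_natCast, ← Real.rpow_natCast, ← Real.rpow_mul (by positivity),
    ← Real.rpow_mul (by positivity), mul_comm]

/-- The logarithm of the absolute value of the `L`-function. -/
theorem L_log (m₀ : Ideal (𝓞 F)) (hm : m₀ ≠ ⊥) (χ : Pl F → ℂ) (hχ : RayChar m₀ χ) :
    ∃ C : ℝ, ∀ s ∈ Set.Ioc (1 : ℝ) 2,
    (∑' I : {I : Ideal (𝓞 F) // I ≠ ⊥}, ext χ I.1 * ((Ideal.absNorm I.1 : ℝ) ^ (-s) : ℝ)) ≠ 0 ∧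
    |Real.log ‖∑' I : {I : Ideal (𝓞 F) // I ≠ ⊥},
        ext χ I.1 * ((Ideal.absNorm I.1 : ℝ) ^ (-s) : ℝ)‖ -
      ∑' v : Pl F, (χ v).re * (Ideal.absNorm v.asIdeal : ℝ) ^ (-s)| ≤ C := by
  refine ⟨∑' v : Pl F, (Ideal.absNorm v.asIdeal : ℝ) ^ (-(2 : ℝ)), fun s hs => ?_⟩
  have hs1 : 1 < s := hs.1
  have hhalf : ∀ v, ‖GalL_x χ s v‖ ≤ 1 / 2 := fun v =>
    (GalL_x_norm_le hχ s v).trans (GalL_norm_half hs1 v)
  have hsum : Summable fun v => ‖GalL_x χ s v‖ :=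
    Summable.of_nonneg_of_le (fun v => norm_nonneg _) (GalL_x_norm_le hχ s)
      (GalL_summable_norm hs1)
  have hnorm := GalL_norm (GalL_x χ s) hhalf hsum
  rw [GalL_tsum_idl]
  constructor
  · intro h0
    rw [h0, norm_zero] at hnorm
    exact absurd hnorm (Real.exp_pos _).ne
  · rw [hnorm, Real.log_exp]
    have hre : ∀ v, (χ v).re * (Ideal.absNorm v.asIdeal : ℝ) ^ (-s) = (GalL_x χ s v).re := by
      intro v
      unfold GalL_x
      rw [Complex.re_mul_ofReal]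
    simp_rw [hre]
    have hsq : ∀ v, |-Real.log ‖1 - GalL_x χ s v‖ - (GalL_x χ s v).re| ≤
        (Ideal.absNorm v.asIdeal : ℝ) ^ (-(2 : ℝ)) := by
      intro v
      refine (GalL_log_bound _ (hhalf v)).trans ?_
      have h1 := GalL_x_norm_le hχ s v
      have h2 : (1 : ℝ) ≤ (Ideal.absNorm v.asIdeal : ℝ) := by
        have := Pool.Agent.CG3.GalAux.two_le_absNorm F v
        exact_mod_cast (by omega : 1 ≤ Ideal.absNorm v.asIdeal)
      calc ‖GalL_x χ s v‖ ^ 2 ≤ ((Ideal.absNorm v.asIdeal : ℝ) ^ (-s)) ^ 2 :=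
            pow_le_pow_left₀ (norm_nonneg _) h1 2
        _ = (Ideal.absNorm v.asIdeal : ℝ) ^ (-s * 2) := by
            rw [← Real.rpow_natCast, ← Real.rpow_mul (by positivity)]
            norm_num
        _ ≤ _ := Real.rpow_le_rpow_of_exponent_le h2 (by linarith)
    have hs2 := GalL_summable_norm (F := F) (s := 2) (by norm_num)
    have hdiff : Summable fun v => -Real.log ‖1 - GalL_x χ s v‖ - (GalL_x χ s v).re :=
      Summable.of_norm_bounded hs2 fun v => by rw [Real.norm_eq_abs]; exact hsq v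
    have hresum : Summable fun v => (GalL_x χ s v).re :=
      Summable.of_norm_bounded hsum fun v => by
        rw [Real.norm_eq_abs]; exact Complex.abs_re_le_norm _
    have hlogsum : Summable fun v => -Real.log ‖1 - GalL_x χ s v‖ := by
      refine (hdiff.add hresum).congr fun v => ?_
      ring
    rw [← hlogsum.tsum_sub hresum]
    calc |∑' v, (-Real.log ‖1 - GalL_x χ s v‖ - (GalL_x χ s v).re)|
        ≤ ∑' v, |-Real.log ‖1 - GalL_x χ s v‖ - (GalL_x χ s v).re| := by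
          simpa only [Real.norm_eq_abs] using norm_tsum_le_tsum_norm hdiff.norm
      _ ≤ _ := Summable.tsum_le_tsum hsq (by simpa only [Real.norm_eq_abs] using hdiff.norm) hs2


/-! ### The finiteness of the ray class group -/

/-- The non-zero ideals prime to `m₀`. -/
def GalL_X (m₀ I : Ideal (𝓞 F)) : Prop := I ≠ ⊥ ∧ IsCoprime I m₀

theorem GalL_X_mul {m₀ I J : Ideal (𝓞 F)} (hI : GalL_X m₀ I) (hJ : GalL_X m₀ J) :
    GalL_X m₀ (I * J) :=
  ⟨mul_ne_zero hI.1 hJ.1, hI.2.mul_left hJ.2⟩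

theorem GalL_X_pow {m₀ I : Ideal (𝓞 F)} (hI : GalL_X m₀ I) (n : ℕ) :
    GalL_X m₀ (I ^ n) :=
  ⟨pow_ne_zero _ hI.1, hI.2.pow_left⟩

theorem GalL_X_left {m₀ I J : Ideal (𝓞 F)} (h : GalL_X m₀ (I * J)) : GalL_X m₀ I :=
  ⟨left_ne_zero_of_mul h.1, h.2.of_mul_left_left⟩

theorem GalL_X_right {m₀ I J : Ideal (𝓞 F)} (h : GalL_X m₀ (I * J)) : GalL_X m₀ J :=
  ⟨right_ne_zero_of_mul h.1, h.2.of_mul_left_right⟩

theorem GalL_X_top (m₀ : Ideal (𝓞 F)) : GalL_X m₀ ⊤ := by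
  refine ⟨?_, ?_⟩
  · exact top_ne_bot
  · rw [← Ideal.one_eq_top]; exact isCoprime_one_left

theorem GalL_X_of_ray {m₀ I : Ideal (𝓞 F)} (h : InRay m₀ I) : GalL_X m₀ I := by
  obtain ⟨a, ha, ha1, -, rfl⟩ := h
  refine ⟨?_, ?_⟩
  · rw [Ne, Ideal.span_singleton_eq_bot]; exact ha
  · rw [Ideal.isCoprime_iff_exists]
    exact ⟨a, Ideal.mem_span_singleton_self a, -(a - 1), m₀.neg_mem ha1, by ring⟩

theorem GalL_ray_mul {m₀ I J : Ideal (𝓞 F)} (hI : InRay m₀ I) (hJ : InRay m₀ J) :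
    InRay m₀ (I * J) := by
  obtain ⟨a, ha, ha1, ha2, rfl⟩ := hI
  obtain ⟨b, hb, hb1, hb2, rfl⟩ := hJ
  refine ⟨a * b, mul_ne_zero ha hb, ?_, ?_, ?_⟩
  · have : a * b - 1 = a * (b - 1) + (a - 1) := by ring
    rw [this]
    exact m₀.add_mem (m₀.mul_mem_left _ hb1) ha1
  · intro w
    push_cast
    rw [map_mul]
    exact mul_pos (ha2 w) (hb2 w)
  · rw [Ideal.span_singleton_mul_span_singleton]

theorem GalL_ray_cancel {m₀ I J : Ideal (𝓞 F)} (h : InRay m₀ (I * J)) (hJ : InRay m₀ J) :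
    InRay m₀ I := by
  obtain ⟨a, ha, ha1, ha2, hIJ⟩ := h
  obtain ⟨b, hb, hb1, hb2, rfl⟩ := hJ
  have h1 : a ∈ Ideal.span {b} := by
    have h2 : a ∈ I * Ideal.span {b} := by rw [hIJ]; exact Ideal.mem_span_singleton_self a
    exact Ideal.mul_le_right h2
  obtain ⟨c, rfl⟩ := Ideal.mem_span_singleton.1 h1
  have hc : c ≠ 0 := right_ne_zero_of_mul ha
  have h3 : I = Ideal.span {c} := by
    have h4 : I * Ideal.span {b} = Ideal.span {c} * Ideal.span {b} := by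
      rw [hIJ, Ideal.span_singleton_mul_span_singleton, mul_comm]
    refine mul_right_cancel₀ ?_ h4
    rw [Ne, Ideal.zero_eq_bot, Ideal.span_singleton_eq_bot]
    exact hb
  refine ⟨c, hc, ?_, ?_, h3⟩
  · have : c - 1 = (b * c - 1) - c * (b - 1) := by ring
    rw [this]
    exact m₀.sub_mem ha1 (m₀.mul_mem_left _ hb1)
  · intro w
    have h5 := ha2 w
    have h6 := hb2 w
    push_cast at h5
    rw [map_mul] at h5
    exact (mul_pos_iff_of_pos_left h6).1 h5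

theorem GalL_unit_pow {m₀ : Ideal (𝓞 F)} (hm : m₀ ≠ ⊥) : ∃ n : ℕ, 0 < n ∧ Even n ∧
    ∀ a : 𝓞 F, IsCoprime (Ideal.span {a}) m₀ → a ^ n - 1 ∈ m₀ := by
  haveI : Finite (𝓞 F ⧸ m₀) := Ideal.finiteQuotientOfFreeOfNeBot m₀ hm
  refine ⟨2 * Nat.card (𝓞 F ⧸ m₀)ˣ, ?_, ⟨_, two_mul _⟩, ?_⟩
  · have : 0 < Nat.card (𝓞 F ⧸ m₀)ˣ := Nat.card_pos
    omega
  · intro a ha
    obtain ⟨i, hi, j, hj, hij⟩ := Ideal.isCoprime_iff_exists.1 ha
    obtain ⟨c, rfl⟩ := Ideal.mem_span_singleton.1 hi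
    have h1 : Ideal.Quotient.mk m₀ a * Ideal.Quotient.mk m₀ c = 1 := by
      rw [← map_mul, ← map_one (Ideal.Quotient.mk m₀), Ideal.Quotient.eq]
      have : a * c - 1 = -j := by rw [← hij]; ring
      rw [this]
      exact m₀.neg_mem hj
    let u : (𝓞 F ⧸ m₀)ˣ := Units.mkOfMulEqOne _ _ h1
    have h2 : u ^ (2 * Nat.card (𝓞 F ⧸ m₀)ˣ) = 1 := by
      rw [mul_comm, pow_mul, pow_card_eq_one', one_pow]
    rw [← Ideal.Quotient.eq, map_pow, map_one]
    have h3 := congrArg Units.val h2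
    rw [Units.val_pow_eq_pow_val, Units.val_one] at h3
    exact h3

theorem GalL_span_X {m₀ : Ideal (𝓞 F)} {a : 𝓞 F} (h : GalL_X m₀ (Ideal.span {a})) : a ≠ 0 := by
  rintro rfl
  exact h.1 (by simp)

theorem GalL_ray_span_pow {m₀ : Ideal (𝓞 F)} {n : ℕ} (hn : Even n)
    (h : ∀ a : 𝓞 F, IsCoprime (Ideal.span {a}) m₀ → a ^ n - 1 ∈ m₀) {a : 𝓞 F}
    (ha : GalL_X m₀ (Ideal.span {a})) : InRay m₀ (Ideal.span {a ^ n}) := by
  have ha0 := GalL_span_X ha
  refine ⟨a ^ n, pow_ne_zero _ ha0, h a ha.2, ?_, rfl⟩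
  intro w
  push_cast
  rw [map_pow]
  refine hn.pow_pos ?_
  rw [Ne, map_eq_zero]
  exact fun h => ha0 (RingOfIntegers.ext h)

theorem GalL_ray_pow {m₀ : Ideal (𝓞 F)} (hm : m₀ ≠ ⊥) : ∃ N : ℕ, 0 < N ∧
    ∀ I : Ideal (𝓞 F), GalL_X m₀ I → InRay m₀ (I ^ N) := by
  obtain ⟨n, hn0, hn2, hn⟩ := GalL_unit_pow hm
  refine ⟨Fintype.card (ClassGroup (𝓞 F)) * n, Nat.mul_pos Fintype.card_pos hn0, ?_⟩
  intro I hI
  have hI0 : I ∈ nonZeroDivisors (Ideal (𝓞 F)) := mem_nonZeroDivisors_of_ne_zero hI.1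
  have h1 : (I ^ Fintype.card (ClassGroup (𝓞 F))).IsPrincipal := by
    rw [← ClassGroup.mk0_eq_one_iff (pow_mem hI0 _)]
    have h2 : ClassGroup.mk0 (⟨I ^ Fintype.card (ClassGroup (𝓞 F)), pow_mem hI0 _⟩ :
        nonZeroDivisors (Ideal (𝓞 F))) =
        (ClassGroup.mk0 ⟨I, hI0⟩) ^ Fintype.card (ClassGroup (𝓞 F)) := by
      rw [← map_pow]; rfl
    rw [h2, pow_card_eq_one]
  obtain ⟨a, ha⟩ := h1
  have ha' : I ^ Fintype.card (ClassGroup (𝓞 F)) = Ideal.span {a} := ha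
  rw [pow_mul, ha', Ideal.span_singleton_pow]
  refine GalL_ray_span_pow hn2 hn ?_
  rw [← ha']
  exact GalL_X_pow hI _

/-- The relation that two ideals are in the same ray class. -/
def GalL_rel (m₀ b b' : Ideal (𝓞 F)) : Prop := ∃ I, InRay m₀ (I * b) ∧ InRay m₀ (I * b')

theorem GalL_rel_symm {m₀ b b' : Ideal (𝓞 F)} (h : GalL_rel m₀ b b') : GalL_rel m₀ b' b := by
  obtain ⟨I, h1, h2⟩ := h
  exact ⟨I, h2, h1⟩

theorem GalL_rel_iff {m₀ b b' : Ideal (𝓞 F)} (h : GalL_rel m₀ b b') {J : Ideal (𝓞 F)}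
    (hJ : InRay m₀ (J * b)) : InRay m₀ (J * b') := by
  obtain ⟨I, h1, h2⟩ := h
  refine GalL_ray_cancel (J := I * b) ?_ h1
  have h3 : J * b' * (I * b) = (J * b) * (I * b') := by ring
  rw [h3]
  exact GalL_ray_mul hJ h2

theorem GalL_rel_trans {m₀ b b' b'' : Ideal (𝓞 F)} (h : GalL_rel m₀ b b')
    (h' : GalL_rel m₀ b' b'') : GalL_rel m₀ b b'' := by
  obtain ⟨I, h1, h2⟩ := h
  exact ⟨I, h1, GalL_rel_iff h' h2⟩

theorem GalL_inv {m₀ : Ideal (𝓞 F)} (hm : m₀ ≠ ⊥) {b : Ideal (𝓞 F)} (hb : GalL_X m₀ b) :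
    ∃ I, GalL_X m₀ I ∧ InRay m₀ (I * b) := by
  obtain ⟨N, hN, h⟩ := GalL_ray_pow hm
  refine ⟨b ^ (N - 1), GalL_X_pow hb _, ?_⟩
  rw [← pow_succ, Nat.sub_add_cancel hN]
  exact h b hb

theorem GalL_rel_refl {m₀ : Ideal (𝓞 F)} (hm : m₀ ≠ ⊥) {b : Ideal (𝓞 F)} (hb : GalL_X m₀ b) :
    GalL_rel m₀ b b := by
  obtain ⟨I, -, hI⟩ := GalL_inv hm hb
  exact ⟨I, hI, hI⟩

/-- The setoid of the ray classes. -/
def GalL_setoid {m₀ : Ideal (𝓞 F)} (hm : m₀ ≠ ⊥) : Setoid {I : Ideal (𝓞 F) // GalL_X m₀ I} where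
  r b b' := GalL_rel m₀ b.1 b'.1
  iseqv := ⟨fun b => GalL_rel_refl hm b.2, fun h => GalL_rel_symm h,
    fun h h' => GalL_rel_trans h h'⟩

/-- A finite invariant which determines the ray class. -/
theorem GalL_invariant {m₀ : Ideal (𝓞 F)} (hm : m₀ ≠ ⊥) :
    ∃ Ψ : {I : Ideal (𝓞 F) // GalL_X m₀ I} →
      ClassGroup (𝓞 F) × (𝓞 F ⧸ m₀) × (RPl F → Prop),
      ∀ b b', Ψ b = Ψ b' → GalL_rel m₀ b.1 b'.1 := by
  classical
  obtain ⟨n, hn0, hn2, hn⟩ := GalL_unit_pow hm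
  let cl : {I : Ideal (𝓞 F) // GalL_X m₀ I} → ClassGroup (𝓞 F) := fun b =>
    ClassGroup.mk0 ⟨b.1, mem_nonZeroDivisors_of_ne_zero b.2.1⟩
  have hr : ∀ c : ClassGroup (𝓞 F), ∃ r : {I : Ideal (𝓞 F) // GalL_X m₀ I},
      (∃ b, cl b = c) → cl r = c := by
    intro c
    by_cases h : ∃ b, cl b = c
    · obtain ⟨b, hb⟩ := h
      exact ⟨b, fun _ => hb⟩
    · exact ⟨⟨⊤, GalL_X_top m₀⟩, fun h' => absurd h' h⟩
  choose r hr using hr
  have hprin : ∀ b : {I : Ideal (𝓞 F) // GalL_X m₀ I}, ∃ a : 𝓞 F,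
      b.1 * (r (cl b)).1 ^ (Fintype.card (ClassGroup (𝓞 F)) - 1) = Ideal.span {a} := by
    intro b
    have h1 : cl (r (cl b)) = cl b := hr (cl b) ⟨b, rfl⟩
    have hb0 : b.1 ∈ nonZeroDivisors (Ideal (𝓞 F)) := mem_nonZeroDivisors_of_ne_zero b.2.1
    have hr0 : (r (cl b)).1 ∈ nonZeroDivisors (Ideal (𝓞 F)) :=
      mem_nonZeroDivisors_of_ne_zero (r (cl b)).2.1
    have h2 : (b.1 * (r (cl b)).1 ^ (Fintype.card (ClassGroup (𝓞 F)) - 1)).IsPrincipal := by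
      rw [← ClassGroup.mk0_eq_one_iff (mul_mem hb0 (pow_mem hr0 _))]
      have h3 : ClassGroup.mk0 (⟨b.1 * (r (cl b)).1 ^ (Fintype.card (ClassGroup (𝓞 F)) - 1),
          mul_mem hb0 (pow_mem hr0 _)⟩ : nonZeroDivisors (Ideal (𝓞 F))) =
          cl b * cl (r (cl b)) ^ (Fintype.card (ClassGroup (𝓞 F)) - 1) := by
        change _ = ClassGroup.mk0 _ * (ClassGroup.mk0 _) ^ _
        rw [← map_pow, ← map_mul]
        rfl
      rw [h3, h1, ← pow_succ', Nat.sub_add_cancel Fintype.card_pos, pow_card_eq_one]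
    obtain ⟨a, ha⟩ := h2
    exact ⟨a, ha⟩
  choose a ha using hprin
  refine ⟨fun b => (cl b, Ideal.Quotient.mk m₀ (a b),
    fun w => 0 < InfinitePlace.embedding_of_isReal w.2 (a b : F)), ?_⟩
  intro b b' hbb
  simp only [Prod.mk.injEq] at hbb
  obtain ⟨h1, h2, h3⟩ := hbb
  have hX : GalL_X m₀ (Ideal.span {a b}) := by
    rw [← ha b]
    exact GalL_X_mul b.2 (GalL_X_pow (r (cl b)).2 _)
  have hX' : GalL_X m₀ (Ideal.span {a b'}) := by
    rw [← ha b']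
    exact GalL_X_mul b'.2 (GalL_X_pow (r (cl b')).2 _)
  have hb := ha b
  have hb' := ha b'
  rw [← h1] at hb'
  set R := (r (cl b)).1 ^ (Fintype.card (ClassGroup (𝓞 F)) - 1) with hR
  refine ⟨Ideal.span {a b ^ (n - 1)} * R, ?_, ?_⟩
  · have h4 : Ideal.span {a b ^ (n - 1)} * R * b.1 = Ideal.span {a b ^ n} := by
      rw [mul_assoc, mul_comm R, hb, Ideal.span_singleton_mul_span_singleton, ← pow_succ,
        Nat.sub_add_cancel hn0]
    rw [h4]
    exact GalL_ray_span_pow hn2 hn hX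
  · have h4 : Ideal.span {a b ^ (n - 1)} * R * b'.1 = Ideal.span {a b ^ (n - 1) * a b'} := by
      rw [mul_assoc, mul_comm R, hb', Ideal.span_singleton_mul_span_singleton]
    have ha0 := GalL_span_X hX
    have ha0' := GalL_span_X hX'
    refine ⟨a b ^ (n - 1) * a b', mul_ne_zero (pow_ne_zero _ ha0) ha0', ?_, ?_, h4⟩
    · rw [← Ideal.Quotient.eq, map_mul, ← h2, ← map_mul, ← pow_succ, Nat.sub_add_cancel hn0,
        Ideal.Quotient.eq]
      exact hn _ hX.2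
    · intro w
      push_cast
      rw [map_mul, map_pow]
      have h5 := congrFun h3 w
      have h6 : InfinitePlace.embedding_of_isReal w.2 (a b : F) ≠ 0 := by
        rw [Ne, map_eq_zero]
        exact fun h => ha0 (RingOfIntegers.ext h)
      have h7 : InfinitePlace.embedding_of_isReal w.2 (a b' : F) ≠ 0 := by
        rw [Ne, map_eq_zero]
        exact fun h => ha0' (RingOfIntegers.ext h)
      rcases lt_or_gt_of_ne h6 with h8 | h8
      · have h9 : InfinitePlace.embedding_of_isReal w.2 (a b' : F) < 0 := by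
          refine lt_of_le_of_ne (not_lt.1 fun h => ?_) h7
          exact absurd (h5.symm ▸ h) (not_lt.2 h8.le)
        have h10 : Odd (n - 1) := by
          rw [Nat.odd_iff]
          obtain ⟨k, hk⟩ := hn2
          omega
        exact mul_pos_of_neg_of_neg (h10.pow_neg h8) h9
      · exact mul_pos (pow_pos h8 _) (h5 ▸ h8)

theorem GalL_finite_quot {m₀ : Ideal (𝓞 F)} (hm : m₀ ≠ ⊥) : Finite (Quotient (GalL_setoid hm)) := by
  classical
  haveI : Finite (𝓞 F ⧸ m₀) := Ideal.finiteQuotientOfFreeOfNeBot m₀ hm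
  obtain ⟨Ψ, hΨ⟩ := GalL_invariant hm
  haveI : Finite (RPl F → Prop) := inferInstance
  haveI : Finite (ClassGroup (𝓞 F) × (𝓞 F ⧸ m₀) × (RPl F → Prop)) := inferInstance
  refine Finite.of_surjective (fun y : Set.range Ψ =>
    (Quotient.mk (GalL_setoid hm) y.2.choose : Quotient (GalL_setoid hm))) ?_
  intro q
  obtain ⟨b, rfl⟩ := Quotient.exists_rep q
  refine ⟨⟨Ψ b, b, rfl⟩, ?_⟩
  refine Quotient.sound (s := GalL_setoid hm) ?_
  have h1 : ∃ y, Ψ y = Ψ b := ⟨b, rfl⟩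
  exact hΨ _ _ h1.choose_spec

/-- The ray class group is finite: finitely many ideals prime to `m₀` represent all classes. -/
theorem exists_reps (m₀ : Ideal (𝓞 F)) (hm : m₀ ≠ ⊥) : ∃ T : Finset (Ideal (𝓞 F)),
    (∀ b ∈ T, b ≠ ⊥ ∧ IsCoprime b m₀) ∧
    (∀ I : Ideal (𝓞 F), I ≠ ⊥ → IsCoprime I m₀ → ∃ b ∈ T, InRay m₀ (I * b)) ∧
    ∀ b ∈ T, ∀ b' ∈ T, ∀ I : Ideal (𝓞 F), InRay m₀ (I * b) → InRay m₀ (I * b') → b = b' := by
  classical
  haveI := GalL_finite_quot hm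
  haveI := Fintype.ofFinite (Quotient (GalL_setoid hm))
  refine ⟨Finset.univ.image fun q : Quotient (GalL_setoid hm) => (Quotient.out q).1, ?_, ?_, ?_⟩
  · intro b hb
    obtain ⟨q, -, rfl⟩ := Finset.mem_image.1 hb
    exact (Quotient.out q).2
  · intro I hI0 hI1
    obtain ⟨J, hJ, hJI⟩ := GalL_inv hm (b := I) ⟨hI0, hI1⟩
    let q : Quotient (GalL_setoid hm) := Quotient.mk _ ⟨J, hJ⟩
    refine ⟨(Quotient.out q).1, Finset.mem_image.2 ⟨q, Finset.mem_univ _, rfl⟩, ?_⟩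
    have h1 : GalL_rel m₀ (Quotient.out q).1 J := Quotient.mk_out (s := GalL_setoid hm) ⟨J, hJ⟩
    refine GalL_rel_iff (GalL_rel_symm h1) ?_
    rwa [mul_comm]
  · intro b hb b' hb' I h1 h2
    obtain ⟨q, -, rfl⟩ := Finset.mem_image.1 hb
    obtain ⟨q', -, rfl⟩ := Finset.mem_image.1 hb'
    have h3 : q = q' := by
      rw [← Quotient.out_eq q, ← Quotient.out_eq q']
      exact Quotient.sound (s := GalL_setoid hm) ⟨I, h1, h2⟩
    rw [h3]

/-! ### The limit at `s = 1` -/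

theorem GalL_ext_ne_zero {m₀ : Ideal (𝓞 F)} (hm : m₀ ≠ ⊥) {χ : Pl F → ℂ} (hχ : RayChar m₀ χ)
    {I : Ideal (𝓞 F)} (hI : GalL_X m₀ I) : ext χ I ≠ 0 := by
  obtain ⟨J, hJ, hJI⟩ := GalL_inv hm hI
  intro h0
  have h1 := hχ.ray _ hJI
  rw [GalL_ext_mul χ hJ.1 hI.1, h0, mul_zero] at h1
  exact zero_ne_one h1

theorem GalL_ext_zero {m₀ : Ideal (𝓞 F)} (hm : m₀ ≠ ⊥) {χ : Pl F → ℂ} (hχ : RayChar m₀ χ)
    {I : Ideal (𝓞 F)} (hI0 : I ≠ ⊥) (hI : ¬ GalL_X m₀ I) : ext χ I = 0 := by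
  have h1 : ¬ IsCoprime I m₀ := fun h => hI ⟨hI0, h⟩
  rw [Ideal.isCoprime_iff_sup_eq] at h1
  obtain ⟨M, hM, hle⟩ := Ideal.exists_le_maximal _ h1
  have hM0 : M ≠ ⊥ := by
    rintro rfl
    exact hm (le_bot_iff.1 (le_sup_right.trans hle))
  let v : Pl F := ⟨M, hM.isPrime, hM0⟩
  obtain ⟨J, hJ⟩ := Ideal.dvd_iff_le.2 (show I ≤ v.asIdeal from le_sup_left.trans hle)
  have hJ0 : J ≠ ⊥ := by
    rintro rfl
    apply hI0
    rw [hJ, Ideal.mul_bot]
  rw [hJ, GalL_ext_mul χ v.ne_bot hJ0, GalL_ext_prime, hχ.zero v (le_sup_right.trans hle),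
    zero_mul]

theorem GalL_ext_rel {m₀ : Ideal (𝓞 F)} {χ : Pl F → ℂ} (hχ : RayChar m₀ χ)
    {b b' : Ideal (𝓞 F)} (h : GalL_rel m₀ b b') : ext χ b = ext χ b' := by
  obtain ⟨I, h1, h2⟩ := h
  have hX := GalL_X_of_ray h1
  have hX' := GalL_X_of_ray h2
  have h3 := hχ.ray _ h1
  have h4 := hχ.ray _ h2
  rw [GalL_ext_mul χ (GalL_X_left hX).1 (GalL_X_right hX).1] at h3
  rw [GalL_ext_mul χ (GalL_X_left hX').1 (GalL_X_right hX').1] at h4
  have h5 : ext χ I ≠ 0 := by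
    intro h0
    rw [h0, zero_mul] at h3
    exact zero_ne_one h3
  exact mul_left_cancel₀ h5 (h3.trans h4.symm)

theorem GalL_sum_zero {m₀ : Ideal (𝓞 F)} (hm : m₀ ≠ ⊥) {χ : Pl F → ℂ} (hχ : RayChar m₀ χ)
    (hne : ∃ v, ¬ m₀ ≤ v.asIdeal ∧ χ v ≠ 1) (T : Finset (Ideal (𝓞 F)))
    (hT1 : ∀ b ∈ T, b ≠ ⊥ ∧ IsCoprime b m₀)
    (hT2 : ∀ I : Ideal (𝓞 F), I ≠ ⊥ → IsCoprime I m₀ → ∃ b ∈ T, InRay m₀ (I * b))
    (hT3 : ∀ b ∈ T, ∀ b' ∈ T, ∀ I : Ideal (𝓞 F), InRay m₀ (I * b) → InRay m₀ (I * b') → b = b') :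
    ∑ b ∈ T, (ext χ b)⁻¹ = 0 := by
  classical
  obtain ⟨v, hv, hv1⟩ := hne
  have hvX : GalL_X m₀ v.asIdeal := by
    refine ⟨v.ne_bot, ?_⟩
    rw [Ideal.isCoprime_iff_sup_eq]
    by_contra hcon
    have h1 : v.asIdeal ⊔ m₀ = v.asIdeal := by
      exact (v.isMaximal.eq_of_le hcon le_sup_left).symm
    exact hv (h1 ▸ le_sup_right)
  -- the representative of the class of `v * b`
  have hσ : ∀ b : Ideal (𝓞 F), b ∈ T → ∃ b' ∈ T, GalL_rel m₀ (v.asIdeal * b) b' := by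
    intro b hb
    obtain ⟨J, hJ, hJ2⟩ := GalL_inv hm (GalL_X_mul hvX (hT1 b hb))
    obtain ⟨b', hb', h2⟩ := hT2 J hJ.1 hJ.2
    exact ⟨b', hb', J, hJ2, h2⟩
  choose! σ hσ1 hσ2 using hσ
  have hinj : Set.InjOn σ T := by
    intro b hb b' hb' hbb
    have h1 : GalL_rel m₀ (v.asIdeal * b) (v.asIdeal * b') := by
      refine GalL_rel_trans (hσ2 b hb) ?_
      rw [hbb]
      exact GalL_rel_symm (hσ2 b' hb')
    obtain ⟨I, h2, h3⟩ := h1
    rw [← mul_assoc] at h2 h3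
    exact hT3 b hb b' hb' _ h2 h3
  have himg : T.image σ = T := by
    apply Finset.eq_of_subset_of_card_le
    · intro x hx
      obtain ⟨b, hb, rfl⟩ := Finset.mem_image.1 hx
      exact hσ1 b hb
    · rw [Finset.card_image_of_injOn hinj]
  have h1 : ∑ b ∈ T, (ext χ b)⁻¹ = (χ v)⁻¹ * ∑ b ∈ T, (ext χ b)⁻¹ := by
    calc ∑ b ∈ T, (ext χ b)⁻¹ = ∑ b ∈ T.image σ, (ext χ b)⁻¹ := by rw [himg]
      _ = ∑ b ∈ T, (ext χ (σ b))⁻¹ := Finset.sum_image hinj
      _ = ∑ b ∈ T, (χ v)⁻¹ * (ext χ b)⁻¹ := by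
          refine Finset.sum_congr rfl fun b hb => ?_
          rw [← GalL_ext_rel hχ (hσ2 b hb), GalL_ext_mul χ v.ne_bot (hT1 b hb).1,
            GalL_ext_prime, mul_inv]
      _ = _ := by rw [Finset.mul_sum]
  have h2 : (1 - (χ v)⁻¹) * ∑ b ∈ T, (ext χ b)⁻¹ = 0 := by
    rw [sub_mul, one_mul, sub_eq_zero]
    exact h1
  rcases mul_eq_zero.1 h2 with h3 | h3
  · exfalso
    rw [sub_eq_zero] at h3
    exact hv1 (inv_eq_one.1 h3.symm)
  · exact h3

theorem GalL_decomp {m₀ : Ideal (𝓞 F)} (hm : m₀ ≠ ⊥) {χ : Pl F → ℂ} (hχ : RayChar m₀ χ)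
    (T : Finset (Ideal (𝓞 F)))
    (hT1 : ∀ b ∈ T, b ≠ ⊥ ∧ IsCoprime b m₀)
    (hT2 : ∀ I : Ideal (𝓞 F), I ≠ ⊥ → IsCoprime I m₀ → ∃ b ∈ T, InRay m₀ (I * b))
    (hT3 : ∀ b ∈ T, ∀ b' ∈ T, ∀ I : Ideal (𝓞 F), InRay m₀ (I * b) → InRay m₀ (I * b') → b = b')
    {s : ℝ} (hs : 1 < s) :
    (∑' I : {I : Ideal (𝓞 F) // I ≠ ⊥}, ext χ I.1 * ((Ideal.absNorm I.1 : ℝ) ^ (-s) : ℝ)) =
      ∑ b ∈ T, (ext χ b)⁻¹ * (Zc m₀ b s : ℂ) := by
  classical
  let g : Ideal (𝓞 F) → Ideal (𝓞 F) → ℂ := fun b =>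
    Set.indicator {I : Ideal (𝓞 F) | InRay m₀ (I * b)}
      fun I => (((Ideal.absNorm I : ℝ) ^ (-s) : ℝ) : ℂ)
  have hg1 : ∀ b, HasSum (g b) (Zc m₀ b s : ℂ) := by
    intro b
    have h1 : HasSum (fun I : {I : Ideal (𝓞 F) // InRay m₀ (I * b)} =>
        (Ideal.absNorm I.1 : ℝ) ^ (-s)) (Zc m₀ b s) := (Zc_summable m₀ b s hs).hasSum
    have h2 := Complex.hasSum_ofReal.2 h1
    exact (hasSum_subtype_iff_indicator (s := {I : Ideal (𝓞 F) | InRay m₀ (I * b)})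
      (f := fun I => (((Ideal.absNorm I : ℝ) ^ (-s) : ℝ) : ℂ))).1 h2
  have hg2 : HasSum (fun I => ∑ b ∈ T, (ext χ b)⁻¹ * g b I)
      (∑ b ∈ T, (ext χ b)⁻¹ * (Zc m₀ b s : ℂ)) :=
    hasSum_sum fun b _ => (hg1 b).mul_left _
  have hpt : ∀ I : Ideal (𝓞 F), Set.indicator {I : Ideal (𝓞 F) | I ≠ ⊥}
      (fun I => ext χ I * (((Ideal.absNorm I : ℝ) ^ (-s) : ℝ) : ℂ)) I =
      ∑ b ∈ T, (ext χ b)⁻¹ * g b I := by
    intro I
    by_cases hX : GalL_X m₀ I
    · rw [Set.indicator_of_mem (show I ∈ {I : Ideal (𝓞 F) | I ≠ ⊥} from hX.1)]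
      obtain ⟨b, hb, hIb⟩ := hT2 I hX.1 hX.2
      rw [Finset.sum_eq_single b]
      · simp only [g]
        rw [Set.indicator_of_mem (show I ∈ {I : Ideal (𝓞 F) | InRay m₀ (I * b)} from hIb)]
        congr 1
        have h1 := hχ.ray _ hIb
        rw [GalL_ext_mul χ hX.1 (hT1 b hb).1] at h1
        exact eq_inv_of_mul_eq_one_left h1
      · intro b' hb' hne
        simp only [g]
        rw [Set.indicator_of_notMem, mul_zero]
        intro h
        exact hne (hT3 b' hb' b hb I h hIb)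
      · intro h
        exact absurd hb h
    · have hz : ∑ b ∈ T, (ext χ b)⁻¹ * g b I = 0 := by
        refine Finset.sum_eq_zero fun b hb => ?_
        simp only [g]
        rw [Set.indicator_of_notMem, mul_zero]
        intro h
        exact hX (GalL_X_left (GalL_X_of_ray h))
      rw [hz]
      by_cases hI0 : I = ⊥
      · rw [Set.indicator_of_notMem]
        exact fun h => h hI0
      · rw [Set.indicator_of_mem (show I ∈ {I : Ideal (𝓞 F) | I ≠ ⊥} from hI0),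
          GalL_ext_zero hm hχ hI0 hX, zero_mul]
  have h1 : HasSum (Set.indicator {I : Ideal (𝓞 F) | I ≠ ⊥}
      (fun I => ext χ I * (((Ideal.absNorm I : ℝ) ^ (-s) : ℝ) : ℂ)))
      (∑ b ∈ T, (ext χ b)⁻¹ * (Zc m₀ b s : ℂ)) := by
    have : Set.indicator {I : Ideal (𝓞 F) | I ≠ ⊥}
      (fun I => ext χ I * (((Ideal.absNorm I : ℝ) ^ (-s) : ℝ) : ℂ)) =
      fun I => ∑ b ∈ T, (ext χ b)⁻¹ * g b I := funext hpt
    rw [this]
    exact hg2
  exact ((hasSum_subtype_iff_indicator (s := {I : Ideal (𝓞 F) | I ≠ ⊥})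
      (f := fun I => ext χ I * (((Ideal.absNorm I : ℝ) ^ (-s) : ℝ) : ℂ))).2 h1).tsum_eq

/-- The `L`-function of a non-trivial character approaches a limit linearly. -/
theorem L_lim (m₀ : Ideal (𝓞 F)) (hm : m₀ ≠ ⊥) (χ : Pl F → ℂ) (hχ : RayChar m₀ χ)
    (hne : ∃ v, ¬ m₀ ≤ v.asIdeal ∧ χ v ≠ 1) : ∃ (L : ℂ) (C : ℝ), ∀ s ∈ Set.Ioc (1 : ℝ) 2,
    ‖(∑' I : {I : Ideal (𝓞 F) // I ≠ ⊥}, ext χ I.1 * ((Ideal.absNorm I.1 : ℝ) ^ (-s) : ℝ)) - L‖
      ≤ C * (s - 1) := by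
  classical
  obtain ⟨T, hT1, hT2, hT3⟩ := exists_reps m₀ hm
  obtain ⟨b₀, hb₀, -⟩ := hT2 ⊤ (GalL_X_top m₀).1 (GalL_X_top m₀).2
  have hlim : ∀ b ∈ T, ∃ L C : ℝ, ∀ s ∈ Set.Ioc (1 : ℝ) 2,
      |(Zc m₀ b s - Zc m₀ b₀ s) - L| ≤ C * (s - 1) := fun b hb =>
    (Zc_diff m₀ hm b b₀ (hT1 b hb).1 (hT1 b₀ hb₀).1 (hT1 b hb).2 (hT1 b₀ hb₀).2).lim
  choose! L C hLC using hlim
  refine ⟨∑ b ∈ T, (ext χ b)⁻¹ * (L b : ℂ), ∑ b ∈ T, ‖(ext χ b)⁻¹‖ * C b, fun s hs => ?_⟩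
  have h0 := GalL_sum_zero hm hχ hne T hT1 hT2 hT3
  have h1 : ∑ b ∈ T, (ext χ b)⁻¹ * (Zc m₀ b s : ℂ) - ∑ b ∈ T, (ext χ b)⁻¹ * (L b : ℂ) =
      ∑ b ∈ T, (ext χ b)⁻¹ * (((Zc m₀ b s - Zc m₀ b₀ s) - L b : ℝ) : ℂ) := by
    have h2 : ∑ b ∈ T, (ext χ b)⁻¹ * (Zc m₀ b₀ s : ℂ) = 0 := by
      rw [← Finset.sum_mul, h0, zero_mul]
    rw [← sub_zero (∑ b ∈ T, (ext χ b)⁻¹ * (Zc m₀ b s : ℂ)), ← h2, ← Finset.sum_sub_distrib,
      ← Finset.sum_sub_distrib]
    refine Finset.sum_congr rfl fun b _ => ?_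
    push_cast
    ring
  rw [GalL_decomp hm hχ T hT1 hT2 hT3 hs.1, h1]
  refine (norm_sum_le _ _).trans ?_
  rw [Finset.sum_mul]
  refine Finset.sum_le_sum fun b hb => ?_
  rw [norm_mul, mul_assoc, Complex.norm_real, Real.norm_eq_abs]
  exact mul_le_mul_of_nonneg_left (hLC b hb s hs) (norm_nonneg _)

end Pool.Agent.CG2
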