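import Pool.Agent.CG2.GalLip

/-!
# Sums of homogeneous functions over the cosets of a lattice
-/

set_option linter.unusedSectionVars false

noncomputable section

namespace Pool.Agent.CG2

/-- A family `H s`, `1 < s ≤ 2`, of functions on a real vector space of dimension `d`: the
function `H s` is homogeneous of degree `- d s`, Lipschitz away from `0`, uniformly in `s`, and
depends on `s` in a Lipschitz way. -/
structure Hom (V : Type) [NormedAddCommGroup V] [NormedSpace ℝ V] (H : ℝ → V → ℝ) : Prop where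
  nonneg : ∀ s x, 0 ≤ H s x
  zero : ∀ s, H s 0 = 0
  homog : ∀ s ∈ Set.Ioc (1 : ℝ) 2, ∀ (x : V) (t : ℝ), 0 < t →
    H s (t • x) = t ^ (-(Module.finrank ℝ V : ℝ) * s) * H s x
  lip : ∃ C : ℝ, ∀ s ∈ Set.Ioc (1 : ℝ) 2, ∀ x y : V, ‖x‖ = 1 → ‖x - y‖ ≤ 1 / 2 →
    |H s x - H s y| ≤ C * ‖x - y‖
  lips : ∃ C : ℝ, ∀ s ∈ Set.Ioc (1 : ℝ) 2, ∀ t ∈ Set.Ioc (1 : ℝ) 2, ∀ x y : V, ‖x‖ = 1 →
    ‖x - y‖ ≤ 1 / 2 → |(H s x - H s y) - (H t x - H t y)| ≤ C * |s - t| * ‖x - y‖
  bdd : ∃ C : ℝ, ∀ s ∈ Set.Ioc (1 : ℝ) 2, ∀ x : V, ‖x‖ = 1 → |H s x| ≤ C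
  lipb : ∃ C : ℝ, ∀ s ∈ Set.Ioc (1 : ℝ) 2, ∀ t ∈ Set.Ioc (1 : ℝ) 2, ∀ x : V, ‖x‖ = 1 →
    |H s x - H t x| ≤ C * |s - t|

variable {V : Type} [NormedAddCommGroup V] [NormedSpace ℝ V] [FiniteDimensional ℝ V]

/-- The sum of `H s` over the coset `a + Λ`. -/
def Zs (H : ℝ → V → ℝ) (Λ : AddSubgroup V) (a : V) (s : ℝ) : ℝ := ∑' x : Λ, H s (a + x)

/-- Full lattices. -/
def FullLat (Λ : AddSubgroup V) : Prop :=
  DiscreteTopology Λ ∧ Submodule.span ℝ (Λ : Set V) = ⊤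

/-- The lattice as a module over the integers. -/
abbrev GalLat_L (Λ : AddSubgroup V) : Submodule ℤ V := AddSubgroup.toIntSubmodule Λ

theorem GalLat_disc {Λ : AddSubgroup V} (hΛ : FullLat Λ) : DiscreteTopology (GalLat_L Λ) := hΛ.1

theorem GalLat_zlat {Λ : AddSubgroup V} (hΛ : FullLat Λ) :
    haveI := GalLat_disc hΛ
    IsZLattice ℝ (GalLat_L Λ) := by
  have := GalLat_disc hΛ
  exact ⟨hΛ.2⟩

theorem GalLat_rank {Λ : AddSubgroup V} (hΛ : FullLat Λ) :
    Module.finrank ℤ (GalLat_L Λ) = Module.finrank ℝ V := by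
  have := GalLat_disc hΛ
  have := GalLat_zlat hΛ
  exact ZLattice.rank ℝ (GalLat_L Λ)

theorem GalLat_summable {Λ : AddSubgroup V} (hΛ : FullLat Λ) (a : V) {r : ℝ}
    (hr : r < -(Module.finrank ℝ V : ℝ)) : Summable fun x : Λ => ‖a + (x : V)‖ ^ r := by
  have := GalLat_disc hΛ
  have h1 := ZLattice.summable_norm_sub_rpow (L := GalLat_L Λ) r
    (by rw [GalLat_rank hΛ]; exact hr) (-a)
  have h2 : (fun x : Λ => ‖a + (x : V)‖ ^ r) = fun x : GalLat_L Λ => ‖(x : V) - -a‖ ^ r := by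
    funext x
    rw [sub_neg_eq_add, add_comm]
  rw [h2]
  exact h1

theorem GalLat_unit {x : V} (hx : x ≠ 0) : ‖‖x‖⁻¹ • x‖ = 1 := by
  rw [norm_smul, norm_inv, norm_norm, inv_mul_cancel₀ (norm_ne_zero_iff.2 hx)]

theorem GalLat_homog {H : ℝ → V → ℝ} (hH : Hom V H) {s : ℝ} (hs : s ∈ Set.Ioc (1 : ℝ) 2)
    {r : ℝ} (hr : 0 < r) (x : V) :
    H s x = r ^ (-(Module.finrank ℝ V : ℝ) * s) * H s (r⁻¹ • x) := by
  have h1 := hH.homog s hs (r⁻¹ • x) r hr
  rwa [smul_smul, mul_inv_cancel₀ hr.ne', one_smul] at h1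

theorem GalLat_bound {H : ℝ → V → ℝ} (hH : Hom V H) : ∃ C : ℝ, 0 ≤ C ∧
    ∀ s ∈ Set.Ioc (1 : ℝ) 2, ∀ x : V, |H s x| ≤ C * ‖x‖ ^ (-(Module.finrank ℝ V : ℝ) * s) := by
  obtain ⟨C, hC⟩ := hH.bdd
  refine ⟨|C|, abs_nonneg _, fun s hs x => ?_⟩
  by_cases hx : x = 0
  · rw [hx, hH.zero, abs_zero]
    positivity
  · have hx0 : 0 < ‖x‖ := norm_pos_iff.2 hx
    rw [GalLat_homog hH hs hx0, abs_mul, abs_of_pos (Real.rpow_pos_of_pos hx0 _)]
    refine (mul_le_mul_of_nonneg_left ((hC s hs _ (GalLat_unit hx)).trans (le_abs_self C))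
      (Real.rpow_pos_of_pos hx0 _).le).trans (le_of_eq ?_)
    exact mul_comm _ _

theorem Zs_summable {H : ℝ → V → ℝ} (hH : Hom V H) {Λ : AddSubgroup V} (hΛ : FullLat Λ)
    (a : V) {s : ℝ} (hs : s ∈ Set.Ioc (1 : ℝ) 2) : Summable fun x : Λ => H s (a + x) := by
  rcases Nat.eq_zero_or_pos (Module.finrank ℝ V) with h0 | h0
  · have : Subsingleton V := Module.finrank_zero_iff.1 h0
    exact Summable.of_finite
  · obtain ⟨C, hC, h⟩ := GalLat_bound hH
    have h1 := (GalLat_summable hΛ a (r := -(Module.finrank ℝ V : ℝ) * s) (by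
      have : (0 : ℝ) < Module.finrank ℝ V := by exact_mod_cast h0
      nlinarith [hs.1])).mul_left C
    refine Summable.of_norm_bounded h1 fun x => ?_
    rw [Real.norm_eq_abs]
    exact h s hs _

theorem GalLat_tsum {ι : Type*} {f : ι → ℝ → ℝ} {K : ι → ℝ} (hK : Summable K)
    (hf : ∀ s ∈ Set.Ioc (1 : ℝ) 2, Summable fun i => f i s)
    (h : ∀ i, ∀ s ∈ Set.Ioc (1 : ℝ) 2, ∀ t ∈ Set.Ioc (1 : ℝ) 2,
      |f i s - f i t| ≤ K i * |s - t|) : Lip fun s => ∑' i, f i s := by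
  refine ⟨∑' i, K i, fun s hs t ht => ?_⟩
  rw [← (hf s hs).tsum_sub (hf t ht), ← tsum_mul_right]
  have h1 := tsum_of_norm_bounded (hK.mul_right |s - t|).hasSum
    (f := fun i => f i s - f i t) (fun i => by rw [Real.norm_eq_abs]; exact h i s hs t ht)
  rw [Real.norm_eq_abs] at h1
  exact h1

theorem GalLat_point {H : ℝ → V → ℝ} (hH : Hom V H) (y : V) : Lip fun s => H s y := by
  by_cases hy : y = 0
  · subst hy
    simp only [hH.zero]
    exact Lip.const 0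
  · have hy0 : 0 < ‖y‖ := norm_pos_iff.2 hy
    obtain ⟨C, hC⟩ := hH.lipb
    have h1 : Lip fun s => H s (‖y‖⁻¹ • y) := ⟨C, fun s hs t ht => hC s hs t ht _ (GalLat_unit hy)⟩
    have h2 : Lip fun s => (‖y‖ ^ (-(Module.finrank ℝ V : ℝ))) ^ s :=
      Lip.rpow (Real.rpow_pos_of_pos hy0 _)
    refine (h2.mul h1).congr' fun s hs => ?_
    rw [← Real.rpow_mul hy0.le]
    exact GalLat_homog hH hs hy0 y

theorem GalLat_exp {K a b : ℝ} (ha : a ≤ K) (hb : b ≤ K) :
    |Real.exp a - Real.exp b| ≤ Real.exp K * |a - b| := by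
  have h := Convex.norm_image_sub_le_of_norm_hasDerivWithin_le (s := Set.Iic K)
    (f := Real.exp) (f' := Real.exp) (C := Real.exp K)
    (fun x _ => (Real.hasDerivAt_exp x).hasDerivWithinAt)
    (fun x hx => by
      rw [Real.norm_eq_abs, abs_of_pos (Real.exp_pos _)]
      exact Real.exp_le_exp.2 hx) (convex_Iic K) hb ha
  rwa [Real.norm_eq_abs, Real.norm_eq_abs] at h

theorem GalLat_mixed {H : ℝ → V → ℝ} (hH : Hom V H) : ∃ C : ℝ, 0 ≤ C ∧
    ∀ y v : V, 1 ≤ ‖y‖ → ‖v‖ ≤ ‖y‖ / 2 → ∀ s ∈ Set.Ioc (1 : ℝ) 2, ∀ t ∈ Set.Ioc (1 : ℝ) 2,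
    |(H s y - H s (y + v)) - (H t y - H t (y + v))| ≤
      C * ‖v‖ * ‖y‖ ^ (-(Module.finrank ℝ V : ℝ) - 1 / 2) * |s - t| := by
  obtain ⟨C₁, hC₁⟩ := hH.lips
  obtain ⟨C₂, hC₂⟩ := hH.lip
  set d : ℝ := (Module.finrank ℝ V : ℝ) with hd
  have hd0 : 0 ≤ d := by rw [hd]; positivity
  refine ⟨|C₁| + 2 * d * |C₂|, by positivity, fun y v hy hv s hs t ht => ?_⟩
  set r : ℝ := ‖y‖ with hr
  have hr0 : 0 < r := by linarith
  have hy0 : y ≠ 0 := norm_pos_iff.1 hr0
  set y' : V := r⁻¹ • y with hy'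
  set z' : V := r⁻¹ • (y + v) with hz'
  have hy1 : ‖y'‖ = 1 := GalLat_unit hy0
  have hyz : ‖y' - z'‖ = ‖v‖ / r := by
    have h1 : y' - z' = -(r⁻¹ • v) := by
      rw [hy', hz', smul_add]
      abel
    rw [h1, norm_neg, norm_smul, norm_inv, Real.norm_eq_abs, abs_of_pos hr0]
    field_simp
  have hyz2 : ‖y' - z'‖ ≤ 1 / 2 := by
    rw [hyz, div_le_iff₀ hr0]
    linarith
  have hsub : (H s y - H s (y + v)) - (H t y - H t (y + v)) =
      r ^ (-d * s) * ((H s y' - H s z') - (H t y' - H t z')) +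
        (r ^ (-d * s) - r ^ (-d * t)) * (H t y' - H t z') := by
    rw [GalLat_homog hH hs hr0 y, GalLat_homog hH hs hr0 (y + v), GalLat_homog hH ht hr0 y,
      GalLat_homog hH ht hr0 (y + v)]
    ring
  have hlog : 0 ≤ Real.log r := Real.log_nonneg hy
  have e1 : r ^ (-d * s) ≤ r ^ (-d) := by
    apply Real.rpow_le_rpow_of_exponent_le hy
    nlinarith [hs.1]
  have e2 : |r ^ (-d * s) - r ^ (-d * t)| ≤ r ^ (-d) * (d * Real.log r * |s - t|) := by
    rw [Real.rpow_def_of_pos hr0, Real.rpow_def_of_pos hr0, Real.rpow_def_of_pos hr0]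
    have h1 : Real.log r * (-d * s) ≤ Real.log r * -d :=
      mul_le_mul_of_nonneg_left (by nlinarith [hs.1]) hlog
    have h2 : Real.log r * (-d * t) ≤ Real.log r * -d :=
      mul_le_mul_of_nonneg_left (by nlinarith [ht.1]) hlog
    refine (GalLat_exp h1 h2).trans ?_
    have h3 : Real.log r * (-d * s) - Real.log r * (-d * t) = -(d * Real.log r * (s - t)) := by
      ring
    rw [h3, abs_neg, abs_mul, abs_of_nonneg (mul_nonneg hd0 hlog)]
  have e3 : Real.log r ≤ 2 * r ^ (1 / 2 : ℝ) := by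
    have := Real.log_le_rpow_div hr0.le (show (0 : ℝ) < 1 / 2 by norm_num)
    linarith
  have e4 : r ^ (-d - 1 / 2) = r ^ (-d) * r ^ (1 / 2 : ℝ) / r := by
    have e6 : r ^ (-d - 1 / 2) * r = r ^ (-d - 1 / 2 + 1) := by
      rw [Real.rpow_add hr0, Real.rpow_one]
    rw [eq_div_iff hr0.ne', ← Real.rpow_add hr0, e6]
    congr 1
    ring
  have e5 : 1 ≤ r ^ (1 / 2 : ℝ) := Real.one_le_rpow hy (by norm_num)
  have hrd : 0 < r ^ (-d) := Real.rpow_pos_of_pos hr0 _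
  have g1 : |r ^ (-d * s) * ((H s y' - H s z') - (H t y' - H t z'))| ≤
      r ^ (-d) * (|C₁| * |s - t| * (‖v‖ / r)) := by
    rw [abs_mul, abs_of_pos (Real.rpow_pos_of_pos hr0 _)]
    refine mul_le_mul e1 ?_ (abs_nonneg _) hrd.le
    refine (hC₁ s hs t ht y' z' hy1 hyz2).trans ?_
    rw [hyz]
    gcongr
    exact le_abs_self _
  have g2 : |(r ^ (-d * s) - r ^ (-d * t)) * (H t y' - H t z')| ≤
      r ^ (-d) * (d * (2 * r ^ (1 / 2 : ℝ)) * |s - t|) * (|C₂| * (‖v‖ / r)) := by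
    rw [abs_mul]
    refine mul_le_mul (e2.trans ?_) ?_ (abs_nonneg _) (by positivity)
    · gcongr
    · refine (hC₂ t ht y' z' hy1 hyz2).trans ?_
      rw [hyz]
      gcongr
      exact le_abs_self _
  rw [hsub]
  refine (abs_add_le _ _).trans ((add_le_add g1 g2).trans ?_)
  rw [e4]
  have g3 : r ^ (-d) * (|C₁| * |s - t| * (‖v‖ / r)) ≤
      r ^ (-d) * (|C₁| * |s - t| * (‖v‖ / r)) * r ^ (1 / 2 : ℝ) :=
    le_mul_of_one_le_right (by positivity) e5
  refine (add_le_add_left g3 _).trans (le_of_eq ?_)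
  ring

theorem GalLat_finite {Λ : AddSubgroup V} (hΛ : FullLat Λ) (a : V) {R : ℝ} (hR : 0 < R) :
    {x : Λ | ‖a + (x : V)‖ < R}.Finite := by
  have h1 := GalLat_summable hΛ a (r := -(Module.finrank ℝ V : ℝ) - 1) (by linarith)
  have h2 := h1.tendsto_cofinite_zero.eventually_lt_const
    (show (0 : ℝ) < R ^ (-(Module.finrank ℝ V : ℝ) - 1) by positivity)
  rw [Filter.eventually_cofinite] at h2
  have h3 : {x : Λ | a + (x : V) = 0}.Finite := by
    apply Set.Subsingleton.finite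
    intro x hx y hy
    apply Subtype.ext
    have h4 : a + (x : V) = a + (y : V) := by
      rw [Set.mem_ofPred_eq] at hx hy
      rw [hx, hy]
    exact add_left_cancel h4
  refine (h2.union h3).subset ?_
  intro x hx
  by_cases h0 : a + (x : V) = 0
  · exact Or.inr h0
  · left
    rw [Set.mem_ofPred_eq, not_lt]
    exact Real.rpow_le_rpow_of_nonpos (norm_pos_iff.2 h0) (le_of_lt hx) (by
      have : (0 : ℝ) ≤ Module.finrank ℝ V := by positivity
      linarith)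

/-- The sums over two cosets of the same lattice differ by a Lipschitz function. -/
theorem Zs_coset {H : ℝ → V → ℝ} (hH : Hom V H) {Λ : AddSubgroup V} (hΛ : FullLat Λ)
    (a b : V) : Lip fun s => Zs H Λ a s - Zs H Λ b s := by
  classical
  obtain ⟨C, hC, hmix⟩ := GalLat_mixed hH
  have hpt : ∀ x : Λ, ∃ K : ℝ, 0 ≤ K ∧ ∀ s ∈ Set.Ioc (1 : ℝ) 2, ∀ t ∈ Set.Ioc (1 : ℝ) 2,
      |(H s (a + x) - H s (b + x)) - (H t (a + x) - H t (b + x))| ≤ K * |s - t| := fun x =>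
    ((GalLat_point hH (a + x)).sub (GalLat_point hH (b + x))).nonneg_const
  choose K hK0 hK using hpt
  set v : V := b - a with hv
  set R : ℝ := 1 + 2 * ‖v‖ with hR
  have hR0 : 0 < R := by positivity
  have hfin := GalLat_finite hΛ a hR0
  set bad : Set Λ := {x : Λ | ‖a + (x : V)‖ < R} with hbad
  let K' : Λ → ℝ := fun x => C * ‖v‖ * ‖a + (x : V)‖ ^ (-(Module.finrank ℝ V : ℝ) - 1 / 2) +
    (if x ∈ bad then K x else 0)
  have hK' : Summable K' := by
    apply Summable.add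
    · exact (GalLat_summable hΛ a (by linarith)).mul_left _
    · apply summable_of_hasFiniteSupport
      refine hfin.subset ?_
      intro x hx
      by_contra h
      exact hx (if_neg h)
  have hmain : ∀ x : Λ, ∀ s ∈ Set.Ioc (1 : ℝ) 2, ∀ t ∈ Set.Ioc (1 : ℝ) 2,
      |(H s (a + x) - H s (b + x)) - (H t (a + x) - H t (b + x))| ≤ K' x * |s - t| := by
    intro x s hs t ht
    by_cases hx : x ∈ bad
    · refine (hK x s hs t ht).trans ?_
      apply mul_le_mul_of_nonneg_right _ (abs_nonneg _)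
      simp only [K', if_pos hx]
      have : 0 ≤ C * ‖v‖ * ‖a + (x : V)‖ ^ (-(Module.finrank ℝ V : ℝ) - 1 / 2) := by positivity
      linarith
    · have hx' : R ≤ ‖a + (x : V)‖ := not_lt.1 hx
      have h1 : 1 ≤ ‖a + (x : V)‖ := by
        have := norm_nonneg v
        linarith
      have h2 : ‖v‖ ≤ ‖a + (x : V)‖ / 2 := by linarith
      have h3 := hmix (a + x) v h1 h2 s hs t ht
      have h4 : a + (x : V) + v = b + x := by rw [hv]; abel
      rw [h4] at h3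
      simp only [K', if_neg hx, add_zero]
      exact h3
  refine (GalLat_tsum (f := fun (x : Λ) s => H s (a + x) - H s (b + x)) hK' (fun s hs =>
    (Zs_summable hH hΛ a hs).sub (Zs_summable hH hΛ b hs)) hmain).congr' fun s hs => ?_
  rw [Zs, Zs, (Zs_summable hH hΛ a hs).tsum_sub (Zs_summable hH hΛ b hs)]

theorem GalLat_finQ {Λ Λ' : AddSubgroup V} (hΛ : FullLat Λ) (hΛ' : FullLat Λ') (h : Λ' ≤ Λ) :
    Finite (Λ ⧸ (Λ'.addSubgroupOf Λ)) := by
  have := GalLat_disc hΛ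
  have := GalLat_zlat hΛ
  have : Module.Finite ℤ (GalLat_L Λ) := ZLattice.module_finite ℝ _
  have : Module.Free ℤ (GalLat_L Λ) := ZLattice.module_free ℝ _
  let N : Submodule ℤ (GalLat_L Λ) := (GalLat_L Λ').comap (GalLat_L Λ).subtype
  have hle : GalLat_L Λ' ≤ GalLat_L Λ := h
  have h1 : Module.finrank ℤ N = Module.finrank ℤ (GalLat_L Λ) := by
    rw [GalLat_rank hΛ, ← GalLat_rank hΛ']
    exact (Submodule.comapSubtypeEquivOfLe hle).finrank_eq
  have h2 : Finite (GalLat_L Λ ⧸ N) := Submodule.finiteQuotientOfFreeOfRankEq N h1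
  exact h2

/-- Sublattices. -/
theorem Zs_index {H : ℝ → V → ℝ} (hH : Hom V H) {Λ Λ' : AddSubgroup V} (hΛ : FullLat Λ)
    (hΛ' : FullLat Λ') (h : Λ' ≤ Λ) :
    Lip fun s => Zs H Λ 0 s - (Λ'.relIndex Λ : ℝ) * Zs H Λ' 0 s := by
  classical
  have hfin := GalLat_finQ hΛ hΛ' h
  let Q := Λ ⧸ (Λ'.addSubgroupOf Λ)
  have : Fintype Q := Fintype.ofFinite Q
  let r : Q → Λ := fun q => Quotient.out q
  have hr : ∀ q : Q, ((r q : Λ) : Q) = q := fun q => Quotient.out_eq q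
  let i : Q × Λ' → Λ := fun p => r p.1 + ⟨(p.2 : V), h p.2.2⟩
  have hi1 : ∀ p, ((i p : Λ) : Q) = p.1 := by
    intro p
    rw [← hr p.1]
    apply (QuotientAddGroup.eq (s := Λ'.addSubgroupOf Λ)).2
    rw [AddSubgroup.mem_addSubgroupOf]
    have h1 : ((-(i p) + r p.1 : Λ) : V) = -(p.2 : V) := by
      change -((r p.1 : V) + (p.2 : V)) + (r p.1 : V) = -(p.2 : V)
      abel
    rw [h1]
    exact Λ'.neg_mem p.2.2
  have hinj : Function.Injective i := by
    intro p q hpq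
    have h1 : p.1 = q.1 := by rw [← hi1 p, ← hi1 q, hpq]
    have h2 : ((i p : Λ) : V) = ((i q : Λ) : V) := congrArg _ hpq
    change (r p.1 : V) + (p.2 : V) = (r q.1 : V) + (q.2 : V) at h2
    rw [h1] at h2
    exact Prod.ext h1 (Subtype.ext (add_left_cancel h2))
  have hsurj : Function.Surjective i := by
    intro x
    have h1 : ((r (x : Q) : Λ) : Q) = (x : Q) := hr _
    have h2 := (QuotientAddGroup.eq (s := Λ'.addSubgroupOf Λ)).1 h1
    rw [AddSubgroup.mem_addSubgroupOf] at h2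
    refine ⟨((x : Q), ⟨_, h2⟩), ?_⟩
    apply Subtype.ext
    change (r (x : Q) : V) + (-(r (x : Q) : V) + (x : V)) = (x : V)
    abel
  let e : Q × Λ' ≃ Λ := Equiv.ofBijective i ⟨hinj, hsurj⟩
  have hcard : (Λ'.relIndex Λ : ℝ) = (Fintype.card Q : ℝ) := by
    rw [AddSubgroup.relIndex, AddSubgroup.index, Nat.card_eq_fintype_card]
  have hsum : ∀ s ∈ Set.Ioc (1 : ℝ) 2, Zs H Λ 0 s = ∑ q : Q, Zs H Λ' (r q : V) s := by
    intro s hs
    have h1 : Zs H Λ 0 s = ∑' p : Q × Λ', H s ((r p.1 : V) + (p.2 : V)) := by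
      rw [Zs, ← e.tsum_eq]
      refine tsum_congr fun p => ?_
      rw [zero_add]
      rfl
    have h2 : Summable fun p : Q × Λ' => H s ((r p.1 : V) + (p.2 : V)) := by
      have h3 := (e.summable_iff (f := fun x : Λ => H s ((0 : V) + x))).2
        (Zs_summable hH hΛ 0 hs)
      refine h3.congr fun p => ?_
      simp only [Function.comp, zero_add]
      rfl
    rw [h1, h2.tsum_prod' fun q => Zs_summable hH hΛ' (r q : V) hs, tsum_fintype]
    rfl
  have hL : Lip fun s => ∑ q : Q, (Zs H Λ' (r q : V) s - Zs H Λ' 0 s) :=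
    Lip.sum Finset.univ fun q _ => Zs_coset hH hΛ' _ _
  refine hL.congr' fun s hs => ?_
  rw [hsum s hs, Finset.sum_sub_distrib, Finset.sum_const, Finset.card_univ, nsmul_eq_mul, hcard]

/-- The lattice `2 Λ`. -/
def GalLat_two (Λ : AddSubgroup V) : AddSubgroup V :=
  Λ.map (DistribSMul.toAddMonoidHom V (2 : ℝ))

theorem GalLat_mem_two {Λ : AddSubgroup V} {x : V} :
    x ∈ GalLat_two Λ ↔ ∃ y ∈ Λ, (2 : ℝ) • y = x := Iff.rfl

theorem GalLat_two_le (Λ : AddSubgroup V) : GalLat_two Λ ≤ Λ := by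
  rintro _ ⟨y, hy, rfl⟩
  change (2 : ℝ) • y ∈ Λ
  rw [two_smul]
  exact Λ.add_mem hy hy

theorem GalLat_two_full {Λ : AddSubgroup V} (hΛ : FullLat Λ) : FullLat (GalLat_two Λ) := by
  constructor
  · have := hΛ.1
    exact DiscreteTopology.of_subset (s := (Λ : Set V)) hΛ.1 (GalLat_two_le Λ)
  · rw [eq_top_iff, ← hΛ.2, Submodule.span_le]
    intro x hx
    have h1 : x = (2 : ℝ)⁻¹ • ((2 : ℝ) • x) := by
      rw [smul_smul, inv_mul_cancel₀ two_ne_zero, one_smul]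
    rw [h1]
    exact Submodule.smul_mem _ _ (Submodule.subset_span ⟨x, hx, rfl⟩)

theorem GalLat_two_index {Λ : AddSubgroup V} (hΛ : FullLat Λ) :
    (GalLat_two Λ).relIndex Λ = 2 ^ Module.finrank ℝ V := by
  classical
  have := GalLat_disc hΛ
  have := GalLat_zlat hΛ
  have : Module.Finite ℤ (GalLat_L Λ) := ZLattice.module_finite ℝ _
  have : Module.Free ℤ (GalLat_L Λ) := ZLattice.module_free ℝ _
  let b := Module.finBasis ℤ (GalLat_L Λ)
  let c₀ : Λ → GalLat_L Λ := fun x => ⟨x.1, x.2⟩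
  let φ : Λ →+ (Fin (Module.finrank ℤ (GalLat_L Λ)) → ZMod 2) :=
    { toFun := fun x i => ((b.repr (c₀ x) i : ℤ) : ZMod 2)
      map_zero' := by
        funext i
        have : b.repr (0 : GalLat_L Λ) i = 0 := by simp
        change ((b.repr (0 : GalLat_L Λ) i : ℤ) : ZMod 2) = 0
        rw [this]
        simp
      map_add' := by
        intro x y
        funext i
        change ((b.repr (c₀ x + c₀ y) i : ℤ) : ZMod 2) =
          ((b.repr (c₀ x) i : ℤ) : ZMod 2) + ((b.repr (c₀ y) i : ℤ) : ZMod 2)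
        rw [map_add, Finsupp.add_apply, Int.cast_add] }
  have hker : φ.ker = (GalLat_two Λ).addSubgroupOf Λ := by
    ext x
    rw [AddMonoidHom.mem_ker, AddSubgroup.mem_addSubgroupOf, GalLat_mem_two]
    constructor
    · intro hx
      have h1 : ∀ i, ∃ c : ℤ, b.repr (c₀ x) i = 2 * c := by
        intro i
        have h2 : ((b.repr (c₀ x) i : ℤ) : ZMod 2) = 0 := congrFun hx i
        rw [ZMod.intCast_zmod_eq_zero_iff_dvd] at h2
        exact h2
      choose c hc using h1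
      let y : GalLat_L Λ := ∑ i, c i • b i
      have hy : (2 : ℤ) • y = c₀ x := by
        rw [← b.sum_repr (c₀ x), Finset.smul_sum]
        refine Finset.sum_congr rfl fun i _ => ?_
        rw [hc i, mul_smul]
      refine ⟨(y : V), y.2, ?_⟩
      have h3 : (((2 : ℤ) • y : GalLat_L Λ) : V) = (x : V) := congrArg _ hy
      rw [← h3]
      change (2 : ℝ) • (y : V) = (2 : ℤ) • (y : V)
      rw [two_smul, two_smul]
    · rintro ⟨y, hy, hyx⟩
      funext i
      let y' : GalLat_L Λ := ⟨y, hy⟩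
      have h1 : c₀ x = (2 : ℤ) • y' := by
        apply Subtype.ext
        change (x : V) = (2 : ℤ) • y
        rw [← hyx, two_smul, two_smul]
      change ((b.repr (c₀ x) i : ℤ) : ZMod 2) = 0
      rw [h1, map_smul, Finsupp.smul_apply, smul_eq_mul, Int.cast_mul]
      have h2 : ((2 : ℤ) : ZMod 2) = 0 := by decide
      rw [h2, zero_mul]
  have hsurj : Function.Surjective φ := by
    intro f
    let y : GalLat_L Λ := ∑ i, ((f i).val : ℤ) • b i
    refine ⟨y, ?_⟩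
    funext i
    change ((b.repr y i : ℤ) : ZMod 2) = f i
    have h1 : b.repr y i = ((f i).val : ℤ) := by
      have h2 := congrFun (b.repr_sum_self fun i => ((f i).val : ℤ)) i
      exact h2
    rw [h1]
    simp
  rw [AddSubgroup.relIndex, ← hker, AddSubgroup.index_ker, AddMonoidHom.range_eq_top.2 hsurj,
    AddSubgroup.card_top, Nat.card_fun]
  simp only [Nat.card_eq_fintype_card, Fintype.card_fin, ZMod.card]
  rw [GalLat_rank hΛ]

/-- `(s - 1) Z(s)` is Lipschitz. -/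
theorem Zs_pole {H : ℝ → V → ℝ} (hH : Hom V H) {Λ : AddSubgroup V} (hΛ : FullLat Λ)
    (hV : 0 < Module.finrank ℝ V) : Lip fun s => (s - 1) * Zs H Λ 0 s := by
  have h1 := (Zs_index hH hΛ (GalLat_two_full hΛ) (GalLat_two_le Λ)).mul (Lip.quot' hV)
  refine h1.congr' fun s hs => ?_
  have h2 : Zs H (GalLat_two Λ) 0 s = 2 ^ (-(Module.finrank ℝ V : ℝ) * s) * Zs H Λ 0 s := by
    have hinj : Function.Injective fun x : V => (2 : ℝ) • x := smul_right_injective V two_ne_zero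
    let e : Λ ≃ GalLat_two Λ := Equiv.ofBijective
      (fun x => ⟨(2 : ℝ) • (x : V), (x : V), x.2, rfl⟩)
      ⟨fun x y hxy => Subtype.ext (hinj (congrArg Subtype.val hxy)), by
        rintro ⟨_, y, hy, rfl⟩
        exact ⟨⟨y, hy⟩, rfl⟩⟩
    rw [Zs, Zs, ← e.tsum_eq, ← tsum_mul_left]
    refine tsum_congr fun x => ?_
    rw [zero_add, zero_add]
    exact hH.homog s hs (x : V) 2 two_pos
  rw [h2, GalLat_two_index hΛ]
  have h3 : (1 : ℝ) - 2 ^ ((Module.finrank ℝ V : ℝ) * (1 - s)) ≠ 0 := by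
    have : (2 : ℝ) ^ ((Module.finrank ℝ V : ℝ) * (1 - s)) < 1 := by
      apply Real.rpow_lt_one_of_one_lt_of_neg (by norm_num)
      have : (0 : ℝ) < Module.finrank ℝ V := by exact_mod_cast hV
      nlinarith [hs.1]
    linarith
  have h4 : ((2 ^ Module.finrank ℝ V : ℕ) : ℝ) * (2 : ℝ) ^ (-(Module.finrank ℝ V : ℝ) * s) =
      2 ^ ((Module.finrank ℝ V : ℝ) * (1 - s)) := by
    push_cast
    rw [← Real.rpow_natCast, ← Real.rpow_add two_pos]
    congr 1
    ring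
  rw [← mul_assoc, h4]
  field_simp

end Pool.Agent.CG2
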