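import Mathlib

/-!
# Lattice sums of homogeneous functions
-/

noncomputable section

namespace Pool.Agent.CG2

/-- Lipschitz functions on `(1, 2]`. -/
def Lip (f : ℝ → ℝ) : Prop := ∃ C : ℝ, ∀ s ∈ Set.Ioc (1 : ℝ) 2, ∀ t ∈ Set.Ioc (1 : ℝ) 2,
  |f s - f t| ≤ C * |s - t|

theorem Lip.add {f g : ℝ → ℝ} (hf : Lip f) (hg : Lip g) : Lip fun s => f s + g s := by
  obtain ⟨C, hC⟩ := hf
  obtain ⟨C', hC'⟩ := hg
  refine ⟨C + C', fun s hs t ht => ?_⟩
  have h1 := hC s hs t ht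
  have h2 := hC' s hs t ht
  calc |f s + g s - (f t + g t)| = |(f s - f t) + (g s - g t)| := by ring_nf
    _ ≤ |f s - f t| + |g s - g t| := abs_add_le _ _
    _ ≤ (C + C') * |s - t| := by rw [add_mul]; exact add_le_add h1 h2

theorem Lip.nonneg_const {f : ℝ → ℝ} (hf : Lip f) : ∃ C : ℝ, 0 ≤ C ∧
    ∀ s ∈ Set.Ioc (1 : ℝ) 2, ∀ t ∈ Set.Ioc (1 : ℝ) 2, |f s - f t| ≤ C * |s - t| := by
  obtain ⟨C, hC⟩ := hf
  refine ⟨max C 0, le_max_right _ _, fun s hs t ht => ?_⟩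
  exact (hC s hs t ht).trans (mul_le_mul_of_nonneg_right (le_max_left _ _) (abs_nonneg _))

theorem Lip.bdd {f : ℝ → ℝ} (hf : Lip f) : ∃ B : ℝ, ∀ s ∈ Set.Ioc (1 : ℝ) 2, |f s| ≤ B := by
  obtain ⟨C, hC0, hC⟩ := hf.nonneg_const
  refine ⟨C + |f 2|, fun s hs => ?_⟩
  have h2 : (2 : ℝ) ∈ Set.Ioc (1 : ℝ) 2 := ⟨by norm_num, le_rfl⟩
  have h := hC s hs 2 h2
  have h3 : |s - 2| ≤ 1 := by
    rw [abs_le]
    constructor <;> linarith [hs.1, hs.2]
  calc |f s| = |(f s - f 2) + f 2| := by ring_nf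
    _ ≤ |f s - f 2| + |f 2| := abs_add_le _ _
    _ ≤ C * |s - 2| + |f 2| := by linarith
    _ ≤ C * 1 + |f 2| := by gcongr
    _ = C + |f 2| := by ring

theorem Lip.mul {f g : ℝ → ℝ} (hf : Lip f) (hg : Lip g) : Lip fun s => f s * g s := by
  obtain ⟨C, hC0, hC⟩ := hf.nonneg_const
  obtain ⟨C', hC0', hC'⟩ := hg.nonneg_const
  obtain ⟨B, hB⟩ := hf.bdd
  obtain ⟨B', hB'⟩ := hg.bdd
  refine ⟨B * C' + B' * C, fun s hs t ht => ?_⟩
  have hB0 : 0 ≤ B := (abs_nonneg _).trans (hB s hs)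
  have hB0' : 0 ≤ B' := (abs_nonneg _).trans (hB' s hs)
  calc |f s * g s - f t * g t| = |f s * (g s - g t) + g t * (f s - f t)| := by ring_nf
    _ ≤ |f s * (g s - g t)| + |g t * (f s - f t)| := abs_add_le _ _
    _ = |f s| * |g s - g t| + |g t| * |f s - f t| := by rw [abs_mul, abs_mul]
    _ ≤ B * (C' * |s - t|) + B' * (C * |s - t|) := by
        gcongr
        · exact hB s hs
        · exact hC' s hs t ht
        · exact hB' t ht
        · exact hC s hs t ht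
    _ = (B * C' + B' * C) * |s - t| := by ring

theorem Lip.neg {f : ℝ → ℝ} (hf : Lip f) : Lip fun s => - f s := by
  obtain ⟨C, hC⟩ := hf
  refine ⟨C, fun s hs t ht => ?_⟩
  have h : -f s - -f t = -(f s - f t) := by ring
  rw [h, abs_neg]
  exact hC s hs t ht

theorem Lip.const (c : ℝ) : Lip fun _ => c := ⟨0, fun s _ t _ => by simp⟩

theorem Lip.sub {f g : ℝ → ℝ} (hf : Lip f) (hg : Lip g) : Lip fun s => f s - g s := by
  simpa [sub_eq_add_neg] using hf.add hg.neg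

theorem Lip.const_mul {f : ℝ → ℝ} (hf : Lip f) (c : ℝ) : Lip fun s => c * f s :=
  (Lip.const c).mul hf

theorem Lip.sum {ι : Type*} (T : Finset ι) {f : ι → ℝ → ℝ} (hf : ∀ i ∈ T, Lip (f i)) :
    Lip fun s => ∑ i ∈ T, f i s := by
  classical
  induction T using Finset.induction_on with
  | empty => simpa using Lip.const 0
  | insert a T ha ih =>
    simp only [Finset.sum_insert ha]
    exact (hf a (Finset.mem_insert_self _ _)).add
      (ih fun i hi => hf i (Finset.mem_insert_of_mem hi))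

/-- Differentiable functions with bounded derivative on `(1, 2]` are Lipschitz. -/
theorem Lip.of_deriv {f f' : ℝ → ℝ} {C : ℝ}
    (hf : ∀ s ∈ Set.Ioc (1 : ℝ) 2, HasDerivAt f (f' s) s)
    (hC : ∀ s ∈ Set.Ioc (1 : ℝ) 2, |f' s| ≤ C) : Lip f := by
  refine ⟨C, fun s hs t ht => ?_⟩
  have h := Convex.norm_image_sub_le_of_norm_hasDerivWithin_le (s := Set.Ioc (1 : ℝ) 2)
    (f := f) (f' := f') (C := C) (fun x hx => (hf x hx).hasDerivWithinAt)
    (fun x hx => by rw [Real.norm_eq_abs]; exact hC x hx) (convex_Ioc 1 2) ht hs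
  rwa [Real.norm_eq_abs, Real.norm_eq_abs] at h

/-- Difference quotients at `1` of functions with Lipschitz derivative. -/
theorem Lip.of_slope {f f' : ℝ → ℝ} {K : ℝ} (hf : ∀ s ∈ Set.Icc (1 : ℝ) 2, HasDerivAt f (f' s) s)
    (hK : ∀ s ∈ Set.Icc (1 : ℝ) 2, ∀ t ∈ Set.Icc (1 : ℝ) 2, |f' s - f' t| ≤ K * |s - t|) :
    Lip fun s => (f s - f 1) / (s - 1) := by
  have hK0 : 0 ≤ K := by
    have h := hK 1 ⟨le_rfl, by norm_num⟩ 2 ⟨by norm_num, le_rfl⟩
    have h2 : |(1 : ℝ) - 2| = 1 := by norm_num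
    rw [h2, mul_one] at h
    exact (abs_nonneg _).trans h
  refine Lip.of_deriv (f' := fun s => (f' s * (s - 1) - (f s - f 1) * 1) / (s - 1) ^ 2)
    (C := K) ?_ ?_
  · intro s hs
    have h1 : s - 1 ≠ 0 := by linarith [hs.1]
    exact (((hf s ⟨hs.1.le, hs.2⟩).sub_const (f 1)).div ((hasDerivAt_id s).sub_const 1) h1)
  · intro s hs
    have h1 : 0 < s - 1 := by linarith [hs.1]
    obtain ⟨c, hc, hc'⟩ := exists_hasDerivAt_eq_slope f f' hs.1
      (fun x hx => (hf x ⟨hx.1, hx.2.trans hs.2⟩).continuousAt.continuousWithinAt)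
      (fun x hx => hf x ⟨hx.1.le, hx.2.le.trans hs.2⟩)
    have h3 : f s - f 1 = f' c * (s - 1) := by
      rw [hc']; field_simp
    have h4 : (f' s * (s - 1) - (f s - f 1) * 1) / (s - 1) ^ 2 = (f' s - f' c) / (s - 1) := by
      rw [h3]; field_simp
    rw [h4, abs_div, abs_of_pos h1, div_le_iff₀ h1]
    calc |f' s - f' c| ≤ K * |s - c| :=
          hK s ⟨hs.1.le, hs.2⟩ c ⟨hc.1.le, hc.2.le.trans hs.2⟩
      _ ≤ K * (s - 1) := by
          have : |s - c| ≤ s - 1 := by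
            rw [abs_of_pos (by linarith [hc.2])]
            linarith [hc.1]
          gcongr

theorem Lip.rpow_aux {a : ℝ} (ha : 0 < a) (s : ℝ) :
    HasDerivAt (fun s : ℝ => a ^ s) (Real.log a * a ^ s) s := by
  have h := (hasDerivAt_id s).const_rpow ha
  simpa [mul_comm] using h

theorem Lip.rpow_bound {a : ℝ} (ha : 0 < a) {s : ℝ} (hs : s ∈ Set.Icc (1 : ℝ) 2) :
    a ^ s ≤ a + a ^ 2 := by
  rcases le_or_gt a 1 with h | h
  · have h1 : a ^ s ≤ a ^ (1 : ℝ) := Real.rpow_le_rpow_of_exponent_ge ha h hs.1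
    rw [Real.rpow_one] at h1
    nlinarith [sq_nonneg a]
  · have h1 : a ^ s ≤ a ^ (2 : ℝ) := Real.rpow_le_rpow_of_exponent_le h.le hs.2
    rw [Real.rpow_two] at h1
    linarith

/-- `a ^ s` is Lipschitz for `a > 0`. -/
theorem Lip.rpow {a : ℝ} (ha : 0 < a) : Lip fun s => a ^ s := by
  refine Lip.of_deriv (f' := fun s => Real.log a * a ^ s) (C := |Real.log a| * (a + a ^ 2))
    (fun s _ => Lip.rpow_aux ha s) ?_
  intro s hs
  rw [abs_mul, abs_of_pos (Real.rpow_pos_of_pos ha s)]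
  gcongr
  exact Lip.rpow_bound ha ⟨hs.1.le, hs.2⟩

theorem Lip.rpow_Icc {a : ℝ} (ha : 0 < a) : ∀ s ∈ Set.Icc (1 : ℝ) 2, ∀ t ∈ Set.Icc (1 : ℝ) 2,
    |a ^ s - a ^ t| ≤ |Real.log a| * (a + a ^ 2) * |s - t| := by
  intro s hs t ht
  have h := Convex.norm_image_sub_le_of_norm_hasDerivWithin_le (s := Set.Icc (1 : ℝ) 2)
    (f := fun s : ℝ => a ^ s) (f' := fun s => Real.log a * a ^ s)
    (C := |Real.log a| * (a + a ^ 2)) (fun x hx => (Lip.rpow_aux ha x).hasDerivWithinAt)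
    (fun x hx => by
      rw [Real.norm_eq_abs, abs_mul, abs_of_pos (Real.rpow_pos_of_pos ha x)]
      gcongr
      exact Lip.rpow_bound ha hx) (convex_Icc 1 2) ht hs
  rwa [Real.norm_eq_abs, Real.norm_eq_abs] at h

/-- A Lipschitz multiple: if `f` is smooth with `f 1 = 0`, here `f s = b * a ^ s - a * b ^ s`,
then `f s / (s - 1)` is Lipschitz. -/
theorem Lip.quot {a b : ℝ} (ha : 0 < a) (hb : 0 < b) :
    Lip fun s => (b * a ^ s - a * b ^ s) / (s - 1) := by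
  have h := Lip.of_slope (f := fun s : ℝ => b * a ^ s - a * b ^ s)
    (f' := fun s => b * (Real.log a * a ^ s) - a * (Real.log b * b ^ s))
    (K := b * (|Real.log a| * (|Real.log a| * (a + a ^ 2))) +
      a * (|Real.log b| * (|Real.log b| * (b + b ^ 2))))
    (fun s _ => ((Lip.rpow_aux ha s).const_mul b).sub ((Lip.rpow_aux hb s).const_mul a)) ?_
  · have h1 : ∀ s : ℝ, ((b * a ^ s - a * b ^ s) - (b * a ^ (1 : ℝ) - a * b ^ (1 : ℝ))) =
        b * a ^ s - a * b ^ s := by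
      intro s
      rw [Real.rpow_one, Real.rpow_one]; ring
    simpa only [h1] using h
  · intro s hs t ht
    have h1 := Lip.rpow_Icc ha s hs t ht
    have h2 := Lip.rpow_Icc hb s hs t ht
    calc |b * (Real.log a * a ^ s) - a * (Real.log b * b ^ s) -
          (b * (Real.log a * a ^ t) - a * (Real.log b * b ^ t))|
        = |b * (Real.log a * (a ^ s - a ^ t)) - a * (Real.log b * (b ^ s - b ^ t))| := by
          ring_nf
      _ ≤ |b * (Real.log a * (a ^ s - a ^ t))| + |a * (Real.log b * (b ^ s - b ^ t))| :=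
          abs_sub _ _
      _ = b * (|Real.log a| * |a ^ s - a ^ t|) + a * (|Real.log b| * |b ^ s - b ^ t|) := by
          rw [abs_mul, abs_mul, abs_mul, abs_mul, abs_of_pos ha, abs_of_pos hb]
      _ ≤ b * (|Real.log a| * (|Real.log a| * (a + a ^ 2) * |s - t|)) +
          a * (|Real.log b| * (|Real.log b| * (b + b ^ 2) * |s - t|)) := by gcongr
      _ = _ := by ring

/-- The inverse of a Lipschitz function which is bounded below. -/
theorem Lip.inv {f : ℝ → ℝ} (hf : Lip f) {c : ℝ} (hc : 0 < c)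
    (hb : ∀ s ∈ Set.Ioc (1 : ℝ) 2, c ≤ f s) : Lip fun s => (f s)⁻¹ := by
  obtain ⟨C, hC0, hC⟩ := hf.nonneg_const
  refine ⟨C / c ^ 2, fun s hs t ht => ?_⟩
  have h1 : 0 < f s := hc.trans_le (hb s hs)
  have h2 : 0 < f t := hc.trans_le (hb t ht)
  have h3 : (f s)⁻¹ - (f t)⁻¹ = (f t - f s) / (f s * f t) := by field_simp
  rw [h3, abs_div, abs_of_pos (mul_pos h1 h2), abs_sub_comm, div_mul_eq_mul_div]
  gcongr
  · exact hC s hs t ht
  · rw [sq]
    exact mul_le_mul (hb s hs) (hb t ht) hc.le h1.le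

theorem Lip.congr' {f g : ℝ → ℝ} (hf : Lip f) (h : ∀ s ∈ Set.Ioc (1 : ℝ) 2, g s = f s) :
    Lip g := by
  obtain ⟨C, hC⟩ := hf
  refine ⟨C, fun s hs t ht => ?_⟩
  rw [h s hs, h t ht]
  exact hC s hs t ht

/-- The function `(s - 1) / (1 - 2 ^ (d (1 - s)))` is Lipschitz. -/
theorem Lip.quot' {d : ℕ} (hd : 0 < d) :
    Lip fun s => (s - 1) / (1 - (2 : ℝ) ^ ((d : ℝ) * (1 - s))) := by
  set a : ℝ := (2 : ℝ) ^ (-(d : ℝ)) with ha
  have ha0 : 0 < a := Real.rpow_pos_of_pos (by norm_num) _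
  have ha1 : a < 1 := by
    rw [ha]
    apply Real.rpow_lt_one_of_one_lt_of_neg (by norm_num)
    have : (0 : ℝ) < d := by exact_mod_cast hd
    linarith
  have hpow : ∀ s : ℝ, (2 : ℝ) ^ ((d : ℝ) * (1 - s)) = a ^ s / a := by
    intro s
    rw [ha, ← Real.rpow_mul (by norm_num), ← Real.rpow_sub (by norm_num)]
    congr 1
    ring
  have h := (Lip.quot (a := 1) (b := a) one_pos ha0).const_mul a⁻¹
  have hlow : ∀ s ∈ Set.Ioc (1 : ℝ) 2,
      (1 - a) ≤ a⁻¹ * ((a * 1 ^ s - 1 * a ^ s) / (s - 1)) := by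
    intro s hs
    have h1 : 0 < s - 1 := by linarith [hs.1]
    have h2 : a ^ (s - 1) ≤ 1 - (s - 1) * (1 - a) := by
      have hcv := Real.add_one_le_exp 0
      have h5 := (convexOn_exp).2 (Set.mem_univ (0 : ℝ)) (Set.mem_univ (Real.log a))
        (show 0 ≤ 1 - (s - 1) by linarith [hs.2]) h1.le (by ring)
      simp only [smul_eq_mul, mul_zero, zero_add, Real.exp_zero, mul_one] at h5
      rw [Real.exp_log ha0] at h5
      rw [Real.rpow_def_of_pos ha0, mul_comm (Real.log a)]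
      linarith
    have h3 : a⁻¹ * ((a * 1 ^ s - 1 * a ^ s) / (s - 1)) = (1 - a ^ (s - 1)) / (s - 1) := by
      rw [Real.one_rpow, Real.rpow_sub ha0, Real.rpow_one]
      field_simp
    rw [h3, le_div_iff₀ h1]
    linarith
  have h4 := h.inv (c := 1 - a) (by linarith) hlow
  refine h4.congr' ?_
  intro s hs
  have h1 : 0 < s - 1 := by linarith [hs.1]
  rw [hpow, Real.one_rpow]
  have h6 : a ^ s < a := by
    have := Real.rpow_lt_rpow_of_exponent_gt ha0 ha1 hs.1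
    rwa [Real.rpow_one] at this
  have h7 : a - a ^ s ≠ 0 := by linarith
  have h8 : a * 1 - 1 * a ^ s ≠ 0 := by simpa using h7
  have h9 : 1 - a ^ s / a ≠ 0 := by
    rw [ne_eq, sub_eq_zero, eq_div_iff ha0.ne']
    intro h
    apply h7
    linarith
  field_simp

/-- A Lipschitz function has a limit at `1` which it approaches linearly. -/
theorem Lip.lim {f : ℝ → ℝ} (hf : Lip f) : ∃ L C : ℝ, ∀ s ∈ Set.Ioc (1 : ℝ) 2,
    |f s - L| ≤ C * (s - 1) := by
  obtain ⟨C, hC0, hC⟩ := hf.nonneg_const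
  have h1 : LipschitzOnWith ⟨C, hC0⟩ f (Set.Ioc (1 : ℝ) 2) := by
    apply LipschitzOnWith.of_dist_le_mul
    intro x hx y hy
    rw [Real.dist_eq, Real.dist_eq]
    exact hC x hx y hy
  obtain ⟨g, hg, hgf⟩ := h1.extend_real
  refine ⟨g 1, C, fun s hs => ?_⟩
  rw [hgf hs]
  have h2 := hg.dist_le_mul s 1
  rw [Real.dist_eq, Real.dist_eq, abs_of_pos (show 0 < s - 1 by linarith [hs.1])] at h2
  exact h2

end Pool.Agent.CG2
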