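import Pool.Agent.CG2.GalLat
import Pool.Agent.CG2.Defs

/-!
# A fundamental function for the action of the units on the positive orthant
-/

noncomputable section

namespace Pool.Agent.CG2

/-- Bounded Lipschitz functions on all annuli. -/
def GalOmega_LG {V : Type} [NormedAddCommGroup V] (f : V → ℝ) : Prop :=
  ∀ r : ℝ, 0 < r → ∃ C : ℝ, 0 ≤ C ∧ ∀ x y : V, r ≤ ‖x‖ → ‖x‖ ≤ r⁻¹ → r ≤ ‖y‖ → ‖y‖ ≤ r⁻¹ →
    |f x| ≤ C ∧ |f x - f y| ≤ C * ‖x - y‖

namespace GalOmega_LG

variable {V : Type} [NormedAddCommGroup V] {f g : V → ℝ}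

theorem of_lip {K : ℝ} (h : ∀ x y, |f x - f y| ≤ K * ‖x - y‖) : GalOmega_LG f := by
  intro r hr
  refine ⟨|K| + |f 0| + |K| * r⁻¹, by positivity, fun x y hx hx' hy hy' => ⟨?_, ?_⟩⟩
  · have h1 := h x 0
    rw [sub_zero] at h1
    have h2 : K * ‖x‖ ≤ |K| * r⁻¹ :=
      mul_le_mul (le_abs_self K) hx' (norm_nonneg _) (abs_nonneg _)
    calc |f x| = |(f x - f 0) + f 0| := by ring_nf
      _ ≤ |f x - f 0| + |f 0| := abs_add_le _ _
      _ ≤ _ := by
        have := abs_nonneg K
        linarith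
  · refine (h x y).trans ?_
    apply mul_le_mul_of_nonneg_right _ (norm_nonneg _)
    have := le_abs_self K
    have := abs_nonneg (f 0)
    have : 0 ≤ |K| * r⁻¹ := by positivity
    linarith

theorem const (c : ℝ) : GalOmega_LG (fun _ : V => c) :=
  of_lip (K := 0) fun x y => by simp

theorem add (hf : GalOmega_LG f) (hg : GalOmega_LG g) : GalOmega_LG fun x => f x + g x := by
  intro r hr
  obtain ⟨C, hC, h1⟩ := hf r hr
  obtain ⟨D, hD, h2⟩ := hg r hr
  refine ⟨C + D, by positivity, fun x y hx hx' hy hy' => ⟨?_, ?_⟩⟩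
  · exact (abs_add_le _ _).trans (add_le_add (h1 x y hx hx' hy hy').1 (h2 x y hx hx' hy hy').1)
  · have h3 : f x + g x - (f y + g y) = (f x - f y) + (g x - g y) := by ring
    rw [h3, add_mul]
    exact (abs_add_le _ _).trans (add_le_add (h1 x y hx hx' hy hy').2 (h2 x y hx hx' hy hy').2)

theorem mul (hf : GalOmega_LG f) (hg : GalOmega_LG g) : GalOmega_LG fun x => f x * g x := by
  intro r hr
  obtain ⟨C, hC, h1⟩ := hf r hr
  obtain ⟨D, hD, h2⟩ := hg r hr
  refine ⟨2 * (C * D), by positivity, fun x y hx hx' hy hy' => ⟨?_, ?_⟩⟩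
  · rw [abs_mul]
    have := mul_le_mul (h1 x y hx hx' hy hy').1 (h2 x y hx hx' hy hy').1 (abs_nonneg _) hC
    have : 0 ≤ C * D := by positivity
    linarith
  · have h3 : f x * g x - f y * g y = f x * (g x - g y) + g y * (f x - f y) := by ring
    rw [h3]
    refine (abs_add_le _ _).trans ?_
    rw [abs_mul, abs_mul]
    have h4 := mul_le_mul (h1 x y hx hx' hy hy').1 (h2 x y hx hx' hy hy').2 (abs_nonneg _) hC
    have h5 := mul_le_mul (h2 y x hy hy' hx hx').1 (h1 x y hx hx' hy hy').2 (abs_nonneg _) hD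
    linarith

theorem sum {ι : Type*} (T : Finset ι) {f : ι → V → ℝ} (hf : ∀ i ∈ T, GalOmega_LG (f i)) :
    GalOmega_LG fun x => ∑ i ∈ T, f i x := by
  classical
  induction T using Finset.induction_on with
  | empty => simpa using const 0
  | insert a T ha ih =>
    simp only [Finset.sum_insert ha]
    exact (hf a (Finset.mem_insert_self _ _)).add
      (ih fun i hi => hf i (Finset.mem_insert_of_mem hi))

theorem prod {ι : Type*} (T : Finset ι) {f : ι → V → ℝ} (hf : ∀ i ∈ T, GalOmega_LG (f i)) :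
    GalOmega_LG fun x => ∏ i ∈ T, f i x := by
  classical
  induction T using Finset.induction_on with
  | empty => simpa using const 1
  | insert a T ha ih =>
    simp only [Finset.prod_insert ha]
    exact (hf a (Finset.mem_insert_self _ _)).mul
      (ih fun i hi => hf i (Finset.mem_insert_of_mem hi))

theorem pow (hf : GalOmega_LG f) (n : ℕ) : GalOmega_LG fun x => f x ^ n := by
  induction n with
  | zero => simpa using const 1
  | succ n ih =>
    simp only [pow_succ]
    exact ih.mul hf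

theorem max_const (hf : GalOmega_LG f) (c : ℝ) : GalOmega_LG fun x => max (f x) c := by
  intro r hr
  obtain ⟨C, hC, h1⟩ := hf r hr
  refine ⟨C + |c|, by positivity, fun x y hx hx' hy hy' => ⟨?_, ?_⟩⟩
  · have h2 := (h1 x y hx hx' hy hy').1
    change |max (f x) c| ≤ C + |c|
    rcases le_total (f x) c with h | h
    · rw [max_eq_right h]; linarith
    · rw [max_eq_left h]
      have := abs_nonneg c
      linarith
  · refine (abs_max_sub_max_le_abs _ _ _).trans ((h1 x y hx hx' hy hy').2.trans ?_)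
    apply mul_le_mul_of_nonneg_right _ (norm_nonneg _)
    have := abs_nonneg c
    linarith

theorem inv (hf : GalOmega_LG f)
    (h : ∀ r : ℝ, 0 < r → ∃ c : ℝ, 0 < c ∧ ∀ x, r ≤ ‖x‖ → ‖x‖ ≤ r⁻¹ → c ≤ f x) :
    GalOmega_LG fun x => (f x)⁻¹ := by
  intro r hr
  obtain ⟨C, hC, h1⟩ := hf r hr
  obtain ⟨c, hc, h2⟩ := h r hr
  refine ⟨c⁻¹ + C / c ^ 2, by positivity, fun x y hx hx' hy hy' => ⟨?_, ?_⟩⟩
  · have h3 := h2 x hx hx'
    rw [abs_inv, abs_of_pos (hc.trans_le h3)]
    have h4 := inv_anti₀ hc h3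
    have : 0 ≤ C / c ^ 2 := by positivity
    linarith
  · have h3 := h2 x hx hx'
    have h4 := h2 y hy hy'
    have hx0 := hc.trans_le h3
    have hy0 := hc.trans_le h4
    have h5 : (f x)⁻¹ - (f y)⁻¹ = (f y - f x) / (f x * f y) := by field_simp
    rw [h5, abs_div, abs_of_pos (mul_pos hx0 hy0), abs_sub_comm]
    have h6 := (h1 x y hx hx' hy hy').2
    calc |f x - f y| / (f x * f y) ≤ C * ‖x - y‖ / (c ^ 2) := by
          gcongr
          rw [sq]
          exact mul_le_mul h3 h4 hc.le hx0.le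
      _ = C / c ^ 2 * ‖x - y‖ := by ring
      _ ≤ (c⁻¹ + C / c ^ 2) * ‖x - y‖ := by
          apply mul_le_mul_of_nonneg_right _ (norm_nonneg _)
          have : 0 < c⁻¹ := by positivity
          linarith

theorem log (hf : GalOmega_LG f) {c : ℝ} (hc : 0 < c) (h : ∀ x, c ≤ f x) :
    GalOmega_LG fun x => Real.log (f x) := by
  intro r hr
  obtain ⟨C, hC, h1⟩ := hf r hr
  refine ⟨C + |Real.log c| + C / c, by positivity, fun x y hx hx' hy hy' => ⟨?_, ?_⟩⟩
  · have h2 := (h1 x y hx hx' hy hy').1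
    have h3 := h x
    have hx0 := hc.trans_le h3
    have h4 : Real.log (f x) ≤ C := by
      have := Real.log_le_sub_one_of_pos hx0
      have := le_abs_self (f x)
      linarith
    have h5 : Real.log c ≤ Real.log (f x) := Real.log_le_log hc h3
    have h6 := neg_abs_le (Real.log c)
    have h7 : 0 ≤ C / c := by positivity
    have h8 := abs_nonneg (Real.log c)
    rw [abs_le]
    constructor <;> linarith
  · have key : ∀ a b : ℝ, c ≤ a → c ≤ b → Real.log a - Real.log b ≤ |a - b| / c := by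
      intro a b ha hb
      have hb0 := hc.trans_le hb
      have ha0 := hc.trans_le ha
      rw [← Real.log_div ha0.ne' hb0.ne']
      have h2 := Real.log_le_sub_one_of_pos (div_pos ha0 hb0)
      have h3 : a / b - 1 = (a - b) / b := by field_simp
      rw [h3] at h2
      refine h2.trans ?_
      calc (a - b) / b ≤ |a - b| / b := by
            gcongr
            exact le_abs_self _
        _ ≤ |a - b| / c := by gcongr
    have h2 : |Real.log (f x) - Real.log (f y)| ≤ |f x - f y| / c := by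
      rw [abs_le]
      have h3 := key _ _ (h x) (h y)
      have h4 := key _ _ (h y) (h x)
      rw [abs_sub_comm] at h4
      constructor <;> linarith
    have h6 := (h1 x y hx hx' hy hy').2
    calc |Real.log (f x) - Real.log (f y)| ≤ |f x - f y| / c := h2
      _ ≤ C * ‖x - y‖ / c := by gcongr
      _ = C / c * ‖x - y‖ := by ring
      _ ≤ (C + |Real.log c| + C / c) * ‖x - y‖ := by
          apply mul_le_mul_of_nonneg_right _ (norm_nonneg _)
          have := abs_nonneg (Real.log c)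
          linarith

theorem comp (hf : GalOmega_LG f) {T : V → V} {K a : ℝ} (ha : 0 < a)
    (h1 : ∀ x y, ‖T x - T y‖ ≤ K * ‖x - y‖) (h2 : ∀ x, a * ‖x‖ ≤ ‖T x‖)
    (h3 : ∀ x, ‖T x‖ ≤ a⁻¹ * ‖x‖) : GalOmega_LG fun x => f (T x) := by
  intro r hr
  obtain ⟨C, hC, h⟩ := hf (a * r) (by positivity)
  refine ⟨C + C * |K|, by positivity, fun x y hx hx' hy hy' => ?_⟩
  have h4 : ∀ x, r ≤ ‖x‖ → a * r ≤ ‖T x‖ := fun x hx =>
    (mul_le_mul_of_nonneg_left hx ha.le).trans (h2 x)
  have h5 : ∀ x, ‖x‖ ≤ r⁻¹ → ‖T x‖ ≤ (a * r)⁻¹ := by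
    intro x hx
    rw [mul_inv]
    exact (h3 x).trans (mul_le_mul_of_nonneg_left hx (by positivity))
  have h6 := h (T x) (T y) (h4 x hx) (h5 x hx') (h4 y hy) (h5 y hy')
  constructor
  · have : 0 ≤ C * |K| := by positivity
    linarith [h6.1]
  · refine h6.2.trans ?_
    calc C * ‖T x - T y‖ ≤ C * (K * ‖x - y‖) := by gcongr; exact h1 x y
      _ ≤ C * (|K| * ‖x - y‖) := by gcongr; exact le_abs_self K
      _ ≤ (C + C * |K|) * ‖x - y‖ := by
          have : 0 ≤ C * ‖x - y‖ := by positivity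
          linarith

end GalOmega_LG

/-- The uniform version, with a parameter. -/
def GalOmega_L2 {V : Type} [NormedAddCommGroup V] (f : ℝ → V → ℝ) : Prop :=
  ∃ C : ℝ, 0 ≤ C ∧ ∀ s ∈ Set.Ioc (1 : ℝ) 2, ∀ t ∈ Set.Ioc (1 : ℝ) 2, ∀ x y : V,
    1 / 2 ≤ ‖x‖ → ‖x‖ ≤ 3 / 2 → 1 / 2 ≤ ‖y‖ → ‖y‖ ≤ 3 / 2 →
    |f s x| ≤ C ∧ |f s x - f s y| ≤ C * ‖x - y‖ ∧ |f s x - f t x| ≤ C * |s - t| ∧
      |(f s x - f s y) - (f t x - f t y)| ≤ C * |s - t| * ‖x - y‖

namespace GalOmega_L2

variable {V : Type} [NormedAddCommGroup V] {f g : ℝ → V → ℝ}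

theorem of_LG {f : V → ℝ} (hf : GalOmega_LG f) : GalOmega_L2 fun _ x => f x := by
  obtain ⟨C, hC, h⟩ := hf (1 / 2) (by norm_num)
  refine ⟨C, hC, fun s _ t _ x y hx hx' hy hy' => ?_⟩
  have h1 := h x y hx (by norm_num; linarith) hy (by norm_num; linarith)
  refine ⟨h1.1, h1.2, ?_, ?_⟩
  · rw [sub_self, abs_zero]; positivity
  · rw [sub_self, abs_zero]; positivity

theorem mul (hf : GalOmega_L2 f) (hg : GalOmega_L2 g) : GalOmega_L2 fun s x => f s x * g s x := by
  obtain ⟨C, hC, h⟩ := hf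
  obtain ⟨D, hD, k⟩ := hg
  refine ⟨4 * (C * D), by positivity, fun s hs t ht x y hx hx' hy hy' => ?_⟩
  obtain ⟨a1, a2, a3, a4⟩ := h s hs t ht x y hx hx' hy hy'
  obtain ⟨b1, b2, b3, b4⟩ := k s hs t ht x y hx hx' hy hy'
  obtain ⟨c1, c2, c3, c4⟩ := h s hs t ht y x hy hy' hx hx'
  obtain ⟨d1, d2, d3, d4⟩ := k s hs t ht y x hy hy' hx hx'
  obtain ⟨e1, e2, e3, e4⟩ := h t ht s hs x y hx hx' hy hy'
  obtain ⟨g1, g2, g3, g4⟩ := k t ht s hs x y hx hx' hy hy'
  obtain ⟨i1, i2, i3, i4⟩ := h t ht s hs y x hy hy' hx hx'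
  obtain ⟨j1, j2, j3, j4⟩ := k t ht s hs y x hy hy' hx hx'
  have hCD : 0 ≤ C * D := by positivity
  refine ⟨?_, ?_, ?_, ?_⟩
  · rw [abs_mul]
    have := mul_le_mul a1 b1 (abs_nonneg _) hC
    linarith
  · have h3 : f s x * g s x - f s y * g s y
        = f s x * (g s x - g s y) + g s y * (f s x - f s y) := by ring
    rw [h3]
    refine (abs_add_le _ _).trans ?_
    rw [abs_mul, abs_mul]
    have h4 := mul_le_mul a1 b2 (abs_nonneg _) hC
    have h5 := mul_le_mul d1 a2 (abs_nonneg _) hD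
    have : 0 ≤ C * D * ‖x - y‖ := by positivity
    linarith
  · have h3 : f s x * g s x - f t x * g t x
        = f s x * (g s x - g t x) + g t x * (f s x - f t x) := by ring
    rw [h3]
    refine (abs_add_le _ _).trans ?_
    rw [abs_mul, abs_mul]
    have h4 := mul_le_mul a1 b3 (abs_nonneg _) hC
    have h5 := mul_le_mul g1 a3 (abs_nonneg _) hD
    have : 0 ≤ C * D * |s - t| := by positivity
    linarith
  · have h3 : f s x * g s x - f s y * g s y - (f t x * g t x - f t y * g t y)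
        = ((f s x - f s y) - (f t x - f t y)) * g s x + (f t x - f t y) * (g s x - g t x)
          + (f s y - f t y) * (g s x - g s y)
          + f t y * ((g s x - g s y) - (g t x - g t y)) := by ring
    rw [h3]
    have q1 : |((f s x - f s y) - (f t x - f t y)) * g s x| ≤ (C * |s - t| * ‖x - y‖) * D := by
      rw [abs_mul]
      exact mul_le_mul a4 b1 (abs_nonneg _) (by positivity)
    have q2 : |(f t x - f t y) * (g s x - g t x)| ≤ (C * ‖x - y‖) * (D * |s - t|) := by
      rw [abs_mul]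
      exact mul_le_mul e2 b3 (abs_nonneg _) (by positivity)
    have q3 : |(f s y - f t y) * (g s x - g s y)| ≤ (C * |s - t|) * (D * ‖x - y‖) := by
      rw [abs_mul]
      exact mul_le_mul c3 b2 (abs_nonneg _) (by positivity)
    have q4 : |f t y * ((g s x - g s y) - (g t x - g t y))| ≤ C * (D * |s - t| * ‖x - y‖) := by
      rw [abs_mul]
      exact mul_le_mul i1 b4 (abs_nonneg _) (by positivity)
    refine (abs_add_le _ _).trans ?_
    refine (add_le_add ((abs_add_le _ _).trans (add_le_add (abs_add_le _ _) le_rfl)) le_rfl).trans ?_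
    linarith

theorem exp_bound {M : ℝ} {s a : ℝ} (hs : s ∈ Set.Ioc (1 : ℝ) 2) (ha : |a| ≤ M) :
    Real.exp (-s * a) ≤ Real.exp (2 * M) := by
  rw [Real.exp_le_exp]
  have h1 := (abs_le.1 ha).1
  have h2 := abs_nonneg a
  have hM : 0 ≤ M := h2.trans ha
  rcases le_or_gt 0 a with h | h
  · have : 0 ≤ s * a := mul_nonneg (by linarith [hs.1]) h
    linarith
  · have : s * (-a) ≤ 2 * M := mul_le_mul hs.2 (by linarith) (by linarith) (by norm_num)
    linarith

theorem exp_lip {K a b : ℝ} (ha : a ≤ K) (hb : b ≤ K) :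
    |Real.exp a - Real.exp b| ≤ Real.exp K * |a - b| := by
  have h := Convex.norm_image_sub_le_of_norm_hasDerivWithin_le (s := Set.Iic K)
    (f := Real.exp) (f' := Real.exp) (C := Real.exp K)
    (fun x _ => (Real.hasDerivAt_exp x).hasDerivWithinAt)
    (fun x hx => by
      rw [Real.norm_eq_abs, abs_of_pos (Real.exp_pos _)]
      exact Real.exp_le_exp.2 hx) (convex_Iic K) hb ha
  rwa [Real.norm_eq_abs, Real.norm_eq_abs] at h

theorem exp_param {M : ℝ} {s t a : ℝ} (hs : s ∈ Set.Ioc (1 : ℝ) 2) (ht : t ∈ Set.Ioc (1 : ℝ) 2)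
    (ha : |a| ≤ M) :
    |Real.exp (-s * a) - Real.exp (-t * a)| ≤ Real.exp (2 * M) * M * |s - t| := by
  have h1 := exp_lip (Real.exp_le_exp.1 (exp_bound hs ha)) (Real.exp_le_exp.1 (exp_bound ht ha))
  refine h1.trans ?_
  have h2 : -s * a - -t * a = -((s - t) * a) := by ring
  rw [h2, abs_neg, abs_mul]
  calc Real.exp (2 * M) * (|s - t| * |a|) ≤ Real.exp (2 * M) * (|s - t| * M) := by gcongr
    _ = _ := by ring

theorem exp_mixed {M : ℝ} {s t a b : ℝ} (hs : s ∈ Set.Ioc (1 : ℝ) 2)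
    (ht : t ∈ Set.Ioc (1 : ℝ) 2) (ha : |a| ≤ M) (hb : |b| ≤ M) :
    |(Real.exp (-s * a) - Real.exp (-s * b)) - (Real.exp (-t * a) - Real.exp (-t * b))| ≤
      (Real.exp (2 * M) + 2 * (Real.exp (2 * M) * M)) * |s - t| * |a - b| := by
  have h := Convex.norm_image_sub_le_of_norm_hasDerivWithin_le (s := Set.Icc (-M) M)
    (f := fun a => Real.exp (-s * a) - Real.exp (-t * a))
    (f' := fun a => Real.exp (-s * a) * (-s * 1) - Real.exp (-t * a) * (-t * 1))
    (C := (Real.exp (2 * M) + 2 * (Real.exp (2 * M) * M)) * |s - t|)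
    (x := b) (y := a)
    (fun x _ => (((((hasDerivAt_id x).const_mul (-s)).exp).sub
      (((hasDerivAt_id x).const_mul (-t)).exp))).hasDerivWithinAt) ?_ (convex_Icc _ _)
      (abs_le.1 hb) (abs_le.1 ha)
  · rw [Real.norm_eq_abs, Real.norm_eq_abs] at h
    refine le_trans (le_of_eq ?_) h
    congr 1
    ring
  · intro x hx
    have hx' : |x| ≤ M := abs_le.2 hx
    rw [Real.norm_eq_abs]
    have h3 : Real.exp (-s * x) * (-s * 1) - Real.exp (-t * x) * (-t * 1)
        = -((s - t) * Real.exp (-s * x)) - t * (Real.exp (-s * x) - Real.exp (-t * x)) := by ring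
    rw [h3]
    have h4 := exp_param hs ht hx'
    have h5 := exp_bound hs hx'
    have ht0 : 0 < t := by linarith [ht.1]
    calc |-((s - t) * Real.exp (-s * x)) - t * (Real.exp (-s * x) - Real.exp (-t * x))|
        ≤ |-((s - t) * Real.exp (-s * x))| + |t * (Real.exp (-s * x) - Real.exp (-t * x))| :=
          abs_sub _ _
      _ = |s - t| * Real.exp (-s * x) + t * |Real.exp (-s * x) - Real.exp (-t * x)| := by
          rw [abs_neg, abs_mul, abs_mul, abs_of_pos (Real.exp_pos _), abs_of_pos ht0]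
      _ ≤ |s - t| * Real.exp (2 * M) + 2 * (Real.exp (2 * M) * M * |s - t|) := by
          gcongr
          exact ht.2
      _ = _ := by ring

theorem exp {l : V → ℝ} (hl : GalOmega_LG l) : GalOmega_L2 fun s x => Real.exp (-s * l x) := by
  obtain ⟨C, hC, h⟩ := hl (1 / 2) (by norm_num)
  set E := Real.exp (2 * C) with hE
  have hE1 : 1 ≤ E := Real.one_le_exp (by positivity)
  refine ⟨E + E * (2 * C) + E * C + (E + 2 * (E * C)) * C, by positivity,
    fun s hs t ht x y hx hx' hy hy' => ?_⟩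
  have h1 := h x y hx (by norm_num; linarith) hy (by norm_num; linarith)
  have h2 := h y x hy (by norm_num; linarith) hx (by norm_num; linarith)
  have p1 : 0 ≤ E * (2 * C) := by positivity
  have p2 : 0 ≤ E * C := by positivity
  have p3 : 0 ≤ (E + 2 * (E * C)) * C := by positivity
  refine ⟨?_, ?_, ?_, ?_⟩
  · rw [abs_of_pos (Real.exp_pos _)]
    have := exp_bound hs h1.1
    linarith
  · have q := exp_lip (Real.exp_le_exp.1 (exp_bound hs h1.1))
      (Real.exp_le_exp.1 (exp_bound hs h2.1))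
    refine q.trans ?_
    have h3 : -s * l x - -s * l y = -(s * (l x - l y)) := by ring
    rw [h3, abs_neg, abs_mul, abs_of_pos (show 0 < s by linarith [hs.1])]
    calc Real.exp (2 * C) * (s * |l x - l y|) ≤ E * (2 * (C * ‖x - y‖)) := by
          gcongr
          · exact hs.2
          · exact h1.2
      _ = E * (2 * C) * ‖x - y‖ := by ring
      _ ≤ _ := by
          apply mul_le_mul_of_nonneg_right _ (norm_nonneg _)
          linarith
  · have q := exp_param hs ht h1.1
    refine q.trans ?_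
    apply mul_le_mul_of_nonneg_right _ (abs_nonneg _)
    linarith
  · have q := exp_mixed hs ht h1.1 h2.1
    refine q.trans ?_
    calc (Real.exp (2 * C) + 2 * (Real.exp (2 * C) * C)) * |s - t| * |l x - l y|
        ≤ (E + 2 * (E * C)) * |s - t| * (C * ‖x - y‖) := by
          gcongr
          exact h1.2
      _ = (E + 2 * (E * C)) * C * |s - t| * ‖x - y‖ := by ring
      _ ≤ _ := by
          apply mul_le_mul_of_nonneg_right _ (norm_nonneg _)
          apply mul_le_mul_of_nonneg_right _ (abs_nonneg _)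
          linarith

end GalOmega_L2

open NumberField IsDedekindDomain NumberField.mixedEmbedding
open scoped Classical

variable (F : Type) [Field F] [NumberField F]

/-- The positive orthant in `F ⊗ ℝ`. -/
def Orth : Set (mixedSpace F) :=
  {x | (∀ w, 0 < x.1 w) ∧ ∀ w, x.2 w ≠ 0}

theorem GalOmega_le_norm (x : mixedSpace F) (w : InfinitePlace F) : normAtPlace w x ≤ ‖x‖ := by
  rw [norm_eq_sup'_normAtPlace]
  exact Finset.le_sup' (fun w => normAtPlace w x) (Finset.mem_univ w)

theorem GalOmega_norm_le {x : mixedSpace F} {r : ℝ} (h : ∀ w, normAtPlace w x ≤ r) : ‖x‖ ≤ r := by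
  rw [norm_eq_sup'_normAtPlace]
  exact Finset.sup'_le _ _ fun w _ => h w

theorem GalOmega_log_norm {x : mixedSpace F} (hx : mixedEmbedding.norm x ≠ 0) :
    Real.log (mixedEmbedding.norm x) =
      ∑ w : InfinitePlace F, (w.mult : ℝ) * Real.log (normAtPlace w x) := by
  rw [mixedEmbedding.norm_apply, Real.log_prod]
  · simp_rw [Real.log_pow]
  · intro w _
    exact pow_ne_zero _ (mixedEmbedding.norm_ne_zero_iff.1 hx w)

/-- In the fundamental cone all the absolute values are comparable. -/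
theorem GalOmega_cone : ∃ c : ℝ, 0 < c ∧ ∀ x ∈ fundamentalCone F, ∀ w,
    c * ‖x‖ ≤ normAtPlace w x := by
  have hbd := ZSpan.fundamentalDomain_isBounded
    ((NumberField.Units.basisUnitLattice F).ofZLatticeBasis ℝ _)
  obtain ⟨R, hR⟩ := hbd.exists_norm_le
  have hR0 : ∀ x ∈ fundamentalCone F, 0 ≤ R := fun x hx => (norm_nonneg _).trans (hR _ hx.1)
  set d : ℝ := ((Module.finrank ℚ F : ℕ) : ℝ) with hd
  have hd0 : 0 < d := by rw [hd]; exact_mod_cast Module.finrank_pos
  set k : ℝ := ((Fintype.card (InfinitePlace F) : ℕ) : ℝ) with hk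
  have hk1 : 1 ≤ k := by
    rw [hk]
    exact_mod_cast Fintype.card_pos
  have key : ∀ x ∈ fundamentalCone F, ∀ w : InfinitePlace F,
      |Real.log (normAtPlace w x) - Real.log (mixedEmbedding.norm x) / d| ≤ k * R := by
    intro x hx
    have h1 : ∀ w : InfinitePlace F, w ≠ NumberField.Units.dirichletUnitTheorem.w₀ →
        |(w.mult : ℝ) * (Real.log (normAtPlace w x) - Real.log (mixedEmbedding.norm x) / d)|
          ≤ R := by
      intro w hw
      have h2 := (norm_le_pi_norm (logMap x) ⟨w, hw⟩).trans (hR _ hx.1)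
      rw [Real.norm_eq_abs, logMap_apply] at h2
      exact h2
    have h3 : ∑ w : InfinitePlace F,
        (w.mult : ℝ) * (Real.log (normAtPlace w x) - Real.log (mixedEmbedding.norm x) / d) = 0 := by
      simp_rw [mul_sub]
      rw [Finset.sum_sub_distrib, ← GalOmega_log_norm F hx.2, ← Finset.sum_mul, ← Nat.cast_sum,
        InfinitePlace.sum_mult_eq]
      field_simp
      ring
    have h4 : ∀ w : InfinitePlace F,
        |(w.mult : ℝ) * (Real.log (normAtPlace w x) - Real.log (mixedEmbedding.norm x) / d)|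
          ≤ k * R := by
      intro w
      by_cases hw : w = NumberField.Units.dirichletUnitTheorem.w₀
      · have h5 := Finset.add_sum_erase Finset.univ (fun w : InfinitePlace F =>
          (w.mult : ℝ) * (Real.log (normAtPlace w x) - Real.log (mixedEmbedding.norm x) / d))
          (Finset.mem_univ w)
        rw [h3] at h5
        rw [eq_neg_of_add_eq_zero_left h5, abs_neg]
        refine (Finset.abs_sum_le_sum_abs _ _).trans ?_
        refine (Finset.sum_le_card_nsmul _ _ R ?_).trans ?_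
        · intro i hi
          apply h1
          rw [← hw]
          exact Finset.ne_of_mem_erase hi
        · rw [nsmul_eq_mul]
          apply mul_le_mul_of_nonneg_right _ (hR0 x hx)
          rw [hk]
          exact_mod_cast (Finset.card_le_card (Finset.erase_subset _ _)).trans (by simp)
      · refine (h1 w hw).trans ?_
        nlinarith [hR0 x hx]
    intro w
    refine le_trans ?_ (h4 w)
    rw [abs_mul, abs_of_pos (show (0 : ℝ) < w.mult by exact_mod_cast InfinitePlace.mult_pos)]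
    have := InfinitePlace.one_le_mult (w := w)
    nlinarith [abs_nonneg (Real.log (normAtPlace w x) - Real.log (mixedEmbedding.norm x) / d)]
  refine ⟨Real.exp (-(2 * (k * R))), Real.exp_pos _, fun x hx w => ?_⟩
  have hpos := fundamentalCone.normAtPlace_pos_of_mem hx
  have h6 : ∀ w' : InfinitePlace F, normAtPlace w' x ≤
      Real.exp (2 * (k * R)) * normAtPlace w x := by
    intro w'
    have h7 := abs_le.1 (key x hx w)
    have h8 := abs_le.1 (key x hx w')
    rw [← Real.exp_log (hpos w'), ← Real.exp_log (hpos w), ← Real.exp_add, Real.exp_le_exp]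
    linarith [h7.1, h8.2]
  have h9 := GalOmega_norm_le F h6
  rw [Real.exp_neg, inv_mul_le_iff₀ (Real.exp_pos _)]
  exact h9

omit [NumberField F] in
theorem GalOmega_unit (x : mixedSpace F) (u : (𝓞 F)ˣ) (w : InfinitePlace F) :
    normAtPlace w (u • x) = w ((u : 𝓞 F) : F) * normAtPlace w x := by
  rw [unitSMul_smul, map_mul, normAtPlace_apply]

omit [NumberField F] in
theorem GalOmega_unit_pos (u : (𝓞 F)ˣ) (w : InfinitePlace F) : 0 < w ((u : 𝓞 F) : F) := by
  have : ((u : 𝓞 F) : F) ≠ 0 := by simp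
  exact (AbsoluteValue.pos_iff _).2 this

theorem GalOmega_exists (U : Subgroup (𝓞 F)ˣ) (hU : U.FiniteIndex) :
    ∃ c : ℝ, 0 < c ∧ ∀ x : mixedSpace F, mixedEmbedding.norm x ≠ 0 → ∃ u ∈ U, ∀ w,
      c * ‖u • x‖ ≤ normAtPlace w (u • x) := by
  obtain ⟨c, hc, hcone⟩ := GalOmega_cone F
  have := hU
  have hfin : Finite ((𝓞 F)ˣ ⧸ U) := inferInstance
  let g : ((𝓞 F)ˣ ⧸ U) × InfinitePlace F → ℝ := fun p => p.2 (((Quotient.out p.1 : (𝓞 F)ˣ) : 𝓞 F) : F)
  obtain ⟨p1, hp1⟩ := Finite.exists_max g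
  obtain ⟨p2, hp2⟩ := Finite.exists_min g
  have hM : 0 < g p1 := GalOmega_unit_pos F _ _
  have hm : 0 < g p2 := GalOmega_unit_pos F _ _
  refine ⟨g p2 * c / g p1, by positivity, fun x hx => ?_⟩
  obtain ⟨u₀, hu₀⟩ := fundamentalCone.exists_unit_smul_mem hx
  have h1 := hcone _ hu₀
  let q : (𝓞 F)ˣ ⧸ U := QuotientGroup.mk u₀⁻¹
  let r : (𝓞 F)ˣ := Quotient.out q
  have hr : (r : (𝓞 F)ˣ ⧸ U) = q := Quotient.out_eq q
  have hmem : r * u₀ ∈ U := by
    have h2 := (QuotientGroup.eq (s := U)).1 hr.symm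
    rw [inv_inv] at h2
    rw [mul_comm]
    exact h2
  refine ⟨r * u₀, hmem, fun w => ?_⟩
  rw [mul_smul]
  have h3 : ‖r • u₀ • x‖ ≤ g p1 * ‖u₀ • x‖ := by
    apply GalOmega_norm_le
    intro w'
    rw [GalOmega_unit]
    exact mul_le_mul (hp1 (q, w')) (GalOmega_le_norm F _ _) (normAtPlace_nonneg _ _) hM.le
  rw [GalOmega_unit F (u₀ • x) r w]
  calc g p2 * c / g p1 * ‖r • u₀ • x‖ ≤ g p2 * c / g p1 * (g p1 * ‖u₀ • x‖) := by gcongr
    _ = g p2 * (c * ‖u₀ • x‖) := by field_simp
    _ ≤ w ((r : 𝓞 F) : F) * normAtPlace w (u₀ • x) :=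
        mul_le_mul (hp2 (q, w)) (h1 w) (by positivity) (GalOmega_unit_pos F _ _).le

theorem GalOmega_finite (B : ℝ) : {u : (𝓞 F)ˣ | ∀ w : InfinitePlace F,
    w ((u : 𝓞 F) : F) ≤ B}.Finite := by
  have h := Embeddings.finite_of_norm_le F ℂ B
  refine Set.Finite.of_finite_image (f := fun u : (𝓞 F)ˣ => ((u : 𝓞 F) : F)) (h.subset ?_) ?_
  · rintro _ ⟨u, hu, rfl⟩
    exact ⟨(u : 𝓞 F).isIntegral_coe, (InfinitePlace.le_iff_le _ _).1 hu⟩
  · intro u _ v _ huv
    exact Units.ext (RingOfIntegers.ext huv)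

theorem GalOmega_bound {δ : ℝ} (hδ : 0 < δ) {x : mixedSpace F} (hx : x ≠ 0) (u : (𝓞 F)ˣ)
    (h1 : ∀ w, δ * ‖x‖ ≤ normAtPlace w x) (h2 : ∀ w, δ * ‖u • x‖ ≤ normAtPlace w (u • x))
    (w : InfinitePlace F) : w ((u : 𝓞 F) : F) ≤ (δ ^ 2)⁻¹ := by
  have hx0 : 0 < ‖x‖ := norm_pos_iff.2 hx
  have hN : (δ * ‖u • x‖) ^ Module.finrank ℚ F ≤ ‖x‖ ^ Module.finrank ℚ F := by
    calc (δ * ‖u • x‖) ^ Module.finrank ℚ F ≤ mixedEmbedding.norm (u • x) := by
          rw [mixedEmbedding.norm_apply, ← InfinitePlace.sum_mult_eq, ← Finset.prod_pow_eq_pow_sum]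
          apply Finset.prod_le_prod
          · intro i _
            positivity
          · intro i _
            exact pow_le_pow_left₀ (by positivity) (h2 i) _
      _ = mixedEmbedding.norm x := norm_unit_smul u x
      _ ≤ ‖x‖ ^ Module.finrank ℚ F := by
          rw [mixedEmbedding.norm_apply, ← InfinitePlace.sum_mult_eq, ← Finset.prod_pow_eq_pow_sum]
          apply Finset.prod_le_prod
          · intro i _
            exact pow_nonneg (normAtPlace_nonneg _ _) _
          · intro i _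
            exact pow_le_pow_left₀ (normAtPlace_nonneg _ _) (GalOmega_le_norm F _ _) _
  have h3 : δ * ‖u • x‖ ≤ ‖x‖ :=
    (pow_le_pow_iff_left₀ (by positivity) hx0.le Module.finrank_pos.ne').1 hN
  have h4 : w ((u : 𝓞 F) : F) * normAtPlace w x ≤ ‖u • x‖ := by
    rw [← GalOmega_unit]
    exact GalOmega_le_norm F _ _
  have h5 : 0 < normAtPlace w x := lt_of_lt_of_le (by positivity) (h1 w)
  have h6 : w ((u : 𝓞 F) : F) * (δ * ‖x‖) ≤ ‖x‖ / δ := by
    calc w ((u : 𝓞 F) : F) * (δ * ‖x‖) ≤ w ((u : 𝓞 F) : F) * normAtPlace w x := by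
          have := (GalOmega_unit_pos F u w).le
          gcongr
          exact h1 w
      _ ≤ ‖u • x‖ := h4
      _ ≤ ‖x‖ / δ := by rw [le_div_iff₀ hδ]; linarith
  have h7 : w ((u : 𝓞 F) : F) * δ ^ 2 * ‖x‖ ≤ 1 * ‖x‖ := by
    rw [le_div_iff₀ hδ] at h6
    calc _ = w ((u : 𝓞 F) : F) * (δ * ‖x‖) * δ := by ring
      _ ≤ ‖x‖ := h6
      _ = _ := by ring
  have h8 := le_of_mul_le_mul_right h7 hx0
  rw [← one_div, le_div_iff₀ (by positivity)]
  exact h8

/-- The cut off function. -/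
def GalOmega_g (δ : ℝ) (x : mixedSpace F) : ℝ :=
  (∏ w : {w : InfinitePlace F // w.IsReal}, max (x.1 w * ‖x‖⁻¹ - δ) 0) *
    ∏ w : {w : InfinitePlace F // w.IsComplex}, max (‖x.2 w‖ * ‖x‖⁻¹ - δ) 0

theorem GalOmega_g_nonneg (δ : ℝ) (x : mixedSpace F) : 0 ≤ GalOmega_g F δ x :=
  mul_nonneg (Finset.prod_nonneg fun _ _ => le_max_right _ _)
    (Finset.prod_nonneg fun _ _ => le_max_right _ _)

theorem GalOmega_g_supp {δ : ℝ} (hδ : 0 < δ) {x : mixedSpace F} (h : GalOmega_g F δ x ≠ 0) :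
    x ≠ 0 ∧ x ∈ Orth F ∧ ∀ w, δ * ‖x‖ ≤ normAtPlace w x := by
  rw [GalOmega_g, mul_ne_zero_iff, Finset.prod_ne_zero_iff, Finset.prod_ne_zero_iff] at h
  have h1 : ∀ w : {w : InfinitePlace F // w.IsReal}, δ < x.1 w * ‖x‖⁻¹ := by
    intro w
    have := h.1 w (Finset.mem_univ _)
    by_contra hc
    exact this (max_eq_right (by linarith [not_lt.1 hc]))
  have h2 : ∀ w : {w : InfinitePlace F // w.IsComplex}, δ < ‖x.2 w‖ * ‖x‖⁻¹ := by
    intro w
    have := h.2 w (Finset.mem_univ _)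
    by_contra hc
    exact this (max_eq_right (by linarith [not_lt.1 hc]))
  have hx : x ≠ 0 := by
    rintro rfl
    obtain ⟨w⟩ : Nonempty (InfinitePlace F) := inferInstance
    rcases w.isReal_or_isComplex with hw | hw
    · have := h1 ⟨w, hw⟩
      simp at this
      linarith
    · have := h2 ⟨w, hw⟩
      simp at this
      linarith
  have hx0 : 0 < ‖x‖ := norm_pos_iff.2 hx
  have h1' : ∀ w : {w : InfinitePlace F // w.IsReal}, δ * ‖x‖ < x.1 w := by
    intro w
    have := h1 w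
    rwa [← div_eq_mul_inv, lt_div_iff₀ hx0] at this
  have h2' : ∀ w : {w : InfinitePlace F // w.IsComplex}, δ * ‖x‖ < ‖x.2 w‖ := by
    intro w
    have := h2 w
    rwa [← div_eq_mul_inv, lt_div_iff₀ hx0] at this
  have hp : 0 < δ * ‖x‖ := by positivity
  refine ⟨hx, ⟨fun w => hp.trans (h1' w), fun w => norm_pos_iff.1 (hp.trans (h2' w))⟩, fun w => ?_⟩
  rcases w.isReal_or_isComplex with hw | hw
  · rw [normAtPlace_apply_of_isReal hw]
    exact (h1' ⟨w, hw⟩).le.trans (le_abs_self _)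
  · rw [normAtPlace_apply_of_isComplex hw]
    exact (h2' ⟨w, hw⟩).le

theorem GalOmega_g_low {δ : ℝ} (hδ : 0 < δ) {x : mixedSpace F} (hx : x ∈ Orth F) (hx0 : x ≠ 0)
    (h : ∀ w, 2 * δ * ‖x‖ ≤ normAtPlace w x) :
    δ ^ Fintype.card {w : InfinitePlace F // w.IsReal} *
      δ ^ Fintype.card {w : InfinitePlace F // w.IsComplex} ≤ GalOmega_g F δ x := by
  have hn : 0 < ‖x‖ := norm_pos_iff.2 hx0
  have h3 : ∀ a : ℝ, 2 * δ * ‖x‖ ≤ a → δ ≤ max (a * ‖x‖⁻¹ - δ) 0 := by
    intro a ha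
    refine le_trans ?_ (le_max_left _ _)
    rw [← div_eq_mul_inv]
    rw [← le_div_iff₀ hn] at ha
    linarith
  rw [GalOmega_g]
  apply mul_le_mul
  · rw [← Finset.card_univ, ← Finset.prod_const]
    apply Finset.prod_le_prod (fun _ _ => hδ.le)
    intro w _
    apply h3
    have := h w.1
    rwa [normAtPlace_apply_of_isReal w.2, Real.norm_eq_abs, abs_of_pos (hx.1 _)] at this
  · rw [← Finset.card_univ, ← Finset.prod_const]
    apply Finset.prod_le_prod (fun _ _ => hδ.le)
    intro w _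
    apply h3
    have := h w.1
    rwa [normAtPlace_apply_of_isComplex w.2] at this
  · positivity
  · exact Finset.prod_nonneg fun _ _ => le_max_right _ _

theorem GalOmega_g_smul (δ : ℝ) {t : ℝ} (ht : 0 < t) (x : mixedSpace F) :
    GalOmega_g F δ (t • x) = GalOmega_g F δ x := by
  have h1 : ∀ a : ℝ, (t * a) * ‖t • x‖⁻¹ = a * ‖x‖⁻¹ := by
    intro a
    rw [_root_.norm_smul, Real.norm_eq_abs, abs_of_pos ht, mul_inv]
    field_simp
  rw [GalOmega_g, GalOmega_g]
  congr 1
  · apply Finset.prod_congr rfl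
    intro w _
    have h2 : (t • x).1 w = t * x.1 w := rfl
    rw [h2, h1]
  · apply Finset.prod_congr rfl
    intro w _
    have h2 : ‖(t • x).2 w‖ = t * ‖x.2 w‖ := by
      have : (t • x).2 w = t • x.2 w := rfl
      rw [this, _root_.norm_smul, Real.norm_eq_abs, abs_of_pos ht]
    rw [h2, h1]

theorem GalOmega_g_LG (δ : ℝ) : GalOmega_LG (GalOmega_g F δ) := by
  have hn : GalOmega_LG (fun x : mixedSpace F => ‖x‖⁻¹) := by
    apply GalOmega_LG.inv
    · apply GalOmega_LG.of_lip (K := 1)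
      intro x y
      rw [one_mul]
      exact abs_norm_sub_norm_le x y
    · intro r hr
      exact ⟨r, hr, fun x hx _ => hx⟩
  refine GalOmega_LG.mul (GalOmega_LG.prod _ fun w _ => ?_) (GalOmega_LG.prod _ fun w _ => ?_)
  · refine GalOmega_LG.max_const (f := fun x : mixedSpace F => x.1 w * ‖x‖⁻¹ - δ) ?_ 0
    simp only [sub_eq_add_neg]
    refine GalOmega_LG.add (GalOmega_LG.mul ?_ hn) (GalOmega_LG.const _)
    apply GalOmega_LG.of_lip (K := 1)
    intro x y
    rw [one_mul]
    have : x.1 w - y.1 w = (x - y).1 w := rfl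
    rw [this]
    exact (norm_le_pi_norm (x - y).1 w).trans (norm_fst_le _)
  · refine GalOmega_LG.max_const (f := fun x : mixedSpace F => ‖x.2 w‖ * ‖x‖⁻¹ - δ) ?_ 0
    simp only [sub_eq_add_neg]
    refine GalOmega_LG.add (GalOmega_LG.mul ?_ hn) (GalOmega_LG.const _)
    apply GalOmega_LG.of_lip (K := 1)
    intro x y
    rw [one_mul]
    refine (abs_norm_sub_norm_le _ _).trans ?_
    have : x.2 w - y.2 w = (x - y).2 w := rfl
    rw [this]
    exact (norm_le_pi_norm (x - y).2 w).trans (norm_snd_le _)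

theorem GalOmega_norm_LG : GalOmega_LG (fun x : mixedSpace F => mixedEmbedding.norm x) := by
  simp_rw [mixedEmbedding.norm_apply]
  refine GalOmega_LG.prod _ fun w _ => GalOmega_LG.pow ?_ _
  apply GalOmega_LG.of_lip (K := 1)
  intro x y
  rw [one_mul, abs_le]
  have h1 := normAtPlace_add_le w (x - y) y
  have h2 := normAtPlace_add_le w (y - x) x
  have h3 := GalOmega_le_norm F (x - y) w
  have h4 := GalOmega_le_norm F (y - x) w
  rw [norm_sub_rev] at h4
  rw [sub_add_cancel] at h1 h2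
  constructor <;> linarith

theorem GalOmega_unit_comp {f : mixedSpace F → ℝ} (hf : GalOmega_LG f) (u : (𝓞 F)ˣ) :
    GalOmega_LG fun x => f (u • x) := by
  have key : ∀ u : (𝓞 F)ˣ, ∃ K : ℝ, 0 < K ∧ ∀ x : mixedSpace F, ‖u • x‖ ≤ K * ‖x‖ := by
    intro u
    obtain ⟨w0, hw0⟩ := Finite.exists_max fun w : InfinitePlace F => w ((u : 𝓞 F) : F)
    refine ⟨w0 ((u : 𝓞 F) : F), GalOmega_unit_pos F u w0, fun x => ?_⟩
    apply GalOmega_norm_le
    intro w
    rw [GalOmega_unit]
    exact mul_le_mul (hw0 w) (GalOmega_le_norm F x w) (normAtPlace_nonneg _ _)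
      (GalOmega_unit_pos F u w0).le
  obtain ⟨K, hK, h1⟩ := key u
  obtain ⟨K', hK', h2⟩ := key u⁻¹
  have ha : 0 < min K'⁻¹ K⁻¹ := by positivity
  refine hf.comp (K := K) ha ?_ ?_ ?_
  · intro x y
    have : u • x - u • y = u • (x - y) := by
      rw [unitSMul_smul, unitSMul_smul, unitSMul_smul, mul_sub]
    rw [this]
    exact h1 _
  · intro x
    have h3 := h2 (u • x)
    rw [inv_smul_smul] at h3
    calc min K'⁻¹ K⁻¹ * ‖x‖ ≤ K'⁻¹ * ‖x‖ := by gcongr; exact min_le_left _ _
      _ ≤ ‖u • x‖ := by rw [inv_mul_le_iff₀ hK']; exact h3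
  · intro x
    refine (h1 x).trans ?_
    gcongr
    rw [le_inv_comm₀ hK ha]
    exact min_le_right _ _

omit [NumberField F] in
theorem GalOmega_orth_unit {U : Subgroup (𝓞 F)ˣ}
    (hpos : ∀ u ∈ U, ∀ w : {w : InfinitePlace F // w.IsReal},
      0 < InfinitePlace.embedding_of_isReal w.2 (((u : (𝓞 F)ˣ) : 𝓞 F) : F)) {u : (𝓞 F)ˣ}
    (hu : u ∈ U) {x : mixedSpace F} (hx : x ∈ Orth F) : u • x ∈ Orth F := by
  constructor
  · intro w
    exact mul_pos (hpos u hu w) (hx.1 w)
  · intro w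
    have h : w.1.embedding ((u : 𝓞 F) : F) ≠ 0 := by simp
    exact mul_ne_zero h (hx.2 w)

theorem GalOmega_orth_norm {x : mixedSpace F} (hx : x ∈ Orth F) : mixedEmbedding.norm x ≠ 0 := by
  rw [mixedEmbedding.norm_ne_zero_iff]
  intro w
  rcases w.isReal_or_isComplex with hw | hw
  · rw [normAtPlace_apply_of_isReal hw]
    exact norm_ne_zero_iff.2 (hx.1 ⟨w, hw⟩).ne'
  · rw [normAtPlace_apply_of_isComplex hw]
    exact norm_ne_zero_iff.2 (hx.2 ⟨w, hw⟩)

/-- The sum of `H s` over the orbit of `x` under the group `U` of units is `|N x| ^ (-s)`, for all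
`x` in the positive orthant; `H s` is zero outside the positive orthant. -/
theorem exists_omega (U : Subgroup (𝓞 F)ˣ) (hU : U.FiniteIndex)
    (hpos : ∀ u ∈ U, ∀ w : {w : InfinitePlace F // w.IsReal},
      0 < InfinitePlace.embedding_of_isReal w.2 (((u : (𝓞 F)ˣ) : 𝓞 F) : F)) :
    ∃ H : ℝ → mixedSpace F → ℝ, Hom (mixedSpace F) H ∧
      (∀ s x, H s x ≠ 0 → x ∈ Orth F) ∧
      ∀ s ∈ Set.Ioc (1 : ℝ) 2, ∀ x ∈ Orth F,
        Summable (fun u : U => H s (mixedEmbedding F (((u : (𝓞 F)ˣ) : 𝓞 F) : F) * x)) ∧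
        ∑' u : U, H s (mixedEmbedding F (((u : (𝓞 F)ˣ) : 𝓞 F) : F) * x) =
          mixedEmbedding.norm x ^ (-s) := by
  obtain ⟨c, hc, hex⟩ := GalOmega_exists F U hU
  set δ : ℝ := c / 2 with hδdef
  have hδ : 0 < δ := by positivity
  set κ : ℝ := δ ^ Fintype.card {w : InfinitePlace F // w.IsReal} *
      δ ^ Fintype.card {w : InfinitePlace F // w.IsComplex} with hκdef
  have hκ : 0 < κ := by positivity
  have hAfin : {u : U | ∀ w : InfinitePlace F, w (((u : (𝓞 F)ˣ) : 𝓞 F) : F) ≤ (δ ^ 2)⁻¹}.Finite :=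
    (GalOmega_finite F (δ ^ 2)⁻¹).preimage (Subtype.val_injective.injOn)
  set A : Finset U := hAfin.toFinset with hA
  have hAmem : ∀ u : U, ∀ x : mixedSpace F, GalOmega_g F δ x ≠ 0 →
      GalOmega_g F δ ((u : (𝓞 F)ˣ) • x) ≠ 0 → u ∈ A := by
    intro u x h1 h2
    have h3 := GalOmega_g_supp F hδ h1
    have h4 := GalOmega_g_supp F hδ h2
    rw [hA, Set.Finite.mem_toFinset]
    exact fun w => GalOmega_bound F hδ h3.1 u h3.2.2 h4.2.2 w
  let S : mixedSpace F → ℝ := fun x => ∑ u ∈ A, GalOmega_g F δ ((u : (𝓞 F)ˣ) • x)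
  let om : mixedSpace F → ℝ := fun x => GalOmega_g F δ x * (max (S x) κ)⁻¹
  have hom0 : ∀ x, 0 ≤ om x := fun x =>
    mul_nonneg (GalOmega_g_nonneg F δ x) (inv_nonneg.2 (hκ.le.trans (le_max_right _ _)))
  have homne : ∀ x, om x ≠ 0 → GalOmega_g F δ x ≠ 0 := fun x h h0 => h (by
    change GalOmega_g F δ x * (max (S x) κ)⁻¹ = 0
    rw [h0, zero_mul])
  have hSsmul : ∀ (t : ℝ), 0 < t → ∀ x, S (t • x) = S x := by
    intro t ht x
    apply Finset.sum_congr rfl
    intro u _
    have h1 : (u : (𝓞 F)ˣ) • (t • x) = t • ((u : (𝓞 F)ˣ) • x) := by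
      rw [unitSMul_smul, unitSMul_smul, mul_smul_comm]
    rw [h1, GalOmega_g_smul F δ ht]
  have homsmul : ∀ (t : ℝ), 0 < t → ∀ x, om (t • x) = om x := by
    intro t ht x
    change GalOmega_g F δ (t • x) * (max (S (t • x)) κ)⁻¹ = GalOmega_g F δ x * (max (S x) κ)⁻¹
    rw [GalOmega_g_smul F δ ht, hSsmul t ht]
  have homLG : GalOmega_LG om := by
    refine (GalOmega_g_LG F δ).mul ?_
    refine GalOmega_LG.inv (f := fun x => max (S x) κ) ?_ ?_
    · refine GalOmega_LG.max_const (f := S) ?_ κ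
      exact GalOmega_LG.sum _ fun u _ => GalOmega_unit_comp F (GalOmega_g_LG F δ) _
    · intro r _
      exact ⟨κ, hκ, fun x _ _ => le_max_right _ _⟩
  set b : ℝ := (δ / 2) ^ Module.finrank ℚ F with hbdef
  have hb : 0 < b := by positivity
  have hL2 : GalOmega_L2 (V := mixedSpace F) fun s x =>
      om x * Real.exp (-s * Real.log (max (mixedEmbedding.norm x) b)) := by
    refine (GalOmega_L2.of_LG homLG).mul (GalOmega_L2.exp ?_)
    exact ((GalOmega_norm_LG F).max_const b).log hb fun x => le_max_right _ _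
  have hagree : ∀ (s : ℝ) (x : mixedSpace F), 1 / 2 ≤ ‖x‖ →
      om x * mixedEmbedding.norm x ^ (-s) =
        om x * Real.exp (-s * Real.log (max (mixedEmbedding.norm x) b)) := by
    intro s x hx
    by_cases h0 : om x = 0
    · rw [h0, zero_mul, zero_mul]
    · have h1 := GalOmega_g_supp F hδ (homne x h0)
      have h2 : b ≤ mixedEmbedding.norm x := by
        rw [mixedEmbedding.norm_apply, hbdef, ← InfinitePlace.sum_mult_eq,
          ← Finset.prod_pow_eq_pow_sum]
        apply Finset.prod_le_prod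
        · intro i _
          positivity
        · intro i _
          refine pow_le_pow_left₀ (by positivity) (le_trans ?_ (h1.2.2 i)) _
          nlinarith
      rw [max_eq_left h2, Real.rpow_def_of_pos (hb.trans_le h2), mul_comm (Real.log _)]
  obtain ⟨C, hC, hLip⟩ := hL2
  have hball : ∀ x y : mixedSpace F, ‖x‖ = 1 → ‖x - y‖ ≤ 1 / 2 →
      1 / 2 ≤ ‖y‖ ∧ ‖y‖ ≤ 3 / 2 := by
    intro x y hx hxy
    have h1 := norm_sub_norm_le x y
    have h2 := norm_sub_norm_le y x
    rw [norm_sub_rev] at h2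
    constructor <;> linarith
  refine ⟨fun s x => om x * mixedEmbedding.norm x ^ (-s), ⟨?_, ?_, ?_, ?_, ?_, ?_, ?_⟩, ?_, ?_⟩
  · intro s x
    exact mul_nonneg (hom0 x) (Real.rpow_nonneg (mixedEmbedding.norm_nonneg _) _)
  · intro s
    have h0 : om 0 = 0 := by
      by_contra h
      exact (GalOmega_g_supp F hδ (homne 0 h)).1 rfl
    simp only [h0, zero_mul]
  · intro s hs x t ht
    simp only [homsmul t ht, mixedEmbedding.finrank]
    rw [mixedEmbedding.norm_smul, abs_of_pos ht,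
      Real.mul_rpow (by positivity) (mixedEmbedding.norm_nonneg _), ← Real.rpow_natCast,
      ← Real.rpow_mul ht.le]
    have h1 : ((Module.finrank ℚ F : ℕ) : ℝ) * -s = -((Module.finrank ℚ F : ℕ) : ℝ) * s := by ring
    rw [h1]
    ring
  · refine ⟨C, fun s hs x y hx hxy => ?_⟩
    obtain ⟨h1, h2⟩ := hball x y hx hxy
    have h3 := hLip s hs s hs x y (by linarith) (by linarith) h1 h2
    rw [hagree s x (by linarith), hagree s y h1]
    exact h3.2.1
  · refine ⟨C, fun s hs t ht x y hx hxy => ?_⟩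
    obtain ⟨h1, h2⟩ := hball x y hx hxy
    have h3 := hLip s hs t ht x y (by linarith) (by linarith) h1 h2
    rw [hagree s x (by linarith), hagree s y h1, hagree t x (by linarith), hagree t y h1]
    exact h3.2.2.2
  · refine ⟨C, fun s hs x hx => ?_⟩
    have h3 := hLip s hs s hs x x (by linarith) (by linarith) (by linarith) (by linarith)
    rw [hagree s x (by linarith)]
    exact h3.1
  · refine ⟨C, fun s hs t ht x hx => ?_⟩
    have h3 := hLip s hs t ht x x (by linarith) (by linarith) (by linarith) (by linarith)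
    rw [hagree s x (by linarith), hagree t x (by linarith)]
    exact h3.2.2.1
  · intro s x h
    exact (GalOmega_g_supp F hδ (homne x (left_ne_zero_of_mul h))).2.1
  · intro s hs x hx
    have hxN := GalOmega_orth_norm F hx
    obtain ⟨u₀, hu₀, hu₀x⟩ := hex x hxN
    have hy : (u₀ • x) ∈ Orth F := GalOmega_orth_unit F hpos hu₀ hx
    have hy0 : u₀ • x ≠ 0 := by
      intro h
      have := GalOmega_orth_norm F hy
      rw [h] at this
      exact this (map_zero _)
    have hgy : κ ≤ GalOmega_g F δ (u₀ • x) := by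
      apply GalOmega_g_low F hδ hy hy0
      intro w
      have h1 := hu₀x w
      have h2 : 2 * δ = c := by rw [hδdef]; ring
      rw [h2]
      exact h1
    let Gf : U → ℝ := fun u => GalOmega_g F δ ((u : (𝓞 F)ˣ) • x)
    have hGsupp : (Function.support Gf).Finite := by
      refine (A.finite_toSet.image fun v : U => v * ⟨u₀, hu₀⟩).subset ?_
      intro u hu
      refine ⟨u * (⟨u₀, hu₀⟩ : U)⁻¹, ?_, by simp⟩
      apply hAmem _ (u₀ • x) (hκ.trans_le hgy).ne'
      have h1 : ((u * (⟨u₀, hu₀⟩ : U)⁻¹ : U) : (𝓞 F)ˣ) • u₀ • x = (u : (𝓞 F)ˣ) • x := by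
        rw [← mul_smul]
        congr 1
        simp
      rw [h1]
      exact hu
    have hGsum : Summable Gf := summable_of_hasFiniteSupport hGsupp
    set T : ℝ := ∑' u : U, Gf u with hT
    have hTκ : κ ≤ T := by
      refine hgy.trans ?_
      exact hGsum.le_tsum (⟨u₀, hu₀⟩ : U) (fun v _ => GalOmega_g_nonneg F δ _)
    have hST : ∀ u : U, Gf u ≠ 0 → S ((u : (𝓞 F)ˣ) • x) = T := by
      intro u hu
      have h1 : ∑' v : U, GalOmega_g F δ ((v : (𝓞 F)ˣ) • (u : (𝓞 F)ˣ) • x) =
          S ((u : (𝓞 F)ˣ) • x) := by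
        apply tsum_eq_sum
        intro v hv
        by_contra h
        exact hv (hAmem v _ hu h)
      rw [← h1, hT, ← (Equiv.mulRight u).tsum_eq Gf]
      apply tsum_congr
      intro v
      change _ = GalOmega_g F δ (((v * u : U) : (𝓞 F)ˣ) • x)
      rw [Subgroup.coe_mul, mul_smul]
    have hval : ∀ u : U, om ((u : (𝓞 F)ˣ) • x) * mixedEmbedding.norm ((u : (𝓞 F)ˣ) • x) ^ (-s) =
        Gf u * (T⁻¹ * mixedEmbedding.norm x ^ (-s)) := by
      intro u
      rw [norm_unit_smul]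
      by_cases h : Gf u = 0
      · have h' : om ((u : (𝓞 F)ˣ) • x) = 0 := by
          by_contra h2
          exact homne _ h2 h
        rw [h, h', zero_mul, zero_mul]
      · change Gf u * (max (S ((u : (𝓞 F)ˣ) • x)) κ)⁻¹ * _ = _
        rw [hST u h, max_eq_left hTκ]
        ring
    have hfun : (fun u : U => om (mixedEmbedding F (((u : (𝓞 F)ˣ) : 𝓞 F) : F) * x) *
        mixedEmbedding.norm (mixedEmbedding F (((u : (𝓞 F)ˣ) : 𝓞 F) : F) * x) ^ (-s)) =
        fun u => Gf u * (T⁻¹ * mixedEmbedding.norm x ^ (-s)) := by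
      funext u
      exact hval u
    simp only [hfun]
    refine ⟨hGsum.mul_right _, ?_⟩
    rw [tsum_mul_right, ← hT]
    have : T ≠ 0 := (hκ.trans_le hTκ).ne'
    field_simp

end Pool.Agent.CG2
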