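import Pool.Agent.CG2.Hecke

/-!
# Commutativity of the Hecke operators
-/

noncomputable section

namespace Pool.Agent.CG2

open NumberField IsDedekindDomain Matrix

variable {F : Type} [Field F] [NumberField F] {S : Set (Pl F)}
variable {O : Type} [CommRing O] {W : Type} [AddCommGroup W] [Module O W]

theorem HeckeComm_dg (v : Pl F) (a : F) (ha : a ≠ 0) (g : GQ v) :
    loc v (dg a a ha ha) * g = g * loc v (dg a a ha ha) := by
  apply Units.ext
  have h : ((loc v (dg a a ha ha) : GQ v) : Matrix (Fin 2) (Fin 2) (Fv v)) =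
      (algebraMap F (Fv v) a) • (1 : Matrix (Fin 2) (Fin 2) (Fv v)) := by
    have h3 : ((loc v (dg a a ha ha) : GQ v) : Matrix (Fin 2) (Fin 2) (Fv v)) =
      (Matrix.diagonal ![a, a]).map (algebraMap F (Fv v)) := rfl
    rw [h3]
    ext i j
    rw [Matrix.smul_apply, smul_eq_mul, Matrix.map_apply]
    by_cases hij : i = j
    · subst hij
      rw [Matrix.diagonal_apply_eq, Matrix.one_apply_eq, mul_one]
      fin_cases i <;> rfl
    · rw [Matrix.diagonal_apply_ne _ hij, Matrix.one_apply_ne hij, mul_zero, map_zero]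
  rw [Units.val_mul, Units.val_mul, h]
  simp

theorem HeckeComm_central (v : Pl F) (j : Fin 3) (hj : j ≠ 0) (g : GQ v) :
    alpha v j * g = g * alpha v j := by
  have h1 := HeckeComm_dg v (pi v) (pi_ne v)
  fin_cases j
  · exact absurd rfl hj
  · exact h1 g
  · change loc v (dg (pi v) (pi v) (pi_ne v) (pi_ne v))⁻¹ * g =
      g * loc v (dg (pi v) (pi v) (pi_ne v) (pi_ne v))⁻¹
    rw [map_inv]
    have h2 : Commute (loc v (dg (pi v) (pi v) (pi_ne v) (pi_ne v))) g := h1 g
    exact h2.inv_left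

theorem HeckeComm_cosets (v : Pl F) (j : Fin 3) (hj : j ≠ 0) :
    cosets v j = {((alpha v j : GQ v) : GQ v ⧸ GZ v)} := by
  ext c
  simp only [cosets, Set.mem_ofPred_eq, Set.mem_singleton_iff]
  constructor
  · rintro ⟨k, hk, rfl⟩
    rw [← HeckeComm_central v j hj]
    exact (QuotientGroup.eq.2 (by simpa using hk)).symm
  · rintro rfl
    exact ⟨1, (GZ v).one_mem, by rw [one_mul]⟩

theorem HeckeComm_sum {K : Subgroup (GA F)} {τ : Representation O K W} (f : Forms K τ)
    {v : Pl F} (hU : Unram K τ v) (j : Fin 3) (hj : j ≠ 0) (y : Pt F) :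
    heckeSum (v := v) j f.1 y = f.1 (rt y (single v (alpha v j))) := by
  have h1 : (cosets_finite v j).toFinset = {((alpha v j : GQ v) : GQ v ⧸ GZ v)} := by
    ext c
    rw [Set.Finite.mem_toFinset, HeckeComm_cosets v j hj]
    simp
  rw [heckeSum, h1, Finset.sum_singleton]
  apply forms_congr_coset f hU
  exact Quotient.out_eq' _

theorem HeckeComm_same (K : Subgroup (GA F)) (τ : Representation O K W)
    (hU : UnramOff K τ S) (v : {v : Pl F // v ∉ S}) (i j : Fin 3) (hi : i ≠ 0) :
    heckeLin K τ hU (v, i) ∘ₗ heckeLin K τ hU (v, j) =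
      heckeLin K τ hU (v, j) ∘ₗ heckeLin K τ hU (v, i) := by
  apply LinearMap.ext
  intro f
  apply Subtype.ext
  funext y
  have h1 : ∀ (g : Forms K τ) (y : Pt F), (heckeLin K τ hU (v, i) g).1 y =
      g.1 (rt y (single v.1 (alpha v.1 i))) := fun g y => HeckeComm_sum g (hU _ v.2) i hi y
  have h2 : ∀ (g : Forms K τ) (y : Pt F), (heckeLin K τ hU (v, j) g).1 y =
      ∑ c ∈ (cosets_finite v.1 j).toFinset, g.1 (rt y (single v.1 (Quotient.out c))) :=
    fun g y => rfl
  rw [LinearMap.comp_apply, LinearMap.comp_apply, h1, h2, h2]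
  refine Finset.sum_congr rfl fun c _ => ?_
  rw [h1, ← rt_mul, ← rt_mul, ← map_mul, ← map_mul, HeckeComm_central v.1 i hi]

theorem heckeLin_comm (K : Subgroup (GA F)) (τ : Representation O K W)
    (hU : UnramOff K τ S) (s t : Idx S) :
    heckeLin K τ hU s ∘ₗ heckeLin K τ hU t = heckeLin K τ hU t ∘ₗ heckeLin K τ hU s := by
  obtain ⟨v, i⟩ := s
  obtain ⟨w, j⟩ := t
  by_cases hvw : v = w
  · subst hvw
    by_cases hi : i = 0
    · by_cases hj : j = 0
      · rw [hi, hj]
      · exact (HeckeComm_same K τ hU v j i hj).symm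
    · exact HeckeComm_same K τ hU v i j hi
  · have hvw' : v.1 ≠ w.1 := fun h => hvw (Subtype.ext h)
    apply LinearMap.ext
    intro f
    apply Subtype.ext
    funext y
    have h2 : ∀ (v : {v : Pl F // v ∉ S}) (j : Fin 3) (g : Forms K τ) (y : Pt F),
        (heckeLin K τ hU (v, j) g).1 y =
        ∑ c ∈ (cosets_finite v.1 j).toFinset, g.1 (rt y (single v.1 (Quotient.out c))) :=
      fun v j g y => rfl
    rw [LinearMap.comp_apply, LinearMap.comp_apply]
    simp only [h2]
    rw [Finset.sum_comm]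
    refine Finset.sum_congr rfl fun c _ => Finset.sum_congr rfl fun c' _ => ?_
    rw [← rt_mul, ← rt_mul, single_comm hvw']

end Pool.Agent.CG2
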