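import Pool.Agent.CG2.Coc2
import Pool.Agent.CG2.CohMap

/-!
# `(T_v² - (1 + N v)² R_v)³` kills the cohomology in the degrees `0` and `1`, for coefficients
# killed by `p`
-/

noncomputable section

namespace Pool.Agent.CG2

open CategoryTheory NumberField IsDedekindDomain Matrix

variable {F : Type} [Field F] [NumberField F] {S : Set (Pl F)}

/-- The element `T_v² - (1 + N v)² R_v` of the Hecke algebra. -/
def Pv (O : Type) [CommRing O] (v : Pl F) (hv : v ∉ S) : HeckeAlg S O :=
  MvPolynomial.X (⟨v, hv⟩, 0) ^ 2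
    - MvPolynomial.C ((1 + (Nm v : O)) ^ 2) * MvPolynomial.X (⟨v, hv⟩, 1)

namespace KilledAux

/-- The elements of `K` with all components in the groups `U v`. -/
def KU (K : Subgroup (GA F)) (U : ∀ v : Pl F, Subgroup (GQ v)) : Subgroup (GA F) where
  carrier := {k | k ∈ K ∧ ∀ v, k.1 v ∈ U v}
  mul_mem' ha hb := ⟨K.mul_mem ha.1 hb.1, fun v => (U v).mul_mem (ha.2 v) (hb.2 v)⟩
  one_mem' := ⟨K.one_mem, fun v => (U v).one_mem⟩
  inv_mem' ha := ⟨K.inv_mem ha.1, fun v => (U v).inv_mem (ha.2 v)⟩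

theorem oc_KU {K : Subgroup (GA F)} (hK : OC K S) (U : ∀ v : Pl F, Subgroup (GQ v))
    (hU : ∀ v, IsOpen (U v : Set (GQ v))) (hS : ∀ v, v ∉ S → GZ v ≤ U v) : OC (KU K U) S := by
  obtain ⟨U₀, h1, h2, h3⟩ := hK.op
  obtain ⟨C, h4, h5, h6⟩ := hK.cp
  refine ⟨hK.fin, ⟨fun v => U₀ v ⊓ U v, fun v => (h1 v).inter (hU v),
    fun v hv => le_inf (h2 v hv) (hS v hv), ?_⟩, ⟨C, h4, h5, ?_⟩⟩
  · intro k hk
    exact ⟨h3 k fun v => (hk v).1, fun v => (hk v).2⟩
  · intro k hk
    exact h6 k hk.1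

section hecke

variable {V : Type} [AddCommGroup V] {v : Pl F}

theorem heckeSum_sub (j : Fin 3) (f f' : Pt F → V) (y : Pt F) :
    heckeSum (v := v) j (fun y => f y - f' y) y =
      heckeSum (v := v) j f y - heckeSum (v := v) j f' y := by
  simp [heckeSum, Finset.sum_sub_distrib]

theorem heckeSum_act (j : Fin 3) (f : Pt F → V) (γ : G F) (y : Pt F) :
    heckeSum (v := v) j (fun y => f (act γ y)) y = heckeSum (v := v) j f (act γ y) := by
  simp [heckeSum, act_rt]

theorem heckeSum_map (j : Fin 3) (f : Pt F → V) (φ : V →+ V) (y : Pt F) :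
    heckeSum (v := v) j (fun y => φ (f y)) y = φ (heckeSum (v := v) j f y) := by
  simp [heckeSum, map_sum]

/-- Right invariance under `GL₂(O_v)`. -/
def Rv (v : Pl F) (f : Pt F → V) : Prop := ∀ y, ∀ k ∈ GZ v, f (rt y (single v k)) = f y

theorem Rv.coset {f : Pt F → V} (hf : Rv v f) (y : Pt F) {h h' : GQ v}
    (hh : (h : GQ v ⧸ GZ v) = (h' : GQ v ⧸ GZ v)) :
    f (rt y (single v h)) = f (rt y (single v h')) := by
  have h1 : h⁻¹ * h' ∈ GZ v := QuotientGroup.eq.1 hh
  have h2 := hf (rt y (single v h)) _ h1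
  rw [← rt_mul, ← map_mul, mul_inv_cancel_left] at h2
  exact h2.symm

theorem heckeSum_rt (f : Pt F → V) (hf : Rv v f) (j : Fin 3) (κ : GA F) (hκ : κ.1 v ∈ GZ v)
    (y : Pt F) :
    heckeSum (v := v) j (fun y => f (rt y κ)) y = heckeSum (v := v) j f (rt y κ) := by
  set a : GQ v := κ.1 v with ha
  set κ₁ : GA F := κ * (single v a)⁻¹ with hκ₁
  have hκ₁v : κ₁.1 v = 1 := by
    rw [hκ₁, Subgroup.coe_mul, Pi.mul_apply, Subgroup.coe_inv, Pi.inv_apply, single_same, ha,
      mul_inv_cancel]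
  have hκe : κ = κ₁ * single v a := by rw [hκ₁, inv_mul_cancel_right]
  have hcomm : ∀ b : GQ v, κ₁ * single v b = single v b * κ₁ := fun b => single_comm' b hκ₁v
  unfold heckeSum
  refine Finset.sum_bij' (fun c _ => a⁻¹ • c) (fun c _ => a • c) ?_ ?_ ?_ ?_ ?_
  · intro c hc
    rw [Set.Finite.mem_toFinset] at hc ⊢
    exact smul_mem_cosets hc ((GZ v).inv_mem hκ)
  · intro c hc
    rw [Set.Finite.mem_toFinset] at hc ⊢
    exact smul_mem_cosets hc hκ
  · intro c _
    simp
  · intro c _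
    simp
  · intro c _
    have h1 : rt (rt y (single v (Quotient.out c))) κ =
        rt (rt (rt y κ₁) (single v (Quotient.out c))) (single v a) := by
      rw [← rt_mul, ← rt_mul, ← rt_mul, ← mul_assoc, hcomm, mul_assoc, ← hκe]
    have h2 : rt (rt y κ) (single v (Quotient.out (a⁻¹ • c))) =
        rt (rt y κ₁) (single v (a * Quotient.out (a⁻¹ • c))) := by
      rw [← rt_mul, ← rt_mul, hκe, map_mul, mul_assoc]
    change f (rt (rt y (single v (Quotient.out c))) κ) = _
    rw [h1, hf _ _ hκ, h2]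
    apply hf.coset
    have h3 : ((Quotient.out (a⁻¹ • c) : GQ v) : GQ v ⧸ GZ v) = a⁻¹ • c := Quotient.out_eq' _
    have h4 : ((Quotient.out c : GQ v) : GQ v ⧸ GZ v) = c := Quotient.out_eq' _
    have h5 : ((a * Quotient.out (a⁻¹ • c) : GQ v) : GQ v ⧸ GZ v) =
        a • ((Quotient.out (a⁻¹ • c) : GQ v) : GQ v ⧸ GZ v) := rfl
    rw [h4, h5, h3, smul_inv_smul]

theorem Rv.hecke {f : Pt F → V} (hf : Rv v f) (j : Fin 3) : Rv v (heckeSum (v := v) j f) := by
  intro y k hk
  rw [← heckeSum_rt f hf j (single v k) (by rw [single_same]; exact hk)]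
  congr 1
  funext y
  exact hf y k hk

theorem Rv.map {f : Pt F → V} (hf : Rv v f) (φ : V →+ V) : Rv v fun y => φ (f y) := by
  intro y k hk
  change φ _ = φ _
  rw [hf y k hk]

theorem PP_sub (f f' : Pt F → V) (y : Pt F) :
    PP v (fun y => f y - f' y) y = PP v f y - PP v f' y := by
  unfold PP
  have h : heckeSum (v := v) 0 (fun y => f y - f' y) =
      fun y => heckeSum (v := v) 0 f y - heckeSum (v := v) 0 f' y :=
    funext fun y => heckeSum_sub 0 f f' y
  rw [h, heckeSum_sub, heckeSum_sub, smul_sub]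
  abel

theorem PP_act (f : Pt F → V) (γ : G F) (y : Pt F) :
    PP v (fun y => f (act γ y)) y = PP v f (act γ y) := by
  unfold PP
  have h : heckeSum (v := v) 0 (fun y => f (act γ y)) =
      fun y => heckeSum (v := v) 0 f (act γ y) := funext fun y => heckeSum_act 0 f γ y
  rw [h, heckeSum_act, heckeSum_act]

theorem PP_map (f : Pt F → V) (φ : V →+ V) (y : Pt F) :
    PP v (fun y => φ (f y)) y = φ (PP v f y) := by
  unfold PP
  have h : heckeSum (v := v) 0 (fun y => φ (f y)) =
      fun y => φ (heckeSum (v := v) 0 f y) := funext fun y => heckeSum_map 0 f φ y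
  rw [h, heckeSum_map, heckeSum_map, map_sub, map_nsmul]

theorem PP_rt (f : Pt F → V) (hf : Rv v f) (κ : GA F) (hκ : κ.1 v ∈ GZ v) (y : Pt F) :
    PP v (fun y => f (rt y κ)) y = PP v f (rt y κ) := by
  unfold PP
  have h : heckeSum (v := v) 0 (fun y => f (rt y κ)) =
      fun y => heckeSum (v := v) 0 f (rt y κ) := funext fun y => heckeSum_rt f hf 0 κ hκ y
  rw [h, heckeSum_rt _ (hf.hecke 0) 0 κ hκ, heckeSum_rt f hf 1 κ hκ]

end hecke

section coh

variable {O : Type} [CommRing O] {W : Type} [AddCommGroup W] [Module O W]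

theorem rv_forms {K : Subgroup (GA F)} (τ : Representation O K W) {v : Pl F} (hU : Unram K τ v)
    (f : Forms K τ) : Rv v f.1 := fun y k hk => forms_mul_single f hU y k hk

/-- The cocycle `T c`. -/
abbrev mapC1 {K : Subgroup (GA F)} (τ : Representation O K W) (hU : UnramOff K τ S) (t : Idx S)
    (c : groupCohomology.cocycles₁ (coeff K τ)) : groupCohomology.cocycles₁ (coeff K τ) :=
  groupCohomology.mapCocycles₁ (MonoidHom.id (G F)) (heckeHom K τ hU t) c

theorem mapC1_apply {K : Subgroup (GA F)} (τ : Representation O K W) (hU : UnramOff K τ S)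
    (t : Idx S) (c : groupCohomology.cocycles₁ (coeff K τ)) (γ : G F) (y : Pt F) :
    (mapC1 τ hU t c γ : Forms K τ).1 y =
      heckeSum (v := t.1.1) t.2 (c γ : Forms K τ).1 y := rfl

theorem heckeCoh_H1 {K : Subgroup (GA F)} (τ : Representation O K W) (hU : UnramOff K τ S)
    (t : Idx S) (c : groupCohomology.cocycles₁ (coeff K τ)) :
    heckeCoh K τ hU 1 t (groupCohomology.H1π (coeff K τ) c) =
      groupCohomology.H1π (coeff K τ) (mapC1 τ hU t c) :=
  congrArg (fun a => a.hom c)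
    (groupCohomology.H1π_comp_map (A := coeff K τ) (B := coeff K τ) (MonoidHom.id (G F))
      (heckeHom K τ hU t))

/-- The cocycle `P c`. -/
def PC {K : Subgroup (GA F)} (τ : Representation O K W) (hU : UnramOff K τ S) (v : Pl F)
    (hv : v ∉ S) (c : groupCohomology.cocycles₁ (coeff K τ)) :
    groupCohomology.cocycles₁ (coeff K τ) :=
  mapC1 τ hU (⟨v, hv⟩, 0) (mapC1 τ hU (⟨v, hv⟩, 0) c) -
    ((1 + (Nm v : O)) ^ 2) • mapC1 τ hU (⟨v, hv⟩, 1) c

theorem PC_apply {K : Subgroup (GA F)} (τ : Representation O K W) (hU : UnramOff K τ S) (v : Pl F)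
    (hv : v ∉ S) (c : groupCohomology.cocycles₁ (coeff K τ)) (γ : G F) (y : Pt F) :
    (PC τ hU v hv c γ : Forms K τ).1 y = PP v (c γ : Forms K τ).1 y := by
  have h1 : (PC τ hU v hv c γ : Forms K τ).1 y =
      heckeSum (v := v) 0 (heckeSum (v := v) 0 (c γ : Forms K τ).1) y -
      ((1 + (Nm v : O)) ^ 2) • heckeSum (v := v) 1 (c γ : Forms K τ).1 y := rfl
  rw [h1, PP]
  congr 1
  rw [← Nat.cast_smul_eq_nsmul O]
  push_cast
  rfl

theorem hact_Pv {K : Subgroup (GA F)} (τ : Representation O K W) (hU : UnramOff K τ S) (i : ℕ)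
    (v : Pl F) (hv : v ∉ S) (z : groupCohomology (coeff K τ) i) :
    hact K τ hU i (Pv O v hv) z = heckeCoh K τ hU i (⟨v, hv⟩, 0)
      (heckeCoh K τ hU i (⟨v, hv⟩, 0) z) -
      ((1 + (Nm v : O)) ^ 2) • heckeCoh K τ hU i (⟨v, hv⟩, 1) z := by
  have h1 : hact K τ hU i (MvPolynomial.C ((1 + (Nm v : O)) ^ 2)) =
      algebraMap O _ ((1 + (Nm v : O)) ^ 2) := by
    have := (hact K τ hU i).commutes ((1 + (Nm v : O)) ^ 2)
    rwa [MvPolynomial.algebraMap_eq] at this
  rw [Pv, map_sub, map_mul, h1, map_pow, hact_X, hact_X, pow_two, LinearMap.sub_apply,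
    Module.End.mul_apply, Module.End.mul_apply, Module.algebraMap_end_apply]

theorem hact_Pv_H1 {K : Subgroup (GA F)} (τ : Representation O K W) (hU : UnramOff K τ S)
    (v : Pl F) (hv : v ∉ S) (c : groupCohomology.cocycles₁ (coeff K τ)) :
    hact K τ hU 1 (Pv O v hv) (groupCohomology.H1π (coeff K τ) c) =
      groupCohomology.H1π (coeff K τ) (PC τ hU v hv c) := by
  rw [hact_Pv, heckeCoh_H1, heckeCoh_H1, heckeCoh_H1, ← map_smul, ← map_sub]
  rfl

theorem inv_H0 {K : Subgroup (GA F)} (τ : Representation O K W) (hU : UnramOff K τ S)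
    (v : Pl F) (hv : v ∉ S) (z : groupCohomology (coeff K τ) 0)
    (h : ∀ f : Forms K τ, (∀ γ, formsRep K τ γ f = f) → PP v f.1 = 0) :
    hact K τ hU 0 (Pv O v hv) z = 0 := by
  have hinj : Function.Injective (groupCohomology.H0Iso (coeff K τ)).hom := by
    exact (ConcreteCategory.bijective_of_isIso (groupCohomology.H0Iso (coeff K τ)).hom).1
  apply hinj
  have h1 : ∀ (t : Idx S) (z : groupCohomology (coeff K τ) 0),
      (groupCohomology.H0Iso (coeff K τ)).hom (heckeCoh K τ hU 0 t z) =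
      (Rep.invariantsFunctor O (G F)).map (heckeHom K τ hU t)
        ((groupCohomology.H0Iso (coeff K τ)).hom z) := by
    intro t z
    exact congrArg (fun a => a.hom z)
      (groupCohomology.map_id_comp_H0Iso_hom (heckeHom K τ hU t))
  rw [hact_Pv, map_sub, map_smul, h1, h1, h1, map_zero]
  generalize (groupCohomology.H0Iso (coeff K τ)).hom z = w
  apply Subtype.ext
  apply Subtype.ext
  funext y
  have hinv : ∀ γ : G F, formsRep K τ γ w.1 = w.1 := w.2
  have h2 := congrFun (h w.1 hinv) y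
  have h3 : heckeSum (v := v) 0 (heckeSum (v := v) 0 (w.1 : Forms K τ).1) y -
      ((1 + (Nm v : O)) ^ 2) • heckeSum (v := v) 1 (w.1 : Forms K τ).1 y = 0 := by
    rw [PP, ← Nat.cast_smul_eq_nsmul O] at h2
    push_cast at h2
    exact h2
  exact h3

end coh

end KilledAux

open KilledAux in
/-- **L3** -/
theorem killed {p : ℕ} [Fact p.Prime] (hF : TwoPl F) (hS : ∀ v : Pl F, Above p v → v ∈ S)
    {K : Subgroup (GA F)} (hK : OC K S) {O : Type} [CommRing O] {W : Type} [AddCommGroup W]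
    [Module O W] (τ : Representation O K W) (hU : UnramOff K τ S) (hp : ∀ w : W, p • w = 0)
    (hsm : Smooth K τ S) (i : ℕ) (hi : i < 2) (v : Pl F) (hv : v ∉ S)
    (z : groupCohomology (coeff K τ) i) : hact K τ hU i (Pv O v hv ^ 3) z = 0 := by
  obtain ⟨U, hUo, hUS, hUt⟩ := hsm
  have hUt' : ∀ k : K, (∀ v, k.1.1 v ∈ U v) → ∀ w : W, τ k w = w := by
    intro k hk w
    have := hUt k hk w
    rw [Submodule.bot_smul, Submodule.mem_bot, sub_eq_zero] at this
    exact this
  set K' := KU K U with hK'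
  have hoc : OC K' S := oc_KU hK U hUo hUS
  have hRI : ∀ f : Forms K τ, RInv K' f.1 := by
    intro f y κ hκ
    have h1 := f.2 y ⟨κ, hκ.1⟩
    have h2 : τ (⟨κ, hκ.1⟩ : K)⁻¹ (f.1 y) = f.1 y :=
      hUt' _ (fun w => (U w).inv_mem (hκ.2 w)) _
    exact h1.trans h2
  rw [pow_three, map_mul, map_mul, Module.End.mul_apply, Module.End.mul_apply]
  have hi' : i = 0 ∨ i = 1 := by omega
  rcases hi' with rfl | rfl
  · have h0 : ∀ z, hact K τ hU 0 (Pv O v hv) z = 0 := by
      intro z
      apply inv_H0 τ hU v hv z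
      intro f hf
      apply PP_inv hoc (hRI f) _ v fun k hk => hoc.single hv hk
      intro γ _ y
      have h1 := congrArg (fun g : Forms K τ => g.1 y) (hf γ⁻¹)
      simp only [formsRep_apply, inv_inv] at h1
      exact h1
    rw [h0]
  · induction z using groupCohomology.H1_induction_on with
    | h c =>
    have hcoc : Coc (1 : G F →* AddMonoid.End W) fun γ => (c γ : Forms K τ).1 := by
      intro γ δ y
      have h := (groupCohomology.mem_cocycles₁_iff (A := coeff K τ) c).1 c.2 γ δ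
      have h1 : (c (γ * δ) : Forms K τ).1 y =
          (c δ : Forms K τ).1 (act γ⁻¹ y) + (c γ : Forms K τ).1 y :=
        congrArg (fun f : Forms K τ => f.1 y) h
      change (c (γ * δ) : Forms K τ).1 y = (c γ : Forms K τ).1 y + _
      rw [h1, add_comm]
      rfl
    have htw : Tw K' (1 : G F →* AddMonoid.End W) := ⟨fun _ _ => rfl, fun _ _ _ _ _ => rfl⟩
    obtain ⟨f, hfK, hfz⟩ := coc_PP hF hoc hS hp htw hcoc (fun γ => hRI (c γ)) v hv
    have hfz' : ∀ γ y, PP v (PP v (c γ : Forms K τ).1) y = f (act γ⁻¹ y) - f y := hfz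
    have hfv : Rv v f := fun y k hk => hfK y _ (hoc.single hv hk)
    set c₂ := PC τ hU v hv (PC τ hU v hv c) with hc₂
    have hc₂f : ∀ γ, (c₂ γ : Forms K τ).1 = fun y => f (act γ⁻¹ y) - f y := by
      intro γ
      funext y
      rw [hc₂, PC_apply, ← hfz']
      congr 1
      funext y
      exact PC_apply τ hU v hv c γ y
    -- the function `P f`
    have hmem : PP v f ∈ Forms K τ := by
      intro y κ
      have hκv : κ.1.1 v ∈ GZ v := hK.at hv κ.2
      set h : Pt F → W := fun y => τ κ (f (rt y κ.1)) - f y with hh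
      have hG : ∀ (γ : G F) (y : Pt F), h (act γ y) = h y := by
        intro γ y
        have h1 := (c₂ γ⁻¹ : Forms K τ).2 y κ
        rw [hc₂f] at h1
        simp only [inv_inv] at h1
        have h2 : τ κ (f (act γ (rt y κ.1)) - f (rt y κ.1)) = f (act γ y) - f y := by
          rw [h1, ← Module.End.mul_apply, ← map_mul, mul_inv_cancel, map_one]
          rfl
        rw [map_sub, sub_eq_sub_iff_add_eq_add] at h2
        change τ κ (f (rt (act γ y) κ.1)) - f (act γ y) = τ κ (f (rt y κ.1)) - f y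
        rw [sub_eq_sub_iff_add_eq_add, ← act_rt, h2, add_comm]
      obtain ⟨S', hS'⟩ := hoc.conj κ.1
      have hoc' := hoc.inter hS'
      have hRh : RInv (K' ⊓ K'.map (MulAut.conj κ.1).toMonoidHom) h := by
        rintro y k ⟨hk1, k', hk2, hk3⟩
        have h1 : k * κ.1 = κ.1 * k' := by
          rw [← hk3]
          change κ.1 * k' * κ.1⁻¹ * κ.1 = _
          rw [inv_mul_cancel_right]
        change τ κ (f (rt (rt y k) κ.1)) - f (rt y k) = τ κ (f (rt y κ.1)) - f y
        rw [hfK y k hk1, ← rt_mul, h1, rt_mul, hfK _ k' hk2]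
      have hPh := PP_inv hoc' hRh (fun γ _ y => hG γ y) v (by
        intro k hk
        refine ⟨hoc.single hv hk, single v ((κ.1.1 v)⁻¹ * k * κ.1.1 v),
          hoc.single hv ((GZ v).mul_mem ((GZ v).mul_mem ((GZ v).inv_mem hκv) hk) hκv), ?_⟩
        change κ.1 * single v ((κ.1.1 v)⁻¹ * k * κ.1.1 v) * κ.1⁻¹ = single v k
        rw [mul_inv_eq_iff_eq_mul]
        apply Subtype.ext
        funext q
        simp only [Subgroup.coe_mul, Pi.mul_apply]
        by_cases hq : q = v
        · subst hq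
          rw [single_same, single_same]
          group
        · rw [single_ne hq, single_ne hq, mul_one, one_mul])
      have h2 := congrFun hPh y
      rw [hh, PP_sub, Pi.zero_apply, sub_eq_zero] at h2
      have h3 := PP_map (v := v) (fun y => f (rt y κ.1)) (τ κ).toAddMonoidHom y
      have h4 : τ κ (PP v f (rt y κ.1)) = PP v f y := by
        rw [← PP_rt f hfv κ.1 hκv y, ← h2]
        exact h3.symm
      rw [← h4, ← Module.End.mul_apply, ← map_mul, inv_mul_cancel, map_one]
      rfl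
    rw [hact_Pv_H1, hact_Pv_H1, hact_Pv_H1, ← hc₂, groupCohomology.H1π_eq_zero_iff]
    refine ⟨(⟨PP v f, hmem⟩ : Forms K τ), ?_⟩
    funext γ
    apply Subtype.ext
    funext y
    have h5 : (PC τ hU v hv c₂ γ : Forms K τ).1 y = PP v f (act γ⁻¹ y) - PP v f y := by
      rw [PC_apply, hc₂f, PP_sub, PP_act]
    exact h5.symm

end Pool.Agent.CG2
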