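import Pool.Agent.CG2.KoeSys

/-!
# Equivariance of the Koecher polyhedra
-/

noncomputable section

namespace Pool.Agent.CG2

open NumberField IsDedekindDomain Matrix Pool.Agent.CG3

variable {F : Type} [Field F] [NumberField F]

/-- Pull back of a hermitian form by the matrix `(p q; r s)`. -/
def KoeAct_pull (p q r s : ℂ) : (ℝ × ℝ × ℂ) →ₗ[ℝ] (ℝ × ℝ × ℂ) where
  toFun t := (Hh t p r, Hh t q s, t.1 * p * (starRingEnd ℂ) q + t.2.1 * r * (starRingEnd ℂ) s +
    t.2.2 * p * (starRingEnd ℂ) s + (starRingEnd ℂ) t.2.2 * r * (starRingEnd ℂ) q)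
  map_add' t t' := by
    refine Prod.ext ?_ (Prod.ext ?_ ?_)
    · simp only [KoePos_Hh, Prod.fst_add, Prod.snd_add, Complex.add_re, Complex.add_im]
      ring
    · simp only [KoePos_Hh, Prod.fst_add, Prod.snd_add, Complex.add_re, Complex.add_im]
      ring
    · simp only [Prod.fst_add, Prod.snd_add, map_add, Complex.ofReal_add]
      ring
  map_smul' c t := by
    refine Prod.ext ?_ (Prod.ext ?_ ?_)
    · simp only [KoePos_Hh, Prod.smul_fst, Prod.smul_snd, Complex.real_smul, Complex.re_ofReal_mul,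
        Complex.im_ofReal_mul, RingHom.id_apply, smul_eq_mul]
      ring
    · simp only [KoePos_Hh, Prod.smul_fst, Prod.smul_snd, Complex.real_smul, Complex.re_ofReal_mul,
        Complex.im_ofReal_mul, RingHom.id_apply, smul_eq_mul]
      ring
    · simp only [Prod.smul_fst, Prod.smul_snd, Complex.real_smul, map_mul, Complex.conj_ofReal,
        RingHom.id_apply, smul_eq_mul, Complex.ofReal_mul]
      ring

theorem KoeAct_pull_apply (p q r s : ℂ) (t : ℝ × ℝ × ℂ) (a b : ℂ) :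
    Hh (KoeAct_pull p q r s t) a b = Hh t (p * a + q * b) (r * a + s * b) := by
  have h : KoeAct_pull p q r s t = (Hh t p r, Hh t q s, t.1 * p * (starRingEnd ℂ) q +
    t.2.1 * r * (starRingEnd ℂ) s + t.2.2 * p * (starRingEnd ℂ) s +
    (starRingEnd ℂ) t.2.2 * r * (starRingEnd ℂ) q) := rfl
  rw [h]
  simp only [KoePos_Hh, Complex.add_re, Complex.add_im, Complex.mul_re, Complex.mul_im,
    Complex.conj_re, Complex.conj_im, Complex.ofReal_re, Complex.ofReal_im]
  ring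

theorem KoeAct_pull_real (p q r s : ℂ) (hp : p.im = 0) (hq : q.im = 0) (hr : r.im = 0)
    (hs : s.im = 0) (t : ℝ × ℝ × ℂ) (ht : t.2.2.im = 0) :
    (KoeAct_pull p q r s t).2.2.im = 0 := by
  have h : (KoeAct_pull p q r s t).2.2 = t.1 * p * (starRingEnd ℂ) q +
    t.2.1 * r * (starRingEnd ℂ) s + t.2.2 * p * (starRingEnd ℂ) s +
    (starRingEnd ℂ) t.2.2 * r * (starRingEnd ℂ) q := rfl
  rw [h]
  simp only [Complex.add_im, Complex.mul_re, Complex.mul_im,
    Complex.conj_re, Complex.conj_im, Complex.ofReal_re, Complex.ofReal_im, hp, hq, hr, hs, ht]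
  ring

/-- A form is determined by its values. -/
theorem KoeAct_ext {t t' : ℝ × ℝ × ℂ} (h : ∀ a b, Hh t a b = Hh t' a b) : t = t' := by
  have h1 := h 1 0
  have h2 := h 0 1
  have h3 := h 1 1
  have h4 := h Complex.I 1
  simp only [KoePos_Hh, Complex.one_re, Complex.one_im, Complex.zero_re, Complex.zero_im,
    Complex.I_re, Complex.I_im] at h1 h2 h3 h4
  refine Prod.ext (by linarith) (Prod.ext (by linarith) (Complex.ext (by linarith) (by linarith)))

theorem KoeAct_ext_VR {h h' : VR F} (H : ∀ w a b, Hh (h.1 w) a b = Hh (h'.1 w) a b) : h = h' :=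
  Subtype.ext (funext fun w => KoeAct_ext (H w))

/-- The linear map given by a matrix `δ`: pull back by `δ`. -/
def KoeAct_map (δ : Matrix (Fin 2) (Fin 2) F) : VR F →ₗ[ℝ] VR F where
  toFun h := ⟨fun w => KoeAct_pull (w.embedding (δ 0 0)) (w.embedding (δ 0 1))
    (w.embedding (δ 1 0)) (w.embedding (δ 1 1)) (h.1 w), by
      intro w hw
      have hr : ∀ x : F, (w.embedding x).im = 0 := fun x => by
        rw [← InfinitePlace.embedding_of_isReal_apply hw, Complex.ofReal_im]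
      exact KoeAct_pull_real _ _ _ _ (hr _) (hr _) (hr _) (hr _) _ (h.2 w hw)⟩
  map_add' h h' := by
    apply Subtype.ext
    funext w
    exact (KoeAct_pull _ _ _ _).map_add (h.1 w) (h'.1 w)
  map_smul' c h := by
    apply Subtype.ext
    funext w
    exact (KoeAct_pull _ _ _ _).map_smul c (h.1 w)

theorem KoeAct_map_apply (δ : Matrix (Fin 2) (Fin 2) F) (h : VR F) (w : InfinitePlace F)
    (a b : ℂ) : Hh ((KoeAct_map δ h).1 w) a b =
      Hh (h.1 w) (w.embedding (δ 0 0) * a + w.embedding (δ 0 1) * b)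
        (w.embedding (δ 1 0) * a + w.embedding (δ 1 1) * b) := by
  exact KoeAct_pull_apply _ _ _ _ _ _ _

theorem KoeAct_map_mul (δ ε : Matrix (Fin 2) (Fin 2) F) (h : VR F) :
    KoeAct_map (δ * ε) h = KoeAct_map ε (KoeAct_map δ h) := by
  refine KoeAct_ext_VR fun w a b => ?_
  simp only [KoeAct_map_apply, Matrix.mul_apply, Fin.sum_univ_two, map_add, map_mul]
  congr 1
  · ring
  · ring

theorem KoeAct_map_one (h : VR F) : KoeAct_map (1 : Matrix (Fin 2) (Fin 2) F) h = h := by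
  refine KoeAct_ext_VR fun w a b => ?_
  simp [KoeAct_map_apply]

theorem KoeAct_map_qf (δ : Matrix (Fin 2) (Fin 2) F) (x y : Vec F)
    (hy : ∀ i, y i = δ i 0 * x 0 + δ i 1 * x 1) (h : VR F) :
    qf x (KoeAct_map δ h) = qf y h := by
  rw [qf_apply, qf_apply]
  refine Finset.sum_congr rfl fun w _ => ?_
  rw [KoeAct_map_apply, hy, hy]
  simp only [map_add, map_mul]

theorem KoeAct_map_psd (δ : Matrix (Fin 2) (Fin 2) F) {h : VR F} (hh : PSD h) :
    PSD (KoeAct_map δ h) := by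
  intro w a b
  rw [KoeAct_map_apply]
  exact hh w _ _

/-- The determinant of the pull back map. -/
def KoeAct_dt (δ : Matrix (Fin 2) (Fin 2) F) : ℝ := LinearMap.det (KoeAct_map δ)

theorem KoeAct_dt_mul (δ ε : Matrix (Fin 2) (Fin 2) F) :
    KoeAct_dt (δ * ε) = KoeAct_dt δ * KoeAct_dt ε := by
  have h1 : KoeAct_map (δ * ε) = KoeAct_map ε ∘ₗ KoeAct_map δ :=
    LinearMap.ext fun h => KoeAct_map_mul δ ε h
  rw [KoeAct_dt, h1, LinearMap.det_comp, mul_comm]
  rfl

theorem KoeAct_dt_one : KoeAct_dt (1 : Matrix (Fin 2) (Fin 2) F) = 1 := by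
  have h1 : KoeAct_map (1 : Matrix (Fin 2) (Fin 2) F) = LinearMap.id :=
    LinearMap.ext fun h => KoeAct_map_one h
  rw [KoeAct_dt, h1, LinearMap.det_id]

/-- The space `VR` is a product over the real and the complex places. -/
def KoeAct_E (F : Type) [Field F] [NumberField F] : VR F ≃ₗ[ℝ]
    (RPl F → ℝ × ℝ × ℝ) × ({w : InfinitePlace F // w.IsComplex} → ℝ × ℝ × ℂ) where
  toFun h := (fun w => ((h.1 w.1).1, (h.1 w.1).2.1, (h.1 w.1).2.2.re), fun w => h.1 w.1)
  map_add' a b := by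
    refine Prod.ext ?_ ?_
    · funext w
      simp
    · funext w
      simp
  map_smul' c a := by
    refine Prod.ext ?_ ?_
    · funext w
      simp
    · funext w
      simp
  invFun p := by
    classical
    exact ⟨fun w => if hw : w.IsReal then ((p.1 ⟨w, hw⟩).1, (p.1 ⟨w, hw⟩).2.1,
      (((p.1 ⟨w, hw⟩).2.2 : ℝ) : ℂ)) else p.2 ⟨w, InfinitePlace.not_isReal_iff_isComplex.1 hw⟩, by
        intro w hw
        simp only [dif_pos hw, Complex.ofReal_im]⟩
  left_inv h := by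
    apply Subtype.ext
    funext w
    by_cases hw : w.IsReal
    · simp only [dif_pos hw]
      refine Prod.ext rfl (Prod.ext rfl (Complex.ext rfl ?_))
      rw [Complex.ofReal_im]
      exact (h.2 w hw).symm
    · simp only [dif_neg hw]
  right_inv p := by
    refine Prod.ext ?_ ?_
    · funext w
      simp only [dif_pos w.2, Complex.ofReal_re]
    · funext w
      simp only [dif_neg (InfinitePlace.not_isReal_iff_isComplex.2 w.2)]

/-- The local map at a real place. -/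
def KoeAct_f (a b : ℝ) : (ℝ × ℝ × ℝ) →ₗ[ℝ] (ℝ × ℝ × ℝ) :=
  LinearMap.prodMap (LinearMap.mulLeft ℝ (a ^ 2))
    (LinearMap.prodMap (LinearMap.mulLeft ℝ (b ^ 2)) (LinearMap.mulLeft ℝ (a * b)))

theorem KoeAct_f_det (a b : ℝ) : LinearMap.det (KoeAct_f a b) = a ^ 2 * (b ^ 2 * (a * b)) := by
  rw [KoeAct_f, LinearMap.det_prodMap, LinearMap.det_prodMap, LinearMap.det_mulLeft,
    LinearMap.det_mulLeft, LinearMap.det_mulLeft]

/-- The local map at a complex place. -/
def KoeAct_g (a b : ℝ) (z : ℂ) : (ℝ × ℝ × ℂ) →ₗ[ℝ] (ℝ × ℝ × ℂ) :=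
  LinearMap.prodMap (LinearMap.mulLeft ℝ (a ^ 2))
    (LinearMap.prodMap (LinearMap.mulLeft ℝ (b ^ 2)) (LinearMap.mulLeft ℝ z))

theorem KoeAct_g_det (a b : ℝ) (z : ℂ) : LinearMap.det (KoeAct_g a b z) =
    a ^ 2 * (b ^ 2 * Complex.normSq z) := by
  have h : LinearMap.det (LinearMap.mulLeft ℝ z) = Complex.normSq z := by
    rw [← Algebra.norm_complex_apply, Algebra.norm_apply]
    rfl
  rw [KoeAct_g, LinearMap.det_prodMap, LinearMap.det_prodMap, LinearMap.det_mulLeft,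
    LinearMap.det_mulLeft, h]

open Classical in
/-- The determinant of the pull back by a diagonal matrix. -/
theorem KoeAct_dt_diag (d : Fin 2 → F) : KoeAct_dt (Matrix.diagonal d) =
    (∏ w : RPl F, LinearMap.det (KoeAct_f (InfinitePlace.embedding_of_isReal w.2 (d 0))
      (InfinitePlace.embedding_of_isReal w.2 (d 1)))) *
    ∏ w : {w : InfinitePlace F // w.IsComplex}, LinearMap.det (KoeAct_g ‖w.1.embedding (d 0)‖
      ‖w.1.embedding (d 1)‖ (w.1.embedding (d 0) * (starRingEnd ℂ) (w.1.embedding (d 1)))) := by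
  rw [KoeAct_dt, ← LinearMap.det_conj (KoeAct_map (Matrix.diagonal d)) (KoeAct_E F)]
  rw [← LinearMap.det_pi, ← LinearMap.det_pi, ← LinearMap.det_prodMap]
  congr 1
  refine LinearMap.ext fun p => ?_
  obtain ⟨h, rfl⟩ := (KoeAct_E F).surjective p
  rw [LinearMap.comp_apply, LinearMap.comp_apply, LinearEquiv.coe_coe, LinearEquiv.coe_coe,
    LinearEquiv.symm_apply_apply]
  have h00 : Matrix.diagonal d 0 0 = d 0 := Matrix.diagonal_apply_eq d 0
  have h11 : Matrix.diagonal d 1 1 = d 1 := Matrix.diagonal_apply_eq d 1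
  have h01 : Matrix.diagonal d 0 1 = 0 := Matrix.diagonal_apply_ne d (by decide)
  have h10 : Matrix.diagonal d 1 0 = 0 := Matrix.diagonal_apply_ne d (by decide)
  have hval : ∀ w : InfinitePlace F, (KoeAct_map (Matrix.diagonal d) h).1 w =
      ((h.1 w).1 * ‖w.embedding (d 0)‖ ^ 2, (h.1 w).2.1 * ‖w.embedding (d 1)‖ ^ 2,
        (h.1 w).2.2 * (w.embedding (d 0) * (starRingEnd ℂ) (w.embedding (d 1)))) := by
    intro w
    have h1 : (KoeAct_map (Matrix.diagonal d) h).1 w = KoeAct_pull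
      (w.embedding (Matrix.diagonal d 0 0)) (w.embedding (Matrix.diagonal d 0 1))
      (w.embedding (Matrix.diagonal d 1 0)) (w.embedding (Matrix.diagonal d 1 1)) (h.1 w) := rfl
    rw [h1, h00, h01, h10, h11, map_zero]
    refine Prod.ext ?_ (Prod.ext ?_ ?_)
    · show Hh (h.1 w) (w.embedding (d 0)) 0 = _
      simp [Hh]
    · show Hh (h.1 w) 0 (w.embedding (d 1)) = _
      simp [Hh]
    · show ((h.1 w).1 : ℂ) * w.embedding (d 0) * (starRingEnd ℂ) 0 +
        ((h.1 w).2.1 : ℂ) * 0 * (starRingEnd ℂ) (w.embedding (d 1)) +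
        (h.1 w).2.2 * w.embedding (d 0) * (starRingEnd ℂ) (w.embedding (d 1)) +
        (starRingEnd ℂ) (h.1 w).2.2 * 0 * (starRingEnd ℂ) 0 = _
      simp only [map_zero]
      ring
  refine Prod.ext ?_ ?_
  · funext w
    show (((KoeAct_map (Matrix.diagonal d) h).1 w.1).1,
      ((KoeAct_map (Matrix.diagonal d) h).1 w.1).2.1,
      ((KoeAct_map (Matrix.diagonal d) h).1 w.1).2.2.re) =
      KoeAct_f _ _ ((h.1 w.1).1, (h.1 w.1).2.1, (h.1 w.1).2.2.re)
    rw [hval]
    have e : ∀ x : F, w.1.embedding x = ((InfinitePlace.embedding_of_isReal w.2 x : ℝ) : ℂ) :=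
      fun x => (InfinitePlace.embedding_of_isReal_apply w.2 x).symm
    rw [e, e]
    refine Prod.ext ?_ (Prod.ext ?_ ?_)
    · show (h.1 w.1).1 * ‖((InfinitePlace.embedding_of_isReal w.2 (d 0) : ℝ) : ℂ)‖ ^ 2 =
        (InfinitePlace.embedding_of_isReal w.2 (d 0)) ^ 2 * (h.1 w.1).1
      rw [Complex.norm_real, Real.norm_eq_abs, sq_abs, mul_comm]
    · show (h.1 w.1).2.1 * ‖((InfinitePlace.embedding_of_isReal w.2 (d 1) : ℝ) : ℂ)‖ ^ 2 =
        (InfinitePlace.embedding_of_isReal w.2 (d 1)) ^ 2 * (h.1 w.1).2.1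
      rw [Complex.norm_real, Real.norm_eq_abs, sq_abs, mul_comm]
    · show ((h.1 w.1).2.2 * (((InfinitePlace.embedding_of_isReal w.2 (d 0) : ℝ) : ℂ) *
        (starRingEnd ℂ) ((InfinitePlace.embedding_of_isReal w.2 (d 1) : ℝ) : ℂ))).re =
        (InfinitePlace.embedding_of_isReal w.2 (d 0) *
          InfinitePlace.embedding_of_isReal w.2 (d 1)) * (h.1 w.1).2.2.re
      rw [Complex.conj_ofReal, ← Complex.ofReal_mul, Complex.re_mul_ofReal, mul_comm]
  · funext w
    show (KoeAct_map (Matrix.diagonal d) h).1 w.1 = KoeAct_g _ _ _ (h.1 w.1)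
    rw [hval]
    refine Prod.ext ?_ (Prod.ext ?_ ?_)
    · exact mul_comm _ _
    · exact mul_comm _ _
    · exact mul_comm _ _

theorem KoeAct_eps_mul (s t : RPl F → ℤˣ) : epsS (s * t) = epsS s * epsS t := by
  rw [epsS, epsS, epsS]
  exact finprod_mul_distrib (Set.toFinite _) (Set.toFinite _)

theorem KoeAct_eps_sq (s : RPl F → ℤˣ) : epsS (s * s) = 1 := by
  rw [KoeAct_eps_mul]
  exact Int.units_mul_self _

theorem KoeAct_eps_one : epsS (1 : RPl F → ℤˣ) = 1 := by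
  have := KoeAct_eps_sq (1 : RPl F → ℤˣ)
  rwa [mul_one] at this

theorem KoeAct_dt_ne (γ : G F) : KoeAct_dt (γ : Matrix (Fin 2) (Fin 2) F) ≠ 0 := by
  intro h
  have h1 := KoeAct_dt_mul (γ : Matrix (Fin 2) (Fin 2) F) ((γ⁻¹ : G F) : Matrix (Fin 2) (Fin 2) F)
  rw [← Units.val_mul, mul_inv_cancel, Units.val_one, KoeAct_dt_one, h, zero_mul] at h1
  exact one_ne_zero h1

theorem KoeAct_mul_pos {a b : ℝ} {s t : ℤˣ} (ha : 0 < a * ((s : ℤ) : ℝ))
    (hb : 0 < b * ((t : ℤ) : ℝ)) : 0 < (a * b) * (((s * t : ℤˣ) : ℤ) : ℝ) := by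
  have := mul_pos ha hb
  rw [Units.val_mul, Int.cast_mul]
  have e : a * b * (((s : ℤ) : ℝ) * ((t : ℤ) : ℝ)) =
      a * ((s : ℤ) : ℝ) * (b * ((t : ℤ) : ℝ)) := by ring
  rw [e]
  exact this

theorem KoeAct_sign_diag (d : Fin 2 → F) (γ : G F)
    (hγ : (γ : Matrix (Fin 2) (Fin 2) F) = Matrix.diagonal d) :
    0 < KoeAct_dt (Matrix.diagonal d) * (((epsS (sgn γ) : ℤˣ) : ℤ) : ℝ) := by
  classical
  have hdet : (γ : Matrix (Fin 2) (Fin 2) F).det ≠ 0 :=
    (γ.isUnit.map (Matrix.detMonoidHom (R := F) (n := Fin 2))).ne_zero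
  rw [hγ, Matrix.det_diagonal, Fin.prod_univ_two] at hdet
  have hd0 : d 0 ≠ 0 := left_ne_zero_of_mul hdet
  have hd1 : d 1 ≠ 0 := right_ne_zero_of_mul hdet
  rw [KoeAct_dt_diag, epsS, finprod_eq_prod_of_fintype, Units.coe_prod, Int.cast_prod,
    mul_right_comm, ← Finset.prod_mul_distrib]
  refine mul_pos (Finset.prod_pos fun w _ => ?_) (Finset.prod_pos fun w _ => ?_)
  · rw [KoeAct_f_det]
    set a := InfinitePlace.embedding_of_isReal w.2 (d 0)
    set b := InfinitePlace.embedding_of_isReal w.2 (d 1)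
    have ha : a ≠ 0 := (map_ne_zero _).2 hd0
    have hb : b ≠ 0 := (map_ne_zero _).2 hd1
    have hr : rdet w γ = a * b := by
      rw [rdet, hγ, Matrix.det_diagonal, Fin.prod_univ_two, map_mul]
    have h1 : sgn γ w = if 0 < rdet w γ then 1 else -1 := rfl
    rw [h1, hr]
    have ha2 : 0 < a ^ 2 := by positivity
    have hb2 : 0 < b ^ 2 := by positivity
    split_ifs with hpos
    · simp only [Units.val_one, Int.cast_one, mul_one]
      positivity
    · have hneg : a * b < 0 := lt_of_le_of_ne (not_lt.1 hpos) (mul_ne_zero ha hb)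
      simp only [Units.val_neg, Units.val_one, Int.cast_neg, Int.cast_one, mul_neg, mul_one]
      have h2 : 0 < a ^ 2 * (b ^ 2 * (-(a * b))) := by
        refine mul_pos ha2 (mul_pos hb2 ?_)
        linarith
      linarith
  · rw [KoeAct_g_det]
    have h0 : w.1.embedding (d 0) ≠ 0 := (map_ne_zero _).2 hd0
    have h1 : w.1.embedding (d 1) ≠ 0 := (map_ne_zero _).2 hd1
    have h2 : 0 < ‖w.1.embedding (d 0)‖ := norm_pos_iff.2 h0
    have h3 : 0 < ‖w.1.embedding (d 1)‖ := norm_pos_iff.2 h1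
    have h4 : 0 < Complex.normSq (w.1.embedding (d 0) * (starRingEnd ℂ) (w.1.embedding (d 1))) := by
      rw [Complex.normSq_pos]
      exact mul_ne_zero h0 ((map_ne_zero _).2 h1)
    positivity

theorem KoeAct_sign (γ : G F) : 0 < KoeAct_dt (γ : Matrix (Fin 2) (Fin 2) F) *
    (((epsS (sgn γ) : ℤˣ) : ℤ) : ℝ) := by
  have hdet : (γ : Matrix (Fin 2) (Fin 2) F).det ≠ 0 :=
    (γ.isUnit.map (Matrix.detMonoidHom (R := F) (n := Fin 2))).ne_zero
  have key : ∀ M : Matrix (Fin 2) (Fin 2) F, M.det ≠ 0 → ∀ γ : G F,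
      (γ : Matrix (Fin 2) (Fin 2) F) = M → 0 < KoeAct_dt M * (((epsS (sgn γ) : ℤˣ) : ℤ) : ℝ) := by
    intro M hM
    refine Matrix.diagonal_transvection_induction_of_det_ne_zero
      (fun M => ∀ γ : G F, (γ : Matrix (Fin 2) (Fin 2) F) = M →
        0 < KoeAct_dt M * (((epsS (sgn γ) : ℤˣ) : ℤ) : ℝ)) M hM ?_ ?_ ?_
    · intro d _ γ hγ
      exact KoeAct_sign_diag d γ hγ
    · intro t γ hγ
      obtain ⟨i, j, hij, c⟩ := t
      have hT : ∀ c : F, (Matrix.transvection i j c).det ≠ 0 := fun c => by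
        rw [Matrix.det_transvection_of_ne i j hij]
        exact one_ne_zero
      let τ : G F := GeneralLinearGroup.mkOfDetNeZero (Matrix.transvection i j (c / 2)) (hT _)
      have hτ : (τ : Matrix (Fin 2) (Fin 2) F) = Matrix.transvection i j (c / 2) := rfl
      have h1 : γ = τ * τ := by
        apply Units.ext
        rw [Units.val_mul, hτ, Matrix.transvection_mul_transvection_same i j hij, add_halves, hγ]
        rfl
      have h2 : KoeAct_dt (γ : Matrix (Fin 2) (Fin 2) F) =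
          KoeAct_dt (τ : Matrix (Fin 2) (Fin 2) F) * KoeAct_dt (τ : Matrix (Fin 2) (Fin 2) F) := by
        rw [h1, Units.val_mul, KoeAct_dt_mul]
      rw [← hγ, h2, h1, map_mul, KoeAct_eps_sq, Units.val_one, Int.cast_one, mul_one]
      exact mul_self_pos.2 (KoeAct_dt_ne τ)
    · intro A B hA hB hPA hPB γ hγ
      let α : G F := GeneralLinearGroup.mkOfDetNeZero A hA
      let β : G F := GeneralLinearGroup.mkOfDetNeZero B hB
      have h1 : γ = α * β := by
        apply Units.ext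
        rw [hγ]
        rfl
      rw [h1, map_mul, KoeAct_eps_mul, KoeAct_dt_mul]
      exact KoeAct_mul_pos (hPA α rfl) (hPB β rfl)
  exact key _ hdet γ rfl

theorem KoeAct_smul_apply (γ : G F) (y : Vec F) (i : Fin 2) : (γ • y) i =
    (γ : Matrix (Fin 2) (Fin 2) F) i 0 * y 0 + (γ : Matrix (Fin 2) (Fin 2) F) i 1 * y 1 := by
  have h : (γ • y) i = ∑ j, (γ : Matrix (Fin 2) (Fin 2) F) i j * y j := rfl
  rw [h, Fin.sum_univ_two]

/-- The action of `GL₂(F)` on the families of hermitian forms. -/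
theorem exists_hA (γ : G F) : ∃ Φ : VR F ≃ₗ[ℝ] VR F, (∀ x h, qf (γ • x) (Φ h) = qf x h) ∧
    (∀ h, PSD h ↔ PSD (Φ h)) ∧
    0 < LinearMap.det (Φ : VR F →ₗ[ℝ] VR F) * (((epsS (sgn γ) : ℤˣ) : ℤ) : ℝ) := by
  let δ : Matrix (Fin 2) (Fin 2) F := ((γ⁻¹ : G F) : Matrix (Fin 2) (Fin 2) F)
  let ε : Matrix (Fin 2) (Fin 2) F := (γ : Matrix (Fin 2) (Fin 2) F)
  have h1 : δ * ε = 1 := by
    simp only [δ, ε]
    rw [← Units.val_mul, inv_mul_cancel, Units.val_one]
  have h2 : ε * δ = 1 := by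
    simp only [δ, ε]
    rw [← Units.val_mul, mul_inv_cancel, Units.val_one]
  let Φ : VR F ≃ₗ[ℝ] VR F := LinearEquiv.ofLinearMap (KoeAct_map δ) (KoeAct_map ε)
    (LinearMap.ext fun h => by
      rw [LinearMap.comp_apply, ← KoeAct_map_mul, h2, KoeAct_map_one]; rfl)
    (LinearMap.ext fun h => by
      rw [LinearMap.comp_apply, ← KoeAct_map_mul, h1, KoeAct_map_one]; rfl)
  have hΦ : ∀ h, Φ h = KoeAct_map δ h := fun h => rfl
  refine ⟨Φ, ?_, ?_, ?_⟩
  · intro x h
    rw [hΦ]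
    refine KoeAct_map_qf δ _ _ (fun i => ?_) h
    have h3 : x = γ⁻¹ • (γ • x) := (inv_smul_smul γ x).symm
    conv_lhs => rw [h3]
    exact KoeAct_smul_apply γ⁻¹ _ i
  · intro h
    constructor
    · intro hh
      rw [hΦ]
      exact KoeAct_map_psd δ hh
    · intro hh
      rw [hΦ] at hh
      have h3 := KoeAct_map_psd ε hh
      rwa [← KoeAct_map_mul, h1, KoeAct_map_one] at h3
  · have h3 : (Φ : VR F →ₗ[ℝ] VR F) = KoeAct_map δ := rfl
    rw [h3]
    have h4 := KoeAct_sign γ⁻¹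
    have h5 : epsS (sgn γ⁻¹) = epsS (sgn γ) := by
      have h6 : epsS (sgn γ⁻¹) * epsS (sgn γ) = 1 := by
        rw [← KoeAct_eps_mul, ← map_mul, inv_mul_cancel, map_one, KoeAct_eps_one]
      have h7 := congrArg (· * epsS (sgn γ)) h6
      simp only [mul_assoc, one_mul] at h7
      rw [Int.units_mul_self, mul_one] at h7
      exact h7
    rw [h5] at h4
    exact h4

/-- The action on the families of hermitian forms. -/
def hA (γ : G F) : VR F ≃ₗ[ℝ] VR F := (exists_hA γ).choose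

theorem hA_q (γ : G F) (x : Vec F) (h : VR F) : qf (γ • x) (hA γ h) = qf x h :=
  (exists_hA γ).choose_spec.1 x h

theorem hA_psd (γ : G F) (h : VR F) : PSD h ↔ PSD (hA γ h) :=
  (exists_hA γ).choose_spec.2.1 h

theorem hA_det (γ : G F) : 0 < LinearMap.det (hA γ : VR F →ₗ[ℝ] VR F) *
    (((epsS (sgn γ) : ℤˣ) : ℤ) : ℝ) :=
  (exists_hA γ).choose_spec.2.2

variable (N : ℕ) (hN : 3 ≤ N) (C : Cls F N → ℝ) (hC : GoodC N C)

theorem KoeAct_mem_Pi (g : GA F) (h : VR F) : h ∈ (koe N hN C hC g).Pi ↔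
    ∀ x : Vec F, x ∈ Lat g → x ≠ 0 → C (cls N g x) ≤ qf x h :=
  ⟨fun H x h1 h2 => H x ⟨h1, h2⟩, fun H x hx => H x hx.1 hx.2⟩

theorem KoeAct_face_iff (g : GA F) (R : Finset (Vec F)) : (koe N hN C hC g).Face R ↔
    (∀ x ∈ R, x ∈ Lat g ∧ x ≠ 0) ∧ ∃ h : VR F,
      (∀ x : Vec F, x ∈ Lat g → x ≠ 0 → C (cls N g x) ≤ qf x h) ∧
      ∀ x ∈ R, qf x h = C (cls N g x) := by
  constructor
  · rintro ⟨h1, h, h2, h3⟩
    exact ⟨h1, h, (KoeAct_mem_Pi N hN C hC g h).1 h2, h3⟩
  · rintro ⟨h1, h, h2, h3⟩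
    exact ⟨h1, h, (KoeAct_mem_Pi N hN C hC g h).2 h2, h3⟩

theorem KoeAct_face_le (γ : G F) (g : GA F) (R : Finset (Vec F))
    (hR : (koe N hN C hC g).Face R) :
    (koe N hN C hC (diag γ * g)).Face (Sel.mp (MulAction.toPerm γ) R) := by
  rw [KoeAct_face_iff] at hR ⊢
  obtain ⟨h1, h, h2, h3⟩ := hR
  have hmem : ∀ x ∈ Sel.mp (MulAction.toPerm γ) R, γ⁻¹ • x ∈ R := by
    intro x hx
    rw [Sel.mem_mp] at hx
    exact hx
  refine ⟨fun x hx => ?_, hA γ h, fun x hx hx0 => ?_, fun x hx => ?_⟩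
  · have h4 := h1 _ (hmem x hx)
    constructor
    · have h5 := (mem_Lat_diag γ g (γ⁻¹ • x)).2 h4.1
      rwa [smul_inv_smul] at h5
    · rintro rfl
      apply h4.2
      show (((γ⁻¹ : G F) : Matrix (Fin 2) (Fin 2) F).mulVec (0 : Fin 2 → F)) = 0
      exact Matrix.mulVec_zero _
  · have h5 : γ⁻¹ • x ∈ Lat g := by
      rw [← mem_Lat_diag γ g, smul_inv_smul]
      exact hx
    have h6 : γ⁻¹ • x ≠ 0 := by
      intro h6
      apply hx0
      have h7 : x = γ • (γ⁻¹ • x) := (smul_inv_smul γ x).symm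
      rw [h7, h6]
      show ((γ : Matrix (Fin 2) (Fin 2) F).mulVec (0 : Fin 2 → F)) = 0
      exact Matrix.mulVec_zero _
    have h7 := h2 _ h5 h6
    rwa [← cls_diag N γ g, ← hA_q γ, smul_inv_smul] at h7
  · have h7 := h3 _ (hmem x hx)
    rwa [← cls_diag N γ g, ← hA_q γ, smul_inv_smul] at h7

theorem koe_face_smul (γ : G F) (g : GA F) (R : Finset (Vec F)) :
    (koe N hN C hC (diag γ * g)).Face (Sel.mp (MulAction.toPerm γ) R) ↔
      (koe N hN C hC g).Face R := by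
  refine ⟨fun h => ?_, KoeAct_face_le N hN C hC γ g R⟩
  have h1 := KoeAct_face_le N hN C hC γ⁻¹ _ _ h
  have h2 : diag γ⁻¹ * (diag γ * g) = g := by
    rw [← mul_assoc, ← map_mul, inv_mul_cancel, map_one, one_mul]
  have h3 : Sel.mp (MulAction.toPerm γ⁻¹) (Sel.mp (MulAction.toPerm γ) R) = R := by
    ext x
    rw [Sel.mem_mp, Sel.mem_mp]
    show γ⁻¹ • ((γ⁻¹)⁻¹ • x) ∈ R ↔ x ∈ R
    rw [inv_inv, inv_smul_smul]
  rwa [h2, h3] at h1

theorem koe_cell_iff (g : GA F) (R : Finset (Vec F)) : (koe N hN C hC g).Cell R ↔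
    (koe N hN C hC g).Face R ∧ ∃ x ∈ R, ∃ y ∈ R, x 0 * y 1 - x 1 * y 0 ≠ 0 :=
  and_congr_right fun _ => kpos_sum R

theorem KoeAct_det (γ : G F) (x y : Vec F) : (γ • x) 0 * (γ • y) 1 - (γ • x) 1 * (γ • y) 0 =
    (γ : Matrix (Fin 2) (Fin 2) F).det * (x 0 * y 1 - x 1 * y 0) := by
  rw [KoeAct_smul_apply, KoeAct_smul_apply, KoeAct_smul_apply, KoeAct_smul_apply,
    Matrix.det_fin_two]
  ring

theorem koe_cell_smul (γ : G F) (g : GA F) (R : Finset (Vec F)) :
    (koe N hN C hC (diag γ * g)).Cell (Sel.mp (MulAction.toPerm γ) R) ↔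
      (koe N hN C hC g).Cell R := by
  rw [koe_cell_iff, koe_cell_iff, koe_face_smul]
  refine and_congr_right fun _ => ?_
  have hdet : (γ : Matrix (Fin 2) (Fin 2) F).det ≠ 0 :=
    (γ.isUnit.map (Matrix.detMonoidHom (R := F) (n := Fin 2))).ne_zero
  constructor
  · rintro ⟨x, hx, y, hy, hxy⟩
    rw [Sel.mem_mp] at hx hy
    refine ⟨γ⁻¹ • x, hx, γ⁻¹ • y, hy, fun h0 => hxy ?_⟩
    have h1 := KoeAct_det γ (γ⁻¹ • x) (γ⁻¹ • y)
    rw [smul_inv_smul, smul_inv_smul, h0, mul_zero] at h1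
    exact h1
  · rintro ⟨x, hx, y, hy, hxy⟩
    refine ⟨γ • x, ?_, γ • y, ?_, ?_⟩
    · rw [Sel.mem_mp]
      show γ⁻¹ • (γ • x) ∈ R
      rw [inv_smul_smul]
      exact hx
    · rw [Sel.mem_mp]
      show γ⁻¹ • (γ • y) ∈ R
      rw [inv_smul_smul]
      exact hy
    · rw [KoeAct_det]
      exact mul_ne_zero hdet hxy

theorem koe_mul (g : GA F) {k : GA F} (hk : k ∈ KN F N) (R : Finset (Vec F)) :
    (koe N hN C hC (g * k)).Face R ↔ (koe N hN C hC g).Face R := by
  rw [KoeAct_face_iff, KoeAct_face_iff, Lat_mul g fun v => (hk v).1]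
  refine and_congr_right fun h1 => exists_congr fun h => and_congr ?_ ?_
  · refine forall_congr' fun x => ⟨fun H hx hx0 => ?_, fun H hx hx0 => ?_⟩
    · have := H hx hx0
      rwa [cls_mul N (by omega) g hk hx] at this
    · have := H hx hx0
      rwa [cls_mul N (by omega) g hk hx]
  · refine forall_congr' fun x => ⟨fun H hx => ?_, fun H hx => ?_⟩
    · have := H hx
      rwa [cls_mul N (by omega) g hk (h1 x hx).1] at this
    · have := H hx
      rwa [cls_mul N (by omega) g hk (h1 x hx).1]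

/-- A matrix which fixes two independent vectors is the identity. -/
theorem KoeAct_fix (γ : G F) (x y : Vec F) (hxy : x 0 * y 1 - x 1 * y 0 ≠ 0) (hx : γ • x = x)
    (hy : γ • y = y) : γ = 1 := by
  have h4 := KoeAct_smul_apply γ
  have hx' : ∀ i, (γ : Matrix (Fin 2) (Fin 2) F) i 0 * x 0 +
      (γ : Matrix (Fin 2) (Fin 2) F) i 1 * x 1 = x i := fun i => by rw [← h4, hx]
  have hy' : ∀ i, (γ : Matrix (Fin 2) (Fin 2) F) i 0 * y 0 +
      (γ : Matrix (Fin 2) (Fin 2) F) i 1 * y 1 = y i := fun i => by rw [← h4, hy]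
  apply Units.ext
  ext i j
  rw [Units.val_one]
  have h0 : (γ : Matrix (Fin 2) (Fin 2) F) i 0 * (x 0 * y 1 - x 1 * y 0) =
      x i * y 1 - x 1 * y i := by
    rw [← hx' i, ← hy' i]; ring
  have h1 : (γ : Matrix (Fin 2) (Fin 2) F) i 1 * (x 0 * y 1 - x 1 * y 0) =
      x 0 * y i - x i * y 0 := by
    rw [← hx' i, ← hy' i]; ring
  apply mul_right_cancel₀ hxy
  fin_cases i <;> fin_cases j
  · simpa using h0
  · simp only [Fin.zero_eta, Fin.mk_one] at h1 ⊢
    rw [h1]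
    simp
  · simp only [Fin.zero_eta, Fin.mk_one] at h0 ⊢
    rw [h0]
    simp
  · simpa using h1

/-- A cell is only fixed by the identity. -/
theorem koe_free (γ : G F) (g : GA F) (k : GA F) (hk : k ∈ KN F N) (hγ : diag γ * g = g * k)
    (R : Finset (Vec F)) (hR : (koe N hN C hC g).Cell R)
    (hf : Sel.mp (MulAction.toPerm γ) R = R) : γ = 1 := by
  rw [koe_cell_iff] at hR
  obtain ⟨⟨hA, h, hh, ht⟩, x, hx, y, hy, hxy⟩ := hR
  have key : ∀ x ∈ R, γ • x = x := by
    intro x hx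
    have hγx : γ • x ∈ R := by
      rw [← hf, Sel.mem_mp]
      show γ⁻¹ • (γ • x) ∈ R
      rw [inv_smul_smul]
      exact hx
    have h1 : cls N g (γ • x) = cls N g x := by
      rw [← cls_mul N (by omega) g hk (hA _ hγx).1, ← hγ, cls_diag]
    exact koe_cls_inj N hN C hC g hh (hA _ hγx).1 (hA _ hγx).2 (hA _ hx).1 (hA _ hx).2
      (ht _ hγx) (ht _ hx) h1
  exact KoeAct_fix γ x y hxy (key x hx) (key y hy)

/-- An element which permutes a cell of size at least two is of finite order (no congruence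
condition). -/
theorem koe_fin_order (γ : G F) (g : GA F) (R : Finset (Vec F))
    (hR : (koe N hN C hC g).Cell R) (hf : Sel.mp (MulAction.toPerm γ) R = R) :
    ∃ n : ℕ, 0 < n ∧ γ ^ n = 1 := by
  rw [koe_cell_iff] at hR
  obtain ⟨-, x, hx, y, hy, hxy⟩ := hR
  have hmem : ∀ x ∈ R, γ • x ∈ R := by
    intro x hx
    rw [← hf, Sel.mem_mp]
    show γ⁻¹ • (γ • x) ∈ R
    rw [inv_smul_smul]
    exact hx
  let σ : R → R := fun x => ⟨γ • x.1, hmem x.1 x.2⟩
  have hσ : Function.Injective σ := fun a b hab => by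
    apply Subtype.ext
    exact (MulAction.toPerm γ).injective (congrArg Subtype.val hab)
  let τ : Equiv.Perm R := Equiv.ofBijective σ (Finite.injective_iff_bijective.1 hσ)
  obtain ⟨n, hn, hn1⟩ := (isOfFinOrder_of_finite τ).exists_pow_eq_one
  have hpow : ∀ (m : ℕ) (x : R), ((τ ^ m) x).1 = γ ^ m • x.1 := by
    intro m
    induction m with
    | zero =>
      intro x
      rw [pow_zero, pow_zero, one_smul]
      rfl
    | succ m ih =>
      intro x
      rw [pow_succ', pow_succ', mul_smul, Equiv.Perm.mul_apply, ← ih]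
      rfl
  refine ⟨n, hn, ?_⟩
  have hfix : ∀ x ∈ R, γ ^ n • x = x := by
    intro x hx
    have := hpow n ⟨x, hx⟩
    rw [hn1] at this
    exact this.symm
  exact KoeAct_fix _ x y hxy (hfix x hx) (hfix y hy)

end Pool.Agent.CG2
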