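import Pool.Agent.CG2.KoeAct
import Pool.Agent.CG2.AdFin

/-!
# Finitely many orbits of cells
-/

noncomputable section

namespace Pool.Agent.CG2

open NumberField IsDedekindDomain Matrix Pool.Agent.CG3

variable {F : Type} [Field F] [NumberField F]

/-- The standard basis vectors. -/
def e0 (F : Type) [Field F] : Vec F := ![1, 0]
/-- The standard basis vectors. -/
def e1 (F : Type) [Field F] : Vec F := ![0, 1]

/-- A positive definite form is a sum of squares of additive functions. -/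
theorem KoeFin_coord (t : ℝ × ℝ × ℂ) (ht : ∀ a b : ℂ, (a ≠ 0 ∨ b ≠ 0) → 0 < Hh t a b) :
    ∃ ψ : ℂ × ℂ →+ (Fin 4 → ℝ), ∀ p, Hh t p.1 p.2 = ∑ j, (ψ p j) ^ 2 := by
  obtain ⟨t1, t2, t3⟩ := t
  have h1 : 0 < t1 := by
    have := ht 1 0 (Or.inl one_ne_zero)
    simpa [Hh] using this
  let c : ℂ := (starRingEnd ℂ) t3 / (t1 : ℂ)
  have hc : (starRingEnd ℂ) t3 = (t1 : ℂ) * c := by
    simp only [c]
    rw [mul_div_cancel₀]
    exact_mod_cast h1.ne'
  have hc' : t3 = (t1 : ℂ) * (starRingEnd ℂ) c := by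
    have := congrArg (starRingEnd ℂ) hc
    rw [Complex.conj_conj, map_mul, Complex.conj_ofReal] at this
    exact this
  let s : ℝ := t2 - t1 * Complex.normSq c
  have key : ∀ a b : ℂ, Hh (t1, t2, t3) a b =
      t1 * Complex.normSq (a + c * b) + s * Complex.normSq b := by
    intro a b
    simp only [Hh, s]
    rw [hc']
    simp only [Complex.sq_norm, Complex.normSq_apply, Complex.mul_re, Complex.mul_im,
      Complex.add_re, Complex.add_im, Complex.ofReal_re, Complex.ofReal_im, Complex.conj_re,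
      Complex.conj_im]
    ring
  have hs : 0 < s := by
    have := ht (-c) 1 (Or.inr one_ne_zero)
    rw [key] at this
    simpa using this
  let ψ : ℂ × ℂ →+ (Fin 4 → ℝ) :=
    { toFun := fun p => ![√t1 * (p.1 + c * p.2).re, √t1 * (p.1 + c * p.2).im,
        √s * p.2.re, √s * p.2.im]
      map_zero' := by
        ext j
        fin_cases j <;> simp
      map_add' := by
        intro p q
        ext j
        fin_cases j
        · simp; ring
        · simp; ring
        · simp; ring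
        · simp; ring }
  refine ⟨ψ, fun p => ?_⟩
  rw [Fin.sum_univ_four]
  show _ = (√t1 * (p.1 + c * p.2).re) ^ 2 + (√t1 * (p.1 + c * p.2).im) ^ 2 +
    (√s * p.2.re) ^ 2 + (√s * p.2.im) ^ 2
  rw [key, mul_pow, mul_pow, mul_pow, mul_pow, Real.sq_sqrt h1.le, Real.sq_sqrt hs.le,
    Complex.normSq_apply, Complex.normSq_apply]
  ring

theorem KoeFin_Hh_le (t : ℝ × ℝ × ℂ) (ht : ∀ a b : ℂ, 0 ≤ Hh t a b) (a b : ℂ) {R : ℝ}
    (ha : ‖a‖ ≤ R) (hb : ‖b‖ ≤ R) : Hh t a b ≤ 2 * R ^ 2 * (Hh t 1 0 + Hh t 0 1) := by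
  have h1 : Hh t a b + Hh t a (-b) = 2 * (t.1 * ‖a‖ ^ 2) + 2 * (t.2.1 * ‖b‖ ^ 2) := by
    simp only [Hh, norm_neg, map_neg, mul_neg, Complex.neg_re]
    ring
  have h2 := ht a (-b)
  have h3 : Hh t 1 0 = t.1 := by simp [Hh]
  have h4 : Hh t 0 1 = t.2.1 := by simp [Hh]
  have h5 := ht 1 0
  have h6 := ht 0 1
  rw [h3] at h5 ⊢
  rw [h4] at h6 ⊢
  have h7 : ‖a‖ ^ 2 ≤ R ^ 2 := pow_le_pow_left₀ (norm_nonneg a) ha 2
  have h8 : ‖b‖ ^ 2 ≤ R ^ 2 := pow_le_pow_left₀ (norm_nonneg b) hb 2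
  have h9 := mul_le_mul_of_nonneg_left h7 h5
  have h10 := mul_le_mul_of_nonneg_left h8 h6
  nlinarith

/-- The index of `O_F²` in the lattice is bounded if the standard basis vectors are short. -/
theorem pair_bound (F : Type) [Field F] [NumberField F] : ∃ M : ℕ, 0 < M ∧
    ∀ (g : GA F) (h : VR F), (∀ x ∈ Lat g, x ≠ 0 → 1 ≤ qf x h) → e0 F ∈ Lat g → e1 F ∈ Lat g →
      qf (e0 F) h ≤ 9 / 8 → qf (e1 F) h ≤ 9 / 8 →
      ∀ x ∈ Lat g, ∀ i, ∃ a : 𝓞 F, ((M : ℕ) : F) * x i = a := by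
  classical
  obtain ⟨R, hR⟩ := KoeLat_cocompact F
  let r : ℕ := Fintype.card (InfinitePlace F)
  have hr : 0 < r := Fintype.card_pos
  let c0 : ℝ := 9 / 2 * R ^ 2
  have hc0 : 0 ≤ c0 := by positivity
  let K : ℕ := 4 * r
  obtain ⟨L, hL⟩ := exists_nat_ge ((K : ℝ) * (c0 + 1) + 1)
  let T : Type := InfinitePlace F → Fin 4 → (Finset.Icc (-(L : ℤ)) (L : ℤ))
  let B : ℕ := Fintype.card T
  refine ⟨B.factorial, Nat.factorial_pos _, ?_⟩
  intro g h hh he0 he1 hq0 hq1 x hx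
  have hpd := pd_of_lat g h hh
  have hpsd : ∀ w a b, 0 ≤ Hh (h.1 w) a b := by
    intro w a b
    by_cases hab : a ≠ 0 ∨ b ≠ 0
    · exact (hpd w a b hab).le
    · push Not at hab
      rw [hab.1, hab.2]
      simp [Hh]
  choose ψ hψ using fun w => KoeFin_coord (h.1 w) (hpd w)
  -- the coordinates
  let Ψ : Vec F → InfinitePlace F → Fin 4 → ℝ := fun x w =>
    ψ w (w.embedding (x 0), w.embedding (x 1))
  have hΨsub : ∀ x y w, Ψ (x - y) w = Ψ x w - Ψ y w := by
    intro x y w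
    simp only [Ψ]
    rw [← map_sub]
    congr 1
    refine Prod.ext ?_ ?_
    · exact map_sub w.embedding (x 0) (y 0)
    · exact map_sub w.embedding (x 1) (y 1)
  have hQ : ∀ x, qf x h = ∑ w, ∑ j, (Ψ x w j) ^ 2 := by
    intro x
    rw [qf_apply]
    exact Finset.sum_congr rfl fun w _ => hψ w (w.embedding (x 0), w.embedding (x 1))
  -- reduction of the multiples of `x`
  have hred : ∀ n : ℕ, ∃ y ∈ Lat g, (∀ i, ∃ a : 𝓞 F, (n : F) * x i - y i = a) ∧ qf y h ≤ c0 := by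
    intro n
    have h1 : ∀ i : Fin 2, ∃ a : 𝓞 F, ∀ w : InfinitePlace F,
        ‖w.embedding ((n : F) * x i - (a : F))‖ ≤ R := by
      intro i
      obtain ⟨a, ha⟩ := hR (fun w => w.embedding ((n : F) * x i)) (by
        intro w hw
        show (w.embedding ((n : F) * x i)).im = 0
        rw [← InfinitePlace.embedding_of_isReal_apply hw, Complex.ofReal_im])
      refine ⟨a, fun w => ?_⟩
      rw [map_sub]
      exact ha w
    choose a ha using h1
    let y : Vec F := fun i => (n : F) * x i - (a i : F)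
    have hy : y = (n : F) • x - ((a 0 : F) • e0 F + (a 1 : F) • e1 F) := by
      funext i
      have h2 : ((n : F) • x - ((a 0 : F) • e0 F + (a 1 : F) • e1 F)) i =
          (n : F) * x i - ((a 0 : F) * e0 F i + (a 1 : F) * e1 F i) := rfl
      rw [h2]
      fin_cases i
      · simp [y, e0, e1]
      · simp [y, e0, e1]
    refine ⟨y, ?_, fun i => ⟨a i, ?_⟩, ?_⟩
    · rw [hy]
      refine (Lat g).sub_mem ?_ ((Lat g).add_mem (Lat_smul g _ he0) (Lat_smul g _ he1))
      have h3 := Lat_smul g ((n : ℕ) : 𝓞 F) hx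
      have h4 : ((((n : ℕ) : 𝓞 F)) : F) = (n : F) := map_natCast (algebraMap (𝓞 F) F) n
      rwa [h4] at h3
    · simp [y]
    · rw [qf_apply]
      have h5 : ∀ w : InfinitePlace F, Hh (h.1 w) (w.embedding (y 0)) (w.embedding (y 1)) ≤
          2 * R ^ 2 * (Hh (h.1 w) 1 0 + Hh (h.1 w) 0 1) := fun w =>
        KoeFin_Hh_le (h.1 w) (hpsd w) _ _ (ha 0 w) (ha 1 w)
      refine (Finset.sum_le_sum fun w _ => h5 w).trans ?_
      rw [← Finset.mul_sum, Finset.sum_add_distrib]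
      have h6 : qf (e0 F) h = ∑ w : InfinitePlace F, Hh (h.1 w) 1 0 := by
        rw [qf_apply]
        refine Finset.sum_congr rfl fun w _ => ?_
        simp [e0]
      have h7 : qf (e1 F) h = ∑ w : InfinitePlace F, Hh (h.1 w) 0 1 := by
        rw [qf_apply]
        refine Finset.sum_congr rfl fun w _ => ?_
        simp [e1]
      rw [← h6, ← h7]
      have h8 : 0 ≤ R ^ 2 := sq_nonneg R
      simp only [c0]
      nlinarith
  choose y hy1 hy2 hy3 using hred
  -- the cells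
  have hcell : ∀ (n : ℕ) (w : InfinitePlace F) (j : Fin 4),
      ⌊(K : ℝ) * Ψ (y n) w j⌋ ∈ Finset.Icc (-(L : ℤ)) (L : ℤ) := by
    intro n w j
    have h1 : (Ψ (y n) w j) ^ 2 ≤ c0 := by
      refine le_trans ?_ (hy3 n)
      rw [hQ]
      exact (Finset.single_le_sum (f := fun j => (Ψ (y n) w j) ^ 2) (fun j _ => sq_nonneg _)
        (Finset.mem_univ j)).trans (Finset.single_le_sum
          (f := fun w => ∑ j, (Ψ (y n) w j) ^ 2)
          (fun w _ => Finset.sum_nonneg fun j _ => sq_nonneg _) (Finset.mem_univ w))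
    have h2 : |Ψ (y n) w j| ≤ c0 + 1 := by
      rw [← sq_abs] at h1
      nlinarith [sq_nonneg (|Ψ (y n) w j| - 1), abs_nonneg (Ψ (y n) w j)]
    have h3 := abs_le.1 h2
    have hK : (0 : ℝ) ≤ K := Nat.cast_nonneg K
    rw [Finset.mem_Icc]
    constructor
    · rw [Int.le_floor]
      push_cast
      nlinarith
    · have h4 : ⌊(K : ℝ) * Ψ (y n) w j⌋ ≤ ⌊(L : ℝ)⌋ := Int.floor_le_floor (by nlinarith)
      rwa [Int.floor_natCast] at h4
  let cell : Fin (B + 1) → T := fun n w j => ⟨⌊(K : ℝ) * Ψ (y n) w j⌋, hcell n w j⟩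
  obtain ⟨n, m, hnm, hcel⟩ := Fintype.exists_ne_map_eq_of_card_lt cell (by
    rw [Fintype.card_fin]; exact Nat.lt_succ_self B)
  -- two reduced multiples agree
  have hyeq : y n = y m := by
    by_contra hne
    have h1 := hh (y n - y m) ((Lat g).sub_mem (hy1 n) (hy1 m)) (sub_ne_zero.2 hne)
    rw [hQ] at h1
    have h2 : ∀ w j, (K : ℝ) ^ 2 * (Ψ (y n - y m) w j) ^ 2 ≤ 1 := by
      intro w j
      have h3 : ⌊(K : ℝ) * Ψ (y n) w j⌋ = ⌊(K : ℝ) * Ψ (y m) w j⌋ :=
        congrArg Subtype.val (congrFun (congrFun hcel w) j)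
      have h4 := Int.abs_sub_lt_one_of_floor_eq_floor h3
      rw [hΨsub, Pi.sub_apply, ← mul_pow, mul_sub, ← sq_abs]
      exact pow_le_one₀ (abs_nonneg _) h4.le
    have h3 : (K : ℝ) ^ 2 * ∑ w : InfinitePlace F, ∑ j, (Ψ (y n - y m) w j) ^ 2 ≤ K := by
      rw [Finset.mul_sum]
      calc ∑ w : InfinitePlace F, (K : ℝ) ^ 2 * ∑ j, (Ψ (y n - y m) w j) ^ 2
          ≤ ∑ w : InfinitePlace F, (4 : ℝ) := by
            refine Finset.sum_le_sum fun w _ => ?_
            rw [Finset.mul_sum]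
            calc ∑ j, (K : ℝ) ^ 2 * (Ψ (y n - y m) w j) ^ 2 ≤ ∑ j : Fin 4, (1 : ℝ) :=
                  Finset.sum_le_sum fun j _ => h2 w j
              _ = 4 := by simp
        _ = K := by
            rw [Finset.sum_const, Finset.card_univ, nsmul_eq_mul]
            simp only [K, r]
            push_cast
            ring
    have hK : (4 : ℝ) ≤ K := by
      simp only [K]
      have : 1 ≤ r := hr
      exact_mod_cast (by omega : 4 ≤ 4 * r)
    have h4 : (K : ℝ) ^ 2 ≤ K := by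
      refine le_trans ?_ h3
      have h5 : (0 : ℝ) ≤ (K : ℝ) ^ 2 := sq_nonneg _
      nlinarith
    nlinarith
  -- conclusion
  intro i
  have hdiff : ∃ (d : ℕ) (a : 𝓞 F), 0 < d ∧ d ≤ B ∧ (d : F) * x i = a := by
    obtain ⟨a, ha⟩ := hy2 n i
    obtain ⟨b, hb⟩ := hy2 m i
    rw [hyeq] at ha
    rcases lt_or_gt_of_ne (fun h => hnm (Fin.ext h) : (n : ℕ) ≠ m) with hlt | hgt
    · refine ⟨(m : ℕ) - n, b - a, by omega, by have := m.2; omega, ?_⟩
      rw [Nat.cast_sub hlt.le]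
      have h1 : ((b - a : 𝓞 F) : F) = (b : F) - (a : F) := map_sub (algebraMap (𝓞 F) F) b a
      rw [h1, ← ha, ← hb]
      ring
    · refine ⟨(n : ℕ) - m, a - b, by omega, by have := n.2; omega, ?_⟩
      rw [Nat.cast_sub hgt.le]
      have h1 : ((a - b : 𝓞 F) : F) = (a : F) - (b : F) := map_sub (algebraMap (𝓞 F) F) a b
      rw [h1, ← ha, ← hb]
      ring
  obtain ⟨d, a, hd0, hdB, hda⟩ := hdiff
  obtain ⟨q, hq⟩ := Nat.dvd_factorial hd0 hdB
  refine ⟨((q : ℕ) : 𝓞 F) * a, ?_⟩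
  have h1 : ((((q : ℕ) : 𝓞 F) * a : 𝓞 F) : F) = (q : F) * (a : F) := by
    have := map_mul (algebraMap (𝓞 F) F) ((q : ℕ) : 𝓞 F) a
    rw [map_natCast] at this
    exact this
  rw [h1, hq, ← hda]
  push_cast
  ring

/-- The matrices whose inverse is integral and whose product with `M` is integral. -/
def KoeFin_D (M : ℕ) (v : Pl F) : Set (GQ v) :=
  {g | (∀ i j, Valued.v (((M : ℕ) : Fv v) *
      (g : Matrix (Fin 2) (Fin 2) (Fv v)) i j) ≤ 1) ∧
    ∀ i j, Valued.v (((g⁻¹ : GQ v) : Matrix (Fin 2) (Fin 2) (Fv v)) i j) ≤ 1}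

theorem KoeFin_D_compact (M : ℕ) (hM : M ≠ 0) (v : Pl F) :
    IsCompact (KoeFin_D M v) := by
  have hM0 : ((M : ℕ) : Fv v) ≠ 0 := by
    intro h
    exact KoeLat_val_natCast_ne v hM (by rw [h, map_zero])
  have hMO : (((M : ℕ) : Ov v) : Fv v) = ((M : ℕ) : Fv v) := map_natCast (algebraMap (Ov v) (Fv v)) M
  have hcO : CompactSpace (Matrix (Fin 2) (Fin 2) (Ov v)) :=
    inferInstanceAs (CompactSpace (Fin 2 → Fin 2 → Ov v))
  let P : Set (Matrix (Fin 2) (Fin 2) (Ov v) × Matrix (Fin 2) (Fin 2) (Ov v)) :=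
    {p | p.1 * p.2 = ((M : ℕ) : Ov v) • (1 : Matrix (Fin 2) (Fin 2) (Ov v)) ∧
      p.2 * p.1 = ((M : ℕ) : Ov v) • (1 : Matrix (Fin 2) (Fin 2) (Ov v))}
  have hP : IsClosed P := by
    have c1 : Continuous fun p : Matrix (Fin 2) (Fin 2) (Ov v) × Matrix (Fin 2) (Fin 2) (Ov v) =>
        p.1 * p.2 := continuous_fst.mul continuous_snd
    have c2 : Continuous fun p : Matrix (Fin 2) (Fin 2) (Ov v) × Matrix (Fin 2) (Fin 2) (Ov v) =>
        p.2 * p.1 := continuous_snd.mul continuous_fst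
    exact IsClosed.inter (isClosed_eq c1 continuous_const) (isClosed_eq c2 continuous_const)
  have hPc : CompactSpace P := isCompact_iff_compactSpace.1 hP.isCompact
  let ι : Matrix (Fin 2) (Fin 2) (Ov v) → Matrix (Fin 2) (Fin 2) (Fv v) := fun A =>
    A.map (algebraMap (Ov v) (Fv v))
  have hι : ∀ A B, ι (A * B) = ι A * ι B := fun A B => Matrix.map_mul
  have hι1 : ι (((M : ℕ) : Ov v) • (1 : Matrix (Fin 2) (Fin 2) (Ov v))) =
      ((M : ℕ) : Fv v) • (1 : Matrix (Fin 2) (Fin 2) (Fv v)) := by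
    ext i j
    simp only [ι, Matrix.map_apply, Matrix.smul_apply, smul_eq_mul, map_mul, map_natCast]
    congr 1
    by_cases hij : i = j
    · rw [hij, Matrix.one_apply_eq, Matrix.one_apply_eq, map_one]
    · rw [Matrix.one_apply_ne hij, Matrix.one_apply_ne hij, map_zero]
  have hιc : Continuous ι := by
    refine continuous_matrix fun i j => ?_
    exact (continuous_subtype_val (p := fun x : Fv v => x ∈ Ov v)).comp
      (continuous_id.matrix_elem i j)
  let f : P → GQ v := fun p =>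
    ⟨((M : ℕ) : Fv v)⁻¹ • ι p.1.1, ι p.1.2, by
      rw [smul_mul_assoc, ← hι, p.2.1, hι1, smul_smul, inv_mul_cancel₀ hM0, one_smul], by
      rw [mul_smul_comm, ← hι, p.2.2, hι1, smul_smul, inv_mul_cancel₀ hM0, one_smul]⟩
  have hf : Continuous f := by
    have c1 : Continuous fun p : P => p.1.1 := continuous_fst.comp continuous_subtype_val
    have c2 : Continuous fun p : P => p.1.2 := continuous_snd.comp continuous_subtype_val
    refine Units.continuous_iff.2 ⟨?_, ?_⟩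
    · exact (hιc.comp c1).const_smul (((M : ℕ) : Fv v)⁻¹)
    · exact hιc.comp c2
  have hr : KoeFin_D M v = Set.range f := by
    ext g
    constructor
    · rintro ⟨h1, h2⟩
      let A : Matrix (Fin 2) (Fin 2) (Ov v) := fun i j => ⟨_, h1 i j⟩
      let B : Matrix (Fin 2) (Fin 2) (Ov v) := fun i j => ⟨_, h2 i j⟩
      have hA : ι A = ((M : ℕ) : Fv v) • (g : Matrix (Fin 2) (Fin 2) (Fv v)) := by
        ext i j; rfl
      have hB : ι B = ((g⁻¹ : GQ v) : Matrix (Fin 2) (Fin 2) (Fv v)) := by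
        ext i j; rfl
      have hinj : Function.Injective ι := by
        intro X Y h
        ext i j
        have := congrFun (congrFun h i) j
        exact congrArg _ this
      have hAB : A * B = ((M : ℕ) : Ov v) • (1 : Matrix (Fin 2) (Fin 2) (Ov v)) := by
        apply hinj
        rw [hι, hA, hB, hι1, smul_mul_assoc, ← Units.val_mul, mul_inv_cancel, Units.val_one]
      have hBA : B * A = ((M : ℕ) : Ov v) • (1 : Matrix (Fin 2) (Fin 2) (Ov v)) := by
        apply hinj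
        rw [hι, hA, hB, hι1, mul_smul_comm, ← Units.val_mul, inv_mul_cancel, Units.val_one]
      refine ⟨⟨(A, B), hAB, hBA⟩, ?_⟩
      apply Units.ext
      show ((M : ℕ) : Fv v)⁻¹ • ι A = _
      rw [hA, smul_smul, inv_mul_cancel₀ hM0, one_smul]
    · rintro ⟨p, rfl⟩
      refine ⟨fun i j => ?_, fun i j => ?_⟩
      · have h1 : ((M : ℕ) : Fv v) * ((f p : GQ v) : Matrix (Fin 2) (Fin 2) (Fv v)) i j =
            ((p.1.1 i j : Ov v) : Fv v) := by
          show ((M : ℕ) : Fv v) * (((M : ℕ) : Fv v)⁻¹ • ι p.1.1) i j = _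
          rw [Matrix.smul_apply, smul_eq_mul, mul_inv_cancel_left₀ hM0]
          rfl
        rw [h1]
        exact (p.1.1 i j).2
      · exact (p.1.2 i j).2
  rw [hr]
  exact isCompact_range hf

theorem KoeFin_D_fin (M : ℕ) (hM : M ≠ 0) :
    {v : Pl F | ¬ KoeFin_D M v ⊆ (GZ v : Set (GQ v))}.Finite := by
  refine (KoeCls_fin F M hM).subset ?_
  intro v hv h1
  apply hv
  rintro g ⟨h2, h3⟩
  refine (mem_GZ_iff v g).2 ⟨fun i j => ?_, h3⟩
  have h4 := h2 i j
  rw [map_mul, h1, one_mul] at h4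
  exact h4

/-- The lattice is dense in the local lattices. -/
theorem KoeFin_local (g : GA F) (M : ℕ) (he0 : e0 F ∈ Lat g) (he1 : e1 F ∈ Lat g)
    (hM : ∀ x ∈ Lat g, ∀ i, ∃ a : 𝓞 F, ((M : ℕ) : F) * x i = a) (v : Pl F) :
    g.1 v ∈ KoeFin_D M v := by
  classical
  -- the inverse is integral
  have hinv : ∀ (w : Pl F) i j,
      Valued.v ((((g.1 w)⁻¹ : GQ w) : Matrix (Fin 2) (Fin 2) (Fv w)) i j) ≤ 1 := by
    intro w i j
    fin_cases j
    · have h1 := he0 w i
      rw [KoeLat_ivec_eq] at h1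
      have h2 : ((e0 F 0 : F) : Fv w) = 1 := map_one (algebraMap F (Fv w))
      have h3 : ((e0 F 1 : F) : Fv w) = 0 := map_zero (algebraMap F (Fv w))
      rwa [h2, h3, mul_one, mul_zero, add_zero] at h1
    · have h1 := he1 w i
      rw [KoeLat_ivec_eq] at h1
      have h2 : ((e1 F 0 : F) : Fv w) = 0 := map_zero (algebraMap F (Fv w))
      have h3 : ((e1 F 1 : F) : Fv w) = 1 := map_one (algebraMap F (Fv w))
      rwa [h2, h3, mul_one, mul_zero, zero_add] at h1
  refine ⟨fun i j => ?_, hinv v⟩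
  -- approximation of the column `j`
  have happ : ∀ i : Fin 2, ∃ y : F,
      Valued.v (((y : F) : Fv v) - ((g.1 v : GQ v) : Matrix (Fin 2) (Fin 2) (Fv v)) i j) ≤ 1 ∧
      ∀ w, w ≠ v → Valued.v ((y : F) : Fv w) ≤ 1 := by
    intro i
    obtain ⟨a, ha⟩ := exists_sub_lt v (((g.1 v : GQ v) : Matrix (Fin 2) (Fin 2) (Fv v)) i j) 1
      one_ne_zero
    obtain ⟨y, hy1, hy2⟩ := approx {v} (fun _ => a) (fun _ => 0)
    refine ⟨y, ?_, fun w hw => ?_⟩
    · have h1 := hy1 v (Finset.mem_singleton_self v)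
      rw [Ge, neg_zero, WithZero.exp_zero, ← HeightOneSpectrum.adicCompletion.valued_coe] at h1
      have h2 : (((y - a : F)) : Fv v) = ((y : F) : Fv v) - ((a : F) : Fv v) :=
        map_sub (algebraMap F (Fv v)) y a
      rw [h2] at h1
      have h3 : ((y : F) : Fv v) - ((g.1 v : GQ v) : Matrix (Fin 2) (Fin 2) (Fv v)) i j =
          (((y : F) : Fv v) - ((a : F) : Fv v)) -
            (((g.1 v : GQ v) : Matrix (Fin 2) (Fin 2) (Fv v)) i j - ((a : F) : Fv v)) := by ring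
      rw [h3]
      exact (Valuation.map_sub _ _ _).trans (max_le h1 ha.le)
    · have h1 := hy2 w (by rwa [Finset.mem_singleton])
      rw [Ge, neg_zero, WithZero.exp_zero] at h1
      rw [HeightOneSpectrum.adicCompletion.valued_coe]
      exact h1
  choose y' hy1 hy2 using happ
  obtain ⟨y, hy⟩ : ∃ y : Vec F, ∀ i, y i = y' i := ⟨y', fun _ => rfl⟩
  simp only [← hy] at hy1 hy2
  have hyL : y ∈ Lat g := by
    intro w l
    rw [KoeLat_ivec_eq]
    by_cases hw : w = v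
    · subst hw
      have h1 : (((g.1 w)⁻¹ : GQ w) : Matrix (Fin 2) (Fin 2) (Fv w)) l 0 * ((y 0 : F) : Fv w) +
          (((g.1 w)⁻¹ : GQ w) : Matrix (Fin 2) (Fin 2) (Fv w)) l 1 * ((y 1 : F) : Fv w) =
          (((g.1 w)⁻¹ : GQ w) : Matrix (Fin 2) (Fin 2) (Fv w)) l 0 *
            (((y 0 : F) : Fv w) - ((g.1 w : GQ w) : Matrix (Fin 2) (Fin 2) (Fv w)) 0 j) +
          (((g.1 w)⁻¹ : GQ w) : Matrix (Fin 2) (Fin 2) (Fv w)) l 1 *
            (((y 1 : F) : Fv w) - ((g.1 w : GQ w) : Matrix (Fin 2) (Fin 2) (Fv w)) 1 j) +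
          (1 : Matrix (Fin 2) (Fin 2) (Fv w)) l j := by
        have h2 : (((g.1 w)⁻¹ * g.1 w : GQ w) : Matrix (Fin 2) (Fin 2) (Fv w)) l j =
            (1 : Matrix (Fin 2) (Fin 2) (Fv w)) l j := by
          rw [inv_mul_cancel, Units.val_one]
        rw [Units.val_mul, Matrix.mul_apply, Fin.sum_univ_two] at h2
        rw [← h2]
        ring
      rw [h1]
      refine (Valuation.map_add _ _ _).trans (max_le ((Valuation.map_add _ _ _).trans
        (max_le ?_ ?_)) ?_)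
      · rw [map_mul]
        exact mul_le_one' (hinv w l 0) (hy1 0)
      · rw [map_mul]
        exact mul_le_one' (hinv w l 1) (hy1 1)
      · by_cases hlj : l = j
        · rw [hlj, Matrix.one_apply_eq, map_one]
        · rw [Matrix.one_apply_ne hlj, map_zero]
          exact zero_le
    · refine (Valuation.map_add _ _ _).trans (max_le ?_ ?_)
      · rw [map_mul]
        exact mul_le_one' (hinv w l 0) (hy2 0 w hw)
      · rw [map_mul]
        exact mul_le_one' (hinv w l 1) (hy2 1 w hw)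
  obtain ⟨a, ha⟩ := hM y hyL i
  have h1 : ((M : ℕ) : Fv v) * ((g.1 v : GQ v) : Matrix (Fin 2) (Fin 2) (Fv v)) i j =
      (((a : 𝓞 F) : F) : Fv v) - ((M : ℕ) : Fv v) *
        (((y i : F) : Fv v) - ((g.1 v : GQ v) : Matrix (Fin 2) (Fin 2) (Fv v)) i j) := by
    have h2 := congrArg (algebraMap F (Fv v)) ha
    rw [map_mul, map_natCast] at h2
    have h3 : (((a : 𝓞 F) : F) : Fv v) = ((M : ℕ) : Fv v) * ((y i : F) : Fv v) := h2.symm
    rw [h3]
    ring
  rw [h1]
  refine (Valuation.map_sub _ _ _).trans (max_le (KoeLat_val_coe_le v a) ?_)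
  rw [map_mul]
  exact mul_le_one' (KoeLat_val_natCast_le v M) (hy1 i)

/-- Finitely many points have a given pair as a cell. -/
theorem pair_fin {K : Subgroup (GA F)} {S : Set (Pl F)} (hK : OC K S) :
    ∃ Φ : Set (Pt F), Φ.Finite ∧ ∀ y : Pt F, (∃ h : VR F, (∀ x ∈ Lat y.2, x ≠ 0 → 1 ≤ qf x h) ∧
      e0 F ∈ Lat y.2 ∧ e1 F ∈ Lat y.2 ∧ qf (e0 F) h ≤ 9 / 8 ∧ qf (e1 F) h ≤ 9 / 8) →
      ∃ y₀ ∈ Φ, ∃ κ ∈ K, y = rt y₀ κ := by
  obtain ⟨M, hM, hM2⟩ := pair_bound F
  obtain ⟨Φ, hΦ, h⟩ := fin_cover (fun v => KoeFin_D M v)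
    (fun v => KoeFin_D_compact M hM.ne' v) (KoeFin_D_fin M hM.ne') hK
  have hfs : Finite (RPl F → ℤˣ) := inferInstance
  refine ⟨(Set.univ : Set (RPl F → ℤˣ)) ×ˢ Φ, Set.finite_univ.prod hΦ, ?_⟩
  rintro ⟨s, g⟩ ⟨hh, h1, h2, h3, h4, h5⟩
  obtain ⟨φ, hφ, κ, hκ, hg⟩ := h g fun v =>
    KoeFin_local g M h2 h3 (hM2 g hh h1 h2 h3 h4 h5) v
  refine ⟨(s, φ), ⟨Set.mem_univ _, hφ⟩, κ, hκ, ?_⟩
  rw [rt, hg]

end Pool.Agent.CG2
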