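import Pool.Agent.CG2.PolyB

/-!
# The orientation of the vertices
-/

noncomputable section

namespace Pool.Agent.CG2

open Pool.Agent.CG3

variable {E V : Type} [DecidableEq E] [NormedAddCommGroup V] [NormedSpace ℝ V]
  [FiniteDimensional ℝ V]

namespace PolySys

/-- The determinant of the functionals of a tuple of facets with respect to a basis. -/
def dt (P : PolySys E V) {m : ℕ} (b : Module.Basis (Fin m) ℝ V) (t : Fin m → E) : ℝ :=
  Matrix.det (Matrix.of fun i j => P.q (t i) (b j))

/-- The sign of the determinant. -/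
def sg (P : PolySys E V) {m : ℕ} (b : Module.Basis (Fin m) ℝ V) (t : Fin m → E) : ℤ :=
  (SignType.sign (P.dt b t) : ℤ)

theorem dt_perm (P : PolySys E V) {m : ℕ} (b : Module.Basis (Fin m) ℝ V) (t : Fin m → E)
    (π : Equiv.Perm (Fin m)) : P.dt b (t ∘ π) = ((Equiv.Perm.sign π : ℤ) : ℝ) * P.dt b t := by
  have h := Matrix.det_permute π (Matrix.of fun i j => P.q (t i) (b j))
  have e : (Matrix.of fun i j => P.q ((t ∘ π) i) (b j)) =
      (Matrix.of fun i j => P.q (t i) (b j)).submatrix π id := rfl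
  rw [dt, e, h, dt]

theorem dt_ne (P : PolySys E V) {m : ℕ} (b : Module.Basis (Fin m) ℝ V) (t : Fin m → E)
    (ht : Sel.ctc P.Face t) : P.dt b t ≠ 0 := by
  obtain ⟨hinj, hA, h, hh, hR⟩ := ht
  have hli := P.indep h hh
  have h1 : LinearIndependent ℝ (fun i : Fin m => P.q (t i)) := by
    have hm : ∀ i, t i ∈ P.A ∧ P.q (t i) h = P.c (t i) := fun i =>
      ⟨hA _ (Sel.mem_im.2 ⟨i, rfl⟩), hR _ (Sel.mem_im.2 ⟨i, rfl⟩)⟩
    exact hli.comp (fun i : Fin m => (⟨t i, hm i⟩ : {e // e ∈ P.A ∧ P.q e h = P.c e}))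
      (fun i j hij => hinj (by simpa using hij))
  intro h0
  obtain ⟨v, hv, hv0⟩ := Matrix.exists_vecMul_eq_zero_iff.2 h0
  apply hv
  rw [Fintype.linearIndependent_iff] at h1
  funext i
  refine h1 v ?_ i
  apply ContinuousLinearMap.coe_injective
  apply b.ext
  intro j
  have := congrFun hv0 j
  simpa [Matrix.vecMul, dotProduct] using this

/-- The direction of the edge of an `m`-tuple. -/
def orD (P : PolySys E V) {m : ℕ} (b : Module.Basis (Fin (m + 1)) ℝ V) (t : Fin m → E) : V :=
  ∑ j : Fin (m + 1), ((-1 : ℝ) ^ (j : ℕ) * Matrix.det ((Matrix.of fun (i : Fin m) j =>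
    P.q (t i) (b j)).submatrix id j.succAbove)) • b j

theorem det_cons (P : PolySys E V) {m : ℕ} (b : Module.Basis (Fin (m + 1)) ℝ V) (t : Fin m → E)
    (ρ : E) : P.dt b (Fin.cons ρ t) = P.q ρ (P.orD b t) := by
  rw [dt, Matrix.det_succ_row_zero, orD, map_sum]
  refine Finset.sum_congr rfl fun j _ => ?_
  rw [map_smul, smul_eq_mul]
  have e : (Matrix.of fun i j => P.q ((Fin.cons ρ t : Fin (m + 1) → E) i) (b j)).submatrix
      Fin.succ j.succAbove = (Matrix.of fun (i : Fin m) j => P.q (t i) (b j)).submatrix id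
      j.succAbove := by
    ext i k
    simp
  rw [e]
  simp only [Matrix.of_apply, Fin.cons_zero]
  ring

theorem orD_zero (P : PolySys E V) {m : ℕ} (b : Module.Basis (Fin (m + 1)) ℝ V) (t : Fin m → E)
    (i : Fin m) : P.q (t i) (P.orD b t) = 0 := by
  rw [← det_cons, dt]
  apply Matrix.det_zero_of_row_eq (i := 0) (j := i.succ) (Fin.succ_ne_zero i).symm
  ext j
  simp


omit [DecidableEq E] in
/-- The end of a bounded edge. -/
theorem or_end (P : PolySys E V) {h0 d : V} (hh0 : h0 ∈ P.Pi)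
    (hb : BddAbove {s : ℝ | h0 + s • d ∈ P.Pi}) :
    ∃ s : ℝ, h0 + s • d ∈ P.Pi ∧ (∀ s' : ℝ, h0 + s' • d ∈ P.Pi → s' ≤ s) ∧
      ∃ ρ ∈ P.A, P.q ρ (h0 + s • d) = P.c ρ ∧ P.q ρ d < 0 := by
  have hcl : IsClosed {s : ℝ | h0 + s • d ∈ P.Pi} := by
    have : {s : ℝ | h0 + s • d ∈ P.Pi} = ⋂ e ∈ P.A, {s : ℝ | P.c e ≤ P.q e (h0 + s • d)} := by
      ext s
      simp [Pi]
    rw [this]
    refine isClosed_biInter fun e _ => isClosed_le continuous_const ?_
    fun_prop
  have hne : {s : ℝ | h0 + s • d ∈ P.Pi}.Nonempty := ⟨0, by simpa using hh0⟩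
  set s := sSup {s : ℝ | h0 + s • d ∈ P.Pi} with hs
  have hsm : h0 + s • d ∈ P.Pi := hcl.csSup_mem hne hb
  have hmax : ∀ s' : ℝ, h0 + s' • d ∈ P.Pi → s' ≤ s := fun s' hs' => le_csSup hb hs'
  refine ⟨s, hsm, hmax, ?_⟩
  by_contra hcon
  push Not at hcon
  obtain ⟨U, hU, hF⟩ := P.locfin (h0 + s • d) hsm
  -- move a little further
  have hlim : Filter.Tendsto (fun r : ℝ => h0 + r • d) (nhds s) (nhds (h0 + s • d)) := by
    have : Continuous fun r : ℝ => h0 + r • d := by fun_prop
    exact this.tendsto s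
  have hlim' : Filter.Tendsto (fun r : ℝ => h0 + r • d) (nhdsWithin s (Set.Ioi s))
      (nhds (h0 + s • d)) := hlim.mono_left nhdsWithin_le_nhds
  have h1 : ∀ᶠ r in nhdsWithin s (Set.Ioi s), h0 + r • d ∈ U := hlim' hU
  have h2 : ∀ᶠ r in nhdsWithin s (Set.Ioi s), ∀ e ∈ {e | e ∈ P.A ∧ ∃ h' ∈ U, P.q e h' ≤ P.c e},
      P.c e ≤ P.q e (h0 + r • d) := by
    rw [Filter.eventually_all_finite hF]
    rintro e ⟨he, _⟩
    rcases (hsm e he).lt_or_eq with hlt | heq
    · have h3 : Filter.Tendsto (fun r : ℝ => P.q e (h0 + r • d)) (nhdsWithin s (Set.Ioi s))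
          (nhds (P.q e (h0 + s • d))) := ((P.q e).continuous.tendsto _).comp hlim'
      exact (h3.eventually (lt_mem_nhds hlt)).mono fun r hr => le_of_lt hr
    · have h4 := hcon e he heq.symm
      filter_upwards [self_mem_nhdsWithin] with r hr
      have hr' : s < r := hr
      rw [map_add, map_smul, smul_eq_mul] at heq ⊢
      nlinarith
  have h3 : ∀ᶠ r in nhdsWithin s (Set.Ioi s), r ∈ Set.Ioi s := self_mem_nhdsWithin
  obtain ⟨r, hrU, hr, hrs⟩ := (h1.and (h2.and h3)).exists
  have hrs' : s < r := hrs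
  have : h0 + r • d ∈ P.Pi := by
    intro e he
    by_cases hle : P.q e (h0 + r • d) ≤ P.c e
    · exact hr e ⟨he, _, hrU, hle⟩
    · exact (not_le.1 hle).le
  linarith [hmax r this]

/-- The two ends of an edge have opposite signs. -/
theorem sum_sg (P : PolySys E V) {m : ℕ} (b : Module.Basis (Fin (m + 1)) ℝ V) (t : Fin m → E)
    (ht : Sel.ctc P.Cell t) :
    ∑ ρ ∈ Sel.nb P.Cell (Sel.im t), P.sg b (Fin.cons ρ t) = 0 := by
  obtain ⟨hinj, ⟨hA, h0, hh0, hR⟩, hpos⟩ := ht
  have hsg : ∀ ρ, P.sg b (Fin.cons ρ t) = (SignType.sign (P.q ρ (P.orD b t)) : ℤ) := by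
    intro ρ
    rw [sg, det_cons]
  by_cases hd : P.orD b t = 0
  · apply Finset.sum_eq_zero
    intro ρ _
    rw [hsg, hd, map_zero, sign_zero]
    rfl
  set d := P.orD b t with hdd
  have hRd : ∀ e ∈ Sel.im t, P.q e d = 0 := by
    intro e he
    obtain ⟨i, rfl⟩ := Sel.mem_im.1 he
    exact P.orD_zero b t i
  have hcard : (Sel.im t).card = m := by
    rw [Sel.im, Finset.card_image_of_injective _ hinj, Finset.card_univ, Fintype.card_fin]
  have hfr : Module.finrank ℝ V = m + 1 := by
    rw [Module.finrank_eq_card_basis b, Fintype.card_fin]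
  -- points of the line are in the face
  have hface : ∀ s : ℝ, ∀ e ∈ Sel.im t, P.q e (h0 + s • d) = P.c e := by
    intro s e he
    rw [map_add, map_smul, hRd e he, smul_zero, add_zero]
    exact hR e he
  -- boundedness
  have hbd : Bornology.IsBounded {h : V | (∀ e ∈ P.A, P.c e ≤ P.q e h) ∧
      (∑ e ∈ Sel.im t, P.q e) h ≤ ∑ e ∈ Sel.im t, P.c e} := (P.comp _ hpos _).isBounded
  obtain ⟨M, hM⟩ := hbd.exists_norm_le
  have hdn : 0 < ‖d‖ := norm_pos_iff.2 hd
  have habs : ∀ s : ℝ, h0 + s • d ∈ P.Pi → |s| ≤ (M + ‖h0‖) / ‖d‖ := by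
    intro s hs
    have h1 := hM (h0 + s • d) ⟨hs, by
      rw [_root_.sum_apply]
      exact (Finset.sum_congr rfl fun e he => hface s e he).le⟩
    rw [le_div_iff₀ hdn]
    have h2 : |s| * ‖d‖ = ‖s • d‖ := by rw [norm_smul, Real.norm_eq_abs]
    rw [h2]
    have h3 : s • d = (h0 + s • d) - h0 := by abel
    rw [h3]
    exact (norm_sub_le _ _).trans (by linarith)
  have hbA : BddAbove {s : ℝ | h0 + s • d ∈ P.Pi} :=
    ⟨(M + ‖h0‖) / ‖d‖, fun s hs => (le_abs_self s).trans (habs s hs)⟩
  have hbA' : BddAbove {s : ℝ | h0 + s • (-d) ∈ P.Pi} :=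
    ⟨(M + ‖h0‖) / ‖d‖, fun s hs => by
      have hs' : h0 + (-s) • d ∈ P.Pi := by
        have : h0 + s • (-d) ∈ P.Pi := hs
        rwa [smul_neg, ← neg_smul] at this
      have := habs _ hs'
      rw [abs_neg] at this
      exact (le_abs_self s).trans this⟩
  obtain ⟨s1, hs1, hmax1, ρ1, hρ1A, hρ1t, hρ1d⟩ := P.or_end hh0 hbA
  obtain ⟨s2, hs2, hmax2, ρ2, hρ2A, hρ2t, hρ2d⟩ := P.or_end hh0 hbA'
  rw [map_neg, neg_neg_iff_pos] at hρ2d
  rw [smul_neg, ← neg_smul] at hs2 hρ2t
  have hρ1R : ρ1 ∉ Sel.im t := fun hh => by rw [hRd _ hh] at hρ1d; exact lt_irrefl _ hρ1d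
  have hρ2R : ρ2 ∉ Sel.im t := fun hh => by rw [hRd _ hh] at hρ2d; exact lt_irrefl _ hρ2d
  have hne : ρ1 ≠ ρ2 := by
    rintro rfl
    linarith
  -- at a point of the line only one more inequality can be tight
  have huniq : ∀ (s : ℝ) (ρ ρ' : E), h0 + s • d ∈ P.Pi → ρ ∈ P.A → ρ' ∈ P.A → ρ ∉ Sel.im t →
      ρ' ∉ Sel.im t → P.q ρ (h0 + s • d) = P.c ρ → P.q ρ' (h0 + s • d) = P.c ρ' → ρ = ρ' := by
    intro s ρ ρ' hs hρA hρA' hρR hρR' hρt hρt'
    by_contra hne'
    have hF : P.Face (insert ρ' (insert ρ (Sel.im t))) := by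
      refine ⟨?_, h0 + s • d, hs, ?_⟩
      · intro e he
        rcases Finset.mem_insert.1 he with rfl | he
        · exact hρA'
        rcases Finset.mem_insert.1 he with rfl | he
        · exact hρA
        · exact hA e he
      · intro e he
        rcases Finset.mem_insert.1 he with rfl | he
        · exact hρt'
        rcases Finset.mem_insert.1 he with rfl | he
        · exact hρt
        · exact hface s e he
    have h1 := face_card hF
    rw [Finset.card_insert_of_notMem, Finset.card_insert_of_notMem hρR, hcard, hfr] at h1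
    · omega
    · rw [Finset.mem_insert, not_or]
      exact ⟨fun hh => hne' hh.symm, hρR'⟩
  have hcell : ∀ (s : ℝ) (ρ : E), h0 + s • d ∈ P.Pi → ρ ∈ P.A → ρ ∉ Sel.im t →
      P.q ρ (h0 + s • d) = P.c ρ → P.Cell (insert ρ (Sel.im t)) := by
    intro s ρ hs hρA hρR hρt
    refine ⟨⟨?_, h0 + s • d, hs, ?_⟩, ?_⟩
    · intro e he
      rcases Finset.mem_insert.1 he with rfl | he
      · exact hρA
      · exact hA e he
    · intro e he
      rcases Finset.mem_insert.1 he with rfl | he
      · exact hρt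
      · exact hface s e he
    · rw [Finset.sum_insert hρR, add_comm]
      have := P.pos_add _ hpos ρ hρA 1 zero_le_one
      rwa [one_smul] at this
  have hset : {ρ | ρ ∉ Sel.im t ∧ P.Cell (insert ρ (Sel.im t))} = ({ρ1, ρ2} : Set E) := by
    ext ρ
    constructor
    · rintro ⟨hρR, hc⟩
      have hctc : Sel.ctc P.Face (Fin.cons ρ t : Fin (m + 1) → E) := by
        refine ⟨?_, ?_⟩
        · rw [Fin.cons_injective_iff]
          refine ⟨?_, hinj⟩
          rintro ⟨i, hi⟩
          exact hρR (Sel.mem_im.2 ⟨i, hi⟩)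
        · rw [Sel.im_cons]
          exact hc.1
      have hdne := P.dt_ne b _ hctc
      rw [det_cons] at hdne
      have hρA : ρ ∈ P.A := hc.1.1 ρ (Finset.mem_insert_self _ _)
      obtain ⟨h', hh', hR'⟩ := hc.1.2
      -- `h'` is on the line
      have hline : ∃ s : ℝ, h' = h0 + s • d := by
        set s : ℝ := P.q ρ (h' - h0) / P.q ρ d with hs
        refine ⟨s, ?_⟩
        have hzero : h' - h0 - s • d = 0 := by
          -- all functionals of the vertex vanish on it
          by_contra hx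
          have hmat : P.dt b (Fin.cons ρ t : Fin (m + 1) → E) ≠ 0 := P.dt_ne b _ hctc
          apply hmat
          rw [dt, ← Matrix.exists_mulVec_eq_zero_iff]
          refine ⟨fun j => b.repr (h' - h0 - s • d) j, ?_, ?_⟩
          · intro h0'
            apply hx
            apply b.repr.injective
            rw [map_zero]
            ext j
            exact congrFun h0' j
          · funext i
            have e1 : (Matrix.of fun i j => P.q ((Fin.cons ρ t : Fin (m + 1) → E) i) (b j)).mulVec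
                (fun j => b.repr (h' - h0 - s • d) j) i =
                P.q ((Fin.cons ρ t : Fin (m + 1) → E) i) (h' - h0 - s • d) := by
              conv_rhs => rw [← b.sum_repr (h' - h0 - s • d), map_sum]
              simp only [Matrix.mulVec, dotProduct, Matrix.of_apply, map_smul, smul_eq_mul]
              refine Finset.sum_congr rfl fun j _ => ?_
              ring
            rw [e1]
            refine Fin.cases ?_ (fun i => ?_) i
            · rw [Fin.cons_zero, map_sub, map_smul, smul_eq_mul, hs, div_mul_cancel₀ _ hdne]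
              simp
            · rw [Fin.cons_succ]
              have hi : t i ∈ Sel.im t := Sel.mem_im.2 ⟨i, rfl⟩
              rw [map_sub, map_smul, hRd _ hi, map_sub, hR _ hi,
                hR' _ (Finset.mem_insert_of_mem hi)]
              simp
        have := sub_eq_zero.1 hzero
        rw [← this]; abel
      obtain ⟨s, rfl⟩ := hline
      have hρt : P.q ρ (h0 + s • d) = P.c ρ := hR' ρ (Finset.mem_insert_self _ _)
      rcases lt_or_gt_of_ne hdne with hlt | hgt
      · left
        have h1 := hmax1 s hh'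
        have h2 := hs1 ρ hρA
        rw [map_add, map_smul, smul_eq_mul] at hρt h2
        have h3 : s1 ≤ s := by
          by_contra hcon
          rw [not_le] at hcon
          nlinarith
        have h4 : s = s1 := le_antisymm h1 h3
        subst h4
        exact huniq s ρ ρ1 hh' hρA hρ1A hρR hρ1R (by rw [map_add, map_smul, smul_eq_mul]; exact hρt)
          hρ1t
      · right
        have h1 := hmax2 (-s) (by rw [smul_neg, ← neg_smul, neg_neg]; exact hh')
        have h2 := hs2 ρ hρA
        rw [map_add, map_smul, smul_eq_mul] at hρt h2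
        have h3 : s ≤ -s2 := by
          by_contra hcon
          rw [not_le] at hcon
          nlinarith
        have h4 : s = -s2 := by linarith
        subst h4
        exact huniq (-s2) ρ ρ2 hh' hρA hρ2A hρR hρ2R
          (by rw [map_add, map_smul, smul_eq_mul]; exact hρt) hρ2t
    · rintro (rfl | rfl)
      · exact ⟨hρ1R, hcell s1 _ hs1 hρ1A hρ1R hρ1t⟩
      · exact ⟨hρ2R, hcell (-s2) _ hs2 hρ2A hρ2R hρ2t⟩
  have hnb : Sel.nb P.Cell (Sel.im t) = {ρ1, ρ2} := by
    have hfin : {ρ | ρ ∉ Sel.im t ∧ P.Cell (insert ρ (Sel.im t))}.Finite := by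
      rw [hset]
      exact (Set.finite_singleton _).insert _
    rw [Sel.nb, dif_pos hfin]
    apply Finset.coe_injective
    rw [Set.Finite.coe_toFinset, hset]
    simp
  rw [hnb, Finset.sum_pair hne, hsg, hsg]
  rw [sign_neg hρ1d, sign_pos hρ2d]
  rfl

end PolySys

end Pool.Agent.CG2
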