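import Pool.Agent.CG2.KoeAct
import Pool.Agent.CG2.KoeFin
import Pool.Agent.CG2.PolyCx
import Pool.Agent.CG2.PolyOr
import Pool.Agent.CG2.CellTop
import Pool.Agent.CG2.Iface

/-!
# The system of cells for a group contained in a principal congruence subgroup
-/

noncomputable section

namespace Pool.Agent.CG2

open NumberField IsDedekindDomain Matrix Pool.Agent.CG3 CategoryTheory

variable {F : Type} [Field F] [NumberField F]

variable (N : ℕ) (hN : 3 ≤ N) (C : Cls F N → ℝ) (hC : GoodC N C)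

/-! ### Auxiliary facts -/

theorem KoeCell_pos (F : Type) [Field F] [NumberField F] :
    3 ≤ 3 * InfinitePlace.nrRealPlaces F + 4 * InfinitePlace.nrComplexPlaces F := by
  have h1 : 0 < Fintype.card (InfinitePlace F) := Fintype.card_pos
  rw [InfinitePlace.card_eq_nrRealPlaces_add_nrComplexPlaces] at h1
  omega

theorem KoeCell_eps_mul (s t : RPl F → ℤˣ) : epsS (s * t) = epsS s * epsS t := by
  classical
  rw [epsS, epsS, epsS, finprod_eq_prod_of_fintype, finprod_eq_prod_of_fintype,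
    finprod_eq_prod_of_fintype, ← Finset.prod_mul_distrib]
  rfl

theorem KoeCell_eps_sq (s : RPl F → ℤˣ) : ((epsS s : ℤˣ) : ℤ) * ((epsS s : ℤˣ) : ℤ) = 1 := by
  rcases Int.units_eq_one_or (epsS s) with h | h <;> rw [h] <;> rfl

/-- The representative of `γ b`. -/
theorem KoeCell_out {K : Subgroup (GA F)} (γ : G F) (b : PtK K) :
    ∃ κ ∈ K, outK (γ • b) = rt (act γ (outK b)) κ := by
  have h1 : mkK K (outK (γ • b)) = mkK K (act γ (outK b)) := by
    rw [mkK_outK]
    conv_lhs => rw [← mkK_outK b]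
    rfl
  exact mkK_eq.1 h1.symm

theorem KoeCell_mk {K : Subgroup (GA F)} (y : Pt F) : ∃ κ ∈ K, outK (mkK K y) = rt y κ :=
  mkK_eq.1 (mkK_outK (mkK K y)).symm

/-- The cells only depend on the coset. -/
theorem koe_cell_mul (g : GA F) {k : GA F} (hk : k ∈ KN F N) (R : Finset (Vec F)) :
    (koe N hN C hC (g * k)).Cell R ↔ (koe N hN C hC g).Cell R := by
  rw [koe_cell_iff, koe_cell_iff, koe_mul N hN C hC g hk]

theorem koe_cell_mul' (g : GA F) {k : GA F} (hk : k ∈ KN F N) :
    (koe N hN C hC (g * k)).Cell = (koe N hN C hC g).Cell :=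
  funext fun R => propext (koe_cell_mul N hN C hC g hk R)

/-- A basis of the space of the families of forms. -/
def KoeCell_bas (F : Type) [Field F] [NumberField F] (m : ℕ)
    (hm : m = Module.finrank ℝ (VR F)) : Module.Basis (Fin m) ℝ (VR F) :=
  (Module.finBasis ℝ (VR F)).reindex (finCongr hm.symm)

theorem KoeCell_dt (γ : G F) (g g' : GA F) {m : ℕ} (b : Module.Basis (Fin m) ℝ (VR F))
    (t : Fin m → Vec F) : (koe N hN C hC g').dt b (fun i => γ • t i) * LinearMap.det
      (hA γ : VR F →ₗ[ℝ] VR F) = (koe N hN C hC g).dt b t := by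
  have h1 : (koe N hN C hC g).dt b t = Matrix.det ((Matrix.of fun i j =>
      qf (γ • t i) (b j)) * (LinearMap.toMatrix b b (hA γ : VR F →ₗ[ℝ] VR F))) := by
    change Matrix.det (Matrix.of fun i j => qf (t i) (b j)) = _
    congr 1
    ext i j
    rw [Matrix.mul_apply, Matrix.of_apply, ← hA_q γ (t i) (b j)]
    have h2 : (hA γ : VR F →ₗ[ℝ] VR F) (b j) =
        ∑ k, (LinearMap.toMatrix b b (hA γ : VR F →ₗ[ℝ] VR F)) k j • b k := by
      have h3 := b.sum_repr ((hA γ : VR F →ₗ[ℝ] VR F) (b j))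
      rw [← h3]
      refine Finset.sum_congr rfl fun k _ => ?_
      rw [LinearMap.toMatrix_apply]
    have h4 : hA γ (b j) = ∑ k, (LinearMap.toMatrix b b (hA γ : VR F →ₗ[ℝ] VR F)) k j • b k := h2
    rw [h4, map_sum]
    refine Finset.sum_congr rfl fun k _ => ?_
    rw [map_smul, smul_eq_mul, mul_comm]
    rfl
  rw [h1, Matrix.det_mul, LinearMap.det_toMatrix]
  rfl

theorem KoeCell_sign (a b : ℝ) (e : ℤˣ) (hb : 0 < b * ((e : ℤ) : ℝ)) :
    ((SignType.sign a : SignType) : ℤ) * (e : ℤ) = ((SignType.sign (a * b) : SignType) : ℤ) := by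
  rcases Int.units_eq_one_or e with h | h
  · rw [h] at hb ⊢
    have : 0 < b := by simpa using hb
    rw [sign_mul, sign_pos this]
    simp
  · rw [h] at hb ⊢
    have : b < 0 := by simpa using hb
    rw [sign_mul, sign_neg this]
    simp

open Classical in
/-- The orientation of the cells of maximal dimension. -/
def KoeCell_or {K : Subgroup (GA F)} {m : ℕ} (b : Module.Basis (Fin m) ℝ (VR F)) (x : PtK K)
    (t : Fin m → Vec F) : ℤ :=
  if Sel.ctc (koe N hN C hC (outK x).2).Cell t then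
    ((epsS (outK x).1 : ℤˣ) : ℤ) * (koe N hN C hC (outK x).2).sg b t else 0

theorem KoeCell_eqv {K : Subgroup (GA F)} (hK : K ≤ KN F N) (γ : G F) (b : PtK K)
    (R : Finset (Vec F)) : (koe N hN C hC (outK (γ • b)).2).Cell (Sel.mp (MulAction.toPerm γ) R) ↔
      (koe N hN C hC (outK b).2).Cell R := by
  obtain ⟨κ, hκ, h⟩ := KoeCell_out γ b
  rw [h]
  change (koe N hN C hC (diag γ * (outK b).2 * κ)).Cell _ ↔ _
  rw [koe_cell_mul N hN C hC _ (hK hκ), koe_cell_smul]

theorem KoeCell_ctc {K : Subgroup (GA F)} (hK : K ≤ KN F N) (γ : G F) (b : PtK K) {m : ℕ}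
    (t : Fin m → Vec F) : Sel.ctc (koe N hN C hC (outK (γ • b)).2).Cell (fun i => γ • t i) ↔
      Sel.ctc (koe N hN C hC (outK b).2).Cell t := by
  have h1 : (fun i => γ • t i) = (MulAction.toPerm γ : Equiv.Perm (Vec F)) ∘ t := rfl
  rw [h1, Sel.ctc, Sel.ctc, Sel.comp_inj, Sel.im_comp, KoeCell_eqv N hN C hC hK]

theorem exists_cellSys {K : Subgroup (GA F)} (hK : K ≤ KN F N) :
    ∃ X : CellSys (G F) (PtK K) (Vec F),
      X.n0 + 1 = 3 * InfinitePlace.nrRealPlaces F + 4 * InfinitePlace.nrComplexPlaces F ∧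
      X.Min 2 ∧ ∀ y : Pt F, (X.X (mkK K y)).cell = (koe N hN C hC y.2).Cell := by
  classical
  obtain ⟨n0, hn0⟩ : ∃ n0, n0 + 1 =
      3 * InfinitePlace.nrRealPlaces F + 4 * InfinitePlace.nrComplexPlaces F :=
    ⟨3 * InfinitePlace.nrRealPlaces F + 4 * InfinitePlace.nrComplexPlaces F - 1, by
      have := KoeCell_pos F
      omega⟩
  have hfr : n0 + 1 = Module.finrank ℝ (VR F) := by rw [finrank_VR, hn0]
  let bas := KoeCell_bas F (n0 + 1) hfr
  have hcell : ∀ b : PtK K, ((koe N hN C hC (outK b).2).cx).cell = (koe N hN C hC (outK b).2).Cell :=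
    fun b => PolySys.cx_cell _
  refine ⟨{ X := fun b => (koe N hN C hC (outK b).2).cx
            n0 := n0
            base_card := fun b => by rw [PolySys.cx_base, hfr]
            base_cell := fun b => PolySys.cx_base_cell _
            max := fun b R hR => by
              rw [hcell] at hR
              rw [hfr]
              exact PolySys.face_card hR.1
            eqv := fun γ b R => by
              rw [hcell, hcell]
              exact KoeCell_eqv N hN C hC hK γ b R
            free := fun γ b R hR hb hf => by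
              rw [hcell] at hR
              obtain ⟨κ, hκ, h⟩ := KoeCell_out γ b
              rw [hb] at h
              have h2 : (outK b).2 = diag γ * (outK b).2 * κ := congrArg Prod.snd h
              refine koe_free N hN C hC γ (outK b).2 κ⁻¹ ((KN F N).inv_mem (hK hκ)) ?_ R hR hf
              rw [eq_mul_inv_iff_mul_eq]
              exact h2.symm
            o := fun b t => KoeCell_or N hN C hC bas b t
            o_alt := ?_
            o_unit := ?_
            o_eqv := ?_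
            o_cl := ?_ }, hn0, ?_, ?_⟩
  · intro b
    rw [hcell]
    refine ⟨fun t ht => ?_, fun t π => ?_⟩
    · by_contra h
      exact ht (if_neg h)
    · unfold KoeCell_or
      have h1 : Sel.ctc (koe N hN C hC (outK b).2).Cell (t ∘ π) ↔
          Sel.ctc (koe N hN C hC (outK b).2).Cell t := by
        rw [Sel.ctc, Sel.ctc, Sel.im_perm, Sel.inj_perm]
      simp only [h1]
      split_ifs
      · have h2 : (koe N hN C hC (outK b).2).sg bas (t ∘ π) =
            (Equiv.Perm.sign π : ℤ) * (koe N hN C hC (outK b).2).sg bas t := by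
          rw [PolySys.sg, PolySys.sg, PolySys.dt_perm, sign_mul]
          rcases Int.units_eq_one_or (Equiv.Perm.sign π) with h | h <;> rw [h] <;> simp
        rw [h2, smul_eq_mul]
        ring
      · simp
  · intro b t ht
    rw [hcell] at ht
    have h1 : KoeCell_or N hN C hC bas b t =
        ((epsS (outK b).1 : ℤˣ) : ℤ) * (koe N hN C hC (outK b).2).sg bas t := if_pos ht
    have h2 : (koe N hN C hC (outK b).2).sg bas t * (koe N hN C hC (outK b).2).sg bas t = 1 := by
      have h3 := PolySys.dt_ne (koe N hN C hC (outK b).2) bas t ⟨ht.1, ht.2.1⟩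
      rcases lt_or_gt_of_ne h3 with h | h
      · simp [PolySys.sg, sign_neg h]
      · simp [PolySys.sg, sign_pos h]
    rw [h1]
    have h3 := KoeCell_eps_sq (outK b).1
    linear_combination (((epsS (outK b).1 : ℤˣ) : ℤ) * ((epsS (outK b).1 : ℤˣ) : ℤ)) * h2 + h3
  · intro γ b t
    have h1 := KoeCell_ctc N hN C hC hK γ b t
    by_cases h : Sel.ctc (koe N hN C hC (outK b).2).Cell t
    · have h2 : KoeCell_or N hN C hC bas b t =
        ((epsS (outK b).1 : ℤˣ) : ℤ) * (koe N hN C hC (outK b).2).sg bas t := if_pos h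
      have h3 : KoeCell_or N hN C hC bas (γ • b) (fun i => γ • t i) =
        ((epsS (outK (γ • b)).1 : ℤˣ) : ℤ) *
          (koe N hN C hC (outK (γ • b)).2).sg bas (fun i => γ • t i) := if_pos (h1.2 h)
      rw [h2, h3]
      obtain ⟨κ, hκ, h4⟩ := KoeCell_out γ b
      have h5 : (outK (γ • b)).1 = sgn γ * (outK b).1 := by rw [h4]; rfl
      rw [h5, KoeCell_eps_mul]
      have h6 : (koe N hN C hC (outK (γ • b)).2).sg bas (fun i => γ • t i) *
          ((epsS (sgn γ) : ℤˣ) : ℤ) = (koe N hN C hC (outK b).2).sg bas t := by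
        rw [PolySys.sg, PolySys.sg, KoeCell_sign _ _ _ (hA_det γ),
          KoeCell_dt N hN C hC γ (outK b).2 (outK (γ • b)).2 bas t]
      rw [← h6]
      push_cast
      ring
    · have h2 : KoeCell_or N hN C hC bas b t = 0 := if_neg h
      have h3 : KoeCell_or N hN C hC bas (γ • b) (fun i => γ • t i) = 0 :=
        if_neg fun h' => h (h1.1 h')
      rw [h2, h3]
  · intro b t
    rw [hcell]
    unfold Sel.dc
    split_ifs with h
    · have h1 : ∀ ρ ∈ Sel.nb (koe N hN C hC (outK b).2).Cell (Sel.im t),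
          KoeCell_or N hN C hC bas b (Fin.cons ρ t) = ((epsS (outK b).1 : ℤˣ) : ℤ) *
            (koe N hN C hC (outK b).2).sg bas (Fin.cons ρ t) := by
        intro ρ hρ
        refine if_pos ?_
        have h2 : ((koe N hN C hC (outK b).2).cx).ct t := by
          refine ⟨h.1, ?_⟩
          rw [hcell]
          exact h.2
        have h3 := (((koe N hN C hC (outK b).2).cx).ct_cons h2 (ρ := ρ)).2
        rw [Sel.Cx.ct, hcell] at h3
        apply h3
        exact hρ
      rw [Finset.sum_congr rfl h1, ← Finset.mul_sum, PolySys.sum_sg _ bas t h, mul_zero]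
    · rfl
  · intro b R hR
    have hR' : ((koe N hN C hC (outK b).2).cx).cell R := hR
    rw [hcell, koe_cell_iff] at hR'
    obtain ⟨_, x, hx, y, hy, hxy⟩ := hR'
    have hne : x ≠ y := by
      rintro rfl
      apply hxy
      ring
    exact Finset.one_lt_card.2 ⟨x, hx, y, hy, hne⟩
  · intro y
    change ((koe N hN C hC (outK (mkK K y)).2).cx).cell = _
    rw [hcell]
    obtain ⟨κ, hκ, h⟩ := KoeCell_mk (K := K) y
    rw [h]
    exact koe_cell_mul' N hN C hC y.2 (hK hκ)

/-- The system of cells. -/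
def ksys {K : Subgroup (GA F)} (hK : K ≤ KN F N) : CellSys (G F) (PtK K) (Vec F) :=
  (exists_cellSys N hN C hC hK).choose

theorem ksys_n0 {K : Subgroup (GA F)} (hK : K ≤ KN F N) : (ksys N hN C hC hK).n0 + 1 =
    3 * InfinitePlace.nrRealPlaces F + 4 * InfinitePlace.nrComplexPlaces F :=
  (exists_cellSys N hN C hC hK).choose_spec.1

theorem ksys_min {K : Subgroup (GA F)} (hK : K ≤ KN F N) : (ksys N hN C hC hK).Min 2 :=
  (exists_cellSys N hN C hC hK).choose_spec.2.1

theorem ksys_cell {K : Subgroup (GA F)} (hK : K ≤ KN F N) (y : Pt F) :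
    ((ksys N hN C hC hK).X (mkK K y)).cell = (koe N hN C hC y.2).Cell :=
  (exists_cellSys N hN C hC hK).choose_spec.2.2 y

/-- The module `Forms` is a coefficient module. -/
theorem forms_coef {K : Subgroup (GA F)} {O W : Type} [CommRing O] [AddCommGroup W] [Module O W]
    (τ : Representation O K W) : IsCoef (Γ := G F) (mkK K) (Forms K τ) := by
  classical
  refine ⟨fun γ y => rfl, fun γ f hf => ?_, fun f => ?_⟩
  · intro y k
    change f (act γ⁻¹ (rt y k)) = _
    rw [act_rt]
    exact hf _ k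
  · constructor
    · intro hf b y k
      have h1 : mkK K (rt y k.1) = mkK K y := mkK_rt y k.2
      unfold res
      rw [h1]
      split_ifs
      · exact hf y k
      · rw [map_zero]
    · intro hf y k
      have h1 : mkK K (rt y k.1) = mkK K y := mkK_rt y k.2
      have h2 := hf (mkK K y) y k
      unfold res at h2
      rw [h1, if_pos rfl, if_pos rfl] at h2
      exact h2

theorem forms_rep {K : Subgroup (GA F)} {O W : Type} [CommRing O] [AddCommGroup W] [Module O W]
    (τ : Representation O K W) : (forms_coef τ).rep = coeff K τ := by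
  rfl

/-- The cohomology of `Forms` vanishes above the degree `nU`, for small groups. -/
theorem upper_small {N : ℕ} (hN : 3 ≤ N) {K : Subgroup (GA F)} (hK : K ≤ KN F N)
    {O W : Type} [CommRing O] [AddCommGroup W] [Module O W] (τ : Representation O K W) (i : ℕ)
    (hi : nU F < i) : Subsingleton (groupCohomology (coeff K τ) i) := by
  obtain ⟨C, hC⟩ := exists_goodC (F := F) N (by omega)
  rw [← forms_rep]
  refine CellSys.vanish (ksys N hN C hC hK) (forms_coef τ) (ksys_min N hN C hC hK) i ?_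
  rw [ksys_n0]
  have := KoeCell_pos F
  unfold nU r1 r2 at hi
  omega

/-- Finitely many faces contain a given spanning set. -/
theorem KoeCell_faces (g : GA F) (x y : Vec F) (hxy : x 0 * y 1 - x 1 * y 0 ≠ 0) :
    {R : Finset (Vec F) | (koe N hN C hC g).Face R ∧ x ∈ R ∧ y ∈ R}.Finite := by
  classical
  have hne : x ≠ y := by
    rintro rfl
    apply hxy
    ring
  have hl : qf x + qf y ∈ KPos F := by
    have h1 := (kpos_sum ({x, y} : Finset (Vec F))).2
      ⟨x, by simp, y, by simp, hxy⟩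
    rwa [Finset.sum_pair hne] at h1
  have hK := (koe N hN C hC g).comp _ hl (9 / 8 + 9 / 8)
  have hB := PolySys.PolyA_tight_compact (P := koe N hN C hC g) _ hK (fun h hh => hh.1)
  refine (hB.toFinset.powerset.finite_toSet).subset ?_
  rintro R ⟨⟨hA, h, hh, hR⟩, hx, hy⟩
  rw [Finset.mem_coe, Finset.mem_powerset]
  intro e he
  rw [Set.Finite.mem_toFinset]
  refine ⟨hA e he, h, ⟨hh, ?_⟩, (hR e he).le⟩
  have h1 : qf x h = C (cls N g x) := hR x hx
  have h2 : qf y h = C (cls N g y) := hR y hy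
  have h3 := (hC.1 (cls N g x)).2
  have h4 := (hC.1 (cls N g y)).2
  change qf x h + qf y h ≤ _
  rw [h1, h2]
  linarith

/-- The matrix with given columns. -/
theorem KoeCell_mat (x y : Vec F) (hxy : x 0 * y 1 - x 1 * y 0 ≠ 0) :
    ∃ γ : G F, γ • e0 F = x ∧ γ • e1 F = y := by
  refine ⟨GeneralLinearGroup.mkOfDetNeZero !![x 0, y 0; x 1, y 1] ?_, ?_, ?_⟩
  · rw [Matrix.det_fin_two_of]
    intro h
    apply hxy
    rw [← h]
    ring
  · funext i
    change (!![x 0, y 0; x 1, y 1].mulVec (e0 F : Fin 2 → F)) i = x i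
    fin_cases i <;> simp [e0, Matrix.mulVec, dotProduct, Fin.sum_univ_two]
  · funext i
    change (!![x 0, y 0; x 1, y 1].mulVec (e1 F : Fin 2 → F)) i = y i
    fin_cases i <;> simp [e1, Matrix.mulVec, dotProduct, Fin.sum_univ_two]

/-- Finitely many orbits of cells. -/
theorem cells_fin {K : Subgroup (GA F)} {S : Set (Pl F)} (hK : K ≤ KN F N) (hO : OC K S) (j : ℕ) :
    ∃ Φ : Set (Pt F × Finset (Vec F)), Φ.Finite ∧ ∀ (y : Pt F) (R : Finset (Vec F)),
      (koe N hN C hC y.2).Cell R → R.card = j → ∃ y₀ R₀, (y₀, R₀) ∈ Φ ∧ ∃ (γ : G F), ∃ κ ∈ K,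
        y = rt (act γ y₀) κ ∧ R = Sel.mp (MulAction.toPerm γ) R₀ := by
  classical
  obtain ⟨Φ, hΦ, hcov⟩ := pair_fin hO
  have hdet : (e0 F) 0 * (e1 F) 1 - (e0 F) 1 * (e1 F) 0 ≠ 0 := by simp [e0, e1]
  refine ⟨⋃ y₀ ∈ Φ, (fun R => (y₀, R)) '' {R : Finset (Vec F) | (koe N hN C hC y₀.2).Face R ∧
    e0 F ∈ R ∧ e1 F ∈ R}, hΦ.biUnion fun y₀ _ =>
      (KoeCell_faces N hN C hC y₀.2 _ _ hdet).image _, ?_⟩
  intro y R hR _
  have hR2 := (koe_cell_iff N hN C hC y.2 R).1 hR
  obtain ⟨_, x, hx, x', hx', hxx⟩ := hR2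
  obtain ⟨γ, hγ0, hγ1⟩ := KoeCell_mat x x' hxx
  set y' : Pt F := act γ⁻¹ y with hy'
  set R' : Finset (Vec F) := Sel.mp (MulAction.toPerm γ⁻¹) R with hR'
  have hcell' : (koe N hN C hC y'.2).Cell R' := (koe_cell_smul N hN C hC γ⁻¹ y.2 R).2 hR
  have he0 : e0 F ∈ R' := by
    rw [hR', Sel.mem_mp]
    change (γ⁻¹)⁻¹ • e0 F ∈ R
    rw [inv_inv, hγ0]
    exact hx
  have he1 : e1 F ∈ R' := by
    rw [hR', Sel.mem_mp]
    change (γ⁻¹)⁻¹ • e1 F ∈ R
    rw [inv_inv, hγ1]
    exact hx'
  obtain ⟨hA, h, hh, hT⟩ := hcell'.1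
  have hq0 : qf (e0 F) h = C (cls N y'.2 (e0 F)) := hT _ he0
  have hq1 : qf (e1 F) h = C (cls N y'.2 (e1 F)) := hT _ he1
  obtain ⟨y₀, hy₀, κ, hκ, hyκ⟩ := hcov y' ⟨h, fun z hz hz0 =>
    (hC.1 _).1.le.trans (hh z ⟨hz, hz0⟩), (hA _ he0).1, (hA _ he1).1,
    by rw [hq0]; exact (hC.1 _).2.le, by rw [hq1]; exact (hC.1 _).2.le⟩
  refine ⟨y₀, R', ?_, γ, κ, hκ, ?_, ?_⟩
  · simp only [Set.mem_iUnion]
    refine ⟨y₀, hy₀, R', ⟨?_, he0, he1⟩, rfl⟩
    have h1 := hcell'.1
    rw [hyκ] at h1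
    exact (koe_mul N hN C hC y₀.2 (hK hκ) R').1 h1
  · rw [← act_rt, ← hyκ, hy', ← act_mul, mul_inv_cancel, act_one]
  · ext z
    rw [Sel.mem_mp, hR', Sel.mem_mp]
    change z ∈ R ↔ (γ⁻¹)⁻¹ • (γ⁻¹ • z) ∈ R
    rw [inv_inv, smul_inv_smul]

/-- Finite generation of the cohomology, for small groups. -/
theorem fg_small {N : ℕ} (hN : 3 ≤ N) {K : Subgroup (GA F)} {S : Set (Pl F)} (hK : K ≤ KN F N)
    (hO : OC K S)
    {O W : Type} [CommRing O] [IsNoetherianRing O] [AddCommGroup W] [Module O W]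
    [Module.Finite O W] (τ : Representation O K W) (i : ℕ) :
    Module.Finite O (groupCohomology (coeff K τ) i) := by
  classical
  obtain ⟨C, hC⟩ := exists_goodC (F := F) N (by omega)
  rw [← forms_rep]
  refine CellSys.fg (ksys N hN C hC hK) (forms_coef τ) (fun j => ?_) i
  obtain ⟨Φ, hΦ, hcov⟩ := cells_fin N hN C hC hK hO j
  -- the finite set of the representatives of the tuples
  let T : Set (Pt F × (Fin j → Vec F)) := {p | ∃ R₀, (p.1, R₀) ∈ Φ ∧ ∀ i, p.2 i ∈ R₀}
  have hT : T.Finite := by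
    have h1 : T ⊆ ⋃ q ∈ Φ, (fun t => (q.1, t)) '' (Set.pi Set.univ fun _ : Fin j => (q.2 : Set (Vec F))) := by
      rintro ⟨y, t⟩ ⟨R₀, h1, h2⟩
      simp only [Set.mem_iUnion]
      exact ⟨(y, R₀), h1, t, fun i _ => h2 i, rfl⟩
    exact (hΦ.biUnion fun q _ => (Set.Finite.pi fun _ => q.2.finite_toSet).image _).subset h1
  have hTf : Finite ↥T := hT
  let ev : (ksys N hN C hC hK).Inv (mkK K) (Forms K τ) j →ₗ[O] (↥T → W) :=
    { toFun := fun φ p => φ.1 p.1
      map_add' := fun _ _ => rfl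
      map_smul' := fun _ _ => rfl }
  have hev : Function.Injective ev := by
    rw [← LinearMap.ker_eq_bot, LinearMap.ker_eq_bot']
    intro φ hφ
    apply Subtype.ext
    funext p
    obtain ⟨y, t⟩ := p
    change φ.1 (y, t) = 0
    by_contra hne
    have h1 := (φ.2.1.1 y).1 t hne
    rw [ksys_cell] at h1
    obtain ⟨y₀, R₀, h2, γ, κ, hκ, h3, h4⟩ := hcov y (Sel.im t) h1.2 (Sel.card_im h1.1)
    apply hne
    have h5 : φ.1 (y, t) = τ (⟨κ, hκ⟩ : K)⁻¹ (φ.1 (act γ y₀, t)) := by
      have h6 := φ.2.1.2 t (act γ y₀) ⟨κ, hκ⟩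
      rw [h3]
      exact h6
    have h7 : φ.1 (act γ y₀, t) = φ.1 (y₀, γ⁻¹ • t) := by
      have h8 := φ.2.2 γ y₀ (γ⁻¹ • t)
      rw [smul_inv_smul] at h8
      exact h8
    have h9 : (y₀, γ⁻¹ • t) ∈ T := by
      refine ⟨R₀, h2, fun i => ?_⟩
      have h10 : t i ∈ Sel.im t := Sel.mem_im.2 ⟨i, rfl⟩
      rw [h4, Sel.mem_mp] at h10
      exact h10
    have h11 := congrFun hφ ⟨_, h9⟩
    change φ.1 (y₀, γ⁻¹ • t) = 0 at h11
    rw [h5, h7, h11, map_zero]
  exact Module.Finite.of_injective ev hev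

end Pool.Agent.CG2
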