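import Pool.Agent.CG2.PolyDefs

/-!
# Points avoiding countably many hyperplanes
-/

noncomputable section

namespace Pool.Agent.CG2

open Pool.Agent.CG3

/-- A non-empty open set is not covered by countably many hyperplanes. -/
theorem exists_avoid {V : Type} [NormedAddCommGroup V] [NormedSpace ℝ V] [FiniteDimensional ℝ V]
    (U : Set V) (hU : IsOpen U) (hne : U.Nonempty) (Φ : Set (V →L[ℝ] ℝ)) (hΦ : Φ.Countable)
    (h0 : (0 : V →L[ℝ] ℝ) ∉ Φ) : ∃ x ∈ U, ∀ φ ∈ Φ, φ x ≠ 0 := by
  have : CompleteSpace V := FiniteDimensional.complete ℝ V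
  have hd : Dense (⋂ φ ∈ Φ, {x : V | φ x ≠ 0}) := by
    apply dense_biInter_of_isOpen
    · intro φ _
      exact isOpen_ne_fun φ.continuous continuous_const
    · exact hΦ
    · intro φ hφ
      have e : {x : V | φ x ≠ 0} = (((LinearMap.ker (φ : V →ₗ[ℝ] ℝ)) : Set V))ᶜ := by
        ext x
        simp
      rw [e, ← interior_eq_empty_iff_dense_compl]
      by_contra hne'
      have h1 := Submodule.eq_top_of_nonempty_interior' (LinearMap.ker (φ : V →ₗ[ℝ] ℝ))
        (Set.nonempty_iff_ne_empty.2 hne')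
      rw [LinearMap.ker_eq_top] at h1
      apply h0
      have : φ = 0 := by
        ext x
        have := congrArg (fun f : V →ₗ[ℝ] ℝ => f x) h1
        simpa using this
      rwa [this] at hφ
  obtain ⟨x, hx, hxU⟩ := hd.inter_open_nonempty U hU hne
  refine ⟨x, hx, fun φ hφ => ?_⟩
  have := Set.mem_iInter₂.1 hxU φ hφ
  exact this

/-- A non-empty open set of functionals contains one which does not vanish at countably many
given non-zero vectors. -/
theorem exists_avoid_dual {V : Type} [NormedAddCommGroup V] [NormedSpace ℝ V]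
    [FiniteDimensional ℝ V] (U : Set (V →L[ℝ] ℝ)) (hU : IsOpen U) (hne : U.Nonempty)
    (D : Set V) (hD : D.Countable) (h0 : (0 : V) ∉ D) : ∃ l ∈ U, ∀ d ∈ D, l d ≠ 0 := by
  obtain ⟨l, hl, h⟩ := exists_avoid U hU hne
    ((fun d : V => ContinuousLinearMap.apply ℝ ℝ d) '' D) (hD.image _) (by
      rintro ⟨d, hd, hd0⟩
      have hdne : d ≠ 0 := by
        rintro rfl
        exact h0 hd
      obtain ⟨f, hf⟩ := SeparatingDual.exists_ne_zero (R := ℝ) hdne
      apply hf
      have := congrArg (fun g : (V →L[ℝ] ℝ) →L[ℝ] ℝ => g f) hd0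
      simpa using this)
  refine ⟨l, hl, fun d hd => ?_⟩
  have := h _ ⟨d, hd, rfl⟩
  simpa using this

end Pool.Agent.CG2
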