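import Pool.Agent.CG2.KoeLat
import Pool.Agent.CG2.PolyGen
import Pool.Agent.CG2.CompactOv

/-!
# The classes of lattice vectors modulo `N`
-/

noncomputable section

namespace Pool.Agent.CG2

open NumberField IsDedekindDomain Matrix

variable {F : Type} [Field F] [NumberField F]

theorem KoeCls_natCast_eq (v : Pl F) (N : ℕ) : (((((N : ℕ) : F)) : F) : Fv v) = ((N : ℕ) : Fv v) :=
  map_natCast (algebraMap F (Fv v)) N

theorem KoeCls_fin (F : Type) [Field F] [NumberField F] (N : ℕ) (hN : N ≠ 0) :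
    {v : Pl F | Valued.v ((N : ℕ) : Fv v) ≠ 1}.Finite := by
  have hN0 : ((N : ℕ) : F) ≠ 0 := Nat.cast_ne_zero.2 hN
  refine (finite_val_gt (((N : ℕ) : F)⁻¹)).subset ?_
  intro v hv h1
  apply hv
  refine le_antisymm (KoeLat_val_natCast_le v N) ?_
  rw [HeightOneSpectrum.adicCompletion.valued_coe, map_inv₀] at h1
  rw [KoeLat_val_natCast]
  have h2 : v.valuation F ((N : ℕ) : F) ≠ 0 := (Valuation.ne_zero_iff _).2 hN0
  rwa [inv_le_one₀ (zero_lt_iff.2 h2)] at h1

theorem exists_cls (N : ℕ) (hN : N ≠ 0) (g : GA F) (x : Vec F) (hx : x ∈ Lat g) :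
    ∃ r, IsCls N g x r := by
  classical
  have key : ∀ i : Fin 2, ∃ r : 𝓞 F, ∀ v : Pl F,
      Valued.v (ivec g x v i - (((r : 𝓞 F) : F) : Fv v)) ≤ Valued.v ((N : ℕ) : Fv v) := by
    intro i
    have h1 : ∀ v : Pl F, ∃ a : F, Valued.v (ivec g x v i - ((a : F) : Fv v)) ≤
        Valued.v ((N : ℕ) : Fv v) := fun v => by
      obtain ⟨a, ha⟩ := exists_sub_lt v (ivec g x v i) _ (KoeLat_val_natCast_ne v hN)
      exact ⟨a, ha.le⟩
    choose a ha using h1
    have h2 : ∀ v : Pl F, ∃ e : ℤ, Valued.v ((N : ℕ) : Fv v) = WithZero.exp (-e) := fun v =>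
      ⟨-WithZero.log (Valued.v ((N : ℕ) : Fv v)), by
        rw [neg_neg, WithZero.exp_log (KoeLat_val_natCast_ne v hN)]⟩
    choose e he using h2
    obtain ⟨r, hr1, hr2⟩ := approx (KoeCls_fin F N hN).toFinset a e
    -- the element is close to the component
    have h3 : ∀ v ∈ (KoeCls_fin F N hN).toFinset,
        Valued.v (ivec g x v i - ((r : F) : Fv v)) ≤ Valued.v ((N : ℕ) : Fv v) := by
      intro v hv
      have h4 := hr1 v hv
      rw [Ge, ← he v, ← HeightOneSpectrum.adicCompletion.valued_coe] at h4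
      have h5 : (((r - a v : F)) : Fv v) = ((r : F) : Fv v) - ((a v : F) : Fv v) :=
        map_sub (algebraMap F (Fv v)) r (a v)
      rw [h5, ← Valuation.map_neg] at h4
      have h6 : ivec g x v i - ((r : F) : Fv v) = (ivec g x v i - ((a v : F) : Fv v)) +
          -(((r : F) : Fv v) - ((a v : F) : Fv v)) := by ring
      rw [h6]
      exact (Valuation.map_add _ _ _).trans (max_le (ha v) h4)
    have hint : ∀ v : Pl F, v.valuation F r ≤ 1 := by
      intro v
      by_cases hv : v ∈ (KoeCls_fin F N hN).toFinset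
      · rw [← HeightOneSpectrum.adicCompletion.valued_coe]
        have h6 : ((r : F) : Fv v) = ivec g x v i + -(ivec g x v i - ((r : F) : Fv v)) := by ring
        rw [h6]
        refine (Valuation.map_add _ _ _).trans (max_le (hx v i) ?_)
        rw [Valuation.map_neg]
        exact (h3 v hv).trans (KoeLat_val_natCast_le v N)
      · have := hr2 v hv
        rwa [Ge, neg_zero, WithZero.exp_zero] at this
    obtain ⟨b, hb⟩ := HeightOneSpectrum.mem_integers_of_valuation_le_one F _ hint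
    refine ⟨b, fun v => ?_⟩
    have hb' : ((b : 𝓞 F) : F) = r := hb
    rw [hb']
    by_cases hv : v ∈ (KoeCls_fin F N hN).toFinset
    · exact h3 v hv
    · rw [Set.Finite.mem_toFinset, Set.mem_ofPred_eq, not_not] at hv
      rw [hv, sub_eq_add_neg]
      refine (Valuation.map_add _ _ _).trans (max_le (hx v i) ?_)
      rw [Valuation.map_neg, HeightOneSpectrum.adicCompletion.valued_coe]
      exact hint v
  choose r hr using key
  exact ⟨r, fun v i => hr i v⟩

theorem KoeCls_spec (N : ℕ) (hN : N ≠ 0) (g : GA F) (x : Vec F) (hx : x ∈ Lat g) :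
    ∃ r, IsCls N g x r ∧ cls N g x = fun i => Ideal.Quotient.mk _ (r i) := by
  have h := exists_cls N hN g x hx
  refine ⟨h.choose, h.choose_spec, ?_⟩
  rw [cls, dif_pos h]

/-- Vectors with the same class are congruent modulo `N`. -/
theorem cls_eq (N : ℕ) (hN : N ≠ 0) (g : GA F) (x y : Vec F) (hx : x ∈ Lat g) (hy : y ∈ Lat g)
    (h : cls N g x = cls N g y) : ∃ u ∈ Lat g, x - y = ((N : ℕ) : F) • u := by
  have hN0 : ((N : ℕ) : F) ≠ 0 := Nat.cast_ne_zero.2 hN
  obtain ⟨r, hr1, hr2⟩ := KoeCls_spec N hN g x hx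
  obtain ⟨s, hs1, hs2⟩ := KoeCls_spec N hN g y hy
  rw [hr2, hs2] at h
  have h1 : ∀ i, ∃ t : 𝓞 F, r i - s i = ((N : ℕ) : 𝓞 F) * t := by
    intro i
    have h2 := congrFun h i
    rw [Ideal.Quotient.eq, Ideal.mem_span_singleton] at h2
    exact h2
  refine ⟨((N : ℕ) : F)⁻¹ • (x - y), (mem_Lat_of_natCast g N hN (x - y)).1 ?_, ?_⟩
  · intro v i
    obtain ⟨t, ht⟩ := h1 i
    have h3 : ivec g (x - y) v i = (ivec g x v i - (((r i : 𝓞 F) : F) : Fv v)) +
        -(ivec g y v i - (((s i : 𝓞 F) : F) : Fv v)) +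
          ((N : ℕ) : Fv v) * (((t : 𝓞 F) : F) : Fv v) := by
      have h4 : ivec g (x - y) v i = ivec g x v i - ivec g y v i := by
        rw [KoeLat_ivec_eq, KoeLat_ivec_eq, KoeLat_ivec_eq]
        have h5 : ∀ j, (((x - y) j : F) : Fv v) = ((x j : F) : Fv v) - ((y j : F) : Fv v) := by
          intro j
          exact map_sub (algebraMap F (Fv v)) (x j) (y j)
        rw [h5, h5]
        ring
      have h6 : ((N : ℕ) : Fv v) * (((t : 𝓞 F) : F) : Fv v) =
          (((r i : 𝓞 F) : F) : Fv v) - (((s i : 𝓞 F) : F) : Fv v) := by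
        have h7 : ((r i : 𝓞 F) : F) - ((s i : 𝓞 F) : F) = ((N : ℕ) : F) * ((t : 𝓞 F) : F) := by
          have := congrArg (algebraMap (𝓞 F) F) ht
          rw [map_sub, map_mul, map_natCast] at this
          exact this
        have h8 := congrArg (algebraMap F (Fv v)) h7
        rw [map_sub, map_mul, map_natCast] at h8
        exact h8.symm
      rw [h4, h6]
      ring
    rw [h3]
    refine (Valuation.map_add _ _ _).trans (max_le ((Valuation.map_add _ _ _).trans
      (max_le (hr1 v i) ?_)) ?_)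
    · rw [Valuation.map_neg]
      exact hs1 v i
    · rw [map_mul]
      calc _ ≤ Valued.v ((N : ℕ) : Fv v) * 1 := mul_le_mul' le_rfl (KoeLat_val_coe_le v t)
        _ = _ := mul_one _
  · rw [smul_smul, mul_inv_cancel₀ hN0, one_smul]

theorem KoeCls_ivec_mul (g k : GA F) (x : Vec F) (v : Pl F) (i : Fin 2) : ivec (g * k) x v i =
    (((k.1 v)⁻¹ : GQ v) : Matrix (Fin 2) (Fin 2) (Fv v)) i 0 * ivec g x v 0 +
    (((k.1 v)⁻¹ : GQ v) : Matrix (Fin 2) (Fin 2) (Fv v)) i 1 * ivec g x v 1 := by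
  have h1 : ivec (g * k) x v =
      (((k.1 v)⁻¹ : GQ v) : Matrix (Fin 2) (Fin 2) (Fv v)).mulVec (ivec g x v) := by
    rw [ivec, ivec, Matrix.mulVec_mulVec, ← Units.val_mul, ← _root_.mul_inv_rev]
    rfl
  rw [h1, Matrix.mulVec, dotProduct, Fin.sum_univ_two]

theorem KoeCls_Lat_le (g : GA F) {k : GA F} (hk : ∀ v, k.1 v ∈ GZ v) :
    Lat g ≤ Lat (g * k) := by
  intro x hx v i
  rw [KoeCls_ivec_mul]
  have hk' := ((mem_GZ_iff v _).1 (hk v)).2
  refine (Valuation.map_add _ _ _).trans (max_le ?_ ?_)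
  · rw [map_mul]
    exact mul_le_one' (hk' i 0) (hx v 0)
  · rw [map_mul]
    exact mul_le_one' (hk' i 1) (hx v 1)

theorem Lat_mul (g : GA F) {k : GA F} (hk : ∀ v, k.1 v ∈ GZ v) : Lat (g * k) = Lat g := by
  refine le_antisymm ?_ (KoeCls_Lat_le g hk)
  have h1 := KoeCls_Lat_le (g * k) (k := k⁻¹) (fun v => (GZ v).inv_mem (hk v))
  rwa [mul_assoc, mul_inv_cancel, mul_one] at h1

theorem KoeCls_isCls_mul (N : ℕ) (g : GA F) {k : GA F} (hk : k ∈ KN F N) {x : Vec F}
    (hx : x ∈ Lat g) (r : Fin 2 → 𝓞 F) (h : IsCls N g x r) : IsCls N (g * k) x r := by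
  intro v i
  have hk' := (KN F N).inv_mem hk v
  obtain ⟨-, h2⟩ := hk'
  have h2' : ∀ i j, Valued.v ((((k.1 v)⁻¹ : GQ v) : Matrix (Fin 2) (Fin 2) (Fv v)) i j -
      (1 : Matrix (Fin 2) (Fin 2) (Fv v)) i j) ≤ Valued.v ((N : ℕ) : Fv v) := h2
  have h3 : ivec (g * k) x v i - (((r i : 𝓞 F) : F) : Fv v) =
      ((((k.1 v)⁻¹ : GQ v) : Matrix (Fin 2) (Fin 2) (Fv v)) i 0 -
        (1 : Matrix (Fin 2) (Fin 2) (Fv v)) i 0) * ivec g x v 0 +
      ((((k.1 v)⁻¹ : GQ v) : Matrix (Fin 2) (Fin 2) (Fv v)) i 1 -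
        (1 : Matrix (Fin 2) (Fin 2) (Fv v)) i 1) * ivec g x v 1 +
      (ivec g x v i - (((r i : 𝓞 F) : F) : Fv v)) := by
    have e := congrFun (Matrix.one_mulVec (ivec g x v)) i
    rw [Matrix.mulVec, dotProduct, Fin.sum_univ_two] at e
    rw [KoeCls_ivec_mul]
    linear_combination e
  rw [h3]
  refine (Valuation.map_add _ _ _).trans (max_le ((Valuation.map_add _ _ _).trans
    (max_le ?_ ?_)) (h v i))
  · rw [map_mul]
    calc _ ≤ Valued.v ((N : ℕ) : Fv v) * 1 := mul_le_mul' (h2' i 0) (hx v 0)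
      _ = _ := mul_one _
  · rw [map_mul]
    calc _ ≤ Valued.v ((N : ℕ) : Fv v) * 1 := mul_le_mul' (h2' i 1) (hx v 1)
      _ = _ := mul_one _

theorem KoeCls_congr (N : ℕ) (g g' : GA F) (x x' : Vec F)
    (h : ∀ r, IsCls N g x r ↔ IsCls N g' x' r) : cls N g x = cls N g' x' := by
  have h1 : IsCls N g x = IsCls N g' x' := funext fun r => propext (h r)
  unfold cls
  rw [h1]

theorem cls_mul (N : ℕ) (hN : N ≠ 0) (g : GA F) {k : GA F} (hk : k ∈ KN F N) {x : Vec F}
    (hx : x ∈ Lat g) : cls N (g * k) x = cls N g x := by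
  refine KoeCls_congr N _ _ _ _ fun r => ⟨fun h => ?_, KoeCls_isCls_mul N g hk hx r⟩
  have h1 := KoeCls_isCls_mul N (g * k) (k := k⁻¹) ((KN F N).inv_mem hk) (x := x)
    (by rw [Lat_mul g fun v => (hk v).1]; exact hx) r h
  rwa [mul_assoc, mul_inv_cancel, mul_one] at h1

theorem KoeCls_ivec_diag (γ : G F) (g : GA F) (x : Vec F) :
    ivec (diag γ * g) (γ • x) = ivec g x := by
  funext v
  have h1 : (fun i => (((γ • x) i : F) : Fv v)) =
      ((loc v γ : GQ v) : Matrix (Fin 2) (Fin 2) (Fv v)).mulVec fun i => ((x i : F) : Fv v) := by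
    funext i
    exact RingHom.map_mulVec (algebraMap F (Fv v)) (γ : Matrix (Fin 2) (Fin 2) F) x i
  rw [ivec, h1, Matrix.mulVec_mulVec, ← Units.val_mul]
  have h3 : (((diag γ * g : GA F).1 v)⁻¹ * loc v γ : GQ v) = (g.1 v)⁻¹ := by
    have h4 : ((diag γ * g : GA F).1 v : GQ v) = loc v γ * g.1 v := rfl
    rw [h4, _root_.mul_inv_rev, mul_assoc, inv_mul_cancel, mul_one]
  rw [h3]
  rfl

theorem mem_Lat_diag (γ : G F) (g : GA F) (x : Vec F) : γ • x ∈ Lat (diag γ * g) ↔ x ∈ Lat g := by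
  change (∀ v i, Valued.v (ivec (diag γ * g) (γ • x) v i) ≤ 1) ↔
    (∀ v i, Valued.v (ivec g x v i) ≤ 1)
  rw [KoeCls_ivec_diag]

theorem cls_diag (N : ℕ) (γ : G F) (g : GA F) (x : Vec F) :
    cls N (diag γ * g) (γ • x) = cls N g x := by
  refine KoeCls_congr N _ _ _ _ fun r => ?_
  rw [IsCls, IsCls, KoeCls_ivec_diag]

theorem KoeCls_finite (F : Type) [Field F] [NumberField F] (N : ℕ) (hN : N ≠ 0) :
    Finite (Cls F N) := by
  have h1 : Ideal.span {((N : ℕ) : 𝓞 F)} ≠ ⊥ := by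
    rw [Ne, Ideal.span_singleton_eq_bot]
    exact Nat.cast_ne_zero.2 hN
  have : Finite (𝓞 F ⧸ Ideal.span {((N : ℕ) : 𝓞 F)}) := Ideal.finiteQuotientOfFreeOfNeBot _ h1
  exact inferInstanceAs (Finite (Fin 2 → (𝓞 F ⧸ Ideal.span {((N : ℕ) : 𝓞 F)})))

theorem KoeCls_countable (F : Type) [Field F] [NumberField F] : Countable (Vec F) := by
  have h1 : Countable F := (Module.finBasis ℚ F).equivFun.toEquiv.countable_iff.2 inferInstance
  exact inferInstanceAs (Countable (Fin 2 → F))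

theorem KoeCls_rel_gen {V : Type} [AddCommGroup V] [Module ℝ V] {ι : Type} [Fintype ι] (q : ι → V)
    (hS : ¬ LinearIndependent ℝ q) : ∃ a : ι → ℝ, ∑ x : ι, a x • q x = 0 ∧ a ≠ 0 := by
  obtain ⟨a, ha1, i, hai⟩ := Fintype.not_linearIndependent_iff.1 hS
  exact ⟨a, ha1, fun h => hai (congrFun h i)⟩

theorem KoeCls_rel (S : Finset (Vec F)) (hS : ¬ LinearIndependent ℝ fun x : S => qf x.1) :
    ∃ a : S → ℝ, ∑ x : S, a x • qf x.1 = 0 ∧ a ≠ 0 := KoeCls_rel_gen (fun x : S => qf x.1) hS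

/-- Generic weights exist. -/
theorem exists_goodC (N : ℕ) (hN : N ≠ 0) : ∃ C : Cls F N → ℝ, GoodC N C := by
  classical
  have hfin := KoeCls_finite F N hN
  have : Fintype (Cls F N) := Fintype.ofFinite _
  have hcount := KoeCls_countable F
  -- the functionals to be avoided
  let I : Type := {p : Σ S : Finset (Vec F), (S → Cls F N) //
    Function.Injective p.2 ∧ ¬ LinearIndependent ℝ fun x : p.1 => qf x.1}
  have hrel : ∀ p : I, ∃ a : p.1.1 → ℝ, ∑ x, a x • qf x.1 = 0 ∧ a ≠ 0 := by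
    intro p
    exact KoeCls_rel p.1.1 p.2.2
  choose a ha1 ha2 using hrel
  let φ : I → ((Cls F N → ℝ) →L[ℝ] ℝ) := fun p =>
    ∑ x, a p x • (ContinuousLinearMap.proj (R := ℝ) (φ := fun _ : Cls F N => ℝ) (p.1.2 x))
  have hφ : ∀ p C, φ p C = ∑ x, a p x * C (p.1.2 x) := by
    intro p C
    simp only [φ, _root_.sum_apply, _root_.smul_apply,
      ContinuousLinearMap.proj_apply, smul_eq_mul]
  have hφ0 : ∀ p, φ p ≠ 0 := by
    intro p h0
    apply ha2 p
    funext x
    have h1 := hφ p (Pi.single (p.1.2 x) 1)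
    rw [h0, _root_.zero_apply, Finset.sum_eq_single x] at h1
    · rw [Pi.single_eq_same, mul_one] at h1
      exact h1.symm
    · intro y _ hy
      rw [Pi.single_eq_of_ne (fun h => hy (p.2.1 h)), mul_zero]
    · intro h
      exact absurd (Finset.mem_univ x) h
  have hIc : Countable I := by
    have h1 : ∀ S : Finset (Vec F), Countable (S → Cls F N) := fun S => inferInstance
    exact inferInstance
  obtain ⟨C, hC1, hC2⟩ := exists_avoid (V := Cls F N → ℝ)
    (Set.pi Set.univ fun _ => Set.Ioo (1 : ℝ) (9 / 8))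
    (isOpen_set_pi Set.finite_univ fun _ _ => isOpen_Ioo)
    ⟨fun _ => 17 / 16, fun _ _ => ⟨by norm_num, by norm_num⟩⟩ (Set.range φ)
    (Set.countable_range φ) (by
      rintro ⟨p, hp⟩
      exact hφ0 p hp)
  refine ⟨C, fun κ => hC1 κ (Set.mem_univ κ), fun S f hf h hh => ?_⟩
  by_contra hdep
  let p : I := ⟨⟨S, fun x => f x.1⟩, fun x y hxy => Subtype.ext (hf x.2 y.2 hxy), hdep⟩
  apply hC2 (φ p) ⟨p, rfl⟩
  rw [hφ]
  have h1 := congrArg (fun l : VR F →L[ℝ] ℝ => l h) (ha1 p)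
  simp only [_root_.sum_apply, _root_.smul_apply, smul_eq_mul,
    _root_.zero_apply] at h1
  rw [← h1]
  refine Finset.sum_congr rfl fun x _ => ?_
  have h2 : p.1.2 x = f x.1 := rfl
  rw [h2, ← hh x.1 x.2]

end Pool.Agent.CG2
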