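import Pool.Agent.CG2.PtK

/-!
# Hermitian forms, lattices and classes
-/

noncomputable section

namespace Pool.Agent.CG2

open NumberField IsDedekindDomain Matrix

/-- The column vectors `F²`. -/
def Vec (F : Type) : Type := Fin 2 → F

variable {F : Type} [Field F] [NumberField F]

instance : AddCommGroup (Vec F) := inferInstanceAs (AddCommGroup (Fin 2 → F))

instance : Module F (Vec F) := inferInstanceAs (Module F (Fin 2 → F))

instance decVec : DecidableEq (Vec F) := Classical.decEq _

/-- The vector `γ x`. -/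
def mulV (γ : G F) (x : Vec F) : Vec F := (γ : Matrix (Fin 2) (Fin 2) F).mulVec x

instance actVec : MulAction (G F) (Vec F) where
  smul := mulV
  one_smul x := by
    change mulV 1 x = x
    rw [mulV, Units.val_one, Matrix.one_mulVec]
  mul_smul a b x := by
    change mulV (a * b) x = mulV a (mulV b x)
    rw [mulV, Units.val_mul, ← Matrix.mulVec_mulVec]
    rfl

theorem smul_vec (γ : G F) (x : Vec F) : γ • x = mulV γ x := rfl

/-- The space of the families `h` of hermitian forms on `F_w²`, `w` the archimedean places; the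
form is given by `(h₁₁, h₂₂, h₁₂)`. -/
def VR (F : Type) [Field F] [NumberField F] : Submodule ℝ (InfinitePlace F → ℝ × ℝ × ℂ) where
  carrier := {h | ∀ w, w.IsReal → (h w).2.2.im = 0}
  add_mem' := by
    intro a b ha hb w hw
    simp [ha w hw, hb w hw]
  zero_mem' := by
    intro w _
    simp
  smul_mem' := by
    intro c a ha w hw
    simp [ha w hw]

/-- The value `h₁₁ |a|² + h₂₂ |b|² + 2 Re (h₁₂ a b̄)` of a hermitian form. -/
def Hh (t : ℝ × ℝ × ℂ) (a b : ℂ) : ℝ :=
  t.1 * ‖a‖ ^ 2 + t.2.1 * ‖b‖ ^ 2 + 2 * (t.2.2 * a * (starRingEnd ℂ) b).re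

/-- The linear functional `h ↦ h(x, x)` on `VR` attached to `x` in `F²`. -/
def qf (x : Vec F) : VR F →L[ℝ] ℝ :=
  LinearMap.toContinuousLinearMap
    { toFun := fun h => ∑ w : InfinitePlace F, Hh (h.1 w) (w.embedding (x 0)) (w.embedding (x 1))
      map_add' := by
        intro a b
        rw [← Finset.sum_add_distrib]
        refine Finset.sum_congr rfl fun w _ => ?_
        simp only [Submodule.coe_add, Pi.add_apply, Hh, Prod.fst_add, Prod.snd_add, add_mul,
          Complex.add_re]
        ring
      map_smul' := by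
        intro c a
        rw [RingHom.id_apply, smul_eq_mul, Finset.mul_sum]
        refine Finset.sum_congr rfl fun w _ => ?_
        simp only [Submodule.coe_smul, Pi.smul_apply, Hh, Prod.smul_fst, Prod.smul_snd,
          smul_eq_mul, Complex.real_smul, mul_assoc, Complex.re_ofReal_mul]
        ring }

theorem qf_apply (x : Vec F) (h : VR F) :
    qf x h = ∑ w : InfinitePlace F, Hh (h.1 w) (w.embedding (x 0)) (w.embedding (x 1)) := rfl

/-- Positive semidefinite families. -/
def PSD (h : VR F) : Prop := ∀ (w : InfinitePlace F) (a b : ℂ), 0 ≤ Hh (h.1 w) a b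

/-- Positive definite families. -/
def PD (h : VR F) : Prop := ∀ (w : InfinitePlace F) (a b : ℂ), (a ≠ 0 ∨ b ≠ 0) →
  0 < Hh (h.1 w) a b

/-- The functionals which are positive on the non-zero positive semidefinite families. -/
def KPos (F : Type) [Field F] [NumberField F] : Set (VR F →L[ℝ] ℝ) :=
  {l | ∀ h : VR F, PSD h → h ≠ 0 → 0 < l h}

/-- The component at `v` of the vector `g⁻¹ x`, `g` in `GL₂(𝔸_f)`. -/
def ivec (g : GA F) (x : Vec F) (v : Pl F) : Fin 2 → Fv v :=
  (((g.1 v)⁻¹ : GQ v) : Matrix (Fin 2) (Fin 2) (Fv v)).mulVec fun i => ((x i : F) : Fv v)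

/-- The lattice of the vectors `x` in `F²` with `g⁻¹ x` integral. -/
def Lat (g : GA F) : AddSubgroup (Vec F) where
  carrier := {x | ∀ v i, Valued.v (ivec g x v i) ≤ 1}
  add_mem' := by
    intro a b ha hb v i
    have h1 : ivec g (a + b) v i = ivec g a v i + ivec g b v i := by
      have h2 : (fun i => (((a + b) i : F) : Fv v)) =
          (fun i => ((a i : F) : Fv v)) + fun i => ((b i : F) : Fv v) := by
        funext i
        exact map_add (algebraMap F (Fv v)) (a i) (b i)
      rw [ivec, ivec, ivec, h2, Matrix.mulVec_add]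
      rfl
    rw [h1]
    exact (Valuation.map_add _ _ _).trans (max_le (ha v i) (hb v i))
  zero_mem' := by
    intro v i
    have h1 : ivec g 0 v i = 0 := by
      have h2 : (fun i => (((0 : Vec F) i : F) : Fv v)) = 0 := by
        funext i
        exact map_zero (algebraMap F (Fv v))
      rw [ivec, h2, Matrix.mulVec_zero]
      rfl
    rw [h1, map_zero]
    exact zero_le
  neg_mem' := by
    intro a ha v i
    have h1 : ivec g (-a) v i = - ivec g a v i := by
      have h2 : (fun i => (((-a) i : F) : Fv v)) = - fun i => ((a i : F) : Fv v) := by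
        funext i
        exact map_neg (algebraMap F (Fv v)) (a i)
      rw [ivec, ivec, h2, Matrix.mulVec_neg]
      rfl
    rw [h1, Valuation.map_neg]
    exact ha v i

/-- The finite set of the classes `(O_F / N)²`. -/
abbrev Cls (F : Type) [Field F] [NumberField F] (N : ℕ) : Type :=
  Fin 2 → (𝓞 F ⧸ Ideal.span {((N : ℕ) : 𝓞 F)})

/-- `g⁻¹ x` is congruent to `r` modulo `N`. -/
def IsCls (N : ℕ) (g : GA F) (x : Vec F) (r : Fin 2 → 𝓞 F) : Prop :=
  ∀ v i, Valued.v (ivec g x v i - (((r i : 𝓞 F) : F) : Fv v)) ≤ Valued.v ((N : ℕ) : Fv v)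

open Classical in
/-- The class of `g⁻¹ x` modulo `N`. -/
def cls (N : ℕ) (g : GA F) (x : Vec F) : Cls F N :=
  if h : ∃ r, IsCls N g x r then fun i => Ideal.Quotient.mk _ (h.choose i) else 0

/-- The product of the signs at the real places. -/
def epsS (s : RPl F → ℤˣ) : ℤˣ := ∏ᶠ w, s w

/-- The weights `C` are between `1` and `9/8` and generic. -/
def GoodC (N : ℕ) (C : Cls F N → ℝ) : Prop :=
  (∀ κ, 1 < C κ ∧ C κ < 9 / 8) ∧
  ∀ (S : Finset (Vec F)) (f : Vec F → Cls F N), Set.InjOn f S → ∀ h : VR F,
    (∀ x ∈ S, qf x h = C (f x)) → LinearIndependent ℝ fun x : S => qf x.1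

end Pool.Agent.CG2
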