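import Pool.Agent.CG2.KoePos
import Pool.Agent.CG2.CspApprox

/-!
# Lattices in `F²`
-/

noncomputable section

namespace Pool.Agent.CG2

open NumberField IsDedekindDomain Matrix

variable {F : Type} [Field F] [NumberField F]

theorem KoeLat_ivec_eq (g : GA F) (x : Vec F) (v : Pl F) (i : Fin 2) : ivec g x v i =
    (((g.1 v)⁻¹ : GQ v) : Matrix (Fin 2) (Fin 2) (Fv v)) i 0 * ((x 0 : F) : Fv v) +
    (((g.1 v)⁻¹ : GQ v) : Matrix (Fin 2) (Fin 2) (Fv v)) i 1 * ((x 1 : F) : Fv v) := by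
  rw [ivec, Matrix.mulVec, dotProduct, Fin.sum_univ_two]

theorem KoeLat_ivec_smul (g : GA F) (a : F) (x : Vec F) (v : Pl F) (i : Fin 2) :
    ivec g (a • x) v i = ((a : F) : Fv v) * ivec g x v i := by
  rw [KoeLat_ivec_eq, KoeLat_ivec_eq]
  have h : ∀ j, (((a • x) j : F) : Fv v) = ((a : F) : Fv v) * ((x j : F) : Fv v) := by
    intro j
    exact map_mul (algebraMap F (Fv v)) a (x j)
  rw [h, h]
  ring

/-- The vector is recovered from its components. -/
theorem KoeLat_eq_mul (g : GA F) (x : Vec F) (v : Pl F) (i : Fin 2) : ((x i : F) : Fv v) =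
    ((g.1 v : GQ v) : Matrix (Fin 2) (Fin 2) (Fv v)) i 0 * ivec g x v 0 +
    ((g.1 v : GQ v) : Matrix (Fin 2) (Fin 2) (Fv v)) i 1 * ivec g x v 1 := by
  have h1 : ((g.1 v : GQ v) : Matrix (Fin 2) (Fin 2) (Fv v)).mulVec (ivec g x v) =
      fun i => ((x i : F) : Fv v) := by
    rw [ivec, Matrix.mulVec_mulVec, ← Units.val_mul, mul_inv_cancel, Units.val_one,
      Matrix.one_mulVec]
  rw [← congrFun h1 i, Matrix.mulVec, dotProduct, Fin.sum_univ_two]

theorem KoeLat_val_natCast (v : Pl F) (N : ℕ) :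
    Valued.v ((N : ℕ) : Fv v) = v.valuation F ((N : ℕ) : F) := by
  rw [← HeightOneSpectrum.adicCompletion.valued_coe]
  congr 1
  exact (map_natCast (algebraMap F (Fv v)) N).symm

theorem KoeLat_val_natCast_le (v : Pl F) (N : ℕ) : Valued.v ((N : ℕ) : Fv v) ≤ 1 := by
  rw [KoeLat_val_natCast]
  have := v.valuation_le_one (K := F) ((N : ℕ) : 𝓞 F)
  simpa using this

theorem KoeLat_val_natCast_ne (v : Pl F) {N : ℕ} (hN : N ≠ 0) :
    Valued.v ((N : ℕ) : Fv v) ≠ 0 := by
  rw [KoeLat_val_natCast]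
  exact (Valuation.ne_zero_iff _).2 (Nat.cast_ne_zero.2 hN)

theorem KoeLat_val_coe_le (v : Pl F) (a : 𝓞 F) : Valued.v (((a : 𝓞 F) : F) : Fv v) ≤ 1 := by
  rw [HeightOneSpectrum.adicCompletion.valued_coe]
  exact v.valuation_le_one a

/-- A natural number which is small at `v`. -/
theorem KoeLat_exists_small (v : Pl F) (c : WithZero (Multiplicative ℤ)) (hc : c ≠ 0) :
    ∃ N : ℕ, 0 < N ∧ Valued.v ((N : ℕ) : Fv v) ≤ c := by
  have hmem : ((Ideal.absNorm v.asIdeal : ℕ) : 𝓞 F) ∈ v.asIdeal := Ideal.absNorm_mem _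
  have hpos : 0 < Ideal.absNorm v.asIdeal := by
    rw [Nat.pos_iff_ne_zero, Ne, Ideal.absNorm_eq_zero_iff]
    exact v.ne_bot
  set n := Ideal.absNorm v.asIdeal
  have h1 : ∀ k : ℕ, Valued.v (((n ^ k : ℕ) : ℕ) : Fv v) ≤ WithZero.exp (-(k : ℤ)) := by
    intro k
    rw [KoeLat_val_natCast]
    have h2 : ((n ^ k : ℕ) : 𝓞 F) ∈ v.asIdeal ^ k := by
      push_cast
      exact Ideal.pow_mem_pow hmem k
    have h3 := (CspApprox_ge_iff (n := k)).2 h2
    rw [Ge] at h3
    convert h3 using 2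
    push_cast
    rfl
  obtain ⟨m, hm⟩ : ∃ m : ℤ, c = WithZero.exp m := ⟨WithZero.log c, (WithZero.exp_log hc).symm⟩
  refine ⟨n ^ (-m).toNat, pow_pos hpos _, (h1 _).trans ?_⟩
  rw [hm, WithZero.exp_le_exp]
  have := Int.self_le_toNat (-m)
  omega

theorem KoeLat_exists_small_set (B : Set (Pl F)) (hB : B.Finite)
    (c : Pl F → WithZero (Multiplicative ℤ)) (hc : ∀ v, c v ≠ 0) :
    ∃ N : ℕ, 0 < N ∧ ∀ v ∈ B, Valued.v ((N : ℕ) : Fv v) ≤ c v := by
  classical
  choose f hf1 hf2 using fun v => KoeLat_exists_small v (c v) (hc v)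
  refine ⟨∏ v ∈ hB.toFinset, f v, Finset.prod_pos fun v _ => hf1 v, fun v hv => ?_⟩
  have hv' : v ∈ hB.toFinset := hB.mem_toFinset.2 hv
  rw [← Finset.mul_prod_erase _ _ hv', Nat.cast_mul, map_mul]
  calc _ ≤ c v * 1 := mul_le_mul' (hf2 v) (KoeLat_val_natCast_le v _)
    _ = c v := mul_one _

/-- The lattice contains `N O²` and is contained in `N⁻¹ O²`. -/
theorem Lat_bounds (g : GA F) : ∃ N : ℕ, 0 < N ∧
    (∀ a b : 𝓞 F, ((fun i => ((N : ℕ) : F) * (![a, b] i : 𝓞 F)) : Vec F) ∈ Lat g) ∧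
    ∀ x ∈ Lat g, ∀ i, ∃ a : 𝓞 F, ((N : ℕ) : F) * x i = a := by
  classical
  -- the sizes of the entries
  let m : Pl F → WithZero (Multiplicative ℤ) := fun v =>
    max 1 (max (Finset.univ.sup fun p : Fin 2 × Fin 2 =>
      Valued.v (((g.1 v : GQ v) : Matrix (Fin 2) (Fin 2) (Fv v)) p.1 p.2))
      (Finset.univ.sup fun p : Fin 2 × Fin 2 =>
        Valued.v ((((g.1 v)⁻¹ : GQ v) : Matrix (Fin 2) (Fin 2) (Fv v)) p.1 p.2)))
  have hm1 : ∀ v, 1 ≤ m v := fun v => le_max_left _ _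
  have hm0 : ∀ v, m v ≠ 0 := fun v h => by
    have := hm1 v
    rw [h] at this
    exact absurd this (by simp)
  have hg : ∀ v i j, Valued.v (((g.1 v : GQ v) : Matrix (Fin 2) (Fin 2) (Fv v)) i j) ≤ m v := by
    intro v i j
    exact (Finset.le_sup (f := fun p : Fin 2 × Fin 2 =>
      Valued.v (((g.1 v : GQ v) : Matrix (Fin 2) (Fin 2) (Fv v)) p.1 p.2))
      (Finset.mem_univ (i, j))).trans ((le_max_left _ _).trans (le_max_right _ _))
  have hgi : ∀ v i j,
      Valued.v ((((g.1 v)⁻¹ : GQ v) : Matrix (Fin 2) (Fin 2) (Fv v)) i j) ≤ m v := by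
    intro v i j
    exact (Finset.le_sup (f := fun p : Fin 2 × Fin 2 =>
      Valued.v ((((g.1 v)⁻¹ : GQ v) : Matrix (Fin 2) (Fin 2) (Fv v)) p.1 p.2))
      (Finset.mem_univ (i, j))).trans ((le_max_right _ _).trans (le_max_right _ _))
  obtain ⟨N, hN, hN2⟩ := KoeLat_exists_small_set {v | g.1 v ∉ GZ v} g.2 (fun v => (m v)⁻¹)
    (fun v => inv_ne_zero (hm0 v))
  have key : ∀ v (c : Fv v), Valued.v c ≤ m v → (g.1 v ∈ GZ v → Valued.v c ≤ 1) →
      Valued.v (((N : ℕ) : Fv v) * c) ≤ 1 := by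
    intro v c hc1 hc2
    rw [map_mul]
    by_cases hv : g.1 v ∈ GZ v
    · exact mul_le_one' (KoeLat_val_natCast_le v N) (hc2 hv)
    · calc _ ≤ (m v)⁻¹ * m v := mul_le_mul' (hN2 v hv) hc1
        _ = 1 := inv_mul_cancel₀ (hm0 v)
  refine ⟨N, hN, ?_, ?_⟩
  · intro a b
    obtain ⟨x, hx⟩ : ∃ x : Vec F, x = fun i => ((N : ℕ) : F) * (![a, b] i : 𝓞 F) := ⟨_, rfl⟩
    have hx0 : x 0 = ((N : ℕ) : F) * (a : 𝓞 F) := by rw [hx]; rfl
    have hx1 : x 1 = ((N : ℕ) : F) * (b : 𝓞 F) := by rw [hx]; rfl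
    rw [← hx]
    intro v i
    rw [KoeLat_ivec_eq]
    refine (Valuation.map_add _ _ _).trans (max_le ?_ ?_)
    · have h1 : (((g.1 v)⁻¹ : GQ v) : Matrix (Fin 2) (Fin 2) (Fv v)) i 0 *
          ((x 0 : F) : Fv v) =
          (((N : ℕ) : Fv v) * (((g.1 v)⁻¹ : GQ v) : Matrix (Fin 2) (Fin 2) (Fv v)) i 0) *
          (((a : 𝓞 F) : F) : Fv v) := by
        have h2 : ((x 0 : F) : Fv v) =
            ((N : ℕ) : Fv v) * (((a : 𝓞 F) : F) : Fv v) := by
          rw [hx0]
          have := map_mul (algebraMap F (Fv v)) ((N : ℕ) : F) (a : F)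
          rw [map_natCast] at this
          exact this
        rw [h2]; ring
      rw [h1, map_mul]
      refine mul_le_one' (key v _ (hgi v i 0) fun hv => ((mem_GZ_iff v _).1 hv).2 i 0)
        (KoeLat_val_coe_le v a)
    · have h1 : (((g.1 v)⁻¹ : GQ v) : Matrix (Fin 2) (Fin 2) (Fv v)) i 1 *
          ((x 1 : F) : Fv v) =
          (((N : ℕ) : Fv v) * (((g.1 v)⁻¹ : GQ v) : Matrix (Fin 2) (Fin 2) (Fv v)) i 1) *
          (((b : 𝓞 F) : F) : Fv v) := by
        have h2 : ((x 1 : F) : Fv v) =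
            ((N : ℕ) : Fv v) * (((b : 𝓞 F) : F) : Fv v) := by
          rw [hx1]
          have := map_mul (algebraMap F (Fv v)) ((N : ℕ) : F) (b : F)
          rw [map_natCast] at this
          exact this
        rw [h2]; ring
      rw [h1, map_mul]
      refine mul_le_one' (key v _ (hgi v i 1) fun hv => ((mem_GZ_iff v _).1 hv).2 i 1)
        (KoeLat_val_coe_le v b)
  · intro x hx i
    have h1 : ∀ v : Pl F, v.valuation F (((N : ℕ) : F) * x i) ≤ 1 := by
      intro v
      rw [← HeightOneSpectrum.adicCompletion.valued_coe]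
      have h2 : (((((N : ℕ) : F) * x i) : F) : Fv v) = ((N : ℕ) : Fv v) * ((x i : F) : Fv v) := by
        have := map_mul (algebraMap F (Fv v)) ((N : ℕ) : F) (x i)
        rw [map_natCast] at this
        exact this
      rw [h2, KoeLat_eq_mul g x v i, mul_add, ← mul_assoc, ← mul_assoc]
      refine (Valuation.map_add _ _ _).trans (max_le ?_ ?_)
      · rw [map_mul]
        exact mul_le_one' (key v _ (hg v i 0) fun hv => ((mem_GZ_iff v _).1 hv).1 i 0) (hx v 0)
      · rw [map_mul]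
        exact mul_le_one' (key v _ (hg v i 1) fun hv => ((mem_GZ_iff v _).1 hv).1 i 1) (hx v 1)
    obtain ⟨a, ha⟩ := HeightOneSpectrum.mem_integers_of_valuation_le_one F _ h1
    exact ⟨a, ha.symm⟩

theorem Lat_smul (g : GA F) (a : 𝓞 F) {x : Vec F} (hx : x ∈ Lat g) : (a : F) • x ∈ Lat g := by
  intro v i
  rw [KoeLat_ivec_smul, map_mul]
  exact mul_le_one' (KoeLat_val_coe_le v a) (hx v i)

/-- Multiplying a vector by the inverse of a large integer. -/
theorem mem_Lat_of_natCast (g : GA F) (N : ℕ) (hN : N ≠ 0) (x : Vec F) :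
    (∀ v i, Valued.v (ivec g x v i) ≤ Valued.v ((N : ℕ) : Fv v)) ↔
      ((N : ℕ) : F)⁻¹ • x ∈ Lat g := by
  have h1 : ∀ v : Pl F, ((((((N : ℕ) : F)⁻¹) : F)) : Fv v) = ((N : ℕ) : Fv v)⁻¹ := by
    intro v
    have := map_inv₀ (algebraMap F (Fv v)) ((N : ℕ) : F)
    rw [map_natCast] at this
    exact this
  refine forall_congr' fun v => forall_congr' fun i => ?_
  rw [KoeLat_ivec_smul, h1, map_mul, map_inv₀]
  have h2 := KoeLat_val_natCast_ne v hN
  rw [inv_mul_le_one₀ (zero_lt_iff.2 h2)]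

/-- Finitely many lattice vectors are small. -/
theorem Lat_finite (g : GA F) (C : ℝ) :
    {x : Vec F | x ∈ Lat g ∧ ∀ (w : InfinitePlace F) (i : Fin 2), w (x i) ≤ C}.Finite := by
  obtain ⟨N, hN, -, h2⟩ := Lat_bounds g
  have hfin := Embeddings.finite_of_norm_le F ℂ ((N : ℝ) * C)
  have hfin2 : (Set.pi (Set.univ : Set (Fin 2))
      fun _ => {x : F | IsIntegral ℤ x ∧ ∀ φ : F →+* ℂ, ‖φ x‖ ≤ (N : ℝ) * C}).Finite :=
    Set.Finite.pi fun _ => hfin
  have hN0 : ((N : ℕ) : F) ≠ 0 := Nat.cast_ne_zero.2 hN.ne'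
  refine Set.Finite.of_finite_image (f := fun x : Vec F => (fun i => ((N : ℕ) : F) * x i :
    Fin 2 → F)) (hfin2.subset ?_) ?_
  · rintro _ ⟨x, ⟨hx1, hx2⟩, rfl⟩ i _
    obtain ⟨a, ha⟩ := h2 x hx1 i
    refine ⟨?_, fun φ => ?_⟩
    · show IsIntegral ℤ (((N : ℕ) : F) * x i)
      rw [ha]
      exact a.isIntegral_coe
    · show ‖φ (((N : ℕ) : F) * x i)‖ ≤ _
      rw [map_mul, map_natCast, norm_mul, Complex.norm_natCast]
      refine mul_le_mul_of_nonneg_left ?_ (Nat.cast_nonneg N)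
      have := hx2 (InfinitePlace.mk φ) i
      rwa [InfinitePlace.apply] at this
  · intro x _ y _ hxy
    funext i
    have := congrFun hxy i
    exact mul_left_cancel₀ hN0 this

/-- Every family of numbers is close to an integer of `F`. -/
theorem KoeLat_cocompact (F : Type) [Field F] [NumberField F] : ∃ R : ℝ, ∀ z : InfinitePlace F → ℂ,
    (∀ w, w.IsReal → (z w).im = 0) → ∃ a : 𝓞 F, ∀ w : InfinitePlace F,
      ‖z w - w.embedding (a : F)‖ ≤ R := by
  classical
  let b := mixedEmbedding.latticeBasis F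
  refine ⟨∑ i, ‖b i‖, fun z hz => ?_⟩
  let m : mixedEmbedding.mixedSpace F := (fun w => (z w.1).re, fun w => z w.1)
  have h1 := ZSpan.norm_fract_le b m
  have h2 : ((ZSpan.floor b m : Submodule.span ℤ (Set.range b)) : mixedEmbedding.mixedSpace F) ∈
      mixedEmbedding.integerLattice F :=
    (mixedEmbedding.mem_span_latticeBasis F).1 (ZSpan.floor b m).2
  obtain ⟨a, ha⟩ := h2
  have ha' : mixedEmbedding F (a : F) =
      ((ZSpan.floor b m : Submodule.span ℤ (Set.range b)) : mixedEmbedding.mixedSpace F) := ha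
  have h3 : ZSpan.fract b m = m - mixedEmbedding F (a : F) := by
    rw [ZSpan.fract_apply, ha']
  rw [h3] at h1
  refine ⟨a, fun w => ?_⟩
  rcases w.isReal_or_isComplex with hw | hw
  · have h4 : ‖(m - mixedEmbedding F (a : F)).1 ⟨w, hw⟩‖ ≤ ∑ i, ‖b i‖ :=
      (norm_le_pi_norm _ _).trans ((norm_fst_le _).trans h1)
    have h5 : (m - mixedEmbedding F (a : F)).1 ⟨w, hw⟩ =
        (z w).re - InfinitePlace.embedding_of_isReal hw (a : F) := by
      rfl
    rw [h5] at h4
    have h6 : z w - w.embedding (a : F) =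
        (((z w).re - InfinitePlace.embedding_of_isReal hw (a : F) : ℝ) : ℂ) := by
      rw [Complex.ofReal_sub, InfinitePlace.embedding_of_isReal_apply]
      congr 1
      exact (Complex.ext rfl (by rw [Complex.ofReal_im]; exact hz w hw))
    rw [h6, Complex.norm_real]
    exact h4
  · have h4 : ‖(m - mixedEmbedding F (a : F)).2 ⟨w, hw⟩‖ ≤ ∑ i, ‖b i‖ :=
      (norm_le_pi_norm _ _).trans ((norm_snd_le _).trans h1)
    exact h4

/-- Every vector in `F_∞²` is close to a lattice vector. -/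
theorem Lat_cocompact (g : GA F) : ∃ R : ℝ, ∀ z : InfinitePlace F → Fin 2 → ℂ,
    (∀ w, w.IsReal → ∀ i, (z w i).im = 0) → ∃ x ∈ Lat g, ∀ (w : InfinitePlace F) (i : Fin 2),
      ‖z w i - w.embedding (x i)‖ ≤ R := by
  obtain ⟨N, hN, h1, -⟩ := Lat_bounds g
  obtain ⟨R, hR⟩ := KoeLat_cocompact F
  refine ⟨N * R, fun z hz => ?_⟩
  have hN' : (0 : ℝ) < N := Nat.cast_pos.2 hN
  have key : ∀ i : Fin 2, ∃ a : 𝓞 F, ∀ w : InfinitePlace F,
      ‖z w i - ((N : ℕ) : ℂ) * w.embedding (a : F)‖ ≤ N * R := by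
    intro i
    obtain ⟨a, ha⟩ := hR (fun w => z w i / (N : ℂ)) (by
      intro w hw
      show (z w i / (N : ℂ)).im = 0
      rw [Complex.div_natCast_im, hz w hw i, zero_div])
    refine ⟨a, fun w => ?_⟩
    have hN0 : (N : ℂ) ≠ 0 := Nat.cast_ne_zero.2 hN.ne'
    have h2 : z w i - ((N : ℕ) : ℂ) * w.embedding (a : F) =
        (N : ℂ) * (z w i / (N : ℂ) - w.embedding (a : F)) := by
      rw [mul_sub, mul_div_cancel₀ _ hN0]
    rw [h2, norm_mul, Complex.norm_natCast]
    exact mul_le_mul_of_nonneg_left (ha w) hN'.le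
  obtain ⟨a, ha⟩ := key 0
  obtain ⟨b, hb⟩ := key 1
  refine ⟨_, h1 a b, fun w i => ?_⟩
  fin_cases i
  · have := ha w
    rw [← map_natCast w.embedding N, ← map_mul] at this
    exact this
  · have := hb w
    rw [← map_natCast w.embedding N, ← map_mul] at this
    exact this

theorem KoeLat_Hh_line (t : ℝ × ℝ × ℂ) (r : ℝ) (a b a' b' : ℂ) :
    Hh t (r * a + a') (r * b + b') = r ^ 2 * Hh t a b +
      r * (Hh t (a + a') (b + b') - Hh t a b - Hh t a' b') + Hh t a' b' := by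
  simp only [Hh, Complex.sq_norm, Complex.normSq_apply, Complex.mul_re, Complex.mul_im,
    Complex.add_re, Complex.add_im, Complex.ofReal_re, Complex.ofReal_im, Complex.conj_re,
    Complex.conj_im]
  ring

theorem KoeLat_Hh_bound (t : ℝ × ℝ × ℂ) (a b : ℂ) {D : ℝ} (ha : ‖a‖ ≤ D) (hb : ‖b‖ ≤ D) :
    |Hh t a b| ≤ (|t.1| + |t.2.1| + 2 * ‖t.2.2‖) * D ^ 2 := by
  have hD : 0 ≤ D := (norm_nonneg a).trans ha
  have h1 : ‖a‖ ^ 2 ≤ D ^ 2 := pow_le_pow_left₀ (norm_nonneg a) ha 2
  have h2 : ‖b‖ ^ 2 ≤ D ^ 2 := pow_le_pow_left₀ (norm_nonneg b) hb 2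
  have h3 : |(t.2.2 * a * (starRingEnd ℂ) b).re| ≤ ‖t.2.2‖ * D ^ 2 := by
    refine (Complex.abs_re_le_norm _).trans ?_
    rw [norm_mul, norm_mul, Complex.norm_conj, mul_assoc, sq]
    exact mul_le_mul_of_nonneg_left (mul_le_mul ha hb (norm_nonneg b) hD) (norm_nonneg _)
  rw [Hh]
  calc |t.1 * ‖a‖ ^ 2 + t.2.1 * ‖b‖ ^ 2 + 2 * (t.2.2 * a * (starRingEnd ℂ) b).re|
      ≤ |t.1 * ‖a‖ ^ 2| + |t.2.1 * ‖b‖ ^ 2| + |2 * (t.2.2 * a * (starRingEnd ℂ) b).re| :=
        abs_add_three _ _ _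
    _ ≤ |t.1| * D ^ 2 + |t.2.1| * D ^ 2 + 2 * (‖t.2.2‖ * D ^ 2) := by
        refine add_le_add (add_le_add ?_ ?_) ?_
        · rw [abs_mul, abs_of_nonneg (sq_nonneg ‖a‖)]
          exact mul_le_mul_of_nonneg_left h1 (abs_nonneg _)
        · rw [abs_mul, abs_of_nonneg (sq_nonneg ‖b‖)]
          exact mul_le_mul_of_nonneg_left h2 (abs_nonneg _)
        · rw [abs_mul, abs_two]
          exact mul_le_mul_of_nonneg_left h3 (by norm_num)
    _ = _ := by ring

/-- The total form on `F_∞²`. -/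
def KoeLat_Q (h : VR F) (z : InfinitePlace F → Fin 2 → ℂ) : ℝ :=
  ∑ w : InfinitePlace F, Hh (h.1 w) (z w 0) (z w 1)

theorem KoeLat_Q_line (h : VR F) (r : ℝ) (z z' : InfinitePlace F → Fin 2 → ℂ) :
    KoeLat_Q h ((r : ℂ) • z + z') = r ^ 2 * KoeLat_Q h z +
      r * (KoeLat_Q h (z + z') - KoeLat_Q h z - KoeLat_Q h z') + KoeLat_Q h z' := by
  simp only [KoeLat_Q, Finset.mul_sum, ← Finset.sum_sub_distrib, ← Finset.sum_add_distrib]
  refine Finset.sum_congr rfl fun w _ => ?_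
  exact KoeLat_Hh_line _ _ _ _ _ _

theorem KoeLat_Q_bound (h : VR F) : ∃ B : ℝ, 0 ≤ B ∧ ∀ (z : InfinitePlace F → Fin 2 → ℂ) (D : ℝ),
    (∀ w i, ‖z w i‖ ≤ D) → |KoeLat_Q h z| ≤ B * D ^ 2 := by
  refine ⟨∑ w, (|(h.1 w).1| + |(h.1 w).2.1| + 2 * ‖(h.1 w).2.2‖),
    Finset.sum_nonneg fun w _ => by positivity, fun z D hz => ?_⟩
  rw [KoeLat_Q, Finset.sum_mul]
  exact (Finset.abs_sum_le_sum_abs _ _).trans
    (Finset.sum_le_sum fun w _ => KoeLat_Hh_bound _ _ _ (hz w 0) (hz w 1))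

/-- The image of a vector in `F_∞²`. -/
def KoeLat_emb (x : Vec F) : InfinitePlace F → Fin 2 → ℂ := fun w i => w.embedding (x i)

theorem KoeLat_Q_emb (h : VR F) (x : Vec F) : KoeLat_Q h (KoeLat_emb x) = qf x h := rfl

omit [NumberField F] in
theorem KoeLat_emb_real (x : Vec F) (w : InfinitePlace F) (hw : w.IsReal) (i : Fin 2) :
    (KoeLat_emb x w i).im = 0 := by
  rw [KoeLat_emb, ← InfinitePlace.embedding_of_isReal_apply hw, Complex.ofReal_im]

/-- A form which is at least `1` on the non-zero vectors of a lattice is positive on `F_∞²`. -/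
theorem KoeLat_Q_pos (g : GA F) (h : VR F) (hh : ∀ x ∈ Lat g, x ≠ 0 → 1 ≤ qf x h)
    (z : InfinitePlace F → Fin 2 → ℂ) (hz : ∀ w, w.IsReal → ∀ i, (z w i).im = 0) (hz0 : z ≠ 0) :
    0 < KoeLat_Q h z := by
  classical
  obtain ⟨R, hR⟩ := Lat_cocompact g
  obtain ⟨B, hB, hQB⟩ := KoeLat_Q_bound h
  have hR0 : 0 ≤ R := by
    obtain ⟨x, -, hx⟩ := hR 0 (fun _ _ _ => rfl)
    obtain ⟨w⟩ : Nonempty (InfinitePlace F) := inferInstance
    exact (norm_nonneg _).trans (hx w 0)
  -- the form is not negative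
  have hnn : ∀ z : InfinitePlace F → Fin 2 → ℂ, (∀ w, w.IsReal → ∀ i, (z w i).im = 0) →
      0 ≤ KoeLat_Q h z := by
    intro z hz
    by_contra hneg
    push Not at hneg
    obtain ⟨D, hD0, hD⟩ : ∃ D : ℝ, 0 ≤ D ∧ ∀ w i, ‖z w i‖ ≤ D :=
      ⟨‖z‖, norm_nonneg z, fun w i => (norm_le_pi_norm (z w) i).trans (norm_le_pi_norm z w)⟩
    set q := KoeLat_Q h z
    -- the polar form is bounded
    have key : ∀ r : ℝ, 0 ≤ r → 0 ≤ r ^ 2 * q + r * (B * (D + R) ^ 2 - q + B * R ^ 2) + B * R ^ 2 := by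
      intro r hr
      obtain ⟨x, hx1, hx2⟩ := hR ((r : ℂ) • z) (by
        intro w hw i
        simp [hz w hw i])
      let δ : InfinitePlace F → Fin 2 → ℂ := KoeLat_emb x - (r : ℂ) • z
      have hδ : ∀ w i, ‖δ w i‖ ≤ R := by
        intro w i
        have := hx2 w i
        rw [← norm_neg] at this
        have h2 : -(((r : ℂ) • z) w i - w.embedding (x i)) = δ w i := by
          simp only [δ, KoeLat_emb, Pi.sub_apply]; ring
        rwa [h2] at this
      have h3 : KoeLat_emb x = (r : ℂ) • z + δ := by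
        simp only [δ]; abel
      have h4 : 0 ≤ KoeLat_Q h ((r : ℂ) • z + δ) := by
        rw [← h3, KoeLat_Q_emb]
        by_cases hx0 : x = 0
        · rw [hx0]
          have : qf (0 : Vec F) h = 0 := by
            rw [qf_apply]
            refine Finset.sum_eq_zero fun w _ => ?_
            have h5 : w.embedding ((0 : Vec F) 0) = 0 := map_zero _
            have h6 : w.embedding ((0 : Vec F) 1) = 0 := map_zero _
            rw [h5, h6, Hh]
            simp
          rw [this]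
        · exact zero_le_one.trans (hh x hx1 hx0)
      rw [KoeLat_Q_line] at h4
      have h5 := hQB δ R hδ
      have h6 := hQB (z + δ) (D + R) (fun w i => (norm_add_le _ _).trans
        (add_le_add (hD w i) (hδ w i)))
      have h7 := abs_le.1 h5
      have h8 := abs_le.1 h6
      nlinarith
    set P := B * (D + R) ^ 2 - q + B * R ^ 2
    set S := B * R ^ 2
    have hS : 0 ≤ S := by positivity
    have hP : 0 ≤ P := by
      have : 0 ≤ B * (D + R) ^ 2 := by positivity
      simp only [P]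
      linarith
    -- take a large multiple
    have hr := key ((P + S + 1) / (-q) + 1) (by
      have : 0 ≤ (P + S + 1) / (-q) := div_nonneg (by linarith) (by linarith)
      linarith)
    set r := (P + S + 1) / (-q) + 1
    have hr1 : 1 ≤ r := by
      have : 0 ≤ (P + S + 1) / (-q) := div_nonneg (by linarith) (by linarith)
      simp only [r]; linarith
    have hq' : (-q) * (r - 1) = P + S + 1 := by
      simp only [r]
      rw [add_sub_cancel_right, mul_div_cancel₀ _ (by linarith : (-q) ≠ 0)]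
    nlinarith
  refine lt_of_le_of_ne (hnn z hz) fun hq0 => ?_
  have hq0 : KoeLat_Q h z = 0 := hq0.symm
  -- the radical
  have hrad : ∀ (r : ℝ) (z' : InfinitePlace F → Fin 2 → ℂ),
      (∀ w, w.IsReal → ∀ i, (z' w i).im = 0) → KoeLat_Q h ((r : ℂ) • z + z') = KoeLat_Q h z' := by
    intro r z' hz'
    have h1 : ∀ s : ℝ, 0 ≤ s * (KoeLat_Q h (z + z') - KoeLat_Q h z - KoeLat_Q h z') +
        KoeLat_Q h z' := by
      intro s
      have := hnn ((s : ℂ) • z + z') (by
        intro w hw i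
        simp [hz w hw i, hz' w hw i])
      rw [KoeLat_Q_line, hq0] at this
      rw [hq0]
      linarith
    have h2 : KoeLat_Q h (z + z') - KoeLat_Q h z - KoeLat_Q h z' = 0 := by
      by_contra hne
      set β := KoeLat_Q h (z + z') - KoeLat_Q h z - KoeLat_Q h z'
      have h3 := h1 (-(KoeLat_Q h z' + 1) / β)
      rw [div_mul_cancel₀ _ hne] at h3
      linarith
    rw [KoeLat_Q_line, h2, hq0]
    ring
  -- approximations of the multiples
  have hx : ∀ t : ℕ, ∃ x ∈ Lat g, ∀ w i, ‖((t : ℂ) • z) w i - w.embedding (x i)‖ ≤ R := by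
    intro t
    exact hR _ (by
      intro w hw i
      simp [hz w hw i])
  choose x hx1 hx2 using hx
  let δ : ℕ → InfinitePlace F → Fin 2 → ℂ := fun t => KoeLat_emb (x t) - (t : ℂ) • z
  have hδ : ∀ t, δ t ∈ Metric.closedBall (0 : InfinitePlace F → Fin 2 → ℂ) R := by
    intro t
    rw [mem_closedBall_zero_iff, pi_norm_le_iff_of_nonneg hR0]
    intro w
    rw [pi_norm_le_iff_of_nonneg hR0]
    intro i
    have := hx2 t w i
    rw [← norm_neg] at this
    have h2 : -(((t : ℂ) • z) w i - w.embedding (x t i)) = δ t w i := by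
      simp only [δ, KoeLat_emb, Pi.sub_apply]; ring
    rwa [h2] at this
  obtain ⟨d, -, φ, hφ, hlim⟩ := (isCompact_closedBall (0 : InfinitePlace F → Fin 2 → ℂ) R).tendsto_subseq hδ
  have hzn : 0 < ‖z‖ := norm_pos_iff.2 hz0
  obtain ⟨η, hη0, hη1, hη2⟩ : ∃ η : ℝ, 0 < η ∧ η < ‖z‖ ∧ B * η ^ 2 < 1 := by
    refine ⟨min (‖z‖ / 2) (1 / (B + 2)), lt_min (by linarith) (by positivity),
      (min_le_left _ _).trans_lt (by linarith), ?_⟩
    have h1 : min (‖z‖ / 2) (1 / (B + 2)) ≤ 1 / (B + 2) := min_le_right _ _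
    have h2 : 0 < min (‖z‖ / 2) (1 / (B + 2)) := lt_min (by linarith) (by positivity)
    have h3 : (min (‖z‖ / 2) (1 / (B + 2))) ^ 2 ≤ (1 / (B + 2)) ^ 2 :=
      pow_le_pow_left₀ h2.le h1 2
    calc B * (min (‖z‖ / 2) (1 / (B + 2))) ^ 2 ≤ B * (1 / (B + 2)) ^ 2 :=
          mul_le_mul_of_nonneg_left h3 hB
      _ < 1 := by
          rw [div_pow, one_pow, mul_one_div, div_lt_one (by positivity)]
          nlinarith
  have hc := hlim.cauchySeq
  rw [Metric.cauchySeq_iff] at hc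
  obtain ⟨n, hn⟩ := hc η hη0
  have hdist := hn (n + 1) (by omega) n le_rfl
  simp only [Function.comp_apply, dist_eq_norm] at hdist
  set s := φ n
  set t := φ (n + 1)
  have hst : s < t := hφ (Nat.lt_succ_self n)
  have hsub : x t - x s ∈ Lat g := (Lat g).sub_mem (hx1 t) (hx1 s)
  have hemb : KoeLat_emb (x t - x s) = ((((t : ℝ) - s : ℝ)) : ℂ) • z + (δ t - δ s) := by
    funext w i
    have h1 : w.embedding ((x t - x s) i) = w.embedding (x t i) - w.embedding (x s i) :=
      map_sub w.embedding (x t i) (x s i)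
    simp only [KoeLat_emb, δ, Pi.add_apply, Pi.sub_apply, Pi.smul_apply, smul_eq_mul, h1]
    push_cast
    ring
  have hδr : ∀ w, w.IsReal → ∀ i, ((δ t - δ s) w i).im = 0 := by
    intro w hw i
    simp only [δ, Pi.sub_apply, Pi.smul_apply, smul_eq_mul, Complex.sub_im, Complex.mul_im,
      KoeLat_emb_real _ w hw, hz w hw i]
    simp
  have hQ : qf (x t - x s) h = KoeLat_Q h (δ t - δ s) := by
    rw [← KoeLat_Q_emb, hemb, hrad _ _ hδr]
  have hne : x t - x s ≠ 0 := by
    intro h0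
    rw [h0] at hemb
    have h1 : KoeLat_emb (0 : Vec F) = 0 := by
      funext w i
      exact map_zero w.embedding
    rw [h1] at hemb
    have h2 : ((((t : ℝ) - s : ℝ)) : ℂ) • z = -(δ t - δ s) := by
      rw [eq_neg_iff_add_eq_zero]; exact hemb.symm
    have h3 := congrArg norm h2
    rw [norm_smul, norm_neg, Complex.norm_real, Real.norm_eq_abs] at h3
    have h4 : (1 : ℝ) ≤ |(t : ℝ) - s| := by
      rw [abs_of_nonneg (by
        have : (s : ℝ) < t := by exact_mod_cast hst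
        linarith)]
      have : (s : ℝ) + 1 ≤ t := by exact_mod_cast hst
      linarith
    nlinarith
  have h1 := hh _ hsub hne
  rw [hQ] at h1
  have h2 := hQB (δ t - δ s) η (fun w i => ((norm_le_pi_norm ((δ t - δ s) w) i).trans
    (norm_le_pi_norm (δ t - δ s) w)).trans hdist.le)
  have h3 := abs_le.1 h2
  linarith

theorem KoeLat_Hh_real (t : ℝ × ℝ × ℂ) (ht : t.2.2.im = 0) (a b : ℂ) :
    Hh t a b = Hh t a.re b.re + Hh t a.im b.im := by
  simp only [Hh, Complex.sq_norm, Complex.normSq_apply, Complex.mul_re, Complex.mul_im,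
    Complex.ofReal_re, Complex.ofReal_im, Complex.conj_re, Complex.conj_im, ht]
  ring

/-- A family of forms which is at least `1` on the non-zero vectors of a lattice is positive
definite. -/
theorem pd_of_lat (g : GA F) (h : VR F) (hh : ∀ x ∈ Lat g, x ≠ 0 → 1 ≤ qf x h) : PD h := by
  classical
  -- vectors which are supported at one place
  have key : ∀ (w : InfinitePlace F) (a b : ℂ), (w.IsReal → a.im = 0 ∧ b.im = 0) →
      (a ≠ 0 ∨ b ≠ 0) → 0 < Hh (h.1 w) a b := by
    intro w a b hr hab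
    let z : InfinitePlace F → Fin 2 → ℂ := Pi.single w ![a, b]
    have hz : ∀ w', w'.IsReal → ∀ i, (z w' i).im = 0 := by
      intro w' hw' i
      by_cases hww : w' = w
      · subst hww
        simp only [z, Pi.single_eq_same]
        fin_cases i
        · exact (hr hw').1
        · exact (hr hw').2
      · simp only [z, Pi.single_eq_of_ne hww]
        simp
    have hz0 : z ≠ 0 := by
      intro h0
      have h1 : z w = ![a, b] := Pi.single_eq_same _ _
      rw [h0] at h1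
      rcases hab with hab | hab
      · exact hab (congrFun h1 0).symm
      · exact hab (congrFun h1 1).symm
    have h1 := KoeLat_Q_pos g h hh z hz hz0
    have h2 : KoeLat_Q h z = Hh (h.1 w) a b := by
      rw [KoeLat_Q, Finset.sum_eq_single w]
      · have h3 : z w = ![a, b] := Pi.single_eq_same _ _
        rw [h3]
        rfl
      · intro w' _ hw'
        have h3 : z w' = 0 := Pi.single_eq_of_ne hw' _
        rw [h3]
        simp [Hh]
      · intro h3
        exact absurd (Finset.mem_univ w) h3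
    rwa [h2] at h1
  intro w a b hab
  by_cases hw : w.IsReal
  · have h12 : (h.1 w).2.2.im = 0 := h.2 w hw
    rw [KoeLat_Hh_real _ h12]
    by_cases hre : (a.re : ℂ) ≠ 0 ∨ (b.re : ℂ) ≠ 0
    · have h1 := key w a.re b.re (fun _ => ⟨Complex.ofReal_im _, Complex.ofReal_im _⟩) hre
      by_cases him : (a.im : ℂ) ≠ 0 ∨ (b.im : ℂ) ≠ 0
      · have h2 := key w a.im b.im (fun _ => ⟨Complex.ofReal_im _, Complex.ofReal_im _⟩) him
        linarith
      · push Not at him
        rw [him.1, him.2]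
        have : Hh (h.1 w) 0 0 = 0 := by simp [Hh]
        linarith
    · push Not at hre
      have him : (a.im : ℂ) ≠ 0 ∨ (b.im : ℂ) ≠ 0 := by
        by_contra hcon
        push Not at hcon
        have ha : a = 0 := Complex.ext (by simpa using hre.1) (by simpa using hcon.1)
        have hb : b = 0 := Complex.ext (by simpa using hre.2) (by simpa using hcon.2)
        rcases hab with hab | hab
        · exact hab ha
        · exact hab hb
      have h2 := key w a.im b.im (fun _ => ⟨Complex.ofReal_im _, Complex.ofReal_im _⟩) him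
      rw [hre.1, hre.2]
      have : Hh (h.1 w) 0 0 = 0 := by simp [Hh]
      linarith
  · exact key w a b (fun h => absurd h hw) hab

/-- A non-zero integer is large at some place. -/
theorem KoeLat_one_le (a : 𝓞 F) (ha : a ≠ 0) : ∃ w : InfinitePlace F, 1 ≤ w (a : F) := by
  by_contra hcon
  push Not at hcon
  obtain ⟨w⟩ : Nonempty (InfinitePlace F) := inferInstance
  exact absurd (InfinitePlace.one_le_of_lt_one (w := w) ha fun z _ => hcon z) (not_le.2 (hcon w))

/-- There are families of forms which are large on a lattice. -/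
theorem exists_large (g : GA F) : ∃ h : VR F, PD h ∧ ∀ x ∈ Lat g, x ≠ 0 → 2 ≤ qf x h := by
  obtain ⟨N, hN, -, h2⟩ := Lat_bounds g
  have hN' : (0 : ℝ) < N := Nat.cast_pos.2 hN
  have hN0 : ((N : ℕ) : F) ≠ 0 := Nat.cast_ne_zero.2 hN.ne'
  let c : ℝ := 2 * (N : ℝ) ^ 2
  have hc : 0 < c := by positivity
  let h : VR F := ⟨fun _ => (c, c, 0), fun _ _ => rfl⟩
  have hval : ∀ w a b, Hh (h.1 w) a b = c * (‖a‖ ^ 2 + ‖b‖ ^ 2) := by
    intro w a b
    simp only [h, Hh]
    simp
    ring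
  refine ⟨h, ?_, ?_⟩
  · intro w a b hab
    rw [hval]
    refine mul_pos hc ?_
    rcases hab with hab | hab
    · have := norm_pos_iff.2 hab
      positivity
    · have := norm_pos_iff.2 hab
      positivity
  · intro x hx hx0
    -- a non-zero coordinate
    obtain ⟨i, hi⟩ : ∃ i, x i ≠ 0 := by
      by_contra hcon
      push Not at hcon
      exact hx0 (funext hcon)
    obtain ⟨a, ha⟩ := h2 x hx i
    have ha0 : a ≠ 0 := by
      intro h0
      have h1 : (a : F) = 0 := by rw [h0]; exact map_zero (algebraMap (𝓞 F) F)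
      exact mul_ne_zero hN0 hi (ha.trans h1)
    obtain ⟨w, hw⟩ := KoeLat_one_le a ha0
    have h3 : (N : ℝ) * ‖w.embedding (x i)‖ = w (a : F) := by
      rw [← ha, ← InfinitePlace.norm_embedding_eq, map_mul, map_natCast, norm_mul,
        Complex.norm_natCast]
    have h4 : 1 ≤ (N : ℝ) ^ 2 * ‖w.embedding (x i)‖ ^ 2 := by
      rw [← mul_pow, h3]
      exact one_le_pow₀ hw
    have h5 : 2 ≤ Hh (h.1 w) (w.embedding (x 0)) (w.embedding (x 1)) := by
      rw [hval]
      have h6 : ‖w.embedding (x i)‖ ^ 2 ≤ ‖w.embedding (x 0)‖ ^ 2 + ‖w.embedding (x 1)‖ ^ 2 := by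
        fin_cases i
        · have := sq_nonneg ‖w.embedding (x 1)‖
          simp only [Fin.zero_eta]
          linarith
        · have := sq_nonneg ‖w.embedding (x 0)‖
          simp only [Fin.mk_one]
          linarith
      have h7 : c * ‖w.embedding (x i)‖ ^ 2 ≤
          c * (‖w.embedding (x 0)‖ ^ 2 + ‖w.embedding (x 1)‖ ^ 2) :=
        mul_le_mul_of_nonneg_left h6 hc.le
      simp only [c] at h7 ⊢
      linarith
    rw [qf_apply]
    refine h5.trans (Finset.single_le_sum (f := fun w : InfinitePlace F =>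
      Hh (h.1 w) (w.embedding (x 0)) (w.embedding (x 1))) (fun w _ => ?_) (Finset.mem_univ w))
    show 0 ≤ Hh (h.1 w) (w.embedding (x 0)) (w.embedding (x 1))
    rw [hval]
    positivity

end Pool.Agent.CG2
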