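import Pool.Agent.CG2.PolyAsc

/-!
# A presentation of the Steinberg module
-/

noncomputable section

namespace Pool.Agent.CG2

open Pool.Agent.CG3

variable {E Λ k : Type} [DecidableEq E] [AddCommGroup k]

open Classical in
/-- The map from the functions on pairs to the functions on the lines. -/
def kap (line : E → Λ) (u : (Fin 2 → E) → k) (P : Λ) : k :=
  ∑ᶠ t : Fin 2 → E, if line (t 0) = P then u t else 0

/-- The faces which are not contained in a line. -/
def Sp (face : Finset E → Prop) (line : E → Λ) (R : Finset E) : Prop :=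
  face R ∧ ∃ a ∈ R, ∃ b ∈ R, line a ≠ line b

/-- The faces which are contained in the line `P`. -/
def InL (face : Finset E → Prop) (line : E → Λ) (P : Λ) (R : Finset E) : Prop :=
  face R ∧ ∀ a ∈ R, line a = P

/-- The hypotheses: exactness in low degrees, for all faces and for the faces in a line. -/
structure LowEx (face : Finset E → Prop) (line : E → Λ) (k : Type) [AddCommGroup k] : Prop where
  sub : ∀ R R' : Finset E, face R' → R ⊆ R' → face R
  ne : ∀ P : Λ, ∃ e, line e = P ∧ face {e}
  l1 : ∀ (P : Λ) (φ : (Fin 1 → E) → k), AltF (InL face line P) φ → dF φ = 0 →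
    ∃ ψ : (Fin 2 → E) → k, AltF (InL face line P) ψ ∧ dF ψ = φ
  a1 : ∀ φ : (Fin 1 → E) → k, AltF face φ → dF φ = 0 →
    ∃ ψ : (Fin 2 → E) → k, AltF face ψ ∧ dF ψ = φ
  a2 : ∀ φ : (Fin 2 → E) → k, AltF face φ → dF φ = 0 →
    ∃ ψ : (Fin 3 → E) → k, AltF face ψ ∧ dF ψ = φ

variable {face : Finset E → Prop} {line : E → Λ}

/-! ### Auxiliary lemmas -/

open Classical in
/-- The restriction of a function of tuples by a condition on the set of the entries. -/
def stPres_r (cond : Finset E → Prop) {m : ℕ} (φ : (Fin m → E) → k) (t : Fin m → E) : k :=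
  if cond (Sel.im t) then φ t else 0

theorem stPres_r_pos {cond : Finset E → Prop} {m : ℕ} (φ : (Fin m → E) → k) {t : Fin m → E}
    (h : cond (Sel.im t)) : stPres_r cond φ t = φ t := if_pos h

theorem stPres_r_neg {cond : Finset E → Prop} {m : ℕ} (φ : (Fin m → E) → k) {t : Fin m → E}
    (h : ¬ cond (Sel.im t)) : stPres_r cond φ t = 0 := if_neg h

theorem stPres_r_zero {cond : Finset E → Prop} {m : ℕ} {φ : (Fin m → E) → k} {t : Fin m → E}
    (h : φ t = 0) : stPres_r cond φ t = 0 := by
  rw [stPres_r, h, ite_self]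

theorem stPres_restr (cond : Finset E → Prop) {m : ℕ} {φ : (Fin m → E) → k}
    (h : AltF face φ) : AltF (fun R => face R ∧ cond R) (stPres_r cond φ) := by
  refine ⟨⟨fun t ht => ?_, fun t π => ?_⟩, ?_⟩
  · have h1 : cond (Sel.im t) := by
      by_contra hc
      exact ht (stPres_r_neg _ hc)
    have h2 : φ t ≠ 0 := fun h0 => ht (stPres_r_zero h0)
    exact ⟨(h.1.1 t h2).1, (h.1.1 t h2).2, h1⟩
  · rw [stPres_r, stPres_r, Sel.im_perm, h.1.2 t π]
    split_ifs <;> simp
  · exact h.2.subset fun t ht h0 => ht (stPres_r_zero h0)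

theorem stPres_mono {p q : Finset E → Prop} {m : ℕ} {φ : (Fin m → E) → k}
    (h : AltF p φ) (hpq : ∀ R, p R → q R) : AltF q φ :=
  ⟨⟨fun t ht => ⟨(h.1.1 t ht).1, hpq _ (h.1.1 t ht).2⟩, h.1.2⟩, h.2⟩

omit [DecidableEq E] in
theorem stPres_anti (F : Finset E) (f : E → E → k) (h : ∀ a b, f a b = - f b a)
    (h0 : ∀ a, f a a = 0) : ∑ a ∈ F, ∑ b ∈ F, f a b = 0 := by
  rw [← Finset.sum_product']
  refine Finset.sum_involution (fun a _ => (a.2, a.1)) ?_ ?_ ?_ ?_
  · rintro ⟨a, b⟩ _
    simp only
    rw [h a b, neg_add_cancel]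
  · rintro ⟨a, b⟩ _ hne h3
    simp only [Prod.mk.injEq] at h3
    simp only at hne
    rw [h3.1] at hne
    exact hne (h0 _)
  · rintro ⟨a, b⟩ hab
    simp only [Finset.mem_product] at hab ⊢
    exact ⟨hab.2, hab.1⟩
  · rintro ⟨a, b⟩ _
    rfl

omit [DecidableEq E] in
open Classical in
theorem stPres_kap {u : (Fin 2 → E) → k} {F : Finset E} (hF : ∀ t, u t ≠ 0 → ∀ i, t i ∈ F)
    (P : Λ) : kap line u P = ∑ a ∈ F, ∑ b ∈ F, if line a = P then u ![a, b] else 0 := by
  unfold kap
  rw [← finsum_comp_equiv (finTwoArrowEquiv E).symm]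
  rw [finsum_eq_sum_of_support_subset (s := F ×ˢ F)]
  · rw [Finset.sum_product]
    rfl
  · rintro ⟨a, b⟩ hab
    rw [Function.mem_support] at hab
    have h1 : u ![a, b] ≠ 0 := by
      intro h0
      apply hab
      have h3 : u ((finTwoArrowEquiv E).symm (a, b)) = 0 := h0
      rw [h3, ite_self]
    rw [Finset.coe_product]
    exact ⟨hF _ h1 0, hF _ h1 1⟩

omit [DecidableEq E] in
theorem stPres_dF {m : ℕ} {φ : (Fin (m + 1) → E) → k} {F : Finset E}
    (hF : ∀ t, φ t ≠ 0 → ∀ i, t i ∈ F) (t : Fin m → E) :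
    dF φ t = ∑ ρ ∈ F, φ (Fin.cons ρ t) := by
  apply finsum_eq_sum_of_support_subset
  intro ρ hρ
  have := hF _ hρ 0
  simpa using this

theorem stPres_swap2 {p : Finset E → Prop} {u : (Fin 2 → E) → k} (h : Sel.Altc p u) (a b : E) :
    u ![a, b] = - u ![b, a] :=
  polyAsc_swap h b a ![]

theorem stPres_diag2 {p : Finset E → Prop} {u : (Fin 2 → E) → k} (h : Sel.Altc p u) (a : E) :
    u ![a, a] = 0 := by
  by_contra h0
  have h1 := (h.1 _ h0).1
  have h2 : (0 : Fin 2) = 1 := h1 (by simp)
  exact absurd h2 (by decide)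

omit [DecidableEq E] in
theorem stPres_one (t : Fin 1 → E) : t = ![t 0] := by
  funext i
  have : i = 0 := Subsingleton.elim _ _
  rw [this]
  rfl

omit [DecidableEq E] in
theorem stPres_two (t : Fin 2 → E) : t = ![t 0, t 1] := by
  funext i
  fin_cases i <;> rfl

theorem stPres_im2 (a b x : E) : x ∈ Sel.im ![a, b] ↔ x = a ∨ x = b := by
  rw [Sel.mem_im]
  constructor
  · rintro ⟨i, rfl⟩
    fin_cases i
    · left; rfl
    · right; rfl
  · rintro (rfl | rfl)
    · exact ⟨0, rfl⟩
    · exact ⟨1, rfl⟩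

theorem kap_fin {u : (Fin 2 → E) → k} (hu : AltF (Sp face line) u) :
    (Function.support (kap line u)).Finite ∧ ∑ᶠ P : Λ, kap line u P = 0 := by
  classical
  obtain ⟨F, hF⟩ := polyAsc_bound hu.2
  have hsub : Function.support (kap line u) ⊆ ((F.image line : Finset Λ) : Set Λ) := by
    intro P hP
    rw [Function.mem_support, stPres_kap hF] at hP
    obtain ⟨a, ha, h1⟩ := Finset.exists_ne_zero_of_sum_ne_zero hP
    obtain ⟨b, _, h2⟩ := Finset.exists_ne_zero_of_sum_ne_zero h1
    have h3 : line a = P := by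
      by_contra h
      simp [h] at h2
    exact Finset.mem_coe.2 (Finset.mem_image.2 ⟨a, ha, h3⟩)
  refine ⟨(Finset.finite_toSet _).subset hsub, ?_⟩
  rw [finsum_eq_sum_of_support_subset _ hsub]
  have h1 : ∀ P ∈ F.image line, kap line u P =
      ∑ a ∈ F, ∑ b ∈ F, if line a = P then u ![a, b] else 0 := fun P _ => stPres_kap hF P
  rw [Finset.sum_congr rfl h1, Finset.sum_comm]
  have h2 : ∀ a ∈ F, (∑ P ∈ F.image line, ∑ b ∈ F, if line a = P then u ![a, b] else 0) =
      ∑ b ∈ F, u ![a, b] := by
    intro a ha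
    rw [Finset.sum_comm]
    refine Finset.sum_congr rfl fun b _ => ?_
    rw [Finset.sum_ite_eq]
    simp [Finset.mem_image_of_mem line ha]
  rw [Finset.sum_congr rfl h2]
  exact stPres_anti F _ (stPres_swap2 hu.1) (stPres_diag2 hu.1)

open Classical in
/-- The sum of the differential over a line. -/
theorem stPres_line {ψ : (Fin 2 → E) → k} (hψ : AltF face ψ) {F : Finset E}
    (hF : ∀ t, ψ t ≠ 0 → ∀ i, t i ∈ F) (P : Λ) {u : (Fin 2 → E) → k}
    (hu : ∀ a b, line a ≠ line b → u ![a, b] = ψ ![a, b])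
    (hu' : ∀ a b, line a = line b → u ![a, b] = 0) (hF' : ∀ t, u t ≠ 0 → ∀ i, t i ∈ F) :
    ∑ a ∈ F, (if line a = P then dF ψ ![a] else 0) = - kap line u P := by
  have h1 : ∀ a ∈ F, (if line a = P then dF ψ ![a] else 0) =
      ∑ b ∈ F, ((if line a = P ∧ line b = P then ψ ![b, a] else 0) +
        - (if line a = P then u ![a, b] else 0)) := by
    intro a _
    by_cases ha : line a = P
    · rw [if_pos ha, stPres_dF hF]
      refine Finset.sum_congr rfl fun b _ => ?_
      have hc : (Fin.cons b ![a] : Fin 2 → E) = ![b, a] := rfl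
      rw [hc, if_pos ha]
      by_cases hb : line b = P
      · rw [if_pos ⟨ha, hb⟩, hu' a b (ha.trans hb.symm), neg_zero, add_zero]
      · rw [if_neg (fun h => hb h.2), hu a b (fun h => hb (h.symm.trans ha)), zero_add,
          stPres_swap2 hψ.1 b a]
    · simp [ha]
  rw [Finset.sum_congr rfl h1]
  simp only [Finset.sum_add_distrib, Finset.sum_neg_distrib]
  rw [← stPres_kap hF' P, stPres_anti F, zero_add]
  · intro a b
    by_cases h : line a = P ∧ line b = P
    · rw [if_pos h, if_pos h.symm]
      exact stPres_swap2 hψ.1 _ _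
    · rw [if_neg h, if_neg (fun h' => h h'.symm), neg_zero]
  · intro a
    rw [stPres_diag2 hψ.1]
    simp

/-- Surjectivity. -/
theorem kap_surj (h : LowEx face line k) (s : Λ → k) (hs : (Function.support s).Finite)
    (h0 : ∑ᶠ P : Λ, s P = 0) : ∃ u : (Fin 2 → E) → k, AltF (Sp face line) u ∧
      kap line u = s := by
  classical
  choose e he hface using h.ne
  have heinj : Function.Injective e := fun P Q hPQ => by
    rw [← he P, ← he Q, hPQ]
  -- the function on the points
  let φ : (Fin 1 → E) → k := fun t => if t 0 = e (line (t 0)) then - s (line (t 0)) else 0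
  have hφ : AltF face φ := by
    refine ⟨⟨fun t ht => ?_, fun t π => ?_⟩, ?_⟩
    · have h1 : t 0 = e (line (t 0)) := by
        by_contra hc
        exact ht (if_neg hc)
      refine ⟨Function.injective_of_subsingleton t, ?_⟩
      have h2 : Sel.im t = {e (line (t 0))} := by
        ext x
        rw [Sel.mem_im, Finset.mem_singleton]
        constructor
        · rintro ⟨i, rfl⟩
          have : i = 0 := Subsingleton.elim _ _
          rw [this]
          exact h1
        · rintro rfl
          exact ⟨0, h1⟩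
      rw [h2]
      exact hface _
    · have h1 : π = 1 := Subsingleton.elim _ _
      rw [h1]
      simp
    · refine (hs.image (fun P => (![e P] : Fin 1 → E))).subset ?_
      intro t ht
      have h1 : t 0 = e (line (t 0)) := by
        by_contra hc
        exact ht (if_neg hc)
      refine ⟨line (t 0), ?_, ?_⟩
      · intro h2
        apply ht
        change (if t 0 = e (line (t 0)) then - s (line (t 0)) else 0) = 0
        rw [h2]
        simp
      · rw [stPres_one t]
        simp only
        change ![e (line (t 0))] = ![t 0]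
        rw [← h1]
  have hφe : ∀ P, φ ![e P] = - s P := by
    intro P
    change (if e P = e (line (e P)) then - s (line (e P)) else 0) = _
    rw [he P, if_pos rfl]
  have hφn : ∀ a, a ≠ e (line a) → φ ![a] = 0 := by
    intro a ha
    exact if_neg ha
  have hd : dF φ = 0 := by
    funext t
    rw [Pi.zero_apply]
    have h1 : dF φ t = ∑ᶠ ρ : E, φ ![ρ] := by
      unfold dF
      congr 1
    rw [h1]
    have h2 : ∀ ρ : E, φ ![ρ] = ∑ᶠ (_ : ρ ∈ Set.range e), φ ![ρ] := by
      intro ρ
      by_cases hρ : ρ ∈ Set.range e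
      · simp [hρ]
      · have h3 : φ ![ρ] = 0 := hφn ρ fun h4 => hρ ⟨_, h4.symm⟩
        simp [h3]
    rw [finsum_congr h2, finsum_mem_range heinj]
    simp only [hφe, finsum_neg_distrib, h0, neg_zero]
  obtain ⟨ψ, hψ, hdψ⟩ := h.a1 φ hφ hd
  let u : (Fin 2 → E) → k := stPres_r (fun R => ∃ a ∈ R, ∃ b ∈ R, line a ≠ line b) ψ
  have hu : AltF (Sp face line) u := stPres_restr _ hψ
  refine ⟨u, hu, ?_⟩
  obtain ⟨F, hF⟩ := polyAsc_bound hψ.2
  have hu1 : ∀ a b, line a ≠ line b → u ![a, b] = ψ ![a, b] := by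
    intro a b hab
    exact stPres_r_pos ψ
      ⟨a, (stPres_im2 _ _ _).2 (Or.inl rfl), b, (stPres_im2 _ _ _).2 (Or.inr rfl), hab⟩
  have hu2 : ∀ a b, line a = line b → u ![a, b] = 0 := by
    intro a b hab
    apply stPres_r_neg
    rintro ⟨x, hx, y, hy, hxy⟩
    rw [stPres_im2] at hx hy
    apply hxy
    rcases hx with rfl | rfl <;> rcases hy with rfl | rfl <;> simp [hab]
  have hF' : ∀ t, u t ≠ 0 → ∀ i, t i ∈ F := by
    intro t ht
    exact hF t fun h3 => ht (stPres_r_zero h3)
  funext P
  have h4 := stPres_line hψ hF P hu1 hu2 hF'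
  rw [hdψ] at h4
  have h5 : ∀ a ∈ F, (if line a = P then φ ![a] else 0) = if a = e P then - s P else 0 := by
    intro a _
    by_cases ha : line a = P
    · rw [if_pos ha]
      by_cases h6 : a = e P
      · rw [if_pos h6, h6, hφe]
      · rw [if_neg h6, hφn a (by rw [ha]; exact h6)]
    · rw [if_neg ha, if_neg]
      rintro rfl
      exact ha (he P)
  rw [Finset.sum_congr rfl h5, Finset.sum_ite_eq'] at h4
  by_cases h6 : e P ∈ F
  · rw [if_pos h6] at h4
    exact (neg_injective h4).symm
  · rw [if_neg h6] at h4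
    have h7 : s P = 0 := by
      by_contra hs0
      have h8 : dF ψ ![e P] ≠ 0 := by
        rw [hdψ, hφe]
        simpa using hs0
      obtain ⟨ρ, hρ⟩ := polyAsc_exists_ne h8
      exact h6 (hF _ hρ 1)
    rw [h7]
    have h9 : kap line u P = 0 := by
      have := neg_eq_zero.1 h4.symm
      exact this
    exact h9

/-- The kernel. -/
theorem kap_ker (h : LowEx face line k) {u : (Fin 2 → E) → k} (hu : AltF (Sp face line) u) :
    kap line u = 0 ↔ ∃ w : (Fin 3 → E) → k, AltF (Sp face line) w ∧
      ∀ t : Fin 2 → E, Sp face line (Sel.im t) → u t = dF w t := by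
  classical
  have huf : AltF face u := stPres_mono hu fun R hR => hR.1
  have hu0 : ∀ a b, line a = line b → u ![a, b] = 0 := by
    intro a b hab
    by_contra h0
    obtain ⟨x, hx, y, hy, hxy⟩ := (hu.1.1 _ h0).2.2
    rw [stPres_im2] at hx hy
    apply hxy
    rcases hx with rfl | rfl <;> rcases hy with rfl | rfl <;> simp [hab]
  obtain ⟨F₁, hF₁⟩ := polyAsc_bound hu.2
  constructor
  · intro hk
    -- the differential of `u`
    have hdu : AltF face (dF u) := dF_alt h.sub huf
    have hline : ∀ P, ∑ a ∈ F₁, (if line a = P then dF u ![a] else 0) = 0 := by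
      intro P
      rw [stPres_line huf hF₁ P (fun a b _ => rfl) hu0 hF₁, hk]
      simp
    have hdF1 : ∀ t : Fin 1 → E, dF u t ≠ 0 → ∀ i, t i ∈ F₁ := by
      intro t ht i
      obtain ⟨ρ, hρ⟩ := polyAsc_exists_ne ht
      exact hF₁ _ hρ i.succ
    have hex : ∀ P, ∃ ψ : (Fin 2 → E) → k, AltF (InL face line P) ψ ∧
        dF ψ = stPres_r (fun R => ∀ a ∈ R, line a = P) (dF u) := by
      intro P
      apply h.l1 P
      · exact stPres_restr _ hdu
      · funext t
        rw [stPres_dF (F := F₁), Pi.zero_apply]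
        · refine Eq.trans ?_ (hline P)
          refine Finset.sum_congr rfl fun a _ => ?_
          have h1 : (Fin.cons a t : Fin 1 → E) = ![a] := by
            funext i
            have : i = 0 := Subsingleton.elim (α := Fin 1) _ _
            rw [this]
            rfl
          rw [h1]
          have h2 : (∀ x ∈ Sel.im ![a], line x = P) ↔ line a = P := by
            constructor
            · intro h3
              exact h3 a (Sel.mem_im.2 ⟨0, rfl⟩)
            · intro h3 x hx
              obtain ⟨i, rfl⟩ := Sel.mem_im.1 hx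
              have : i = 0 := Subsingleton.elim _ _
              rw [this]
              exact h3
          by_cases h3 : line a = P
          · rw [if_pos h3]
            exact stPres_r_pos _ (h2.2 h3)
          · rw [if_neg h3]
            exact stPres_r_neg _ (fun h4 => h3 (h2.1 h4))
        · exact fun t ht => hdF1 t fun h0 => ht (stPres_r_zero h0)
    choose ψ hψ hdψ using hex
    let L : Finset Λ := F₁.image line
    let Ψ : (Fin 2 → E) → k := ∑ P ∈ L, ψ P
    have hΨ : ∀ L' : Finset Λ, AltF face (∑ P ∈ L', ψ P) ∧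
        dF (∑ P ∈ L', ψ P) = ∑ P ∈ L', dF (ψ P) := by
      intro L'
      induction L' using Finset.induction_on with
      | empty =>
        refine ⟨by simpa using AltF.zero, ?_⟩
        funext t
        simp [dF]
      | insert P L' hP ih =>
        rw [Finset.sum_insert hP, Finset.sum_insert hP]
        have h1 : AltF face (ψ P) := stPres_mono (hψ P) fun R hR => hR.1
        exact ⟨h1.add ih.1, by rw [polyAsc_dF_add h1.2 ih.1.2, ih.2]⟩
    have hdΨ : dF Ψ = dF u := by
      rw [(hΨ L).2]
      funext t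
      rw [Finset.sum_apply]
      have h1 : ∀ P ∈ L, dF (ψ P) t = if line (t 0) = P then dF u t else 0 := by
        intro P _
        rw [hdψ]
        have h2 : (∀ x ∈ Sel.im t, line x = P) ↔ line (t 0) = P := by
          constructor
          · intro h3
            exact h3 _ (Sel.mem_im.2 ⟨0, rfl⟩)
          · intro h3 x hx
            obtain ⟨i, rfl⟩ := Sel.mem_im.1 hx
            have : i = 0 := Subsingleton.elim _ _
            rw [this]
            exact h3
        by_cases h3 : line (t 0) = P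
        · rw [if_pos h3]
          exact stPres_r_pos _ (h2.2 h3)
        · rw [if_neg h3]
          exact stPres_r_neg _ (fun h4 => h3 (h2.1 h4))
      rw [Finset.sum_congr rfl h1, Finset.sum_ite_eq]
      split_ifs with h2
      · rfl
      · by_contra h3
        exact h2 (Finset.mem_image_of_mem _ (hdF1 t (fun h4 => h3 h4.symm) 0))
    have hsub : AltF face (u - Ψ) := huf.sub (hΨ L).1
    have hd0 : dF (u - Ψ) = 0 := by
      rw [polyAsc_dF_sub huf.2 (hΨ L).1.2, hdΨ, sub_self]
    obtain ⟨w, hw, hdw⟩ := h.a2 _ hsub hd0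
    let w' : (Fin 3 → E) → k := stPres_r (fun R => ∃ a ∈ R, ∃ b ∈ R, line a ≠ line b) w
    refine ⟨w', stPres_restr _ hw, ?_⟩
    rintro t ⟨ht, a, ha, b, hb, hab⟩
    have h1 : dF w' t = dF w t := by
      unfold dF
      refine finsum_congr fun ρ => ?_
      apply stPres_r_pos
      rw [Sel.im_cons]
      exact ⟨a, Finset.mem_insert_of_mem ha, b, Finset.mem_insert_of_mem hb, hab⟩
    rw [h1, hdw, Pi.sub_apply]
    have h2 : Ψ t = 0 := by
      change (∑ P ∈ L, ψ P) t = 0
      rw [Finset.sum_apply]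
      refine Finset.sum_eq_zero fun P _ => ?_
      by_contra h3
      have h4 := ((hψ P).1.1 t h3).2.2
      exact hab ((h4 a ha).trans (h4 b hb).symm)
    rw [h2, sub_zero]
  · rintro ⟨w, hw, huw⟩
    obtain ⟨F₂, hF₂⟩ := polyAsc_bound hw.2
    set F := F₁ ∪ F₂ with hFdef
    have hFu : ∀ t, u t ≠ 0 → ∀ i, t i ∈ F := fun t ht i =>
      Finset.mem_union_left _ (hF₁ t ht i)
    have hFw : ∀ t, w t ≠ 0 → ∀ i, t i ∈ F := fun t ht i =>
      Finset.mem_union_right _ (hF₂ t ht i)
    have h1 : ∀ a b, line a ≠ line b → u ![a, b] = ∑ ρ ∈ F, w ![ρ, a, b] := by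
      intro a b hab
      have hdw : dF w ![a, b] = ∑ ρ ∈ F, w ![ρ, a, b] := stPres_dF hFw ![a, b]
      rw [← hdw]
      by_cases hs : face (Sel.im ![a, b])
      · exact huw _ ⟨hs, a, (stPres_im2 _ _ _).2 (Or.inl rfl), b,
          (stPres_im2 _ _ _).2 (Or.inr rfl), hab⟩
      · have h2 : u ![a, b] = 0 := by
          by_contra h3
          exact hs (hu.1.1 _ h3).2.1
        have h3 : dF w ![a, b] = 0 := by
          by_contra h4
          obtain ⟨ρ, hρ⟩ := polyAsc_exists_ne h4
          have h5 := (hw.1.1 _ hρ).2.1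
          rw [Sel.im_cons] at h5
          exact hs (h.sub _ _ h5 (Finset.subset_insert _ _))
        rw [h2, h3]
    have hw12 : ∀ a b c, w ![a, b, c] = - w ![b, a, c] := fun a b c =>
      polyAsc_swap hw.1 b a ![c]
    have hw23 : ∀ a b c, w ![a, b, c] = - w ![a, c, b] := by
      intro a b c
      have h2 := hw.1.2 ![a, c, b] (Equiv.swap 1 2)
      rw [Equiv.Perm.sign_swap (by decide)] at h2
      simp only [Units.val_neg, Units.val_one, neg_smul, one_smul] at h2
      rw [← h2]
      congr 1
      funext i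
      fin_cases i <;> rfl
    have hw13 : ∀ a b c, w ![a, b, c] = - w ![c, b, a] := by
      intro a b c
      rw [hw12 a b c, hw23 b a c, hw12 b c a, neg_neg]
    have hwd12 : ∀ a c, w ![a, a, c] = 0 := by
      intro a c
      by_contra h0
      have h2 := (hw.1.1 _ h0).1
      have h3 : (0 : Fin 3) = 1 := h2 (by simp)
      exact absurd h3 (by decide)
    have hwd13 : ∀ a c, w ![a, c, a] = 0 := by
      intro a c
      by_contra h0
      have h2 := (hw.1.1 _ h0).1
      have h3 : (0 : Fin 3) = 2 := h2 (by simp)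
      exact absurd h3 (by decide)
    funext P
    rw [stPres_kap hFu, Pi.zero_apply]
    have h2 : ∀ a b, (if line a = P then u ![a, b] else 0) =
        ∑ ρ ∈ F, ((if line ρ = P ∧ line a = P ∧ line b ≠ P then w ![ρ, a, b] else 0) +
          (if line ρ ≠ P ∧ line a = P ∧ line b ≠ P then w ![ρ, a, b] else 0)) := by
      intro a b
      by_cases ha : line a = P
      · by_cases hb : line b = P
        · rw [if_pos ha, hu0 a b (ha.trans hb.symm)]
          simp [hb]
        · rw [if_pos ha, h1 a b (fun h3 => hb (h3.symm.trans ha))]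
          refine Finset.sum_congr rfl fun ρ _ => ?_
          by_cases hρ : line ρ = P
          · simp [ha, hb, hρ]
          · simp [ha, hb, hρ]
      · simp [ha]
    simp only [h2, Finset.sum_add_distrib]
    have hA : ∑ a ∈ F, ∑ b ∈ F, ∑ ρ ∈ F,
        (if line ρ = P ∧ line a = P ∧ line b ≠ P then w ![ρ, a, b] else 0) = 0 := by
      rw [Finset.sum_comm]
      refine Finset.sum_eq_zero fun b _ => ?_
      apply stPres_anti
      · intro a ρ
        by_cases h3 : line ρ = P ∧ line a = P ∧ line b ≠ P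
        · rw [if_pos h3, if_pos ⟨h3.2.1, h3.1, h3.2.2⟩]
          exact hw12 _ _ _
        · rw [if_neg h3, if_neg (fun h4 => h3 ⟨h4.2.1, h4.1, h4.2.2⟩), neg_zero]
      · intro a
        rw [hwd12, ite_self]
    have hB : ∑ a ∈ F, ∑ b ∈ F, ∑ ρ ∈ F,
        (if line ρ ≠ P ∧ line a = P ∧ line b ≠ P then w ![ρ, a, b] else 0) = 0 := by
      refine Finset.sum_eq_zero fun a _ => ?_
      apply stPres_anti
      · intro b ρ
        by_cases h3 : line ρ ≠ P ∧ line a = P ∧ line b ≠ P
        · rw [if_pos h3, if_pos ⟨h3.2.2, h3.2.1, h3.1⟩]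
          exact hw13 _ _ _
        · rw [if_neg h3, if_neg (fun h4 => h3 ⟨h4.2.2, h4.2.1, h4.1⟩), neg_zero]
      · intro b
        rw [hwd13, ite_self]
    rw [hA, hB, add_zero]

end Pool.Agent.CG2
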