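import Pool.Agent.CG2.KoeAct
import Pool.Agent.CG2.PolyAsc
import Pool.Agent.CG2.StPres
import Pool.Agent.CG2.StLem

/-!
# The faces of the Koecher polyhedron in a line
-/

noncomputable section

namespace Pool.Agent.CG2

open NumberField IsDedekindDomain Matrix Pool.Agent.CG3

variable {F : Type} [Field F] [NumberField F]

variable (N : ℕ) (hN : 3 ≤ N) (C : Cls F N → ℝ) (hC : GoodC N C)

/-- The functional `t ↦ ∑ t_w |x|_w²` on the families of the forms of rank one. -/
def qL (x : Vec F) : (InfinitePlace F → ℝ) →L[ℝ] ℝ :=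
  ∑ w : InfinitePlace F, (w (x 0) ^ 2 + w (x 1) ^ 2) •
    (ContinuousLinearMap.proj w : (InfinitePlace F → ℝ) →L[ℝ] ℝ)

theorem KoeLine_qL (x : Vec F) (t : InfinitePlace F → ℝ) :
    qL x t = ∑ w : InfinitePlace F, (w (x 0) ^ 2 + w (x 1) ^ 2) * t w := by
  rw [qL, _root_.sum_apply]
  rfl

/-- The squared length of a vector at a place. -/
def KoeLine_nE (e : Vec F) (w : InfinitePlace F) : ℝ := w (e 0) ^ 2 + w (e 1) ^ 2

omit [NumberField F] in
theorem KoeLine_nE_pos {e : Vec F} (he : e ≠ 0) (w : InfinitePlace F) : 0 < KoeLine_nE e w := by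
  by_cases h0 : e 0 = 0
  · have h1 : e 1 ≠ 0 := by
      intro h1
      apply he
      funext i
      fin_cases i
      · exact h0
      · exact h1
    have := (InfinitePlace.pos_iff (w := w)).2 h1
    unfold KoeLine_nE
    positivity
  · have := (InfinitePlace.pos_iff (w := w)).2 h0
    unfold KoeLine_nE
    positivity

omit [NumberField F] in
theorem KoeLine_nE_smul (c : F) (e : Vec F) (w : InfinitePlace F) : KoeLine_nE (c • e) w = w c ^ 2 * KoeLine_nE e w := by
  have h1 : ∀ i, (c • e) i = c * e i := fun i => rfl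
  rw [KoeLine_nE, KoeLine_nE, h1, h1, map_mul, map_mul]
  ring

theorem qL_eq (x : Vec F) (t : InfinitePlace F → ℝ) :
    qL x t = ∑ w : InfinitePlace F, KoeLine_nE x w * t w := KoeLine_qL x t

theorem KoeLine_smul {e x : Vec F} (he : e ≠ 0) (hx : x ≠ 0) (h : ln x = ln e) :
    ∃ c : F, c ≠ 0 ∧ x = c • e := by
  have h1 := (ln_eq_iff hx he).1 h
  obtain ⟨c, hc⟩ : ∃ c : F, x = c • e := by
    by_cases h0 : e 0 = 0
    · have h2 : e 1 ≠ 0 := by
        intro h2
        apply he
        funext i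
        fin_cases i
        · exact h0
        · exact h2
      refine ⟨x 1 / e 1, ?_⟩
      funext i
      fin_cases i
      · change x 0 = x 1 / e 1 * e 0
        rw [h0, mul_zero] at h1 ⊢
        rw [sub_zero] at h1
        exact (mul_eq_zero.1 h1).resolve_right h2
      · change x 1 = x 1 / e 1 * e 1
        rw [div_mul_cancel₀ _ h2]
    · refine ⟨x 0 / e 0, ?_⟩
      funext i
      fin_cases i
      · change x 0 = x 0 / e 0 * e 0
        rw [div_mul_cancel₀ _ h0]
      · change x 1 = x 0 / e 0 * e 1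
        field_simp
        linear_combination -h1
  refine ⟨c, ?_, hc⟩
  rintro rfl
  apply hx
  rw [hc, zero_smul]

/-- Restriction of a family of forms to a line. -/
def KoeLine_S (e : Vec F) : VR F →ₗ[ℝ] (InfinitePlace F → ℝ) where
  toFun h := fun w => Hh (h.1 w) (w.embedding (e 0)) (w.embedding (e 1)) / KoeLine_nE e w
  map_add' a b := by
    funext w
    change Hh (a.1 w + b.1 w) _ _ / _ = Hh (a.1 w) _ _ / _ + Hh (b.1 w) _ _ / _
    rw [← add_div, Hh, Hh, Hh]
    simp only [Prod.fst_add, Prod.snd_add, add_mul, Complex.add_re]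
    ring
  map_smul' c a := by
    funext w
    change Hh (c • a.1 w) _ _ / _ = c * (Hh (a.1 w) _ _ / _)
    rw [Hh, Hh]
    simp only [Prod.smul_fst, Prod.smul_snd, smul_eq_mul, Complex.real_smul, mul_assoc,
      Complex.re_ofReal_mul]
    ring

theorem KoeLine_qf {e x : Vec F} (he : e ≠ 0) (hx : x ≠ 0) (h : ln x = ln e) (k : VR F) :
    qf x k = qL x (KoeLine_S e k) := by
  obtain ⟨c, hc, rfl⟩ := KoeLine_smul he hx h
  rw [qf_apply, qL_eq]
  refine Finset.sum_congr rfl fun w _ => ?_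
  have h1 : ∀ i, (c • e) i = c * e i := fun i => rfl
  rw [h1, h1, map_mul, map_mul, KoePos_smul, KoeLine_nE_smul, InfinitePlace.norm_embedding_eq]
  change _ = w c ^ 2 * KoeLine_nE e w * (Hh (k.1 w) _ _ / KoeLine_nE e w)
  have h2 := (KoeLine_nE_pos he w).ne'
  field_simp

/-- The family of forms of rank one attached to weights. -/
def KoeLine_A (e : Vec F) (t : InfinitePlace F → ℝ) : VR F :=
  ⟨fun w => (t w / KoeLine_nE e w * ‖w.embedding (e 0)‖ ^ 2, t w / KoeLine_nE e w * ‖w.embedding (e 1)‖ ^ 2,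
    ((t w / KoeLine_nE e w : ℝ) : ℂ) * ((starRingEnd ℂ) (w.embedding (e 0)) * w.embedding (e 1))), by
      intro w hw
      have h1 : ∀ x : F, (w.embedding x).im = 0 := by
        intro x
        have h2 := InfinitePlace.embedding_of_isReal_apply hw x
        rw [← h2, Complex.ofReal_im]
      simp [Complex.mul_im, h1]⟩

theorem KoeLine_A_apply (e : Vec F) (t : InfinitePlace F → ℝ) (w : InfinitePlace F) (a b : ℂ) :
    Hh ((KoeLine_A e t).1 w) a b = t w / KoeLine_nE e w *
      ‖a * (starRingEnd ℂ) (w.embedding (e 0)) + b * (starRingEnd ℂ) (w.embedding (e 1))‖ ^ 2 := by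
  rw [KoePos_Hh, KoeLine_A]
  simp only [Complex.sq_norm, Complex.normSq_apply, Complex.add_re, Complex.add_im,
    Complex.mul_re, Complex.mul_im, Complex.conj_re, Complex.conj_im, Complex.ofReal_re,
    Complex.ofReal_im]
  ring

/-- The family of forms of rank one plus a multiple of the determinant. -/
def KoeLine_H (e : Vec F) (t : InfinitePlace F → ℝ) (s : ℝ) : VR F :=
  KoeLine_A e t + s • KoePos_form e

theorem KoeLine_H_apply (e : Vec F) (t : InfinitePlace F → ℝ) (s : ℝ) (w : InfinitePlace F)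
    (a b : ℂ) : Hh ((KoeLine_H e t s).1 w) a b = t w / KoeLine_nE e w *
      ‖a * (starRingEnd ℂ) (w.embedding (e 0)) + b * (starRingEnd ℂ) (w.embedding (e 1))‖ ^ 2 +
      s * ‖a * w.embedding (e 1) - b * w.embedding (e 0)‖ ^ 2 := by
  rw [← KoeLine_A_apply, ← KoePos_form_apply]
  change Hh ((KoeLine_A e t).1 w + s • (KoePos_form e).1 w) a b = _
  rw [Hh, Hh, Hh]
  simp only [Prod.fst_add, Prod.snd_add, Prod.smul_fst, Prod.smul_snd, smul_eq_mul, add_mul,
    Complex.add_re, Complex.real_smul, mul_assoc, Complex.re_ofReal_mul]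
  ring

theorem KoeLine_H_qf (e : Vec F) (t : InfinitePlace F → ℝ) (s : ℝ) (x : Vec F) :
    qf x (KoeLine_H e t s) = qf x (KoeLine_A e t) + s * qf x (KoePos_form e) := by
  rw [KoeLine_H, map_add, map_smul, smul_eq_mul]

theorem KoeLine_H_line {e x : Vec F} (he : e ≠ 0) (hx : x ≠ 0) (h : ln x = ln e)
    (t : InfinitePlace F → ℝ) (s : ℝ) : qf x (KoeLine_H e t s) = qL x t := by
  obtain ⟨c, hc, rfl⟩ := KoeLine_smul he hx h
  rw [qf_apply, qL_eq]
  refine Finset.sum_congr rfl fun w _ => ?_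
  have h1 : ∀ i, (c • e) i = c * e i := fun i => rfl
  rw [h1, h1, map_mul, map_mul, KoePos_smul, KoeLine_nE_smul, KoeLine_H_apply,
    InfinitePlace.norm_embedding_eq]
  have h2 := (KoeLine_nE_pos he w).ne'
  have h3 : w.embedding (e 0) * w.embedding (e 1) - w.embedding (e 1) * w.embedding (e 0) = 0 := by
    ring
  have h4 : w.embedding (e 0) * (starRingEnd ℂ) (w.embedding (e 0)) +
      w.embedding (e 1) * (starRingEnd ℂ) (w.embedding (e 1)) = ((KoeLine_nE e w : ℝ) : ℂ) := by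
    rw [Complex.mul_conj, Complex.mul_conj, Complex.normSq_eq_norm_sq, Complex.normSq_eq_norm_sq,
      InfinitePlace.norm_embedding_eq, InfinitePlace.norm_embedding_eq, KoeLine_nE]
    push_cast
    ring
  rw [h3, h4, norm_zero, Complex.norm_real, Real.norm_eq_abs, sq_abs]
  field_simp
  ring

theorem KoeLine_H_pd {e : Vec F} (he : e ≠ 0) {t : InfinitePlace F → ℝ} (ht : ∀ w, 0 < t w) :
    PD (KoeLine_H e t 1) := by
  intro w a b hab
  rw [KoeLine_H_apply]
  have h1 := KoeLine_nE_pos he w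
  have h2 : 0 < t w / KoeLine_nE e w := div_pos (ht w) h1
  by_contra hcon
  push Not at hcon
  have h3 : 0 ≤ t w / KoeLine_nE e w * ‖a * (starRingEnd ℂ) (w.embedding (e 0)) +
      b * (starRingEnd ℂ) (w.embedding (e 1))‖ ^ 2 := by positivity
  have h4 : 0 ≤ 1 * ‖a * w.embedding (e 1) - b * w.embedding (e 0)‖ ^ 2 := by positivity
  have h5 : ‖a * (starRingEnd ℂ) (w.embedding (e 0)) +
      b * (starRingEnd ℂ) (w.embedding (e 1))‖ ^ 2 = 0 := by
    have : t w / KoeLine_nE e w * ‖a * (starRingEnd ℂ) (w.embedding (e 0)) +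
      b * (starRingEnd ℂ) (w.embedding (e 1))‖ ^ 2 = 0 := by linarith
    exact (mul_eq_zero.1 this).resolve_left h2.ne'
  have h6 : ‖a * w.embedding (e 1) - b * w.embedding (e 0)‖ ^ 2 = 0 := by linarith
  have h7 := norm_eq_zero.1 (pow_eq_zero_iff two_ne_zero |>.1 h5)
  have h8 := norm_eq_zero.1 (pow_eq_zero_iff two_ne_zero |>.1 h6)
  have h9 : w.embedding (e 0) * (starRingEnd ℂ) (w.embedding (e 0)) +
      w.embedding (e 1) * (starRingEnd ℂ) (w.embedding (e 1)) = ((KoeLine_nE e w : ℝ) : ℂ) := by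
    rw [Complex.mul_conj, Complex.mul_conj, Complex.normSq_eq_norm_sq, Complex.normSq_eq_norm_sq,
      InfinitePlace.norm_embedding_eq, InfinitePlace.norm_embedding_eq, KoeLine_nE]
    push_cast
    ring
  have h10 : ((KoeLine_nE e w : ℝ) : ℂ) ≠ 0 := by exact_mod_cast h1.ne'
  have ha : a * ((KoeLine_nE e w : ℝ) : ℂ) = 0 := by
    rw [← h9]
    linear_combination w.embedding (e 0) * h7 + (starRingEnd ℂ) (w.embedding (e 1)) * h8
  have hb : b * ((KoeLine_nE e w : ℝ) : ℂ) = 0 := by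
    rw [← h9]
    linear_combination w.embedding (e 1) * h7 - (starRingEnd ℂ) (w.embedding (e 0)) * h8
  rcases hab with h | h
  · exact h ((mul_eq_zero.1 ha).resolve_right h10)
  · exact h ((mul_eq_zero.1 hb).resolve_right h10)

/-- Weights which are at least `1` on the lattice vectors in a line are positive. -/
theorem KoeLine_pos (g : GA F) {e : Vec F} (he : e ≠ 0) {t : InfinitePlace F → ℝ}
    (ht : ∀ x ∈ Lat g, x ≠ 0 → ln x = ln e → 1 ≤ qL x t) (w : InfinitePlace F) : 0 < t w := by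
  classical
  obtain ⟨N₀, hN₀, hL, -⟩ := Lat_bounds g
  obtain ⟨N₁, hN₁, -, hL1⟩ := Lat_bounds (1 : GA F)
  obtain ⟨b, hb⟩ := IsLocalization.exist_integer_multiples_of_finset
    (nonZeroDivisors (𝓞 F)) ({e 0, e 1} : Finset F)
  obtain ⟨u0, hu0⟩ := hb (e 0) (by simp)
  obtain ⟨u1, hu1⟩ := hb (e 1) (by simp)
  have hb0 : ((b : 𝓞 F) : F) ≠ 0 := by
    have := nonZeroDivisors.coe_ne_zero b
    exact_mod_cast this
  have hu0' : (u0 : F) = (b : 𝓞 F) * e 0 := by
    have h1 : algebraMap (𝓞 F) F u0 = (b : 𝓞 F) • e 0 := hu0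
    rw [Algebra.smul_def] at h1
    exact h1
  have hu1' : (u1 : F) = (b : 𝓞 F) * e 1 := by
    have h1 : algebraMap (𝓞 F) F u1 = (b : 𝓞 F) • e 1 := hu1
    rw [Algebra.smul_def] at h1
    exact h1
  set m : F := ((N₀ : ℕ) : F) * ((b : 𝓞 F) : F) * ((N₁ : ℕ) : F) with hm
  have hN₀' : ((N₀ : ℕ) : F) ≠ 0 := by exact_mod_cast hN₀.ne'
  have hN₁' : ((N₁ : ℕ) : F) ≠ 0 := by exact_mod_cast hN₁.ne'
  have hm0 : m ≠ 0 := mul_ne_zero (mul_ne_zero hN₀' hb0) hN₁'
  let h' : VR F := ⟨fun w => (w m ^ 2 * KoeLine_nE e w * t w, w m ^ 2 * KoeLine_nE e w * t w, 0), by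
    intro w _
    simp⟩
  have key : ∀ c : F, (∃ a : 𝓞 F, ((N₁ : ℕ) : F) * c = a) → c ≠ 0 →
      1 ≤ ∑ w : InfinitePlace F, w c ^ 2 * (w m ^ 2 * KoeLine_nE e w * t w) := by
    rintro c ⟨a, ha⟩ hc
    have h1 : (m * c) • e ∈ Lat g := by
      have h2 := hL (a * u0) (a * u1)
      have h3 : (m * c) • e = ((fun i => ((N₀ : ℕ) : F) * (![a * u0, a * u1] i : 𝓞 F)) : Vec F) := by
        funext i
        fin_cases i
        · change m * c * e 0 = ((N₀ : ℕ) : F) * ((a * u0 : 𝓞 F) : F)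
          push_cast
          rw [hm]
          linear_combination (((N₀ : ℕ) : F) * ((b : 𝓞 F) : F) * e 0) * ha -
            (((N₀ : ℕ) : F) * ((a : 𝓞 F) : F)) * hu0'
        · change m * c * e 1 = ((N₀ : ℕ) : F) * ((a * u1 : 𝓞 F) : F)
          push_cast
          rw [hm]
          linear_combination (((N₀ : ℕ) : F) * ((b : 𝓞 F) : F) * e 1) * ha -
            (((N₀ : ℕ) : F) * ((a : 𝓞 F) : F)) * hu1'
      rw [h3]
      exact h2
    have h4 : (m * c) • e ≠ 0 := by
      intro h5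
      have h6 := smul_eq_zero.1 h5
      rcases h6 with h6 | h6
      · exact mul_ne_zero hm0 hc h6
      · exact he h6
    have h7 : ln ((m * c) • e) = ln e := by
      rw [ln_eq_iff h4 he]
      change m * c * e 0 * e 1 - m * c * e 1 * e 0 = 0
      ring
    have h8 := ht _ h1 h4 h7
    rw [qL_eq] at h8
    refine h8.trans (le_of_eq ?_)
    refine Finset.sum_congr rfl fun w _ => ?_
    rw [KoeLine_nE_smul, map_mul]
    ring
  have hpd : PD h' := by
    apply pd_of_lat (1 : GA F)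
    intro x hx hx0
    have h1 : qf x h' = ∑ w : InfinitePlace F, w (x 0) ^ 2 * (w m ^ 2 * KoeLine_nE e w * t w) +
        ∑ w : InfinitePlace F, w (x 1) ^ 2 * (w m ^ 2 * KoeLine_nE e w * t w) := by
      rw [qf_apply, ← Finset.sum_add_distrib]
      refine Finset.sum_congr rfl fun w _ => ?_
      change (w m ^ 2 * KoeLine_nE e w * t w) * ‖w.embedding (x 0)‖ ^ 2 +
        (w m ^ 2 * KoeLine_nE e w * t w) * ‖w.embedding (x 1)‖ ^ 2 +
        2 * ((0 : ℂ) * w.embedding (x 0) * (starRingEnd ℂ) (w.embedding (x 1))).re = _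
      rw [InfinitePlace.norm_embedding_eq, InfinitePlace.norm_embedding_eq]
      simp
      ring
    have h2 : ∀ i, x i = 0 ∨ 1 ≤ ∑ w : InfinitePlace F, w (x i) ^ 2 *
        (w m ^ 2 * KoeLine_nE e w * t w) := by
      intro i
      by_cases hi : x i = 0
      · exact Or.inl hi
      · exact Or.inr (key (x i) (hL1 x hx i) hi)
    have h3 : ∀ i, x i = 0 → ∑ w : InfinitePlace F, w (x i) ^ 2 *
        (w m ^ 2 * KoeLine_nE e w * t w) = 0 := by
      intro i hi
      apply Finset.sum_eq_zero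
      intro w _
      rw [hi, map_zero]
      ring
    rw [h1]
    rcases h2 0 with h4 | h4
    · rcases h2 1 with h5 | h5
      · exfalso
        apply hx0
        funext i
        fin_cases i
        · exact h4
        · exact h5
      · rw [h3 0 h4]
        linarith
    · rcases h2 1 with h5 | h5
      · rw [h3 1 h5]
        linarith
      · linarith
  have h1 := (KoePos_crit (hpd w)).1
  change 0 < w m ^ 2 * KoeLine_nE e w * t w at h1
  have h2 := KoeLine_nE_pos he w
  have h3 := (InfinitePlace.pos_iff (w := w)).2 hm0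
  exact (mul_pos_iff_of_pos_left (by positivity)).1 h1

/-- Extension of weights on a line to a family of forms. -/
theorem KoeLine_ext (g : GA F) {e : Vec F} (he : e ≠ 0) {t : InfinitePlace F → ℝ}
    (ht : ∀ x ∈ Lat g, x ≠ 0 → ln x = ln e → 1 ≤ qL x t) :
    ∃ h : VR F, (∀ x, x ≠ 0 → ln x = ln e → qf x h = qL x t) ∧
      ∀ x ∈ Lat g, x ≠ 0 → ln x ≠ ln e → 9 / 8 ≤ qf x h := by
  have hpos := KoeLine_pos g he ht
  have hpd := KoeLine_H_pd he hpos
  obtain ⟨ε, U, hε, hU, hlow⟩ := hpd.lower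
  have hlow' := hlow _ (mem_of_mem_nhds hU)
  have hfin : {x : Vec F | x ∈ Lat g ∧ qf x (KoeLine_H e t 1) < 9 / 8}.Finite := by
    refine (Lat_finite g (9 / 8 / ε + 1)).subset ?_
    rintro x ⟨hx, hq⟩
    refine ⟨hx, fun w i => ?_⟩
    have h1 : ε * (w (x i)) ^ 2 ≤ qf x (KoeLine_H e t 1) := by
      rw [qf_apply]
      have h2 : ∀ w' : InfinitePlace F, 0 ≤ Hh ((KoeLine_H e t 1).1 w') (w'.embedding (x 0))
          (w'.embedding (x 1)) := fun w' => hpd.psd w' _ _
      refine le_trans ?_ (Finset.single_le_sum (fun w' _ => h2 w') (Finset.mem_univ w))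
      refine le_trans ?_ (hlow' w _ _)
      apply mul_le_mul_of_nonneg_left _ hε.le
      rw [InfinitePlace.norm_embedding_eq, InfinitePlace.norm_embedding_eq]
      fin_cases i
      · change w (x 0) ^ 2 ≤ _
        nlinarith [sq_nonneg (w (x 1))]
      · change w (x 1) ^ 2 ≤ _
        nlinarith [sq_nonneg (w (x 0))]
    have h3 : (w (x i)) ^ 2 ≤ 9 / 8 / ε := by
      rw [le_div_iff₀ hε]
      nlinarith
    have h4 : 0 ≤ w (x i) := apply_nonneg w (x i)
    have h5 : 0 ≤ 9 / 8 / ε := by positivity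
    nlinarith
  have hdet : ∀ x : Vec F, x ≠ 0 → ln x ≠ ln e → 0 < qf x (KoePos_form e) := by
    intro x hx hne
    have h1 : x 0 * e 1 - x 1 * e 0 ≠ 0 := fun h => hne ((ln_eq_iff hx he).2 h)
    obtain ⟨w⟩ : Nonempty (InfinitePlace F) := inferInstance
    rw [qf_apply]
    refine Finset.sum_pos' (fun w' _ => KoePos_form_psd e w' _ _) ⟨w, Finset.mem_univ w, ?_⟩
    rw [KoePos_form_apply, ← map_mul, ← map_mul, ← map_sub]
    have h2 : w.embedding (x 0 * e 1 - x 1 * e 0) ≠ 0 := (map_ne_zero _).2 h1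
    positivity
  obtain ⟨s, hs⟩ := (hfin.image fun x => 9 / 8 / qf x (KoePos_form e)).bddAbove
  refine ⟨KoeLine_H e t (max s 1), fun x hx hl => KoeLine_H_line he hx hl t _, ?_⟩
  intro x hx hx0 hne
  have hA : 0 ≤ qf x (KoeLine_A e t) := by
    rw [qf_apply]
    refine Finset.sum_nonneg fun w _ => ?_
    rw [KoeLine_A_apply]
    have h1 := KoeLine_nE_pos he w
    have h2 := hpos w
    positivity
  have hd := hdet x hx0 hne
  rw [KoeLine_H_qf]
  by_cases hq : qf x (KoeLine_H e t 1) < 9 / 8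
  · have h1 := hs ⟨x, ⟨hx, hq⟩, rfl⟩
    have h2 : 9 / 8 / qf x (KoePos_form e) ≤ max s 1 := h1.trans (le_max_left _ _)
    rw [div_le_iff₀ hd] at h2
    linarith
  · push Not at hq
    rw [KoeLine_H_qf, one_mul] at hq
    have h2 := mul_le_mul_of_nonneg_right (le_max_right s 1) hd.le
    linarith

/-- A subset of a line is a face of the polyhedron if and only if it is a face of the polyhedron
of the line. -/
theorem line_face (g : GA F) (P : P1 F) (R : Finset (Vec F)) (hR : ∀ x ∈ R, ln x = P) :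
    (koe N hN C hC g).Face R ↔ (∀ x ∈ R, x ∈ Lat g ∧ x ≠ 0) ∧
      ∃ t : InfinitePlace F → ℝ, (∀ x ∈ Lat g, x ≠ 0 → ln x = P → C (cls N g x) ≤ qL x t) ∧
        ∀ x ∈ R, qL x t = C (cls N g x) := by
  obtain ⟨e, he, rfl⟩ := ln_surj P
  constructor
  · rintro ⟨hA, h, hPi, hh⟩
    refine ⟨fun x hx => hA x hx, KoeLine_S e h, ?_, ?_⟩
    · intro x hx hx0 hl
      rw [← KoeLine_qf he hx0 hl]
      exact hPi x ⟨hx, hx0⟩
    · intro x hx
      rw [← KoeLine_qf he (hA x hx).2 (hR x hx)]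
      exact hh x hx
  · rintro ⟨hA, t, ht, htR⟩
    obtain ⟨h, h1, h2⟩ := KoeLine_ext g he (t := t) (fun x hx hx0 hl =>
      ((hC.1 _).1.le).trans (ht x hx hx0 hl))
    refine ⟨fun x hx => hA x hx, h, ?_, ?_⟩
    · rintro x ⟨hx, hx0⟩
      change C (cls N g x) ≤ qf x h
      by_cases hl : ln x = ln e
      · rw [h1 x hx0 hl]
        exact ht x hx hx0 hl
      · exact ((hC.1 _).2.le).trans (h2 x hx hx0 hl)
    · intro x hx
      change qf x h = C (cls N g x)
      rw [h1 x (hA x hx).2 (hR x hx)]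
      exact htR x hx

omit [NumberField F] in
theorem nE_nonneg (x : Vec F) (w : InfinitePlace F) : 0 ≤ KoeLine_nE x w := by
  unfold KoeLine_nE
  positivity

theorem KoeLine_Sf (g : GA F) {e : Vec F} (he : e ≠ 0) {h : VR F}
    (hh : h ∈ (koe N hN C hC g).Pi) : ∀ x ∈ Lat g, x ≠ 0 → ln x = ln e →
    C (cls N g x) ≤ qL x (KoeLine_S e h) := by
  intro x hx hx0 hl
  rw [← KoeLine_qf he hx0 hl]
  exact hh x ⟨hx, hx0⟩

open Classical in
/-- The unit vector of a place. -/
def KoeLine_u (w w' : InfinitePlace F) : ℝ := if w' = w then 1 else 0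

omit [NumberField F] in
theorem KoeLine_u_self (w : InfinitePlace F) : KoeLine_u w w = 1 := if_pos rfl

omit [NumberField F] in
theorem KoeLine_u_ne {w w' : InfinitePlace F} (h : w' ≠ w) : KoeLine_u w w' = 0 := if_neg h

theorem KoeLine_u_sum (t : InfinitePlace F → ℝ) : t = ∑ w, t w • KoeLine_u w := by
  funext w'
  rw [Finset.sum_apply, Finset.sum_eq_single w']
  · rw [Pi.smul_apply, KoeLine_u_self, smul_eq_mul, mul_one]
  · intro w _ hne
    rw [Pi.smul_apply, KoeLine_u_ne hne.symm, smul_zero]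
  · intro h
    exact absurd (Finset.mem_univ w') h

/-- The polyhedron of a line. -/
def KoeLine_sys (g : GA F) (e : Vec F) (he : e ≠ 0) :
    PolySys (Vec F) (InfinitePlace F → ℝ) where
  A := {x | x ∈ Lat g ∧ x ≠ 0 ∧ ln x = ln e}
  q := qL
  c x := C (cls N g x)
  Pos := {l | ∀ w, 0 < l (KoeLine_u w)}
  ctbl := Set.Countable.mono (s₂ := {x | x ∈ Lat g ∧ x ≠ 0})
    (fun _ hx => ⟨hx.1, hx.2.1⟩) (koe N hN C hC g).ctbl
  ne := by
    obtain ⟨h, hh⟩ := (koe N hN C hC g).ne
    exact ⟨KoeLine_S e h, fun x hx => KoeLine_Sf N hN C hC g he hh x hx.1 hx.2.1 hx.2.2⟩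
  pos_ne := by
    refine ⟨(∑ w : InfinitePlace F, (ContinuousLinearMap.proj w :
        (InfinitePlace F → ℝ) →L[ℝ] ℝ)), fun w => ?_⟩
    rw [_root_.sum_apply]
    have h1 : ∑ w' : InfinitePlace F, (ContinuousLinearMap.proj w' :
        (InfinitePlace F → ℝ) →L[ℝ] ℝ) (KoeLine_u w) = 1 := by
      rw [Finset.sum_eq_single w]
      · exact KoeLine_u_self w
      · intro w' _ hne
        exact KoeLine_u_ne hne
      · intro h
        exact absurd (Finset.mem_univ w) h
    rw [h1]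
    exact one_pos
  comp := by
    intro l hl T
    have hclosed : IsClosed {t : InfinitePlace F → ℝ |
        (∀ x ∈ {x | x ∈ Lat g ∧ x ≠ 0 ∧ ln x = ln e}, C (cls N g x) ≤ qL x t) ∧ l t ≤ T} := by
      apply IsClosed.inter
      · have h1 : {t : InfinitePlace F → ℝ |
            ∀ x ∈ {x | x ∈ Lat g ∧ x ≠ 0 ∧ ln x = ln e}, C (cls N g x) ≤ qL x t} =
            ⋂ x ∈ {x | x ∈ Lat g ∧ x ≠ 0 ∧ ln x = ln e}, {t | C (cls N g x) ≤ qL x t} := by
          ext t
          simp only [Set.mem_iInter, Set.mem_ofPred_eq]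
        have h2 : IsClosed {t : InfinitePlace F → ℝ |
            ∀ x ∈ {x | x ∈ Lat g ∧ x ≠ 0 ∧ ln x = ln e}, C (cls N g x) ≤ qL x t} := by
          rw [h1]
          exact isClosed_biInter fun x _ => isClosed_le continuous_const (qL x).continuous
        exact h2
      · exact isClosed_le l.continuous continuous_const
    refine Metric.isCompact_of_isClosed_isBounded hclosed ?_
    rw [isBounded_iff_forall_norm_le]
    have hl' : ∀ w : InfinitePlace F, 0 < l (KoeLine_u w) := hl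
    refine ⟨∑ w : InfinitePlace F, |T| / l (KoeLine_u w), fun t ht => ?_⟩
    have hpos := KoeLine_pos g he (t := t) (fun x hx hx0 hlx =>
      ((hC.1 _).1.le).trans (ht.1 x ⟨hx, hx0, hlx⟩))
    have hsum : l t = ∑ w : InfinitePlace F, t w * l (KoeLine_u w) := by
      conv_lhs => rw [KoeLine_u_sum t]
      rw [map_sum]
      refine Finset.sum_congr rfl fun w _ => ?_
      rw [map_smul, smul_eq_mul]
    have hnn : 0 ≤ ∑ w : InfinitePlace F, |T| / l (KoeLine_u w) :=
      Finset.sum_nonneg fun w _ => div_nonneg (abs_nonneg T) (hl' w).le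
    rw [pi_norm_le_iff_of_nonneg hnn]
    intro w
    rw [Real.norm_eq_abs, abs_of_pos (hpos w)]
    have h4 : t w * l (KoeLine_u w) ≤ T := by
      refine le_trans ?_ ht.2
      rw [hsum]
      exact Finset.single_le_sum (f := fun w => t w * l (KoeLine_u w))
        (fun w' _ => mul_nonneg (hpos w').le (hl' w').le) (Finset.mem_univ w)
    have h5 : t w ≤ |T| / l (KoeLine_u w) := by
      rw [le_div_iff₀ (hl' w)]
      exact h4.trans (le_abs_self T)
    exact h5.trans (Finset.single_le_sum (f := fun w => |T| / l (KoeLine_u w))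
      (fun w' _ => div_nonneg (abs_nonneg T) (hl' w').le) (Finset.mem_univ w))
  locfin := by
    intro t ht
    have hpos := KoeLine_pos g he (t := t) (fun x hx hx0 hlx =>
      ((hC.1 _).1.le).trans (ht x ⟨hx, hx0, hlx⟩))
    obtain ⟨w₀⟩ : Nonempty (InfinitePlace F) := inferInstance
    have hne : (Finset.univ : Finset (InfinitePlace F)).Nonempty := ⟨w₀, Finset.mem_univ w₀⟩
    obtain ⟨w₁, -, hw₁⟩ := Finset.exists_min_image Finset.univ t hne
    set ε : ℝ := t w₁ / 2 with hε
    have hε0 : 0 < ε := by have := hpos w₁; positivity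
    refine ⟨{t' | ∀ w, ε < t' w}, ?_, ?_⟩
    · apply Filter.eventually_all.2
      intro w
      have h1 : ε < t w := by
        have := hw₁ w (Finset.mem_univ w)
        have := hpos w₁
        rw [hε]
        linarith
      exact (continuous_apply w).continuousAt.eventually_const_lt h1
    · refine (Lat_finite g (9 / 8 / ε + 1)).subset ?_
      rintro x ⟨⟨hx, hx0, -⟩, t', ht', hq⟩
      refine ⟨hx, fun w i => ?_⟩
      have h1 : ε * (w (x i)) ^ 2 ≤ qL x t' := by
        rw [qL_eq]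
        have h2 : ∀ w' : InfinitePlace F, 0 ≤ KoeLine_nE x w' * t' w' := fun w' =>
          mul_nonneg (nE_nonneg x w') (hε0.trans (ht' w')).le
        refine le_trans ?_ (Finset.single_le_sum (fun w' _ => h2 w') (Finset.mem_univ w))
        have h3 : (w (x i)) ^ 2 ≤ KoeLine_nE x w := by
          rw [KoeLine_nE]
          fin_cases i
          · change w (x 0) ^ 2 ≤ _
            nlinarith [sq_nonneg (w (x 1))]
          · change w (x 1) ^ 2 ≤ _
            nlinarith [sq_nonneg (w (x 0))]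
        have h4 : 0 ≤ KoeLine_nE x w := nE_nonneg x w
        have h5 := (ht' w).le
        nlinarith
      have h6 : C (cls N g x) < 9 / 8 := (hC.1 _).2
      have h3 : (w (x i)) ^ 2 ≤ 9 / 8 / ε := by
        rw [le_div_iff₀ hε0]
        linarith
      have h4 : 0 ≤ w (x i) := apply_nonneg w (x i)
      have h5 : 0 ≤ 9 / 8 / ε := by positivity
      nlinarith
  indep := by
    intro t ht
    obtain ⟨h, h1, h2⟩ := KoeLine_ext g he (t := t) (fun x hx hx0 hl =>
      ((hC.1 _).1.le).trans (ht x ⟨hx, hx0, hl⟩))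
    have hPi : ∀ x ∈ (koe N hN C hC g).A, (koe N hN C hC g).c x ≤ (koe N hN C hC g).q x h := by
      rintro x ⟨hx, hx0⟩
      change C (cls N g x) ≤ qf x h
      by_cases hl : ln x = ln e
      · rw [h1 x hx0 hl]
        exact ht x ⟨hx, hx0, hl⟩
      · exact ((hC.1 _).2.le).trans (h2 x hx hx0 hl)
    have h3 := (koe N hN C hC g).indep h hPi
    let ι : {x // x ∈ {x | x ∈ Lat g ∧ x ≠ 0 ∧ ln x = ln e} ∧ qL x t = C (cls N g x)} →
        {x // x ∈ (koe N hN C hC g).A ∧ (koe N hN C hC g).q x h = (koe N hN C hC g).c x} :=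
      fun x => ⟨x.1, ⟨x.2.1.1, x.2.1.2.1⟩, by
        change qf x.1 h = C (cls N g x.1)
        rw [h1 x.1 x.2.1.2.1 x.2.1.2.2]
        exact x.2.2⟩
    have hι : Function.Injective ι := by
      intro x y hxy
      have := congrArg Subtype.val hxy
      exact Subtype.ext this
    have h4 := h3.comp ι hι
    let T : ((InfinitePlace F → ℝ) →L[ℝ] ℝ) →ₗ[ℝ] (VR F →L[ℝ] ℝ) :=
      { toFun := fun l => l.comp (LinearMap.toContinuousLinearMap (KoeLine_S e))
        map_add' := fun a b => rfl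
        map_smul' := fun c a => rfl }
    refine LinearIndependent.of_comp T ?_
    have h5 : (⇑T ∘ fun x : {x // x ∈ {x | x ∈ Lat g ∧ x ≠ 0 ∧ ln x = ln e} ∧
        qL x t = C (cls N g x)} => qL x.1) = (fun x => qf x.1) ∘ ι := by
      funext x
      apply ContinuousLinearMap.ext
      intro k
      exact (KoeLine_qf he x.2.1.2.1 x.2.1.2.2 k).symm
    rw [h5]
    exact h4
  pos_open := by
    have h1 : {l : (InfinitePlace F → ℝ) →L[ℝ] ℝ | ∀ w, 0 < l (KoeLine_u w)} =
        ⋂ w, {l | 0 < l (KoeLine_u w)} := by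
      ext l
      simp
    rw [h1]
    refine isOpen_iInter_of_finite fun w => ?_
    exact isOpen_lt continuous_const
      (ContinuousLinearMap.apply ℝ ℝ (KoeLine_u w)).continuous
  pos_add := by
    intro l hl x _ a ha w
    have h1 : (l + a • qL x) (KoeLine_u w) =
        l (KoeLine_u w) + a * qL x (KoeLine_u w) := rfl
    have h2 : qL x (KoeLine_u w) = KoeLine_nE x w := by
      rw [qL_eq, Finset.sum_eq_single w]
      · rw [KoeLine_u_self, mul_one]
      · intro w' _ hne
        rw [KoeLine_u_ne hne, mul_zero]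
      · intro h
        exact absurd (Finset.mem_univ w) h
    rw [h1, h2]
    have h3 := hl w
    have h4 := nE_nonneg x w
    have h5 : 0 ≤ a * KoeLine_nE x w := mul_nonneg ha h4
    linarith
  pos_smul := by
    intro l hl a ha w
    exact mul_pos ha (hl w)
  unb := by
    intro hb
    obtain ⟨h, hh⟩ := (koe N hN C hC g).ne
    have h0 := KoeLine_Sf N hN C hC g he hh
    obtain ⟨M, hM⟩ := (isBounded_iff_forall_norm_le.1 hb)
    obtain ⟨w⟩ : Nonempty (InfinitePlace F) := inferInstance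
    set t := KoeLine_S e h with ht
    have h1 : (fun w' => t w' + (|M| + |t w| + 1)) ∈ {t : InfinitePlace F → ℝ |
        ∀ x ∈ {x | x ∈ Lat g ∧ x ≠ 0 ∧ ln x = ln e}, C (cls N g x) ≤ qL x t} := by
      rintro x ⟨hx, hx0, hl⟩
      refine (h0 x hx hx0 hl).trans ?_
      rw [qL_eq, qL_eq]
      refine Finset.sum_le_sum fun w' _ => ?_
      have h2 := nE_nonneg x w'
      have h3 : 0 ≤ |M| + |t w| + 1 := by positivity
      nlinarith
    have h2 := hM _ h1
    have h3 := (norm_le_pi_norm (fun w' => t w' + (|M| + |t w| + 1)) w).trans h2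
    rw [Real.norm_eq_abs] at h3
    have h4 := (le_abs_self _).trans h3
    have h5 := neg_abs_le (t w)
    have h6 := le_abs_self M
    linarith

theorem exists_line (g : GA F) (P : P1 F) : ∃ Q : PolySys (Vec F) (InfinitePlace F → ℝ),
    Q.A = {x | x ∈ Lat g ∧ x ≠ 0 ∧ ln x = P} ∧
    ∀ R : Finset (Vec F), Q.Face R ↔ InL (koe N hN C hC g).Face ln P R := by
  obtain ⟨e, he, rfl⟩ := ln_surj P
  refine ⟨KoeLine_sys N hN C hC g e he, rfl, fun R => ?_⟩
  constructor
  · rintro ⟨hA, t, ht, htR⟩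
    have hR : ∀ x ∈ R, ln x = ln e := fun x hx => (hA x hx).2.2
    refine ⟨(line_face N hN C hC g (ln e) R hR).2
      ⟨fun x hx => ⟨(hA x hx).1, (hA x hx).2.1⟩, t, ?_, htR⟩, hR⟩
    intro x hx hx0 hl
    exact ht x ⟨hx, hx0, hl⟩
  · rintro ⟨hF, hR⟩
    obtain ⟨h1, t, h2, h3⟩ := (line_face N hN C hC g (ln e) R hR).1 hF
    exact ⟨fun x hx => ⟨(h1 x hx).1, (h1 x hx).2, hR x hx⟩, t,
      fun x hx => h2 x hx.1 hx.2.1 hx.2.2, h3⟩

theorem koe_lowEx (g : GA F) (k : Type) [AddCommGroup k] :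
    LowEx (koe N hN C hC g).Face (ln : Vec F → P1 F) k := by
  have hline : ∀ P : P1 F, ∃ X : Asc (Vec F), X.face = InL (koe N hN C hC g).Face ln P := by
    intro P
    obtain ⟨Q, -, hQ⟩ := exists_line N hN C hC g P
    obtain ⟨X, hX⟩ := Q.exists_asc
    exact ⟨X, by rw [hX]; funext R; exact propext (hQ R)⟩
  obtain ⟨Y, hY⟩ := (koe N hN C hC g).exists_asc
  refine ⟨?_, ?_, ?_, ?_, ?_⟩
  · rw [← hY]
    exact Y.sub
  · intro P
    obtain ⟨Q, -, hQ⟩ := exists_line N hN C hC g P
    obtain ⟨X, hX⟩ := Q.exists_asc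
    have h0 : X.face ∅ := by
      rw [hX]
      refine ⟨by simp, ?_⟩
      obtain ⟨t, ht⟩ := Q.ne
      exact ⟨t, ht, by simp⟩
    have h1 := (X.ins ∅ h0 (by simp)).1
    rw [hX, hQ] at h1
    refine ⟨X.s (X.bot ∅), h1.2 _ (Finset.mem_insert_self _ _), ?_⟩
    exact h1.1
  · intro P φ hφ hd
    obtain ⟨X, hX⟩ := hline P
    rw [← hX] at hφ ⊢
    exact X.exact hφ hd
  · intro φ hφ hd
    rw [← hY] at hφ ⊢
    exact Y.exact hφ hd
  · intro φ hφ hd
    rw [← hY] at hφ ⊢
    exact Y.exact hφ hd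

theorem koe_sp (g : GA F) : (koe N hN C hC g).Cell =
    Sp (koe N hN C hC g).Face (ln : Vec F → P1 F) := by
  funext R
  apply propext
  rw [koe_cell_iff]
  constructor
  · rintro ⟨hF, x, hx, y, hy, h⟩
    refine ⟨hF, x, hx, y, hy, fun hl => h ?_⟩
    exact (ln_eq_iff (hF.1 x hx).2 (hF.1 y hy).2).1 hl
  · rintro ⟨hF, x, hx, y, hy, h⟩
    refine ⟨hF, x, hx, y, hy, fun hl => h ?_⟩
    exact (ln_eq_iff (hF.1 x hx).2 (hF.1 y hy).2).2 hl

end Pool.Agent.CG2
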