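import Pool.Agent.CG2.KoeDefs

/-!
# Positive semidefinite families and positive functionals
-/

set_option linter.unusedSectionVars false

noncomputable section

namespace Pool.Agent.CG2

open NumberField IsDedekindDomain Matrix

variable {F : Type} [Field F] [NumberField F]

theorem KoePos_Hh (t : ℝ × ℝ × ℂ) (a b : ℂ) : Hh t a b =
    t.1 * (a.re ^ 2 + a.im ^ 2) + t.2.1 * (b.re ^ 2 + b.im ^ 2) +
      2 * ((t.2.2.re * a.re - t.2.2.im * a.im) * b.re +
        (t.2.2.re * a.im + t.2.2.im * a.re) * b.im) := by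
  rw [Hh, Complex.sq_norm, Complex.sq_norm, Complex.normSq_apply, Complex.normSq_apply]
  simp only [Complex.mul_re, Complex.mul_im, Complex.conj_re, Complex.conj_im]
  ring

theorem KoePos_smul (t : ℝ × ℝ × ℂ) (c a b : ℂ) : Hh t (c * a) (c * b) = ‖c‖ ^ 2 * Hh t a b := by
  rw [KoePos_Hh, KoePos_Hh, Complex.sq_norm, Complex.normSq_apply]
  simp only [Complex.mul_re, Complex.mul_im]
  ring

theorem KoePos_par (t : ℝ × ℝ × ℂ) (a b c d : ℂ) :
    Hh t (a - c) (b - d) + Hh t (a + c) (b + d) = 2 * Hh t a b + 2 * Hh t c d := by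
  simp only [KoePos_Hh, Complex.sub_re, Complex.sub_im, Complex.add_re, Complex.add_im]
  ring

/-- The explicit criterion gives a lower bound. -/
theorem KoePos_lower {t : ℝ × ℝ × ℂ} {ε : ℝ} (h1 : ε ≤ t.1) (h2 : ε ≤ t.2.1)
    (h3 : ‖t.2.2‖ ^ 2 ≤ (t.1 - ε) * (t.2.1 - ε)) (a b : ℂ) :
    ε * (‖a‖ ^ 2 + ‖b‖ ^ 2) ≤ Hh t a b := by
  have h4 : -(‖t.2.2‖ * ‖a‖ * ‖b‖) ≤ (t.2.2 * a * (starRingEnd ℂ) b).re := by
    have := Complex.abs_re_le_norm (t.2.2 * a * (starRingEnd ℂ) b)
    rw [norm_mul, norm_mul, Complex.norm_conj] at this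
    exact (abs_le.1 this).1
  have h5 : 2 * (‖t.2.2‖ * ‖a‖ * ‖b‖) ≤ (t.1 - ε) * ‖a‖ ^ 2 + (t.2.1 - ε) * ‖b‖ ^ 2 := by
    have hA : 0 ≤ t.1 - ε := by linarith
    have hB : 0 ≤ t.2.1 - ε := by linarith
    apply le_of_sq_le_sq _ (by positivity)
    have h6 : 0 ≤ ((t.1 - ε) * ‖a‖ ^ 2 - (t.2.1 - ε) * ‖b‖ ^ 2) ^ 2 := sq_nonneg _
    have h7 : ‖t.2.2‖ ^ 2 * (‖a‖ ^ 2 * ‖b‖ ^ 2) ≤ (t.1 - ε) * (t.2.1 - ε) * (‖a‖ ^ 2 * ‖b‖ ^ 2) :=
      mul_le_mul_of_nonneg_right h3 (by positivity)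
    nlinarith
  rw [Hh]
  nlinarith

theorem KoePos_crit {t : ℝ × ℝ × ℂ} (h : ∀ a b : ℂ, (a ≠ 0 ∨ b ≠ 0) → 0 < Hh t a b) :
    0 < t.1 ∧ 0 < t.2.1 ∧ ‖t.2.2‖ ^ 2 < t.1 * t.2.1 := by
  have h1 : 0 < t.1 := by
    have := h 1 0 (Or.inl one_ne_zero)
    simpa [Hh] using this
  have h2 : 0 < t.2.1 := by
    have := h 0 1 (Or.inr one_ne_zero)
    simpa [Hh] using this
  refine ⟨h1, h2, ?_⟩
  have h3 := h (-(starRingEnd ℂ) t.2.2) (t.1 : ℂ) (Or.inr (by exact_mod_cast h1.ne'))
  rw [KoePos_Hh] at h3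
  simp only [Complex.neg_re, Complex.neg_im, Complex.conj_re, Complex.conj_im, Complex.ofReal_re,
    Complex.ofReal_im] at h3
  rw [Complex.sq_norm, Complex.normSq_apply]
  have h4 : 0 < t.1 * (t.1 * t.2.1 - (t.2.2.re * t.2.2.re + t.2.2.im * t.2.2.im)) := by
    nlinarith
  have := (mul_pos_iff_of_pos_left h1).1 h4
  linarith

theorem KoePos_psd_crit {t : ℝ × ℝ × ℂ} (h : ∀ a b : ℂ, 0 ≤ Hh t a b) :
    0 ≤ t.1 ∧ 0 ≤ t.2.1 := by
  have h1 : 0 ≤ t.1 := by
    have := h 1 0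
    simpa [Hh] using this
  have h2 : 0 ≤ t.2.1 := by
    have := h 0 1
    simpa [Hh] using this
  exact ⟨h1, h2⟩

/-- Isotropic vectors of a semidefinite form are in its kernel. -/
theorem KoePos_ker {t : ℝ × ℝ × ℂ} (h : ∀ a b : ℂ, 0 ≤ Hh t a b) {a b : ℂ} (h0 : Hh t a b = 0) :
    (t.1 : ℂ) * a + (starRingEnd ℂ) t.2.2 * b = 0 ∧ t.2.2 * a + (t.2.1 : ℂ) * b = 0 := by
  have key : ∀ N T : ℝ, 0 ≤ N → (∀ s : ℝ, 0 ≤ -(2 * s * N) + s ^ 2 * (N * T)) → N = 0 := by
    intro N T hN hs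
    by_contra hne
    have hN' : 0 < N := lt_of_le_of_ne hN (Ne.symm hne)
    have h1 := hs (1 / (|T| + 1))
    have hT := le_abs_self T
    have hT' : 0 < |T| + 1 := by positivity
    have h2 : -(2 * (1 / (|T| + 1)) * N) + (1 / (|T| + 1)) ^ 2 * (N * T) =
        N * (T - 2 * (|T| + 1)) / (|T| + 1) ^ 2 := by
      field_simp
      ring
    rw [h2] at h1
    have h3 : N * (T - 2 * (|T| + 1)) / (|T| + 1) ^ 2 < 0 := by
      apply div_neg_of_neg_of_pos _ (by positivity)
      apply mul_neg_of_pos_of_neg hN'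
      linarith [abs_nonneg T]
    linarith
  constructor
  · set p : ℂ := (t.1 : ℂ) * a + (starRingEnd ℂ) t.2.2 * b with hp
    have h1 := key (p.re ^ 2 + p.im ^ 2) t.1 (by positivity) (by
      intro s
      have h2 := h (a - (s : ℂ) * p) b
      have h3 : Hh t (a - (s : ℂ) * p) b = Hh t a b +
          (-(2 * s * (p.re ^ 2 + p.im ^ 2)) + s ^ 2 * ((p.re ^ 2 + p.im ^ 2) * t.1)) := by
        have hre : p.re = t.1 * a.re + (t.2.2.re * b.re + t.2.2.im * b.im) := by
          rw [hp]; simp [Complex.mul_re]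
        have him : p.im = t.1 * a.im + (t.2.2.re * b.im - t.2.2.im * b.re) := by
          rw [hp]; simp [Complex.mul_im]; ring
        rw [KoePos_Hh, KoePos_Hh]
        simp only [Complex.sub_re, Complex.sub_im, Complex.mul_re, Complex.mul_im,
          Complex.ofReal_re, Complex.ofReal_im]
        rw [hre, him]
        ring
      rw [h3, h0, zero_add] at h2
      exact h2)
    apply Complex.ext
    · change p.re = 0
      nlinarith [sq_nonneg p.re, sq_nonneg p.im]
    · change p.im = 0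
      nlinarith [sq_nonneg p.re, sq_nonneg p.im]
  · set p : ℂ := t.2.2 * a + (t.2.1 : ℂ) * b with hp
    have h1 := key (p.re ^ 2 + p.im ^ 2) t.2.1 (by positivity) (by
      intro s
      have h2 := h a (b - (s : ℂ) * p)
      have h3 : Hh t a (b - (s : ℂ) * p) = Hh t a b +
          (-(2 * s * (p.re ^ 2 + p.im ^ 2)) + s ^ 2 * ((p.re ^ 2 + p.im ^ 2) * t.2.1)) := by
        have hre : p.re = (t.2.2.re * a.re - t.2.2.im * a.im) + t.2.1 * b.re := by
          rw [hp]; simp [Complex.mul_re]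
        have him : p.im = (t.2.2.re * a.im + t.2.2.im * a.re) + t.2.1 * b.im := by
          rw [hp]; simp [Complex.mul_im]
        rw [KoePos_Hh, KoePos_Hh]
        simp only [Complex.sub_re, Complex.sub_im, Complex.mul_re, Complex.mul_im,
          Complex.ofReal_re, Complex.ofReal_im]
        rw [hre, him]
        ring
      rw [h3, h0, zero_add] at h2
      exact h2)
    apply Complex.ext
    · change p.re = 0
      nlinarith [sq_nonneg p.re, sq_nonneg p.im]
    · change p.im = 0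
      nlinarith [sq_nonneg p.re, sq_nonneg p.im]

/-- A semidefinite form with two independent isotropic vectors is zero. -/
theorem KoePos_zero {t : ℝ × ℝ × ℂ} (h : ∀ a b : ℂ, 0 ≤ Hh t a b) {a b c d : ℂ}
    (h0 : Hh t a b = 0) (h1 : Hh t c d = 0) (hd : a * d - b * c ≠ 0) : t = 0 := by
  obtain ⟨h2, h3⟩ := KoePos_ker h h0
  obtain ⟨h4, h5⟩ := KoePos_ker h h1
  have e1 : (t.1 : ℂ) * (a * d - b * c) = 0 := by linear_combination d * h2 - b * h4
  have e2 : t.2.2 * (a * d - b * c) = 0 := by linear_combination d * h3 - b * h5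
  have e3 : (t.2.1 : ℂ) * (a * d - b * c) = 0 := by linear_combination a * h5 - c * h3
  have f1 : t.1 = 0 := by
    have := (mul_eq_zero.1 e1).resolve_right hd
    exact_mod_cast this
  have f2 : t.2.2 = 0 := (mul_eq_zero.1 e2).resolve_right hd
  have f3 : t.2.1 = 0 := by
    have := (mul_eq_zero.1 e3).resolve_right hd
    exact_mod_cast this
  exact Prod.ext f1 (Prod.ext f3 f2)

/-- Coordinates on `VR`. -/
def KoePos_equiv (F : Type) [Field F] [NumberField F] : VR F ≃ₗ[ℝ]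
    (InfinitePlace F → ℝ × ℝ × ℝ) × ({w : InfinitePlace F // w.IsComplex} → ℝ) where
  toFun h := (fun w => ((h.1 w).1, (h.1 w).2.1, (h.1 w).2.2.re), fun w => (h.1 w.1).2.2.im)
  map_add' a b := by
    refine Prod.ext ?_ ?_
    · funext w
      simp
    · funext w
      simp
  map_smul' c a := by
    refine Prod.ext ?_ ?_
    · funext w
      simp
    · funext w
      simp
  invFun p := by
    classical
    exact ⟨fun w => ((p.1 w).1, (p.1 w).2.1,
      ⟨(p.1 w).2.2, if hw : w.IsComplex then p.2 ⟨w, hw⟩ else 0⟩), by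
        intro w hw
        simp only
        rw [dif_neg (InfinitePlace.not_isComplex_iff_isReal.2 hw)]⟩
  left_inv h := by
    apply Subtype.ext
    funext w
    refine Prod.ext rfl (Prod.ext rfl ?_)
    apply Complex.ext
    · rfl
    · by_cases hw : w.IsComplex
      · simp [hw]
      · have h1 := h.2 w (InfinitePlace.not_isComplex_iff_isReal.1 hw)
        simp [hw, h1]
  right_inv p := by
    refine Prod.ext ?_ ?_
    · funext w
      rfl
    · funext w
      simp [w.2]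

theorem finrank_VR (F : Type) [Field F] [NumberField F] : Module.finrank ℝ (VR F) =
    3 * InfinitePlace.nrRealPlaces F + 4 * InfinitePlace.nrComplexPlaces F := by
  classical
  rw [(KoePos_equiv F).finrank_eq, Module.finrank_prod, Module.finrank_pi_fintype,
    Module.finrank_pi_fintype]
  simp only [Module.finrank_prod, Module.finrank_self, Finset.sum_const, Finset.card_univ,
    smul_eq_mul, mul_one]
  rw [InfinitePlace.card_eq_nrRealPlaces_add_nrComplexPlaces, InfinitePlace.nrComplexPlaces]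
  ring

theorem PD.psd {h : VR F} (hh : PD h) : PSD h := by
  intro w a b
  by_cases h0 : a ≠ 0 ∨ b ≠ 0
  · exact (hh w a b h0).le
  · push Not at h0
    rw [h0.1, h0.2]
    simp [Hh]

theorem KoePos_cont (w : InfinitePlace F) : Continuous fun h : VR F => h.1 w :=
  (continuous_apply w).comp continuous_subtype_val

/-- A positive definite family is bounded below by the square of the absolute values. -/
theorem PD.lower {h : VR F} (hh : PD h) : ∃ (ε : ℝ) (U : Set (VR F)), 0 < ε ∧ U ∈ nhds h ∧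
    ∀ h' ∈ U, ∀ (w : InfinitePlace F) (a b : ℂ), ε * (‖a‖ ^ 2 + ‖b‖ ^ 2) ≤ Hh (h'.1 w) a b := by
  have h1 : ∀ w : InfinitePlace F, ∀ᶠ ε : ℝ in nhdsWithin 0 (Set.Ioi 0),
      ε < (h.1 w).1 ∧ ε < (h.1 w).2.1 ∧
        ‖(h.1 w).2.2‖ ^ 2 < ((h.1 w).1 - ε) * ((h.1 w).2.1 - ε) := by
    intro w
    obtain ⟨c1, c2, c3⟩ := KoePos_crit (hh w)
    apply mem_nhdsWithin_of_mem_nhds
    have k1 : ∀ᶠ ε : ℝ in nhds 0, ε < (h.1 w).1 := eventually_lt_nhds c1
    have k2 : ∀ᶠ ε : ℝ in nhds 0, ε < (h.1 w).2.1 := eventually_lt_nhds c2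
    have k3 : ∀ᶠ ε : ℝ in nhds 0,
        ‖(h.1 w).2.2‖ ^ 2 < ((h.1 w).1 - ε) * ((h.1 w).2.1 - ε) := by
      have hc : Continuous fun ε : ℝ => ((h.1 w).1 - ε) * ((h.1 w).2.1 - ε) := by fun_prop
      apply hc.continuousAt.eventually_const_lt
      simpa using c3
    filter_upwards [k1, k2, k3] with ε a1 a2 a3
    exact ⟨a1, a2, a3⟩
  have h2 : ∀ᶠ ε : ℝ in nhdsWithin 0 (Set.Ioi 0), (0 < ε ∧ ∀ w : InfinitePlace F,
      ε < (h.1 w).1 ∧ ε < (h.1 w).2.1 ∧
        ‖(h.1 w).2.2‖ ^ 2 < ((h.1 w).1 - ε) * ((h.1 w).2.1 - ε)) := by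
    rw [Filter.eventually_and]
    exact ⟨self_mem_nhdsWithin, Filter.eventually_all.2 h1⟩
  obtain ⟨ε, hε, hw⟩ := h2.exists
  refine ⟨ε, {h' : VR F | ∀ w : InfinitePlace F, ε < (h'.1 w).1 ∧ ε < (h'.1 w).2.1 ∧
    ‖(h'.1 w).2.2‖ ^ 2 < ((h'.1 w).1 - ε) * ((h'.1 w).2.1 - ε)}, hε, ?_, ?_⟩
  · apply Filter.eventually_all.2
    intro w
    obtain ⟨a1, a2, a3⟩ := hw w
    have hc := KoePos_cont w
    have k1 : ∀ᶠ h' : VR F in nhds h, ε < (h'.1 w).1 :=
      (continuous_fst.comp hc).continuousAt.eventually_const_lt a1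
    have k2 : ∀ᶠ h' : VR F in nhds h, ε < (h'.1 w).2.1 :=
      ((continuous_fst.comp continuous_snd).comp hc).continuousAt.eventually_const_lt a2
    have k3 : ∀ᶠ h' : VR F in nhds h,
        ‖(h'.1 w).2.2‖ ^ 2 < ((h'.1 w).1 - ε) * ((h'.1 w).2.1 - ε) := by
      have hc1 : Continuous fun h' : VR F => ‖(h'.1 w).2.2‖ ^ 2 :=
        (continuous_norm.comp ((continuous_snd.comp continuous_snd).comp hc)).pow 2
      have hc2 : Continuous fun h' : VR F => ((h'.1 w).1 - ε) * ((h'.1 w).2.1 - ε) :=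
        ((continuous_fst.comp hc).sub continuous_const).mul
          (((continuous_fst.comp continuous_snd).comp hc).sub continuous_const)
      exact hc1.continuousAt.eventually_lt hc2.continuousAt a3
    filter_upwards [k1, k2, k3] with h' b1 b2 b3
    exact ⟨b1, b2, b3⟩
  · intro h' hh' w a b
    obtain ⟨b1, b2, b3⟩ := hh' w
    exact KoePos_lower b1.le b2.le b3.le a b

theorem isOpen_PD : IsOpen {h : VR F | PD h} := by
  rw [isOpen_iff_mem_nhds]
  intro h hh
  obtain ⟨ε, U, hε, hU, hl⟩ := PD.lower hh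
  filter_upwards [hU] with h' hh' w a b hab
  refine lt_of_lt_of_le ?_ (hl h' hh' w a b)
  apply mul_pos hε
  rcases hab with h1 | h1
  · have := norm_pos_iff.2 h1
    positivity
  · have := norm_pos_iff.2 h1
    positivity

theorem qf_nonneg {h : VR F} (hh : PSD h) (x : Vec F) : 0 ≤ qf x h :=
  Finset.sum_nonneg fun w _ => hh w _ _

theorem qf_smul (c : F) (hc : ∃ r : ℝ, ∀ w : InfinitePlace F, w c = r) (x : Vec F) (h : VR F) :
    ∀ r : ℝ, (∀ w : InfinitePlace F, w c = r) → qf (c • x) h = r ^ 2 * qf x h := by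
  intro r hr
  rw [qf_apply, qf_apply, Finset.mul_sum]
  refine Finset.sum_congr rfl fun w _ => ?_
  have h1 : ∀ i, (c • x) i = c * x i := fun i => rfl
  rw [h1, h1, map_mul, map_mul, KoePos_smul, InfinitePlace.norm_embedding_eq, hr]

theorem qf_natCast (N : ℕ) (x : Vec F) (h : VR F) :
    qf (((N : ℕ) : F) • x) h = (N : ℝ) ^ 2 * qf x h := by
  have h1 : ∀ w : InfinitePlace F, w ((N : ℕ) : F) = (N : ℝ) := by
    intro w
    rw [← InfinitePlace.norm_embedding_eq, map_natCast, Complex.norm_natCast]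
  exact qf_smul _ ⟨_, h1⟩ x h _ h1

theorem qf_sub_le {h : VR F} (hh : PSD h) (x y : Vec F) :
    qf (x - y) h ≤ 2 * qf x h + 2 * qf y h := by
  have h1 : qf (x - y) h + qf (x + y) h = 2 * qf x h + 2 * qf y h := by
    simp only [qf_apply]
    rw [← Finset.sum_add_distrib, Finset.mul_sum, Finset.mul_sum, ← Finset.sum_add_distrib]
    refine Finset.sum_congr rfl fun w _ => ?_
    have k1 : ∀ i, (x - y) i = x i - y i := fun i => rfl
    have k2 : ∀ i, (x + y) i = x i + y i := fun i => rfl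
    rw [k1, k1, k2, k2, map_sub, map_sub, map_add, map_add, KoePos_par]
  have h2 := qf_nonneg hh (x + y)
  linarith

theorem KoePos_closed : IsClosed {h : VR F | PSD h} := by
  have h1 : {h : VR F | PSD h} = ⋂ w : InfinitePlace F, ⋂ a : ℂ, ⋂ b : ℂ,
      {h : VR F | 0 ≤ Hh (h.1 w) a b} := by
    ext h
    simp [PSD]
  rw [h1]
  refine isClosed_iInter fun w => isClosed_iInter fun a => isClosed_iInter fun b => ?_
  apply isClosed_le continuous_const
  have hc := KoePos_cont (F := F) w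
  have hc1 := continuous_fst.comp hc
  have hc2 := (continuous_fst.comp continuous_snd).comp hc
  have hc3 := (continuous_snd.comp continuous_snd).comp hc
  simp only [Hh]
  refine ((hc1.mul continuous_const).add (hc2.mul continuous_const)).add
    (continuous_const.mul (Complex.continuous_re.comp ?_))
  exact (hc3.mul continuous_const).mul continuous_const

theorem KoePos_psd_smul {h : VR F} (hh : PSD h) {c : ℝ} (hc : 0 ≤ c) : PSD (c • h) := by
  intro w a b
  have h1 : Hh ((c • h).1 w) a b = c * Hh (h.1 w) a b := by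
    have h2 : (c • h).1 w = c • h.1 w := rfl
    rw [h2, KoePos_Hh, KoePos_Hh]
    simp only [Prod.smul_fst, Prod.smul_snd, smul_eq_mul, Complex.smul_re, Complex.smul_im]
    ring
  rw [h1]
  exact mul_nonneg hc (hh w a b)

/-- A positive functional is bounded below by a multiple of the norm. -/
theorem KoePos_eps {l : VR F →L[ℝ] ℝ} (hl : l ∈ KPos F) : ∃ ε : ℝ, 0 < ε ∧
    ∀ h : VR F, PSD h → ε * ‖h‖ ≤ l h := by
  have hcomp : IsCompact ({h : VR F | PSD h} ∩ Metric.sphere 0 1) :=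
    (isCompact_sphere (0 : VR F) 1).inter_left KoePos_closed
  have hnorm : ∀ h : VR F, PSD h → h ≠ 0 → (‖h‖⁻¹ • h) ∈ {h : VR F | PSD h} ∩
      Metric.sphere 0 1 := by
    intro h hh h0
    refine ⟨KoePos_psd_smul hh (by positivity), ?_⟩
    rw [mem_sphere_zero_iff_norm, norm_smul, norm_inv, norm_norm,
      inv_mul_cancel₀ (norm_ne_zero_iff.2 h0)]
  by_cases hne : ({h : VR F | PSD h} ∩ Metric.sphere 0 1).Nonempty
  · obtain ⟨h₀, hh₀, hmin⟩ := hcomp.exists_isMinOn hne l.continuous.continuousOn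
    have h₀0 : h₀ ≠ 0 := by
      rintro rfl
      have := mem_sphere_zero_iff_norm.1 hh₀.2
      simp at this
    refine ⟨l h₀, hl h₀ hh₀.1 h₀0, fun h hh => ?_⟩
    by_cases h0 : h = 0
    · rw [h0]; simp
    · have h1 := hmin (hnorm h hh h0)
      simp only [Set.mem_ofPred_eq, map_smul, smul_eq_mul] at h1
      have h2 : 0 < ‖h‖ := norm_pos_iff.2 h0
      have h3 := mul_le_mul_of_nonneg_right h1 h2.le
      have h4 : ‖h‖⁻¹ * l h * ‖h‖ = l h := by field_simp
      linarith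
  · refine ⟨1, one_pos, fun h hh => ?_⟩
    by_cases h0 : h = 0
    · rw [h0]; simp
    · exact absurd ⟨_, hnorm h hh h0⟩ hne

theorem kpos_open : IsOpen (KPos F) := by
  refine (Metric.isOpen_iff (α := VR F →L[ℝ] ℝ)).2 ?_
  intro l hl
  obtain ⟨ε, hε, h1⟩ := KoePos_eps hl
  refine ⟨ε, hε, fun l' hl' h hh h0 => ?_⟩
  have h2 := h1 h hh
  have h3 : ‖l' - l‖ < ε := (dist_eq_norm l' l).symm.trans_lt hl'
  have h4 : |(l' - l) h| ≤ ‖l' - l‖ * ‖h‖ := (l' - l).le_opNorm h
  have h5 : 0 < ‖h‖ := norm_pos_iff.2 h0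
  have h6 : ‖l' - l‖ * ‖h‖ < ε * ‖h‖ := mul_lt_mul_of_pos_right h3 h5
  have h7 : (l' - l) h = l' h - l h := rfl
  rw [h7] at h4
  have := (abs_le.1 h4).1
  linarith

/-- The family attached to a vector. -/
def KoePos_form (z : Vec F) : VR F :=
  ⟨fun w => (‖w.embedding (z 1)‖ ^ 2, ‖w.embedding (z 0)‖ ^ 2,
    -(w.embedding (z 1) * (starRingEnd ℂ) (w.embedding (z 0)))), by
      intro w hw
      have h1 : ∀ x : F, (w.embedding x).im = 0 := by
        intro x
        have h2 := InfinitePlace.embedding_of_isReal_apply hw x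
        rw [← h2, Complex.ofReal_im]
      simp [Complex.mul_im, h1]⟩

theorem KoePos_form_apply (z : Vec F) (w : InfinitePlace F) (a b : ℂ) :
    Hh ((KoePos_form z).1 w) a b = ‖a * w.embedding (z 1) - b * w.embedding (z 0)‖ ^ 2 := by
  rw [KoePos_Hh, KoePos_form, Complex.sq_norm, Complex.normSq_apply]
  simp only [Complex.sq_norm, Complex.normSq_apply, Complex.sub_re, Complex.sub_im,
    Complex.mul_re, Complex.mul_im, Complex.neg_re, Complex.neg_im, Complex.conj_re,
    Complex.conj_im]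
  ring

theorem KoePos_form_psd (z : Vec F) : PSD (KoePos_form z) := by
  intro w a b
  rw [KoePos_form_apply]
  positivity

theorem KoePos_form_ne {z : Vec F} (hz : z ≠ 0) : KoePos_form z ≠ 0 := by
  intro h
  obtain ⟨w⟩ : Nonempty (InfinitePlace F) := inferInstance
  have h1 := congrArg (fun t : VR F => t.1 w) h
  have h2 : ‖w.embedding (z 1)‖ ^ 2 = 0 := congrArg Prod.fst h1
  have h3 : ‖w.embedding (z 0)‖ ^ 2 = 0 := congrArg (fun t => t.2.1) h1
  apply hz
  funext i
  fin_cases i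
  · change z 0 = 0
    simpa using h3
  · change z 1 = 0
    simpa using h2

/-- The sum of the functionals of a finite set of vectors is positive if and only if the vectors
span `F²`. -/
theorem kpos_sum (S : Finset (Vec F)) :
    ∑ x ∈ S, qf x ∈ KPos F ↔ ∃ x ∈ S, ∃ y ∈ S, x 0 * y 1 - x 1 * y 0 ≠ 0 := by
  constructor
  · intro h
    by_contra hc
    push Not at hc
    obtain ⟨z, hz, hzS⟩ : ∃ z : Vec F, z ≠ 0 ∧ ∀ x ∈ S, x 0 * z 1 - x 1 * z 0 = 0 := by
      by_cases hS : ∃ z ∈ S, z ≠ 0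
      · obtain ⟨z, hzS, hz⟩ := hS
        exact ⟨z, hz, fun x hx => hc x hx z hzS⟩
      · push Not at hS
        refine ⟨fun _ => 1, fun h0 => one_ne_zero (congrFun h0 0), fun x hx => ?_⟩
        rw [hS x hx]
        change (0 : F) * 1 - 0 * 1 = 0
        ring
    have h1 := h (KoePos_form z) (KoePos_form_psd z) (KoePos_form_ne hz)
    rw [_root_.sum_apply] at h1
    have h2 : ∑ x ∈ S, qf x (KoePos_form z) = 0 := by
      apply Finset.sum_eq_zero
      intro x hx
      rw [qf_apply]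
      apply Finset.sum_eq_zero
      intro w _
      rw [KoePos_form_apply, ← map_mul, ← map_mul, ← map_sub, hzS x hx]
      simp
    rw [h2] at h1
    exact lt_irrefl _ h1
  · rintro ⟨x, hx, y, hy, hd⟩ h hh h0
    rw [_root_.sum_apply]
    have hnn : ∀ z ∈ S, 0 ≤ qf z h := fun z _ => qf_nonneg hh z
    refine lt_of_le_of_ne (Finset.sum_nonneg hnn) ?_
    intro hsum
    have h1 := (Finset.sum_eq_zero_iff_of_nonneg hnn).1 hsum.symm
    have h2 : ∀ z ∈ S, ∀ w : InfinitePlace F,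
        Hh (h.1 w) (w.embedding (z 0)) (w.embedding (z 1)) = 0 := by
      intro z hz w
      have h3 := h1 z hz
      rw [qf_apply] at h3
      exact (Finset.sum_eq_zero_iff_of_nonneg fun w _ => hh w _ _).1 h3 w (Finset.mem_univ w)
    apply h0
    apply Subtype.ext
    funext w
    refine KoePos_zero (hh w) (h2 x hx w) (h2 y hy w) ?_
    rw [← map_mul, ← map_mul, ← map_sub]
    exact (map_ne_zero _).2 hd

theorem kpos_nonempty : (KPos F).Nonempty := by
  let a : Vec F := fun i => if i = 0 then 1 else 0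
  let b : Vec F := fun i => if i = 0 then 0 else 1
  refine ⟨∑ x ∈ ({a, b} : Finset (Vec F)), qf x, ?_⟩
  rw [kpos_sum]
  refine ⟨a, Finset.mem_insert_self _ _, b,
    Finset.mem_insert_of_mem (Finset.mem_singleton_self _), ?_⟩
  simp [a, b]

theorem kpos_add {l : VR F →L[ℝ] ℝ} (hl : l ∈ KPos F) (x : Vec F) {a : ℝ} (ha : 0 ≤ a) :
    l + a • qf x ∈ KPos F := by
  intro h hh h0
  have h1 := hl h hh h0
  have h2 : (l + a • qf x) h = l h + a * qf x h := rfl
  rw [h2]
  have := mul_nonneg ha (qf_nonneg hh x)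
  linarith

theorem kpos_smul {l : VR F →L[ℝ] ℝ} (hl : l ∈ KPos F) {a : ℝ} (ha : 0 < a) :
    a • l ∈ KPos F := by
  intro h hh h0
  exact mul_pos ha (hl h hh h0)

theorem kpos_bounded {l : VR F →L[ℝ] ℝ} (hl : l ∈ KPos F) (t : ℝ) :
    Bornology.IsBounded {h : VR F | PSD h ∧ l h ≤ t} := by
  obtain ⟨ε, hε, h1⟩ := KoePos_eps hl
  rw [isBounded_iff_forall_norm_le]
  refine ⟨t / ε, fun h hh => ?_⟩
  rw [le_div_iff₀ hε]
  have := h1 h hh.1
  linarith [hh.2]

end Pool.Agent.CG2
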