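import Pool.Agent.CG3.SelP

/-!
# Locally finite simple polyhedra
-/

noncomputable section

namespace Pool.Agent.CG2

open Pool.Agent.CG3

/-- The data of a locally finite simple polyhedron `Pi` in a finite dimensional real vector space,
given by the inequalities `c e ≤ q e h`, `e ∈ A`, together with an open cone `Pos` of linear
functionals which are proper and bounded below on `Pi`. -/
structure PolySys (E V : Type) [NormedAddCommGroup V] [NormedSpace ℝ V]
    [FiniteDimensional ℝ V] where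
  /-- the facets -/
  A : Set E
  /-- the linear functionals -/
  q : E → (V →L[ℝ] ℝ)
  /-- the constants -/
  c : E → ℝ
  /-- the positive functionals -/
  Pos : Set (V →L[ℝ] ℝ)
  ctbl : A.Countable
  ne : {h : V | ∀ e ∈ A, c e ≤ q e h}.Nonempty
  pos_ne : Pos.Nonempty
  comp : ∀ l ∈ Pos, ∀ t : ℝ, IsCompact {h : V | (∀ e ∈ A, c e ≤ q e h) ∧ l h ≤ t}
  locfin : ∀ h : V, (∀ e ∈ A, c e ≤ q e h) → ∃ U ∈ nhds h,
    {e | e ∈ A ∧ ∃ h' ∈ U, q e h' ≤ c e}.Finite
  indep : ∀ h : V, (∀ e ∈ A, c e ≤ q e h) →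
    LinearIndependent ℝ (fun e : {e // e ∈ A ∧ q e h = c e} => q e.1)
  pos_open : IsOpen Pos
  pos_add : ∀ l ∈ Pos, ∀ e ∈ A, ∀ a : ℝ, 0 ≤ a → l + a • q e ∈ Pos
  pos_smul : ∀ l ∈ Pos, ∀ a : ℝ, 0 < a → a • l ∈ Pos
  unb : ¬ Bornology.IsBounded {h : V | ∀ e ∈ A, c e ≤ q e h}

variable {E V : Type} [NormedAddCommGroup V] [NormedSpace ℝ V] [FiniteDimensional ℝ V]

namespace PolySys

variable (P : PolySys E V)

/-- The polyhedron. -/
def Pi : Set V := {h : V | ∀ e ∈ P.A, P.c e ≤ P.q e h}

/-- The points of the polyhedron where all inequalities of `R` are equalities. -/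
def Fc (R : Finset E) : Set V := {h | h ∈ P.Pi ∧ ∀ e ∈ R, P.q e h = P.c e}

/-- `R` is a set of facets with a common point. -/
def Face (R : Finset E) : Prop := (∀ e ∈ R, e ∈ P.A) ∧ (P.Fc R).Nonempty

/-- The cells are the faces whose sum of functionals is positive. -/
def Cell (R : Finset E) : Prop := P.Face R ∧ ∑ e ∈ R, P.q e ∈ P.Pos

/-- `S` is the set of the facets through the vertex `h`. -/
structure Vx (S : Finset E) (h : V) : Prop where
  mem : h ∈ P.Pi
  tight : ∀ e, e ∈ S ↔ e ∈ P.A ∧ P.q e h = P.c e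
  card : S.card = Module.finrank ℝ V

open Classical in
/-- The direction of the edge leaving the facet `e` at the vertex with facets `S`. -/
def dv (S : Finset E) (e : E) : V :=
  if h : ∃ d : V, P.q e d = 1 ∧ ∀ e' ∈ S, e' ≠ e → P.q e' d = 0 then h.choose else 0

/-- The functional `l` is positive and not constant on any edge. -/
structure Gen (l : V →L[ℝ] ℝ) : Prop where
  pos : l ∈ P.Pos
  ne : ∀ S h, P.Vx S h → ∀ e ∈ S, l (P.dv S e) ≠ 0

end PolySys

end Pool.Agent.CG2
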