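import Pool.Agent.CG2.KoeCls
import Pool.Agent.CG2.PolyDefs

/-!
# The Koecher polyhedron
-/

noncomputable section

namespace Pool.Agent.CG2

open NumberField IsDedekindDomain Matrix

variable {F : Type} [Field F] [NumberField F]

theorem KoeSys_pd (N : ℕ) (C : Cls F N → ℝ) (hC : GoodC N C) (g : GA F) (h : VR F)
    (hh : ∀ e ∈ {x : Vec F | x ∈ Lat g ∧ x ≠ 0}, C (cls N g e) ≤ qf e h) : PD h :=
  pd_of_lat g h fun x hx hx0 => (hC.1 _).1.le.trans (hh x ⟨hx, hx0⟩)

theorem KoeSys_inj (N : ℕ) (hN : 3 ≤ N) (C : Cls F N → ℝ) (hC : GoodC N C) (g : GA F) (h : VR F)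
    (hh : ∀ e ∈ {x : Vec F | x ∈ Lat g ∧ x ≠ 0}, C (cls N g e) ≤ qf e h) {x y : Vec F}
    (hx : x ∈ Lat g) (hy : y ∈ Lat g) (hqx : qf x h = C (cls N g x))
    (hqy : qf y h = C (cls N g y)) (hxy : cls N g x = cls N g y) : x = y := by
  obtain ⟨u, hu, hxyu⟩ := cls_eq N (by omega) g x y hx hy hxy
  by_contra hne
  have hu0 : u ≠ 0 := by
    rintro rfl
    apply hne
    rw [smul_zero, sub_eq_zero] at hxyu
    exact hxyu
  have h1 : 1 ≤ qf u h := (hC.1 _).1.le.trans (hh u ⟨hu, hu0⟩)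
  have hpsd := (KoeSys_pd N C hC g h hh).psd
  have h2 := qf_sub_le hpsd x y
  rw [hxyu, qf_natCast, hqx, hqy] at h2
  have h3 := (hC.1 (cls N g x)).2
  have h4 := (hC.1 (cls N g y)).2
  have h5 : (3 : ℝ) ≤ N := by exact_mod_cast hN
  have h6 : (9 : ℝ) ≤ (N : ℝ) ^ 2 := by nlinarith
  nlinarith

theorem KoeSys_ctbl : Countable F := by
  let b := Module.finBasis ℚ F
  exact b.equivFun.toEquiv.countable_iff.2 inferInstance

/-- The Koecher polyhedron of the lattice `g Ô² ∩ F²`, with weights given by the classes modulo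
`N`. -/
def koe (N : ℕ) (hN : 3 ≤ N) (C : Cls F N → ℝ) (hC : GoodC N C) (g : GA F) :
    PolySys (Vec F) (VR F) where
  A := {x | x ∈ Lat g ∧ x ≠ 0}
  q := qf
  c x := C (cls N g x)
  Pos := KPos F
  ctbl := by
    have : Countable F := KoeSys_ctbl
    have h2 : Countable (Vec F) := inferInstanceAs (Countable (Fin 2 → F))
    exact Set.to_countable _
  ne := by
    obtain ⟨h, _, h2⟩ := exists_large g
    refine ⟨h, fun e he => ?_⟩
    have := (hC.1 (cls N g e)).2
    have := h2 e he.1 he.2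
    linarith
  pos_ne := kpos_nonempty
  comp := by
    intro l hl t
    refine Metric.isCompact_of_isClosed_isBounded ?_ ?_
    · have h1 : {h : VR F | (∀ e ∈ {x : Vec F | x ∈ Lat g ∧ x ≠ 0}, C (cls N g e) ≤ qf e h) ∧
          l h ≤ t} = (⋂ e ∈ {x : Vec F | x ∈ Lat g ∧ x ≠ 0}, {h : VR F | C (cls N g e) ≤ qf e h}) ∩
            {h : VR F | l h ≤ t} := by
        ext h
        simp only [Set.mem_ofPred_eq, Set.mem_inter_iff, Set.mem_iInter]
      rw [h1]
      refine IsClosed.inter (isClosed_biInter fun e _ => ?_) ?_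
      · exact isClosed_le continuous_const (qf e).continuous
      · exact isClosed_le l.continuous continuous_const
    · refine (kpos_bounded hl t).subset ?_
      rintro h ⟨h1, h2⟩
      exact ⟨(KoeSys_pd N C hC g h h1).psd, h2⟩
  locfin := by
    intro h hh
    obtain ⟨ε, U, hε, hU, hlow⟩ := (KoeSys_pd N C hC g h hh).lower
    refine ⟨U, hU, ?_⟩
    refine (Lat_finite g (Real.sqrt (9 / 8 / ε))).subset ?_
    rintro x ⟨⟨hx, _⟩, h', hh', hq⟩
    refine ⟨hx, fun w i => ?_⟩
    have h1 : ∑ w : InfinitePlace F, ε * (‖w.embedding (x 0)‖ ^ 2 + ‖w.embedding (x 1)‖ ^ 2) ≤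
        9 / 8 := by
      calc _ ≤ qf x h' := by
            rw [qf_apply]
            exact Finset.sum_le_sum fun w _ => hlow h' hh' w _ _
        _ ≤ C (cls N g x) := hq
        _ ≤ 9 / 8 := (hC.1 _).2.le
    have h2 : ε * (‖w.embedding (x 0)‖ ^ 2 + ‖w.embedding (x 1)‖ ^ 2) ≤ 9 / 8 :=
      (Finset.single_le_sum (f := fun w : InfinitePlace F =>
        ε * (‖w.embedding (x 0)‖ ^ 2 + ‖w.embedding (x 1)‖ ^ 2)) (fun w _ => by positivity)
        (Finset.mem_univ w)).trans h1
    have h3 : ‖w.embedding (x i)‖ ^ 2 ≤ ‖w.embedding (x 0)‖ ^ 2 + ‖w.embedding (x 1)‖ ^ 2 := by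
      fin_cases i
      · simp only [Fin.zero_eta]
        nlinarith [sq_nonneg ‖w.embedding (x 1)‖]
      · simp only [Fin.mk_one]
        nlinarith [sq_nonneg ‖w.embedding (x 0)‖]
    have h4 : ‖w.embedding (x i)‖ ^ 2 ≤ 9 / 8 / ε := by
      rw [le_div_iff₀ hε]
      nlinarith
    rw [← InfinitePlace.norm_embedding_eq]
    exact Real.le_sqrt_of_sq_le h4
  indep := by
    intro h hh
    rw [linearIndependent_iff_finset_linearIndependent]
    intro s
    have hinj : Function.Injective (Subtype.val : {e : Vec F // e ∈ {x : Vec F | x ∈ Lat g ∧ x ≠ 0} ∧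
      qf e h = C (cls N g e)} → Vec F) := Subtype.val_injective
    have h1 := hC.2 (s.map ⟨Subtype.val, hinj⟩) (cls N g) (by
      intro x hx y hy hxy
      simp only [Finset.coe_map, Function.Embedding.coeFn_mk, Set.mem_image, Finset.mem_coe] at hx hy
      obtain ⟨x', _, rfl⟩ := hx
      obtain ⟨y', _, rfl⟩ := hy
      exact KoeSys_inj N hN C hC g h hh x'.2.1.1 y'.2.1.1 x'.2.2 y'.2.2 hxy) h (by
      intro x hx
      simp only [Finset.mem_map, Function.Embedding.coeFn_mk] at hx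
      obtain ⟨x', _, rfl⟩ := hx
      exact x'.2.2)
    let f : s → {x : Vec F // x ∈ s.map ⟨Subtype.val, hinj⟩} := fun x =>
      ⟨x.1.1, Finset.mem_map.2 ⟨x.1, x.2, rfl⟩⟩
    have hf : Function.Injective f := by
      intro a b hab
      apply Subtype.ext
      apply Subtype.ext
      have h2 := Subtype.ext_iff.1 hab
      exact h2
    exact h1.comp f hf
  pos_open := kpos_open
  pos_add := fun l hl e _ a ha => kpos_add hl e ha
  pos_smul := fun l hl a ha => kpos_smul hl ha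
  unb := by
    intro hb
    obtain ⟨h, hpd, h2⟩ := exists_large g
    have hne : h ≠ 0 := by
      rintro rfl
      obtain ⟨w⟩ := (inferInstance : Nonempty (InfinitePlace F))
      have := hpd w 1 0 (Or.inl one_ne_zero)
      simp [Hh] at this
    obtain ⟨B, hB⟩ := hb.exists_norm_le
    have hpos : 0 < ‖h‖ := norm_pos_iff.2 hne
    obtain ⟨n, hn⟩ := exists_nat_gt (B / ‖h‖)
    have h3 : ((n : ℝ) + 1) • h ∈ {h : VR F | ∀ e ∈ {x : Vec F | x ∈ Lat g ∧ x ≠ 0},
        C (cls N g e) ≤ qf e h} := by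
      intro e he
      have h4 := h2 e he.1 he.2
      have h5 := (hC.1 (cls N g e)).2
      rw [map_smul, smul_eq_mul]
      have h6 : (0 : ℝ) ≤ n := Nat.cast_nonneg n
      nlinarith
    have h4 := hB _ h3
    rw [norm_smul, Real.norm_eq_abs, abs_of_nonneg (by positivity)] at h4
    rw [div_lt_iff₀ hpos] at hn
    nlinarith

/-- Two tight vectors with the same class are equal. -/
theorem koe_cls_inj (N : ℕ) (hN : 3 ≤ N) (C : Cls F N → ℝ) (hC : GoodC N C) (g : GA F)
    {h : VR F} (hh : h ∈ (koe N hN C hC g).Pi) {x y : Vec F} (hx : x ∈ Lat g) (hx0 : x ≠ 0)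
    (hy : y ∈ Lat g) (hy0 : y ≠ 0) (hqx : qf x h = C (cls N g x)) (hqy : qf y h = C (cls N g y))
    (hxy : cls N g x = cls N g y) : x = y :=
  KoeSys_inj N hN C hC g h hh hx hy hqx hqy hxy

end Pool.Agent.CG2
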