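import Pool.Agent.CG2.Killed
import Pool.Agent.CG2.FinH
import Pool.Agent.CG3.Nakayama

/-!
# The degrees `0` and `1`: devissage
-/

noncomputable section

namespace Pool.Agent.CG2

open CategoryTheory NumberField IsDedekindDomain Matrix
open Pool.Agent.CG3 (nakayama_loc mem_of_support)

variable {F : Type} [Field F] [NumberField F] {S : Set (Pl F)} {K : Subgroup (GA F)}
variable {O : Type} [CommRing O]

/-- The localisation of the cohomology at `m` is zero. -/
def Dead {W : Type} [AddCommGroup W] [Module O W]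
    (τ : Representation O K W) (hU : UnramOff K τ S) (i : ℕ) (m : Ideal (HeckeAlg S O)) : Prop :=
  ∀ z : groupCohomology (coeff K τ) i, ∃ t : HeckeAlg S O, t ∉ m ∧ hact K τ hU i t z = 0

theorem not_inSupport_of_dead {W : Type} [AddCommGroup W] [Module O W]
    {τ : Representation O K W} {hU : UnramOff K τ S} {i : ℕ} {m : Ideal (HeckeAlg S O)}
    (h : Dead τ hU i m) : ¬ InSupport K τ hU i m := by
  rintro ⟨z, hz⟩
  obtain ⟨t, ht, h0⟩ := h z
  exact hz t ht h0

/-- Devissage. -/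
theorem dead_ext {W' W W'' : Type} [AddCommGroup W] [Module O W]
    [AddCommGroup W'] [Module O W'] [AddCommGroup W''] [Module O W'']
    (τ' : Representation O K W') (τ : Representation O K W) (τ'' : Representation O K W'')
    (hU' : UnramOff K τ' S) (hU : UnramOff K τ S) (hU'' : UnramOff K τ'' S)
    (ι : W' →ₗ[O] W) (hι : ∀ k w, ι (τ' k w) = τ k (ι w)) (hinj : Function.Injective ι)
    (π : W →ₗ[O] W'') (hπ : ∀ k w, π (τ k w) = τ'' k (π w)) (hsurj : Function.Surjective π)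
    (hex : LinearMap.range ι = LinearMap.ker π) (i : ℕ) (m : Ideal (HeckeAlg S O)) [m.IsPrime]
    (h' : Dead τ' hU' i m) (h'' : Dead τ'' hU'' i m) : Dead τ hU i m := by
  intro z
  obtain ⟨t, ht, ht0⟩ := h'' (cohMap τ τ'' π hπ i z)
  rw [← cohMap_hecke τ τ'' hU hU'' π hπ] at ht0
  obtain ⟨z', hz'⟩ := cohMap_exact τ' τ τ'' ι hι hinj π hπ hsurj hex i _ ht0
  obtain ⟨t', ht', ht'0⟩ := h' z'
  refine ⟨t' * t, fun hmem => ?_, ?_⟩
  · rcases (Ideal.IsPrime.mem_or_mem ‹_› hmem) with h | h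
    · exact ht' h
    · exact ht h
  · rw [map_mul, Module.End.mul_apply, ← hz', ← cohMap_hecke τ' τ hU' hU ι hι, ht'0, map_zero]

/-- The condition on `m` opposite to the conclusion. -/
def Bad (m : Ideal (HeckeAlg S O)) : Prop := ∃ (v : Pl F) (hv : v ∉ S), Pv O v hv ∉ m

theorem dead_killed {p : ℕ} [Fact p.Prime] (hF : TwoPl F) (hS : ∀ v : Pl F, Above p v → v ∈ S)
    (hK : OC K S) {W : Type} [AddCommGroup W]
    [Module O W] (τ : Representation O K W) (hU : UnramOff K τ S) (hp : ∀ v : W, p • v = 0)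
    (hsm : Smooth K τ S) (i : ℕ) (hi : i < 2) (m : Ideal (HeckeAlg S O)) [m.IsPrime]
    (hbad : Bad m) : Dead τ hU i m := by
  obtain ⟨v, hv, hm⟩ := hbad
  intro z
  refine ⟨Pv O v hv ^ 3, fun h => hm (Ideal.IsPrime.mem_of_pow_mem ‹_› _ h), ?_⟩
  exact killed hF hS hK τ hU hp hsm i hi v hv z

theorem smooth_sub {W : Type} [AddCommGroup W] [Module O W] {τ : Representation O K W}
    (h : Smooth K τ S) (T : Submodule O W) (hT : ∀ k, ∀ w ∈ T, τ k w ∈ T) :
    Smooth K (subRep τ T hT) S := by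
  obtain ⟨U, hU, h1, h2⟩ := h
  refine ⟨U, hU, h1, fun k hk w => ?_⟩
  have h3 := h2 k hk w.1
  rw [Submodule.bot_smul, Submodule.mem_bot] at h3 ⊢
  exact Subtype.ext h3

theorem smooth_quo {W : Type} [AddCommGroup W] [Module O W] {τ : Representation O K W}
    (h : Smooth K τ S) (T : Submodule O W) (hT : ∀ k, ∀ w ∈ T, τ k w ∈ T) :
    Smooth K (quoRep τ T hT) S := by
  obtain ⟨U, hU, h1, h2⟩ := h
  refine ⟨U, hU, h1, fun k hk w => ?_⟩
  obtain ⟨w, rfl⟩ := Submodule.Quotient.mk_surjective T w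
  have h3 := h2 k hk w
  rw [Submodule.bot_smul, Submodule.mem_bot] at h3 ⊢
  change Submodule.Quotient.mk (τ k w) - Submodule.Quotient.mk w = 0
  rw [← Submodule.Quotient.mk_sub, h3, Submodule.Quotient.mk_zero]

theorem dead_tors {p : ℕ} [Fact p.Prime] (hF : TwoPl F) (hS : ∀ v : Pl F, Above p v → v ∈ S)
    (hK : OC K S) (ϖ : O) (hpϖ : ϖ ∣ ((p : ℕ) : O)) (i : ℕ) (hi : i < 2)
    (m : Ideal (HeckeAlg S O)) [m.IsPrime] (hbad : Bad m) (n : ℕ) :
    ∀ (W : Type) [AddCommGroup W] [Module O W] (τ : Representation O K W)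
      (hU : UnramOff K τ S),
      (∀ v : W, ϖ ^ n • v = 0) → Smooth K τ S → Dead τ hU i m := by
  have hkill : ∀ (W : Type) [AddCommGroup W] [Module O W], (∀ v : W, ϖ • v = 0) →
      ∀ v : W, (p : ℕ) • v = 0 := by
    intro W _ _ h v
    obtain ⟨c, hc⟩ := hpϖ
    have : ((p : ℕ) : O) • v = 0 := by
      rw [hc, mul_comm, mul_smul, h, smul_zero]
    rw [Nat.cast_smul_eq_nsmul] at this
    exact this
  induction n with
  | zero =>
    intro W _ _ τ hU h hsm
    refine dead_killed hF hS hK τ hU (hkill W fun v => ?_) hsm i hi m hbad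
    have := h v
    rw [pow_zero, one_smul] at this
    rw [this, smul_zero]
  | succ n ih =>
    intro W _ _ τ hU h hsm
    let T : Submodule O W := LinearMap.range (ϖ • (LinearMap.id : W →ₗ[O] W))
    have hT : ∀ k, ∀ w ∈ T, τ k w ∈ T := by
      rintro k _ ⟨w, rfl⟩
      exact ⟨τ k w, by simp⟩
    refine dead_ext (subRep τ T hT) τ (quoRep τ T hT) (unram_sub hU T hT) hU
      (unram_quo hU T hT) T.subtype (fun k w => rfl)
      T.injective_subtype T.mkQ (fun k w => rfl) T.mkQ_surjective (by simp) i m ?_ ?_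
    · refine ih _ _ _ ?_ (smooth_sub hsm T hT)
      rintro ⟨_, w, rfl⟩
      apply Subtype.ext
      have := h w
      rw [pow_succ, mul_smul] at this
      simpa using this
    · refine dead_killed hF hS hK _ _ (hkill _ fun v => ?_) (smooth_quo hsm T hT) i hi m hbad
      obtain ⟨w, rfl⟩ := Submodule.Quotient.mk_surjective T v
      rw [← Submodule.Quotient.mk_smul, Submodule.Quotient.mk_eq_zero]
      exact ⟨w, by simp⟩

/-- The case of coefficients on which a generator `ϖ` of the maximal ideal is injective. -/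
theorem dead_free {p : ℕ} [Fact p.Prime] (hF : TwoPl F) (hS : ∀ v : Pl F, Above p v → v ∈ S)
    (hK : OC K S) [IsDomain O] [IsDiscreteValuationRing O]
    (ϖ : O) (hϖ : ϖ ∈ IsLocalRing.maximalIdeal O)
    (hpϖ : ϖ ∣ ((p : ℕ) : O)) (i : ℕ) (hi : i < 2)
    (m : Ideal (HeckeAlg S O)) [m.IsMaximal] (hbad : Bad m)
    {W : Type} [AddCommGroup W] [Module O W] [Module.Finite O W]
    (τ : Representation O K W) (hU : UnramOff K τ S) (hinj : ∀ w : W, ϖ • w = 0 → w = 0)
    (hsm : ∀ (T : Submodule O W) (hT : ∀ k, ∀ w ∈ T, τ k w ∈ T),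
      (∀ w : W, ϖ • w ∈ T) → Smooth K (quoRep τ T hT) S) :
    Dead τ hU i m := by
  have := fin_coh01 hK τ i hi
  let φ : W →ₗ[O] W := ϖ • (LinearMap.id : W →ₗ[O] W)
  have hφ : ∀ k w, φ (τ k w) = τ k (φ w) := fun k w => by simp [φ]
  let T : Submodule O W := LinearMap.range φ
  have hT : ∀ k, ∀ w ∈ T, τ k w ∈ T := by
    rintro k _ ⟨w, rfl⟩
    exact ⟨τ k w, by simp [φ]⟩
  have hφinj : Function.Injective φ := by
    rw [injective_iff_map_eq_zero]
    intro w hw
    exact hinj w hw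
  have hUq := unram_quo hU T hT
  have hdead : Dead (quoRep τ T hT) hUq i m := by
    refine dead_tors hF hS hK ϖ hpϖ i hi m hbad 1 _ _ _ (fun v => ?_)
      (hsm T hT fun w => ⟨w, by simp [φ]⟩)
    obtain ⟨w, rfl⟩ := Submodule.Quotient.mk_surjective T v
    rw [← Submodule.Quotient.mk_smul, Submodule.Quotient.mk_eq_zero]
    exact ⟨w, by simp [φ]⟩
  obtain ⟨t, ht, ht0⟩ := nakayama_loc (hact K τ hU i) ϖ hϖ m (by
    intro z
    obtain ⟨t, ht, ht0⟩ := hdead (cohMap τ (quoRep τ T hT) T.mkQ (fun k w => rfl) i z)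
    have ht1 := (cohMap_hecke τ (quoRep τ T hT) hU hUq T.mkQ (fun k w => rfl) i t z).trans ht0
    obtain ⟨z', hz'⟩ := cohMap_exact τ τ (quoRep τ T hT) φ hφ hφinj T.mkQ (fun k w => rfl)
      T.mkQ_surjective (by simp [T]) i _ ht1
    refine ⟨t, ht, z', ?_⟩
    rw [← hz']
    exact cohMap_smul τ ϖ hφ i z')
  exact fun z => ⟨t, ht, ht0 z⟩

/-- The localisation at `m` of the cohomology in degrees `0`, `1` is zero if `m` is bad. -/
theorem dead_all {p : ℕ} [Fact p.Prime] (hF : TwoPl F) (hS : ∀ v : Pl F, Above p v → v ∈ S)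
    (hK : OC K S) [IsDomain O] [IsDiscreteValuationRing O]
    (hpO : ((p : ℕ) : O) ∈ IsLocalRing.maximalIdeal O)
    {W : Type} [AddCommGroup W] [Module O W] [Module.Finite O W]
    (τ : Representation O K W) (hU : UnramOff K τ S) (hτ : Cont K τ S) (i : ℕ) (hi : i < 2)
    (m : Ideal (HeckeAlg S O)) [m.IsMaximal] (hbad : Bad m) : Dead τ hU i m := by
  obtain ⟨ϖ, hϖ⟩ := IsDiscreteValuationRing.exists_irreducible O
  have hmax : IsLocalRing.maximalIdeal O = Ideal.span {ϖ} := hϖ.maximalIdeal_eq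
  have hϖm : ϖ ∈ IsLocalRing.maximalIdeal O := by
    rw [hmax]; exact Ideal.mem_span_singleton_self ϖ
  have hpϖ : ϖ ∣ ((p : ℕ) : O) := by
    rw [hmax, Ideal.mem_span_singleton] at hpO
    exact hpO
  -- elements of `𝔪ⁿ W`
  have hpow : ∀ (n : ℕ) (w : W), w ∈ (IsLocalRing.maximalIdeal O ^ n • ⊤ : Submodule O W) →
      ∃ w', w = ϖ ^ n • w' := by
    intro n w hw
    rw [hmax, Ideal.span_singleton_pow, Submodule.ideal_span_singleton_smul] at hw
    obtain ⟨w', _, hw'⟩ := hw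
    exact ⟨w', hw'.symm⟩
  -- the torsion submodule
  let T : Submodule O W :=
    { carrier := {w | ∃ n : ℕ, ϖ ^ n • w = 0}
      add_mem' := by
        rintro a b ⟨n, hn⟩ ⟨n', hn'⟩
        refine ⟨n + n', ?_⟩
        have h1 : ϖ ^ (n + n') • a = 0 := by
          rw [add_comm, pow_add, mul_smul, hn, smul_zero]
        have h2 : ϖ ^ (n + n') • b = 0 := by
          rw [pow_add, mul_smul, hn', smul_zero]
        rw [smul_add, h1, h2, add_zero]
      zero_mem' := ⟨0, by simp⟩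
      smul_mem' := by
        rintro c a ⟨n, hn⟩
        refine ⟨n, ?_⟩
        rw [← mul_smul, mul_comm, mul_smul, hn, smul_zero] }
  have hT : ∀ k, ∀ w ∈ T, τ k w ∈ T := by
    rintro k w ⟨n, hn⟩
    exact ⟨n, by rw [← map_smul, hn, map_zero]⟩
  have hTdiv : ∀ (n : ℕ) (w : W), ϖ ^ n • w ∈ T → w ∈ T := by
    rintro n w ⟨n', hn'⟩
    exact ⟨n' + n, by rw [pow_add, mul_smul, hn']⟩
  -- a common exponent
  have hN : ∃ N : ℕ, ∀ w ∈ T, ϖ ^ N • w = 0 := by
    have hnoeth : IsNoetherian O W := isNoetherian_of_isNoetherianRing_of_finite O W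
    let f : ℕ →o Submodule O W :=
      { toFun := fun n => LinearMap.ker (ϖ ^ n • (LinearMap.id : W →ₗ[O] W))
        monotone' := by
          intro a b hab w hw
          obtain ⟨c, rfl⟩ := Nat.exists_eq_add_of_le hab
          simp only [LinearMap.mem_ker, LinearMap.smul_apply, LinearMap.id_coe, id_eq] at hw ⊢
          rw [add_comm, pow_add, mul_smul, hw, smul_zero] }
    obtain ⟨N, hN⟩ := monotone_stabilizes_iff_noetherian.2 hnoeth f
    refine ⟨N, ?_⟩
    rintro w ⟨n, hn⟩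
    have h1 : w ∈ f (max N n) := f.monotone (le_max_right N n) (by
      change w ∈ LinearMap.ker _
      simpa using hn)
    rw [← hN _ (le_max_left N n)] at h1
    have h2 : w ∈ LinearMap.ker (ϖ ^ N • (LinearMap.id : W →ₗ[O] W)) := h1
    simpa using h2
  obtain ⟨N, hN⟩ := hN
  refine dead_ext (subRep τ T hT) τ (quoRep τ T hT) (unram_sub hU T hT) hU (unram_quo hU T hT)
      T.subtype (fun k w => rfl)
      T.injective_subtype T.mkQ (fun k w => rfl) T.mkQ_surjective (by simp) i m ?_ ?_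
  · refine dead_tors hF hS hK ϖ hpϖ i hi m hbad N _ _ _ ?_ ?_
    · rintro ⟨w, hw⟩
      apply Subtype.ext
      exact hN w hw
    · obtain ⟨U, hU', h1, hk⟩ := hτ N
      refine ⟨U, hU', h1, fun k hkU => ?_⟩
      rintro ⟨w, hw⟩
      rw [Submodule.bot_smul, Submodule.mem_bot, sub_eq_zero]
      apply Subtype.ext
      change τ k w = w
      obtain ⟨w', hw'⟩ := hpow N _ (hk k hkU w)
      have h2 : ϖ ^ N • w' ∈ T := by
        rw [← hw']
        exact T.sub_mem (hT k w hw) hw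
      have h3 := hN w' (hTdiv N w' h2)
      rw [h3, sub_eq_zero] at hw'
      exact hw'
  · refine dead_free hF hS hK ϖ hϖm hpϖ i hi m hbad _ _ ?_ ?_
    · intro v hv
      obtain ⟨w, rfl⟩ := Submodule.Quotient.mk_surjective T v
      rw [← Submodule.Quotient.mk_smul, Submodule.Quotient.mk_eq_zero] at hv
      rw [Submodule.Quotient.mk_eq_zero]
      exact hTdiv 1 w (by rwa [pow_one])
    · intro T' hT' hϖT'
      obtain ⟨U, hU', h1, hk⟩ := hτ 1
      refine ⟨U, hU', h1, fun k hkU v => ?_⟩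
      obtain ⟨v, rfl⟩ := Submodule.Quotient.mk_surjective T' v
      obtain ⟨w, rfl⟩ := Submodule.Quotient.mk_surjective T v
      obtain ⟨w', hw'⟩ := hpow 1 _ (hk k hkU w)
      rw [Submodule.bot_smul, Submodule.mem_bot]
      change Submodule.Quotient.mk (Submodule.Quotient.mk (τ k w) : W ⧸ T) -
        Submodule.Quotient.mk (Submodule.Quotient.mk w : W ⧸ T) = (0 : (W ⧸ T) ⧸ T')
      rw [← Submodule.Quotient.mk_sub, ← Submodule.Quotient.mk_sub, hw', pow_one,
        Submodule.Quotient.mk_smul, Submodule.Quotient.mk_eq_zero]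
      exact hϖT' _

/-- **L** the lower part. -/
theorem lower {p : ℕ} [Fact p.Prime] (hF : TwoPl F) {S : Set (Pl F)}
    (hS : ∀ v : Pl F, Above p v → v ∈ S) (K : Subgroup (GA F)) (hK : OC K S)
    (O : Type) [CommRing O] [IsDomain O] [IsDiscreteValuationRing O]
    (hpO : ((p : ℕ) : O) ∈ IsLocalRing.maximalIdeal O)
    (W : Type) [AddCommGroup W] [Module O W] [Module.Finite O W]
    (τ : Representation O K W) (hU : UnramOff K τ S) (hτ : Cont K τ S)
    (m : Ideal (HeckeAlg S O)) [m.IsMaximal] (i : ℕ) (hi : i < 2)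
    (hm : InSupport K τ hU i m) :
    ((p : ℕ) : HeckeAlg S O) ∈ m ∧ ∀ (v : Pl F) (hv : v ∉ S),
    (MvPolynomial.X (⟨v, hv⟩, 0) : HeckeAlg S O) ^ 2
      - MvPolynomial.C ((1 + (Nm v : O)) ^ 2) * MvPolynomial.X (⟨v, hv⟩, 1) ∈ m := by
  constructor
  · by_contra hpm
    have := fin_coh01 hK τ i hi
    obtain ⟨t, ht, ht0⟩ := mem_of_support (hact K τ hU i) ((p : ℕ) : O) hpO m (by
      rwa [map_natCast])
    exact not_inSupport_of_dead (fun z => ⟨t, ht, ht0 z⟩) hm
  · by_contra hbad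
    push Not at hbad
    exact not_inSupport_of_dead (dead_all hF hS hK hpO τ hU hτ i hi m hbad) hm

end Pool.Agent.CG2
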