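import Pool.Agent.CG2.TopDefs
import Pool.Agent.CG2.KoeCell
import Pool.Agent.CG2.KoeLine

/-!
# The cohomology in the top degree and the Steinberg module
-/

noncomputable section

namespace Pool.Agent.CG2

open NumberField IsDedekindDomain Matrix Pool.Agent.CG3 CategoryTheory

variable {F : Type} [Field F] [NumberField F]
variable (N : ℕ) (hN : 3 ≤ N) (C : Cls F N → ℝ) (hC : GoodC N C)
variable {O k : Type} [CommRing O] [AddCommGroup k] [Module O k]

/-! ### Translates of tuples and of cells -/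

theorem topMain_mp_one (R : Finset (Vec F)) : Sel.mp (MulAction.toPerm (1 : G F)) R = R := by
  ext x
  rw [Sel.mem_mp]
  change (1 : G F)⁻¹ • x ∈ R ↔ _
  rw [inv_one, one_smul]

theorem topMain_mp_mul (γ δ : G F) (R : Finset (Vec F)) :
    Sel.mp (MulAction.toPerm (γ * δ)) R =
      Sel.mp (MulAction.toPerm γ) (Sel.mp (MulAction.toPerm δ) R) := by
  ext x
  rw [Sel.mem_mp, Sel.mem_mp, Sel.mem_mp]
  change (γ * δ)⁻¹ • x ∈ R ↔ δ⁻¹ • γ⁻¹ • x ∈ R
  rw [_root_.mul_inv_rev, mul_smul]

theorem topMain_im (γ : G F) {j : ℕ} (t : Fin j → Vec F) :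
    Sel.im (γ • t) = Sel.mp (MulAction.toPerm γ) (Sel.im t) :=
  Sel.im_comp (MulAction.toPerm γ) t

theorem topMain_cell {K : Subgroup (GA F)} (hK : K ≤ KN F N) (γ : G F) (b : PtK K) :
    ((ksys N hN C hC hK).X (γ • b)).cell =
      fun R => ((ksys N hN C hC hK).X b).cell (Sel.mp (MulAction.toPerm γ).symm R) := by
  funext R
  have h1 := (ksys N hN C hC hK).eqv γ b (Sel.mp (MulAction.toPerm γ).symm R)
  rw [Sel.mp_mp_symm] at h1
  exact propext h1

theorem topMain_prF {K : Subgroup (GA F)} (y : Pt F) (γ : G F) : prF K y γ = γ • mkK K y := rfl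

theorem topMain_cell1 {K : Subgroup (GA F)} (hK : K ≤ KN F N) (y : Pt F) :
    ((ksys N hN C hC hK).X (prF K y 1)).cell = (koe N hN C hC y.2).Cell := by
  rw [prF, act_one, ksys_cell]

/-- The invariant functions on the cells with coefficients in `FF` are the finitely
supported functions on the cells of the base point. -/
theorem inv_ff {K : Subgroup (GA F)} {S : Set (Pl F)} (hO : OC K S) (hK : K ≤ KN F N)
    (y : Pt F) (j : ℕ) :
    (∀ φ ∈ (ksys N hN C hC hK).Inv (prF K y) (FF K O k) j,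
      AltF (koe N hN C hC y.2).Cell fun t => φ (1, t)) ∧
    (∀ u : (Fin j → Vec F) → k, AltF (koe N hN C hC y.2).Cell u →
      (fun x : G F × (Fin j → Vec F) => u (x.1⁻¹ • x.2)) ∈
        (ksys N hN C hC hK).Inv (prF K y) (FF K O k) j) := by
  have hc1 := topMain_cell1 N hN C hC hK y
  refine ⟨?_, ?_⟩
  · intro φ hφ
    have h1 := hφ.1.1 1
    rw [hc1] at h1
    refine ⟨h1, ?_⟩
    obtain ⟨Φ, hΦ, hc⟩ := cells_fin N hN C hC hK hO j
    have hfin : ∀ (p : Pt F × Finset (Vec F)) (t₀ : Fin j → Vec F),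
        {γ : G F | mkK K (act γ y) = mkK K p.1 ∧ φ (γ, t₀) ≠ 0}.Finite :=
      fun p t₀ => (hφ.1.2 t₀) p.1 y
    have hT : ∀ R₀ : Finset (Vec F), {t₀ : Fin j → Vec F | ∀ i, t₀ i ∈ R₀}.Finite := fun R₀ =>
      Set.Finite.pi' fun _ => R₀.finite_toSet
    refine (Set.Finite.biUnion hΦ fun p _ => Set.Finite.biUnion (hT p.2) fun t₀ _ =>
      (hfin p t₀).image fun γ => γ⁻¹ • t₀).subset ?_
    intro t ht
    have h2 := h1.1 t ht
    obtain ⟨y₀, R₀, hm, γ, κ, hκ, hy, hR⟩ := hc y (Sel.im t) h2.2 (Sel.card_im h2.1)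
    refine Set.mem_biUnion hm (Set.mem_biUnion (x := γ⁻¹ • t) ?_ ⟨γ⁻¹, ⟨?_, ?_⟩, ?_⟩)
    · intro i
      have h3 : t i ∈ Sel.im t := Sel.mem_im.2 ⟨i, rfl⟩
      rw [hR, Sel.mem_mp] at h3
      exact h3
    · have h3 : act γ⁻¹ y = rt y₀ κ := by
        rw [hy, act_rt, ← act_mul, inv_mul_cancel, act_one]
      rw [h3]
      exact mkK_rt y₀ hκ
    · have h3 := hφ.2 γ⁻¹ 1 t
      rw [smul_eq_mul, mul_one] at h3
      rw [h3]
      exact ht
    · change (γ⁻¹)⁻¹ • γ⁻¹ • t = t
      rw [inv_inv, smul_inv_smul]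
  · intro u hu
    refine ⟨⟨fun γ => ?_, fun t => ?_⟩, fun γ γ' t => ?_⟩
    · have h1 : prF K y γ = γ • prF K y 1 := by
        rw [topMain_prF, topMain_prF, one_smul]
      rw [h1, topMain_cell, hc1]
      exact Sel.altc_comp' _ (MulAction.toPerm γ) hu.1
    · rw [ff_iff hO y]
      intro b
      refine Set.Finite.of_finite_image (f := fun γ : G F => γ⁻¹ • t) (hu.2.subset ?_) ?_
      · rintro _ ⟨γ, ⟨-, h⟩, rfl⟩
        exact h
      · rintro γ ⟨h1, h2⟩ γ' ⟨h3, -⟩ h4
        have h5 := (hu.1.1 _ h2).2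
        rw [← hc1, prF, act_one] at h5
        have h6 : γ'⁻¹ * γ = 1 := by
          refine (ksys N hN C hC hK).free (γ'⁻¹ * γ) (mkK K y) _ h5 ?_ ?_
          · rw [mul_smul, ← topMain_prF, h1, ← h3, topMain_prF, inv_smul_smul]
          · rw [← topMain_im, mul_smul, smul_inv_smul]
            exact congrArg Sel.im h4.symm
        exact (inv_mul_eq_one.1 h6).symm
    · change u ((γ * γ')⁻¹ • γ • t) = u (γ'⁻¹ • t)
      rw [_root_.mul_inv_rev, mul_smul, inv_smul_smul]

/-! ### The representatives of the orbits of cells -/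

/-- The orbits of the pairs of a point and a finite set of vectors. -/
def topMainSetoid (K : Subgroup (GA F)) : Setoid (PtK K × Finset (Vec F)) where
  r p q := ∃ γ : G F, γ • p.1 = q.1 ∧ Sel.mp (MulAction.toPerm γ) p.2 = q.2
  iseqv :=
    { refl := fun p => ⟨1, one_smul _ _, topMain_mp_one _⟩
      symm := by
        rintro p q ⟨γ, h1, h2⟩
        refine ⟨γ⁻¹, ?_, ?_⟩
        · rw [← h1, inv_smul_smul]
        · rw [← h2, ← topMain_mp_mul, inv_mul_cancel, topMain_mp_one]
      trans := by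
        rintro p q r ⟨γ, h1, h2⟩ ⟨δ, h3, h4⟩
        refine ⟨δ * γ, ?_, ?_⟩
        · rw [mul_smul, h1, h3]
        · rw [topMain_mp_mul, h2, h4] }

/-- A representative of an orbit. -/
def topMainRep {K : Subgroup (GA F)} (p : PtK K × Finset (Vec F)) : PtK K × Finset (Vec F) :=
  (Quotient.mk (topMainSetoid K) p).out

theorem topMainRep_spec {K : Subgroup (GA F)} (p : PtK K × Finset (Vec F)) :
    ∃ γ : G F, γ • (topMainRep p).1 = p.1 ∧ Sel.mp (MulAction.toPerm γ) (topMainRep p).2 = p.2 :=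
  Quotient.mk_out (s := topMainSetoid K) p

theorem topMainRep_eq {K : Subgroup (GA F)} {p q : PtK K × Finset (Vec F)} (γ : G F)
    (h1 : γ • p.1 = q.1) (h2 : Sel.mp (MulAction.toPerm γ) p.2 = q.2) :
    topMainRep p = topMainRep q := by
  have h3 : Quotient.mk (topMainSetoid K) p = Quotient.mk (topMainSetoid K) q :=
    Quotient.sound ⟨γ, h1, h2⟩
  rw [topMainRep, topMainRep, h3]

theorem topMainRep_rep {K : Subgroup (GA F)} (p : PtK K × Finset (Vec F)) :
    topMainRep (topMainRep p) = topMainRep p := by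
  obtain ⟨γ, h1, h2⟩ := topMainRep_spec p
  exact topMainRep_eq γ h1 h2

/-- The invariant functions on the pairs with trivial coefficients are sums of the images of the
maps `π_y`. -/
theorem inv_span {K : Subgroup (GA F)} {S : Set (Pl F)} (hO : OC K S) (hK : K ≤ KN F N)
    (φ : Pt F × (Fin 2 → Vec F) → k)
    (hφ : φ ∈ (ksys N hN C hC hK).Inv (mkK K) (Forms K (triv K O k)) 2) :
    ∃ (T : Finset (Pt F)) (u : Pt F → (Fin 2 → Vec F) → k),
      (∀ y ∈ T, AltF (koe N hN C hC y.2).Cell (u y)) ∧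
      φ = ∑ y ∈ T, mapC (FF K O k) (piLin K O k y)
        (fun x : G F × (Fin 2 → Vec F) => u y (x.1⁻¹ • x.2)) := by
  classical
  obtain ⟨Φ, hΦ, hc⟩ := cells_fin N hN C hC hK hO 2
  -- the representatives
  set T' : Set (PtK K × Finset (Vec F)) := (fun p : Pt F × Finset (Vec F) =>
    topMainRep (mkK K p.1, p.2)) '' Φ with hT'
  have hT'fin : T'.Finite := hΦ.image _
  have hT'rep : ∀ p ∈ T', topMainRep p = p := by
    rintro _ ⟨p, -, rfl⟩
    exact topMainRep_rep _
  have hcov : ∀ (x : Pt F) (R : Finset (Vec F)), (koe N hN C hC x.2).Cell R → R.card = 2 →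
      topMainRep (mkK K x, R) ∈ T' := by
    intro x R hR hR2
    obtain ⟨y₀, R₀, hm, γ, κ, hκ, hy, hR'⟩ := hc x R hR hR2
    refine ⟨(y₀, R₀), hm, ?_⟩
    refine topMainRep_eq γ ?_ hR'.symm
    change γ • mkK K y₀ = mkK K x
    rw [hy, mkK_rt _ hκ]
    rfl
  -- the values of `φ`
  have hval : ∀ (x y : Pt F) (t : Fin 2 → Vec F), mkK K y = mkK K x → φ (y, t) = φ (x, t) := by
    intro x y t h
    obtain ⟨κ, hκ, rfl⟩ := mkK_eq.1 h
    exact ((hφ.1.2 t) y ⟨κ, hκ⟩).symm
  have hval2 : ∀ (x y : Pt F) (γ : G F) (t : Fin 2 → Vec F), prF K y γ = mkK K x →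
      φ (y, γ⁻¹ • t) = φ (x, t) := by
    intro x y γ t h
    have h1 := hφ.2 γ y (γ⁻¹ • t)
    rw [smul_inv_smul] at h1
    rw [← h1]
    exact hval _ _ _ h
  have hcell : ∀ (x : Pt F) (t : Fin 2 → Vec F), φ (x, t) ≠ 0 →
      Function.Injective t ∧ (koe N hN C hC x.2).Cell (Sel.im t) := by
    intro x t h
    have h1 := (hφ.1.1 x).1 t h
    rw [ksys_cell] at h1
    exact h1
  -- the functions
  let u : Pt F → (Fin 2 → Vec F) → k := fun y t =>
    if (mkK K y, Sel.im t) ∈ T' then φ (y, t) else 0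
  have hu : ∀ y, AltF (koe N hN C hC y.2).Cell (u y) := by
    intro y
    refine ⟨⟨fun t ht => ?_, fun t π => ?_⟩, ?_⟩
    · refine hcell y t fun h => ht ?_
      change (if (mkK K y, Sel.im t) ∈ T' then φ (y, t) else 0) = 0
      rw [h, ite_self]
    · change (if (mkK K y, Sel.im (t ∘ π)) ∈ T' then φ (y, t ∘ π) else 0) =
        (Equiv.Perm.sign π : ℤ) • (if (mkK K y, Sel.im t) ∈ T' then φ (y, t) else 0)
      have h1 : φ (y, t ∘ π) = (Equiv.Perm.sign π : ℤ) • φ (y, t) := (hφ.1.1 y).2 t π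
      rw [Sel.im_perm, h1]
      split_ifs
      · rfl
      · rw [smul_zero]
    · refine (Set.Finite.biUnion hT'fin (t := fun p => {t : Fin 2 → Vec F | ∀ i, t i ∈ p.2})
        fun p _ => Set.Finite.pi' fun _ => p.2.finite_toSet).subset ?_
      intro t ht
      have h1 : (mkK K y, Sel.im t) ∈ T' := by
        by_contra h
        apply ht
        change (if (mkK K y, Sel.im t) ∈ T' then φ (y, t) else 0) = 0
        rw [if_neg h]
      exact Set.mem_biUnion h1 fun i => Sel.mem_im.2 ⟨i, rfl⟩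
  refine ⟨(hT'fin.image fun p => outK p.1).toFinset, u, fun y _ => hu y, ?_⟩
  funext z
  obtain ⟨x, t⟩ := z
  rw [Finset.sum_apply]
  have hmap : ∀ y : Pt F, mapC (FF K O k) (piLin K O k y)
      (fun x : G F × (Fin 2 → Vec F) => u y (x.1⁻¹ • x.2)) (x, t) =
      ∑ᶠ γ : G F, if prF K y γ = mkK K x ∧ (mkK K y, Sel.im (γ⁻¹ • t)) ∈ T' then φ (x, t)
        else 0 := by
    intro y
    rw [mapC, dif_pos (((inv_ff (O := O) N hN C hC hO hK y 2).2 (u y) (hu y)).1.2 t)]
    change (∑ᶠ γ : G F, (if prF K y γ = mkK K x then u y (γ⁻¹ • t) else 0)) = _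
    refine finsum_congr fun γ => ?_
    by_cases h1 : prF K y γ = mkK K x
    · by_cases h2 : (mkK K y, Sel.im (γ⁻¹ • t)) ∈ T'
      · rw [if_pos h1, if_pos ⟨h1, h2⟩]
        change (if (mkK K y, Sel.im (γ⁻¹ • t)) ∈ T' then φ (y, γ⁻¹ • t) else 0) = _
        rw [if_pos h2, hval2 x y γ t h1]
      · rw [if_pos h1, if_neg fun h => h2 h.2]
        change (if (mkK K y, Sel.im (γ⁻¹ • t)) ∈ T' then φ (y, γ⁻¹ • t) else 0) = _
        rw [if_neg h2]
    · rw [if_neg h1, if_neg fun h => h1 h.1]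
  rw [Finset.sum_congr rfl fun y _ => hmap y]
  by_cases h0 : φ (x, t) = 0
  · rw [h0]
    simp
  have hct := hcell x t h0
  have hp₀ := hcov x _ hct.2 (Sel.card_im hct.1)
  set p₀ := topMainRep (mkK K x, Sel.im t) with hp₀'
  obtain ⟨γ₀, hγ1, hγ2⟩ := topMainRep_spec (K := K) (mkK K x, Sel.im t)
  rw [← hp₀'] at hγ1 hγ2
  change γ₀ • p₀.1 = mkK K x at hγ1
  change Sel.mp (MulAction.toPerm γ₀) p₀.2 = Sel.im t at hγ2
  have hcell₀ : ((ksys N hN C hC hK).X p₀.1).cell p₀.2 := by
    rw [← (ksys N hN C hC hK).eqv γ₀, hγ1, hγ2, ksys_cell]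
    exact hct.2
  have him : Sel.im (γ₀⁻¹ • t) = p₀.2 := by
    rw [topMain_im, ← hγ2, ← topMain_mp_mul, inv_mul_cancel, topMain_mp_one]
  -- uniqueness
  have huniq : ∀ (y : Pt F) (γ : G F), prF K y γ = mkK K x →
      (mkK K y, Sel.im (γ⁻¹ • t)) ∈ T' → mkK K y = p₀.1 ∧ γ = γ₀ := by
    intro y γ h1 h2
    have h3 : topMainRep (mkK K y, Sel.im (γ⁻¹ • t)) = p₀ := by
      refine topMainRep_eq γ h1 ?_
      change Sel.mp (MulAction.toPerm γ) (Sel.im (γ⁻¹ • t)) = Sel.im t
      rw [← topMain_im, smul_inv_smul]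
    rw [hT'rep _ h2] at h3
    have h4 : mkK K y = p₀.1 := congrArg Prod.fst h3
    have h5 : Sel.im (γ⁻¹ • t) = p₀.2 := congrArg Prod.snd h3
    refine ⟨h4, ?_⟩
    have h6 : γ⁻¹ * γ₀ = 1 := by
      refine (ksys N hN C hC hK).free (γ⁻¹ * γ₀) p₀.1 p₀.2 hcell₀ ?_ ?_
      · rw [mul_smul, hγ1, ← h1, topMain_prF, inv_smul_smul, h4]
      · rw [topMain_mp_mul, hγ2, ← topMain_im, h5]
    exact inv_mul_eq_one.1 h6
  have hm₀ : prF K (outK p₀.1) γ₀ = mkK K x ∧
      (mkK K (outK p₀.1), Sel.im (γ₀⁻¹ • t)) ∈ T' := by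
    rw [topMain_prF, mkK_outK, him]
    exact ⟨hγ1, hp₀⟩
  rw [Finset.sum_eq_single (outK p₀.1), finsum_eq_single _ γ₀, if_pos hm₀]
  · intro γ hγ
    rw [if_neg]
    rintro ⟨h1, h2⟩
    exact hγ (huniq _ _ h1 h2).2
  · intro y hy hne
    refine finsum_eq_zero_of_forall_eq_zero fun γ => ?_
    rw [if_neg]
    rintro ⟨h1, h2⟩
    apply hne
    rw [Set.Finite.mem_toFinset] at hy
    obtain ⟨q, -, rfl⟩ := hy
    have h3 := (huniq _ _ h1 h2).1
    rw [mkK_outK] at h3
    change outK q.1 = _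
    rw [h3]
  · intro h
    exfalso
    apply h
    rw [Set.Finite.mem_toFinset]
    exact ⟨p₀, hp₀, rfl⟩

/-! ### The differential -/

omit [Field F] [NumberField F] in
theorem topMain_dc (Y : Sel.Cx (Vec F)) {m : ℕ} {w : (Fin (m + 1) → Vec F) → k}
    (hw : Sel.Altc Y.cell w) {t : Fin m → Vec F} (ht : Y.cell (Sel.im t)) :
    Sel.dc Y.cell w t = dF w t := by
  classical
  by_cases hi : Function.Injective t
  · rw [Sel.dc, if_pos ⟨hi, ht⟩, dF]
    symm
    refine finsum_eq_sum_of_support_subset _ ?_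
    intro ρ hρ
    have h1 := hw.1 _ hρ
    have h2 := (polyAsc_ctc_cons.1 h1)
    rw [Finset.mem_coe, Y.mem_nb ht]
    exact ⟨h2.2.1, h2.2.2⟩
  · rw [Sel.dc, if_neg fun h => hi h.1, dF]
    symm
    refine finsum_eq_zero_of_forall_eq_zero fun ρ => ?_
    by_contra h
    exact hi (polyAsc_ctc_cons.1 (hw.1 _ h)).1

theorem topMain_hn {K : Subgroup (GA F)} (hK : K ≤ KN F N) :
    2 + nU F = (ksys N hN C hC hK).n0 + 1 := by
  have h1 := card_pl F
  have h2 : 0 < Fintype.card (InfinitePlace F) := Fintype.card_pos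
  rw [h1, r1, r2] at h2
  rw [ksys_n0, nU, r1, r2]
  omega

theorem topMain_pos (F : Type) [Field F] [NumberField F] : 0 < nU F := by
  have h1 := card_pl F
  have h2 : 0 < Fintype.card (InfinitePlace F) := Fintype.card_pos
  rw [h1] at h2
  rw [nU]
  omega

/-! ### The map to the Steinberg module -/

section kapmap

variable {face : Finset (Vec F) → Prop}

omit [NumberField F] in
theorem topMain_kap_supp {u : (Fin 2 → Vec F) → k} (hu : (Function.support u).Finite) (P : P1 F) :
    (Function.support fun t : Fin 2 → Vec F =>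
      (open Classical in if ln (t 0) = P then u t else 0)).Finite := by
  classical
  refine hu.subset ?_
  intro t ht h
  apply ht
  change (if ln (t 0) = P then u t else 0) = 0
  rw [h, ite_self]

omit [NumberField F] in
theorem topMain_kap_add {u v : (Fin 2 → Vec F) → k} (hu : (Function.support u).Finite)
    (hv : (Function.support v).Finite) :
    kap (ln : Vec F → P1 F) (u + v) = kap ln u + kap ln v := by
  classical
  funext P
  rw [Pi.add_apply, kap, kap, kap, ← finsum_add_distrib (topMain_kap_supp hu P)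
    (topMain_kap_supp hv P)]
  refine finsum_congr fun t => ?_
  split_ifs
  · rfl
  · rw [add_zero]

omit [NumberField F] in
theorem topMain_kap_smul (c : O) {u : (Fin 2 → Vec F) → k} (hu : (Function.support u).Finite) :
    kap (ln : Vec F → P1 F) (c • u) = c • kap ln u := by
  classical
  funext P
  rw [Pi.smul_apply, kap, kap, smul_finsum' c (topMain_kap_supp hu P)]
  refine finsum_congr fun t => ?_
  split_ifs
  · rfl
  · rw [smul_zero]

/-- The translate. -/
theorem topMain_kap_act (h : G F) {u : (Fin 2 → Vec F) → k} (hu0 : ∀ t, u t ≠ 0 → t 0 ≠ 0)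
    (P : P1 F) : kap (ln : Vec F → P1 F) (fun t => u (h⁻¹ • t)) P = kap ln u (h⁻¹ • P) := by
  classical
  rw [kap, kap]
  rw [← finsum_comp_equiv (MulAction.toPerm h : Equiv.Perm (Fin 2 → Vec F))]
  refine finsum_congr fun t => ?_
  change (if ln ((h • t) 0) = P then u (h⁻¹ • h • t) else 0) = _
  rw [inv_smul_smul]
  by_cases h0 : u t = 0
  · rw [h0, ite_self, ite_self]
  · have h1 : ln ((h • t) 0) = h • ln (t 0) := ln_smul h (hu0 t h0)
    rw [h1]
    have h2 : h • ln (t 0) = P ↔ ln (t 0) = h⁻¹ • P := by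
      rw [eq_inv_smul_iff]
    simp only [h2]

variable (O) in
/-- The element of the Steinberg module. -/
def topMainKap {u : (Fin 2 → Vec F) → k} (hu : AltF (Sp face (ln : Vec F → P1 F)) u) : St F O k :=
  ⟨Finsupp.ofSupportFinite (kap ln u) (kap_fin hu).1, by
    refine Eq.trans ?_ (kap_fin hu).2
    symm
    refine finsum_eq_sum_of_support_subset _ ?_
    intro P hP
    rw [Finset.mem_coe, Finsupp.mem_support_iff]
    exact hP⟩

omit [NumberField F] in
theorem topMainKap_apply {u : (Fin 2 → Vec F) → k} (hu : AltF (Sp face (ln : Vec F → P1 F)) u)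
    (P : P1 F) : (topMainKap O hu : St F O k).1 P = kap ln u P := rfl

end kapmap

section data

variable {K : Subgroup (GA F)} {S : Set (Pl F)}

theorem topMain_altF (hO : OC K S) (hK : K ≤ KN F N) (y : Pt F)
    (φ : (ksys N hN C hC hK).Inv (prF K y) (FF K O k) 2) :
    AltF (Sp (koe N hN C hC y.2).Face (ln : Vec F → P1 F)) fun t => φ.1 (1, t) := by
  rw [← koe_sp]
  exact (inv_ff N hN C hC hO hK y 2).1 φ.1 φ.2

/-- The map to the Steinberg module. -/
def topMainAl (hO : OC K S) (hK : K ≤ KN F N) (y : Pt F) :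
    (ksys N hN C hC hK).Inv (prF K y) (FF K O k) 2 →ₗ[O] St F O k where
  toFun φ := topMainKap O (topMain_altF N hN C hC hO hK y φ)
  map_add' a b := by
    apply Subtype.ext
    apply Finsupp.ext
    intro P
    change kap ln (fun t => (a + b).1 (1, t)) P = kap ln (fun t => a.1 (1, t)) P +
      kap ln (fun t => b.1 (1, t)) P
    rw [← Pi.add_apply, ← topMain_kap_add (topMain_altF N hN C hC hO hK y a).2
      (topMain_altF N hN C hC hO hK y b).2]
    rfl
  map_smul' c a := by
    apply Subtype.ext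
    apply Finsupp.ext
    intro P
    change kap ln (fun t => (c • a).1 (1, t)) P = c • kap ln (fun t => a.1 (1, t)) P
    rw [← Pi.smul_apply, ← topMain_kap_smul c (topMain_altF N hN C hC hO hK y a).2]
    rfl

theorem topMainAl_apply (hO : OC K S) (hK : K ≤ KN F N) (y : Pt F)
    (φ : (ksys N hN C hC hK).Inv (prF K y) (FF K O k) 2) (P : P1 F) :
    (topMainAl N hN C hC hO hK y φ).1 P = kap ln (fun t => φ.1 (1, t)) P := rfl

theorem topMainAl_surj (hO : OC K S) (hK : K ≤ KN F N) (y : Pt F) :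
    Function.Surjective (topMainAl (O := O) (k := k) N hN C hC hO hK y) := by
  intro s
  have h0 : ∑ᶠ P : P1 F, s.1 P = 0 := by
    have h1 : (s.1.sum fun _ c => c) = 0 := s.2
    rw [← h1]
    refine finsum_eq_sum_of_support_subset _ ?_
    intro P hP
    rw [Finset.mem_coe, Finsupp.mem_support_iff]
    exact hP
  obtain ⟨u, hu, hs⟩ := kap_surj (koe_lowEx N hN C hC y.2 k) (fun P => s.1 P)
    (s.1.hasFiniteSupport) h0
  rw [← koe_sp] at hu
  refine ⟨⟨_, (inv_ff N hN C hC hO hK y 2).2 u hu⟩, ?_⟩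
  apply Subtype.ext
  apply Finsupp.ext
  intro P
  rw [topMainAl_apply]
  have h1 : (fun t : Fin 2 → Vec F => u ((1 : G F)⁻¹ • t)) = u := by
    funext t
    rw [inv_one, one_smul]
  change kap ln (fun t : Fin 2 → Vec F => u ((1 : G F)⁻¹ • t)) P = _
  rw [h1, hs]

theorem topMain_ker (hO : OC K S) (hK : K ≤ KN F N) (y : Pt F)
    (φ : (ksys N hN C hC hK).Inv (prF K y) (FF K O k) 2) :
    (ksys N hN C hC hK).top (ff_coef hO y) (topMain_hn N hN C hC hK) φ = 0 ↔
      topMainAl N hN C hC hO hK y φ = 0 := by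
  have hc1 := topMain_cell1 N hN C hC hK y
  have h1 : topMainAl N hN C hC hO hK y φ = 0 ↔
      kap (ln : Vec F → P1 F) (fun t => φ.1 (1, t)) = 0 := by
    constructor
    · intro h
      funext P
      rw [← topMainAl_apply N hN C hC hO hK y φ P, h]
      rfl
    · intro h
      apply Subtype.ext
      apply Finsupp.ext
      intro P
      rw [topMainAl_apply, h]
      rfl
  rw [top_ker _ _ _ (topMain_pos F) (by norm_num) (ksys_min N hN C hC hK), h1,
    kap_ker (koe_lowEx N hN C hC y.2 k) (topMain_altF N hN C hC hO hK y φ)]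
  constructor
  · rintro ⟨w, hw, hwu⟩
    have h2 := (inv_ff N hN C hC hO hK y 3).1 w hw
    refine ⟨fun t => w (1, t), by rw [← koe_sp]; exact h2, ?_⟩
    intro t ht
    rw [← koe_sp, ← hc1] at ht
    rw [hwu 1 t]
    rw [← hc1] at h2
    exact topMain_dc _ h2.1 ht
  · rintro ⟨w, hw, hwu⟩
    rw [← koe_sp] at hw
    simp only [← koe_sp] at hwu
    refine ⟨_, (inv_ff N hN C hC hO hK y 3).2 w hw, ?_⟩
    intro γ t
    have h3 : φ.1 (γ, t) = φ.1 (1, γ⁻¹ • t) := by
      have h4 := φ.2.2 γ 1 (γ⁻¹ • t)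
      rw [smul_inv_smul, smul_eq_mul, mul_one] at h4
      exact h4
    have h5 : prF K y γ = γ • prF K y 1 := by
      rw [topMain_prF, topMain_prF, one_smul]
    have h6 : t = (MulAction.toPerm γ : Equiv.Perm (Vec F)) ∘ (γ⁻¹ • t) := by
      change t = γ • γ⁻¹ • t
      rw [smul_inv_smul]
    have h7 : Sel.dc ((ksys N hN C hC hK).X (prF K y γ)).cell
        (fun t => w (γ⁻¹ • t)) t = Sel.dc ((ksys N hN C hC hK).X (prF K y 1)).cell w
          (γ⁻¹ • t) := by
      rw [h5, topMain_cell]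
      conv_lhs => rw [h6]
      rw [Sel.dc_comp]
      congr 1
      funext t'
      change w (γ⁻¹ • γ • t') = w t'
      rw [inv_smul_smul]
    rw [h3]
    refine Eq.trans ?_ h7.symm
    have hw' : Sel.Altc ((ksys N hN C hC hK).X (prF K y 1)).cell w := by
      rw [hc1]; exact hw.1
    by_cases h8 : ((ksys N hN C hC hK).X (prF K y 1)).cell (Sel.im (γ⁻¹ • t))
    · rw [topMain_dc _ hw' h8]
      rw [hc1] at h8
      exact hwu _ h8
    · rw [Sel.dc, if_neg fun h => h8 h.2]
      by_contra h9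
      exact h8 ((φ.2.1.1 1).1 _ h9).2

/-- Two surjective maps with the same kernel. -/
theorem topMain_equiv {M A B : Type} [AddCommGroup M] [Module O M] [AddCommGroup A] [Module O A]
    [AddCommGroup B] [Module O B] (f : M →ₗ[O] A) (g : M →ₗ[O] B) (hf : Function.Surjective f)
    (hg : Function.Surjective g) (h : ∀ m, f m = 0 ↔ g m = 0) :
    ∃ e : A ≃ₗ[O] B, ∀ m, e (f m) = g m := by
  have hk : LinearMap.ker f = LinearMap.ker g := by
    ext m
    rw [LinearMap.mem_ker, LinearMap.mem_ker]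
    exact h m
  refine ⟨((f.quotKerEquivOfSurjective hf).symm.trans
    (Submodule.quotEquivOfEq _ _ hk)).trans (g.quotKerEquivOfSurjective hg), fun m => ?_⟩
  have h1 : (f.quotKerEquivOfSurjective hf).symm (f m) = (LinearMap.ker f).mkQ m := by
    rw [LinearEquiv.symm_apply_eq]
    rfl
  rw [LinearEquiv.trans_apply, LinearEquiv.trans_apply, h1]
  rfl

theorem topMain_stab (hO : OC K S) : ∀ (γ : G F), ∀ f ∈ FF K O k,
    (fun y => f (γ⁻¹ • y)) ∈ FF K O k :=
  (ff_coef hO (1, 1)).stab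

/-- The representation on `FF`. -/
abbrev topMainR (hO : OC K S) (O k : Type) [CommRing O] [AddCommGroup k] [Module O k] :
    Rep.{0} O (G F) :=
  Rep.of (Sel.fRep (FF K O k) (topMain_stab hO))

/-- The map from the functions on the cells. -/
def topMainTop (hO : OC K S) (hK : K ≤ KN F N) (y : Pt F) :
    (ksys N hN C hC hK).Inv (prF K y) (FF K O k) 2 →ₗ[O]
      groupCohomology (topMainR hO O k) (nU F) :=
  (ksys N hN C hC hK).top (ff_coef hO y) (topMain_hn N hN C hC hK)

theorem topMainTop_surj (hO : OC K S) (hK : K ≤ KN F N) (y : Pt F) :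
    Function.Surjective (topMainTop (O := O) (k := k) N hN C hC hO hK y) :=
  top_surj _ _ _ (topMain_pos F) (by norm_num) (ksys_min N hN C hC hK)

theorem topMain_psi (hO : OC K S) (hK : K ≤ KN F N) (y : Pt F) :
    ∃ e : groupCohomology (topMainR hO O k) (nU F) ≃ₗ[O] St F O k,
      ∀ φ, e (topMainTop N hN C hC hO hK y φ) = topMainAl N hN C hC hO hK y φ :=
  topMain_equiv _ _ (topMainTop_surj N hN C hC hO hK y) (topMainAl_surj N hN C hC hO hK y)
    (topMain_ker N hN C hC hO hK y)

/-- The isomorphism with the Steinberg module. -/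
def topMainPsi (hO : OC K S) (hK : K ≤ KN F N) (y : Pt F) :
    groupCohomology (topMainR hO O k) (nU F) ≃ₗ[O] St F O k :=
  (topMain_psi N hN C hC hO hK y).choose

theorem topMainPsi_top (hO : OC K S) (hK : K ≤ KN F N) (y : Pt F)
    (φ : (ksys N hN C hC hK).Inv (prF K y) (FF K O k) 2) :
    topMainPsi N hN C hC hO hK y (topMainTop N hN C hC hO hK y φ) =
      topMainAl N hN C hC hO hK y φ :=
  (topMain_psi N hN C hC hO hK y).choose_spec φ

/-- The action of `GL₂(F)` through right translations. -/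
def topMainRhoHom (hO : OC K S) (O k : Type) [CommRing O] [AddCommGroup k] [Module O k]
    (h : G F) : topMainR hO O k ⟶ topMainR hO O k :=
  locHom (ff_coef hO (1, 1)) (ff_coef hO (act h (1, 1))) (rhoLin K O k h) (rhoLin_loc h (1, 1))

theorem topMainRhoHom_eq (hO : OC K S) (h : G F) (y : Pt F) : topMainRhoHom hO O k h =
    locHom (ff_coef hO y) (ff_coef hO (act h y)) (rhoLin K O k h) (rhoLin_loc h y) := rfl

/-- The sum over the fibres. -/
def topMainPiHom (hO : OC K S) (O k : Type) [CommRing O] [AddCommGroup k] [Module O k]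
    (y : Pt F) : topMainR hO O k ⟶ coeff K (triv K O k) :=
  locHom (ff_coef hO y) (forms_coef (triv K O k)) (piLin K O k y) (piLin_loc y)

end data

/-- The map on cohomology. -/
def topMainMap {A B : Rep.{0} O (G F)} (f : A ⟶ B) (i : ℕ) :
    groupCohomology A i →ₗ[O] groupCohomology B i :=
  ((groupCohomology.functor O (G F) i).map f).hom

theorem topMainMap_comp {A B D : Rep.{0} O (G F)} (f : A ⟶ B) (g : B ⟶ D) (i : ℕ)
    (z : groupCohomology A i) : topMainMap (f ≫ g) i z = topMainMap g i (topMainMap f i z) := by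
  unfold topMainMap
  rw [CategoryTheory.Functor.map_comp, ModuleCat.hom_comp]
  rfl

theorem topMainMap_id {A : Rep.{0} O (G F)} (i : ℕ) (z : groupCohomology A i) :
    topMainMap (𝟙 A) i z = z := by
  unfold topMainMap
  rw [CategoryTheory.Functor.map_id]
  rfl

theorem topMainMap_add {A B : Rep.{0} O (G F)} (f g h : A ⟶ B)
    (hh : ∀ a : A, h.hom a = f.hom a + g.hom a) (i : ℕ) (z : groupCohomology A i) :
    topMainMap h i z = topMainMap f i z + topMainMap g i z := by
  have h1 : groupCohomology.cochainsMap (MonoidHom.id (G F)) h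
      = groupCohomology.cochainsMap (MonoidHom.id (G F)) f +
        groupCohomology.cochainsMap (MonoidHom.id (G F)) g := by
    ext n x
    exact hh _
  have h2 : (groupCohomology.functor O (G F) i).map h =
      (groupCohomology.functor O (G F) i).map f + (groupCohomology.functor O (G F) i).map g := by
    change HomologicalComplex.homologyMap _ i = HomologicalComplex.homologyMap _ i +
      HomologicalComplex.homologyMap _ i
    rw [h1, HomologicalComplex.homologyMap_add]
    rfl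
  unfold topMainMap
  rw [h2]
  rfl

theorem topMainMap_zero {A B : Rep.{0} O (G F)} (f : A ⟶ B) (hf : ∀ a : A, f.hom a = 0) (i : ℕ)
    (z : groupCohomology A i) : topMainMap f i z = 0 := by
  have h1 := topMainMap_add f f f (fun a => by rw [hf, add_zero]) i z
  simpa using h1

theorem topMainMap_sum {A B : Rep.{0} O (G F)} {ι : Type} (s : Finset ι) (f : A ⟶ B)
    (fs : ι → (A ⟶ B)) (hh : ∀ a : A, f.hom a = ∑ j ∈ s, (fs j).hom a) (i : ℕ)
    (z : groupCohomology A i) : topMainMap f i z = ∑ j ∈ s, topMainMap (fs j) i z := by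
  classical
  induction s using Finset.induction_on generalizing f with
  | empty =>
    rw [Finset.sum_empty]
    exact topMainMap_zero _ (fun a => by rw [hh, Finset.sum_empty]) i z
  | insert j s hj ih =>
    rw [Finset.sum_insert hj]
    have h1 := ih (f - fs j) (fun a => by
      change f.hom a - (fs j).hom a = _
      rw [hh, Finset.sum_insert hj]
      abel)
    rw [← h1]
    refine topMainMap_add (fs j) (f - fs j) f (fun a => ?_) i z
    change f.hom a = (fs j).hom a + (f.hom a - (fs j).hom a)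
    abel

section main

variable {K : Subgroup (GA F)} {S : Set (Pl F)}

theorem topMain_psi_act (hO : OC K S) (hK : K ≤ KN F N) (h : G F) (y : Pt F)
    (d : groupCohomology (topMainR hO O k) (nU F)) :
    topMainPsi N hN C hC hO hK (act h y) (topMainMap (topMainRhoHom hO O k h) (nU F) d) =
      stAct O k h (topMainPsi N hN C hC hO hK y d) := by
  classical
  obtain ⟨φ, rfl⟩ := topMainTop_surj N hN C hC hO hK y d
  have h1 := top_nat (ksys N hN C hC hK) (ff_coef hO y) (ff_coef hO (act h y))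
    (rhoLin K O k h) (rhoLin_loc h y) (topMain_hn N hN C hC hK) φ
  have h2 : topMainMap (topMainRhoHom hO O k h) (nU F) (topMainTop N hN C hC hO hK y φ) =
      topMainTop N hN C hC hO hK (act h y)
        ⟨_, mapC_inv _ (ff_coef hO y) (ff_coef hO (act h y)) (rhoLin K O k h) (rhoLin_loc h y)
          φ.1 φ.2⟩ := h1.symm
  rw [h2, topMainPsi_top, topMainPsi_top]
  apply Subtype.ext
  apply Finsupp.ext
  intro P
  rw [topMainAl_apply]
  have h3 : (fun t : Fin 2 → Vec F => mapC (FF K O k) (rhoLin K O k h) φ.1 ((1 : G F), t)) =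
      fun t => φ.1 (1, h⁻¹ • t) := by
    funext t
    rw [mapC, dif_pos (φ.2.1.2 t)]
    change φ.1 (1 * h, t) = _
    have h4 := φ.2.2 h 1 (h⁻¹ • t)
    rw [smul_inv_smul, smul_eq_mul, mul_one] at h4
    rw [one_mul]
    exact h4
  change kap ln (fun t : Fin 2 → Vec F => mapC (FF K O k) (rhoLin K O k h) φ.1 ((1 : G F), t)) P =
    _
  rw [h3, topMain_kap_act h (u := fun t => φ.1 (1, t)), ← topMainAl_apply N hN C hC hO hK]
  · change _ = Finsupp.mapDomain (fun P : P1 F => h • P)
      (topMainAl N hN C hC hO hK y φ).1 P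
    conv_rhs => rw [← smul_inv_smul h P]
    rw [Finsupp.mapDomain_apply (MulAction.injective h)]
  · intro t ht
    have h5 := (topMain_altF N hN C hC hO hK y φ).1.1 t ht
    exact (h5.2.1.1 (t 0) (Sel.mem_im.2 ⟨0, rfl⟩)).2

theorem topMain_cast (hK : K ≤ KN F N) {pr pr' : G F → PtK K} (h : pr = pr')
    (hM : IsCoef (Γ := G F) pr (FF K O k)) (hM' : IsCoef (Γ := G F) pr' (FF K O k))
    (φ : G F × (Fin 2 → Vec F) → k) (hφ : φ ∈ (ksys N hN C hC hK).Inv pr (FF K O k) 2)
    (hφ' : φ ∈ (ksys N hN C hC hK).Inv pr' (FF K O k) 2) :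
    (ksys N hN C hC hK).top hM (topMain_hn N hN C hC hK) ⟨φ, hφ⟩ =
      (ksys N hN C hC hK).top hM' (topMain_hn N hN C hC hK) ⟨φ, hφ'⟩ := by
  subst h
  rfl

theorem topMain_psi_rt (hO : OC K S) (hK : K ≤ KN F N) (y : Pt F) (κ : GA F) (hκ : κ ∈ K)
    (d : groupCohomology (topMainR hO O k) (nU F)) :
    topMainPsi N hN C hC hO hK (rt y κ) d = topMainPsi N hN C hC hO hK y d := by
  have h1 : prF K y = prF K (rt y κ) := by
    funext γ
    rw [prF, prF, act_rt, mkK_rt _ hκ]
  obtain ⟨φ, rfl⟩ := topMainTop_surj N hN C hC hO hK y d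
  have hφ' : φ.1 ∈ (ksys N hN C hC hK).Inv (prF K (rt y κ)) (FF K O k) 2 := by
    rw [← h1]
    exact φ.2
  have h2 : topMainTop N hN C hC hO hK y φ = topMainTop N hN C hC hO hK (rt y κ) ⟨φ.1, hφ'⟩ :=
    topMain_cast N hN C hC hK h1 (ff_coef hO y) (ff_coef hO (rt y κ)) φ.1 φ.2 hφ'
  rw [topMainPsi_top, h2, topMainPsi_top]
  apply Subtype.ext
  apply Finsupp.ext
  intro P
  rw [topMainAl_apply, topMainAl_apply]

theorem topMain_pi_act (hO : OC K S) (h : G F) (y : Pt F) :
    topMainRhoHom hO O k h ≫ topMainPiHom hO O k (act h y) = topMainPiHom hO O k y := by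
  apply Rep.hom_ext
  apply Representation.IntertwiningMap.ext
  apply LinearMap.ext
  intro f
  exact piLin_rho h y f

theorem topMain_pi_rt (hO : OC K S) (y : Pt F) (κ : GA F) (hκ : κ ∈ K) :
    topMainPiHom hO O k (rt y κ) = topMainPiHom hO O k y := by
  apply Rep.hom_ext
  apply Representation.IntertwiningMap.ext
  apply LinearMap.ext
  intro f
  exact congrArg (fun Φ : FF K O k →ₗ[O] Forms K (triv K O k) => Φ f) (piLin_rt y hκ)

include hN hC in
theorem topMain_span (hO : OC K S) (hK : K ≤ KN F N) :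
    ⨆ y : Pt F, LinearMap.range (topMainMap (topMainPiHom hO O k y) (nU F)) = ⊤ := by
  rw [eq_top_iff]
  rintro z -
  obtain ⟨φ, hφ⟩ := top_surj (ksys N hN C hC hK) (forms_coef (triv K O k))
    (topMain_hn N hN C hC hK) (topMain_pos F) (by norm_num) (ksys_min N hN C hC hK) z
  obtain ⟨T, u, hu, hT⟩ := inv_span N hN C hC hO hK φ.1 φ.2
  let Q : Submodule O (groupCohomology (coeff K (triv K O k)) (nU F)) :=
    ⨆ y : Pt F, LinearMap.range (topMainMap (topMainPiHom hO O k y) (nU F))
  let tp : (ksys N hN C hC hK).Inv (mkK K) (Forms K (triv K O k)) 2 →ₗ[O]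
      groupCohomology (coeff K (triv K O k)) (nU F) :=
    (ksys N hN C hC hK).top (forms_coef (triv K O k)) (topMain_hn N hN C hC hK)
  have h1 : φ.1 ∈ (Submodule.comap tp Q).map (Submodule.subtype _) := by
    rw [hT]
    refine Submodule.sum_mem _ fun y hy => ?_
    have h2 := (inv_ff (O := O) N hN C hC hO hK y 2).2 (u y) (hu y hy)
    refine ⟨⟨_, mapC_inv _ (ff_coef hO y) (forms_coef (triv K O k)) (piLin K O k y)
      (piLin_loc y) _ h2⟩, ?_, rfl⟩
    rw [SetLike.mem_coe, Submodule.mem_comap]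
    refine Submodule.mem_iSup_of_mem y ⟨topMainTop N hN C hC hO hK y ⟨_, h2⟩, ?_⟩
    exact (top_nat (ksys N hN C hC hK) (ff_coef hO y) (forms_coef (triv K O k))
      (piLin K O k y) (piLin_loc y) (topMain_hn N hN C hC hK) ⟨_, h2⟩).symm
  obtain ⟨φ', h3, h4⟩ := h1
  have h5 : φ' = φ := Subtype.ext h4
  rw [h5] at h3
  have h6 : tp φ = z := hφ
  rw [← h6]
  exact h3

end main

/-- **C** the data exist. -/
theorem exists_topSt {K : Subgroup (GA F)} {S : Set (Pl F)} (hO : OC K S) {N : ℕ} (hN : 3 ≤ N)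
    (hK : K ≤ KN F N) (O k : Type) [CommRing O] [AddCommGroup k] [Module O k] :
    Nonempty (TopSt K S hO O k) := by
  obtain ⟨C, hC⟩ := exists_goodC (F := F) N (by omega)
  refine ⟨{
    D := groupCohomology (topMainR hO O k) (nU F)
    ρ := fun h => topMainMap (topMainRhoHom hO O k h) (nU F)
    ρ_one := ?_
    ρ_mul := ?_
    Ψ := topMainPsi N hN C hC hO hK
    Ψ_act := topMain_psi_act N hN C hC hO hK
    Ψ_rt := topMain_psi_rt N hN C hC hO hK
    π := fun y => topMainMap (topMainPiHom hO O k y) (nU F)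
    π_act := ?_
    π_rt := ?_
    π_hecke := ?_
    span := topMain_span N hN C hC hO hK }⟩
  · have h1 : topMainRhoHom hO O k 1 = 𝟙 _ := by
      apply Rep.hom_ext
      apply Representation.IntertwiningMap.ext
      apply LinearMap.ext
      intro f
      apply Subtype.ext
      funext γ
      change f.1 (γ * 1) = f.1 γ
      rw [mul_one]
    rw [h1]
    apply LinearMap.ext
    intro z
    exact topMainMap_id _ z
  · intro a b
    have h1 : topMainRhoHom hO O k (a * b) = topMainRhoHom hO O k b ≫ topMainRhoHom hO O k a := by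
      apply Rep.hom_ext
      apply Representation.IntertwiningMap.ext
      apply LinearMap.ext
      intro f
      apply Subtype.ext
      funext γ
      change f.1 (γ * (a * b)) = f.1 (γ * a * b)
      rw [mul_assoc]
    rw [h1]
    apply LinearMap.ext
    intro z
    exact topMainMap_comp _ _ _ z
  · intro h y d
    change topMainMap _ _ (topMainMap _ _ d) = _
    rw [← topMainMap_comp, topMain_pi_act]
  · intro y κ hκ d
    change topMainMap _ _ d = _
    rw [topMain_pi_rt hO y κ hκ]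
  · intro t y d
    change topMainMap (heckeHom K (triv K O k) (unram_triv hO) t) (nU F)
      (topMainMap (topMainPiHom hO O k y) (nU F) d) = _
    rw [← topMainMap_comp]
    refine topMainMap_sum _ _ (fun c => topMainPiHom hO O k
      (rt y (single t.1.1 (Quotient.out c)))) ?_ _ d
    intro f
    exact piLin_hecke hO y t f

end Pool.Agent.CG2
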