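import Pool.Agent.CG2.TopRed
import Pool.Agent.CG2.TopMain
import Pool.Agent.CG2.EigMain

/-!
# The eigenvalues of the Hecke operators in the top degree
-/

noncomputable section

namespace Pool.Agent.CG2

open CategoryTheory NumberField IsDedekindDomain Matrix

variable {F : Type} [Field F] [NumberField F]

theorem charP_of_prime {k : Type} [Field k] {p : ℕ} [Fact p.Prime] (h : ((p : ℕ) : k) = 0) :
    CharP k p := by
  obtain ⟨q, hq⟩ := CharP.exists k
  have h2 : q ∣ p := (CharP.cast_eq_zero_iff k q p).1 h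
  rcases (Nat.dvd_prime (Fact.out : p.Prime)).1 h2 with h3 | h3
  · subst h3
    have h4 : ((1 : ℕ) : k) = 0 := CharP.cast_eq_zero k 1
    rw [Nat.cast_one] at h4
    exact absurd h4 one_ne_zero
  · exact h3 ▸ hq

/-- **C** the top degree. -/
theorem top_degree {p : ℕ} [Fact p.Prime] (hF : TwoPl F) {S : Set (Pl F)}
    (hS : ∀ v : Pl F, Above p v → v ∈ S) (K : Subgroup (GA F)) (hK : OC K S)
    (hTF : TorsionFree K) (O : Type) [CommRing O] [IsDomain O] [IsDiscreteValuationRing O]
    (hpO : ((p : ℕ) : O) ∈ IsLocalRing.maximalIdeal O)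
    (W : Type) [AddCommGroup W] [Module O W] [Module.Finite O W]
    (τ : Representation O K W) (hU : UnramOff K τ S) (hτ : Cont K τ S)
    (m : Ideal (HeckeAlg S O)) [m.IsMaximal]
    (hm : InSupport K τ hU (nU F) m)
    (k : Type) [Field k] [Algebra (HeckeAlg S O ⧸ m) k] :
    ((p : ℕ) : HeckeAlg S O) ∈ m ∧
    ∃ ψ : Pl F → AlgebraicClosure k, IsRay S ψ ∧ ∀ (v : Pl F) (hv : v ∉ S),
      algebraMap k (AlgebraicClosure k) (eig m k (⟨v, hv⟩, 0)) ^ 2 =
        (ψ v + 2 + (ψ v)⁻¹) * (Nm v : AlgebraicClosure k) *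
          algebraMap k (AlgebraicClosure k) (eig m k (⟨v, hv⟩, 1)) := by
  obtain ⟨K', hK'N, hK', φ, hφ, hφt⟩ := top_reduce (p := p) hS hK hTF τ hU hτ m hm
  set k₀ := IsLocalRing.ResidueField O with hk₀
  obtain ⟨z₀, hz₀⟩ : ∃ z, φ z ≠ 0 := by
    by_contra hc
    push Not at hc
    exact hφ (by ext z; exact hc z)
  -- the maximal ideal of `O` maps to zero
  have hC : ∀ a ∈ IsLocalRing.maximalIdeal O, (MvPolynomial.C a : HeckeAlg S O) ∈ m := by
    intro a ha
    have h1 : hact K' (triv K' O k₀) (unram_triv hK') (nU F) (MvPolynomial.C a) z₀ = a • z₀ := by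
      have := (hact K' (triv K' O k₀) (unram_triv hK') (nU F)).commutes a
      rw [MvPolynomial.algebraMap_eq] at this
      rw [this, Module.algebraMap_end_apply]
    have h2 : a • z₀ = 0 := by
      have h3 := cohMap_smul (triv K' O k₀) a (fun k w => by simp) (nU F) z₀
      rw [← h3]
      refine mapCoh_zero _ (fun f => ?_) _ _
      apply Subtype.ext
      funext y
      change a • ((f : Forms K' (triv K' O k₀)).1 y) = 0
      obtain ⟨b, hb⟩ := IsLocalRing.residue_surjective ((f : Forms K' (triv K' O k₀)).1 y)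
      rw [← hb]
      change IsLocalRing.residue O a * IsLocalRing.residue O b = 0
      rw [(IsLocalRing.residue_eq_zero_iff a).2 ha, zero_mul]
    have h4 := hφt (MvPolynomial.C a) z₀
    rw [h1, h2, map_zero] at h4
    have iF : Field (HeckeAlg S O ⧸ m) := Ideal.Quotient.field m
    rcases mul_eq_zero.1 h4.symm with h5 | h5
    · exact Ideal.Quotient.eq_zero_iff_mem.1 h5
    · exact absurd h5 hz₀
  have hpm : ((p : ℕ) : HeckeAlg S O) ∈ m := by
    have := hC _ hpO
    rwa [map_natCast] at this
  refine ⟨hpm, ?_⟩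
  have hchar : CharP k₀ p := by
    apply charP_of_prime
    have h1 : IsLocalRing.residue O ((p : ℕ) : O) = 0 := (IsLocalRing.residue_eq_zero_iff _).2 hpO
    rwa [map_natCast] at h1
  -- the embedding of the residue field
  let e : HeckeAlg S O ⧸ m →+* AlgebraicClosure k :=
    (algebraMap k (AlgebraicClosure k)).comp (algebraMap (HeckeAlg S O ⧸ m) k)
  let ι : k₀ →+* AlgebraicClosure k := Ideal.Quotient.lift (IsLocalRing.maximalIdeal O)
    (e.comp ((Ideal.Quotient.mk m).comp MvPolynomial.C)) (fun a ha => by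
      change e (Ideal.Quotient.mk m (MvPolynomial.C a)) = 0
      rw [Ideal.Quotient.eq_zero_iff_mem.2 (hC a ha), map_zero])
  have hι : ∀ a : O, ι (algebraMap O k₀ a) = e (Ideal.Quotient.mk m (MvPolynomial.C a)) :=
    fun a => rfl
  have hp2 : 3 ≤ p ^ 2 := by
    have := (Fact.out : p.Prime).two_le
    nlinarith
  obtain ⟨T⟩ := exists_topSt hK' hp2 hK'N O k₀
  have hmain := top_eigen (p := p) hF (IsLocalRing.residue_surjective (R := O)) hS hK' T ι
    (e.toAddMonoidHom.comp φ) (by
      intro h0
      have h1 : e (φ z₀) = 0 := DFunLike.congr_fun h0 z₀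
      obtain ⟨c, hc⟩ := Ideal.Quotient.exists_inv (I := m) hz₀
      have h2 := congrArg e hc
      rw [map_mul, h1, zero_mul, map_one] at h2
      exact zero_ne_one h2)
    (by
      intro a z
      change e (φ (a • z)) = _ * e (φ z)
      rw [hι, ← map_mul, ← hφt]
      congr 2
      have := (hact K' (triv K' O k₀) (unram_triv hK') (nU F)).commutes a
      rw [MvPolynomial.algebraMap_eq] at this
      rw [this, Module.algebraMap_end_apply])
    (fun s => e (Ideal.Quotient.mk m (MvPolynomial.X s))) (by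
      intro s z
      change e (φ _) = e (Ideal.Quotient.mk m (MvPolynomial.X s)) * e (φ z)
      rw [← map_mul, ← hφt, hact_X])
  exact hmain

end Pool.Agent.CG2
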