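import Pool.Agent.CG2.LevelOC
import Pool.Agent.CG2.Lower
import Pool.Agent.CG2.TopDeg

/-!
# The main theorem
-/

noncomputable section

namespace Pool.Agent.CG2

open CategoryTheory NumberField IsDedekindDomain Matrix

variable {F : Type} [Field F] [NumberField F]

/-- The vanishing conjecture for `GL₂` over number fields with two archimedean places. -/
theorem main (hF : TwoPl F) (p : Pr) (S : Finset Pr) (L : Level F p S)
    (hTF : TorsionFree L.Kf)
    (O : Type) [CommRing O] [IsDomain O] [IsDiscreteValuationRing O]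
    (hpO : ((p : ℕ) : O) ∈ IsLocalRing.maximalIdeal O)
    (W : Type) [AddCommGroup W] [Module O W] [Module.Finite O W]
    (σ : Representation O L.Kp W) (hσ : IsContinuousRep L σ)
    (m : Ideal (HeckeAlg (ab F S) O)) [m.IsMaximal]
    (k : Type) [Field k] [Algebra (HeckeAlg (ab F S) O ⧸ m) k]
    (ρ : GalF F →* GL (Fin 2) k) (hatt : Attached m k ρ) (hne : NonEisenstein ρ)
    (i : ℕ) (hm : InSupport L.Kf (L.rep σ) (L.unram σ) i m) :
    2 ≤ i ∧ (i : ℤ) ≤ dY F - 2 := by
  classical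
  have hp : Fact (p : ℕ).Prime := ⟨p.2⟩
  have hab : ∀ v : Pl F, Above (p : ℕ) v → v ∈ ab F S := fun v hv => ⟨p, L.mem, hv⟩
  -- the conclusion from a relation between the eigenvalues
  have key : ((p : ℕ) : HeckeAlg (ab F S) O) ∈ m → (∀ (_ : CharP k (p : ℕ)),
      ∃ ψ : Pl F → AlgebraicClosure k, IsRay (ab F S) ψ ∧ ∀ (v : Pl F) (hv : v ∉ ab F S),
      algebraMap k (AlgebraicClosure k) (eig m k (⟨v, hv⟩, 0)) ^ 2 =
        (ψ v + 2 + (ψ v)⁻¹) * (Nm v : AlgebraicClosure k) *
          algebraMap k (AlgebraicClosure k) (eig m k (⟨v, hv⟩, 1))) → False := by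
    intro hpm hψ'
    have hpk : ((p : ℕ) : k) = 0 := by
      have h1 : Ideal.Quotient.mk m ((p : ℕ) : HeckeAlg (ab F S) O) = 0 :=
        Ideal.Quotient.eq_zero_iff_mem.2 hpm
      have h2 := congrArg (algebraMap (HeckeAlg (ab F S) O ⧸ m) k) h1
      simpa using h2
    have hchar : CharP k (p : ℕ) := by
      obtain ⟨q, hq⟩ := CharP.exists k
      have h2 : q ∣ (p : ℕ) := (CharP.cast_eq_zero_iff k q (p : ℕ)).1 hpk
      rcases (Nat.dvd_prime p.2).1 h2 with h3 | h3
      · subst h3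
        have h4 : ((1 : ℕ) : k) = 0 := CharP.cast_eq_zero k 1
        rw [Nat.cast_one] at h4
        exact absurd h4 one_ne_zero
      · exact h3 ▸ hq
    obtain ⟨ψ, hray, hψ⟩ := hψ' hchar
    obtain ⟨hopen, b, e, c, hc, hF'⟩ := hatt
    refine galois_side (p := (p : ℕ)) (S := ab F S) (Level.oc L).fin k ρ hopen e ψ hray
      (fun v hv Q hQ σ hσ => (hF' v hv Q hQ).1 σ hσ) ?_ hne
    intro v hv Q hQ s hs
    have h1 := (hF' v hv Q hQ).2 s hs
    set A : Matrix (Fin 2) (Fin 2) k := (ρ (s ^ (e : ℤ)) : Matrix (Fin 2) (Fin 2) k) with hA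
    have h2 := Matrix.charpoly_fin_two A
    rw [h1] at h2
    have htr : A.trace = c v * eig m k (⟨v, hv⟩, 0) := by
      have := congrArg (fun P => Polynomial.coeff P 1) h2
      simp [Polynomial.coeff_X_pow, Polynomial.coeff_C] at this
      exact this.symm
    have hdet : A.det = ((Nm v : ℕ) : k) ^ b * eig m k (⟨v, hv⟩, 1) := by
      have := congrArg (fun P => Polynomial.coeff P 0) h2
      simp [Polynomial.coeff_C] at this
      exact this.symm
    rw [htr, hdet, ← hc v hv, map_mul, map_mul, map_mul, mul_pow, hψ v hv, map_pow, map_natCast]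
    ring
  have htop : m ≠ ⊤ := Ideal.IsMaximal.ne_top ‹_›
  have hcard := card_pl F
  have hF2 : 2 ≤ r1 F + r2 F := by rw [← hcard]; exact hF
  have hdY : dY F = 3 * r1 F + 4 * r2 F - 1 := by rw [dY]; ring
  have hnU : (nU F : ℤ) = 3 * r1 F + 4 * r2 F - 2 := by
    rw [nU]
    have : 2 ≤ 3 * r1 F + 4 * r2 F := by omega
    push_cast [Nat.cast_sub this]
    ring
  constructor
  · by_contra hlt
    obtain ⟨hpm, hrel⟩ := lower (p := (p : ℕ)) hF hab L.Kf L.oc O hpO W (L.rep σ) (L.unram σ)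
      (L.cont σ hσ) m i (by omega) hm
    refine key hpm fun hchar => ⟨_, isRay_norm (p := (p : ℕ)) L.oc.fin hab (AlgebraicClosure k),
      fun v hv => ?_⟩
    rw [if_neg hv]
    have h1 : Ideal.Quotient.mk m _ = 0 := Ideal.Quotient.eq_zero_iff_mem.2 (hrel v hv)
    have h2 := congrArg (algebraMap (HeckeAlg (ab F S) O ⧸ m) k) h1
    have h3 : eig m k (⟨v, hv⟩, 0) ^ 2 - (1 + (Nm v : k)) ^ 2 * eig m k (⟨v, hv⟩, 1) = 0 := by
      rw [map_zero, map_sub, map_pow, map_mul, map_sub, map_pow, map_mul] at h2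
      rw [eig, eig]
      have h4 : (algebraMap (HeckeAlg (ab F S) O ⧸ m) k) (Ideal.Quotient.mk m
          (MvPolynomial.C ((1 + (Nm v : O)) ^ 2))) = (1 + (Nm v : k)) ^ 2 := by
        rw [map_pow, map_pow, map_pow, map_add, map_one]
        simp
      rw [← h4]
      exact h2
    have h5 := congrArg (algebraMap k (AlgebraicClosure k)) h3
    rw [map_zero, map_sub, map_mul, map_pow, map_pow, map_add, map_one, map_natCast,
      sub_eq_zero] at h5
    rw [h5]
    have hN : ((Nm v : ℕ) : AlgebraicClosure k) ≠ 0 :=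
      Nm_ne_zero (p := (p : ℕ)) _ v (fun h => hv (hab v h))
    field_simp
    ring
  · by_contra hlt
    have h1 : nU F ≤ i := by omega
    rcases Nat.lt_or_eq_of_le h1 with h2 | h2
    · have := upper L.Kf L.oc hTF O W (L.rep σ) i h2
      obtain ⟨h, hh⟩ := hm
      exact hh 1 (fun h1 => htop ((Ideal.eq_top_iff_one m).2 h1)) (Subsingleton.elim _ _)
    · subst h2
      obtain ⟨hpm, -⟩ := top_degree (p := (p : ℕ)) hF hab L.Kf L.oc hTF O hpO W (L.rep σ)
        (L.unram σ) (L.cont σ hσ) m hm k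
      exact key hpm fun _ => (top_degree (p := (p : ℕ)) hF hab L.Kf L.oc hTF O hpO W (L.rep σ)
        (L.unram σ) (L.cont σ hσ) m hm k).2

/-- For two archimedean places the bounds are `q₀ ≤ i ≤ q₀ + ℓ₀`. -/
theorem main_two (hF : Fintype.card (InfinitePlace F) = 2) (i : ℕ)
    (h : 2 ≤ i ∧ (i : ℤ) ≤ dY F - 2) : q0 F ≤ i ∧ (i : ℤ) ≤ q0 F + ell0 F := by
  have hcard := card_pl F
  have h1 : (r1 F : ℤ) + r2 F = 2 := by
    have : r1 F + r2 F = 2 := by rw [← hcard]; exact hF
    exact_mod_cast this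
  have hd : dY F = 3 * r1 F + 4 * r2 F - 1 := by rw [dY]; ring
  have he : ell0 F = r1 F + 2 * r2 F - 1 := by rw [ell0]; ring
  have hq : q0 F = 2 := by
    rw [q0, hd, he]
    have : (3 * (r1 F : ℤ) + 4 * r2 F - 1 - (r1 F + 2 * r2 F - 1)) = 4 := by linarith
    rw [this]
    norm_num
  rw [hq, he]
  rw [hd] at h
  constructor
  · exact_mod_cast h.1
  · linarith [h.2]

end Pool.Agent.CG2
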