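import Pool.Agent.CG2.PolyGen

/-!
# The vertices of a simple polyhedron
-/

noncomputable section

namespace Pool.Agent.CG2

open Pool.Agent.CG3

variable {E V : Type} [NormedAddCommGroup V] [NormedSpace ℝ V] [FiniteDimensional ℝ V]

namespace PolySys

variable {P : PolySys E V}

/-- The tight set at a point of the polyhedron is finite. -/
theorem tight_finite {h : V} (hh : h ∈ P.Pi) : {e | e ∈ P.A ∧ P.q e h = P.c e}.Finite := by
  obtain ⟨U, hU, hf⟩ := P.locfin h hh
  refine hf.subset ?_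
  rintro e ⟨he, hq⟩
  exact ⟨he, h, mem_of_mem_nhds hU, hq.le⟩

theorem PolyA_finrank : Module.finrank ℝ (V →L[ℝ] ℝ) = Module.finrank ℝ V := by
  rw [← (LinearMap.toContinuousLinearMap : (V →ₗ[ℝ] ℝ) ≃ₗ[ℝ] (V →L[ℝ] ℝ)).finrank_eq]
  exact Subspace.dual_finrank_eq

/-- Facets with a common point have independent functionals. -/
theorem PolyA_indep {R : Finset E} {h : V} (hh : h ∈ P.Pi) (hR : ∀ e ∈ R, e ∈ P.A)
    (ht : ∀ e ∈ R, P.q e h = P.c e) :
    LinearIndependent ℝ (fun e : {e // e ∈ R} => P.q e.1) := by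
  have h1 := P.indep h hh
  exact h1.comp (fun e : {e // e ∈ R} => (⟨e.1, hR e.1 e.2, ht e.1 e.2⟩ :
    {e // e ∈ P.A ∧ P.q e h = P.c e})) (by
      intro a b hab
      exact Subtype.ext (congrArg (fun x => x.1) hab))

theorem face_card {R : Finset E} (hR : P.Face R) : R.card ≤ Module.finrank ℝ V := by
  obtain ⟨hA, h, hh, ht⟩ := hR
  have h1 := PolyA_indep hh hA ht
  have h2 := h1.fintype_card_le_finrank
  rw [PolyA_finrank] at h2
  simpa using h2

/-- A vector killed by all functionals at a vertex is zero. -/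
theorem Vx.PolyA_zero {S : Finset E} {h : V} (hv : P.Vx S h) {x : V}
    (hx : ∀ e ∈ S, P.q e x = 0) : x = 0 := by
  have h1 : LinearIndependent ℝ (fun e : {e // e ∈ S} => P.q e.1) :=
    PolyA_indep hv.mem (fun e he => ((hv.tight e).1 he).1) (fun e he => ((hv.tight e).1 he).2)
  have h2 : Submodule.span ℝ (Set.range (fun e : {e // e ∈ S} => P.q e.1)) = ⊤ := by
    apply h1.span_eq_top_of_card_eq_finrank'
    rw [PolyA_finrank, ← hv.card]
    simp
  by_contra hne
  obtain ⟨f, hf⟩ : ∃ f : V →L[ℝ] ℝ, f x ≠ 0 := by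
    obtain ⟨g, _, hg⟩ := exists_dual_vector ℝ x (norm_ne_zero_iff.2 hne)
    refine ⟨g, ?_⟩
    rw [hg]
    simpa using hne
  have h3 : f ∈ Submodule.span ℝ (Set.range (fun e : {e // e ∈ S} => P.q e.1)) := by
    rw [h2]
    trivial
  have h4 : Submodule.span ℝ (Set.range (fun e : {e // e ∈ S} => P.q e.1)) ≤
      LinearMap.ker ((ContinuousLinearMap.apply ℝ ℝ x : (V →L[ℝ] ℝ) →L[ℝ] ℝ) :
        (V →L[ℝ] ℝ) →ₗ[ℝ] ℝ) := by
    rw [Submodule.span_le]
    rintro _ ⟨e, rfl⟩
    exact hx e.1 e.2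
  exact hf (h4 h3)

theorem Vx.PolyA_exists {S : Finset E} {h : V} (hv : P.Vx S h) (e : E) (he : e ∈ S) :
    ∃ d : V, P.q e d = 1 ∧ ∀ e' ∈ S, e' ≠ e → P.q e' d = 0 := by
  classical
  let Φ : V →ₗ[ℝ] ({e // e ∈ S} → ℝ) := LinearMap.pi fun e => (P.q e.1 : V →ₗ[ℝ] ℝ)
  have hinj : Function.Injective Φ := by
    rw [← LinearMap.ker_eq_bot, LinearMap.ker_eq_bot']
    intro x hx
    apply hv.PolyA_zero
    intro e he
    exact congrFun hx ⟨e, he⟩
  have hsurj : Function.Surjective Φ := by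
    rw [← LinearMap.injective_iff_surjective_of_finrank_eq_finrank]
    · exact hinj
    · rw [Module.finrank_fintype_fun_eq_card, ← hv.card]
      simp
  obtain ⟨d, hd⟩ := hsurj (fun e' => if e' = ⟨e, he⟩ then 1 else 0)
  refine ⟨d, ?_, ?_⟩
  · have := congrFun hd ⟨e, he⟩
    simpa [Φ] using this
  · intro e' he' hne
    have := congrFun hd ⟨e', he'⟩
    have h2 : ((⟨e', he'⟩ : {e // e ∈ S}) = ⟨e, he⟩) = False := by
      simp [hne]
    simpa [Φ, h2, hne] using this

/-- The functionals at a vertex and the directions of the edges are dual bases. -/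
theorem Vx.dual {S : Finset E} {h : V} (hv : P.Vx S h) (e : E) (he : e ∈ S) :
    P.q e (P.dv S e) = 1 ∧ ∀ e' ∈ S, e' ≠ e → P.q e' (P.dv S e) = 0 := by
  have h1 := hv.PolyA_exists e he
  unfold dv
  rw [dif_pos h1]
  exact h1.choose_spec

theorem Vx.expand {S : Finset E} {h : V} (hv : P.Vx S h) (x : V) :
    x = ∑ e ∈ S, P.q e x • P.dv S e := by
  rw [← sub_eq_zero]
  apply hv.PolyA_zero
  intro e he
  rw [map_sub, map_sum, Finset.sum_eq_single e]
  · rw [map_smul, (hv.dual e he).1]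
    simp
  · intro b hb hbe
    rw [map_smul, (hv.dual b hb).2 e he (Ne.symm hbe)]
    simp
  · intro h
    exact absurd he h

theorem Vx.unique {S : Finset E} {h h' : V} (hv : P.Vx S h) (hv' : P.Vx S h') : h = h' := by
  rw [← sub_eq_zero]
  apply hv.PolyA_zero
  intro e he
  rw [map_sub, ((hv.tight e).1 he).2, ((hv'.tight e).1 he).2, sub_self]

/-- The edge directions stay in the polyhedron for a short time. -/
theorem Vx.edge {S : Finset E} {h : V} (hv : P.Vx S h) (e : E) (he : e ∈ S) :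
    ∃ t : ℝ, 0 < t ∧ h + t • P.dv S e ∈ P.Pi := by
  obtain ⟨U, hU, hf⟩ := P.locfin h hv.mem
  set d := P.dv S e with hd
  have hcont : Continuous fun t : ℝ => h + t • d := by fun_prop
  have h0 : (h + (0 : ℝ) • d) = h := by simp
  have hev1 : ∀ᶠ t in nhds (0 : ℝ), h + t • d ∈ U := by
    apply hcont.continuousAt.eventually
    simp only [zero_smul, add_zero]
    exact hU
  have hev2 : ∀ᶠ t in nhds (0 : ℝ), ∀ e' ∈ {e | e ∈ P.A ∧ ∃ h' ∈ U, P.q e h' ≤ P.c e},
      e' ∉ S → P.c e' < P.q e' (h + t • d) := by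
    rw [Filter.eventually_all_finite hf]
    intro e' he'
    by_cases hS : e' ∈ S
    · exact Filter.Eventually.of_forall fun t h => absurd hS h
    · have h1 : P.c e' < P.q e' h := by
        refine lt_of_le_of_ne (hv.mem e' he'.1) ?_
        intro h2
        exact hS ((hv.tight e').2 ⟨he'.1, h2.symm⟩)
      have h2 : Continuous fun t : ℝ => P.q e' (h + t • d) := by fun_prop
      have h3 : ∀ᶠ t in nhds (0 : ℝ), P.c e' < P.q e' (h + t • d) := by
        apply h2.continuousAt.eventually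
        apply lt_mem_nhds
        simpa using h1
      exact h3.mono fun t ht _ => ht
  have hev3 : ∀ᶠ t in nhdsWithin (0 : ℝ) (Set.Ioi 0), h + t • d ∈ U ∧
      (∀ e' ∈ {e | e ∈ P.A ∧ ∃ h' ∈ U, P.q e h' ≤ P.c e},
      e' ∉ S → P.c e' < P.q e' (h + t • d)) ∧ t ∈ Set.Ioi (0 : ℝ) := by
    filter_upwards [hev1.filter_mono nhdsWithin_le_nhds, hev2.filter_mono nhdsWithin_le_nhds,
      self_mem_nhdsWithin] with t h1 h2 h3
    exact ⟨h1, h2, h3⟩
  obtain ⟨t, h1, h2, h3⟩ := hev3.exists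
  refine ⟨t, h3, ?_⟩
  intro e' he'
  by_cases hS : e' ∈ S
  · rw [map_add, map_smul, ((hv.tight e').1 hS).2]
    by_cases hee : e' = e
    · subst hee
      rw [hd, (hv.dual e' he).1]
      have h3' : (0 : ℝ) < t := h3
      simp
      exact h3'.le
    · rw [hd, (hv.dual e he).2 e' hS hee]
      simp
  · by_cases hB : e' ∈ {e | e ∈ P.A ∧ ∃ h' ∈ U, P.q e h' ≤ P.c e}
    · exact (h2 e' hB hS).le
    · by_contra hlt
      apply hB
      exact ⟨he', _, h1, (not_le.1 hlt).le⟩

theorem exists_gen (P : PolySys E V) : ∃ l, P.Gen l := by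
  classical
  have hc : Countable ↥P.A := P.ctbl.to_subtype
  let D : Set V := {d | ∃ S h, P.Vx S h ∧ ∃ e ∈ S, d = P.dv S e}
  have hD : D.Countable := by
    refine (Set.countable_range (fun p : Finset ↥P.A × ↥P.A =>
      P.dv (p.1.map (Function.Embedding.subtype _)) p.2.1)).mono ?_
    rintro d ⟨S, h, hv, e, he, rfl⟩
    have hSA : ∀ x ∈ S, x ∈ P.A := fun x hx => ((hv.tight x).1 hx).1
    refine ⟨(S.subtype (· ∈ P.A), ⟨e, hSA e he⟩), ?_⟩
    simp only
    rw [Finset.subtype_map_of_mem hSA]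
  have h0 : (0 : V) ∉ D := by
    rintro ⟨S, h, hv, e, he, h0⟩
    have := (hv.dual e he).1
    rw [← h0, map_zero] at this
    exact zero_ne_one this
  obtain ⟨l, hl, hl2⟩ := exists_avoid_dual P.Pos P.pos_open P.pos_ne D hD h0
  exact ⟨l, hl, fun S h hv e he => hl2 _ ⟨S, h, hv, e, he, rfl⟩⟩

theorem PolyA_tight_compact (K : Set V) (hK : IsCompact K) (hKP : K ⊆ P.Pi) :
    {e | e ∈ P.A ∧ ∃ h ∈ K, P.q e h ≤ P.c e}.Finite := by
  refine hK.induction_on (p := fun s => {e | e ∈ P.A ∧ ∃ h ∈ s, P.q e h ≤ P.c e}.Finite)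
    ?_ ?_ ?_ ?_
  · refine Set.finite_empty.subset ?_
    rintro e ⟨_, h, hh, _⟩
    exact absurd hh (Set.notMem_empty h)
  · intro s t hst ht
    refine ht.subset ?_
    rintro e ⟨he, h, hh, hq⟩
    exact ⟨he, h, hst hh, hq⟩
  · intro s t hs ht
    refine (hs.union ht).subset ?_
    rintro e ⟨he, h, hh, hq⟩
    rcases hh with hh | hh
    · exact Or.inl ⟨he, h, hh, hq⟩
    · exact Or.inr ⟨he, h, hh, hq⟩
  · intro x hx
    obtain ⟨U, hU, hf⟩ := P.locfin x (hKP hx)
    exact ⟨U, mem_nhdsWithin_of_mem_nhds hU, hf⟩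

theorem finite_vx {l : V →L[ℝ] ℝ} (hl : l ∈ P.Pos) (t : ℝ) :
    {S : Finset E | ∃ h, P.Vx S h ∧ l h ≤ t}.Finite := by
  classical
  have hK := P.comp l hl t
  have hB := PolyA_tight_compact (P := P) _ hK (fun h hh => hh.1)
  refine (hB.toFinset.powerset.finite_toSet).subset ?_
  rintro S ⟨h, hv, hlt⟩
  simp only [Finset.coe_powerset, Set.mem_preimage, Set.mem_powerset_iff]
  intro e he
  have h1 := (hv.tight e).1 he
  simp only [Set.Finite.coe_toFinset]
  exact ⟨h1.1, h, ⟨hv.mem, hlt⟩, h1.2.le⟩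

/-- Removing facets with negative coefficient from the facets at a vertex leaves a cell. -/
theorem cell_of_neg {l : V →L[ℝ] ℝ} (hl : l ∈ P.Pos) {S T : Finset E} {h : V} (hv : P.Vx S h)
    (hTS : T ⊆ S) (hT : ∀ e ∈ S, e ∉ T → l (P.dv S e) < 0) : P.Cell T := by
  classical
  refine ⟨⟨fun e he => ((hv.tight e).1 (hTS he)).1, h, hv.mem,
    fun e he => ((hv.tight e).1 (hTS he)).2⟩, ?_⟩
  -- adding nonnegative multiples
  have hadd : ∀ (R : Finset E) (a : E → ℝ), (∀ e ∈ R, e ∈ P.A) → (∀ e ∈ R, 0 ≤ a e) →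
      ∀ m ∈ P.Pos, m + ∑ e ∈ R, a e • P.q e ∈ P.Pos := by
    intro R a
    induction R using Finset.induction_on with
    | empty =>
      intro _ _ m hm
      simpa using hm
    | insert e R he ih =>
      intro hA ha m hm
      rw [Finset.sum_insert he]
      have h1 := P.pos_add m hm e (hA e (Finset.mem_insert_self e R)) (a e)
        (ha e (Finset.mem_insert_self e R))
      have h2 := ih (fun x hx => hA x (Finset.mem_insert_of_mem hx))
        (fun x hx => ha x (Finset.mem_insert_of_mem hx)) _ h1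
      rw [← add_assoc]
      exact h2
  have hexp : l = ∑ e ∈ S, l (P.dv S e) • P.q e := by
    ext x
    conv_lhs => rw [hv.expand x]
    rw [map_sum]
    simp only [map_smul, smul_eq_mul]
    rw [_root_.sum_apply]
    refine Finset.sum_congr rfl fun e _ => ?_
    change _ = l (P.dv S e) * P.q e x
    ring
  have hsplit : ∑ e ∈ S, l (P.dv S e) • P.q e =
      ∑ e ∈ T, l (P.dv S e) • P.q e + ∑ e ∈ S \ T, l (P.dv S e) • P.q e := by
    rw [add_comm, Finset.sum_sdiff hTS]
  have h1 := hadd (S \ T) (fun e => - l (P.dv S e))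
    (fun e he => ((hv.tight e).1 (Finset.mem_sdiff.1 he).1).1)
    (fun e he => by
      have := hT e (Finset.mem_sdiff.1 he).1 (Finset.mem_sdiff.1 he).2
      linarith) l hl
  have h2 : l + ∑ e ∈ S \ T, (fun e => - l (P.dv S e)) e • P.q e =
      ∑ e ∈ T, l (P.dv S e) • P.q e := by
    have h2' : l + ∑ e ∈ S \ T, (fun e => - l (P.dv S e)) e • P.q e =
        ∑ e ∈ S, l (P.dv S e) • P.q e + ∑ e ∈ S \ T, (fun e => - l (P.dv S e)) e • P.q e :=
      congrArg (fun m => m + ∑ e ∈ S \ T, (fun e => - l (P.dv S e)) e • P.q e) hexp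
    rw [h2', hsplit, add_assoc, ← Finset.sum_add_distrib]
    have h2'' : ∀ e ∈ S \ T, l (P.dv S e) • P.q e + (fun e => - l (P.dv S e)) e • P.q e = 0 := by
      intro e _
      rw [← add_smul]
      simp
    rw [Finset.sum_congr rfl h2'', Finset.sum_const_zero, add_zero]
  rw [h2] at h1
  set M : ℝ := 1 + ∑ e ∈ T, |l (P.dv S e)| with hM
  have hMpos : 0 < M := by
    have : 0 ≤ ∑ e ∈ T, |l (P.dv S e)| := Finset.sum_nonneg fun e _ => abs_nonneg _
    linarith
  have hMle : ∀ e ∈ T, l (P.dv S e) ≤ M := by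
    intro e he
    have h3 : |l (P.dv S e)| ≤ ∑ e ∈ T, |l (P.dv S e)| :=
      Finset.single_le_sum (f := fun e => |l (P.dv S e)|) (fun e _ => abs_nonneg _) he
    have h4 := le_abs_self (l (P.dv S e))
    linarith
  have h3 := hadd T (fun e => M - l (P.dv S e))
    (fun e he => ((hv.tight e).1 (hTS he)).1)
    (fun e he => by
      have := hMle e he
      linarith) _ h1
  have h4 : ∑ e ∈ T, l (P.dv S e) • P.q e + ∑ e ∈ T, (fun e => M - l (P.dv S e)) e • P.q e =
      M • ∑ e ∈ T, P.q e := by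
    rw [← Finset.sum_add_distrib, Finset.smul_sum]
    refine Finset.sum_congr rfl fun e _ => ?_
    rw [← add_smul]
    congr 1
    ring
  rw [h4] at h3
  have h5 := P.pos_smul _ h3 M⁻¹ (inv_pos.2 hMpos)
  rwa [smul_smul, inv_mul_cancel₀ hMpos.ne', one_smul] at h5

/-- A vertex is not the maximum of a positive functional. -/
theorem exists_pos_dir {l : V →L[ℝ] ℝ} (hl : l ∈ P.Pos) {S : Finset E} {h : V}
    (hv : P.Vx S h) : ∃ e ∈ S, 0 < l (P.dv S e) ∨ l (P.dv S e) = 0 := by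
  by_contra hcon
  push Not at hcon
  have h1 : P.Cell ∅ := by
    refine cell_of_neg hl hv (Finset.empty_subset S) ?_
    intro e he _
    have := hcon e he
    exact lt_of_le_of_ne this.1 this.2
  have h2 := h1.2
  rw [Finset.sum_empty] at h2
  have h3 := (P.comp 0 h2 0).isBounded
  apply P.unb
  refine h3.subset ?_
  intro x hx
  exact ⟨hx, le_refl _⟩

end PolySys

end Pool.Agent.CG2
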