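import Pool.Agent.CG2.PolyA

/-!
# The maximum of a generic functional on a cell and its minimum on a face
-/

noncomputable section

namespace Pool.Agent.CG2

open Pool.Agent.CG3

variable {E V : Type} [NormedAddCommGroup V] [NormedSpace ℝ V] [FiniteDimensional ℝ V]

namespace PolySys

variable {P : PolySys E V}

/-- Directions which do not decrease the tight functionals stay in the polyhedron. -/
theorem PolyB_move {h d : V} (hh : h ∈ P.Pi)
    (hd : ∀ e ∈ P.A, P.q e h = P.c e → 0 ≤ P.q e d) :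
    ∃ ε : ℝ, 0 < ε ∧ ∀ t : ℝ, 0 ≤ t → t < ε → h + t • d ∈ P.Pi := by
  obtain ⟨U, hU, hf⟩ := P.locfin h hh
  have hcont : Continuous fun t : ℝ => h + t • d := by fun_prop
  have hev1 : ∀ᶠ t in nhds (0 : ℝ), h + t • d ∈ U := by
    apply hcont.continuousAt.eventually
    simp only [zero_smul, add_zero]
    exact hU
  have hev2 : ∀ᶠ t in nhds (0 : ℝ), ∀ e' ∈ {e | e ∈ P.A ∧ ∃ h' ∈ U, P.q e h' ≤ P.c e},
      P.q e' h ≠ P.c e' → P.c e' < P.q e' (h + t • d) := by
    rw [Filter.eventually_all_finite hf]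
    intro e' he'
    by_cases hS : P.q e' h = P.c e'
    · exact Filter.Eventually.of_forall fun t h => absurd hS h
    · have h1 : P.c e' < P.q e' h := lt_of_le_of_ne (hh e' he'.1) (Ne.symm hS)
      have h2 : Continuous fun t : ℝ => P.q e' (h + t • d) := by fun_prop
      have h3 : ∀ᶠ t in nhds (0 : ℝ), P.c e' < P.q e' (h + t • d) := by
        apply h2.continuousAt.eventually
        apply lt_mem_nhds
        simpa using h1
      exact h3.mono fun t ht _ => ht
  obtain ⟨ε, hε, hball⟩ := Metric.eventually_nhds_iff.1 (hev1.and hev2)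
  refine ⟨ε, hε, fun t ht0 htε => ?_⟩
  obtain ⟨h1, h2⟩ := hball (y := t) (by
    rw [Real.dist_eq, sub_zero, abs_of_nonneg ht0]
    exact htε)
  intro e' he'
  by_cases hS : P.q e' h = P.c e'
  · rw [map_add, map_smul, hS]
    have h3 : 0 ≤ t * P.q e' d := mul_nonneg ht0 (hd e' he' hS)
    simpa using h3
  · by_cases hB : e' ∈ {e | e ∈ P.A ∧ ∃ h' ∈ U, P.q e h' ≤ P.c e}
    · exact (h2 e' hB hS).le
    · by_contra hlt
      apply hB
      exact ⟨he', _, h1, (not_le.1 hlt).le⟩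

theorem PolyB_closed_Pi : IsClosed P.Pi := by
  have : P.Pi = ⋂ e ∈ P.A, {h : V | P.c e ≤ P.q e h} := by
    ext h
    simp [Pi]
  rw [this]
  refine isClosed_biInter fun e _ => ?_
  exact isClosed_le continuous_const (P.q e).continuous

theorem PolyB_closed_Fc (R : Finset E) : IsClosed (P.Fc R) := by
  have : P.Fc R = P.Pi ∩ ⋂ e ∈ R, {h : V | P.q e h = P.c e} := by
    ext h
    simp [Fc]
  rw [this]
  refine PolyB_closed_Pi.inter (isClosed_biInter fun e _ => ?_)
  exact isClosed_eq (P.q e).continuous continuous_const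

/-- Finding a vertex in a compact set where the functional is extremal. -/
theorem PolyB_vertex (l : V →L[ℝ] ℝ) (R : Finset E) (hRA : ∀ e ∈ R, e ∈ P.A) (m : ℝ)
    (F : Set V) (hF : F = {h | h ∈ P.Fc R ∧ l h = m}) (hFc : IsCompact F)
    (hext : ∀ h ∈ F, ∀ d : V, (∃ ε : ℝ, 0 < ε ∧ ∀ t : ℝ, |t| < ε → h + t • d ∈ P.Fc R) →
      l d = 0) (k : ℕ) : ∀ h ∈ F,
      Module.finrank ℝ V ≤ {e | e ∈ P.A ∧ P.q e h = P.c e}.ncard + k →
      ∃ S h', P.Vx S h' ∧ R ⊆ S ∧ h' ∈ F := by
  classical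
  induction k with
  | zero =>
    intro h hh hk
    have hPi : h ∈ P.Pi := by
      rw [hF] at hh
      exact hh.1.1
    have hfin := tight_finite hPi
    refine ⟨hfin.toFinset, h, ⟨hPi, fun e => by simp, ?_⟩, ?_, hh⟩
    · apply le_antisymm
      · apply face_card
        exact ⟨fun e he => by
          rw [Set.Finite.mem_toFinset] at he
          exact he.1, h, hPi, fun e he => by
          rw [Set.Finite.mem_toFinset] at he
          exact he.2⟩
      · rw [Set.ncard_eq_toFinset_card _ hfin] at hk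
        simpa using hk
    · intro e he
      rw [Set.Finite.mem_toFinset]
      rw [hF] at hh
      exact ⟨hRA e he, hh.1.2 e he⟩
  | succ k ih =>
    intro h hh hk
    have hh' := hh
    rw [hF] at hh'
    have hPi : h ∈ P.Pi := hh'.1.1
    have hfin := tight_finite hPi
    by_cases hcard : Module.finrank ℝ V ≤ {e | e ∈ P.A ∧ P.q e h = P.c e}.ncard + 0
    · exact ih h hh (by omega)
    · -- a direction
      have hfty : Fintype {e // e ∈ hfin.toFinset} := inferInstance
      let Φ : V →ₗ[ℝ] ({e // e ∈ hfin.toFinset} → ℝ) :=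
        LinearMap.pi fun e => (P.q e.1 : V →ₗ[ℝ] ℝ)
      have hlt : Module.finrank ℝ ({e // e ∈ hfin.toFinset} → ℝ) < Module.finrank ℝ V := by
        rw [Module.finrank_fintype_fun_eq_card, Fintype.card_coe,
          ← Set.ncard_eq_toFinset_card _ hfin]
        omega
      obtain ⟨d, hdk, hd0⟩ := Submodule.exists_mem_ne_zero_of_ne_bot
        (LinearMap.ker_ne_bot_of_finrank_lt (f := Φ) hlt)
      have hqd : ∀ e ∈ P.A, P.q e h = P.c e → P.q e d = 0 := by
        intro e he hq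
        exact congrFun (LinearMap.mem_ker.1 hdk) ⟨e, by
          rw [Set.Finite.mem_toFinset]
          exact ⟨he, hq⟩⟩
      have hRd : ∀ e ∈ R, P.q e d = 0 := fun e he => hqd e (hRA e he) (hh'.1.2 e he)
      have hFcmem : ∀ t : ℝ, h + t • d ∈ P.Pi → h + t • d ∈ P.Fc R := by
        intro t ht
        refine ⟨ht, fun e he => ?_⟩
        rw [map_add, map_smul, hRd e he, hh'.1.2 e he]
        simp
      obtain ⟨ε1, hε1, hm1⟩ := PolyB_move hPi (d := d) (fun e he hq => (hqd e he hq).ge)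
      obtain ⟨ε2, hε2, hm2⟩ := PolyB_move hPi (d := -d) (fun e he hq => by
        rw [map_neg, hqd e he hq, neg_zero])
      have hld : l d = 0 := by
        apply hext h hh d
        refine ⟨min ε1 ε2, lt_min hε1 hε2, fun t ht => ?_⟩
        apply hFcmem
        rcases le_total 0 t with h0 | h0
        · rw [abs_of_nonneg h0] at ht
          exact hm1 t h0 (lt_of_lt_of_le ht (min_le_left _ _))
        · rw [abs_of_nonpos h0] at ht
          have := hm2 (-t) (neg_nonneg.2 h0) (lt_of_lt_of_le ht (min_le_right _ _))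
          simpa using this
      have hFmem : ∀ t : ℝ, h + t • d ∈ P.Pi → h + t • d ∈ F := by
        intro t ht
        rw [hF]
        refine ⟨hFcmem t ht, ?_⟩
        rw [map_add, map_smul, hld, hh'.2]
        simp
      set L : Set ℝ := {t | h + t • d ∈ F} with hL
      have hLne : (0 : ℝ) ∈ L := by
        simp [hL, hh]
      have hcont : Continuous fun t : ℝ => h + t • d := by fun_prop
      have hLc : IsClosed L := hFc.isClosed.preimage hcont
      have hLb : BddAbove L := by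
        obtain ⟨B, hB⟩ := hFc.isBounded.exists_norm_le
        refine ⟨(B + ‖h‖) / ‖d‖, fun t ht => ?_⟩
        have hdpos : 0 < ‖d‖ := norm_pos_iff.2 hd0
        rw [le_div_iff₀ hdpos]
        have h1 : ‖h + t • d‖ ≤ B := hB _ ht
        have h2 : ‖t • d‖ ≤ ‖h + t • d‖ + ‖h‖ := by
          calc ‖t • d‖ = ‖(h + t • d) - h‖ := by
                rw [add_sub_cancel_left]
            _ ≤ ‖h + t • d‖ + ‖h‖ := norm_sub_le _ _
        rw [norm_smul, Real.norm_eq_abs] at h2
        have h3 : t * ‖d‖ ≤ |t| * ‖d‖ := mul_le_mul_of_nonneg_right (le_abs_self t) hdpos.le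
        linarith
      have ht1 : sSup L ∈ L := hLc.csSup_mem ⟨0, hLne⟩ hLb
      set t1 := sSup L with ht1def
      have hh1 : h + t1 • d ∈ F := ht1
      have hh1' := hh1
      rw [hF] at hh1'
      have hPi1 : h + t1 • d ∈ P.Pi := hh1'.1.1
      have hfin1 := tight_finite hPi1
      have hsub : {e | e ∈ P.A ∧ P.q e h = P.c e} ⊆
          {e | e ∈ P.A ∧ P.q e (h + t1 • d) = P.c e} := by
        rintro e ⟨he, hq⟩
        refine ⟨he, ?_⟩
        rw [map_add, map_smul, hqd e he hq, hq]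
        simp
      have hne : ¬ {e | e ∈ P.A ∧ P.q e (h + t1 • d) = P.c e} ⊆
          {e | e ∈ P.A ∧ P.q e h = P.c e} := by
        intro hsub2
        obtain ⟨ε, hε, hm⟩ := PolyB_move hPi1 (d := d) (fun e he hq => by
          exact (hqd e he (hsub2 ⟨he, hq⟩).2).ge)
        have h1 := hm (ε / 2) (by linarith) (by linarith)
        have h2 : h + (t1 + ε / 2) • d ∈ F := by
          apply hFmem
          rw [add_smul, ← add_assoc]
          exact h1
        have h3 : t1 + ε / 2 ≤ t1 := le_csSup hLb h2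
        linarith
      have hlt2 : {e | e ∈ P.A ∧ P.q e h = P.c e}.ncard <
          {e | e ∈ P.A ∧ P.q e (h + t1 • d) = P.c e}.ncard :=
        Set.ncard_lt_ncard ⟨hsub, hne⟩ hfin1
      exact ih _ hh1 (by omega)

/-- The value at a vertex bounds the values on the face if all coefficients outside are
negative. -/
theorem Vx.PolyB_le {l : V →L[ℝ] ℝ} {R S : Finset E} {h : V} (hv : P.Vx S h)
    (hRS : R ⊆ S) (hS : ∀ e ∈ S, e ∉ R → l (P.dv S e) < 0) {h' : V} (hh' : h' ∈ P.Fc R) :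
    l h' ≤ l h ∧ (l h' = l h → h' = h) := by
  have hexp : l (h' - h) = ∑ e ∈ S, P.q e (h' - h) * l (P.dv S e) := by
    conv_lhs => rw [hv.expand (h' - h)]
    rw [map_sum]
    simp only [map_smul, smul_eq_mul]
  have hterm : ∀ e ∈ S, P.q e (h' - h) * l (P.dv S e) ≤ 0 ∧
      (P.q e (h' - h) * l (P.dv S e) = 0 → P.q e (h' - h) = 0) := by
    intro e he
    by_cases heR : e ∈ R
    · have : P.q e (h' - h) = 0 := by
        rw [map_sub, hh'.2 e heR, ((hv.tight e).1 he).2, sub_self]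
      rw [this]
      simp
    · have h1 : 0 ≤ P.q e (h' - h) := by
        rw [map_sub, ((hv.tight e).1 he).2, sub_nonneg]
        exact hh'.1 e ((hv.tight e).1 he).1
      have h2 := hS e he heR
      refine ⟨mul_nonpos_of_nonneg_of_nonpos h1 h2.le, fun h3 => ?_⟩
      rcases mul_eq_zero.1 h3 with h4 | h4
      · exact h4
      · exact absurd h4 h2.ne
  have hle : l (h' - h) ≤ 0 := by
    rw [hexp]
    exact Finset.sum_nonpos fun e he => (hterm e he).1
  refine ⟨by rw [map_sub] at hle; linarith, fun heq => ?_⟩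
  have h0 : ∑ e ∈ S, P.q e (h' - h) * l (P.dv S e) = 0 := by
    rw [← hexp, map_sub, heq, sub_self]
  rw [Finset.sum_eq_zero_iff_of_nonpos fun e he => (hterm e he).1] at h0
  rw [← sub_eq_zero]
  exact hv.PolyA_zero fun e he => (hterm e he).2 (h0 e he)

/-- The maximum of `l` on a cell. -/
theorem max_vx {l : V →L[ℝ] ℝ} (hl : P.Gen l) {R : Finset E} (hR : P.Cell R) :
    ∃ S h, P.Vx S h ∧ R ⊆ S ∧ (∀ e ∈ S, e ∉ R → l (P.dv S e) < 0) ∧
      ∀ h' ∈ P.Fc R, l h' ≤ l h := by
  have hne := hR.1.2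
  have hcomp : IsCompact (P.Fc R) := by
    have h1 := P.comp _ hR.2 (∑ e ∈ R, P.c e)
    refine h1.of_isClosed_subset (PolyB_closed_Fc R) ?_
    rintro h ⟨hh, hq⟩
    refine ⟨hh, le_of_eq ?_⟩
    rw [_root_.sum_apply]
    exact Finset.sum_congr rfl fun e he => hq e he
  obtain ⟨h0, hh0, hmax⟩ := hcomp.exists_isMaxOn hne l.continuous.continuousOn
  have hmax' : ∀ h' ∈ P.Fc R, l h' ≤ l h0 := fun h' hh' => hmax hh'
  obtain ⟨S, h, hv, hRS, hhF⟩ := PolyB_vertex l R hR.1.1 (l h0)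
    {h | h ∈ P.Fc R ∧ l h = l h0} rfl
    (hcomp.of_isClosed_subset ((PolyB_closed_Fc R).inter
      (isClosed_eq l.continuous continuous_const)) (fun h hh => hh.1))
    (by
      rintro h ⟨hh, hlh⟩ d ⟨ε, hε, hd⟩
      have h1 := hmax' _ (hd (ε / 2) (by rw [abs_of_pos (by linarith)]; linarith))
      have h2 := hmax' _ (hd (-(ε / 2)) (by rw [abs_neg, abs_of_pos (by linarith)]; linarith))
      rw [map_add, map_smul, hlh, smul_eq_mul] at h1 h2
      have h3 : ε / 2 * l d ≤ 0 := by linarith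
      have h4 : 0 ≤ ε / 2 * l d := by linarith
      have h5 : ε / 2 * l d = 0 := le_antisymm h3 h4
      rcases mul_eq_zero.1 h5 with h6 | h6
      · linarith
      · exact h6)
    (Module.finrank ℝ V) h0 ⟨hh0, rfl⟩ (by omega)
  have hmaxh : ∀ h' ∈ P.Fc R, l h' ≤ l h := by
    intro h' hh'
    rw [hhF.2]
    exact hmax' h' hh'
  refine ⟨S, h, hv, hRS, ?_, hmaxh⟩
  intro e he heR
  obtain ⟨ε, hε, hm⟩ := PolyB_move hv.mem (d := P.dv S e) (fun e' he' hq => by
    have he'S : e' ∈ S := (hv.tight e').2 ⟨he', hq⟩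
    by_cases hee : e' = e
    · subst hee
      rw [(hv.dual e' he).1]
      exact zero_le_one
    · rw [(hv.dual e he).2 e' he'S hee])
  have h1 := hm (ε / 2) (by linarith) (by linarith)
  have h2 : h + (ε / 2) • P.dv S e ∈ P.Fc R := by
    refine ⟨h1, fun e' he' => ?_⟩
    rw [map_add, map_smul, (hv.dual e he).2 e' (hRS he') (fun h => heR (h ▸ he')),
      hhF.1.2 e' he']
    simp
  have h3 := hmaxh _ h2
  rw [map_add, map_smul, smul_eq_mul] at h3
  have h4 : ε / 2 * l (P.dv S e) ≤ 0 := by linarith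
  have h5 : l (P.dv S e) ≤ 0 := by
    by_contra hpos
    have := mul_pos (half_pos hε) (not_le.1 hpos)
    linarith
  exact lt_of_le_of_ne h5 (hl.ne S h hv e he)

theorem PolyB_eq_of_eq {S S' : Finset E} {h : V} (hv : P.Vx S h) (hv' : P.Vx S' h) : S = S' := by
  ext e
  rw [hv.tight, hv'.tight]

theorem PolyB_Fc {R S : Finset E} {h : V} (hv : P.Vx S h) (hRS : R ⊆ S) : h ∈ P.Fc R :=
  ⟨hv.mem, fun e he => ((hv.tight e).1 (hRS he)).2⟩

theorem max_unique {l : V →L[ℝ] ℝ} (hl : P.Gen l) {R S S' : Finset E} {h h' : V}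
    (hv : P.Vx S h) (hv' : P.Vx S' h') (hRS : R ⊆ S) (hRS' : R ⊆ S')
    (hS : ∀ e ∈ S, e ∉ R → l (P.dv S e) < 0) (hS' : ∀ e ∈ S', e ∉ R → l (P.dv S' e) < 0) :
    S = S' := by
  have h1 := hv.PolyB_le hRS hS (PolyB_Fc hv' hRS')
  have h2 := hv'.PolyB_le hRS' hS' (PolyB_Fc hv hRS)
  have h3 : h' = h := h1.2 (le_antisymm h1.1 h2.1)
  subst h3
  exact PolyB_eq_of_eq hv hv'

/-- The minimum of `l` on a face. -/
theorem min_vx {l : V →L[ℝ] ℝ} (hl : P.Gen l) {R : Finset E} (hR : P.Face R) :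
    ∃ S h, P.Vx S h ∧ R ⊆ S ∧ (∀ e ∈ S, e ∉ R → 0 < l (P.dv S e)) ∧
      ∀ h' ∈ P.Fc R, l h ≤ l h' := by
  obtain ⟨x0, hx0⟩ := hR.2
  have hcompt : ∀ t : ℝ, IsCompact (P.Fc R ∩ {h | l h ≤ t}) := by
    intro t
    refine (P.comp l hl.pos t).of_isClosed_subset
      ((PolyB_closed_Fc R).inter (isClosed_le l.continuous continuous_const)) ?_
    rintro h ⟨hh, hlt⟩
    exact ⟨hh.1, hlt⟩
  obtain ⟨h0, hh0, hmin⟩ := (hcompt (l x0)).exists_isMinOn ⟨x0, hx0, (le_refl (l x0) : l x0 ≤ l x0)⟩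
    l.continuous.continuousOn
  have hmin' : ∀ h' ∈ P.Fc R, l h0 ≤ l h' := by
    intro h' hh'
    by_cases hle : l h' ≤ l x0
    · exact hmin ⟨hh', hle⟩
    · exact le_trans hh0.2 (not_le.1 hle).le
  obtain ⟨S, h, hv, hRS, hhF⟩ := PolyB_vertex l R hR.1 (l h0)
    {h | h ∈ P.Fc R ∧ l h = l h0} rfl
    ((hcompt (l h0)).of_isClosed_subset ((PolyB_closed_Fc R).inter
      (isClosed_eq l.continuous continuous_const)) (fun h hh => ⟨hh.1, hh.2.le⟩))
    (by
      rintro h ⟨hh, hlh⟩ d ⟨ε, hε, hd⟩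
      have h1 := hmin' _ (hd (ε / 2) (by rw [abs_of_pos (by linarith)]; linarith))
      have h2 := hmin' _ (hd (-(ε / 2)) (by rw [abs_neg, abs_of_pos (by linarith)]; linarith))
      rw [map_add, map_smul, hlh, smul_eq_mul] at h1 h2
      have h3 : ε / 2 * l d ≤ 0 := by linarith
      have h4 : 0 ≤ ε / 2 * l d := by linarith
      have h5 : ε / 2 * l d = 0 := le_antisymm h3 h4
      rcases mul_eq_zero.1 h5 with h6 | h6
      · linarith
      · exact h6)
    (Module.finrank ℝ V) h0 ⟨hh0.1, rfl⟩ (by omega)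
  have hminh : ∀ h' ∈ P.Fc R, l h ≤ l h' := by
    intro h' hh'
    rw [hhF.2]
    exact hmin' h' hh'
  refine ⟨S, h, hv, hRS, ?_, hminh⟩
  intro e he heR
  obtain ⟨ε, hε, hm⟩ := PolyB_move hv.mem (d := P.dv S e) (fun e' he' hq => by
    have he'S : e' ∈ S := (hv.tight e').2 ⟨he', hq⟩
    by_cases hee : e' = e
    · subst hee
      rw [(hv.dual e' he).1]
      exact zero_le_one
    · rw [(hv.dual e he).2 e' he'S hee])
  have h1 := hm (ε / 2) (by linarith) (by linarith)
  have h2 : h + (ε / 2) • P.dv S e ∈ P.Fc R := by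
    refine ⟨h1, fun e' he' => ?_⟩
    rw [map_add, map_smul, (hv.dual e he).2 e' (hRS he') (fun h => heR (h ▸ he')),
      hhF.1.2 e' he']
    simp
  have h3 := hminh _ h2
  rw [map_add, map_smul, smul_eq_mul] at h3
  have h4 : 0 ≤ ε / 2 * l (P.dv S e) := by linarith
  have h5 : 0 ≤ l (P.dv S e) := by
    by_contra hneg
    have := mul_neg_of_pos_of_neg (half_pos hε) (not_le.1 hneg)
    linarith
  exact lt_of_le_of_ne h5 (Ne.symm (hl.ne S h hv e he))

theorem min_unique {l : V →L[ℝ] ℝ} (hl : P.Gen l) {R S S' : Finset E} {h h' : V}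
    (hv : P.Vx S h) (hv' : P.Vx S' h') (hRS : R ⊆ S) (hRS' : R ⊆ S')
    (hS : ∀ e ∈ S, e ∉ R → 0 < l (P.dv S e)) (hS' : ∀ e ∈ S', e ∉ R → 0 < l (P.dv S' e)) :
    S = S' := by
  have h1 := hv.PolyB_le (l := -l) hRS (fun e he heR => by
    have := hS e he heR
    simpa using this) (PolyB_Fc hv' hRS')
  have h2 := hv'.PolyB_le (l := -l) hRS' (fun e he heR => by
    have := hS' e he heR
    simpa using this) (PolyB_Fc hv hRS)
  have h3 : h' = h := h1.2 (le_antisymm h1.1 h2.1)
  subst h3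
  exact PolyB_eq_of_eq hv hv'

end PolySys

end Pool.Agent.CG2
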