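import Pool.Agent.CG2.PolyDefs

/-!
# Finite products of simple polyhedra
-/

noncomputable section

namespace Pool.Agent.CG2

open Pool.Agent.CG3

variable {E V : Type} [NormedAddCommGroup V] [NormedSpace ℝ V] [FiniteDimensional ℝ V]

namespace PolySys

open Classical in
/-- The functional of the facet `e` on the factor `i` of the product. -/
def prodQ {I : Type} (J : Finset I) (P : I → PolySys E V) (e : I × E) :
    (J → V) →L[ℝ] ℝ :=
  if h : e.1 ∈ J then ((P e.1).q e.2).comp (ContinuousLinearMap.proj ⟨e.1, h⟩) else 0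

theorem prodQ_apply {I : Type} {J : Finset I} {P : I → PolySys E V} {e : I × E} (h : e.1 ∈ J)
    (x : J → V) : prodQ J P e x = (P e.1).q e.2 (x ⟨e.1, h⟩) := by
  rw [prodQ, dif_pos h]
  rfl

open Classical in
theorem prodQ_single {I : Type} {J : Finset I} [DecidableEq J] {P : I → PolySys E V} {e : I × E}
    (h : e.1 ∈ J) (i : J) : (prodQ J P e).comp (ContinuousLinearMap.single ℝ (fun _ : J => V) i) =
      if e.1 = i.1 then (P i.1).q e.2 else 0 := by
  ext x
  rw [ContinuousLinearMap.comp_apply, prodQ_apply h]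
  split_ifs with h1
  · obtain ⟨i, hi⟩ := i
    obtain ⟨a, b⟩ := e
    simp only at h1
    subst h1
    simp
  · have : (ContinuousLinearMap.single ℝ (fun _ : J => V) i) x ⟨e.1, h⟩ = 0 := by
      rw [ContinuousLinearMap.single_apply]
      apply Pi.single_eq_of_ne
      intro h2
      apply h1
      rw [← h2]
    rw [this, map_zero]
    simp

omit [FiniteDimensional ℝ V] in
theorem sum_single {I : Type} {J : Finset I} [DecidableEq J] (l : (J → V) →L[ℝ] ℝ) (h : J → V) :
    l h = ∑ i : J, (l.comp (ContinuousLinearMap.single ℝ (fun _ : J => V) i)) (h i) := by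
  conv_lhs => rw [← Finset.univ_sum_single h, map_sum]
  rfl

/-- A positive functional is bounded below. -/
theorem bdd_below (P : PolySys E V) {l : V →L[ℝ] ℝ} (hl : l ∈ P.Pos) :
    ∃ b : ℝ, ∀ h : V, (∀ e ∈ P.A, P.c e ≤ P.q e h) → b ≤ l h := by
  obtain ⟨h0, hh0⟩ := P.ne
  have hc := P.comp l hl (l h0)
  obtain ⟨h1, hh1, hmin⟩ := hc.exists_isMinOn ⟨h0, hh0, le_rfl⟩ l.continuous.continuousOn
  refine ⟨l h1, fun h hh => ?_⟩
  by_cases hle : l h ≤ l h0
  · exact hmin ⟨hh, hle⟩
  · have h2 := hmin (show h0 ∈ _ from ⟨hh0, le_rfl⟩)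
    have h3 : l h1 ≤ l h0 := h2
    linarith


theorem prod_pi {I : Type} {J : Finset I} {P : I → PolySys E V} (h : J → V) :
    (∀ e : I × E, (e.1 ∈ J ∧ e.2 ∈ (P e.1).A) → (P e.1).c e.2 ≤ prodQ J P e h) ↔
      ∀ i : J, ∀ e ∈ (P i.1).A, (P i.1).c e ≤ (P i.1).q e (h i) := by
  constructor
  · intro hh i e he
    have := hh (i.1, e) ⟨i.2, he⟩
    rwa [prodQ_apply i.2] at this
  · rintro hh ⟨i, e⟩ ⟨hi, he⟩
    rw [prodQ_apply hi]
    exact hh ⟨i, hi⟩ e he

theorem prod_compact {I : Type} {J : Finset I} [DecidableEq J] {P : I → PolySys E V}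
    {l : (J → V) →L[ℝ] ℝ}
    (hl : ∀ i : J, l.comp (ContinuousLinearMap.single ℝ (fun _ : J => V) i) ∈ (P i.1).Pos)
    (t : ℝ) : IsCompact {h : J → V | (∀ e : I × E, (e.1 ∈ J ∧ e.2 ∈ (P e.1).A) →
      (P e.1).c e.2 ≤ prodQ J P e h) ∧ l h ≤ t} := by
  choose b hb using fun i : J => bdd_below (P i.1) (hl i)
  have hK : IsCompact (Set.pi Set.univ fun i : J => {h : V | (∀ e ∈ (P i.1).A,
      (P i.1).c e ≤ (P i.1).q e h) ∧
      (l.comp (ContinuousLinearMap.single ℝ (fun _ : J => V) i)) h ≤ t - ∑ j ∈ Finset.univ.erase i, b j}) :=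
    isCompact_univ_pi fun i => (P i.1).comp _ (hl i) _
  apply hK.of_isClosed_subset
  · apply IsClosed.and
    · simp only [Set.ofPred_forall]
      refine isClosed_iInter fun e => isClosed_iInter fun _ => ?_
      exact isClosed_le continuous_const (ContinuousLinearMap.continuous _)
    · exact isClosed_le l.continuous continuous_const
  · rintro h ⟨h1, h2⟩
    rw [prod_pi] at h1
    rw [Set.mem_univ_pi]
    intro i
    refine ⟨h1 i, ?_⟩
    rw [sum_single] at h2
    rw [← Finset.add_sum_erase _ _ (Finset.mem_univ i)] at h2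
    have h3 : ∑ j ∈ Finset.univ.erase i, b j ≤ ∑ j ∈ Finset.univ.erase i,
        (l.comp (ContinuousLinearMap.single ℝ (fun _ : J => V) j)) (h j) :=
      Finset.sum_le_sum fun j _ => hb j (h j) (h1 j)
    linarith

theorem prod_locfin {I : Type} {J : Finset I} {P : I → PolySys E V} (h : J → V)
    (hh : ∀ e : I × E, (e.1 ∈ J ∧ e.2 ∈ (P e.1).A) → (P e.1).c e.2 ≤ prodQ J P e h) :
    ∃ U ∈ nhds h, {e : I × E | (e.1 ∈ J ∧ e.2 ∈ (P e.1).A) ∧ ∃ h' ∈ U,
      prodQ J P e h' ≤ (P e.1).c e.2}.Finite := by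
  rw [prod_pi] at hh
  choose U hU hf using fun i : J => (P i.1).locfin (h i) (hh i)
  refine ⟨Set.pi Set.univ U, set_pi_mem_nhds Set.finite_univ fun i _ => hU i, ?_⟩
  have : (⋃ i : J, (fun e : E => (i.1, e)) '' {e | e ∈ (P i.1).A ∧ ∃ h' ∈ U i,
      (P i.1).q e h' ≤ (P i.1).c e}).Finite :=
    Set.finite_iUnion fun i => (hf i).image _
  apply this.subset
  rintro ⟨i, e⟩ ⟨⟨hi, he⟩, h', hh', hle⟩
  rw [prodQ_apply hi] at hle
  exact Set.mem_iUnion.2 ⟨⟨i, hi⟩, e, ⟨he, h' ⟨i, hi⟩, hh' _ (Set.mem_univ _), hle⟩, rfl⟩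

theorem prod_indep {I : Type} {J : Finset I} {P : I → PolySys E V} (h : J → V)
    (hh : ∀ e : I × E, (e.1 ∈ J ∧ e.2 ∈ (P e.1).A) → (P e.1).c e.2 ≤ prodQ J P e h) :
    LinearIndependent ℝ (fun e : {e : I × E // (e.1 ∈ J ∧ e.2 ∈ (P e.1).A) ∧
      prodQ J P e h = (P e.1).c e.2} => prodQ J P e.1) := by
  classical
  rw [prod_pi] at hh
  rw [linearIndependent_iff']
  intro s g hs e0 he0
  obtain ⟨⟨i, e⟩, ⟨hi', he'⟩, ht⟩ := e0
  have hi : i ∈ J := hi'
  have he : e ∈ (P i).A := he'
  have hte : (P i).q e (h ⟨i, hi⟩) = (P i).c e := by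
    have := prodQ_apply (P := P) (e := (i, e)) hi h
    rw [← this]
    exact ht
  -- the family of the factor `i`
  let f : {e : E // e ∈ (P i).A ∧ (P i).q e (h ⟨i, hi⟩) = (P i).c e} →
      {e : I × E // (e.1 ∈ J ∧ e.2 ∈ (P e.1).A) ∧ prodQ J P e h = (P e.1).c e.2} :=
    fun e => ⟨(i, e.1), ⟨hi, e.2.1⟩, (prodQ_apply (P := P) (e := (i, e.1)) hi h).trans e.2.2⟩
  have hinj : Function.Injective f := by
    intro a b hab
    have := congrArg (fun e => e.1.2) hab
    exact Subtype.ext this
  have h1 := (P i).indep (h ⟨i, hi⟩) (hh ⟨i, hi⟩)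
  rw [linearIndependent_iff'] at h1
  let G : {e : I × E // (e.1 ∈ J ∧ e.2 ∈ (P e.1).A) ∧ prodQ J P e h = (P e.1).c e.2} →
      (V →L[ℝ] ℝ) := fun e => g e • (prodQ J P e.1).comp
        (ContinuousLinearMap.single ℝ (fun _ : J => V) ⟨i, hi⟩)
  have h2 := h1 (s.preimage f hinj.injOn) (fun e => g (f e)) (by
    calc ∑ x ∈ s.preimage f hinj.injOn, g (f x) • (P i).q x.1 =
        ∑ x ∈ s.preimage f hinj.injOn, G (f x) := by
          refine Finset.sum_congr rfl fun x _ => ?_
          show _ = g (f x) • (prodQ J P (i, x.1)).comp _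
          rw [prodQ_single (e := (i, x.1)) hi, if_pos rfl]
      _ = ∑ x ∈ s, G x := by
          apply Finset.sum_preimage
          rintro ⟨⟨a, b⟩, ⟨ha, hb⟩, hab⟩ _ hr
          have : a ≠ i := by
            rintro rfl
            apply hr
            exact ⟨⟨b, hb, (prodQ_apply (P := P) (e := (a, b)) hi h).symm.trans hab⟩, rfl⟩
          show g _ • (prodQ J P (a, b)).comp _ = 0
          rw [prodQ_single (e := (a, b)) ha, if_neg this, smul_zero]
      _ = 0 := by
          have e2 := congrArg (fun l : (J → V) →L[ℝ] ℝ => l.comp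
            (ContinuousLinearMap.single ℝ (fun _ : J => V) ⟨i, hi⟩)) hs
          ext x
          have e3 := congrArg (fun l : V →L[ℝ] ℝ => l x) e2
          simp only [ContinuousLinearMap.comp_apply, _root_.sum_apply,
            _root_.smul_apply, _root_.zero_apply, G] at e3 ⊢
          exact e3)
  exact h2 ⟨e, he, hte⟩ (by rw [Finset.mem_preimage]; exact he0)


omit [FiniteDimensional ℝ V] in
theorem prod_comp_single {I : Type} {J : Finset I} [DecidableEq J] (l : J → (V →L[ℝ] ℝ)) (i : J) :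
    (∑ j : J, (l j).comp (ContinuousLinearMap.proj (R := ℝ) (φ := fun _ : J => V) j)).comp
      (ContinuousLinearMap.single ℝ (fun _ : J => V) i) = l i := by
  ext x
  simp only [ContinuousLinearMap.comp_apply, _root_.sum_apply,
    ContinuousLinearMap.proj_apply, ContinuousLinearMap.single_apply]
  rw [Finset.sum_eq_single i]
  · rw [Pi.single_eq_same]
  · intro j _ hj
    rw [Pi.single_eq_of_ne hj, map_zero]
  · intro hh
    exact absurd (Finset.mem_univ i) hh

open Classical in
/-- The product of finitely many simple polyhedra. -/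
def prod {I : Type} (J : Finset I) (hJ : J.Nonempty) (P : I → PolySys E V) :
    PolySys (I × E) (J → V) where
  A := {e | e.1 ∈ J ∧ e.2 ∈ (P e.1).A}
  q := prodQ J P
  c e := (P e.1).c e.2
  Pos := {l | ∀ i : J, l.comp (ContinuousLinearMap.single ℝ (fun _ : J => V) i) ∈ (P i.1).Pos}
  ctbl := by
    have : {e : I × E | e.1 ∈ J ∧ e.2 ∈ (P e.1).A} = ⋃ i ∈ J, (fun e => (i, e)) '' (P i).A := by
      ext ⟨i, e⟩
      simp only [Set.mem_ofPred_eq, Set.mem_iUnion, Set.mem_image, Prod.mk.injEq]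
      constructor
      · rintro ⟨hi, he⟩
        exact ⟨i, hi, e, he, rfl, rfl⟩
      · rintro ⟨i', hi, e', he, rfl, rfl⟩
        exact ⟨hi, he⟩
    rw [this]
    exact J.countable_toSet.biUnion fun i _ => (P i).ctbl.image _
  ne := by
    choose h hh using fun i : J => (P i.1).ne
    exact ⟨h, (prod_pi h).2 hh⟩
  pos_ne := by
    choose l hl using fun i : J => (P i.1).pos_ne
    refine ⟨∑ j : J, (l j).comp (ContinuousLinearMap.proj (R := ℝ) (φ := fun _ : J => V) j),
      fun i => ?_⟩
    rw [prod_comp_single]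
    exact hl i
  comp := fun l hl t => prod_compact hl t
  locfin := fun h hh => prod_locfin h hh
  indep := fun h hh => prod_indep h hh
  pos_open := by
    simp only [Set.ofPred_forall]
    refine isOpen_iInter_of_finite fun i => ?_
    exact (P i.1).pos_open.preimage (continuous_id.clm_comp continuous_const)
  pos_add := by
    rintro l hl ⟨j, e⟩ ⟨hj, he⟩ a ha i
    have e1 : (l + a • prodQ J P (j, e)).comp (ContinuousLinearMap.single ℝ (fun _ : J => V) i) =
        l.comp (ContinuousLinearMap.single ℝ (fun _ : J => V) i) + a • ((prodQ J P (j, e)).comp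
          (ContinuousLinearMap.single ℝ (fun _ : J => V) i)) := by
      ext x; simp
    rw [e1, prodQ_single (e := (j, e)) hj]
    split_ifs with h1
    · have h2 : j = i.1 := h1
      subst h2
      exact (P i.1).pos_add _ (hl i) e he a ha
    · rw [smul_zero, add_zero]
      exact hl i
  pos_smul := by
    intro l hl a ha i
    have e1 : (a • l).comp (ContinuousLinearMap.single ℝ (fun _ : J => V) i) =
        a • l.comp (ContinuousLinearMap.single ℝ (fun _ : J => V) i) := by
      ext x; simp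
    rw [e1]
    exact (P i.1).pos_smul _ (hl i) a ha
  unb := by
    intro hb
    obtain ⟨i, hi⟩ := hJ
    apply (P i).unb
    choose h0 hh0 using fun i : J => (P i.1).ne
    have hb2 := hb.image_eval (⟨i, hi⟩ : J)
    refine hb2.subset ?_
    intro x hx
    refine ⟨Function.update h0 ⟨i, hi⟩ x, ?_, by simp⟩
    rw [Set.mem_ofPred_eq]
    refine (prod_pi _).2 fun j => ?_
    by_cases hj : j = ⟨i, hi⟩
    · subst hj
      rw [Function.update_self]
      exact hx
    · rw [Function.update_of_ne hj]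
      exact hh0 j

theorem prod_sum_single {I : Type} [DecidableEq E] [DecidableEq I] (J : Finset I)
    [inst2 : DecidableEq J] (P : I → PolySys E V) (R : Finset (I × E)) (hR : ∀ e ∈ R, e.1 ∈ J) (i : J) :
    (∑ e ∈ R, prodQ J P e).comp (ContinuousLinearMap.single ℝ (fun _ : J => V) i) =
      ∑ e ∈ (R.filter fun e => e.1 = i.1).image Prod.snd, (P i.1).q e := by
  have e1 : (∑ e ∈ R, prodQ J P e).comp (ContinuousLinearMap.single ℝ (fun _ : J => V) i) =
      ∑ e ∈ R, (prodQ J P e).comp (ContinuousLinearMap.single ℝ (fun _ : J => V) i) := by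
    ext x
    simp only [ContinuousLinearMap.comp_apply, _root_.sum_apply]
  rw [e1, Finset.sum_congr rfl (fun e he => prodQ_single (hR e he) i), Finset.sum_image]
  · rw [Finset.sum_filter]
    refine Finset.sum_congr rfl fun e _ => ?_
    congr
  · rintro ⟨a, b⟩ h1 ⟨a', b'⟩ h2 h3
    simp only [Finset.coe_filter, Set.mem_ofPred_eq] at h1 h2
    rw [Prod.mk.injEq]
    exact ⟨h1.2.trans h2.2.symm, h3⟩

/-- The cells of the product are the products of the cells. -/
theorem prod_cell {I : Type} [DecidableEq E] [DecidableEq I] (J : Finset I) (hJ : J.Nonempty)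
    (P : I → PolySys E V) (R : Finset (I × E)) :
    (prod J hJ P).Cell R ↔ (∀ e ∈ R, e.1 ∈ J) ∧
      ∀ i ∈ J, (P i).Cell ((R.filter fun e => e.1 = i).image Prod.snd) := by
  have hmem : ∀ (i : I) (e : E), e ∈ (R.filter fun e => e.1 = i).image Prod.snd ↔ (i, e) ∈ R := by
    intro i e
    rw [Finset.mem_image]
    constructor
    · rintro ⟨⟨a, b⟩, h1, h2⟩
      rw [Finset.mem_filter] at h1
      have h3 : b = e := h2
      have h4 : a = i := h1.2
      rw [← h3, ← h4]
      exact h1.1
    · intro h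
      exact ⟨(i, e), Finset.mem_filter.2 ⟨h, rfl⟩, rfl⟩
  constructor
  · rintro ⟨⟨hA, h, hh, ht⟩, hp⟩
    have hJ' : ∀ e ∈ R, e.1 ∈ J := fun e he => (hA e he).1
    refine ⟨hJ', fun i hi => ⟨⟨?_, h ⟨i, hi⟩, ?_, ?_⟩, ?_⟩⟩
    · intro e he
      rw [hmem] at he
      exact (hA _ he).2
    · exact (prod_pi h).1 hh ⟨i, hi⟩
    · intro e he
      rw [hmem] at he
      have := ht _ he
      exact (prodQ_apply (P := P) (e := (i, e)) hi h).symm.trans this
    · have := hp ⟨i, hi⟩
      have e := prod_sum_single (J := J) (P := P) (R := R) (hR := hJ') (i := ⟨i, hi⟩)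
        (inst2 := fun a b => @Subtype.instDecidableEq I (fun x => x ∈ J)
          (fun x y => Classical.propDecidable (x = y)) a b)
      rw [← e]
      exact this
  · rintro ⟨hJ', hc⟩
    choose h hh ht using fun i : J => (hc i.1 i.2).1.2
    refine ⟨⟨fun e he => ⟨hJ' e he, ?_⟩, h, ?_, ?_⟩, ?_⟩
    · have := (hc e.1 (hJ' e he)).1.1 e.2 ((hmem _ _).2 he)
      exact this
    · exact (prod_pi h).2 hh
    · rintro ⟨i, e⟩ he
      have hi := hJ' _ he
      have := ht ⟨i, hi⟩ e ((hmem _ _).2 he)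
      exact (prodQ_apply (P := P) (e := (i, e)) hi h).trans this
    · intro i
      have h1 := (hc i.1 i.2).2
      have e := prod_sum_single (J := J) (P := P) (R := R) (hR := hJ') (i := i)
        (inst2 := fun a b => @Subtype.instDecidableEq I (fun x => x ∈ J)
          (fun x y => Classical.propDecidable (x = y)) a b)
      rw [← e] at h1
      exact h1

end PolySys

end Pool.Agent.CG2
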