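import Pool.Agent.CG2.PolyOr
import Pool.Agent.CG2.PolyProd

/-!
# The double of a simple polyhedron and its canonical orientation
-/

noncomputable section

namespace Pool.Agent.CG2

open Pool.Agent.CG3

variable {E V : Type} [NormedAddCommGroup V] [NormedSpace ℝ V] [FiniteDimensional ℝ V]

namespace PolySys

/-- The functional of a facet of the double. -/
def dblQ (P : PolySys E V) : E ⊕ E → (V × V →L[ℝ] ℝ) :=
  Sum.elim (fun e => (P.q e).comp (ContinuousLinearMap.fst ℝ V V))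
    (fun e => (P.q e).comp (ContinuousLinearMap.snd ℝ V V))

theorem dbl_pi (P : PolySys E V) (h : V × V) :
    (∀ e ∈ (Sum.inl '' P.A ∪ Sum.inr '' P.A : Set (E ⊕ E)), Sum.elim P.c P.c e ≤ P.dblQ e h) ↔
      (∀ e ∈ P.A, P.c e ≤ P.q e h.1) ∧ ∀ e ∈ P.A, P.c e ≤ P.q e h.2 := by
  constructor
  · intro hh
    exact ⟨fun e he => hh (Sum.inl e) (Or.inl ⟨e, he, rfl⟩),
      fun e he => hh (Sum.inr e) (Or.inr ⟨e, he, rfl⟩)⟩
  · rintro ⟨h1, h2⟩ e (⟨e, he, rfl⟩ | ⟨e, he, rfl⟩)
    · exact h1 e he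
    · exact h2 e he

theorem dbl_split (l : V × V →L[ℝ] ℝ) (h : V × V) :
    l h = (l.comp (ContinuousLinearMap.inl ℝ V V)) h.1 +
      (l.comp (ContinuousLinearMap.inr ℝ V V)) h.2 := by
  simp only [ContinuousLinearMap.comp_apply, ContinuousLinearMap.inl_apply,
    ContinuousLinearMap.inr_apply]
  rw [← map_add]
  simp

theorem dbl_compact (P : PolySys E V) {l : V × V →L[ℝ] ℝ}
    (h1 : l.comp (ContinuousLinearMap.inl ℝ V V) ∈ P.Pos)
    (h2 : l.comp (ContinuousLinearMap.inr ℝ V V) ∈ P.Pos) (t : ℝ) :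
    IsCompact {h : V × V | (∀ e ∈ (Sum.inl '' P.A ∪ Sum.inr '' P.A : Set (E ⊕ E)),
      Sum.elim P.c P.c e ≤ P.dblQ e h) ∧ l h ≤ t} := by
  obtain ⟨b1, hb1⟩ := bdd_below P h1
  obtain ⟨b2, hb2⟩ := bdd_below P h2
  have hK := (P.comp _ h1 (t - b2)).prod (P.comp _ h2 (t - b1))
  apply hK.of_isClosed_subset
  · apply IsClosed.and
    · simp only [Set.ofPred_forall]
      refine isClosed_iInter fun e => isClosed_iInter fun _ => ?_
      exact isClosed_le continuous_const (ContinuousLinearMap.continuous _)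
    · exact isClosed_le l.continuous continuous_const
  · rintro h ⟨h3, h4⟩
    rw [dbl_pi] at h3
    rw [dbl_split] at h4
    have h5 := hb1 h.1 h3.1
    have h6 := hb2 h.2 h3.2
    exact ⟨⟨h3.1, by linarith⟩, ⟨h3.2, by linarith⟩⟩

theorem dbl_locfin (P : PolySys E V) (h : V × V)
    (hh : ∀ e ∈ (Sum.inl '' P.A ∪ Sum.inr '' P.A : Set (E ⊕ E)), Sum.elim P.c P.c e ≤ P.dblQ e h) :
    ∃ U ∈ nhds h, {e : E ⊕ E | e ∈ (Sum.inl '' P.A ∪ Sum.inr '' P.A : Set (E ⊕ E)) ∧
      ∃ h' ∈ U, P.dblQ e h' ≤ Sum.elim P.c P.c e}.Finite := by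
  rw [dbl_pi] at hh
  obtain ⟨U1, hU1, hf1⟩ := P.locfin h.1 hh.1
  obtain ⟨U2, hU2, hf2⟩ := P.locfin h.2 hh.2
  refine ⟨U1 ×ˢ U2, prod_mem_nhds hU1 hU2, ?_⟩
  apply ((hf1.image Sum.inl).union (hf2.image Sum.inr)).subset
  rintro e ⟨⟨e, he, rfl⟩ | ⟨e, he, rfl⟩, h', hh', hle⟩
  · exact Or.inl ⟨e, ⟨he, h'.1, hh'.1, hle⟩, rfl⟩
  · exact Or.inr ⟨e, ⟨he, h'.2, hh'.2, hle⟩, rfl⟩

theorem dblQ_inl (P : PolySys E V) (e : E ⊕ E) :
    (P.dblQ e).comp (ContinuousLinearMap.inl ℝ V V) = Sum.elim P.q (fun _ => 0) e := by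
  rcases e with e | e
  · ext x; simp [dblQ]
  · ext x; simp [dblQ]

theorem dblQ_inr (P : PolySys E V) (e : E ⊕ E) :
    (P.dblQ e).comp (ContinuousLinearMap.inr ℝ V V) = Sum.elim (fun _ => 0) P.q e := by
  rcases e with e | e
  · ext x; simp [dblQ]
  · ext x; simp [dblQ]

theorem dbl_indep (P : PolySys E V) (h : V × V)
    (hh : ∀ e ∈ (Sum.inl '' P.A ∪ Sum.inr '' P.A : Set (E ⊕ E)), Sum.elim P.c P.c e ≤ P.dblQ e h) :
    LinearIndependent ℝ (fun e : {e : E ⊕ E // e ∈ (Sum.inl '' P.A ∪ Sum.inr '' P.A : Set (E ⊕ E))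
      ∧ P.dblQ e h = Sum.elim P.c P.c e} => P.dblQ e.1) := by
  classical
  rw [dbl_pi] at hh
  rw [linearIndependent_iff']
  intro s g hs
  have key1 := P.indep h.1 hh.1
  have key2 := P.indep h.2 hh.2
  rw [linearIndependent_iff'] at key1 key2
  let f1 : {e : E // e ∈ P.A ∧ P.q e h.1 = P.c e} →
      {e : E ⊕ E // e ∈ (Sum.inl '' P.A ∪ Sum.inr '' P.A : Set (E ⊕ E)) ∧
        P.dblQ e h = Sum.elim P.c P.c e} :=
    fun e => ⟨Sum.inl e.1, Or.inl ⟨e.1, e.2.1, rfl⟩, e.2.2⟩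
  let f2 : {e : E // e ∈ P.A ∧ P.q e h.2 = P.c e} →
      {e : E ⊕ E // e ∈ (Sum.inl '' P.A ∪ Sum.inr '' P.A : Set (E ⊕ E)) ∧
        P.dblQ e h = Sum.elim P.c P.c e} :=
    fun e => ⟨Sum.inr e.1, Or.inr ⟨e.1, e.2.1, rfl⟩, e.2.2⟩
  have hf1 : Function.Injective f1 := fun a b hab => by
    have := congrArg (fun e => e.1) hab
    exact Subtype.ext (Sum.inl_injective this)
  have hf2 : Function.Injective f2 := fun a b hab => by
    have := congrArg (fun e => e.1) hab
    exact Subtype.ext (Sum.inr_injective this)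
  let G1 : {e : E ⊕ E // e ∈ (Sum.inl '' P.A ∪ Sum.inr '' P.A : Set (E ⊕ E)) ∧
        P.dblQ e h = Sum.elim P.c P.c e} → (V →L[ℝ] ℝ) := fun e => g e •
          (P.dblQ e.1).comp (ContinuousLinearMap.inl ℝ V V)
  have r1 := key1 (s.preimage f1 hf1.injOn) (fun e => g (f1 e)) (by
    calc ∑ x ∈ s.preimage f1 hf1.injOn, g (f1 x) • P.q x.1 =
        ∑ x ∈ s.preimage f1 hf1.injOn, G1 (f1 x) := by
          refine Finset.sum_congr rfl fun x _ => ?_
          simp only [G1]
          rw [dblQ_inl]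
          rfl
      _ = ∑ e ∈ s, G1 e := by
          apply Finset.sum_preimage
          rintro ⟨e, he, het⟩ _ hr
          rcases e with e | e
          · exfalso
            apply hr
            rcases he with ⟨e', he', h1⟩ | ⟨e', he', h1⟩
            · cases h1
              exact ⟨⟨e, he', het⟩, rfl⟩
            · cases h1
          · simp only [G1]
            rw [dblQ_inl]
            simp
      _ = 0 := by
          have e2 := congrArg (fun l : V × V →L[ℝ] ℝ => l.comp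
            (ContinuousLinearMap.inl ℝ V V)) hs
          ext x
          have e3 := congrArg (fun l : V →L[ℝ] ℝ => l x) e2
          simp only [ContinuousLinearMap.comp_apply, _root_.sum_apply,
            _root_.smul_apply, _root_.zero_apply] at e3 ⊢
          exact e3)
  let G2 : {e : E ⊕ E // e ∈ (Sum.inl '' P.A ∪ Sum.inr '' P.A : Set (E ⊕ E)) ∧
        P.dblQ e h = Sum.elim P.c P.c e} → (V →L[ℝ] ℝ) := fun e => g e •
          (P.dblQ e.1).comp (ContinuousLinearMap.inr ℝ V V)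
  have r2 := key2 (s.preimage f2 hf2.injOn) (fun e => g (f2 e)) (by
    calc ∑ x ∈ s.preimage f2 hf2.injOn, g (f2 x) • P.q x.1 =
        ∑ x ∈ s.preimage f2 hf2.injOn, G2 (f2 x) := by
          refine Finset.sum_congr rfl fun x _ => ?_
          simp only [G2]
          rw [dblQ_inr]
          rfl
      _ = ∑ e ∈ s, G2 e := by
          apply Finset.sum_preimage
          rintro ⟨e, he, het⟩ _ hr
          rcases e with e | e
          · simp only [G2]
            rw [dblQ_inr]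
            simp
          · exfalso
            apply hr
            rcases he with ⟨e', he', h1⟩ | ⟨e', he', h1⟩
            · cases h1
            · cases h1
              exact ⟨⟨e, he', het⟩, rfl⟩
      _ = 0 := by
          have e2 := congrArg (fun l : V × V →L[ℝ] ℝ => l.comp
            (ContinuousLinearMap.inr ℝ V V)) hs
          ext x
          have e3 := congrArg (fun l : V →L[ℝ] ℝ => l x) e2
          simp only [ContinuousLinearMap.comp_apply, _root_.sum_apply,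
            _root_.smul_apply, _root_.zero_apply] at e3 ⊢
          exact e3)
  rintro ⟨e, he, het⟩ hes
  rcases e with e | e
  · rcases he with ⟨e', he', h1⟩ | ⟨e', he', h1⟩
    · cases h1
      exact r1 ⟨e, he', het⟩ (by rw [Finset.mem_preimage]; exact hes)
    · cases h1
  · rcases he with ⟨e', he', h1⟩ | ⟨e', he', h1⟩
    · cases h1
    · cases h1
      exact r2 ⟨e, he', het⟩ (by rw [Finset.mem_preimage]; exact hes)

/-- The product of a simple polyhedron with itself. -/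
def double (P : PolySys E V) : PolySys (E ⊕ E) (V × V) where
  A := Sum.inl '' P.A ∪ Sum.inr '' P.A
  q := P.dblQ
  c := Sum.elim P.c P.c
  Pos := {l | l.comp (ContinuousLinearMap.inl ℝ V V) ∈ P.Pos ∧
    l.comp (ContinuousLinearMap.inr ℝ V V) ∈ P.Pos}
  ctbl := (P.ctbl.image _).union (P.ctbl.image _)
  ne := by
    obtain ⟨h, hh⟩ := P.ne
    exact ⟨(h, h), (dbl_pi P (h, h)).2 ⟨hh, hh⟩⟩
  pos_ne := by
    obtain ⟨l, hl⟩ := P.pos_ne
    refine ⟨l.comp (ContinuousLinearMap.fst ℝ V V) + l.comp (ContinuousLinearMap.snd ℝ V V),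
      ?_, ?_⟩
    · have : (l.comp (ContinuousLinearMap.fst ℝ V V) + l.comp (ContinuousLinearMap.snd ℝ V V)).comp
          (ContinuousLinearMap.inl ℝ V V) = l := by ext x; simp
      rw [this]; exact hl
    · have : (l.comp (ContinuousLinearMap.fst ℝ V V) + l.comp (ContinuousLinearMap.snd ℝ V V)).comp
          (ContinuousLinearMap.inr ℝ V V) = l := by ext x; simp
      rw [this]; exact hl
  comp := fun l hl t => dbl_compact P hl.1 hl.2 t
  locfin := fun h hh => dbl_locfin P h hh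
  indep := fun h hh => dbl_indep P h hh
  pos_open := (P.pos_open.preimage (continuous_id.clm_comp continuous_const)).inter
    (P.pos_open.preimage (continuous_id.clm_comp continuous_const))
  pos_add := by
    rintro l ⟨hl1, hl2⟩ e he a ha
    have e1 : (l + a • P.dblQ e).comp (ContinuousLinearMap.inl ℝ V V) =
        l.comp (ContinuousLinearMap.inl ℝ V V) + a • Sum.elim P.q (fun _ => 0) e := by
      rw [← dblQ_inl]; ext x; simp
    have e2 : (l + a • P.dblQ e).comp (ContinuousLinearMap.inr ℝ V V) =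
        l.comp (ContinuousLinearMap.inr ℝ V V) + a • Sum.elim (fun _ => 0) P.q e := by
      rw [← dblQ_inr]; ext x; simp
    refine ⟨?_, ?_⟩
    · rw [e1]
      rcases he with ⟨e, he, rfl⟩ | ⟨e, he, rfl⟩
      · exact P.pos_add _ hl1 e he a ha
      · rw [Sum.elim_inr, smul_zero, add_zero]; exact hl1
    · rw [e2]
      rcases he with ⟨e, he, rfl⟩ | ⟨e, he, rfl⟩
      · rw [Sum.elim_inl, smul_zero, add_zero]; exact hl2
      · exact P.pos_add _ hl2 e he a ha
  pos_smul := by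
    rintro l ⟨hl1, hl2⟩ a ha
    have e1 : (a • l).comp (ContinuousLinearMap.inl ℝ V V) =
        a • l.comp (ContinuousLinearMap.inl ℝ V V) := by ext x; simp
    have e2 : (a • l).comp (ContinuousLinearMap.inr ℝ V V) =
        a • l.comp (ContinuousLinearMap.inr ℝ V V) := by ext x; simp
    refine ⟨?_, ?_⟩
    · rw [e1]; exact P.pos_smul _ hl1 a ha
    · rw [e2]; exact P.pos_smul _ hl2 a ha
  unb := by
    intro hb
    apply P.unb
    obtain ⟨M, hM⟩ := hb.exists_norm_le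
    obtain ⟨h, hh⟩ := P.ne
    rw [isBounded_iff_forall_norm_le]
    refine ⟨M, fun x hx => ?_⟩
    exact (norm_fst_le (x, h)).trans (hM (x, h) ((dbl_pi P (x, h)).2 ⟨hx, hh⟩))

theorem dbl_sum_inl (P : PolySys E V) (R : Finset (E ⊕ E)) :
    (∑ e ∈ R, P.dblQ e).comp (ContinuousLinearMap.inl ℝ V V) = ∑ e ∈ R.toLeft, P.q e := by
  have e1 : (∑ e ∈ R, P.dblQ e).comp (ContinuousLinearMap.inl ℝ V V) =
      ∑ e ∈ R, (P.dblQ e).comp (ContinuousLinearMap.inl ℝ V V) := by
    ext x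
    simp only [ContinuousLinearMap.comp_apply, _root_.sum_apply]
  rw [e1, Finset.sum_congr rfl (fun e _ => P.dblQ_inl e)]
  conv_lhs => rw [← R.toLeft_disjSum_toRight]
  rw [Finset.sum_disjSum]
  simp

theorem dbl_sum_inr (P : PolySys E V) (R : Finset (E ⊕ E)) :
    (∑ e ∈ R, P.dblQ e).comp (ContinuousLinearMap.inr ℝ V V) = ∑ e ∈ R.toRight, P.q e := by
  have e1 : (∑ e ∈ R, P.dblQ e).comp (ContinuousLinearMap.inr ℝ V V) =
      ∑ e ∈ R, (P.dblQ e).comp (ContinuousLinearMap.inr ℝ V V) := by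
    ext x
    simp only [ContinuousLinearMap.comp_apply, _root_.sum_apply]
  rw [e1, Finset.sum_congr rfl (fun e _ => P.dblQ_inr e)]
  conv_lhs => rw [← R.toLeft_disjSum_toRight]
  rw [Finset.sum_disjSum]
  simp

/-- The cells of the double are the pairs of cells. -/
theorem double_cell [DecidableEq E] (P : PolySys E V) (R : Finset (E ⊕ E)) :
    P.double.Cell R ↔ P.Cell R.toLeft ∧ P.Cell R.toRight := by
  constructor
  · rintro ⟨⟨hA, h, hh, ht⟩, hp1, hp2⟩
    have hh' := (dbl_pi P h).1 hh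
    refine ⟨⟨⟨?_, h.1, hh'.1, ?_⟩, ?_⟩, ⟨⟨?_, h.2, hh'.2, ?_⟩, ?_⟩⟩
    · intro e he
      rcases hA _ (Finset.mem_toLeft.1 he) with ⟨e', he', h1⟩ | ⟨e', he', h1⟩
      · cases h1; exact he'
      · cases h1
    · intro e he
      exact ht _ (Finset.mem_toLeft.1 he)
    · rw [← dbl_sum_inl]; exact hp1
    · intro e he
      rcases hA _ (Finset.mem_toRight.1 he) with ⟨e', he', h1⟩ | ⟨e', he', h1⟩
      · cases h1
      · cases h1; exact he'
    · intro e he
      exact ht _ (Finset.mem_toRight.1 he)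
    · rw [← dbl_sum_inr]; exact hp2
  · rintro ⟨⟨⟨hA1, h1, hh1, ht1⟩, hp1⟩, ⟨⟨hA2, h2, hh2, ht2⟩, hp2⟩⟩
    refine ⟨⟨?_, (h1, h2), (dbl_pi P (h1, h2)).2 ⟨hh1, hh2⟩, ?_⟩, ?_, ?_⟩
    · rintro (e | e) he
      · exact Or.inl ⟨e, hA1 e (Finset.mem_toLeft.2 he), rfl⟩
      · exact Or.inr ⟨e, hA2 e (Finset.mem_toRight.2 he), rfl⟩
    · rintro (e | e) he
      · exact ht1 e (Finset.mem_toLeft.2 he)
      · exact ht2 e (Finset.mem_toRight.2 he)
    · rw [← dbl_sum_inl] at hp1; exact hp1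
    · rw [← dbl_sum_inr] at hp2; exact hp2

/-- The basis `(b, 0)`, `(0, b)` of `V × V`. -/
def dblB {m : ℕ} (b : Module.Basis (Fin m) ℝ V) : Module.Basis (Fin (m + m)) ℝ (V × V) :=
  (b.prod b).reindex finSumFinEquiv

/-- The canonical orientation of the double. -/
def dor [DecidableEq E] (P : PolySys E V) {m : ℕ} (b : Module.Basis (Fin m) ℝ V)
    (t : Fin (m + m) → E ⊕ E) : ℤ :=
  P.double.sg (dblB b) t

theorem dbl_det {V' : Type} [NormedAddCommGroup V'] [NormedSpace ℝ V'] [FiniteDimensional ℝ V']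
    {m : ℕ} (b : Module.Basis (Fin m) ℝ V) (b' : Module.Basis (Fin m) ℝ V') (Φ : V ≃ₗ[ℝ] V') :
    (LinearMap.toMatrix (dblB b) (dblB b') ((Φ : V →ₗ[ℝ] V').prodMap (Φ : V →ₗ[ℝ] V'))).det =
      (LinearMap.toMatrix b b' (Φ : V →ₗ[ℝ] V')).det *
        (LinearMap.toMatrix b b' (Φ : V →ₗ[ℝ] V')).det := by
  rw [← Matrix.det_submatrix_equiv_self (finSumFinEquiv (m := m) (n := m))]
  have e : (LinearMap.toMatrix (dblB b) (dblB b') ((Φ : V →ₗ[ℝ] V').prodMap
      (Φ : V →ₗ[ℝ] V'))).submatrix (finSumFinEquiv (m := m) (n := m))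
      (finSumFinEquiv (m := m) (n := m)) =
      Matrix.fromBlocks (LinearMap.toMatrix b b' (Φ : V →ₗ[ℝ] V')) 0 0
        (LinearMap.toMatrix b b' (Φ : V →ₗ[ℝ] V')) := by
    ext x y
    rw [Matrix.submatrix_apply, LinearMap.toMatrix_apply, dblB, dblB,
      Module.Basis.reindex_apply, Equiv.symm_apply_apply, Module.Basis.repr_reindex_apply,
      Equiv.symm_apply_apply]
    rcases x with x | x <;> rcases y with y | y <;>
      simp [Module.Basis.prod_apply, LinearMap.toMatrix_apply]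
  rw [e, Matrix.det_fromBlocks_zero₂₁]

/-- The canonical orientation is invariant under isomorphisms. -/
theorem dor_iso [DecidableEq E] {E' V' : Type} [DecidableEq E'] [NormedAddCommGroup V']
    [NormedSpace ℝ V'] [FiniteDimensional ℝ V'] (P : PolySys E V) (P' : PolySys E' V') {m : ℕ}
    (b : Module.Basis (Fin m) ℝ V) (b' : Module.Basis (Fin m) ℝ V') (Φ : V ≃ₗ[ℝ] V')
    (σ : E → E') (hq : ∀ e ∈ P.A, ∀ h : V, P'.q (σ e) (Φ h) = P.q e h)
    (t : Fin (m + m) → E ⊕ E) (ht : ∀ i, t i ∈ P.double.A) :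
    P'.dor b' (fun i => Sum.map σ σ (t i)) = P.dor b t := by
  set C := LinearMap.toMatrix (dblB b) (dblB b') ((Φ : V →ₗ[ℝ] V').prodMap (Φ : V →ₗ[ℝ] V'))
    with hC
  have hmul : (Matrix.of fun i j => P.double.q (t i) (dblB b j)) =
      (Matrix.of fun i j => P'.double.q (Sum.map σ σ (t i)) (dblB b' j)) * C := by
    ext i j
    rw [Matrix.mul_apply, Matrix.of_apply]
    have e1 : P.double.q (t i) (dblB b j) =
        P'.double.q (Sum.map σ σ (t i)) (((Φ : V →ₗ[ℝ] V').prodMap (Φ : V →ₗ[ℝ] V'))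
          (dblB b j)) := by
      have h1 := ht i
      rcases h1 with ⟨e, he, h2⟩ | ⟨e, he, h2⟩
      · rw [← h2]
        exact (hq e he _).symm
      · rw [← h2]
        exact (hq e he _).symm
    rw [e1]
    conv_lhs => rw [← (dblB b').sum_repr (((Φ : V →ₗ[ℝ] V').prodMap (Φ : V →ₗ[ℝ] V'))
      (dblB b j)), map_sum]
    refine Finset.sum_congr rfl fun k _ => ?_
    rw [map_smul, smul_eq_mul, Matrix.of_apply, hC, LinearMap.toMatrix_apply, mul_comm]
  have hdet : P.double.dt (dblB b) t = P'.double.dt (dblB b') (fun i => Sum.map σ σ (t i)) *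
      ((LinearMap.toMatrix b b' (Φ : V →ₗ[ℝ] V')).det *
        (LinearMap.toMatrix b b' (Φ : V →ₗ[ℝ] V')).det) := by
    rw [dt, hmul, Matrix.det_mul, hC, dbl_det]
    rfl
  have hu : (LinearMap.toMatrix b b' (Φ : V →ₗ[ℝ] V')).det ≠ 0 :=
    (LinearEquiv.isUnit_det Φ b b').ne_zero
  rw [dor, dor, sg, sg, hdet, sign_mul, sign_pos (mul_self_pos.2 hu), mul_one]

end PolySys

end Pool.Agent.CG2
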