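import Pool.Agent.CG2.KoeCell
import Pool.Agent.CG2.PolyDouble

/-!
# Systems of cells for torsion free groups
-/

noncomputable section

namespace Pool.Agent.CG2

open NumberField IsDedekindDomain Matrix Pool.Agent.CG3 CategoryTheory

variable {F : Type} [Field F] [NumberField F]

section fibre

variable {K K1 : Subgroup (GA F)}

/-- The projection `Pt / K1 → Pt / K`. -/
def ProdCell_pr (K K1 : Subgroup (GA F)) (b : PtK K1) : PtK K := mkK K (outK b)

theorem ProdCell_out (y : Pt F) : ∃ κ ∈ K1, outK (mkK K1 y) = rt y κ := by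
  have h := mkK_outK (mkK K1 y)
  exact mkK_eq.1 h.symm

theorem ProdCell_pr_mk (h1 : K1 ≤ K) (y : Pt F) : ProdCell_pr K K1 (mkK K1 y) = mkK K y := by
  obtain ⟨κ, hκ, h⟩ := ProdCell_out (K1 := K1) y
  rw [ProdCell_pr, h]
  exact mkK_rt y (h1 hκ)

theorem ProdCell_pr_smul (h1 : K1 ≤ K) (γ : G F) (i : PtK K1) :
    ProdCell_pr K K1 (γ • i) = γ • ProdCell_pr K K1 i := by
  obtain ⟨y, rfl⟩ := mkK_surj i
  rw [smul_mkK, ProdCell_pr_mk h1, ProdCell_pr_mk h1, smul_mkK]

/-- The fibre over the coset of `y`. -/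
def ProdCell_rho (K K1 : Subgroup (GA F)) (y : Pt F) : K ⧸ (K1.subgroupOf K) → PtK K1 :=
  Quotient.lift (fun κ : K => mkK K1 (rt y κ)) (by
    intro a b hab
    have h := QuotientGroup.leftRel_apply.1 hab
    rw [Subgroup.mem_subgroupOf] at h
    rw [mkK_eq]
    refine ⟨_, h, ?_⟩
    rw [← rt_mul]
    congr 1
    simp)

theorem ProdCell_rho_inj (y : Pt F) : Function.Injective (ProdCell_rho K K1 y) := by
  intro a b
  induction a using Quotient.inductionOn with | _ a
  induction b using Quotient.inductionOn with | _ b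
  intro h
  change mkK K1 (rt y a) = mkK K1 (rt y b) at h
  rw [mkK_eq] at h
  obtain ⟨κ, hκ, h⟩ := h
  rw [← rt_mul] at h
  have h2 : y.2 * (b : GA F) = y.2 * ((a : GA F) * κ) := congrArg Prod.snd h
  have h3 : (b : GA F) = (a : GA F) * κ := mul_left_cancel h2
  apply Quotient.sound
  refine QuotientGroup.leftRel_apply.2 ?_
  rw [Subgroup.mem_subgroupOf, Subgroup.coe_mul, Subgroup.coe_inv, h3, inv_mul_cancel_left]
  exact hκ

theorem ProdCell_rho_range (h1 : K1 ≤ K) (y : Pt F) : Set.range (ProdCell_rho K K1 y) =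
    {i | ProdCell_pr K K1 i = mkK K y} := by
  ext i
  constructor
  · rintro ⟨a, rfl⟩
    induction a using Quotient.inductionOn with | _ a
    change ProdCell_pr K K1 (mkK K1 (rt y a)) = mkK K y
    rw [ProdCell_pr_mk h1, mkK_rt y a.2]
  · intro hi
    obtain ⟨z, rfl⟩ := mkK_surj i
    rw [Set.mem_ofPred_eq, ProdCell_pr_mk h1, eq_comm, mkK_eq] at hi
    obtain ⟨κ, hκ, rfl⟩ := hi
    exact ⟨Quotient.mk _ ⟨κ, hκ⟩, rfl⟩

open Classical in
/-- The fibre over `b`. -/
def ProdCell_J (K K1 : Subgroup (GA F)) (b : PtK K) : Finset (PtK K1) :=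
  if h : {i | ProdCell_pr K K1 i = b}.Finite then h.toFinset else ∅

variable [hfin : (K1.subgroupOf K).FiniteIndex]

theorem ProdCell_fin (h1 : K1 ≤ K) (b : PtK K) : {i | ProdCell_pr K K1 i = b}.Finite := by
  obtain ⟨y, rfl⟩ := mkK_surj b
  rw [← ProdCell_rho_range h1]
  exact Set.finite_range _

theorem ProdCell_mem_J (h1 : K1 ≤ K) {b : PtK K} {i : PtK K1} :
    i ∈ ProdCell_J K K1 b ↔ ProdCell_pr K K1 i = b := by
  rw [ProdCell_J, dif_pos (ProdCell_fin h1 b)]
  simp

theorem ProdCell_card_J (h1 : K1 ≤ K) (b : PtK K) :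
    (ProdCell_J K K1 b).card = (K1.subgroupOf K).index := by
  classical
  obtain ⟨y, rfl⟩ := mkK_surj b
  have h2 : ((ProdCell_J K K1 (mkK K y) : Finset (PtK K1)) : Set (PtK K1)) =
      Set.range (ProdCell_rho K K1 y) := by
    rw [ProdCell_rho_range h1]
    ext i
    rw [Finset.mem_coe, ProdCell_mem_J h1]
    rfl
  rw [← Set.ncard_coe_finset, h2, Set.ncard_range_of_injective (ProdCell_rho_inj y)]
  rfl

theorem ProdCell_J_ne (h1 : K1 ≤ K) (b : PtK K) : (ProdCell_J K K1 b).Nonempty := by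
  obtain ⟨y, rfl⟩ := mkK_surj b
  exact ⟨mkK K1 y, (ProdCell_mem_J h1).2 (ProdCell_pr_mk h1 y)⟩

theorem ProdCell_J_smul (h1 : K1 ≤ K) (γ : G F) {b : PtK K} {i : PtK K1} :
    γ • i ∈ ProdCell_J K K1 (γ • b) ↔ i ∈ ProdCell_J K K1 b := by
  rw [ProdCell_mem_J h1, ProdCell_mem_J h1, ProdCell_pr_smul h1]
  exact (MulAction.injective γ).eq_iff

end fibre

theorem ProdCell_toPerm_symm {Γ X : Type} [Group Γ] [MulAction Γ X] (γ : Γ) (x : X) :
    (MulAction.toPerm γ : Equiv.Perm X).symm x = γ⁻¹ • x := rfl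

theorem ProdCell_toLeft_mp {Γ X : Type} [Group Γ] [MulAction Γ X] (γ : Γ)
    (R : Finset (X ⊕ X)) : (Sel.mp (MulAction.toPerm γ) R).toLeft =
      Sel.mp (MulAction.toPerm γ) R.toLeft := by
  ext x
  rw [Finset.mem_toLeft, Sel.mem_mp, Sel.mem_mp, Finset.mem_toLeft]
  rfl

theorem ProdCell_toRight_mp {Γ X : Type} [Group Γ] [MulAction Γ X] (γ : Γ)
    (R : Finset (X ⊕ X)) : (Sel.mp (MulAction.toPerm γ) R).toRight =
      Sel.mp (MulAction.toPerm γ) R.toRight := by
  ext x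
  rw [Finset.mem_toRight, Sel.mem_mp, Sel.mem_mp, Finset.mem_toRight]
  rfl

theorem ProdCell_mem_sl {I X : Type} [DecidableEq I] [DecidableEq X] {i : I} {R : Finset (I × X)}
    {x : X} : x ∈ (R.filter fun e => e.1 = i).image Prod.snd ↔ (i, x) ∈ R := by
  rw [Finset.mem_image]
  constructor
  · rintro ⟨⟨a, b⟩, h1, h2⟩
    rw [Finset.mem_filter] at h1
    have h3 : b = x := h2
    have h4 : a = i := h1.2
    rw [← h3, ← h4]
    exact h1.1
  · intro h
    exact ⟨(i, x), Finset.mem_filter.2 ⟨h, rfl⟩, rfl⟩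

theorem ProdCell_sl_mp {Γ I X : Type} [Group Γ] [MulAction Γ I] [MulAction Γ X] [DecidableEq I]
    [DecidableEq X] (γ : Γ) (i : I) (R : Finset (I × X)) :
    ((Sel.mp (MulAction.toPerm γ) R).filter fun e => e.1 = γ • i).image Prod.snd =
      Sel.mp (MulAction.toPerm γ) ((R.filter fun e => e.1 = i).image Prod.snd) := by
  ext x
  rw [ProdCell_mem_sl, Sel.mem_mp, Sel.mem_mp, ProdCell_mem_sl, ProdCell_toPerm_symm,
    ProdCell_toPerm_symm]
  have : γ⁻¹ • (γ • i, x) = (i, γ⁻¹ • x) := by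
    rw [Prod.smul_mk, inv_smul_smul]
  rw [this]

section poly

variable {K K1 : Subgroup (GA F)} (h1 : K1 ≤ K) (h3 : K1 ≤ KN F 3)
  [hfin : (K1.subgroupOf K).FiniteIndex] (C : Cls F 3 → ℝ) (hC : GoodC 3 C)

instance ProdCell_dec (K : Subgroup (GA F)) : DecidableEq (PtK K) := Classical.decEq _

/-- The polyhedron of a point of `Pt / K1`. -/
def ProdCell_P (i : PtK K1) : PolySys (Vec F) (VR F) := koe 3 le_rfl C hC (outK i).2

theorem ProdCell_out_smul (γ : G F) (i : PtK K1) : ∃ κ ∈ K1,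
    (outK (γ • i)).2 = diag γ * (outK i).2 * κ := by
  have h : γ • i = mkK K1 (act γ (outK i)) := by
    conv_lhs => rw [← mkK_outK i, smul_mkK]
    rfl
  obtain ⟨κ, hκ, h2⟩ := ProdCell_out (K1 := K1) (act γ (outK i))
  refine ⟨κ, hκ, ?_⟩
  rw [h, h2]
  rfl

include h3 in
theorem ProdCell_P_smul (γ : G F) (i : PtK K1) (T : Finset (Vec F)) :
    (ProdCell_P C hC (γ • i)).Cell (Sel.mp (MulAction.toPerm γ) T) ↔
      (ProdCell_P C hC i).Cell T := by
  obtain ⟨κ, hκ, h⟩ := ProdCell_out_smul γ i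
  rw [ProdCell_P, ProdCell_P, h, koe_cell_iff, koe_mul 3 le_rfl C hC _ (h3 hκ), ← koe_cell_iff,
    koe_cell_smul]

/-- The product of the polyhedra of a fibre. -/
def ProdCell_Q (b : PtK K) : PolySys (PtK K1 × Vec F) (ProdCell_J K K1 b → VR F) :=
  PolySys.prod (ProdCell_J K K1 b) (ProdCell_J_ne h1 b) (ProdCell_P C hC)

include h3 in
theorem ProdCell_Q_smul (γ : G F) (b : PtK K) (R : Finset (PtK K1 × Vec F)) :
    (ProdCell_Q h1 C hC (γ • b)).Cell (Sel.mp (MulAction.toPerm γ) R) ↔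
      (ProdCell_Q h1 C hC b).Cell R := by
  rw [ProdCell_Q, ProdCell_Q, PolySys.prod_cell, PolySys.prod_cell]
  refine and_congr ?_ ?_
  · constructor
    · intro h e he
      have h2 := h (γ • e) (Sel.mem_mp.2 (by
        rw [ProdCell_toPerm_symm, inv_smul_smul]
        exact he))
      exact (ProdCell_J_smul h1 γ).1 h2
    · intro h e he
      rw [Sel.mem_mp, ProdCell_toPerm_symm] at he
      have h2 := (ProdCell_J_smul h1 γ).2 (h _ he)
      have h4 : γ • (γ⁻¹ • e).1 = e.1 := by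
        rw [Prod.smul_fst, smul_inv_smul]
      rwa [h4] at h2
  · constructor
    · intro h i hi
      have h2 := h (γ • i) ((ProdCell_J_smul h1 γ).2 hi)
      rw [ProdCell_sl_mp, ProdCell_P_smul h3] at h2
      exact h2
    · intro h i hi
      have h4 : γ • (γ⁻¹ • i) = i := smul_inv_smul _ _
      rw [← h4] at hi ⊢
      rw [ProdCell_J_smul h1] at hi
      rw [ProdCell_sl_mp, ProdCell_P_smul h3]
      exact h _ hi

include h3 in
theorem ProdCell_D_smul (γ : G F) (b : PtK K)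
    (R : Finset ((PtK K1 × Vec F) ⊕ (PtK K1 × Vec F))) :
    (ProdCell_Q h1 C hC (γ • b)).double.Cell (Sel.mp (MulAction.toPerm γ) R) ↔
      (ProdCell_Q h1 C hC b).double.Cell R := by
  rw [PolySys.double_cell, PolySys.double_cell, ProdCell_toLeft_mp, ProdCell_toRight_mp,
    ProdCell_Q_smul h1 h3, ProdCell_Q_smul h1 h3]

include h3 in
/-- The action on the cells is free. -/
theorem ProdCell_free (hTF : TorsionFree K) (γ : G F) (b : PtK K)
    (R : Finset ((PtK K1 × Vec F) ⊕ (PtK K1 × Vec F)))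
    (hR : (ProdCell_Q h1 C hC b).double.Cell R) (hb : γ • b = b)
    (hf : Sel.mp (MulAction.toPerm γ) R = R) : γ = 1 := by
  have hR1 := ((PolySys.double_cell _ _).1 hR).1
  have hf1 : Sel.mp (MulAction.toPerm γ) R.toLeft = R.toLeft := by
    rw [← ProdCell_toLeft_mp, hf]
  obtain ⟨i₀, hi₀⟩ := ProdCell_J_ne h1 b
  have hpow : ∀ n : ℕ, γ ^ n • i₀ ∈ (ProdCell_J K K1 b : Set (PtK K1)) := by
    intro n
    induction n with
    | zero => rw [pow_zero, one_smul]; exact hi₀
    | succ n ih =>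
      rw [pow_succ', mul_smul]
      have := (ProdCell_J_smul h1 γ).2 (Finset.mem_coe.1 ih)
      rw [hb] at this
      exact this
  have hpowR : ∀ n : ℕ, Sel.mp (MulAction.toPerm (γ ^ n)) R.toLeft = R.toLeft := by
    intro n
    induction n with
    | zero =>
      ext x
      rw [Sel.mem_mp, ProdCell_toPerm_symm, pow_zero, inv_one, one_smul]
    | succ n ih =>
      ext x
      rw [Sel.mem_mp, ProdCell_toPerm_symm, pow_succ, _root_.mul_inv_rev, mul_smul]
      conv_rhs => rw [← ih, Sel.mem_mp, ProdCell_toPerm_symm, ← hf1, Sel.mem_mp,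
        ProdCell_toPerm_symm]
  obtain ⟨m, n, hmn, h⟩ := Set.Finite.exists_lt_map_eq_of_forall_mem hpow (Finset.finite_toSet _)
  have hfix : γ ^ (n - m) • i₀ = i₀ := by
    have h2 : γ ^ m • (γ ^ (n - m) • i₀) = γ ^ m • i₀ := by
      rw [← mul_smul, ← pow_add, Nat.add_sub_cancel' hmn.le]
      exact h.symm
    exact MulAction.injective _ h2
  have hn : 0 < n - m := by omega
  set δ := γ ^ (n - m) with hδ
  -- the cell of the factor i₀
  have hcell := ((PolySys.prod_cell _ _ _ _).1 hR1).2 i₀ hi₀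
  have hslice : Sel.mp (MulAction.toPerm δ) ((R.toLeft.filter fun e => e.1 = i₀).image Prod.snd) =
      (R.toLeft.filter fun e => e.1 = i₀).image Prod.snd := by
    rw [← ProdCell_sl_mp, hpowR, hfix]
  have h5 : δ ^ 1 = 1 := by
    obtain ⟨κ, hκ, h6⟩ := ProdCell_out_smul δ i₀
    rw [hfix] at h6
    rw [pow_one]
    refine koe_free 3 le_rfl C hC δ (outK i₀).2 κ⁻¹ ((KN F 3).inv_mem (h3 hκ)) ?_ _ hcell hslice
    rw [eq_mul_inv_iff_mul_eq]
    exact h6.symm
  rw [pow_one] at h5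
  obtain ⟨y, rfl⟩ := mkK_surj b
  rw [smul_mkK, eq_comm, mkK_eq] at hb
  obtain ⟨κ, hκ, h6⟩ := hb
  have h7 : diag γ * y.2 = y.2 * κ := congrArg Prod.snd h6
  refine hTF y.2 γ (n - m) hn ?_ h5
  rw [mul_assoc, h7, inv_mul_cancel_left]
  exact hκ

end poly

section orient

variable {E V : Type} [NormedAddCommGroup V] [NormedSpace ℝ V] [FiniteDimensional ℝ V]

theorem ProdCell_dt_reindex (P : PolySys E V) {m m' : ℕ} (b : Module.Basis (Fin m) ℝ V)
    (e : Fin m ≃ Fin m') (t : Fin m' → E) : P.dt (b.reindex e) t = P.dt b (t ∘ e) := by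
  rw [PolySys.dt, PolySys.dt]
  have h : (Matrix.of fun i j => P.q ((t ∘ e) i) (b j)) =
      (Matrix.of fun i j => P.q (t i) ((b.reindex e) j)).submatrix e e := by
    ext i j
    simp
  rw [h, Matrix.det_submatrix_equiv_self]

theorem ProdCell_sg_reindex (P : PolySys E V) {m m' : ℕ} (b : Module.Basis (Fin m) ℝ V)
    (e : Fin m ≃ Fin m') (t : Fin m' → E) : P.sg (b.reindex e) t = P.sg b (t ∘ e) := by
  rw [PolySys.sg, PolySys.sg, ProdCell_dt_reindex]

theorem ProdCell_sg_perm [DecidableEq E] (P : PolySys E V) {m : ℕ} (b : Module.Basis (Fin m) ℝ V) (t : Fin m → E)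
    (π : Equiv.Perm (Fin m)) : P.sg b (t ∘ π) = (Equiv.Perm.sign π : ℤ) * P.sg b t := by
  rw [PolySys.sg, PolySys.sg, P.dt_perm]
  rcases Int.units_eq_one_or (Equiv.Perm.sign π) with h | h
  · rw [h]
    simp
  · rw [h]
    simp [Left.sign_neg]

theorem ProdCell_sg_sq [DecidableEq E] (P : PolySys E V) {m : ℕ} (b : Module.Basis (Fin m) ℝ V)
    (t : Fin m → E) (ht : Sel.ctc P.Face t) : P.sg b t * P.sg b t = 1 := by
  have h := P.dt_ne b t ht
  rw [PolySys.sg]
  rcases lt_or_gt_of_ne h with h | h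
  · rw [sign_neg h]; rfl
  · rw [sign_pos h]; rfl

end orient

section final

variable {K K1 : Subgroup (GA F)} (h1 : K1 ≤ K) (h3 : K1 ≤ KN F 3)
  [hfin : (K1.subgroupOf K).FiniteIndex] (C : Cls F 3 → ℝ) (hC : GoodC 3 C)

/-- The dimension of the products. -/
def ProdCell_m (K K1 : Subgroup (GA F)) : ℕ :=
  (K1.subgroupOf K).index * Module.finrank ℝ (VR F)

include h1 in
theorem ProdCell_finrank (b : PtK K) :
    Module.finrank ℝ (ProdCell_J K K1 b → VR F) = ProdCell_m K K1 := by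
  rw [Module.finrank_pi_fintype, Finset.sum_const, Finset.card_univ, Fintype.card_coe,
    ProdCell_card_J h1, smul_eq_mul, ProdCell_m]

omit hfin in
theorem ProdCell_VR_pos : 0 < Module.finrank ℝ (VR F) := by
  rw [finrank_VR]
  have h := Fintype.card_pos (α := InfinitePlace F)
  rw [InfinitePlace.card_eq_nrRealPlaces_add_nrComplexPlaces] at h
  omega

theorem ProdCell_m_pos : 0 < ProdCell_m K K1 :=
  Nat.mul_pos (Nat.pos_of_ne_zero hfin.index_ne_zero) ProdCell_VR_pos

theorem ProdCell_mm : ProdCell_m K K1 + ProdCell_m K K1 =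
    (ProdCell_m K K1 + ProdCell_m K K1 - 1) + 1 := by
  have := ProdCell_m_pos (K := K) (K1 := K1)
  omega

/-- A basis of the space of the product. -/
def ProdCell_b (b : PtK K) : Module.Basis (Fin (ProdCell_m K K1)) ℝ (ProdCell_J K K1 b → VR F) :=
  Module.finBasisOfFinrankEq ℝ _ (ProdCell_finrank h1 b)

/-- The orientation. -/
def ProdCell_sg (b : PtK K)
    (t : Fin ((ProdCell_m K K1 + ProdCell_m K K1 - 1) + 1) →
      (PtK K1 × Vec F) ⊕ (PtK K1 × Vec F)) : ℤ :=
  (ProdCell_Q h1 C hC b).double.sg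
    ((PolySys.dblB (ProdCell_b h1 b)).reindex (finCongr ProdCell_mm)) t

/-- The action on the space of the product. -/
def ProdCell_Phi (γ : G F) (b : PtK K) :
    (ProdCell_J K K1 b → VR F) ≃ₗ[ℝ] (ProdCell_J K K1 (γ • b) → VR F) where
  toFun h i := hA γ (h ⟨γ⁻¹ • i.1, by
    rw [← ProdCell_J_smul h1 γ, smul_inv_smul]
    exact i.2⟩)
  invFun h i := (hA γ).symm (h ⟨γ • i.1, (ProdCell_J_smul h1 γ).2 i.2⟩)
  map_add' a b := by
    funext i
    simp
  map_smul' c a := by
    funext i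
    simp
  left_inv h := by
    funext i
    simp
  right_inv h := by
    funext i
    simp

theorem ProdCell_sg_smul (γ : G F) (b : PtK K)
    (t : Fin ((ProdCell_m K K1 + ProdCell_m K K1 - 1) + 1) →
      (PtK K1 × Vec F) ⊕ (PtK K1 × Vec F))
    (ht : ∀ i, t i ∈ (ProdCell_Q h1 C hC b).double.A) :
    ProdCell_sg h1 C hC (γ • b) (fun i => γ • t i) = ProdCell_sg h1 C hC b t := by
  rw [ProdCell_sg, ProdCell_sg, ProdCell_sg_reindex, ProdCell_sg_reindex]
  refine PolySys.dor_iso (ProdCell_Q h1 C hC b) (ProdCell_Q h1 C hC (γ • b)) (ProdCell_b h1 b)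
    (ProdCell_b h1 (γ • b)) (ProdCell_Phi h1 γ b) (fun e => γ • e) ?_ (t ∘ finCongr ProdCell_mm)
    (fun i => ht _)
  rintro ⟨i, x⟩ ⟨hi, hx⟩ h
  have hi2 : γ • i ∈ ProdCell_J K K1 (γ • b) := (ProdCell_J_smul h1 γ).2 hi
  change PolySys.prodQ (ProdCell_J K K1 (γ • b)) (ProdCell_P C hC) (γ • i, γ • x)
    (ProdCell_Phi h1 γ b h) = PolySys.prodQ (ProdCell_J K K1 b) (ProdCell_P C hC) (i, x) h
  rw [PolySys.prodQ_apply (e := (γ • i, γ • x)) hi2, PolySys.prodQ_apply (e := (i, x)) hi]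
  change qf (γ • x) (hA γ (h _)) = qf x (h _)
  rw [hA_q]
  congr 2
  apply Subtype.ext
  exact inv_smul_smul γ i

open Classical in
/-- The system of cells. -/
def ProdCell_sys (hTF : TorsionFree K) :
    CellSys (G F) (PtK K) ((PtK K1 × Vec F) ⊕ (PtK K1 × Vec F)) where
  X b := (ProdCell_Q h1 C hC b).double.cx
  n0 := ProdCell_m K K1 + ProdCell_m K K1 - 1
  base_card b := by
    rw [PolySys.cx_base, Module.finrank_prod, ProdCell_finrank h1, ← ProdCell_mm]
  base_cell b := PolySys.cx_base_cell _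
  max b R hR := by
    rw [PolySys.cx_cell] at hR
    have := PolySys.face_card hR.1
    rwa [Module.finrank_prod, ProdCell_finrank h1, ProdCell_mm] at this
  eqv γ b R := by
    rw [PolySys.cx_cell, PolySys.cx_cell]
    exact ProdCell_D_smul h1 h3 C hC γ b R
  free γ b R hR hb hf := by
    rw [PolySys.cx_cell] at hR
    exact ProdCell_free h1 h3 C hC hTF γ b R hR hb hf
  o b t := if Sel.ctc (ProdCell_Q h1 C hC b).double.Cell t then ProdCell_sg h1 C hC b t else 0
  o_alt b := by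
    rw [PolySys.cx_cell]
    refine ⟨fun t ht => by
      by_contra h
      exact ht (if_neg h), fun t π => ?_⟩
    have hπ : Sel.ctc (ProdCell_Q h1 C hC b).double.Cell (t ∘ π) ↔
        Sel.ctc (ProdCell_Q h1 C hC b).double.Cell t := by
      rw [Sel.ctc, Sel.ctc, Sel.inj_perm, Sel.im_perm]
    simp only [hπ]
    split_ifs with h
    · rw [ProdCell_sg, ProdCell_sg_perm, smul_eq_mul, ProdCell_sg]
    · rw [smul_zero]
  o_unit b t ht := by
    rw [PolySys.cx_cell] at ht
    simp only [if_pos ht]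
    exact ProdCell_sg_sq _ _ _ ⟨ht.1, ht.2.1⟩
  o_eqv γ b t := by
    have hγ : Sel.ctc (ProdCell_Q h1 C hC (γ • b)).double.Cell (fun i => γ • t i) ↔
        Sel.ctc (ProdCell_Q h1 C hC b).double.Cell t := by
      have h2 : (fun i => γ • t i) = (MulAction.toPerm γ :
        Equiv.Perm ((PtK K1 × Vec F) ⊕ (PtK K1 × Vec F))) ∘ t := rfl
      rw [Sel.ctc, Sel.ctc, h2, Sel.comp_inj, Sel.im_comp, ProdCell_D_smul h1 h3]
    simp only [hγ]
    split_ifs with h
    · refine ProdCell_sg_smul h1 C hC γ b t fun i => ?_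
      exact h.2.1.1 _ (Sel.mem_im.2 ⟨i, rfl⟩)
    · rfl
  o_cl b t := by
    rw [PolySys.cx_cell]
    rw [Sel.dc]
    split_ifs with h
    · rw [← PolySys.sum_sg (ProdCell_Q h1 C hC b).double
        ((PolySys.dblB (ProdCell_b h1 b)).reindex (finCongr ProdCell_mm)) t h]
      refine Finset.sum_congr rfl fun ρ hρ => ?_
      rw [if_pos]
      · rfl
      · rw [← PolySys.cx_cell] at hρ h ⊢
        exact (Sel.Cx.ct_cons _ h).2 hρ
    · rfl

end final

/-- The products of the Koecher polyhedra over the fibres of `Pt / K' → Pt / K`, `K'` small. -/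
theorem exists_prodCell {K : Subgroup (GA F)} {S : Set (Pl F)} (hK : OC K S)
    (hTF : TorsionFree K) : ∃ (E : Type) (_ : MulAction (G F) E) (_ : DecidableEq E),
      Nonempty (CellSys (G F) (PtK K) E) := by
  obtain ⟨C, hC⟩ := exists_goodC (F := F) 3 (by norm_num)
  have hN := oc_KN (F := F) 3 (by norm_num)
  have hK1 := hK.inter hN
  have hfin : ((K ⊓ KN F 3).subgroupOf K).FiniteIndex := hK.finiteIndex hK1
  exact ⟨_, _, _, ⟨ProdCell_sys (K := K) (K1 := K ⊓ KN F 3) inf_le_left inf_le_right C hC hTF⟩⟩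

end Pool.Agent.CG2
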