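import Pool.Agent.CG2.FinH
import Pool.Agent.CG2.FFmod
import Pool.Agent.CG2.EigF
import Pool.Agent.CG3.Nakayama

/-!
# The top degree: reduction to small groups and constant coefficients
-/

noncomputable section

namespace Pool.Agent.CG2

open CategoryTheory NumberField IsDedekindDomain Matrix
open Pool.Agent.CG3 (nakayama_loc mem_of_support)

variable {F : Type} [Field F] [NumberField F] {S : Set (Pl F)} {K : Subgroup (GA F)}
variable {O : Type} [CommRing O]

/-- The map on cohomology is additive. -/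
theorem mapCoh_add {A B : Rep.{0} O (G F)} (f g h : A ⟶ B)
    (hh : ∀ a : A, h.hom a = f.hom a + g.hom a) (i : ℕ) (z : groupCohomology A i) :
    mapCoh h i z = mapCoh f i z + mapCoh g i z := by
  have h1 : groupCohomology.cochainsMap (MonoidHom.id (G F)) h
      = groupCohomology.cochainsMap (MonoidHom.id (G F)) f +
        groupCohomology.cochainsMap (MonoidHom.id (G F)) g := by
    ext n x
    exact hh _
  have h2 : (groupCohomology.functor O (G F) i).map h =
      (groupCohomology.functor O (G F) i).map f + (groupCohomology.functor O (G F) i).map g := by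
    change HomologicalComplex.homologyMap _ i = HomologicalComplex.homologyMap _ i +
      HomologicalComplex.homologyMap _ i
    rw [h1, HomologicalComplex.homologyMap_add]
    rfl
  unfold mapCoh
  rw [h2]
  rfl

/-- The zero map induces zero. -/
theorem mapCoh_zero {A B : Rep.{0} O (G F)} (f : A ⟶ B) (hf : ∀ a : A, f.hom a = 0) (i : ℕ)
    (z : groupCohomology A i) : mapCoh f i z = 0 := by
  have h1 := mapCoh_add f f f (fun a => by rw [hf, add_zero]) i z
  simpa using h1

theorem cohMap_sum {W W' : Type} [AddCommGroup W] [Module O W] [AddCommGroup W'] [Module O W']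
    (τ : Representation O K W) (τ' : Representation O K W') {ι : Type} (s : Finset ι)
    (φ : ι → (W →ₗ[O] W')) (hφ : ∀ j, ∀ k w, φ j (τ k w) = τ' k (φ j w))
    (ψ : W →ₗ[O] W') (hψ : ∀ k w, ψ (τ k w) = τ' k (ψ w)) (hs : ∀ w, ψ w = ∑ j ∈ s, φ j w)
    (i : ℕ) (z : groupCohomology (coeff K τ) i) :
    cohMap τ τ' ψ hψ i z = ∑ j ∈ s, cohMap τ τ' (φ j) (hφ j) i z := by
  classical
  induction s using Finset.induction_on generalizing ψ with
  | empty =>
    rw [Finset.sum_empty]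
    exact mapCoh_zero _ (fun a => by
      apply Subtype.ext
      funext y
      exact hs _) i z
  | insert j s hj ih =>
    rw [Finset.sum_insert hj]
    have hψ' : ∀ k w, (∑ j ∈ s, φ j) (τ k w) = τ' k ((∑ j ∈ s, φ j) w) := by
      intro k w
      rw [LinearMap.sum_apply, LinearMap.sum_apply, map_sum]
      exact Finset.sum_congr rfl fun j _ => hφ j k w
    rw [← ih (∑ j ∈ s, φ j) hψ' (fun w => by rw [LinearMap.sum_apply])]
    refine mapCoh_add _ _ _ (fun a => ?_) i z
    apply Subtype.ext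
    funext y
    change ψ _ = φ j _ + (∑ j ∈ s, φ j) _
    rw [hs, Finset.sum_insert hj, LinearMap.sum_apply]

/-- A subgroup of an open compact group which contains a neighbourhood of `1`. -/
theorem oc_sub (hK : OC K S) {K' : Subgroup (GA F)} (h : K' ≤ K)
    (U : ∀ v : Pl F, Subgroup (GQ v)) (hU : ∀ v, IsOpen (U v : Set (GQ v)))
    (hU' : ∀ v, v ∉ S → GZ v ≤ U v) (hUK : ∀ k ∈ K, (∀ v, k.1 v ∈ U v) → k ∈ K') :
    OC K' S := by
  obtain ⟨U₀, h1, h2, h3⟩ := hK.op
  obtain ⟨C, h4, h5, h6⟩ := hK.cp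
  refine ⟨hK.fin, ⟨fun v => U₀ v ⊓ U v, fun v => (h1 v).inter (hU v),
    fun v hv => le_inf (h2 v hv) (hU' v hv), fun k hk => ?_⟩, ⟨C, h4, h5, fun k hk v => ?_⟩⟩
  · exact hUK k (h3 k fun v => (hk v).1) fun v => (hk v).2
  · exact h6 k (h hk) v

/-- The part of the level `N` of `K` which acts trivially. -/
def Ktriv {W : Type} [AddCommGroup W] [Module O W] (τ : Representation O K W) (N : ℕ) :
    Subgroup (GA F) := (τ.ker).map K.subtype ⊓ KN F N

theorem Ktriv_le {W : Type} [AddCommGroup W] [Module O W] (τ : Representation O K W) (N : ℕ) :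
    Ktriv τ N ≤ K := by
  rintro _ ⟨⟨k, -, rfl⟩, -⟩
  exact k.2

theorem Ktriv_apply {W : Type} [AddCommGroup W] [Module O W] (τ : Representation O K W) (N : ℕ)
    (k : Ktriv τ N) : τ ⟨k.1, Ktriv_le τ N k.2⟩ = 1 := by
  obtain ⟨⟨k', hk', h⟩, -⟩ := k.2
  have : (⟨k.1, Ktriv_le τ N k.2⟩ : K) = k' := Subtype.ext h.symm
  rw [this]
  exact hk'

theorem oc_Ktriv {W : Type} [AddCommGroup W] [Module O W] (hK : OC K S)
    (τ : Representation O K W) (hsm : Smooth K τ S) (N : ℕ) (hN : N ≠ 0)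
    (hNS : ∀ v : Pl F, ((N : ℕ) : 𝓞 F) ∈ v.asIdeal → v ∈ S) : OC (Ktriv τ N) S := by
  obtain ⟨U, hU, h1, h2⟩ := hsm
  have hKN := oc_KN (F := F) N hN
  have h3 : OC (K ⊓ KN F N) S := by
    have h4 := hK.inter hKN
    have h5 : S ∪ {v : Pl F | ((N : ℕ) : 𝓞 F) ∈ v.asIdeal} = S :=
      Set.union_eq_self_of_subset_right hNS
    rwa [h5] at h4
  refine oc_sub h3 (le_inf (Ktriv_le τ N) inf_le_right) U hU h1 ?_
  rintro k ⟨hk, hkN⟩ hkU
  refine ⟨⟨⟨k, hk⟩, ?_, rfl⟩, hkN⟩
  change τ ⟨k, hk⟩ = 1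
  apply LinearMap.ext
  intro w
  have h5 := h2 ⟨k, hk⟩ hkU w
  rw [Submodule.bot_smul, Submodule.mem_bot, sub_eq_zero] at h5
  exact h5

/-- Reduction modulo the maximal ideal. -/
theorem top_mod (hK : OC K S) (hTF : TorsionFree K) [IsDomain O] [IsDiscreteValuationRing O]
    {W : Type} [AddCommGroup W] [Module O W] [Module.Finite O W]
    (τ : Representation O K W) (hU : UnramOff K τ S)
    (m : Ideal (HeckeAlg S O)) [m.IsMaximal] (hm : InSupport K τ hU (nU F) m) (ϖ : O)
    (hϖ : ϖ ∈ IsLocalRing.maximalIdeal O) (T : Submodule O W)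
    (hT : ∀ k, ∀ w ∈ T, τ k w ∈ T) (hTϖ : T = LinearMap.range (ϖ • (LinearMap.id : W →ₗ[O] W))) :
    InSupport K (quoRep τ T hT) (unram_quo hU T hT) (nU F) m := by
  have hf := fin_top (O := O) hK hTF τ
  -- an element which is not divisible by `ϖ`
  have h1 : ∃ z : groupCohomology (coeff K τ) (nU F), ∀ t ∉ m, ∀ z',
      hact K τ hU (nU F) t z ≠ ϖ • z' := by
    by_contra hc
    push Not at hc
    obtain ⟨t, ht, ht0⟩ := nakayama_loc (hact K τ hU (nU F)) ϖ hϖ m (fun z => by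
      obtain ⟨t, ht, z', hz'⟩ := hc z
      exact ⟨t, ht, z', hz'⟩)
    obtain ⟨z, hz⟩ := hm
    exact hz t ht (ht0 z)
  obtain ⟨z, hz⟩ := h1
  refine ⟨cohMap τ (quoRep τ T hT) T.mkQ (fun k w => rfl) (nU F) z, fun t ht h0 => ?_⟩
  rw [← cohMap_hecke τ (quoRep τ T hT) hU (unram_quo hU T hT) T.mkQ (fun k w => rfl)] at h0
  obtain ⟨z', hz'⟩ := cohMap_exact (subRep τ T hT) τ (quoRep τ T hT) T.subtype (fun k w => rfl)
    T.injective_subtype T.mkQ (fun k w => rfl) T.mkQ_surjective (by simp) (nU F) _ h0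
  -- multiplication by `ϖ` onto `T`
  let φ : W →ₗ[O] T := LinearMap.codRestrict T (ϖ • (LinearMap.id : W →ₗ[O] W))
    (fun w => by rw [hTϖ]; exact ⟨w, rfl⟩)
  have hφ : ∀ k w, φ (τ k w) = subRep τ T hT k (φ w) := by
    intro k w
    apply Subtype.ext
    change ϖ • τ k w = τ k (ϖ • w)
    rw [map_smul]
  have hφs : Function.Surjective φ := by
    rintro ⟨w, hw⟩
    have hw' := hw
    rw [hTϖ] at hw'
    obtain ⟨w', rfl⟩ := hw'
    exact ⟨w', rfl⟩
  have hker : ∀ k, ∀ w ∈ LinearMap.ker φ, τ k w ∈ LinearMap.ker φ := by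
    intro k w hw
    rw [LinearMap.mem_ker] at hw ⊢
    rw [hφ, hw, map_zero]
  obtain ⟨z'', hz''⟩ := cohMap_surj (subRep τ (LinearMap.ker φ) hker) τ (subRep τ T hT)
    (LinearMap.ker φ).subtype (fun k w => rfl) (LinearMap.ker φ).injective_subtype φ hφ hφs
    (by rw [Submodule.range_subtype]) (nU F) (upper K hK hTF O _ _ _ (Nat.lt_succ_self _)) z'
  apply hz t ht z''
  rw [← hz', ← hz'']
  have h2 := cohMap_comp τ (subRep τ T hT) τ φ hφ T.subtype (fun k w => rfl)
    (fun k w => by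
      change ϖ • τ k w = τ k (ϖ • w)
      rw [map_smul]) (nU F) z''
  rw [← h2]
  exact cohMap_smul τ ϖ (fun k w => by
      change ϖ • τ k w = τ k (ϖ • w)
      rw [map_smul]) (nU F) z''

/-- Coordinates of a module killed by the maximal ideal. -/
theorem exists_coord [IsLocalRing O] {V : Type} [AddCommGroup V] [Module O V] [Module.Finite O V]
    (hV : ∀ a ∈ IsLocalRing.maximalIdeal O, ∀ v : V, a • v = 0) :
    ∃ (r : ℕ) (ι : Fin r → (IsLocalRing.ResidueField O →ₗ[O] V))
      (π : Fin r → (V →ₗ[O] IsLocalRing.ResidueField O)), ∀ v, v = ∑ j, ι j (π j v) := by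
  let iM : Module (IsLocalRing.ResidueField O) V :=
    Module.IsTorsionBySet.module (M := V) (I := IsLocalRing.maximalIdeal O)
      (fun v a => hV a.1 a.2 v)
  have iT : IsScalarTower O (IsLocalRing.ResidueField O) V :=
    Module.IsTorsionBySet.isScalarTower (M := V) (I := IsLocalRing.maximalIdeal O)
      (fun v a => hV a.1 a.2 v)
  have iF : Module.Finite (IsLocalRing.ResidueField O) V :=
    Module.Finite.of_restrictScalars_finite O _ V
  let b := Module.finBasis (IsLocalRing.ResidueField O) V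
  refine ⟨_, fun j => (LinearMap.toSpanSingleton (IsLocalRing.ResidueField O) V
    (b j)).restrictScalars O, fun j => (b.coord j).restrictScalars O, fun v => ?_⟩
  exact (b.sum_repr v).symm

theorem cohMap_id {W : Type} [AddCommGroup W] [Module O W] (τ : Representation O K W)
    (h : ∀ k w, (LinearMap.id : W →ₗ[O] W) (τ k w) = τ k ((LinearMap.id : W →ₗ[O] W) w)) (i : ℕ)
    (z : groupCohomology (coeff K τ) i) : cohMap τ τ LinearMap.id h i z = z := by
  have h1 : formsMap τ τ LinearMap.id h = 𝟙 (coeff K τ) := by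
    apply Rep.hom_ext
    apply Representation.IntertwiningMap.ext
    apply LinearMap.ext
    intro f
    rfl
  rw [cohMap, h1, mapCoh_id]

/-- From trivial coefficients killed by the maximal ideal to the residue field. -/
theorem top_const [IsLocalRing O] {V : Type} [AddCommGroup V] [Module O V] [Module.Finite O V]
    (hV : ∀ a ∈ IsLocalRing.maximalIdeal O, ∀ v : V, a • v = 0) (hK : OC K S)
    (σ : Representation O K V) (hσ : ∀ k v, σ k v = v) (hU : UnramOff K σ S) (i : ℕ)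
    {R : Type} [CommRing R] (χ : HeckeAlg S O →+* R)
    (φ₁ : groupCohomology (coeff K σ) i →+ R) (hφ₁ : φ₁ ≠ 0)
    (hφ₁t : ∀ t z, φ₁ (hact K σ hU i t z) = χ t * φ₁ z) :
    ∃ (φ : groupCohomology (coeff K (triv K O (IsLocalRing.ResidueField O))) i →+ R), φ ≠ 0 ∧
      ∀ (t : HeckeAlg S O) z,
        φ (hact K (triv K O (IsLocalRing.ResidueField O)) (unram_triv hK) i t z) =
          χ t * φ z := by
  obtain ⟨r, ι, π, hιπ⟩ := exists_coord hV
  have hι : ∀ j, ∀ (k : K) a, ι j (triv K O (IsLocalRing.ResidueField O) k a) =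
      σ k (ι j a) := by
    intro j k a
    rw [hσ]
    rfl
  have hπ : ∀ j, ∀ (k : K) v, π j (σ k v) =
      triv K O (IsLocalRing.ResidueField O) k (π j v) := by
    intro j k v
    rw [hσ]
    rfl
  have hc : ∀ j, ∀ k v, (ι j ∘ₗ π j) (σ k v) = σ k ((ι j ∘ₗ π j) v) := by
    intro j k v
    rw [hσ, hσ]
  have hj : ∃ j, φ₁.comp (cohMap (triv K O (IsLocalRing.ResidueField O))
      σ (ι j) (hι j) i).toAddMonoidHom ≠ 0 := by
    by_contra hcon
    push Not at hcon
    apply hφ₁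
    ext z
    have h1 := cohMap_sum σ σ Finset.univ (fun j => ι j ∘ₗ π j) hc LinearMap.id
      (fun k w => rfl) (fun w => hιπ w) i z
    rw [cohMap_id] at h1
    rw [h1, map_sum]
    refine Finset.sum_eq_zero fun j _ => ?_
    rw [cohMap_comp σ (triv K O (IsLocalRing.ResidueField O))
      σ (π j) (hπ j) (ι j) (hι j)]
    exact DFunLike.congr_fun (hcon j) _
  obtain ⟨j, hj⟩ := hj
  refine ⟨_, hj, fun t z => ?_⟩
  have h2 := cohMap_hecke (triv K O (IsLocalRing.ResidueField O))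
      σ (unram_triv hK) hU (ι j) (hι j) i t z
  exact (congrArg φ₁ h2).trans (hφ₁t _ _)

theorem top_reduce {p : ℕ} [Fact p.Prime] (hS : ∀ v : Pl F, Above p v → v ∈ S) (hK : OC K S)
    (hTF : TorsionFree K) [IsDomain O] [IsDiscreteValuationRing O]
    {W : Type} [AddCommGroup W] [Module O W] [Module.Finite O W]
    (τ : Representation O K W) (hU : UnramOff K τ S) (hτ : Cont K τ S)
    (m : Ideal (HeckeAlg S O)) [m.IsMaximal] (hm : InSupport K τ hU (nU F) m) :
    ∃ (K' : Subgroup (GA F)) (_ : K' ≤ KN F (p ^ 2)) (hK' : OC K' S)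
      (φ : groupCohomology (coeff K' (triv K' O (IsLocalRing.ResidueField O))) (nU F) →+
        HeckeAlg S O ⧸ m), φ ≠ 0 ∧ ∀ (t : HeckeAlg S O) z,
      φ (hact K' (triv K' O (IsLocalRing.ResidueField O)) (unram_triv hK') (nU F) t z) =
        Ideal.Quotient.mk m t * φ z := by
  obtain ⟨ϖ, hϖ⟩ := IsDiscreteValuationRing.exists_irreducible O
  have hmax : IsLocalRing.maximalIdeal O = Ideal.span {ϖ} := hϖ.maximalIdeal_eq
  have hϖm : ϖ ∈ IsLocalRing.maximalIdeal O := by
    rw [hmax]; exact Ideal.mem_span_singleton_self ϖ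
  let T : Submodule O W := LinearMap.range (ϖ • (LinearMap.id : W →ₗ[O] W))
  have hT : ∀ k, ∀ w ∈ T, τ k w ∈ T := by
    rintro k _ ⟨w, rfl⟩
    exact ⟨τ k w, by simp⟩
  have hm' := top_mod hK hTF τ hU m hm ϖ hϖm T hT rfl
  set τb : Representation O K (W ⧸ T) := quoRep τ T hT with hτb
  have hUb : UnramOff K τb S := unram_quo hU T hT
  have hf := fin_top (O := O) hK hTF τb
  obtain ⟨φ₀, hφ₀, hφ₀t⟩ := exists_eigf (hact K τb hUb (nU F)) m hm'
  have hkill : ∀ a ∈ IsLocalRing.maximalIdeal O, ∀ v : W ⧸ T, a • v = 0 := by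
    intro a ha v
    rw [hmax] at ha
    obtain ⟨c, rfl⟩ := Ideal.mem_span_singleton'.1 ha
    obtain ⟨w, rfl⟩ := Submodule.Quotient.mk_surjective T v
    rw [← Submodule.Quotient.mk_smul, Submodule.Quotient.mk_eq_zero]
    exact ⟨c • w, by
      change ϖ • c • w = (c * ϖ) • w
      rw [smul_smul, mul_comm]⟩
  have hsm : Smooth K τb S := by
    obtain ⟨U, hU', h1, hk⟩ := hτ 1
    refine ⟨U, hU', h1, fun k hkU v => ?_⟩
    obtain ⟨w, rfl⟩ := Submodule.Quotient.mk_surjective T v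
    have h2 := hk k hkU w
    rw [hmax, pow_one, Submodule.ideal_span_singleton_smul] at h2
    obtain ⟨w', _, hw'⟩ := h2
    rw [Submodule.bot_smul, Submodule.mem_bot]
    change Submodule.Quotient.mk (τ k w) - Submodule.Quotient.mk w = (0 : W ⧸ T)
    rw [← Submodule.Quotient.mk_sub, Submodule.Quotient.mk_eq_zero]
    exact ⟨w', hw'⟩
  have hp : p.Prime := Fact.out
  have hN : p ^ 2 ≠ 0 := pow_ne_zero 2 hp.ne_zero
  have hNS : ∀ v : Pl F, ((p ^ 2 : ℕ) : 𝓞 F) ∈ v.asIdeal → v ∈ S := by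
    intro v hv
    apply hS
    rw [Nat.cast_pow] at hv
    exact v.isPrime.mem_of_pow_mem 2 hv
  have hK' : OC (Ktriv τb (p ^ 2)) S := oc_Ktriv hK τb hsm _ hN hNS
  have hle : Ktriv τb (p ^ 2) ≤ K := Ktriv_le τb _
  have hfin : Finite (Qt K (Ktriv τb (p ^ 2))) := finite_Qt hK hK'
  have hft : Fintype (Qt K (Ktriv τb (p ^ 2))) := Fintype.ofFinite _
  have htr := tr_surj hle τb (nU F) (fun W₁ _ _ τ₁ => upper K hK hTF O W₁ τ₁ _
    (Nat.lt_succ_self _))
  have hUr : UnramOff (Ktriv τb (p ^ 2)) (resRep hle τb) S :=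
    unram_res hle hUb fun v hv k hk => hK'.single hv hk
  let φ₁ : groupCohomology (coeff (Ktriv τb (p ^ 2)) (resRep hle τb)) (nU F) →+
      HeckeAlg S O ⧸ m := φ₀.comp (mapCoh (trHom hle τb) (nU F)).toAddMonoidHom
  have hφ₁ : φ₁ ≠ 0 := by
    intro h0
    apply hφ₀
    ext z
    obtain ⟨z', rfl⟩ := htr z
    exact DFunLike.congr_fun h0 z'
  have hφ₁t : ∀ t z, φ₁ (hact _ (resRep hle τb) hUr (nU F) t z) =
      Ideal.Quotient.mk m t * φ₁ z := by
    intro t z
    change φ₀ (mapCoh (trHom hle τb) (nU F) _) = _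
    rw [hact_comm (resRep hle τb) τb hUr hUb (trHom hle τb) (tr_hecke hle τb hUb hUr), hφ₀t]
    rfl
  have htriv : ∀ (k : Ktriv τb (p ^ 2)) (v : W ⧸ T), resRep hle τb k v = v := by
    intro k v
    rw [resRep_apply, Ktriv_apply]
    rfl
  obtain ⟨φ, h1, h2⟩ := top_const hkill hK' (resRep hle τb) htriv hUr (nU F)
    (Ideal.Quotient.mk m) φ₁ hφ₁ hφ₁t
  exact ⟨Ktriv τb (p ^ 2), inf_le_right, hK', φ, h1, h2⟩

end Pool.Agent.CG2
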