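import Pool.Agent.CG2.CohMap

/-!
# The trace map from a smaller group
-/

noncomputable section

namespace Pool.Agent.CG2

open CategoryTheory NumberField IsDedekindDomain Matrix

variable {F : Type} [Field F] [NumberField F] {S : Set (Pl F)}
variable {O : Type} [CommRing O] {W : Type} [AddCommGroup W] [Module O W]
variable {K K' : Subgroup (GA F)}

/-- The restriction of a representation to a smaller group. -/
def resRep (h : K' ≤ K) (τ : Representation O K W) : Representation O K' W :=
  τ.comp (Subgroup.inclusion h)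

theorem resRep_apply (h : K' ≤ K) (τ : Representation O K W) (k : K') (w : W) :
    resRep h τ k w = τ ⟨k.1, h k.2⟩ w := rfl

/-- The cosets `K / K'`. -/
abbrev Qt (K K' : Subgroup (GA F)) : Type := K ⧸ K'.subgroupOf K

/-- The term `κ f(y κ)` for the coset `κ K'`. -/
def trTerm (h : K' ≤ K) (τ : Representation O K W) (f : Forms K' (resRep h τ)) (y : Pt F)
    (c : Qt K K') : W :=
  Quotient.liftOn' c (fun κ : K => τ κ (f.1 (rt y κ.1))) (by
    intro a b hab
    rw [QuotientGroup.leftRel_apply] at hab
    have h1 : (a⁻¹ * b : K).1 ∈ K' := hab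
    have h2 := f.2 (rt y a.1) ⟨_, h1⟩
    have h3 : rt (rt y a.1) ((a⁻¹ * b : K).1) = rt y b.1 := by
      rw [← rt_mul, Subgroup.coe_mul, Subgroup.coe_inv, mul_inv_cancel_left]
    have h4 : (f.1 (rt y b.1)) = τ (a⁻¹ * b)⁻¹ (f.1 (rt y a.1)) := by
      rw [← h3]
      exact h2
    change τ a (f.1 (rt y a.1)) = τ b (f.1 (rt y b.1))
    rw [h4, ← Module.End.mul_apply, ← map_mul]
    congr 2
    group)

theorem trTerm_mk (h : K' ≤ K) (τ : Representation O K W) (f : Forms K' (resRep h τ)) (y : Pt F)
    (κ : K) : trTerm h τ f y (κ : Qt K K') = τ κ (f.1 (rt y κ.1)) := rfl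

theorem trTerm_rt (h : K' ≤ K) (τ : Representation O K W) (f : Forms K' (resRep h τ)) (y : Pt F)
    (k : K) (c : Qt K K') : trTerm h τ f (rt y k.1) c = τ k⁻¹ (trTerm h τ f y (k • c)) := by
  induction c using QuotientGroup.induction_on with
  | H κ =>
    have h1 : k • (κ : Qt K K') = ((k * κ : K) : Qt K K') := rfl
    rw [h1, trTerm_mk, trTerm_mk, ← Module.End.mul_apply, ← map_mul, inv_mul_cancel_left,
      Subgroup.coe_mul, rt_mul]

/-- The induced representation. -/
def indRep (K' : Subgroup (GA F)) (τ : Representation O K W) :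
    Representation O K (Qt K K' → W) where
  toFun k :=
    { toFun := fun f c => τ k (f (k⁻¹ • c))
      map_add' := fun a b => by
        funext c
        exact map_add _ _ _
      map_smul' := fun r a => by
        funext c
        exact map_smul _ _ _ }
  map_one' := by
    apply LinearMap.ext
    intro f
    funext c
    change τ 1 (f ((1 : K)⁻¹ • c)) = f c
    rw [map_one, inv_one, one_smul]
    rfl
  map_mul' a b := by
    apply LinearMap.ext
    intro f
    funext c
    change τ (a * b) (f ((a * b)⁻¹ • c)) = τ a (τ b (f (b⁻¹ • a⁻¹ • c)))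
    rw [map_mul, _root_.mul_inv_rev, mul_smul]
    rfl

theorem indRep_apply (τ : Representation O K W) (k : K) (f : Qt K K' → W) (c : Qt K K') :
    indRep K' τ k f c = τ k (f (k⁻¹ • c)) := rfl

/-- The map from the functions of level `K'` to the functions of level `K` with values in the
induced representation. -/
def toInd (h : K' ≤ K) (τ : Representation O K W) :
    coeff K' (resRep h τ) ⟶ coeff K (indRep K' τ) :=
  Rep.ofHom
    { toLinearMap :=
        { toFun := fun f => ⟨fun y c => trTerm h τ f y c, fun y k => by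
            funext c
            change trTerm h τ f (rt y k.1) c = τ k⁻¹ (trTerm h τ f y ((k⁻¹)⁻¹ • c))
            rw [inv_inv]
            exact trTerm_rt h τ f y k c⟩
          map_add' := fun a b => by
            apply Subtype.ext
            funext y c
            induction c using QuotientGroup.induction_on with
            | H κ => exact map_add _ _ _
          map_smul' := fun r a => by
            apply Subtype.ext
            funext y c
            induction c using QuotientGroup.induction_on with
            | H κ => exact map_smul _ _ _ }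
      isIntertwining' := by
        intro γ
        apply LinearMap.ext
        intro f
        apply Subtype.ext
        funext y c
        induction c using QuotientGroup.induction_on with
        | H κ =>
          change τ κ (f.1 (act γ⁻¹ (rt y κ.1))) = τ κ (f.1 (rt (act γ⁻¹ y) κ.1))
          rw [act_rt] }

/-- The inverse of `toInd`. -/
def ofInd (h : K' ≤ K) (τ : Representation O K W) :
    coeff K (indRep K' τ) ⟶ coeff K' (resRep h τ) :=
  Rep.ofHom
    { toLinearMap :=
        { toFun := fun f => ⟨fun y => f.1 y ((1 : K) : Qt K K'), fun y k => by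
            have h1 := f.2 y ⟨k.1, h k.2⟩
            have h2 := congrFun h1 ((1 : K) : Qt K K')
            refine h2.trans ?_
            change τ _ (f.1 y (((⟨k.1, h k.2⟩ : K)⁻¹)⁻¹ • ((1 : K) : Qt K K'))) =
              τ _ (f.1 y ((1 : K) : Qt K K'))
            have h3 : ((⟨k.1, h k.2⟩ : K)⁻¹)⁻¹ • ((1 : K) : Qt K K') = ((1 : K) : Qt K K') := by
              rw [inv_inv]
              change ((⟨k.1, h k.2⟩ * 1 : K) : Qt K K') = ((1 : K) : Qt K K')
              rw [mul_one]
              apply QuotientGroup.eq.2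
              rw [mul_one]
              exact K'.inv_mem k.2
            rw [h3]
            rfl⟩
          map_add' := fun a b => rfl
          map_smul' := fun r a => rfl }
      isIntertwining' := by
        intro γ
        apply LinearMap.ext
        intro f
        apply Subtype.ext
        funext y
        rfl }

theorem ofInd_toInd (h : K' ≤ K) (τ : Representation O K W) :
    ofInd h τ ≫ toInd h τ = 𝟙 (coeff K (indRep K' τ)) := by
  apply Rep.hom_ext
  apply Representation.IntertwiningMap.ext
  apply LinearMap.ext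
  intro f
  apply Subtype.ext
  funext y c
  induction c using QuotientGroup.induction_on with
  | H κ =>
    change τ κ ((f : Forms K (indRep K' τ)).1 (rt y κ.1) ((1 : K) : Qt K K')) =
      (f : Forms K (indRep K' τ)).1 y (κ : Qt K K')
    rw [(f : Forms K (indRep K' τ)).2 y κ, indRep_apply, ← Module.End.mul_apply, ← map_mul,
      mul_inv_cancel, map_one, inv_inv]
    change (f : Forms K (indRep K' τ)).1 y ((κ * 1 : K) : Qt K K') = _
    rw [mul_one]

/-- The sum map. -/
def sumMap [Fintype (Qt K K')] (W : Type) [AddCommGroup W] [Module O W] :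
    (Qt K K' → W) →ₗ[O] W where
  toFun f := ∑ c, f c
  map_add' a b := Finset.sum_add_distrib
  map_smul' r a := by
    simp only [Pi.smul_apply, RingHom.id_apply, Finset.smul_sum]

theorem sumMap_eqv [Fintype (Qt K K')] (τ : Representation O K W) (k : K) (f : Qt K K' → W) :
    sumMap (O := O) W (indRep K' τ k f) = τ k (sumMap (O := O) W f) := by
  change ∑ c, τ k (f (k⁻¹ • c)) = τ k (∑ c, f c)
  rw [map_sum]
  exact Fintype.sum_equiv (MulAction.toPerm k⁻¹) _ _ fun c => rfl

/-- The trace. -/
def trHom [Fintype (Qt K K')] (h : K' ≤ K) (τ : Representation O K W) :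
    coeff K' (resRep h τ) ⟶ coeff K τ :=
  toInd h τ ≫ formsMap (indRep K' τ) τ (sumMap W) (sumMap_eqv τ)

theorem trHom_apply [Fintype (Qt K K')] (h : K' ≤ K) (τ : Representation O K W)
    (f : Forms K' (resRep h τ)) (y : Pt F) :
    ((trHom h τ).hom f : Forms K τ).1 y = ∑ c : Qt K K', trTerm h τ f y c := rfl

/-- The trace is surjective on `Hⁱ` if all groups `Hⁱ⁺¹` vanish. -/
theorem tr_surj [Fintype (Qt K K')] (h : K' ≤ K) (τ : Representation O K W) (i : ℕ)
    (hvan : ∀ (W₁ : Type) [AddCommGroup W₁] [Module O W₁] (τ₁ : Representation O K W₁),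
      Subsingleton (groupCohomology (coeff K τ₁) (i + 1))) :
    Function.Surjective (mapCoh (trHom h τ) i) := by
  classical
  intro z
  let T : Submodule O (Qt K K' → W) := LinearMap.ker (sumMap (K := K) (K' := K') W)
  have hT : ∀ k, ∀ w ∈ T, indRep K' τ k w ∈ T := by
    intro k w hw
    rw [LinearMap.mem_ker] at hw ⊢
    rw [sumMap_eqv, hw, map_zero]
  have hsurj : Function.Surjective (sumMap (O := O) (K := K) (K' := K') W) := by
    intro w
    refine ⟨fun c => if c = ((1 : K) : Qt K K') then w else 0, ?_⟩
    change ∑ c, (if c = ((1 : K) : Qt K K') then w else 0) = w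
    rw [Finset.sum_ite_eq' Finset.univ, if_pos (Finset.mem_univ _)]
  obtain ⟨z', hz'⟩ := cohMap_surj (subRep (indRep K' τ) T hT) (indRep K' τ) τ T.subtype
    (fun k w => rfl) T.injective_subtype (sumMap W) (sumMap_eqv τ) hsurj (by
      rw [Submodule.range_subtype]) i (hvan _ _) z
  refine ⟨mapCoh (ofInd h τ) i z', ?_⟩
  rw [trHom, ← mapCoh_comp, ← Category.assoc, ofInd_toInd, Category.id_comp]
  exact hz'

/-- A representative of a coset with trivial component at `v`. -/
theorem exists_rep {v : Pl F} (hK' : ∀ k ∈ K, single v (k.1 v) ∈ K') (h : K' ≤ K)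
    (c : Qt K K') : ∃ κ : K, (κ : Qt K K') = c ∧ κ.1.1 v = 1 := by
  induction c using QuotientGroup.induction_on with
  | H κ =>
    have h1 : single v (κ.1.1 v) ∈ K' := hK' κ.1 κ.2
    refine ⟨κ * ⟨(single v (κ.1.1 v))⁻¹, K.inv_mem (h h1)⟩, ?_, ?_⟩
    · apply QuotientGroup.eq.2
      rw [_root_.mul_inv_rev, mul_assoc, inv_mul_cancel, mul_one]
      exact K'.inv_mem (K'.inv_mem h1)
    · change κ.1.1 v * ((single v (κ.1.1 v))⁻¹ : GA F).1 v = 1
      rw [Subgroup.coe_inv, Pi.inv_apply, single_same, mul_inv_cancel]

theorem tr_hecke [Fintype (Qt K K')] (h : K' ≤ K) (τ : Representation O K W)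
    (hU : UnramOff K τ S) (hU' : UnramOff K' (resRep h τ) S) (t : Idx S) :
    trHom h τ ≫ heckeHom K τ hU t = heckeHom K' (resRep h τ) hU' t ≫ trHom h τ := by
  apply Rep.hom_ext
  apply Representation.IntertwiningMap.ext
  apply LinearMap.ext
  intro f
  apply Subtype.ext
  funext y
  change ∑ a ∈ (cosets_finite t.1.1 t.2).toFinset, ∑ c : Qt K K',
      trTerm h τ f (rt y (single t.1.1 (Quotient.out a))) c =
    ∑ c : Qt K K', trTerm h τ (heckeLin K' (resRep h τ) hU' t f) y c
  rw [Finset.sum_comm]
  refine Finset.sum_congr rfl fun c _ => ?_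
  obtain ⟨κ, rfl, hκ⟩ := exists_rep (K := K) (K' := K') (v := t.1.1)
    (fun k hk => (hU' _ t.1.2).mem _ ((hU _ t.1.2).le k hk)) h c
  rw [trTerm_mk]
  change _ = τ κ (∑ a ∈ (cosets_finite t.1.1 t.2).toFinset,
    (f : Forms K' (resRep h τ)).1 (rt (rt y κ.1) (single t.1.1 (Quotient.out a))))
  rw [map_sum]
  refine Finset.sum_congr rfl fun a _ => ?_
  rw [trTerm_mk, ← rt_mul, ← rt_mul, single_comm' _ hκ]

theorem unram_res (h : K' ≤ K) {τ : Representation O K W} (hU : UnramOff K τ S)
    (hK' : ∀ v, v ∉ S → ∀ k ∈ GZ v, single v k ∈ K') : UnramOff K' (resRep h τ) S := by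
  intro v hv
  refine ⟨fun k hk => (hU v hv).le k (h hk), fun k hk => hK' v hv k hk, fun k hk => ?_⟩
  exact (hU v hv).triv k hk

end Pool.Agent.CG2
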