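import Pool.Agent.CG2.ProdCell
import Pool.Agent.CG2.Trace

/-!
# The vanishing of the cohomology above the dimension, for torsion free groups
-/

noncomputable section

namespace Pool.Agent.CG2

open NumberField IsDedekindDomain Matrix Pool.Agent.CG3 CategoryTheory

variable {F : Type} [Field F] [NumberField F]

/-- A crude bound. -/
theorem crude {K : Subgroup (GA F)} {S : Set (Pl F)} (hK : OC K S) (hTF : TorsionFree K) :
    ∃ N₀ : ℕ, ∀ (O : Type) [CommRing O] (W : Type) [AddCommGroup W] [Module O W]
      (τ : Representation O K W) (i : ℕ), N₀ < i →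
      Subsingleton (groupCohomology (coeff K τ) i) := by
  obtain ⟨E, iE, dE, ⟨C⟩⟩ := exists_prodCell hK hTF
  refine ⟨C.n0 + 1, ?_⟩
  intro O _ W _ _ τ i hi
  have h1 := C.vanish (forms_coef τ) (c0 := 0) (fun _ _ _ => Nat.zero_le _) i (by omega)
  rwa [forms_rep] at h1

/-- The intersection of a group with a principal congruence subgroup. -/
abbrev Kin (K : Subgroup (GA F)) (N : ℕ) : Subgroup (GA F) := K ⊓ KN F N

theorem finite_Qt {K K' : Subgroup (GA F)} {S S' : Set (Pl F)} (hK : OC K S) (hK' : OC K' S') :
    Finite (Qt K K') := by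
  have := OC.finiteIndex hK hK'
  exact Subgroup.finite_quotient_of_finiteIndex

/-- **U** the upper part. -/
theorem upper {S : Set (Pl F)} (K : Subgroup (GA F)) (hK : OC K S) (hTF : TorsionFree K)
    (O : Type) [CommRing O] (W : Type) [AddCommGroup W] [Module O W]
    (τ : Representation O K W) (i : ℕ) (hi : nU F < i) :
    Subsingleton (groupCohomology (coeff K τ) i) := by
  classical
  obtain ⟨N₀, hN₀⟩ := crude hK hTF
  have key : ∀ (d i : ℕ), nU F < i → N₀ < i + d → ∀ (W : Type) [AddCommGroup W] [Module O W]
      (τ : Representation O K W), Subsingleton (groupCohomology (coeff K τ) i) := by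
    intro d
    induction d with
    | zero =>
      intro i _ h W _ _ τ
      exact hN₀ O W τ i (by omega)
    | succ d ih =>
      intro i hi h W _ _ τ
      have hK3 : OC (KN F 3) {v | ((3 : ℕ) : 𝓞 F) ∈ v.asIdeal} := oc_KN 3 (by norm_num)
      have hK' := hK.inter hK3
      have hfin : Finite (Qt K (Kin K 3)) := finite_Qt hK hK'
      have hft : Fintype (Qt K (Kin K 3)) := Fintype.ofFinite _
      have h1 := tr_surj (K' := Kin K 3) inf_le_left τ i (fun W₁ _ _ τ₁ =>
        ih (i + 1) (by omega) (by omega) W₁ τ₁)
      have h2 := upper_small (N := 3) le_rfl (K := Kin K 3) inf_le_right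
        (resRep inf_le_left τ) i hi
      exact h1.subsingleton
  exact key (N₀ + 1) i hi (by omega) W τ

end Pool.Agent.CG2
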